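import Mathlib

set_option autoImplicit false

open Polynomial

namespace Pool.Agent.LNDQ

/-- `R` is, inside the domain `S`, a discrete valuation ring with residue field `k` and uniformiser `u`, and `u`
is a prime of `S` -/
structure Fr {k S : Type} [Field k] [CommRing S] [Algebra k S] (R : Subalgebra k S) (u : R) : Prop where
  prime : Prime (u : S)
  res : ∀ r : R, ∃ (c : k) (r' : R), r = algebraMap k R c + u * r'
  inv : ∀ r : R, ¬ (u : S) ∣ (r : S) → IsUnit r
  sep : ∀ z : S, z ≠ 0 → ∃ n : ℕ, ¬ (u : S) ^ n ∣ z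
  sat : ∀ z : S, (u : S) * z ∈ R → z ∈ R

/-- a presentation `v y = f(x)` over a ring `R` -/
structure Pres {R S : Type} [CommRing R] [CommRing S] [Algebra R S] (f : R[X]) (v x y : S) : Prop where
  monic : f.Monic
  deg : 2 ≤ f.natDegree
  rel : v * y = aeval x f
  ind : AlgebraicIndependent R ![v, x]

/-- moves between presentations with the same polynomial `f` -/
inductive Mv (k : Type) {R S : Type} [CommRing k] [CommRing R] [CommRing S] [Algebra k S] [Algebra R S]
    (f : R[X]) : S → S → S → S → S → S → Prop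
  | refl (v x y : S) : Mv k f v x y v x y
  | elem {v x y v' x' y' : S} (q : k[X]) (y'' : S) (h : Mv k f v x y v' x' y')
      (e : v' * y'' = aeval (x' + v' * aeval v' q) f) : Mv k f v x y v' (x' + v' * aeval v' q) y''
  | swap {v x y v' x' y' : S} (h : Mv k f v x y v' x' y') : Mv k f v x y y' x' v'

/-- the basis element of degree `n` -/
def bs {S : Type} [CommRing S] (β : ℕ) (x y : S) (n : ℕ) : S := x ^ (n % β) * y ^ (n / β)

/-- the elements of degree `< n` of `R[v,x,y]` -/
def Low (R : Type) {S : Type} [CommRing R] [CommRing S] [Algebra R S] (β : ℕ) (v x y : S) (n : ℕ) :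
    Submodule R S :=
  Submodule.span R {z | ∃ i j : ℕ, j < n ∧ z = v ^ i * bs β x y j}

/-- the ring `R[v,x,y]` -/
def Cx {k S : Type} [Field k] [CommRing S] [Algebra k S] (R : Subalgebra k S) (v x y : S) :
    Subalgebra k S := (Algebra.adjoin R {v, x, y}).restrictScalars k

section lead

variable {k S : Type} [Field k] [CommRing S] [Algebra k S] (R : Subalgebra k S) (u : R) (β : ℕ)
  (v x y : S)

/-- `z` has degree `≤ n` and coefficient `a(v) / u ^ M` in degree `n` -/
def LT (n M : ℕ) (a : R[X]) (z : S) : Prop :=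
  ∃ t : ℕ, (u : S) ^ (M + t) * z - (u : S) ^ t * (aeval v a * bs β x y n) ∈ Low R β v x y n

/-- `z` has degree `< n` -/
def Fl (n : ℕ) (z : S) : Prop := ∃ m : ℕ, (u : S) ^ m * z ∈ Low R β v x y n

/-- `M` is the largest exponent of `u` in the denominators of coefficients in degree `n` -/
structure IsEps (n M : ℕ) : Prop where
  ex : ∃ (z : S) (a : R[X]), ¬ C u ∣ a ∧ LT R u β v x y n M a z
  max : ∀ (z : S) (m : ℕ) (a : R[X]), LT R u β v x y n m a z → C u ^ m ∣ a * C u ^ M

end lead

/-- the environment: `S` over `R`, with a presentation generating `S[1/u]` -/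
structure Env {k S : Type} [Field k] [CommRing S] [Algebra k S] (R : Subalgebra k S) (u : R) (f : R[X])
    (v x y : S) : Prop where
  fr : Fr R u
  pres : Pres f v x y
  kap : ∀ z : S, ∃ m : ℕ, (u : S) ^ m * z ∈ Cx R v x y
  eps : ∀ n : ℕ, ∃ M : ℕ, IsEps R u f.natDegree v x y n M
  vtr : ∀ a : R[X], (u : S) ∣ aeval v a → C u ∣ a

/-- adapted elements exist in all degrees -/
def Q1A {k S : Type} [Field k] [CommRing S] [Algebra k S] (R : Subalgebra k S) (u : R) (f : R[X])
    (v x y : S) : Prop :=
  ∀ n M : ℕ, IsEps R u f.natDegree v x y n M → ∃ z : S, LT R u f.natDegree v x y n M 1 z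

/-- the residue rings of `C = R[v,x,y]` and `S` modulo `u` -/
structure Red {k S R0 T : Type} [Field k] [CommRing S] [Algebra k S] [CommRing R0] [Algebra k R0]
    [CommRing T] [Algebra k T] {R : Subalgebra k S} (u : R) (C : Subalgebra k S) (ρ : C →ₐ[k] R0)
    (σ : S →ₐ[k] T) (π : R0 →ₐ[k] T) : Prop where
  rs : Function.Surjective ρ
  rk : ∀ z : C, ρ z = 0 ↔ ∃ w : C, (z : S) = u * w
  ss : Function.Surjective σ
  sk : ∀ z : S, σ z = 0 ↔ (u : S) ∣ z
  comp : ∀ z : C, π (ρ z) = σ z

/-- the element `G` of degree `N` by which one can divide, with its exponent `W` -/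
structure GD {k S : Type} [Field k] [CommRing S] [Algebra k S] (R : Subalgebra k S) (u : R) (β : ℕ)
    (v x y : S) (N W W0 e : ℕ) (G : S) : Prop where
  pos : 0 < N
  dvd : β ∣ N
  lead : LT R u β v x y N W 1 G
  eps : IsEps R u β v x y N W
  eps0 : IsEps R u β v x y (N - 1) W0
  We : W = W0 + e
  div : ∀ z : S, ∃ s t : S, z = s * G + t ∧ Fl R u β v x y N t

end Pool.Agent.LNDQ
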