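import Mathlib

/-!
Extension of a derivation to a localization (group FI of the proof of Q1 for MP_821812).
-/

set_option autoImplicit false

namespace Pool.Agent.LNDQ

section ext

variable {k B S : Type*} [Field k] [CommRing B] [CommRing S] [IsDomain S] [Algebra k B]
  [Algebra B S] [Algebra k S] [IsScalarTower k B S] (M : Submonoid B) [IsLocalization M S]

/-- extension of a derivation to the localization: the function -/
noncomputable def exFun (E : Derivation k B B) (x : S) : S :=
  (algebraMap B S (E (IsLocalization.sec M x).1) -
    x * algebraMap B S (E (IsLocalization.sec M x).2)) *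
      IsLocalization.mk' S 1 (IsLocalization.sec M x).2

theorem map_ne_of_mem {m : B} (hm : m ∈ M) : algebraMap B S m ≠ 0 :=
  (IsLocalization.map_units S ⟨m, hm⟩).ne_zero

theorem exFun_spec (hinj : Function.Injective (algebraMap B S)) (E : Derivation k B B) {x : S}
    {b m : B} (hm : m ∈ M) (h : x * algebraMap B S m = algebraMap B S b) :
    exFun M E x * algebraMap B S m = algebraMap B S (E b) - x * algebraMap B S (E m) := by
  set c := (IsLocalization.sec M x).1 with hc
  set t := (IsLocalization.sec M x).2 with ht
  have h1 : x * algebraMap B S (t : B) = algebraMap B S c := IsLocalization.sec_spec M x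
  have ht0 : algebraMap B S (t : B) ≠ 0 := map_ne_of_mem M t.2
  have h2 : b * (t : B) = c * m := hinj (by
    rw [map_mul, map_mul, ← h, ← h1]
    ring)
  have h3 := congrArg E h2
  rw [Derivation.leibniz, Derivation.leibniz] at h3
  simp only [smul_eq_mul] at h3
  have h4 := congrArg (algebraMap B S) h3
  simp only [map_add, map_mul] at h4
  have h5 : algebraMap B S (t : B) * IsLocalization.mk' S 1 t = 1 := by
    rw [mul_comm, IsLocalization.mk'_spec, map_one]
  have h6 : exFun M E x * algebraMap B S (t : B) =
      algebraMap B S (E c) - x * algebraMap B S (E (t : B)) := by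
    unfold exFun
    rw [← hc, ← ht, mul_assoc, mul_comm (IsLocalization.mk' S 1 t), h5, mul_one]
  apply mul_right_cancel₀ ht0
  have h7 : exFun M E x * algebraMap B S m * algebraMap B S (t : B) =
      (algebraMap B S (E c) - x * algebraMap B S (E (t : B))) * algebraMap B S m := by
    rw [← h6]
    ring
  rw [h7]
  linear_combination (-1 : S) * h4 - algebraMap B S (E (t : B)) * h +
    algebraMap B S (E m) * h1

/-- extension of a derivation to the localization -/
noncomputable def exD (hinj : Function.Injective (algebraMap B S)) (E : Derivation k B B) :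
    Derivation k S S where
  toFun := exFun M E
  map_add' := by
    intro x y
    obtain ⟨⟨b, m⟩, h1⟩ := IsLocalization.surj M x
    obtain ⟨⟨c, n⟩, h2⟩ := IsLocalization.surj M y
    simp only at h1 h2
    have e1 := exFun_spec M hinj E m.2 h1
    have e2 := exFun_spec M hinj E n.2 h2
    have h3 : (x + y) * algebraMap B S ((m : B) * n) = algebraMap B S (b * n + c * m) := by
      rw [map_mul, map_add, map_mul, map_mul, ← h1, ← h2]
      ring
    have e3 := exFun_spec M hinj E (mul_mem m.2 n.2) h3
    apply mul_right_cancel₀ (map_ne_of_mem (S := S) M (mul_mem m.2 n.2))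
    rw [e3]
    simp only [map_add, Derivation.leibniz, smul_eq_mul, map_mul]
    linear_combination (-algebraMap B S (n : B)) * e1 - algebraMap B S (m : B) * e2 -
      algebraMap B S (E n) * h1 - algebraMap B S (E m) * h2
  map_smul' := by
    intro r x
    obtain ⟨⟨b, m⟩, h1⟩ := IsLocalization.surj M x
    simp only at h1
    have e1 := exFun_spec M hinj E m.2 h1
    have h3 : (r • x) * algebraMap B S (m : B) = algebraMap B S (r • b) := by
      rw [smul_mul_assoc, h1, Algebra.smul_def, Algebra.smul_def, map_mul,
        ← IsScalarTower.algebraMap_apply]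
    have e3 := exFun_spec M hinj E m.2 h3
    apply mul_right_cancel₀ (map_ne_of_mem (S := S) M m.2)
    rw [e3, RingHom.id_apply, smul_mul_assoc, smul_mul_assoc, e1, Derivation.map_smul]
    simp only [Algebra.smul_def, map_mul, ← IsScalarTower.algebraMap_apply]
    ring
  map_one_eq_zero' := by
    change exFun M E 1 = 0
    have h3 : (1 : S) * algebraMap B S 1 = algebraMap B S 1 := one_mul _
    have e3 := exFun_spec M hinj E (one_mem M) h3
    simpa using e3
  leibniz' := by
    intro x y
    obtain ⟨⟨b, m⟩, h1⟩ := IsLocalization.surj M x
    obtain ⟨⟨c, n⟩, h2⟩ := IsLocalization.surj M y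
    simp only at h1 h2
    have e1 := exFun_spec M hinj E m.2 h1
    have e2 := exFun_spec M hinj E n.2 h2
    have h3 : (x * y) * algebraMap B S ((m : B) * n) = algebraMap B S (b * c) := by
      rw [map_mul, map_mul, ← h1, ← h2]
      ring
    have e3 := exFun_spec M hinj E (mul_mem m.2 n.2) h3
    apply mul_right_cancel₀ (map_ne_of_mem (S := S) M (mul_mem m.2 n.2))
    change exFun M E (x * y) * _ = (x * exFun M E y + y * exFun M E x) * _
    rw [e3]
    simp only [map_add, Derivation.leibniz, smul_eq_mul, map_mul]
    linear_combination (-(x * algebraMap B S (m : B))) * e2 - (y * algebraMap B S (n : B)) * e1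
      - algebraMap B S (E c) * h1 - algebraMap B S (E b) * h2

theorem exD_spec (hinj : Function.Injective (algebraMap B S)) (E : Derivation k B B) {x : S}
    {b m : B} (hm : m ∈ M) (h : x * algebraMap B S m = algebraMap B S b) :
    exD M hinj E x * algebraMap B S m = algebraMap B S (E b) - x * algebraMap B S (E m) :=
  exFun_spec M hinj E hm h

theorem exD_alg (hinj : Function.Injective (algebraMap B S)) (E : Derivation k B B) (b : B) :
    exD M hinj E (algebraMap B S b) = algebraMap B S (E b) := by
  have h := exD_spec M hinj E (x := algebraMap B S b) (b := b) (one_mem M)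
    (by rw [map_one, mul_one])
  simpa using h

theorem exD_iter_alg (hinj : Function.Injective (algebraMap B S)) (E : Derivation k B B) (n : ℕ)
    (b : B) : (⇑(exD M hinj E))^[n] (algebraMap B S b) = algebraMap B S ((⇑E)^[n] b) := by
  induction n generalizing b with
  | zero => rfl
  | succ n ih => rw [Function.iterate_succ_apply, exD_alg, ih, Function.iterate_succ_apply]

/-- a derivation of `B` which kills `M` -/
theorem exD_mul_const (hinj : Function.Injective (algebraMap B S)) (E : Derivation k B B) {m : B}
    (hE : E m = 0) (x : S) :
    exD M hinj E (algebraMap B S m * x) = algebraMap B S m * exD M hinj E x := by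
  rw [Derivation.leibniz, exD_alg, hE, map_zero, smul_zero, add_zero, smul_eq_mul]

end ext

end Pool.Agent.LNDQ
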