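import Mathlib
import Pool.Agent.LNDQ.Defs
import Pool.Agent.LNDQ.LocDer
import Pool.Agent.LNDF.GeoDefs
import Pool.Agent.LNDF.FinDefs
import Pool.Agent.LNDF.ArDefs

set_option autoImplicit false

open Polynomial

namespace Pool.Agent.LNDQ

open Pool.Agent.LNDF

variable {k : Type} [Field k]

/-- the polynomials `q(u)`, `q(0) ≠ 0` -/
def Mu (u : B3 k) : Submonoid (B3 k) where
  carrier := {b | ∃ q : k[X], q.eval 0 ≠ 0 ∧ b = aeval u q}
  one_mem' := ⟨1, by simp, by simp⟩
  mul_mem' := by
    rintro a b ⟨p, hp, rfl⟩ ⟨q, hq, rfl⟩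
    exact ⟨p * q, by rw [eval_mul]; exact mul_ne_zero hp hq, by simp⟩

/-- the ring `S` of the fractions `b / q(u)` -/
def SL (u : B3 k) : Type := Localization (Mu u)

noncomputable instance instCR (u : B3 k) : CommRing (SL u) :=
  inferInstanceAs (CommRing (Localization (Mu u)))

noncomputable instance instAB (u : B3 k) : Algebra (B3 k) (SL u) :=
  inferInstanceAs (Algebra (B3 k) (Localization (Mu u)))

instance instLoc (u : B3 k) : IsLocalization (Mu u) (SL u) :=
  inferInstanceAs (IsLocalization (Mu u) (Localization (Mu u)))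

noncomputable instance instAk (u : B3 k) : Algebra k (SL u) :=
  ((algebraMap (B3 k) (SL u)).comp (algebraMap k (B3 k))).toAlgebra

instance instST (u : B3 k) : IsScalarTower k (B3 k) (SL u) :=
  IsScalarTower.of_algebraMap_eq fun _ => rfl

/-- the map `B → S` -/
noncomputable abbrev io (u : B3 k) (b : B3 k) : SL u := algebraMap (B3 k) (SL u) b

/-- the ring `R` of the fractions `p(u) / q(u)` -/
def RR (u : B3 k) : Subalgebra k (SL u) where
  carrier := {s | ∃ p q : k[X], q.eval 0 ≠ 0 ∧ s * io u (aeval u q) = io u (aeval u p)}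
  mul_mem' := by
    rintro a b ⟨p, q, hq, h⟩ ⟨p', q', hq', h'⟩
    refine ⟨p * p', q * q', by rw [eval_mul]; exact mul_ne_zero hq hq', ?_⟩
    simp only [io, map_mul] at h h' ⊢
    rw [← h, ← h']
    ring
  add_mem' := by
    rintro a b ⟨p, q, hq, h⟩ ⟨p', q', hq', h'⟩
    refine ⟨p * q' + p' * q, q * q', by rw [eval_mul]; exact mul_ne_zero hq hq', ?_⟩
    simp only [io, map_mul, map_add] at h h' ⊢
    rw [← h, ← h']
    ring
  algebraMap_mem' := by
    intro r
    refine ⟨C r, 1, by simp, ?_⟩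
    simp only [io, map_one, mul_one, aeval_C]
    rw [← IsScalarTower.algebraMap_apply]

/-- the uniformiser -/
noncomputable def uu (u : B3 k) : RR u := ⟨io u u, X, 1, by simp, by simp⟩

/-- the extension of a derivation of `B` to `S` exists -/
theorem exS_exists (u : B3 k) (D : Derivation k (B3 k) (B3 k)) :
    ∃ D' : Derivation k (SL u) (SL u), ∀ b, D' (io u b) = io u (D b) := by
  by_cases h0 : (0 : B3 k) ∈ Mu u
  · have h1 : Subsingleton (SL u) := by
      have h2 : algebraMap (B3 k) (SL u) 0 = 0 := map_zero _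
      have h3 := IsLocalization.map_units (SL u) (⟨0, h0⟩ : Mu u)
      change IsUnit (algebraMap (B3 k) (SL u) 0) at h3
      rw [h2, isUnit_zero_iff] at h3
      exact subsingleton_of_zero_eq_one h3
    exact ⟨0, fun b => Subsingleton.elim _ _⟩
  · have h1 : Mu u ≤ nonZeroDivisors (B3 k) := by
      intro m hm
      rw [mem_nonZeroDivisors_iff_ne_zero]
      rintro rfl
      exact h0 hm
    have h2 : IsDomain (SL u) := by
      have h : IsDomain (Localization (Mu u)) := IsLocalization.isDomain_localization h1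
      exact h
    have h3 : Function.Injective (algebraMap (B3 k) (SL u)) := IsLocalization.injective (SL u) h1
    exact ⟨exD (Mu u) h3 D, fun b => exD_alg (Mu u) h3 D b⟩

/-- the extension of a derivation of `B` to `S` -/
noncomputable def exS (u : B3 k) (D : Derivation k (B3 k) (B3 k)) : Derivation k (SL u) (SL u) :=
  Classical.choose (exS_exists u D)

theorem exS_io (u : B3 k) (D : Derivation k (B3 k) (B3 k)) (b : B3 k) :
    exS u D (io u b) = io u (D b) := Classical.choose_spec (exS_exists u D) b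

/-- partial derivatives on `S` -/
noncomputable def pS (u : B3 k) (i : Fin 3) : Derivation k (SL u) (SL u) :=
  exS u (MvPolynomial.pderiv i)

/-- Jacobian determinant on `S` -/
noncomputable def jS (u : B3 k) (a b c : SL u) : SL u :=
  Matrix.det !![pS u 0 a, pS u 1 a, pS u 2 a; pS u 0 b, pS u 1 b, pS u 2 b;
    pS u 0 c, pS u 1 c, pS u 2 c]

/-- the datum of the induction -/
structure Dat (u v0 : B3 k) (D : Derivation k (B3 k) (B3 k)) (f : (RR u)[X]) (v x y : SL u) (e : ℕ) :
    Prop where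
  ne : ∃ b, D b ≠ 0
  ln : ∀ b, ∃ n, (⇑D)^[n] b = 0
  irr : ∀ p : B3 k, Prime p → D p = 0 → ∃ b, ¬ p ∣ D b
  ind : AlgebraicIndependent k ![u, v0]
  ker : ∀ b, D b = 0 ↔ b ∈ Algebra.adjoin k {u, v0}
  pres : Pres f v x y
  kap : ∀ z : SL u, ∃ m : ℕ, io u u ^ m * z ∈ Cx (RR u) v x y
  kerS : ∀ z : SL u, exS u D z = 0 ↔ z ∈ Algebra.adjoin (RR u) {v}
  vtr : ∀ a : (RR u)[X], io u u ∣ aeval v a → C (uu u) ∣ a
  jac : ∃ w : RR u, IsUnit w ∧ jS u (io u u) v x = w * io u u ^ e * v
  jD : ∃ w : RR u, IsUnit w ∧ ∀ z : SL u, exS u D z = w * jS u (io u u) v z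

end Pool.Agent.LNDQ
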