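import Mathlib
import Pool.Agent.LNDT.Main

set_option autoImplicit false

open Polynomial

namespace Pool.Agent.LNDQ

open Pool.Agent.LNDHom Pool.Agent.LNDF Pool.Agent.LNDT

variable {k B : Type} [Field k] [CharZero k] [CommRing B] [IsDomain B] [Algebra k B]
  [UniqueFactorizationMonoid B]

/-- CHAIN OF DIVISORS (`LNDF.exists_chain` for blocks). If for any two primes in `Z` all blocks `≤ M` divide one
another, there is a chain of divisors of `N` which contains `1`, `N` and all blocks `≤ M` of all primes in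
`Z`. -/
theorem exists_chain_blk {D : Derivation k B B} (hln : ∀ x, ∃ n, (⇑D)^[n] x = 0)
    (N : ℕ) (hN : 0 < N) (hnp : ∀ p : B, Prime p → D p = 0 → npB D p ∣ N)
    (Z : Set B) (hZ : ∀ p ∈ Z, Prime p ∧ D p = 0) (M : ℕ)
    (hyp : ∀ p ∈ Z, ∀ q ∈ Z, p ≠ q → ∀ a b : ℕ, IsBlock D hln p a → IsBlock D hln q b →
      a ≤ M → b ≤ M → a ∣ b ∨ b ∣ a) :
    ∃ (t : ℕ) (ch : ℕ → ℕ), ch 0 = 1 ∧ ch t = N ∧ (∀ i < t, ch i ∣ ch (i + 1)) ∧
      (∀ i < t, ch i < ch (i + 1)) ∧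
      ∀ p ∈ Z, ∀ b, IsBlock D hln p b → b ≤ M → ∃ i ≤ t, ch i = b := by
  have hbN : ∀ p ∈ Z, ∀ b, IsBlock D hln p b → b ∣ N := fun p hp b hb =>
    hb.dvd_npB.1.trans (hnp p (hZ p hp).1 (hZ p hp).2)
  have key := chG_chain_of_set hN (S := {b | b = 1 ∨ b = N ∨ ∃ p ∈ Z, IsBlock D hln p b ∧ b ≤ M})
    (Or.inl rfl) (Or.inr (Or.inl rfl)) ?_ ?_
  · obtain ⟨t, ch, h0, ht, hd, hl, hb⟩ := key
    exact ⟨t, ch, h0, ht, hd, hl, fun p hp b hpb hbM =>
      hb b (Or.inr (Or.inr ⟨p, hp, hpb, hbM⟩))⟩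
  · rintro b (rfl | rfl | ⟨p, hp, hb, -⟩)
    · exact one_dvd _
    · exact dvd_rfl
    · exact hbN p hp b hb
  · rintro a ha b hb hab
    have haN : a ∣ N ∧ 0 < a := by
      rcases ha with rfl | rfl | ⟨p, hp, hb, -⟩
      · exact ⟨one_dvd _, one_pos⟩
      · exact ⟨dvd_rfl, hN⟩
      · exact ⟨hbN p hp a hb, hb.dvd_npB.2⟩
    rcases hb with rfl | rfl | ⟨q, hq, hb, hbM⟩
    · have : a = 1 := by omega
      rw [this]
    · exact haN.1
    · rcases ha with rfl | rfl | ⟨p, hp, ha, haM⟩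
      · exact one_dvd _
      · have h1 := Nat.le_of_dvd hN (hbN q hq b hb)
        have h2 : a = b := by omega
        rw [h2]
      · by_cases hpq : p = q
        · subst hpq
          obtain ⟨h1, h2, h3, h4⟩ := ha
          obtain ⟨_, _, _, h8⟩ := hb
          exact h4.dvd h8 hab
        · rcases hyp p hp q hq hpq a b ha hb haM hbM with h | h
          · exact h
          · rw [hab.antisymm (Nat.le_of_dvd haN.2 h)]

/-- `LNDT.chain_at` with a hypothesis on the blocks only -/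
theorem chain_at_blk {D : Derivation k B B} (hln : ∀ x, ∃ n, (⇑D)^[n] x = 0)
    (hirr : ∀ p : B, Prime p → D p = 0 → ∃ x, ¬ p ∣ D x) (A : Arith D) {G : B}
    (hG : (⇑D)^[A.N] G = A.cc A.N) {r : B} (hr : D r = A.cc 1)
    (n : ℕ) (m : Ideal (kerAlg D)) (hm : m.IsMaximal)
    (hyp : ∀ p q : kerAlg D, Prime (p : B) → Prime (q : B) → p ∈ m → q ∈ m →
      ¬ Associated (p : B) (q : B) →
        ∀ a b : ℕ, IsBlock D hln (p : B) a → IsBlock D hln (q : B) b → a ≤ n → b ≤ n →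
          a ∣ b ∨ b ∣ a) :
    ∃ (a : kerAlg D) (x : B), a ∉ m ∧ (⇑D)^[n + 1] x = 0 ∧ (⇑D)^[n] x = a * A.cc n := by
  have hc0 : A.cc n ≠ 0 := (A.isCC n).ne
  have hmp := hm.isPrime
  -- the primes in `m`
  let Z : Set B := {p | Prime p ∧ ∃ h : D p = 0, (⟨p, h⟩ : kerAlg D) ∈ m ∧
    Quot.out (Associates.mk p) = p}
  have hZ : ∀ p ∈ Z, Prime p ∧ D p = 0 := fun p hp => ⟨hp.1, hp.2.choose⟩
  have hunit : ∀ u : B, IsUnit u → D u = 0 := fun u hu =>
    const_of_dvd D hln D.map_one_eq_zero one_ne_zero (isUnit_iff_dvd_one.1 hu)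
  have hrep : ∀ p : B, Prime p → ∀ h : D p = 0, (⟨p, h⟩ : kerAlg D) ∈ m →
      ∃ q ∈ Z, Associated p q := by
    intro p hp h hpm
    have h1 : Associates.mk (Quot.out (Associates.mk p)) = Associates.mk p := Quot.out_eq _
    have h2 : Associated p (Quot.out (Associates.mk p)) :=
      (Associates.mk_eq_mk_iff_associated.1 h1).symm
    obtain ⟨u, hu⟩ := h2
    have h3 : D (Quot.out (Associates.mk p)) = 0 := by
      rw [← hu, Derivation.leibniz, h, hunit _ u.isUnit, smul_zero, smul_zero, add_zero]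
    refine ⟨Quot.out (Associates.mk p), ⟨(Associated.prime_iff ⟨u, hu⟩).1 hp, h3, ?_, ?_⟩, ⟨u, hu⟩⟩
    · have : (⟨Quot.out (Associates.mk p), h3⟩ : kerAlg D) =
          ⟨(u : B), hunit _ u.isUnit⟩ * ⟨p, h⟩ := Subtype.ext (by
        show Quot.out (Associates.mk p) = (u : B) * p
        rw [mul_comm]
        exact hu.symm)
      rw [this]
      exact m.mul_mem_left _ hpm
    · rw [h1]
  have hyp' : ∀ p ∈ Z, ∀ q ∈ Z, p ≠ q → ∀ a b : ℕ, IsBlock D hln p a → IsBlock D hln q b →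
      a ≤ n → b ≤ n → a ∣ b ∨ b ∣ a := by
    rintro p ⟨hp1, hp2, hp3, hp4⟩ q ⟨hq1, hq2, hq3, hq4⟩ hpq
    have hna : ¬ Associated p q := by
      intro h
      apply hpq
      rw [← hp4, ← hq4, Associates.mk_eq_mk_iff_associated.2 h]
    exact hyp ⟨p, hp2⟩ ⟨q, hq2⟩ hp1 hq1 hp3 hq3 hna
  obtain ⟨t, ch, h0, ht, hdvd, hlt, hblk⟩ := exists_chain_blk hln A.N A.N_pos A.npN Z hZ n hyp'
  obtain ⟨x, hx1, hx2, hx3⟩ := chain_local hln hirr hr (A.isCC 1) A.N_pos (A.isCC A.N) hG A.cc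
    A.isCC Z hZ t ch h0 ht hdvd hlt n hblk n le_rfl
  obtain ⟨a, ha⟩ := (A.isCC n).dvd x hx1
  have ha0 : a ≠ 0 := by
    rintro rfl
    exact hx2 (by rw [ha, mul_zero])
  have hDx : D ((⇑D)^[n] x) = 0 := by
    rw [← Function.iterate_succ_apply' (⇑D) n x]
    exact hx1
  have hDa : D a = 0 := const_of_dvd D hln hDx hx2 ⟨A.cc n, by rw [ha, mul_comm]⟩
  refine ⟨⟨a, hDa⟩, x, fun ham => ?_, hx1, by rw [ha, mul_comm]⟩
  -- a prime factor of `a` in `m`
  have hfac : ∀ a : B, a ≠ 0 → ∀ h : D a = 0, (⟨a, h⟩ : kerAlg D) ∈ m →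
      ∃ p : B, Prime p ∧ p ∣ a ∧ ∃ h : D p = 0, (⟨p, h⟩ : kerAlg D) ∈ m := by
    intro a
    induction a using UniqueFactorizationMonoid.induction_on_prime with
    | h₁ => exact fun h => absurd rfl h
    | h₂ u hu =>
      intro _ h hum
      exfalso
      obtain ⟨w, hw⟩ := hu.exists_right_inv
      apply hmp.ne_top
      rw [Ideal.eq_top_iff_one]
      have : (1 : kerAlg D) = ⟨w, hunit w (IsUnit.of_mul_eq_one u (by rw [mul_comm]; exact hw))⟩ *
          ⟨u, h⟩ := Subtype.ext (by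
        show (1 : B) = w * u
        rw [mul_comm, hw])
      rw [this]
      exact m.mul_mem_left _ hum
    | h₃ a p ha' hp ih =>
      intro hpa h hm'
      have hDp : D p = 0 := const_of_dvd D hln h hpa (dvd_mul_right p a)
      have hDa : D a = 0 := const_of_dvd D hln h hpa (dvd_mul_left a p)
      have : (⟨p * a, h⟩ : kerAlg D) = ⟨p, hDp⟩ * ⟨a, hDa⟩ := rfl
      rw [this] at hm'
      rcases hmp.mem_or_mem hm' with h1 | h1
      · exact ⟨p, hp, dvd_mul_right p a, hDp, h1⟩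
      · obtain ⟨q, hq, hqa, hDq, hqm⟩ := ih ha' hDa h1
        exact ⟨q, hq, hqa.mul_left p, hDq, hqm⟩
  obtain ⟨p, hp, hpa, hDp, hpm⟩ := hfac a ha0 hDa ham
  obtain ⟨q, hqZ, hpq⟩ := hrep p hp hDp hpm
  have hqa : q ∣ a := hpq.symm.dvd.trans hpa
  have hqp : Prime q := hqZ.1
  have hall : ∀ s : ℕ, q ^ s ∣ A.cc n := by
    intro s
    induction s with
    | zero => rw [pow_zero]; exact one_dvd _
    | succ s ih =>
      rw [← hx3 q hqZ (s + 1), ha, pow_succ]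
      exact mul_dvd_mul ih hqa
  obtain ⟨s, hs⟩ := FiniteMultiplicity.of_not_isUnit hqp.not_isUnit hc0
  exact hs (hall (s + 1))

end Pool.Agent.LNDQ
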