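import Mathlib
import Pool.Agent.LNDQ.BlkAt

set_option autoImplicit false

open Polynomial

namespace Pool.Agent.LNDQ

open Pool.Agent.LNDHom Pool.Agent.LNDF Pool.Agent.LNDT

variable {k B : Type} [Field k] [CharZero k] [CommRing B] [IsDomain B] [Algebra k B]
  [UniqueFactorizationMonoid B]

/-- `LNDT.chain_at` for a set `Z` of representatives of the primes in `m`, with a hypothesis on blocks -/
theorem chain_at_rep {D : Derivation k B B} (hln : ∀ x, ∃ n, (⇑D)^[n] x = 0)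
    (hirr : ∀ p : B, Prime p → D p = 0 → ∃ x, ¬ p ∣ D x) (A : Arith D) {G : B}
    (hG : (⇑D)^[A.N] G = A.cc A.N) {r : B} (hr : D r = A.cc 1)
    (n : ℕ) (m : Ideal (kerAlg D)) (hm : m.IsMaximal) (Z : Set B)
    (hZ : ∀ p ∈ Z, Prime p ∧ D p = 0)
    (hrep : ∀ p : B, Prime p → ∀ h : D p = 0, (⟨p, h⟩ : kerAlg D) ∈ m → ∃ q ∈ Z, Associated p q)
    (hyp : ∀ p ∈ Z, ∀ q ∈ Z, p ≠ q → ∀ a b : ℕ, IsBlock D hln p a → IsBlock D hln q b →
      a ≤ n → b ≤ n → a ∣ b ∨ b ∣ a) :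
    ∃ (a : kerAlg D) (x : B), a ∉ m ∧ (⇑D)^[n + 1] x = 0 ∧ (⇑D)^[n] x = a * A.cc n := by
  have hc0 : A.cc n ≠ 0 := (A.isCC n).ne
  have hmp := hm.isPrime
  have hunit : ∀ u : B, IsUnit u → D u = 0 := fun u hu =>
    const_of_dvd D hln D.map_one_eq_zero one_ne_zero (isUnit_iff_dvd_one.1 hu)
  obtain ⟨t, ch, h0, ht, hdvd, hlt, hblk⟩ := exists_chain_blk hln A.N A.N_pos A.npN Z hZ n hyp
  obtain ⟨x, hx1, hx2, hx3⟩ := chain_local hln hirr hr (A.isCC 1) A.N_pos (A.isCC A.N) hG A.cc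
    A.isCC Z hZ t ch h0 ht hdvd hlt n hblk n le_rfl
  obtain ⟨a, ha⟩ := (A.isCC n).dvd x hx1
  have ha0 : a ≠ 0 := by
    rintro rfl
    exact hx2 (by rw [ha, mul_zero])
  have hDx : D ((⇑D)^[n] x) = 0 := by
    rw [← Function.iterate_succ_apply' (⇑D) n x]
    exact hx1
  have hDa : D a = 0 := const_of_dvd D hln hDx hx2 ⟨A.cc n, by rw [ha, mul_comm]⟩
  refine ⟨⟨a, hDa⟩, x, fun ham => ?_, hx1, by rw [ha, mul_comm]⟩
  -- a prime factor of `a` in `m`
  have hfac : ∀ a : B, a ≠ 0 → ∀ h : D a = 0, (⟨a, h⟩ : kerAlg D) ∈ m →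
      ∃ p : B, Prime p ∧ p ∣ a ∧ ∃ h : D p = 0, (⟨p, h⟩ : kerAlg D) ∈ m := by
    intro a
    induction a using UniqueFactorizationMonoid.induction_on_prime with
    | h₁ => exact fun h => absurd rfl h
    | h₂ u hu =>
      intro _ h hum
      exfalso
      obtain ⟨w, hw⟩ := hu.exists_right_inv
      apply hmp.ne_top
      rw [Ideal.eq_top_iff_one]
      have : (1 : kerAlg D) = ⟨w, hunit w (IsUnit.of_mul_eq_one u (by rw [mul_comm]; exact hw))⟩ *
          ⟨u, h⟩ := Subtype.ext (by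
        show (1 : B) = w * u
        rw [mul_comm, hw])
      rw [this]
      exact m.mul_mem_left _ hum
    | h₃ a p ha' hp ih =>
      intro hpa h hm'
      have hDp : D p = 0 := const_of_dvd D hln h hpa (dvd_mul_right p a)
      have hDa : D a = 0 := const_of_dvd D hln h hpa (dvd_mul_left a p)
      have : (⟨p * a, h⟩ : kerAlg D) = ⟨p, hDp⟩ * ⟨a, hDa⟩ := rfl
      rw [this] at hm'
      rcases hmp.mem_or_mem hm' with h1 | h1
      · exact ⟨p, hp, dvd_mul_right p a, hDp, h1⟩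
      · obtain ⟨q, hq, hqa, hDq, hqm⟩ := ih ha' hDa h1
        exact ⟨q, hq, hqa.mul_left p, hDq, hqm⟩
  obtain ⟨p, hp, hpa, hDp, hpm⟩ := hfac a ha0 hDa ham
  obtain ⟨q, hqZ, hpq⟩ := hrep p hp hDp hpm
  have hqa : q ∣ a := hpq.symm.dvd.trans hpa
  have hqp : Prime q := (hZ q hqZ).1
  have hall : ∀ s : ℕ, q ^ s ∣ A.cc n := by
    intro s
    induction s with
    | zero => rw [pow_zero]; exact one_dvd _
    | succ s ih =>
      rw [← hx3 q hqZ (s + 1), ha, pow_succ]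
      exact mul_dvd_mul ih hqa
  obtain ⟨s, hs⟩ := FiniteMultiplicity.of_not_isUnit hqp.not_isUnit hc0
  exact hs (hall (s + 1))

end Pool.Agent.LNDQ
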