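import Mathlib
import Pool.Agent.LNDQ.Defs

set_option autoImplicit false

open Polynomial

namespace Pool.Agent.LNDQ

namespace BlkDeg

section poly

variable {k : Type} [Field k]

theorem step {f0 P H Q H' Q' : k[X]} (h1 : P * Q = f0.comp H)
    (h2 : P * Q' = f0.comp H') (h3 : P = 0 → ∃ d : k, Q' = Q + C d)
    (hP : f0.natDegree ∣ P.natDegree) :
    f0.natDegree ∣ Q.natDegree ↔ f0.natDegree ∣ Q'.natDegree := by
  by_cases hP0 : P = 0
  · obtain ⟨d, rfl⟩ := h3 hP0
    rw [natDegree_add_C]
  · have key : ∀ {H Q : k[X]}, P * Q = f0.comp H → f0.natDegree ∣ Q.natDegree := by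
      intro H Q h
      by_cases hQ : Q = 0
      · rw [hQ, natDegree_zero]; exact dvd_zero _
      · have h4 := congrArg natDegree h
        rw [natDegree_mul hP0 hQ, natDegree_comp] at h4
        have h5 : f0.natDegree ∣ P.natDegree + Q.natDegree := by rw [h4]; exact dvd_mul_right _ _
        exact (Nat.dvd_add_right hP).1 h5
    exact ⟨fun _ => key h2, fun _ => key h1⟩

/-- a polynomial whose composition with a monic one of positive degree is zero is constant -/
theorem const_of_comp {f0 H : k[X]} (hd : 0 < f0.natDegree) (h : f0.comp H = 0) :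
    ∃ d : k, H = C d := by
  have h1 := congrArg natDegree h
  rw [natDegree_comp, natDegree_zero] at h1
  rcases Nat.mul_eq_zero.1 h1 with h2 | h2
  · omega
  · exact ⟨H.coeff 0, eq_C_of_natDegree_eq_zero h2⟩

end poly

variable {k S T : Type} [Field k] [CommRing S] [IsDomain S] [Algebra k S] [CommRing T] [IsDomain T]
  [Algebra k T] {R : Subalgebra k S} {f : R[X]} {v x y : S}

omit [IsDomain S] [IsDomain T] in
theorem map_aeval (σ : S →ₐ[k] T) (ε : R →ₐ[k] k)
    (hε : ∀ r : R, σ (r : S) = algebraMap k T (ε r)) (z : S) (g : R[X]) :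
    σ (aeval z g) = aeval (σ z) (g.map (ε : R →+* k)) := by
  rw [aeval_def, aeval_def, eval₂_map]
  have := Polynomial.hom_eval₂ g (algebraMap R S) (σ : S →+* T) z
  have h2 : (σ : S →+* T).comp (algebraMap R S) = (algebraMap k T).comp (ε : R →+* k) := by
    ext r
    exact hε r
  have h3 : σ (eval₂ (algebraMap R S) z g) = (σ : S →+* T) (eval₂ (algebraMap R S) z g) := rfl
  rw [h3, this, h2]
  rfl

omit [IsDomain S] in
/-- difference of two values, with a quotient in the ring generated -/
theorem sub_factor (x h : S) (g : R[X]) : ∃ z ∈ Algebra.adjoin R ({x, h} : Set S),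
    aeval (x + h) g - aeval x g = z * h := by
  let A := Algebra.adjoin R ({x, h} : Set S)
  have hx : x ∈ A := Algebra.subset_adjoin (by simp)
  have hh : h ∈ A := Algebra.subset_adjoin (by simp)
  let xx : A := ⟨x, hx⟩
  let hh' : A := ⟨h, hh⟩
  obtain ⟨z, hz⟩ := Polynomial.sub_dvd_eval_sub (xx + hh') xx (g.map (algebraMap R A))
  refine ⟨z, z.2, ?_⟩
  have h1 := congrArg (A.val : A → S) hz
  rw [eval_map_algebraMap, eval_map_algebraMap, add_sub_cancel_left] at h1
  simp only [map_sub, map_mul] at h1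
  have h2 : ∀ w : A, (A.val (aeval w g) : S) = aeval (A.val w) g := fun w => by
    rw [← Polynomial.aeval_algHom_apply]
  rw [h2, h2] at h1
  simp only [map_add] at h1
  have h3 : A.val xx = x := rfl
  have h4 : A.val hh' = h := rfl
  rw [h3, h4] at h1
  rw [h1]
  exact mul_comm _ _

omit [IsDomain T] in
/-- INVARIANT OF THE MOVES: `β` divides the degrees of `v` and `y` in `X1`, or not -/
theorem mv_deg (hall : ∀ v' x' y', Mv k f v x y v' x' y' →
      Pres f v' x' y' ∧ v' ∈ Cx R v x y ∧ x' ∈ Cx R v x y ∧ y' ∈ Cx R v x y)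
    (σ : S →ₐ[k] T) (ε : R →ₐ[k] k) (hε : ∀ r : R, σ (r : S) = algebraMap k T (ε r))
    (X1 : T) (hX1 : Transcendental k X1) (hC : ∀ z ∈ Cx R v x y, ∃ P : k[X], σ z = aeval X1 P)
    {v' x' y' : S} (hmv : Mv k f v x y v' x' y') :
    ∀ P Q P' Q' : k[X], σ v = aeval X1 P → σ y = aeval X1 Q → σ v' = aeval X1 P' →
      σ y' = aeval X1 Q' →
      ((f.natDegree ∣ P.natDegree ∧ f.natDegree ∣ Q.natDegree) ↔
        (f.natDegree ∣ P'.natDegree ∧ f.natDegree ∣ Q'.natDegree)) := by
  have hinj : Function.Injective (aeval X1 : k[X] →ₐ[k] T) :=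
    transcendental_iff_injective.1 hX1
  induction hmv with
  | refl =>
    intro P Q P' Q' h1 h2 h3 h4
    have e1 : P = P' := hinj (by rw [← h1, ← h3])
    have e2 : Q = Q' := hinj (by rw [← h2, ← h4])
    rw [e1, e2]
  | @elem v' x' y' q y'' h e ih =>
    intro P Q P' Q' h1 h2 h3 h4
    obtain ⟨hP, hv', hx', hy'⟩ := hall _ _ _ h
    obtain ⟨-, -, hx'', -⟩ := hall _ _ _ (Mv.elem q y'' h e)
    obtain ⟨Q1, hQ1⟩ := hC _ hy'
    obtain ⟨H, hH⟩ := hC _ hx'
    obtain ⟨H', hH'⟩ := hC _ hx''
    rw [ih P Q P' Q1 h1 h2 h3 hQ1]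
    apply and_congr_right
    intro hd
    have hf0 : (f.map (ε : R →+* k)).Monic := hP.monic.map _
    have hfd : (f.map (ε : R →+* k)).natDegree = f.natDegree := hP.monic.natDegree_map _
    have r1 : P' * Q1 = (f.map (ε : R →+* k)).comp H := by
      apply hinj
      rw [map_mul, ← h3, ← hQ1, ← map_mul, hP.rel, map_aeval σ ε hε, hH, aeval_comp]
    have r2 : P' * Q' = (f.map (ε : R →+* k)).comp H' := by
      apply hinj
      rw [map_mul, ← h3, ← h4, ← map_mul, e, map_aeval σ ε hε, hH', aeval_comp]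
    rw [← hfd] at hd ⊢
    refine step r1 r2 (fun hP0 => ?_) hd
    -- the case `P' = 0`
    have hdeg : 0 < (f.map (ε : R →+* k)).natDegree := by rw [hfd]; have := hP.deg; omega
    obtain ⟨c, hc⟩ := const_of_comp hdeg (by rw [← r1, hP0, zero_mul])
    have hv0 : v' ≠ 0 := by
      intro h0
      have hS : Nontrivial R := inferInstance
      exact hP.ind.ne_zero 0 h0
    obtain ⟨z, hz, hze⟩ := sub_factor x' (v' * aeval v' q) f
    have hy : y'' = y' + aeval v' q * z := by
      apply mul_left_cancel₀ hv0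
      rw [mul_add, e, hP.rel]
      linear_combination hze
    have hσv : σ v' = 0 := by rw [h3, hP0, map_zero]
    have hσh : σ (v' * aeval v' q) = 0 := by rw [map_mul, hσv, zero_mul]
    have hσz : ∃ d : k, σ z = algebraMap k T d := by
      clear hze hy
      induction hz using Algebra.adjoin_induction with
      | mem w hw =>
        rcases hw with rfl | hw
        · exact ⟨c, by rw [hH, hc, aeval_C]⟩
        · rw [Set.mem_singleton_iff] at hw
          exact ⟨0, by rw [hw, hσh, map_zero]⟩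
      | algebraMap r => exact ⟨ε r, hε r⟩
      | add a b _ _ ha hb =>
        obtain ⟨a', ha⟩ := ha
        obtain ⟨b', hb⟩ := hb
        exact ⟨a' + b', by rw [map_add, map_add, ha, hb]⟩
      | mul a b _ _ ha hb =>
        obtain ⟨a', ha⟩ := ha
        obtain ⟨b', hb⟩ := hb
        exact ⟨a' * b', by rw [map_mul, map_mul, ha, hb]⟩
    obtain ⟨d, hd'⟩ := hσz
    have hσq : σ (aeval v' q) = algebraMap k T (q.eval 0) := by
      rw [← Polynomial.aeval_algHom_apply, hσv, ← Polynomial.coeff_zero_eq_aeval_zero',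
        Polynomial.coeff_zero_eq_eval_zero]
    refine ⟨q.eval 0 * d, ?_⟩
    apply hinj
    rw [← h4, hy, map_add, map_mul, hσq, hd', map_add, ← hQ1, aeval_C, map_mul]
  | @swap v' x' y' h ih =>
    intro P Q P' Q' h1 h2 h3 h4
    rw [ih P Q Q' P' h1 h2 h4 h3]
    exact and_comm

end BlkDeg

end Pool.Agent.LNDQ
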