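import Pool.Agent.LNDQ.Defs

set_option autoImplicit false

/-!
Moves keep the presentation and the ring (general form, over any domain).
-/

namespace Pool.Agent.LNDQ

open Polynomial

section ind

variable {R A : Type} [CommRing R] [CommRing A] [Algebra R A]

theorem ai_iff (u F : A) : AlgebraicIndependent R ![u, F] ↔
    Transcendental R u ∧ Transcendental (Algebra.adjoin R {u}) F := by
  rw [AlgebraicIndependent.iff_transcendental_adjoin_image (x := ![u, F]) 1]
  have h1 : (![u, F] '' {(1 : Fin 2)}ᶜ) = {u} := by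
    ext z
    simp only [Set.mem_image, Set.mem_compl_iff, Set.mem_singleton_iff]
    constructor
    · rintro ⟨i, hi, rfl⟩
      fin_cases i
      · rfl
      · exact absurd rfl hi
    · rintro rfl
      exact ⟨0, by simp, rfl⟩
  rw [h1]
  have : Subsingleton {j : Fin 2 // j ≠ 1} := ⟨by
    rintro ⟨i, hi⟩ ⟨j, hj⟩
    apply Subtype.ext
    show i = j
    fin_cases i <;> fin_cases j
    · rfl
    · exact absurd rfl hj
    · exact absurd rfl hi
    · rfl⟩
  rw [algebraicIndependent_singleton_iff (⟨0, by simp⟩ : {j : Fin 2 // j ≠ 1})]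
  rfl

theorem ai_swap {u F : A} (h : AlgebraicIndependent R ![u, F]) :
    AlgebraicIndependent R ![F, u] := by
  have h1 := h.comp (Equiv.swap (0 : Fin 2) 1) (Equiv.swap (0 : Fin 2) 1).injective
  have h2 : ![u, F] ∘ (Equiv.swap (0 : Fin 2) 1) = ![F, u] := by
    funext i
    fin_cases i <;> simp
  rwa [h2] at h1

theorem ai_add [IsDomain A] {u F : A} {a : A} (ha : a ∈ Algebra.adjoin R {u})
    (h : AlgebraicIndependent R ![u, F]) : AlgebraicIndependent R ![u, F + a] := by
  rw [ai_iff] at h ⊢
  refine ⟨h.1, fun hF => h.2 ?_⟩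
  have h1 : IsAlgebraic (Algebra.adjoin R {u}) (algebraMap (Algebra.adjoin R {u}) A ⟨a, ha⟩) :=
    isAlgebraic_algebraMap _
  have h2 := hF.sub h1
  have h3 : F + a - algebraMap (Algebra.adjoin R {u}) A ⟨a, ha⟩ = F := by
    show F + a - a = F
    ring
  rwa [h3] at h2

theorem ai_quot [IsDomain A] {v x y : A} {f : R[X]} (hf : 0 < f.natDegree)
    (h : AlgebraicIndependent R ![v, x]) (hr : v * y = aeval x f) :
    AlgebraicIndependent R ![y, x] := by
  apply ai_swap
  have h' := (ai_iff _ _).1 (ai_swap h)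
  rw [ai_iff]
  refine ⟨h'.1, fun hy => h'.2 ?_⟩
  have hc : aeval x f ≠ 0 := by
    intro h0
    have := (transcendental_iff.1 h'.1) f h0
    rw [this, natDegree_zero] at hf
    exact lt_irrefl _ hf
  have hy0 : y ≠ 0 := by
    rintro rfl
    exact hc (by rw [← hr, mul_zero])
  refine IsAlgebraic.of_mul (mem_nonZeroDivisors_of_ne_zero hy0) hy ?_
  rw [mul_comm, hr]
  have hm : aeval x f ∈ Algebra.adjoin R {x} := aeval_mem_adjoin_singleton _ _
  exact isAlgebraic_algebraMap (R := Algebra.adjoin R {x}) (A := A) ⟨_, hm⟩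

end ind

section

variable {k R S : Type} [CommRing k] [CommRing R] [CommRing S] [IsDomain S] [Algebra k R]
  [Algebra k S] [Algebra R S] [IsScalarTower k R S] {f : R[X]} {v x y v' x' y' : S}

omit [IsDomain S] in
theorem aevalk_eq (q : k[X]) (z : S) : aeval z q = aeval z (q.map (algebraMap k R)) := by
  rw [aeval_map_algebraMap]

omit [IsDomain S] in
/-- differences of values of `f` are divisible in a subalgebra -/
theorem quot_mem {B : Subalgebra R S} {a b : S} (ha : a ∈ B) (hb : b ∈ B) (f : R[X]) :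
    ∃ c ∈ B, aeval a f - aeval b f = (a - b) * c := by
  have h := sub_dvd_eval_sub (⟨a, ha⟩ : B) ⟨b, hb⟩ (f.map (algebraMap R B))
  rw [eval_map_algebraMap, eval_map_algebraMap] at h
  obtain ⟨c, hc⟩ := h
  refine ⟨c, c.2, ?_⟩
  have h1 := congrArg B.val hc
  rw [map_sub, map_mul, map_sub, ← aeval_algHom_apply, ← aeval_algHom_apply] at h1
  exact h1

theorem mv_pres_gen (P : Pres f v x y) (h : Mv k f v x y v' x' y') :
    Pres f v' x' y' ∧ Algebra.adjoin R {v', x', y'} = Algebra.adjoin R {v, x, y} := by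
  induction h with
  | refl => exact ⟨P, rfl⟩
  | @elem v' x' y' q y'' h e ih =>
    obtain ⟨Q, hA⟩ := ih
    have := (algebraMap R S).domain_nontrivial
    have hv0 : v' ≠ 0 := by
      rintro rfl
      exact (ai_iff _ _).1 Q.ind |>.1 (isAlgebraic_zero)
    have hq0 : aeval v' q ∈ Algebra.adjoin R {v'} := by
      rw [aevalk_eq (R := R)]
      exact aeval_mem_adjoin_singleton _ _
    have hq : v' * aeval v' q ∈ Algebra.adjoin R {v'} := mul_mem (Algebra.subset_adjoin rfl) hq0
    refine ⟨⟨Q.monic, Q.deg, e, ai_add hq Q.ind⟩, ?_⟩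
    rw [← hA]
    have mono1 : Algebra.adjoin R {v'} ≤ Algebra.adjoin R {v', x', y'} :=
      Algebra.adjoin_mono (by simp)
    have mono2 : Algebra.adjoin R {v'} ≤ Algebra.adjoin R {v', x' + v' * aeval v' q, y''} :=
      Algebra.adjoin_mono (by simp)
    have e2 : v' * (y'' - y') = aeval (x' + v' * aeval v' q) f - aeval x' f := by
      rw [mul_sub, e, Q.rel]
    apply le_antisymm
    · have hx : x' + v' * aeval v' q ∈ Algebra.adjoin R {v', x', y'} :=
        add_mem (Algebra.subset_adjoin (by simp)) (mono1 hq)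
      rw [Algebra.adjoin_le_iff]
      rintro z (rfl | rfl | rfl)
      · exact Algebra.subset_adjoin (by simp)
      · exact hx
      · obtain ⟨c, hc, he⟩ := quot_mem hx
          (Algebra.subset_adjoin (by simp) : x' ∈ Algebra.adjoin R {v', x', y'}) f
        have h3 : z = y' + aeval v' q * c := by
          apply mul_left_cancel₀ hv0
          linear_combination e2 + he
        rw [h3]
        exact add_mem (Algebra.subset_adjoin (by simp)) (mul_mem (mono1 hq0) hc)
    · have hx : x' ∈ Algebra.adjoin R {v', x' + v' * aeval v' q, y''} := by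
        have h2 := sub_mem (Algebra.subset_adjoin (by simp) :
          x' + v' * aeval v' q ∈ Algebra.adjoin R {v', x' + v' * aeval v' q, y''}) (mono2 hq)
        rwa [add_sub_cancel_right] at h2
      rw [Algebra.adjoin_le_iff]
      rintro z (rfl | rfl | rfl)
      · exact Algebra.subset_adjoin (by simp)
      · exact hx
      · obtain ⟨c, hc, he⟩ := quot_mem (Algebra.subset_adjoin (by simp) :
          x' + v' * aeval v' q ∈ Algebra.adjoin R {v', x' + v' * aeval v' q, y''}) hx f
        have h3 : z = y'' - aeval v' q * c := by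
          apply mul_left_cancel₀ hv0
          linear_combination -e2 - he
        rw [h3]
        exact sub_mem (Algebra.subset_adjoin (by simp)) (mul_mem (mono2 hq0) hc)
  | @swap v' x' y' h ih =>
    obtain ⟨Q, hA⟩ := ih
    refine ⟨⟨Q.monic, Q.deg, by rw [mul_comm, Q.rel], ai_quot (by have := Q.deg; omega) Q.ind Q.rel⟩, ?_⟩
    rw [← hA]
    congr 1
    ext z
    simp only [Set.mem_insert_iff, Set.mem_singleton_iff]
    tauto

end

/-- moves over a field `k` -/
theorem mv_pres_k {k R0 : Type} [Field k] [CommRing R0] [IsDomain R0] [Algebra k R0] {f : k[X]}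
    {v x y : R0} (hP : Pres f v x y) {v1 x1 y1 : R0} (hmv : Mv k f v x y v1 x1 y1) :
    Pres f v1 x1 y1 ∧ Algebra.adjoin k {v1, x1, y1} = Algebra.adjoin k {v, x, y} :=
  mv_pres_gen hP hmv

/-- moves over `R` keep the presentation and the ring -/
theorem mv_pres_sub {k S : Type} [Field k] [CommRing S] [IsDomain S] [Algebra k S]
    {R : Subalgebra k S} {f : R[X]} {v x y : S} (hP : Pres f v x y) {v1 x1 y1 : S}
    (hmv : Mv k f v x y v1 x1 y1) :
    Pres f v1 x1 y1 ∧ Cx R v1 x1 y1 = Cx R v x y := by
  obtain ⟨h1, h2⟩ := mv_pres_gen hP hmv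
  refine ⟨h1, ?_⟩
  unfold Cx
  rw [h2]

theorem Pres.v_ne_zero {R S : Type} [CommRing R] [CommRing S] [Nontrivial S] [Algebra R S] {f : R[X]}
    {v x y : S} (h : Pres f v x y) : v ≠ 0 := by
  have := (algebraMap R S).domain_nontrivial
  rintro rfl
  exact ((ai_iff _ _).1 h.ind).1 isAlgebraic_zero

end Pool.Agent.LNDQ
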