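import Mathlib
import Pool.Agent.LNDQ.Defs
import Pool.Agent.LNDQ.BlkDeg
import Pool.Agent.LNDQ.MvPres

set_option autoImplicit false

open Polynomial

namespace Pool.Agent.LNDQ

namespace BlkRes

variable {k S : Type} [Field k] [CommRing S] [IsDomain S] [Algebra k S] {R : Subalgebra k S} {u : R}
  {f : R[X]} {v x y : S}

omit [IsDomain S] in
/-- the residue map of `R` -/
theorem exists_eps (hF : Fr R u) : ∃ ε : R →ₐ[k] k, ∀ r : R,
    Ideal.Quotient.mkₐ k (Ideal.span {(u : S)}) (r : S) =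
      algebraMap k (S ⧸ Ideal.span {(u : S)}) (ε r) := by
  have hT : Nontrivial (S ⧸ Ideal.span {(u : S)}) := by
    rw [Ideal.Quotient.nontrivial_iff, Ne, Ideal.span_singleton_eq_top]
    exact hF.prime.not_isUnit
  have hinj : Function.Injective (algebraMap k (S ⧸ Ideal.span {(u : S)})) :=
    (algebraMap k _).injective
  let g : R →ₐ[k] (S ⧸ Ideal.span {(u : S)}) := (Ideal.Quotient.mkₐ k _).comp R.val
  have hg : ∀ r, g r ∈ (⊥ : Subalgebra k (S ⧸ Ideal.span {(u : S)})) := by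
    intro r
    obtain ⟨c, r', hr⟩ := hF.res r
    rw [Algebra.mem_bot]
    refine ⟨c, ?_⟩
    have h1 : ((r : R) : S) = algebraMap k S c + u * r' := by
      conv_lhs => rw [hr]
      rfl
    have h2 : g r = Ideal.Quotient.mkₐ k (Ideal.span {(u : S)}) (r : S) := rfl
    rw [h2, h1, map_add, AlgHom.commutes, map_mul]
    have h3 : Ideal.Quotient.mkₐ k (Ideal.span {(u : S)}) (u : S) = 0 := by
      rw [Ideal.Quotient.mkₐ_eq_mk, Ideal.Quotient.eq_zero_iff_mem]
      exact Ideal.mem_span_singleton_self _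
    rw [h3, zero_mul, add_zero]
  let e := Algebra.botEquivOfInjective (R := k) (A := S ⧸ Ideal.span {(u : S)}) hinj
  refine ⟨e.toAlgHom.comp (g.codRestrict ⊥ hg), fun r => ?_⟩
  have h1 : e.symm (e (g.codRestrict ⊥ hg r)) = g.codRestrict ⊥ hg r := e.symm_apply_apply _
  have h2 : algebraMap k (⊥ : Subalgebra k (S ⧸ Ideal.span {(u : S)}))
      (e (g.codRestrict ⊥ hg r)) = g.codRestrict ⊥ hg r := by
    rw [← h1]
    conv_rhs => rw [h1]
    rw [← AlgEquiv.commutes e.symm, ← h1]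
    simp
  have h3 := congrArg (fun z : (⊥ : Subalgebra k (S ⧸ Ideal.span {(u : S)})) =>
    (z : S ⧸ Ideal.span {(u : S)})) h2
  exact h3.symm

/-- THE POLYNOMIAL OF `v` ON THE CURVE `v1 = c`. -/
theorem exists_P (hF : Fr R u) (hP : Pres f v x y)
    (hvtr : ∀ a : R[X], (u : S) ∣ aeval v a → C u ∣ a) {v1 x1 y1 : S}
    (hmv : Mv k f v x y v1 x1 y1) {c : k} (hc : c ≠ 0) (hv1 : (u : S) ∣ v1 - algebraMap k S c) :
    x1 ∈ Cx R v x y ∧ ∃ P : k[X], (u : S) ∣ v - aeval x1 P ∧ f.natDegree ∣ P.natDegree ∧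
      0 < P.natDegree := by
  classical
  have hT : (Ideal.span {(u : S)}).IsPrime := (Ideal.span_singleton_prime hF.prime.ne_zero).2 hF.prime
  have hTd : IsDomain (S ⧸ Ideal.span {(u : S)}) := Ideal.Quotient.isDomain _
  obtain ⟨ε, hε⟩ := exists_eps hF
  set σ := Ideal.Quotient.mkₐ k (Ideal.span {(u : S)}) with hσ
  have hdvd : ∀ z : S, σ z = 0 ↔ (u : S) ∣ z := by
    intro z
    rw [hσ, Ideal.Quotient.mkₐ_eq_mk, Ideal.Quotient.eq_zero_iff_mem, Ideal.mem_span_singleton]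
  have hall : ∀ v' x' y', Mv k f v x y v' x' y' →
      Pres f v' x' y' ∧ v' ∈ Cx R v x y ∧ x' ∈ Cx R v x y ∧ y' ∈ Cx R v x y := by
    intro v' x' y' h
    obtain ⟨h1, h2⟩ := mv_pres_sub hP h
    rw [← h2]
    refine ⟨h1, ?_, ?_, ?_⟩ <;>
      exact Algebra.subset_adjoin (by simp)
  obtain ⟨hP1, hv1m, hx1m, hy1m⟩ := hall _ _ _ hmv
  refine ⟨hx1m, ?_⟩
  -- values of `v1`, `y1`
  have hsv1 : σ v1 = aeval (σ x1) (C c : k[X]) := by
    rw [aeval_C, ← σ.commutes, ← sub_eq_zero, ← map_sub, hdvd]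
    exact hv1
  have hsy1 : σ y1 = aeval (σ x1) (C c⁻¹ * f.map (ε : R →+* k)) := by
    have h1 := congrArg σ hP1.rel
    rw [map_mul, BlkDeg.map_aeval σ ε hε, hsv1, aeval_C] at h1
    rw [map_mul, ← h1, aeval_C, ← mul_assoc, ← map_mul, inv_mul_cancel₀ hc, map_one, one_mul]
  have hC : ∀ z ∈ Cx R v x y, ∃ P : k[X], σ z = aeval (σ x1) P := by
    intro z hz
    rw [← (mv_pres_sub hP hmv).2] at hz
    have hz' : z ∈ Algebra.adjoin R ({v1, x1, y1} : Set S) := hz
    clear hz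
    induction hz' using Algebra.adjoin_induction with
    | mem w hw =>
      rcases hw with rfl | rfl | hw
      · exact ⟨_, hsv1⟩
      · exact ⟨X, by rw [aeval_X]⟩
      · rw [Set.mem_singleton_iff] at hw
        rw [hw]
        exact ⟨_, hsy1⟩
    | algebraMap r => exact ⟨C (ε r), by rw [aeval_C]; exact hε r⟩
    | add a b _ _ ha hb =>
      obtain ⟨a', ha⟩ := ha
      obtain ⟨b', hb⟩ := hb
      exact ⟨a' + b', by rw [map_add, map_add, ha, hb]⟩
    | mul a b _ _ ha hb =>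
      obtain ⟨a', ha⟩ := ha
      obtain ⟨b', hb⟩ := hb
      exact ⟨a' * b', by rw [map_mul, map_mul, ha, hb]⟩
  -- `v` is transcendental
  have hvt : Transcendental k (σ v) := by
    rw [transcendental_iff]
    intro q hq
    by_contra hq0
    rw [Polynomial.aeval_algHom_apply, hdvd] at hq
    have h1 := hvtr (q.map (algebraMap k R)) (by rwa [aeval_map_algebraMap])
    rw [C_dvd_iff_dvd_coeff] at h1
    have h2 := h1 q.natDegree
    rw [coeff_map] at h2
    have h3 : IsUnit (algebraMap k R (q.coeff q.natDegree)) :=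
      (IsUnit.mk0 _ (leadingCoeff_ne_zero.2 hq0)).map (algebraMap k R)
    have h4 : IsUnit u := isUnit_of_dvd_unit h2 h3
    exact hF.prime.not_isUnit (h4.map R.val)
  obtain ⟨P, hPv⟩ := hC v (hall _ _ _ (Mv.refl v x y)).2.1
  obtain ⟨Q, hQy⟩ := hC y (hall _ _ _ (Mv.refl v x y)).2.2.2
  have hxt : Transcendental k (σ x1) := by
    intro halg
    apply hvt
    rw [hPv]
    have h1 : Algebra.adjoin k {σ x1} ≤ integralClosure k _ := by
      rw [Algebra.adjoin_le_iff, Set.singleton_subset_iff]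
      exact isAlgebraic_iff_isIntegral.1 halg
    exact isAlgebraic_iff_isIntegral.2 (h1 (aeval_mem_adjoin_singleton k (σ x1)))
  refine ⟨P, ?_, ?_, ?_⟩
  · rw [← hdvd, map_sub, hPv, Polynomial.aeval_algHom_apply, sub_self]
  · have h1 := (BlkDeg.mv_deg hall σ ε hε (σ x1) hxt hC hmv P Q (C c)
      (C c⁻¹ * f.map (ε : R →+* k)) hPv hQy hsv1 hsy1).2 ⟨by simp, ?_⟩
    · exact h1.1
    · rw [natDegree_C_mul (inv_ne_zero hc), hP.monic.natDegree_map]
  · rw [Nat.pos_iff_ne_zero]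
    intro h0
    rw [natDegree_eq_zero] at h0
    obtain ⟨d, rfl⟩ := h0
    rw [aeval_C] at hPv
    apply hvt
    rw [hPv]
    exact isAlgebraic_algebraMap _

end BlkRes

end Pool.Agent.LNDQ
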