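import Mathlib
import Pool.Agent.LNDF.ChDefs

set_option autoImplicit false

open TensorProduct Polynomial

namespace Pool.Agent.LNDQ

open Pool.Agent.LNDHom Pool.Agent.LNDHom.LocData Pool.Agent.LNDF

/-- a common denominator -/
private theorem clear_den {k κ : Type*} [Field k] [CommRing κ] [IsDomain κ] [Algebra k κ] {v : κ}
    (hk : ∀ c : κ, ∃ g g' : k[X], aeval v g' ≠ 0 ∧ c * aeval v g' = aeval v g) (c : ℕ → κ)
    (n : ℕ) :
    ∃ (d : k[X]) (G : ℕ → k[X]), aeval v d ≠ 0 ∧ ∀ i < n, c i * aeval v d = aeval v (G i) := by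
  induction n with
  | zero => exact ⟨1, fun _ => 0, by simp, by intro i hi; omega⟩
  | succ n ih =>
    obtain ⟨d, G, hd, hG⟩ := ih
    obtain ⟨g, g', hg', hg⟩ := hk (c n)
    refine ⟨d * g', fun i => if i = n then g * d else G i * g', ?_, ?_⟩
    · rw [map_mul]
      exact mul_ne_zero hd hg'
    · intro i hi
      by_cases hin : i = n
      · subst hin
        simp only [if_true]
        rw [map_mul, map_mul, ← hg]
        ring
      · simp only [hin, if_false]
        rw [map_mul, map_mul, ← hG i (by omega)]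
        ring

/-- degrees of `G_i(P) X^i`, `i < deg P`, are different modulo `deg P` -/
private theorem comp_indep {k : Type*} [Field k] {P : k[X]} {n : ℕ} (hP : P.natDegree = n)
    (hn : 0 < n) (G : ℕ → k[X]) (h0 : ∑ i ∈ Finset.range n, (G i).comp P * X ^ i = 0) :
    ∀ i < n, G i = 0 := by
  have hPC : ∀ i, (G i).comp P * X ^ i = 0 → G i = 0 := by
    intro i hi
    rcases mul_eq_zero.mp hi with h1 | h1
    · rcases comp_eq_zero_iff.mp h1 with h2 | h2
      · exact h2
      · exfalso
        have h3 := congrArg natDegree h2.2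
        rw [natDegree_C] at h3
        omega
    · exact absurd h1 (pow_ne_zero _ X_ne_zero)
  have hdeg : ∀ i, G i ≠ 0 → degree ((G i).comp P * X ^ i) = ((G i).natDegree * n + i : ℕ) := by
    intro i hi
    have h1 : (G i).comp P * X ^ i ≠ 0 := fun h => hi (hPC i h)
    rw [degree_eq_natDegree h1, natDegree_mul (left_ne_zero_of_mul h1) (right_ne_zero_of_mul h1),
      natDegree_comp, natDegree_X_pow, hP]
  have h1 := degree_sum_eq_of_disjoint (fun i => (G i).comp P * X ^ i) (Finset.range n) (by
    intro i hi j hj hij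
    simp only [Set.mem_ofPred_eq, Finset.mem_range] at hi hj
    have hGi : G i ≠ 0 := by
      intro h2
      apply hi.2
      rw [h2, zero_comp, zero_mul]
    have hGj : G j ≠ 0 := by
      intro h2
      apply hj.2
      rw [h2, zero_comp, zero_mul]
    simp only [Function.onFun, Function.comp]
    rw [hdeg i hGi, hdeg j hGj]
    intro h2
    have h3 : (G i).natDegree * n + i = (G j).natDegree * n + j := by exact_mod_cast h2
    have h4 := congrArg (· % n) h3
    simp only [Nat.mul_add_mod_self_right, Nat.mod_eq_of_lt hi.1, Nat.mod_eq_of_lt hj.1] at h4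
    exact hij h4)
  rw [h0, degree_zero] at h1
  intro i hi
  have h2 := Finset.le_sup (f := fun i => degree ((G i).comp P * X ^ i)) (Finset.mem_range.mpr hi)
  rw [← h1, le_bot_iff, degree_eq_bot] at h2
  exact hPC i h2

/-- the degree of `z` over `k(v)` where `v = P(z)` -/
private theorem deg_eq {k κ R : Type*} [Field k] [Field κ] [CommRing R] [IsDomain R] [Algebra k κ]
    [Algebra κ R] [Algebra k R] [IsScalarTower k κ R] {v : κ} (htr : Transcendental k v)
    (hk : ∀ c : κ, ∃ g g' : k[X], aeval v g' ≠ 0 ∧ c * aeval v g' = aeval v g) {z : R}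
    {P : k[X]} {n : ℕ} (hn : 0 < n) (hP : P.natDegree = n)
    (hPz : algebraMap κ R v = aeval z P) :
    IsIntegral κ z ∧ (minpoly κ z).natDegree = n := by
  have hinj : Function.Injective (algebraMap κ R) := (algebraMap κ R).injective
  -- `z` is transcendental over `k`
  have hztr : Transcendental k z := by
    intro hz
    apply htr
    have h0 : IsIntegral k (aeval z P) := by
      rw [aeval_eq_sum_range]
      exact IsIntegral.sum _ (fun i _ => (hz.isIntegral.pow i).smul _)
    have h1 : IsAlgebraic k (aeval z P) := h0.isAlgebraic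
    rw [← hPz] at h1
    exact (isAlgebraic_algebraMap_iff hinj).mp h1
  -- the relation
  set Q : κ[X] := P.map (algebraMap k κ) - C v with hQ
  have hQdeg : Q.natDegree = n := by
    rw [hQ, natDegree_sub_C, natDegree_map, hP]
  have hQ0 : Q ≠ 0 := by
    intro h0
    rw [h0, natDegree_zero] at hQdeg
    omega
  have hQz : aeval z Q = 0 := by
    rw [hQ, map_sub, aeval_map_algebraMap, aeval_C, hPz, sub_self]
  have hint : IsIntegral κ z := (isAlgebraic_iff_isIntegral.mp ⟨Q, hQ0, hQz⟩)
  refine ⟨hint, le_antisymm ?_ ?_⟩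
  · rw [← hQdeg]
    exact natDegree_le_of_dvd (minpoly.dvd κ z hQz) hQ0
  · by_contra hlt
    push Not at hlt
    obtain ⟨d, G, hd, hG⟩ := clear_den hk (fun i => (minpoly κ z).coeff i) n
    have h1 : ∑ i ∈ Finset.range n, (G i).comp P * X ^ i = 0 := by
      by_contra hne
      apply hztr
      refine ⟨_, hne, ?_⟩
      have h2 : aeval z (minpoly κ z) = 0 := minpoly.aeval κ z
      rw [aeval_eq_sum_range' hlt] at h2
      have h3 : algebraMap κ R (aeval v d) * ∑ i ∈ Finset.range n, (minpoly κ z).coeff i • z ^ i = 0 := by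
        rw [h2, mul_zero]
      rw [← h3, map_sum, Finset.mul_sum]
      apply Finset.sum_congr rfl
      intro i hi
      have h4 := hG i (Finset.mem_range.mp hi)
      have h5 : aeval (aeval z P) (G i) = algebraMap κ R (aeval v (G i)) := by
        rw [← hPz, aeval_algebraMap_apply]
      rw [map_mul, aeval_comp, map_pow, aeval_X, h5, ← h4, map_mul, Algebra.smul_def]
      ring
    have h6 := comp_indep hP hn G h1
    have h7 : minpoly κ z = 0 := by
      ext i
      rw [coeff_zero]
      by_cases hi : i < n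
      · have h8 := hG i hi
        rw [h6 i hi, map_zero] at h8
        exact (mul_eq_zero.mp h8).resolve_right hd
      · exact coeff_eq_zero_of_natDegree_lt (by omega)
    exact minpoly.ne_zero hint h7

/-- a finite ring over `k(v)` which contains `z`, `P(z) = v`, has degree divisible by `deg P` -/
private theorem dvd_abs {k κ R : Type*} [Field k] [Field κ] [CommRing R] [IsDomain R] [Algebra k κ]
    [Algebra κ R] [Algebra k R] [IsScalarTower k κ R] {v : κ} (htr : Transcendental k v)
    (hk : ∀ c : κ, ∃ g g' : k[X], aeval v g' ≠ 0 ∧ c * aeval v g' = aeval v g) {z : R}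
    {P : k[X]} {n : ℕ} (hn : 0 < n) (hP : P.natDegree = n)
    (hPz : algebraMap κ R v = aeval z P) (K : Subalgebra κ R) (hfin : FiniteDimensional κ K)
    (hz : z ∈ K) : n ∣ Module.finrank κ K := by
  obtain ⟨hint, hdeg⟩ := deg_eq htr hk hn hP hPz
  let _ : Field K := fieldOfFiniteDimensional κ K
  have h1 : minpoly κ z = minpoly κ (⟨z, hz⟩ : K) := by
    have := minpoly.algHom_eq K.val Subtype.val_injective (⟨z, hz⟩ : K)
    exact this
  have hint' : IsIntegral κ (⟨z, hz⟩ : K) := Algebra.IsIntegral.isIntegral _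
  have h2 := minpoly.degree_dvd (K := κ) (L := K) hint'
  rw [← h1, hdeg] at h2
  exact h2

variable {k V L : Type*} [Field k] [CommRing V] [IsDomain V] [CommRing L] [IsDomain L]
  [Algebra V L] [Algebra k V] [Algebra k L] [IsScalarTower k V L]
  {D : Derivation V L L} {u : V}

private theorem one_mem_F (h : LocData V L D u) (m : ℕ) : (1 : h.res) ∈ h.F m := by
  rw [mem_F]
  refine ⟨1, ?_, map_one _⟩
  rw [Function.iterate_succ_apply, Derivation.map_one_eq_zero, iterate_map_zero]

/-- the ring of a block -/
private noncomputable def blkAlg (h : LocData V L D u) {b : ℕ} (hb : Blk h b) :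
    Subalgebra h.kap h.res where
  carrier := h.F (b - 1)
  mul_mem' := fun {x y} hx hy => hb.2 x hx y hy
  one_mem' := one_mem_F h _
  add_mem' := fun {_ _} hx hy => (h.F (b - 1)).add_mem hx hy
  zero_mem' := (h.F (b - 1)).zero_mem
  algebraMap_mem' := fun c => by
    rw [Algebra.algebraMap_eq_smul_one]
    exact (h.F (b - 1)).smul_mem c (one_mem_F h _)

private theorem mem_blkAlg (h : LocData V L D u) {b : ℕ} (hb : Blk h b) (x : h.res) :
    x ∈ blkAlg h hb ↔ x ∈ h.F (b - 1) := Iff.rfl

private theorem finrank_F (h : LocData V L D u) (m : ℕ) :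
    letI := h.kapField
    FiniteDimensional h.kap (h.F m) ∧ Module.finrank h.kap (h.F m) = m + 1 := by
  classical
  have := h.isMax
  let _ : Field h.kap := h.kapField
  have hF : h.F m = Submodule.span h.kap
      (Set.range (fun i : Fin (m + 1) => (Ideal.Quotient.mk _ (h.q i) : h.res))) := by
    unfold F
    congr 1
    ext x
    simp only [Finset.coe_image, Set.mem_image, Finset.mem_coe, Finset.mem_range, Set.mem_range]
    constructor
    · rintro ⟨i, hi, rfl⟩
      exact ⟨⟨i, hi⟩, rfl⟩
    · rintro ⟨i, rfl⟩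
      exact ⟨i, i.2, rfl⟩
  refine ⟨?_, ?_⟩
  · rw [hF]
    exact FiniteDimensional.span_of_finite _ (Set.finite_range _)
  · rw [hF, finrank_span_eq_card]
    · simp
    · exact h.res_linInd.comp (fun i : Fin (m + 1) => (i : ℕ)) Fin.val_injective

private theorem mk_smul' (h : LocData V L D u) (a : V) (x : L) :
    (Ideal.Quotient.mk _ (a • x) : h.res) =
      (Ideal.Quotient.mk (Ideal.span {u}) a : h.kap) • (Ideal.Quotient.mk _ x : h.res) := by
  rw [Ideal.Quotient.mk_smul_mk_quotient_map_quotient, Algebra.smul_def]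

/-- B3: at a block `b > 1` at which the special fibre is the plane `k[z, ..]` with `v = P(z)`,
`deg P = β j` divides `b` -/
theorem blk_dvd (h : LocData V L D u) {b : ℕ} (hb : Blk h b) (h1b : 1 < b)
    {x y : L} {v : V} (hv : ¬ u ∣ v) (hx : D (D x) = 0) {f : V[X]}
    (hy : algebraMap V L v * y = aeval x f) {z : h.res}
    (hz : z ∈ Algebra.adjoin k ({Ideal.Quotient.mk _ (algebraMap V L v), Ideal.Quotient.mk _ x,
      Ideal.Quotient.mk _ y} : Set h.res))
    {P : k[X]} {β j : ℕ} (hβ : 0 < β) (hj : 0 < j) (hP : P.natDegree = β * j)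
    (hPz : (Ideal.Quotient.mk _ (algebraMap V L v) : h.res) = aeval z P)
    (htr : Transcendental k (Ideal.Quotient.mk (Ideal.span {u}) v : h.kap))
    (hkap : ∀ c : h.kap, ∃ g g' : k[X],
      aeval (Ideal.Quotient.mk (Ideal.span {u}) v : h.kap) g' ≠ 0 ∧
        c * aeval (Ideal.Quotient.mk (Ideal.span {u}) v : h.kap) g' =
          aeval (Ideal.Quotient.mk (Ideal.span {u}) v : h.kap) g) :
    β * j ∣ b := by
  classical
  have hmax := h.isMax
  have hpr := h.isPrime
  let _ : Field h.kap := h.kapField
  have _ : IsDomain h.res := Ideal.Quotient.isDomain _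
  have hT : IsScalarTower k h.kap h.res := by
    refine IsScalarTower.of_algebraMap_eq ?_
    intro c
    have h1 : (algebraMap k h.kap c) = Ideal.Quotient.mk (Ideal.span {u}) (algebraMap k V c) := rfl
    have h2 : (algebraMap k h.res c) = Ideal.Quotient.mk _ (algebraMap k L c) := rfl
    rw [h1, h2, IsScalarTower.algebraMap_apply k V L]
    rfl
  set vb : h.kap := Ideal.Quotient.mk (Ideal.span {u}) v with hvb
  have hvb' : (Ideal.Quotient.mk _ (algebraMap V L v) : h.res) = algebraMap h.kap h.res vb := rfl
  have hvb0 : vb ≠ 0 := by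
    intro h0
    rw [hvb, Ideal.Quotient.eq_zero_iff_mem, Ideal.mem_span_singleton] at h0
    exact hv h0
  obtain ⟨hfin, hrank⟩ := finrank_F h (b - 1)
  set K := blkAlg h hb with hK
  have hfinK : FiniteDimensional h.kap K := hfin
  have hrankK : Module.finrank h.kap K = b := by
    have h1 : Module.finrank h.kap K = Module.finrank h.kap (h.F (b - 1)) := rfl
    rw [h1, hrank]
    omega
  have hxK : (Ideal.Quotient.mk _ x : h.res) ∈ K := by
    rw [hK, mem_blkAlg, mem_F]
    have hx2 : (⇑D)^[2] x = 0 := hx
    exact ⟨x, iter_zero_of_le D hx2 (by omega), rfl⟩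
  have hfK : ∀ f : V[X], (Ideal.Quotient.mk _ (aeval x f) : h.res) ∈ K := by
    intro f
    rw [aeval_eq_sum_range, map_sum]
    refine Subalgebra.sum_mem _ ?_
    intro i _
    rw [mk_smul' h, map_pow]
    exact K.smul_mem (K.pow_mem hxK _) _
  have hyK : (Ideal.Quotient.mk _ y : h.res) ∈ K := by
    have h1 := hfK f
    rw [← hy, map_mul, hvb', ← Algebra.smul_def] at h1
    have h2 := K.smul_mem h1 vb⁻¹
    rw [smul_smul, inv_mul_cancel₀ hvb0, one_smul] at h2
    exact h2
  have hzK : z ∈ K := by
    have h1 : Algebra.adjoin k ({Ideal.Quotient.mk _ (algebraMap V L v), Ideal.Quotient.mk _ x,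
      Ideal.Quotient.mk _ y} : Set h.res) ≤ K.restrictScalars k := by
      rw [Algebra.adjoin_le_iff]
      intro t ht
      rcases ht with rfl | rfl | rfl
      · exact K.algebraMap_mem vb
      · exact hxK
      · exact hyK
    exact h1 hz
  have h1 := dvd_abs (k := k) htr hkap (Nat.mul_pos hβ hj) hP (by rw [← hvb']; exact hPz) K hfinK hzK
  rw [hrankK] at h1
  exact h1

end Pool.Agent.LNDQ
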