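import Mathlib
import Pool.Agent.LNDQ.BDefs
import Pool.Agent.LNDQ.BlkDvd
import Pool.Agent.LNDF.ChF

set_option autoImplicit false

open Polynomial

namespace Pool.Agent.LNDQ

open Pool.Agent.LNDHom Pool.Agent.LNDHom.LocData Pool.Agent.LNDF

variable {k : Type} [Field k] {u v0 : B3 k} {D : Derivation k (B3 k) (B3 k)}

private theorem dvd_ev (u : B3 k) (q : k[X]) :
    u ∣ aeval u q - algebraMap k (B3 k) (q.eval 0) := by
  refine ⟨aeval u (divX q), ?_⟩
  have h1 := congrArg (aeval u) (divX_mul_X_add q)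
  rw [map_add, map_mul, aeval_X, aeval_C, coeff_zero_eq_eval_zero] at h1
  rw [← h1]
  ring

private theorem not_dvd_ev (hu : Prime u) {q : k[X]} (hq : q.eval 0 ≠ 0) : ¬ u ∣ aeval u q := by
  intro h1
  have h2 : u ∣ algebraMap k (B3 k) (q.eval 0) := by
    have := dvd_sub h1 (dvd_ev u q)
    rwa [sub_sub_cancel] at this
  exact hu.not_isUnit (isUnit_of_dvd_unit h2 ((isUnit_iff_ne_zero.mpr hq).map _))

private theorem D_ev (hDu : D u = 0) (q : k[X]) : D (aeval u q) = 0 := by
  have hmem : u ∈ kerAlg D := hDu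
  have h1 : (aeval u q : B3 k) = ((aeval (⟨u, hmem⟩ : kerAlg D) q : kerAlg D) : B3 k) :=
    Subalgebra.aeval_coe (kerAlg D) (⟨u, hmem⟩ : kerAlg D) q
  rw [h1]
  exact (aeval (⟨u, hmem⟩ : kerAlg D) q).2

private theorem io_mul (a b : B3 k) : io u (a * b) = io u a * io u b := map_mul _ _ _

private theorem io_zero : io u (0 : B3 k) = 0 := map_zero _

private theorem surjS (z : SL u) : ∃ (b : B3 k) (q : k[X]), q.eval 0 ≠ 0 ∧
    z * io u (aeval u q) = io u b := by
  obtain ⟨⟨b, s⟩, h⟩ := IsLocalization.surj (Mu u) z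
  obtain ⟨s, q, hq, rfl⟩ := s
  exact ⟨b, q, hq, h⟩

private theorem unitS {q : k[X]} (hq : q.eval 0 ≠ 0) : IsUnit (io u (aeval u q)) :=
  IsLocalization.map_units (SL u) (⟨aeval u q, q, hq, rfl⟩ : Mu u)

private theorem mu_mem (hu : Prime u) (hDu : D u = 0) (s : Mu u) :
    (s : B3 k) ∈ locM D u hu := by
  obtain ⟨s, q, hq, rfl⟩ := s
  exact ⟨D_ev hDu q, not_dvd_ev hu hq⟩

/-- the map `S → Loc D u` -/
private noncomputable def tau (hu : Prime u) (hDu : D u = 0) : SL u →ₐ[k] Loc D u hu where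
  toRingHom := IsLocalization.lift (M := Mu u) (g := algebraMap (B3 k) (Loc D u hu))
    (fun s => IsLocalization.map_units (Loc D u hu) (⟨s, mu_mem hu hDu s⟩ : locM D u hu))
  commutes' := by
    intro c
    have h1 : algebraMap k (SL u) c = algebraMap (B3 k) (SL u) (algebraMap k (B3 k) c) := rfl
    rw [h1, IsScalarTower.algebraMap_apply k (B3 k) (Loc D u hu)]
    exact IsLocalization.lift_eq _ _

private theorem tau_io (hu : Prime u) (hDu : D u = 0) (b : B3 k) :
    tau hu hDu (io u b) = algebraMap (B3 k) (Loc D u hu) b :=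
  IsLocalization.lift_eq _ _

private theorem tau_der (hu : Prime u) (hDu : D u = 0) (z : SL u) :
    derL D u hu (tau hu hDu z) = tau hu hDu (exS u D z) := by
  obtain ⟨b, q, hq, h⟩ := surjS z
  have h1 := congrArg (exS u D) h
  rw [Derivation.leibniz, exS_io, exS_io, D_ev hDu q] at h1
  have h2 := congrArg (tau hu hDu) h1
  have h3 := congrArg (tau hu hDu) h
  rw [map_mul, tau_io, tau_io] at h3
  have h4 := congrArg (derL D u hu) h3
  rw [Derivation.leibniz, derL_alg, derL_alg, D_ev hDu q] at h4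
  simp only [smul_eq_mul, map_zero, mul_zero, zero_add, map_mul, tau_io] at h2 h4
  have hs : algebraMap (B3 k) (Loc D u hu) (aeval u q) ≠ 0 := by
    intro h0
    rw [← map_zero (algebraMap (B3 k) (Loc D u hu))] at h0
    have h5 := Loc.inj D u hu h0
    apply not_dvd_ev hu hq
    rw [h5]
    exact dvd_zero _
  exact mul_left_cancel₀ hs (h4.trans h2.symm)

private theorem tau_dvd (hu : Prime u) (hDu : D u = 0) {z : SL u}
    (hz : algebraMap (B3 k) (Loc D u hu) u ∣ tau hu hDu z) : io u u ∣ z := by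
  obtain ⟨b, q, hq, h⟩ := surjS z
  have h3 := congrArg (tau hu hDu) h
  rw [map_mul, tau_io, tau_io] at h3
  have h4 : algebraMap (B3 k) (Loc D u hu) u ∣ algebraMap (B3 k) (Loc D u hu) b := by
    rw [← h3]
    exact Dvd.dvd.mul_right hz _
  rw [← IsLocalization.mk'_one (M := locM D u hu) (Loc D u hu) b, dvd_mk_iff D u hu hDu] at h4
  obtain ⟨b', rfl⟩ := h4
  have h5 : io u u ∣ z * io u (aeval u q) := ⟨io u b', by rw [h, io_mul]⟩
  exact (unitS hq).dvd_mul_right.mp h5

/-- the elements of `R` are constants modulo `u` -/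
private theorem resR (r : RR u) : ∃ c : k, io u u ∣ (r : SL u) - algebraMap k (SL u) c := by
  obtain ⟨r, p, q, hq, h⟩ := r
  refine ⟨p.eval 0 / q.eval 0, ?_⟩
  have h1 : u ∣ aeval u p - algebraMap k (B3 k) (p.eval 0 / q.eval 0) * aeval u q := by
    have h2 := dvd_ev u (p - C (p.eval 0 / q.eval 0) * q)
    rw [map_sub, map_mul, aeval_C, eval_sub, eval_mul, eval_C, div_mul_cancel₀ _ hq, sub_self,
      map_zero, sub_zero] at h2
    exact h2
  obtain ⟨b, hb⟩ := h1
  have h3 : io u u ∣ (r - algebraMap k (SL u) (p.eval 0 / q.eval 0)) * io u (aeval u q) := by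
    refine ⟨io u b, ?_⟩
    rw [sub_mul, h, ← map_mul, ← hb, map_sub, map_mul]
    rfl
  exact (unitS hq).dvd_mul_right.mp h3

section dat

variable {f : (RR u)[X]} {v x y : SL u} {e : ℕ}

private theorem exS_R [CharZero k] (h : Dat u v0 D f v x y e) (r : RR u) : exS u D (r : SL u) = 0 :=
  (h.kerS _).mpr (Subalgebra.algebraMap_mem (Algebra.adjoin (RR u) {v}) r)

private theorem exS_v (h : Dat u v0 D f v x y e) : exS u D v = 0 :=
  (h.kerS _).mpr (Algebra.subset_adjoin rfl)

/-- the elements of the kernel are polynomials in `v` modulo `u` -/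
private theorem resK (h : Dat u v0 D f v x y e) {z : SL u} (hz : exS u D z = 0) :
    ∃ g : k[X], io u u ∣ z - aeval v g := by
  have h1 := (h.kerS z).mp hz
  clear hz
  induction h1 using Algebra.adjoin_induction with
  | mem s hs =>
    rw [Set.mem_singleton_iff] at hs
    subst hs
    exact ⟨X, by rw [aeval_X, sub_self]; exact dvd_zero _⟩
  | algebraMap r =>
    obtain ⟨c, hc⟩ := resR r
    exact ⟨C c, by rw [aeval_C]; exact hc⟩
  | add s t _ _ hs ht =>
    obtain ⟨g, hg⟩ := hs
    obtain ⟨g', hg'⟩ := ht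
    refine ⟨g + g', ?_⟩
    have h2 := dvd_add hg hg'
    rw [map_add]
    rwa [show s + t - (aeval v g + aeval v g') = s - aeval v g + (t - aeval v g') by ring]
  | mul s t _ _ hs ht =>
    obtain ⟨g, hg⟩ := hs
    obtain ⟨g', hg'⟩ := ht
    refine ⟨g * g', ?_⟩
    have h2 := dvd_add (Dvd.dvd.mul_right hg t) (Dvd.dvd.mul_left hg' (aeval v g))
    rw [map_mul]
    rwa [show s * t - aeval v g * aeval v g' = (s - aeval v g) * t + aeval v g * (t - aeval v g')
      by ring]

end dat

/-- divisibility by `u` of constants of the local ring -/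
private theorem dvd_V (hu : Prime u)
    (hmem : algebraMap (B3 k) (Loc D u hu) u ∈ VL D u hu) (a : VL D u hu)
    (ha : algebraMap (B3 k) (Loc D u hu) u ∣ (a : Loc D u hu)) :
    (⟨algebraMap (B3 k) (Loc D u hu) u, hmem⟩ : VL D u hu) ∣ a := by
  obtain ⟨w, hw⟩ := ha
  have h1 : derL D u hu (a : Loc D u hu) = 0 := a.2
  have hu0 : algebraMap (B3 k) (Loc D u hu) u ≠ 0 := by
    intro h0
    rw [← map_zero (algebraMap (B3 k) (Loc D u hu))] at h0
    exact hu.ne_zero (Loc.inj D u hu h0)
  have h2 : derL D u hu w = 0 := by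
    rw [hw, Derivation.leibniz] at h1
    have h3 : derL D u hu (algebraMap (B3 k) (Loc D u hu) u) = 0 := hmem
    rw [h3, smul_zero, add_zero, smul_eq_mul] at h1
    exact (mul_eq_zero.mp h1).resolve_left hu0
  exact ⟨⟨w, h2⟩, Subtype.ext hw⟩

/-- the blocks of `u` are divisible by `deg f`, if the exceptional curve of `u` has a coordinate `x1`
with `v = P(x1)`, `deg f ∣ deg P`, `deg P > 0` on it -/
theorem blk_u [CharZero k] {f : (RR u)[X]} {v x y : SL u} {e : ℕ} (h : Dat u v0 D f v x y e)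
    {x1 : SL u} (hx1 : x1 ∈ Cx (RR u) v x y) {P : k[X]} (hP : io u u ∣ v - aeval x1 P)
    (hd : f.natDegree ∣ P.natDegree) (h0 : 0 < P.natDegree) (b : ℕ) (hb : IsBlock D h.ln u b) :
    b = 1 ∨ f.natDegree ∣ b := by
  obtain ⟨hu, hDu, hnd, hblk⟩ := hb
  rcases Nat.lt_or_ge 1 b with h1b | h1b
  swap
  · left
    have := hblk.1
    omega
  right
  obtain ⟨j, hj⟩ := hd
  set hL := locData D u hu hDu h.ln hnd with hhL
  have hmem : algebraMap (B3 k) (Loc D u hu) u ∈ VL D u hu := by
    rw [mem_kerAlg, derL_alg, hDu, map_zero]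
  have hR : ∀ r : RR u, (tau hu hDu (r : SL u)) ∈ VL D u hu := by
    intro r
    rw [mem_kerAlg, tau_der, exS_R h, map_zero]
  -- the element `v`
  have hvV : tau hu hDu v ∈ VL D u hu := by
    rw [mem_kerAlg, tau_der, exS_v h, map_zero]
  let v' : VL D u hu := ⟨tau hu hDu v, hvV⟩
  -- transfer of congruences
  have hcong : ∀ z z' : SL u, io u u ∣ z - z' →
      (Ideal.Quotient.mk _ (tau hu hDu z) : hL.res) = Ideal.Quotient.mk _ (tau hu hDu z') := by
    intro z z' hz
    rw [Ideal.Quotient.eq, mem_map_iff, ← map_sub]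
    obtain ⟨w, hw⟩ := hz
    exact ⟨tau hu hDu w, by rw [hw, map_mul, tau_io]; rfl⟩
  have hcongV : ∀ (z : SL u) (hz : tau hu hDu z ∈ VL D u hu) (g : k[X]), io u u ∣ z - aeval v g →
      (Ideal.Quotient.mk (Ideal.span {_}) (⟨tau hu hDu z, hz⟩ : VL D u hu) : hL.kap) =
        aeval (Ideal.Quotient.mk (Ideal.span {_}) v' : hL.kap) g := by
    intro z hz g hg
    have h1 : aeval (Ideal.Quotient.mk (Ideal.span {_}) v' : hL.kap) g =
        (Ideal.Quotient.mk (Ideal.span {_}) (aeval v' g) : hL.kap) := by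
      exact aeval_algHom_apply (Ideal.Quotient.mkₐ k _) v' g
    rw [h1, Ideal.Quotient.eq, Ideal.mem_span_singleton]
    apply dvd_V hu hmem
    obtain ⟨w, hw⟩ := hg
    refine ⟨tau hu hDu w, ?_⟩
    have h2 : ((aeval v' g : VL D u hu) : Loc D u hu) = tau hu hDu (aeval v g) := by
      rw [← Subalgebra.aeval_coe, aeval_algHom_apply]
    rw [← tau_io hu hDu u, ← map_mul, ← hw, map_sub, ← h2]
    rfl
  -- `u` is not a unit
  have hnu : ¬ IsUnit (uu u) := by
    intro h1
    have h2 : IsUnit (io u u) := h1.map (RR u).subtype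
    have h3 := h2.map (tau hu hDu)
    rw [tau_io] at h3
    exact hL.prime.not_isUnit h3
  have htr : Transcendental k (Ideal.Quotient.mk (Ideal.span {_}) v' : hL.kap) := by
    rintro ⟨q, hq0, hq⟩
    have h1 : aeval (Ideal.Quotient.mk (Ideal.span {_}) v' : hL.kap) q =
        (Ideal.Quotient.mk (Ideal.span {_}) (aeval v' q) : hL.kap) := by
      exact aeval_algHom_apply (Ideal.Quotient.mkₐ k _) v' q
    rw [h1, Ideal.Quotient.eq_zero_iff_mem, Ideal.mem_span_singleton] at hq
    obtain ⟨w, hw⟩ := hq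
    have h2 : ((aeval v' q : VL D u hu) : Loc D u hu) = tau hu hDu (aeval v q) := by
      rw [← Subalgebra.aeval_coe, aeval_algHom_apply]
    have h3 : algebraMap (B3 k) (Loc D u hu) u ∣ tau hu hDu (aeval v q) := by
      rw [← h2, hw]
      exact ⟨(w : Loc D u hu), rfl⟩
    have h4 := tau_dvd hu hDu h3
    rw [← aeval_map_algebraMap (RR u) v q] at h4
    have h5 := h.vtr _ h4
    rw [C_dvd_iff_dvd_coeff] at h5
    have h6 := h5 q.natDegree
    rw [coeff_map, coeff_natDegree] at h6
    exact hnu (isUnit_of_dvd_unit h6 ((isUnit_iff_ne_zero.mpr (leadingCoeff_ne_zero.mpr hq0)).map _))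
  have hvn : ¬ (⟨algebraMap (B3 k) (Loc D u hu) u, hmem⟩ : VL D u hu) ∣ v' := by
    intro h1
    have h2 : (Ideal.Quotient.mk (Ideal.span {_}) v' : hL.kap) = 0 := by
      rw [Ideal.Quotient.eq_zero_iff_mem, Ideal.mem_span_singleton]
      exact h1
    rw [h2] at htr
    exact htr isAlgebraic_zero
  -- `D (D x) = 0`
  have hDDx : derV D u hu (derV D u hu (tau hu hDu x)) = 0 := by
    rw [derV_apply, derV_apply, tau_der, tau_der]
    obtain ⟨w, _, hw⟩ := h.jD
    obtain ⟨w', _, hw'⟩ := h.jac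
    have h1 : exS u D x ∈ Algebra.adjoin (RR u) {v} := by
      rw [hw, hw']
      refine Subalgebra.mul_mem _ (Subalgebra.algebraMap_mem (Algebra.adjoin (RR u) {v}) w) ?_
      refine Subalgebra.mul_mem _ (Subalgebra.mul_mem _
        (Subalgebra.algebraMap_mem (Algebra.adjoin (RR u) {v}) w') ?_) (Algebra.subset_adjoin rfl)
      exact Subalgebra.pow_mem _ (Subalgebra.algebraMap_mem (Algebra.adjoin (RR u) {v}) (uu u)) _
    rw [(h.kerS _).mpr h1, map_zero]
  -- the relation
  let φ : RR u →+* VL D u hu :=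
    ((tau hu hDu : SL u →ₐ[k] Loc D u hu).toRingHom.comp (RR u).val.toRingHom).codRestrict
      (VL D u hu) hR
  have hrel : algebraMap (VL D u hu) (Loc D u hu) v' * tau hu hDu y =
      aeval (tau hu hDu x) (f.map φ) := by
    have h1 := congrArg (tau hu hDu) h.pres.rel
    rw [map_mul] at h1
    have h2 : tau hu hDu (aeval x f) = aeval (tau hu hDu x) (f.map φ) := by
      rw [aeval_def, aeval_def, eval₂_map]
      exact hom_eval₂ f (algebraMap (RR u) (SL u)) (tau hu hDu).toRingHom x
    rw [← h2, ← h1]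
    rfl
  -- `z`
  have hzmem : (Ideal.Quotient.mk _ (tau hu hDu x1) : hL.res) ∈ Algebra.adjoin k
      ({Ideal.Quotient.mk _ (algebraMap (VL D u hu) (Loc D u hu) v'),
        Ideal.Quotient.mk _ (tau hu hDu x), Ideal.Quotient.mk _ (tau hu hDu y)} : Set hL.res) := by
    have h1 : x1 ∈ Algebra.adjoin (RR u) {v, x, y} := hx1
    clear hx1 hP
    induction h1 using Algebra.adjoin_induction with
    | mem s hs =>
      apply Algebra.subset_adjoin
      rcases hs with rfl | rfl | rfl
      · left; rfl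
      · right; left; rfl
      · right; right; rfl
    | algebraMap r =>
      obtain ⟨c, hc⟩ := resR r
      have h2 := hcong _ _ hc
      have h3 : algebraMap (RR u) (SL u) r = (r : SL u) := rfl
      rw [h3, h2, AlgHom.commutes]
      exact Subalgebra.algebraMap_mem _ c
    | add s t _ _ hs ht =>
      rw [map_add, map_add]
      exact Subalgebra.add_mem _ hs ht
    | mul s t _ _ hs ht =>
      rw [map_mul, map_mul]
      exact Subalgebra.mul_mem _ hs ht
  have hPz : (Ideal.Quotient.mk _ (algebraMap (VL D u hu) (Loc D u hu) v') : hL.res) =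
      aeval (Ideal.Quotient.mk _ (tau hu hDu x1) : hL.res) P := by
    have h1 := hcong _ _ hP
    have h2 : aeval (Ideal.Quotient.mk _ (tau hu hDu x1) : hL.res) P =
        (Ideal.Quotient.mk _ (tau hu hDu (aeval x1 P)) : hL.res) := by
      rw [← aeval_algHom_apply (tau hu hDu) x1 P]
      exact aeval_algHom_apply (Ideal.Quotient.mkₐ k _) _ P
    rw [h2, ← h1]
    rfl
  -- the residue field
  have hkap : ∀ c : hL.kap, ∃ g g' : k[X],
      aeval (Ideal.Quotient.mk (Ideal.span {_}) v' : hL.kap) g' ≠ 0 ∧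
        c * aeval (Ideal.Quotient.mk (Ideal.span {_}) v' : hL.kap) g' =
          aeval (Ideal.Quotient.mk (Ideal.span {_}) v' : hL.kap) g := by
    intro c
    obtain ⟨a, rfl⟩ := Ideal.Quotient.mk_surjective c
    obtain ⟨b', s, hbs⟩ := IsLocalization.exists_mk'_eq (locM D u hu) (a : Loc D u hu)
    have hDb : D b' = 0 := by
      have h1 : derL D u hu (a : Loc D u hu) = 0 := a.2
      rw [← hbs, derL_mk] at h1
      exact mk_eq_zero D u hu _ _ h1
    have hbV : tau hu hDu (io u b') ∈ VL D u hu := by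
      rw [mem_kerAlg, tau_der, exS_io, hDb, io_zero, map_zero]
    have hsV : tau hu hDu (io u (s : B3 k)) ∈ VL D u hu := by
      rw [mem_kerAlg, tau_der, exS_io, s.2.1, io_zero, map_zero]
    obtain ⟨g, hg⟩ := resK h (z := io u b') (by rw [exS_io, hDb, io_zero])
    obtain ⟨g', hg'⟩ := resK h (z := io u (s : B3 k)) (by rw [exS_io, s.2.1, io_zero])
    have h1 := hcongV _ hbV g hg
    have h2 := hcongV _ hsV g' hg'
    refine ⟨g, g', ?_, ?_⟩
    · rw [← h2]
      intro h3
      rw [Ideal.Quotient.eq_zero_iff_mem, Ideal.mem_span_singleton] at h3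
      obtain ⟨w, hw⟩ := h3
      have h4 := congrArg Subtype.val hw
      have h5 : algebraMap (B3 k) (Loc D u hu) u ∣ algebraMap (B3 k) (Loc D u hu) (s : B3 k) := by
        rw [← tau_io hu hDu (s : B3 k)]
        exact ⟨(w : Loc D u hu), h4⟩
      rw [← IsLocalization.mk'_one (M := locM D u hu) (Loc D u hu) (s : B3 k),
        dvd_mk_iff D u hu hDu] at h5
      exact s.2.2 h5
    · rw [← h1, ← h2, ← map_mul]
      congr 1
      apply Subtype.ext
      change (a : Loc D u hu) * tau hu hDu (io u (s : B3 k)) = tau hu hDu (io u b')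
      rw [← hbs, tau_io, tau_io]
      exact IsLocalization.mk'_spec _ _ _
  have hfin := blk_dvd (k := k) hL hblk h1b hvn hDDx hrel hzmem (β := f.natDegree) (j := j)
    (by have := h.pres.deg; omega) (by
      rcases Nat.eq_zero_or_pos j with hj0 | hj0
      · rw [hj0, mul_zero] at hj; omega
      · exact hj0) hj hPz htr hkap
  exact (Dvd.intro _ rfl).trans hfin

end Pool.Agent.LNDQ
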