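import Mathlib
import Pool.Agent.LNDT.Main

set_option autoImplicit false

open Polynomial

namespace Pool.Agent.LNDQ

open Pool.Agent.LNDHom Pool.Agent.LNDHom.LocData Pool.Agent.LNDF Pool.Agent.LNDT

namespace BlkS

section loc

variable {V Λ : Type*} [CommRing V] [IsDomain V] [CommRing Λ] [IsDomain Λ] [Algebra V Λ]
  {D : Derivation V Λ Λ} {p : V}

/-- powers: the top derivative -/
theorem top_pow (h : LocData V Λ D p) (b : ℕ) : ∃ w : V, IsUnit w ∧
    (⇑D)^[b] (h.q 1 ^ b) = algebraMap V Λ (w * p ^ (b * h.e 1)) ∧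
      (⇑D)^[b + 1] (h.q 1 ^ b) = 0 := by
  induction b with
  | zero => exact ⟨1, isUnit_one, by simp, by simp⟩
  | succ b ih =>
    obtain ⟨w, hw, h1, h2⟩ := ih
    obtain ⟨h3, h4⟩ := iter_mul_top D (b + 1) b 1 (h.q 1 ^ b) (h.q 1) rfl h2 (h.iter_succ_q 1)
    refine ⟨((b + 1).choose b : V) * w, (h.unit _ (Nat.choose_pos (by omega)).ne').mul hw, ?_, ?_⟩
    · rw [pow_succ, h3, h1, h.iter_q]
      simp only [map_mul, map_pow, map_natCast, Nat.succ_mul, pow_add]
      ring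
    · rw [pow_succ]
      exact h4

/-- a block `b > 1` has `e b < b e 1` -/
theorem e_lt (h : LocData V Λ D p) {b : ℕ} (hb : Blk h b) (hb1 : 1 < b) : h.e b < b * h.e 1 := by
  have h1 : (Ideal.Quotient.mk _ (h.q 1) : h.res) ∈ h.F (b - 1) := by
    rw [mem_F]
    exact ⟨h.q 1, iter_zero_of_le D (h.iter_succ_q 1) (by omega), rfl⟩
  have h0 : (1 : h.res) ∈ h.F (b - 1) := by
    rw [mem_F]
    exact ⟨1, iter_zero_of_le D (show (⇑D)^[1] (1 : Λ) = 0 by simp) (by omega), map_one _⟩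
  have h2 : ∀ a : ℕ, (Ideal.Quotient.mk _ (h.q 1) : h.res) ^ a ∈ h.F (b - 1) := by
    intro a
    induction a with
    | zero => rw [pow_zero]; exact h0
    | succ a ih => rw [pow_succ]; exact hb.2 _ ih _ h1
  have h3 := h2 b
  rw [mem_F] at h3
  obtain ⟨y, hy, hy'⟩ := h3
  rw [← map_pow, eq_comm, Ideal.Quotient.eq, mem_map_iff] at hy'
  obtain ⟨z, hz⟩ := hy'
  obtain ⟨w, hw, h4, -⟩ := top_pow h b
  have hy2 : (⇑D)^[b] y = 0 := iter_zero_of_le D hy (by omega)
  have h5 : (⇑D)^[b] (h.q 1 ^ b - y) = algebraMap V Λ (w * p ^ (b * h.e 1)) := by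
    rw [iterate_map_sub, h4, hy2, sub_zero]
  rw [hz, ← Algebra.smul_def, smul_iter, Algebra.smul_def] at h5
  -- `D^b z` is a constant
  have h6 : algebraMap V Λ p * D ((⇑D)^[b] z) = 0 := by
    have h7 := congrArg D h5
    rwa [Derivation.leibniz, Derivation.map_algebraMap, smul_zero, add_zero, smul_eq_mul,
      Derivation.map_algebraMap] at h7
  obtain ⟨v, hv⟩ := h.ker _ ((mul_eq_zero.1 h6).resolve_left h.prime.ne_zero)
  rw [← hv, ← map_mul] at h5
  have h7 : p * v = w * p ^ (b * h.e 1) := h.inj h5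
  have h8 := h.e_dvd b z v hv.symm
  have h9 : p ^ (h.e b + 1) ∣ w * p ^ (b * h.e 1) := by
    rw [← h7, pow_succ, mul_comm]
    exact mul_dvd_mul_left p h8
  rw [hw.dvd_mul_left] at h9
  have h10 := (pow_dvd_pow_iff h.ne h.nu).mp h9
  omega

end loc

variable {k B : Type} [Field k] [CharZero k] [CommRing B] [IsDomain B] [Algebra k B]
  [UniqueFactorizationMonoid B] {D : Derivation k B B}

/-- a simple prime has the two blocks `1` and `n_p` only -/
theorem blk_simple (hln : ∀ x, ∃ n, (⇑D)^[n] x = 0) {p c : B} (hp : Prime p) (hDp : D p = 0)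
    (hnd : ∃ x, ¬ p ∣ D x) (hc : IsCC D 1 c) (h1 : p ∣ c) (h2 : ¬ p ^ 2 ∣ c) {b : ℕ}
    (hb : IsBlock D hln p b) : b = 1 ∨ b = npB D p := by
  obtain ⟨hp', hDp', hnd', hb⟩ := hb
  have hD : ∃ x, D x ≠ 0 := by
    obtain ⟨x, hx⟩ := hnd
    exact ⟨x, fun h0 => hx (by rw [h0]; exact dvd_zero _)⟩
  have hle := hb.le_np
  rw [np_eq D hp hDp hln hnd] at hle
  by_cases hb1 : b = 1
  · exact Or.inl hb1
  right
  have hb2 : 1 < b := by have := hb.1; omega
  by_contra hne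
  have hlt := e_lt _ hb hb2
  have e1 : (locData D p hp hDp hln hnd).e 1 = 1 := by
    have h3 := (loc_e D hp hDp hln hnd hc 1).1 (by rw [pow_one]; exact h1)
    by_contra h4
    exact h2 ((loc_e D hp hDp hln hnd hc 2).2 (by omega))
  obtain ⟨cn, hcn⟩ := exists_cc D hD hln b
  have h3 := (simple_e hln hp hDp hnd hc h1 h2 hcn b).2
  rw [Nat.div_eq_of_lt (by omega), Nat.sub_zero] at h3
  have h4 := (loc_e D hp hDp hln hnd hcn b).1 (h3 le_rfl)
  rw [e1] at hlt
  omega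

end BlkS

end Pool.Agent.LNDQ
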