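import Mathlib
import Pool.Agent.LNDT.Main

set_option autoImplicit false

open Polynomial

namespace Pool.Agent.LNDQ

open Pool.Agent.LNDHom Pool.Agent.LNDF Pool.Agent.LNDT

variable {k : Type} [Field k]

/-- `D` is an irreducible nonzero locally nilpotent derivation of `k[x, y, z]` with kernel the polynomial
ring `k[f, g]` -/
structure KD (D : Derivation k (B3 k) (B3 k)) (f g : B3 k) : Prop where
  nz : ∃ x, D x ≠ 0
  ln : ∀ x, ∃ n, (⇑D)^[n] x = 0
  ind : AlgebraicIndependent k ![f, g]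
  ker : ∀ b, D b = 0 ↔ b ∈ Algebra.adjoin k {f, g}
  irr : ∀ p : B3 k, Prime p → D p = 0 → ∃ x, ¬ p ∣ D x

/-- near `u = 0` the image ideals of `D` are principal: some `q(u)`, `q(0) ≠ 0`, times the greatest common
divisor of the image ideal of degree `n` is in the image ideal -/
def Q1R (D : Derivation k (B3 k) (B3 k)) (u : B3 k) : Prop :=
  ∀ (n : ℕ) (c : B3 k), IsCC D n c →
    ∃ (q : k[X]) (x : B3 k), q.eval 0 ≠ 0 ∧ (⇑D)^[n] x = aeval u q * c

/-- what is proved at the crossings where one prime is not simple (FI6): then the image ideals are principal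
near one of the constants `u` in the maximal ideal `m` -/
def CrossHyp (k : Type) [Field k] : Prop :=
  ∀ (D : Derivation k (B3 k) (B3 k)) (f g : B3 k), KD D f g →
  ∀ (A : Arith D) (G r : B3 k), (⇑D)^[A.N] G = A.cc A.N → D r = A.cc 1 →
  ∀ (m : Ideal (kerAlg D)), m.IsMaximal → ∀ p q : kerAlg D, Prime (p : B3 k) → Prime (q : B3 k) →
    ¬ Associated (p : B3 k) (q : B3 k) → p ∈ m → q ∈ m → 1 < npB D (p : B3 k) →
    1 < npB D (q : B3 k) → (p : B3 k) ^ 2 ∣ A.cc 1 → ∃ u : kerAlg D, u ∈ m ∧ Q1R D (u : B3 k)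

end Pool.Agent.LNDQ
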