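import Mathlib
import Pool.Agent.LNDQ.FiDefs

set_option autoImplicit false

open Polynomial

namespace Pool.Agent.LNDQ

open Pool.Agent.LNDHom Pool.Agent.LNDF Pool.Agent.LNDT

/-- the element `q(u)` of the kernel is not in a maximal ideal which contains `u`, if `q(0) ≠ 0` -/
theorem aeval_notMem {k A : Type} [Field k] [CommRing A] [Algebra k A] {m : Ideal A} (hm : m ≠ ⊤)
    {u : A} (hu : u ∈ m) {q : k[X]} (hq : q.eval 0 ≠ 0) : aeval u q ∉ m := by
  intro h
  have h1 : q = C (q.eval 0) + X * q.divX := by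
    conv_lhs => rw [← q.divX_mul_X_add]
    rw [coeff_zero_eq_eval_zero]
    ring
  rw [h1, map_add, map_mul, aeval_X, aeval_C] at h
  have h2 : algebraMap k A (q.eval 0) ∈ m := by
    have h3 := m.sub_mem h (m.mul_mem_right (aeval u q.divX) hu)
    rwa [add_sub_cancel_right] at h3
  apply hm
  rw [Ideal.eq_top_iff_one]
  have h4 := m.mul_mem_left (algebraMap k A (q.eval 0)⁻¹) h2
  rwa [← map_mul, inv_mul_cancel₀ hq, map_one] at h4

theorem coe_aeval {k B : Type} [Field k] [CommRing B] [Algebra k B] {D : Derivation k B B}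
    (u : kerAlg D) (q : k[X]) : ((aeval u q : kerAlg D) : B) = aeval (u : B) q := by
  exact (Polynomial.aeval_algHom_apply (kerAlg D).val u q).symm

/-- THE MAIN STEP without a hypothesis on squares: `LNDT.main_step` and `CrossHyp` -/
theorem main_step2 {k : Type} [Field k] [CharZero k] (hX : CrossHyp k)
    {D : Derivation k (B3 k) (B3 k)} {f g : B3 k} (H : KD D f g)
    {N0 : ℕ} {G0 : B3 k} (hP : Pkg D N0 G0) (A : Arith D)
    {G : B3 k} (hG : (⇑D)^[A.N] G = A.cc A.N) {r : B3 k}
    (hr : D r = A.cc 1) (n : ℕ) :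
    ∃ x, (⇑D)^[n] x = A.cc n := by
  have hD := H.nz
  have hln := H.ln
  have hind := H.ind
  have hker := H.ker
  have hirr := H.irr
  -- the local statement
  have hloc : ∀ m : Ideal (kerAlg D), m.IsMaximal →
      ∃ (a : kerAlg D) (x : MvPolynomial (Fin 3) k), a ∉ m ∧ (⇑D)^[n + 1] x = 0 ∧
        (⇑D)^[n] x = a * A.cc n := by
    intro m hm
    by_cases hc : ∀ p q : kerAlg D, Prime (p : MvPolynomial (Fin 3) k) →
        Prime (q : MvPolynomial (Fin 3) k) → p ∈ m → q ∈ m →
        ¬ Associated (p : MvPolynomial (Fin 3) k) (q : MvPolynomial (Fin 3) k) →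
        ∀ a b : ℕ, a ∣ npB D (p : MvPolynomial (Fin 3) k) →
          b ∣ npB D (q : MvPolynomial (Fin 3) k) → a ≤ n → b ≤ n → a ∣ b ∨ b ∣ a
    · exact chain_at hln hirr A hG hr n m hm hc
    push Not at hc
    obtain ⟨p, q, hp, hq, hpm, hqm, hna, a, b, ha, hb, han, hbn, hab, hba⟩ := hc
    have hDp : D (p : MvPolynomial (Fin 3) k) = 0 := p.2
    have hDq : D (q : MvPolynomial (Fin 3) k) = 0 := q.2
    have hp0 : 0 < npB D (p : MvPolynomial (Fin 3) k) :=
      Nat.pos_of_dvd_of_pos (A.npN _ hp hDp) A.N_pos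
    have hq0 : 0 < npB D (q : MvPolynomial (Fin 3) k) :=
      Nat.pos_of_dvd_of_pos (A.npN _ hq hDq) A.N_pos
    have hp1 : 1 < npB D (p : MvPolynomial (Fin 3) k) := by
      rcases Nat.lt_or_ge 1 (npB D (p : MvPolynomial (Fin 3) k)) with h | h
      · exact h
      · exfalso
        have h1 : npB D (p : MvPolynomial (Fin 3) k) = 1 := by omega
        rw [h1] at ha
        exact hab ((Nat.dvd_one.1 ha) ▸ one_dvd _)
    have hq1 : 1 < npB D (q : MvPolynomial (Fin 3) k) := by
      rcases Nat.lt_or_ge 1 (npB D (q : MvPolynomial (Fin 3) k)) with h | h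
      · exact h
      · exfalso
        have h1 : npB D (q : MvPolynomial (Fin 3) k) = 1 := by omega
        rw [h1] at hb
        exact hba ((Nat.dvd_one.1 hb) ▸ one_dvd _)
    have hcc := A.isCC 1
    -- from `Q1R` to the local statement
    have hQ : ∀ u : kerAlg D, u ∈ m → Q1R D (u : B3 k) →
        ∃ (a : kerAlg D) (x : MvPolynomial (Fin 3) k), a ∉ m ∧ (⇑D)^[n + 1] x = 0 ∧
          (⇑D)^[n] x = a * A.cc n := by
      intro u hum hu
      obtain ⟨q, x, hq, hx⟩ := hu n (A.cc n) (A.isCC n)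
      refine ⟨aeval u q, x, aeval_notMem hm.ne_top hum hq, ?_, ?_⟩
      · rw [Function.iterate_succ_apply', hx, ← coe_aeval, Derivation.leibniz, (A.isCC n).const]
        have : D ((aeval u q : kerAlg D) : B3 k) = 0 := (aeval u q : kerAlg D).2
        rw [this, smul_zero, smul_zero, add_zero]
      · rw [hx, coe_aeval]
    by_cases hsp : (p : MvPolynomial (Fin 3) k) ^ 2 ∣ A.cc 1
    · obtain ⟨u, hum, hu⟩ := hX D f g H A G r hG hr m hm p q hp hq hna hpm hqm hp1 hq1 hsp
      exact hQ u hum hu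
    by_cases hsq' : (q : MvPolynomial (Fin 3) k) ^ 2 ∣ A.cc 1
    · obtain ⟨u, hum, hu⟩ := hX D f g H A G r hG hr m hm q p hq hp (fun h => hna h.symm) hqm hpm
        hq1 hp1 hsq'
      exact hQ u hum hu
    have hpc := dvd_of_np hln hp hDp (hirr _ hp hDp) hcc hp1
    have hqc := dvd_of_np hln hq hDq (hirr _ hq hDq) hcc hq1
    obtain ⟨hgen, hoth⟩ := st_main D hln hind hker hP (c := ⟨A.cc 1, hcc.const⟩) hr hcc m hm hp hq
      (special_of_np hln hp hDp (hirr _ hp hDp) hcc hp1)
      (special_of_np hln hq hDq (hirr _ hq hDq) hcc hq1) hna hpm hqm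
    have hX' : Cross D A.cc m p q (npB D (p : MvPolynomial (Fin 3) k))
        (npB D (q : MvPolynomial (Fin 3) k)) :=
      { hcc := A.isCC
        lnd := hln
        pp := hp
        pq := hq
        npq := hna
        pm := hpm
        qm := hqm
        pα := hp1
        pβ := hq1
        ep := fun l s => simple_e hln hp hDp (hirr _ hp hDp) hcc hpc hsp (A.isCC l) s
        eq := fun l s => simple_e hln hq hDq (hirr _ hq hDq) hcc hqc hsq' (A.isCC l) s
        other := fun p' hp' hpm' hpc' => by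
          have hDp' : D (p' : MvPolynomial (Fin 3) k) = 0 := p'.2
          exact hoth p' hp' (special_of_np hln hp' hDp' (hirr _ hp' hDp') hcc
            (np_of_dvd hln hp' hDp' (hirr _ hp' hDp') hcc hpc')) hpm'
        gen := hgen }
    exact cross_main hirr hm hX' hpc hsp hqc hsq' hr A.N_pos A.npN hG n
  have hconst : ∀ a x : MvPolynomial (Fin 3) k, D a = 0 → (⇑D)^[n] (a * x) = a * (⇑D)^[n] x :=
    fun a x ha => chG_iter_mul D ha x n
  have hadd : ∀ x y : MvPolynomial (Fin 3) k, (⇑D)^[n] (x + y) = (⇑D)^[n] x + (⇑D)^[n] y :=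
    chG_iter_add D n
  -- the ideal
  let I : Ideal (kerAlg D) :=
    { carrier := {a | ∃ x, (⇑D)^[n] x = (a : MvPolynomial (Fin 3) k) * A.cc n}
      add_mem' := by
        rintro a b ⟨x, hx⟩ ⟨y, hy⟩
        refine ⟨x + y, ?_⟩
        rw [hadd, hx, hy, Subalgebra.coe_add, add_mul]
      zero_mem' := ⟨0, by
        rw [Subalgebra.coe_zero, zero_mul]
        have := hconst 0 0 (map_zero _)
        rw [zero_mul, zero_mul] at this
        exact this⟩
      smul_mem' := by
        rintro c a ⟨x, hx⟩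
        refine ⟨(c : MvPolynomial (Fin 3) k) * x, ?_⟩
        rw [hconst _ _ c.2, hx, smul_eq_mul, Subalgebra.coe_mul, mul_assoc] }
  have hI : I = ⊤ := by
    by_contra hne
    obtain ⟨m, hm, hIm⟩ := Ideal.exists_le_maximal I hne
    obtain ⟨a, x, ham, -, hx⟩ := hloc m hm
    exact ham (hIm ⟨x, hx⟩)
  have h1 : (1 : kerAlg D) ∈ I := by rw [hI]; exact Submodule.mem_top
  obtain ⟨x, hx⟩ := h1
  exact ⟨x, by rw [hx, Subalgebra.coe_one, one_mul]⟩

end Pool.Agent.LNDQ
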