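import Mathlib
import Pool.Agent.LNDQ.FiMain
import Pool.Agent.LNDT.Res

set_option autoImplicit false

open Polynomial

namespace Pool.Agent.LNDQ

open Pool.Agent.LNDHom Pool.Agent.LNDF Pool.Agent.LNDT

variable {k : Type} [Field k] [CharZero k]

/-- the package with the arithmetic, an element over `cc N` and the minimal slice (from `LNDT.res_irr`) -/
theorem exists_arith_slice {D : Derivation k (B3 k) (B3 k)} {f g : B3 k} (H : KD D f g) :
    ∃ (N0 : ℕ) (G0 : B3 k) (A : Arith D) (G r : B3 k), Pkg D N0 G0 ∧ (⇑D)^[A.N] G = A.cc A.N ∧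
      D r = A.cc 1 := by
  have hD0 := H.nz
  have hln := H.ln
  have hirr := H.irr
  obtain ⟨N0, G0, hP⟩ := pkg_all D hD0 hln f g H.ind H.ker
  obtain ⟨N1, hN1, hnp⟩ := exists_N D hD0 hln hirr
  obtain ⟨A, hA⟩ := arith_of D hD0 hln hirr (N0 * N1) (Nat.mul_pos hP.pos hN1)
    (fun p hp hDp => Dvd.dvd.mul_left (hnp p hp hDp) _)
  have key : ∀ m, Princ D m → ∃ x, (⇑D)^[m] x = A.cc m := by
    intro m ⟨a, ha, hm⟩
    obtain ⟨x, hx1, hx2⟩ := (hm a).mpr ⟨1, by simp, by simp⟩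
    have hcc := A.isCC m
    obtain ⟨b, hb⟩ := hcc.dvd x hx1
    rw [hx2] at hb
    have hbu : IsUnit b := by
      by_contra hbu
      have hb0 : b ≠ 0 := by
        rintro rfl
        rw [mul_zero] at hb
        obtain ⟨y, hy1, hy2⟩ := exists_deg D hD0 hln m
        obtain ⟨c, _, hc⟩ := (hm _).mp ⟨y, hy2, rfl⟩
        rw [hb, zero_mul] at hc
        exact hy1 hc
      obtain ⟨q, hq, hqb⟩ := WfDvdMonoid.exists_irreducible_factor hbu hb0
      obtain ⟨y, hy1, hy2⟩ := hcc.sharp q hq.prime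
      obtain ⟨c, _, hc⟩ := (hm _).mp ⟨y, hy1, rfl⟩
      apply hy2
      rw [hc, hb]
      obtain ⟨b', rfl⟩ := hqb
      exact ⟨b' * c, by ring⟩
    obtain ⟨u, hu⟩ := hbu
    have hcu : a * ↑(u⁻¹) = A.cc m := by rw [hb, ← hu, mul_assoc, Units.mul_inv, mul_one]
    obtain ⟨y, _, hy⟩ := (hm (A.cc m)).mpr ⟨↑(u⁻¹), by
      have h1 : a ≠ 0 := by rw [hb]; exact mul_ne_zero hcc.ne (by rw [← hu]; exact u.ne_zero)
      have h2 := hcc.const
      rw [← hcu, Derivation.leibniz, ha, smul_zero, add_zero, smul_eq_mul] at h2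
      exact (mul_eq_zero.mp h2).resolve_left h1, hcu.symm⟩
    exact ⟨y, hy⟩
  obtain ⟨G, hG⟩ := key A.N (hP.princ A.N (Or.inl (by rw [hA]; exact Dvd.intro _ rfl)))
  obtain ⟨r, hr⟩ := key 1 (hP.princ_one hln (hP.dual 2 (by norm_num)) hD0)
  exact ⟨N0, G0, A, G, r, hP, hG, by simpa using hr⟩

omit [CharZero k] in
/-- `q(u)`, `q(0) ≠ 0`, is not divisible by a constant in a maximal ideal with `u` -/
theorem fi_not_dvd_aeval [CharZero k] {D : Derivation k (B3 k) (B3 k)} (hln : ∀ x, ∃ n, (⇑D)^[n] x = 0)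
    {m : Ideal (kerAlg D)} (hm : m ≠ ⊤) {u p : kerAlg D} (hu : u ∈ m) (hp : p ∈ m) {q : k[X]}
    (hq : q.eval 0 ≠ 0) : ¬ (p : B3 k) ∣ aeval (u : B3 k) q := by
  rintro ⟨w, hw⟩
  have h0 := aeval_notMem hm hu hq
  apply h0
  have h1 : D (aeval (u : B3 k) q) = 0 := by rw [← coe_aeval]; exact (aeval u q : kerAlg D).2
  by_cases h2 : aeval (u : B3 k) q = 0
  · have : (aeval u q : kerAlg D) = 0 := Subtype.ext (by rw [coe_aeval, h2]; rfl)
    rw [this]
    exact m.zero_mem
  · have h3 : D w = 0 := const_of_dvd D hln h1 h2 ⟨(p : B3 k), by rw [hw, mul_comm]⟩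
    have h4 : aeval u q = p * ⟨w, h3⟩ := Subtype.ext (by rw [coe_aeval, hw]; rfl)
    rw [h4]
    exact m.mul_mem_right _ hp

/-- the local statement at a maximal ideal with `u`, if the minimal slice is simple at `u` and at the other
prime `p`, and `(u, p)` is the ideal of one point -/
theorem small_at {D : Derivation k (B3 k) (B3 k)} {f g : B3 k} (H : KD D f g) (A : Arith D)
    {G r0 : B3 k} (hG : (⇑D)^[A.N] G = A.cc A.N) (hr0 : D r0 = A.cc 1) {u p : kerAlg D}
    (hu : Prime (u : B3 k)) (hp : Prime (p : B3 k)) (hup : ¬ Associated (u : B3 k) (p : B3 k))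
    (hgen : ∀ a : kerAlg D, ∃ (c : k) (x y : kerAlg D), a = algebraMap k (kerAlg D) c + x * u + y * p)
    {q : k[X]} (hq : q.eval 0 ≠ 0) {r : B3 k} (hr : D r = aeval (u : B3 k) q * u * p) (n : ℕ)
    {m : Ideal (kerAlg D)} (hm : m.IsMaximal) (hum : u ∈ m) :
    ∃ (a : kerAlg D) (x : B3 k), a ∉ m ∧ (⇑D)^[n + 1] x = 0 ∧ (⇑D)^[n] x = a * A.cc n := by
  have hln := H.ln
  have hirr := H.irr
  have hcc := A.isCC 1
  by_cases hc : ∀ p q : kerAlg D, Prime (p : B3 k) →
      Prime (q : B3 k) → p ∈ m → q ∈ m →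
      ¬ Associated (p : B3 k) (q : B3 k) →
      ∀ a b : ℕ, a ∣ npB D (p : B3 k) →
        b ∣ npB D (q : B3 k) → a ≤ n → b ≤ n → a ∣ b ∨ b ∣ a
  · exact chain_at hln hirr A hG hr0 n m hm hc
  push Not at hc
  obtain ⟨p1, q1, hp1, hq1, hpm, hqm, hna, a, b, ha, hb, han, hbn, hab, hba⟩ := hc
  have hnp : ∀ p' : kerAlg D, Prime (p' : B3 k) → ∀ a : ℕ, a ∣ npB D (p' : B3 k) → a ≠ 1 →
      1 < npB D (p' : B3 k) := by
    intro p' hp' a ha ha1
    have h0 : 0 < npB D (p' : B3 k) := Nat.pos_of_dvd_of_pos (A.npN _ hp' p'.2) A.N_pos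
    rcases Nat.lt_or_ge 1 (npB D (p' : B3 k)) with h | h
    · exact h
    · exfalso
      have h1 : npB D (p' : B3 k) = 1 := by omega
      rw [h1] at ha
      exact ha1 (Nat.dvd_one.1 ha)
  have hpn := hnp p1 hp1 a ha (fun h => hab (h ▸ one_dvd _))
  have hqn := hnp q1 hq1 b hb (fun h => hba (h ▸ one_dvd _))
  -- `cc 1` divides `q(u) u p`
  have hcr : A.cc 1 ∣ aeval (u : B3 k) q * u * p := by
    rw [← hr]
    refine hcc.dvd r ?_
    change D (D r) = 0
    have h1 : D r = ((aeval u q * u * p : kerAlg D) : B3 k) := by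
      rw [hr, Subalgebra.coe_mul, Subalgebra.coe_mul, coe_aeval]
    rw [h1]
    exact (aeval u q * u * p : kerAlg D).2
  -- primes in `m` dividing `cc 1`
  have hpr : ∀ p' : kerAlg D, Prime (p' : B3 k) → p' ∈ m → (p' : B3 k) ∣ A.cc 1 →
      Associated (p' : B3 k) (u : B3 k) ∨ Associated (p' : B3 k) (p : B3 k) := by
    intro p' hp' hpm' hd
    rcases hp'.dvd_or_dvd (hd.trans hcr) with h1 | h1
    · rcases hp'.dvd_or_dvd h1 with h2 | h2
      · exact absurd h2 (fi_not_dvd_aeval hln hm.ne_top hum hpm' hq)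
      · exact Or.inl ((hp'.dvd_prime_iff_associated hu).1 h2)
    · exact Or.inr ((hp'.dvd_prime_iff_associated hp).1 h1)
  have hpc := dvd_of_np hln hp1 p1.2 (hirr _ hp1 p1.2) hcc hpn
  have hqc := dvd_of_np hln hq1 q1.2 (hirr _ hq1 q1.2) hcc hqn
  -- the two primes are `u` and `p`
  have hmem : ∀ p' q' : kerAlg D, p' ∈ m → Associated (p' : B3 k) (q' : B3 k) → q' ∈ m := by
    rintro p' q' hp' ⟨w, hw⟩
    have hDw : D (w : B3 k) = 0 :=
      const_of_dvd D hln D.map_one_eq_zero one_ne_zero (isUnit_iff_dvd_one.1 w.isUnit)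
    have : q' = p' * ⟨w, hDw⟩ := Subtype.ext hw.symm
    rw [this]
    exact m.mul_mem_right _ hp'
  have hkey : p ∈ m ∧ 1 < npB D (u : B3 k) ∧ 1 < npB D (p : B3 k) := by
    rcases hpr p1 hp1 hpm hpc with h1 | h1 <;> rcases hpr q1 hq1 hqm hqc with h2 | h2
    · exact absurd (h1.trans h2.symm) hna
    · exact ⟨hmem q1 p hqm h2, by rw [← npB_assoc D h1]; exact hpn,
        by rw [← npB_assoc D h2]; exact hqn⟩
    · exact ⟨hmem p1 p hpm h1, by rw [← npB_assoc D h2]; exact hqn,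
        by rw [← npB_assoc D h1]; exact hpn⟩
    · exact absurd (h1.trans h2.symm) hna
  obtain ⟨hpm', hun, hpn'⟩ := hkey
  have huc := dvd_of_np hln hu u.2 (hirr _ hu u.2) hcc hun
  have hpc' := dvd_of_np hln hp p.2 (hirr _ hp p.2) hcc hpn'
  have hu2 : ¬ (u : B3 k) ^ 2 ∣ A.cc 1 := by
    intro hd
    have h1 : (u : B3 k) * u ∣ u * (aeval (u : B3 k) q * p) := by
      have h2 := hd.trans hcr
      rwa [sq, show aeval (u : B3 k) q * u * p = u * (aeval (u : B3 k) q * p) by ring] at h2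
    have h2 := (mul_dvd_mul_iff_left hu.ne_zero).1 h1
    rcases hu.dvd_or_dvd h2 with h3 | h3
    · exact fi_not_dvd_aeval hln hm.ne_top hum hum hq h3
    · exact hup ((hu.dvd_prime_iff_associated hp).1 h3)
  have hp2 : ¬ (p : B3 k) ^ 2 ∣ A.cc 1 := by
    intro hd
    have h1 : (p : B3 k) * p ∣ p * (aeval (u : B3 k) q * u) := by
      have h2 := hd.trans hcr
      rwa [sq, show aeval (u : B3 k) q * u * p = p * (aeval (u : B3 k) q * u) by ring] at h2
    have h2 := (mul_dvd_mul_iff_left hp.ne_zero).1 h1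
    rcases hp.dvd_or_dvd h2 with h3 | h3
    · exact fi_not_dvd_aeval hln hm.ne_top hum hpm' hq h3
    · exact hup ((hp.dvd_prime_iff_associated hu).1 h3).symm
  have hX' : Cross D A.cc m u p (npB D (u : B3 k)) (npB D (p : B3 k)) :=
    { hcc := A.isCC
      lnd := hln
      pp := hu
      pq := hp
      npq := hup
      pm := hum
      qm := hpm'
      pα := hun
      pβ := hpn'
      ep := fun l s => simple_e hln hu u.2 (hirr _ hu u.2) hcc huc hu2 (A.isCC l) s
      eq := fun l s => simple_e hln hp p.2 (hirr _ hp p.2) hcc hpc' hp2 (A.isCC l) s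
      other := fun p' hp' hpm' hpc' => hpr p' hp' hpm' hpc'
      gen := fun a ha => by
        obtain ⟨c, x, y, e⟩ := hgen a
        have hc : algebraMap k (kerAlg D) c ∈ m := by
          have h1 : algebraMap k (kerAlg D) c = a - x * u - y * p := by rw [e]; ring
          rw [h1]
          exact m.sub_mem (m.sub_mem ha (m.mul_mem_left _ hum)) (m.mul_mem_left _ hpm')
        have hc0 : c = 0 := by
          by_contra hc0
          apply hm.ne_top
          rw [Ideal.eq_top_iff_one]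
          have h4 := m.mul_mem_left (algebraMap k (kerAlg D) c⁻¹) hc
          rwa [← map_mul, inv_mul_cancel₀ hc0, map_one] at h4
        refine ⟨1, (Ideal.ne_top_iff_one m).1 hm.ne_top, x, y, ?_⟩
        rw [e, hc0, map_zero]
        ring }
  exact cross_main hirr hm hX' huc hu2 hpc' hp2 hr0 A.N_pos A.npN hG n

end Pool.Agent.LNDQ
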