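import Mathlib
import Pool.Agent.LNDQ.BDefs
import Pool.Agent.LNDQ.FiSmall

set_option autoImplicit false

open Polynomial

namespace Pool.Agent.LNDQ

open Pool.Agent.LNDHom Pool.Agent.LNDF Pool.Agent.LNDT

variable {k : Type} [Field k]

/-! ### the kernel `k[u, v0]` as the ring `k[X][X]` -/

/-- substitution in `k[X][X]` -/
noncomputable def bv (u v0 : B3 k) : k[X][X] →+* B3 k :=
  eval₂RingHom (aeval u : k[X] →ₐ[k] B3 k).toRingHom v0

theorem bv_C (u v0 : B3 k) (q : k[X]) : bv u v0 (C q) = aeval u q := by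
  simp [bv]

theorem bv_X (u v0 : B3 k) : bv u v0 X = v0 := by
  simp [bv]

theorem bv_inj {u v0 : B3 k} (hind : AlgebraicIndependent k ![u, v0]) :
    Function.Injective (bv u v0) := by
  rw [injective_iff_map_eq_zero]
  intro P hP
  let φ : k[X][X] →+* MvPolynomial (Fin 2) k :=
    eval₂RingHom (aeval (MvPolynomial.X 0 : MvPolynomial (Fin 2) k)).toRingHom (MvPolynomial.X 1)
  let ψ : MvPolynomial (Fin 2) k →ₐ[k] k[X][X] := MvPolynomial.aeval ![C X, X]
  have h1 : ψ.toRingHom.comp φ = RingHom.id _ := by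
    ext a <;> simp [φ, ψ]
  have h2 : (MvPolynomial.aeval ![u, v0]).toRingHom.comp φ = bv u v0 := by
    ext a <;> simp [φ, bv]
  have h3 : MvPolynomial.aeval ![u, v0] (φ P) = 0 := by
    have := congrArg (fun F : k[X][X] →+* B3 k => F P) h2
    simp only [RingHom.comp_apply] at this
    rw [hP] at this
    exact this
  have h4 : φ P = 0 := (algebraicIndependent_iff.1 hind) _ h3
  have h5 := congrArg (fun F : k[X][X] →+* k[X][X] => F P) h1
  simp only [RingHom.comp_apply, h4, map_zero, RingHom.id_apply] at h5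
  exact h5.symm

theorem bv_surj {u v0 b : B3 k} (hb : b ∈ Algebra.adjoin k {u, v0}) : ∃ P, bv u v0 P = b := by
  induction hb using Algebra.adjoin_induction with
  | mem x hx =>
    rcases hx with rfl | hx
    · exact ⟨C X, by rw [bv_C, aeval_X]⟩
    · rw [Set.mem_singleton_iff] at hx
      subst hx
      exact ⟨X, bv_X _ _⟩
  | algebraMap r => exact ⟨C (C r), by rw [bv_C, aeval_C]⟩
  | add x y _ _ hx hy =>
    obtain ⟨P, rfl⟩ := hx
    obtain ⟨Q, rfl⟩ := hy
    exact ⟨P + Q, map_add _ _ _⟩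
  | mul x y _ _ hx hy =>
    obtain ⟨P, rfl⟩ := hx
    obtain ⟨Q, rfl⟩ := hy
    exact ⟨P * Q, map_mul _ _ _⟩

variable [CharZero k]

/-- primes of the kernel are primes of `B` -/
theorem prime_bv {D : Derivation k (B3 k) (B3 k)} (hln : ∀ x, ∃ n, (⇑D)^[n] x = 0) {u v0 : B3 k}
    (hind : AlgebraicIndependent k ![u, v0]) (hker : ∀ b, D b = 0 ↔ b ∈ Algebra.adjoin k {u, v0})
    {P : k[X][X]} (hP : Prime P) : Prime (bv u v0 P) := by
  have hi := bv_inj hind
  have hD : ∀ Q, D (bv u v0 Q) = 0 := by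
    intro Q
    rw [hker]
    induction Q using Polynomial.induction_on' with
    | add p q hp hq => rw [map_add]; exact Subalgebra.add_mem _ hp hq
    | monomial n a =>
      rw [← C_mul_X_pow_eq_monomial, map_mul, map_pow, bv_C, bv_X]
      refine Subalgebra.mul_mem _ ?_ (Subalgebra.pow_mem _ (Algebra.subset_adjoin (by simp)) _)
      induction a using Polynomial.induction_on' with
      | add p q hp hq => rw [map_add]; exact Subalgebra.add_mem _ hp hq
      | monomial n a =>
        rw [aeval_monomial]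
        exact Subalgebra.mul_mem _ (Subalgebra.algebraMap_mem _ _)
          (Subalgebra.pow_mem _ (Algebra.subset_adjoin (by simp)) _)
  have h0 : bv u v0 P ≠ 0 := by
    rw [Ne, map_eq_zero_iff _ hi]
    exact hP.ne_zero
  rw [← irreducible_iff_prime]
  refine ⟨?_, ?_⟩
  · intro hu
    obtain ⟨w, hw⟩ := hu.exists_left_inv
    have hDw : D w = 0 := const_of_dvd D hln D.map_one_eq_zero one_ne_zero ⟨_, hw.symm⟩
    obtain ⟨Q, rfl⟩ := bv_surj ((hker w).1 hDw)
    rw [← map_mul, ← map_one (bv u v0)] at hw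
    exact hP.not_isUnit (IsUnit.of_mul_eq_one_right Q (hi hw))
  · intro a b hab
    have hD0 := hD P
    rw [hab] at hD0
    rw [hab] at h0
    have ha : D a = 0 := const_of_dvd D hln hD0 h0 (dvd_mul_right a b)
    have hb : D b = 0 := const_of_dvd D hln hD0 h0 (dvd_mul_left b a)
    obtain ⟨Q, rfl⟩ := bv_surj ((hker a).1 ha)
    obtain ⟨Q', rfl⟩ := bv_surj ((hker b).1 hb)
    rw [← map_mul] at hab
    rcases hP.irreducible.isUnit_or_isUnit (hi hab) with h | h
    · exact Or.inl (h.map _)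
    · exact Or.inr (h.map _)

omit [CharZero k] in
/-- a primitive linear polynomial is prime -/
theorem prime_lin {a b : k[X]} (ha : a ≠ 0) (hab : IsCoprime a b) : Prime (C a * X + C b) := by
  rw [← irreducible_iff_prime]
  have hd : (C a * X + C b).natDegree = 1 := natDegree_linear ha
  refine ⟨fun hu => ?_, ?_⟩
  · have h1 := natDegree_eq_zero_of_isUnit hu
    omega
  · intro P Q hPQ
    have h0 : C a * X + C b ≠ 0 := by
      intro h
      rw [h, natDegree_zero] at hd
      omega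
    have hP0 : P ≠ 0 := by rintro rfl; rw [zero_mul] at hPQ; exact h0 hPQ
    have hQ0 : Q ≠ 0 := by rintro rfl; rw [mul_zero] at hPQ; exact h0 hPQ
    have h1 : P.natDegree + Q.natDegree = 1 := by rw [← natDegree_mul hP0 hQ0, ← hPQ, hd]
    have key : ∀ P Q : k[X][X], C a * X + C b = P * Q → P.natDegree = 0 → IsUnit P := by
      intro P Q h h'
      obtain ⟨c, rfl⟩ := natDegree_eq_zero.1 h'
      have ha' : a = c * Q.coeff 1 := by
        have := congrArg (fun p : k[X][X] => p.coeff 1) h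
        simpa using this
      have hb' : b = c * Q.coeff 0 := by
        have := congrArg (fun p : k[X][X] => p.coeff 0) h
        simpa using this
      exact (hab.isUnit_of_dvd' ⟨_, ha'⟩ ⟨_, hb'⟩).map C
    rcases Nat.eq_zero_or_pos P.natDegree with h2 | h2
    · exact Or.inl (key P Q hPQ h2)
    · exact Or.inr (key Q P (by rw [hPQ, mul_comm]) (by omega))

/-! ### the localisation -/

omit [CharZero k] in
theorem tr_u {u v0 : B3 k} (hind : AlgebraicIndependent k ![u, v0]) : Transcendental k u := by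
  have := hind.transcendental 0
  exact this

omit [CharZero k] in
theorem Mu_leT {u : B3 k} (hu : Transcendental k u) : Mu u ≤ nonZeroDivisors (B3 k) := by
  rintro b ⟨q, hq, rfl⟩
  refine mem_nonZeroDivisors_of_ne_zero ?_
  intro h0
  have h1 := (transcendental_iff.1 hu) q h0
  rw [h1, eval_zero] at hq
  exact hq rfl

omit [CharZero k] in
theorem io_injT {u : B3 k} (hu : Transcendental k u) : Function.Injective (io u) :=
  IsLocalization.injective (SL u) (Mu_leT hu)

omit [CharZero k] in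
theorem sl_dom {u : B3 k} (hu : Transcendental k u) : IsDomain (SL u) :=
  IsLocalization.isDomain_of_le_nonZeroDivisors (SL u) (Mu_leT hu)

omit [CharZero k] in
theorem io_unitT {u : B3 k} {q : k[X]} (hq : q.eval 0 ≠ 0) : IsUnit (io u (aeval u q)) :=
  IsLocalization.map_units (SL u) (⟨aeval u q, q, hq, rfl⟩ : Mu u)

omit [CharZero k] in
/-- every element of `S` is a fraction -/
theorem sl_surj {u : B3 k} (z : SL u) : ∃ (b : B3 k) (q : k[X]), q.eval 0 ≠ 0 ∧
    z * io u (aeval u q) = io u b := by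
  obtain ⟨⟨b, ⟨_, q, hq, rfl⟩⟩, h⟩ := IsLocalization.surj (Mu u) z
  exact ⟨b, q, hq, h⟩

omit [CharZero k] in
/-- numerators of units of `R` do not vanish at zero -/
theorem rr_unit {u : B3 k} (hu : Transcendental k u) {a : RR u} (ha : IsUnit a) {p q : k[X]}
    (hq : q.eval 0 ≠ 0) (h : (a : SL u) * io u (aeval u q) = io u (aeval u p)) : p.eval 0 ≠ 0 := by
  obtain ⟨a', ha'⟩ := ha.exists_right_inv
  obtain ⟨p', q', hq', h'⟩ := a'.2
  have hdom := sl_dom hu
  have h1 : io u (aeval u (q * q')) = io u (aeval u (p * p')) := by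
    have h2 : (a : SL u) * a' = 1 := by rw [← Subalgebra.coe_mul, ha', Subalgebra.coe_one]
    simp only [io, map_mul] at h h' ⊢
    rw [← h, ← h']
    linear_combination (-(algebraMap (B3 k) (SL u) (aeval u q)) *
      (algebraMap (B3 k) (SL u) (aeval u q'))) * h2
  have h2 : q * q' = p * p' := (transcendental_iff_injective.1 hu) (io_injT hu h1)
  intro h0
  have h3 := congrArg (eval 0) h2
  rw [eval_mul, eval_mul, h0, zero_mul] at h3
  exact mul_ne_zero hq hq' h3

omit [CharZero k] in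
/-- fractions of polynomials not vanishing at zero are units of `R` -/
theorem rr_of {u : B3 k} {p q : k[X]} (hp : p.eval 0 ≠ 0) (hq : q.eval 0 ≠ 0) :
    ∃ w : RR u, IsUnit w ∧ (w : SL u) * io u (aeval u q) = io u (aeval u p) := by
  obtain ⟨s, hs⟩ := io_unitT (u := u) hq
  obtain ⟨t, ht⟩ := io_unitT (u := u) hp
  have h1 : (t : SL u) * ↑s⁻¹ ∈ RR u := ⟨p, q, hq, by
    rw [← hs, mul_assoc, Units.inv_mul, mul_one, ht]⟩
  have h2 : (s : SL u) * ↑t⁻¹ ∈ RR u := ⟨q, p, hp, by
    rw [← ht, mul_assoc, Units.inv_mul, mul_one, hs]⟩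
  refine ⟨⟨_, h1⟩, IsUnit.of_mul_eq_one ⟨_, h2⟩ (Subtype.ext ?_), ?_⟩
  · show (t : SL u) * ↑s⁻¹ * ((s : SL u) * ↑t⁻¹) = 1
    calc (t : SL u) * ↑s⁻¹ * ((s : SL u) * ↑t⁻¹) = (t * ↑t⁻¹) * (↑s⁻¹ * s) := by ring
      _ = 1 := by rw [Units.mul_inv, Units.inv_mul, one_mul]
  · show (t : SL u) * ↑s⁻¹ * io u (aeval u q) = io u (aeval u p)
    rw [← hs, mul_assoc, Units.inv_mul, mul_one, ht]


section dat

variable {u v0 : B3 k} {D : Derivation k (B3 k) (B3 k)} {f : (RR u)[X]} {v x y : SL u} {e : ℕ}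

omit [CharZero k] in
theorem dat_tr (h : Dat u v0 D f v x y e) : Transcendental k u := tr_u h.ind

omit [CharZero k] in
theorem dat_kd (h : Dat u v0 D f v x y e) : KD D u v0 := ⟨h.ne, h.ln, h.ind, h.ker, h.irr⟩

/-- all translates of `u` are prime -/
theorem dat_prime (h : Dat u v0 D f v x y e) (c : k) : Prime (u - MvPolynomial.C c) := by
  have h1 : Prime (C (X - C c) : k[X][X]) := prime_C_iff.2 (prime_X_sub_C c)
  have h2 := prime_bv h.ln h.ind h.ker h1
  rwa [bv_C, map_sub, aeval_X, aeval_C, MvPolynomial.algebraMap_eq] at h2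

theorem dat_prime_u (h : Dat u v0 D f v x y e) : Prime u := by
  have := dat_prime h 0
  rwa [map_zero, sub_zero] at this

omit [CharZero k] in
/-- `D u = 0` and `D` of polynomials in `u` -/
theorem dat_Du (h : Dat u v0 D f v x y e) (q : k[X]) : D (aeval u q) = 0 := by
  rw [h.ker]
  induction q using Polynomial.induction_on' with
  | add p q hp hq => rw [map_add]; exact Subalgebra.add_mem _ hp hq
  | monomial n a =>
    rw [aeval_monomial]
    exact Subalgebra.mul_mem _ (Subalgebra.algebraMap_mem _ _)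
      (Subalgebra.pow_mem _ (Algebra.subset_adjoin (by simp)) _)

omit [CharZero k] in
/-- the extension of `D` on a fraction -/
theorem dat_ex (h : Dat u v0 D f v x y e) {z : SL u} {b : B3 k} {q : k[X]}
    (hz : z * io u (aeval u q) = io u b) : exS u D z * io u (aeval u q) = io u (D b) := by
  have h1 : io u (D (aeval u q)) = 0 := by rw [dat_Du h]; exact map_zero _
  rw [← exS_io, ← hz, Derivation.leibniz, exS_io, h1, smul_zero, zero_add, smul_eq_mul, mul_comm]

/-- `v` and `v0` are related by a linear substitution over `R` -/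
theorem dat_lin (h : Dat u v0 D f v x y e) :
    ∃ a b : RR u, IsUnit a ∧ v = a * io u v0 + b := by
  have hu := dat_tr h
  have hdom := sl_dom hu
  -- `v` is a polynomial in `v0`
  have h1 : ∃ P : (RR u)[X], aeval (io u v0) P = v := by
    have hv : exS u D v = 0 := (h.kerS v).2 (Algebra.subset_adjoin rfl)
    obtain ⟨b, q, hq, hb⟩ := sl_surj v
    have hDb : D b = 0 := by
      apply io_injT hu
      rw [← dat_ex h hb, hv, zero_mul, io, map_zero]
    obtain ⟨P, rfl⟩ := bv_surj ((h.ker b).1 hDb)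
    have h2 : ∀ P : k[X][X], ∃ Q : (RR u)[X], aeval (io u v0) Q = io u (bv u v0 P) := by
      intro P
      induction P using Polynomial.induction_on' with
      | add P Q hP hQ =>
        obtain ⟨P', hP'⟩ := hP
        obtain ⟨Q', hQ'⟩ := hQ
        exact ⟨P' + Q', by rw [map_add, hP', hQ', map_add]; exact (map_add _ _ _).symm⟩
      | monomial n a =>
        refine ⟨C ⟨io u (aeval u a), a, 1, by simp, by simp⟩ * X ^ n, ?_⟩
        rw [map_mul, aeval_C, map_pow, aeval_X, ← C_mul_X_pow_eq_monomial, map_mul, map_pow, bv_C,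
          bv_X]
        simp only [io, map_mul, map_pow]
        rfl
    obtain ⟨Q, hQ⟩ := h2 P
    obtain ⟨w, -, hw⟩ := rr_of (u := u) (p := 1) (q := q) (by simp) hq
    refine ⟨C w * Q, ?_⟩
    rw [map_mul, aeval_C, hQ, ← hb]
    have hw' : (w : SL u) * io u (aeval u q) = 1 := by rw [hw, map_one, io, map_one]
    change (w : SL u) * (v * io u (aeval u q)) = v
    linear_combination v * hw'
  obtain ⟨P, hP⟩ := h1
  -- `v0` is a polynomial in `v`
  have h3 : exS u D (io u v0) = 0 := by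
    rw [exS_io, (h.ker v0).2 (Algebra.subset_adjoin (by simp)), io, map_zero]
  have h4 := (h.kerS _).1 h3
  rw [Algebra.adjoin_singleton_eq_range_aeval] at h4
  obtain ⟨Q, hQ⟩ := h4
  have hQ' : aeval v Q = io u v0 := hQ
  -- `v` is transcendental
  have htr : Transcendental (RR u) v := by
    have := h.pres.ind.transcendental 0
    exact this
  have hcomp : P.comp Q = X := by
    apply (transcendental_iff_injective.1 htr)
    show aeval v (P.comp Q) = aeval v X
    rw [aeval_comp, hQ', hP, aeval_X]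
  have hdeg : P.natDegree * Q.natDegree = 1 := by
    rw [← natDegree_comp, hcomp, natDegree_X]
  have hP1 : P.natDegree = 1 := Nat.eq_one_of_mul_eq_one_right hdeg
  have hQ1 : Q.natDegree = 1 := Nat.eq_one_of_mul_eq_one_left hdeg
  have hPe : P = C (P.coeff 1) * X + C (P.coeff 0) := eq_X_add_C_of_natDegree_le_one hP1.le
  have hQe : Q = C (Q.coeff 1) * X + C (Q.coeff 0) := eq_X_add_C_of_natDegree_le_one hQ1.le
  refine ⟨P.coeff 1, P.coeff 0, ?_, ?_⟩
  · have h5 : P.coeff 1 * Q.coeff 1 = 1 := by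
      have h6 := congrArg (fun p : (RR u)[X] => p.coeff 1) hcomp
      rw [hPe, hQe] at h6
      simpa using h6
    exact IsUnit.of_mul_eq_one _ h5
  · rw [← hP]
    conv_lhs => rw [hPe]
    rw [map_add, map_mul, aeval_C, aeval_C, aeval_X]
    rfl

/-- THE POINT: the prime `p` of `B` associated to `v` over `R` -/
theorem dat_point (h : Dat u v0 D f v x y e) : ∃ (a b : k[X]) (p : kerAlg D), a.eval 0 ≠ 0 ∧
    IsCoprime a b ∧ (p : B3 k) = aeval u a * v0 + aeval u b ∧ Prime (p : B3 k) ∧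
    ∃ w : RR u, IsUnit w ∧ v = w * io u p := by
  classical
  have hu := dat_tr h
  have hdom := sl_dom hu
  obtain ⟨a, b, ha, hv⟩ := dat_lin h
  obtain ⟨p1, q1, hq1, h1⟩ := a.2
  obtain ⟨p2, q2, hq2, h2⟩ := b.2
  have hp1 := rr_unit hu ha hq1 h1
  -- common denominator, greatest common divisor
  obtain ⟨d, a', b', hd, ha', hb', hcop⟩ : ∃ d a' b' : k[X], d ≠ 0 ∧ p1 * q2 = d * a' ∧
      p2 * q1 = d * b' ∧ IsCoprime a' b' := by
    have h0 : p1 * q2 ≠ 0 := by
      intro h0
      have := congrArg (eval 0) h0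
      rw [eval_mul, eval_zero] at this
      exact mul_ne_zero hp1 hq2 this
    have hg0 : EuclideanDomain.gcd (p1 * q2) (p2 * q1) ≠ 0 := by
      intro hg
      exact h0 (EuclideanDomain.gcd_eq_zero_iff.1 hg).1
    obtain ⟨a', ha'⟩ := EuclideanDomain.gcd_dvd_left (p1 * q2) (p2 * q1)
    obtain ⟨b', hb'⟩ := EuclideanDomain.gcd_dvd_right (p1 * q2) (p2 * q1)
    refine ⟨_, a', b', hg0, ha', hb', ?_⟩
    have hbez := EuclideanDomain.gcd_eq_gcd_ab (p1 * q2) (p2 * q1)
    refine ⟨EuclideanDomain.gcdA (p1 * q2) (p2 * q1), EuclideanDomain.gcdB (p1 * q2) (p2 * q1), ?_⟩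
    apply mul_left_cancel₀ hg0
    rw [mul_one]
    conv_rhs => rw [hbez]
    calc _ = (EuclideanDomain.gcd (p1 * q2) (p2 * q1) * a') * EuclideanDomain.gcdA (p1 * q2) (p2 * q1)
        + (EuclideanDomain.gcd (p1 * q2) (p2 * q1) * b') *
          EuclideanDomain.gcdB (p1 * q2) (p2 * q1) := by ring
      _ = _ := by rw [← ha', ← hb']
  have hda : d.eval 0 * a'.eval 0 ≠ 0 := by
    rw [← eval_mul, ← ha', eval_mul]
    exact mul_ne_zero hp1 hq2
  have ha0 : a'.eval 0 ≠ 0 := right_ne_zero_of_mul hda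
  have hd0 : d.eval 0 ≠ 0 := left_ne_zero_of_mul hda
  have hpk : D (aeval u a' * v0 + aeval u b') = 0 := by
    rw [map_add, Derivation.leibniz, dat_Du h, dat_Du h,
      (h.ker v0).2 (Algebra.subset_adjoin (by simp)), smul_zero, smul_zero, add_zero, add_zero]
  refine ⟨a', b', ⟨_, hpk⟩, ha0, hcop, rfl, ?_, ?_⟩
  · have h3 := prime_bv h.ln h.ind h.ker (prime_lin (a := a') (b := b')
      (by rintro rfl; exact ha0 (by simp)) hcop)
    rwa [map_add, map_mul, bv_C, bv_C, bv_X] at h3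
  · obtain ⟨w, hw, hw'⟩ := rr_of (u := u) hd0 (show (q1 * q2).eval 0 ≠ 0 by
      rw [eval_mul]; exact mul_ne_zero hq1 hq2)
    refine ⟨w, hw, ?_⟩
    show v = w * io u (aeval u a' * v0 + aeval u b')
    obtain ⟨s, hs⟩ := io_unitT (u := u) (show (q1 * q2).eval 0 ≠ 0 by
      rw [eval_mul]; exact mul_ne_zero hq1 hq2)
    have e1 := congrArg (fun p => io u (aeval u p)) ha'
    have e2 := congrArg (fun p => io u (aeval u p)) hb'
    apply mul_right_cancel₀ s.ne_zero
    rw [hs]
    simp only [io, map_mul, map_add] at h1 h2 hw' e1 e2 hv ⊢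
    rw [hv]
    linear_combination (algebraMap (B3 k) (SL u) v0 * algebraMap (B3 k) (SL u) (aeval u q2)) * h1 +
      (algebraMap (B3 k) (SL u) (aeval u q1)) * h2 + (algebraMap (B3 k) (SL u) v0) * e1 + e2 -
      (algebraMap (B3 k) (SL u) (aeval u a') * algebraMap (B3 k) (SL u) v0 +
        algebraMap (B3 k) (SL u) (aeval u b')) * hw'

/-- `u` does not divide `v` -/
theorem dat_not_dvd (h : Dat u v0 D f v x y e) : ¬ io u u ∣ v := by
  intro hd
  have h1 : C (uu u) ∣ (X : (RR u)[X]) := h.vtr X (by rwa [aeval_X])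
  have h2 := (C_dvd_iff_dvd_coeff _ _).1 h1 1
  rw [coeff_X_one] at h2
  have h3 : IsUnit (uu u) := isUnit_of_dvd_one h2
  have h4 := rr_unit (dat_tr h) (a := uu u) h3 (p := X) (q := 1) (by simp) (by
    rw [map_one, io, map_one, mul_one, aeval_X]
    rfl)
  rw [eval_X] at h4
  exact h4 rfl

theorem dat_not_assoc (h : Dat u v0 D f v x y e) {p : B3 k} {w : SL u} (hv : v = w * io u p) :
    ¬ u ∣ p := by
  rintro ⟨c, rfl⟩
  apply dat_not_dvd h
  rw [hv]
  exact ⟨w * io u c, by simp only [io, map_mul]; ring⟩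

omit [CharZero k] in
/-- the ideal `(u, p)` is the ideal of one point -/
theorem point_gen (hker : ∀ b, D b = 0 ↔ b ∈ Algebra.adjoin k {u, v0}) {a b : k[X]}
    (ha : a.eval 0 ≠ 0) {u' p : kerAlg D} (hu' : (u' : B3 k) = u)
    (hp : (p : B3 k) = aeval u a * v0 + aeval u b) (z : kerAlg D) :
    ∃ (c : k) (x y : kerAlg D), z = algebraMap k (kerAlg D) c + x * u' + y * p := by
  obtain ⟨z, hz⟩ := z
  have h1 := (hker z).1 hz
  suffices H : ∀ hz : D z = 0, ∃ (c : k) (x y : kerAlg D),
      (⟨z, hz⟩ : kerAlg D) = algebraMap k (kerAlg D) c + x * u' + y * p from H hz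
  have hdiv : ∀ q : k[X], q = C (q.eval 0) + X * q.divX := by
    intro q
    conv_lhs => rw [← q.divX_mul_X_add]
    rw [coeff_zero_eq_eval_zero]
    ring
  induction h1 using Algebra.adjoin_induction with
  | mem z hz1 =>
    intro hz
    rcases hz1 with rfl | hz1
    · exact ⟨0, 1, 0, Subtype.ext (by
        rw [map_zero, zero_add, one_mul, zero_mul, add_zero, hu'])⟩
    · rw [Set.mem_singleton_iff] at hz1
      subst hz1
      let V : kerAlg D := ⟨z, hz⟩
      refine ⟨-(a.eval 0)⁻¹ * b.eval 0, algebraMap k (kerAlg D) (-(a.eval 0)⁻¹) *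
        (aeval u' a.divX * V + aeval u' b.divX), algebraMap k (kerAlg D) (a.eval 0)⁻¹, ?_⟩
      have hpp : p = aeval u' a * V + aeval u' b := Subtype.ext (by
        rw [hp, Subalgebra.coe_add, Subalgebra.coe_mul, coe_aeval, coe_aeval, hu'])
      have e1 : aeval u' a = algebraMap k (kerAlg D) (a.eval 0) + u' * aeval u' a.divX := by
        conv_lhs => rw [hdiv a]
        rw [map_add, map_mul, aeval_X, aeval_C]
      have e2 : aeval u' b = algebraMap k (kerAlg D) (b.eval 0) + u' * aeval u' b.divX := by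
        conv_lhs => rw [hdiv b]
        rw [map_add, map_mul, aeval_X, aeval_C]
      have e3 : algebraMap k (kerAlg D) (a.eval 0)⁻¹ * algebraMap k (kerAlg D) (a.eval 0) = 1 := by
        rw [← map_mul, inv_mul_cancel₀ ha, map_one]
      show V = _
      rw [hpp, e1, e2, map_mul, map_neg]
      linear_combination (-V) * e3
  | algebraMap r =>
    intro hz
    exact ⟨r, 0, 0, Subtype.ext (by simp)⟩
  | add z1 z2 h1 h2 ih1 ih2 =>
    intro hz
    obtain ⟨c1, x1, y1, e1⟩ := ih1 ((hker z1).2 h1) ((hker z1).2 h1)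
    obtain ⟨c2, x2, y2, e2⟩ := ih2 ((hker z2).2 h2) ((hker z2).2 h2)
    refine ⟨c1 + c2, x1 + x2, y1 + y2, ?_⟩
    have : (⟨z1 + z2, hz⟩ : kerAlg D) = ⟨z1, (hker z1).2 h1⟩ + ⟨z2, (hker z2).2 h2⟩ := rfl
    rw [this, e1, e2, map_add]
    ring
  | mul z1 z2 h1 h2 ih1 ih2 =>
    intro hz
    obtain ⟨c1, x1, y1, e1⟩ := ih1 ((hker z1).2 h1) ((hker z1).2 h1)
    obtain ⟨c2, x2, y2, e2⟩ := ih2 ((hker z2).2 h2) ((hker z2).2 h2)
    refine ⟨c1 * c2, x1 * (algebraMap k _ c2 + x2 * u' + y2 * p) + algebraMap k _ c1 * x2,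
      y1 * (algebraMap k _ c2 + x2 * u' + y2 * p) + algebraMap k _ c1 * y2, ?_⟩
    have : (⟨z1 * z2, hz⟩ : kerAlg D) = ⟨z1, (hker z1).2 h1⟩ * ⟨z2, (hker z2).2 h2⟩ := rfl
    rw [this, e1, e2, map_mul]
    ring

/-- THE SLICE: `D r = q(u) u^e p` -/
theorem dat_slice (h : Dat u v0 D f v x y e) {p : B3 k} {w : RR u} (hw : IsUnit w)
    (hv : v = w * io u p) :
    ∃ (q : k[X]) (r : B3 k), q.eval 0 ≠ 0 ∧ D r = aeval u q * u ^ e * p := by
  have hu := dat_tr h
  have hdom := sl_dom hu
  obtain ⟨w1, hw1, h1⟩ := h.jac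
  obtain ⟨w2, hw2, h2⟩ := h.jD
  have h3 : exS u D x = ((w2 * w1 * w : RR u) : SL u) * (io u u ^ e * io u p) := by
    rw [h2, h1, Subalgebra.coe_mul, Subalgebra.coe_mul]
    conv_lhs => rw [hv]
    ring
  obtain ⟨b, q, hq, hb⟩ := sl_surj x
  have h4 := dat_ex h hb
  obtain ⟨p3, q3, hq3, h5⟩ := (w2 * w1 * w : RR u).2
  have hp3 := rr_unit hu ((hw2.mul hw1).mul hw) hq3 h5
  refine ⟨q * p3, aeval u q3 * b, by rw [eval_mul]; exact mul_ne_zero hq hp3, ?_⟩
  rw [Derivation.leibniz, dat_Du h, smul_zero, add_zero, smul_eq_mul]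
  apply io_injT hu
  simp only [io, map_mul, map_pow] at h4 h5 h3 ⊢
  rw [← h4, h3]
  linear_combination (algebraMap (B3 k) (SL u) u ^ e * algebraMap (B3 k) (SL u) p *
    algebraMap (B3 k) (SL u) (aeval u q)) * h5

end dat

end Pool.Agent.LNDQ
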