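import Mathlib
import Pool.Agent.LNDF.ArDefs
import Pool.Agent.LNDF.Ar1

set_option autoImplicit false

/-!
# Adapted elements in a localization at constants
-/

namespace Pool.Agent.LNDQ

open Pool.Agent.LNDF (IsCC)

section locadp

variable {k B S : Type} [Field k] [CommRing B] [IsDomain B] [Algebra k B] [CommRing S]
  [Algebra k S] [Algebra B S] {D : Derivation k B B} {DS : Derivation k S S}

theorem iter_loc (hDS : ∀ b, DS (algebraMap B S b) = algebraMap B S (D b)) (n : ℕ) (b : B) :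
    (⇑DS)^[n] (algebraMap B S b) = algebraMap B S ((⇑D)^[n] b) := by
  induction n generalizing b with
  | zero => rfl
  | succ n ih => rw [Function.iterate_succ_apply, Function.iterate_succ_apply, hDS, ih]

theorem iter_const (E : Derivation k S S) {m : S} (hm : E m = 0) (n : ℕ) (z : S) :
    (⇑E)^[n] (m * z) = m * (⇑E)^[n] z := by
  induction n generalizing z with
  | zero => rfl
  | succ n ih =>
    rw [Function.iterate_succ_apply, Function.iterate_succ_apply, Derivation.leibniz, hm,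
      smul_zero, add_zero, smul_eq_mul, ih]

/-- The derivation form of the adapted elements over a localization at constants. -/
theorem adp_of_loc (M : Submonoid B) [IsLocalization M S]
    (hDS : ∀ b, DS (algebraMap B S b) = algebraMap B S (D b)) (hM : ∀ m ∈ M, D m = 0)
    (hM0 : (0 : B) ∉ M) {n : ℕ} {c : B} (hc : IsCC D n c)
    (h : ∃ m ∈ M, ∃ X, (⇑D)^[n] X = m * c) :
    ∃ x : S, (⇑DS)^[n + 1] x = 0 ∧ (⇑DS)^[n] x ≠ 0 ∧
      ∀ z, (⇑DS)^[n + 1] z = 0 → (⇑DS)^[n] x ∣ (⇑DS)^[n] z := by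
  have hMd : M ≤ nonZeroDivisors B := fun m hm => mem_nonZeroDivisors_iff_ne_zero.2
    (fun h0 => hM0 (h0 ▸ hm))
  have hinj : Function.Injective (algebraMap B S) := IsLocalization.injective S hMd
  obtain ⟨m, hm, X, hX⟩ := h
  have hm0 : m ≠ 0 := fun h0 => hM0 (h0 ▸ hm)
  refine ⟨algebraMap B S X, ?_, ?_, ?_⟩
  · rw [iter_loc hDS, Function.iterate_succ_apply', hX, Derivation.leibniz, hM m hm, hc.const,
      smul_zero, smul_zero, add_zero, map_zero]
  · rw [iter_loc hDS, hX]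
    intro h0
    rw [← map_zero (algebraMap B S)] at h0
    exact mul_ne_zero hm0 hc.ne (hinj h0)
  · intro z hz
    obtain ⟨b, s, rfl⟩ := IsLocalization.exists_mk'_eq M z
    have hs0 : D (s : B) = 0 := hM _ s.2
    have hsS : DS (algebraMap B S (s : B)) = 0 := by rw [hDS, hs0, map_zero]
    have hsu : IsUnit (algebraMap B S (s : B)) := IsLocalization.map_units S s
    have e : ∀ j, algebraMap B S (s : B) * (⇑DS)^[j] (IsLocalization.mk' S b s) =
        algebraMap B S ((⇑D)^[j] b) := by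
      intro j
      rw [← iter_const DS hsS, mul_comm, IsLocalization.mk'_spec, iter_loc hDS]
    have hb : (⇑D)^[n + 1] b = 0 := by
      apply hinj
      rw [← e, hz, mul_zero, map_zero]
    obtain ⟨t, ht⟩ := hc.dvd b hb
    have hmu : IsUnit (algebraMap B S m) := IsLocalization.map_units S (⟨m, hm⟩ : M)
    rw [iter_loc hDS, hX, map_mul]
    have h1 : algebraMap B S c ∣ (⇑DS)^[n] (IsLocalization.mk' S b s) := by
      have h2 : algebraMap B S c ∣
          algebraMap B S (s : B) * (⇑DS)^[n] (IsLocalization.mk' S b s) := by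
        rw [e, ht, map_mul]
        exact Dvd.intro _ rfl
      exact (hsu.dvd_mul_left).1 h2
    exact (hmu.mul_left_dvd).2 h1

/-- The converse. -/
theorem loc_of_adp [CharZero k] [UniqueFactorizationMonoid B] (M : Submonoid B)
    [IsLocalization M S] (hln : ∀ x, ∃ n, (⇑D)^[n] x = 0)
    (hDS : ∀ b, DS (algebraMap B S b) = algebraMap B S (D b)) (hM : ∀ m ∈ M, D m = 0)
    (hM0 : (0 : B) ∉ M) {n : ℕ} {c : B} (hc : IsCC D n c)
    (h : ∃ x : S, (⇑DS)^[n + 1] x = 0 ∧ (⇑DS)^[n] x ≠ 0 ∧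
      ∀ z, (⇑DS)^[n + 1] z = 0 → (⇑DS)^[n] x ∣ (⇑DS)^[n] z) :
    ∃ m ∈ M, ∃ X, (⇑D)^[n] X = m * c := by
  classical
  have hMd : M ≤ nonZeroDivisors B := fun m hm => mem_nonZeroDivisors_iff_ne_zero.2
    (fun h0 => hM0 (h0 ▸ hm))
  have hinj : Function.Injective (algebraMap B S) := IsLocalization.injective S hMd
  obtain ⟨x, hx1, hx2, hx3⟩ := h
  obtain ⟨b, s, rfl⟩ := IsLocalization.exists_mk'_eq M x
  have hs0 : D (s : B) = 0 := hM _ s.2
  have hsS : DS (algebraMap B S (s : B)) = 0 := by rw [hDS, hs0, map_zero]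
  have hsu : IsUnit (algebraMap B S (s : B)) := IsLocalization.map_units S s
  have e : ∀ j, algebraMap B S (s : B) * (⇑DS)^[j] (IsLocalization.mk' S b s) =
      algebraMap B S ((⇑D)^[j] b) := by
    intro j
    rw [← iter_const DS hsS, mul_comm, IsLocalization.mk'_spec, iter_loc hDS]
  have hb : (⇑D)^[n + 1] b = 0 := by
    apply hinj
    rw [← e, hx1, mul_zero, map_zero]
  obtain ⟨w, hw⟩ := hc.dvd b hb
  have hw0 : w ≠ 0 := by
    rintro rfl
    rw [mul_zero] at hw
    apply hx2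
    have h1 := e n
    rw [hw, map_zero] at h1
    exact (hsu.mul_right_eq_zero).1 h1
  -- every prime factor of `w` divides an element of `M`
  have hp : ∀ p : B, Prime p → p ∣ w → ∃ m ∈ M, p ∣ m := by
    intro p hp hpw
    obtain ⟨y, hy1, hy2⟩ := hc.sharp p hp
    have h1 : (⇑DS)^[n + 1] (algebraMap B S y) = 0 := by rw [iter_loc hDS, hy1, map_zero]
    have h2 := hx3 _ h1
    rw [iter_loc hDS] at h2
    have h3 : algebraMap B S ((⇑D)^[n] b) ∣ algebraMap B S ((⇑D)^[n] y) := by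
      rw [← e n]
      exact (hsu.mul_left_dvd).2 h2
    obtain ⟨t, ht⟩ := h3
    obtain ⟨a, m, rfl⟩ := IsLocalization.exists_mk'_eq M t
    have h4 : algebraMap B S ((m : B) * (⇑D)^[n] y) = algebraMap B S ((⇑D)^[n] b * a) := by
      rw [map_mul, ht, map_mul, mul_left_comm, mul_comm (algebraMap B S (m : B)),
        IsLocalization.mk'_spec]
    have h5 := hinj h4
    obtain ⟨v, hv⟩ := hc.dvd y hy1
    refine ⟨m, m.2, ?_⟩
    rw [hw, hv] at h5
    have h6 : (m : B) * v = w * a := mul_left_cancel₀ hc.ne (by linear_combination h5)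
    have h7 : p ∣ (m : B) * v := by
      rw [h6]
      exact hpw.mul_right a
    rcases hp.dvd_or_dvd h7 with h8 | h8
    · exact h8
    · exfalso
      apply hy2
      rw [hv]
      exact mul_dvd_mul_left c h8
  -- hence `w` divides an element of `M`
  have hwM : ∀ w : B, w ≠ 0 → (∀ p : B, Prime p → p ∣ w → ∃ m ∈ M, p ∣ m) →
      ∃ m ∈ M, w ∣ m := by
    intro w
    induction w using UniqueFactorizationMonoid.induction_on_prime with
    | h₁ => intro h; exact absurd rfl h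
    | h₂ x hx => intro _ _; exact ⟨1, M.one_mem, hx.dvd⟩
    | h₃ a p ha hp ih =>
      intro h0 h1
      obtain ⟨m, hm, hpm⟩ := h1 p hp (Dvd.intro _ rfl)
      obtain ⟨m', hm', ham⟩ := ih ha (fun q hq hqa => h1 q hq (hqa.mul_left p))
      exact ⟨m * m', M.mul_mem hm hm', mul_dvd_mul hpm ham⟩
  obtain ⟨m, hm, t, ht⟩ := hwM w hw0 hp
  have hm0 : m ≠ 0 := fun h0 => hM0 (h0 ▸ hm)
  have ht0 : D t = 0 := by
    refine LNDF.const_of_dvd D hln (hM m hm) hm0 ?_
    exact ⟨w, by rw [ht, mul_comm]⟩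
  refine ⟨m, hm, t * b, ?_⟩
  rw [iter_const D ht0, hw, ht]
  ring

/-- Adapted elements in degree `n` over the localization. -/
theorem adp_iff [CharZero k] [UniqueFactorizationMonoid B] (M : Submonoid B)
    [IsLocalization M S] (hln : ∀ x, ∃ n, (⇑D)^[n] x = 0)
    (hDS : ∀ b, DS (algebraMap B S b) = algebraMap B S (D b)) (hM : ∀ m ∈ M, D m = 0)
    (hM0 : (0 : B) ∉ M) {n : ℕ} {c : B} (hc : IsCC D n c) :
    (∃ m ∈ M, ∃ X, (⇑D)^[n] X = m * c) ↔
    ∃ x : S, (⇑DS)^[n + 1] x = 0 ∧ (⇑DS)^[n] x ≠ 0 ∧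
      ∀ z, (⇑DS)^[n + 1] z = 0 → (⇑DS)^[n] x ∣ (⇑DS)^[n] z :=
  ⟨adp_of_loc M hDS hM hM0 hc, loc_of_adp M hln hDS hM hM0 hc⟩

end locadp

end Pool.Agent.LNDQ
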