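import Mathlib
import Pool.Agent.LNDQ.Defs
import Pool.Agent.LNDQ.LocAdp
import Pool.Agent.LNDHom.Red
import Pool.Agent.LNDHom.KerFin

set_option autoImplicit false

/-!
# Degrees by the basis and degrees by a derivation
-/

open Polynomial

namespace Pool.Agent.LNDQ

namespace FiD

open Pool.Agent.LNDHom

section low

variable {R S : Type} [CommRing R] [CommRing S] [Algebra R S] {β : ℕ} {v x y : S}

theorem low_mono {m n : ℕ} (h : m ≤ n) : Low R β v x y m ≤ Low R β v x y n := by
  unfold Low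
  refine Submodule.span_mono ?_
  rintro z ⟨i, j, hj, rfl⟩
  exact ⟨i, j, by omega, rfl⟩

theorem mem_low {n j : ℕ} (h : j < n) (i : ℕ) : v ^ i * bs β x y j ∈ Low R β v x y n :=
  Submodule.subset_span ⟨i, j, h, rfl⟩

theorem mul_low {n : ℕ} {z : S} (h : z ∈ Low R β v x y n) (i : ℕ) :
    v ^ i * z ∈ Low R β v x y n := by
  unfold Low at h ⊢
  induction h using Submodule.span_induction with
  | mem z hz =>
    obtain ⟨i', j, hj, rfl⟩ := hz
    exact Submodule.subset_span ⟨i + i', j, hj, by ring⟩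
  | zero =>
    rw [mul_zero]
    exact Submodule.zero_mem _
  | add a b _ _ ha hb =>
    rw [mul_add]
    exact Submodule.add_mem _ ha hb
  | smul r a _ ha =>
    rw [mul_smul_comm]
    exact Submodule.smul_mem _ _ ha

theorem aeval_mul_low {n : ℕ} {z : S} (h : z ∈ Low R β v x y n) (a : R[X]) :
    aeval v a * z ∈ Low R β v x y n := by
  induction a using Polynomial.induction_on' with
  | add p q hp hq =>
    rw [map_add, add_mul]
    exact Submodule.add_mem _ hp hq
  | monomial i r =>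
    rw [aeval_monomial, mul_assoc, ← Algebra.smul_def]
    exact Submodule.smul_mem _ _ (mul_low h i)

theorem aeval_bs_mem {n j : ℕ} (h : j < n) (a : R[X]) :
    aeval v a * bs β x y j ∈ Low R β v x y n := by
  refine aeval_mul_low ?_ a
  have h1 := mem_low (R := R) (β := β) (v := v) (x := x) (y := y) h 0
  rwa [pow_zero, one_mul] at h1

/-- the elements of `Low` -/
theorem exists_rep {n : ℕ} {z : S} (h : z ∈ Low R β v x y n) :
    ∃ a : ℕ → R[X], z = ∑ j ∈ Finset.range n, aeval v (a j) * bs β x y j := by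
  classical
  unfold Low at h
  induction h using Submodule.span_induction with
  | mem z hz =>
    obtain ⟨i, j, hj, rfl⟩ := hz
    refine ⟨fun l => if l = j then X ^ i else 0, ?_⟩
    rw [Finset.sum_eq_single j]
    · simp
    · intro l _ hl
      simp [hl]
    · intro h
      exact absurd (Finset.mem_range.2 hj) h
  | zero => exact ⟨fun _ => 0, by simp⟩
  | add a b _ _ ha hb =>
    obtain ⟨a', ha'⟩ := ha
    obtain ⟨b', hb'⟩ := hb
    refine ⟨fun j => a' j + b' j, ?_⟩
    rw [ha', hb', ← Finset.sum_add_distrib]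
    refine Finset.sum_congr rfl fun j _ => ?_
    rw [map_add, add_mul]
  | smul r a _ ha =>
    obtain ⟨a', ha'⟩ := ha
    refine ⟨fun j => C r * a' j, ?_⟩
    rw [ha', Finset.smul_sum]
    refine Finset.sum_congr rfl fun j _ => ?_
    rw [map_mul, aeval_C, Algebra.smul_def, mul_assoc]

theorem bs_add (hβ : 0 < β) (a b : ℕ) (h : a < β) : bs β x y (a + β * b) = x ^ a * y ^ b := by
  unfold bs
  rw [Nat.add_mul_mod_self_left, Nat.mod_eq_of_lt h, Nat.add_mul_div_left _ _ hβ,
    Nat.div_eq_of_lt h, zero_add]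

theorem pow_mem {f : R[X]} (hm : f.Monic) (hβ : f.natDegree = β) (h0 : 0 < β)
    (hrel : v * y = aeval x f) (a : ℕ) :
    ∀ b i : ℕ, v ^ i * (x ^ a * y ^ b) ∈ Low R β v x y (a + β * b + 1) := by
  induction a using Nat.strong_induction_on with
  | _ a ih =>
    intro b i
    rcases Nat.lt_or_ge a β with h | h
    · rw [← bs_add h0 a b h]
      exact mem_low (Nat.lt_succ_self _) i
    · obtain ⟨c, rfl⟩ := Nat.exists_eq_add_of_le h
      have h1 : x ^ β = v * y - ∑ j ∈ Finset.range β, algebraMap R S (f.coeff j) * x ^ j := by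
        rw [hrel, aeval_eq_sum_range, hβ, Finset.sum_range_succ]
        have h2 : f.coeff β = 1 := by
          rw [← hβ]
          exact hm
        rw [h2, one_smul]
        simp only [Algebra.smul_def]
        ring
      have h2 : v ^ i * (x ^ (β + c) * y ^ b) = v ^ (i + 1) * (x ^ c * y ^ (b + 1)) -
          ∑ j ∈ Finset.range β, f.coeff j • (v ^ i * (x ^ (c + j) * y ^ b)) := by
        rw [pow_add x, h1]
        simp only [Algebra.smul_def]
        rw [sub_mul, sub_mul, mul_sub, Finset.sum_mul, Finset.sum_mul, Finset.mul_sum]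
        refine congrArg₂ _ (by ring) (Finset.sum_congr rfl fun j _ => by ring)
      rw [h2]
      refine Submodule.sub_mem _ ?_ (Submodule.sum_mem _ fun j hj => Submodule.smul_mem _ _ ?_)
      · refine low_mono ?_ (ih c (by omega) (b + 1) (i + 1))
        rw [Nat.mul_add]
        omega
      · have hj' := Finset.mem_range.1 hj
        refine low_mono ?_ (ih (c + j) (by omega) b i)
        omega

end low

section cx

variable {k S : Type} [Field k] [CommRing S] [Algebra k S] {R : Subalgebra k S} {v x y : S}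
  {f : R[X]}

theorem low_of_cx (h : Pres f v x y) {z : S} (hz : z ∈ Cx R v x y) :
    ∃ n, z ∈ Low R f.natDegree v x y n := by
  have h0 : 0 < f.natDegree := by
    have := h.deg
    omega
  have h1 : z ∈ Algebra.adjoin R ({v, x, y} : Set S) := hz
  rw [← Subalgebra.mem_toSubmodule, Algebra.adjoin_eq_span] at h1
  clear hz
  induction h1 using Submodule.span_induction with
  | mem z hz =>
    have h2 : ∃ i a b : ℕ, z = v ^ i * (x ^ a * y ^ b) := by
      induction hz using Submonoid.closure_induction with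
      | mem z hz =>
        rcases hz with rfl | rfl | rfl
        · exact ⟨1, 0, 0, by simp⟩
        · exact ⟨0, 1, 0, by simp⟩
        · exact ⟨0, 0, 1, by simp⟩
      | one => exact ⟨0, 0, 0, by simp⟩
      | mul a b _ _ ha hb =>
        obtain ⟨i, a', b', rfl⟩ := ha
        obtain ⟨i', a'', b'', rfl⟩ := hb
        exact ⟨i + i', a' + a'', b' + b'', by ring⟩
    obtain ⟨i, a, b, rfl⟩ := h2
    exact ⟨_, pow_mem h.monic rfl h0 h.rel a b i⟩
  | zero => exact ⟨0, Submodule.zero_mem _⟩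
  | add a b _ _ ha hb =>
    obtain ⟨m, hm⟩ := ha
    obtain ⟨n, hn⟩ := hb
    exact ⟨max m n, Submodule.add_mem _ (low_mono (le_max_left _ _) hm)
      (low_mono (le_max_right _ _) hn)⟩
  | smul r a _ ha =>
    obtain ⟨m, hm⟩ := ha
    exact ⟨m, Submodule.smul_mem _ _ hm⟩

theorem aeval_inj (h : Pres f v x y) {a : R[X]} (ha : aeval v a = 0) : a = 0 := by
  have h1 := h.ind
  have h2 : Transcendental R v := h1.transcendental 0
  by_contra h0
  exact h2 ⟨a, h0, ha⟩

end cx

section der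

variable {k S : Type} [Field k] [CommRing S] [IsDomain S] [Algebra k S] {R : Subalgebra k S}
  {u : R} {f : R[X]} {v x y : S}

/-- a derivation over `R[v]` with `E (E x) = 0` -/
structure DD (R : Subalgebra k S) (v x : S) (E : Derivation k S S) : Prop where
  hR : ∀ r : R, E (r : S) = 0
  hv : E v = 0
  hx : E (E x) = 0
  hx0 : E x ≠ 0

theorem E_aeval {E : Derivation k S S} (h : DD R v x E) (a : R[X]) : E (aeval v a) = 0 := by
  induction a using Polynomial.induction_on' with
  | add p q hp hq => rw [map_add, map_add, hp, hq, add_zero]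
  | monomial i r =>
    rw [aeval_monomial, Derivation.leibniz, Derivation.leibniz_pow, h.hv]
    have h1 : E (algebraMap R S r) = 0 := h.hR r
    rw [h1]
    simp

theorem iter_aeval {E : Derivation k S S} (h : DD R v x E) (a : R[X]) (n : ℕ) (z : S) :
    (⇑E)^[n] (aeval v a * z) = aeval v a * (⇑E)^[n] z := iter_const E (E_aeval h a) n z

theorem iter_r {E : Derivation k S S} (h : DD R v x E) (r : R) (n : ℕ) (z : S) :
    (⇑E)^[n] ((r : S) * z) = (r : S) * (⇑E)^[n] z := iter_const E (h.hR r) n z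

theorem iter_add (E : Derivation k S S) (n : ℕ) (a b : S) :
    (⇑E)^[n] (a + b) = (⇑E)^[n] a + (⇑E)^[n] b := by
  induction n generalizing a b with
  | zero => rfl
  | succ n ih =>
    rw [Function.iterate_succ_apply, Function.iterate_succ_apply, Function.iterate_succ_apply,
      map_add, ih]

theorem iter_sub (E : Derivation k S S) (n : ℕ) (a b : S) :
    (⇑E)^[n] (a - b) = (⇑E)^[n] a - (⇑E)^[n] b := by
  have h := iter_add E n (a - b) b
  rw [sub_add_cancel] at h
  rw [h, add_sub_cancel_right]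

theorem iter_sum (E : Derivation k S S) (n : ℕ) {ι : Type} (s : Finset ι) (g : ι → S) :
    (⇑E)^[n] (∑ i ∈ s, g i) = ∑ i ∈ s, (⇑E)^[n] (g i) := by
  classical
  induction s using Finset.induction_on with
  | empty => rw [Finset.sum_empty, Finset.sum_empty, iterate_map_zero]
  | insert a s ha ih => rw [Finset.sum_insert ha, Finset.sum_insert ha, iter_add, ih]

/-- the value of a monic polynomial at `x` -/
theorem iter_f {E : Derivation k S S} (h : DD R v x E) (hm : f.Monic) :
    (⇑E)^[f.natDegree] (aeval x f) = (f.natDegree.factorial : S) * (E x) ^ f.natDegree ∧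
      (⇑E)^[f.natDegree + 1] (aeval x f) = 0 := by
  have key : ∀ g : R[X], g.natDegree ≤ f.natDegree →
      (⇑E)^[f.natDegree] (aeval x g) =
        (f.natDegree.factorial : S) * ((g.coeff f.natDegree : S) * (E x) ^ f.natDegree) ∧
      (⇑E)^[f.natDegree + 1] (aeval x g) = 0 := by
    intro g hg
    have h1 : aeval x g = ∑ i ∈ Finset.range (f.natDegree + 1), (g.coeff i : S) * x ^ i := by
      rw [aeval_eq_sum_range' (Nat.lt_succ_of_le hg)]
      rfl
    rw [h1, iter_sum, iter_sum]
    constructor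
    · rw [Finset.sum_range_succ, Finset.sum_eq_zero, zero_add]
      · rw [iter_r h, (pow_top E h.hx f.natDegree).1]
        ring
      · intro i hi
        rw [iter_r h, iter_zero_of_le E (pow_top E h.hx i).2 (Finset.mem_range.1 hi), mul_zero]
    · refine Finset.sum_eq_zero fun i hi => ?_
      rw [iter_r h, iter_zero_of_le E (pow_top E h.hx i).2
        (Nat.succ_le_succ (Nat.lt_succ_iff.1 (Finset.mem_range.1 hi))), mul_zero]
  obtain ⟨h1, h2⟩ := key f le_rfl
  refine ⟨?_, h2⟩
  rw [h1, hm.coeff_natDegree]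
  simp

/-- the iterates on the basis -/
theorem iter_bs [CharZero k] {E : Derivation k S S} (h : DD R v x E) (hp : Pres f v x y)
    (n : ℕ) :
    v ^ (n / f.natDegree) * (⇑E)^[n] (bs f.natDegree x y n) = (n.factorial : S) * (E x) ^ n ∧
      (⇑E)^[n + 1] (bs f.natDegree x y n) = 0 := by
  have hv0 : v ≠ 0 := by
    rintro rfl
    have h1 : (X : R[X]) = 0 := aeval_inj hp (by simp)
    exact X_ne_zero h1
  obtain ⟨β, hβ⟩ : ∃ β, β = f.natDegree := ⟨_, rfl⟩
  have h0 : 0 < β := by
    have := hp.deg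
    omega
  have hf := iter_f (f := f) h hp.monic
  rw [← hβ] at hf ⊢
  -- powers of `v y`
  have hvy : ∀ q, (⇑E)^[β * q] ((v * y) ^ q) = ((β * q).factorial : S) * (E x) ^ (β * q) ∧
      (⇑E)^[β * q + 1] ((v * y) ^ q) = 0 := by
    intro q
    induction q with
    | zero => simp
    | succ q ih =>
      have h1 : (⇑E)^[β + 1] (v * y) = 0 := by rw [hp.rel]; exact hf.2
      have h2 : (⇑E)^[β] (v * y) = (β.factorial : S) * (E x) ^ β := by rw [hp.rel]; exact hf.1
      have h3 := iter_mul_top E (β * (q + 1)) (β * q) β ((v * y) ^ q) (v * y) (by ring) ih.2 h1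
      rw [pow_succ]
      refine ⟨?_, h3.2⟩
      rw [h3.1, ih.1, h2]
      have h4 : ((β * (q + 1)).choose (β * q)) * (β * q).factorial * β.factorial =
          (β * (q + 1)).factorial := by
        have h5 := Nat.choose_mul_factorial_mul_factorial (n := β * (q + 1)) (k := β * q)
          (Nat.mul_le_mul_left _ (Nat.le_succ q))
        have h6 : β * (q + 1) - β * q = β := by
          rw [Nat.mul_succ]
          omega
        rwa [h6] at h5
      rw [← h4]
      push_cast
      ring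
  have h1 := pow_top E h.hx (n % β)
  have h2 := hvy (n / β)
  have h3 := iter_mul_top E n (n % β) (β * (n / β)) (x ^ (n % β)) ((v * y) ^ (n / β))
    (Nat.mod_add_div n β) h1.2 h2.2
  have h4 : x ^ (n % β) * (v * y) ^ (n / β) = v ^ (n / β) * bs β x y n := by
    unfold bs
    ring
  have hEv : E (v ^ (n / β)) = 0 := by
    rw [Derivation.leibniz_pow, h.hv]
    simp
  rw [h4, iter_const E hEv, iter_const E hEv] at h3
  refine ⟨?_, (mul_eq_zero.1 h3.2).resolve_left (pow_ne_zero _ hv0)⟩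
  rw [h3.1, h1.1, h2.1]
  have h5 : (n.choose (n % β)) * (n % β).factorial * (β * (n / β)).factorial = n.factorial := by
    have h6 := Nat.choose_mul_factorial_mul_factorial (n := n) (k := n % β) (Nat.mod_le n β)
    have h7 : n - n % β = β * (n / β) := by
      have := Nat.mod_add_div n β
      omega
    rwa [h7] at h6
  have h8 : (E x) ^ n = (E x) ^ (n % β) * (E x) ^ (β * (n / β)) := by
    rw [← pow_add, Nat.mod_add_div]
  rw [← h5, h8]
  push_cast
  ring

theorem iter_bs_ne [CharZero k] {E : Derivation k S S} (h : DD R v x E) (hp : Pres f v x y)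
    (n : ℕ) : (⇑E)^[n] (bs f.natDegree x y n) ≠ 0 := by
  have hchar : CharZero S := charZero_of_injective_algebraMap (algebraMap k S).injective
  intro h0
  have h1 := (iter_bs h hp n).1
  rw [h0, mul_zero] at h1
  exact mul_ne_zero (by exact_mod_cast Nat.factorial_ne_zero n) (pow_ne_zero n h.hx0) h1.symm

theorem iter_low [CharZero k] {E : Derivation k S S} (h : DD R v x E) (hp : Pres f v x y)
    {n : ℕ} {z : S} (hz : z ∈ Low R f.natDegree v x y n) : (⇑E)^[n] z = 0 := by
  obtain ⟨a, rfl⟩ := exists_rep hz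
  rw [iter_sum]
  refine Finset.sum_eq_zero fun j hj => ?_
  rw [iter_aeval h, iter_zero_of_le E (iter_bs h hp j).2 (Finset.mem_range.1 hj), mul_zero]

/-- an element of degree `≤ n` for the derivation has degree `≤ n` by the basis -/
theorem exists_lt [CharZero k] {E : Derivation k S S} (h : DD R v x E) (hp : Pres f v x y)
    (hkap : ∀ z : S, ∃ m : ℕ, (u : S) ^ m * z ∈ Cx R v x y) {n : ℕ} {z : S}
    (hz : (⇑E)^[n + 1] z = 0) :
    ∃ (m : ℕ) (a : R[X]), LT R u f.natDegree v x y n m a z := by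
  classical
  obtain ⟨m, hm⟩ := hkap z
  obtain ⟨N, hN⟩ := low_of_cx hp hm
  obtain ⟨a, ha⟩ := exists_rep hN
  have hE : ∀ j, (⇑E)^[j] ((u : S) ^ m * z) = (u : S) ^ m * (⇑E)^[j] z := by
    intro j
    have h1 : (u : S) ^ m = ((u ^ m : R) : S) := by simp
    rw [h1]
    exact iter_r h _ _ _
  -- the coefficients above `n` vanish
  have hbig : ∀ j, n < j → j < N → aeval v (a j) = 0 := by
    by_contra hcon
    push Not at hcon
    obtain ⟨j0, hj0, hj0N, hne⟩ := hcon
    obtain ⟨J, hJ, hJmax⟩ := Finset.exists_max_image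
      ((Finset.range N).filter fun j => n < j ∧ aeval v (a j) ≠ 0) id
      ⟨j0, by simp [hj0, hj0N, hne]⟩
    simp only [Finset.mem_filter, Finset.mem_range, id] at hJ hJmax
    have h1 : (⇑E)^[J] ((u : S) ^ m * z) = aeval v (a J) * (⇑E)^[J] (bs f.natDegree x y J) := by
      rw [ha, iter_sum, Finset.sum_eq_single J]
      · exact iter_aeval h _ _ _
      · intro j hj hjJ
        rw [iter_aeval h]
        rcases lt_or_gt_of_ne hjJ with h2 | h2
        · rw [iter_zero_of_le E (iter_bs h hp j).2 h2, mul_zero]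
        · have h3 : aeval v (a j) = 0 := by
            by_contra h4
            have h5 := hJmax j ⟨Finset.mem_range.1 hj, by omega, h4⟩
            omega
          rw [h3, zero_mul]
      · intro h2
        exact absurd (Finset.mem_range.2 hJ.1) h2
    rw [hE, iter_zero_of_le E hz hJ.2.1, mul_zero] at h1
    exact mul_ne_zero hJ.2.2 (iter_bs_ne h hp J) h1.symm
  by_cases hn : n < N
  · refine ⟨m, a n, 0, ?_⟩
    rw [add_zero, pow_zero, one_mul, ha, ← Finset.add_sum_erase _ _ (Finset.mem_range.2 hn),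
      add_sub_cancel_left]
    refine Submodule.sum_mem _ fun j hj => ?_
    rw [Finset.mem_erase, Finset.mem_range] at hj
    rcases lt_or_gt_of_ne hj.1 with h2 | h2
    · exact aeval_bs_mem h2 _
    · rw [hbig j h2 hj.2, zero_mul]
      exact Submodule.zero_mem _
  · refine ⟨m, 0, 0, ?_⟩
    rw [map_zero, zero_mul, mul_zero, sub_zero, add_zero]
    exact low_mono (not_lt.1 hn) hN

theorem lt_iter [CharZero k] {E : Derivation k S S} (h : DD R v x E) (hp : Pres f v x y)
    (hu0 : (u : S) ≠ 0) {n m : ℕ} {a : R[X]} {z : S}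
    (hz : LT R u f.natDegree v x y n m a z) :
    (⇑E)^[n + 1] z = 0 ∧
      (u : S) ^ m * (⇑E)^[n] z = aeval v a * (⇑E)^[n] (bs f.natDegree x y n) := by
  obtain ⟨t, ht⟩ := hz
  have hu : ∀ (i j : ℕ) (w : S), (⇑E)^[j] ((u : S) ^ i * w) = (u : S) ^ i * (⇑E)^[j] w := by
    intro i j w
    have h1 : (u : S) ^ i = ((u ^ i : R) : S) := by simp
    rw [h1]
    exact iter_r h _ _ _
  have h1 := iter_low h hp ht
  have h2 : (⇑E)^[n + 1] ((u : S) ^ (m + t) * z -
      (u : S) ^ t * (aeval v a * bs f.natDegree x y n)) = 0 := by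
    rw [Function.iterate_succ_apply', h1, map_zero]
  rw [iter_sub, hu, hu, iter_aeval h, sub_eq_zero] at h1 h2
  rw [(iter_bs h hp n).2, mul_zero, mul_zero] at h2
  refine ⟨(mul_eq_zero.1 h2).resolve_left (pow_ne_zero _ hu0), ?_⟩
  apply mul_left_cancel₀ (pow_ne_zero t hu0)
  rw [← h1]
  ring

theorem low_of_iter [CharZero k] {E : Derivation k S S} (h : DD R v x E) (hp : Pres f v x y)
    (hu0 : (u : S) ≠ 0) (hkap : ∀ z : S, ∃ m : ℕ, (u : S) ^ m * z ∈ Cx R v x y) {n : ℕ} {z : S}
    (hz : (⇑E)^[n] z = 0) : Fl R u f.natDegree v x y n z := by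
  cases n with
  | zero =>
    have hz0 : z = 0 := hz
    refine ⟨0, ?_⟩
    rw [hz0, mul_zero]
    exact Submodule.zero_mem _
  | succ n =>
    obtain ⟨m, a, t, ht⟩ := exists_lt h hp hkap hz
    refine ⟨m + t, ?_⟩
    have h1 : (u : S) ^ t * (aeval v a * bs f.natDegree x y n) ∈
        Low R f.natDegree v x y (n + 1) := by
      have h2 : (u : S) ^ t * (aeval v a * bs f.natDegree x y n) =
          aeval v (C (u ^ t) * a) * bs f.natDegree x y n := by
        rw [map_mul, aeval_C, map_pow]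
        have h3 : algebraMap R S u = (u : S) := rfl
        rw [h3, mul_assoc]
      rw [h2]
      exact aeval_bs_mem (Nat.lt_succ_self n) _
    have h4 := Submodule.add_mem _ (low_mono (Nat.le_succ n) ht) h1
    rwa [sub_add_cancel] at h4

theorem fl_iter [CharZero k] {E : Derivation k S S} (h : DD R v x E) (hp : Pres f v x y)
    (hu0 : (u : S) ≠ 0) {n : ℕ} {z : S} (hz : Fl R u f.natDegree v x y n z) :
    (⇑E)^[n] z = 0 := by
  obtain ⟨m, hm⟩ := hz
  have h1 := iter_low h hp hm
  have h2 : (u : S) ^ m = ((u ^ m : R) : S) := by simp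
  rw [h2, iter_r h, ← h2] at h1
  exact (mul_eq_zero.1 h1).resolve_left (pow_ne_zero _ hu0)

theorem fl_iff [CharZero k] {E : Derivation k S S} (h : DD R v x E) (hp : Pres f v x y)
    (hu0 : (u : S) ≠ 0) (hkap : ∀ z : S, ∃ m : ℕ, (u : S) ^ m * z ∈ Cx R v x y) {n : ℕ} {z : S} :
    Fl R u f.natDegree v x y n z ↔ (⇑E)^[n] z = 0 :=
  ⟨fl_iter h hp hu0, low_of_iter h hp hu0 hkap⟩

theorem lt_iff [CharZero k] {E : Derivation k S S} (h : DD R v x E) (hp : Pres f v x y)
    (hu0 : (u : S) ≠ 0) (hkap : ∀ z : S, ∃ m : ℕ, (u : S) ^ m * z ∈ Cx R v x y) {n m : ℕ}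
    {a : R[X]} {z : S} :
    LT R u f.natDegree v x y n m a z ↔ (⇑E)^[n + 1] z = 0 ∧
      (u : S) ^ m * (⇑E)^[n] z = aeval v a * (⇑E)^[n] (bs f.natDegree x y n) := by
  refine ⟨lt_iter h hp hu0, ?_⟩
  rintro ⟨h1, h2⟩
  have h3 : (⇑E)^[n] ((u : S) ^ m * z - aeval v a * bs f.natDegree x y n) = 0 := by
    have h4 : (u : S) ^ m = ((u ^ m : R) : S) := by simp
    rw [iter_sub, iter_aeval h, h4, iter_r h, ← h4, h2, sub_self]
  obtain ⟨t, ht⟩ := low_of_iter h hp hu0 hkap h3
  refine ⟨t, ?_⟩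
  have h5 : (u : S) ^ (m + t) * z - (u : S) ^ t * (aeval v a * bs f.natDegree x y n) =
      (u : S) ^ t * ((u : S) ^ m * z - aeval v a * bs f.natDegree x y n) := by ring
  rw [h5]
  exact ht

theorem prime_R (hfr : Fr R u) : Prime u := by
  refine ⟨?_, ?_, ?_⟩
  · intro h0
    apply hfr.prime.ne_zero
    rw [h0]
    rfl
  · intro h1
    apply hfr.prime.not_isUnit
    exact h1.map R.val
  · have key : ∀ a : R, (u : S) ∣ (a : S) → u ∣ a := by
      rintro a ⟨b, hb⟩
      have h1 : b ∈ R := hfr.sat b (by rw [← hb]; exact a.2)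
      exact ⟨⟨b, h1⟩, Subtype.ext hb⟩
    intro a b hab
    have h1 : (u : S) ∣ (a : S) * (b : S) := by
      obtain ⟨c, hc⟩ := hab
      exact ⟨c, by rw [← Subalgebra.coe_mul, hc, Subalgebra.coe_mul]⟩
    rcases hfr.prime.dvd_or_dvd h1 with h2 | h2
    · exact Or.inl (key a h2)
    · exact Or.inr (key b h2)

theorem exists_eps [CharZero k] (hfr : Fr R u) (hp : Pres f v x y)
    (hkap : ∀ z : S, ∃ m : ℕ, (u : S) ^ m * z ∈ Cx R v x y)
    (hvtr : ∀ a : R[X], (u : S) ∣ aeval v a → C u ∣ a) {E : Derivation k S S}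
    (hR : ∀ r : R, E (r : S) = 0) (hv : E v = 0) {w : R} (hw : IsUnit w) {e : ℕ}
    (hx : E x = (w : S) * (u : S) ^ e * v) (n : ℕ) :
    ∃ M, IsEps R u f.natDegree v x y n M := by
  classical
  have hu0 : (u : S) ≠ 0 := hfr.prime.ne_zero
  have hw0 : (w : S) ≠ 0 := by
    intro h0
    have h1 := hw.map R.val
    have h2 : (R.val w : S) = 0 := h0
    rw [h2] at h1
    exact not_isUnit_zero h1
  have hv0 : v ≠ 0 := by
    rintro rfl
    have h1 : (X : R[X]) = 0 := aeval_inj hp (by simp)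
    exact X_ne_zero h1
  have hchar : CharZero S := charZero_of_injective_algebraMap (algebraMap k S).injective
  have h : DD R v x E := by
    refine ⟨hR, hv, ?_, ?_⟩
    · rw [hx, Derivation.leibniz, Derivation.leibniz, Derivation.leibniz_pow, hv, hR, hR]
      simp
    · rw [hx]
      exact mul_ne_zero (mul_ne_zero hw0 (pow_ne_zero _ hu0)) hv0
  -- a bound for the exponents
  have hbd : ∀ (z : S) (m : ℕ) (a : R[X]), ¬ C u ∣ a → LT R u f.natDegree v x y n m a z →
      m ≤ e * n := by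
    intro z m a ha hz
    by_contra hlt
    rw [not_le] at hlt
    obtain ⟨h1, h2⟩ := lt_iter h hp hu0 hz
    have h3 := (iter_bs h hp n).1
    have h4 : (u : S) ^ m * (v ^ (n / f.natDegree) * (⇑E)^[n] z) =
        aeval v a * ((n.factorial : S) * (E x) ^ n) := by
      rw [← h3]
      linear_combination v ^ (n / f.natDegree) * h2
    rw [hx] at h4
    have h5 : (u : S) ^ (m - e * n) * (v ^ (n / f.natDegree) * (⇑E)^[n] z) =
        aeval v a * ((n.factorial : S) * ((w : S) ^ n * v ^ n)) := by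
      apply mul_left_cancel₀ (pow_ne_zero (e * n) hu0)
      have h6 : (u : S) ^ (e * n) * ((u : S) ^ (m - e * n) *
          (v ^ (n / f.natDegree) * (⇑E)^[n] z)) =
          (u : S) ^ m * (v ^ (n / f.natDegree) * (⇑E)^[n] z) := by
        rw [← mul_assoc, ← pow_add]
        congr 2
        omega
      rw [h6, h4, mul_pow, mul_pow, ← pow_mul]
      ring
    have h7 : (u : S) ∣ aeval v a * ((n.factorial : S) * ((w : S) ^ n * v ^ n)) := by
      rw [← h5]
      exact Dvd.dvd.mul_right (dvd_pow_self _ (by omega)) _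
    have hup := hfr.prime
    rcases hup.dvd_or_dvd h7 with h8 | h8
    · exact ha (hvtr a h8)
    rcases hup.dvd_or_dvd h8 with h9 | h9
    · have h10 : IsUnit ((n.factorial : ℕ) : S) := by
        have h11 : ((n.factorial : ℕ) : S) = algebraMap k S ((n.factorial : ℕ) : k) := by
          rw [map_natCast]
        rw [h11]
        exact (IsUnit.mk0 _ (by exact_mod_cast Nat.factorial_ne_zero n)).map (algebraMap k S)
      exact hup.not_isUnit (isUnit_of_dvd_unit h9 h10)
    rcases hup.dvd_or_dvd h9 with h10 | h10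
    · exact hup.not_isUnit (isUnit_of_dvd_unit (hup.dvd_of_dvd_pow h10) (hw.map R.val))
    · have h11 := hup.dvd_of_dvd_pow h10
      have h12 := hvtr X (by rw [aeval_X]; exact h11)
      rw [Polynomial.C_dvd_iff_dvd_coeff] at h12
      have h13 := h12 1
      rw [coeff_X_one] at h13
      exact (prime_R hfr).not_isUnit (isUnit_of_dvd_one h13)
  -- the greatest one
  have hex : ∃ m, ∃ (z : S) (a : R[X]), ¬ C u ∣ a ∧ LT R u f.natDegree v x y n m a z := by
    refine ⟨0, bs f.natDegree x y n, 1, ?_, 0, ?_⟩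
    · intro h1
      exact (prime_R hfr).not_isUnit (isUnit_of_dvd_one (by
        have h2 := (Polynomial.C_dvd_iff_dvd_coeff _ _).1 h1 0
        rwa [coeff_one_zero] at h2))
    · have h1 : (u : S) ^ (0 + 0) * bs f.natDegree x y n -
          (u : S) ^ 0 * ((aeval v) (1 : R[X]) * bs f.natDegree x y n) = 0 := by
        rw [map_one]
        ring
      rw [h1]
      exact Submodule.zero_mem _
  obtain ⟨M, hM, hmax⟩ : ∃ M, (∃ (z : S) (a : R[X]), ¬ C u ∣ a ∧
      LT R u f.natDegree v x y n M a z) ∧ ∀ m, (∃ (z : S) (a : R[X]), ¬ C u ∣ a ∧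
      LT R u f.natDegree v x y n m a z) → m ≤ M := by
    refine ⟨Nat.findGreatest (fun m => ∃ (z : S) (a : R[X]), ¬ C u ∣ a ∧
      LT R u f.natDegree v x y n m a z) (e * n), ?_, ?_⟩
    · obtain ⟨m, hm⟩ := hex
      exact Nat.findGreatest_spec (P := fun m => ∃ (z : S) (a : R[X]), ¬ C u ∣ a ∧
        LT R u f.natDegree v x y n m a z) (by
          obtain ⟨z, a, ha, hz⟩ := hm
          exact hbd z m a ha hz) hm
    · intro m hm
      exact Nat.le_findGreatest (by
        obtain ⟨z, a, ha, hz⟩ := hm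
        exact hbd z m a ha hz) hm
  refine ⟨M, hM, fun z m a hz => ?_⟩
  by_cases ha0 : a = 0
  · rw [ha0, zero_mul]
    exact dvd_zero _
  -- split off the power of `u`
  have hsplit : ∃ (j : ℕ) (b : R[X]), a = C u ^ j * b ∧ ¬ C u ∣ b := by
    have hv0' : aeval v a ≠ 0 := fun h0 => ha0 (aeval_inj hp h0)
    obtain ⟨N, hN⟩ := hfr.sep _ hv0'
    by_contra hcon
    push Not at hcon
    have hall : ∀ j : ℕ, C u ^ j ∣ a := by
      intro j
      induction j with
      | zero => rw [pow_zero]; exact one_dvd _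
      | succ j ih =>
        obtain ⟨b, hb⟩ := ih
        obtain ⟨c, hc⟩ := hcon j b hb
        exact ⟨c, by rw [hb, hc, pow_succ]; ring⟩
    obtain ⟨c, hc⟩ := hall N
    apply hN
    rw [hc, map_mul, map_pow, aeval_C]
    exact Dvd.intro _ rfl
  obtain ⟨j, b, rfl, hb⟩ := hsplit
  rcases Nat.lt_or_ge j m with hj | hj
  · -- divide by `u ^ j`
    obtain ⟨h1, h2⟩ := lt_iter h hp hu0 hz
    have h3 : LT R u f.natDegree v x y n (m - j) b z := by
      rw [lt_iff h hp hu0 hkap]
      refine ⟨h1, ?_⟩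
      apply mul_left_cancel₀ (pow_ne_zero j hu0)
      rw [← mul_assoc, ← pow_add, Nat.add_sub_cancel' hj.le, h2, map_mul, map_pow, aeval_C]
      have h4 : algebraMap R S u = (u : S) := rfl
      rw [h4]
      ring
    have h4 := hmax (m - j) ⟨z, b, hb, h3⟩
    have h5 : m ≤ j + M := by omega
    have h6 : C u ^ j * b * C u ^ M = b * C u ^ (j + M) := by
      rw [pow_add]
      ring
    rw [h6]
    exact Dvd.dvd.mul_left (pow_dvd_pow _ h5) _
  · exact Dvd.dvd.mul_right (Dvd.dvd.mul_right (pow_dvd_pow _ hj) _) _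

theorem adp_of_q1a [CharZero k] (hfr : Fr R u) (hp : Pres f v x y)
    (hkap : ∀ z : S, ∃ m : ℕ, (u : S) ^ m * z ∈ Cx R v x y)
    (heps : ∀ n : ℕ, ∃ M : ℕ, IsEps R u f.natDegree v x y n M) {E : Derivation k S S}
    (h : DD R v x E) (hQ : Q1A R u f v x y) (n : ℕ) :
    ∃ z, (⇑E)^[n + 1] z = 0 ∧ (⇑E)^[n] z ≠ 0 ∧
      ∀ z', (⇑E)^[n + 1] z' = 0 → (⇑E)^[n] z ∣ (⇑E)^[n] z' := by
  have hu0 : (u : S) ≠ 0 := hfr.prime.ne_zero
  obtain ⟨M, hM⟩ := heps n
  obtain ⟨z, hz⟩ := hQ n M hM
  obtain ⟨h1, h2⟩ := lt_iter h hp hu0 hz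
  rw [map_one, one_mul] at h2
  refine ⟨z, h1, ?_, ?_⟩
  · intro h3
    rw [h3, mul_zero] at h2
    exact iter_bs_ne h hp n h2.symm
  · intro z' hz'
    obtain ⟨m, a, ha⟩ := exists_lt h hp hkap hz'
    obtain ⟨-, h4⟩ := lt_iter h hp hu0 ha
    obtain ⟨b, hb⟩ := hM.max z' m a ha
    refine ⟨aeval v b, ?_⟩
    apply mul_left_cancel₀ (mul_ne_zero (pow_ne_zero m hu0) (pow_ne_zero M hu0))
    have h5 := congrArg (aeval v) hb
    rw [map_mul, map_mul, map_pow, map_pow, aeval_C] at h5
    have h6 : algebraMap R S u = (u : S) := rfl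
    rw [h6] at h5
    linear_combination (u : S) ^ M * h4 + (⇑E)^[n] (bs f.natDegree x y n) * h5 -
      (u : S) ^ m * aeval v b * h2

theorem q1a_of_adp [CharZero k] (hfr : Fr R u) (hp : Pres f v x y)
    (hkap : ∀ z : S, ∃ m : ℕ, (u : S) ^ m * z ∈ Cx R v x y) {E : Derivation k S S}
    (h : DD R v x E) (hker : ∀ z, E z = 0 → ∃ a : R[X], z = aeval v a)
    (hA : ∀ n : ℕ, ∃ z, (⇑E)^[n + 1] z = 0 ∧ (⇑E)^[n] z ≠ 0 ∧
      ∀ z', (⇑E)^[n + 1] z' = 0 → (⇑E)^[n] z ∣ (⇑E)^[n] z') : Q1A R u f v x y := by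
  have hu0 : (u : S) ≠ 0 := hfr.prime.ne_zero
  have hur : algebraMap R S u = (u : S) := rfl
  have huP : Prime (C u : R[X]) := Polynomial.prime_C_iff.2 (prime_R hfr)
  have hCu0 : (C u : R[X]) ≠ 0 := huP.ne_zero
  intro n M hM
  obtain ⟨x₀, hx1, hx2, hx3⟩ := hA n
  obtain ⟨m, b, hmb⟩ := exists_lt h hp hkap hx1
  obtain ⟨-, hb⟩ := lt_iter h hp hu0 hmb
  have hbs := iter_bs_ne h hp n
  -- all leading coefficients are multiples of the one of `x₀`
  have key : ∀ (z : S) (l : ℕ) (a : R[X]), LT R u f.natDegree v x y n l a z →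
      ∃ c : R[X], C u ^ m * a = C u ^ l * c * b := by
    intro z l a hz
    obtain ⟨h1, h2⟩ := lt_iter h hp hu0 hz
    obtain ⟨t, ht⟩ := hx3 z h1
    have h3 : E t = 0 := by
      have h4 : E ((⇑E)^[n] z) = 0 := by
        rw [← Function.iterate_succ_apply' (⇑E) n z]
        exact h1
      have h5 : E ((⇑E)^[n] x₀) = 0 := by
        rw [← Function.iterate_succ_apply' (⇑E) n x₀]
        exact hx1
      rw [ht, Derivation.leibniz, h5, smul_zero, add_zero, smul_eq_mul] at h4
      exact (mul_eq_zero.1 h4).resolve_left hx2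
    obtain ⟨c, rfl⟩ := hker t h3
    refine ⟨c, ?_⟩
    have h4 : aeval v (C u ^ m * a - C u ^ l * c * b) = 0 := by
      apply (mul_eq_zero.1 (?_ : aeval v (C u ^ m * a - C u ^ l * c * b) *
        (⇑E)^[n] (bs f.natDegree x y n) = 0)).resolve_right hbs
      rw [map_sub, map_mul, map_mul, map_mul, map_pow, map_pow, aeval_C, hur]
      linear_combination -(u : S) ^ m * h2 + (u : S) ^ l * aeval v c * hb +
        (u : S) ^ m * (u : S) ^ l * ht
    exact sub_eq_zero.1 (aeval_inj hp h4)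
  obtain ⟨z₁, a₁, ha₁, hz₁⟩ := hM.ex
  -- the coefficient of `x₀`
  obtain ⟨b', hb'⟩ := hM.max x₀ m b hmb
  obtain ⟨c₁, hc₁⟩ := key z₁ M a₁ hz₁
  have e1 : a₁ = c₁ * b' := by
    apply mul_left_cancel₀ (pow_ne_zero m hCu0)
    linear_combination hc₁ + c₁ * hb'
  have hb'u : ¬ C u ∣ b' := fun h1 => ha₁ (by rw [e1]; exact Dvd.dvd.mul_left h1 _)
  -- the basis element itself
  have hbsLT : LT R u f.natDegree v x y n 0 1 (bs f.natDegree x y n) := by
    refine ⟨0, ?_⟩
    have h1 : (u : S) ^ (0 + 0) * bs f.natDegree x y n -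
        (u : S) ^ 0 * ((aeval v) (1 : R[X]) * bs f.natDegree x y n) = 0 := by
      rw [map_one]
      ring
    rw [h1]
    exact Submodule.zero_mem _
  obtain ⟨c₂, hc₂⟩ := key _ 0 1 hbsLT
  have e2 : C u ^ M = b' * c₂ := by
    apply mul_left_cancel₀ (pow_ne_zero m hCu0)
    linear_combination C u ^ M * hc₂ + c₂ * hb'
  have hunit : IsUnit b' := by
    have h1 : C u ^ M ∣ c₂ := huP.pow_dvd_of_dvd_mul_left M hb'u (by rw [← e2])
    obtain ⟨d, hd⟩ := h1
    have h2 : b' * d = 1 := by
      apply mul_left_cancel₀ (pow_ne_zero M hCu0)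
      rw [mul_one]
      conv_rhs => rw [e2, hd]
      ring
    exact IsUnit.of_mul_eq_one _ h2
  obtain ⟨r, hr, hrb⟩ := Polynomial.isUnit_iff.1 hunit
  obtain ⟨r', hr'⟩ := hr.exists_right_inv
  refine ⟨(r' : S) * x₀, ?_⟩
  rw [lt_iff h hp hu0 hkap]
  constructor
  · rw [iter_r h, hx1, mul_zero]
  · rw [iter_r h, map_one, one_mul]
    apply mul_left_cancel₀ (pow_ne_zero m hu0)
    have h5 := congrArg (aeval v) hb'
    rw [← hrb, map_mul, map_mul, map_pow, map_pow, aeval_C, aeval_C, hur] at h5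
    have h6 : algebraMap R S r = (r : S) := rfl
    have h7 : (r : S) * (r' : S) = 1 := by rw [← Subalgebra.coe_mul, hr']; rfl
    rw [h6] at h5
    linear_combination (u : S) ^ M * (r' : S) * hb +
      (r' : S) * (⇑E)^[n] (bs f.natDegree x y n) * h5 +
      (u : S) ^ m * (⇑E)^[n] (bs f.natDegree x y n) * h7

/-- Adapted elements in terms of the basis and in terms of the derivation. -/
theorem q1a_iff [CharZero k] (hfr : Fr R u) (hp : Pres f v x y)
    (hkap : ∀ z : S, ∃ m : ℕ, (u : S) ^ m * z ∈ Cx R v x y)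
    (heps : ∀ n : ℕ, ∃ M : ℕ, IsEps R u f.natDegree v x y n M) {E : Derivation k S S}
    (h : DD R v x E) (hker : ∀ z, E z = 0 → ∃ a : R[X], z = aeval v a) :
    Q1A R u f v x y ↔ ∀ n : ℕ, ∃ z, (⇑E)^[n + 1] z = 0 ∧ (⇑E)^[n] z ≠ 0 ∧
      ∀ z', (⇑E)^[n + 1] z' = 0 → (⇑E)^[n] z ∣ (⇑E)^[n] z' :=
  ⟨adp_of_q1a hfr hp hkap heps h, q1a_of_adp hfr hp hkap h hker⟩

end der

end FiD

end Pool.Agent.LNDQ
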