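import Mathlib
import Pool.Agent.LNDQ.BDefs
import Pool.Agent.LNDQ.FiPoint
import Pool.Agent.LNDQ.LocDeg
import Pool.Agent.LNDQ.BlkSimple

set_option autoImplicit false

open Polynomial

namespace Pool.Agent.LNDQ

open Pool.Agent.LNDHom Pool.Agent.LNDF Pool.Agent.LNDT

namespace BlkV

variable {k : Type} [Field k] [CharZero k]

omit [CharZero k] in
/-- if `p ^ j` divides all images of degree `n` it divides their gcd -/
theorem pow_dvd_cc {B : Type} [CommRing B] [IsDomain B] [Algebra k B]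
    [UniqueFactorizationMonoid B] {D : Derivation k B B} {p : B} (hp : Prime p) {n j : ℕ} {c : B}
    (hc : IsCC D n c) (h : ∀ x, (⇑D)^[n + 1] x = 0 → p ^ j ∣ (⇑D)^[n] x) : p ^ j ∣ c := by
  obtain ⟨x, hx, hx'⟩ := hc.sharp p hp
  obtain ⟨t, ht⟩ := hc.dvd x hx
  have hpt : ¬ p ∣ t := by
    rintro ⟨s, rfl⟩
    apply hx'
    rw [ht]
    exact ⟨s, by ring⟩
  have h1 := h x hx
  rw [ht] at h1
  exact hp.pow_dvd_of_dvd_mul_right _ hpt h1

variable {u v0 : B3 k} {D : Derivation k (B3 k) (B3 k)} {f : (RR u)[X]} {v x y : SL u} {e : ℕ}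

omit [CharZero k] in
theorem coe_unit {w : RR u} (hw : IsUnit w) : IsUnit (w : SL u) := hw.map (RR u).val

omit [CharZero k] in
/-- divisibility by powers of `p` descends from `S` to `B` -/
theorem pdvd (hu : Transcendental k u) {p : B3 k} (hp : Prime p) (hpu : ¬ p ∣ u)
    (hpq : ∀ q : k[X], q.eval 0 ≠ 0 → ¬ p ∣ aeval u q) {n M : ℕ} {z : B3 k}
    (h : io u p ^ n ∣ io u u ^ M * io u z) : p ^ n ∣ z := by
  obtain ⟨s, hs⟩ := h
  obtain ⟨b, q, hq, hb⟩ := sl_surj s
  have h1 : z * (u ^ M * aeval u q) = p ^ n * b := by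
    apply io_injT hu
    simp only [io, map_mul, map_pow] at hs hb ⊢
    rw [← hb]
    linear_combination (algebraMap (B3 k) (SL u) (aeval u q)) * hs
  refine hp.pow_dvd_of_dvd_mul_right n (fun hd => ?_) ⟨b, h1⟩
  rcases hp.dvd_or_dvd hd with h2 | h2
  · exact hpu (hp.dvd_of_dvd_pow h2)
  · exact hpq q hq h2

omit [CharZero k] in
/-- `p` does not divide a unit times a power of `u` -/
theorem pnd (hu : Transcendental k u) {p : B3 k} (hp : Prime p) (hpu : ¬ p ∣ u)
    (hpq : ∀ q : k[X], q.eval 0 ≠ 0 → ¬ p ∣ aeval u q) {r : SL u} (hr : IsUnit r) (M : ℕ) :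
    ¬ io u p ∣ r * io u u ^ M := by
  intro h
  rw [hr.dvd_mul_left] at h
  have h1 := pdvd hu hp hpu hpq (n := 1) (M := M) (z := 1) (by
    rw [pow_one]
    have : io u (1 : B3 k) = 1 := map_one _
    rw [this, mul_one]
    exact h)
  rw [pow_one] at h1
  exact hp.not_isUnit (isUnit_of_dvd_one h1)

/-- the number `n_p` of the prime `p ~ v` is `β`; `p` is simple -/
theorem npB_v (h : Dat u v0 D f v x y e) (hd : FiD.DD (RR u) v x (exS u D)) {p : B3 k}
    (hp : Prime p) (hDp : D p = 0) {w : RR u} (hw : IsUnit w) (hv : v = w * io u p)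
    (hpu : ¬ p ∣ u) (hpq : ∀ q : k[X], q.eval 0 ≠ 0 → ¬ p ∣ aeval u q) (cc : ℕ → B3 k)
    (hcc : ∀ n, IsCC D n (cc n)) :
    p ∣ cc 1 ∧ ¬ p ^ 2 ∣ cc 1 ∧ npB D p = f.natDegree := by
  have hu := dat_tr h
  have hdom := sl_dom hu
  have hD : ∃ x, D x ≠ 0 := h.ne
  have hln := h.ln
  have hnd := h.irr p hp hDp
  have hβ := h.pres.deg
  obtain ⟨w1, hw1, h1⟩ := h.jac
  obtain ⟨w2, hw2, h2⟩ := h.jD
  have hEx : exS u D x = ((w2 * w1 * w : RR u) : SL u) * io u u ^ e * io u p := by
    rw [h2, h1, Subalgebra.coe_mul, Subalgebra.coe_mul]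
    conv_lhs => rw [hv]
    ring
  have hW : IsUnit ((w2 * w1 * w : RR u) : SL u) := coe_unit ((hw2.mul hw1).mul hw)
  have hio : ∀ (n : ℕ) (b : B3 k), (⇑(exS u D))^[n] (io u b) = io u ((⇑D)^[n] b) := by
    intro n
    induction n with
    | zero => intro b; rfl
    | succ n ih =>
      intro b
      rw [Function.iterate_succ_apply, exS_io, ih, Function.iterate_succ_apply]
  have hv0 : v ≠ 0 := by
    rw [hv]
    exact mul_ne_zero (coe_unit hw).ne_zero (fun h0 => hp.ne_zero (io_injT hu (by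
      rw [h0]; exact (map_zero _).symm)))
  -- (1)
  have key1 : ∀ n, n < f.natDegree → ∀ z, (⇑D)^[n + 1] z = 0 → p ^ n ∣ (⇑D)^[n] z := by
    intro n hn z hz
    have hz' : (⇑(exS u D))^[n + 1] (io u z) = 0 := by
      rw [hio, hz]; exact map_zero _
    obtain ⟨m, a, hlt⟩ := FiD.exists_lt (u := uu u) hd h.pres h.kap hz'
    obtain ⟨-, h3⟩ := FiD.lt_iter (u := uu u) hd h.pres (fun h0 => by
      have h5 : io u u = 0 := h0
      have h6 : u = 0 := io_injT hu (by rw [h5]; exact (map_zero _).symm)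
      exact (dat_prime_u h).ne_zero h6) hlt
    obtain ⟨h4, -⟩ := FiD.iter_bs hd h.pres n
    rw [Nat.div_eq_of_lt hn, pow_zero, one_mul] at h4
    rw [h4, hEx, hio] at h3
    refine pdvd hu hp hpu hpq (M := m) ?_
    have h5 : ((uu u : RR u) : SL u) = io u u := rfl
    rw [h5] at h3
    rw [h3]
    exact ⟨aeval v a * ((n.factorial : SL u) * (((w2 * w1 * w : RR u) : SL u) * io u u ^ e) ^ n),
      by ring⟩
  have hp1 : p ∣ cc 1 := by
    have := pow_dvd_cc hp (hcc 1) (j := 1) (fun x hx => key1 1 (by omega) x hx)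
    rwa [pow_one] at this
  -- (2)
  have hp2 : ¬ p ^ 2 ∣ cc 1 := by
    intro hd2
    obtain ⟨b, q, hq, hb⟩ := sl_surj x
    have h3 := dat_ex h hb
    have h4 : (⇑D)^[1 + 1] b = 0 := by
      apply io_injT hu
      have h5 := hd.hx
      rw [← hio, Function.iterate_succ_apply, Function.iterate_one, exS_io, ← h3,
        Derivation.leibniz, h5, exS_io, dat_Du h]
      simp [io]
    have h5 := hd2.trans ((hcc 1).dvd b h4)
    obtain ⟨s, hs⟩ := h5
    rw [Function.iterate_one] at hs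
    rw [hs, hEx] at h3
    apply pnd hu hp hpu hpq (hW.mul (io_unitT (u := u) hq)) e
    refine ⟨io u s, ?_⟩
    have hip : io u p ≠ 0 := fun h0 => hp.ne_zero (io_injT hu (by rw [h0]; exact (map_zero _).symm))
    apply mul_left_cancel₀ hip
    simp only [io, map_mul, map_pow] at h3 ⊢
    linear_combination h3
  refine ⟨hp1, hp2, ?_⟩
  have hn0 : 0 < npB D p := by
    rw [← np_eq D hp hDp hln hnd]; exact np_pos _
  rcases lt_trichotomy (npB D p) f.natDegree with hlt | heq | hgt
  · exfalso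
    have h3 := pow_dvd_cc hp (hcc _) (key1 _ hlt)
    have h4 := (simple_e hln hp hDp hnd (hcc 1) hp1 hp2 (hcc _) _).1 h3
    rw [Nat.div_self hn0] at h4
    omega
  · exact heq
  · exfalso
    have h3 := (simple_e hln hp hDp hnd (hcc 1) hp1 hp2 (hcc f.natDegree) f.natDegree).2 (by
      rw [Nat.div_eq_of_lt hgt, Nat.sub_zero])
    obtain ⟨b, q, hq, hb⟩ := sl_surj y
    obtain ⟨h4, h5⟩ := FiD.iter_bs hd h.pres f.natDegree
    have hbs : bs f.natDegree x y f.natDegree = y := by
      unfold bs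
      rw [Nat.mod_self, Nat.div_self (by omega), pow_zero, pow_one, one_mul]
    rw [hbs] at h4 h5
    rw [Nat.div_self (by omega), pow_one] at h4
    have hq0 : exS u D (io u (aeval u q)) = 0 := by
      rw [exS_io, dat_Du h]; exact map_zero _
    have h6 : ∀ n, (⇑(exS u D))^[n] (y * io u (aeval u q)) =
        io u (aeval u q) * (⇑(exS u D))^[n] y := by
      intro n
      rw [mul_comm]
      exact iter_const (exS u D) hq0 n y
    have h7 : (⇑D)^[f.natDegree + 1] b = 0 := by
      apply io_injT hu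
      rw [← hio, ← hb, h6, h5, mul_zero]
      exact (map_zero _).symm
    obtain ⟨s, hs⟩ := h3.trans ((hcc f.natDegree).dvd b h7)
    have h8 : v * io u ((⇑D)^[f.natDegree] b) =
        io u (aeval u q) * ((f.natDegree.factorial : SL u) * exS u D x ^ f.natDegree) := by
      rw [← hio, ← hb, h6, ← h4]
      ring
    rw [hs, hEx] at h8
    have hfac : IsUnit ((f.natDegree.factorial : ℕ) : SL u) := by
      have h9 : IsUnit ((f.natDegree.factorial : ℕ) : k) :=
        IsUnit.mk0 _ (by exact_mod_cast Nat.factorial_ne_zero _)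
      have h10 := h9.map (algebraMap k (SL u))
      rwa [map_natCast] at h10
    apply pnd hu hp hpu hpq (((io_unitT (u := u) hq).mul hfac).mul (hW.pow f.natDegree))
      (e * f.natDegree)
    have hip : io u p ≠ 0 := fun h0 => hp.ne_zero (io_injT hu (by rw [h0]; exact (map_zero _).symm))
    refine ⟨w * io u s, ?_⟩
    apply mul_left_cancel₀ (pow_ne_zero f.natDegree hip)
    rw [hv] at h8
    simp only [io, map_mul, map_pow] at h8 ⊢
    rw [pow_mul]
    linear_combination -h8
end BlkV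

end Pool.Agent.LNDQ
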