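import Mathlib
import Pool.Agent.LNDQ.FiPoint

set_option autoImplicit false

open Polynomial

namespace Pool.Agent.LNDQ

open Pool.Agent.LNDHom Pool.Agent.LNDF Pool.Agent.LNDT

variable {k : Type} [Field k] [CharZero k] {u v0 : B3 k} {D : Derivation k (B3 k) (B3 k)}
  {f : (RR u)[X]} {v x y : SL u} {e : ℕ}

/-- prime constants in a maximal ideal `m` with `u` which divide `cc 1` are `u` or `p` -/
theorem dat_special (h : Dat u v0 D f v x y e) {c : B3 k} (hc : IsCC D 1 c) {p : B3 k} {w : RR u}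
    (hw : IsUnit w) (hv : v = w * io u p) (hp : Prime p) {u' : kerAlg D} (hu' : (u' : B3 k) = u)
    {m : Ideal (kerAlg D)} (hm : m ≠ ⊤) (hum : u' ∈ m) {p' : kerAlg D} (hp' : Prime (p' : B3 k))
    (hpm : p' ∈ m) (hd : (p' : B3 k) ∣ c) :
    Associated (p' : B3 k) u ∨ Associated (p' : B3 k) p := by
  obtain ⟨q, r, hq, hr⟩ := dat_slice h hw hv
  have hDp : D p = 0 := by
    have h1 : exS u D v = 0 := (h.kerS v).2 (Algebra.subset_adjoin rfl)
    have hdom := sl_dom (dat_tr h)
    obtain ⟨w', hw'⟩ := hw.exists_left_inv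
    have h2 : io u p = w' * v := by
      rw [hv, ← mul_assoc, ← Subalgebra.coe_mul, hw', Subalgebra.coe_one, one_mul]
    have h3 : exS u D (io u p) = 0 := by
      rw [h.kerS, h2]
      exact Subalgebra.mul_mem _ (Subalgebra.algebraMap_mem _ w') (Algebra.subset_adjoin rfl)
    rw [exS_io] at h3
    exact io_injT (dat_tr h) (by rw [h3]; exact (map_zero _).symm)
  have hDD : (⇑D)^[2] r = 0 := by
    change D (D r) = 0
    rw [hr, Derivation.leibniz, Derivation.leibniz, Derivation.leibniz_pow, dat_Du h, hDp]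
    have hDu : D u = 0 := (h.ker u).2 (Algebra.subset_adjoin (by simp))
    rw [hDu]
    simp
  have h1 : (p' : B3 k) ∣ aeval u q * u ^ e * p := hd.trans (by
    have := hc.dvd r hDD
    rwa [Function.iterate_one, hr] at this)
  rcases hp'.dvd_or_dvd h1 with h2 | h2
  · rcases hp'.dvd_or_dvd h2 with h3 | h3
    · exfalso
      rw [← hu'] at h3
      exact fi_not_dvd_aeval h.ln hm hum hpm hq h3
    · exact Or.inl ((hp'.dvd_prime_iff_associated (dat_prime_u h)).1 (hp'.dvd_of_dvd_pow h3))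
  · exact Or.inr ((hp'.dvd_prime_iff_associated hp).1 h2)

/-- the base of the induction, local form: at every maximal ideal containing `u` -/
theorem base_at (h : Dat u v0 D f v x y e) (he : e ≤ 1) (A : Arith D) {G r0 : B3 k}
    (hG : (⇑D)^[A.N] G = A.cc A.N) (hr0 : D r0 = A.cc 1) (n : ℕ) {m : Ideal (kerAlg D)}
    (hm : m.IsMaximal) (hum : ∀ a : kerAlg D, (a : B3 k) = u → a ∈ m) :
    ∃ (a : kerAlg D) (x : B3 k), a ∉ m ∧ (⇑D)^[n + 1] x = 0 ∧ (⇑D)^[n] x = a * A.cc n := by
  have hDu : D u = 0 := (h.ker u).2 (Algebra.subset_adjoin (by simp))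
  obtain ⟨a, b, p, ha, -, hp, hpp, w, hw, hv⟩ := dat_point h
  obtain ⟨q, r, hq, hr⟩ := dat_slice h hw hv
  have hr' : D (u ^ (1 - e) * r) = aeval u q * u * p := by
    rw [Derivation.leibniz, Derivation.leibniz_pow, hDu, smul_zero, smul_zero, smul_zero, add_zero,
      smul_eq_mul, hr]
    have : u ^ (1 - e) * u ^ e = u := by rw [← pow_add, Nat.sub_add_cancel he, pow_one]
    linear_combination (aeval u q * (p : B3 k)) * this
  exact small_at (dat_kd h) A hG hr0 (u := ⟨u, hDu⟩) (p := p) (dat_prime_u h) hpp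
    (fun hs => dat_not_assoc h hv hs.dvd) (point_gen h.ker ha rfl hp) hq hr' n hm (hum _ rfl)

end Pool.Agent.LNDQ
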