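import Mathlib
import Pool.Agent.LNDQ.BDefs
import Pool.Agent.LNDQ.LocDer

/-!
Group FI1 of the proof of Q1 for MP_821812: the localization `SL u` of `B3 k` at the elements `q(u)`,
`q(0) ≠ 0`, of a prime `u`, its subring `RR u`, and `Fr (RR u) (uu u)`; extended derivations.
-/

set_option autoImplicit false
set_option linter.unusedSectionVars false

open Polynomial

namespace Pool.Agent.LNDQ

open Pool.Agent.LNDF

section

variable {k : Type} [Field k] {u : B3 k}

theorem io_mul (a b : B3 k) : io u (a * b) = io u a * io u b := map_mul _ a b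
theorem io_add (a b : B3 k) : io u (a + b) = io u a + io u b := map_add _ a b
theorem io_sub (a b : B3 k) : io u (a - b) = io u a - io u b := map_sub _ a b
theorem io_zero : io u (0 : B3 k) = 0 := map_zero _
theorem io_one : io u (1 : B3 k) = 1 := map_one _
theorem io_pow (a : B3 k) (n : ℕ) : io u (a ^ n) = io u a ^ n := map_pow _ a n
theorem io_alg (c : k) : io u (algebraMap k (B3 k) c) = algebraMap k (SL u) c :=
  (IsScalarTower.algebraMap_apply k (B3 k) (SL u) c).symm

theorem mem_Mu {q : k[X]} (h : q.eval 0 ≠ 0) : aeval u q ∈ Mu u := ⟨q, h, rfl⟩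

theorem aeval_split (u : B3 k) (q : k[X]) :
    aeval u q = algebraMap k (B3 k) (q.eval 0) + u * aeval u q.divX := by
  have h := congrArg (aeval u) (Polynomial.divX_mul_X_add q)
  rw [map_add, map_mul, aeval_X, aeval_C, coeff_zero_eq_eval_zero] at h
  rw [← h]
  ring

theorem dvd_aeval_iff (hu : Prime u) (q : k[X]) : u ∣ aeval u q ↔ q.eval 0 = 0 := by
  rw [aeval_split u q]
  constructor
  · intro h
    by_contra h0
    have h1 : u ∣ algebraMap k (B3 k) (q.eval 0) := (dvd_add_left (dvd_mul_right u _)).1 h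
    exact hu.not_isUnit (isUnit_of_dvd_unit h1 ((IsUnit.mk0 _ h0).map (algebraMap k (B3 k))))
  · intro h
    rw [h, map_zero, zero_add]
    exact dvd_mul_right u _

theorem not_dvd_Mu (hu : Prime u) {m : B3 k} (hm : m ∈ Mu u) : ¬ u ∣ m := by
  obtain ⟨q, hq, rfl⟩ := hm
  rw [dvd_aeval_iff hu]
  exact hq

theorem Mu_le (hu : Prime u) : Mu u ≤ nonZeroDivisors (B3 k) := by
  intro m hm
  rw [mem_nonZeroDivisors_iff_ne_zero]
  rintro rfl
  exact not_dvd_Mu hu hm (dvd_zero u)

/-- `u` is transcendental over `k` -/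
theorem aeval_inj (hu : Prime u) : Function.Injective (aeval u : k[X] →ₐ[k] B3 k) := by
  rw [injective_iff_map_eq_zero]
  intro q hq
  by_contra h0
  obtain ⟨n, q', h1, h2⟩ : ∃ (n : ℕ) (q' : k[X]), q = X ^ n * q' ∧ q'.eval 0 ≠ 0 := by
    obtain ⟨q', h1, h2⟩ := exists_eq_pow_rootMultiplicity_mul_and_not_dvd q h0 0
    rw [map_zero, sub_zero] at h1 h2
    refine ⟨_, q', h1, fun h3 => h2 ?_⟩
    rw [X_dvd_iff, coeff_zero_eq_eval_zero]
    exact h3
  rw [h1, map_mul, map_pow, aeval_X] at hq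
  rcases mul_eq_zero.1 hq with h3 | h3
  · exact pow_ne_zero n hu.ne_zero h3
  · exact h2 ((dvd_aeval_iff hu q').1 (by rw [h3]; exact dvd_zero u))

theorem domS (hu : Prime u) : IsDomain (SL u) := by
  have h : IsDomain (Localization (Mu u)) := IsLocalization.isDomain_localization (Mu_le hu)
  exact h

theorem io_inj (hu : Prime u) : Function.Injective (io u) := by
  have h : Function.Injective (algebraMap (B3 k) (SL u)) :=
    IsLocalization.injective (SL u) (Mu_le hu)
  exact h

theorem io_unit {q : k[X]} (h : q.eval 0 ≠ 0) : IsUnit (io u (aeval u q)) :=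
  IsLocalization.map_units (SL u) (⟨aeval u q, mem_Mu h⟩ : Mu u)

/-- every element of `S` is `b / q(u)`, `q(0) = 1` -/
theorem exists_mul (z : SL u) : ∃ (q : k[X]) (b : B3 k), q.eval 0 = 1 ∧
    z * io u (aeval u q) = io u b := by
  obtain ⟨⟨b, m⟩, h1⟩ := IsLocalization.surj (Mu u) z
  obtain ⟨q, hq, hm⟩ := m.2
  simp only at h1
  refine ⟨C (q.eval 0)⁻¹ * q, algebraMap k (B3 k) (q.eval 0)⁻¹ * b, ?_, ?_⟩
  · rw [eval_mul, eval_C, inv_mul_cancel₀ hq]
  · rw [map_mul, aeval_C, io_mul, io_mul]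
    have h2 : z * io u (aeval u q) = io u b := by
      rw [← hm]
      exact h1
    rw [← h2]
    ring

theorem dvd_io_iff (hu : Prime u) (n : ℕ) (b : B3 k) : io u u ^ n ∣ io u b ↔ u ^ n ∣ b := by
  constructor
  · rintro ⟨z, hz⟩
    obtain ⟨q, c, hq, h⟩ := exists_mul z
    have h1 : b * aeval u q = u ^ n * c := io_inj hu (by
      rw [io_mul, io_mul, io_pow, hz, ← h]
      ring)
    have h2 : ¬ u ∣ aeval u q := not_dvd_Mu hu (mem_Mu (by rw [hq]; exact one_ne_zero))
    refine hu.pow_dvd_of_dvd_mul_left n h2 ?_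
    rw [mul_comm, h1]
    exact dvd_mul_right _ _
  · rintro ⟨c, rfl⟩
    rw [io_mul, io_pow]
    exact dvd_mul_right _ _

theorem dvd_io_iff_one (hu : Prime u) (b : B3 k) : io u u ∣ io u b ↔ u ∣ b := by
  have h := dvd_io_iff hu 1 b
  rwa [pow_one, pow_one] at h

/-- `u ^ n` divides `b / q(u)` if and only if it divides `b` -/
theorem dvd_iff_of_mul (hu : Prime u) {z : SL u} {q : k[X]} {b : B3 k} (hq : q.eval 0 ≠ 0)
    (h : z * io u (aeval u q) = io u b) (n : ℕ) : io u u ^ n ∣ z ↔ u ^ n ∣ b := by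
  rw [← dvd_io_iff hu, ← h, (io_unit hq).dvd_mul_right]

theorem dvd_iff_of_mul_one (hu : Prime u) {z : SL u} {q : k[X]} {b : B3 k} (hq : q.eval 0 ≠ 0)
    (h : z * io u (aeval u q) = io u b) : io u u ∣ z ↔ u ∣ b := by
  have h1 := dvd_iff_of_mul hu hq h 1
  rwa [pow_one, pow_one] at h1

theorem primeS (hu : Prime u) : Prime (io u u) := by
  refine ⟨fun h => hu.ne_zero (io_inj hu (by rw [h, io_zero])), fun h => ?_,
    fun y z h => ?_⟩
  · obtain ⟨w, hw⟩ := h.exists_right_inv
    have h1 : io u u ∣ io u 1 := ⟨w, by rw [hw, io_one]⟩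
    exact hu.not_isUnit (isUnit_of_dvd_one ((dvd_io_iff_one hu 1).1 h1))
  · obtain ⟨p, b, hp, h1⟩ := exists_mul y
    obtain ⟨q, c, hq, h2⟩ := exists_mul z
    have hp' : p.eval 0 ≠ 0 := by rw [hp]; exact one_ne_zero
    have hq' : q.eval 0 ≠ 0 := by rw [hq]; exact one_ne_zero
    rw [dvd_iff_of_mul_one hu hp' h1, dvd_iff_of_mul_one hu hq' h2]
    have h3 : (y * z) * io u (aeval u (p * q)) = io u (b * c) := by
      rw [map_mul, io_mul, io_mul, ← h1, ← h2]
      ring
    rw [dvd_iff_of_mul_one hu (by rw [eval_mul]; exact mul_ne_zero hp' hq') h3] at h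
    exact hu.dvd_or_dvd h

/-- every element of `S` is an element of `B` modulo `u` -/
theorem res_S (z : SL u) : ∃ b : B3 k, io u u ∣ z - io u b := by
  obtain ⟨q, b, hq, h⟩ := exists_mul z
  refine ⟨b, ⟨-(z * io u (aeval u q.divX)), ?_⟩⟩
  have h1 := congrArg (io u) (aeval_split u q)
  rw [hq, map_one, io_add, io_one, io_mul] at h1
  rw [← h, h1]
  ring

theorem aeval_mem_RR (a : k[X]) : io u (aeval u a) ∈ RR u :=
  ⟨a, 1, by simp, by rw [map_one, io_one, mul_one]⟩

theorem coe_uu : ((uu u : RR u) : SL u) = io u u := rfl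

theorem frS (hu : Prime u) : Fr (RR u) (uu u) where
  prime := primeS hu
  res := by
    rintro ⟨z, a, q, hq, h⟩
    refine ⟨a.eval 0 / q.eval 0, ⟨(io u (aeval u (a - C (a.eval 0 / q.eval 0) * q).divX)) *
      ((io_unit hq).unit⁻¹ : (SL u)ˣ), ?_⟩, ?_⟩
    · refine ⟨(a - C (a.eval 0 / q.eval 0) * q).divX, q, hq, ?_⟩
      rw [mul_assoc, IsUnit.val_inv_mul, mul_one]
    · apply Subtype.ext
      show z = algebraMap k (SL u) _ + io u u * (io u (aeval u _) * _)
      apply (io_unit hq).mul_right_cancel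
      have h1 := aeval_split u (a - C (a.eval 0 / q.eval 0) * q)
      rw [eval_sub, eval_mul, eval_C, div_mul_cancel₀ _ hq, sub_self, map_zero, zero_add, map_sub,
        map_mul, aeval_C] at h1
      have h2 := congrArg (io u) h1
      rw [io_sub, io_mul, io_mul] at h2
      rw [h, add_mul, mul_assoc, mul_assoc, IsUnit.val_inv_mul, mul_one, ← io_alg, ← h2]
      ring
  inv := by
    rintro ⟨z, a, q, hq, h⟩ hz
    have ha : a.eval 0 ≠ 0 := by
      intro h0
      apply hz
      show io u u ∣ z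
      rw [dvd_iff_of_mul_one hu hq h, dvd_aeval_iff hu]
      exact h0
    refine IsUnit.of_mul_eq_one ⟨io u (aeval u q) * ((io_unit ha).unit⁻¹ : (SL u)ˣ),
      q, a, ha, by rw [mul_assoc, IsUnit.val_inv_mul, mul_one]⟩ ?_
    apply Subtype.ext
    show z * (io u (aeval u q) * _) = 1
    rw [← mul_assoc, h]
    exact IsUnit.mul_val_inv _
  sep := by
    intro z hz
    obtain ⟨q, b, hq, h⟩ := exists_mul z
    have hq' : q.eval 0 ≠ 0 := by rw [hq]; exact one_ne_zero
    have hb : b ≠ 0 := by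
      rintro rfl
      rw [io_zero] at h
      exact hz ((io_unit hq').mul_left_eq_zero.1 h)
    obtain ⟨n, hn⟩ := FiniteMultiplicity.of_not_isUnit hu.not_isUnit hb
    refine ⟨n + 1, fun h1 => hn ?_⟩
    exact (dvd_iff_of_mul hu hq' h (n + 1)).1 h1
  sat := by
    have := domS hu
    rintro z ⟨a, q, hq, h⟩
    have h0 : io u u * z * io u (aeval u q) = io u (aeval u a) := h
    have h1 : u ∣ aeval u a := by
      rw [← dvd_io_iff_one hu, ← h0]
      exact ⟨z * io u (aeval u q), by ring⟩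
    rw [dvd_aeval_iff hu] at h1
    refine ⟨a.divX, q, hq, ?_⟩
    apply mul_left_cancel₀ (primeS hu).ne_zero
    rw [← mul_assoc, h0, aeval_split u a, h1, map_zero, zero_add, io_mul]

/-- every element of `S` is an element of `B` times a unit of `R` which is `1` modulo `u` -/
theorem exists_unit_mul (z : SL u) : ∃ (w : RR u) (q : k[X]) (b : B3 k), IsUnit w ∧
    q.eval 0 = 1 ∧ (w : SL u) = io u (aeval u q) ∧ (w : SL u) * z = io u b := by
  obtain ⟨q, b, hq, h⟩ := exists_mul z
  have hq' : q.eval 0 ≠ 0 := by rw [hq]; exact one_ne_zero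
  refine ⟨⟨io u (aeval u q), aeval_mem_RR q⟩, q, b, ?_, hq, rfl, ?_⟩
  · refine IsUnit.of_mul_eq_one ⟨((io_unit hq').unit⁻¹ : (SL u)ˣ), 1, q, hq', ?_⟩ ?_
    · rw [IsUnit.val_inv_mul, map_one, io_one]
    · exact Subtype.ext (IsUnit.mul_val_inv _)
  · show io u (aeval u q) * z = _
    rw [mul_comm, h]

/-! ### extended derivations -/

theorem exS_spec (D : Derivation k (B3 k) (B3 k)) {z : SL u} {m b : B3 k}
    (h : z * io u m = io u b) : exS u D z * io u m = io u (D b) - z * io u (D m) := by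
  have h1 := congrArg (exS u D) h
  rw [Derivation.leibniz, exS_io, exS_io, smul_eq_mul, smul_eq_mul] at h1
  rw [← h1]
  ring

/-- uniqueness of the extension -/
theorem exS_unique (D : Derivation k (B3 k) (B3 k)) (D' : Derivation k (SL u) (SL u))
    (h : ∀ b, D' (io u b) = io u (D b)) (z : SL u) : D' z = exS u D z := by
  obtain ⟨q, b, hq, h1⟩ := exists_mul z
  have hq' : q.eval 0 ≠ 0 := by rw [hq]; exact one_ne_zero
  apply (io_unit (u := u) hq').mul_right_cancel
  rw [exS_spec D h1]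
  have h2 := congrArg D' h1
  rw [Derivation.leibniz, h, h, smul_eq_mul, smul_eq_mul] at h2
  rw [← h2]
  ring

theorem exS_iter_io (D : Derivation k (B3 k) (B3 k)) (n : ℕ) (b : B3 k) :
    (⇑(exS u D))^[n] (io u b) = io u ((⇑D)^[n] b) := by
  induction n generalizing b with
  | zero => rfl
  | succ n ih => rw [Function.iterate_succ_apply, exS_io, ih, Function.iterate_succ_apply]

theorem der_aeval (D : Derivation k (B3 k) (B3 k)) (hD : D u = 0) (q : k[X]) :
    D (aeval u q) = 0 := by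
  induction q using Polynomial.induction_on' with
  | add p q hp hq => rw [map_add, map_add, hp, hq, add_zero]
  | monomial n a =>
    rw [aeval_monomial, Derivation.leibniz, Derivation.leibniz_pow, hD, Derivation.map_algebraMap]
    simp

/-- local nilpotence up to units of `R` -/
theorem exS_nil (E : Derivation k (B3 k) (B3 k)) (hln : ∀ x, ∃ n, (⇑E)^[n] x = 0) (z : SL u) :
    ∃ w : RR u, IsUnit w ∧ ∃ n, (⇑(exS u E))^[n] ((w : SL u) * z) = 0 := by
  obtain ⟨w, q, b, hw, -, -, h⟩ := exists_unit_mul z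
  obtain ⟨n, hn⟩ := hln b
  exact ⟨w, hw, n, by rw [h, exS_iter_io, hn, io_zero]⟩

/-- a derivation which kills `u` kills `R` -/
theorem exS_R (D : Derivation k (B3 k) (B3 k)) (hD : D u = 0) (r : RR u) :
    exS u D (r : SL u) = 0 := by
  obtain ⟨z, a, q, hq, h⟩ := r
  have h1 := exS_spec D h
  rw [der_aeval D hD, der_aeval D hD, io_zero, mul_zero, sub_zero] at h1
  exact (io_unit hq).mul_left_eq_zero.1 h1

theorem exS_smul (D : Derivation k (B3 k) (B3 k)) (hD : D u = 0) (r : RR u) (z : SL u) :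
    exS u D ((r : SL u) * z) = r * exS u D z := by
  rw [Derivation.leibniz, exS_R D hD, smul_zero, add_zero, smul_eq_mul]

theorem exS_iter_smul (D : Derivation k (B3 k) (B3 k)) (hD : D u = 0) (r : RR u) (z : SL u)
    (n : ℕ) : (⇑(exS u D))^[n] ((r : SL u) * z) = r * (⇑(exS u D))^[n] z := by
  induction n generalizing z with
  | zero => rfl
  | succ n ih => rw [Function.iterate_succ_apply, exS_smul D hD, ih, Function.iterate_succ_apply]

/-- the value of the iterates at `b / q(u)` -/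
theorem exS_iter_mul (D : Derivation k (B3 k) (B3 k)) (hD : D u = 0) {z : SL u} {q : k[X]}
    {b : B3 k} (h : z * io u (aeval u q) = io u b) (n : ℕ) :
    (⇑(exS u D))^[n] z * io u (aeval u q) = io u ((⇑D)^[n] b) := by
  rw [← exS_iter_io, ← h, mul_comm z, mul_comm _ (io u (aeval u q))]
  exact (exS_iter_smul D hD ⟨_, aeval_mem_RR q⟩ z n).symm

theorem exS_lnd (D : Derivation k (B3 k) (B3 k)) (hD : D u = 0) (hln : ∀ x, ∃ n, (⇑D)^[n] x = 0)
    (z : SL u) : ∃ n, (⇑(exS u D))^[n] z = 0 := by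
  obtain ⟨w, hw, n, h⟩ := exS_nil D hln z
  rw [exS_iter_smul D hD] at h
  refine ⟨n, ?_⟩
  have hw' : IsUnit (w : SL u) := hw.map (RR u).val
  exact hw'.mul_right_eq_zero.1 h

/-- `D ^ n z = 0` if and only if `D ^ n b = 0`, for `z = b / q(u)` -/
theorem exS_iter_eq_zero (hu : Prime u) (D : Derivation k (B3 k) (B3 k)) (hD : D u = 0)
    {z : SL u} {q : k[X]} {b : B3 k} (hq : q.eval 0 ≠ 0) (h : z * io u (aeval u q) = io u b)
    (n : ℕ) : (⇑(exS u D))^[n] z = 0 ↔ (⇑D)^[n] b = 0 := by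
  have h1 := exS_iter_mul D hD h n
  constructor
  · intro h2
    rw [h2, zero_mul] at h1
    exact io_inj hu (by rw [← h1, io_zero])
  · intro h2
    rw [h2, io_zero] at h1
    exact (io_unit hq).mul_left_eq_zero.1 h1

/-- the kernel of the extension -/
theorem exS_ker (hu : Prime u) (D : Derivation k (B3 k) (B3 k)) (hD : D u = 0) {z : SL u}
    (hz : exS u D z = 0) :
    ∃ (q : k[X]) (b : B3 k), q.eval 0 = 1 ∧ D b = 0 ∧ z * io u (aeval u q) = io u b := by
  obtain ⟨q, b, hq, h⟩ := exists_mul z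
  refine ⟨q, b, hq, ?_, h⟩
  exact (exS_iter_eq_zero hu D hD (by rw [hq]; exact one_ne_zero) h 1).1 hz

/-- the extension over `R` -/
noncomputable def exR (D : Derivation k (B3 k) (B3 k)) (hD : D u = 0) :
    Derivation (RR u) (SL u) (SL u) where
  toFun := exS u D
  map_add' := map_add _
  map_smul' := by
    intro r z
    exact exS_smul D hD r z
  map_one_eq_zero' := (exS u D).map_one_eq_zero
  leibniz' := (exS u D).leibniz

/-- `u` does not divide `D` on `S` if it does not divide it on `B` -/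
theorem exS_ndvd (hu : Prime u) (D : Derivation k (B3 k) (B3 k)) (h : ∃ x, ¬ u ∣ D x) :
    ∃ z : SL u, ¬ io u u ∣ exS u D z := by
  obtain ⟨x, hx⟩ := h
  refine ⟨io u x, ?_⟩
  rw [exS_io, dvd_io_iff_one hu]
  exact hx

theorem exS_dvd (D : Derivation k (B3 k) (B3 k)) (h : ∀ x, u ∣ D x) (z : SL u) :
    io u u ∣ exS u D z := by
  obtain ⟨q, b, hq, h1⟩ := exists_mul z
  have hq' : q.eval 0 ≠ 0 := by rw [hq]; exact one_ne_zero
  rw [← (io_unit (u := u) hq').dvd_mul_right (a := io u u), exS_spec D h1]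
  obtain ⟨c, hc⟩ := h b
  obtain ⟨d, hd⟩ := h (aeval u q)
  refine ⟨io u c - z * io u d, ?_⟩
  rw [hc, hd, io_mul, io_mul]
  ring

end

section

variable {k : Type} [Field k] [CharZero k] [IsAlgClosed k]

theorem fr_of (u : B3 k) (hu : ∀ c : k, Prime (u - MvPolynomial.C c)) : Fr (RR u) (uu u) := by
  have h := hu 0
  rw [map_zero, sub_zero] at h
  exact frS h

end

end Pool.Agent.LNDQ
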