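import Mathlib
import Pool.Agent.LNDQ.BDefs
import Pool.Agent.LNDQ.FiDefs
import Pool.Agent.LNDQ.LocDeg
import Pool.Agent.LNDQ.LocB
import Pool.Agent.LNDQ.FiPoint

set_option autoImplicit false

/-!
# The environment of a datum; adapted elements in `B` near `u` and in `S`
-/

open Polynomial

namespace Pool.Agent.LNDQ

open Pool.Agent.LNDF

namespace FiE

section

variable {k : Type} [Field k] [CharZero k]

variable {u v0 : B3 k} {D : Derivation k (B3 k) (B3 k)} {f : (RR u)[X]} {v x y : SL u} {e : ℕ}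

theorem dat_Du (h : Dat u v0 D f v x y e) : D u = 0 :=
  (h.ker u).2 (Algebra.subset_adjoin (by simp))

theorem der_aeval0 {E : Derivation k (B3 k) (B3 k)} (hE : E u = 0) (q : k[X]) :
    E (aeval u q) = 0 := by
  induction q using Polynomial.induction_on' with
  | add p q hp hq => rw [map_add, map_add, hp, hq, add_zero]
  | monomial i r =>
    rw [aeval_monomial, Derivation.leibniz, Derivation.leibniz_pow, hE,
      Derivation.map_algebraMap]
    simp

theorem dat_exR [IsDomain (SL u)] (h : Dat u v0 D f v x y e) (r : RR u) :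
    exS u D (r : SL u) = 0 := by
  obtain ⟨p, q, hq, hpq⟩ := r.2
  have h1 : IsUnit (io u (aeval u q)) :=
    IsLocalization.map_units (SL u) (⟨aeval u q, q, hq, rfl⟩ : Mu u)
  have h2 := congrArg (exS u D) hpq
  rw [Derivation.leibniz, exS_io, exS_io, der_aeval0 (dat_Du h), der_aeval0 (dat_Du h)] at h2
  simp only [io, map_zero, smul_zero, mul_zero, zero_add, smul_eq_mul] at h2
  exact (mul_eq_zero.1 h2).resolve_left h1.ne_zero

theorem dat_v (h : Dat u v0 D f v x y e) : exS u D v = 0 :=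
  (h.kerS v).2 (Algebra.subset_adjoin rfl)

theorem dat_x (h : Dat u v0 D f v x y e) :
    ∃ w : RR u, IsUnit w ∧ exS u D x = (w : SL u) * ((uu u : RR u) : SL u) ^ e * v := by
  obtain ⟨w, hw, h1⟩ := h.jac
  obtain ⟨w', hw', h2⟩ := h.jD
  refine ⟨w' * w, hw'.mul hw, ?_⟩
  rw [h2, h1, Subalgebra.coe_mul]
  have h3 : ((uu u : RR u) : SL u) = io u u := rfl
  rw [h3]
  ring

theorem dat_u0 [IsDomain (SL u)] (hfr : Fr (RR u) (uu u)) : ((uu u : RR u) : SL u) ≠ 0 :=
  hfr.prime.ne_zero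

theorem dat_dd [IsDomain (SL u)] (hfr : Fr (RR u) (uu u)) (h : Dat u v0 D f v x y e) :
    FiD.DD (RR u) v x (exS u D) := by
  obtain ⟨w, hw, hx⟩ := dat_x h
  have hu0 := dat_u0 hfr
  have hw0 : (w : SL u) ≠ 0 := (hw.map (RR u).val).ne_zero
  have hv0 : v ≠ 0 := by
    rintro rfl
    have h1 : (X : (RR u)[X]) = 0 := FiD.aeval_inj h.pres (by simp)
    exact X_ne_zero h1
  refine ⟨dat_exR h, dat_v h, ?_, ?_⟩
  · rw [hx, Derivation.leibniz, Derivation.leibniz, Derivation.leibniz_pow, dat_v h, dat_exR h,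
      dat_exR h]
    simp
  · rw [hx]
    exact mul_ne_zero (mul_ne_zero hw0 (pow_ne_zero _ hu0)) hv0

theorem dat_env_of [IsDomain (SL u)] (hfr : Fr (RR u) (uu u)) (h : Dat u v0 D f v x y e) :
    Env (RR u) (uu u) f v x y := by
  obtain ⟨w, hw, hx⟩ := dat_x h
  exact ⟨hfr, h.pres, h.kap, FiD.exists_eps hfr h.pres h.kap h.vtr (dat_exR h) (dat_v h) hw hx,
    h.vtr⟩

theorem dat_ker (h : Dat u v0 D f v x y e) (z : SL u) (hz : exS u D z = 0) :
    ∃ a : (RR u)[X], z = aeval v a := by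
  have h1 := (h.kerS z).1 hz
  rw [Algebra.adjoin_singleton_eq_range_aeval] at h1
  obtain ⟨a, ha⟩ := h1
  exact ⟨a, ha.symm⟩

theorem zero_notMem_Mu [IsDomain (SL u)] : (0 : B3 k) ∉ Mu u := by
  intro h0
  have h1 : IsUnit (algebraMap (B3 k) (SL u) 0) :=
    IsLocalization.map_units (SL u) (⟨0, h0⟩ : Mu u)
  rw [map_zero] at h1
  exact not_isUnit_zero h1

/-- Adapted elements near `u` in `B` and adapted elements over the datum. -/
theorem q1r_iff_of [IsDomain (SL u)] (hfr : Fr (RR u) (uu u)) (h : Dat u v0 D f v x y e) :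
    Q1R D u ↔ Q1A (RR u) (uu u) f v x y := by
  have hE := dat_env_of hfr h
  rw [FiD.q1a_iff hfr h.pres h.kap hE.eps (dat_dd hfr h) (dat_ker h)]
  have hM : ∀ m ∈ Mu u, D m = 0 := by
    rintro m ⟨q, -, rfl⟩
    exact der_aeval0 (dat_Du h) q
  have key : ∀ (n : ℕ) (c : B3 k), IsCC D n c →
      ((∃ (q : k[X]) (x : B3 k), q.eval 0 ≠ 0 ∧ (⇑D)^[n] x = aeval u q * c) ↔
      ∃ z, (⇑(exS u D))^[n + 1] z = 0 ∧ (⇑(exS u D))^[n] z ≠ 0 ∧
        ∀ z', (⇑(exS u D))^[n + 1] z' = 0 → (⇑(exS u D))^[n] z ∣ (⇑(exS u D))^[n] z') := by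
    intro n c hc
    rw [← adp_iff (S := SL u) (Mu u) h.ln (exS_io u D) hM zero_notMem_Mu hc]
    constructor
    · rintro ⟨q, x, hq, hx⟩
      exact ⟨aeval u q, ⟨q, hq, rfl⟩, x, hx⟩
    · rintro ⟨m, ⟨q, hq, rfl⟩, x, hx⟩
      exact ⟨q, x, hq, hx⟩
  constructor
  · intro hQ n
    obtain ⟨c, hc⟩ := exists_cc D h.ne h.ln n
    exact (key n c hc).1 (hQ n c hc)
  · intro hA n c hc
    exact (key n c hc).2 (hA n)

end

end FiE

section

variable {k : Type} [Field k] [CharZero k]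

variable {u v0 : B3 k} {D : Derivation k (B3 k) (B3 k)} {f : (RR u)[X]} {v x y : SL u} {e : ℕ}

/-- the derivation of a datum -/
theorem dat_dd (h : Dat u v0 D f v x y e) : FiD.DD (RR u) v x (exS u D) := by
  have hu := dat_prime_u h
  have hdom := domS hu
  exact FiE.dat_dd (frS hu) h

/-- the environment of a datum -/
theorem dat_env (h : Dat u v0 D f v x y e) : Env (RR u) (uu u) f v x y := by
  have hu := dat_prime_u h
  have hdom := domS hu
  exact FiE.dat_env_of (frS hu) h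

/-- FI3a: `Q1R` of `D` is the existence of adapted elements in `S` -/
theorem q1r_iff (h : Dat u v0 D f v x y e) : Q1R D u ↔ Q1A (RR u) (uu u) f v x y := by
  have hu := dat_prime_u h
  have hdom := domS hu
  exact FiE.q1r_iff_of (frS hu) h

end

end Pool.Agent.LNDQ
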