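import Mathlib
import Pool.Agent.LNDHom.Gr

set_option autoImplicit false

open MvPolynomial

namespace Pool.Agent.LNDQ

section ind

variable {k A : Type} [Field k] [CommRing A] [IsDomain A] [Algebra k A]

omit [IsDomain A] in
theorem kr_ind_iff (u F : A) : AlgebraicIndependent k ![u, F] ↔
    Transcendental k u ∧ Transcendental (Algebra.adjoin k {u}) F := by
  rw [AlgebraicIndependent.iff_transcendental_adjoin_image (x := ![u, F]) 1]
  have h1 : (![u, F] '' {(1 : Fin 2)}ᶜ) = {u} := by
    ext z
    simp only [Set.mem_image, Set.mem_compl_iff, Set.mem_singleton_iff]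
    constructor
    · rintro ⟨i, hi, rfl⟩
      fin_cases i
      · rfl
      · exact absurd rfl hi
    · rintro rfl
      exact ⟨0, by simp, rfl⟩
  rw [h1]
  have : Subsingleton {j : Fin 2 // j ≠ 1} := ⟨by
    rintro ⟨i, hi⟩ ⟨j, hj⟩
    apply Subtype.ext
    show i = j
    fin_cases i <;> fin_cases j
    · rfl
    · exact absurd rfl hj
    · exact absurd rfl hi
    · rfl⟩
  rw [algebraicIndependent_singleton_iff (⟨0, by simp⟩ : {j : Fin 2 // j ≠ 1})]
  rfl

theorem kr_ind_of_eq {u F F' : A} (a b : Algebra.adjoin k {u}) (h : F = a + b * F')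
    (hi : AlgebraicIndependent k ![u, F]) : AlgebraicIndependent k ![u, F'] := by
  rw [kr_ind_iff] at hi ⊢
  refine ⟨hi.1, fun hF => hi.2 ?_⟩
  have h1 : IsAlgebraic (Algebra.adjoin k {u}) ((a : A)) :=
    isAlgebraic_algebraMap (R := Algebra.adjoin k {u}) (A := A) a
  have h2 : IsAlgebraic (Algebra.adjoin k {u}) ((b : A)) :=
    isAlgebraic_algebraMap (R := Algebra.adjoin k {u}) (A := A) b
  rw [h]
  exact h1.add (h2.mul hF)

end ind

section adj

variable {k A : Type} [Field k] [CommRing A] [IsDomain A] [Algebra k A]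

omit [IsDomain A] in
theorem kr_decomp (u F : A) (lam : k) {b : A} (hb : b ∈ Algebra.adjoin k {u, F}) :
    ∃ b' ∈ Algebra.adjoin k {u, F}, ∃ p : Polynomial k,
      b = (u - algebraMap k A lam) * b' + Polynomial.aeval F p := by
  induction hb using Algebra.adjoin_induction with
  | mem x hx =>
    rcases hx with rfl | hx
    · refine ⟨1, Subalgebra.one_mem _, Polynomial.C lam, ?_⟩
      simp
    · rw [Set.mem_singleton_iff] at hx
      subst hx
      exact ⟨0, Subalgebra.zero_mem _, Polynomial.X, by simp⟩
  | algebraMap r => exact ⟨0, Subalgebra.zero_mem _, Polynomial.C r, by simp⟩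
  | add x y _ _ hx hy =>
    obtain ⟨b1, h1, p1, e1⟩ := hx
    obtain ⟨b2, h2, p2, e2⟩ := hy
    refine ⟨b1 + b2, Subalgebra.add_mem _ h1 h2, p1 + p2, ?_⟩
    rw [map_add]
    linear_combination e1 + e2
  | mul x y hx' hy' hx hy =>
    obtain ⟨b1, h1, p1, e1⟩ := hx
    obtain ⟨b2, h2, p2, e2⟩ := hy
    have hF : F ∈ Algebra.adjoin k {u, F} := Algebra.subset_adjoin (by simp)
    have hp1 : Polynomial.aeval F p1 ∈ Algebra.adjoin k {u, F} :=
      Algebra.adjoin_mono (by simp) (Polynomial.aeval_mem_adjoin_singleton k F)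
    refine ⟨b1 * y + Polynomial.aeval F p1 * b2, Subalgebra.add_mem _
      (Subalgebra.mul_mem _ h1 hy') (Subalgebra.mul_mem _ hp1 h2), p1 * p2, ?_⟩
    rw [map_mul]
    linear_combination y * e1 + Polynomial.aeval F p1 * e2

omit [IsDomain A] in
theorem kr_clear {u F F' : A} (c lam : k)
    (h : F - algebraMap k A c = (u - algebraMap k A lam) * F') {b : A}
    (hb : b ∈ Algebra.adjoin k {u, F'}) :
    ∃ M : ℕ, (u - algebraMap k A lam) ^ M * b ∈ Algebra.adjoin k {u, F} := by
  have hu : u - algebraMap k A lam ∈ Algebra.adjoin k {u, F} :=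
    Subalgebra.sub_mem _ (Algebra.subset_adjoin (by simp)) (Subalgebra.algebraMap_mem _ _)
  induction hb using Algebra.adjoin_induction with
  | mem x hx =>
    rcases hx with rfl | hx
    · exact ⟨0, by rw [pow_zero, one_mul]; exact Algebra.subset_adjoin (by simp)⟩
    · rw [Set.mem_singleton_iff] at hx
      subst hx
      refine ⟨1, ?_⟩
      rw [pow_one, ← h]
      exact Subalgebra.sub_mem _ (Algebra.subset_adjoin (by simp)) (Subalgebra.algebraMap_mem _ _)
  | algebraMap r => exact ⟨0, by rw [pow_zero, one_mul]; exact Subalgebra.algebraMap_mem _ _⟩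
  | add x y _ _ hx hy =>
    obtain ⟨M, hM⟩ := hx
    obtain ⟨M', hM'⟩ := hy
    refine ⟨M + M', ?_⟩
    have e : (u - algebraMap k A lam) ^ (M + M') * (x + y) =
        (u - algebraMap k A lam) ^ M' * ((u - algebraMap k A lam) ^ M * x) +
        (u - algebraMap k A lam) ^ M * ((u - algebraMap k A lam) ^ M' * y) := by ring
    rw [e]
    exact Subalgebra.add_mem _ (Subalgebra.mul_mem _ (Subalgebra.pow_mem _ hu _) hM)
      (Subalgebra.mul_mem _ (Subalgebra.pow_mem _ hu _) hM')
  | mul x y _ _ hx hy =>
    obtain ⟨M, hM⟩ := hx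
    obtain ⟨M', hM'⟩ := hy
    refine ⟨M + M', ?_⟩
    have e : (u - algebraMap k A lam) ^ (M + M') * (x * y) =
        ((u - algebraMap k A lam) ^ M * x) * ((u - algebraMap k A lam) ^ M' * y) := by ring
    rw [e]
    exact Subalgebra.mul_mem _ hM hM'

omit [IsDomain A] in
theorem kr_le {u F F' : A} (c lam : k)
    (h : F - algebraMap k A c = (u - algebraMap k A lam) * F') :
    Algebra.adjoin k {u, F} ≤ Algebra.adjoin k {u, F'} := by
  refine Algebra.adjoin_le ?_
  rintro x (rfl | hx)
  · exact Algebra.subset_adjoin (by simp)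
  · rw [Set.mem_singleton_iff] at hx
    subst hx
    have e : x = (u - algebraMap k A lam) * F' + algebraMap k A c := by rw [← h]; ring
    rw [e]
    exact Subalgebra.add_mem _ (Subalgebra.mul_mem _ (Subalgebra.sub_mem _
      (Algebra.subset_adjoin (by simp)) (Subalgebra.algebraMap_mem _ _))
      (Algebra.subset_adjoin (by simp))) (Subalgebra.algebraMap_mem _ _)

/-- If no `F - c` is divisible by a prime `u - lam`, then `k[u, F]` is closed under division by
polynomials in `u`. -/
theorem kr_div [IsAlgClosed k] {u F : A} (hu : ∀ lam : k, Prime (u - algebraMap k A lam))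
    (hN : ∀ lam c : k, ¬ (u - algebraMap k A lam) ∣ F - algebraMap k A c) :
    ∀ (n : ℕ) (s : Polynomial k) (a : A), s.natDegree = n → s ≠ 0 →
      Polynomial.aeval u s * a ∈ Algebra.adjoin k {u, F} → a ∈ Algebra.adjoin k {u, F} := by
  have hp : ∀ (lam : k) (m : ℕ) (p : Polynomial k), p.natDegree = m → p ≠ 0 →
      ¬ (u - algebraMap k A lam) ∣ Polynomial.aeval F p := by
    intro lam m
    induction m with
    | zero =>
      intro p hp hp0 hd
      rw [Polynomial.eq_C_of_natDegree_eq_zero hp, Polynomial.aeval_C] at hd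
      have h1 : p.coeff 0 ≠ 0 := by
        intro h
        exact hp0 (by rw [Polynomial.eq_C_of_natDegree_eq_zero hp, h, map_zero])
      exact (hu lam).not_isUnit (isUnit_of_dvd_unit hd ((IsUnit.mk0 _ h1).map (algebraMap k A)))
    | succ m ih =>
      intro p hp hp0 hd
      obtain ⟨c, hc⟩ := IsAlgClosed.exists_root p (by
        rw [Polynomial.degree_eq_natDegree hp0, hp]
        exact_mod_cast Nat.succ_ne_zero m)
      obtain ⟨q, rfl⟩ := Polynomial.dvd_iff_isRoot.2 hc
      have hq0 : q ≠ 0 := right_ne_zero_of_mul hp0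
      rw [map_mul] at hd
      rcases (hu lam).dvd_or_dvd hd with h | h
      · refine hN lam c ?_
        simpa using h
      · refine ih q ?_ hq0 h
        rw [Polynomial.natDegree_mul (Polynomial.X_sub_C_ne_zero c) hq0,
          Polynomial.natDegree_X_sub_C] at hp
        omega
  intro n
  induction n with
  | zero =>
    intro s a hs hs0 ha
    rw [Polynomial.eq_C_of_natDegree_eq_zero hs, Polynomial.aeval_C] at ha
    have h1 : s.coeff 0 ≠ 0 := by
      intro h
      exact hs0 (by rw [Polynomial.eq_C_of_natDegree_eq_zero hs, h, map_zero])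
    have e : a = algebraMap k A (s.coeff 0)⁻¹ * (algebraMap k A (s.coeff 0) * a) := by
      rw [← mul_assoc, ← map_mul, inv_mul_cancel₀ h1, map_one, one_mul]
    rw [e]
    exact Subalgebra.mul_mem _ (Subalgebra.algebraMap_mem _ _) ha
  | succ n ih =>
    intro s a hs hs0 ha
    obtain ⟨lam, hc⟩ := IsAlgClosed.exists_root s (by
      rw [Polynomial.degree_eq_natDegree hs0, hs]
      exact_mod_cast Nat.succ_ne_zero n)
    obtain ⟨q, rfl⟩ := Polynomial.dvd_iff_isRoot.2 hc
    have hq0 : q ≠ 0 := right_ne_zero_of_mul hs0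
    have hqd : q.natDegree = n := by
      rw [Polynomial.natDegree_mul (Polynomial.X_sub_C_ne_zero lam) hq0,
        Polynomial.natDegree_X_sub_C] at hs
      omega
    refine ih q a hqd hq0 ?_
    obtain ⟨b', hb', p, e⟩ := kr_decomp u F lam ha
    have e2 : Polynomial.aeval u (Polynomial.X - Polynomial.C lam) = u - algebraMap k A lam := by
      simp
    rw [map_mul, e2] at e
    have hd : (u - algebraMap k A lam) ∣ Polynomial.aeval F p :=
      ⟨Polynomial.aeval u q * a - b', by linear_combination -e⟩
    have hp0 : p = 0 := by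
      by_contra h
      exact hp lam _ p rfl h hd
    rw [hp0, map_zero, add_zero, mul_assoc] at e
    rw [mul_left_cancel₀ (hu lam).ne_zero e]
    exact hb'

end adj

variable {k : Type} [Field k] [CharZero k] [IsAlgClosed k]

/-- The kernel of a locally nilpotent derivation which kills `u` (all `u - lam` prime) and is generated by
`F` over `k(u)` is a polynomial ring `k[u, w]`; if `F` is not constant modulo `u`, then `w` and `F` generate
the same ring over the local ring of `k[u]` at `u = 0`. -/
theorem kern (D : Derivation k (MvPolynomial (Fin 3) k) (MvPolynomial (Fin 3) k))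
    (hln : ∀ b : MvPolynomial (Fin 3) k, ∃ m : ℕ, (⇑D)^[m] b = 0) (u : MvPolynomial (Fin 3) k)
    (hu : ∀ lam : k, Prime (u - C lam)) (hDu : D u = 0) :
    ∀ (n : ℕ) (F : MvPolynomial (Fin 3) k), F.totalDegree = n → D F = 0 →
    AlgebraicIndependent k ![u, F] →
    (∀ a, D a = 0 → ∃ s : Polynomial k, s ≠ 0 ∧
      Polynomial.aeval u s * a ∈ Algebra.adjoin k {u, F}) →
    ∃ w, AlgebraicIndependent k ![u, w] ∧ (∀ b, D b = 0 ↔ b ∈ Algebra.adjoin k {u, w}) ∧
      ∃ s : Polynomial k, s ≠ 0 ∧ Polynomial.aeval u s * w ∈ Algebra.adjoin k {u, F} ∧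
        ((∀ c : k, ¬ u ∣ F - C c) → s.eval 0 ≠ 0 ∧ ∀ c : k, ¬ u ∣ w - C c) := by
  intro n
  induction n using Nat.strong_induction_on with
  | _ n ih =>
  intro F hn hDF hind hF
  by_cases hN : ∀ lam c : k, ¬ (u - C lam) ∣ F - C c
  · refine ⟨F, hind, fun b => ⟨fun hb => ?_, fun hb => ?_⟩, 1, one_ne_zero, ?_, fun h => ⟨?_, h⟩⟩
    · obtain ⟨s, hs0, hs⟩ := hF b hb
      exact kr_div hu hN _ s b rfl hs0 hs
    · induction hb using Algebra.adjoin_induction with
      | mem x hx =>
        rcases hx with rfl | hx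
        · exact hDu
        · rw [Set.mem_singleton_iff] at hx
          rw [hx, hDF]
      | algebraMap r => exact D.map_algebraMap r
      | add x y _ _ hx hy => rw [map_add, hx, hy, add_zero]
      | mul x y _ _ hx hy => rw [D.leibniz, hx, hy, smul_zero, smul_zero, add_zero]
    · rw [map_one, one_mul]
      exact Algebra.subset_adjoin (by simp)
    · rw [Polynomial.eval_one]
      exact one_ne_zero
  · push Not at hN
    obtain ⟨lam, c, F', hF'⟩ := hN
    have hul : u - C lam ≠ 0 := (hu lam).ne_zero
    have hFc : F - C c ≠ 0 := by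
      intro h
      have h1 : F = C c := sub_eq_zero.1 h
      have h2 := ((kr_ind_iff u F).1 hind).2
      refine h2 ?_
      rw [h1]
      exact isAlgebraic_algebraMap (R := Algebra.adjoin k {u}) (A := MvPolynomial (Fin 3) k)
        (algebraMap k _ c)
    have hF0 : F' ≠ 0 := by
      rintro rfl
      exact hFc (by rw [hF', mul_zero])
    have hudeg : 0 < (u - C lam).totalDegree := by
      rcases Nat.eq_zero_or_pos (u - C lam).totalDegree with h | h
      · exfalso
        rw [totalDegree_eq_zero_iff_eq_C] at h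
        refine (hu lam).not_isUnit ?_
        rw [h]
        refine (IsUnit.mk0 _ ?_).map C
        intro h0
        exact hul (by rw [h, h0, C_0])
      · exact h
    have hdeg : F'.totalDegree < n := by
      have h1 : (F - C c).totalDegree = (u - C lam).totalDegree + F'.totalDegree := by
        rw [hF', totalDegree_mul_of_isDomain hul hF0]
      have h2 : (F - C c).totalDegree ≤ F.totalDegree := by
        refine (totalDegree_sub _ _).trans ?_
        rw [totalDegree_C]
        simp
      omega
    have hDF' : D F' = 0 := by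
      have h1 : D ((u - C lam) * F') = 0 := by
        rw [← hF', map_sub, hDF]
        have : D (C c) = 0 := D.map_algebraMap c
        rw [this, sub_zero]
      rw [mul_comm] at h1
      exact LNDHom.fact_closed D hln F' _ h1 (mul_ne_zero hF0 hul)
    have hFe : F - algebraMap k _ c = (u - algebraMap k _ lam) * F' := hF'
    have hsub := kr_le c lam hFe
    have hind' : AlgebraicIndependent k ![u, F'] := by
      refine kr_ind_of_eq (algebraMap k _ c)
        (⟨u, Algebra.subset_adjoin (by simp)⟩ - algebraMap k _ lam) ?_ hind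
      show F = C c + (u - C lam) * F'
      rw [← hF']
      ring
    obtain ⟨w, hw1, hw2, s, hs0, hs1, hs2⟩ := ih _ hdeg F' rfl hDF' hind' (fun a ha => by
      obtain ⟨s, hs0, hs⟩ := hF a ha
      exact ⟨s, hs0, hsub hs⟩)
    obtain ⟨M, hM⟩ := kr_clear c lam hFe hs1
    refine ⟨w, hw1, hw2, (Polynomial.X - Polynomial.C lam) ^ M * s,
      mul_ne_zero (pow_ne_zero _ (Polynomial.X_sub_C_ne_zero lam)) hs0, ?_, fun h => ?_⟩
    · have e : Polynomial.aeval u ((Polynomial.X - Polynomial.C lam) ^ M * s) * w =
          (u - algebraMap k _ lam) ^ M * (Polynomial.aeval u s * w) := by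
        rw [map_mul, map_pow, map_sub, Polynomial.aeval_X, Polynomial.aeval_C]
        ring
      rw [e]
      exact hM
    · have hlam : lam ≠ 0 := by
        rintro rfl
        refine h c ⟨F', ?_⟩
        rw [hF', C_0, sub_zero]
      obtain ⟨h1, h2⟩ := hs2 (fun c' hc' => by
        obtain ⟨y, hy⟩ := hc'
        refine h (c - lam * c') ⟨F' - C lam * y, ?_⟩
        have hy' : F' = C c' + u * y := by rw [← hy]; ring
        rw [C_sub, C_mul]
        have : F = C c + (u - C lam) * F' := by rw [← hF']; ring
        rw [this]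
        linear_combination (-C lam) * hy)
      refine ⟨?_, h2⟩
      rw [Polynomial.eval_mul, Polynomial.eval_pow]
      refine mul_ne_zero (pow_ne_zero _ ?_) h1
      simpa using hlam

end Pool.Agent.LNDQ
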