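import Mathlib
import Pool.Agent.LNDQ.FiDefs
import Pool.Agent.LNDQ.Kern

set_option autoImplicit false

open Polynomial

namespace Pool.Agent.LNDQ

open Pool.Agent.LNDHom Pool.Agent.LNDF Pool.Agent.LNDT

section ideal

variable {R S : Type*} [CommRing R] [IsDomain R] [UniqueFactorizationMonoid R] [CommRing S] [IsDomain S]
  [IsPrincipalIdealRing S] [Algebra R S]

/-- a nonzero ideal of a factorial ring which is contained in no principal prime meets `M`, if the
localization at `M` is a principal ideal domain -/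
theorem exists_mem_of_local (M : Submonoid R) [IsLocalization M S] (hM : (0 : R) ∉ M) (I : Ideal R)
    (h0 : I ≠ ⊥) (hI : ∀ p : R, Prime p → ∃ a ∈ I, ¬ p ∣ a) : ∃ s ∈ M, s ∈ I := by
  by_contra hcon
  push Not at hcon
  have hdis : Disjoint (M : Set R) (I : Set R) := Set.disjoint_left.2 hcon
  have hne : I.map (algebraMap R S) ≠ ⊤ := by
    rwa [IsLocalization.map_algebraMap_ne_top_iff_disjoint M]
  obtain ⟨n, hn, hIn⟩ := Ideal.exists_le_maximal _ hne
  have hnp := hn.isPrime
  have hIP : I ≤ n.under R := Ideal.map_le_iff_le_comap.1 hIn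
  have hPp : (n.under R).IsPrime ∧ Disjoint (M : Set R) (n.under R : Set R) :=
    (IsLocalization.isPrime_iff_isPrime_disjoint M S n).1 hnp
  have hP0 : n.under R ≠ ⊥ := fun h => h0 (le_bot_iff.1 (h ▸ hIP))
  obtain ⟨p, hpP, hp⟩ := hPp.1.exists_mem_prime_of_ne_bot hP0
  have hsp : (Ideal.span {p}).IsPrime := (Ideal.span_singleton_prime hp.ne_zero).2 hp
  have hle : Ideal.span {p} ≤ n.under R := (Ideal.span_singleton_le_iff_mem _).2 hpP
  have hsd : Disjoint (M : Set R) (Ideal.span {p} : Set R) := hPp.2.mono_right hle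
  have hmap : ((Ideal.span {p}).map (algebraMap R S)).IsPrime :=
    IsLocalization.isPrime_of_isPrime_disjoint M S _ hsp hsd
  have hinj : Function.Injective (algebraMap R S) :=
    IsLocalization.injective S (le_nonZeroDivisors_of_noZeroDivisors hM)
  have hmap0 : (Ideal.span {p}).map (algebraMap R S) ≠ ⊥ := by
    rw [Ne, Ideal.map_eq_bot_iff_of_injective hinj, Ideal.span_singleton_eq_bot]
    exact hp.ne_zero
  have hmax : ((Ideal.span {p}).map (algebraMap R S)).IsMaximal := IsPrime.to_maximal_ideal hmap0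
  have heq : (Ideal.span {p}).map (algebraMap R S) = n :=
    hmax.eq_of_le hn.ne_top (Ideal.map_le_iff_le_comap.2 hle)
  have hPe : n.under R = Ideal.span {p} := by
    rw [← heq, IsLocalization.under_map_of_isPrime_disjoint M S hsp hsd]
  obtain ⟨a, ha, hpa⟩ := hI p hp
  exact hpa (Ideal.mem_span_singleton.1 (hPe ▸ hIP ha))

end ideal

attribute [local instance] Polynomial.algebra in
/-- an ideal of `k[X][Y]` contained in no principal prime contains a nonzero polynomial in `X` -/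
theorem exists_C_mem {k : Type} [Field k] (I : Ideal k[X][X]) (h0 : I ≠ ⊥)
    (hI : ∀ p : k[X][X], Prime p → ∃ a ∈ I, ¬ p ∣ a) : ∃ q : k[X], q ≠ 0 ∧ C q ∈ I := by
  have := Polynomial.isLocalization (nonZeroDivisors k[X]) (FractionRing k[X])
  obtain ⟨s, hs, hsI⟩ := exists_mem_of_local (S := (FractionRing k[X])[X])
    ((nonZeroDivisors k[X]).map (C : k[X] →+* k[X][X])) (by
      rintro ⟨q, hq, hq0⟩
      exact nonZeroDivisors.ne_zero hq (C_eq_zero.1 hq0)) I h0 hI
  obtain ⟨q, hq, rfl⟩ := hs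
  exact ⟨q, nonZeroDivisors.ne_zero hq, hsI⟩

/-- FI4a: from the maximal ideals containing `u` to `Q1R` -/
theorem q1r_of_local {k : Type} [Field k] [CharZero k] {D : Derivation k (B3 k) (B3 k)} {u v0 : B3 k}
    (h : KD D u v0) {n : ℕ} {c : B3 k} (hc : IsCC D n c)
    (hloc : ∀ m : Ideal (kerAlg D), m.IsMaximal → (∀ a : kerAlg D, (a : B3 k) = u → a ∈ m) →
      ∃ (a : kerAlg D) (x : B3 k), a ∉ m ∧ (⇑D)^[n + 1] x = 0 ∧ (⇑D)^[n] x = a * c) :
    ∃ (q : k[X]) (x : B3 k), q.eval 0 ≠ 0 ∧ (⇑D)^[n] x = aeval u q * c := by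
  have hconst : ∀ a x : B3 k, D a = 0 → (⇑D)^[n] (a * x) = a * (⇑D)^[n] x :=
    fun a x ha => chG_iter_mul D ha x n
  have hadd : ∀ x y : B3 k, (⇑D)^[n] (x + y) = (⇑D)^[n] x + (⇑D)^[n] y := chG_iter_add D n
  have hDu : D u = 0 := (h.ker u).2 (Algebra.subset_adjoin (by simp))
  have hDv : D v0 = 0 := (h.ker v0).2 (Algebra.subset_adjoin (by simp))
  -- the ideal in the kernel
  let I : Ideal (kerAlg D) :=
    { carrier := {a | ∃ x, (⇑D)^[n] x = (a : B3 k) * c}
      add_mem' := by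
        rintro a b ⟨x, hx⟩ ⟨y, hy⟩
        refine ⟨x + y, ?_⟩
        rw [hadd, hx, hy, Subalgebra.coe_add, add_mul]
      zero_mem' := ⟨0, by
        rw [Subalgebra.coe_zero, zero_mul]
        have := hconst 0 0 (map_zero _)
        rw [zero_mul, zero_mul] at this
        exact this⟩
      smul_mem' := by
        rintro c a ⟨x, hx⟩
        refine ⟨(c : B3 k) * x, ?_⟩
        rw [hconst _ _ c.2, hx, smul_eq_mul, Subalgebra.coe_mul, mul_assoc] }
  let uu : kerAlg D := ⟨u, hDu⟩
  -- the ring `k[X][Y]`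
  let φ : k[X][X] →+* B3 k := Polynomial.eval₂RingHom (Polynomial.aeval u : k[X] →ₐ[k] B3 k).toRingHom v0
  have hφC : ∀ q : k[X], φ (C q) = aeval u q := fun q => by
    show Polynomial.eval₂ _ _ (C q) = _
    rw [Polynomial.eval₂_C]; rfl
  have hφX : φ X = v0 := by
    show Polynomial.eval₂ _ _ X = _
    rw [Polynomial.eval₂_X]
  have hDφ : ∀ F, D (φ F) = 0 := by
    intro F
    have : φ F ∈ Algebra.adjoin k {u, v0} := by
      induction F using Polynomial.induction_on' with
      | add p q hp hq => rw [map_add]; exact Subalgebra.add_mem _ hp hq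
      | monomial i a =>
        rw [← Polynomial.C_mul_X_pow_eq_monomial, map_mul, map_pow, hφC, hφX]
        exact Subalgebra.mul_mem _ (Algebra.adjoin_mono (by simp)
          (Polynomial.aeval_mem_adjoin_singleton k u)) (Subalgebra.pow_mem _
          (Algebra.subset_adjoin (by simp)) _)
    exact (h.ker _).2 this
  have hsurj : ∀ b, D b = 0 → ∃ F, φ F = b := by
    intro b hb
    have hb' := (h.ker b).1 hb
    induction hb' using Algebra.adjoin_induction with
    | mem x hx =>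
      rcases hx with rfl | hx
      · exact ⟨C X, by rw [hφC, aeval_X]⟩
      · rw [Set.mem_singleton_iff] at hx
        exact ⟨X, by rw [hφX, hx]⟩
    | algebraMap r => exact ⟨C (C r), by rw [hφC, aeval_C]⟩
    | add x y hx' hy' hx hy =>
      obtain ⟨F, hF⟩ := hx ((h.ker x).2 hx')
      obtain ⟨G, hG⟩ := hy ((h.ker y).2 hy')
      exact ⟨F + G, by rw [map_add, hF, hG]⟩
    | mul x y hx' hy' hx hy =>
      obtain ⟨F, hF⟩ := hx ((h.ker x).2 hx')
      obtain ⟨G, hG⟩ := hy ((h.ker y).2 hy')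
      exact ⟨F * G, by rw [map_mul, hF, hG]⟩
  have hinj : Function.Injective φ := by
    rw [injective_iff_map_eq_zero]
    intro F hF
    obtain ⟨hu, hv⟩ := (kr_ind_iff u v0).1 h.ind
    let ψ : k[X] →+* Algebra.adjoin k {u} :=
      ((aeval (⟨u, Algebra.subset_adjoin rfl⟩ : Algebra.adjoin k {u}) :
        k[X] →ₐ[k] Algebra.adjoin k {u})).toRingHom
    have hψ : ∀ q : k[X], ((ψ q : Algebra.adjoin k {u}) : B3 k) = aeval u q := fun q =>
      (Polynomial.aeval_algHom_apply (Algebra.adjoin k {u}).val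
        (⟨u, Algebra.subset_adjoin rfl⟩ : Algebra.adjoin k {u}) q).symm
    have h1 : aeval v0 (F.map ψ) = 0 := by
      rw [← hF, aeval_def, eval₂_map]
      show _ = eval₂ _ _ F
      congr 1
      refine Polynomial.ringHom_ext (fun q => ?_) ?_
      · exact hψ (C q)
      · exact hψ X
    have h2 : F.map ψ = 0 := by
      by_contra hne
      exact hv ⟨F.map ψ, hne, h1⟩
    ext1 i
    have h3 : aeval u (F.coeff i) = 0 := by
      rw [← hψ, ← coeff_map, h2, coeff_zero]
      rfl
    rw [coeff_zero]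
    by_contra hne
    exact hu ⟨F.coeff i, hne, h3⟩
  -- step 1: an element `1 - u b` in `I`
  have s1 : ∃ b : kerAlg D, 1 - uu * b ∈ I := by
    have htop : I ⊔ Ideal.span {uu} = ⊤ := by
      by_contra hne
      obtain ⟨m, hm, hIm⟩ := Ideal.exists_le_maximal _ hne
      obtain ⟨a, x, ha, -, hx⟩ := hloc m hm (by
        intro a ha
        have : a = uu := Subtype.ext ha
        rw [this]
        exact hIm (Ideal.mem_sup_right (Ideal.mem_span_singleton_self uu)))
      exact ha (hIm (Ideal.mem_sup_left ⟨x, hx⟩))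
    have h1 : (1 : kerAlg D) ∈ I ⊔ Ideal.span {uu} := by rw [htop]; exact Submodule.mem_top
    obtain ⟨a, ha, b, hb, hab⟩ := Submodule.mem_sup.1 h1
    obtain ⟨b', rfl⟩ := Ideal.mem_span_singleton.1 hb
    exact ⟨b', by rw [← hab, add_sub_cancel_right]; exact ha⟩
  -- step 2: some `q(u)` in `I`
  let J : Ideal k[X][X] :=
    { carrier := {F | ∃ x, (⇑D)^[n] x = φ F * c}
      add_mem' := by
        rintro a b ⟨x, hx⟩ ⟨y, hy⟩
        exact ⟨x + y, by rw [hadd, hx, hy, map_add, add_mul]⟩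
      zero_mem' := ⟨0, by
        rw [map_zero, zero_mul]
        have := hconst 0 0 (map_zero _)
        rw [zero_mul, zero_mul] at this
        exact this⟩
      smul_mem' := by
        rintro c a ⟨x, hx⟩
        exact ⟨φ c * x, by rw [hconst _ _ (hDφ c), hx, smul_eq_mul, map_mul, mul_assoc]⟩ }
  have hJ : ∀ x, (⇑D)^[n + 1] x = 0 → ∃ F ∈ J, (⇑D)^[n] x = φ F * c := by
    intro x hx
    obtain ⟨a, ha⟩ := hc.dvd x hx
    have hDa : D a = 0 := by
      have h1 : D (c * a) = 0 := by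
        rw [← ha, ← Function.iterate_succ_apply' (⇑D) n x]
        exact hx
      rw [Derivation.leibniz, hc.const, smul_zero, add_zero, smul_eq_mul] at h1
      exact (mul_eq_zero.1 h1).resolve_left hc.ne
    obtain ⟨F, rfl⟩ := hsurj a hDa
    exact ⟨F, ⟨x, by rw [ha, mul_comm]⟩, by rw [ha, mul_comm]⟩
  have hprime : ∀ p : k[X][X], Prime p → Prime (φ p) := by
    intro p hp
    have hp0 : φ p ≠ 0 := fun h0 => hp.ne_zero (hinj (by rw [h0, map_zero]))
    rw [← UniqueFactorizationMonoid.irreducible_iff_prime]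
    refine ⟨fun hun => ?_, fun a b hab => ?_⟩
    · obtain ⟨w, hw⟩ := hun.exists_right_inv
      have h1 := (const_dvd (D := D) h.ln (a := φ p) (b := w) (by rw [hw]; exact D.map_one_eq_zero)
        (by rw [hw]; exact one_ne_zero)).2
      obtain ⟨F, hF⟩ := hsurj w h1
      refine hp.not_isUnit (IsUnit.of_mul_eq_one F (hinj ?_))
      rw [map_mul, hF, hw, map_one]
    · have h1 := const_dvd (D := D) h.ln (a := a) (b := b) (by rw [← hab]; exact hDφ p)
        (by rw [← hab]; exact hp0)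
      obtain ⟨F, rfl⟩ := hsurj a h1.1
      obtain ⟨G, rfl⟩ := hsurj b h1.2
      have h2 : p = F * G := hinj (by rw [hab, map_mul])
      rcases hp.irreducible.isUnit_or_isUnit h2 with h3 | h3
      · exact Or.inl (h3.map φ)
      · exact Or.inr (h3.map φ)
  have s2 : ∃ q : k[X], q ≠ 0 ∧ C q ∈ J := by
    refine exists_C_mem J ?_ ?_
    · obtain ⟨p, hp⟩ : ∃ p : B3 k, Prime p := ⟨MvPolynomial.X 0, MvPolynomial.X_prime⟩
      obtain ⟨x, hx1, hx2⟩ := hc.sharp p hp
      obtain ⟨F, hF, hF'⟩ := hJ x hx1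
      intro hb
      have : F = 0 := by
        have h3 : F ∈ (⊥ : Ideal k[X][X]) := hb ▸ hF
        exact h3
      rw [this, map_zero, zero_mul] at hF'
      exact hx2 (by rw [hF']; exact dvd_zero _)
    · intro p hp
      obtain ⟨x, hx1, hx2⟩ := hc.sharp (φ p) (hprime p hp)
      obtain ⟨F, hF, hF'⟩ := hJ x hx1
      refine ⟨F, hF, ?_⟩
      rintro ⟨G, rfl⟩
      apply hx2
      rw [hF', map_mul]
      exact ⟨φ G, by ring⟩
  obtain ⟨b, x1, hx1⟩ := s1
  obtain ⟨q, hq0, x2, hx2⟩ := s2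
  rw [hφC] at hx2
  -- step 3: `q = X ^ s * q1`
  obtain ⟨q1, hq1, hq1'⟩ := Polynomial.exists_eq_pow_rootMultiplicity_mul_and_not_dvd q hq0 0
  set s := q.rootMultiplicity 0 with hs
  rw [C_0, sub_zero] at hq1 hq1'
  have hq10 : q1.eval 0 ≠ 0 := by
    intro h0
    apply hq1'
    rw [X_dvd_iff, coeff_zero_eq_eval_zero]
    exact h0
  obtain ⟨d, hd⟩ : ∃ d : kerAlg D, (1 - uu * b) * d = 1 - (uu * b) ^ s := by
    refine ⟨∑ i ∈ Finset.range s, (uu * b) ^ i, ?_⟩
    exact mul_neg_geom_sum (uu * b) s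
  have hdB : (1 - u * (b : B3 k)) * (d : B3 k) = 1 - (u * (b : B3 k)) ^ s := by
    have := congrArg (Subtype.val) hd
    exact this
  have hx1' : (⇑D)^[n] x1 = (1 - u * (b : B3 k)) * c := hx1
  have hDq : D (aeval u q1) = 0 := by
    rw [← hφC]
    exact hDφ _
  refine ⟨q1, aeval u q1 * ((d : B3 k) * x1) + (b : B3 k) ^ s * x2, hq10, ?_⟩
  have hDb : D ((b : B3 k) ^ s) = 0 := (b ^ s : kerAlg D).2
  rw [hadd, hconst _ _ hDq, hconst _ _ d.2, hconst _ _ hDb, hx1', hx2, hq1, map_mul, map_pow,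
    aeval_X]
  linear_combination (aeval u q1 * c) * hdB

end Pool.Agent.LNDQ
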