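import Mathlib
import Pool.Agent.LNDQ.BDefs
import Pool.Agent.LNDQ.FiEnv
import Pool.Agent.LNDQ.FiBase
import Pool.Agent.LNDQ.FiLocal
import Pool.Agent.LNDQ.BlkRep
import Pool.Agent.LNDQ.BlkV
import Pool.Agent.LNDQ.BlkU
import Pool.Agent.LNDQ.BlkRes

set_option autoImplicit false

open Polynomial

namespace Pool.Agent.LNDQ

open Pool.Agent.LNDHom Pool.Agent.LNDF Pool.Agent.LNDT

variable {k : Type} [Field k] [CharZero k]

/-- greatest common divisors are unique up to a constant unit -/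
theorem cc_assoc {B : Type} [CommRing B] [IsDomain B] [Algebra k B] [UniqueFactorizationMonoid B]
    {D : Derivation k B B} (hln : ∀ x, ∃ n, (⇑D)^[n] x = 0)
    (hirr : ∀ p : B, Prime p → D p = 0 → ∃ x, ¬ p ∣ D x) {n : ℕ} {c c' : B} (hc : IsCC D n c)
    (hc' : IsCC D n c') : Associated c c' :=
  assoc_const D hln hc.ne hc'.ne hc.const hc'.const fun p hp hDp j => by
    rw [loc_e D hp hDp hln (hirr p hp hDp) hc, loc_e D hp hDp hln (hirr p hp hDp) hc']

variable {u v0 : B3 k} {D : Derivation k (B3 k) (B3 k)} {f : (RR u)[X]} {v x y : SL u} {e : ℕ}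

/-- the local statement, if all blocks `> 1` of `u` are divisible by `β` -/
theorem block_at (h : Dat u v0 D f v x y e)
    (hblk : ∀ b, IsBlock D h.ln u b → b = 1 ∨ f.natDegree ∣ b) (A : Arith D) {G r0 : B3 k}
    (hG : (⇑D)^[A.N] G = A.cc A.N) (hr0 : D r0 = A.cc 1) (n : ℕ) {m : Ideal (kerAlg D)}
    (hm : m.IsMaximal) (hum : ∀ a : kerAlg D, (a : B3 k) = u → a ∈ m) :
    ∃ (a : kerAlg D) (x : B3 k), a ∉ m ∧ (⇑D)^[n + 1] x = 0 ∧ (⇑D)^[n] x = a * A.cc n := by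
  have hln := h.ln
  have hirr := h.irr
  have hDu : D u = 0 := (h.ker u).2 (Algebra.subset_adjoin (by simp))
  have hup := dat_prime_u h
  obtain ⟨a, b, p, ha, -, hp, hpp, w, hw, hv⟩ := dat_point h
  let u' : kerAlg D := ⟨u, hDu⟩
  have hum' : u' ∈ m := hum u' rfl
  have hndu : ¬ u ∣ (p : B3 k) := dat_not_assoc h hv
  have hdu : ¬ (p : B3 k) ∣ u := fun hd =>
    hndu ((hpp.dvd_prime_iff_associated hup).1 hd).symm.dvd
  -- `p` does not divide polynomials in `u`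
  have htr := dat_tr h
  have hpq : ∀ q : k[X], q.eval 0 ≠ 0 → ¬ (p : B3 k) ∣ aeval u q := by
    rintro q hq ⟨s, hs⟩
    have hq0 : q ≠ 0 := by rintro rfl; exact hq eval_zero
    have hne : aeval u q ≠ 0 := fun h0 => hq0 ((transcendental_iff.1 htr) q h0)
    have hDs : D s = 0 := const_of_dvd D hln (dat_Du h q) hne ⟨(p : B3 k), by rw [hs, mul_comm]⟩
    obtain ⟨S, hS⟩ := bv_surj ((h.ker s).1 hDs)
    have h1 : (C q : k[X][X]) = (C a * X + C b) * S := by
      apply bv_inj h.ind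
      rw [bv_C, map_mul, map_add, map_mul, bv_C, bv_C, bv_X, hS, ← hp, hs]
    have ha0 : a ≠ 0 := by rintro rfl; exact ha eval_zero
    have hS0 : S ≠ 0 := by
      rintro rfl
      rw [mul_zero, C_eq_zero] at h1
      exact hq0 h1
    have hl : (C a * X + C b : k[X][X]).natDegree = 1 := natDegree_linear ha0
    have hl0 : (C a * X + C b : k[X][X]) ≠ 0 := by
      intro h0
      rw [h0, natDegree_zero] at hl
      omega
    have h2 := congrArg natDegree h1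
    rw [natDegree_C, natDegree_mul hl0 hS0, hl] at h2
    omega
  obtain ⟨hp1, hp2, hnp⟩ := BlkV.npB_v h (dat_dd h) hpp p.2 hw hv hdu hpq A.cc A.isCC
  have hna : ¬ Associated u (p : B3 k) := fun h0 => hndu h0.dvd
  let Z : Set (B3 k) := {q | q = u ∨ q = p ∨ (Prime q ∧ D q = 0 ∧ ¬ q ∣ A.cc 1)}
  have hZ : ∀ q ∈ Z, Prime q ∧ D q = 0 := by
    rintro q (rfl | rfl | hq)
    · exact ⟨hup, hDu⟩
    · exact ⟨hpp, p.2⟩
    · exact ⟨hq.1, hq.2.1⟩
  -- blocks
  have hb1 : ∀ q, Prime q → D q = 0 → ¬ q ∣ A.cc 1 → ∀ b, IsBlock D hln q b → b = 1 := by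
    intro q hq hDq hqc b hb
    obtain ⟨h1, h2⟩ := hb.dvd_npB
    by_contra hb1
    apply hqc
    refine dvd_of_np hln hq hDq (hirr q hq hDq) (A.isCC 1) ?_
    have h0 : 0 < npB D q := Nat.pos_of_dvd_of_pos (A.npN _ hq hDq) A.N_pos
    have := Nat.le_of_dvd h0 h1
    omega
  have hbp : ∀ b, IsBlock D hln (p : B3 k) b → b ∣ f.natDegree := by
    intro b hb
    rcases BlkS.blk_simple hln hpp p.2 (hirr _ hpp p.2) (A.isCC 1) hp1 hp2 hb with h1 | h1
    · rw [h1]; exact one_dvd _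
    · rw [h1, hnp]
  have hcls : ∀ q ∈ Z, ∀ b, IsBlock D hln q b → b = 1 ∨ (q = u ∧ f.natDegree ∣ b) ∨
      (q = p ∧ b ∣ f.natDegree) := by
    rintro q (rfl | rfl | hq) b hb
    · rcases hblk b hb with h1 | h1
      · exact Or.inl h1
      · exact Or.inr (Or.inl ⟨rfl, h1⟩)
    · exact Or.inr (Or.inr ⟨rfl, hbp b hb⟩)
    · exact Or.inl (hb1 q hq.1 hq.2.1 hq.2.2 b hb)
  refine chain_at_rep hln hirr A hG hr0 n m hm Z hZ ?_ ?_
  · intro q hq hDq hqm
    by_cases hqc : q ∣ A.cc 1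
    · rcases dat_special h (A.isCC 1) hw hv hpp (u' := u') rfl hm.ne_top hum' (p' := ⟨q, hDq⟩) hq hqm
        hqc with h1 | h1
      · exact ⟨u, Or.inl rfl, h1⟩
      · exact ⟨p, Or.inr (Or.inl rfl), h1⟩
    · exact ⟨q, Or.inr (Or.inr ⟨hq, hDq, hqc⟩), Associated.refl _⟩
  · intro q hq q' hq' hne b b' hb hb' _ _
    rcases hcls q hq b hb with h1 | ⟨h1, h2⟩ | ⟨h1, h2⟩
    · left; rw [h1]; exact one_dvd _
    · rcases hcls q' hq' b' hb' with h3 | ⟨h3, h4⟩ | ⟨h3, h4⟩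
      · right; rw [h3]; exact one_dvd _
      · exact absurd (h1.trans h3.symm) hne
      · right; exact h4.trans h2
    · rcases hcls q' hq' b' hb' with h3 | ⟨h3, h4⟩ | ⟨h3, h4⟩
      · right; rw [h3]; exact one_dvd _
      · left; exact h2.trans h4
      · exact absurd (h1.trans h3.symm) hne

/-- the case `v1 = c ≠ 0` on the exceptional curve (chain of blocks) -/
theorem block_case [IsAlgClosed k] (h : Dat u v0 D f v x y e) {v1 x1 y1 : SL u}
    (hmv : Mv k f v x y v1 x1 y1) {c : k} (hc : c ≠ 0)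
    (hv1 : io u u ∣ v1 - algebraMap k (SL u) c) : Q1A (RR u) (uu u) f v x y := by
  have hdom := sl_dom (dat_tr h)
  have hE := dat_env h
  obtain ⟨hx1, P, hP, hd, h0⟩ := BlkRes.exists_P hE.fr h.pres h.vtr hmv hc hv1
  have hblk := blk_u h hx1 hP hd h0
  rw [← q1r_iff h]
  intro n c' hc'
  obtain ⟨N0, G0, A, G, r, -, hG, hr⟩ := exists_arith_slice (dat_kd h)
  obtain ⟨w, hw⟩ := cc_assoc h.ln h.irr (A.isCC n) hc'
  have hDw : D (w : B3 k) = 0 :=
    const_of_dvd D h.ln D.map_one_eq_zero one_ne_zero (isUnit_iff_dvd_one.1 w.isUnit)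
  obtain ⟨q, z, hq, hz⟩ := q1r_of_local (dat_kd h) (A.isCC n)
    (fun m hm hum => block_at h hblk A hG hr n hm hum)
  refine ⟨q, (w : B3 k) * z, hq, ?_⟩
  rw [iter_const D hDw, hz, ← hw]
  ring

end Pool.Agent.LNDQ
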