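import Mathlib
import Pool.Agent.LNDQ.Defs
import Pool.Agent.LNDF.GeoDefs
import Pool.Agent.LNDF.FinDefs

set_option autoImplicit false

open Polynomial

namespace Pool.Agent.LNDQ

open Pool.Agent.LNDF

/-- `S` is the localization of `k[x,y,z]` at the `q(u0)`, `q(0) ≠ 0`, and `R` the local ring of `k[u0]` in it -/
structure LocB {k S : Type} [Field k] [CommRing S] [Algebra k S] (ι : B3 k →ₐ[k] S) (u0 : B3 k)
    (R : Subalgebra k S) (u : R) : Prop where
  inj : Function.Injective ι
  uu : (u : S) = ι u0
  unit : ∀ q : k[X], q.eval 0 ≠ 0 → ∃ r : R, (r : S) * ι (aeval u0 q) = 1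
  surj : ∀ z : S, ∃ (q : k[X]) (b : B3 k), q.eval 0 ≠ 0 ∧ ι (aeval u0 q) * z = ι b
  mem : ∀ z : S, z ∈ R ↔ ∃ q p : k[X], q.eval 0 ≠ 0 ∧ ι (aeval u0 q) * z = ι (aeval u0 p)
  up : ∀ l : k, Prime (u0 - MvPolynomial.C l)

/-- the bracket of `S` which extends `jac3 u0` -/
structure Bra {k S : Type} [Field k] [CommRing S] [Algebra k S] (ι : B3 k →ₐ[k] S) (u0 : B3 k)
    (R : Subalgebra k S) (br : S → S → S) : Prop where
  ext : ∀ a b, br (ι a) (ι b) = ι (jac3 u0 a b)
  swap : ∀ a b, br a b = - br b a
  self : ∀ a, br a a = 0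
  add : ∀ a b c, br a (b + c) = br a b + br a c
  mul : ∀ a b c, br a (b * c) = b * br a c + c * br a b
  const : ∀ (a : S) (r : R), br a r = 0

variable {k S : Type} [Field k] [CommRing S] [Algebra k S]
  {R : Subalgebra k S} {ι : B3 k →ₐ[k] S} {u0 : B3 k} {br : S → S → S}

/-- the bracket as a derivation -/
noncomputable def Bra.der (hb : Bra ι u0 R br) (a : S) : Derivation k S S :=
  Derivation.mk' { toFun := br a
                   map_add' := hb.add a
                   map_smul' := fun c b => by
                    have h1 := hb.mul a (algebraMap k S c) b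
                    have h2 := hb.const a (algebraMap k R c)
                    have h3 : ((algebraMap k R c : R) : S) = algebraMap k S c := rfl
                    rw [h3] at h2
                    rw [Algebra.smul_def, h1, h2, mul_zero, add_zero, RingHom.id_apply,
                      Algebra.smul_def] }
    fun x y => by
      show br a (x * y) = x • br a y + y • br a x
      rw [hb.mul, smul_eq_mul, smul_eq_mul]

theorem Bra.der_apply (hb : Bra ι u0 R br) (a b : S) : hb.der a b = br a b := rfl

theorem Bra.smul_right (hb : Bra ι u0 R br) (r : R) (a b : S) : br a (r * b) = r * br a b := by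
  rw [hb.mul, hb.const, mul_zero, add_zero]

theorem Bra.smul_left (hb : Bra ι u0 R br) (r : R) (a b : S) : br (r * a) b = r * br a b := by
  rw [hb.swap, hb.smul_right, hb.swap a b, mul_neg]

end Pool.Agent.LNDQ
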