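import Mathlib
import Pool.Agent.LNDQ.Dat

set_option autoImplicit false

open Polynomial

namespace Pool.Agent.LNDQ

open Pool.Agent.LNDF

variable {k S : Type} [Field k] [CommRing S] [IsDomain S] [Algebra k S] {R : Subalgebra k S}
  {ι : B3 k →ₐ[k] S} {u0 : B3 k} {br : S → S → S}

/-- the brackets of a presentation -/
structure PB (R : Subalgebra k S) (f : R[X]) (br : S → S → S) (W : R) (v x y : S) : Prop where
  vx : br v x = W * v
  vy : br v y = W * aeval x (derivative f)
  xy : br x y = W * y

namespace DG3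

section ind

variable {Q A : Type} [CommRing Q] [CommRing A] [Algebra Q A]

theorem sub_ne (i : Fin 2) : Subsingleton {j : Fin 2 // j ≠ i} := ⟨by
  rintro ⟨a, ha⟩ ⟨b, hb⟩
  apply Subtype.ext
  show a = b
  omega⟩

theorem ind_iff1 (u F : A) : AlgebraicIndependent Q ![u, F] ↔
    Transcendental Q u ∧ Transcendental (Algebra.adjoin Q {u}) F := by
  rw [AlgebraicIndependent.iff_transcendental_adjoin_image (x := ![u, F]) 1]
  have h1 : (![u, F] '' {(1 : Fin 2)}ᶜ) = {u} := by
    ext z
    simp only [Set.mem_image, Set.mem_compl_iff, Set.mem_singleton_iff]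
    constructor
    · rintro ⟨i, hi, rfl⟩
      fin_cases i
      · rfl
      · exact absurd rfl hi
    · rintro rfl
      exact ⟨0, by simp, rfl⟩
  rw [h1]
  have := sub_ne 1
  rw [algebraicIndependent_singleton_iff (⟨0, by simp⟩ : {j : Fin 2 // j ≠ 1})]
  rfl

theorem ind_iff0 (u F : A) : AlgebraicIndependent Q ![u, F] ↔
    Transcendental Q F ∧ Transcendental (Algebra.adjoin Q {F}) u := by
  rw [AlgebraicIndependent.iff_transcendental_adjoin_image (x := ![u, F]) 0]
  have h1 : (![u, F] '' {(0 : Fin 2)}ᶜ) = {F} := by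
    ext z
    simp only [Set.mem_image, Set.mem_compl_iff, Set.mem_singleton_iff]
    constructor
    · rintro ⟨i, hi, rfl⟩
      fin_cases i
      · exact absurd rfl hi
      · rfl
    · rintro rfl
      exact ⟨1, by simp, rfl⟩
  rw [h1]
  have := sub_ne 0
  rw [algebraicIndependent_singleton_iff (⟨1, by simp⟩ : {j : Fin 2 // j ≠ 0})]
  rfl

theorem ind_swap (u F : A) (h : AlgebraicIndependent Q ![u, F]) :
    AlgebraicIndependent Q ![F, u] := by
  rw [ind_iff0] at h
  rw [ind_iff1]
  exact h

/-- `v, x ↦ v, x + c`, `c ∈ Q[v]` -/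
theorem ind_add {v x c : A} [IsDomain A] [IsDomain Q] (hc : c ∈ Algebra.adjoin Q {v})
    (h : AlgebraicIndependent Q ![v, x]) : AlgebraicIndependent Q ![v, x + c] := by
  rw [ind_iff1] at h ⊢
  refine ⟨h.1, fun hF => h.2 ?_⟩
  have h1 : IsAlgebraic (Algebra.adjoin Q {v}) c :=
    isAlgebraic_algebraMap (R := Algebra.adjoin Q {v}) (A := A) ⟨c, hc⟩
  have h2 := hF.sub h1
  rwa [add_sub_cancel_right] at h2

/-- `v y = g ≠ 0`, `g ∈ Q[x]`: `y, x` are independent -/
theorem ind_quot {v x y g : A} [IsDomain A] [IsDomain Q] (hg : g ∈ Algebra.adjoin Q {x})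
    (hg0 : g ≠ 0) (e : v * y = g)
    (h : AlgebraicIndependent Q ![v, x]) : AlgebraicIndependent Q ![y, x] := by
  rw [ind_iff0] at h ⊢
  refine ⟨h.1, fun hy => h.2 ?_⟩
  have h1 : IsAlgebraic (Algebra.adjoin Q {x}) g :=
    isAlgebraic_algebraMap (R := Algebra.adjoin Q {x}) (A := A) ⟨g, hg⟩
  have hy0 : y ≠ 0 := by
    rintro rfl
    exact hg0 (by rw [← e, mul_zero])
  refine IsAlgebraic.of_mul (mem_nonZeroDivisors_of_ne_zero hy0) hy ?_
  rwa [mul_comm, e]

end ind

theorem v_ne {f : R[X]} {v x y : S} (hp : Pres f v x y) : v ≠ 0 :=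
  hp.ind.ne_zero 0

theorem f_ne {f : R[X]} {v x y : S} (hp : Pres f v x y) : aeval x f ≠ 0 := by
  have h := (ind_iff0 v x).1 hp.ind
  intro h0
  exact hp.monic.ne_zero ((transcendental_iff.1 h.1) f h0)

theorem y_ne {f : R[X]} {v x y : S} (hp : Pres f v x y) : y ≠ 0 := by
  intro h
  apply f_ne hp
  rw [← hp.rel, h, mul_zero]

theorem pres_swap {f : R[X]} {v x y : S} (hp : Pres f v x y) : Pres f y x v where
  monic := hp.monic
  deg := hp.deg
  rel := by rw [mul_comm]; exact hp.rel
  ind := ind_quot (aeval_mem_adjoin_singleton _ _) (f_ne hp) hp.rel hp.ind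

omit [IsDomain S] in
theorem aev_mem (v : S) (q : k[X]) : aeval v q ∈ Algebra.adjoin R {v} := by
  have h : aeval v (q.map (algebraMap k R)) ∈ Algebra.adjoin R {v} :=
    aeval_mem_adjoin_singleton _ _
  rwa [aeval_map_algebraMap] at h

/-- the correction of an elementary move is in `R[v]` -/
theorem cor_mem (v : S) (q : k[X]) : v * aeval v q ∈ Algebra.adjoin R {v} := by
  have hv : v ∈ Algebra.adjoin R {v} := Algebra.subset_adjoin rfl
  exact Subalgebra.mul_mem _ hv (aev_mem v q)

theorem pres_elem {f : R[X]} {v x y y2 c : S} (hp : Pres f v x y) (hc : c ∈ Algebra.adjoin R {v})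
    (e : v * y2 = aeval (x + c) f) : Pres f v (x + c) y2 where
  monic := hp.monic
  deg := hp.deg
  rel := e
  ind := ind_add hc hp.ind

omit [IsDomain S] in
/-- difference of values of a polynomial in a subalgebra -/
theorem sub_mem {a b : S} (f : R[X]) (A : Subalgebra R S) (ha : a ∈ A) (hb : b ∈ A) :
    ∃ g ∈ A, aeval a f - aeval b f = (a - b) * g := by
  have h := sub_dvd_eval_sub (⟨a, ha⟩ : A) ⟨b, hb⟩ (f.map (algebraMap R A))
  obtain ⟨g, hg⟩ := h
  refine ⟨g, g.2, ?_⟩
  have h1 : ∀ z : A, (((f.map (algebraMap R A)).eval z : A) : S) = aeval (z : S) f := by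
    intro z
    rw [eval_map_algebraMap]
    exact (Polynomial.aeval_algHom_apply A.val z f).symm
  have h2 := congrArg (Subtype.val) hg
  simp only [AddSubgroupClass.coe_sub, MulMemClass.coe_mul] at h2
  rw [h1, h1] at h2
  exact h2

theorem cx_elem {f : R[X]} {v x y y2 d : S} (hp : Pres f v x y) (hd : d ∈ Algebra.adjoin R {v})
    (e : v * y2 = aeval (x + v * d) f) :
    Algebra.adjoin R {v, x + v * d, y2} = Algebra.adjoin R {v, x, y} := by
  have key : ∃ g ∈ Algebra.adjoin R {v, x}, y2 = y + d * g := by
    have hv : v ∈ Algebra.adjoin R {v, x} := Algebra.subset_adjoin (Set.mem_insert _ _)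
    have hx : x ∈ Algebra.adjoin R {v, x} :=
      Algebra.subset_adjoin (Set.mem_insert_of_mem _ rfl)
    have hd' : d ∈ Algebra.adjoin R {v, x} :=
      Algebra.adjoin_mono (Set.singleton_subset_iff.2 (Set.mem_insert _ _)) hd
    obtain ⟨g, hg, hg2⟩ := sub_mem f (Algebra.adjoin R {v, x})
      (Subalgebra.add_mem _ hx (Subalgebra.mul_mem _ hv hd')) hx
    refine ⟨g, hg, ?_⟩
    apply mul_left_cancel₀ (v_ne hp)
    rw [← e, ← hp.rel] at hg2
    linear_combination hg2
  obtain ⟨g, hg, rfl⟩ := key
  apply le_antisymm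
  · apply Algebra.adjoin_le
    have hle : Algebra.adjoin R {v} ≤ Algebra.adjoin R {v, x, y} :=
      Algebra.adjoin_mono (Set.singleton_subset_iff.2 (Set.mem_insert _ _))
    have hle2 : Algebra.adjoin R {v, x} ≤ Algebra.adjoin R {v, x, y} :=
      Algebra.adjoin_mono (by
        rintro z (rfl | rfl)
        · exact Set.mem_insert _ _
        · exact Set.mem_insert_of_mem _ (Set.mem_insert _ _))
    have hv : v ∈ Algebra.adjoin R {v, x, y} := Algebra.subset_adjoin (Set.mem_insert _ _)
    have hx : x ∈ Algebra.adjoin R {v, x, y} :=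
      Algebra.subset_adjoin (Set.mem_insert_of_mem _ (Set.mem_insert _ _))
    have hy : y ∈ Algebra.adjoin R {v, x, y} :=
      Algebra.subset_adjoin (Set.mem_insert_of_mem _ (Set.mem_insert_of_mem _ rfl))
    rintro z (rfl | rfl | rfl)
    · exact hv
    · exact Subalgebra.add_mem _ hx (Subalgebra.mul_mem _ hv (hle hd))
    · exact Subalgebra.add_mem _ hy (Subalgebra.mul_mem _ (hle hd) (hle2 hg))
  · apply Algebra.adjoin_le
    set T := Algebra.adjoin R {v, x + v * d, y + d * g} with hT
    have hv : v ∈ T := Algebra.subset_adjoin (Set.mem_insert _ _)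
    have hle : Algebra.adjoin R {v} ≤ T :=
      Algebra.adjoin_le (Set.singleton_subset_iff.2 hv)
    have hx2 : x + v * d ∈ T :=
      Algebra.subset_adjoin (Set.mem_insert_of_mem _ (Set.mem_insert _ _))
    have hy2 : y + d * g ∈ T :=
      Algebra.subset_adjoin (Set.mem_insert_of_mem _ (Set.mem_insert_of_mem _ rfl))
    have hx : x ∈ T := by
      have := Subalgebra.sub_mem _ hx2 (Subalgebra.mul_mem _ hv (hle hd))
      rwa [add_sub_cancel_right] at this
    have hle2 : Algebra.adjoin R {v, x} ≤ T := by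
      apply Algebra.adjoin_le
      rintro z (rfl | rfl)
      · exact hv
      · exact hx
    have hy : y ∈ T := by
      have := Subalgebra.sub_mem _ hy2 (Subalgebra.mul_mem _ (hle hd) (hle2 hg))
      rwa [add_sub_cancel_right] at this
    rintro z (rfl | rfl | rfl)
    · exact hv
    · exact hx
    · exact hy

end DG3

open DG3

omit [IsDomain S] in
/-- chain rule for polynomials over `R` -/
theorem Bra.aeval (hb : Bra ι u0 R br) (a z : S) (P : R[X]) :
    br a (Polynomial.aeval z P) = Polynomial.aeval z (derivative P) * br a z := by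
  have hpow : ∀ n : ℕ, br a (z ^ n) = (n : S) * z ^ (n - 1) * br a z := by
    intro n
    induction n with
    | zero =>
      have h := hb.const a 1
      simp only [OneMemClass.coe_one] at h
      simp [h]
    | succ n ih =>
      rw [pow_succ, hb.mul, ih]
      rcases n with _ | n
      · simp
      · simp only [Nat.add_sub_cancel]
        push_cast
        ring
  induction P using Polynomial.induction_on' with
  | add p q hp hq =>
    rw [map_add, hb.add, hp, hq, derivative_add, map_add]
    ring
  | monomial n r =>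
    rw [aeval_monomial, hb.mul, hpow, derivative_monomial, aeval_monomial, map_mul, map_natCast]
    have h := hb.const a r
    have h' : br a (algebraMap R S r) = 0 := h
    rw [h']
    ring

theorem PB.of_vx (hb : Bra ι u0 R br) {f : R[X]} {v x y : S} (hp : Pres f v x y) {W : R}
    (h : br v x = W * v) : PB R f br W v x y where
  vx := h
  vy := by
    have h1 : br v (v * y) = v * br v y := by
      rw [hb.mul, hb.self, mul_zero, add_zero]
    rw [hp.rel, Bra.aeval hb, h] at h1
    apply mul_left_cancel₀ (v_ne hp)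
    rw [← h1]
    ring
  xy := by
    have h1 : br x (v * y) = v * br x y + y * br x v := hb.mul _ _ _
    rw [hp.rel, Bra.aeval hb, hb.self, mul_zero, hb.swap x v, h] at h1
    apply mul_left_cancel₀ (v_ne hp)
    linear_combination -h1

namespace DG

theorem mv_pres {f : R[X]} {v x y v' x' y' : S} (h : Mv k f v x y v' x' y') (hp : Pres f v x y) :
    Pres f v' x' y' := by
  induction h with
  | refl => exact hp
  | elem q y'' h e ih => exact pres_elem ih (cor_mem _ q) e
  | swap h ih => exact pres_swap ih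

theorem mv_cx {f : R[X]} {v x y v' x' y' : S} (h : Mv k f v x y v' x' y') (hp : Pres f v x y) :
    Cx R v' x' y' = Cx R v x y := by
  induction h with
  | refl => rfl
  | @elem v' x' y' q y'' h e ih =>
    rw [← ih]
    unfold Cx
    rw [cx_elem (mv_pres h hp) (aev_mem v' q) e]
  | @swap v' x' y' h ih =>
    rw [← ih]
    unfold Cx
    have hs : ({y', x', v'} : Set S) = {v', x', y'} := by
      ext z
      simp only [Set.mem_insert_iff, Set.mem_singleton_iff]
      tauto
    rw [hs]

theorem mv_pb (hb : Bra ι u0 R br) {f : R[X]} {v x y v' x' y' : S} (h : Mv k f v x y v' x' y')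
    (hp : Pres f v x y) {W : R} (hW : PB R f br W v x y) :
    PB R f br W v' x' y' ∨ PB R f br (-W) v' x' y' := by
  have hel : ∀ (W : R) {v x y y2 : S} (q : k[X]), Pres f v x y → PB R f br W v x y →
      v * y2 = aeval (x + v * aeval v q) f → PB R f br W v (x + v * aeval v q) y2 := by
    intro W v x y y2 q hp hW e
    refine PB.of_vx hb (pres_elem hp (cor_mem _ q) e) ?_
    have h1 : br v (v * Polynomial.aeval v q) = 0 := by
      have h2 : Polynomial.aeval v q = Polynomial.aeval v (q.map (algebraMap k R)) := by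
        rw [aeval_map_algebraMap]
      rw [hb.mul, hb.self, mul_zero, add_zero, h2, Bra.aeval hb, hb.self, mul_zero, mul_zero]
    rw [hb.add, hW.vx, h1, add_zero]
  have hsw : ∀ (W : R) {v x y : S}, PB R f br W v x y → PB R f br (-W) y x v := by
    intro W v x y hW
    refine ⟨?_, ?_, ?_⟩
    · rw [hb.swap, hW.xy]
      push_cast
      ring
    · rw [hb.swap, hW.vy]
      push_cast
      ring
    · rw [hb.swap, hW.vx]
      push_cast
      ring
  induction h with
  | refl => exact Or.inl hW
  | elem q y'' h e ih =>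
    rcases ih with h1 | h1
    · exact Or.inl (hel W q (mv_pres h hp) h1 e)
    · exact Or.inr (hel (-W) q (mv_pres h hp) h1 e)
  | swap h ih =>
    rcases ih with h1 | h1
    · exact Or.inr (hsw W h1)
    · left
      have := hsw (-W) h1
      rwa [neg_neg] at this

end DG

end Pool.Agent.LNDQ
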