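import Mathlib
import Pool.Agent.LNDQ.Dat
import Pool.Agent.LNDQ.LocDeg

set_option autoImplicit false

open Polynomial

namespace Pool.Agent.LNDQ.DG

open Pool.Agent.LNDF Pool.Agent.LNDHom Pool.Agent.LNDQ.FiD

variable {k S : Type} [Field k] [CharZero k] [CommRing S] [IsDomain S] [Algebra k S]
  {R : Subalgebra k S} {u : R} {ι : B3 k →ₐ[k] S} {u0 : B3 k} {br : S → S → S}

omit [CharZero k] [IsDomain S] in
/-- the bracket as a derivation -/
theorem exists_der65 (hb : Bra ι u0 R br) (a : S) :
    ∃ E : Derivation k S S, ∀ b, E b = br a b :=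
  ⟨Derivation.mk' { toFun := br a
                    map_add' := hb.add a
                    map_smul' := fun c b => by
                      have h1 := hb.mul a (algebraMap k S c) b
                      have h2 := hb.const a (algebraMap k R c)
                      have h3 : ((algebraMap k R c : R) : S) = algebraMap k S c := rfl
                      rw [h3] at h2
                      rw [Algebra.smul_def, h1, h2, mul_zero, add_zero, RingHom.id_apply,
                        Algebra.smul_def] }
    fun x y => by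
      show br a (x * y) = x • br a y + y • br a x
      rw [hb.mul, smul_eq_mul, smul_eq_mul], fun _ => rfl⟩

theorem vne65 {f : R[X]} {v x y : S} (hp : Pres f v x y) : v ≠ 0 := by
  rintro rfl
  have h1 : (X : R[X]) = 0 := aeval_inj hp (by simp)
  exact X_ne_zero h1

/-- `br v` is locally nilpotent -/
theorem br_nil (hb : Bra ι u0 R br) {f : R[X]} {v x y : S} (hp : Pres f v x y) (hu : u ≠ 0)
    (hk : ∀ z : S, ∃ m : ℕ, (u : S) ^ m * z ∈ Cx R v x y) {W : R}
    (hW : br v x = W * v) (z : S) : ∃ n, (br v)^[n] z = 0 := by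
  obtain ⟨E, hE⟩ := exists_der65 hb v
  have hfun : br v = ⇑E := funext fun b => (hE b).symm
  rw [hfun]
  have hR : ∀ r : R, E (r : S) = 0 := fun r => by rw [hE]; exact hb.const v r
  have hv : E v = 0 := by rw [hE]; exact hb.self v
  have hu0 : (u : S) ≠ 0 := fun h => hu (Subtype.ext h)
  have hup : ∀ (i j : ℕ) (w : S), (⇑E)^[j] ((u : S) ^ i * w) = (u : S) ^ i * (⇑E)^[j] w := by
    intro i j w
    refine iter_const E ?_ j w
    rw [Derivation.leibniz_pow, hR u]
    simp
  obtain ⟨m, hm⟩ := hk z
  by_cases hW0 : W = 0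
  · -- everything is in the kernel
    have hx : E x = 0 := by rw [hE, hW, hW0]; simp
    have hfx : ∀ g : R[X], E (aeval x g) = 0 := by
      intro g
      induction g using Polynomial.induction_on' with
      | add p q hp hq => rw [map_add, map_add, hp, hq, add_zero]
      | monomial i r =>
        rw [aeval_monomial, Derivation.leibniz, Derivation.leibniz_pow, hx]
        have h1 : E (algebraMap R S r) = 0 := hR r
        rw [h1]
        simp
    have hy : E y = 0 := by
      have h1 : E (v * y) = 0 := by rw [hp.rel]; exact hfx f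
      rw [Derivation.leibniz, hv, smul_zero, add_zero, smul_eq_mul] at h1
      exact (mul_eq_zero.1 h1).resolve_left (vne65 hp)
    have hall : ∀ w ∈ Algebra.adjoin R ({v, x, y} : Set S), E w = 0 := by
      intro w hw
      induction hw using Algebra.adjoin_induction with
      | mem w hw =>
        rcases hw with rfl | rfl | rfl
        · exact hv
        · exact hx
        · exact hy
      | algebraMap r => exact hR r
      | add a b _ _ ha hb => rw [map_add, ha, hb, add_zero]
      | mul a b _ _ ha hb => rw [Derivation.leibniz, ha, hb]; simp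
    refine ⟨1, ?_⟩
    have h1 : E ((u : S) ^ m * z) = 0 := hall _ hm
    have h2 := hup m 1 z
    simp only [Function.iterate_one] at h2
    rw [h2] at h1
    exact (mul_eq_zero.1 h1).resolve_left (pow_ne_zero _ hu0)
  · have hWS : (W : S) ≠ 0 := fun h => hW0 (Subtype.ext h)
    have hD : DD R v x E := by
      refine ⟨hR, hv, ?_, ?_⟩
      · rw [hE x, hW, Derivation.leibniz, hv, hR]; simp
      · rw [hE x, hW]; exact mul_ne_zero hWS (vne65 hp)
    obtain ⟨N, hN⟩ := low_of_cx hp hm
    refine ⟨N, ?_⟩
    have h1 := iter_low hD hp hN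
    rw [hup] at h1
    exact (mul_eq_zero.1 h1).resolve_left (pow_ne_zero _ hu0)

/-- the kernel of `br v` is `R[v]`, up to powers of `u` -/
theorem ker_br (hb : Bra ι u0 R br) {f : R[X]} {v x y : S} (hp : Pres f v x y) (hu : u ≠ 0)
    (hk : ∀ z : S, ∃ m : ℕ, (u : S) ^ m * z ∈ Cx R v x y) {W : R} (hW0 : W ≠ 0)
    (hW : br v x = W * v) {z : S} (hz : br v z = 0) :
    ∃ (m : ℕ) (a : R[X]), (u : S) ^ m * z = aeval v a := by
  obtain ⟨E, hE⟩ := exists_der65 hb v
  have hR : ∀ r : R, E (r : S) = 0 := fun r => by rw [hE]; exact hb.const v r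
  have hv : E v = 0 := by rw [hE]; exact hb.self v
  have hu0 : (u : S) ≠ 0 := fun h => hu (Subtype.ext h)
  have hWS : (W : S) ≠ 0 := fun h => hW0 (Subtype.ext h)
  have hD : DD R v x E := by
    refine ⟨hR, hv, ?_, ?_⟩
    · rw [hE x, hW, Derivation.leibniz, hv, hR]; simp
    · rw [hE x, hW]; exact mul_ne_zero hWS (vne65 hp)
  have h1 : (⇑E)^[0 + 1] z = 0 := by
    rw [zero_add, Function.iterate_one, hE]; exact hz
  obtain ⟨m, a, t, ht⟩ := exists_lt (u := u) hD hp hk h1
  have h2 : Low R f.natDegree v x y 0 = ⊥ := by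
    unfold Low
    rw [Submodule.span_eq_bot]
    rintro w ⟨i, j, hj, -⟩
    omega
  rw [h2, Submodule.mem_bot, sub_eq_zero] at ht
  refine ⟨m, a, ?_⟩
  have h3 : bs f.natDegree x y 0 = 1 := by unfold bs; simp
  rw [h3, mul_one, pow_add, mul_comm ((u : S) ^ m) ((u : S) ^ t), mul_assoc] at ht
  exact mul_left_cancel₀ (pow_ne_zero _ hu0) ht

end Pool.Agent.LNDQ.DG
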