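import Mathlib

set_option autoImplicit false

namespace Pool.Agent.LNDQ.IntgA

set_option linter.unusedSectionVars false

/-!
INTG of H/821812_Q1: `A = R[v]`, `u` a prime of `A`, `e` an `A`-basis of `C = R[v, x, y]`, `S` the ring `B`
over `R`. `Rep u e n k s c`: `u ^ k * s` is the combination of `e 0, …, e n` with coefficients `c`.
`eps n` is the largest `u`-exponent in the denominators of leading coefficients of elements of
degree `n` (`H1`, `H2`). Then `u ^ eps n * s` is in `C` for all `s` in `S` of degree at most `n`.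
-/

variable {A S : Type*} [CommRing A] [IsDomain A] [CommRing S] [IsDomain S] [Algebra A S]

/-- the combination with coefficients `c` of the elements `e i` -/
noncomputable def co (e : ℕ → S) (c : ℕ →₀ A) : S := Finsupp.linearCombination A e c

/-- `u ^ k * s` is the combination of `e 0, …, e n` with coefficients `c` -/
def Rep (u : A) (e : ℕ → S) (n k : ℕ) (s : S) (c : ℕ →₀ A) : Prop :=
  (u ^ k) • s = co e c ∧ ∀ i, n < i → c i = 0

theorem co_smul (e : ℕ → S) (a : A) (c : ℕ →₀ A) : co e (a • c) = a • co e c := by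
  simp [co]

theorem co_add (e : ℕ → S) (c d : ℕ →₀ A) : co e (c + d) = co e c + co e d := by
  simp [co]

theorem co_sub (e : ℕ → S) (c d : ℕ →₀ A) : co e (c - d) = co e c - co e d := by
  simp [co]

theorem Rep.smul {u : A} {e : ℕ → S} {n k : ℕ} {s : S} {c : ℕ →₀ A} (h : Rep u e n k s c) (a : A) :
    Rep u e n k (a • s) (a • c) := by
  refine ⟨?_, fun i hi => ?_⟩
  · rw [smul_comm, h.1, co_smul]
  · simp [h.2 i hi]

theorem Rep.up {u : A} {e : ℕ → S} {n k : ℕ} {s : S} {c : ℕ →₀ A} (h : Rep u e n k s c) (j : ℕ) :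
    Rep u e n (k + j) s (u ^ j • c) := by
  refine ⟨?_, fun i hi => ?_⟩
  · rw [pow_add, mul_comm, mul_smul, h.1, co_smul]
  · simp [h.2 i hi]

theorem Rep.mono {u : A} {e : ℕ → S} {n n' k : ℕ} {s : S} {c : ℕ →₀ A} (h : Rep u e n k s c)
    (hn : n ≤ n') : Rep u e n' k s c :=
  ⟨h.1, fun i hi => h.2 i (lt_of_le_of_lt hn hi)⟩

theorem Rep.sub {u : A} {e : ℕ → S} {n k : ℕ} {s t : S} {c d : ℕ →₀ A} (h : Rep u e n k s c)
    (h' : Rep u e n k t d) : Rep u e n k (s - t) (c - d) := by
  refine ⟨?_, fun i hi => ?_⟩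
  · rw [smul_sub, h.1, h'.1, co_sub]
  · simp [h.2 i hi, h'.2 i hi]

/-- CANCEL: `a * z` in `C` and `u ^ k * z` in `C`, `u` not dividing `a`: then `z` is in `C`. -/
theorem cancel {u : A} (hu : Prime u) {e : ℕ → S} (he : LinearIndependent A e)
    (hS : ∀ a : A, a ≠ 0 → ∀ s : S, a • s = 0 → s = 0) {n m k : ℕ} {z : S}
    {c d : ℕ →₀ A} {a : A} (ha : ¬ u ∣ a) (h1 : Rep u e n (k + m) z c) (h2 : (a * u ^ m) • z = co e d) :
    ∃ c' : ℕ →₀ A, Rep u e n m z c' := by
  have h3 : a • c = u ^ k • d := by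
    have : co e (a • c) = co e (u ^ k • d) := by
      rw [co_smul, co_smul, ← h1.1, ← h2, smul_smul, smul_smul]
      congr 1
      ring
    exact he this
  have h4 : ∀ i, u ^ k ∣ c i := by
    intro i
    have h5 : a * c i = u ^ k * d i := by
      have := DFunLike.congr_fun h3 i
      simpa using this
    exact (hu.pow_dvd_of_dvd_mul_left k ha ⟨d i, by rw [h5]⟩)
  choose f hf using h4
  have hu0 : u ^ k ≠ 0 := pow_ne_zero _ hu.ne_zero
  have hfs : ∀ i, f i ≠ 0 → i ∈ c.support := by
    intro i hi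
    rw [Finsupp.mem_support_iff, hf i]
    exact mul_ne_zero hu0 hi
  refine ⟨Finsupp.onFinset c.support f hfs, ?_, fun i hi => ?_⟩
  · have h6 : c = u ^ k • Finsupp.onFinset c.support f hfs := by
      ext i
      simp [hf i]
    have h7 := h1.1
    rw [h6, co_smul, pow_add, mul_smul] at h7
    have h8 : u ^ k • (u ^ m • z - co e (Finsupp.onFinset c.support f hfs)) = 0 := by
      rw [smul_sub]
      rw [h6.symm] at *
      rw [h7, sub_self]
    have := hS _ hu0 _ h8
    rwa [sub_eq_zero] at this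
  · rw [Finsupp.onFinset_apply]
    have h9 := hf i
    rw [h1.2 i hi] at h9
    exact (mul_eq_zero.1 h9.symm).resolve_left hu0


/-- lower the degree when the leading coefficient vanishes -/
theorem Rep.drop {u : A} {e : ℕ → S} {n k : ℕ} {s : S} {c : ℕ →₀ A} (h : Rep u e (n + 1) k s c)
    (h0 : c (n + 1) = 0) : Rep u e n k s c := by
  refine ⟨h.1, fun i hi => ?_⟩
  rcases Nat.lt_or_ge (n + 1) i with h1 | h1
  · exact h.2 i h1
  · have : i = n + 1 := by omega
    rw [this, h0]

/-- INTG: `u ^ eps n * s` is in `C` for `s` of degree at most `n`. -/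
theorem intg {u : A} (hu : Prime u) {e : ℕ → S} (he : LinearIndependent A e)
    (hS : ∀ a : A, a ≠ 0 → ∀ s : S, a • s = 0 → s = 0) (x : S)
    (hx : ∀ n k s c, Rep u e n k s c → ∃ c' w, Rep u e (n + 1) k (x * s) c' ∧
      c' (n + 1) = w * c n ∧ ¬ u ∣ w) (eps : ℕ → ℕ)
    (H1 : ∀ n k s c, Rep u e n k s c → u ^ k ∣ u ^ eps n * c n)
    (H2 : ∀ n, ∃ k s c a, Rep u e n k s c ∧ u ^ eps n * c n = u ^ k * a ∧ ¬ u ∣ a) :
    ∀ n k s c, Rep u e n k s c → ∃ c', Rep u e n (eps n) s c' := by
  have hu0 : ∀ k : ℕ, u ^ k ≠ 0 := fun k => pow_ne_zero _ hu.ne_zero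
  intro n
  induction n with
  | zero =>
    intro k s c h
    obtain ⟨b, hb⟩ := H1 0 k s c h
    refine ⟨Finsupp.single 0 b, ?_, fun i hi => by
      rw [Finsupp.single_apply, if_neg (by omega)]⟩
    have hc : c = Finsupp.single 0 (c 0) := by
      ext i
      rcases Nat.eq_zero_or_pos i with rfl | hi
      · simp
      · rw [h.2 i hi, Finsupp.single_apply, if_neg (by omega)]
    have h1 : u ^ k • s = c 0 • e 0 := by
      rw [h.1, hc]
      simp [co]
    have h2 : u ^ k • (u ^ eps 0 • s - b • e 0) = 0 := by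
      rw [smul_sub, smul_comm, h1, smul_smul, hb, smul_smul, sub_self]
    have h3 := hS _ (hu0 k) _ h2
    rw [sub_eq_zero] at h3
    rw [h3]
    simp [co]
  | succ n ih =>
    obtain ⟨kq, q, cq, a, hq, hqa, ha⟩ := H2 (n + 1)
    obtain ⟨k', q', c', a', hq', hqa', ha'⟩ := H2 n
    obtain ⟨c'', w, hxq, hw, hw'⟩ := hx n k' q' c' hq'
    have hwa : ¬ u ∣ w * a' := fun h => (hu.dvd_or_dvd h).elim hw' ha'
    set E := eps (n + 1) with hE
    set E' := eps n with hE'
    have hmono : E' ≤ E := by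
      by_contra hlt
      push Not at hlt
      obtain ⟨d, hd⟩ := H1 (n + 1) k' (x * q') c'' hxq
      rw [← hE, hw] at hd
      -- u ^ E * (w * c' n) = u ^ k' * d
      have h1 : u ^ E * (w * (u ^ k' * a')) = u ^ k' * d * u ^ E' := by
        rw [← hd, ← hqa']
        ring
      have h2 : u ^ E * (w * a') = u ^ E' * d := by
        apply mul_left_cancel₀ (hu0 k')
        linear_combination h1
      obtain ⟨j, hj⟩ := Nat.exists_eq_add_of_lt hlt
      have h3 : w * a' = u ^ (j + 1) * d := by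
        apply mul_left_cancel₀ (hu0 E)
        rw [h2, hj]
        ring
      exact hwa ⟨u ^ j * d, by rw [h3]; ring⟩
    obtain ⟨j, hj⟩ := Nat.exists_eq_add_of_le hmono
    -- the first difference
    have hqK : ∃ cq', Rep u e (n + 1) E q cq' := by
      have r1 := (hxq.smul a).up kq
      have r2 := (hq.smul (w * a' * u ^ j)).up k'
      rw [add_comm kq k'] at r2
      have r3 := r1.sub r2
      have r4 := r3.drop (by
        simp only [Finsupp.sub_apply, Finsupp.smul_apply, smul_eq_mul, hw]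
        apply mul_left_cancel₀ (hu0 E)
        rw [mul_zero]
        have e1 : u ^ E * cq (n + 1) = u ^ kq * a := hqa
        have e2 : u ^ E' * c' n = u ^ k' * a' := hqa'
        rw [hj] at e1 ⊢
        rw [pow_add] at e1 ⊢
        linear_combination (u ^ j * u ^ kq * a * w) * e2 - (u ^ k' * w * a' * u ^ j) * e1)
      obtain ⟨c1, hc1⟩ := ih _ _ _ r4
      obtain ⟨c2, hc2⟩ := ih _ _ _ hq'
      obtain ⟨c3, w3, hc3, -, -⟩ := hx n E' q' c2 hc2
      refine cancel hu he hS (k := kq) (d := a • c3 - c1) hwa (hq.up E) ?_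
      rw [co_sub, co_smul, ← hc3.1, ← hc1.1, smul_sub, smul_smul, smul_smul, smul_smul, hj, pow_add,
        mul_comm a (u ^ E')]
      rw [sub_sub_cancel]
      congr 1
      ring
    obtain ⟨cq', hcq'⟩ := hqK
    intro k s c h
    obtain ⟨b, hb⟩ := H1 (n + 1) k s c h
    rw [← hE] at hb
    have r1 := (h.smul a).up kq
    have r2 := (hq.smul b).up k
    rw [add_comm kq k] at r2
    have r3 := r1.sub r2
    have r4 := r3.drop (by
      simp only [Finsupp.sub_apply, Finsupp.smul_apply, smul_eq_mul]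
      apply mul_left_cancel₀ (hu0 E)
      rw [mul_zero]
      have e1 : u ^ E * cq (n + 1) = u ^ kq * a := hqa
      linear_combination (u ^ kq * a) * hb - (u ^ k * b) * e1)
    obtain ⟨c1, hc1⟩ := ih _ _ _ r4
    refine cancel hu he hS (k := k) (d := u ^ j • c1 + b • cq') ha (h.up E) ?_
    rw [co_add, co_smul, co_smul, ← hc1.1, ← hcq'.1, smul_smul, smul_sub, smul_smul, smul_smul,
      smul_smul, hj]
    have e1 : u ^ j * u ^ E' * a = a * u ^ (E' + j) := by rw [pow_add]; ring
    have e2 : u ^ j * u ^ E' * b = b * u ^ (E' + j) := by rw [pow_add]; ring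
    rw [e1, e2, sub_add_cancel]

end Pool.Agent.LNDQ.IntgA
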