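import Pool.Agent.LNDQ.Defs
import Pool.Agent.LNDQ.IntgA

set_option autoImplicit false
set_option linter.unusedSectionVars false

open Polynomial

namespace Pool.Agent.LNDQ

section prime

variable {k S : Type} [Field k] [CommRing S] [IsDomain S] [Algebra k S] {R : Subalgebra k S} {u : R}

theorem Fr.primeR (h : Fr R u) : Prime u := by
  refine ⟨fun h0 => h.prime.ne_zero (by rw [h0]; rfl), fun hu => h.prime.not_isUnit ?_, fun a b hab => ?_⟩
  · exact hu.map R.val
  · have h1 : (u : S) ∣ (a : S) * (b : S) := by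
      obtain ⟨c, hc⟩ := hab
      exact ⟨(c : S), by rw [← MulMemClass.coe_mul, hc]; rfl⟩
    have key : ∀ c : R, (u : S) ∣ (c : S) → u ∣ c := by
      rintro c ⟨z, hz⟩
      have hzR : z ∈ R := h.sat z (by rw [← hz]; exact c.2)
      exact ⟨⟨z, hzR⟩, Subtype.ext hz⟩
    rcases h.prime.dvd_or_dvd h1 with h2 | h2
    · exact Or.inl (key a h2)
    · exact Or.inr (key b h2)

theorem Fr.primeC (h : Fr R u) : Prime (C u : R[X]) := prime_C_iff.2 h.primeR

end prime

section low

variable {R S : Type} [CommRing R] [CommRing S] [Algebra R S]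

theorem mem_low_iff (β : ℕ) (v x y : S) (n : ℕ) (z : S) : z ∈ Low R β v x y n ↔
    ∃ c : ℕ →₀ R[X], z = c.sum (fun i a => aeval v a * bs β x y i) ∧ ∀ i, n ≤ i → c i = 0 := by
  have hadd : ∀ c d : ℕ →₀ R[X], (c + d).sum (fun i a => aeval v a * bs β x y i) =
      c.sum (fun i a => aeval v a * bs β x y i) + d.sum (fun i a => aeval v a * bs β x y i) := by
    intro c d
    refine Finsupp.sum_add_index' (fun i => by simp) (fun i a b => by simp [add_mul])
  have hsmul : ∀ (r : R) (c : ℕ →₀ R[X]), ((C r : R[X]) • c).sum (fun i a => aeval v a * bs β x y i) =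
      r • c.sum (fun i a => aeval v a * bs β x y i) := by
    intro r c
    rw [Finsupp.sum_smul_index (fun i => by simp), Finsupp.smul_sum]
    refine Finsupp.sum_congr fun i _ => ?_
    rw [map_mul, aeval_C, Algebra.smul_def, mul_assoc]
  constructor
  · intro hz
    refine Submodule.span_induction (p := fun z _ => ∃ c : ℕ →₀ R[X],
      z = c.sum (fun i a => aeval v a * bs β x y i) ∧ ∀ i, n ≤ i → c i = 0) ?_ ?_ ?_ ?_ hz
    · rintro z ⟨i, j, hj, rfl⟩
      refine ⟨Finsupp.single j (X ^ i), ?_, fun i' hi' => ?_⟩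
      · rw [Finsupp.sum_single_index (by simp)]
        simp
      · rw [Finsupp.single_apply, if_neg (by omega)]
    · exact ⟨0, by simp, fun _ _ => rfl⟩
    · rintro a b _ _ ⟨c, rfl, hc⟩ ⟨d, rfl, hd⟩
      exact ⟨c + d, (hadd c d).symm, fun i hi => by simp [hc i hi, hd i hi]⟩
    · rintro r a _ ⟨c, rfl, hc⟩
      exact ⟨(C r : R[X]) • c, (hsmul r c).symm, fun i hi => by simp [hc i hi]⟩
  · rintro ⟨c, rfl, hc⟩
    refine Submodule.sum_mem _ fun i hi => ?_
    have hin : i < n := by
      by_contra h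
      exact (Finsupp.mem_support_iff.1 hi) (hc i (not_lt.1 h))
    show aeval v (c i) * bs β x y i ∈ _
    induction c i using Polynomial.induction_on' with
    | add p q hp hq => rw [map_add, add_mul]; exact add_mem hp hq
    | monomial m r =>
      rw [aeval_monomial, mul_assoc, ← Algebra.smul_def]
      exact Submodule.smul_mem _ _ (Submodule.subset_span ⟨m, i, hin, rfl⟩)

/-- the combination of the basis elements with coefficients `c` in `R[v]` -/
noncomputable def cmb (β : ℕ) (v x y : S) (c : ℕ →₀ R[X]) : S :=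
  c.sum (fun i a => aeval v a * bs β x y i)

theorem cmb_add (β : ℕ) (v x y : S) (c d : ℕ →₀ R[X]) :
    cmb β v x y (c + d) = cmb β v x y c + cmb β v x y d :=
  Finsupp.sum_add_index' (fun i => by simp) (fun i a b => by simp [add_mul])

theorem cmb_smul (β : ℕ) (v x y : S) (a : R[X]) (c : ℕ →₀ R[X]) :
    cmb β v x y (a • c) = aeval v a * cmb β v x y c := by
  unfold cmb
  rw [Finsupp.sum_smul_index (fun i => by simp), Finsupp.sum, Finsupp.sum, Finset.mul_sum]
  refine Finset.sum_congr rfl fun i _ => ?_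
  rw [map_mul, mul_assoc]

theorem cmb_single (β : ℕ) (v x y : S) (i : ℕ) (a : R[X]) :
    cmb β v x y (Finsupp.single i a) = aeval v a * bs β x y i := by
  unfold cmb
  rw [Finsupp.sum_single_index (by simp)]

theorem cmb_sum {ι : Type} (β : ℕ) (v x y : S) (s : Finset ι) (c : ι → ℕ →₀ R[X]) :
    cmb β v x y (∑ i ∈ s, c i) = ∑ i ∈ s, cmb β v x y (c i) := by
  classical
  induction s using Finset.induction_on with
  | empty => simp [cmb]
  | insert a s ha ih => rw [Finset.sum_insert ha, Finset.sum_insert ha, cmb_add, ih]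

theorem x_bs {f : R[X]} {v x y : S} (hp : Pres f v x y) (i : ℕ) : ∃ d : ℕ →₀ R[X],
    x * bs f.natDegree x y i = cmb f.natDegree v x y d ∧ (∀ j, i + 1 < j → d j = 0) ∧
      (d (i + 1) = 1 ∨ d (i + 1) = X) := by
  have hβ := hp.deg
  set β := f.natDegree with hb
  by_cases h : (i + 1) % β = 0
  · -- x * x^(β-1) y^j = x^β y^j
    obtain ⟨m, hm⟩ := Nat.dvd_of_mod_eq_zero h
    have hm0 : m ≠ 0 := by rintro rfl; simp at hm
    obtain ⟨j, rfl⟩ : ∃ j, m = j + 1 := ⟨m - 1, by omega⟩
    have hi : i = β * j + (β - 1) := by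
      have : β * (j + 1) = β * j + β := by ring
      omega
    have hmod : i % β = β - 1 := by
      rw [hi, Nat.mul_add_mod, Nat.mod_eq_of_lt (by omega)]
    have hdiv : i / β = j := by
      rw [hi, Nat.mul_add_div (by omega), Nat.div_eq_of_lt (by omega), add_zero]
    refine ⟨Finsupp.single (i + 1) X -
      ∑ t ∈ Finset.range β, Finsupp.single (β * j + t) (C (f.coeff t)), ?_, fun j' hj' => ?_, ?_⟩
    · rw [sub_eq_add_neg, ← neg_one_smul R[X] (∑ t ∈ Finset.range β, _), cmb_add, cmb_smul, cmb_sum,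
        cmb_single]
      have h1 : bs β x y (i + 1) = y ^ (j + 1) := by
        unfold bs
        rw [h, hm, Nat.mul_div_cancel_left _ (by omega), pow_zero, one_mul]
      have h2 : ∀ t ∈ Finset.range β, cmb β v x y (Finsupp.single (β * j + t) (C (f.coeff t))) =
          algebraMap R S (f.coeff t) * x ^ t * y ^ j := by
        intro t ht
        have ht' := Finset.mem_range.1 ht
        rw [cmb_single, aeval_C]
        unfold bs
        rw [Nat.mul_add_mod, Nat.mod_eq_of_lt ht', Nat.mul_add_div (by omega), Nat.div_eq_of_lt ht',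
          add_zero, mul_assoc]
      rw [Finset.sum_congr rfl h2, ← Finset.sum_mul, h1, aeval_X]
      have h3 : v * y = x ^ β + ∑ t ∈ Finset.range β, algebraMap R S (f.coeff t) * x ^ t := by
        rw [hp.rel, aeval_eq_sum_range, Finset.sum_range_succ, hp.monic.coeff_natDegree, one_smul,
          add_comm]
        simp only [Algebra.smul_def]
        rw [hb]
      have h4 : bs β x y i = x ^ (β - 1) * y ^ j := by
        unfold bs
        rw [hmod, hdiv]
      have h5 : x * x ^ (β - 1) = x ^ β := by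
        rw [← pow_succ', Nat.sub_add_cancel (by omega)]
      rw [h4, ← mul_assoc, h5, pow_succ, map_neg, map_one]
      linear_combination (-y ^ j) * h3
    · rw [Finsupp.sub_apply, Finsupp.finsetSum_apply, Finsupp.single_apply, if_neg (by omega),
        Finset.sum_eq_zero, sub_zero]
      intro t ht
      have ht' := Finset.mem_range.1 ht
      rw [Finsupp.single_apply, if_neg (by omega)]
    · right
      rw [Finsupp.sub_apply, Finsupp.finsetSum_apply, Finsupp.single_apply, if_pos rfl,
        Finset.sum_eq_zero, sub_zero]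
      intro t ht
      have ht' := Finset.mem_range.1 ht
      rw [Finsupp.single_apply, if_neg (by omega)]
  · refine ⟨Finsupp.single (i + 1) 1, ?_, fun j hj => by
      rw [Finsupp.single_apply, if_neg (by omega)], Or.inl (by simp)⟩
    rw [cmb_single, map_one, one_mul]
    unfold bs
    have hlt : i % β < β := Nat.mod_lt _ (by omega)
    have h1 : i % β + 1 < β := by
      by_contra hge
      apply h
      have h2 : i % β + 1 = β := by omega
      have h3 := Nat.div_add_mod i β
      have h4 : i + 1 = β * (i / β + 1) := by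
        have : β * (i / β + 1) = β * (i / β) + β := by ring
        omega
      rw [h4]
      exact Nat.mul_mod_right _ _
    have h2 : (i + 1) % β = i % β + 1 := by
      rw [Nat.add_mod, Nat.mod_eq_of_lt (by omega : 1 < β), Nat.mod_eq_of_lt h1]
    have h3 : (i + 1) / β = i / β := by
      have h3 := Nat.div_add_mod i β
      rw [Nat.div_eq_iff (by omega)]
      constructor
      · rw [mul_comm]; omega
      · rw [mul_comm]; omega
    rw [h2, h3, pow_succ']
    ring

theorem mul_x {f : R[X]} {v x y : S} (hp : Pres f v x y) (c : ℕ →₀ R[X]) (n : ℕ)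
    (hc : ∀ i, n < i → c i = 0) : ∃ (c' : ℕ →₀ R[X]) (w : R[X]),
    x * cmb f.natDegree v x y c = cmb f.natDegree v x y c' ∧ (∀ i, n + 1 < i → c' i = 0) ∧
      c' (n + 1) = w * c n ∧ (w = 1 ∨ w = X) := by
  choose d hd1 hd2 hd3 using x_bs hp
  have hsup : ∀ i ∈ c.support, i ≤ n := by
    intro i hi
    by_contra h
    exact (Finsupp.mem_support_iff.1 hi) (hc i (not_le.1 h))
  refine ⟨∑ i ∈ c.support, c i • d i, d n (n + 1), ?_, fun j hj => ?_, ?_, hd3 n⟩
  · rw [cmb_sum]
    unfold cmb
    rw [Finsupp.sum, Finset.mul_sum]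
    refine Finset.sum_congr rfl fun i _ => ?_
    have := cmb_smul f.natDegree v x y (c i) (d i)
    unfold cmb at this
    rw [this]
    have h2 := hd1 i
    unfold cmb at h2
    rw [← h2]
    ring
  · rw [Finsupp.finsetSum_apply, Finset.sum_eq_zero]
    intro i hi
    rw [Finsupp.smul_apply, hd2 i j (by have := hsup i hi; omega), smul_zero]
  · rw [Finsupp.finsetSum_apply]
    by_cases hn : n ∈ c.support
    · rw [Finset.sum_eq_single n]
      · rw [Finsupp.smul_apply, smul_eq_mul, mul_comm]
      · intro i hi hin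
        rw [Finsupp.smul_apply, hd2 i (n + 1) (by have := hsup i hi; omega), smul_zero]
      · exact fun h => absurd hn h
    · rw [Finsupp.notMem_support_iff.1 hn, mul_zero, Finset.sum_eq_zero]
      intro i hi
      have h1 : i ≠ n := fun h => hn (h ▸ hi)
      rw [Finsupp.smul_apply, hd2 i (n + 1) (by have := hsup i hi; omega), smul_zero]

end low

section main

variable {k S : Type} [Field k] [CommRing S] [IsDomain S] [Algebra k S] {R : Subalgebra k S} {u : R}
  {f : R[X]} {v x y : S}

theorem isEps_le (hu : Prime (C u : R[X])) {β n M M' : ℕ} (h : IsEps R u β v x y n M)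
    (h' : IsEps R u β v x y n M') : M ≤ M' := by
  obtain ⟨z, a, ha, hz⟩ := h.ex
  have h1 := h'.max z M a hz
  by_contra hlt
  push Not at hlt
  obtain ⟨j, rfl⟩ := Nat.exists_eq_add_of_lt hlt
  obtain ⟨d, hd⟩ := h1
  apply ha
  refine ⟨C u ^ j * d, ?_⟩
  apply mul_left_cancel₀ (pow_ne_zero M' hu.ne_zero)
  rw [mul_comm, hd]
  ring

theorem isEps_unique (hu : Prime (C u : R[X])) {β n M M' : ℕ} (h : IsEps R u β v x y n M)
    (h' : IsEps R u β v x y n M') : M = M' :=
  le_antisymm (isEps_le hu h h') (isEps_le hu h' h)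

/-- `LT` from a full expansion -/
theorem lt_of_cmb {β n m : ℕ} {z : S} {c : ℕ →₀ R[X]} (h : (u : S) ^ m * z = cmb β v x y c)
    (hc : ∀ i, n < i → c i = 0) : LT R u β v x y n m (c n) z := by
  refine ⟨0, ?_⟩
  rw [add_zero, pow_zero, one_mul, h, mem_low_iff]
  refine ⟨c.erase n, ?_, fun i hi => ?_⟩
  · have h1 : c = Finsupp.single n (c n) + c.erase n := (Finsupp.single_add_erase n c).symm
    have h2 : cmb β v x y c = aeval v (c n) * bs β x y n + cmb β v x y (c.erase n) := by
      conv_lhs => rw [h1]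
      rw [cmb_add, cmb_single]
    rw [h2]
    unfold cmb
    ring
  · rcases Nat.lt_or_ge n i with h1 | h1
    · rw [Finsupp.erase_ne (by omega), hc i h1]
    · have : i = n := by omega
      rw [this, Finsupp.erase_same]

/-- a full expansion from `LT` -/
theorem LT.exists_cmb {β n M : ℕ} {z : S} {a : R[X]} (h : LT R u β v x y n M a z) :
    ∃ (t : ℕ) (c : ℕ →₀ R[X]), (u : S) ^ (M + t) * z = cmb β v x y c ∧ (∀ i, n < i → c i = 0) ∧
      c n = C u ^ t * a := by
  obtain ⟨t, ht⟩ := h
  obtain ⟨c0, h0, hc0⟩ := (mem_low_iff β v x y n _).1 ht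
  refine ⟨t, c0 + Finsupp.single n (C u ^ t * a), ?_, fun i hi => ?_, ?_⟩
  · rw [cmb_add, cmb_single, map_mul, map_pow, aeval_C]
    have h1 : (u : S) ^ (M + t) * z = cmb β v x y c0 + (u : S) ^ t * (aeval v a * bs β x y n) := by
      unfold cmb
      rw [← h0]
      ring
    rw [h1, mul_assoc]
    rfl
  · rw [Finsupp.add_apply, hc0 i hi.le, Finsupp.single_apply, if_neg (by omega), add_zero]
  · rw [Finsupp.add_apply, hc0 n le_rfl, Finsupp.single_eq_same, zero_add]

/-- INTG of doc H/821812_Q1: `u ^ M * z` is in `R[v,x,y]`, of degree `≤ n`, for all `z` in `S` of degree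
`≤ n`, `M` the largest exponent of `u` in leading coefficients of degree `n`. -/
theorem intg_of_ind (h : Env R u f v x y)
    (he : ∀ c : ℕ →₀ R[X], cmb f.natDegree v x y c = 0 → c = 0) {n M : ℕ}
    (hM : IsEps R u f.natDegree v x y n M) {z : S} (hz : Fl R u f.natDegree v x y (n + 1) z) :
    (u : S) ^ M * z ∈ Low R f.natDegree v x y (n + 1) := by
  have hu := h.fr.primeC
  set β := f.natDegree with hβ
  letI : Algebra R[X] S := (aeval v : R[X] →ₐ[R] S).toRingHom.toAlgebra
  have hsm : ∀ (a : R[X]) (s : S), a • s = aeval v a * s := fun a s => rfl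
  have hco : ∀ c : ℕ →₀ R[X], IntgA.co (bs β x y) c = cmb β v x y c := by
    intro c
    unfold IntgA.co cmb
    rw [Finsupp.linearCombination_apply]
    rfl
  have hpow : ∀ (m : ℕ) (s : S), (C u : R[X]) ^ m • s = (u : S) ^ m * s := by
    intro m s
    rw [hsm, map_pow, aeval_C]
    rfl
  have hrep : ∀ (n m : ℕ) (s : S) (c : ℕ →₀ R[X]), IntgA.Rep (C u) (bs β x y) n m s c ↔
      ((u : S) ^ m * s = cmb β v x y c ∧ ∀ i, n < i → c i = 0) := by
    intro n m s c
    unfold IntgA.Rep
    rw [hpow, hco]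
  choose E hE using h.eps
  have hME : M = E n := isEps_unique hu hM (hE n)
  have hli : LinearIndependent R[X] (bs β x y) := by
    rw [linearIndependent_iff]
    intro c hc
    exact he c (by rw [← hco]; exact hc)
  have htor : ∀ a : R[X], a ≠ 0 → ∀ s : S, a • s = 0 → s = 0 := by
    intro a ha s hs
    rw [hsm] at hs
    refine (mul_eq_zero.1 hs).resolve_left fun h0 => ha ?_
    have h1 := he (Finsupp.single 0 a) (by
      rw [cmb_single, h0, zero_mul])
    exact Finsupp.single_eq_zero.1 h1
  have hX : ¬ (C u : R[X]) ∣ X := by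
    intro hd
    have h1 := (C_dvd_iff_dvd_coeff u X).1 hd 1
    rw [coeff_X_one] at h1
    exact h.fr.primeR.not_dvd_one h1
  obtain ⟨m, hm⟩ := hz
  obtain ⟨c, hc, hc0⟩ := (mem_low_iff β v x y (n + 1) _).1 hm
  obtain ⟨c', hc'⟩ := IntgA.intg hu hli htor x
    (by
      intro n k s c hr
      obtain ⟨h1, h2⟩ := (hrep _ _ _ _).1 hr
      obtain ⟨c', w, e1, e2, e3, e4⟩ := mul_x h.pres c n h2
      refine ⟨c', w, (hrep _ _ _ _).2 ⟨?_, e2⟩, e3, ?_⟩
      · rw [← e1, ← h1]
        ring
      · rcases e4 with rfl | rfl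
        · exact hu.not_dvd_one
        · exact hX) E
    (by
      intro n k s c hr
      obtain ⟨h1, h2⟩ := (hrep _ _ _ _).1 hr
      have h3 := (hE n).max s k (c n) (lt_of_cmb h1 h2)
      rwa [mul_comm] at h3)
    (by
      intro n
      obtain ⟨s, a, ha, hs⟩ := (hE n).ex
      obtain ⟨t, c, h1, h2, h3⟩ := hs.exists_cmb
      refine ⟨E n + t, s, c, a, (hrep _ _ _ _).2 ⟨h1, h2⟩, ?_, ha⟩
      rw [h3]
      ring) n m z c ((hrep _ _ _ _).2 ⟨hc, fun i hi => hc0 i (by omega)⟩)
  obtain ⟨h1, h2⟩ := (hrep _ _ _ _).1 hc'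
  rw [hME, h1, mem_low_iff]
  exact ⟨c', rfl, fun i hi => h2 i (by omega)⟩

end main

end Pool.Agent.LNDQ
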