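import Pool.Agent.LNDQ.Bas
import Pool.Agent.LNDQ.Intg

set_option autoImplicit false
set_option linter.unusedSectionVars false

open Polynomial

namespace Pool.Agent.LNDQ

section

variable {R S : Type} [CommRing R] [CommRing S] [IsDomain S] [Algebra R S] {f : R[X]} {v x y : S}

theorem Pres.rl' (hP : Pres f v x y) : Bas.Rl f f.natDegree v x y :=
  ⟨by have := hP.deg; omega, hP.monic, rfl, hP.rel⟩

theorem ind_of_algInd {R : Type} [CommRing R] [Algebra R S] {v x : S}
    (h : AlgebraicIndependent R ![v, x]) : Bas.Ind R v x := by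
  have := (faithfulSMul_iff_algebraMap_injective R S).2 h.algebraMap_injective
  intro P hP
  have h0 : (![v, x] '' {(1 : Fin 2)}ᶜ) = {v} := by
    ext z
    simp only [Set.mem_image, Set.mem_compl_iff, Set.mem_singleton_iff]
    constructor
    · rintro ⟨i, hi, rfl⟩
      fin_cases i
      · rfl
      · exact absurd rfl hi
    · rintro rfl
      exact ⟨0, by simp, rfl⟩
  have hv : Transcendental R v := by
    have := h.transcendental 0
    simpa using this
  have hx : Transcendental (Algebra.adjoin R {v}) x := by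
    have h1 := (AlgebraicIndependent.iff_transcendental_adjoin_image (x := ![v, x]) 1).1 h
    have h2 := h1.2
    rw [h0] at h2
    exact h2
  let φ : R[X] →+* Algebra.adjoin R {v} :=
    ((aeval v : R[X] →ₐ[R] S).toRingHom).codRestrict (Algebra.adjoin R {v}).toSubring
      (fun q => aeval_mem_adjoin_singleton R v (p := q))
  have hφ : ∀ q, ((φ q : Algebra.adjoin R {v}) : S) = aeval v q := fun q => rfl
  have h3 : aeval x (P.map φ) = 0 := by
    rw [aeval_def, eval₂_map]
    exact hP
  have h4 : P.map φ = 0 := by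
    by_contra hne
    exact hx ⟨_, hne, h3⟩
  ext1 i
  have h5 : φ (P.coeff i) = 0 := by rw [← coeff_map, h4, coeff_zero]
  have h6 : aeval v (P.coeff i) = 0 := by rw [← hφ, h5]; rfl
  by_contra hne
  exact hv ⟨_, hne, h6⟩

theorem cmb_eq_zero (hP : Pres f v x y) (c : ℕ →₀ R[X])
    (hc : cmb f.natDegree v x y c = 0) : c = 0 := by
  have hi : Bas.Ind R v x := ind_of_algInd hP.ind
  have h1 : ∀ n, (∀ i ∈ c.support, i < n) →
      ∑ i ∈ Finset.range n, aeval v (c i) * Bas.e f.natDegree x y i = 0 := by
    intro n hn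
    rw [← hc]
    unfold cmb
    rw [Finsupp.sum]
    symm
    refine Finset.sum_subset (fun i hi' => Finset.mem_range.2 (hn i hi')) fun i _ hi' => ?_
    rw [Finsupp.notMem_support_iff.1 hi', map_zero, zero_mul]
  obtain ⟨n, hn⟩ : ∃ n, ∀ i ∈ c.support, i < n :=
    ⟨c.support.sup id + 1, fun i hi' => Nat.lt_succ_of_le (Finset.le_sup (f := id) hi')⟩
  ext1 i
  by_cases hic : i ∈ c.support
  · exact Bas.uniq hP.rl' hi (h1 n hn) i (hn i hic)
  · exact Finsupp.notMem_support_iff.1 hic

end

section

variable {k S : Type} [Field k] [CommRing S] [IsDomain S] [Algebra k S] {R : Subalgebra k S} {u : R}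
  {f : R[X]} {v x y : S}

/-- integrality, with the degree -/
theorem intg_low (hE : Env R u f v x y) {n M : ℕ} (hM : IsEps R u f.natDegree v x y n M) {z : S}
    (hz : Fl R u f.natDegree v x y (n + 1) z) :
    (u : S) ^ M * z ∈ Low R f.natDegree v x y (n + 1) :=
  intg_of_ind hE (fun c hc => cmb_eq_zero hE.pres c hc) hM hz

theorem low_le_cx {n : ℕ} {z : S} (hz : z ∈ Low R f.natDegree v x y n) : z ∈ Cx R v x y := by
  have h1 : z ∈ Algebra.adjoin R {v, x, y} := by
    refine Submodule.span_induction (p := fun z _ => z ∈ Algebra.adjoin R {v, x, y}) ?_ ?_ ?_ ?_ hz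
    · rintro z ⟨i, j, -, rfl⟩
      have hv : v ∈ Algebra.adjoin R ({v, x, y} : Set S) := Algebra.subset_adjoin (by simp)
      have hx : x ∈ Algebra.adjoin R ({v, x, y} : Set S) := Algebra.subset_adjoin (by simp)
      have hy : y ∈ Algebra.adjoin R ({v, x, y} : Set S) := Algebra.subset_adjoin (by simp)
      exact mul_mem (pow_mem hv i) (mul_mem (pow_mem hx _) (pow_mem hy _))
    · exact zero_mem _
    · exact fun a b _ _ ha hb => add_mem ha hb
    · exact fun r a _ ha => Subalgebra.smul_mem _ ha r
  exact h1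

/-- integrality -/
theorem intg (hE : Env R u f v x y) (n M : ℕ) (hM : IsEps R u f.natDegree v x y n M) (z : S)
    (hz : Fl R u f.natDegree v x y (n + 1) z) :
    (u : S) ^ M * z ∈ Cx R v x y :=
  low_le_cx (intg_low hE hM hz)

end

end Pool.Agent.LNDQ
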