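import Mathlib
import Pool.Agent.LNDQ.Defs
import Pool.Agent.LNDQ.NfIntg

set_option autoImplicit false

/-!
# Normal form modulo `v`
-/

open Polynomial

namespace Pool.Agent.LNDQ.DG

variable {k S : Type} [Field k] [CommRing S] [IsDomain S] [Algebra k S] {R : Subalgebra k S}

/-- normal form modulo `v` -/
theorem f_dvd_of_v_dvd {f : R[X]} {v x y : S} (hp : Pres f v x y) {P : R[X]} {z : S}
    (hz : z ∈ Cx R v x y) (h : aeval x P = v * z) : f ∣ P := by
  have hb : 0 < f.natDegree := lt_of_lt_of_le (by norm_num) hp.deg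
  have hR : Bas.Rl f f.natDegree v x y := ⟨hb, hp.monic, rfl, hp.rel⟩
  have hi : Bas.Ind R v x := ind_of_algInd hp.ind
  obtain ⟨r, hr⟩ : ∃ r, r = P %ₘ f := ⟨_, rfl⟩
  have hdiv : r + f * (P /ₘ f) = P := hr ▸ modByMonic_add_div P f
  have hrd : r.natDegree < f.natDegree := by
    rw [hr]
    refine natDegree_modByMonic_lt P hp.monic ?_
    intro h1
    rw [h1, natDegree_one] at hb
    exact lt_irrefl _ hb
  obtain ⟨w, hw⟩ : ∃ w, w = z - y * aeval x (P /ₘ f) := ⟨_, rfl⟩
  have hwC : w ∈ Algebra.adjoin R ({v, x, y} : Set S) := by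
    have hx : x ∈ Algebra.adjoin R ({v, x, y} : Set S) := Algebra.subset_adjoin (by simp)
    have hy : y ∈ Algebra.adjoin R ({v, x, y} : Set S) := Algebra.subset_adjoin (by simp)
    have hz' : z ∈ Algebra.adjoin R ({v, x, y} : Set S) := hz
    rw [hw]
    refine Subalgebra.sub_mem _ hz' (Subalgebra.mul_mem _ hy ?_)
    have h1 : aeval x (P /ₘ f) ∈ Algebra.adjoin R ({x} : Set S) :=
      aeval_mem_adjoin_singleton R x
    exact Algebra.adjoin_mono (by simp) h1
  have hrw : aeval x r = v * w := by
    have h1 := congrArg (aeval x) hdiv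
    rw [map_add, map_mul, ← hp.rel, h] at h1
    rw [hw]
    linear_combination h1
  obtain ⟨n, p, hpn⟩ := Bas.exists_low hR hwC
  obtain ⟨m, hm⟩ : ∃ m, m = max n f.natDegree := ⟨_, rfl⟩
  have h0 : ∑ i ∈ Finset.range m, aeval v
      (C (r.coeff i) - X * (if i < n then p i else 0)) * Bas.e f.natDegree x y i = 0 := by
    have h1 : ∑ i ∈ Finset.range m, aeval v (C (r.coeff i)) * Bas.e f.natDegree x y i =
        aeval x r := by
      rw [aeval_eq_sum_range' (lt_of_lt_of_le hrd (hm ▸ le_max_right n f.natDegree))]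
      refine Finset.sum_congr rfl fun i _ => ?_
      rw [aeval_C, Algebra.smul_def]
      by_cases hif : i < f.natDegree
      · rw [Bas.e, Nat.mod_eq_of_lt hif, Nat.div_eq_of_lt hif, pow_zero, mul_one]
      · rw [coeff_eq_zero_of_natDegree_lt (by omega), map_zero, zero_mul, zero_mul]
    have h2 : ∑ i ∈ Finset.range m, aeval v (if i < n then p i else 0) *
        Bas.e f.natDegree x y i = w := by
      rw [hpn, ← Finset.sum_subset (Finset.range_subset_range.2 (hm ▸ le_max_left n f.natDegree))]
      · refine Finset.sum_congr rfl fun i hi' => ?_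
        rw [if_pos (Finset.mem_range.1 hi')]
      · intro i _ hi'
        rw [if_neg (fun h => hi' (Finset.mem_range.2 h)), map_zero, zero_mul]
    have h3 : ∀ i, aeval v (C (r.coeff i) - X * (if i < n then p i else 0)) *
        Bas.e f.natDegree x y i = aeval v (C (r.coeff i)) * Bas.e f.natDegree x y i -
        v * (aeval v (if i < n then p i else 0) * Bas.e f.natDegree x y i) := by
      intro i
      rw [map_sub, map_mul, aeval_X]
      ring
    rw [Finset.sum_congr rfl fun i _ => h3 i, Finset.sum_sub_distrib, h1, ← Finset.mul_sum, h2,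
      hrw, sub_self]
  have h4 := Bas.uniq hR hi h0
  have hr0 : r = 0 := by
    ext i
    rw [coeff_zero]
    by_cases him : i < m
    · have h5 := congrArg (fun q : R[X] => q.coeff 0) (h4 i him)
      simp only [coeff_sub, coeff_C_zero, mul_coeff_zero, coeff_X_zero, zero_mul, sub_zero,
        coeff_zero] at h5
      exact congrArg _ h5
    · have h6 : f.natDegree ≤ m := hm ▸ le_max_right n f.natDegree
      rw [coeff_eq_zero_of_natDegree_lt (by omega)]
  rw [hr0, zero_add] at hdiv
  exact ⟨_, hdiv.symm⟩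

end Pool.Agent.LNDQ.DG
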