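import Mathlib
import Pool.Agent.LNDQ.DG3
import Pool.Agent.LNDQ.DG4b
import Pool.Agent.LNDQ.DG4d
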