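import Mathlib
import Pool.Agent.LNDF.JacC

set_option autoImplicit false

open Polynomial

namespace Pool.Agent.LNDQ

open Pool.Agent.LNDF

variable {k : Type} [Field k]

/-- the Jacobian derivation `b ↦ det d(a, b, ·)/d(x, y, z)` -/
noncomputable def jacD (a b : B3 k) : Derivation k (B3 k) (B3 k) :=
  (MvPolynomial.pderiv 1 a * MvPolynomial.pderiv 2 b -
      MvPolynomial.pderiv 2 a * MvPolynomial.pderiv 1 b) • MvPolynomial.pderiv 0 +
    (MvPolynomial.pderiv 2 a * MvPolynomial.pderiv 0 b -
      MvPolynomial.pderiv 0 a * MvPolynomial.pderiv 2 b) • MvPolynomial.pderiv 1 +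
    (MvPolynomial.pderiv 0 a * MvPolynomial.pderiv 1 b -
      MvPolynomial.pderiv 1 a * MvPolynomial.pderiv 0 b) • MvPolynomial.pderiv 2

theorem jacD_apply (a b c : B3 k) : jacD a b c = jac3 a b c := by
  simp only [jacD, jac3, Matrix.det_fin_three, Derivation.add_apply, Derivation.smul_apply,
    smul_eq_mul, Matrix.of_apply, Matrix.cons_val', Matrix.cons_val_zero, Matrix.cons_val_one,
    Matrix.cons_val]
  ring

/-- `jac3 u · ·` is a biderivation, alternating, and kills `u` -/
theorem jac3_swap (u a b : B3 k) : jac3 u a b = - jac3 u b a := by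
  rw [← jacD_apply, ← jacD_apply]
  simp only [jacD, Derivation.add_apply, Derivation.smul_apply, smul_eq_mul]
  ring

theorem jac3_self (u a : B3 k) : jac3 u a a = 0 := by
  rw [← jacD_apply]
  simp only [jacD, Derivation.add_apply, Derivation.smul_apply, smul_eq_mul]
  ring

theorem jac3_u (u a : B3 k) : jac3 u a u = 0 := by
  rw [← jacD_apply]
  simp only [jacD, Derivation.add_apply, Derivation.smul_apply, smul_eq_mul]
  ring

theorem jac3_u' (u a : B3 k) : jac3 u u a = 0 := by
  rw [jac3_swap, jac3_u, neg_zero]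

theorem jac3_mul (u a b c : B3 k) : jac3 u a (b * c) = b * jac3 u a c + c * jac3 u a b := by
  rw [← jacD_apply, ← jacD_apply, ← jacD_apply, Derivation.leibniz, smul_eq_mul, smul_eq_mul]

theorem jac3_mul' (u a b c : B3 k) : jac3 u (b * c) a = b * jac3 u c a + c * jac3 u b a := by
  rw [jac3_swap, jac3_mul, jac3_swap u a c, jac3_swap u a b]
  ring

theorem jac3_add (u a b c : B3 k) : jac3 u a (b + c) = jac3 u a b + jac3 u a c := by
  rw [← jacD_apply, ← jacD_apply, ← jacD_apply, map_add]

theorem jac3_add' (u a b c : B3 k) : jac3 u (b + c) a = jac3 u b a + jac3 u c a := by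
  rw [jac3_swap, jac3_add, jac3_swap u a b, jac3_swap u a c]
  ring

/-- a prime `p` which divides `jac3 p h b` for all `b` divides some `h - α` -/
theorem dvd_sub_of_jac [CharZero k] [IsAlgClosed k] {p h : B3 k} (hp : Prime p)
    (hd : ∀ b, p ∣ jac3 p h b) : ∃ α : k, p ∣ h - MvPolynomial.C α := by
  have m01 : p ∣ MvPolynomial.pderiv 0 p * MvPolynomial.pderiv 1 h -
      MvPolynomial.pderiv 1 p * MvPolynomial.pderiv 0 h := by
    have h1 := hd (MvPolynomial.X 2)
    rw [← jacD_apply] at h1
    simpa [jacD, MvPolynomial.pderiv_X] using h1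
  have m02 : p ∣ MvPolynomial.pderiv 2 p * MvPolynomial.pderiv 0 h -
      MvPolynomial.pderiv 0 p * MvPolynomial.pderiv 2 h := by
    have h1 := hd (MvPolynomial.X 1)
    rw [← jacD_apply] at h1
    simpa [jacD, MvPolynomial.pderiv_X] using h1
  have m12 : p ∣ MvPolynomial.pderiv 1 p * MvPolynomial.pderiv 2 h -
      MvPolynomial.pderiv 2 p * MvPolynomial.pderiv 1 h := by
    have h1 := hd (MvPolynomial.X 0)
    rw [← jacD_apply] at h1
    simpa [jacD, MvPolynomial.pderiv_X] using h1
  obtain ⟨F, hF, hF2⟩ := alg_of_minors (h := h) hp (fun i j => by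
    fin_cases i <;> fin_cases j
    · simp
    · exact m01
    · rw [← dvd_neg, neg_sub]; exact m02
    · rw [← dvd_neg, neg_sub]; exact m01
    · simp
    · exact m12
    · exact m02
    · rw [← dvd_neg, neg_sub]; exact m12
    · simp)
  exact dvd_sub_of_dvd_aeval hp hF hF2

end Pool.Agent.LNDQ
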