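import Mathlib
import Pool.Agent.LNDQ.Dat
import Pool.Agent.LNDQ.DG1
import Pool.Agent.LNDF.Ar1

set_option autoImplicit false

open Polynomial

namespace Pool.Agent.LNDQ

open Pool.Agent.LNDF

variable {k S : Type} [Field k] [CommRing S] [IsDomain S] [Algebra k S]
  {R : Subalgebra k S} {u : R} {ι : B3 k →ₐ[k] S} {u0 : B3 k} {br : S → S → S}

omit [IsDomain S] in
/-- a unit of `S` -/
theorem LocB.isUnit (hL : LocB ι u0 R u) {q : k[X]} (hq : q.eval 0 ≠ 0) :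
    IsUnit (ι (aeval u0 q)) := by
  obtain ⟨r, hr⟩ := hL.unit q hq
  exact IsUnit.of_mul_eq_one (r : S) (by rw [mul_comm]; exact hr)

omit [IsDomain S] in
/-- `u0` is prime -/
theorem LocB.prime_u0 (hL : LocB ι u0 R u) : Prime u0 := by
  have h := hL.up 0
  rwa [map_zero, sub_zero] at h

omit [IsDomain S] in
/-- `u0` does not divide `q(u0)`, `q(0) ≠ 0` -/
theorem LocB.u0_not_dvd (hL : LocB ι u0 R u) {q : k[X]} (hq : q.eval 0 ≠ 0) :
    ¬ u0 ∣ aeval u0 q := by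
  intro hd
  have h1 : u0 ∣ aeval u0 (q - C (q.eval 0)) := by
    have h2 : X ∣ q - C (q.eval 0) := by
      have h3 := X_sub_C_dvd_sub_C_eval (a := (0 : k)) (p := q)
      rwa [C_0, sub_zero] at h3
    obtain ⟨s, hs⟩ := h2
    rw [hs, map_mul, aeval_X]
    exact dvd_mul_right _ _
  have h2 : u0 ∣ MvPolynomial.C (q.eval 0) := by
    have h3 := dvd_sub hd h1
    rw [← map_sub, sub_sub_cancel, aeval_C] at h3
    exact h3
  exact hL.prime_u0.not_isUnit (isUnit_of_dvd_unit h2 ((isUnit_iff_ne_zero.2 hq).map MvPolynomial.C))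

omit [IsDomain S] in
/-- a prime `p` of `k[x,y,z]` which divides no `q(u0)`, `q(0) ≠ 0`, in particular every prime not in `k[u0]`:
divisibility by `p` in `S` and in `k[x,y,z]` -/
theorem LocB.p_dvd (hL : LocB ι u0 R u) {p : B3 k} (hp : Prime p)
    (hq : ∀ q : k[X], q.eval 0 ≠ 0 → ¬ p ∣ aeval u0 q) (z : B3 k) : ι p ∣ ι z ↔ p ∣ z := by
  refine ⟨?_, fun h => map_dvd ι h⟩
  rintro ⟨s, hs⟩
  obtain ⟨q, b, hq0, hb⟩ := hL.surj s
  have h1 : ι (aeval u0 q * z) = ι (p * b) := by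
    rw [map_mul, map_mul, hs, ← hb]
    ring
  have h2 := hL.inj h1
  rcases hp.dvd_or_dvd (⟨b, h2⟩ : p ∣ aeval u0 q * z) with h3 | h3
  · exact absurd h3 (hq q hq0)
  · exact h3

omit [IsDomain S] in
/-- divisibility by `u` in `S` and by `u0` in `k[x,y,z]` -/
theorem LocB.u_dvd (hL : LocB ι u0 R u) (z : B3 k) : (u : S) ∣ ι z ↔ u0 ∣ z := by
  rw [hL.uu]
  exact hL.p_dvd hL.prime_u0 (fun q hq => hL.u0_not_dvd hq) z

omit [IsDomain S] in
theorem LocB.p_prime (hL : LocB ι u0 R u) {p : B3 k} (hp : Prime p)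
    (hq : ∀ q : k[X], q.eval 0 ≠ 0 → ¬ p ∣ aeval u0 q) : Prime (ι p) := by
  refine ⟨fun h0 => hp.ne_zero (hL.inj (by rw [h0, map_zero])), fun h0 => ?_, fun a b hab => ?_⟩
  · have h1 : ι p ∣ ι 1 := by
      rw [map_one]
      exact h0.dvd
    exact hp.not_isUnit (isUnit_of_dvd_one ((hL.p_dvd hp hq 1).1 h1))
  · obtain ⟨qa, a', hqa, ha⟩ := hL.surj a
    obtain ⟨qb, b', hqb, hb⟩ := hL.surj b
    have h1 : ι p ∣ ι (a' * b') := by
      rw [map_mul, ← ha, ← hb]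
      obtain ⟨c, hc⟩ := hab
      refine ⟨ι (aeval u0 qa) * ι (aeval u0 qb) * c, ?_⟩
      have h2 : ι (aeval u0 qa) * a * (ι (aeval u0 qb) * b) =
          ι (aeval u0 qa) * ι (aeval u0 qb) * (a * b) := by ring
      rw [h2, hc]
      ring
    rcases hp.dvd_or_dvd ((hL.p_dvd hp hq _).1 h1) with h2 | h2
    · left
      have h3 := map_dvd ι h2
      rw [← ha] at h3
      exact (hL.isUnit hqa).dvd_mul_left.1 h3
    · right
      have h3 := map_dvd ι h2
      rw [← hb] at h3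
      exact (hL.isUnit hqb).dvd_mul_left.1 h3

/-- the kernel of the locally nilpotent derivation `br v` of the domain `S` is factorially closed -/
theorem br_fact [CharZero k] (hb : Bra ι u0 R br) {v : S} (hn : ∀ z, ∃ n, (br v)^[n] z = 0)
    {g h : S} (hgh : g * h ≠ 0) (h0 : br v (g * h) = 0) : br v g = 0 ∧ br v h = 0 := by
  have h1 : ∀ z, ∃ n, (⇑(hb.der v))^[n] z = 0 := hn
  exact ⟨const_of_dvd (hb.der v) h1 h0 hgh ⟨h, rfl⟩,
    const_of_dvd (hb.der v) h1 h0 hgh ⟨g, mul_comm g h⟩⟩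

end Pool.Agent.LNDQ
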