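import Mathlib
import Pool.Agent.LNDQ.DG4
import Pool.Agent.LNDQ.DG5
import Pool.Agent.LNDQ.Kern

set_option autoImplicit false

open Polynomial

namespace Pool.Agent.LNDQ

open Pool.Agent.LNDF

variable {k S : Type} [Field k] [CharZero k] [CommRing S] [IsDomain S] [Algebra k S]
  {R : Subalgebra k S} {u : R} {ι : B3 k →ₐ[k] S} {u0 : B3 k} {br : S → S → S}

omit [CharZero k] [IsDomain S] in
theorem Fr.sat_pow (hF : Fr R u) (m : ℕ) {z : S} (h : (u : S) ^ m * z ∈ R) : z ∈ R := by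
  induction m with
  | zero => rwa [pow_zero, one_mul] at h
  | succ m ih =>
    apply ih
    apply hF.sat
    rwa [← mul_assoc, ← pow_succ']

omit [CharZero k] in
theorem Pres.tr {f : R[X]} {v x y : S} (hp : Pres f v x y) {P : R[X]} (h : aeval v P = 0) :
    P = 0 := by
  have h1 : Transcendental R v := by
    have := hp.ind.transcendental 0
    simpa using this
  exact (transcendental_iff.1 h1) P h

omit [CharZero k] in
theorem Pres.v_ne {f : R[X]} {v x y : S} (hp : Pres f v x y) : v ≠ 0 := by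
  intro h
  have h1 : (X : R[X]) = 0 := hp.tr (by rw [aeval_X, h])
  exact X_ne_zero h1

omit [CharZero k] in
theorem Pres.inj {f : R[X]} {v x y : S} (hp : Pres f v x y) {P Q : R[X]}
    (h : aeval v P = aeval v Q) : P = Q := by
  have := hp.tr (P := P - Q) (by rw [map_sub, h, sub_self])
  exact sub_eq_zero.1 this

namespace DG

/-- a common divisor `g` of `c₁ v` and `c₂ f'(x)`, `c₁, c₂ ∈ R`, with `br v g = 0`, is in `R` -/
theorem mem_R_of_dvd (hb : Bra ι u0 R br) (hF : Fr R u) {f : R[X]} {v x y : S} (hp : Pres f v x y)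
    (hk : ∀ z : S, ∃ m : ℕ, (u : S) ^ m * z ∈ Cx R v x y) {W : R} (hW0 : W ≠ 0)
    (hW : br v x = W * v) {c₁ c₂ : R} (h1 : c₁ ≠ 0) (h2 : c₂ ≠ 0) {g : S}
    (hg1 : g ∣ c₁ * v) (hg2 : g ∣ c₂ * aeval x (derivative f)) : g ∈ R := by
  have hu0 : (u : S) ≠ 0 := hF.prime.ne_zero
  have hu : u ≠ 0 := fun h => hu0 (by rw [h]; rfl)
  have hv0 := hp.v_ne
  have hc1 : (c₁ : S) ≠ 0 := fun h => h1 (Subtype.ext h)
  obtain ⟨h₁, e1⟩ := hg1
  have hgh : g * h₁ ≠ 0 := by
    rw [← e1]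
    exact mul_ne_zero hc1 hv0
  have hbr : br v (g * h₁) = 0 := by
    rw [← e1, hb.mul, hb.self, hb.const, mul_zero, mul_zero, add_zero]
  obtain ⟨b1, b2⟩ := br_fact hb (br_nil hb hp hu hk hW) hgh hbr
  obtain ⟨m, a, ea⟩ := ker_br hb hp hu hk hW0 hW b1
  obtain ⟨m', b, eb⟩ := ker_br hb hp hu hk hW0 hW b2
  have hab : a * b = C (u ^ (m + m') * c₁) * X := by
    apply hp.inj
    rw [map_mul, ← ea, ← eb, map_mul, aeval_C, aeval_X]
    have : algebraMap R S (u ^ (m + m') * c₁) = (u : S) ^ (m + m') * c₁ := rfl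
    rw [this, pow_add]
    linear_combination -((u : S) ^ m * (u : S) ^ m' * e1)
  have hcc : u ^ (m + m') * c₁ ≠ 0 := mul_ne_zero (pow_ne_zero _ hu) h1
  have ha0 : a ≠ 0 := by
    rintro rfl
    rw [zero_mul] at hab
    exact mul_ne_zero (C_ne_zero.2 hcc) X_ne_zero hab.symm
  have hb0 : b ≠ 0 := by
    rintro rfl
    rw [mul_zero] at hab
    exact mul_ne_zero (C_ne_zero.2 hcc) X_ne_zero hab.symm
  have hdeg : a.natDegree + b.natDegree = 1 := by
    rw [← natDegree_mul ha0 hb0, hab, natDegree_C_mul_X _ hcc]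
  rcases Nat.eq_zero_or_pos a.natDegree with hd | hd
  · rw [eq_C_of_natDegree_eq_zero hd, aeval_C] at ea
    refine hF.sat_pow m ?_
    rw [ea]
    exact (a.coeff 0).2
  · exfalso
    have hbd : b.natDegree = 0 := by omega
    have had : a.natDegree ≤ 1 := by omega
    obtain ⟨b0, rfl⟩ : ∃ c, b = C c := ⟨_, eq_C_of_natDegree_eq_zero hbd⟩
    have hb00 : b0 ≠ 0 := fun h => hb0 (by rw [h, C_0])
    have ha00 : a.coeff 0 = 0 := by
      have h3 : (a * C b0).coeff 0 = 0 := by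
        rw [hab, coeff_C_mul, coeff_X_zero, mul_zero]
      rw [coeff_mul_C] at h3
      exact (mul_eq_zero.1 h3).resolve_right hb00
    have ea' : (u : S) ^ m * g = (a.coeff 1 : R) * v := by
      rw [ea]
      conv_lhs => rw [eq_X_add_C_of_natDegree_le_one had, ha00, C_0, add_zero, map_mul, aeval_C, aeval_X]
      rfl
    obtain ⟨h₂, e2⟩ := hg2
    obtain ⟨t, ht⟩ := hk h₂
    have hz : ((a.coeff 1 : R) : S) * ((u : S) ^ t * h₂) ∈ Cx R v x y := by
      refine Subalgebra.mul_mem _ ?_ ht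
      exact (Algebra.adjoin R {v, x, y}).algebraMap_mem (a.coeff 1)
    have hdv : f ∣ C (u ^ (m + t) * c₂) * derivative f := by
      refine f_dvd_of_v_dvd hp hz ?_
      rw [map_mul, aeval_C]
      have : algebraMap R S (u ^ (m + t) * c₂) = (u : S) ^ (m + t) * c₂ := rfl
      rw [this, pow_add]
      linear_combination ((u : S) ^ m * (u : S) ^ t * e2) + (u : S) ^ t * h₂ * ea'
    have hch : CharZero R :=
      charZero_of_injective_algebraMap (FaithfulSMul.algebraMap_injective k R)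
    have hn := hp.deg
    have hf' : derivative f ≠ 0 := by
      intro h
      have h3 : (derivative f).coeff (f.natDegree - 1) = 0 := by rw [h, coeff_zero]
      rw [coeff_derivative, Nat.sub_add_cancel (by omega)] at h3
      have h4 : f.coeff f.natDegree = 1 := hp.monic
      rw [h4, one_mul] at h3
      have h5 : ((f.natDegree - 1 + 1 : ℕ) : R) = 0 := by
        rw [Nat.cast_add, Nat.cast_one]; exact h3
      have h6 := Nat.cast_eq_zero.1 h5
      omega
    have hne : C (u ^ (m + t) * c₂) * derivative f ≠ 0 :=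
      mul_ne_zero (C_ne_zero.2 (mul_ne_zero (pow_ne_zero _ hu) h2)) hf'
    have h3 := natDegree_le_of_dvd hdv hne
    have h4 : (C (u ^ (m + t) * c₂) * derivative f).natDegree ≤ (derivative f).natDegree :=
      natDegree_C_mul_le _ _
    have h5 := natDegree_derivative_le f
    omega

end DG

omit [CharZero k] [IsDomain S] in
theorem LocB.pol_mem (hL : LocB ι u0 R u) (q : k[X]) : ι (aeval u0 q) ∈ R :=
  (hL.mem _).2 ⟨1, q, by simp, by simp⟩

omit [CharZero k] [IsDomain S] in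
/-- elements of `k[u0, t]` are polynomials in `t` over `R` -/
theorem LocB.pol_of_adjoin (hL : LocB ι u0 R u) {t b : B3 k} (hb : b ∈ Algebra.adjoin k {u0, t}) :
    ∃ P : R[X], ι b = aeval (ι t) P := by
  induction hb using Algebra.adjoin_induction with
  | mem x hx =>
    rcases hx with rfl | hx
    · exact ⟨C u, by rw [aeval_C, ← hL.uu]; rfl⟩
    · rw [Set.mem_singleton_iff] at hx
      subst hx
      exact ⟨X, by rw [aeval_X]⟩
  | algebraMap r => exact ⟨C (algebraMap k R r), by rw [aeval_C, AlgHom.commutes]; rfl⟩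
  | add x y _ _ hx hy =>
    obtain ⟨P, hP⟩ := hx
    obtain ⟨Q, hQ⟩ := hy
    exact ⟨P + Q, by rw [map_add, map_add, hP, hQ]⟩
  | mul x y _ _ hx hy =>
    obtain ⟨P, hP⟩ := hx
    obtain ⟨Q, hQ⟩ := hy
    exact ⟨P * Q, by rw [map_mul, map_mul, hP, hQ]⟩

/-- clearing denominators in `R[v]` -/
theorem LocB.clear (hL : LocB ι u0 R u) {v : S} {q : k[X]} (hq : q.eval 0 ≠ 0) {w0 : B3 k}
    (hw0 : ι (aeval u0 q) * v = ι w0) (a : R[X]) :
    ∃ (s : k[X]) (c : B3 k), s.eval 0 ≠ 0 ∧ c ∈ Algebra.adjoin k {u0, w0} ∧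
      ι (aeval u0 s) * aeval v a = ι c := by
  have hu0 : ∀ p : k[X], aeval u0 p ∈ Algebra.adjoin k {u0, w0} := fun p =>
    Algebra.adjoin_mono (by simp) (aeval_mem_adjoin_singleton k u0)
  induction a using Polynomial.induction_on' with
  | add a b ha hb =>
    obtain ⟨s, c, h1, h2, h3⟩ := ha
    obtain ⟨t, d, h4, h5, h6⟩ := hb
    refine ⟨s * t, aeval u0 t * c + aeval u0 s * d, ?_, ?_, ?_⟩
    · rw [eval_mul]
      exact mul_ne_zero h1 h4
    · exact Subalgebra.add_mem _ (Subalgebra.mul_mem _ (hu0 _) h2) (Subalgebra.mul_mem _ (hu0 _) h5)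
    · simp only [map_mul, map_add]
      linear_combination ι (aeval u0 t) * h3 + ι (aeval u0 s) * h6
  | monomial n r =>
    obtain ⟨s, p, h1, h2⟩ := (hL.mem (r : S)).1 r.2
    refine ⟨s * q ^ n, aeval u0 p * w0 ^ n, ?_, ?_, ?_⟩
    · rw [eval_mul, eval_pow]
      exact mul_ne_zero h1 (pow_ne_zero _ hq)
    · exact Subalgebra.mul_mem _ (hu0 _) (Subalgebra.pow_mem _ (Algebra.subset_adjoin (by simp)) _)
    · rw [aeval_monomial]
      have e1 : algebraMap R S r = (r : S) := rfl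
      rw [e1, map_mul, map_mul, map_pow, map_pow, map_mul, map_pow, ← hw0, mul_pow, ← h2]
      ring

namespace DG

/-- the kernel of `jacD u0 w0` over `k(u0)`, `w0 = q(u0) v` -/
theorem ker_sat (hb : Bra ι u0 R br) (hF : Fr R u) (hL : LocB ι u0 R u) {f : R[X]} {v x y : S}
    (hp : Pres f v x y) (hk : ∀ z : S, ∃ m : ℕ, (u : S) ^ m * z ∈ Cx R v x y) {W : R} (hW0 : W ≠ 0)
    (hW : br v x = W * v) {q : k[X]} (hq : q.eval 0 ≠ 0) {w0 : B3 k}
    (hw0 : ι (aeval u0 q) * v = ι w0) {b : B3 k} (hbk : jac3 u0 w0 b = 0) :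
    ∃ s : k[X], s ≠ 0 ∧ aeval u0 s * b ∈ Algebra.adjoin k {u0, w0} := by
  have hu : u ≠ 0 := fun h => hF.prime.ne_zero (by rw [h]; rfl)
  obtain ⟨r, hr⟩ := hL.unit q hq
  have hq' : ι (aeval u0 q) ≠ 0 := right_ne_zero_of_mul_eq_one hr
  have h1 : br v (ι b) = 0 := by
    have h2 := hb.ext w0 b
    have h3 := hb.smul_left (⟨_, hL.pol_mem q⟩ : R) v (ι b)
    have e1 : (((⟨_, hL.pol_mem q⟩ : R)) : S) = ι (aeval u0 q) := rfl
    rw [e1, hw0, h2, hbk, map_zero] at h3
    exact (mul_eq_zero.1 h3.symm).resolve_left hq'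
  obtain ⟨m, a, ha⟩ := ker_br hb hp hu hk hW0 hW h1
  obtain ⟨s, c, h4, h5, h6⟩ := hL.clear hq hw0 a
  refine ⟨s * X ^ m, mul_ne_zero ?_ (pow_ne_zero _ X_ne_zero), ?_⟩
  · rintro rfl
    exact h4 eval_zero
  · have e : aeval u0 (s * X ^ m) * b = c := by
      apply hL.inj
      rw [← h6, ← ha, map_mul, map_mul, map_mul, map_pow, map_pow, aeval_X, hL.uu]
      ring
    rw [e]
    exact h5

end DG

omit [CharZero k] in
theorem LocB.u0_tr (hF : Fr R u) (hL : LocB ι u0 R u) : Transcendental k u0 := by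
  rw [transcendental_iff]
  intro p hp
  by_contra h0
  obtain ⟨q, hq⟩ := exists_eq_pow_rootMultiplicity_mul_and_not_dvd p h0 0
  obtain ⟨hq1, hq2⟩ := hq
  rw [C_0, sub_zero] at hq1 hq2
  have hu : u0 ≠ 0 := by
    rintro rfl
    exact hF.prime.ne_zero (by rw [hL.uu, map_zero])
  rw [hq1, map_mul, map_pow, aeval_X] at hp
  have h1 : aeval u0 q = 0 := (mul_eq_zero.1 hp).resolve_left (pow_ne_zero _ hu)
  have h2 : q.eval 0 ≠ 0 := by
    intro h
    exact hq2 (X_dvd_iff.2 (by rw [coeff_zero_eq_eval_zero, h]))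
  obtain ⟨r, hr⟩ := hL.unit q h2
  rw [h1, map_zero, mul_zero] at hr
  exact zero_ne_one hr

namespace DG

omit [CharZero k] in
theorem ind_of (hF : Fr R u) (hL : LocB ι u0 R u) {f : R[X]} {v x y : S}
    (hp : Pres f v x y) {q : k[X]} (hq : q.eval 0 ≠ 0) {w0 : B3 k}
    (hw0 : ι (aeval u0 q) * v = ι w0) : AlgebraicIndependent k ![u0, w0] := by
  rw [kr_ind_iff]
  refine ⟨hL.u0_tr hF, ?_⟩
  have hmem : ∀ a : Algebra.adjoin k {u0}, ι (a : B3 k) ∈ R := by
    intro a
    obtain ⟨p, hp⟩ := (AlgHom.mem_range _).1 (by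
      rw [← Algebra.adjoin_singleton_eq_range_aeval]
      exact a.2 : (a : B3 k) ∈ (aeval (R := k) u0).range)
    rw [← hp]
    exact hL.pol_mem p
  let φ : Algebra.adjoin k {u0} →+* R :=
    { toFun := fun a => ⟨ι a, hmem a⟩
      map_one' := Subtype.ext (map_one ι)
      map_zero' := Subtype.ext (map_zero ι)
      map_add' := fun a b => Subtype.ext (map_add ι _ _)
      map_mul' := fun a b => Subtype.ext (map_mul ι _ _) }
  have hφ : Function.Injective φ := by
    intro a b h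
    exact Subtype.ext (hL.inj (congrArg (fun r : R => (r : S)) h))
  obtain ⟨r, hr⟩ := hL.unit q hq
  have hq' : (⟨_, hL.pol_mem q⟩ : R) ≠ 0 := by
    intro h
    have h1 : ι (aeval u0 q) = 0 := congrArg (fun r : R => (r : S)) h
    rw [h1, mul_zero] at hr
    exact zero_ne_one hr
  rw [transcendental_iff]
  intro P hP
  have h1 : (P.map φ).comp (C (⟨_, hL.pol_mem q⟩ : R) * X) = 0 := by
    apply hp.tr
    rw [aeval_comp, map_mul, aeval_C, aeval_X]
    have e1 : algebraMap R S (⟨_, hL.pol_mem q⟩ : R) = ι (aeval u0 q) := rfl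
    rw [e1, hw0, aeval_def, eval₂_map]
    have e2 : (algebraMap R S).comp φ = (ι : B3 k →+* S).comp (algebraMap (Algebra.adjoin k {u0}) (B3 k)) :=
      RingHom.ext fun a => rfl
    rw [e2]
    have h2 := Polynomial.hom_eval₂ P (algebraMap (Algebra.adjoin k {u0}) (B3 k)) (ι : B3 k →+* S) w0
    rw [← aeval_def, hP, map_zero] at h2
    exact h2.symm
  have h2 : P.map φ = 0 := by
    rcases comp_eq_zero_iff.1 h1 with h | h
    · exact h
    · exfalso
      have h3 : (C (⟨_, hL.pol_mem q⟩ : R) * X).coeff 1 = 0 := by rw [h.2, coeff_C_succ]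
      rw [coeff_C_mul, coeff_X_one, mul_one] at h3
      exact hq' h3
  exact (Polynomial.map_eq_zero_iff hφ).1 h2

omit [CharZero k] in
/-- the two generators of the kernel: `R[v0] = R[v]` -/
theorem vv_of (hF : Fr R u) (hL : LocB ι u0 R u) {f : R[X]} {v x y : S} (hp : Pres f v x y)
    {q : k[X]} (hq : q.eval 0 ≠ 0) {w0 : B3 k} (hw0 : ι (aeval u0 q) * v = ι w0) {v0 : B3 k}
    (h1 : w0 ∈ Algebra.adjoin k {u0, v0})
    {s : k[X]} (hs : s.eval 0 ≠ 0) (h2 : aeval u0 s * v0 ∈ Algebra.adjoin k {u0, w0}) :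
    ∃ a b : R, IsUnit a ∧ ι v0 = a * v + b := by
  obtain ⟨P1, hP1⟩ := hL.pol_of_adjoin h1
  obtain ⟨P2, hP2⟩ := hL.pol_of_adjoin h2
  obtain ⟨r, hr⟩ := hL.unit q hq
  obtain ⟨s', hs'⟩ := hL.unit s hs
  have hv : v = aeval (ι v0) (C r * P1) := by
    rw [map_mul, aeval_C, ← hP1, ← hw0]
    have : algebraMap R S r = (r : S) := rfl
    rw [this, ← mul_assoc, hr, one_mul]
  obtain ⟨A, hA⟩ : ∃ A : R[X], ι v0 = aeval v A := by
    refine ⟨C s' * P2.comp (C (⟨_, hL.pol_mem q⟩ : R) * X), ?_⟩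
    rw [map_mul, aeval_C, aeval_comp, map_mul, aeval_C, aeval_X]
    have e1 : algebraMap R S (⟨_, hL.pol_mem q⟩ : R) = ι (aeval u0 q) := rfl
    have e2 : algebraMap R S s' = (s' : S) := rfl
    rw [e1, e2, hw0, ← hP2, map_mul, ← mul_assoc, hs', one_mul]
  obtain ⟨B, hB⟩ : ∃ B : R[X], v = aeval (ι v0) B := ⟨_, hv⟩
  have hc : B.comp A = X := by
    apply hp.inj
    rw [aeval_comp, ← hA, ← hB, aeval_X]
  have hd : B.natDegree * A.natDegree = 1 := by
    rw [← natDegree_comp, hc, natDegree_X]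
  have hdB : B.natDegree = 1 := Nat.eq_one_of_mul_eq_one_right hd
  have hdA : A.natDegree = 1 := Nat.eq_one_of_mul_eq_one_left hd
  have hl : B.leadingCoeff * A.leadingCoeff ^ B.natDegree = 1 := by
    rw [← leadingCoeff_comp (by rw [hdA]; exact one_ne_zero), hc, leadingCoeff_X]
  rw [hdB, pow_one] at hl
  refine ⟨A.coeff 1, A.coeff 0, ?_, ?_⟩
  · have : A.coeff 1 = A.leadingCoeff := by rw [leadingCoeff, hdA]
    rw [this]
    exact IsUnit.of_mul_eq_one _ (by rw [mul_comm]; exact hl)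
  · rw [hA]
    conv_lhs => rw [eq_X_add_C_of_natDegree_le_one hdA.le, map_add, map_mul, aeval_C, aeval_X, aeval_C]
    rfl

end DG

end Pool.Agent.LNDQ
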