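import Mathlib
import Pool.Agent.LNDQ.DG6a
import Pool.Agent.LNDQ.Kern
import Pool.Agent.LNDF.Fin3

set_option autoImplicit false

open Polynomial

namespace Pool.Agent.LNDQ.DG

open Pool.Agent.LNDF

variable {k S : Type} [Field k] [CharZero k] [IsAlgClosed k] [CommRing S] [IsDomain S] [Algebra k S]
  {R : Subalgebra k S} {u : R} {ι : B3 k →ₐ[k] S} {u0 : B3 k} {br : S → S → S}

omit [CharZero k] [IsAlgClosed k] [IsDomain S] in
/-- `u0` divides no `w0 - c` -/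
theorem not_dvd_of_tr (hL : LocB ι u0 R u) {v : S} {q : k[X]} (hq : q.eval 0 ≠ 0)
    {w0 : B3 k} (hw0 : ι (aeval u0 q) * v = ι w0)
    (htr : ∀ a : k[X], (u : S) ∣ aeval v a → a = 0) (c : k) :
    ¬ u0 ∣ w0 - MvPolynomial.C c := by
  rintro ⟨t, ht⟩
  have h1 : aeval u0 q = aeval u0 q.divX * u0 + MvPolynomial.C (q.coeff 0) := by
    conv_lhs => rw [← divX_mul_X_add q, map_add, map_mul, aeval_X, aeval_C]
    rfl
  have hC : ∀ c : k, ι (MvPolynomial.C c) = algebraMap k S c := fun c => ι.commutes c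
  have h2 : ι w0 = u * ι t + algebraMap k S c := by
    have := congrArg ι ht
    rw [map_sub, map_mul, hC, ← hL.uu] at this
    rw [← this]
    ring
  rw [h1, map_add, map_mul, hC, ← hL.uu] at hw0
  have h3 : C (q.coeff 0) * X - C c = (0 : k[X]) := by
    apply htr
    refine ⟨ι t - ι (aeval u0 q.divX) * v, ?_⟩
    rw [map_sub, map_mul, aeval_C, aeval_X, aeval_C]
    linear_combination hw0 + h2
  have h4 := congrArg (fun p : k[X] => p.coeff 1) h3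
  simp only [coeff_sub, coeff_C_mul, coeff_X_one, mul_one, coeff_C_succ, sub_zero, coeff_zero] at h4
  exact hq (by rw [← coeff_zero_eq_eval_zero, h4])

/-- THE NEW DERIVATION: the irreducible part of `br v` -/
theorem exists_D2v (hb : Bra ι u0 R br) (hF : Fr R u) (hL : LocB ι u0 R u) {f : R[X]} {v x y : S}
    (hp : Pres f v x y) (hk : ∀ z : S, ∃ m : ℕ, (u : S) ^ m * z ∈ Cx R v x y) {W : R}
    (hW0 : W ≠ 0) (hW : br v x = W * v) (htr : ∀ a : k[X], (u : S) ∣ aeval v a → a = 0) :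
    ∃ (D : Derivation k (B3 k) (B3 k)) (v0 : B3 k),
      (∀ z, ∃ n, (⇑D)^[n] z = 0) ∧ (∃ z, D z ≠ 0) ∧
      (∀ p : B3 k, Prime p → D p = 0 → ∃ z, ¬ p ∣ D z) ∧
      AlgebraicIndependent k ![u0, v0] ∧ (∀ b, D b = 0 ↔ b ∈ Algebra.adjoin k {u0, v0}) ∧
      (∃ a b : R, IsUnit a ∧ ι v0 = a * v + b) ∧
      (∃ w : R, IsUnit w ∧ ∀ b, br v (ι b) = w * ι (D b)) := by
  have hu : u ≠ 0 := fun h => hF.prime.ne_zero (by rw [h]; rfl)
  have hW0' : (W : S) ≠ 0 := fun h => hW0 (Subtype.ext h)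
  obtain ⟨q, w0, hq, hw0⟩ := hL.surj v
  obtain ⟨r, hr⟩ := hL.unit q hq
  obtain ⟨Q, hQ⟩ : ∃ Q : R, (Q : S) = ι (aeval u0 q) := ⟨⟨_, hL.pol_mem q⟩, rfl⟩
  rw [← hQ] at hr
  have hrQ : r * Q = 1 := Subtype.ext hr
  have hQ0 : (Q : S) ≠ 0 := right_ne_zero_of_mul_eq_one hr
  have hD1 : ∀ b, ι (jacD u0 w0 b) = Q * br v (ι b) := by
    intro b
    rw [jacD_apply, ← hb.ext, ← hw0, ← hQ]
    exact hb.smul_left Q v (ι b)
  have hit : ∀ (n : ℕ) (b : B3 k), ι ((⇑(jacD u0 w0))^[n] b) = Q ^ n * (br v)^[n] (ι b) := by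
    intro n
    induction n with
    | zero => intro b; simp
    | succ n ih =>
      intro b
      rw [Function.iterate_succ_apply', Function.iterate_succ_apply', hD1, ih]
      have h1 := hb.smul_right (Q ^ n) v ((br v)^[n] (ι b))
      have h2 : ((Q ^ n : R) : S) = (Q : S) ^ n := rfl
      rw [h2] at h1
      rw [h1, pow_succ]
      ring
  have hln1 : ∀ b, ∃ n, (⇑(jacD u0 w0))^[n] b = 0 := by
    intro b
    obtain ⟨n, hn⟩ := br_nil hb hp hu hk hW (ι b)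
    refine ⟨n, hL.inj ?_⟩
    rw [hit, hn, mul_zero, map_zero]
  -- values of `D1` at the multiples of `x`, `y`
  obtain ⟨q1, bx, hq1, hbx⟩ := hL.surj x
  obtain ⟨r1, hr1⟩ := hL.unit q1 hq1
  obtain ⟨Q1, hQ1⟩ : ∃ Q : R, (Q : S) = ι (aeval u0 q1) := ⟨⟨_, hL.pol_mem q1⟩, rfl⟩
  rw [← hQ1] at hr1
  have hQ10 : (Q1 : S) ≠ 0 := right_ne_zero_of_mul_eq_one hr1
  obtain ⟨q2, b_y, hq2, hby⟩ := hL.surj y
  obtain ⟨r2, hr2⟩ := hL.unit q2 hq2
  obtain ⟨Q2, hQ2⟩ : ∃ Q : R, (Q : S) = ι (aeval u0 q2) := ⟨⟨_, hL.pol_mem q2⟩, rfl⟩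
  rw [← hQ2] at hr2
  have hQ20 : (Q2 : S) ≠ 0 := right_ne_zero_of_mul_eq_one hr2
  have hvx : ι (jacD u0 w0 bx) = (Q * Q1 * W : R) * v := by
    rw [hD1, ← hbx, ← hQ1, hb.smul_right, hW]
    push_cast
    ring
  have hvy : ι (jacD u0 w0 b_y) = (Q * Q2 * W : R) * aeval x (derivative f) := by
    rw [hD1, ← hby, ← hQ2, hb.smul_right, (PB.of_vx hb hp hW).vy]
    push_cast
    ring
  have hc1 : Q * Q1 * W ≠ 0 := by
    intro h
    have : (Q : S) * Q1 * W = 0 := congrArg (fun r : R => (r : S)) h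
    exact mul_ne_zero (mul_ne_zero hQ0 hQ10) hW0' this
  have hc2 : Q * Q2 * W ≠ 0 := by
    intro h
    have : (Q : S) * Q2 * W = 0 := congrArg (fun r : R => (r : S)) h
    exact mul_ne_zero (mul_ne_zero hQ0 hQ20) hW0' this
  have hne1 : ∃ b, jacD u0 w0 b ≠ 0 := by
    refine ⟨bx, fun h => ?_⟩
    rw [h, map_zero] at hvx
    exact mul_ne_zero (fun h => hc1 (Subtype.ext h)) hp.v_ne hvx.symm
  obtain ⟨g, E, hg0, hDg, hgE, hlnE, hkE, hirr⟩ := exists_irr (jacD u0 w0) hne1 hln1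
  have hnd := not_dvd_of_tr hL hq hw0 htr
  have hEu : E u0 = 0 := (hkE _).2 (by rw [jacD_apply, jac3_u])
  have hEw : E w0 = 0 := (hkE _).2 (by rw [jacD_apply, jac3_self])
  obtain ⟨v0, hind, hker, s, hs0, hs1, hs2⟩ := kern E hlnE u0 hL.up hEu _ w0 rfl hEw
    (ind_of hF hL hp hq hw0) (fun a ha => ker_sat hb hF hL hp hk hW0 hW hq hw0
      (by rw [← jacD_apply]; exact (hkE a).1 ha))
  refine ⟨E, v0, hlnE, ?_, hirr, hind, hker, ?_, ?_⟩
  · obtain ⟨b, hb'⟩ := hne1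
    exact ⟨b, fun h => hb' ((hkE b).1 h)⟩
  · exact vv_of hF hL hp hq hw0 ((hker w0).1 hEw) (hs2 hnd).1 hs1
  · have hgR : ι g ∈ R := by
      refine mem_R_of_dvd hb hF hp hk hW0 hW hc1 hc2 ?_ ?_
      · rw [← hvx, hgE, map_mul]
        exact Dvd.intro _ rfl
      · rw [← hvy, hgE, map_mul]
        exact Dvd.intro _ rfl
    have hgu : IsUnit (⟨ι g, hgR⟩ : R) := by
      apply hF.inv
      intro h
      have h1 : u0 ∣ g := (hL.u_dvd g).1 h
      have hp0 : Prime u0 := by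
        have := hL.up 0
        rwa [MvPolynomial.C_0, sub_zero] at this
      obtain ⟨α, hα⟩ := dvd_sub_of_jac (h := w0) hp0 (fun b => by
        rw [← jacD_apply, hgE]
        exact h1.mul_right _)
      exact hnd α hα
    refine ⟨r * ⟨ι g, hgR⟩, (IsUnit.of_mul_eq_one _ hrQ).mul hgu, fun b => ?_⟩
    have h1 := hD1 b
    rw [hgE, map_mul] at h1
    show br v (ι b) = r * ι g * ι (E b)
    rw [mul_assoc, h1, ← mul_assoc, hr, one_mul]

theorem exists_D2 (hb : Bra ι u0 R br) (hF : Fr R u) (hL : LocB ι u0 R u) {f : R[X]} {v x y : S}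
    (hp : Pres f v x y) (hk : ∀ z : S, ∃ m : ℕ, (u : S) ^ m * z ∈ Cx R v x y) {W : R}
    (hW0 : W ≠ 0) (hW : br v x = W * v) (htr : ∀ a : k[X], (u : S) ∣ aeval v a → a = 0) :
    ∃ (D : Derivation k (B3 k) (B3 k)) (v0 : B3 k),
      (∀ z, ∃ n, (⇑D)^[n] z = 0) ∧ (∃ z, D z ≠ 0) ∧
      (∀ p : B3 k, Prime p → D p = 0 → ∃ z, ¬ p ∣ D z) ∧
      AlgebraicIndependent k ![u0, v0] ∧ (∀ b, D b = 0 ↔ b ∈ Algebra.adjoin k {u0, v0}) ∧
      (∃ w : R, IsUnit w ∧ ∀ b, br v (ι b) = w * ι (D b)) := by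
  obtain ⟨D, v0, h1, h2, h3, h4, h5, _, h6⟩ := exists_D2v hb hF hL hp hk hW0 hW htr
  exact ⟨D, v0, h1, h2, h3, h4, h5, h6⟩

end Pool.Agent.LNDQ.DG
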