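import Mathlib
import Pool.Agent.LNDHom.Red
import Pool.Agent.LNDF.FinDefs

/-!
# Integrality of constants modulo a prime

If `p` is a prime constant of `D`, `D` is not divisible by `p`, and `p ∣ D z`, then `χ(z)` is divisible by
`p` for some monic polynomial `χ` with constant coefficients.
-/

set_option autoImplicit false

open Polynomial

namespace Pool.Agent.LNDQ

open Pool.Agent.LNDHom Pool.Agent.LNDF

section lnd

variable {k S : Type} [Field k] [CharZero k] [CommRing S] [IsDomain S] [Algebra k S]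
  (E : Derivation k S S)

omit [CharZero k] [IsDomain S] in
theorem int_const_mul {c : S} (hc : E c = 0) (n : ℕ) (x : S) :
    (⇑E)^[n] (c * x) = c * (⇑E)^[n] x := by
  induction n generalizing x with
  | zero => rfl
  | succ n ih =>
    rw [Function.iterate_succ_apply, Derivation.leibniz, hc, smul_zero, add_zero, smul_eq_mul,
      ih, Function.iterate_succ_apply]

/-- the top iterate of a power -/
theorem int_pow_top {x : S} {d : ℕ} (h0 : (⇑E)^[d] x ≠ 0) (h1 : (⇑E)^[d + 1] x = 0) (j : ℕ) :
    (⇑E)^[j * d] (x ^ j) ≠ 0 ∧ (⇑E)^[j * d + 1] (x ^ j) = 0 := by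
  have hch : CharZero S :=
    charZero_of_injective_algebraMap (FaithfulSMul.algebraMap_injective k S)
  induction j with
  | zero =>
    rw [zero_mul, pow_zero]
    exact ⟨by simp, by simp⟩
  | succ j ih =>
    have h2 := iter_mul_top E ((j + 1) * d) (j * d) d (x ^ j) x (by ring) ih.2 h1
    rw [pow_succ]
    refine ⟨?_, h2.2⟩
    rw [h2.1]
    have h3 : ((((j + 1) * d).choose (j * d) : ℕ) : S) ≠ 0 := by
      have h4 : j * d ≤ (j + 1) * d := Nat.mul_le_mul_right d (by omega)
      exact_mod_cast (Nat.choose_pos h4).ne'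
    exact mul_ne_zero h3 (mul_ne_zero ih.1 h0)

/-- powers of a non-constant are independent over the constants -/
theorem int_indep (hln : ∀ x, ∃ n, (⇑E)^[n] x = 0) {x : S} (hx : E x ≠ 0) (M : ℕ) :
    ∀ c : ℕ → S, (∀ j, E (c j) = 0) → ∑ j ∈ Finset.range M, c j * x ^ j = 0 →
      ∀ j < M, c j = 0 := by
  have hx0 : x ≠ 0 := by
    rintro rfl
    exact hx (map_zero E)
  obtain ⟨d, hd0, hd1⟩ := exists_top E hx0 (hln x)
  have hdp : 0 < d := by
    rcases Nat.eq_zero_or_pos d with h | h
    · exfalso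
      rw [h] at hd1
      exact hx hd1
    · exact h
  induction M with
  | zero => intro c _ _ j hj; omega
  | succ M ih =>
    intro c hc hs
    have hM : c M = 0 := by
      have h1 : (⇑E)^[M * d] (∑ j ∈ Finset.range (M + 1), c j * x ^ j) = 0 := by
        rw [hs, iterate_map_zero]
      rw [Finset.sum_range_succ, iterate_map_add] at h1
      have h2 : (⇑E)^[M * d] (∑ j ∈ Finset.range M, c j * x ^ j) = 0 := by
        have h3 : ∀ (s : Finset ℕ) (f : ℕ → S), (⇑E)^[M * d] (∑ j ∈ s, f j) =
            ∑ j ∈ s, (⇑E)^[M * d] (f j) := by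
          intro s f
          classical
          induction s using Finset.induction_on with
          | empty => simp [iterate_map_zero]
          | insert a s ha ih' => rw [Finset.sum_insert ha, Finset.sum_insert ha, iterate_map_add, ih']
        rw [h3]
        apply Finset.sum_eq_zero
        intro j hj
        rw [Finset.mem_range] at hj
        rw [int_const_mul E (hc j)]
        have h4 := (int_pow_top E hd0 hd1 j).2
        have h5 : j * d + 1 ≤ M * d := by
          have : (j + 1) * d ≤ M * d := Nat.mul_le_mul_right d hj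
          nlinarith
        rw [iter_zero_of_le E h4 h5, mul_zero]
      rw [h2, zero_add, int_const_mul E (hc M)] at h1
      rcases mul_eq_zero.1 h1 with h | h
      · exact h
      · exact absurd h (int_pow_top E hd0 hd1 M).1
    intro j hj
    rw [Finset.sum_range_succ, hM, zero_mul, add_zero] at hs
    rcases Nat.lt_succ_iff_lt_or_eq.1 hj with h | h
    · exact ih c hc hs j h
    · rw [h]; exact hM

/-- the kernel is algebraically closed -/
theorem int_closed (hln : ∀ x, ∃ n, (⇑E)^[n] x = 0) {P : S[X]} (hP : P ≠ 0)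
    (hc : ∀ i, E (P.coeff i) = 0) {z : S} (hz : P.eval z = 0) : E z = 0 := by
  by_contra h
  rw [Polynomial.eval_eq_sum_range] at hz
  have h1 := int_indep E hln h (P.natDegree + 1) P.coeff hc hz P.natDegree (by omega)
  exact hP (leadingCoeff_eq_zero.1 h1)

end lnd

section quo

variable {k B : Type} [Field k] [CharZero k] [CommRing B] [IsDomain B] [Algebra k B]
  (D : Derivation k B B) (p : B)

omit [CharZero k] [IsDomain B] in
theorem qd_aux (hDp : D p = 0) (x : B)
    (hx : Ideal.Quotient.mkₐ k (Ideal.span {p}) x = 0) :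
    Ideal.Quotient.mkₐ k (Ideal.span {p}) (D x) = 0 := by
  rw [Ideal.Quotient.mkₐ_eq_mk, Ideal.Quotient.eq_zero_iff_mem, Ideal.mem_span_singleton] at hx ⊢
  obtain ⟨y, rfl⟩ := hx
  rw [Derivation.leibniz, hDp, smul_zero, add_zero, smul_eq_mul]
  exact Dvd.intro _ rfl

/-- the derivation modulo a constant -/
noncomputable def qd (hDp : D p = 0) :
    Derivation k (B ⧸ Ideal.span {p}) (B ⧸ Ideal.span {p}) :=
  Derivation.liftOfSurjective (f := Ideal.Quotient.mkₐ k (Ideal.span {p}))
    (Ideal.Quotient.mkₐ_surjective k _) (d := D) (qd_aux D p hDp)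

omit [CharZero k] [IsDomain B] in
theorem qd_mk (hDp : D p = 0) (x : B) :
    qd D p hDp (Ideal.Quotient.mk _ x) = Ideal.Quotient.mk _ (D x) :=
  Derivation.liftOfSurjective_apply (f := Ideal.Quotient.mkₐ k (Ideal.span {p}))
    (Ideal.Quotient.mkₐ_surjective k _) (d := D) (qd_aux D p hDp) x

omit [CharZero k] [IsDomain B] in
theorem qd_iter (hDp : D p = 0) (n : ℕ) (x : B) :
    (⇑(qd D p hDp))^[n] (Ideal.Quotient.mk _ x) = Ideal.Quotient.mk _ ((⇑D)^[n] x) := by
  induction n generalizing x with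
  | zero => rfl
  | succ n ih => rw [Function.iterate_succ_apply, qd_mk, ih, Function.iterate_succ_apply]

omit [CharZero k] [IsDomain B] in
theorem qd_ln (hDp : D p = 0) (hln : ∀ x, ∃ n, (⇑D)^[n] x = 0) (x : B ⧸ Ideal.span {p}) :
    ∃ n, (⇑(qd D p hDp))^[n] x = 0 := by
  obtain ⟨y, rfl⟩ := Ideal.Quotient.mk_surjective x
  obtain ⟨n, hn⟩ := hln y
  exact ⟨n, by rw [qd_iter, hn, map_zero]⟩

omit [CharZero k] [IsDomain B] in
theorem mk_dvd (x : B) : Ideal.Quotient.mk (Ideal.span {p}) x = 0 ↔ p ∣ x := by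
  rw [Ideal.Quotient.eq_zero_iff_mem, Ideal.mem_span_singleton]

end quo

section fin

variable {k B : Type} [Field k] [CharZero k] [CommRing B] [IsDomain B] [Algebra k B]
  {D : Derivation k B B}

/-- expansion in powers of `G` -/
theorem int_sum (hln : ∀ x, ∃ n, (⇑D)^[n] x = 0)
    {N : ℕ} {G : B} (hP : Pkg D N G) (n : ℕ) : ∀ b, (⇑D)^[n] b = 0 → ∃ m, ∃ c : ℕ → B,
      (∀ j, (⇑D)^[N] (c j) = 0) ∧ b = ∑ j ∈ Finset.range m, c j * G ^ j := by
  have hch : CharZero B :=
    charZero_of_injective_algebraMap (FaithfulSMul.algebraMap_injective k B)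
  induction n using Nat.strong_induction_on with
  | _ n ih =>
    intro b hb
    obtain ⟨s, t, hst, ht⟩ := hP.div b
    by_cases hs : s = 0
    · refine ⟨1, fun _ => t, fun _ => ht, ?_⟩
      rw [hst, hs]; simp
    · obtain ⟨d, hd, hd'⟩ := exists_top D hs (hln s)
      have h1 := iter_mul_top D (d + N) d N s G rfl hd' hP.top
      have h2 : (⇑D)^[d + N] (s * G) ≠ 0 := by
        rw [h1.1]
        have h3 : ((d + N).choose d : B) ≠ 0 := by
          exact_mod_cast (Nat.choose_pos (by omega)).ne'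
        exact mul_ne_zero h3 (mul_ne_zero hd hP.ne)
      have hdn : d + N < n := by
        by_contra hc
        push Not at hc
        apply h2
        have h3 : s * G = b - t := by rw [hst]; ring
        rw [h3, iterate_map_sub, iter_zero_of_le D hb hc, iter_zero_of_le D ht (by omega), sub_zero]
      obtain ⟨m, c, hc, hc'⟩ := ih (d + 1) (by have := hP.pos; omega) s hd'
      refine ⟨m + 1, fun j => match j with
        | 0 => t
        | j + 1 => c j, fun j => ?_, ?_⟩
      · cases j with
        | zero => exact ht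
        | succ j => exact hc j
      · rw [Finset.sum_range_succ', hst]
        have h3 : s * G = ∑ j ∈ Finset.range m, c j * G ^ (j + 1) := by
          conv_lhs => rw [hc', Finset.sum_mul]
          exact Finset.sum_congr rfl fun i _ => by ring
        rw [h3]
        simp

/-- every element is a root of a monic polynomial over the constants with `G` adjoined -/
theorem int_G (hln : ∀ x, ∃ n, (⇑D)^[n] x = 0) {N : ℕ} {G : B} (hP : Pkg D N G) (z : B) :
    ∃ P : (kerAlg D)[X][X], P.Monic ∧ P.eval₂ (aeval G : (kerAlg D)[X] →ₐ[kerAlg D] B).toRingHom z = 0 := by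
  classical
  obtain ⟨m, b, lam, hb, h1, h2, h3, h4⟩ := hP.dual N hP.pos
  let φ : (kerAlg D)[X] →+* B := (aeval G : (kerAlg D)[X] →ₐ[kerAlg D] B).toRingHom
  have hφ : φ.Finite := by
    let _ : Algebra (kerAlg D)[X] B := φ.toAlgebra
    have hfin : Module.Finite (kerAlg D)[X] B := by
      refine ⟨⟨Finset.univ.image b, ?_⟩⟩
      rw [eq_top_iff]
      intro x _
      obtain ⟨n, hn⟩ := hln x
      obtain ⟨M, c, hc, rfl⟩ := int_sum hln hP n x hn
      apply Submodule.sum_mem
      intro j _
      rw [h4 (c j) (hc j), Finset.sum_mul]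
      apply Submodule.sum_mem
      intro i _
      have h5 : lam i (c j) * b i * G ^ j =
          ((Polynomial.C (⟨lam i (c j), h1 i _ (hc j)⟩ : kerAlg D) * X ^ j : (kerAlg D)[X])) • b i := by
        rw [Algebra.smul_def]
        change _ = φ _ * b i
        have h6 : φ (Polynomial.C (⟨lam i (c j), h1 i _ (hc j)⟩ : kerAlg D) * X ^ j) =
            lam i (c j) * G ^ j := by
          change aeval G (Polynomial.C (⟨lam i (c j), h1 i _ (hc j)⟩ : kerAlg D) * X ^ j) = _
          rw [map_mul, map_pow, aeval_X, aeval_C]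
          rfl
        rw [h6]
        ring
      rw [h5]
      apply Submodule.smul_mem
      apply Submodule.subset_span
      simp
    exact hfin
  exact hφ.to_isIntegral z

/-- the coefficient of `G ^ j` -/
noncomputable def gco (P : (kerAlg D)[X][X]) (z : B) (j : ℕ) : B :=
  ∑ i ∈ Finset.range (P.natDegree + 1), (((P.coeff i).coeff j : kerAlg D) : B) * z ^ i

omit [CharZero k] [IsDomain B] in
theorem eval_gco {P : (kerAlg D)[X][X]} {G z : B} : ∃ M : ℕ, 0 < M ∧
    P.eval₂ (aeval G : (kerAlg D)[X] →ₐ[kerAlg D] B).toRingHom z =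
      ∑ j ∈ Finset.range M, gco P z j * G ^ j := by
  obtain ⟨M, hM⟩ : ∃ M, ∀ i ∈ Finset.range (P.natDegree + 1), (P.coeff i).natDegree < M := by
    refine ⟨(Finset.range (P.natDegree + 1)).sup (fun i => (P.coeff i).natDegree) + 1, ?_⟩
    intro i hi
    have := Finset.le_sup (f := fun i => (P.coeff i).natDegree) hi
    omega
  refine ⟨M, ?_, ?_⟩
  · have := hM 0 (by simp)
    omega
  rw [eval₂_eq_sum_range]
  unfold gco
  simp_rw [Finset.sum_mul]
  rw [Finset.sum_comm]
  refine Finset.sum_congr rfl fun i hi => ?_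
  have h1 : (aeval G : (kerAlg D)[X] →ₐ[kerAlg D] B).toRingHom (P.coeff i) =
      ∑ j ∈ Finset.range M, (((P.coeff i).coeff j : kerAlg D) : B) * G ^ j := by
    change aeval G (P.coeff i) = _
    rw [aeval_eq_sum_range' (hM i hi)]
    exact Finset.sum_congr rfl fun j _ => by rw [Algebra.smul_def]; rfl
  rw [h1, Finset.sum_mul]
  exact Finset.sum_congr rfl fun j _ => by ring

/-- the constant coefficients in `G` form a monic polynomial -/
noncomputable def chi0 (P : (kerAlg D)[X][X]) : B[X] :=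
  (P.map (Polynomial.evalRingHom (0 : kerAlg D))).map (algebraMap (kerAlg D) B)

theorem chi0_monic {P : (kerAlg D)[X][X]} (h : P.Monic) : (chi0 P).Monic :=
  (h.map _).map _

theorem chi0_coeff (P : (kerAlg D)[X][X]) (i : ℕ) :
    (chi0 P).coeff i = (((P.coeff i).coeff 0 : kerAlg D) : B) := by
  unfold chi0
  rw [coeff_map, coeff_map, coeff_zero_eq_eval_zero (P.coeff i)]
  rfl

theorem chi0_eval (P : (kerAlg D)[X][X]) (z : B) : (chi0 P).eval z = gco P z 0 := by
  unfold gco
  have h1 : (chi0 P).natDegree < P.natDegree + 1 := by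
    have := (natDegree_map_le (p := P.map (Polynomial.evalRingHom (0 : kerAlg D)))
      (f := (algebraMap (kerAlg D) B))).trans (natDegree_map_le (p := P)
      (f := Polynomial.evalRingHom (0 : kerAlg D)))
    exact Nat.lt_succ_of_le this
  rw [eval_eq_sum_range' h1]
  exact Finset.sum_congr rfl fun i _ => by rw [chi0_coeff]

omit [CharZero k] [IsDomain B] in
theorem D_gco (P : (kerAlg D)[X][X]) {p z : B} (hz : p ∣ D z) (j : ℕ) : p ∣ D (gco P z j) := by
  unfold gco
  rw [map_sum]
  apply Finset.dvd_sum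
  intro i _
  have h1 : D (((P.coeff i).coeff j : kerAlg D) : B) = 0 := ((P.coeff i).coeff j).2
  rw [Derivation.leibniz, h1, smul_zero, add_zero, smul_eq_mul, Derivation.leibniz_pow]
  apply Dvd.dvd.mul_left
  rw [nsmul_eq_mul, smul_eq_mul]
  exact Dvd.dvd.mul_left (Dvd.dvd.mul_left hz _) _

/-- `G` is not constant modulo `p` -/
theorem G_nonconst (hln : ∀ x, ∃ n, (⇑D)^[n] x = 0) {N : ℕ} {G : B} (hP : Pkg D N G) {p : B}
    (hp : Prime p) (hDp : D p = 0) (hirr : ∃ x, ¬ p ∣ D x) : ¬ p ∣ D G := by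
  intro hG
  obtain ⟨x, hx⟩ := hirr
  apply hx
  have hpi : (Ideal.span {p}).IsPrime := (Ideal.span_singleton_prime hp.ne_zero).2 hp
  obtain ⟨P, hP1, hP2⟩ := int_G hln hP x
  -- the polynomial modulo `p`
  let ψ : (kerAlg D)[X] →+* B ⧸ Ideal.span {p} := (Ideal.Quotient.mk (Ideal.span {p})).comp
    (aeval G : (kerAlg D)[X] →ₐ[kerAlg D] B).toRingHom
  have h1 : (P.map ψ).eval (Ideal.Quotient.mk _ x) = 0 := by
    rw [eval_map]
    have h2 := congrArg (Ideal.Quotient.mk (Ideal.span {p})) hP2
    rw [map_zero, hom_eval₂] at h2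
    exact h2
  have h2 : ∀ i, qd D p hDp ((P.map ψ).coeff i) = 0 := by
    intro i
    rw [coeff_map]
    change qd D p hDp (Ideal.Quotient.mk _ (aeval G (P.coeff i))) = 0
    rw [qd_mk, mk_dvd, aeval_eq_sum_range, map_sum]
    apply Finset.dvd_sum
    intro j _
    rw [Algebra.smul_def]
    have h3 : D (algebraMap (kerAlg D) B ((P.coeff i).coeff j)) = 0 := ((P.coeff i).coeff j).2
    rw [Derivation.leibniz, h3, smul_zero, add_zero, smul_eq_mul, Derivation.leibniz_pow]
    apply Dvd.dvd.mul_left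
    rw [nsmul_eq_mul, smul_eq_mul]
    exact Dvd.dvd.mul_left (Dvd.dvd.mul_left hG _) _
  have h3 := int_closed (qd D p hDp) (qd_ln D p hDp hln) (P := P.map ψ) (hP1.map ψ).ne_zero h2 h1
  rw [qd_mk, mk_dvd] at h3
  exact h3

/-- powers of `G` are independent modulo `p` over the constants modulo `p` -/
theorem G_indep (hln : ∀ x, ∃ n, (⇑D)^[n] x = 0) {N : ℕ} {G : B} (hP : Pkg D N G) {p : B}
    (hp : Prime p) (hDp : D p = 0) (hirr : ∃ x, ¬ p ∣ D x) {M : ℕ} {y : ℕ → B}
    (hy : ∀ j, p ∣ D (y j)) (h : p ∣ ∑ j ∈ Finset.range M, y j * G ^ j) :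
    ∀ j < M, p ∣ y j := by
  have hpi : (Ideal.span {p}).IsPrime := (Ideal.span_singleton_prime hp.ne_zero).2 hp
  have h1 : qd D p hDp (Ideal.Quotient.mk _ G) ≠ 0 := by
    rw [qd_mk, Ne, mk_dvd]
    exact G_nonconst hln hP hp hDp hirr
  have h2 := int_indep (qd D p hDp) (qd_ln D p hDp hln) h1 M
    (fun j => Ideal.Quotient.mk _ (y j)) (fun j => by rw [qd_mk, mk_dvd]; exact hy j) (by
      rw [← mk_dvd p, map_sum] at h
      rw [← h]
      exact Finset.sum_congr rfl fun j _ => by rw [map_mul, map_pow])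
  intro j hj
  have h3 := h2 j hj
  rwa [mk_dvd] at h3

/-- **INT.** A constant modulo `p` is integral modulo `p` over the constants. -/
theorem int_monic (hln : ∀ x, ∃ n, (⇑D)^[n] x = 0) {N : ℕ} {G : B} (hP : Pkg D N G) {p : B}
    (hp : Prime p) (hDp : D p = 0) (hirr : ∃ x, ¬ p ∣ D x) {z : B} (hz : p ∣ D z) :
    ∃ χ : B[X], χ.Monic ∧ (∀ i, D (χ.coeff i) = 0) ∧ p ∣ χ.eval z := by
  obtain ⟨P, hP1, hP2⟩ := int_G hln hP z
  obtain ⟨M, hM, h1⟩ := eval_gco (D := D) (P := P) (G := G) (z := z)
  refine ⟨chi0 P, chi0_monic hP1, fun i => ?_, ?_⟩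
  · rw [chi0_coeff]
    exact ((P.coeff i).coeff 0).2
  · rw [chi0_eval]
    exact G_indep hln hP hp hDp hirr (y := gco P z) (M := M) (fun j => D_gco P hz j)
      (by rw [← h1, hP2]; exact dvd_zero p) 0 hM

end fin

end Pool.Agent.LNDQ
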