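import Mathlib
import Pool.Agent.LNDQ.DGInt
import Pool.Agent.LNDHom.Gr

/-!
# Integrality modulo any constant
-/

set_option autoImplicit false

open Polynomial

namespace Pool.Agent.LNDQ

open Pool.Agent.LNDHom Pool.Agent.LNDF

variable {k B : Type} [Field k] [CharZero k] [CommRing B] [IsDomain B] [Algebra k B]
  {D : Derivation k B B}

/-- `b ∣ D z`, `b` a nonzero constant: then `b ∣ χ(z)` for a monic polynomial `χ` with constant coefficients -/
theorem int_monic_all [UniqueFactorizationMonoid B] (hln : ∀ x, ∃ n, (⇑D)^[n] x = 0) {N : ℕ} {G : B}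
    (hP : Pkg D N G) (hirr : ∀ p : B, Prime p → D p = 0 → ∃ x, ¬ p ∣ D x) {z : B} (b : B) :
    b ≠ 0 → D b = 0 → b ∣ D z → ∃ χ : B[X], χ.Monic ∧ (∀ i, D (χ.coeff i) = 0) ∧ b ∣ χ.eval z := by
  induction b using UniqueFactorizationMonoid.induction_on_prime with
  | h₁ => intro h0; exact absurd rfl h0
  | h₂ b hb =>
    intro _ _ _
    refine ⟨1, monic_one, fun i => ?_, hb.dvd⟩
    rw [coeff_one]
    split_ifs
    · exact D.map_one_eq_zero
    · exact map_zero D
  | h₃ a p ha hp ih =>
    intro h0 hD hz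
    have hDp : D p = 0 := fact_closed D hln p a hD h0
    have hDa : D a = 0 := by
      have h1 : D (a * p) = 0 := by rw [mul_comm]; exact hD
      exact fact_closed D hln a p h1 (by rw [mul_comm]; exact h0)
    obtain ⟨χ1, h1, h2, h3⟩ := ih ha hDa ((Dvd.intro_left p rfl).trans hz)
    obtain ⟨χ2, h4, h5, h6⟩ := int_monic hln hP hp hDp (hirr p hp hDp) ((Dvd.intro a rfl).trans hz)
    refine ⟨χ2 * χ1, h4.mul h1, fun i => ?_, ?_⟩
    · rw [coeff_mul, map_sum]
      refine Finset.sum_eq_zero fun q _ => ?_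
      rw [Derivation.leibniz, h5, h2, smul_zero, smul_zero, add_zero]
    · rw [eval_mul]
      exact mul_dvd_mul h6 h3

end Pool.Agent.LNDQ
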