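import Mathlib

/-!
# Rational integral elements are polynomials
-/

set_option autoImplicit false

open Polynomial

namespace Pool.Agent.LNDQ

/-- `b(V) X = a(V)`, `X` integral over `k[V]`: then `X` is a polynomial in `V` -/
theorem poly_of_rat {k T : Type} [Field k] [CommRing T] [IsDomain T] [Algebra k T] {V X : T}
    (hV : Transcendental k V) {a b : k[X]} (hb : b ≠ 0) (h : aeval V b * X = aeval V a)
    {χ : T[X]} (hχ : χ.Monic) (hc : ∀ i, ∃ c : k[X], χ.coeff i = aeval V c)
    (he : χ.eval X = 0) : ∃ c : k[X], X = aeval V c := by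
  classical
  have hinj : ∀ p : k[X], aeval V p = 0 → p = 0 := by
    intro p hp
    by_contra hne
    exact hV ⟨p, hne, hp⟩
  -- a coprime fraction
  obtain ⟨a', b', hcop, hb', h'⟩ : ∃ a' b' : k[X], IsCoprime a' b' ∧ b' ≠ 0 ∧
      aeval V b' * X = aeval V a' := by
    set g := EuclideanDomain.gcd a b with hg
    have hg0 : g ≠ 0 := by
      intro h0
      exact hb ((EuclideanDomain.gcd_eq_zero_iff.1 h0).2)
    obtain ⟨a', ha'⟩ := EuclideanDomain.gcd_dvd_left a b
    obtain ⟨b', hb'⟩ := EuclideanDomain.gcd_dvd_right a b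
    rw [← hg] at ha' hb'
    refine ⟨a', b', ?_, ?_, ?_⟩
    · have h1 := EuclideanDomain.gcd_eq_gcd_ab a b
      rw [← hg] at h1
      refine ⟨EuclideanDomain.gcdA a b, EuclideanDomain.gcdB a b, ?_⟩
      apply mul_left_cancel₀ hg0
      rw [mul_one]
      conv_rhs => rw [h1]
      conv_rhs => rw [ha', hb']
      rw [← ha', ← hb']
      linear_combination (-EuclideanDomain.gcdA a b) * ha' - EuclideanDomain.gcdB a b * hb'
    · rintro rfl
      rw [mul_zero] at hb'
      exact hb hb'
    · have h2 : aeval V g ≠ 0 := fun h0 => hg0 (hinj g h0)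
      apply mul_left_cancel₀ h2
      rw [← mul_assoc, ← map_mul, ← map_mul, ← ha', ← hb']
      exact h
  -- the polynomial identity
  choose c hc using hc
  set m := χ.natDegree with hm
  have h1 : aeval V (∑ i ∈ Finset.range (m + 1), c i * a' ^ i * b' ^ (m - i)) = 0 := by
    rw [map_sum]
    have h2 : ∀ i ∈ Finset.range (m + 1), aeval V (c i * a' ^ i * b' ^ (m - i)) =
        aeval V b' ^ m * (χ.coeff i * X ^ i) := by
      intro i hi
      have hi' : i ≤ m := by
        rw [Finset.mem_range] at hi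
        omega
      have h3 : aeval V b' ^ m = aeval V b' ^ i * aeval V b' ^ (m - i) := by
        rw [← pow_add]
        congr 1
        omega
      rw [map_mul, map_mul, map_pow, map_pow, hc i, ← h', h3, mul_pow]
      ring
    rw [Finset.sum_congr rfl h2, ← Finset.mul_sum, ← eval_eq_sum_range, he, mul_zero]
  have h4 := hinj _ h1
  rw [Finset.sum_range_succ] at h4
  have hcm : c m = 1 := by
    have h5 : aeval V (c m - 1) = 0 := by
      rw [map_sub, map_one, ← hc m, hm, hχ.coeff_natDegree, sub_self]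
    exact sub_eq_zero.1 (hinj _ h5)
  have h6 : b' ∣ a' ^ m := by
    have h7 : b' ∣ ∑ i ∈ Finset.range m, c i * a' ^ i * b' ^ (m - i) := by
      apply Finset.dvd_sum
      intro i hi
      rw [Finset.mem_range] at hi
      apply Dvd.dvd.mul_left
      exact dvd_pow_self b' (by omega)
    rw [hcm, Nat.sub_self, pow_zero, mul_one, one_mul] at h4
    have h8 : a' ^ m = -(∑ i ∈ Finset.range m, c i * a' ^ i * b' ^ (m - i)) := by
      linear_combination h4
    rw [h8]
    exact (dvd_neg).2 h7
  have h9 : IsUnit b' := by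
    have h10 : IsCoprime b' (a' ^ m) := hcop.symm.pow_right
    exact h10.isUnit_of_dvd' dvd_rfl h6
  obtain ⟨w, hw⟩ := h9
  refine ⟨a' * ↑(w⁻¹), ?_⟩
  rw [map_mul, ← h', ← hw, mul_comm (aeval V (↑w : k[X])) X, mul_assoc, ← map_mul, Units.mul_inv,
    map_one, mul_one]

end Pool.Agent.LNDQ
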