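import Mathlib
import Pool.Agent.LNDQ.Dat
import Pool.Agent.LNDQ.DGInt
import Pool.Agent.LNDQ.DGIntB
import Pool.Agent.LNDQ.DGRat
import Pool.Agent.LNDF.Fin4

/-!
# Integrality modulo a prime of the kernel, modulo `u` and modulo `v`
-/

set_option autoImplicit false

open Polynomial

namespace Pool.Agent.LNDQ.DG

open Pool.Agent.LNDF Pool.Agent.LNDHom

section

variable {k S : Type} [Field k] [CommRing S] [Algebra k S]
  {R : Subalgebra k S} {u : R} {ι : B3 k →ₐ[k] S} {u0 : B3 k}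

/-- `q(u0)` as an element of `R` -/
theorem _root_.Pool.Agent.LNDQ.LocB.q_mem (hL : LocB ι u0 R u) (q : k[X]) :
    ((aeval u q : R) : S) = ι (aeval u0 q) := by
  have h1 : ((aeval u q : R) : S) = aeval (u : S) q := by
    rw [← Subalgebra.coe_val, ← aeval_algHom_apply]
  rw [h1, hL.uu, aeval_algHom_apply]

/-- divisibility by a prime which divides no `q(u0)`, `q(0) ≠ 0` -/
theorem _root_.Pool.Agent.LNDQ.LocB.dvd_of [IsDomain S] (hL : LocB ι u0 R u) {p : B3 k} (hp : Prime p)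
    (hq : ∀ q : k[X], q.eval 0 ≠ 0 → ¬ p ∣ aeval u0 q) {z : B3 k} (h : ι p ∣ ι z) : p ∣ z := by
  obtain ⟨s, hs⟩ := h
  obtain ⟨q, b, hq0, hqb⟩ := hL.surj s
  have h1 : ι (aeval u0 q * z) = ι (p * b) := by
    rw [map_mul, map_mul, hs, ← hqb]
    ring
  have h2 : p ∣ aeval u0 q * z := ⟨b, hL.inj h1⟩
  exact (hp.dvd_or_dvd h2).resolve_left (hq q hq0)

end

variable {k S : Type} [Field k] [CharZero k] [CommRing S] [IsDomain S] [Algebra k S]
  {R : Subalgebra k S} {u : R} {ι : B3 k →ₐ[k] S} {u0 : B3 k} {br : S → S → S}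

/-- `br v x = w u ^ e v` with `v` a prime: integrality of `z` modulo a prime `p` of the kernel of `D`, if
`ι p ∣ br v z` -/
theorem int_p (hb : Bra ι u0 R br) (hL : LocB ι u0 R u) {v : S}
    {D : Derivation k (B3 k) (B3 k)} {v0 : B3 k} (hne : ∃ z, D z ≠ 0)
    (hln : ∀ z, ∃ n, (⇑D)^[n] z = 0) (hirr : ∀ p : B3 k, Prime p → D p = 0 → ∃ z, ¬ p ∣ D z)
    (hind : AlgebraicIndependent k ![u0, v0])
    (hker : ∀ b, D b = 0 ↔ b ∈ Algebra.adjoin k {u0, v0})
    (hbrD : ∃ w : R, IsUnit w ∧ ∀ b, br v (ι b) = w * ι (D b))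
    {p : B3 k} (hp : Prime p) (hDp : D p = 0)
    (hpq : ∀ q : k[X], q.eval 0 ≠ 0 → ¬ p ∣ aeval u0 q) {z : S} (hz : ι p ∣ br v z) :
    ∃ χ : S[X], χ.Monic ∧ (∀ i, br v (χ.coeff i) = 0) ∧ ι p ∣ χ.eval z := by
  obtain ⟨w, hw, hbD⟩ := hbrD
  obtain ⟨q, b, hq0, hqb⟩ := hL.surj z
  obtain ⟨r, hr⟩ := hL.unit q hq0
  obtain ⟨N, G, hP⟩ := pkg_all D hne hln u0 v0 hind hker
  have h1 : ι p ∣ br v (ι b) := by
    rw [← hqb, ← hL.q_mem q, hb.smul_right]
    exact Dvd.dvd.mul_left hz _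
  have h2 : ι p ∣ ι (D b) := by
    rw [hbD b] at h1
    have hw' : IsUnit (w : S) := hw.map R.subtype
    exact (hw'.dvd_mul_left).1 h1
  have h3 : p ∣ D b := hL.dvd_of hp hpq h2
  obtain ⟨χ, hχ, hχD, hχb⟩ := int_monic hln hP hp hDp (hirr p hp hDp) h3
  have hz' : z = (r : S) * ι b := by
    rw [← hqb, ← mul_assoc, hr, one_mul]
  refine ⟨(χ.map ι.toRingHom).scaleRoots r, (monic_scaleRoots_iff _).2 (hχ.map _), fun i => ?_, ?_⟩
  · rw [coeff_scaleRoots, mul_comm]
    have h4 : (r : S) ^ ((χ.map ι.toRingHom).natDegree - i) =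
        ((r ^ ((χ.map ι.toRingHom).natDegree - i) : R) : S) := by
      push_cast
      rfl
    rw [h4, hb.smul_right, coeff_map]
    change _ * br v (ι (χ.coeff i)) = 0
    rw [hbD, hχD i, map_zero, mul_zero, mul_zero]
  · have h5 : eval z ((χ.map ι.toRingHom).scaleRoots (r : S)) =
        (r : S) ^ (χ.map ι.toRingHom).natDegree * ι (χ.eval b) := by
      have h6 := scaleRoots_eval₂_mul (p := χ.map ι.toRingHom) (f := RingHom.id S) (r := ι b)
        (s := (r : S))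
      rw [RingHom.id_apply, ← hz'] at h6
      rw [eval₂_id] at h6
      rw [h6, eval₂_id]
      congr 1
      change eval (ι.toRingHom b) _ = ι.toRingHom _
      rw [eval_map_apply]
    rw [h5]
    exact Dvd.dvd.mul_left (map_dvd ι hχb) _

/-- integrality of `z` modulo any constant `c` of `D`, if `ι c ∣ br v z` -/
theorem int_all (hb : Bra ι u0 R br) (hL : LocB ι u0 R u) {v : S}
    {D : Derivation k (B3 k) (B3 k)} {v0 : B3 k} (hne : ∃ z, D z ≠ 0)
    (hln : ∀ z, ∃ n, (⇑D)^[n] z = 0) (hirr : ∀ p : B3 k, Prime p → D p = 0 → ∃ z, ¬ p ∣ D z)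
    (hind : AlgebraicIndependent k ![u0, v0])
    (hker : ∀ b, D b = 0 ↔ b ∈ Algebra.adjoin k {u0, v0})
    (hbrD : ∃ w : R, IsUnit w ∧ ∀ b, br v (ι b) = w * ι (D b))
    {c : B3 k} (hc : c ≠ 0) (hDc : D c = 0) {z : S} (hz : ι c ∣ br v z) :
    ∃ χ : S[X], χ.Monic ∧ (∀ i, br v (χ.coeff i) = 0) ∧ ι c ∣ χ.eval z := by
  obtain ⟨w, hw, hbD⟩ := hbrD
  obtain ⟨q, b, hq0, hqb⟩ := hL.surj z
  obtain ⟨r, hr⟩ := hL.unit q hq0
  obtain ⟨N, G, hP⟩ := pkg_all D hne hln u0 v0 hind hker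
  have h1 : ι c ∣ br v (ι b) := by
    rw [← hqb, ← hL.q_mem q, hb.smul_right]
    exact Dvd.dvd.mul_left hz _
  obtain ⟨s, hs⟩ : ι c ∣ ι (D b) := by
    rw [hbD b] at h1
    have hw' : IsUnit (w : S) := hw.map R.subtype
    exact (hw'.dvd_mul_left).1 h1
  obtain ⟨q2, b2, hq2, hqb2⟩ := hL.surj s
  obtain ⟨r2, hr2⟩ := hL.unit q2 hq2
  have hDu : ∀ q : k[X], D (aeval u0 q) = 0 := by
    intro q
    rw [hker]
    exact Algebra.adjoin_mono (by simp) (aeval_mem_adjoin_singleton k u0 (p := q))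
  have h3 : c ∣ D (aeval u0 q2 * b) := by
    rw [Derivation.leibniz, hDu, smul_zero, add_zero, smul_eq_mul]
    refine ⟨b2, hL.inj ?_⟩
    rw [map_mul, map_mul, hs, ← hqb2]
    ring
  obtain ⟨χ, hχ, hχD, hχb⟩ := int_monic_all hln hP hirr c hc hDc h3
  have hz' : z = ((r * r2 : R) : S) * ι (aeval u0 q2 * b) := by
    have h4 : z = (r : S) * ι b := by rw [← hqb, ← mul_assoc, hr, one_mul]
    rw [map_mul, h4]
    push_cast
    have h5 : (r : S) * (r2 : S) * (ι (aeval u0 q2) * ι b) =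
        (r2 : S) * ι (aeval u0 q2) * ((r : S) * ι b) := by ring
    rw [h5, hr2, one_mul]
  set t : R := r * r2 with ht
  refine ⟨(χ.map ι.toRingHom).scaleRoots t, (monic_scaleRoots_iff _).2 (hχ.map _), fun i => ?_, ?_⟩
  · rw [coeff_scaleRoots, mul_comm]
    have h4 : (t : S) ^ ((χ.map ι.toRingHom).natDegree - i) =
        ((t ^ ((χ.map ι.toRingHom).natDegree - i) : R) : S) := by
      push_cast
      rfl
    rw [h4, hb.smul_right, coeff_map]
    change _ * br v (ι (χ.coeff i)) = 0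
    rw [hbD, hχD i, map_zero, mul_zero, mul_zero]
  · have h5 : eval z ((χ.map ι.toRingHom).scaleRoots (t : S)) =
        (t : S) ^ (χ.map ι.toRingHom).natDegree * ι (χ.eval (aeval u0 q2 * b)) := by
      have h6 := scaleRoots_eval₂_mul (p := χ.map ι.toRingHom) (f := RingHom.id S)
        (r := ι (aeval u0 q2 * b)) (s := (t : S))
      rw [RingHom.id_apply, ← hz'] at h6
      rw [eval₂_id] at h6
      rw [h6, eval₂_id]
      congr 1
      change eval (ι.toRingHom (aeval u0 q2 * b)) _ = ι.toRingHom _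
      rw [eval_map_apply]
    rw [h5]
    exact Dvd.dvd.mul_left (map_dvd ι hχb) _

/-- integrality of `z` modulo `v`, if `v ∣ br v z` -/
theorem int_v (hb : Bra ι u0 R br) (hL : LocB ι u0 R u) {v : S} (hv0 : v ≠ 0)
    {D : Derivation k (B3 k) (B3 k)} {v0 : B3 k} (hne : ∃ z, D z ≠ 0)
    (hln : ∀ z, ∃ n, (⇑D)^[n] z = 0) (hirr : ∀ p : B3 k, Prime p → D p = 0 → ∃ z, ¬ p ∣ D z)
    (hind : AlgebraicIndependent k ![u0, v0])
    (hker : ∀ b, D b = 0 ↔ b ∈ Algebra.adjoin k {u0, v0})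
    (hbrD : ∃ w : R, IsUnit w ∧ ∀ b, br v (ι b) = w * ι (D b))
    {z : S} (hz : v ∣ br v z) :
    ∃ χ : S[X], χ.Monic ∧ (∀ i, br v (χ.coeff i) = 0) ∧ v ∣ χ.eval z := by
  obtain ⟨q, c, hq0, hqc⟩ := hL.surj v
  obtain ⟨r, hr⟩ := hL.unit q hq0
  have hvc : v = (r : S) * ι c := by rw [← hqc, ← mul_assoc, hr, one_mul]
  have hru : IsUnit (r : S) := IsUnit.of_mul_eq_one _ hr
  have hc : c ≠ 0 := by
    rintro rfl
    apply hv0
    rw [hvc, map_zero, mul_zero]
  have hDc : D c = 0 := by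
    obtain ⟨w, hw, hbD⟩ := hbrD
    have h1 : br v (ι c) = 0 := by
      rw [← hqc, ← hL.q_mem q, hb.smul_right, hb.self, mul_zero]
    rw [hbD] at h1
    have hw' : IsUnit (w : S) := hw.map R.subtype
    have h2 : ι (D c) = 0 := (hw'.mul_right_eq_zero).1 h1
    exact hL.inj (by rw [h2, map_zero])
  have h1 : ι c ∣ br v z := (Dvd.intro_left (r : S) hvc.symm).trans hz
  obtain ⟨χ, h2, h3, h4⟩ := int_all hb hL hne hln hirr hind hker hbrD hc hDc h1
  refine ⟨χ, h2, h3, ?_⟩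
  have h5 : v ∣ ι c := by
    conv_lhs => rw [hvc]
    exact (hru.mul_left_dvd).2 dvd_rfl
  exact h5.trans h4

/-- coefficients in `R` modulo `u` are coefficients in `k` -/
theorem res_poly (hF : Fr R u) (v : S) (a : R[X]) : ∃ c : k[X], (u : S) ∣ aeval v a - aeval v c := by
  induction a using Polynomial.induction_on' with
  | add p q hp hq =>
    obtain ⟨c, hc⟩ := hp
    obtain ⟨d, hd⟩ := hq
    refine ⟨c + d, ?_⟩
    have h1 : aeval v (p + q) - aeval v (c + d) = (aeval v p - aeval v c) + (aeval v q - aeval v d) := by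
      rw [map_add, map_add]
      ring
    rw [h1]
    exact dvd_add hc hd
  | monomial n a =>
    obtain ⟨c, r, hr⟩ := hF.res a
    refine ⟨monomial n c, ⟨(r : S) * v ^ n, ?_⟩⟩
    rw [aeval_monomial, aeval_monomial]
    have h1 : algebraMap R S a = algebraMap k S c + (u : S) * r := by
      change (a : S) = _
      rw [hr]
      rfl
    rw [h1]
    ring

/-- rational and integral modulo `u` over `k[v]`: a polynomial in `v` modulo `u` -/
theorem poly_mod_u (hF : Fr R u) {v x : S} (htr : ∀ q : k[X], (u : S) ∣ aeval v q → q = 0)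
    {χ : S[X]} (hχ : χ.Monic) (hc : ∀ i, ∃ a : R[X], χ.coeff i = aeval v a)
    (he : (u : S) ∣ χ.eval x) {a b : k[X]} (hb0 : b ≠ 0)
    (hab : (u : S) ∣ aeval v b * x - aeval v a) : ∃ c : k[X], (u : S) ∣ x - aeval v c := by
  have hprime : (Ideal.span {(u : S)}).IsPrime :=
    (Ideal.span_singleton_prime hF.prime.ne_zero).2 hF.prime
  have hdom : IsDomain (S ⧸ Ideal.span {(u : S)}) := Ideal.Quotient.isDomain _
  set π : S →ₐ[k] S ⧸ Ideal.span {(u : S)} := Ideal.Quotient.mkₐ k (Ideal.span {(u : S)}) with hπ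
  have hπ0 : ∀ z : S, π z = 0 ↔ (u : S) ∣ z := fun z => mk_dvd (u : S) z
  have hV : Transcendental k (π v) := by
    rintro ⟨q, hq0, hq⟩
    apply hq0
    apply htr
    rw [← hπ0, ← aeval_algHom_apply, hq]
  have h1 : aeval (π v) b * π x = aeval (π v) a := by
    rw [aeval_algHom_apply, aeval_algHom_apply, ← map_mul, ← sub_eq_zero, ← map_sub, hπ0]
    exact hab
  have h2 : ∀ i, ∃ c : k[X], (χ.map π.toRingHom).coeff i = aeval (π v) c := by
    intro i
    obtain ⟨a, ha⟩ := hc i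
    obtain ⟨c, hc⟩ := res_poly hF v a
    refine ⟨c, ?_⟩
    rw [coeff_map, ha, aeval_algHom_apply]
    change π (aeval v a) = _
    rw [← sub_eq_zero, ← map_sub, hπ0]
    exact hc
  have h3 : (χ.map π.toRingHom).eval (π x) = 0 := by
    change (χ.map π.toRingHom).eval (π.toRingHom x) = 0
    rw [eval_map_apply]
    change π (χ.eval x) = 0
    rw [hπ0]
    exact he
  obtain ⟨c, hc⟩ := poly_of_rat hV hb0 h1 (hχ.map _) h2 h3
  refine ⟨c, ?_⟩
  rw [← hπ0, map_sub, sub_eq_zero, hc, aeval_algHom_apply]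

/-- integral modulo `v` over `R[v]`: integral modulo `v` over `R` -/
theorem monic_mod_v {v z : S} {χ : S[X]} (hχ : χ.Monic)
    (hc : ∀ i, ∃ a : R[X], χ.coeff i = aeval v a) (he : v ∣ χ.eval z) :
    ∃ χ' : R[X], χ'.Monic ∧ v ∣ aeval z χ' := by
  choose p hp using hc
  set m := χ.natDegree with hm
  set low : R[X] := ∑ i ∈ Finset.range m, C ((p i).coeff 0) * X ^ i with hlow
  have hlowd : low.degree < m := by
    rw [degree_lt_iff_coeff_zero]
    intro j hj
    rw [hlow, finsetSum_coeff]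
    refine Finset.sum_eq_zero fun i hi => ?_
    have hi' := Finset.mem_range.1 hi
    rw [coeff_C_mul_X_pow, if_neg (by omega)]
  have hmon : (X ^ m + low).Monic := monic_X_pow_add hlowd
  refine ⟨X ^ m + low, hmon, ?_⟩
  have h1 : aeval z (X ^ m + low) = χ.eval z -
      v * ∑ i ∈ Finset.range m, aeval v (p i).divX * z ^ i := by
    rw [eval_eq_sum_range, ← hm, Finset.sum_range_succ, hm, hχ.coeff_natDegree, ← hm, one_mul,
      map_add, map_pow, aeval_X, hlow, map_sum, Finset.mul_sum, add_comm, add_sub_right_comm,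
      ← Finset.sum_sub_distrib]
    congr 1
    refine Finset.sum_congr rfl fun i _ => ?_
    have e1 : aeval v (p i) = aeval v (p i).divX * v + algebraMap R S ((p i).coeff 0) := by
      conv_lhs => rw [← divX_mul_X_add (p i)]
      rw [map_add, map_mul, aeval_X, aeval_C]
    rw [hp i, map_mul, map_pow, aeval_X, aeval_C, e1]
    ring
  rw [h1]
  exact dvd_sub he (Dvd.intro _ rfl)

end Pool.Agent.LNDQ.DG
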