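import Pool.Agent.LNDQ.Bas

/-!
# LNDQ/Quo: leading terms, the domain `R[v, x, y]`, reduction modulo `u`
-/

set_option autoImplicit false

namespace Pool.Agent.LNDQ.Bas

open Polynomial

variable {R C : Type*} [CommRing R] [CommRing C] [Algebra R C] {b : ℕ} {v x y : C}

/-- the basis elements are independent over `R[v]`, and `v` is transcendental -/
def Free (R : Type*) {C : Type*} [CommRing R] [CommRing C] [Algebra R C] (b : ℕ)
    (v x y : C) : Prop :=
  ∀ (n : ℕ) (p : ℕ → R[X]), ∑ i ∈ Finset.range n, aeval v (p i) * e b x y i = 0 →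
    ∀ i < n, p i = 0

theorem free_of_ind {f : R[X]} (h : Rl f b v x y) (hi : Ind R v x) : Free R b v x y :=
  fun _ _ h0 => uniq h hi h0

/-- the leading term of `c` is `p(v) e n` -/
def LT (R : Type*) {C : Type*} [CommRing R] [CommRing C] [Algebra R C] (b : ℕ) (v x y : C)
    (n : ℕ) (p : R[X]) (c : C) : Prop :=
  Low R b v x y n (c - aeval v p * e b x y n)

theorem LT.low {n : ℕ} {p : R[X]} {c : C} (h : LT R b v x y n p c) :
    Low R b v x y (n + 1) c := by
  have h1 := (Low.mono (Nat.le_succ n) h).add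
    ((low_e (R := R) (b := b) (v := v) (x := x) (y := y) (Nat.lt_succ_self n)).smul p)
  rwa [sub_add_cancel] at h1

theorem exists_lt {n : ℕ} {c : C} (h : Low R b v x y n c) (hc : c ≠ 0) :
    ∃ m < n, ∃ p : R[X], p ≠ 0 ∧ LT R b v x y m p c := by
  induction n with
  | zero =>
    obtain ⟨p, rfl⟩ := h
    simp at hc
  | succ n ih =>
    obtain ⟨p, hp⟩ := h
    rw [Finset.sum_range_succ] at hp
    by_cases h0 : p n = 0
    · rw [h0, map_zero, zero_mul, add_zero] at hp
      obtain ⟨m, hm, q, hq⟩ := ih ⟨p, hp⟩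
      exact ⟨m, hm.trans (Nat.lt_succ_self n), q, hq⟩
    · exact ⟨n, Nat.lt_succ_self n, p n, h0, p, by rw [hp, add_sub_cancel_right]⟩

theorem lt_mul {f : R[X]} (h : Rl f b v x y) {m n : ℕ} {p q : R[X]} {c d : C}
    (hc : LT R b v x y m p c) (hd : LT R b v x y n q d) :
    LT R b v x y (m + n) (p * q * X ^ ((m + n) / b - m / b - n / b)) (c * d) := by
  have h1 : Low R b v x y (m + n) (c * (d - aeval v q * e b x y n)) :=
    Low.mul h hc.low hd
  have h2 : Low R b v x y (m + n) ((aeval v q * e b x y n) * (c - aeval v p * e b x y m)) := by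
    have h3 : Low R b v x y (n + 1) (aeval v q * e b x y n) :=
      (low_e (Nat.lt_succ_self n)).smul q
    have := Low.mul h h3 hc
    rwa [add_comm n m] at this
  have h3 := (e_mul_e h m n).smul (p * q)
  have h4 := (h1.add h2).add h3
  have h5 : c * d - aeval v (p * q * X ^ ((m + n) / b - m / b - n / b)) * e b x y (m + n) =
      c * (d - aeval v q * e b x y n) + aeval v q * e b x y n * (c - aeval v p * e b x y m) +
        aeval v (p * q) * (e b x y m * e b x y n -
          v ^ ((m + n) / b - m / b - n / b) * e b x y (m + n)) := by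
    simp only [map_mul, map_pow, aeval_X]
    ring
  rw [LT, h5]
  exact h4

theorem lt_zero {n : ℕ} {p : R[X]} (hF : Free R b v x y) (h : LT R b v x y n p 0) : p = 0 := by
  classical
  obtain ⟨q, hq⟩ := h
  have h1 : ∑ i ∈ Finset.range (n + 1), aeval v (if i < n then q i else p) * e b x y i = 0 := by
    rw [Finset.sum_range_succ, if_neg (lt_irrefl n)]
    have h2 : ∑ i ∈ Finset.range n, aeval v (if i < n then q i else p) * e b x y i =
        ∑ i ∈ Finset.range n, aeval v (q i) * e b x y i :=
      Finset.sum_congr rfl fun i hi => by rw [if_pos (Finset.mem_range.1 hi)]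
    rw [h2, ← hq]
    ring
  have h2 := hF (n + 1) _ h1 n (Nat.lt_succ_self n)
  rwa [if_neg (lt_irrefl n)] at h2

/-- the leading term is unique -/
theorem lt_unique {n m : ℕ} {p q : R[X]} {c : C} (hF : Free R b v x y) (hp0 : p ≠ 0)
    (hq0 : q ≠ 0) (hp : LT R b v x y n p c) (hq : LT R b v x y m q c) : n = m ∧ p = q := by
  have key : ∀ {n m : ℕ} {p q : R[X]}, q ≠ 0 → n < m → LT R b v x y n p c →
      LT R b v x y m q c → False := by
    intro n m p q hq0 hnm hp hq
    apply hq0
    have h1 := (hp.low.mono (show n + 1 ≤ m by omega)).sub hq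
    rw [sub_sub_cancel] at h1
    have h2 : LT R b v x y m (-q) 0 := by
      rw [LT, map_neg, neg_mul, sub_neg_eq_add, zero_add]
      exact h1
    have := lt_zero hF h2
    rwa [neg_eq_zero] at this
  rcases lt_trichotomy n m with h | h | h
  · exact (key hq0 h hp hq).elim
  · subst h
    refine ⟨rfl, ?_⟩
    have h1 := Low.sub hq hp
    have h2 : LT R b v x y n (q - p) 0 := by
      rw [LT]
      have : (0 : C) - aeval v (q - p) * e b x y n =
          c - aeval v q * e b x y n - (c - aeval v p * e b x y n) := by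
        rw [map_sub]; ring
      rw [this]
      exact h1
    have := lt_zero hF h2
    rw [sub_eq_zero] at this
    exact this.symm
  · exact (key hp0 h hq hp).elim

/-- **the ring is a domain** -/
theorem mul_ne_zero' [IsDomain R] {f : R[X]} (h : Rl f b v x y) (hF : Free R b v x y)
    (hg : Algebra.adjoin R ({v, x, y} : Set C) = ⊤) {c d : C} (hc : c ≠ 0) (hd : d ≠ 0) :
    c * d ≠ 0 := by
  obtain ⟨n, hn⟩ := exists_low h (c := c) (by rw [hg]; exact Algebra.mem_top)
  obtain ⟨m, hm⟩ := exists_low h (c := d) (by rw [hg]; exact Algebra.mem_top)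
  obtain ⟨n', _, p, hp0, hp⟩ := exists_lt hn hc
  obtain ⟨m', _, q, hq0, hq⟩ := exists_lt hm hd
  intro h0
  have h1 := lt_mul h hp hq
  rw [h0] at h1
  have h2 := lt_zero hF h1
  exact mul_ne_zero (mul_ne_zero hp0 hq0) (pow_ne_zero _ X_ne_zero) h2

theorem isDomain [IsDomain R] [Nontrivial C] {f : R[X]} (h : Rl f b v x y)
    (hF : Free R b v x y) (hg : Algebra.adjoin R ({v, x, y} : Set C) = ⊤) : IsDomain C := by
  have : NoZeroDivisors C := ⟨fun {c d} h0 => by
    by_contra hcon
    push Not at hcon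
    exact mul_ne_zero' h hF hg hcon.1 hcon.2 h0⟩
  exact NoZeroDivisors.to_isDomain C

theorem nontrivial_of_free [Nontrivial R] (hF : Free R b v x y) : Nontrivial C := by
  by_contra hcon
  rw [not_nontrivial_iff_subsingleton] at hcon
  have := hF 1 (fun _ => 1) (Subsingleton.elim _ _) 0 Nat.zero_lt_one
  exact one_ne_zero this

/-- powers of `x` -/
theorem lt_x_pow {f : R[X]} (h : Rl f b v x y) (n : ℕ) :
    LT R b v x y n (X ^ (n / b)) (x ^ n) := by
  have h1 := x_pow_e h n 0
  rw [zero_add, Nat.zero_div, Nat.sub_zero] at h1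
  have h2 : e b x y 0 = (1 : C) := by simp [e]
  rw [h2, mul_one] at h1
  rw [LT, map_pow, aeval_X]
  exact h1

theorem ind_of_free {f : R[X]} (h : Rl f b v x y) (hF : Free R b v x y) : Ind R v x := by
  intro P hP
  by_contra hne
  have h1 : LT R b v x y P.natDegree (P.coeff P.natDegree * X ^ (P.natDegree / b)) (0 : C) := by
    rw [← hP, eval₂_eq_sum_range, Finset.sum_range_succ]
    have h2 : ∀ i, (aeval v : R[X] →ₐ[R] C).toRingHom (P.coeff i) * x ^ i =
        aeval v (P.coeff i) * x ^ i := fun i => rfl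
    simp only [h2]
    rw [LT, add_sub_assoc]
    refine Low.add (Low.sum _ _ fun i hi => Low.smul ?_ _) ?_
    · exact ((lt_x_pow h i).low).mono (by have := Finset.mem_range.1 hi; omega)
    · have h3 := Low.smul (lt_x_pow h P.natDegree) (P.coeff P.natDegree)
      have h4 : aeval v (P.coeff P.natDegree) * x ^ P.natDegree -
          aeval v (P.coeff P.natDegree * X ^ (P.natDegree / b)) * e b x y P.natDegree =
          aeval v (P.coeff P.natDegree) *
            (x ^ P.natDegree - aeval v (X ^ (P.natDegree / b) : R[X]) * e b x y P.natDegree) := by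
        rw [map_mul]; ring
      rw [h4]
      exact h3
  have h2 := lt_zero hF h1
  have h3 : P.coeff P.natDegree = 0 := by
    have : (X ^ (P.natDegree / b) : R[X]) ∈ nonZeroDivisors R[X] :=
      (monic_X_pow _).mem_nonZeroDivisors
    exact (mul_right_mem_nonZeroDivisors_eq_zero_iff this).1 h2
  exact hne (leadingCoeff_eq_zero.1 h3)

/-! ### reduction modulo `u` -/

section Quo

variable {k C₀ : Type*} [CommRing k] [CommRing C₀] [Algebra k C₀]

theorem aeval_comp (ρ : R →+* k) (π : C →+* C₀)
    (hc : ∀ r, π (algebraMap R C r) = algebraMap k C₀ (ρ r)) (z : C) (p : R[X]) :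
    π (aeval z p) = aeval (π z) (p.map ρ) := by
  rw [aeval_def, aeval_def, hom_eval₂, eval₂_map]
  congr 1
  ext r
  exact hc r

theorem rl_quo {f : R[X]} (h : Rl f b v x y) [Nontrivial k] (ρ : R →+* k) (π : C →+* C₀)
    (hc : ∀ r, π (algebraMap R C r) = algebraMap k C₀ (ρ r)) :
    Rl (f.map ρ) b (π v) (π x) (π y) where
  pos := h.pos
  monic := h.monic.map ρ
  deg := by rw [h.monic.natDegree_map, h.deg]
  rel := by rw [← map_mul, h.rel, aeval_comp ρ π hc]

theorem e_quo (π : C →+* C₀) (n : ℕ) : π (e b x y n) = e b (π x) (π y) n := by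
  rw [e, e, map_mul, map_pow, map_pow]

theorem free_quo {f : R[X]} (h : Rl f b v x y) (hF : Free R b v x y)
    (hg : Algebra.adjoin R ({v, x, y} : Set C) = ⊤) (ρ : R →+* k) (π : C →+* C₀)
    (hc : ∀ r, π (algebraMap R C r) = algebraMap k C₀ (ρ r)) (hρ : Function.Surjective ρ)
    {u : R} (hu : ρ u = 0) (hπ : ∀ c, π c = 0 → ∃ d, c = algebraMap R C u * d) :
    Free k b (π v) (π x) (π y) := by
  classical
  intro n p h0
  have hlift : ∀ i, ∃ q : R[X], q.map ρ = p i := fun i => Polynomial.map_surjective ρ hρ (p i)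
  choose q hq using hlift
  have h1 : π (∑ i ∈ Finset.range n, aeval v (q i) * e b x y i) = 0 := by
    rw [map_sum, ← h0]
    refine Finset.sum_congr rfl fun i _ => ?_
    rw [map_mul, aeval_comp ρ π hc, hq, e_quo]
  obtain ⟨d, hd⟩ := hπ _ h1
  obtain ⟨m, hm⟩ := exists_low h (c := d) (by rw [hg]; exact Algebra.mem_top)
  obtain ⟨s, hs⟩ := hm.mono (le_max_right n m)
  have hn := (Low.mono (R := R) (b := b) (v := v) (x := x) (y := y) (le_max_left n m)
    ⟨q, rfl⟩ : Low R b v x y (max n m) (∑ i ∈ Finset.range n, aeval v (q i) * e b x y i))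
  have h2 : ∑ i ∈ Finset.range (max n m),
      aeval v ((if i < n then q i else 0) - Polynomial.C u * s i) * e b x y i = 0 := by
    have h3 : ∑ i ∈ Finset.range (max n m), aeval v (if i < n then q i else 0) * e b x y i =
        ∑ i ∈ Finset.range n, aeval v (q i) * e b x y i := by
      rw [← Finset.sum_subset (Finset.range_subset_range.2 (le_max_left n m))]
      · refine Finset.sum_congr rfl fun i hi => ?_
        rw [if_pos (Finset.mem_range.1 hi)]
      · intro i _ hi
        rw [if_neg (fun h' => hi (Finset.mem_range.2 h')), map_zero, zero_mul]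
    have h4 : ∀ i, aeval v ((if i < n then q i else 0) - Polynomial.C u * s i) * e b x y i =
        aeval v (if i < n then q i else 0) * e b x y i -
          algebraMap R C u * (aeval v (s i) * e b x y i) := by
      intro i
      rw [map_sub, map_mul, aeval_C]; ring
    simp only [h4]
    rw [Finset.sum_sub_distrib, h3, ← Finset.mul_sum, ← hs, ← hd, sub_self]
  intro i hi
  have h3 := hF _ _ h2 i (lt_of_lt_of_le hi (le_max_left n m))
  rw [if_pos hi, sub_eq_zero] at h3
  rw [← hq i, h3, Polynomial.map_mul, map_C, hu, C_0, zero_mul]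

theorem adjoin_quo (hg : Algebra.adjoin R ({v, x, y} : Set C) = ⊤) (ρ : R →+* k)
    (π : C →+* C₀) (hc : ∀ r, π (algebraMap R C r) = algebraMap k C₀ (ρ r))
    (hπ : Function.Surjective π) :
    Algebra.adjoin k ({π v, π x, π y} : Set C₀) = ⊤ := by
  rw [eq_top_iff]
  intro z _
  obtain ⟨c, rfl⟩ := hπ z
  have hcm : c ∈ Algebra.adjoin R ({v, x, y} : Set C) := by rw [hg]; exact Algebra.mem_top
  induction hcm using Algebra.adjoin_induction with
  | mem z hz =>
    refine Algebra.subset_adjoin ?_
    rcases hz with rfl | rfl | rfl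
    · exact Or.inl rfl
    · exact Or.inr (Or.inl rfl)
    · exact Or.inr (Or.inr rfl)
  | algebraMap r => rw [hc]; exact Subalgebra.algebraMap_mem _ _
  | add c d _ _ h1 h2 =>
    rw [map_add]
    exact Subalgebra.add_mem _ (h1 Algebra.mem_top) (h2 Algebra.mem_top)
  | mul c d _ _ h1 h2 =>
    rw [map_mul]
    exact Subalgebra.mul_mem _ (h1 Algebra.mem_top) (h2 Algebra.mem_top)

end Quo

end Pool.Agent.LNDQ.Bas
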