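import Pool.Agent.LNDQ.Defs
import Pool.Agent.LNDQ.Quo

/-!
# LNDQ/BasT: the basis of `R[v, x, y]` over `R[v]`, in the words of `Defs`
-/

set_option autoImplicit false

open Polynomial

namespace Pool.Agent.LNDQ.BT

section gen

variable {R S : Type} [CommRing R] [CommRing S] [Algebra R S] {β : ℕ} {v x y : S}

theorem bs_eq (n : ℕ) : bs β x y n = Bas.e β x y n := rfl

theorem mem_low {n : ℕ} {z : S} : z ∈ Low R β v x y n ↔ Bas.Low R β v x y n z := by
  constructor
  · intro h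
    rw [Low] at h
    induction h using Submodule.span_induction with
    | mem z hz =>
      obtain ⟨i, j, hj, rfl⟩ := hz
      exact (Bas.low_e hj).v_pow i
    | zero => exact Bas.low_zero n
    | add a b _ _ ha hb => exact ha.add hb
    | smul r a _ ha =>
      rw [Algebra.smul_def]
      exact ha.C_smul r
  · rintro ⟨p, rfl⟩
    refine Submodule.sum_mem _ fun i hi => ?_
    rw [aeval_eq_sum_range, Finset.sum_mul]
    refine Submodule.sum_mem _ fun j _ => ?_
    rw [smul_mul_assoc]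
    exact Submodule.smul_mem _ _ (Submodule.subset_span ⟨j, i, Finset.mem_range.1 hi, rfl⟩)

theorem low_mono {m n : ℕ} (h : m ≤ n) {z : S} (hz : z ∈ Low R β v x y m) :
    z ∈ Low R β v x y n :=
  mem_low.2 ((mem_low.1 hz).mono h)

theorem low_aeval {n : ℕ} {z : S} (hz : z ∈ Low R β v x y n) (a : R[X]) :
    aeval v a * z ∈ Low R β v x y n :=
  mem_low.2 ((mem_low.1 hz).smul a)

theorem low_algebraMap {n : ℕ} {z : S} (hz : z ∈ Low R β v x y n) (r : R) :
    algebraMap R S r * z ∈ Low R β v x y n :=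
  mem_low.2 ((mem_low.1 hz).C_smul r)

theorem bs_mem {m n : ℕ} (h : m < n) : bs β x y m ∈ Low R β v x y n :=
  mem_low.2 (Bas.low_e h)

theorem low_succ {n : ℕ} {z : S} (hz : z ∈ Low R β v x y (n + 1)) :
    ∃ a : R[X], z - aeval v a * bs β x y n ∈ Low R β v x y n := by
  obtain ⟨p, hp⟩ := mem_low.1 hz
  refine ⟨p n, mem_low.2 ⟨p, ?_⟩⟩
  rw [hp, Finset.sum_range_succ, bs_eq, add_sub_cancel_right]

theorem low_zero {z : S} : z ∈ Low R β v x y 0 ↔ z = 0 := by
  rw [mem_low]
  constructor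
  · rintro ⟨p, hp⟩
    rw [hp, Finset.sum_range_zero]
  · rintro rfl
    exact Bas.low_zero 0

theorem low_exp {n : ℕ} {z : S} (hz : z ∈ Low R β v x y n) :
    ∃ p : ℕ → R[X], z = ∑ i ∈ Finset.range n, aeval v (p i) * bs β x y i :=
  mem_low.1 hz

theorem low_of_exp (n : ℕ) (p : ℕ → R[X]) :
    ∑ i ∈ Finset.range n, aeval v (p i) * bs β x y i ∈ Low R β v x y n :=
  mem_low.2 ⟨p, rfl⟩

theorem bs_mul_dvd {N : ℕ} (hN : β ∣ N) (j : ℕ) :
    bs β x y j * bs β x y N = bs β x y (j + N) := by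
  obtain ⟨c, rfl⟩ := hN
  rcases Nat.eq_zero_or_pos β with rfl | hβ
  · simp [bs]
  · unfold bs
    rw [Nat.mul_mod_right, Nat.mul_div_cancel_left c hβ, pow_zero, one_mul,
      Nat.add_mul_mod_self_left, Nat.add_mul_div_left _ _ hβ, pow_add]
    ring

theorem bs_zero : bs β x y 0 = 1 := by simp [bs]

/-! ### independence of `v`, `x` -/

theorem phi_psi (P : R[X][X]) :
    (MvPolynomial.aeval ![C X, X] : MvPolynomial (Fin 2) R →ₐ[R] R[X][X])
      (P.eval₂ ((aeval (MvPolynomial.X 0) : R[X] →ₐ[R] MvPolynomial (Fin 2) R) :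
        R[X] →+* MvPolynomial (Fin 2) R) (MvPolynomial.X 1)) = P := by
  induction P using Polynomial.induction_on' with
  | add p q hp hq => rw [eval₂_add, map_add, hp, hq]
  | monomial n q =>
    rw [eval₂_monomial, map_mul, map_pow, MvPolynomial.aeval_X, ← C_mul_X_pow_eq_monomial]
    congr 1
    change (MvPolynomial.aeval ![C X, X] : MvPolynomial (Fin 2) R →ₐ[R] R[X][X])
      (aeval (MvPolynomial.X 0) q) = C q
    rw [← Polynomial.aeval_algHom_apply, MvPolynomial.aeval_X]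
    change aeval (C X : R[X][X]) q = C q
    induction q using Polynomial.induction_on' with
    | add p q hp hq => rw [map_add, hp, hq, C_add]
    | monomial n r =>
      rw [aeval_monomial, ← C_mul_X_pow_eq_monomial, C_mul, C_pow]
      rfl

theorem psi_phi (Q : MvPolynomial (Fin 2) R) :
    ((MvPolynomial.aeval ![C X, X] : MvPolynomial (Fin 2) R →ₐ[R] R[X][X]) Q).eval₂
      ((aeval (MvPolynomial.X 0) : R[X] →ₐ[R] MvPolynomial (Fin 2) R) :
        R[X] →+* MvPolynomial (Fin 2) R) (MvPolynomial.X 1) = Q := by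
  induction Q using MvPolynomial.induction_on with
  | C a =>
    rw [MvPolynomial.aeval_C]
    change eval₂ _ _ (C (C a)) = _
    rw [eval₂_C]
    change aeval _ (C a) = _
    rw [aeval_C]
    rfl
  | add p q hp hq => rw [map_add, eval₂_add, hp, hq]
  | mul_X p i hp =>
    rw [map_mul, eval₂_mul, hp, MvPolynomial.aeval_X]
    congr 1
    fin_cases i
    · change eval₂ _ _ (C X) = _
      rw [eval₂_C]
      change aeval _ X = _
      rw [aeval_X]
      rfl
    · change eval₂ _ _ X = _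
      rw [eval₂_X]
      rfl

theorem ev_phi (P : R[X][X]) :
    (MvPolynomial.aeval ![v, x] : MvPolynomial (Fin 2) R →ₐ[R] S)
      (P.eval₂ ((aeval (MvPolynomial.X 0) : R[X] →ₐ[R] MvPolynomial (Fin 2) R) :
        R[X] →+* MvPolynomial (Fin 2) R) (MvPolynomial.X 1)) =
      P.eval₂ (aeval v : R[X] →ₐ[R] S).toRingHom x := by
  induction P using Polynomial.induction_on' with
  | add p q hp hq => rw [eval₂_add, map_add, hp, hq, eval₂_add]
  | monomial n q =>
    rw [eval₂_monomial, map_mul, map_pow, MvPolynomial.aeval_X, eval₂_monomial]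
    congr 1
    change (MvPolynomial.aeval ![v, x] : MvPolynomial (Fin 2) R →ₐ[R] S)
      (aeval (MvPolynomial.X 0) q) = aeval v q
    rw [← Polynomial.aeval_algHom_apply, MvPolynomial.aeval_X]
    rfl

theorem ind_iff : AlgebraicIndependent R ![v, x] ↔ Bas.Ind R v x := by
  constructor
  · intro h P hP
    rw [← ev_phi] at hP
    have h1 := (injective_iff_map_eq_zero _).1 h _ hP
    rw [← phi_psi P, h1, map_zero]
  · intro h
    refine (injective_iff_map_eq_zero _).2 fun Q hQ => ?_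
    rw [← psi_phi Q]
    have h1 : (MvPolynomial.aeval ![C X, X] : MvPolynomial (Fin 2) R →ₐ[R] R[X][X]) Q = 0 := by
      apply h
      rw [← ev_phi, psi_phi]
      exact hQ
    rw [h1, eval₂_zero]

variable {f : R[X]}

theorem rl (h : Pres f v x y) : Bas.Rl f f.natDegree v x y where
  pos := by have := h.deg; omega
  monic := h.monic
  deg := rfl
  rel := h.rel

theorem free (h : Pres f v x y) : Bas.Free R f.natDegree v x y :=
  Bas.free_of_ind (rl h) (ind_iff.1 h.ind)

/-- uniqueness of the coefficients -/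
theorem uniq (h : Pres f v x y) (n : ℕ) (p : ℕ → R[X])
    (h0 : ∑ i ∈ Finset.range n, aeval v (p i) * bs f.natDegree x y i = 0) : ∀ i < n, p i = 0 :=
  free h n p h0

theorem low_mul (h : Pres f v x y) {m n : ℕ} {c d : S}
    (hc : c ∈ Low R f.natDegree v x y (m + 1)) (hd : d ∈ Low R f.natDegree v x y n) :
    c * d ∈ Low R f.natDegree v x y (m + n) :=
  mem_low.2 (Bas.Low.mul (rl h) (mem_low.1 hc) (mem_low.1 hd))

theorem bs_mul_bs (h : Pres f v x y) (m n : ℕ) :
    bs f.natDegree x y m * bs f.natDegree x y n -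
      v ^ ((m + n) / f.natDegree - m / f.natDegree - n / f.natDegree) * bs f.natDegree x y (m + n) ∈
      Low R f.natDegree v x y (m + n) :=
  mem_low.2 (Bas.e_mul_e (rl h) m n)

theorem bs_mul_low (h : Pres f v x y) {m n : ℕ} {d : S} (hd : d ∈ Low R f.natDegree v x y n) :
    bs f.natDegree x y m * d ∈ Low R f.natDegree v x y (m + n) :=
  low_mul h (bs_mem (Nat.lt_succ_self m)) hd

theorem lead_zero (h : Pres f v x y) {n : ℕ} {a : R[X]}
    (h0 : aeval v a * bs f.natDegree x y n ∈ Low R f.natDegree v x y n) : a = 0 := by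
  have h1 : Bas.LT R f.natDegree v x y n (-a) 0 := by
    rw [Bas.LT, map_neg, neg_mul, sub_neg_eq_add, zero_add]
    exact mem_low.1 h0
  have := Bas.lt_zero (free h) h1
  rwa [neg_eq_zero] at this

theorem x_low (h : Pres f v x y) {n : ℕ} {c : S} (hc : c ∈ Low R f.natDegree v x y n) :
    x * c ∈ Low R f.natDegree v x y (n + 1) :=
  mem_low.2 ((mem_low.1 hc).x_mul (rl h))

theorem y_low (h : Pres f v x y) {n : ℕ} {c : S} (hc : c ∈ Low R f.natDegree v x y n) :
    y * c ∈ Low R f.natDegree v x y (n + f.natDegree) :=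
  mem_low.2 ((mem_low.1 hc).y_mul (rl h).pos)

theorem x_bs (h : Pres f v x y) (n : ℕ) :
    x * bs f.natDegree x y n -
      v ^ ((n + 1) / f.natDegree - n / f.natDegree) * bs f.natDegree x y (n + 1) ∈
      Low R f.natDegree v x y (n + 1) :=
  mem_low.2 (Bas.x_e (rl h) n)

theorem adjoin_iff (h : Pres f v x y) {z : S} :
    z ∈ Algebra.adjoin R ({v, x, y} : Set S) ↔ ∃ n, z ∈ Low R f.natDegree v x y n := by
  constructor
  · intro hz
    obtain ⟨n, hn⟩ := Bas.exists_low (rl h) hz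
    exact ⟨n, mem_low.2 hn⟩
  · rintro ⟨n, hn⟩
    obtain ⟨p, rfl⟩ := low_exp hn
    have hx : x ∈ Algebra.adjoin R ({v, x, y} : Set S) := Algebra.subset_adjoin (by simp)
    have hy : y ∈ Algebra.adjoin R ({v, x, y} : Set S) := Algebra.subset_adjoin (by simp)
    have hv : ∀ q : R[X], aeval v q ∈ Algebra.adjoin R ({v, x, y} : Set S) := fun q =>
      Algebra.adjoin_mono (show ({v} : Set S) ⊆ {v, x, y} by simp)
        (Polynomial.aeval_mem_adjoin_singleton R v)
    exact Subalgebra.sum_mem _ fun i _ => Subalgebra.mul_mem _ (hv _)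
      (Subalgebra.mul_mem _ (Subalgebra.pow_mem _ hx _) (Subalgebra.pow_mem _ hy _))

end gen

section fr

variable {k S : Type} [Field k] [CommRing S] [Algebra k S] {R : Subalgebra k S} {u : R}

theorem prime_u (h : Fr R u) : Prime u := by
  refine ⟨fun h0 => h.prime.ne_zero (by rw [h0]; rfl), fun h0 => h.prime.not_isUnit ?_, ?_⟩
  · exact h0.map R.val
  · have key : ∀ a : R, (u : S) ∣ (a : S) → u ∣ a := by
      rintro a ⟨z, hz⟩
      have hzR : z ∈ R := h.sat z (by rw [← hz]; exact a.2)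
      exact ⟨⟨z, hzR⟩, Subtype.ext hz⟩
    rintro a b ⟨c, hc⟩
    have h1 : (u : S) ∣ (a : S) * (b : S) := ⟨c, by exact_mod_cast congrArg Subtype.val hc⟩
    rcases h.prime.dvd_or_dvd h1 with h2 | h2
    · exact Or.inl (key a h2)
    · exact Or.inr (key b h2)

theorem dvd_R (h : Fr R u) {a : R} (ha : (u : S) ∣ (a : S)) : u ∣ a := by
  obtain ⟨z, hz⟩ := ha
  have hzR : z ∈ R := h.sat z (by rw [← hz]; exact a.2)
  exact ⟨⟨z, hzR⟩, Subtype.ext hz⟩

theorem prime_C (h : Fr R u) : Prime (C u : R[X]) := prime_C_iff.2 (prime_u h)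

/-- the residue map `R → k` -/
theorem exists_res (h : Fr R u) :
    ∃ φ : R →ₐ[k] k, φ u = 0 ∧ ∀ r : R, u ∣ r - algebraMap k R (φ r) := by
  have hu : ∀ c : k, u ∣ algebraMap k R c → c = 0 := by
    intro c hc
    by_contra hne
    exact (prime_u h).not_isUnit (isUnit_of_dvd_unit hc ((Ne.isUnit hne).map _))
  have h1 : ∀ r : R, ∃ c : k, u ∣ r - algebraMap k R c := by
    intro r
    obtain ⟨c, r', hr⟩ := h.res r
    exact ⟨c, r', by rw [hr]; ring⟩
  choose g hg using h1
  have huniq : ∀ (r : R) (c : k), u ∣ r - algebraMap k R c → g r = c := by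
    intro r c hc
    have h2 := dvd_sub hc (hg r)
    have h3 : r - algebraMap k R c - (r - algebraMap k R (g r)) = algebraMap k R (g r - c) := by
      rw [map_sub]; ring
    rw [h3] at h2
    exact sub_eq_zero.1 (hu _ h2)
  refine ⟨⟨⟨⟨⟨g, ?_⟩, ?_⟩, ?_, ?_⟩, ?_⟩, ?_, hg⟩
  · exact huniq _ _ (by simp)
  · intro a b
    refine huniq _ _ ?_
    have h2 : a * b - algebraMap k R (g a * g b) =
        a * (b - algebraMap k R (g b)) + (a - algebraMap k R (g a)) * algebraMap k R (g b) := by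
      rw [map_mul]; ring
    rw [h2]
    exact dvd_add (Dvd.dvd.mul_left (hg b) _) (Dvd.dvd.mul_right (hg a) _)
  · exact huniq _ _ (by simp)
  · intro a b
    refine huniq _ _ ?_
    have h2 : a + b - algebraMap k R (g a + g b) =
        (a - algebraMap k R (g a)) + (b - algebraMap k R (g b)) := by
      rw [map_add]; ring
    rw [h2]
    exact dvd_add (hg a) (hg b)
  · intro c
    exact huniq _ _ (by simp)
  · exact huniq _ _ (by simp)

variable {β : ℕ} {v x y : S} {f : R[X]}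

theorem mem_Cx (h : Pres f v x y) {z : S} :
    z ∈ Cx R v x y ↔ ∃ n, z ∈ Low R f.natDegree v x y n :=
  adjoin_iff h

theorem low_mem_Cx (h : Pres f v x y) {n : ℕ} {z : S} (hz : z ∈ Low R f.natDegree v x y n) :
    z ∈ Cx R v x y :=
  (mem_Cx h).2 ⟨n, hz⟩

theorem u_low {n : ℕ} {z : S} (hz : z ∈ Low R β v x y n) (m : ℕ) :
    (u : S) ^ m * z ∈ Low R β v x y n := by
  have := low_algebraMap hz (u ^ m)
  rwa [map_pow] at this

theorem aeval_Cu (m : ℕ) : aeval v (C u ^ m : R[X]) = (u : S) ^ m := by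
  rw [map_pow, aeval_C]
  rfl

/-! ### `Fl` -/

theorem fl_zero (n : ℕ) : Fl R u β v x y n 0 := ⟨0, by rw [mul_zero]; exact Submodule.zero_mem _⟩

theorem Fl_mono {m n : ℕ} (h : m ≤ n) {z : S} (hz : Fl R u β v x y m z) : Fl R u β v x y n z := by
  obtain ⟨t, ht⟩ := hz
  exact ⟨t, low_mono h ht⟩

theorem Fl_low {n : ℕ} {z : S} (hz : z ∈ Low R β v x y n) : Fl R u β v x y n z :=
  ⟨0, by rwa [pow_zero, one_mul]⟩

theorem Fl_add {n : ℕ} {z w : S} (hz : Fl R u β v x y n z) (hw : Fl R u β v x y n w) :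
    Fl R u β v x y n (z + w) := by
  obtain ⟨s, hs⟩ := hz
  obtain ⟨t, ht⟩ := hw
  refine ⟨s + t, ?_⟩
  have h1 : (u : S) ^ (s + t) * (z + w) = u ^ t * (u ^ s * z) + u ^ s * (u ^ t * w) := by
    rw [pow_add]; ring
  rw [h1]
  exact Submodule.add_mem _ (u_low hs t) (u_low ht s)

theorem Fl_aeval {n : ℕ} {z : S} (hz : Fl R u β v x y n z) (a : R[X]) :
    Fl R u β v x y n (aeval v a * z) := by
  obtain ⟨s, hs⟩ := hz
  refine ⟨s, ?_⟩
  have h1 : (u : S) ^ s * (aeval v a * z) = aeval v a * (u ^ s * z) := by ring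
  rw [h1]
  exact low_aeval hs a

theorem Fl_u {n m : ℕ} {z : S} : Fl R u β v x y n ((u : S) ^ m * z) ↔ Fl R u β v x y n z := by
  constructor
  · rintro ⟨s, hs⟩
    exact ⟨s + m, by rw [pow_add, mul_assoc]; exact hs⟩
  · intro h
    have := Fl_aeval h (C u ^ m)
    rwa [aeval_Cu] at this

theorem Fl_neg {n : ℕ} {z : S} (hz : Fl R u β v x y n z) : Fl R u β v x y n (-z) := by
  have := Fl_aeval hz (-1)
  rwa [map_neg, map_one, neg_one_mul] at this

theorem Fl_sub {n : ℕ} {z w : S} (hz : Fl R u β v x y n z) (hw : Fl R u β v x y n w) :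
    Fl R u β v x y n (z - w) := by
  rw [sub_eq_add_neg]
  exact Fl_add hz (Fl_neg hw)

theorem Fl_mul (h : Pres f v x y) {m n : ℕ} {z w : S} (hz : Fl R u f.natDegree v x y (m + 1) z)
    (hw : Fl R u f.natDegree v x y n w) : Fl R u f.natDegree v x y (m + n) (z * w) := by
  obtain ⟨s, hs⟩ := hz
  obtain ⟨t, ht⟩ := hw
  refine ⟨s + t, ?_⟩
  have h1 : (u : S) ^ (s + t) * (z * w) = (u ^ s * z) * (u ^ t * w) := by
    rw [pow_add]; ring
  rw [h1]
  exact low_mul h hs ht

/-- `u ^ m z ∈ C` gives a degree -/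
theorem exists_fl (h : Pres f v x y) {z : S} (hz : ∃ m : ℕ, (u : S) ^ m * z ∈ Cx R v x y) :
    ∃ n, Fl R u f.natDegree v x y n z := by
  obtain ⟨m, hm⟩ := hz
  obtain ⟨n, hn⟩ := (mem_Cx h).1 hm
  exact ⟨n, m, hn⟩

theorem fl_zero_iff [IsDomain S] (hu : (u : S) ≠ 0) {z : S} : Fl R u β v x y 0 z ↔ z = 0 := by
  constructor
  · rintro ⟨m, hm⟩
    exact (mul_eq_zero.1 (low_zero.1 hm)).resolve_left (pow_ne_zero m hu)
  · rintro rfl
    exact fl_zero 0

/-! ### `LT` -/

theorem LT_fl {n M : ℕ} {a : R[X]} {z : S} (h : LT R u β v x y n M a z) :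
    Fl R u β v x y (n + 1) z := by
  obtain ⟨t, ht⟩ := h
  refine ⟨M + t, ?_⟩
  have h1 := low_mono (Nat.le_succ n) ht
  have h2 : (u : S) ^ t * (aeval v a * bs β x y n) ∈ Low R β v x y (n + 1) :=
    u_low (low_aeval (bs_mem (Nat.lt_succ_self n)) a) t
  have := Submodule.add_mem _ h1 h2
  rwa [sub_add_cancel] at this

theorem LT_of_fl {n : ℕ} {z : S} (h : Fl R u β v x y n z) (M : ℕ) :
    LT R u β v x y n M 0 z := by
  obtain ⟨t, ht⟩ := h
  refine ⟨t, ?_⟩
  rw [map_zero, zero_mul, mul_zero, sub_zero, pow_add, mul_assoc]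
  exact u_low ht M

theorem exists_LT {n : ℕ} {z : S} (h : Fl R u β v x y (n + 1) z) :
    ∃ (M : ℕ) (a : R[X]), LT R u β v x y n M a z := by
  obtain ⟨m, hm⟩ := h
  obtain ⟨a, ha⟩ := low_succ hm
  exact ⟨m, a, 0, by rwa [add_zero, pow_zero, one_mul]⟩

/-- more precise form of `exists_LT` -/
theorem LT_of_low {n m : ℕ} {z : S} (hm : (u : S) ^ m * z ∈ Low R β v x y (n + 1)) :
    ∃ a : R[X], LT R u β v x y n m a z := by
  obtain ⟨a, ha⟩ := low_succ hm
  exact ⟨a, 0, by rwa [add_zero, pow_zero, one_mul]⟩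

theorem LT_up {n M : ℕ} {a : R[X]} {z : S} (h : LT R u β v x y n M a z) (j : ℕ) :
    LT R u β v x y n (M + j) (C u ^ j * a) z := by
  obtain ⟨t, ht⟩ := h
  refine ⟨t, ?_⟩
  have h1 : (u : S) ^ (M + j + t) * z - u ^ t * (aeval v (C u ^ j * a) * bs β x y n) =
      u ^ j * (u ^ (M + t) * z - u ^ t * (aeval v a * bs β x y n)) := by
    rw [map_mul, aeval_Cu]; ring
  rw [h1]
  exact u_low ht j

theorem LT_down {n M : ℕ} {a : R[X]} {z : S} {j : ℕ}
    (h : LT R u β v x y n (M + j) (C u ^ j * a) z) : LT R u β v x y n M a z := by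
  obtain ⟨t, ht⟩ := h
  refine ⟨j + t, ?_⟩
  have h1 : (u : S) ^ (M + (j + t)) * z - u ^ (j + t) * (aeval v a * bs β x y n) =
      u ^ (M + j + t) * z - u ^ t * (aeval v (C u ^ j * a) * bs β x y n) := by
    rw [map_mul, aeval_Cu]; ring
  rw [h1]
  exact ht

theorem LT_aeval {n M : ℕ} {a : R[X]} {z : S} (h : LT R u β v x y n M a z) (c : R[X]) :
    LT R u β v x y n M (c * a) (aeval v c * z) := by
  obtain ⟨t, ht⟩ := h
  refine ⟨t, ?_⟩
  have h1 : (u : S) ^ (M + t) * (aeval v c * z) - u ^ t * (aeval v (c * a) * bs β x y n) =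
      aeval v c * (u ^ (M + t) * z - u ^ t * (aeval v a * bs β x y n)) := by
    rw [map_mul]; ring
  rw [h1]
  exact low_aeval ht c

theorem LT_add {n M : ℕ} {a b : R[X]} {z w : S} (h : LT R u β v x y n M a z)
    (h' : LT R u β v x y n M b w) : LT R u β v x y n M (a + b) (z + w) := by
  obtain ⟨s, hs⟩ := h
  obtain ⟨t, ht⟩ := h'
  refine ⟨s + t, ?_⟩
  have h1 : (u : S) ^ (M + (s + t)) * (z + w) - u ^ (s + t) * (aeval v (a + b) * bs β x y n) =
      u ^ t * (u ^ (M + s) * z - u ^ s * (aeval v a * bs β x y n)) +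
        u ^ s * (u ^ (M + t) * w - u ^ t * (aeval v b * bs β x y n)) := by
    rw [map_add]; ring
  rw [h1]
  exact Submodule.add_mem _ (u_low hs t) (u_low ht s)

theorem LT_neg {n M : ℕ} {a : R[X]} {z : S} (h : LT R u β v x y n M a z) :
    LT R u β v x y n M (-a) (-z) := by
  have h1 := LT_aeval h (-1)
  have h2 : (-1 : R[X]) * a = -a := by ring
  rw [map_neg, map_one, neg_one_mul, h2] at h1
  exact h1

theorem LT_sub {n M : ℕ} {a b : R[X]} {z w : S} (h : LT R u β v x y n M a z)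
    (h' : LT R u β v x y n M b w) : LT R u β v x y n M (a - b) (z - w) := by
  rw [sub_eq_add_neg, sub_eq_add_neg]
  exact LT_add h (LT_neg h')

/-- leading terms over `R[v]` of `u ^ M z` -/
theorem LT_iff {n M : ℕ} {a : R[X]} {z : S} :
    LT R u β v x y n M a z ↔
      ∃ t : ℕ, Bas.LT R β v x y n (C u ^ t * a) ((u : S) ^ (M + t) * z) := by
  constructor
  · rintro ⟨t, ht⟩
    refine ⟨t, ?_⟩
    rw [Bas.LT, map_mul, aeval_Cu, mul_assoc]
    exact mem_low.1 ht
  · rintro ⟨t, ht⟩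
    refine ⟨t, ?_⟩
    rw [Bas.LT, map_mul, aeval_Cu, mul_assoc] at ht
    exact mem_low.2 ht

theorem LT_mul (h : Pres f v x y) {m n M N : ℕ} {a b : R[X]} {z w : S}
    (hz : LT R u f.natDegree v x y m M a z) (hw : LT R u f.natDegree v x y n N b w) :
    LT R u f.natDegree v x y (m + n) (M + N)
      (a * b * X ^ ((m + n) / f.natDegree - m / f.natDegree - n / f.natDegree)) (z * w) := by
  obtain ⟨s, hs⟩ := LT_iff.1 hz
  obtain ⟨t, ht⟩ := LT_iff.1 hw
  refine LT_iff.2 ⟨s + t, ?_⟩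
  have h1 := Bas.lt_mul (rl h) hs ht
  have h2 : (u : S) ^ (M + s) * z * (u ^ (N + t) * w) = u ^ (M + N + (s + t)) * (z * w) := by ring
  have h3 : C u ^ s * a * (C u ^ t * b) *
      X ^ ((m + n) / f.natDegree - m / f.natDegree - n / f.natDegree) = C u ^ (s + t) *
      (a * b * X ^ ((m + n) / f.natDegree - m / f.natDegree - n / f.natDegree)) := by ring
  rw [h2, h3] at h1
  exact h1

theorem LT_zero_fl {n M : ℕ} {z : S} (hz : LT R u β v x y n M 0 z) : Fl R u β v x y n z := by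
  obtain ⟨t, ht⟩ := hz
  refine ⟨M + t, ?_⟩
  rwa [map_zero, zero_mul, mul_zero, sub_zero] at ht

section dom

variable [IsDomain S]

theorem Cu_ne (h : Fr R u) (t : ℕ) : (C u ^ t : R[X]) ≠ 0 := pow_ne_zero t (prime_C h).ne_zero

/-- an element of degree `< n` has no leading term in degree `n` -/
theorem LT_fl_zero (hF : Fr R u) (h : Pres f v x y) {n M : ℕ} {a : R[X]} {z : S}
    (hz : LT R u f.natDegree v x y n M a z) (hz' : Fl R u f.natDegree v x y n z) : a = 0 := by
  obtain ⟨s, hs⟩ := hz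
  obtain ⟨t, ht⟩ := hz'
  have h1 := u_low (u := u) ht (M + s)
  have h2 := u_low (u := u) hs t
  have h3 := Submodule.sub_mem _ h1 h2
  have h4 : (u : S) ^ (M + s) * (u ^ t * z) -
      u ^ t * (u ^ (M + s) * z - u ^ s * (aeval v a * bs f.natDegree x y n)) =
      aeval v (C u ^ (t + s) * a) * bs f.natDegree x y n := by
    rw [map_mul, aeval_Cu]; ring
  rw [h4] at h3
  exact (mul_eq_zero.1 (lead_zero h h3)).resolve_left (Cu_ne hF _)

/-- uniqueness of the leading coefficient -/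
theorem LT_unique (hF : Fr R u) (h : Pres f v x y) {n M M' : ℕ} {a a' : R[X]} {z : S}
    (hz : LT R u f.natDegree v x y n M a z) (hz' : LT R u f.natDegree v x y n M' a' z) :
    C u ^ M' * a = C u ^ M * a' := by
  have h1 := LT_up hz M'
  have h2 := LT_up hz' M
  rw [add_comm M' M] at h2
  have h3 := LT_sub h1 h2
  rw [sub_self] at h3
  exact sub_eq_zero.1 (LT_fl_zero hF h h3 (fl_zero n))

theorem LT_degree (hF : Fr R u) (h : Pres f v x y) {n n' M M' : ℕ} {a a' : R[X]} {z : S}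
    (ha : a ≠ 0) (ha' : a' ≠ 0) (hz : LT R u f.natDegree v x y n M a z)
    (hz' : LT R u f.natDegree v x y n' M' a' z) : n = n' := by
  rcases lt_trichotomy n n' with h1 | h1 | h1
  · exact (ha' (LT_fl_zero hF h hz' (Fl_mono (by omega) (LT_fl hz)))).elim
  · exact h1
  · exact (ha (LT_fl_zero hF h hz (Fl_mono (by omega) (LT_fl hz')))).elim

/-- a nonzero element has a leading term -/
theorem exists_lead (h : Pres f v x y) {z : S} (hu : (u : S) ≠ 0) (hz0 : z ≠ 0)
    (hz : ∃ m : ℕ, (u : S) ^ m * z ∈ Cx R v x y) :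
    ∃ (n M : ℕ) (a : R[X]), a ≠ 0 ∧ LT R u f.natDegree v x y n M a z := by
  obtain ⟨n, hn⟩ := exists_fl h hz
  induction n with
  | zero => exact (hz0 ((fl_zero_iff hu).1 hn)).elim
  | succ n ih =>
    obtain ⟨M, a, ha⟩ := exists_LT hn
    by_cases h0 : a = 0
    · rw [h0] at ha
      exact ih (LT_zero_fl ha)
    · exact ⟨n, M, a, h0, ha⟩

/-- **`a G` of degree `< N` only for `a = 0`** -/
theorem fl_mul_lead (hF : Fr R u) (h : Pres f v x y) {N W : ℕ} {c : R[X]} (hc : c ≠ 0) {G z : S}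
    (hG : LT R u f.natDegree v x y N W c G) (hz : ∃ m : ℕ, (u : S) ^ m * z ∈ Cx R v x y)
    (h0 : Fl R u f.natDegree v x y N (z * G)) : z = 0 := by
  by_contra hne
  obtain ⟨n, M, a, ha, hn⟩ := exists_lead h hF.prime.ne_zero hne hz
  have h1 := LT_mul h hn hG
  have h2 := LT_fl_zero hF h h1 (Fl_mono (Nat.le_add_left _ _) h0)
  exact mul_ne_zero (mul_ne_zero ha hc) (pow_ne_zero _ X_ne_zero) h2

omit [IsDomain S] in
/-- the coefficients of an element of `C` divisible by `u ^ m` in `C` -/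
theorem u_dvd_coeff (h : Pres f v x y) {n m : ℕ} (p : ℕ → R[X]) {w : S}
    (hw : w ∈ Cx R v x y)
    (h0 : ∑ i ∈ Finset.range n, aeval v (p i) * bs f.natDegree x y i = (u : S) ^ m * w) :
    ∀ i < n, C u ^ m ∣ p i := by
  classical
  obtain ⟨n', hn'⟩ := (mem_Cx h).1 hw
  obtain ⟨q, hq⟩ := low_exp (low_mono (le_max_right n n') hn')
  have h1 : ∑ i ∈ Finset.range (max n n'),
      aeval v ((if i < n then p i else 0) - C u ^ m * q i) * bs f.natDegree x y i = 0 := by
    have h3 : ∑ i ∈ Finset.range (max n n'),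
        aeval v (if i < n then p i else 0) * bs f.natDegree x y i =
        ∑ i ∈ Finset.range n, aeval v (p i) * bs f.natDegree x y i := by
      rw [← Finset.sum_subset (Finset.range_subset_range.2 (le_max_left n n'))]
      · refine Finset.sum_congr rfl fun i hi => ?_
        rw [if_pos (Finset.mem_range.1 hi)]
      · intro i _ hi
        rw [if_neg (fun h' => hi (Finset.mem_range.2 h')), map_zero, zero_mul]
    have h4 : ∀ i, aeval v ((if i < n then p i else 0) - C u ^ m * q i) *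
        bs f.natDegree x y i = aeval v (if i < n then p i else 0) * bs f.natDegree x y i -
          (u : S) ^ m * (aeval v (q i) * bs f.natDegree x y i) := by
      intro i
      rw [map_sub, map_mul, aeval_Cu]; ring
    simp only [h4]
    rw [Finset.sum_sub_distrib, h3, ← Finset.mul_sum, ← hq, h0, sub_self]
  intro i hi
  have h3 := uniq h _ _ h1 i (lt_of_lt_of_le hi (le_max_left n n'))
  rw [if_pos hi, sub_eq_zero] at h3
  exact ⟨q i, h3⟩

/-- **KAP**: `u ^ m z ∈ C` and `b(v) z ∈ C`, `u ∤ b`, give `z ∈ C` -/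
theorem kap (hF : Fr R u) (h : Pres f v x y) {z : S} {m : ℕ} (hz : (u : S) ^ m * z ∈ Cx R v x y)
    {b : R[X]} (hb : ¬ C u ∣ b) (hbz : aeval v b * z ∈ Cx R v x y) : z ∈ Cx R v x y := by
  obtain ⟨n, hn⟩ := (mem_Cx h).1 hz
  obtain ⟨p, hp⟩ := low_exp hn
  have h1 : ∑ i ∈ Finset.range n, aeval v (b * p i) * bs f.natDegree x y i =
      (u : S) ^ m * (aeval v b * z) := by
    have h2 : (u : S) ^ m * (aeval v b * z) = aeval v b * (u ^ m * z) := by ring
    rw [h2, hp, Finset.mul_sum]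
    refine Finset.sum_congr rfl fun i _ => ?_
    rw [map_mul, mul_assoc]
  have h2 := u_dvd_coeff h _ hbz h1
  have h3 : ∀ i, ∃ q : R[X], i < n → p i = C u ^ m * q := by
    intro i
    by_cases hi : i < n
    · obtain ⟨q, hq⟩ := (prime_C hF).pow_dvd_of_dvd_mul_left m hb (h2 i hi)
      exact ⟨q, fun _ => hq⟩
    · exact ⟨0, fun h' => (hi h').elim⟩
  choose q hq using h3
  have h4 : (u : S) ^ m * z = u ^ m * ∑ i ∈ Finset.range n, aeval v (q i) * bs f.natDegree x y i := by
    rw [hp, Finset.mul_sum]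
    refine Finset.sum_congr rfl fun i hi => ?_
    rw [hq i (Finset.mem_range.1 hi), map_mul, aeval_Cu]; ring
  have h5 := mul_left_cancel₀ (pow_ne_zero m hF.prime.ne_zero) h4
  rw [h5]
  exact low_mem_Cx h (low_of_exp n q)

/-- an element of `C` of degree `< n` is in `Low n` -/
theorem low_of_fl_mem (hF : Fr R u) (h : Pres f v x y) {n : ℕ} {z : S} (hz : z ∈ Cx R v x y)
    (hn : Fl R u f.natDegree v x y n z) : z ∈ Low R f.natDegree v x y n := by
  obtain ⟨N, hN⟩ := (mem_Cx h).1 hz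
  induction N with
  | zero =>
    rw [low_zero.1 hN]
    exact Submodule.zero_mem _
  | succ N ih =>
    by_cases hlt : N + 1 ≤ n
    · exact low_mono hlt hN
    · obtain ⟨a, ha⟩ := low_succ hN
      have h1 : LT R u f.natDegree v x y N 0 a z :=
        ⟨0, by rwa [add_zero, pow_zero, one_mul, one_mul]⟩
      have h2 := LT_fl_zero hF h h1 (Fl_mono (by omega) hn)
      rw [h2, map_zero, zero_mul, sub_zero] at ha
      exact ih ha

end dom

end fr

end Pool.Agent.LNDQ.BT
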