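import Mathlib
import Pool.Agent.LNDQ.Dat
import Pool.Agent.LNDQ.BasT

set_option autoImplicit false

open Polynomial

namespace Pool.Agent.LNDQ.DG

open Pool.Agent.LNDF

variable {k S : Type} [Field k] [CommRing S] [IsDomain S] [Algebra k S]
  {R : Subalgebra k S} {u : R} {ι : B3 k →ₐ[k] S} {u0 : B3 k} {br : S → S → S}

theorem br_aeval (hb : Bra ι u0 R br) (v : S) (a : R[X]) : br v (aeval v a) = 0 := by
  have h0 : hb.der v v = 0 := hb.self v
  change hb.der v (aeval v a) = 0
  induction a using Polynomial.induction_on' with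
  | add p q hp hq => rw [map_add, map_add, hp, hq, add_zero]
  | monomial n r =>
    rw [aeval_monomial, Derivation.leibniz, Derivation.leibniz_pow, h0, smul_zero, smul_zero,
      smul_zero, zero_add]
    change v ^ n • br v (r : S) = 0
    rw [hb.const, smul_zero]

theorem br_eval₂ (hb : Bra ι u0 R br) (v x : S) (P : R[X][X]) :
    br v (P.eval₂ (aeval v : R[X] →ₐ[R] S).toRingHom x) =
      (derivative P).eval₂ (aeval v : R[X] →ₐ[R] S).toRingHom x * br v x := by
  change hb.der v _ = _ * hb.der v x
  induction P using Polynomial.induction_on' with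
  | add p q hp hq => rw [eval₂_add, map_add, hp, hq, derivative_add, eval₂_add, add_mul]
  | monomial n q =>
    have h1 : hb.der v ((aeval v : R[X] →ₐ[R] S).toRingHom q) = 0 := br_aeval hb v q
    rw [eval₂_monomial, Derivation.leibniz, Derivation.leibniz_pow, h1, smul_zero, add_zero,
      derivative_monomial, eval₂_monomial, map_mul, map_natCast]
    simp only [smul_eq_mul, nsmul_eq_mul]
    ring

/-- independence from the derivation `br v` -/
theorem ind_of_br [CharZero k] (hb : Bra ι u0 R br) {v x : S} (hnil : ∀ z, ∃ n, (br v)^[n] z = 0)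
    (hv : ∀ a : R[X], aeval v a = 0 → a = 0) (hx : br v x ≠ 0) :
    AlgebraicIndependent R ![v, x] := by
  haveI : CharZero R := charZero_of_injective_algebraMap (FaithfulSMul.algebraMap_injective k R)
  rw [BT.ind_iff]
  have key : ∀ (n : ℕ) (P : R[X][X]), P.natDegree ≤ n →
      P.eval₂ (aeval v : R[X] →ₐ[R] S).toRingHom x = 0 → P = 0 := by
    intro n
    induction n with
    | zero =>
      intro P hn hP
      rw [eq_C_of_natDegree_le_zero hn, eval₂_C] at hP
      rw [eq_C_of_natDegree_le_zero hn, hv _ hP, C_0]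
    | succ n ih =>
      intro P hn hP
      have h1 := br_eval₂ hb v x P
      have h0 : br v 0 = 0 := (hb.der v).map_zero
      rw [hP, h0] at h1
      have h2 := (mul_eq_zero.1 h1.symm).resolve_right hx
      have h3 := ih (derivative P) (by have := natDegree_derivative_le P; omega) h2
      have h4 : P.natDegree = 0 := natDegree_eq_zero_of_derivative_eq_zero h3
      rw [eq_C_of_natDegree_eq_zero h4, eval₂_C] at hP
      rw [eq_C_of_natDegree_eq_zero h4, hv _ hP, C_0]
  exact fun P hP => key _ P le_rfl hP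

/-- the first of two independent elements is transcendental -/
theorem tr_of_pres {f : R[X]} {v x y : S} (hp : Pres f v x y) (a : R[X]) (h : aeval v a = 0) :
    a = 0 := by
  refine BT.uniq hp 1 (fun _ => a) ?_ 0 Nat.zero_lt_one
  rw [Finset.sum_range_one, h, zero_mul]

omit [IsDomain S] in
theorem aeval_sub_res {φ : R →ₐ[k] k} (hφ : ∀ r : R, u ∣ r - algebraMap k R (φ r)) (v : S)
    (a : R[X]) : (u : S) ∣ aeval v a - aeval v (a.map (φ : R →+* k)) := by
  induction a using Polynomial.induction_on' with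
  | add p q hp hq =>
    rw [map_add, Polynomial.map_add, map_add, add_sub_add_comm]
    exact dvd_add hp hq
  | monomial n r =>
    rw [aeval_monomial, Polynomial.map_monomial, aeval_monomial, ← sub_mul]
    refine Dvd.dvd.mul_right ?_ _
    obtain ⟨c, hc⟩ := hφ r
    refine ⟨c, ?_⟩
    have h1 := congrArg Subtype.val hc
    exact h1

/-- `v` transcendental over `k` modulo `u`, over `R`: `vtr` -/
theorem vtr_of_tr (hF : Fr R u) {v : S} (htr : ∀ q : k[X], (u : S) ∣ aeval v q → q = 0) (a : R[X])
    (h : (u : S) ∣ aeval v a) : C u ∣ a := by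
  obtain ⟨φ, -, hφ⟩ := BT.exists_res hF
  have h1 : (u : S) ∣ aeval v (a.map (φ : R →+* k)) := by
    have h2 := dvd_sub h (aeval_sub_res hφ v a)
    rwa [sub_sub_cancel] at h2
  have h2 := htr _ h1
  rw [C_dvd_iff_dvd_coeff]
  intro i
  have h3 : φ (a.coeff i) = 0 := by
    have := congrArg (fun p => p.coeff i) h2
    simpa using this
  have h4 := hφ (a.coeff i)
  rwa [h3, map_zero, sub_zero] at h4

/-- saturation -/
theorem sat_of_vtr (hF : Fr R u) {v : S} (hvtr : ∀ a : R[X], (u : S) ∣ aeval v a → C u ∣ a) {m : ℕ}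
    {z : S} {a : R[X]} (h : (u : S) ^ m * z = aeval v a) : ∃ b : R[X], z = aeval v b := by
  induction m generalizing a with
  | zero => exact ⟨a, by rwa [pow_zero, one_mul] at h⟩
  | succ m ih =>
    obtain ⟨a', rfl⟩ := hvtr a ⟨u ^ m * z, by rw [← h]; ring⟩
    refine ih (a := a') ?_
    refine mul_left_cancel₀ hF.prime.ne_zero ?_
    rw [map_mul, aeval_C] at h
    change _ = (u : S) * _ at h
    rw [← h]
    ring

omit [IsDomain S] in
/-- a value of a polynomial at `x + v s` -/
theorem exists_y {f : R[X]} {v x y : S} (h : v * y = aeval x f) (s : S) :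
    ∃ y' : S, v * y' = aeval (x + v * s) f := by
  have h1 := Polynomial.sub_dvd_eval_sub (x + v * s) x (f.map (algebraMap R S))
  rw [eval_map_algebraMap, eval_map_algebraMap, add_sub_cancel_left] at h1
  obtain ⟨c, hc⟩ := h1
  refine ⟨y + s * c, ?_⟩
  rw [← h] at hc
  linear_combination -hc

omit [IsDomain S] in
theorem cx_le {v x y x' y' : S} {θ : k} {β : ℕ} (hx : (u : S) * x' = x - algebraMap k S θ)
    (hy : (u : S) ^ β * y' = y) {z : S} (hz : z ∈ Cx R v x y) : z ∈ Cx R v x' y' := by
  have hz' : z ∈ Algebra.adjoin R ({v, x, y} : Set S) := hz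
  change z ∈ Algebra.adjoin R ({v, x', y'} : Set S)
  have hv1 : v ∈ Algebra.adjoin R ({v, x', y'} : Set S) := Algebra.subset_adjoin (by simp)
  have hx1 : x' ∈ Algebra.adjoin R ({v, x', y'} : Set S) := Algebra.subset_adjoin (by simp)
  have hy1 : y' ∈ Algebra.adjoin R ({v, x', y'} : Set S) := Algebra.subset_adjoin (by simp)
  have hu1 : (u : S) ∈ Algebra.adjoin R ({v, x', y'} : Set S) :=
    Subalgebra.algebraMap_mem (Algebra.adjoin R ({v, x', y'} : Set S)) u
  have hθ : algebraMap k S θ ∈ Algebra.adjoin R ({v, x', y'} : Set S) :=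
    Subalgebra.algebraMap_mem (Algebra.adjoin R ({v, x', y'} : Set S)) (algebraMap k R θ)
  refine Algebra.adjoin_le ?_ hz'
  intro w hw
  rcases hw with rfl | rfl | rfl
  · exact hv1
  · have h1 : w = u * x' + algebraMap k S θ := by rw [hx]; ring
    rw [h1]
    exact Subalgebra.add_mem _ (Subalgebra.mul_mem _ hu1 hx1) hθ
  · rw [← hy]
    exact Subalgebra.mul_mem _ (Subalgebra.pow_mem _ hu1 _) hy1

end Pool.Agent.LNDQ.DG
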