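import Mathlib
import Pool.Agent.LNDQ.DG3
import Pool.Agent.LNDQ.DG4
import Pool.Agent.LNDQ.DG5
import Pool.Agent.LNDQ.DG6
import Pool.Agent.LNDQ.DG7a
import Pool.Agent.LNDQ.DG9
import Pool.Agent.LNDQ.DG9b
import Pool.Agent.LNDQ.MvPres

set_option autoImplicit false

open Polynomial

namespace Pool.Agent.LNDQ.DG

open Pool.Agent.LNDF Pool.Agent.LNDHom

variable {k S : Type} [Field k] [CharZero k] [IsAlgClosed k] [CommRing S] [IsDomain S] [Algebra k S]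
  {R : Subalgebra k S} {u : R} {ι : B3 k →ₐ[k] S} {u0 : B3 k} {br : S → S → S}

/-- the descent, abstractly -/
theorem dg_abs (hb : Bra ι u0 R br) (hF : Fr R u) (hL : LocB ι u0 R u) {f : R[X]} {v x y : S}
    (hp : Pres f v x y) (hk : ∀ z : S, ∃ m : ℕ, (u : S) ^ m * z ∈ Cx R v x y) {e : ℕ} (he : 1 ≤ e)
    {w : R} (hw : IsUnit w) (hW : br v x = (w * u ^ e : R) * v) {v1 x1 y1 : S}
    (hmv : Mv k f v x y v1 x1 y1) (htr : ∀ q : k[X], (u : S) ∣ aeval v1 q → q = 0)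
    (hrat : ∃ a b : k[X], b ≠ 0 ∧ (u : S) ∣ aeval v1 b * x1 - aeval v1 a) :
    ∃ (θ : k) (x2 y2 : S) (v2 : B3 k) (D2 : Derivation k (B3 k) (B3 k)) (f2 : R[X]) (x3 y3 : S),
      Mv k f v x y v1 x2 y2 ∧
      (∀ i, (u : S) ∣ (((f - (X - C (algebraMap k R θ)) ^ f.natDegree).coeff i : R) : S)) ∧
      f2.natDegree = f.natDegree ∧ (u : S) * x3 = x2 - algebraMap k S θ ∧
      (u : S) ^ f.natDegree * y3 = y2 ∧
      (∃ z, D2 z ≠ 0) ∧ (∀ z, ∃ n, (⇑D2)^[n] z = 0) ∧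
      (∀ p : B3 k, Prime p → D2 p = 0 → ∃ z, ¬ p ∣ D2 z) ∧
      AlgebraicIndependent k ![u0, v2] ∧ (∀ b, D2 b = 0 ↔ b ∈ Algebra.adjoin k {u0, v2}) ∧
      Pres f2 v1 x3 y3 ∧ (∀ z : S, ∃ m : ℕ, (u : S) ^ m * z ∈ Cx R v1 x3 y3) ∧
      (∀ z, br v1 z = 0 → ∃ a : R[X], z = aeval v1 a) ∧
      (∀ a : R[X], (u : S) ∣ aeval v1 a → C u ∣ a) ∧
      (∃ w : R, IsUnit w ∧ br v1 x3 = w * u ^ (e - 1) * v1) ∧
      (∃ w : R, IsUnit w ∧ ∀ b, br v1 (ι b) = w * ι (D2 b)) := by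
  have huS : (u : S) ≠ 0 := hF.prime.ne_zero
  have hu0 : u ≠ 0 := fun h0 => huS (by rw [h0]; rfl)
  obtain ⟨hp1, hcx1⟩ := mv_pres_sub hp hmv
  have hk1 : ∀ z : S, ∃ m : ℕ, (u : S) ^ m * z ∈ Cx R v1 x1 y1 := by
    rw [hcx1]
    exact hk
  -- the bracket of `v1`, `x1`
  obtain ⟨w1, hw1, hW1⟩ : ∃ w1 : R, IsUnit w1 ∧ br v1 x1 = (w1 * u ^ e : R) * v1 := by
    rcases mv_pb hb hmv hp (PB.of_vx hb hp hW) with h1 | h1
    · exact ⟨w, hw, h1.vx⟩
    · refine ⟨-w, hw.neg, ?_⟩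
      rw [h1.vx]
      congr 2
      ring
  have hW10 : (w1 * u ^ e : R) ≠ 0 := by
    have := (algebraMap R S).domain_nontrivial
    have hdom : IsDomain R := inferInstance
    exact mul_ne_zero hw1.ne_zero (pow_ne_zero _ hu0)
  have hvtr := vtr_of_tr hF htr
  have hv0 : ∀ a : R[X], aeval v1 a = 0 → a = 0 := fun a h => tr_of_pres hp1 a h
  have hv1 : v1 ≠ 0 := hp1.v_ne_zero
  have hnil : ∀ z, ∃ n, (br v1)^[n] z = 0 := fun z => br_nil hb hp1 hu0 hk1 hW1 z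
  have hker : ∀ z, br v1 z = 0 → ∃ a : R[X], z = aeval v1 a := by
    intro z hz
    obtain ⟨m, a, h⟩ := ker_br hb hp1 hu0 hk1 hW10 hW1 hz
    exact sat_of_vtr hF hvtr h
  obtain ⟨D2, v2, hln, hne, hirr, hind, hkerD, hbrD⟩ := exists_D2 hb hF hL hp1 hk1 hW10 hW1 htr
  have hDu : D2 u0 = 0 := (hkerD u0).2 (Algebra.subset_adjoin (by simp))
  -- `x1` is a polynomial in `v1` modulo `u`
  obtain ⟨a, b, hb0, hab⟩ := hrat
  have h1 : ι u0 ∣ br v1 x1 := by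
    rw [hW1, ← hL.uu]
    obtain ⟨e', rfl⟩ : ∃ e', e = e' + 1 := ⟨e - 1, by omega⟩
    refine ⟨w1 * u ^ e' * v1, ?_⟩
    push_cast
    ring
  obtain ⟨χ, hχ, hχ1, hχ2⟩ := int_p hb hL hne hln hirr hind hkerD hbrD hL.prime_u0 hDu
    (fun q hq => hL.u0_not_dvd hq) h1
  obtain ⟨c, hc⟩ := poly_mod_u hF htr hχ (fun i => hker _ (hχ1 i)) (by rw [hL.uu]; exact hχ2) hb0 hab
  -- the new `x`
  set s : k[X] := -c.divX with hs
  obtain ⟨y2, hy2⟩ := exists_y hp1.rel (aeval v1 s)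
  set x2 : S := x1 + v1 * aeval v1 s with hx2
  have hmv2 : Mv k f v x y v1 x2 y2 := Mv.elem s y2 hmv hy2
  obtain ⟨hp2, hcx2⟩ := mv_pres_sub hp hmv2
  have hk2 : ∀ z : S, ∃ m : ℕ, (u : S) ^ m * z ∈ Cx R v1 x2 y2 := by
    rw [hcx2]
    exact hk
  set θ : k := c.coeff 0 with hθ
  obtain ⟨x3, hx3⟩ : (u : S) ∣ x2 - algebraMap k S θ := by
    have h2 : x2 - algebraMap k S θ = x1 - aeval v1 c := by
      have h3 := congrArg (aeval v1) (divX_mul_X_add c)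
      rw [map_add, map_mul, aeval_X, aeval_C] at h3
      rw [hx2, hs, map_neg, ← h3]
      ring
    rw [h2]
    exact hc
  have hx3' := hx3.symm
  -- the bracket of `v1`, `x3`
  have hbr3 : br v1 x3 = w1 * u ^ (e - 1) * v1 := by
    have h2 : br v1 x2 = (w1 * u ^ e : R) * v1 := by
      have h3 : br v1 (aeval v1 s) = 0 := by
        have h4 : ∀ q : k[X], br v1 (aeval v1 q) = 0 := by
          intro q
          induction q using Polynomial.induction_on' with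
          | add p q hp hq => rw [map_add, hb.add, hp, hq, add_zero]
          | monomial n a =>
            rw [aeval_monomial]
            have h5 : br v1 (v1 ^ n) = 0 := by
              have h6 := Derivation.leibniz_pow (hb.der v1) v1 n
              rw [hb.der_apply, hb.der_apply, hb.self, smul_zero, smul_zero] at h6
              exact h6
            have h6 := hb.smul_right (algebraMap k R a) v1 (v1 ^ n)
            have h7 : ((algebraMap k R a : R) : S) = algebraMap k S a := rfl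
            rw [h7, h5, mul_zero] at h6
            exact h6
        exact h4 s
      rw [hx2, hb.add, hb.mul, hb.self, h3, hW1]
      ring
    have h3 : (u : S) * br v1 x3 = br v1 x2 := by
      rw [← hb.smul_right, hx3']
      have h4 := hb.add v1 (x2 - algebraMap k S θ) (algebraMap k S θ)
      have h5 : br v1 (algebraMap k S θ) = 0 := hb.const v1 (algebraMap k R θ)
      rw [sub_add_cancel, h5, add_zero] at h4
      exact h4.symm
    apply mul_left_cancel₀ huS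
    rw [h3, h2]
    obtain ⟨e', rfl⟩ : ∃ e', e = e' + 1 := ⟨e - 1, by omega⟩
    rw [Nat.add_sub_cancel]
    push_cast
    ring
  have hbr3' : v1 ∣ br v1 x3 := ⟨w1 * u ^ (e - 1), by rw [hbr3]; ring⟩
  have hbr30 : br v1 x3 ≠ 0 := by
    rw [hbr3]
    refine mul_ne_zero (mul_ne_zero ?_ (pow_ne_zero _ huS)) hv1
    intro h0
    have h2 := hw1.map R.val
    have h3 : (R.val w1 : S) = 0 := h0
    rw [h3] at h2
    exact not_isUnit_zero h2
  obtain ⟨χ', hχ', hχ1', hχ2'⟩ := int_v hb hL hv1 hne hln hirr hind hkerD hbrD hbr3'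
  obtain ⟨χ'', hχ'', hd''⟩ := monic_mod_v hχ' (fun i => hker _ (hχ1' i)) hχ2'
  have hvu : ¬ (u : S) ∣ v1 := by
    intro h2
    have h3 := htr X (by rwa [aeval_X])
    exact X_ne_zero h3
  obtain ⟨f2, y3, hf2, hd2, -, hvy3, hy3, hcf⟩ := gauss_f hF hp2 hk2
    (fun P z hz h => f_dvd_of_v_dvd hp2 hz h) hvu θ hx3' hχ'' hd''
  refine ⟨θ, x2, y2, v2, D2, f2, x3, y3, hmv2, hcf, hd2, hx3', hy3, hne, hln, hirr, hind, hkerD,
    ⟨hf2, by rw [hd2]; exact hp.deg, hvy3, ind_of_br hb hnil hv0 hbr30⟩, ?_, hker, hvtr,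
    ⟨w1, hw1, hbr3⟩, hbrD⟩
  intro z
  obtain ⟨m, hm⟩ := hk2 z
  exact ⟨m, cx_le hx3' hy3 hm⟩

end Pool.Agent.LNDQ.DG
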