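import Mathlib
import Pool.Agent.LNDQ.LocB
import Pool.Agent.LNDQ.Dat

/-!
The bridge between `SL u`, `RR u`, `jS` and the interfaces `LocB`, `Bra`.
-/

set_option autoImplicit false
set_option linter.unusedVariables false

open Polynomial

namespace Pool.Agent.LNDQ

open Pool.Agent.LNDF

variable {k : Type} [Field k]

/-- the map `B → S` as a homomorphism of algebras -/
noncomputable def ioA (u : B3 k) : B3 k →ₐ[k] SL u := IsScalarTower.toAlgHom k (B3 k) (SL u)

theorem locB_SL [CharZero k] {u : B3 k} (hup : ∀ l : k, Prime (u - MvPolynomial.C l)) :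
    LocB (ioA u) u (RR u) (uu u) := by
  have hu : Prime u := by
    have h := hup 0
    rwa [map_zero, sub_zero] at h
  refine ⟨io_inj hu, rfl, fun q hq => ?_, fun z => ?_, fun z => ?_, hup⟩
  · refine ⟨⟨((io_unit hq).unit⁻¹ : (SL u)ˣ), 1, q, hq, ?_⟩, ?_⟩
    · rw [IsUnit.val_inv_mul, map_one, io_one]
    · show (((io_unit hq).unit⁻¹ : (SL u)ˣ) : SL u) * io u (aeval u q) = 1
      exact IsUnit.val_inv_mul _
  · obtain ⟨q, b, hq, h⟩ := exists_mul z
    refine ⟨q, b, by rw [hq]; exact one_ne_zero, ?_⟩
    show io u (aeval u q) * z = io u b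
    rw [mul_comm, h]
  · constructor
    · rintro ⟨p, q, hq, h⟩
      refine ⟨q, p, hq, ?_⟩
      show io u (aeval u q) * z = io u (aeval u p)
      rw [mul_comm, h]
    · rintro ⟨q, p, hq, h⟩
      refine ⟨p, q, hq, ?_⟩
      change io u (aeval u q) * z = io u (aeval u p) at h
      rw [mul_comm, h]

namespace DGB

theorem pS_io (u : B3 k) (i : Fin 3) (b : B3 k) :
    pS u i (io u b) = io u (MvPolynomial.pderiv i b) := exS_io u _ b

theorem jS_formula (u : B3 k) (a b c : SL u) : jS u a b c =
    pS u 0 a * pS u 1 b * pS u 2 c - pS u 0 a * pS u 2 b * pS u 1 c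
      - pS u 1 a * pS u 0 b * pS u 2 c + pS u 1 a * pS u 2 b * pS u 0 c
      + pS u 2 a * pS u 0 b * pS u 1 c - pS u 2 a * pS u 1 b * pS u 0 c := by
  unfold jS
  rw [Matrix.det_fin_three]
  rfl

theorem jac3_formula (a b c : B3 k) : jac3 a b c =
    MvPolynomial.pderiv 0 a * MvPolynomial.pderiv 1 b * MvPolynomial.pderiv 2 c
      - MvPolynomial.pderiv 0 a * MvPolynomial.pderiv 2 b * MvPolynomial.pderiv 1 c
      - MvPolynomial.pderiv 1 a * MvPolynomial.pderiv 0 b * MvPolynomial.pderiv 2 c
      + MvPolynomial.pderiv 1 a * MvPolynomial.pderiv 2 b * MvPolynomial.pderiv 0 c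
      + MvPolynomial.pderiv 2 a * MvPolynomial.pderiv 0 b * MvPolynomial.pderiv 1 c
      - MvPolynomial.pderiv 2 a * MvPolynomial.pderiv 1 b * MvPolynomial.pderiv 0 c := by
  unfold jac3
  rw [Matrix.det_fin_three]
  rfl

theorem jS_io (u a b c : B3 k) : jS u (io u a) (io u b) (io u c) = io u (jac3 a b c) := by
  rw [jS_formula, jac3_formula]
  simp only [pS_io, io, map_add, map_sub, map_mul]

theorem jS_add (u : B3 k) (a b c d : SL u) : jS u a b (c + d) = jS u a b c + jS u a b d := by
  rw [jS_formula, jS_formula, jS_formula, map_add, map_add, map_add]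
  ring

theorem jS_mul (u : B3 k) (a b c d : SL u) :
    jS u a b (c * d) = c * jS u a b d + d * jS u a b c := by
  rw [jS_formula, jS_formula, jS_formula, Derivation.leibniz, Derivation.leibniz,
    Derivation.leibniz]
  simp only [smul_eq_mul]
  ring

theorem jS_swap (u : B3 k) (a b c : SL u) : jS u a b c = - jS u a c b := by
  rw [jS_formula, jS_formula]
  ring

theorem jS_self (u : B3 k) (a b : SL u) : jS u a b b = 0 := by
  rw [jS_formula]
  ring

theorem pS_aeval (u : B3 k) (i : Fin 3) (q : k[X]) :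
    pS u i (io u (aeval u q)) = io u (aeval u (derivative q)) * pS u i (io u u) := by
  rw [pS_io, pS_io, ← io_mul]
  congr 1
  induction q using Polynomial.induction_on' with
  | add p q hp hq => rw [map_add, map_add, derivative_add, map_add, hp, hq, add_mul]
  | monomial n a =>
    rw [aeval_monomial, Derivation.leibniz, Derivation.leibniz_pow, Derivation.map_algebraMap,
      derivative_monomial, aeval_monomial]
    simp only [smul_eq_mul, mul_zero, add_zero, map_mul, nsmul_eq_mul, map_natCast]
    ring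

theorem jS_aeval (u : B3 k) (a : SL u) (q : k[X]) : jS u (io u u) a (io u (aeval u q)) = 0 := by
  rw [jS_formula, pS_aeval, pS_aeval, pS_aeval]
  ring

theorem jS_R (u : B3 k) (a : SL u) (r : RR u) : jS u (io u u) a r = 0 := by
  obtain ⟨z, p, q, hq, h⟩ := r
  have h1 := congrArg (jS u (io u u) a) h
  rw [jS_mul, jS_aeval, jS_aeval, mul_zero, zero_add] at h1
  exact (io_unit hq).mul_right_eq_zero.1 h1

end DGB

theorem bra_SL {u : B3 k} (hu : Prime u) :
    Bra (ioA u) u (RR u) (fun a b => jS u (io u u) a b) where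
  ext a b := DGB.jS_io u u a b
  swap a b := DGB.jS_swap u _ a b
  self a := DGB.jS_self u _ a
  add a b c := DGB.jS_add u _ a b c
  mul a b c := DGB.jS_mul u _ a b c
  const a r := DGB.jS_R u a r

theorem exS_eq {u : B3 k} (hu : Prime u) (D : Derivation k (B3 k) (B3 k)) (hDu : D u = 0)
    {v : SL u} {w : RR u} (h : ∀ b, jS u (io u u) v (io u b) = w * io u (D b)) (z : SL u) :
    jS u (io u u) v z = w * exS u D z := by
  obtain ⟨q, b, hq, h1⟩ := exists_mul z
  have hq' : q.eval 0 ≠ 0 := by rw [hq]; exact one_ne_zero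
  have h2 := congrArg (jS u (io u u) v) h1
  rw [DGB.jS_mul, h, h] at h2
  have h3 := exS_spec D h1
  apply (io_unit (u := u) hq').mul_right_cancel
  have h4 : (w : SL u) * exS u D z * io u (aeval u q) =
      w * (io u (D b) - z * io u (D (aeval u q))) := by
    rw [mul_assoc, h3]
  rw [h4]
  linear_combination h2

end Pool.Agent.LNDQ
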