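import Pool.Agent.LNDQ.LocB
import Pool.Agent.LNDQ.FiPoint
import Pool.Agent.LNDT.ST3

set_option autoImplicit false

open Polynomial

/-!
# A partial derivative which does not vanish on the curve `u = 0`
-/

namespace Pool.Agent.LNDQ

open Pool.Agent.LNDF

namespace FiEA

variable {k : Type} [Field k] [CharZero k]

/-- a nonconstant polynomial has a nonzero derivative of smaller degree -/
theorem exists_pderiv_ne (f : B3 k) (h : 0 < f.totalDegree) :
    ∃ i, MvPolynomial.pderiv i f ≠ 0 ∧
      (MvPolynomial.pderiv i f).totalDegree < f.totalDegree := by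
  classical
  have hne : f ≠ 0 := by
    rintro rfl
    simp at h
  obtain ⟨m, hm, hdeg⟩ := Finset.exists_mem_eq_sup f.support
    (MvPolynomial.support_nonempty.2 hne) (fun s => Multiset.card (Finsupp.toMultiset s))
  have hdeg' : f.totalDegree = Multiset.card (Finsupp.toMultiset m) := by
    rw [MvPolynomial.totalDegree_eq, hdeg]
  have hm0 : m ≠ 0 := by
    rintro rfl
    rw [hdeg'] at h
    simp at h
  obtain ⟨i, hi⟩ := Finsupp.ne_iff.1 hm0
  refine ⟨i, ?_, ?_⟩
  · have hle : Finsupp.single i 1 ≤ m := by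
      rw [Finsupp.single_le_iff]
      exact Nat.one_le_iff_ne_zero.2 hi
    have hc := MvPolynomial.coeff_pderiv (i := i) f (m - Finsupp.single i 1)
    rw [tsub_add_cancel_of_le hle] at hc
    intro h0
    rw [h0, MvPolynomial.coeff_zero] at hc
    rcases mul_eq_zero.1 hc.symm with h1 | h1
    · exact MvPolynomial.mem_support_iff.1 hm h1
    · have : (((m - Finsupp.single i 1 : Fin 3 →₀ ℕ) i + 1 : ℕ) : k) ≠ 0 :=
        Nat.cast_ne_zero.2 (Nat.succ_ne_zero _)
      exact this (by push_cast; exact h1)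
  · rw [MvPolynomial.totalDegree_eq, Finset.sup_lt_iff (by simpa using h)]
    intro m' hm'
    rw [MvPolynomial.mem_support_iff, MvPolynomial.coeff_pderiv] at hm'
    have h1 : m' + Finsupp.single i 1 ∈ f.support := by
      rw [MvPolynomial.mem_support_iff]
      intro h0
      exact hm' (by rw [h0, zero_mul])
    have h2 := MvPolynomial.le_totalDegree h1
    rw [Finsupp.card_toMultiset]
    rw [Finsupp.sum_add_index' (fun _ => rfl) (fun _ _ _ => rfl),
      Finsupp.sum_single_index rfl] at h2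
    exact h2

/-- some partial derivative of a prime is not a multiple of it -/
theorem exists_pderiv {p : B3 k} (hp : Prime p) :
    ∃ i, ¬ p ∣ MvPolynomial.pderiv i p := by
  have h0 : 0 < p.totalDegree := by
    rw [Nat.pos_iff_ne_zero]
    intro h0
    have hc := MvPolynomial.totalDegree_eq_zero_iff_eq_C.1 h0
    rcases eq_or_ne (MvPolynomial.coeff 0 p) 0 with h1 | h1
    · rw [h1, map_zero] at hc
      exact hp.ne_zero hc
    · refine hp.not_isUnit ?_
      rw [hc]
      exact (IsUnit.mk0 _ h1).map MvPolynomial.C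
  obtain ⟨i, hi, hlt⟩ := exists_pderiv_ne p h0
  refine ⟨i, ?_⟩
  rintro ⟨q, hq⟩
  have hq0 : q ≠ 0 := fun h => hi (by rw [hq, h, mul_zero])
  rw [hq, MvPolynomial.totalDegree_mul_of_isDomain hp.ne_zero hq0] at hlt
  omega

end FiEA

open FiEA

section

variable {k : Type} [Field k] [CharZero k]

/-- a locally nilpotent derivation of `B` on `S` -/
theorem exists_E {u : B3 k} (hu : Prime u) :
    ∃ E : Derivation k (SL u) (SL u), ¬ io u u ∣ E (io u u) ∧
      ∀ z : SL u, ∃ r : RR u, IsUnit r ∧ ∃ m, (⇑E)^[m] ((r : SL u) * z) = 0 := by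
  obtain ⟨i, hi⟩ := exists_pderiv hu
  refine ⟨pS u i, ?_, exS_nil _ (LNDT.pderiv_ln i)⟩
  rw [pS, exS_io, dvd_io_iff_one hu]
  exact hi

variable {u v0 : B3 k} {D : Derivation k (B3 k) (B3 k)} {f : (RR u)[X]} {v x y : SL u} {e : ℕ}

theorem dat_dom (h : Dat u v0 D f v x y e) : IsDomain (SL u) := domS (dat_prime_u h)

theorem dat_fr (h : Dat u v0 D f v x y e) : Fr (RR u) (uu u) := frS (dat_prime_u h)

theorem dat_E (h : Dat u v0 D f v x y e) :
    ∃ E : Derivation k (SL u) (SL u), ¬ io u u ∣ E (io u u) ∧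
      ∀ z : SL u, ∃ r : RR u, IsUnit r ∧ ∃ m, (⇑E)^[m] ((r : SL u) * z) = 0 :=
  exists_E (dat_prime_u h)

end

end Pool.Agent.LNDQ
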