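import Mathlib
import Pool.Agent.LNDQ.DG10
import Pool.Agent.LNDQ.DGB
import Pool.Agent.LNDQ.FiE

set_option autoImplicit false

open Polynomial

namespace Pool.Agent.LNDQ

open Pool.Agent.LNDF Pool.Agent.LNDHom DG

variable {k : Type} [Field k] [CharZero k] [IsAlgClosed k]

variable {u v0 : B3 k} {D : Derivation k (B3 k) (B3 k)} {f : (RR u)[X]} {v x y : SL u} {e : ℕ}

theorem dg_main (h : Dat u v0 D f v x y e) (he : 1 ≤ e) {v1 x1 y1 : SL u}
    (hmv : Mv k f v x y v1 x1 y1) (htr : ∀ q : k[X], io u u ∣ aeval v1 q → q = 0)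
    (hrat : ∃ a b : k[X], b ≠ 0 ∧ io u u ∣ aeval v1 b * x1 - aeval v1 a) :
    ∃ (θ : k) (x2 y2 : SL u) (w0 : B3 k) (D2 : Derivation k (B3 k) (B3 k)) (f2 : (RR u)[X])
      (x3 y3 : SL u), Mv k f v x y v1 x2 y2 ∧
      (∀ i, io u u ∣ (((f - (X - C (algebraMap k (RR u) θ)) ^ f.natDegree).coeff i : RR u) : SL u)) ∧
      f2.natDegree = f.natDegree ∧ io u u * x3 = x2 - algebraMap k (SL u) θ ∧
      io u u ^ f.natDegree * y3 = y2 ∧ Dat u w0 D2 f2 v1 x3 y3 (e - 1) := by
  have hup := fun l : k => dat_prime h l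
  have hu : Prime u := by
    have h1 := hup 0
    rwa [map_zero, sub_zero] at h1
  have : IsDomain (SL u) := dat_dom h
  have hF : Fr (RR u) (uu u) := fr_of u hup
  have hb := bra_SL hu
  have hL := locB_SL hup
  obtain ⟨w, hw, hj⟩ := h.jac
  have hW : (fun a b => jS u (io u u) a b) v x = ((w * uu u ^ e : RR u) : SL u) * v := by
    show jS u (io u u) v x = _
    rw [hj]
    push_cast
    rfl
  obtain ⟨θ, x2, y2, v2, D2, f2, x3, y3, h1, h2, h3, h4, h5, h6, h7, h8, h9, h10, h11, h12, h13, h14,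
    ⟨w3, hw3, h15⟩, ⟨w4, hw4, h16⟩⟩ := dg_abs hb hF hL h.pres h.kap he hw hW hmv htr hrat
  have hDu : D2 u = 0 := (h10 u).2 (Algebra.subset_adjoin (by simp))
  have h17 : ∀ z : SL u, jS u (io u u) v1 z = w4 * exS u D2 z := fun z => exS_eq hu D2 hDu h16 z
  obtain ⟨w5, hw5⟩ := hw4
  have h18 : ((w5⁻¹ : (RR u)ˣ) : RR u) * (w4 : SL u) = 1 := by
    rw [← hw5]
    exact_mod_cast congrArg (fun r : RR u => (r : SL u)) (Units.inv_mul w5)
  have h19 : ∀ z : SL u, exS u D2 z = ((w5⁻¹ : (RR u)ˣ) : RR u) * jS u (io u u) v1 z := by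
    intro z
    rw [h17, ← mul_assoc, h18, one_mul]
  refine ⟨θ, x2, y2, v2, D2, f2, x3, y3, h1, h2, h3, h4, h5, ?_⟩
  exact
    { ne := h6
      ln := h7
      irr := h8
      ind := h9
      ker := h10
      pres := h11
      kap := h12
      kerS := by
        intro z
        constructor
        · intro hz
          obtain ⟨a, ha⟩ := h13 z (by
            show jS u (io u u) v1 z = 0
            rw [h17, hz, mul_zero])
          rw [ha]
          exact aeval_mem_adjoin_singleton _ _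
        · intro hz
          obtain ⟨a, rfl⟩ : ∃ a : (RR u)[X], z = aeval v1 a := by
            rw [Algebra.adjoin_singleton_eq_range_aeval] at hz
            obtain ⟨a, ha⟩ := hz
            exact ⟨a, ha.symm⟩
          rw [h19]
          have h20 := hb.aeval v1 v1 a
          rw [hb.self, mul_zero] at h20
          have h21 : jS u (io u u) v1 (aeval v1 a) = 0 := h20
          rw [h21, mul_zero]
      vtr := h14
      jac := ⟨w3, hw3, h15⟩
      jD := ⟨((w5⁻¹ : (RR u)ˣ) : RR u), Units.isUnit _, h19⟩ }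

end Pool.Agent.LNDQ
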