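import Mathlib
import Pool.Agent.LNDQ.FiBase
import Pool.Agent.LNDQ.FiLocal

set_option autoImplicit false

open Polynomial

namespace Pool.Agent.LNDQ

open Pool.Agent.LNDHom Pool.Agent.LNDF Pool.Agent.LNDT

/-- every common divisor of the image ideal divides the greatest one -/
theorem isCC_dvd {k B : Type} [Field k] [CommRing B] [IsDomain B] [Algebra k B]
    [UniqueFactorizationMonoid B] {D : Derivation k B B} {n : ℕ} {c d : B} (hc : IsCC D n c)
    (hd0 : d ≠ 0) (hd : ∀ x, (⇑D)^[n + 1] x = 0 → d ∣ (⇑D)^[n] x) : d ∣ c := by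
  refine dvd_of_primes hd0 hc.ne fun p hp j hj => ?_
  obtain ⟨x, hx, hx'⟩ := hc.sharp p hp
  obtain ⟨y, hy⟩ := hc.dvd x hx
  have hpy : ¬ p ∣ y := by
    rintro ⟨z, rfl⟩
    exact hx' ⟨z, by rw [hy, mul_assoc]⟩
  refine hp.pow_dvd_of_dvd_mul_right j hpy ?_
  rw [← hy]
  exact hj.trans (hd x hx)

variable {k : Type} [Field k] [CharZero k] {u v0 : B3 k} {D : Derivation k (B3 k) (B3 k)}
  {f : (RR u)[X]} {v x y : SL u} {e : ℕ}

/-- from the maximal ideals containing `u` to `Q1R` -/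
theorem q1r_of_at (h : KD D u v0) (A : Arith D)
    (hloc : ∀ (n : ℕ) (m : Ideal (kerAlg D)), m.IsMaximal →
      (∀ a : kerAlg D, (a : B3 k) = u → a ∈ m) →
      ∃ (a : kerAlg D) (x : B3 k), a ∉ m ∧ (⇑D)^[n + 1] x = 0 ∧ (⇑D)^[n] x = a * A.cc n) :
    Q1R D u := by
  intro n c hc
  have hA := A.isCC n
  have h1 : c ∣ A.cc n := isCC_dvd hA hc.ne hc.dvd
  have h2 : A.cc n ∣ c := isCC_dvd hc hA.ne hA.dvd
  obtain ⟨w, hw⟩ := h1
  obtain ⟨w', hw'⟩ := h2
  have hww : w * w' = 1 := by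
    apply mul_left_cancel₀ hc.ne
    rw [mul_one]
    conv_rhs => rw [hw', hw]
    ring
  have hDw : D w = 0 := const_of_dvd D h.ln D.map_one_eq_zero one_ne_zero ⟨w', hww.symm⟩
  have hDw' : D w' = 0 :=
    const_of_dvd D h.ln D.map_one_eq_zero one_ne_zero ⟨w, by rw [mul_comm, hww]⟩
  refine q1r_of_local h hc fun m hm hum => ?_
  obtain ⟨a, x, ha, hx, hx'⟩ := hloc n m hm hum
  refine ⟨a * ⟨w, hDw⟩, x, fun hm' => ha ?_, hx, ?_⟩
  · have h3 := m.mul_mem_right ⟨w', hDw'⟩ hm'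
    have h4 : a * ⟨w, hDw⟩ * ⟨w', hDw'⟩ = a := Subtype.ext (by
      show (a : B3 k) * w * w' = a
      rw [mul_assoc, hww, mul_one])
    rwa [h4] at h3
  · rw [hx', hw, Subalgebra.coe_mul]
    ring

/-- the base of the induction in terms of `Q1R` -/
theorem base_q1r (h : Dat u v0 D f v x y e) (he : e ≤ 1) : Q1R D u := by
  obtain ⟨N0, G0, A, G, r, hP, hG, hr⟩ := exists_arith_slice (dat_kd h)
  exact q1r_of_at (dat_kd h) A fun n m hm hum => base_at h he A hG hr n hm hum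

end Pool.Agent.LNDQ
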