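import Mathlib
import Pool.Agent.LNDQ.FiBaseR
import Pool.Agent.LNDQ.FiEnv

set_option autoImplicit false

open Polynomial

namespace Pool.Agent.LNDQ

open Pool.Agent.LNDHom Pool.Agent.LNDF Pool.Agent.LNDT

variable {k : Type} [Field k] [CharZero k] [IsAlgClosed k] {u v0 : B3 k}
  {D : Derivation k (B3 k) (B3 k)} {f : (RR u)[X]} {v x y : SL u} {e : ℕ}

/-- base of the induction (`T**`) -/
theorem base (h : Dat u v0 D f v x y e) (he : e ≤ 1) : Q1A (RR u) (uu u) f v x y :=
  (q1r_iff h).1 (base_q1r h he)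

end Pool.Agent.LNDQ
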