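import Mathlib
import Pool.Agent.LNDQ.FiDefs
import Pool.Agent.LNDT.Res
import Pool.Agent.LNDF.Fin4

/-!
# LNDQ/FiRes (FI7b): from the crossings to every derivation over every field of characteristic zero
-/

set_option autoImplicit false

namespace Pool.Agent.LNDQ

open Pool.Agent.LNDHom Pool.Agent.LNDF Pool.Agent.LNDT

/-- every `cc n` is in the image ideal of degree `n` (irreducible derivations) -/
def MainHyp (k : Type) [Field k] : Prop :=
  ∀ (D : Derivation k (B3 k) (B3 k)) (f g : B3 k), KD D f g → ∀ (N0 : ℕ) (G0 : B3 k), Pkg D N0 G0 →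
    ∀ (A : Arith D) (G r : B3 k), (⇑D)^[A.N] G = A.cc A.N → D r = A.cc 1 →
      ∀ n : ℕ, ∃ x, (⇑D)^[n] x = A.cc n

/-- irreducible derivations, in one degree (copy of `LNDT.res_irr`) -/
theorem irr_degree {k : Type} [Field k] [CharZero k] (hM : MainHyp k) (D : Derivation k (B3 k) (B3 k))
    (f g : B3 k) (h : KD D f g) (n : ℕ) : ∃ c x : B3 k, IsCC D n c ∧ (⇑D)^[n] x = c := by
  have hD0 := h.nz
  have hln := h.ln
  have hirr := h.irr
  obtain ⟨N0, G0, hP⟩ := pkg_all D hD0 hln f g h.ind h.ker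
  obtain ⟨N1, hN1, hnp⟩ := exists_N D hD0 hln hirr
  obtain ⟨A, hA⟩ := arith_of D hD0 hln hirr (N0 * N1) (Nat.mul_pos hP.pos hN1)
    (fun p hp hDp => Dvd.dvd.mul_left (hnp p hp hDp) _)
  -- from `Princ` to an element over `cc`
  have key : ∀ m, Princ D m → ∃ x, (⇑D)^[m] x = A.cc m := by
    intro m ⟨a, ha, hm⟩
    obtain ⟨x, hx1, hx2⟩ := (hm a).mpr ⟨1, by simp, by simp⟩
    have hcc := A.isCC m
    obtain ⟨b, hb⟩ := hcc.dvd x hx1
    rw [hx2] at hb
    -- `a` divides all values, `cc` is the greatest common divisor, so `b` is a unit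
    have hbu : IsUnit b := by
      by_contra hbu
      have hb0 : b ≠ 0 := by
        rintro rfl
        rw [mul_zero] at hb
        obtain ⟨y, hy1, hy2⟩ := exists_deg D hD0 hln m
        obtain ⟨c, _, hc⟩ := (hm _).mp ⟨y, hy2, rfl⟩
        rw [hb, zero_mul] at hc
        exact hy1 hc
      obtain ⟨q, hq, hqb⟩ := WfDvdMonoid.exists_irreducible_factor hbu hb0
      obtain ⟨y, hy1, hy2⟩ := hcc.sharp q hq.prime
      obtain ⟨c, _, hc⟩ := (hm _).mp ⟨y, hy1, rfl⟩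
      apply hy2
      rw [hc, hb]
      obtain ⟨b', rfl⟩ := hqb
      exact ⟨b' * c, by ring⟩
    obtain ⟨u, hu⟩ := hbu
    have hcu : a * ↑(u⁻¹) = A.cc m := by rw [hb, ← hu, mul_assoc, Units.mul_inv, mul_one]
    obtain ⟨y, _, hy⟩ := (hm (A.cc m)).mpr ⟨↑(u⁻¹), by
      have h1 : a ≠ 0 := by rw [hb]; exact mul_ne_zero hcc.ne (by rw [← hu]; exact u.ne_zero)
      have h2 := hcc.const
      rw [← hcu, Derivation.leibniz, ha, smul_zero, add_zero, smul_eq_mul] at h2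
      exact (mul_eq_zero.mp h2).resolve_left h1, hcu.symm⟩
    exact ⟨y, hy⟩
  obtain ⟨G, hG⟩ := key A.N (hP.princ A.N (Or.inl (by rw [hA]; exact Dvd.intro _ rfl)))
  obtain ⟨r, hr⟩ := key 1 (hP.princ_one hln (hP.dual 2 (by norm_num)) hD0)
  obtain ⟨x, hx⟩ := hM D f g h N0 G0 hP A G r hG (by simpa using hr) n
  exact ⟨A.cc n, x, A.isCC n, hx⟩

/-- all derivations, in one degree (copy of `LNDT.res_degree`) -/
theorem all_degree {k : Type} [Field k] [CharZero k] (hM : MainHyp k) (D : Derivation k (B3 k) (B3 k))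
    (hD0 : ∃ x, D x ≠ 0) (hln : ∀ b : B3 k, ∃ m : ℕ, (⇑D)^[m] b = 0) (f g : B3 k)
    (hind : AlgebraicIndependent k ![f, g]) (hker : ∀ b : B3 k, D b = 0 ↔ b ∈ Algebra.adjoin k {f, g})
    (n : ℕ) : ∃ c Q : B3 k, (⇑D)^[n] Q = c ∧ c ≠ 0 ∧ D c = 0 ∧
      ∀ x, (⇑D)^[n + 1] x = 0 → c ∣ (⇑D)^[n] x := by
  obtain ⟨q, E, hq, hDq, hqE, hEln, hEker, hEirr⟩ := exists_irr D hD0 hln
  have hEq : E q = 0 := (hEker q).mpr hDq
  have hE0 : ∃ x, E x ≠ 0 := by
    obtain ⟨x, hx⟩ := hD0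
    exact ⟨x, fun h => hx (by rw [hqE, h, mul_zero])⟩
  obtain ⟨c, Q, hc, hQ⟩ := irr_degree hM E f g ⟨hE0, hEln, hind, fun b => (hEker b).trans (hker b), hEirr⟩ n
  refine ⟨q ^ n * c, Q, by rw [iter_smul_const D E q hEq hqE, hQ],
    mul_ne_zero (pow_ne_zero _ hq) hc.ne, ?_, fun x hx => ?_⟩
  · have h5 := (hEker _).mp hc.const
    rw [Derivation.leibniz, Derivation.leibniz_pow, hDq, h5]
    simp
  · rw [iter_smul_const D E q hEq hqE] at hx ⊢
    exact mul_dvd_mul_left _ (hc.dvd x ((mul_eq_zero.mp hx).resolve_left (pow_ne_zero _ hq)))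

/-- **the image ideals are principal, over every field of characteristic zero**, from the algebraically closed case -/
theorem princ_every (hM : ∀ (k : Type) [Field k] [CharZero k] [IsAlgClosed k], MainHyp k) (k : Type) [Field k]
    [CharZero k] (D : Derivation k (B3 k) (B3 k)) (hD0 : ∃ x, D x ≠ 0)
    (hln : ∀ b : B3 k, ∃ m : ℕ, (⇑D)^[m] b = 0) (f g : B3 k) (hind : AlgebraicIndependent k ![f, g])
    (hker : ∀ b : B3 k, D b = 0 ↔ b ∈ Algebra.adjoin k {f, g}) (n : ℕ) : Princ D n := by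
  have hinj := MvPolynomial.map_injective (σ := Fin 3) _
    (algebraMap k (AlgebraicClosure k)).injective
  have : CharZero (AlgebraicClosure k) :=
    charZero_of_injective_algebraMap (algebraMap k (AlgebraicClosure k)).injective
  obtain ⟨c, Q, h2, h3, h4, h5⟩ := all_degree (hM (AlgebraicClosure k)) (LNDHom.ext (AlgebraicClosure k) D) (by
      obtain ⟨x, hx⟩ := hD0
      refine ⟨MvPolynomial.map (algebraMap k (AlgebraicClosure k)) x, ?_⟩
      rw [LNDHom.ext_map]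
      rwa [map_ne_zero_iff _ hinj]) (LNDHom.ext_ln D hln) _ _
    (ext_ind (AlgebraicClosure k) f g hind) (ext_ker (AlgebraicClosure k) D f g hker) n
  refine princ_descent (AlgebraicClosure k) D ?_
  exact LNDHom.principal (LNDHom.ext (AlgebraicClosure k) D) n h2 h3 h4 h5

/-- a generator of a principal image ideal as a value -/
theorem gen_of_princ {k : Type} [Field k] [CharZero k] (D : Derivation k (B3 k) (B3 k))
    (hD0 : ∃ x, D x ≠ 0) (hln : ∀ b : B3 k, ∃ m : ℕ, (⇑D)^[m] b = 0) (n : ℕ) (h : Princ D n) :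
    ∃ c Q : B3 k, (⇑D)^[n] Q = c ∧ c ≠ 0 ∧ D c = 0 ∧ ∀ x, (⇑D)^[n + 1] x = 0 → c ∣ (⇑D)^[n] x := by
  obtain ⟨a, ha, hm⟩ := h
  obtain ⟨x, hx1, hx2⟩ := (hm a).mpr ⟨1, by simp, by simp⟩
  refine ⟨a, x, hx2, ?_, ha, fun y hy => ?_⟩
  · rintro rfl
    obtain ⟨y, hy1, hy2⟩ := exists_deg D hD0 hln n
    obtain ⟨c, _, hc⟩ := (hm _).mp ⟨y, hy2, rfl⟩
    rw [zero_mul] at hc
    exact hy1 hc
  · obtain ⟨c, _, hc⟩ := (hm _).mp ⟨y, hy, rfl⟩
    exact ⟨c, hc⟩

/-- **Q1** for every `D` with kernel a polynomial ring, from the algebraically closed case: every image ideal is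
principal, and `B` has a basis adapted to `D` -/
theorem res_all2 (hM : ∀ (k : Type) [Field k] [CharZero k] [IsAlgClosed k], MainHyp k) (k : Type) [Field k]
    [CharZero k] (D : Derivation k (B3 k) (B3 k)) (hD : D ≠ 0)
    (hln : ∀ b : B3 k, ∃ m : ℕ, (⇑D)^[m] b = 0) (f g : B3 k) (hind : AlgebraicIndependent k ![f, g])
    (hker : ∀ b : B3 k, D b = 0 ↔ b ∈ Algebra.adjoin k {f, g}) :
    (∃ Q : ℕ → B3 k, (∀ n, (⇑D)^[n] (Q n) ≠ 0 ∧ (⇑D)^[n + 1] (Q n) = 0) ∧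
      ∀ b : B3 k, ∃! c : ℕ →₀ B3 k, (∀ n, D (c n) = 0) ∧ b = c.sum fun n a => a * Q n) ∧
    ∀ n : ℕ, ∃ a : B3 k, D a = 0 ∧ ∀ v : B3 k,
      (∃ x : B3 k, (⇑D)^[n + 1] x = 0 ∧ (⇑D)^[n] x = v) ↔ (∃ c : B3 k, D c = 0 ∧ v = a * c) := by
  have hD0 : ∃ x, D x ≠ 0 := by
    by_contra h
    push Not at h
    exact hD (Derivation.ext (fun x => by rw [h x]; rfl))
  have hP := princ_every hM k D hD0 hln f g hind hker
  constructor
  · have key := fun n => gen_of_princ D hD0 hln n (hP n)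
    choose c Q h2 h3 h4 h5 using key
    refine ⟨Q, fun n => ?_, LNDHom.freeness D hln h2 h3 h4 h5⟩
    exact ⟨by rw [h2]; exact h3 n, by rw [Function.iterate_succ_apply', h2, h4]⟩
  · exact hP

end Pool.Agent.LNDQ
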