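import Mathlib
import Pool.Agent.LNDQ.FiRes
import Pool.Agent.LNDQ.FiMain

/-!
# LNDQ/FiFinal (FI7b): Q1 from the crossings (CrossHyp)
-/

set_option autoImplicit false

namespace Pool.Agent.LNDQ

open Pool.Agent.LNDHom Pool.Agent.LNDF Pool.Agent.LNDT

theorem mainHyp_of {k : Type} [Field k] [CharZero k] (hX : CrossHyp k) : MainHyp k :=
  fun _ _ _ H _ _ hP A _ _ hG hr n => main_step2 hX H hP A hG hr n

/-- **Q1** for every nonzero `D` with kernel a polynomial ring, over every field of characteristic zero, from the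
crossings over algebraically closed fields -/
theorem res_q1 (hX : ∀ (k : Type) [Field k] [CharZero k] [IsAlgClosed k], CrossHyp k) (k : Type) [Field k]
    [CharZero k] (D : Derivation k (B3 k) (B3 k)) (hD : D ≠ 0)
    (hln : ∀ b : B3 k, ∃ m : ℕ, (⇑D)^[m] b = 0) (f g : B3 k) (hind : AlgebraicIndependent k ![f, g])
    (hker : ∀ b : B3 k, D b = 0 ↔ b ∈ Algebra.adjoin k {f, g}) :
    (∃ Q : ℕ → B3 k, (∀ n, (⇑D)^[n] (Q n) ≠ 0 ∧ (⇑D)^[n + 1] (Q n) = 0) ∧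
      ∀ b : B3 k, ∃! c : ℕ →₀ B3 k, (∀ n, D (c n) = 0) ∧ b = c.sum fun n a => a * Q n) ∧
    ∀ n : ℕ, ∃ a : B3 k, D a = 0 ∧ ∀ v : B3 k,
      (∃ x : B3 k, (⇑D)^[n + 1] x = 0 ∧ (⇑D)^[n] x = v) ↔ (∃ c : B3 k, D c = 0 ∧ v = a * c) :=
  res_all2 (fun k _ _ _ => mainHyp_of (hX k)) k D hD hln f g hind hker

end Pool.Agent.LNDQ
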