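import Mathlib
import Pool.Agent.LNDQ.BDefs
import Pool.Agent.LNDQ.LocB

set_option autoImplicit false

open Polynomial

namespace Pool.Agent.LNDQ

open Pool.Agent.LNDF

variable {k : Type} [Field k] [IsAlgClosed k]

/-- `u` does not divide `P(v)` for a nonzero polynomial `P` -/
theorem not_dvd_aevalA {u v : B3 k} (hu : Prime u) (hv : ∀ c : k, ¬ u ∣ v - MvPolynomial.C c)
    (P : k[X]) (hP : P ≠ 0) : ¬ u ∣ aeval v P := by
  intro h
  have h0 : aeval v P = aeval v (C P.leadingCoeff * (P.roots.map fun a => X - C a).prod) :=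
    congrArg (aeval v) (IsAlgClosed.splits P).eq_prod_roots
  rw [h0, map_mul, aeval_C] at h
  rcases hu.dvd_or_dvd h with h1 | h1
  · apply hu.not_isUnit
    refine isUnit_of_dvd_unit h1 ?_
    exact (IsUnit.mk0 _ (leadingCoeff_ne_zero.2 hP)).map (algebraMap k (B3 k))
  · rw [map_multiset_prod, Multiset.map_map] at h1
    obtain ⟨a, ha, h2⟩ := hu.exists_mem_multiset_dvd h1
    obtain ⟨c, -, rfl⟩ := Multiset.mem_map.1 ha
    simp only [Function.comp_apply, map_sub, aeval_X, aeval_C] at h2
    exact hv c h2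

/-- FdA: `v` is transcendental modulo `u`, over `R` -/
theorem vtr_of {u v : B3 k} (hu : ∀ l : k, Prime (u - MvPolynomial.C l))
    (hv : ∀ c : k, ¬ u ∣ v - MvPolynomial.C c) (a : (RR u)[X])
    (ha : io u u ∣ aeval (io u v) a) : C (uu u) ∣ a := by
  classical
  have hu0 : Prime u := by simpa using hu 0
  have hfr := frS hu0
  choose c r' hr using hfr.res
  set P : k[X] := ∑ i ∈ a.support, C (c (a.coeff i)) * X ^ i with hP
  set a' : (RR u)[X] := ∑ i ∈ a.support, C (r' (a.coeff i)) * X ^ i with ha'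
  have hsum : a = P.map (algebraMap k (RR u)) + C (uu u) * a' := by
    conv_lhs => rw [a.as_sum_support_C_mul_X_pow]
    rw [hP, ha', Polynomial.map_sum, Finset.mul_sum, ← Finset.sum_add_distrib]
    refine Finset.sum_congr rfl fun i _ => ?_
    rw [Polynomial.map_mul, Polynomial.map_pow, Polynomial.map_X, Polynomial.map_C]
    conv_lhs => rw [hr (a.coeff i)]
    rw [C_add, C_mul]
    ring
  have h1 : aeval (io u v) a = io u (aeval v P) + io u u * aeval (io u v) a' := by
    conv_lhs => rw [hsum]
    rw [map_add, map_mul, aeval_C]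
    congr 1
    · rw [Polynomial.aeval_map_algebraMap]
      exact (Polynomial.aeval_algebraMap_apply (SL u) v P)
  rw [h1] at ha
  have h2 : io u u ∣ io u (aeval v P) := (dvd_add_left (dvd_mul_right _ _)).1 ha
  rw [dvd_io_iff_one hu0] at h2
  have h3 : P = 0 := by
    by_contra h4
    exact not_dvd_aevalA hu0 hv P h4 h2
  rw [hsum, h3, Polynomial.map_zero, zero_add]
  exact dvd_mul_right _ _

end Pool.Agent.LNDQ
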