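import Mathlib
import Pool.Agent.LNDQ.LocB
import Pool.Agent.LNDQ.FiDefs
import Pool.Agent.LNDQ.FiPoint

set_option autoImplicit false

open Polynomial

namespace Pool.Agent.LNDQ

open Pool.Agent.LNDHom Pool.Agent.LNDF Pool.Agent.LNDT

namespace FdB8

variable {k : Type} [Field k] {u v w : B3 k}

theorem adj_mem {b : B3 k} (hb : b ∈ Algebra.adjoin k ({u, v} : Set (B3 k))) :
    io u b ∈ Algebra.adjoin (RR u) ({io u v} : Set (SL u)) := by
  induction hb using Algebra.adjoin_induction with
  | mem x hx =>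
    rcases hx with rfl | hx
    · have h1 : io x x = algebraMap (RR x) (SL x) (uu x) := rfl
      rw [h1]
      exact Subalgebra.algebraMap_mem _ _
    · rw [Set.mem_singleton_iff] at hx
      rw [hx]
      exact Algebra.subset_adjoin rfl
  | algebraMap r =>
    have h1 : io u (algebraMap k (B3 k) r) = algebraMap (RR u) (SL u) (algebraMap k (RR u) r) := by
      rw [io_alg]
      rfl
    rw [h1]
    exact Subalgebra.algebraMap_mem _ _
  | add x y _ _ hx hy => rw [io_add]; exact Subalgebra.add_mem _ hx hy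
  | mul x y _ _ hx hy => rw [io_mul]; exact Subalgebra.mul_mem _ hx hy

/-- the element `1 / q(u)` of `R` -/
theorem exists_inv_R (hu : Prime u) {q : k[X]} (hq : q.eval 0 ≠ 0) :
    ∃ c : RR u, (c : SL u) * io u (aeval u q) = 1 := by
  have hfr := frS hu
  have h1 : IsUnit (⟨io u (aeval u q), aeval_mem_RR q⟩ : RR u) := by
    refine hfr.inv _ ?_
    show ¬ io u u ∣ io u (aeval u q)
    rw [dvd_io_iff_one hu, dvd_aeval_iff hu]
    exact hq
  obtain ⟨c, hc⟩ := h1.exists_left_inv
  exact ⟨c, by
    have := congrArg (Subtype.val) hc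
    exact this⟩

theorem w_mem (hu : Prime u) {s : k[X]} (hs : s.eval 0 ≠ 0)
    (hw : aeval u s * w ∈ Algebra.adjoin k ({u, v} : Set (B3 k))) :
    io u w ∈ Algebra.adjoin (RR u) ({io u v} : Set (SL u)) := by
  obtain ⟨c, hc⟩ := exists_inv_R hu hs
  have h1 := adj_mem hw
  rw [io_mul] at h1
  have h2 : io u w = c • (io u (aeval u s) * io u w) := by
    rw [Algebra.smul_def]
    have h3 : algebraMap (RR u) (SL u) c = (c : SL u) := rfl
    rw [h3, ← mul_assoc, hc, one_mul]
  rw [h2]
  exact Subalgebra.smul_mem _ h1 c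

theorem adj_le (hw : io u w ∈ Algebra.adjoin (RR u) ({io u v} : Set (SL u))) :
    Algebra.adjoin (RR u) ({io u w} : Set (SL u)) ≤ Algebra.adjoin (RR u) ({io u v} : Set (SL u)) := by
  refine Algebra.adjoin_le ?_
  rintro x hx
  rw [Set.mem_singleton_iff] at hx
  rw [hx]
  exact hw

/-- common denominators of a polynomial over `R` -/
theorem exists_den (a : (RR u)[X]) : ∃ (q : k[X]) (A : k[X][X]), q.eval 0 ≠ 0 ∧
    ∀ i, ((a.coeff i : RR u) : SL u) * io u (aeval u q) = io u (aeval u (A.coeff i)) := by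
  induction a using Polynomial.induction_on' with
  | add a b ha hb =>
    obtain ⟨q, A, hq, hA⟩ := ha
    obtain ⟨q', A', hq', hA'⟩ := hb
    refine ⟨q * q', A * C q' + A' * C q, by rw [eval_mul]; exact mul_ne_zero hq hq', fun i => ?_⟩
    have h1 := hA i
    have h2 := hA' i
    have h3 : (((a + b).coeff i : RR u) : SL u) = ((a.coeff i : RR u) : SL u) +
        ((b.coeff i : RR u) : SL u) := by
      rw [coeff_add]
      rfl
    rw [h3, coeff_add, coeff_mul_C, coeff_mul_C, map_add, map_mul, map_mul, map_mul, io_add, io_mul,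
      io_mul, io_mul]
    linear_combination io u (aeval u q') * h1 + io u (aeval u q) * h2
  | monomial n r =>
    obtain ⟨z, p, q, hq, h⟩ := r
    refine ⟨q, monomial n p, hq, fun i => ?_⟩
    rw [coeff_monomial, coeff_monomial]
    by_cases hi : n = i
    · rw [if_pos hi, if_pos hi]
      exact h
    · rw [if_neg hi, if_neg hi, map_zero, io_zero]
      exact zero_mul _

/-- `w` is transcendental over `R` -/
theorem tr_R (hu : Prime u) (hind : AlgebraicIndependent k ![u, w]) (a : (RR u)[X])
    (ha : aeval (io u w) a = 0) : a = 0 := by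
  have hdom : IsDomain (SL u) := domS hu
  obtain ⟨q, A, hq, hA⟩ := exists_den a
  have h1 : bv u w A = 0 := by
    apply io_inj hu
    have h2 : io u (bv u w A) = io u (aeval u q) * aeval (io u w) a := by
      have h3 : bv u w A = ∑ i ∈ Finset.range (a.natDegree + A.natDegree + 1),
          aeval u (A.coeff i) * w ^ i := by
        have h4 := eval₂_eq_sum_range' (aeval u : k[X] →ₐ[k] B3 k).toRingHom (p := A)
          (n := a.natDegree + A.natDegree + 1) (by omega) w
        exact h4
      rw [h3, aeval_eq_sum_range' (p := a) (n := a.natDegree + A.natDegree + 1) (by omega),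
        Finset.mul_sum]
      unfold io
      rw [map_sum]
      refine Finset.sum_congr rfl fun i _ => ?_
      have h4 := hA i
      unfold io at h4
      rw [map_mul, map_pow, ← h4, Algebra.smul_def]
      have h5 : algebraMap (RR u) (SL u) (a.coeff i) = ((a.coeff i : RR u) : SL u) := rfl
      rw [h5]
      ring
    rw [h2, ha, mul_zero, io_zero]
  have h2 : A = 0 := bv_inj hind (by rw [h1, map_zero])
  ext i
  have h3 := hA i
  rw [h2, coeff_zero, map_zero, io_zero] at h3
  rw [coeff_zero]
  exact (mul_eq_zero.1 h3).resolve_right (io_unit hq).ne_zero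

end FdB8

variable {k : Type} [Field k] [CharZero k] [IsAlgClosed k]

/-- FdB: the kernel over `R` -/
theorem kerS_of {u w v : B3 k} (hu : ∀ l : k, Prime (u - MvPolynomial.C l))
    {D : Derivation k (B3 k) (B3 k)} (hker : ∀ b, D b = 0 ↔ b ∈ Algebra.adjoin k {u, w})
    (hDv : D v = 0) {s : k[X]} (hs : s.eval 0 ≠ 0) (hw : aeval u s * w ∈ Algebra.adjoin k {u, v})
    (z : SL u) : exS u D z = 0 ↔ z ∈ Algebra.adjoin (RR u) {io u v} := by
  have hu1 : Prime u := by
    have := hu 0
    rwa [map_zero, sub_zero] at this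
  have hDu : D u = 0 := (hker u).2 (Algebra.subset_adjoin (by simp))
  constructor
  · intro hz
    obtain ⟨q, b, hq, hb, h⟩ := exS_ker hu1 D hDu hz
    have hq' : q.eval 0 ≠ 0 := by rw [hq]; exact one_ne_zero
    obtain ⟨c, hc⟩ := FdB8.exists_inv_R hu1 hq'
    have h1 : io u b ∈ Algebra.adjoin (RR u) ({io u w} : Set (SL u)) :=
      FdB8.adj_mem ((hker b).1 hb)
    have h2 := FdB8.adj_le (FdB8.w_mem hu1 hs hw) h1
    have h3 : z = c • io u b := by
      rw [Algebra.smul_def]
      have h3 : algebraMap (RR u) (SL u) c = (c : SL u) := rfl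
      rw [h3, ← h, mul_comm, mul_assoc, mul_comm _ (c : SL u), hc, mul_one]
    rw [h3]
    exact Subalgebra.smul_mem _ h2 c
  · intro hz
    induction hz using Algebra.adjoin_induction with
    | mem x hx =>
      rw [Set.mem_singleton_iff] at hx
      rw [hx, exS_io, hDv, io_zero]
    | algebraMap r => exact exS_R D hDu r
    | add x y _ _ hx hy => rw [map_add, hx, hy, add_zero]
    | mul x y _ _ hx hy => rw [Derivation.leibniz, hx, hy, smul_zero, smul_zero, add_zero]

/-- FdB': two generators over `R` -/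
theorem lin_of {u w v : B3 k} (hu : ∀ l : k, Prime (u - MvPolynomial.C l))
    {D : Derivation k (B3 k) (B3 k)} (hind : AlgebraicIndependent k ![u, w])
    (hker : ∀ b, D b = 0 ↔ b ∈ Algebra.adjoin k {u, w})
    (hDv : D v = 0) {s : k[X]} (hs : s.eval 0 ≠ 0) (hw : aeval u s * w ∈ Algebra.adjoin k {u, v}) :
    ∃ a b : RR u, IsUnit a ∧ io u v = a * io u w + b := by
  have hu1 : Prime u := by
    have := hu 0
    rwa [map_zero, sub_zero] at this
  have hdom : IsDomain (SL u) := domS hu1
  have h1 : io u w ∈ Algebra.adjoin (RR u) ({io u v} : Set (SL u)) := FdB8.w_mem hu1 hs hw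
  have h2 : io u v ∈ Algebra.adjoin (RR u) ({io u w} : Set (SL u)) := FdB8.adj_mem ((hker v).1 hDv)
  rw [Algebra.adjoin_singleton_eq_range_aeval] at h1 h2
  obtain ⟨P, hP⟩ := h1
  obtain ⟨Q, hQ⟩ := h2
  -- `w` is transcendental over `R`
  have htr : ∀ a : (RR u)[X], aeval (io u w) a = 0 → a = 0 := FdB8.tr_R hu1 hind
  have h3 : P.comp Q = X := by
    apply sub_eq_zero.1
    apply htr
    rw [map_sub, aeval_comp, aeval_X]
    have hQ' : aeval (io u w) Q = io u v := hQ
    have hP' : aeval (io u v) P = io u w := hP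
    rw [hQ', hP', sub_self]
  have h4 : P.natDegree * Q.natDegree = 1 := by
    rw [← natDegree_comp, h3, natDegree_X]
  have h5 : Q.natDegree = 1 := Nat.eq_one_of_mul_eq_one_left h4
  have h6 : P.natDegree = 1 := Nat.eq_one_of_mul_eq_one_right h4
  obtain ⟨a, ha, b, hQe⟩ := Polynomial.natDegree_eq_one.1 h5
  obtain ⟨a', ha', b', hPe⟩ := Polynomial.natDegree_eq_one.1 h6
  refine ⟨a, b, ?_, ?_⟩
  · have h7 := congrArg (fun q => coeff q 1) h3
    simp only [← hQe, ← hPe, add_comp, mul_comp, C_comp, X_comp, coeff_X_one, coeff_add,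
      coeff_C_mul, coeff_C_succ, coeff_X_one, add_zero, mul_one] at h7
    exact IsUnit.of_mul_eq_one a' (by rw [mul_comm]; exact h7)
  · have hQ' : aeval (io u w) Q = io u v := hQ
    rw [← hQ', ← hQe, map_add, map_mul, aeval_C, aeval_C, aeval_X]
    rfl

end Pool.Agent.LNDQ
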