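import Mathlib
import Pool.Agent.LNDQ.LocB
import Pool.Agent.LNDF.JacC
import Pool.Agent.LNDF.Fin1

/-!
# LNDQ/FdC: on `S`, the derivation is the Jacobian derivation, up to a unit of `R`
-/

set_option autoImplicit false

open Polynomial

namespace Pool.Agent.LNDQ

open Pool.Agent.LNDF

namespace FdC

section jac

variable {k : Type} [Field k] {u : B3 k}

/-- the Jacobian derivation on `S` -/
noncomputable def jSd (a b : SL u) : Derivation k (SL u) (SL u) :=
  (pS u 1 a * pS u 2 b - pS u 2 a * pS u 1 b) • pS u 0 +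
    (pS u 2 a * pS u 0 b - pS u 0 a * pS u 2 b) • pS u 1 +
    (pS u 0 a * pS u 1 b - pS u 1 a * pS u 0 b) • pS u 2

theorem jSd_apply (a b c : SL u) : jSd a b c = jS u a b c := by
  simp only [jSd, jS, Matrix.det_fin_three, Derivation.add_apply, Derivation.smul_apply,
    smul_eq_mul]
  simp only [Matrix.of_apply, Matrix.cons_val', Matrix.cons_val_zero, Matrix.cons_val_one,
      Matrix.cons_val, Matrix.cons_val_fin_one]
  ring

theorem jS_io (a b c : B3 k) : jS u (io u a) (io u b) (io u c) = io u (jac3 a b c) := by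
  simp only [jac3, jS, Matrix.det_fin_three]
  simp only [Matrix.of_apply, Matrix.cons_val', Matrix.cons_val_zero, Matrix.cons_val_one,
      Matrix.cons_val, Matrix.cons_val_fin_one, pS, exS_io, map_add, map_sub, map_mul]

/-- the gradient of an element of `R` is proportional to that of `u` -/
theorem grad_R (r : RR u) : ∃ ρ : SL u, ∀ i, pS u i (r : SL u) = ρ * pS u i (io u u) := by
  obtain ⟨z, p, q, hq, h⟩ := r
  refine ⟨(io u (aeval u (derivative p)) - z * io u (aeval u (derivative q))) *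
    ((io_unit hq).unit⁻¹ : (SL u)ˣ), fun i => ?_⟩
  apply (io_unit (u := u) hq).mul_right_cancel
  have h1 := exS_spec (MvPolynomial.pderiv i) h
  have h2 : ∀ P : k[X], MvPolynomial.pderiv i (aeval u P) =
      aeval u (derivative P) * MvPolynomial.pderiv i u := by
    intro P
    rw [Derivation.map_aeval, smul_eq_mul]
  rw [h2, h2, io_mul, io_mul] at h1
  have h3 : ((io_unit hq).unit⁻¹ : (SL u)ˣ) * io u (aeval u q) = 1 := IsUnit.val_inv_mul _
  change exS u (MvPolynomial.pderiv i) z * io u (aeval u q) = _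
  rw [h1]
  simp only [pS, exS_io]
  linear_combination (-(io u (aeval u (derivative p)) - z * io u (aeval u (derivative q))) *
    io u (MvPolynomial.pderiv i u)) * h3

/-- `R`-linearity of the Jacobian in the middle argument -/
theorem jS_lin (a b : RR u) (w z : SL u) :
    jS u (io u u) ((a : SL u) * w + b) z = a * jS u (io u u) w z := by
  obtain ⟨ρ, hρ⟩ := grad_R a
  obtain ⟨τ, hτ⟩ := grad_R b
  have h : ∀ i, pS u i ((a : SL u) * w + b) = a * pS u i w + (w * ρ + τ) * pS u i (io u u) := by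
    intro i
    rw [map_add, Derivation.leibniz, hρ, hτ, smul_eq_mul, smul_eq_mul]
    ring
  simp only [jS, Matrix.det_fin_three]
  simp only [Matrix.of_apply, Matrix.cons_val', Matrix.cons_val_zero, Matrix.cons_val_one,
      Matrix.cons_val, Matrix.cons_val_fin_one, h]
  ring

end jac

variable {k : Type} [Field k] [CharZero k] [IsAlgClosed k]

/-- `D` is the Jacobian derivation up to a scalar -/
theorem jac_scalar {u w : B3 k} {D : Derivation k (B3 k) (B3 k)}
    (hln : ∀ b, ∃ n, (⇑D)^[n] b = 0) (hne : ∃ b, D b ≠ 0)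
    (hirr : ∀ p : B3 k, Prime p → D p = 0 → ∃ b, ¬ p ∣ D b)
    (hind : AlgebraicIndependent k ![u, w])
    (hker : ∀ b, D b = 0 ↔ b ∈ Algebra.adjoin k {u, w}) :
    ∃ s : k, s ≠ 0 ∧ ∀ b, jac3 u w b = MvPolynomial.C s * D b := by
  obtain ⟨r, c, hs⟩ := exists_slice D hne hln u w hind hker
  obtain ⟨ι, hι⟩ := hs.exists_iota
  obtain ⟨s, hs0, hJ⟩ := hs.jac_eq hι hirr
  refine ⟨s, hs0, fun b => ?_⟩
  have h1 := hs.prop hι hJ b
  have hc : ev u w c ≠ 0 := by
    intro h0
    exact hs.cne (hs.ev_inj (by rw [h0, map_zero]))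
  apply mul_right_cancel₀ hc
  rw [h1, map_mul]
  have h2 : ev u w (MvPolynomial.C s) = MvPolynomial.C s := by
    rw [ev, MvPolynomial.aeval_C, MvPolynomial.algebraMap_eq]
  rw [h2]
  ring

end FdC

variable {k : Type} [Field k] [CharZero k] [IsAlgClosed k]

/-- FdC: the derivation is the Jacobian derivation, up to a unit of `R` -/
theorem jD_of {u w v : B3 k} (_hu : ∀ l : k, Prime (u - MvPolynomial.C l))
    {D : Derivation k (B3 k) (B3 k)} (hln : ∀ b, ∃ n, (⇑D)^[n] b = 0) (hne : ∃ b, D b ≠ 0)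
    (hirr : ∀ p : B3 k, Prime p → D p = 0 → ∃ b, ¬ p ∣ D b)
    (hind : AlgebraicIndependent k ![u, w])
    (hker : ∀ b, D b = 0 ↔ b ∈ Algebra.adjoin k {u, w})
    (hl : ∃ a b : RR u, IsUnit a ∧ io u v = a * io u w + b) :
    ∃ c : RR u, IsUnit c ∧ ∀ z : SL u, exS u D z = c * jS u (io u u) (io u v) z := by
  obtain ⟨a, b, ha, hv⟩ := hl
  obtain ⟨s, hs, hJ⟩ := FdC.jac_scalar hln hne hirr hind hker
  obtain ⟨a', ha'⟩ := ha.exists_right_inv
  have h1 : ∀ z : SL u, jS u (io u u) (io u w) z = io u (MvPolynomial.C s) * exS u D z := by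
    intro z
    have e1 := exS_unique (MvPolynomial.C s • D) (FdC.jSd (io u u) (io u w)) (fun b => by
      rw [FdC.jSd_apply, FdC.jS_io, hJ, Derivation.smul_apply, smul_eq_mul]) z
    have e2 := exS_unique (MvPolynomial.C s • D) (io u (MvPolynomial.C s) • exS u D) (fun b => by
      rw [Derivation.smul_apply, Derivation.smul_apply, exS_io, smul_eq_mul, smul_eq_mul,
        io_mul]) z
    rw [← FdC.jSd_apply, e1, ← e2, Derivation.smul_apply, smul_eq_mul]
  have h2 : io u (MvPolynomial.C s) * algebraMap k (SL u) s⁻¹ = 1 := by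
    rw [← io_alg, ← io_mul, ← MvPolynomial.algebraMap_eq, ← map_mul, mul_inv_cancel₀ hs, map_one,
      io_one]
  have h3 : (a : SL u) * (a' : SL u) = 1 := by
    have := congrArg (fun r : RR u => (r : SL u)) ha'
    simpa using this
  refine ⟨a' * algebraMap k (RR u) s⁻¹, ?_, fun z => ?_⟩
  · refine IsUnit.mul (IsUnit.of_mul_eq_one a (by rw [mul_comm]; exact ha')) ?_
    exact (IsUnit.mk0 _ (inv_ne_zero hs)).map (algebraMap k (RR u))
  · rw [hv, FdC.jS_lin, h1]
    change exS u D z = ((a' : SL u) * algebraMap k (SL u) s⁻¹) *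
      ((a : SL u) * (io u (MvPolynomial.C s) * exS u D z))
    linear_combination (-(io u (MvPolynomial.C s)) * algebraMap k (SL u) s⁻¹ * exS u D z) * h3 -
      exS u D z * h2

end Pool.Agent.LNDQ
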