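import Mathlib
import Pool.Agent.LNDQ.LocB

set_option autoImplicit false
set_option linter.unusedSectionVars false
set_option linter.unusedVariables false

open Polynomial

/-!
# Independence over the ring `R` of a constant and a slice-like element (FdD)
-/

namespace Pool.Agent.LNDQ

open Pool.Agent.LNDF

section fdd

variable {R A : Type} [CommRing R] [CommRing A] [IsDomain A] [Algebra R A]

omit [IsDomain A] in
theorem fdd_iff [Nontrivial R] (v x : A) (h1 : Transcendental R v)
    (h2 : Transcendental (Algebra.adjoin R {v}) x) : AlgebraicIndependent R ![v, x] := by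
  rw [AlgebraicIndependent.iff_transcendental_adjoin_image (x := ![v, x]) 1]
  have h0 : (![v, x] '' {(1 : Fin 2)}ᶜ) = {v} := by
    ext z
    simp only [Set.mem_image, Set.mem_compl_iff, Set.mem_singleton_iff]
    constructor
    · rintro ⟨i, hi, rfl⟩
      fin_cases i
      · rfl
      · exact absurd rfl hi
    · rintro rfl
      exact ⟨0, by simp, rfl⟩
  rw [h0]
  have : Subsingleton {j : Fin 2 // j ≠ 1} := ⟨by
    rintro ⟨i, hi⟩ ⟨j, hj⟩
    apply Subtype.ext
    show i = j
    fin_cases i <;> fin_cases j
    · rfl
    · exact absurd rfl hj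
    · exact absurd rfl hi
    · rfl⟩
  rw [algebraicIndependent_singleton_iff (⟨0, by simp⟩ : {j : Fin 2 // j ≠ 1})]
  exact ⟨h1, h2⟩

omit [IsDomain A] in
/-- the chain rule for a derivation which kills the coefficients -/
theorem fdd_chain (E : Derivation R A A) (K : Subalgebra R A) (hK : ∀ c ∈ K, E c = 0) (x : A)
    (p : K[X]) : E (aeval x p) = aeval x (derivative p) * E x := by
  induction p using Polynomial.induction_on' with
  | add p q hp hq => rw [map_add, map_add, hp, hq, derivative_add, map_add, add_mul]
  | monomial n a =>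
    have ha : E (algebraMap K A a) = 0 := hK _ a.2
    rw [aeval_monomial, derivative_monomial, aeval_monomial, E.leibniz, E.leibniz_pow, ha,
      smul_zero, add_zero, smul_eq_mul, smul_eq_mul, map_mul, map_natCast, nsmul_eq_mul]
    ring

theorem fdd_trans [CharZero A] (E : Derivation R A A) (K : Subalgebra R A)
    (hK : ∀ c ∈ K, E c = 0) (x : A) (hx : E x ≠ 0) : Transcendental K x := by
  have : CharZero K := ⟨fun m n h => by
    have h1 := congrArg (fun z : K => (z : A)) h
    exact_mod_cast h1⟩
  have main : ∀ (n : ℕ) (p : K[X]), p.natDegree ≤ n → aeval x p = 0 → p = 0 := by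
    intro n
    induction n with
    | zero =>
      intro p hp h0
      rw [Nat.le_zero] at hp
      rw [eq_C_of_natDegree_eq_zero hp, aeval_C] at h0
      have h1 : p.coeff 0 = 0 := Subtype.ext h0
      rw [eq_C_of_natDegree_eq_zero hp, h1, map_zero]
    | succ n ih =>
      intro p hp h0
      have h1 := fdd_chain E K hK x p
      rw [h0, map_zero] at h1
      have h2 : aeval x (derivative p) = 0 := (mul_eq_zero.1 h1.symm).resolve_right hx
      have h3 : derivative p = 0 := ih _ ((natDegree_derivative_le p).trans (by omega)) h2
      have h4 : p.natDegree = 0 := Polynomial.derivative_eq_zero.1 h3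
      rw [eq_C_of_natDegree_eq_zero h4, aeval_C] at h0
      have h5 : p.coeff 0 = 0 := Subtype.ext h0
      rw [eq_C_of_natDegree_eq_zero h4, h5, map_zero]
  rw [transcendental_iff]
  exact fun p hp => main _ p le_rfl hp

end fdd

variable {k : Type} [Field k] [CharZero k] [IsAlgClosed k]

/-- FdD: independence over `R` -/
theorem ind_of {u : B3 k} (hu : ∀ l : k, Prime (u - MvPolynomial.C l))
    {D : Derivation k (B3 k) (B3 k)} (hDu : D u = 0) {v x : SL u} (hDv : exS u D v = 0)
    (hDDx : exS u D (exS u D x) = 0) (hDx : exS u D x ≠ 0)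
    (hv : ∀ a : (RR u)[X], aeval v a = 0 → a = 0) : AlgebraicIndependent (RR u) ![v, x] := by
  have hu0 : Prime u := by
    have h := hu 0
    rwa [map_zero, sub_zero] at h
  have := domS hu0
  have : CharZero (SL u) := charZero_of_injective_algebraMap (algebraMap k (SL u)).injective
  refine fdd_iff v x (transcendental_iff.2 hv) ?_
  refine fdd_trans (exR D hDu) _ ?_ x hDx
  intro c hc
  induction hc using Algebra.adjoin_induction with
  | mem y hy =>
    rw [Set.mem_singleton_iff] at hy
    rw [hy]
    exact hDv
  | algebraMap r => exact (exR D hDu).map_algebraMap r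
  | add y z _ _ hy hz => rw [map_add, hy, hz, add_zero]
  | mul y z _ _ hy hz => rw [(exR D hDu).leibniz, hy, hz, smul_zero, smul_zero, add_zero]

end Pool.Agent.LNDQ
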