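import Mathlib
import Pool.Agent.LNDQ.BDefs
import Pool.Agent.LNDQ.Kern

set_option autoImplicit false

open Polynomial

namespace Pool.Agent.LNDQ

open Pool.Agent.LNDF

section gen

variable {k A : Type} [Field k] [IsAlgClosed k] [CommRing A] [IsDomain A] [Algebra k A]

omit [IsDomain A] in
/-- no nonzero polynomial in `v` over `k` is divisible by `u` -/
theorem fde_notdvd {u v : A} (hu : Prime u) (hv : ∀ c : k, ¬ u ∣ v - algebraMap k A c) :
    ∀ (n : ℕ) (q : k[X]), q.natDegree = n → q ≠ 0 → ¬ u ∣ aeval v q := by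
  intro n
  induction n with
  | zero =>
    intro q hq hq0 hd
    rw [Polynomial.eq_C_of_natDegree_eq_zero hq, Polynomial.aeval_C] at hd
    have h1 : q.coeff 0 ≠ 0 := by
      intro h
      exact hq0 (by rw [Polynomial.eq_C_of_natDegree_eq_zero hq, h, map_zero])
    exact hu.not_isUnit (isUnit_of_dvd_unit hd ((IsUnit.mk0 _ h1).map (algebraMap k A)))
  | succ n ih =>
    intro q hq hq0 hd
    obtain ⟨c, hc⟩ := IsAlgClosed.exists_root q (by
      rw [Polynomial.degree_eq_natDegree hq0, hq]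
      exact_mod_cast Nat.succ_ne_zero n)
    obtain ⟨q', rfl⟩ := Polynomial.dvd_iff_isRoot.2 hc
    have hq0' : q' ≠ 0 := right_ne_zero_of_mul hq0
    rw [map_mul] at hd
    rcases hu.dvd_or_dvd hd with h | h
    · refine hv c ?_
      simpa using h
    · refine ih q' ?_ hq0' h
      rw [Polynomial.natDegree_mul (Polynomial.X_sub_C_ne_zero c) hq0',
        Polynomial.natDegree_X_sub_C] at hq
      omega

/-- `u`, `v` satisfy no relation -/
theorem fde_inj {u v : A} (hu : Prime u) (hv : ∀ c : k, ¬ u ∣ v - algebraMap k A c) (i : ℕ) :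
    ∀ (n : ℕ) (F : k[X][X]), (F.coeff i).natDegree = n →
      F.eval₂ (aeval u : k[X] →ₐ[k] A).toRingHom v = 0 → F.coeff i = 0 := by
  intro n
  induction n using Nat.strong_induction_on with
  | _ n ih =>
  intro F hn hF
  -- `F = F0 + X F1`
  let F0 : k[X] := F.map (Polynomial.evalRingHom (0 : k))
  have hd : C (X : k[X]) ∣ F - F0.map (C : k →+* k[X]) := by
    rw [Polynomial.C_dvd_iff_dvd_coeff]
    intro j
    rw [coeff_sub, coeff_map, coeff_map, X_dvd_iff, coeff_sub, coeff_C_zero,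
      coeff_zero_eq_eval_zero]
    exact sub_self _
  obtain ⟨F1, hF1⟩ := hd
  have h0 : (F0.map (C : k →+* k[X])).eval₂ (aeval u : k[X] →ₐ[k] A).toRingHom v = aeval v F0 := by
    rw [eval₂_map, aeval_def]
    congr 1
    ext c
    simp
  have h1 : aeval v F0 + u * F1.eval₂ (aeval u : k[X] →ₐ[k] A).toRingHom v = 0 := by
    have h2 : F = F0.map (C : k →+* k[X]) + C X * F1 := by rw [← hF1]; ring
    rw [h2, eval₂_add, h0, eval₂_mul, eval₂_C] at hF
    rw [← hF]
    simp
  have hF00 : F0 = 0 := by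
    by_contra hne
    exact fde_notdvd hu hv _ F0 rfl hne ⟨-(F1.eval₂ (aeval u : k[X] →ₐ[k] A).toRingHom v), by
      linear_combination h1⟩
  rw [hF00, map_zero, zero_add] at h1
  have h3 : F1.eval₂ (aeval u : k[X] →ₐ[k] A).toRingHom v = 0 := by
    exact (mul_eq_zero.1 h1).resolve_left hu.ne_zero
  rw [hF00, Polynomial.map_zero, sub_zero] at hF1
  have h4 : F.coeff i = X * F1.coeff i := by rw [hF1, coeff_C_mul]
  by_cases h5 : F1.coeff i = 0
  · rw [h4, h5, mul_zero]
  · have h6 : (F1.coeff i).natDegree < n := by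
      rw [← hn, h4, natDegree_X_mul h5]
      omega
    exact absurd (ih _ h6 F1 rfl h3) h5

theorem fde_ind {u v : A} (hu : ∀ l : k, Prime (u - algebraMap k A l))
    (hv : ∀ c : k, ¬ u ∣ v - algebraMap k A c) : AlgebraicIndependent k ![u, v] := by
  have hu0 : Prime u := by simpa using hu 0
  rw [kr_ind_iff]
  refine ⟨?_, ?_⟩
  · rintro ⟨q, hq0, hq⟩
    have h1 := fde_inj (k := k) hu0 hv 0 _ (C q) rfl (by
      rw [eval₂_C]
      exact hq)
    rw [coeff_C_zero] at h1
    exact hq0 h1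
  · rintro ⟨P, hP0, hP⟩
    let ψ : k[X] →+* Algebra.adjoin k {u} :=
      ((aeval (⟨u, Algebra.subset_adjoin rfl⟩ : Algebra.adjoin k {u}) :
        k[X] →ₐ[k] Algebra.adjoin k {u})).toRingHom
    have hψ : ∀ q : k[X], ((ψ q : Algebra.adjoin k {u}) : A) = aeval u q := fun q =>
      (Polynomial.aeval_algHom_apply (Algebra.adjoin k {u}).val
        (⟨u, Algebra.subset_adjoin rfl⟩ : Algebra.adjoin k {u}) q).symm
    have hψs : Function.Surjective ψ := by
      rintro ⟨a, ha⟩
      rw [Algebra.adjoin_singleton_eq_range_aeval] at ha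
      obtain ⟨q, hq⟩ := ha
      exact ⟨q, Subtype.ext ((hψ q).trans hq)⟩
    obtain ⟨F, rfl⟩ := Polynomial.map_surjective ψ hψs P
    apply hP0
    have h1 : F.eval₂ (aeval u : k[X] →ₐ[k] A).toRingHom v = 0 := by
      rw [← hP, aeval_def, eval₂_map]
      congr 1
      ext q
      · exact (hψ (C q)).symm
      · exact (hψ X).symm
    have h2 : F = 0 := by
      ext1 i
      rw [coeff_zero]
      exact fde_inj (k := k) hu0 hv i _ F rfl h1
    rw [h2, Polynomial.map_zero]

end gen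

variable {k : Type} [Field k] [CharZero k] [IsAlgClosed k]

/-- FdE: the kernel generator: `k[u, w] = ker D`, `R[w] = R[v]` -/
theorem w_of {u v : B3 k} (hu : ∀ l : k, Prime (u - MvPolynomial.C l))
    {D : Derivation k (B3 k) (B3 k)} (hln : ∀ b, ∃ n, (⇑D)^[n] b = 0) (hDu : D u = 0)
    (hDv : D v = 0) (hv : ∀ c : k, ¬ u ∣ v - MvPolynomial.C c)
    (hgen : ∀ a, D a = 0 → ∃ s : k[X], s ≠ 0 ∧ aeval u s * a ∈ Algebra.adjoin k {u, v}) :
    ∃ w, AlgebraicIndependent k ![u, w] ∧ (∀ b, D b = 0 ↔ b ∈ Algebra.adjoin k {u, w}) ∧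
      ∃ s : k[X], s.eval 0 ≠ 0 ∧ aeval u s * w ∈ Algebra.adjoin k {u, v} := by
  obtain ⟨w, hw, hk, s, -, hs, h⟩ := kern D hln u hu hDu v.totalDegree v rfl hDv
    (fde_ind (k := k) (A := B3 k) hu hv) hgen
  exact ⟨w, hw, hk, s, (h hv).1, hs⟩

end Pool.Agent.LNDQ
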