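import Mathlib
import Pool.Agent.LNDQ.BDefs
import Pool.Agent.LNDQ.FiDefs
import Pool.Agent.LNDQ.LocB

/-!
The constants modulo `v` are in `R`; the minimal polynomial of the slice modulo `v` over `R`.
-/

set_option autoImplicit false

open Polynomial

namespace Pool.Agent.LNDQ

open Pool.Agent.LNDHom Pool.Agent.LNDF Pool.Agent.LNDT

variable {k : Type} [Field k] [CharZero k] [IsAlgClosed k]

omit [CharZero k] [IsAlgClosed k] in
/-- elements of `k[u, v]` are in `k[u]` modulo `v` -/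
theorem adjoin_mod {u v : B3 k} {a : B3 k} (ha : a ∈ Algebra.adjoin k {u, v}) :
    ∃ t : k[X], v ∣ a - aeval u t := by
  induction ha using Algebra.adjoin_induction with
  | mem x hx =>
    rcases hx with rfl | rfl
    · exact ⟨X, by rw [aeval_X, sub_self]; exact dvd_zero _⟩
    · exact ⟨0, by rw [map_zero, sub_zero]⟩
  | algebraMap r => exact ⟨C r, by rw [aeval_C, sub_self]; exact dvd_zero _⟩
  | add x y _ _ hx hy =>
    obtain ⟨s, c, hc⟩ := hx
    obtain ⟨t, d, hd⟩ := hy
    refine ⟨s + t, c + d, ?_⟩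
    rw [map_add]
    linear_combination hc + hd
  | mul x y _ _ hx hy =>
    obtain ⟨s, c, hc⟩ := hx
    obtain ⟨t, d, hd⟩ := hy
    refine ⟨s * t, c * y + aeval u s * d, ?_⟩
    rw [map_mul]
    linear_combination y * hc + aeval u s * hd

omit [CharZero k] [IsAlgClosed k] in
theorem fd_red_aux {u v w : B3 k} {s : k[X]}
    (hw : aeval u s * w ∈ Algebra.adjoin k {u, v}) {a : B3 k}
    (ha : a ∈ Algebra.adjoin k {u, w}) :
    ∃ (n : ℕ) (t : k[X]), v ∣ aeval u (s ^ n) * a - aeval u t := by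
  induction ha using Algebra.adjoin_induction with
  | mem x hx =>
    rcases hx with rfl | rfl
    · exact ⟨0, X, by rw [pow_zero, map_one, one_mul, aeval_X, sub_self]; exact dvd_zero _⟩
    · obtain ⟨t, ht⟩ := adjoin_mod hw
      exact ⟨1, t, by rw [pow_one]; exact ht⟩
  | algebraMap r =>
    exact ⟨0, C r, by rw [pow_zero, map_one, one_mul, aeval_C, sub_self]; exact dvd_zero _⟩
  | add x y _ _ hx hy =>
    obtain ⟨n, p, c, hc⟩ := hx
    obtain ⟨m, q, d, hd⟩ := hy
    refine ⟨n + m, s ^ m * p + s ^ n * q, aeval u (s ^ m) * c + aeval u (s ^ n) * d, ?_⟩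
    simp only [map_add, map_mul, pow_add]
    linear_combination aeval u (s ^ m) * hc + aeval u (s ^ n) * hd
  | mul x y _ _ hx hy =>
    obtain ⟨n, p, c, hc⟩ := hx
    obtain ⟨m, q, d, hd⟩ := hy
    refine ⟨n + m, p * q, aeval u (s ^ m) * y * c + aeval u p * d, ?_⟩
    simp only [map_mul, pow_add]
    linear_combination aeval u (s ^ m) * y * hc + aeval u p * hd

omit [CharZero k] [IsAlgClosed k] in
/-- FdR: the constants modulo `v` are in `R` -/
theorem fd_red {u v w : B3 k} (hu : ∀ l : k, Prime (u - MvPolynomial.C l))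
    {D : Derivation k (B3 k) (B3 k)} (hker : ∀ b, D b = 0 ↔ b ∈ Algebra.adjoin k {u, w})
    {s : k[X]} (hs : s.eval 0 ≠ 0) (hw : aeval u s * w ∈ Algebra.adjoin k {u, v}) (a : B3 k)
    (ha : D a = 0) : ∃ s t : k[X], s.eval 0 ≠ 0 ∧ v ∣ aeval u s * a - aeval u t := by
  obtain ⟨n, t, h⟩ := fd_red_aux hw ((hker a).1 ha)
  exact ⟨s ^ n, t, by rw [eval_pow]; exact pow_ne_zero n hs, h⟩

omit [CharZero k] [IsAlgClosed k] in
/-- FdF: the minimal polynomial over `R` -/
theorem fd_F {u v r : B3 k} (hu : ∀ l : k, Prime (u - MvPolynomial.C l))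
    {D : Derivation k (B3 k) (B3 k)}
    (hred : ∀ a, D a = 0 → ∃ s t : k[X], s.eval 0 ≠ 0 ∧ v ∣ aeval u s * a - aeval u t)
    {Y : (kerAlg D)[X]} (hY : Y.Monic) (hYr : v ∣ aeval r Y) :
    ∃ F : (RR u)[X], F.Monic ∧ F.natDegree = Y.natDegree ∧ io u v ∣ aeval (io u r) F := by
  have hpu : Prime u := by simpa using hu 0
  have hdom := domS hpu
  have h1 : ∀ i : ℕ, ∃ ρ : RR u, io u v ∣ io u ((Y.coeff i : kerAlg D) : B3 k) - (ρ : SL u) := by
    intro i
    obtain ⟨s, t, hs, c, hc⟩ := hred _ (Y.coeff i).2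
    have h2 := congrArg (io u) hc
    rw [io_sub, io_mul, io_mul] at h2
    refine ⟨⟨((io_unit hs).unit⁻¹ : (SL u)ˣ) * io u (aeval u t), t, s, hs, ?_⟩,
      ((io_unit hs).unit⁻¹ : (SL u)ˣ) * io u c, ?_⟩
    · rw [mul_comm, ← mul_assoc, IsUnit.mul_val_inv, one_mul]
    · show io u _ - ((io_unit hs).unit⁻¹ : (SL u)ˣ) * io u (aeval u t) = _
      apply (io_unit (u := u) hs).mul_left_cancel
      rw [mul_sub, ← mul_assoc, IsUnit.mul_val_inv, one_mul, h2]
      have h3 : io u (aeval u s) * ((io_unit hs).unit⁻¹ : (SL u)ˣ) = 1 := IsUnit.mul_val_inv _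
      linear_combination (-(io u v * io u c)) * h3
  choose ρ hρ using h1
  set n := Y.natDegree with hn
  set P : (RR u)[X] := ∑ i : Fin n, C (ρ i) * X ^ (i : ℕ) with hP
  have hdeg : P.degree < (n : WithBot ℕ) := by
    rw [hP]
    exact degree_sum_fin_lt _
  refine ⟨X ^ n + P, monic_X_pow_add hdeg, ?_, ?_⟩
  · rw [natDegree_add_eq_left_of_degree_lt (by rw [degree_X_pow]; exact hdeg), natDegree_X_pow]
  · have h2 : aeval (io u r) (X ^ n + P) = io u r ^ n + ∑ i : Fin n, (ρ i : SL u) * io u r ^ (i : ℕ) := by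
      rw [map_add, map_pow, aeval_X, hP, map_sum]
      congr 1
      refine Finset.sum_congr rfl fun i _ => ?_
      rw [map_mul, map_pow, aeval_C, aeval_X]
      rfl
    have h3 : aeval r Y = r ^ n + ∑ i : Fin n, ((Y.coeff i : kerAlg D) : B3 k) * r ^ (i : ℕ) := by
      rw [aeval_eq_sum_range, Finset.sum_range_succ, ← hn, hn, hY.coeff_natDegree, one_smul, add_comm,
        Finset.sum_range]
      rfl
    have h4 : io u (aeval r Y) = io u r ^ n +
        ∑ i : Fin n, io u ((Y.coeff i : kerAlg D) : B3 k) * io u r ^ (i : ℕ) := by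
      rw [h3, io_add, io_pow]
      congr 1
      show algebraMap (B3 k) (SL u) _ = _
      rw [map_sum]
      refine Finset.sum_congr rfl fun i _ => ?_
      rw [map_mul, map_pow]
    have h5 : io u v ∣ io u (aeval r Y) := by
      obtain ⟨c, hc⟩ := hYr
      exact ⟨io u c, by rw [hc, io_mul]⟩
    have h6 : aeval (io u r) (X ^ n + P) = io u (aeval r Y) -
        ∑ i : Fin n, (io u ((Y.coeff i : kerAlg D) : B3 k) - (ρ i : SL u)) * io u r ^ (i : ℕ) := by
      rw [h2, h4]
      simp only [sub_mul, Finset.sum_sub_distrib]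
      ring
    rw [h6]
    exact dvd_sub h5 (Finset.dvd_sum fun i _ => Dvd.dvd.mul_right (hρ i) _)

end Pool.Agent.LNDQ
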