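import Mathlib
import Pool.Agent.LNDQ.LocB
import Pool.Agent.LNDQ.LocDeg

set_option autoImplicit false

open Polynomial

namespace Pool.Agent.LNDQ

open Pool.Agent.LNDHom Pool.Agent.LNDF

variable {k : Type} [Field k] [CharZero k] [IsAlgClosed k]

/-- FdK: `R[v, x, y]` generates `S` over the fractions `1 / u` (induction on the degree; leading terms by
`FiD.iter_bs`) -/
theorem fd_kap {u v r : B3 k} (hu : ∀ l : k, Prime (u - MvPolynomial.C l))
    {D : Derivation k (B3 k) (B3 k)} (hln : ∀ b, ∃ n, (⇑D)^[n] b = 0) (hDu : D u = 0)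
    (hDv : D v = 0) {Q : k[X]} (hQ : Q.eval 0 ≠ 0) {e : ℕ} (hr : D r = aeval u Q * u ^ e * v)
    {F : (RR u)[X]} {y : SL u} (hP : Pres F (io u v) (io u r) y)
    (hker : ∀ z : SL u, exS u D z = 0 ↔ z ∈ Algebra.adjoin (RR u) {io u v})
    (hcc : ∀ (n : ℕ) (b : B3 k), (⇑D)^[n + 1] b = 0 → v ^ (n - n / F.natDegree) ∣ (⇑D)^[n] b)
    (z : SL u) : ∃ m : ℕ, io u u ^ m * z ∈ Cx (RR u) (io u v) (io u r) y := by
  have hpu : Prime u := by
    have h := hu 0
    rwa [map_zero, sub_zero] at h
  haveI : IsDomain (SL u) := domS hpu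
  have hv0 : io u v ≠ 0 := by simpa using hP.ind.ne_zero 0
  have hu0 : io u u ≠ 0 := (primeS hpu).ne_zero
  have hQ0 : io u (aeval u Q) ≠ 0 := (io_unit hQ).ne_zero
  have hEx : exS u D (io u r) = io u (aeval u Q) * io u u ^ e * io u v := by
    rw [exS_io, hr, io_mul, io_mul, io_pow]
  have hEv : exS u D (io u v) = 0 := by rw [exS_io, hDv, io_zero]
  have hEu : exS u D (io u u) = 0 := by rw [exS_io, hDu, io_zero]
  have hDD : FiD.DD (RR u) (io u v) (io u r) (exS u D) := by
    refine ⟨exS_R D hDu, hEv, ?_, ?_⟩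
    · rw [hEx, Derivation.leibniz, hEv, smul_zero, zero_add]
      have h1 : exS u D (io u (aeval u Q) * io u u ^ e) = 0 := by
        rw [Derivation.leibniz, Derivation.leibniz_pow, hEu, exS_io, der_aeval D hDu, io_zero]
        simp
      rw [h1, smul_zero]
    · rw [hEx]
      exact mul_ne_zero (mul_ne_zero hQ0 (pow_ne_zero _ hu0)) hv0
  have hCx : ∀ w : SL u, w ∈ Cx (RR u) (io u v) (io u r) y ↔
      w ∈ Algebra.adjoin (RR u) ({io u v, io u r, y} : Set (SL u)) := fun w => Iff.rfl
  obtain ⟨n, hn⟩ := exS_lnd D hDu hln z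
  induction n generalizing z with
  | zero =>
    have h0 : z = 0 := hn
    exact ⟨0, by rw [h0, mul_zero]; exact zero_mem _⟩
  | succ n ih =>
    obtain ⟨q, b, hq, hzb⟩ := exists_mul z
    have hq' : q.eval 0 ≠ 0 := by rw [hq]; exact one_ne_zero
    have hb : (⇑D)^[n + 1] b = 0 := (exS_iter_eq_zero hpu D hDu hq' hzb (n + 1)).1 hn
    obtain ⟨c, hc⟩ := hcc n b hb
    have hv0' : v ≠ 0 := by
      rintro rfl
      exact hv0 io_zero
    have hDc : D c = 0 := by
      rw [Function.iterate_succ_apply', hc, Derivation.leibniz, Derivation.leibniz_pow, hDv] at hb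
      simp only [smul_zero, smul_eq_mul, mul_zero, add_zero] at hb
      exact (mul_eq_zero.1 hb).resolve_left (pow_ne_zero _ hv0')
    have h1 : io u c ∈ Algebra.adjoin (RR u) ({io u v} : Set (SL u)) :=
      (hker _).1 (by rw [exS_io, hDc, io_zero])
    have h1' := h1
    rw [Algebra.adjoin_singleton_eq_range_aeval] at h1
    obtain ⟨a, ha⟩ := h1
    have ha' : aeval (io u v) a = io u c := ha
    -- the leading coefficient of the basis element
    obtain ⟨i, hi⟩ : ∃ i, i = n / F.natDegree := ⟨_, rfl⟩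
    have hin : i ≤ n := by rw [hi]; exact Nat.div_le_self _ _
    have hbs : (⇑(exS u D))^[n] (bs F.natDegree (io u r) y n) =
        (n.factorial : SL u) * (io u (aeval u Q) * io u u ^ e) ^ n * io u v ^ (n - i) := by
      have h2 := (FiD.iter_bs hDD hP n).1
      rw [← hi, hEx] at h2
      apply mul_left_cancel₀ (pow_ne_zero i hv0)
      rw [h2]
      have h3 : io u v ^ n = io u v ^ i * io u v ^ (n - i) := by
        rw [← pow_add]; congr 1; omega
      rw [mul_pow _ (io u v), h3]
      ring
    -- the coefficient in `R`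
    obtain ⟨w, hw⟩ : ∃ w : RR u, (w : SL u) = (n.factorial : SL u) *
        (io u (aeval u Q) * io u u ^ e) ^ n * io u (aeval u q) :=
      ⟨(n.factorial : RR u) * (⟨io u (aeval u Q), aeval_mem_RR Q⟩ * (uu u) ^ e) ^ n *
        ⟨io u (aeval u q), aeval_mem_RR q⟩, by push_cast; rfl⟩
    have hz1 : (⇑(exS u D))^[n] ((w : SL u) * z -
        aeval (io u v) a * bs F.natDegree (io u r) y n) = 0 := by
      rw [FiD.iter_sub, FiD.iter_r hDD, FiD.iter_aeval hDD, hbs, ha', hw]
      have h2 := exS_iter_mul D hDu hzb n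
      rw [hc, io_mul, io_pow, ← hi] at h2
      linear_combination (n.factorial : SL u) * (io u (aeval u Q) * io u u ^ e) ^ n * h2
    obtain ⟨m, hm⟩ := ih _ hz1
    -- back to `z`
    obtain ⟨t, ht⟩ : ∃ t : RR u, (t : SL u) * ((n.factorial : SL u) * io u (aeval u Q) ^ n *
        io u (aeval u q)) = 1 := by
      have hfr := frS hpu
      have hnd : ∀ p : k[X], p.eval 0 ≠ 0 → ∃ s : RR u, (s : SL u) * io u (aeval u p) = 1 := by
        intro p hp
        have h3 : IsUnit (⟨io u (aeval u p), aeval_mem_RR p⟩ : RR u) := by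
          apply hfr.inv
          show ¬ io u u ∣ io u (aeval u p)
          rw [dvd_io_iff_one hpu, dvd_aeval_iff hpu]
          exact hp
        obtain ⟨s, hs⟩ := h3.exists_left_inv
        exact ⟨s, by simpa using congrArg Subtype.val hs⟩
      have hfac : (C (n.factorial : k) * Q ^ n * q).eval 0 ≠ 0 := by
        rw [eval_mul, eval_mul, eval_C, eval_pow]
        exact mul_ne_zero (mul_ne_zero (by exact_mod_cast Nat.factorial_ne_zero n)
          (pow_ne_zero _ hQ)) hq'
      obtain ⟨s, hs⟩ := hnd _ hfac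
      refine ⟨s, ?_⟩
      rw [← hs]
      congr 1
      simp only [map_mul, map_pow, aeval_C, map_natCast]
    refine ⟨m + e * n, ?_⟩
    rw [hCx] at hm ⊢
    have h4 : aeval (io u v) a * bs F.natDegree (io u r) y n ∈
        Algebra.adjoin (RR u) ({io u v, io u r, y} : Set (SL u)) := by
      refine mul_mem ?_ ?_
      · rw [ha']
        exact Algebra.adjoin_mono (by simp) h1'
      · exact mul_mem (pow_mem (Algebra.subset_adjoin (by simp)) _)
          (pow_mem (Algebra.subset_adjoin (by simp)) _)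
    have hum : io u u ∈ Algebra.adjoin (RR u) ({io u v, io u r, y} : Set (SL u)) :=
      Subalgebra.algebraMap_mem _ (uu u)
    have htm : (t : SL u) ∈ Algebra.adjoin (RR u) ({io u v, io u r, y} : Set (SL u)) :=
      Subalgebra.algebraMap_mem _ t
    have h5 : io u u ^ (m + e * n) * z = (t : SL u) * (io u u ^ m * ((w : SL u) * z -
        aeval (io u v) a * bs F.natDegree (io u r) y n) +
        io u u ^ m * (aeval (io u v) a * bs F.natDegree (io u r) y n)) := by
      have h6 : io u u ^ m * ((w : SL u) * z -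
        aeval (io u v) a * bs F.natDegree (io u r) y n) +
        io u u ^ m * (aeval (io u v) a * bs F.natDegree (io u r) y n) =
        io u u ^ m * (w : SL u) * z := by ring
      rw [h6, hw, pow_add, pow_mul]
      linear_combination (-(io u u ^ m * (io u u ^ e) ^ n * z)) * ht
    rw [h5]
    exact mul_mem htm (add_mem hm (mul_mem (pow_mem hum _) h4))

end Pool.Agent.LNDQ
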