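import Mathlib
import Pool.Agent.LNDT.ST3
import Pool.Agent.LNDF.JacC

set_option autoImplicit false

open Polynomial

/-!
# The vertical constants are polynomials in a vertical prime
-/

namespace Pool.Agent.LNDQ

open Pool.Agent.LNDHom Pool.Agent.LNDT Pool.Agent.LNDF

section rel

variable {k B F : Type} [Field k] [CharZero k] [CommRing B] [IsDomain B] [Algebra k B]
  {D : Derivation k B B} [Field F] [CharZero F] [Algebra (kerAlg D) F]
  [IsFractionRing (kerAlg D) F] {δ : Derivation ℤ F F} {θ : F} {d : ℕ} {I : ℤ → AddSubgroup F}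
  {N : ℕ} {h : F} {c : kerAlg D}

/-- Two vertical constants, one of them prime, are algebraically dependent (as in
`LNDT.vertical_coprime`). -/
theorem exists_rel (H : IData D c N δ θ d I h) {f g : B}
    (hker : ∀ b, D b = 0 ↔ b ∈ Algebra.adjoin k {f, g})
    {u y : kerAlg D} (hu : Prime (u : B)) (hδu : δ (algebraMap (kerAlg D) F u) = 0)
    (hδy : δ (algebraMap (kerAlg D) F y) = 0) : ∃ R : k[X], R ≠ 0 ∧ u ∣ aeval y R := by
  have hinj := IsFractionRing.injective (kerAlg D) F
  have hu' : Prime u := prime_ker H.lnd hu
  by_contra hcon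
  push Not at hcon
  have hy : Transcendental k y := by
    rintro ⟨R, hR, h0⟩
    exact hcon R hR (by rw [h0]; exact dvd_zero u)
  have hyi : AlgebraicIndependent k (fun _ : Unit => y) :=
    algebraicIndependent_unique_type_iff.2 hy
  have hmem : ∀ s ∈ Algebra.adjoin k (Set.range fun _ : Unit => y), ∃ R : k[X],
      aeval y R = s := by
    intro s hs
    rw [Set.range_const, Algebra.adjoin_singleton_eq_range_aeval] at hs
    exact hs
  have hut : Transcendental (Algebra.adjoin k (Set.range fun _ : Unit => y)) u := by
    have hmain : ∀ q : (Algebra.adjoin k (Set.range fun _ : Unit => y))[X], q.coeff 0 ≠ 0 →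
        aeval u q = 0 → False := by
      intro q hq0 hq
      rw [← divX_mul_X_add q, map_add, map_mul, aeval_X, aeval_C] at hq
      have h1 : u ∣ ((q.coeff 0 : Algebra.adjoin k (Set.range fun _ : Unit => y)) :
          kerAlg D) := by
        refine ⟨-(aeval u q.divX), ?_⟩
        have h2 : ((q.coeff 0 : Algebra.adjoin k (Set.range fun _ : Unit => y)) : kerAlg D) =
            -(aeval u q.divX * u) := by
          rw [eq_neg_iff_add_eq_zero, add_comm]
          exact hq
        rw [h2]
        ring
      obtain ⟨R, hR⟩ := hmem _ (q.coeff 0).2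
      refine hcon R ?_ ?_
      · rintro rfl
        apply hq0
        apply Subtype.ext
        rw [← hR]
        exact map_zero _
      · have h3 : aeval y R = ((q.coeff 0 : Algebra.adjoin k (Set.range fun _ : Unit => y)) :
          kerAlg D) := hR
        rw [h3]
        exact h1
    have key : ∀ n : ℕ, ∀ q : (Algebra.adjoin k (Set.range fun _ : Unit => y))[X], q ≠ 0 →
        q.natDegree ≤ n → aeval u q = 0 → False := by
      intro n
      induction n with
      | zero =>
        intro q hq0 hqd hq
        refine hmain q ?_ hq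
        intro h0
        apply hq0
        rw [eq_C_of_natDegree_eq_zero (by omega : q.natDegree = 0), h0, C_0]
      | succ n ih =>
        intro q hq0 hqd hq
        by_cases h0 : q.coeff 0 = 0
        · have h1 : q = q.divX * X := by
            conv_lhs => rw [← divX_mul_X_add q, h0, C_0, add_zero]
          have h2 : q.divX ≠ 0 := by
            intro h
            rw [h, zero_mul] at h1
            exact hq0 h1
          refine ih q.divX h2 ?_ ?_
          · rw [natDegree_divX_eq_natDegree_tsub_one]
            omega
          · rw [h1, map_mul, aeval_X] at hq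
            exact (mul_eq_zero.1 hq).resolve_right hu'.ne_zero
        · exact hmain q h0 hq
    rintro ⟨q, hq0, hq⟩
    exact key _ q hq0 le_rfl hq
  have hxi := (hyi.option_iff_transcendental u).2 hut
  obtain ⟨f', g', hfg⟩ := ker_gens hker
  have halg := alg_of_indep hfg hxi
  obtain ⟨a, ha⟩ := delta_ne H
  apply ha
  refine delta_alg hinj δ _ ?_ a (halg.isAlgebraic a)
  intro s hs
  induction hs using Algebra.adjoin_induction with
  | mem x hx =>
    obtain ⟨o, rfl⟩ := hx
    cases o with
    | none => exact hδu
    | some o => exact hδy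
  | algebraMap r => exact H.base r
  | add x y _ _ hx hy => rw [map_add, map_add, hx, hy, add_zero]
  | mul x y _ _ hx hy =>
    rw [map_mul, Derivation.leibniz, hx, hy, smul_zero, smul_zero, add_zero]

end rel

variable {k F : Type} [Field k] [CharZero k] [IsAlgClosed k] {D : Derivation k (B3 k) (B3 k)}
  [Field F] [CharZero F] [Algebra (kerAlg D) F] [IsFractionRing (kerAlg D) F]
  {δ : Derivation ℤ F F} {θ : F} {d : ℕ} {I : ℤ → AddSubgroup F} {N : ℕ} {h : F} {c : kerAlg D}

omit [CharZero k] [IsAlgClosed k] in
/-- A prime has positive degree. -/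
theorem totalDegree_pos {p : B3 k} (hp : Prime p) : 0 < p.totalDegree := by
  by_contra h0
  have h1 : p.totalDegree = 0 := by omega
  rw [MvPolynomial.totalDegree_eq_zero_iff_eq_C] at h1
  have h2 : p.coeff 0 ≠ 0 := by
    intro h3
    rw [h3, map_zero] at h1
    exact hp.ne_zero h1
  apply hp.not_isUnit
  rw [h1]
  exact (isUnit_iff_ne_zero.2 h2).map MvPolynomial.C

/-- The vertical constants are the polynomials in a vertical prime. -/
theorem vert_poly (H : IData D c N δ θ d I h) {f g : B3 k}
    (hker : ∀ b, D b = 0 ↔ b ∈ Algebra.adjoin k {f, g})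
    {u : kerAlg D} (hu : Prime (u : B3 k)) (hδu : δ (algebraMap (kerAlg D) F u) = 0) :
    ∀ (n : ℕ) (y : kerAlg D), (y : B3 k).totalDegree ≤ n → δ (algebraMap (kerAlg D) F y) = 0 →
      ∃ P : k[X], aeval u P = y := by
  have hinj := IsFractionRing.injective (kerAlg D) F
  intro n
  induction n using Nat.strong_induction_on with
  | _ n ih =>
    intro y hyn hδy
    obtain ⟨R, hR0, hR⟩ := exists_rel H hker hu hδu hδy
    have h1 : (u : B3 k) ∣ aeval (y : B3 k) R := by
      have h2 := (dvd_ker H.lnd).2 hR
      have h3 : ((aeval y R : kerAlg D) : B3 k) = aeval (y : B3 k) R :=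
        (Polynomial.aeval_algHom_apply (kerAlg D).val y R).symm
      rwa [h3] at h2
    obtain ⟨α, z, hz⟩ := dvd_sub_of_dvd_aeval hu hR0 h1
    set y' : kerAlg D := y - algebraMap k (kerAlg D) α with hy'
    have hy'B : (y' : B3 k) = u * z := hz
    have hδy' : δ (algebraMap (kerAlg D) F y') = 0 := by
      rw [hy', map_sub, map_sub, hδy, H.base, sub_zero]
    by_cases h0 : y' = 0
    · refine ⟨C α, ?_⟩
      rw [aeval_C]
      exact (sub_eq_zero.1 h0).symm
    have hy0B : (y' : B3 k) ≠ 0 := fun h => h0 (Subtype.ext h)
    have hz0 : z ≠ 0 := by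
      rintro rfl
      rw [mul_zero] at hy'B
      exact hy0B hy'B
    have hDz : D z = 0 := const_of_dvd D H.lnd ((mem_kerAlg D _).1 y'.2) hy0B
      ⟨(u : B3 k), by rw [hy'B, mul_comm]⟩
    set z' : kerAlg D := ⟨z, (mem_kerAlg D z).2 hDz⟩ with hz'
    have hyz : y' = u * z' := Subtype.ext hy'B
    have hδz : δ (algebraMap (kerAlg D) F z') = 0 := by
      have h2 := hδy'
      rw [hyz, map_mul, Derivation.leibniz, hδu, smul_zero, add_zero, smul_eq_mul] at h2
      refine (mul_eq_zero.1 h2).resolve_left fun h3 => ?_
      exact hu.ne_zero (congrArg Subtype.val (hinj (h3.trans (map_zero _).symm) : u = 0))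
    have hdeg : (z : B3 k).totalDegree < n := by
      have h2 : (y' : B3 k).totalDegree = (u : B3 k).totalDegree + z.totalDegree := by
        rw [hy'B]
        exact MvPolynomial.totalDegree_mul_of_isDomain hu.ne_zero hz0
      have h3 := totalDegree_pos hu
      have h4 : (y' : B3 k).totalDegree ≤ (y : B3 k).totalDegree := by
        have h5 := MvPolynomial.totalDegree_sub (y : B3 k) (MvPolynomial.C α)
        rw [MvPolynomial.totalDegree_C, max_eq_left (Nat.zero_le _)] at h5
        exact h5
      omega
    obtain ⟨P, hP⟩ := ih _ hdeg z' le_rfl hδz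
    refine ⟨X * P + C α, ?_⟩
    rw [map_add, map_mul, aeval_X, hP, aeval_C, ← hyz, hy']
    ring

end Pool.Agent.LNDQ
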