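import Mathlib
import Pool.Agent.LNDT.Slice

set_option autoImplicit false

open Polynomial

namespace Pool.Agent.LNDT

variable {K : Type} [Field K] [CharZero K] {δ : Derivation ℤ K K} {θ : K} {d : ℕ}
  {I : ℤ → AddSubgroup K} {N : ℕ} {h c : K}

/-- THE SLICE THEOREM, see doc H/821812_TSTAR, 1.5. `b'` the least positive degree of a nonzero constant, `w`
such a constant, `Y = w^(-σ) s^b'`. -/
theorem GrData.main2 (H : GrData δ θ d I N h c) : ∃ Y ∈ I 0,
    (∀ a ∈ I 0, ∃ P : K[X], (∀ i, P.coeff i ∈ Kap δ I) ∧ P.eval Y = a) ∧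
    (∀ P : K[X], (∀ i, P.coeff i ∈ Kap δ I) → P.eval Y = 0 → P = 0) ∧
    (∀ (n : ℕ) (x : K), x ∈ I n → ∃ a ∈ I 0, ∃ (i : ℕ) (μ : K), μ ∈ Kap δ I ∧ μ ≠ 0 ∧
      a * c ^ n = μ * x * Y ^ i) ∧
    ∀ z ∈ I (-1), z ≠ 0 → (∀ x ∈ I (-1), ∃ a ∈ I 0, x = a * z) →
      ∃ μ ∈ Kap δ I, μ ≠ 0 ∧ (c * z = μ ∨ c * z = μ * Y) := by
  classical
  obtain ⟨σ, s, hs, hs1, hs2⟩ := H.exists_slice
  have hs0 : s ≠ 0 := by
    rintro rfl
    exact hs1 (sl_Dl_zero _)
  -- the group of degrees of homogeneous constants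
  let Dg : AddSubgroup ℤ :=
    { carrier := {n | ∃ x, x ≠ 0 ∧ Zc δ θ I n x}
      zero_mem' := ⟨1, one_ne_zero, Zc.one H⟩
      add_mem' := by
        rintro a b ⟨x, hx0, hx⟩ ⟨y, hy0, hy⟩
        exact ⟨x * y, mul_ne_zero hx0 hy0, hx.mul H hy⟩
      neg_mem' := by
        rintro a ⟨x, hx0, hx⟩
        exact ⟨x⁻¹, inv_ne_zero hx0, hx.inv H hx0⟩ }
  have hDg : ∀ n, n ∈ Dg ↔ ∃ x, x ≠ 0 ∧ Zc δ θ I n x := fun n => Iff.rfl
  obtain ⟨b0, hb0⟩ := Int.subgroup_cyclic Dg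
  have hdvd0 : ∀ n, n ∈ Dg ↔ b0 ∣ n := by
    intro n
    rw [hb0, AddSubgroup.mem_closure_singleton]
    constructor
    · rintro ⟨k, rfl⟩
      exact ⟨k, by rw [smul_eq_mul, mul_comm]⟩
    · rintro ⟨k, rfl⟩
      exact ⟨k, by rw [smul_eq_mul, mul_comm]⟩
  have hNmem : (N : ℤ) ∈ Dg := (hDg _).mpr ⟨h, H.h_ne, H.h_mem, H.h_const⟩
  have hb00 : b0 ≠ 0 := by
    rintro rfl
    have := (hdvd0 _).mp hNmem
    rw [zero_dvd_iff] at this
    have := H.N_pos
    omega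
  obtain ⟨b, hb, hbd⟩ : ∃ b : ℕ, 0 < b ∧ ∀ n, n ∈ Dg ↔ (b : ℤ) ∣ n :=
    ⟨b0.natAbs, Int.natAbs_pos.mpr hb00, fun n => by rw [hdvd0, Int.natAbs_dvd]⟩
  have hbz : (b : ℤ) ≠ 0 := by exact_mod_cast hb.ne'
  obtain ⟨w, hw0, hw⟩ := (hDg _).mp ((hbd b).mpr dvd_rfl)
  -- `b` and `σ` are coprime
  have hcop : IsCoprime (b : ℤ) σ := by
    obtain ⟨P, hP, hPe⟩ := H.expand hs hs1 hs2 H.c_mem
    have hPne : P ≠ 0 := by
      rintro rfl
      rw [eval_zero] at hPe
      exact H.c_ne hPe.symm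
    have h1 : (1 - (P.natDegree : ℤ) * σ) ∈ Dg :=
      (hDg _).mpr ⟨P.coeff P.natDegree, leadingCoeff_ne_zero.mpr hPne, hP _⟩
    obtain ⟨q, hq⟩ := (hbd _).mp h1
    exact ⟨q, P.natDegree, by linarith⟩
  -- the basis elements `w ^ i * s ^ j`
  have claimC : ∀ (n i : ℤ) (j : ℕ), j < b → n - j * σ = b * i → ∀ x ∈ I n,
      x / (w ^ i * s ^ j) ∈ I 0 := by
    intro n i j hj hi x hx
    obtain ⟨P, hP, rfl⟩ := H.expand hs hs1 hs2 hx
    rw [eval_eq_sum_range, Finset.sum_div]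
    refine (I 0).sum_mem fun l _ => ?_
    by_cases hl : P.coeff l = 0
    · rw [hl, zero_mul, zero_div]; exact (I 0).zero_mem
    · have h1 : (b : ℤ) ∣ n - l * σ := (hbd _).mp ((hDg _).mpr ⟨_, hl, hP l⟩)
      have h2 : (b : ℤ) ∣ ((l : ℤ) - j) * σ := by
        have : ((l : ℤ) - j) * σ = b * i - (n - l * σ) := by rw [← hi]; ring
        rw [this]
        exact dvd_sub (dvd_mul_right _ _) h1
      have h3 : (b : ℤ) ∣ (l : ℤ) - j := hcop.dvd_of_dvd_mul_right h2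
      obtain ⟨t, ht⟩ := h3
      have ht0 : 0 ≤ t := by
        by_contra hlt
        have : t ≤ -1 := by omega
        nlinarith
      obtain ⟨t', rfl⟩ := Int.eq_ofNat_of_zero_le ht0
      have hl2 : l = j + b * t' := by
        have : (l : ℤ) = j + b * t' := by linarith
        exact_mod_cast this
      have e : P.coeff l * s ^ l / (w ^ i * s ^ j) = P.coeff l * s ^ (b * t') * w ^ (-i) := by
        rw [zpow_neg, hl2, pow_add]
        have := zpow_ne_zero i hw0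
        field_simp
      rw [e]
      refine sl_mem_of_eq (H.mul_mem _ _ _ _ (H.mul_mem _ _ _ _ (hP l).1 (sl_pow_mem H hs _))
        (Zc.zpow H hw hw0 (-i)).1) ?_
      rw [hl2] at *
      push_cast
      linarith
  -- the coordinate
  set Y : K := w ^ (-σ) * s ^ b with hY
  have hsb : s ^ b = w ^ σ * Y := by
    rw [hY, ← mul_assoc, ← zpow_add₀ hw0, add_neg_cancel, zpow_zero, one_mul]
  have hYmem : Y ∈ I 0 :=
    sl_mem_of_eq (H.mul_mem _ _ _ _ (Zc.zpow H hw hw0 (-σ)).1 (sl_pow_mem H hs b)) (by ring)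
  refine ⟨Y, hYmem, ?_, ?_, ?_⟩
  · -- generation
    intro a ha
    obtain ⟨P, hP, hPe⟩ := H.expand hs hs1 hs2 ha
    have hexp : Polynomial.expand K b (contract b P) = P := by
      ext l
      rw [coeff_expand hb]
      split_ifs with hdv
      · rw [coeff_contract hb.ne', Nat.div_mul_cancel hdv]
      · by_contra hne
        have h1 : (b : ℤ) ∣ 0 - l * σ := (hbd _).mp ((hDg _).mpr ⟨_, Ne.symm hne, hP l⟩)
        rw [zero_sub, dvd_neg] at h1
        exact hdv (Int.natCast_dvd_natCast.mp (hcop.dvd_of_dvd_mul_right h1))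
    refine ⟨(contract b P).comp (C (w ^ σ) * X), fun i => ?_, ?_⟩
    · rw [comp_C_mul_X_coeff, coeff_contract hb.ne']
      have := (show Zc δ θ I _ _ from hP (i * b)).mul H ((Zc.zpow H hw hw0 σ).pow H i)
      have h2 := zc_of_eq this (m := 0) (by push_cast; ring)
      exact ⟨h2.1, by simpa [Dl] using h2.2⟩
    · rw [eval_comp, eval_mul, eval_C, eval_X, ← hsb, ← expand_eval, hexp, hPe]
  · -- uniqueness
    intro P hP hPe
    have h1 : Polynomial.expand K b (P.comp (C (w ^ (-σ)) * X)) = 0 := by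
      refine H.expand_unique hs hs1 hs2 (n := 0) _ (fun l => ?_) ?_
      · rw [coeff_expand hb]
        split_ifs with hdv
        · obtain ⟨i, rfl⟩ := hdv
          rw [Nat.mul_div_cancel_left _ hb, comp_C_mul_X_coeff]
          have h0 : Zc δ θ I 0 (P.coeff i) := ⟨(hP i).1, by simpa [Dl] using (hP i).2⟩
          exact zc_of_eq (h0.mul H ((Zc.zpow H hw hw0 (-σ)).pow H i)) (by push_cast; ring)
        · exact Zc.zero _
      · rw [expand_eval, eval_comp, eval_mul, eval_C, eval_X]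
        exact hPe
    ext i
    have h2 : (Polynomial.expand K b (P.comp (C (w ^ (-σ)) * X))).coeff (i * b) = 0 := by
      rw [h1, coeff_zero]
    rw [coeff_expand_mul hb, comp_C_mul_X_coeff] at h2
    rcases mul_eq_zero.mp h2 with h3 | h3
    · rw [h3, coeff_zero]
    · exact absurd h3 (pow_ne_zero _ (zpow_ne_zero _ hw0))
  · -- the relation with `c ^ n`
    -- representatives
    have hrep : ∀ n : ℤ, ∃ (j : ℕ) (i : ℤ), j < b ∧ n - j * σ = b * i := by
      intro n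
      obtain ⟨u, v, huv⟩ := hcop
      have h1 : 0 ≤ (v * n) % b := Int.emod_nonneg _ hbz
      have h2 : (v * n) % b < b := Int.emod_lt_of_pos _ (by exact_mod_cast hb)
      obtain ⟨j, hj⟩ := Int.eq_ofNat_of_zero_le h1
      refine ⟨j, u * n + σ * ((v * n) / b), ?_, ?_⟩
      · rw [hj] at h2; exact_mod_cast h2
      · have h3 := Int.emod_add_mul_ediv (v * n) b
        rw [hj] at h3
        have h4 : (j : ℤ) = v * n - b * ((v * n) / b) := by
          have : ((j : ℕ) : ℤ) = (Int.ofNat j) := rfl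
          linarith
        rw [h4]
        have : n = (u * b + v * σ) * n := by rw [huv, one_mul]
        linear_combination this
    obtain ⟨j1, i1, hj1, hi1⟩ := hrep 1
    have hg1 : w ^ i1 * s ^ j1 ∈ I 1 :=
      sl_mem_of_eq (H.mul_mem _ _ _ _ (Zc.zpow H hw hw0 i1).1 (sl_pow_mem H hs j1))
        (by linarith)
    have hg10 : w ^ i1 * s ^ j1 ≠ 0 := mul_ne_zero (zpow_ne_zero _ hw0) (pow_ne_zero _ hs0)
    obtain ⟨μ, hμ⟩ : ∃ μ, μ = c / (w ^ i1 * s ^ j1) := ⟨_, rfl⟩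
    have hμ0 : μ ≠ 0 := by rw [hμ]; exact div_ne_zero H.c_ne hg10
    have hμm : μ ∈ I 0 := by rw [hμ]; exact claimC 1 i1 j1 hj1 hi1 c H.c_mem
    obtain ⟨a', ha', hga⟩ := H.c_gen _ hg1
    have hμa : μ * a' = 1 := by
      have h1 : a' = (w ^ i1 * s ^ j1) / c := by
        rw [hga]; field_simp [H.c_ne]
      rw [h1, hμ]
      field_simp [H.c_ne, hg10]
    have hμd : δ μ = 0 := sl_unit H hμm ha' hμa
    have hcμ : c = μ * (w ^ i1 * s ^ j1) := by rw [hμ, div_mul_cancel₀ _ hg10]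
    refine ⟨?_, ?_⟩
    swap
    · intro z hz hz0 hzg
      obtain ⟨j2, i2, hj2, hi2⟩ := hrep (-1)
      have hg2 : w ^ i2 * s ^ j2 ∈ I (-1) :=
        sl_mem_of_eq (H.mul_mem _ _ _ _ (Zc.zpow H hw hw0 i2).1 (sl_pow_mem H hs j2))
          (by linarith)
      have hg20 : w ^ i2 * s ^ j2 ≠ 0 := mul_ne_zero (zpow_ne_zero _ hw0) (pow_ne_zero _ hs0)
      obtain ⟨ν, hν⟩ : ∃ ν, ν = z / (w ^ i2 * s ^ j2) := ⟨_, rfl⟩
      have hν0 : ν ≠ 0 := by rw [hν]; exact div_ne_zero hz0 hg20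
      have hνm : ν ∈ I 0 := by rw [hν]; exact claimC (-1) i2 j2 hj2 hi2 z hz
      obtain ⟨a2, ha2, hga2⟩ := hzg _ hg2
      have hνa : ν * a2 = 1 := by
        have h1 : a2 = (w ^ i2 * s ^ j2) / z := by
          rw [hga2]; field_simp [hz0]
        rw [h1, hν]
        field_simp [hz0, hg20]
      have hνd : δ ν = 0 := sl_unit H hνm ha2 hνa
      have hzν : z = ν * (w ^ i2 * s ^ j2) := by rw [hν, div_mul_cancel₀ _ hg20]
      have hZ : Zc δ θ I 0 μ := ⟨hμm, by simp [Dl, hμd]⟩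
      have hZ' : Zc δ θ I 0 ν := ⟨hνm, by simp [Dl, hνd]⟩
      have hZZ := zc_of_eq (hZ.mul H hZ') (m := 0) (by ring)
      have hdv : (b : ℤ) ∣ ((j1 + j2 : ℕ) : ℤ) * σ := by
        refine ⟨-(i1 + i2), ?_⟩
        push_cast
        linear_combination (-1 : ℤ) * hi1 - hi2
      have hdv2 : (b : ℤ) ∣ ((j1 + j2 : ℕ) : ℤ) := hcop.dvd_of_dvd_mul_right hdv
      have hdv3 : b ∣ j1 + j2 := Int.natCast_dvd_natCast.mp hdv2
      have hcz : c * z = μ * ν * (w ^ (i1 + i2) * s ^ (j1 + j2)) := by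
        rw [hcμ, hzν, zpow_add₀ hw0, pow_add]; ring
      refine ⟨μ * ν, ⟨hZZ.1, by simpa [Dl] using hZZ.2⟩, mul_ne_zero hμ0 hν0, ?_⟩
      obtain ⟨t, ht⟩ := hdv3
      have ht2 : t = 0 ∨ t = 1 := by
        have h5 : b * t < b * 2 := by omega
        have h6 : t < 2 := Nat.lt_of_mul_lt_mul_left h5
        omega
      rcases ht2 with rfl | rfl
      · left
        have e1 : j1 = 0 := by omega
        have e2 : j2 = 0 := by omega
        subst e1 e2
        have e3 : i1 + i2 = 0 := by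
          refine mul_left_cancel₀ hbz ?_
          rw [mul_zero]
          linear_combination (-1 : ℤ) * hi1 - hi2
        rw [hcz, e3]
        simp
      · right
        have e3 : i1 + i2 = -σ := by
          have h7 : (j1 : ℤ) + j2 = b := by
            have : ((j1 + j2 : ℕ) : ℤ) = ((b * 1 : ℕ) : ℤ) := by rw [ht]
            push_cast at this
            linarith
          refine mul_left_cancel₀ hbz ?_
          linear_combination (-1 : ℤ) * hi1 - hi2 - σ * h7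
        rw [hcz, e3, ht, mul_one, hY]
    intro n x hx
    obtain ⟨j, i, hj, hi⟩ := hrep n
    have hg0 : w ^ i * s ^ j ≠ 0 := mul_ne_zero (zpow_ne_zero _ hw0) (pow_ne_zero _ hs0)
    -- `j1 * n = j + b * t`
    obtain ⟨t, ht⟩ : ∃ t : ℕ, j1 * n = j + b * t := by
      have h2 : (b : ℤ) ∣ ((j1 * n : ℤ) - j) * σ := by
        refine ⟨i - i1 * n, ?_⟩
        linear_combination hi - (n : ℤ) * hi1
      obtain ⟨t, ht⟩ := hcop.dvd_of_dvd_mul_right h2
      have ht0 : 0 ≤ t := by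
        by_contra hlt
        have h5 : t ≤ -1 := by omega
        have h6 : (0 : ℤ) ≤ j1 * n := by positivity
        nlinarith
      obtain ⟨t', rfl⟩ := Int.eq_ofNat_of_zero_le ht0
      refine ⟨t', ?_⟩
      have : ((j1 * n : ℕ) : ℤ) = ((j + b * t' : ℕ) : ℤ) := by
        push_cast
        linarith
      exact_mod_cast this
    have hkey : (w ^ i1 * s ^ j1) ^ n = (w ^ i * s ^ j) * Y ^ t := by
      have e1 : i = i1 * n + σ * t := by
        have h7 : (j1 : ℤ) * n = j + b * t := by exact_mod_cast ht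
        refine mul_left_cancel₀ hbz ?_
        linear_combination (n : ℤ) * hi1 - hi + σ * h7
      rw [mul_pow, ← zpow_natCast, ← zpow_mul, ← pow_mul, ht, e1, zpow_add₀ hw0, hY, mul_pow,
        ← zpow_natCast (w ^ (-σ)), ← zpow_mul, ← pow_mul, pow_add]
      have e2 : w ^ (σ * (t : ℤ)) * w ^ (-σ * (t : ℤ)) = 1 := by
        rw [← zpow_add₀ hw0]
        have : σ * (t : ℤ) + -σ * (t : ℤ) = 0 := by ring
        rw [this, zpow_zero]
      linear_combination (-(w ^ (i1 * (n : ℤ)) * s ^ j * s ^ (b * t))) * e2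
    refine ⟨x / (w ^ i * s ^ j), claimC n i j hj hi x hx, t, μ ^ n, ?_, pow_ne_zero _ hμ0, ?_⟩
    · have h1 : Zc δ θ I 0 μ := ⟨hμm, by simp [Dl, hμd]⟩
      have h2 := zc_of_eq (h1.pow H n) (m := 0) (by ring)
      exact ⟨h2.1, by simpa [Dl] using h2.2⟩
    · calc x / (w ^ i * s ^ j) * c ^ n = x / (w ^ i * s ^ j) * (μ ^ n * ((w ^ i * s ^ j) * Y ^ t)) := by
            rw [hcμ, mul_pow μ, hkey]
        _ = (x / (w ^ i * s ^ j) * (w ^ i * s ^ j)) * (μ ^ n * Y ^ t) := by ring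
        _ = μ ^ n * x * Y ^ t := by rw [div_mul_cancel₀ _ hg0]; ring

end Pool.Agent.LNDT
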