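import Mathlib
import Pool.Agent.LNDT.Icl

set_option autoImplicit false

open Polynomial

namespace Pool.Agent.LNDT

open Pool.Agent.LNDHom

open Ic in
/-- THE GRADED DATA (doc H/821812_TSTAR, 1.1, 1.3, 1.4). -/
theorem icl2 {k B F : Type} [Field k] [CharZero k] [CommRing B] [IsDomain B] [Algebra k B]
    {D E : Derivation k B B} [Field F] [Algebra (kerAlg D) F] [IsFractionRing (kerAlg D) F]
    {r : B} {c : kerAlg D} {N : ℕ} {G : B} (H : Setup D E r c N G)
    (hup : ∀ z, (⇑D)^[N] z = 0 → ld D N G ∣ ld D (N - 1) z)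
    (hz1 : ∃ z, (⇑D)^[N] z = 0 ∧ ld D (N - 1) z = ld D N G) :
    ∃ (δ : Derivation ℤ F F) (θ : F) (d : ℕ) (I : ℤ → AddSubgroup F) (h : F),
      IData D c N δ θ d I h ∧ (1 : F) ∈ I (-1) ∧ ∀ x ∈ I (-1), x ∈ I 0 := by
  classical
  have hcz : CharZero F := by
    have h1 : Function.Injective (algebraMap (kerAlg D) F) := IsFractionRing.injective _ _
    have h2 : CharZero (kerAlg D) := by
      refine ⟨fun m n hmn => ?_⟩
      have h3 := congrArg (Subtype.val) hmn
      push_cast at h3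
      have h4 : algebraMap k B m = algebraMap k B n := by
        rw [map_natCast, map_natCast]; exact h3
      exact_mod_cast (algebraMap k B).injective h4
    refine ⟨fun m n hmn => ?_⟩
    have h3 : algebraMap (kerAlg D) F m = algebraMap (kerAlg D) F n := by
      rw [map_natCast, map_natCast]; exact hmn
    exact_mod_cast h1 h3
  set d := Nat.find H.bd with hd_def
  have hbd : BdE D E d := Nat.find_spec H.bd
  have hmin : ∀ d' < d, ¬ BdE D E d' := fun d' hd' => Nat.find_min H.bd hd'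
  obtain ⟨δ, θ, C, hδ⟩ := exists_cx (F := F) hbd H.lndE H.hr H.c_ne
  obtain ⟨g0, hg0⟩ : ∃ g0 : kerAlg D, (g0 : B) = ld D N G := ⟨⟨_, D_ld H.G_top⟩, rfl⟩
  have hg0ne : g0 ≠ 0 := by
    intro h0
    have h1 : ld D N G = 0 := by rw [← hg0, h0]; rfl
    simp only [ld] at h1
    rw [smul_eq_zero] at h1
    rcases h1 with h1 | h1
    · exact (inv_ne_zero (Nat.cast_ne_zero.2 N.factorial_ne_zero)) h1
    · exact H.G_ne h1
  obtain ⟨h, hh⟩ : ∃ h : F, h = algebraMap (kerAlg D) F g0 := ⟨_, rfl⟩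
  have hne : h ≠ 0 := h_ne hh hg0ne
  -- `h` is a constant
  have hconst : Dl δ θ N h = 0 := by
    have hE1 := C.bd N G H.G_top
    obtain ⟨b, hb⟩ : ∃ b : kerAlg D, (b : B) = ld D (N + d) (E G) := ⟨⟨_, D_ld hE1⟩, rfl⟩
    have h1 := C.phi N G g0 b H.G_top hg0 hb
    have hE2 : (⇑D)^[d + N + 1] (E G) = 0 := by rw [add_comm d N]; exact hE1
    obtain ⟨y, hy, h2⟩ := H.free d (E G) hE2
    obtain ⟨a', ha'⟩ : ∃ a' : kerAlg D, (a' : B) = ld D d y := ⟨⟨_, D_ld hy⟩, rfl⟩
    have h3 : b = g0 * a' := by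
      apply Subtype.ext
      rw [hb, add_comm N d, h2, MulMemClass.coe_mul, hg0, ha']
    rw [← hh, h3, map_mul, ← hh] at h1
    have h4 : algebraMap (kerAlg D) F a' = 0 := by
      refine no_eigen (δ := δ) (θ := θ) (d := d) (n := N) hne ?_ ?_ h1
      · rw [hh]; exact C.nil N G g0 H.G_top hg0
      · exact C.nil d y a' hy ha'
    rw [h1, h4, mul_zero]
  -- `δ` is not zero on the kernel
  have hact : ∃ a : kerAlg D, δ (algebraMap (kerAlg D) F a) ≠ 0 := by
    by_contra hcon
    push Not at hcon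
    have hzero : ∀ x : F, δ x = 0 := by
      intro x
      obtain ⟨a, b, hb, rfl⟩ := IsFractionRing.div_surjective (A := kerAlg D) x
      have hb0 : algebraMap (kerAlg D) F b ≠ 0 := i_ne (nonZeroDivisors.ne_zero hb)
      have h1 : δ (algebraMap (kerAlg D) F a / algebraMap (kerAlg D) F b *
          algebraMap (kerAlg D) F b) = 0 := by
        rw [div_mul_cancel₀ _ hb0]; exact hcon a
      rw [Derivation.leibniz, hcon b, smul_zero, zero_add, smul_eq_mul] at h1
      exact (mul_eq_zero.1 h1).resolve_left hb0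
    have hDl : ∀ (n : ℤ) (x : F), Dl δ θ n x = n * θ * x := by
      intro n x
      simp only [Dl, hzero, zero_add]
    have hIt : ∀ (j : ℕ) (n : ℕ) (x : F), 0 < n → x ≠ 0 → θ ≠ 0 → It δ θ d j n x ≠ 0 := by
      intro j
      induction j with
      | zero => intro n x _ hx _; exact hx
      | succ j ih =>
        intro n x hn hx hθ
        show It δ θ d j ((n : ℤ) + d) (Dl δ θ n x) ≠ 0
        rw [hDl, show ((n : ℤ) + d) = ((n + d : ℕ) : ℤ) by push_cast; rfl]
        apply ih _ _ (by omega) _ hθ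
        refine mul_ne_zero (mul_ne_zero ?_ hθ) hx
        have : ((n : ℤ) : F) = (n : F) := by push_cast; rfl
        rw [this]
        exact Nat.cast_ne_zero.2 (by omega)
    have hθ : θ = 0 := by
      by_contra hθ
      have hr2 : (⇑D)^[1 + 1] r = 0 := by
        show D (D r) = 0
        rw [H.hr]; exact c.2
      have hc1 : (c : B) = ld D 1 r := by
        simp [ld, H.hr]
      obtain ⟨j, hj⟩ := C.nil 1 r c hr2 hc1
      exact hIt j 1 _ one_pos (i_ne H.c_ne) hθ hj
    have hall : ∀ (n : ℕ) (x : B), (⇑D)^[n + 1] x = 0 → (⇑D)^[n + d] (E x) = 0 := by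
      intro n x hx
      obtain ⟨a, ha⟩ : ∃ a : kerAlg D, (a : B) = ld D n x := ⟨⟨_, D_ld hx⟩, rfl⟩
      obtain ⟨b, hb⟩ : ∃ b : kerAlg D, (b : B) = ld D (n + d) (E x) :=
        ⟨⟨_, D_ld (C.bd n x hx)⟩, rfl⟩
      have h1 := C.phi n x a b hx ha hb
      rw [hDl, hθ, mul_zero, zero_mul] at h1
      have h2 : b = 0 := by
        by_contra hb0
        exact i_ne (F := F) hb0 h1.symm
      rw [h2] at hb
      have h3 : ld D (n + d) (E x) = 0 := by rw [← hb]; rfl
      simp only [ld] at h3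
      rw [smul_eq_zero] at h3
      exact h3.resolve_left (inv_ne_zero (Nat.cast_ne_zero.2 (Nat.factorial_ne_zero _)))
    rcases Nat.eq_zero_or_pos d with hd0 | hd0
    · obtain ⟨a, ha, hEa⟩ := H.act
      have h1 := hall 0 a ha
      rw [hd0] at h1
      exact hEa h1
    · apply hmin (d - 1) (by omega)
      intro n x hx
      have h1 := hall n x hx
      have e : n + (d - 1) + 1 = n + d := by omega
      rw [e]; exact h1
  -- the graded pieces
  let I : ℤ → AddSubgroup F := Is H.N_pos H.G_top hg0 hh δ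
  have hI : ∀ n x, x ∈ I n ↔ ∃ c1 j, Rp D δ N h n x c1 j := fun n x => Iff.rfl
  have hone : δ (algebraMap (kerAlg D) F 1) = 0 := by
    rw [map_one]; exact Derivation.map_one_eq_zero δ
  have hmem : ∀ (n : ℕ) (x : B) (a : kerAlg D), (⇑D)^[n + 1] x = 0 → (a : B) = ld D n x →
      algebraMap (kerAlg D) F a ∈ I n := by
    intro n x a hx ha
    refine ⟨1, 0, one_ne_zero, hone, n, x, a, by simp, hx, ha, ?_⟩
    rw [map_one, pow_zero, one_mul, one_mul]
  have hker : ∀ a : kerAlg D, algebraMap (kerAlg D) F a ∈ I 0 := by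
    intro a
    have := hmem 0 (a : B) a (show D (a : B) = 0 from a.2) (ld_zero_eq _).symm
    simpa using this
  have hzero : ∀ x, x ∈ I 0 ↔ ∃ a c1 : kerAlg D, c1 ≠ 0 ∧ δ (algebraMap (kerAlg D) F c1) = 0 ∧
      algebraMap (kerAlg D) F c1 * x = algebraMap (kerAlg D) F a := by
    intro x
    constructor
    · rintro ⟨c1, j, hc1, hd1, m, y, a, hm, hy, ha, hx⟩
      obtain rfl : m = 0 + j * N := by
        have : (m : ℤ) = ((0 + j * N : ℕ) : ℤ) := by rw [hm]; push_cast; rfl
        exact_mod_cast this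
      obtain ⟨z, hz, h1⟩ := free_pow H.free j 0 y hy
      refine ⟨⟨z, hz⟩, c1, hc1, hd1, ?_⟩
      have h2 : a = g0 ^ j * ⟨z, hz⟩ := by
        apply Subtype.ext
        rw [ha, h1, ld_zero_eq]
        push_cast
        rw [hg0]
      rw [h2, map_mul, map_pow, ← hh] at hx
      have h3 : h ^ j ≠ 0 := pow_ne_zero _ hne
      apply mul_left_cancel₀ h3
      rw [← hx]; ring
    · rintro ⟨a, c1, hc1, hd1, hx⟩
      refine ⟨c1, 0, hc1, hd1, 0, a, a, by simp, a.2, (ld_zero_eq _).symm, ?_⟩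
      rw [pow_zero, mul_one]; exact hx
  -- multiplication by a constant of degree `j N`
  have hDlh : ∀ (c1 : kerAlg D) (j : ℕ), δ (algebraMap (kerAlg D) F c1) = 0 →
      Dl δ θ (j * N) (algebraMap (kerAlg D) F c1 * h ^ j) = 0 := by
    intro c1 j hd1
    induction j with
    | zero =>
      simp [Dl, hd1]
    | succ j ih =>
      have e : (((j + 1 : ℕ) : ℤ) * N) = j * N + N := by push_cast; ring
      rw [e, pow_succ, ← mul_assoc, Dl_mul, ih, hconst, mul_zero, mul_zero, add_zero]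
  have hItc : ∀ (c1 : kerAlg D) (j : ℕ), δ (algebraMap (kerAlg D) F c1) = 0 →
      ∀ (i : ℕ) (n : ℤ) (x : F), It δ θ d i (j * N + n) (algebraMap (kerAlg D) F c1 * h ^ j * x) =
        algebraMap (kerAlg D) F c1 * h ^ j * It δ θ d i n x := by
    intro c1 j hd1 i
    induction i with
    | zero => intro n x; rfl
    | succ i ih =>
      intro n x
      simp only [It]
      rw [Dl_mul, hDlh c1 j hd1, mul_zero, add_zero, add_assoc, ih]
  refine ⟨δ, θ, d, I, h, ⟨?_, H.lnd, hzero, ?_, ?_⟩, ?_, ?_⟩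
  · refine ⟨?_, ?_, ?_, ?_, ?_, H.N_pos, ?_, hne, hconst, ?_, ?_, ?_, i_ne H.c_ne, ?_⟩
    · -- one_mem
      have := hker 1
      rwa [map_one] at this
    · -- mul_mem
      rintro n n' x x' ⟨c1, j, hc1, hd1, m, y, a, hm, hy, ha, hx⟩
        ⟨c1', j', hc1', hd1', m', y', a', hm', hy', ha', hx'⟩
      obtain ⟨h1, h2⟩ := ld_mul hy hy'
      refine ⟨c1 * c1', j + j', mul_ne_zero hc1 hc1', by rw [map_mul]; exact del_mul hd1 hd1',
        m + m', y * y', a * a', ?_, h1, ?_, ?_⟩
      · push_cast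
        rw [hm, hm']; ring
      · rw [MulMemClass.coe_mul, ha, ha', h2]
      · rw [map_mul, map_mul, ← hx, ← hx']; ring
    · -- dl_mem
      rintro n x ⟨c1, j, hc1, hd1, m, y, a, hm, hy, ha, hx⟩
      have hy1 := C.bd m y hy
      obtain ⟨b, hb⟩ : ∃ b : kerAlg D, (b : B) = ld D (m + d) (E y) := ⟨⟨_, D_ld hy1⟩, rfl⟩
      have h1 := C.phi m y a b hy ha hb
      rw [← hx, hm, add_comm n, Dl_mul, hDlh c1 j hd1, mul_zero, add_zero] at h1
      refine ⟨c1, j, hc1, hd1, m + d, E y, b, ?_, hy1, hb, h1⟩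
      push_cast
      rw [hm]; ring
    · -- nil
      rintro n x ⟨c1, j, hc1, hd1, m, y, a, hm, hy, ha, hx⟩
      obtain ⟨i, hi⟩ := C.nil m y a hy ha
      refine ⟨i, ?_⟩
      rw [← hx, hm, add_comm n, hItc c1 j hd1] at hi
      exact (mul_eq_zero.1 hi).resolve_left (mul_ne_zero (i_ne hc1) (pow_ne_zero _ hne))
    · -- inv0
      intro x hx hx0 hdx
      obtain ⟨a, c1, hc1, hd1, h1⟩ := (hzero x).1 hx
      have ha0 : a ≠ 0 := by
        intro h0
        rw [h0, map_zero] at h1
        exact (mul_ne_zero (i_ne hc1) hx0) h1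
      refine (hzero _).2 ⟨c1, a, ha0, ?_, ?_⟩
      · rw [← h1]; exact del_mul hd1 hdx
      · rw [← h1, mul_assoc, mul_inv_cancel₀ hx0, mul_one]
    · -- h_mem
      rw [hh]
      exact hmem N G g0 H.G_top hg0
    · -- h_inv
      refine ⟨1, 1, one_ne_zero, hone, 0, 1, 1, by simp, ?_, ?_, ?_⟩
      · show D 1 = 0
        exact Derivation.map_one_eq_zero D
      · rw [ld_zero_eq]; rfl
      · rw [map_one, pow_one, one_mul, mul_inv_cancel₀ hne]
    · -- act
      obtain ⟨a, ha⟩ := hact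
      exact ⟨_, hker a, ha⟩
    · -- c_mem
      have hr2 : (⇑D)^[1 + 1] r = 0 := by
        show D (D r) = 0
        rw [H.hr]; exact c.2
      have hc1 : (c : B) = ld D 1 r := by
        simp [ld, H.hr]
      have := hmem 1 r c hr2 hc1
      simpa using this
    · -- c_gen
      rintro x ⟨c1, j, hc1, hd1, m, y, a, hm, hy, ha, hx⟩
      obtain rfl : m = 1 + j * N := by
        have : (m : ℤ) = ((1 + j * N : ℕ) : ℤ) := by rw [hm]; push_cast; rfl
        exact_mod_cast this
      obtain ⟨z, hz, h1⟩ := free_pow H.free j 1 y hy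
      have hz1 : ld D 1 z = D z := by simp [ld]
      obtain ⟨b, hb⟩ := H.gen z hz
      have hDb : D b = 0 := by
        have h2 : D (D z) = 0 := hz
        rw [hb, Derivation.leibniz, show D (c : B) = 0 from c.2, smul_zero, add_zero,
          smul_eq_mul] at h2
        exact (mul_eq_zero.1 h2).resolve_left (fun h0 => H.c_ne (Subtype.ext h0))
      have h2 : a = g0 ^ j * (c * ⟨b, hDb⟩) := by
        apply Subtype.ext
        rw [ha, h1, hz1, hb]
        push_cast
        rw [hg0]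
      rw [h2, map_mul, map_pow, map_mul, ← hh] at hx
      refine ⟨algebraMap (kerAlg D) F ⟨b, hDb⟩ / algebraMap (kerAlg D) F c1, ?_, ?_⟩
      · refine (hzero _).2 ⟨⟨b, hDb⟩, c1, hc1, hd1, ?_⟩
        rw [mul_div_cancel₀ _ (i_ne hc1)]
      · have h3 : h ^ j ≠ 0 := pow_ne_zero _ hne
        have h4 := i_ne (F := F) hc1
        apply mul_left_cancel₀ (mul_ne_zero h4 h3)
        rw [hx]
        field_simp
  · intro n x hx hx1
    exact hmem n x ⟨ld D n x, hx⟩ hx1 rfl
  · intro a
    rw [hδ (algebraMap k (kerAlg D) a) 0, map_zero]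
    have h1 : E ((algebraMap k (kerAlg D) a : kerAlg D) : B) = 0 := by
      show E (algebraMap k B a) = 0
      exact Derivation.map_algebraMap E a
    rw [h1, ld_map_zero]; rfl
  · -- `1` lies in degree `-1`
    obtain ⟨z, hz, hzG⟩ := hz1
    have hNp := H.N_pos
    refine ⟨1, 1, one_ne_zero, hone, N - 1, z, g0, by omega, ?_, ?_, ?_⟩
    · rw [Nat.sub_add_cancel hNp]; exact hz
    · rw [hg0, hzG]
    · rw [map_one, pow_one, one_mul, mul_one, hh]
  · -- degree `-1` is not larger
    rintro x ⟨c1, j, hc1, hd1, m, y, a, hm, hy, ha, hx⟩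
    have hNp := H.N_pos
    obtain ⟨j, rfl⟩ : ∃ j', j = j' + 1 := by
      refine ⟨j - 1, ?_⟩
      rcases Nat.eq_zero_or_pos j with h0 | h0
      · exfalso
        rw [h0] at hm
        push_cast at hm
        omega
      · omega
    obtain rfl : m = (N - 1) + j * N := by
      have h5 : (m : ℤ) + 1 = (j + 1) * N := by rw [hm]; push_cast; ring
      have h6 : m + 1 = (j + 1) * N := by exact_mod_cast h5
      have h7 : (j + 1) * N = j * N + N := by ring
      omega
    obtain ⟨z, hz, h1⟩ := free_pow H.free j (N - 1) y hy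
    rw [Nat.sub_add_cancel hNp] at hz
    obtain ⟨b, hb⟩ := hup z hz
    have hGne : ld D N G ≠ 0 := by
      rw [← hg0]
      exact fun h0 => hg0ne (Subtype.ext h0)
    have hDb : D b = 0 := by
      have h2 : D (ld D (N - 1) z) = 0 := D_ld (by rw [Nat.sub_add_cancel hNp]; exact hz)
      rw [hb, Derivation.leibniz, show D (ld D N G) = 0 from D_ld H.G_top, smul_zero, add_zero,
        smul_eq_mul] at h2
      exact (mul_eq_zero.1 h2).resolve_left hGne
    have h2 : a = g0 ^ (j + 1) * ⟨b, hDb⟩ := by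
      apply Subtype.ext
      rw [ha, h1, hb]
      push_cast
      rw [hg0]
      ring
    rw [h2, map_mul, map_pow, ← hh] at hx
    refine (hzero _).2 ⟨⟨b, hDb⟩, c1, hc1, hd1, ?_⟩
    have h3 : h ^ (j + 1) ≠ 0 := pow_ne_zero _ hne
    apply mul_left_cancel₀ h3
    rw [← hx]; ring

end Pool.Agent.LNDT
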