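import Mathlib
import Pool.Agent.LNDQ.Fd4A
import Pool.Agent.LNDQ.Fd4B
import Pool.Agent.LNDT.ST3
import Pool.Agent.LNDT.Simple
import Pool.Agent.LNDF.ChG
import Pool.Agent.LNDF.Fin3
import Pool.Agent.LNDF.Fin5
import Pool.Agent.LNDHom.Basis

set_option autoImplicit false

open Polynomial

namespace Pool.Agent.LNDQ

open Pool.Agent.LNDHom Pool.Agent.LNDF Pool.Agent.LNDT

section gen

variable {k B F : Type} [Field k] [CharZero k] [CommRing B] [IsDomain B] [Algebra k B]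
  {D : Derivation k B B} [Field F] [CharZero F] [Algebra (kerAlg D) F]
  [IsFractionRing (kerAlg D) F] {δ : Derivation ℤ F F} {θ : F} {d : ℕ} {I : ℤ → AddSubgroup F}
  {N : ℕ} {h : F} {c : kerAlg D}

/-- a horizontal special prime divides `c` exactly once, the cofactor is vertical -/
theorem fd4_aux (H : IData D c N δ θ d I h) (h1 : (1 : F) ∈ I (-1)) (h2 : ∀ x ∈ I (-1), x ∈ I 0)
    {v : kerAlg D} (hv : Prime (v : B)) (hs : Special D (c : B) (v : B))
    (hh : δ (algebraMap (kerAlg D) F v) ≠ 0) (hvc : (v : B) ∣ (c : B)) :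
    ∃ c' : kerAlg D, c = v * c' ∧ δ (algebraMap (kerAlg D) F c') = 0 := by
  have inj := st1_inj (D := D) (F := F)
  obtain ⟨Y, hY, hgen, hinj, h3, h4⟩ := H.gr.main2
  obtain ⟨μ, hμ, hμ0, e⟩ := st1_key H hY hgen hinj h3 hv hs hh
  obtain ⟨ν, hν, hν0, hc⟩ := h4 1 h1 one_ne_zero (fun x hx => ⟨x, h2 x hx, by rw [mul_one]⟩)
  have hc0 : c ≠ 0 := by
    intro h0
    exact H.gr.c_ne (by rw [h0, map_zero])
  obtain ⟨b, hb⟩ := hvc
  have hDb : D b = 0 := Pool.Agent.LNDF.const_of_dvd D H.lnd ((mem_kerAlg D _).1 c.2)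
    (fun h0 => hc0 (Subtype.ext h0)) ⟨(v : B), by rw [hb, mul_comm]⟩
  have hcb : c = v * ⟨b, hDb⟩ := Subtype.ext hb
  refine ⟨⟨b, hDb⟩, hcb, ?_⟩
  rw [mul_one] at hc
  rcases hc with hc | hc
  · exfalso
    exact st1_not_dvd H hh hc0 (by rw [hc]; exact hν.2) ⟨b, hb⟩
  · have hv0 : algebraMap (kerAlg D) F v ≠ 0 := fun h0 => hh (by rw [h0, map_zero])
    have h5 : algebraMap (kerAlg D) F ⟨b, hDb⟩ = ν * μ⁻¹ := by
      apply mul_left_cancel₀ hv0
      rw [← map_mul, ← hcb, hc, e]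
      field_simp
    rw [h5]
    exact ((st1_kap H.gr).mul_mem hν (st1_inv H.gr hμ hμ0)).2

/-- from a principal image ideal to an element over its greatest common divisor -/
theorem exists_of_princ [UniqueFactorizationMonoid B] (hD0 : ∃ x, D x ≠ 0)
    (hln : ∀ x, ∃ n, (⇑D)^[n] x = 0) {m : ℕ} {c : B} (hcc : IsCC D m c) (h : Princ D m) :
    ∃ x, (⇑D)^[m + 1] x = 0 ∧ (⇑D)^[m] x = c := by
  obtain ⟨a, ha, hm⟩ := h
  obtain ⟨x, hx1, hx2⟩ := (hm a).mpr ⟨1, by simp, by simp⟩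
  obtain ⟨b, hb⟩ := hcc.dvd x hx1
  rw [hx2] at hb
  have hbu : IsUnit b := by
    by_contra hbu
    have hb0 : b ≠ 0 := by
      rintro rfl
      rw [mul_zero] at hb
      obtain ⟨y, hy1, hy2⟩ := exists_deg D hln hD0 m
      obtain ⟨c, _, hc⟩ := (hm _).mp ⟨y, hy2, rfl⟩
      rw [hb, zero_mul] at hc
      exact hy1 hc
    obtain ⟨q, hq, hqb⟩ := WfDvdMonoid.exists_irreducible_factor hbu hb0
    obtain ⟨y, hy1, hy2⟩ := hcc.sharp q hq.prime
    obtain ⟨c', _, hc⟩ := (hm _).mp ⟨y, hy1, rfl⟩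
    apply hy2
    rw [hc, hb]
    obtain ⟨b', rfl⟩ := hqb
    exact ⟨b' * c', by ring⟩
  obtain ⟨u, hu⟩ := hbu
  have hcu : a * ↑(u⁻¹) = c := by rw [hb, ← hu, mul_assoc, Units.mul_inv, mul_one]
  obtain ⟨y, hy, hyc⟩ := (hm c).mpr ⟨↑(u⁻¹), by
    have h1 : a ≠ 0 := by rw [hb]; exact mul_ne_zero hcc.ne (by rw [← hu]; exact u.ne_zero)
    have h2 := hcc.const
    rw [← hcu, Derivation.leibniz, ha, smul_zero, add_zero, smul_eq_mul] at h2
    exact (mul_eq_zero.mp h2).resolve_left h1, hcu.symm⟩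
  exact ⟨y, hy, hyc⟩

/-- FREE in the degree of the arithmetic -/
theorem pkg_arith [UniqueFactorizationMonoid B] (hD0 : ∃ x, D x ≠ 0)
    (hln : ∀ x, ∃ n, (⇑D)^[n] x = 0) {N0 : ℕ} {G0 : B} (hP : Pkg D N0 G0) (A : Arith D) {G : B}
    (hG : (⇑D)^[A.N] G = A.cc A.N) : Pkg D A.N G where
  pos := A.N_pos
  ne := by rw [hG]; exact (A.isCC _).ne
  top := by
    rw [Function.iterate_succ_apply', hG]
    exact (A.isCC _).const
  gen := fun x hx => by rw [hG]; exact (A.isCC _).dvd x hx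
  div := fun b => by
    obtain ⟨j, s, t, h1, h2⟩ := A.div hD0 hln (Q := G) (δ := 1) D.map_one_eq_zero one_ne_zero
      (by rw [hG, mul_one]) b
    exact ⟨s, t, by rw [← h1, one_pow, one_mul], h2⟩
  princ := fun n hn => princ_all A hG n hn
  dual := hP.dual

theorem ld_eq (D : Derivation k B B) (n : ℕ) (x : B) :
    (⇑D)^[n] x = algebraMap k B (n.factorial : k) * ld D n x := by
  have hfac : (n.factorial : k) ≠ 0 := by exact_mod_cast n.factorial_ne_zero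
  rw [ld, Algebra.smul_def, ← mul_assoc, ← map_mul, mul_inv_cancel₀ hfac, map_one, one_mul]

theorem cc_pred (A : Arith D) : Associated (A.cc (A.N - 1)) (A.cc A.N) := by
  have h1 := A.compl 0 A.N_pos
  rw [Nat.sub_zero] at h1
  have h2 : IsUnit (A.cc 0) := isUnit_of_dvd_one ((A.isCC 0).dvd 1 (by simp))
  obtain ⟨u, hu⟩ := h2
  refine Associated.trans ⟨u, ?_⟩ h1
  rw [hu, mul_comm]

end gen

/-- THE STRUCTURE DATA in the degree of the arithmetic, with `I_(-1) = I_0` -/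
theorem exists_data {k : Type} [Field k] [CharZero k]
    (D : Derivation k (MvPolynomial (Fin 3) k) (MvPolynomial (Fin 3) k))
    (hD0 : ∃ x, D x ≠ 0)
    (hln : ∀ x, ∃ n, (⇑D)^[n] x = 0) {f g : MvPolynomial (Fin 3) k}
    (hind : AlgebraicIndependent k ![f, g]) (hker : ∀ b, D b = 0 ↔ b ∈ Algebra.adjoin k {f, g})
    {N0 : ℕ} {G0 : MvPolynomial (Fin 3) k} (hP : Pkg D N0 G0) (A : Arith D)
    {G : MvPolynomial (Fin 3) k} (hG : (⇑D)^[A.N] G = A.cc A.N) {r : MvPolynomial (Fin 3) k}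
    {c : kerAlg D} (hr : D r = c) (hc : IsCC D 1 (c : MvPolynomial (Fin 3) k))
    (F : Type) [Field F] [Algebra (kerAlg D) F] [IsFractionRing (kerAlg D) F] :
    ∃ (δ : Derivation ℤ F F) (θ : F) (d : ℕ) (I : ℤ → AddSubgroup F) (h : F),
      IData D c A.N δ θ d I h ∧ (1 : F) ∈ I (-1) ∧ ∀ x ∈ I (-1), x ∈ I 0 := by
  have hPA := pkg_arith hD0 hln hP A hG
  obtain ⟨E, HS⟩ := exists_setup D hln hind hker hPA hr hc
  have hN := A.N_pos
  have hfN : ((A.N.factorial : ℕ) : k) ≠ 0 := by exact_mod_cast A.N.factorial_ne_zero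
  have hfN' : (((A.N - 1).factorial : ℕ) : k) ≠ 0 := by
    exact_mod_cast (A.N - 1).factorial_ne_zero
  obtain ⟨u, hu⟩ := cc_pred A
  refine icl2 (F := F) HS ?_ ?_
  · intro z hz
    have h1 := (A.isCC (A.N - 1)).dvd z (by rw [Nat.sub_add_cancel hN]; exact hz)
    have h2 : A.cc A.N ∣ A.cc (A.N - 1) := ⟨↑(u⁻¹), by
      rw [← hu, mul_assoc, Units.mul_inv, mul_one]⟩
    have h3 : ld D A.N G ∣ A.cc A.N := by
      rw [← hG, ld_eq D A.N G]
      exact dvd_mul_left _ _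
    have h4 : (⇑D)^[A.N - 1] z ∣ ld D (A.N - 1) z := by
      rw [ld, Algebra.smul_def]
      exact dvd_mul_left _ _
    exact h3.trans (h2.trans (h1.trans h4))
  · obtain ⟨x, hx1, hx2⟩ := exists_of_princ hD0 hln (A.isCC (A.N - 1))
      (princ_all A hG (A.N - 1) (Or.inr (by rw [Nat.sub_add_cancel hN])))
    rw [Nat.sub_add_cancel hN] at hx1
    have hu0 : D (u : MvPolynomial (Fin 3) k) = 0 :=
      const_of_dvd D hln D.map_one_eq_zero one_ne_zero (isUnit_iff_dvd_one.1 u.isUnit)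
    have hmul : ∀ (a : MvPolynomial (Fin 3) k), D a = 0 → ∀ (m : ℕ) (y : MvPolynomial (Fin 3) k),
        (⇑D)^[m] (a * y) = a * (⇑D)^[m] y := fun a ha m y =>
      Pool.Agent.LNDHom.iter_const D ha m y
    have hC : ∀ t : k, D (algebraMap k (MvPolynomial (Fin 3) k) t) = 0 := fun t =>
      D.map_algebraMap t
    refine ⟨algebraMap k _ (((A.N - 1).factorial : k) * (A.N.factorial : k)⁻¹) * (u * x), ?_, ?_⟩
    · rw [hmul _ (hC _), hmul _ hu0, hx1, mul_zero, mul_zero]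
    · unfold ld
      rw [hmul _ (hC _), hmul _ hu0, hx2, mul_comm (u : MvPolynomial (Fin 3) k), hu, hG,
        Algebra.smul_def, Algebra.smul_def, ← mul_assoc, ← map_mul]
      congr 2
      field_simp

/-- EVERY HORIZONTAL SPECIAL PRIME IS SIMPLE -/
theorem fd4 {k : Type} [Field k] [CharZero k]
    (D : Derivation k (MvPolynomial (Fin 3) k) (MvPolynomial (Fin 3) k))
    (hD0 : ∃ x, D x ≠ 0)
    (hln : ∀ x, ∃ n, (⇑D)^[n] x = 0) {f g : MvPolynomial (Fin 3) k}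
    (hind : AlgebraicIndependent k ![f, g]) (hker : ∀ b, D b = 0 ↔ b ∈ Algebra.adjoin k {f, g})
    (hirr : ∀ p : MvPolynomial (Fin 3) k, Prime p → D p = 0 → ∃ x, ¬ p ∣ D x)
    {N0 : ℕ} {G0 : MvPolynomial (Fin 3) k} (hP : Pkg D N0 G0) (A : Arith D)
    {G : MvPolynomial (Fin 3) k} (hG : (⇑D)^[A.N] G = A.cc A.N) {r : MvPolynomial (Fin 3) k}
    {c : kerAlg D} (hr : D r = c) (hc : IsCC D 1 (c : MvPolynomial (Fin 3) k))
    (F : Type) [Field F] [CharZero F] [Algebra (kerAlg D) F] [IsFractionRing (kerAlg D) F] :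
    ∃ (δ : Derivation ℤ F F) (θ : F) (d : ℕ) (I : ℤ → AddSubgroup F) (h : F),
      IData D c A.N δ θ d I h ∧
      ∀ v : kerAlg D, Prime (v : MvPolynomial (Fin 3) k) →
        1 < npB D (v : MvPolynomial (Fin 3) k) → δ (algebraMap (kerAlg D) F v) ≠ 0 →
        ∃ c' : kerAlg D, c = v * c' ∧ δ (algebraMap (kerAlg D) F c') = 0 := by
  obtain ⟨δ, θ, d, I, h, H, h1, h2⟩ := exists_data D hD0 hln hind hker hP A hG hr hc F
  refine ⟨δ, θ, d, I, h, H, fun v hv hn hδ => ?_⟩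
  have hDv : D (v : MvPolynomial (Fin 3) k) = 0 := v.2
  exact fd4_aux H h1 h2 hv (special_of_np hln hv hDv (hirr _ hv hDv) hc hn) hδ
    (dvd_of_np hln hv hDv (hirr _ hv hDv) hc hn)

end Pool.Agent.LNDQ
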