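import Mathlib
import Pool.Agent.LNDQ.BDefs
import Pool.Agent.LNDQ.FiDefs
import Pool.Agent.LNDQ.LocB
import Pool.Agent.LNDQ.Fd1
import Pool.Agent.LNDQ.Fd4

set_option autoImplicit false

open Polynomial

namespace Pool.Agent.LNDQ

open Pool.Agent.LNDHom Pool.Agent.LNDF Pool.Agent.LNDT

section vert

variable {k F : Type} [Field k] [CharZero k] [IsAlgClosed k] {D : Derivation k (B3 k) (B3 k)}
  [Field F] [CharZero F] [Algebra (kerAlg D) F] [IsFractionRing (kerAlg D) F]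
  {δ : Derivation ℤ F F} {θ : F} {d : ℕ} {I : ℤ → AddSubgroup F} {N : ℕ} {h : F} {c : kerAlg D}

/-- factors of vertical constants are polynomials in a vertical prime -/
theorem vert_factor (H : IData D c N δ θ d I h) {f g : B3 k}
    (hker : ∀ b, D b = 0 ↔ b ∈ Algebra.adjoin k {f, g})
    {u : kerAlg D} (hu : Prime (u : B3 k)) (hδu : δ (algebraMap (kerAlg D) F u) = 0)
    {y : kerAlg D} (hy : y ≠ 0) (hδy : δ (algebraMap (kerAlg D) F y) = 0) {a b : B3 k}
    (hab : (y : B3 k) = a * b) : ∃ P : k[X], aeval (u : B3 k) P = a := by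
  have hy0 : (y : B3 k) ≠ 0 := fun h => hy (Subtype.ext h)
  have ha0 : a ≠ 0 := by rintro rfl; exact hy0 (by rw [hab, zero_mul])
  have hb0 : b ≠ 0 := by rintro rfl; exact hy0 (by rw [hab, mul_zero])
  have hDa : D a = 0 := const_of_dvd D H.lnd ((mem_kerAlg D _).1 y.2) hy0
    ⟨b, hab⟩
  have hDb : D b = 0 := const_of_dvd D H.lnd ((mem_kerAlg D _).1 y.2) hy0
    ⟨a, by rw [hab, mul_comm]⟩
  have h1 : y = (⟨a, hDa⟩ : kerAlg D) * ⟨b, hDb⟩ := Subtype.ext hab
  have h2 := fc_ker H (x := (⟨a, hDa⟩ : kerAlg D)) (y := ⟨b, hDb⟩)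
    (fun h => ha0 (congrArg Subtype.val h)) (fun h => hb0 (congrArg Subtype.val h))
    (by rw [← h1]; exact hδy)
  obtain ⟨P, hP⟩ := vert_poly H hker hu hδu _ (⟨a, hDa⟩ : kerAlg D) le_rfl h2.1
  refine ⟨P, ?_⟩
  have h3 := congrArg Subtype.val hP
  have h4 : ((aeval u P : kerAlg D) : B3 k) = aeval (u : B3 k) P :=
    (Polynomial.aeval_algHom_apply (kerAlg D).val u P).symm
  rw [← h4]
  exact h3

/-- all `u - l` are prime -/
theorem vert_prime (H : IData D c N δ θ d I h) {f g : B3 k}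
    (hker : ∀ b, D b = 0 ↔ b ∈ Algebra.adjoin k {f, g})
    {u : kerAlg D} (hu : Prime (u : B3 k)) (hδu : δ (algebraMap (kerAlg D) F u) = 0) (l : k) :
    Prime ((u : B3 k) - MvPolynomial.C l) := by
  rw [← irreducible_iff_prime]
  have hdeg := totalDegree_pos hu
  have hne : ∀ a : k, (u : B3 k) ≠ MvPolynomial.C a := by
    intro a ha
    rw [ha, MvPolynomial.totalDegree_C] at hdeg
    exact lt_irrefl 0 hdeg
  have hnu : ¬ IsUnit ((u : B3 k) - MvPolynomial.C l) := by
    intro h1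
    have h2 := MvPolynomial.isUnit_iff_totalDegree_of_isReduced.1 h1
    obtain ⟨-, h3⟩ := h2
    rw [MvPolynomial.totalDegree_eq_zero_iff_eq_C] at h3
    exact hne (MvPolynomial.coeff 0 ((u : B3 k) - MvPolynomial.C l) + l) (by
      rw [map_add, ← h3]; ring)
  refine ⟨hnu, fun a b hab => ?_⟩
  have hy : (u - algebraMap k (kerAlg D) l : kerAlg D) ≠ 0 := by
    intro h0
    have h1 : (u : B3 k) - MvPolynomial.C l = 0 := congrArg Subtype.val h0
    exact hne l (sub_eq_zero.1 h1)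
  have hδy : δ (algebraMap (kerAlg D) F (u - algebraMap k (kerAlg D) l)) = 0 := by
    rw [map_sub, map_sub, hδu, H.base, sub_zero]
  have hval : ((u - algebraMap k (kerAlg D) l : kerAlg D) : B3 k) = (u : B3 k) - MvPolynomial.C l :=
    rfl
  obtain ⟨P, hP⟩ := vert_factor H hker hu hδu hy hδy (a := a) (b := b) (by rw [hval, hab])
  obtain ⟨Q, hQ⟩ := vert_factor H hker hu hδu hy hδy (a := b) (b := a)
    (by rw [hval, hab, mul_comm])
  have h1 : P * Q = X - C l := by
    apply aeval_inj hu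
    rw [map_mul, hP, hQ, ← hab, map_sub, aeval_X, aeval_C]
    rfl
  have h2 : Irreducible (X - C l : k[X]) := irreducible_X_sub_C l
  rcases h2.isUnit_or_isUnit h1.symm with h3 | h3
  · left
    rw [← hP]
    exact h3.map (aeval (u : B3 k) : k[X] →ₐ[k] B3 k)
  · right
    rw [← hQ]
    exact h3.map (aeval (u : B3 k) : k[X] →ₐ[k] B3 k)

/-- up to a vertical factor the kernel is generated by `u` and a horizontal special prime -/
theorem vert_gen (H : IData D c N δ θ d I h) {f g : B3 k}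
    (hker : ∀ b, D b = 0 ↔ b ∈ Algebra.adjoin k {f, g})
    {u v : kerAlg D} (hu : Prime (u : B3 k)) (hδu : δ (algebraMap (kerAlg D) F u) = 0)
    (hv : Prime (v : B3 k)) (hs : Special D (c : B3 k) (v : B3 k))
    (hδv : δ (algebraMap (kerAlg D) F v) ≠ 0) (a : B3 k) (ha : D a = 0) :
    ∃ s : k[X], s ≠ 0 ∧
      aeval (u : B3 k) s * a ∈ Algebra.adjoin k {(u : B3 k), (v : B3 k)} := by
  obtain ⟨c1, P, hc1, hc1', hP, e⟩ := horizontal_gen H hv hs hδv (⟨a, ha⟩ : kerAlg D)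
  have hval : ∀ Q : k[X], ((aeval u Q : kerAlg D) : B3 k) = aeval (u : B3 k) Q := fun Q =>
    (Polynomial.aeval_algHom_apply (kerAlg D).val u Q).symm
  obtain ⟨s, hs⟩ := vert_poly H hker hu hδu _ c1 le_rfl hc1'
  have hs0 : s ≠ 0 := by
    rintro rfl
    rw [map_zero] at hs
    exact hc1 hs.symm
  refine ⟨s, hs0, ?_⟩
  have e' : (c1 : B3 k) * a = ((P.eval v : kerAlg D) : B3 k) := congrArg Subtype.val e
  have hc1B : (c1 : B3 k) = aeval (u : B3 k) s := by rw [← hval, hs]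
  rw [← hc1B, e', eval_eq_sum_range]
  have hmemu : ∀ Q : k[X], aeval (u : B3 k) Q ∈ Algebra.adjoin k {(u : B3 k), (v : B3 k)} := by
    intro Q
    have h1 : aeval (u : B3 k) Q ∈ Algebra.adjoin k {(u : B3 k)} := by
      rw [Algebra.adjoin_singleton_eq_range_aeval]
      exact ⟨Q, rfl⟩
    exact Algebra.adjoin_mono (by simp) h1
  have hmemv : (v : B3 k) ∈ Algebra.adjoin k {(u : B3 k), (v : B3 k)} :=
    Algebra.subset_adjoin (by simp)
  have hsum : (((∑ i ∈ Finset.range (P.natDegree + 1), P.coeff i * v ^ i : kerAlg D)) : B3 k) =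
      ∑ i ∈ Finset.range (P.natDegree + 1), ((P.coeff i : kerAlg D) : B3 k) * (v : B3 k) ^ i := by
    rw [AddSubmonoidClass.coe_finsetSum]
    rfl
  rw [hsum]
  refine sum_mem fun i _ => mul_mem ?_ (pow_mem hmemv i)
  obtain ⟨Q, hQ⟩ := vert_poly H hker hu hδu _ (P.coeff i) le_rfl (hP i)
  rw [← hQ, hval]
  exact hmemu Q

end vert

variable {k : Type} [Field k] [CharZero k] [IsAlgClosed k]

/-- Fd4: the horizontal special prime `v` is simple and the rest of `cc 1` is a polynomial in `u` -/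
theorem fd_simple {D : Derivation k (B3 k) (B3 k)} {f g : B3 k} (H : KD D f g)
    (A : Arith D) {G r : B3 k} (hG : (⇑D)^[A.N] G = A.cc A.N) (hr : D r = A.cc 1)
    {m : Ideal (kerAlg D)} (hm : m.IsMaximal) {p q : kerAlg D} (hp : Prime (p : B3 k))
    (hq : Prime (q : B3 k)) (hpq : ¬ Associated (p : B3 k) (q : B3 k)) (hpm : p ∈ m) (hqm : q ∈ m)
    (hnp : 1 < npB D (p : B3 k)) (hnq : 1 < npB D (q : B3 k)) (hsq : (p : B3 k) ^ 2 ∣ A.cc 1) :
    (∀ l : k, Prime ((p : B3 k) - MvPolynomial.C l)) ∧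
    (∀ c : k, ¬ (p : B3 k) ∣ (q : B3 k) - MvPolynomial.C c) ∧
    (∀ a, D a = 0 → ∃ s : k[X], s ≠ 0 ∧
      aeval (p : B3 k) s * a ∈ Algebra.adjoin k {(p : B3 k), (q : B3 k)}) ∧
    ¬ (q : B3 k) ^ 2 ∣ A.cc 1 ∧
    ∃ (Q : k[X]) (e : ℕ), Q.eval 0 ≠ 0 ∧ A.cc 1 = aeval (p : B3 k) Q * (p : B3 k) ^ e * q := by
  obtain ⟨N0, G0, hP⟩ := pkg_all D H.nz H.ln f g H.ind H.ker
  set c : kerAlg D := ⟨A.cc 1, (A.isCC 1).const⟩ with hc
  have hF0 : CharZero (FractionRing (kerAlg D)) :=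
    charZero_of_injective_algebraMap (algebraMap k (FractionRing (kerAlg D))).injective
  obtain ⟨δ, θ, d, I, h, HI, hv⟩ := fd4 D H.nz H.ln H.ind H.ker H.irr hP A hG (r := r) (c := c)
    hr (A.isCC 1) (FractionRing (kerAlg D))
  have hcB : (c : B3 k) = A.cc 1 := rfl
  have hc0 : c ≠ 0 := fun h0 => (A.isCC 1).ne (congrArg Subtype.val h0)
  -- the structure of `c` at a horizontal special prime
  have hone : ∀ v : kerAlg D, Prime (v : B3 k) → 1 < npB D (v : B3 k) →
      δ (algebraMap (kerAlg D) (FractionRing (kerAlg D)) v) ≠ 0 → ¬ (v : B3 k) ^ 2 ∣ A.cc 1 := by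
    intro v hvp hvn hδv hd
    obtain ⟨c', hc', hδc'⟩ := hv v hvp hvn hδv
    have h1 : A.cc 1 = (v : B3 k) * c' := congrArg Subtype.val hc'
    rw [h1, sq] at hd
    have h2 : (v : B3 k) ∣ (c' : B3 k) := (mul_dvd_mul_iff_left hvp.ne_zero).1 hd
    have h3 : c' ≠ 0 := by
      rintro rfl
      exact hc0 (by rw [hc', mul_zero])
    exact st1_not_dvd HI hδv h3 hδc' h2
  have hδp : δ (algebraMap (kerAlg D) (FractionRing (kerAlg D)) p) = 0 := by
    by_contra hne
    exact hone p hp hnp hne hsq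
  have hq1 : ∀ a : kerAlg D, (a : B3 k) = 1 → a ∉ m := by
    intro a ha ham
    apply hm.ne_top
    rw [Ideal.eq_top_iff_one]
    have : a = 1 := Subtype.ext ha
    rwa [this] at ham
  have hδq : δ (algebraMap (kerAlg D) (FractionRing (kerAlg D)) q) ≠ 0 := by
    intro h0
    obtain ⟨a, b, hab⟩ := vertical_coprime HI H.ker hp hδp h0
      (fun hd => hpq ((hp.dvd_prime_iff_associated hq).1 hd))
    exact hm.ne_top ((Ideal.eq_top_iff_one m).2
      (hab ▸ m.add_mem (m.mul_mem_left a hpm) (m.mul_mem_left b hqm)))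
  have hDq : D (q : B3 k) = 0 := q.2
  have hsq' : Special D (c : B3 k) (q : B3 k) :=
    special_of_np H.ln hq hDq (H.irr _ hq hDq) (A.isCC 1) hnq
  refine ⟨fun l => vert_prime HI H.ker hp hδp l, fun l hd => ?_,
    fun a ha => vert_gen HI H.ker hp hδp hq hsq' hδq a ha, hone q hq hnq hδq, ?_⟩
  · -- `q` is not constant modulo `p`
    by_cases hl : l = 0
    · rw [hl, map_zero, sub_zero] at hd
      exact hpq ((hp.dvd_prime_iff_associated hq).1 hd)
    · have h1 : p ∣ q - algebraMap k (kerAlg D) l := (dvd_ker H.ln).1 hd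
      have h2 : q - algebraMap k (kerAlg D) l ∈ m := by
        obtain ⟨z, hz⟩ := h1
        rw [hz]
        exact m.mul_mem_right z hpm
      have h3 : algebraMap k (kerAlg D) l ∈ m := by
        have h4 := m.sub_mem hqm h2
        rwa [sub_sub_cancel] at h4
      apply hm.ne_top
      exact Ideal.eq_top_of_isUnit_mem m h3 ((IsUnit.mk0 l hl).map (algebraMap k (kerAlg D)))
  · -- the rest of `c`
    obtain ⟨c', hc', hδc'⟩ := hv q hq hnq hδq
    have hc'0 : c' ≠ 0 := by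
      rintro rfl
      exact hc0 (by rw [hc', mul_zero])
    obtain ⟨P, hP'⟩ := vert_poly HI H.ker hp hδp _ c' le_rfl hδc'
    have hP0 : P ≠ 0 := by
      rintro rfl
      rw [map_zero] at hP'
      exact hc'0 hP'.symm
    have hval : ((aeval p P : kerAlg D) : B3 k) = aeval (p : B3 k) P :=
      (Polynomial.aeval_algHom_apply (kerAlg D).val p P).symm
    obtain ⟨Q, hQ, hQ2⟩ := Polynomial.exists_eq_pow_rootMultiplicity_mul_and_not_dvd P hP0 0
    rw [map_zero, sub_zero] at hQ hQ2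
    refine ⟨Q, P.rootMultiplicity 0, ?_, ?_⟩
    · rwa [← coeff_zero_eq_eval_zero, Ne, ← X_dvd_iff]
    · have h1 : A.cc 1 = (q : B3 k) * c' := congrArg Subtype.val hc'
      have h2 : (c' : B3 k) = aeval (p : B3 k) P := by rw [← hval, hP']
      have h3 : aeval (p : B3 k) P =
          (p : B3 k) ^ P.rootMultiplicity 0 * aeval (p : B3 k) Q := by
        conv_lhs => rw [hQ]
        rw [map_mul, map_pow, aeval_X]
      rw [h1, h2, h3]
      ring

end Pool.Agent.LNDQ
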