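import Mathlib
import Pool.Agent.LNDQ.FiDefs

set_option autoImplicit false

open Polynomial

namespace Pool.Agent.LNDQ

open Pool.Agent.LNDHom Pool.Agent.LNDF Pool.Agent.LNDT

variable {k : Type} [Field k] [CharZero k]

/-- FdY: the minimal polynomial of `r` modulo the simple prime `v`, over `ker D` (from `int_poly`, `approx_root`,
`simple_root_dvd` with `l = n_v`) -/
theorem fd_Y {D : Derivation k (B3 k) (B3 k)} {f g : B3 k} (H : KD D f g) (A : Arith D)
    {G r : B3 k} (hG : (⇑D)^[A.N] G = A.cc A.N) (hr : D r = A.cc 1) {v : B3 k} (hv : Prime v)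
    (hDv : D v = 0) (h1 : v ∣ A.cc 1) (h2 : ¬ v ^ 2 ∣ A.cc 1) :
    ∃ Y : (kerAlg D)[X], Y.Monic ∧ Y.natDegree = npB D v ∧ v ∣ aeval r Y := by
  obtain ⟨P, hP, hPN, hPG⟩ := int_poly H.ln H.irr hr (A.isCC 1) (A.isCC A.N) hG
  have hnd := H.irr v hv hDv
  have hpos := np_pos (locData D v hv hDv H.ln hnd)
  rw [np_eq D hv hDv H.ln hnd] at hpos
  obtain ⟨e, he⟩ := A.npN v hv hDv
  have he0 : 0 < e := by
    rcases Nat.eq_zero_or_pos e with h | h
    · have := A.N_pos
      rw [he, h, mul_zero] at this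
      exact absurd this (lt_irrefl 0)
    · exact h
  let _ : Algebra ℚ (kerAlg D) := ((algebraMap k (kerAlg D)).comp (algebraMap ℚ k)).toAlgebra
  obtain ⟨Y, hY, hYl, hPY⟩ := approx_root P hP (npB D v) e hpos he0 (by rw [hPN, he])
  refine ⟨Y, hY, hYl, ?_⟩
  have h3 := simple_root_dvd H.ln hv hDv hnd hr (A.isCC 1) h1 h2 hpos he0 he dvd_rfl
    (A.isCC A.N) hG hP hPN hPG hY hYl hPY
  rwa [Nat.div_self hpos, pow_one] at h3

end Pool.Agent.LNDQ
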