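import Mathlib
import Pool.Agent.LNDQ.LocB
import Pool.Agent.LNDQ.FdA
import Pool.Agent.LNDQ.FdC
import Pool.Agent.LNDQ.FdD
import Pool.Agent.LNDQ.FdE
import Pool.Agent.LNDQ.FdKap
import Pool.Agent.LNDQ.FdY
import Pool.Agent.LNDQ.FdSimple
import Pool.Agent.LNDQ.FdB8
import Pool.Agent.LNDQ.FdF

set_option autoImplicit false

/-!
# LNDQ/FiFirst: the first datum at a crossing (assembly)
-/

open Polynomial

namespace Pool.Agent.LNDQ

open Pool.Agent.LNDHom Pool.Agent.LNDF Pool.Agent.LNDT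

/-- transcendental modulo `u` implies transcendental -/
theorem tr_of_vtr {k S : Type} [Field k] [CommRing S] [IsDomain S] [Algebra k S]
    {R : Subalgebra k S} {u : R} (hfr : Fr R u) {v : S}
    (hv : ∀ a : R[X], (u : S) ∣ aeval v a → C u ∣ a) (a : R[X]) (ha : aeval v a = 0) : a = 0 := by
  have hu0 : (u : S) ≠ 0 := hfr.prime.ne_zero
  have key : ∀ (n : ℕ) (a : R[X]), aeval v a = 0 → C (u ^ n) ∣ a := by
    intro n
    induction n with
    | zero => intro a _; rw [pow_zero, C_1]; exact one_dvd a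
    | succ n ih =>
      intro a ha
      obtain ⟨b, rfl⟩ := hv a (by rw [ha]; exact dvd_zero _)
      have h1 : aeval v b = 0 := by
        rw [map_mul, aeval_C] at ha
        exact (mul_eq_zero.1 ha).resolve_left hu0
      obtain ⟨c, rfl⟩ := ih b h1
      exact ⟨c, by rw [pow_succ, C_mul]; ring⟩
  ext i
  rw [coeff_zero]
  by_contra h0
  have h1 : ((a.coeff i : R) : S) ≠ 0 := h0
  obtain ⟨n, hn⟩ := hfr.sep _ h1
  apply hn
  obtain ⟨c, hc⟩ := (Polynomial.C_dvd_iff_dvd_coeff _ _).1 (key n a ha) i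
  exact ⟨c, by rw [hc]; rfl⟩

variable {k : Type} [Field k] [CharZero k] [IsAlgClosed k]

theorem first_dat {D : Derivation k (B3 k) (B3 k)} {f g : B3 k} (H : KD D f g)
    (A : Arith D) {G r : B3 k} (hG : (⇑D)^[A.N] G = A.cc A.N) (hr : D r = A.cc 1)
    {m : Ideal (kerAlg D)} (hm : m.IsMaximal) {p q : kerAlg D} (hp : Prime (p : B3 k))
    (hq : Prime (q : B3 k)) (hpq : ¬ Associated (p : B3 k) (q : B3 k)) (hpm : p ∈ m) (hqm : q ∈ m)
    (hnp : 1 < npB D (p : B3 k)) (hnq : 1 < npB D (q : B3 k)) (hsq : (p : B3 k) ^ 2 ∣ A.cc 1) :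
    ∃ u : kerAlg D, u ∈ m ∧ ∃ (v0 : B3 k) (F : (RR (u : B3 k))[X]) (v x y : SL (u : B3 k)) (e : ℕ),
      Dat (u : B3 k) v0 D F v x y e := by
  obtain ⟨hup, huc, hgen, hns, Q, e, hQ, hcc⟩ :=
    fd_simple H A hG hr hm hp hq hpq hpm hqm hnp hnq hsq
  refine ⟨p, hpm, ?_⟩
  obtain ⟨u, hu⟩ : ∃ u : B3 k, u = (p : B3 k) := ⟨_, rfl⟩
  obtain ⟨v, hv⟩ : ∃ v : B3 k, v = (q : B3 k) := ⟨_, rfl⟩
  have hDu : D u = 0 := by rw [hu]; exact p.2
  have hDv : D v = 0 := by rw [hv]; exact q.2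
  have hnd : ∃ z, ¬ (q : B3 k) ∣ D z := H.irr _ hq q.2
  have hqc : (q : B3 k) ∣ A.cc 1 := dvd_of_np H.ln hq q.2 hnd (A.isCC 1) hnq
  rw [← hu] at hup huc hgen hcc ⊢
  rw [← hv] at huc hgen hns hcc hq hnq hqc
  have hnd' : ∃ z, ¬ v ∣ D z := by rw [hv]; exact hnd
  have hu1 : Prime u := by
    have := hup 0
    rwa [map_zero, sub_zero] at this
  have hdom : IsDomain (SL u) := domS hu1
  have hfr : Fr (RR u) (uu u) := fr_of u hup
  obtain ⟨w, hind, hker, s, hs, hw⟩ := w_of hup H.ln hDu hDv huc hgen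
  have hkerS := kerS_of hup hker hDv hs hw
  have hlin := lin_of hup hind hker hDv hs hw
  have hjD := jD_of hup H.ln H.nz H.irr hind hker hlin
  have hvtr := vtr_of hup huc
  have hvt : ∀ a : (RR u)[X], aeval (io u v) a = 0 → a = 0 := tr_of_vtr hfr hvtr
  obtain ⟨Y, hY, hYd, hYr⟩ := fd_Y H A hG hr hq hDv hqc hns
  obtain ⟨F, hF, hFd, y, hy⟩ := fd_F hup (fd_red hup hker hs hw) hY hYr
  have hDr : D r = aeval u Q * u ^ e * v := by rw [hr, hcc]
  have hDr0 : D r ≠ 0 := by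
    rw [hr]
    exact (A.isCC 1).ne
  have hpres : Pres F (io u v) (io u r) y := by
    refine ⟨hF, ?_, hy.symm, ?_⟩
    · rw [hFd, hYd]
      exact hnq
    · refine ind_of hup hDu ?_ ?_ ?_ hvt
      · rw [exS_io, hDv, io_zero]
      · rw [exS_io, exS_io, hr, (A.isCC 1).const, io_zero]
      · rw [exS_io]
        intro h0
        exact hDr0 (io_inj hu1 (by rw [h0, io_zero]))
  have hkap : ∀ z : SL u, ∃ m : ℕ, io u u ^ m * z ∈ Cx (RR u) (io u v) (io u r) y := by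
    refine fd_kap hup H.ln hDu hDv hQ hDr hpres hkerS ?_
    intro n b hb
    have h1 : v ^ (n - n / npB D v) ∣ A.cc n :=
      (simple_e H.ln hq hDv hnd' (A.isCC 1) hqc hns (A.isCC n) _).2 le_rfl
    rw [hFd, hYd]
    exact h1.trans ((A.isCC n).dvd b hb)
  obtain ⟨c, hc, hcz⟩ := hjD
  refine ⟨w, F, io u v, io u r, y, e, ?_⟩
  refine
    { ne := H.nz
      ln := H.ln
      irr := H.irr
      ind := hind
      ker := hker
      pres := hpres
      kap := hkap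
      kerS := hkerS
      vtr := hvtr
      jac := ?_
      jD := ⟨c, hc, hcz⟩ }
  obtain ⟨c', hc'⟩ := hc.exists_right_inv
  have hQu : IsUnit (⟨io u (aeval u Q), aeval_mem_RR Q⟩ : RR u) := by
    refine hfr.inv _ ?_
    show ¬ io u u ∣ io u (aeval u Q)
    rw [dvd_io_iff_one hu1, dvd_aeval_iff hu1]
    exact hQ
  refine ⟨c' * ⟨io u (aeval u Q), aeval_mem_RR Q⟩, ?_, ?_⟩
  · exact (IsUnit.of_mul_eq_one c (by rw [mul_comm]; exact hc')).mul hQu
  · have h1 := hcz (io u r)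
    rw [exS_io, hDr, io_mul, io_mul, io_pow] at h1
    have h2 : ((c' : RR u) : SL u) * (c : SL u) = 1 := by
      rw [mul_comm, ← Subalgebra.coe_mul, hc']
      rfl
    have h3 : ((c' * ⟨io u (aeval u Q), aeval_mem_RR Q⟩ : RR u) : SL u) =
        (c' : SL u) * io u (aeval u Q) := rfl
    rw [h3]
    linear_combination (-(c' : SL u)) * h1 - jS u (io u u) (io u v) (io u r) * h2

end Pool.Agent.LNDQ
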