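import Mathlib
import Pool.Agent.LNDQ.LocDeg

/-!
FI3c, abstract part: the exponent of `u` in the denominators of degree `n` is `n e` minus the exponent of `u` in
the leading coefficients.
-/

set_option autoImplicit false
set_option linter.unusedSectionVars false

open Polynomial

namespace Pool.Agent.LNDQ.FiD

variable {k S : Type} [Field k] [CommRing S] [IsDomain S] [Algebra k S] {R : Subalgebra k S}
  {u : R} {f : R[X]} {v x y : S}

theorem not_dvd_nat [CharZero k] {p : S} (hp : Prime p) {n : ℕ} (hn : n ≠ 0) : ¬ p ∣ (n : S) := by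
  intro h
  have h10 : IsUnit ((n : ℕ) : S) := by
    have h11 : ((n : ℕ) : S) = algebraMap k S ((n : ℕ) : k) := by
      rw [map_natCast]
    rw [h11]
    exact (IsUnit.mk0 _ (by exact_mod_cast hn)).map (algebraMap k S)
  exact hp.not_isUnit (isUnit_of_dvd_unit h h10)

theorem not_dvd_v (hfr : Fr R u) (hvtr : ∀ a : R[X], (u : S) ∣ aeval v a → C u ∣ a) :
    ¬ (u : S) ∣ v := by
  intro h11
  have h12 := hvtr X (by rw [aeval_X]; exact h11)
  rw [Polynomial.C_dvd_iff_dvd_coeff] at h12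
  have h13 := h12 1
  rw [coeff_X_one] at h13
  exact (prime_R hfr).not_isUnit (isUnit_of_dvd_one h13)

/-- cancelling in an equation between powers of a prime -/
theorem pow_eq {p : S} (hp : Prime p) {a b : ℕ} {s t : S} (hs : ¬ p ∣ s) (ht : ¬ p ∣ t)
    (h : p ^ a * s = p ^ b * t) : a = b := by
  rcases lt_trichotomy a b with h1 | h1 | h1
  · exfalso
    obtain ⟨c, rfl⟩ := Nat.exists_eq_add_of_lt h1
    apply hs
    have h2 : s = p * (p ^ c * t) := by
      apply mul_left_cancel₀ (pow_ne_zero a hp.ne_zero)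
      rw [h]
      ring
    rw [h2]
    exact dvd_mul_right _ _
  · exact h1
  · exfalso
    obtain ⟨c, rfl⟩ := Nat.exists_eq_add_of_lt h1
    apply ht
    have h2 : t = p * (p ^ c * s) := by
      apply mul_left_cancel₀ (pow_ne_zero b hp.ne_zero)
      rw [← h]
      ring
    rw [h2]
    exact dvd_mul_right _ _

/-- the `u`-order of the highest derivative of the basis element is `n e` -/
theorem bs_order [CharZero k] (hfr : Fr R u) (hp : Pres f v x y)
    (hvtr : ∀ a : R[X], (u : S) ∣ aeval v a → C u ∣ a) {E : Derivation k S S}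
    (h : DD R v x E) {w : R} (hw : IsUnit w) {e : ℕ} (hx : E x = (w : S) * (u : S) ^ e * v) (n : ℕ) :
    ∃ t : S, ¬ (u : S) ∣ t ∧ (⇑E)^[n] (bs f.natDegree x y n) = (u : S) ^ (n * e) * t := by
  have hup := hfr.prime
  have hu0 : (u : S) ≠ 0 := hup.ne_zero
  have hnv := not_dvd_v hfr hvtr
  have h3 := (iter_bs h hp n).1
  rw [hx] at h3
  have h4 : v ^ (n / f.natDegree) * (⇑E)^[n] (bs f.natDegree x y n) =
      (u : S) ^ (n * e) * ((n.factorial : S) * (w : S) ^ n * v ^ n) := by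
    rw [h3]
    ring
  have h5 : ¬ (u : S) ∣ v ^ (n / f.natDegree) := fun h => hnv (hup.dvd_of_dvd_pow h)
  have h6 : (u : S) ^ (n * e) ∣ (⇑E)^[n] (bs f.natDegree x y n) := by
    refine hup.pow_dvd_of_dvd_mul_left _ h5 ?_
    rw [h4]
    exact dvd_mul_right _ _
  obtain ⟨t, ht⟩ := h6
  refine ⟨t, ?_, ht⟩
  intro h7
  rw [ht] at h4
  have h8 : v ^ (n / f.natDegree) * t = (n.factorial : S) * (w : S) ^ n * v ^ n := by
    apply mul_left_cancel₀ (pow_ne_zero (n * e) hu0)
    rw [← h4]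
    ring
  have h9 : (u : S) ∣ (n.factorial : S) * (w : S) ^ n * v ^ n := by
    rw [← h8]
    exact Dvd.dvd.mul_left h7 _
  rcases hup.dvd_or_dvd h9 with h10 | h10
  · rcases hup.dvd_or_dvd h10 with h11 | h11
    · exact not_dvd_nat (k := k) hup (Nat.factorial_ne_zero n) h11
    · exact hup.not_isUnit (isUnit_of_dvd_unit (hup.dvd_of_dvd_pow h11) (hw.map R.val))
  · exact hnv (hup.dvd_of_dvd_pow h10)

theorem eps_core [CharZero k] (hfr : Fr R u) (hp : Pres f v x y)
    (hkap : ∀ z : S, ∃ m : ℕ, (u : S) ^ m * z ∈ Cx R v x y)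
    (hvtr : ∀ a : R[X], (u : S) ∣ aeval v a → C u ∣ a) {E : Derivation k S S}
    (h : DD R v x E) {w : R} (hw : IsUnit w) {e : ℕ} (hx : E x = (w : S) * (u : S) ^ e * v)
    {n j : ℕ} (hlo : ∀ z, (⇑E)^[n + 1] z = 0 → (u : S) ^ j ∣ (⇑E)^[n] z)
    (hat : ∃ z, (⇑E)^[n + 1] z = 0 ∧ ¬ (u : S) ^ (j + 1) ∣ (⇑E)^[n] z) {M : ℕ}
    (hM : IsEps R u f.natDegree v x y n M) : M + j = n * e := by
  have hup := hfr.prime
  have hu0 : (u : S) ≠ 0 := hup.ne_zero
  obtain ⟨t, ht, hbs⟩ := bs_order hfr hp hvtr h hw hx n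
  have hur : algebraMap R S u = (u : S) := rfl
  apply le_antisymm
  · obtain ⟨z, a, ha, hz⟩ := hM.ex
    obtain ⟨h1, h2⟩ := lt_iter h hp hu0 hz
    obtain ⟨s, hs⟩ := hlo z h1
    rw [hs, hbs] at h2
    by_contra hlt
    rw [not_le] at hlt
    obtain ⟨c, hc⟩ := Nat.exists_eq_add_of_lt hlt
    have h3 : aeval v a * t = (u : S) * ((u : S) ^ c * s) := by
      apply mul_left_cancel₀ (pow_ne_zero (n * e) hu0)
      have h4 : (u : S) ^ (n * e) * ((u : S) * ((u : S) ^ c * s)) = (u : S) ^ (M + j) * s := by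
        rw [hc]
        ring
      rw [h4, pow_add]
      linear_combination -h2
    have h4 : (u : S) ∣ aeval v a * t := by rw [h3]; exact dvd_mul_right _ _
    rcases hup.dvd_or_dvd h4 with h5 | h5
    · exact ha (hvtr a h5)
    · exact ht h5
  · obtain ⟨z, h1, hz⟩ := hat
    obtain ⟨m, a, hlt⟩ := exists_lt h hp hkap h1
    obtain ⟨-, h2⟩ := lt_iter h hp hu0 hlt
    obtain ⟨b, hb⟩ := hM.max z m a hlt
    obtain ⟨s, hs⟩ := hlo z h1
    have hs' : ¬ (u : S) ∣ s := by
      rintro ⟨s', hs'⟩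
      apply hz
      rw [hs, hs', pow_succ]
      exact ⟨s', by ring⟩
    -- `u ^ (m + j + M) s = u ^ (n e) * t * u ^ M a(v) = u ^ (n e + m) t b(v)`
    have h3 : (u : S) ^ (j + M) * s = (u : S) ^ (n * e) * (t * aeval v b) := by
      apply mul_left_cancel₀ (pow_ne_zero m hu0)
      have h5 := congrArg (aeval v) hb
      rw [map_mul, map_mul, map_pow, map_pow, aeval_C, hur] at h5
      rw [hs, hbs] at h2
      rw [pow_add]
      linear_combination (u : S) ^ M * h2 + (u : S) ^ (n * e) * t * h5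
    by_contra hlt
    rw [not_le] at hlt
    obtain ⟨c, hc⟩ := Nat.exists_eq_add_of_lt hlt
    apply hs'
    have h4 : s = (u : S) * ((u : S) ^ c * (t * aeval v b)) := by
      apply mul_left_cancel₀ (pow_ne_zero (j + M) hu0)
      rw [h3, hc, add_comm M j]
      ring
    rw [h4]
    exact dvd_mul_right _ _

end Pool.Agent.LNDQ.FiD
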