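import Mathlib
import Pool.Agent.LNDQ.LocB
import Pool.Agent.LNDQ.FiPoint
import Pool.Agent.LNDQ.FiEpsA

/-!
FI3c: the exponent of `u` in the denominators of degree `n` is `n e` minus the exponent of `u` in `cc n`.
-/

set_option autoImplicit false
set_option linter.unusedSectionVars false

open Polynomial

namespace Pool.Agent.LNDQ

open Pool.Agent.LNDF Pool.Agent.LNDHom

variable {k : Type} [Field k] [CharZero k]
  {u v0 : B3 k} {D : Derivation k (B3 k) (B3 k)} {f : (RR u)[X]} {v x y : SL u} {e : ℕ}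

theorem Dat.eDu (h : Dat u v0 D f v x y e) : D u = 0 :=
  (h.ker u).2 (Algebra.subset_adjoin (by simp))

theorem Dat.eSv (h : Dat u v0 D f v x y e) : exS u D v = 0 :=
  (h.kerS v).2 (Algebra.subset_adjoin (by simp))

/-- the derivation of `x` -/
theorem Dat.eSx (h : Dat u v0 D f v x y e) :
    ∃ w : RR u, IsUnit w ∧ exS u D x = (w : SL u) * ((uu u : RR u) : SL u) ^ e * v := by
  obtain ⟨w, hw, h1⟩ := h.jac
  obtain ⟨w', hw', h2⟩ := h.jD
  refine ⟨w' * w, hw'.mul hw, ?_⟩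
  rw [h2, h1, coe_uu]
  push_cast
  ring

/-- multiples of `cc n` in `S` -/
theorem cc_dvd_S (hu : Prime u) (h : Dat u v0 D f v x y e) {n : ℕ} {c : B3 k} (hc : IsCC D n c)
    {z : SL u} (hz : (⇑(exS u D))^[n + 1] z = 0) : io u c ∣ (⇑(exS u D))^[n] z := by
  obtain ⟨q, b, hq, h1⟩ := exists_mul z
  have hq' : q.eval 0 ≠ 0 := by rw [hq]; exact one_ne_zero
  have h2 := (exS_iter_eq_zero hu D h.eDu hq' h1 (n + 1)).1 hz
  obtain ⟨t, ht⟩ := hc.dvd b h2
  have h3 := exS_iter_mul D h.eDu h1 n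
  rw [ht, io_mul] at h3
  exact (io_unit hq').dvd_mul_right.1 ⟨io u t, h3⟩

theorem dat_eps_of (hu : Prime u) (h : Dat u v0 D f v x y e) (n : ℕ) :
    ∃ M, IsEps (RR u) (uu u) f.natDegree v x y n M := by
  have hdom := domS hu
  obtain ⟨w, hw, hx⟩ := h.eSx
  exact FiD.exists_eps (frS hu) h.pres h.kap h.vtr (fun r => exS_R D h.eDu r) h.eSv hw hx n

theorem eps_iff_of (hu : Prime u) (h : Dat u v0 D f v x y e) {n : ℕ} {c : B3 k} (hc : IsCC D n c)
    {j : ℕ} (h1 : u ^ j ∣ c) (h2 : ¬ u ^ (j + 1) ∣ c) (M : ℕ) :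
    IsEps (RR u) (uu u) f.natDegree v x y n M ↔ M + j = n * e := by
  have hdom := domS hu
  obtain ⟨w, hw, hx⟩ := h.eSx
  have hu0 : io u u ≠ 0 := (primeS hu).ne_zero
  have hv0 : v ≠ 0 := by
    rintro rfl
    have h3 := h.vtr 0 (by rw [map_zero]; exact dvd_zero _)
    have h4 : (X : (RR u)[X]) = 0 := FiD.aeval_inj h.pres (by simp)
    exact X_ne_zero h4
  have hw0 : (w : SL u) ≠ 0 := by
    intro h0
    have h3 := hw.map (RR u).val
    have h4 : ((RR u).val w : SL u) = 0 := h0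
    rw [h4] at h3
    exact not_isUnit_zero h3
  have hdd : FiD.DD (RR u) v x (exS u D) := by
    refine ⟨fun r => exS_R D h.eDu r, h.eSv, ?_, ?_⟩
    · rw [hx, Derivation.leibniz, Derivation.leibniz, Derivation.leibniz_pow, h.eSv,
        exS_R D h.eDu, exS_R D h.eDu]
      simp
    · rw [hx]
      exact mul_ne_zero (mul_ne_zero hw0 (pow_ne_zero _ hu0)) hv0
  have hlo : ∀ z, (⇑(exS u D))^[n + 1] z = 0 →
      ((uu u : RR u) : SL u) ^ j ∣ (⇑(exS u D))^[n] z := by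
    intro z hz
    refine dvd_trans ?_ (cc_dvd_S hu h hc hz)
    rw [coe_uu, dvd_io_iff hu]
    exact h1
  have hat : ∃ z, (⇑(exS u D))^[n + 1] z = 0 ∧
      ¬ ((uu u : RR u) : SL u) ^ (j + 1) ∣ (⇑(exS u D))^[n] z := by
    obtain ⟨b, hb1, hb2⟩ := hc.sharp u hu
    refine ⟨io u b, by rw [exS_iter_io, hb1, io_zero], ?_⟩
    rw [exS_iter_io, coe_uu, dvd_io_iff hu]
    obtain ⟨t, ht⟩ := hc.dvd b hb1
    rw [ht]
    intro h3
    obtain ⟨c', hc'⟩ := h1
    have hut : ¬ u ∣ t := fun h4 => hb2 (by rw [ht]; exact mul_dvd_mul_left _ h4)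
    exact h2 (hu.pow_dvd_of_dvd_mul_right _ hut h3)
  have key : ∀ M, IsEps (RR u) (uu u) f.natDegree v x y n M → M + j = n * e := fun M hM =>
    FiD.eps_core (frS hu) h.pres h.kap h.vtr hdd hw hx hlo hat hM
  refine ⟨key M, fun hM => ?_⟩
  obtain ⟨M', hM'⟩ := dat_eps_of hu h n
  have h3 := key M' hM'
  have : M = M' := by omega
  rw [this]
  exact hM'

/-- FI3c: the exponent of `u` in the denominators is `n e` minus the exponent of `u` in `cc n` -/
theorem eps_iff (h : Dat u v0 D f v x y e) {n : ℕ} {c : B3 k} (hc : IsCC D n c) {j : ℕ}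
    (h1 : u ^ j ∣ c) (h2 : ¬ u ^ (j + 1) ∣ c) (M : ℕ) :
    IsEps (RR u) (uu u) f.natDegree v x y n M ↔ M + j = n * e :=
  eps_iff_of (dat_prime_u h) h hc h1 h2 M

end Pool.Agent.LNDQ
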