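import Mathlib
import Pool.Agent.LNDQ.FiEps

/-!
The greatest common divisor `cc n` of the image ideal of degree `n` is `u ^ j v ^ (n - n / β)` up to a unit
of `R`.
-/

set_option autoImplicit false
set_option linter.unusedSectionVars false

open Polynomial

namespace Pool.Agent.LNDQ

open Pool.Agent.LNDF Pool.Agent.LNDHom

namespace FiCcA

variable {k : Type} [Field k] {u p : B3 k}

theorem dvd_io (hu : Prime u) (hp : Prime p) (hpM : ∀ m ∈ Mu u, ¬ p ∣ m) (n : ℕ) (b : B3 k) :
    io u p ^ n ∣ io u b ↔ p ^ n ∣ b := by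
  constructor
  · rintro ⟨z, hz⟩
    obtain ⟨q, c, hq, h⟩ := exists_mul z
    have hq' : q.eval 0 ≠ 0 := by rw [hq]; exact one_ne_zero
    have h1 : b * aeval u q = p ^ n * c := io_inj hu (by
      rw [io_mul, io_mul, io_pow, hz, ← h]
      ring)
    refine hp.pow_dvd_of_dvd_mul_right n (hpM _ (mem_Mu hq')) ?_
    rw [h1]
    exact dvd_mul_right _ _
  · rintro ⟨c, rfl⟩
    rw [io_mul, io_pow]
    exact dvd_mul_right _ _

theorem prime_io (hu : Prime u) (hp : Prime p) (hpM : ∀ m ∈ Mu u, ¬ p ∣ m) : Prime (io u p) := by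
  have hone : ∀ {z : SL u} {q : k[X]} {b : B3 k}, q.eval 0 ≠ 0 → z * io u (aeval u q) = io u b →
      (io u p ∣ z ↔ p ∣ b) := by
    intro z q b hq h
    have h1 := dvd_io hu hp hpM 1 b
    rw [pow_one, pow_one] at h1
    rw [← h1, ← h, (io_unit hq).dvd_mul_right]
  refine ⟨fun h => hp.ne_zero (io_inj hu (by rw [h, io_zero])), fun h => ?_, fun y z h => ?_⟩
  · obtain ⟨w, hw⟩ := h.exists_right_inv
    have h1 := (dvd_io hu hp hpM 1 1).1 ⟨w, by rw [pow_one, hw, io_one]⟩
    rw [pow_one] at h1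
    exact hp.not_isUnit (isUnit_of_dvd_one h1)
  · obtain ⟨q, b, hq, h1⟩ := exists_mul y
    obtain ⟨q', c, hq', h2⟩ := exists_mul z
    have hq0 : q.eval 0 ≠ 0 := by rw [hq]; exact one_ne_zero
    have hq0' : q'.eval 0 ≠ 0 := by rw [hq']; exact one_ne_zero
    rw [hone hq0 h1, hone hq0' h2]
    have h3 : (y * z) * io u (aeval u (q * q')) = io u (b * c) := by
      rw [map_mul, io_mul, io_mul, ← h1, ← h2]
      ring
    rw [hone (by rw [eval_mul]; exact mul_ne_zero hq0 hq0') h3] at h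
    exact hp.dvd_or_dvd h

end FiCcA

open FiCcA

variable {k : Type} [Field k] [CharZero k]
  {u v0 : B3 k} {D : Derivation k (B3 k) (B3 k)} {f : (RR u)[X]} {v x y : SL u} {e : ℕ}

/-- units of `S` killed by the derivation are units of `R` -/
theorem dat_unit_R (h : Dat u v0 D f v x y e) {z : SL u} (hz : IsUnit z) (hE : exS u D z = 0) :
    ∃ r : RR u, IsUnit r ∧ z = r := by
  have hdom := domS (dat_prime_u h)
  obtain ⟨z', hz'⟩ := hz.exists_right_inv
  have hz0 : z ≠ 0 := fun h0 => by rw [h0, zero_mul] at hz'; exact zero_ne_one hz'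
  have hE' : exS u D z' = 0 := by
    have h1 := congrArg (exS u D) hz'
    rw [Derivation.leibniz, hE, smul_zero, add_zero, Derivation.map_one_eq_zero, smul_eq_mul] at h1
    exact (mul_eq_zero.1 h1).resolve_left hz0
  have key : ∀ s : SL u, exS u D s = 0 → ∃ g : (RR u)[X], s = aeval v g := by
    intro s hs
    have h1 := (h.kerS s).1 hs
    rw [Algebra.adjoin_singleton_eq_range_aeval] at h1
    obtain ⟨g, hg⟩ := h1
    exact ⟨g, hg.symm⟩
  obtain ⟨g, hg⟩ := key z hE
  obtain ⟨g', hg'⟩ := key z' hE'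
  have h1 : g * g' = 1 := by
    have h2 : aeval v (g * g' - 1) = 0 := by
      rw [map_sub, map_mul, ← hg, ← hg', hz', map_one, sub_self]
    exact sub_eq_zero.1 (FiD.aeval_inj h.pres h2)
  obtain ⟨r, hr, hrg⟩ := Polynomial.isUnit_iff.1 (IsUnit.of_mul_eq_one _ h1)
  refine ⟨r, hr, ?_⟩
  rw [hg, ← hrg, aeval_C]
  rfl

/-- `v` is not a unit -/
theorem dat_v_not_unit (h : Dat u v0 D f v x y e) : ¬ IsUnit v := by
  intro hv
  have hdom := domS (dat_prime_u h)
  obtain ⟨r, -, hr⟩ := dat_unit_R h hv h.eSv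
  have h1 : aeval v (X - C r : (RR u)[X]) = 0 := by
    rw [map_sub, aeval_X, aeval_C]
    have : algebraMap (RR u) (SL u) r = (r : SL u) := rfl
    rw [this, ← hr, sub_self]
  exact X_sub_C_ne_zero r (FiD.aeval_inj h.pres h1)

/-- `cc n` in `S` -/
theorem ccS (h : Dat u v0 D f v x y e) {n : ℕ} {c : B3 k} (hc : IsCC D n c) {j : ℕ}
    (h1 : u ^ j ∣ c) (h2 : ¬ u ^ (j + 1) ∣ c) :
    ∃ w : RR u, IsUnit w ∧ io u c = w * io u u ^ j * v ^ (n - n / f.natDegree) := by
  have hu := dat_prime_u h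
  have hdom := domS hu
  have hU := primeS hu
  obtain ⟨a0, b0, p', -, -, -, hp, w1, hw1, hv⟩ := dat_point h
  set p : B3 k := (p' : B3 k) with hpdef
  have hpM : ∀ m ∈ Mu u, ¬ p ∣ m := by
    rintro m ⟨q, hq, rfl⟩ ⟨s, hs⟩
    apply dat_v_not_unit h
    rw [hv]
    refine (hw1.map (RR u).val).mul ?_
    have h3 := io_unit (u := u) hq
    rw [hs, io_mul] at h3
    exact isUnit_of_mul_isUnit_left h3
  have hP := prime_io hu hp hpM
  have hnu : ¬ u ∣ p := dat_not_assoc h hv
  have hpu : ¬ p ∣ u := by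
    intro h3
    exact hnu ((hp.dvd_prime_iff_associated hu).1 h3).symm.dvd
  have hUP : ¬ io u u ∣ io u p := fun h3 => hnu ((dvd_io_iff_one hu p).1 h3)
  have hPU : ¬ io u p ∣ io u u := by
    intro h3
    have := (dvd_io hu hp hpM 1 u).1 (by rwa [pow_one])
    rw [pow_one] at this
    exact hpu this
  have hw1' : IsUnit (w1 : SL u) := hw1.map (RR u).val
  have hchar : CharZero (SL u) := charZero_of_injective_algebraMap (algebraMap k (SL u)).injective
  -- the highest derivative of the basis element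
  obtain ⟨w, hw, hx⟩ := h.eSx
  have hw' : IsUnit (w : SL u) := hw.map (RR u).val
  have hv0 : v ≠ 0 := by
    intro hv0
    have h4 : (X : (RR u)[X]) = 0 := FiD.aeval_inj h.pres (by rw [aeval_X, hv0])
    exact X_ne_zero h4
  have hdd : FiD.DD (RR u) v x (exS u D) := by
    refine ⟨fun r => exS_R D h.eDu r, h.eSv, ?_, ?_⟩
    · rw [hx, Derivation.leibniz, Derivation.leibniz, Derivation.leibniz_pow, h.eSv,
        exS_R D h.eDu, exS_R D h.eDu]
      simp
    · rw [hx]
      exact mul_ne_zero (mul_ne_zero hw'.ne_zero (pow_ne_zero _ hU.ne_zero)) hv0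
  set L := n - n / f.natDegree with hL
  obtain ⟨hb1, hb2⟩ := FiD.iter_bs hdd h.pres n
  have hfac : IsUnit ((n.factorial : ℕ) : SL u) := by
    have h11 : ((n.factorial : ℕ) : SL u) = algebraMap k (SL u) ((n.factorial : ℕ) : k) := by
      rw [map_natCast]
    rw [h11]
    exact (IsUnit.mk0 _ (by exact_mod_cast Nat.factorial_ne_zero n)).map (algebraMap k (SL u))
  obtain ⟨W, hW, hbs⟩ : ∃ W : SL u, IsUnit W ∧ (⇑(exS u D))^[n] (bs f.natDegree x y n) =
      W * io u u ^ (n * e) * io u p ^ L := by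
    refine ⟨(n.factorial : SL u) * (w : SL u) ^ n * (w1 : SL u) ^ L,
      (hfac.mul (hw'.pow n)).mul (hw1'.pow L), ?_⟩
    apply mul_left_cancel₀ (pow_ne_zero (n / f.natDegree) hv0)
    rw [hb1, hx, coe_uu]
    have h5 : v ^ n = v ^ (n / f.natDegree) * v ^ L := by
      rw [← pow_add, hL, Nat.add_sub_cancel' (Nat.div_le_self _ _)]
    have h6 : v ^ L = (w1 : SL u) ^ L * io u p ^ L := by rw [← mul_pow, ← hv]
    rw [mul_pow, mul_pow, h5, h6, ← pow_mul, mul_comm e n]
    ring
  -- factor `c`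
  obtain ⟨c1, hc1⟩ := h1
  have huc1 : ¬ u ∣ c1 := by
    rintro ⟨s, hs⟩
    exact h2 ⟨s, by rw [hc1, hs, pow_succ]; ring⟩
  have hc10 : c1 ≠ 0 := fun h0 => huc1 (by rw [h0]; exact dvd_zero _)
  obtain ⟨l, c2, hpc2, hc2⟩ : ∃ (l : ℕ) (c2 : B3 k), ¬ p ∣ c2 ∧ c1 = p ^ l * c2 :=
    (FiniteMultiplicity.of_not_isUnit hp.not_isUnit hc10).exists_eq_pow_mul_and_not_dvd.elim
      fun s hs => ⟨_, s, hs.2, hs.1⟩
  have huc2 : ¬ u ∣ c2 := fun h3 => huc1 (by rw [hc2]; exact Dvd.dvd.mul_left h3 _)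
  have hUc2 : ¬ io u u ∣ io u c2 := fun h3 => huc2 ((dvd_io_iff_one hu c2).1 h3)
  have hPc2 : ¬ io u p ∣ io u c2 := by
    intro h3
    have := (dvd_io hu hp hpM 1 c2).1 (by rwa [pow_one])
    rw [pow_one] at this
    exact hpc2 this
  have hioc : io u c = io u u ^ j * (io u p ^ l * io u c2) := by
    rw [hc1, hc2, io_mul, io_mul, io_pow, io_pow]
  -- `c` divides the derivative of the basis element
  obtain ⟨t, ht⟩ := cc_dvd_S hu h hc hb2
  rw [hbs, hioc] at ht
  -- `io c2` is a unit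
  have hc2u : IsUnit (io u c2) := by
    have h3 : io u u ^ (n * e) ∣ io u u ^ j * (io u p ^ l * t) := by
      refine hU.pow_dvd_of_dvd_mul_left (n * e) hUc2 ?_
      refine ⟨W * io u p ^ L, ?_⟩
      linear_combination -ht
    obtain ⟨t1, ht1⟩ := h3
    have h4 : io u c2 * t1 = W * io u p ^ L := by
      apply mul_left_cancel₀ (pow_ne_zero (n * e) hU.ne_zero)
      linear_combination (-(io u c2)) * ht1 - ht
    have h5 : io u p ^ L ∣ t1 := by
      refine hP.pow_dvd_of_dvd_mul_left L hPc2 ?_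
      rw [h4]
      exact dvd_mul_left _ _
    obtain ⟨t2, ht2⟩ := h5
    have h6 : io u c2 * t2 = W := by
      apply mul_left_cancel₀ (pow_ne_zero L hP.ne_zero)
      rw [ht2] at h4
      linear_combination h4
    exact isUnit_of_mul_isUnit_left (by rw [h6]; exact hW)
  -- the exponent of `p`
  have hl : l = L := by
    apply le_antisymm
    · by_contra hlt
      rw [not_le] at hlt
      obtain ⟨s, hs⟩ := Nat.exists_eq_add_of_lt hlt
      have h3 : W * io u u ^ (n * e) = io u p * (io u p ^ s * (io u u ^ j * io u c2 * t)) := by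
        apply mul_left_cancel₀ (pow_ne_zero L hP.ne_zero)
        rw [hs] at ht
        linear_combination ht
      have h4 : io u p ∣ W * io u u ^ (n * e) := by rw [h3]; exact dvd_mul_right _ _
      rcases hP.dvd_or_dvd h4 with h5 | h5
      · exact hP.not_isUnit (isUnit_of_dvd_unit h5 hW)
      · exact hPU (hP.dvd_of_dvd_pow h5)
    · by_contra hlt
      rw [not_le] at hlt
      obtain ⟨b, hbn, hb3⟩ := hc.sharp p hp
      have hz : (⇑(exS u D))^[n + 1] (io u b) = 0 := by rw [exS_iter_io, hbn, io_zero]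
      obtain ⟨m, a, hlt'⟩ := FiD.exists_lt (u := uu u) hdd h.pres h.kap hz
      obtain ⟨-, h3⟩ := FiD.lt_iter hdd h.pres (by rw [coe_uu]; exact hU.ne_zero) hlt'
      rw [hbs, coe_uu, exS_iter_io] at h3
      have h4 : io u p ^ L ∣ io u ((⇑D)^[n] b) := by
        have h45 : ¬ io u p ∣ io u u ^ m := fun h5 => hPU (hP.dvd_of_dvd_pow h5)
        refine hP.pow_dvd_of_dvd_mul_left L h45 ?_
        rw [h3]
        exact ⟨aeval v a * (W * io u u ^ (n * e)), by ring⟩
      have h5 : p ^ L ∣ (⇑D)^[n] b := (dvd_io hu hp hpM L _).1 h4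
      obtain ⟨t', ht'⟩ := hc.dvd b hbn
      have hpt : ¬ p ∣ t' := fun h6 => hb3 (by rw [ht']; exact mul_dvd_mul_left _ h6)
      have h6 : p ^ (l + 1) ∣ (⇑D)^[n] b := dvd_trans (pow_dvd_pow p hlt) h5
      rw [ht', hc1, hc2] at h6
      obtain ⟨s, hs⟩ := h6
      have h7 : p ∣ u ^ j * (c2 * t') := by
        refine ⟨s, ?_⟩
        apply mul_left_cancel₀ (pow_ne_zero l hp.ne_zero)
        rw [pow_succ] at hs
        linear_combination hs
      rcases hp.dvd_or_dvd h7 with h8 | h8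
      · exact hpu (hp.dvd_of_dvd_pow h8)
      rcases hp.dvd_or_dvd h8 with h9 | h9
      · exact hpc2 h9
      · exact hpt h9
  -- conclusion
  have hDc : exS u D (io u c) = 0 := by rw [exS_io, hc.const, io_zero]
  have hDp : exS u D (io u p) = 0 := by
    have : D p = 0 := p'.2
    rw [exS_io, this, io_zero]
  have hDU : exS u D (io u u) = 0 := by rw [exS_io, h.eDu, io_zero]
  have hDc2 : exS u D (io u c2) = 0 := by
    have h3 := hDc
    rw [hioc, Derivation.leibniz, Derivation.leibniz, Derivation.leibniz_pow,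
      Derivation.leibniz_pow, hDp, hDU] at h3
    simp only [smul_eq_mul, mul_zero, smul_zero, add_zero] at h3
    exact (mul_eq_zero.1 ((mul_eq_zero.1 h3).resolve_left
      (pow_ne_zero _ hU.ne_zero))).resolve_left (pow_ne_zero _ hP.ne_zero)
  obtain ⟨r, hr, hrc⟩ := dat_unit_R h hc2u hDc2
  obtain ⟨w2, hw2⟩ := hw1.exists_right_inv
  have hw2S : (w1 : SL u) * (w2 : SL u) = 1 := by
    have := congrArg (fun s : RR u => (s : SL u)) hw2
    simpa using this
  refine ⟨r * w2 ^ L, hr.mul ((IsUnit.of_mul_eq_one w1 (by rw [mul_comm]; exact hw2)).pow L), ?_⟩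
  have h3 : io u p = (w2 : SL u) * v := by
    rw [hv]
    linear_combination (-(io u p)) * hw2S
  rw [hioc, hl, hrc, h3]
  push_cast
  ring

end Pool.Agent.LNDQ
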