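import Mathlib
import Pool.Agent.LNDQ.FiEps
import Pool.Agent.LNDQ.FiGDiv
import Pool.Agent.LNDQ.FiSmall
import Pool.Agent.LNDQ.FiCc

/-!
# dat_GD: the data of the division (FREE)
-/

set_option autoImplicit false
set_option linter.unusedSectionVars false

open Polynomial

namespace Pool.Agent.LNDQ

open Pool.Agent.LNDF Pool.Agent.LNDHom

/-- the greatest common divisor may be changed by a unit -/
theorem IsCC.unit_mul {k B : Type} [Field k] [CharZero k] [CommRing B] [IsDomain B] [Algebra k B]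
    {D : Derivation k B B} (hln : ∀ x, ∃ n, (⇑D)^[n] x = 0) {n : ℕ} {c d : B} (hc : IsCC D n c)
    (hd : Associated c d) : IsCC D n d := by
  obtain ⟨ε, rfl⟩ := hd
  have hDe : D (ε : B) = 0 := const_of_dvd D hln (a := 1) (by simp) one_ne_zero
    ⟨(↑(ε⁻¹) : B), by rw [Units.mul_inv]⟩
  refine ⟨mul_ne_zero hc.ne ε.ne_zero, ?_, ?_, ?_⟩
  · rw [Derivation.leibniz, hDe, hc.const, smul_zero, smul_zero, add_zero]
  · intro x hx
    exact (Units.mul_right_dvd).2 (hc.dvd x hx)
  · intro p hp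
    obtain ⟨x, hx, hx1⟩ := hc.sharp p hp
    refine ⟨x, hx, fun h => hx1 ?_⟩
    have e1 : c * (ε : B) * p = (c * p) * ε := by ring
    rw [e1] at h
    exact (Units.mul_right_dvd).1 h

/-- `N - N / b` does not change from `N - 1` to `N`: then `b` divides `N` -/
theorem dvd_of_sub {N b : ℕ} (hb : 2 ≤ b) (hN : 0 < N) (h : N - 1 - (N - 1) / b = N - N / b) :
    b ∣ N := by
  have h1 : (N - 1) / b ≤ N - 1 := Nat.div_le_self _ _
  have h2 : N / b ≤ N := Nat.div_le_self _ _
  have h3 : N / b = (N - 1) / b + 1 := by omega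
  have h4 : b * (N / b) ≤ N := Nat.mul_div_le N b
  have h5 : N - 1 < b * ((N - 1) / b + 1) := by
    have := Nat.lt_mul_div_succ (N - 1) (show 0 < b by omega)
    simpa using this
  rw [← h3] at h5
  exact ⟨N / b, by omega⟩

variable {k : Type} [Field k] [CharZero k] [IsAlgClosed k]
  {u v0 : B3 k} {D : Derivation k (B3 k) (B3 k)} {f : (RR u)[X]} {v x y : SL u} {e : ℕ}

theorem gd_dom (h : Dat u v0 D f v x y e) : IsDomain (SL u) := domS (dat_prime_u h)

theorem gd_v_ne (h : Dat u v0 D f v x y e) : v ≠ 0 := by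
  have hdom := gd_dom h
  rintro rfl
  have h4 : (X : (RR u)[X]) = 0 := FiD.aeval_inj h.pres (by simp)
  exact X_ne_zero h4

theorem gd_unit_ne (h : Dat u v0 D f v x y e) {w : RR u} (hw : IsUnit w) : (w : SL u) ≠ 0 := by
  have hdom := gd_dom h
  intro h0
  have h3 := hw.map (RR u).val
  have h4 : ((RR u).val w : SL u) = 0 := h0
  rw [h4] at h3
  exact not_isUnit_zero h3

theorem gd_dd (h : Dat u v0 D f v x y e) : FiD.DD (RR u) v x (exS u D) := by
  have hdom := gd_dom h
  obtain ⟨w, hw, hx⟩ := h.eSx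
  have hu0 : io u u ≠ 0 := (primeS (dat_prime_u h)).ne_zero
  refine ⟨fun r => exS_R D h.eDu r, h.eSv, ?_, ?_⟩
  · rw [hx, Derivation.leibniz, Derivation.leibniz, Derivation.leibniz_pow, h.eSv,
      exS_R D h.eDu, exS_R D h.eDu]
    simp
  · rw [hx]
    exact mul_ne_zero (mul_ne_zero (gd_unit_ne h hw) (pow_ne_zero _ hu0)) (gd_v_ne h)

/-- the leading coefficient of the basis element -/
theorem gd_bs (h : Dat u v0 D f v x y e) (n : ℕ) : ∃ w : RR u, IsUnit w ∧
    (⇑(exS u D))^[n] (bs f.natDegree x y n) =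
      w * io u u ^ (n * e) * v ^ (n - n / f.natDegree) := by
  have hdom := gd_dom h
  obtain ⟨w, hw, hx⟩ := h.eSx
  have hfac : IsUnit ((n.factorial : ℕ) : RR u) := by
    have h1 : ((n.factorial : ℕ) : RR u) = algebraMap k (RR u) ((n.factorial : ℕ) : k) := by
      rw [map_natCast]
    rw [h1]
    exact (IsUnit.mk0 _ (by exact_mod_cast Nat.factorial_ne_zero n)).map _
  refine ⟨(n.factorial : RR u) * w ^ n, hfac.mul (hw.pow n), ?_⟩
  have h1 := (FiD.iter_bs (gd_dd h) h.pres n).1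
  apply mul_left_cancel₀ (pow_ne_zero (n / f.natDegree) (gd_v_ne h))
  rw [h1, hx, coe_uu]
  have h2 : v ^ n = v ^ (n / f.natDegree) * v ^ (n - n / f.natDegree) := by
    rw [← pow_add, Nat.add_sub_cancel' (Nat.div_le_self _ _)]
  have h3 : (((n.factorial : RR u) * w ^ n : RR u) : SL u) = (n.factorial : SL u) * (w : SL u) ^ n := by
    push_cast
    rfl
  rw [h3, mul_pow, mul_pow, h2, ← pow_mul, mul_comm e n]
  ring

/-- the exponents of `u` and of `v` are well defined -/
theorem gd_uniq (h : Dat u v0 D f v x y e) {w w' : RR u} (hw : IsUnit w) (hw' : IsUnit w')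
    {i i' a a' : ℕ} (h1 : (w : SL u) * io u u ^ i * v ^ a = w' * io u u ^ i' * v ^ a') : a = a' := by
  have hdom := gd_dom h
  have hdomR : IsDomain (RR u) := inferInstance
  have key : ∀ (w : RR u) (i a : ℕ), (w : SL u) * io u u ^ i * v ^ a =
      aeval v (C (w * uu u ^ i) * X ^ a : (RR u)[X]) := by
    intro w i a
    rw [map_mul, aeval_C, map_pow, aeval_X]
    rfl
  rw [key, key] at h1
  have h2 : (C (w * uu u ^ i) * X ^ a : (RR u)[X]) = C (w' * uu u ^ i') * X ^ a' := by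
    rw [← sub_eq_zero]
    apply FiD.aeval_inj h.pres
    rw [map_sub, h1, sub_self]
  have hu0 : uu u ≠ 0 := by
    intro h3
    have h4 : io u u = 0 := congrArg (fun z : RR u => (z : SL u)) h3
    exact (primeS (dat_prime_u h)).ne_zero h4
  have h5 : w * uu u ^ i ≠ 0 := mul_ne_zero hw.ne_zero (pow_ne_zero _ hu0)
  have h6 : w' * uu u ^ i' ≠ 0 := mul_ne_zero hw'.ne_zero (pow_ne_zero _ hu0)
  have h7 := congrArg natDegree h2
  rwa [natDegree_C_mul_X_pow _ _ h5, natDegree_C_mul_X_pow _ _ h6] at h7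

/-- FREE: the data of the division -/
theorem dat_GD (h : Dat u v0 D f v x y e) :
    ∃ N W W0 G, GD (RR u) (uu u) f.natDegree v x y N W W0 e G := by
  classical
  have hdom := gd_dom h
  have hup := dat_prime_u h
  obtain ⟨N0, G0, A, G, r, hP, hG, hr⟩ := exists_arith_slice (dat_kd h)
  have hN := A.N_pos
  -- `cc (N - 1)` and `cc N`
  have hcN := A.isCC A.N
  have hcN1 : IsCC D (A.N - 1) (A.cc A.N) := by
    refine IsCC.unit_mul h.ln (A.isCC (A.N - 1)) ?_
    have h1 := A.compl 0 hN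
    have h2 : IsUnit (A.cc 0) := isUnit_of_dvd_one ((A.isCC 0).dvd 1 (by simp))
    rw [Nat.sub_zero] at h1
    exact (associated_unit_mul_left _ _ h2).symm.trans h1
  -- the exponent of `u`
  obtain ⟨j, hj1, hj2⟩ : ∃ j, u ^ j ∣ A.cc A.N ∧ ¬ u ^ (j + 1) ∣ A.cc A.N := by
    obtain ⟨M, hM⟩ := (frS hup).sep (io u (A.cc A.N)) (by
      intro h0
      exact hcN.ne (io_inj hup (by rw [h0]; exact io_zero.symm)))
    rw [coe_uu, dvd_io_iff hup] at hM
    have hex : ∃ m, ¬ u ^ m ∣ A.cc A.N := ⟨M, hM⟩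
    have h0 : Nat.find hex ≠ 0 := by
      intro h0
      have := Nat.find_spec hex
      rw [h0, pow_zero] at this
      exact this (one_dvd _)
    obtain ⟨j, hj⟩ := Nat.exists_eq_succ_of_ne_zero h0
    refine ⟨j, ?_, ?_⟩
    · have := Nat.find_min hex (m := j) (by omega)
      push Not at this
      exact this
    · have := Nat.find_spec hex
      rwa [hj] at this
  obtain ⟨w, hw, hwc⟩ := ccS h hcN hj1 hj2
  obtain ⟨w', hw', hwc'⟩ := ccS h hcN1 hj1 hj2
  have hν := gd_uniq h hw' hw (hwc'.symm.trans hwc)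
  have hdvd : f.natDegree ∣ A.N := dvd_of_sub h.pres.deg hN hν
  obtain ⟨W, hW⟩ := dat_eps_of hup h A.N
  obtain ⟨W0, hW0⟩ := dat_eps_of hup h (A.N - 1)
  have hWj := (eps_iff h hcN hj1 hj2 W).1 hW
  have hWj0 := (eps_iff h hcN1 hj1 hj2 W0).1 hW0
  have hWe : W = W0 + e := by
    have h1 : A.N * e = (A.N - 1) * e + e := by
      obtain ⟨m, hm⟩ : ∃ m, A.N = m + 1 := ⟨A.N - 1, by omega⟩
      rw [hm, Nat.add_sub_cancel]
      ring
    omega
  obtain ⟨ρ, hρ, hρc⟩ := gd_bs h A.N
  obtain ⟨w1, hw1⟩ := hw.exists_left_inv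
  have hw1S : (w1 : SL u) * (w : SL u) = 1 := congrArg (fun z : RR u => (z : SL u)) hw1
  obtain ⟨ρ1, hρ1⟩ := hρ.exists_left_inv
  have hρ1S : (ρ1 : SL u) * (ρ : SL u) = 1 := congrArg (fun z : RR u => (z : SL u)) hρ1
  refine ⟨A.N, W, W0, ((ρ * w1 : RR u) : SL u) * io u G, hN, hdvd, ?_, hW, hW0, hWe, ?_⟩
  · -- the leading term
    rw [FiD.lt_iff (gd_dd h) h.pres (primeS hup).ne_zero h.kap]
    constructor
    · rw [exS_iter_smul D h.eDu, exS_iter_io, Function.iterate_succ_apply', hG, hcN.const, io_zero,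
        mul_zero]
    · rw [exS_iter_smul D h.eDu, exS_iter_io, hG, hwc, hρc, map_one, one_mul, coe_uu, ← hWj, pow_add]
      push_cast
      linear_combination ((ρ : SL u) * io u u ^ W * io u u ^ j *
        v ^ (A.N - A.N / f.natDegree)) * hw1S
  · intro z
    obtain ⟨q, b, hq, hz⟩ := exists_mul z
    obtain ⟨s, t, hst, ht⟩ := gd_div h.ne h.ln A hG b
    have hq' : q.eval 0 ≠ 0 := by rw [hq]; exact one_ne_zero
    obtain ⟨q1, hq1⟩ := (io_unit (u := u) hq').exists_right_inv
    refine ⟨q1 * io u s * ((w : SL u) * ρ1), q1 * io u t, ?_, ?_⟩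
    · have h1 : z = q1 * io u b := by
        rw [← hz]
        linear_combination (-z) * hq1
      have h5 : (w : SL u) * ρ1 * (ρ * w1) = 1 := by
        linear_combination (ρ1 : SL u) * ρ * hw1S + hρ1S
      rw [h1, hst, io_add, io_mul]
      push_cast
      linear_combination (-(q1 * io u s * io u G)) * h5
    · refine FiD.low_of_iter (gd_dd h) h.pres (primeS hup).ne_zero h.kap ?_
      rw [exS_iter_eq_zero hup D h.eDu hq' (b := t) (z := q1 * io u t) ?_]
      · exact ht
      · linear_combination (io u t) * hq1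

end Pool.Agent.LNDQ
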