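import Mathlib
import Pool.Agent.LNDQ.BDefs
import Pool.Agent.LNDQ.DGInt
import Pool.Agent.LNDQ.FiPoint
import Pool.Agent.LNDF.Fin4

/-!
# `y` is integral over `k[v]` modulo `u`
-/

set_option autoImplicit false

open Polynomial

namespace Pool.Agent.LNDQ

open Pool.Agent.LNDHom Pool.Agent.LNDF

section lift

variable {k : Type} [Field k] (u : B3 k)

/-- the residue ring of `S` -/
abbrev IT (u : B3 k) : Type := SL u ⧸ Ideal.span {io u u}

/-- the residue map of `S` -/
noncomputable abbrev iπ (u : B3 k) : SL u →ₐ[k] IT u := Ideal.Quotient.mkₐ k (Ideal.span {io u u})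

/-- the residue map on `B` -/
noncomputable abbrev iψ (u : B3 k) : B3 k →ₐ[k] IT u :=
  (iπ u).comp (IsScalarTower.toAlgHom k (B3 k) (SL u))

theorem iπ_eq_zero (z : SL u) : iπ u z = 0 ↔ io u u ∣ z := by
  rw [Ideal.Quotient.mkₐ_eq_mk, Ideal.Quotient.eq_zero_iff_mem, Ideal.mem_span_singleton]

theorem iψ_apply (b : B3 k) : iψ u b = iπ u (io u b) := rfl

theorem iψ_aeval (q : k[X]) : iψ u (aeval u q) = algebraMap k (IT u) (q.eval 0) := by
  have h0 : iψ u u = 0 := by
    rw [iψ_apply, iπ_eq_zero]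
  rw [← aeval_algHom_apply, h0, ← coeff_zero_eq_aeval_zero', coeff_zero_eq_eval_zero]

variable {u}

/-- elements of `R` are constants modulo `u` -/
theorem iπ_RR (r : RR u) : ∃ c : k, iπ u (r : SL u) = algebraMap k (IT u) c := by
  obtain ⟨z, p, q, hq, h⟩ := r
  refine ⟨p.eval 0 * (q.eval 0)⁻¹, ?_⟩
  have h1 := congrArg (iπ u) h
  rw [map_mul, ← iψ_apply, ← iψ_apply, iψ_aeval, iψ_aeval] at h1
  rw [map_mul, ← h1, mul_assoc, ← map_mul, mul_inv_cancel₀ hq, map_one, mul_one]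

end lift

variable {k : Type} [Field k] [CharZero k]
  {u v0 : B3 k} {D : Derivation k (B3 k) (B3 k)} {f : (RR u)[X]} {v x y : SL u} {e : ℕ}

/-- `u` divides in `B` what it divides in `S` -/
theorem int_dvd_of_io (h : Dat u v0 D f v x y e) {b : B3 k} (hb : io u u ∣ io u b) : u ∣ b := by
  obtain ⟨z, hz⟩ := hb
  obtain ⟨c, q, hq, hc⟩ := sl_surj z
  have hu := dat_tr h
  have hdom := sl_dom hu
  have h1 : b * aeval u q = u * c := io_injT hu (by
    simp only [io, map_mul] at hz hc ⊢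
    rw [hz, ← hc]
    ring)
  have h2 : ¬ u ∣ aeval u q := by
    intro h3
    have h4 : iψ u (aeval u q) = 0 := by
      obtain ⟨w, hw⟩ := h3
      rw [hw, map_mul, iψ_apply u u, (iπ_eq_zero u _).2 dvd_rfl, zero_mul]
    rw [iψ_aeval] at h4
    have h5 : IsUnit (algebraMap k (IT u) (q.eval 0)) := (IsUnit.mk0 _ hq).map _
    rw [h4, isUnit_zero_iff] at h5
    have h6 : iπ u 1 = 0 := by rw [map_one, ← h5]
    rw [iπ_eq_zero] at h6
    obtain ⟨w, hw⟩ := h6
    obtain ⟨c', q', hq', hc'⟩ := sl_surj w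
    have h7 : aeval u q' = u * c' := io_injT hu (by
      simp only [io, map_mul] at hw hc' ⊢
      rw [← hc', ← mul_assoc, ← hw, one_mul])
    have h8 : aeval u (C (q'.eval 0)) = u * (c' - aeval u q'.divX) := by
      have h9 := congrArg (aeval u) q'.divX_mul_X_add
      rw [map_add, map_mul, aeval_X, coeff_zero_eq_eval_zero] at h9
      rw [mul_sub, ← h7, ← h9]
      ring
    rw [aeval_C] at h8
    exact (dat_prime_u h).not_isUnit (isUnit_of_dvd_unit ⟨_, h8⟩
      ((IsUnit.mk0 _ hq').map (algebraMap k (B3 k))))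
  exact ((dat_prime_u h).dvd_or_dvd ⟨c, h1⟩).resolve_right h2

omit [CharZero k] in
/-- `u` divides `D y` -/
theorem int_dvd_Dy (h : Dat u v0 D f v x y e) (he : 1 ≤ e) : io u u ∣ exS u D y := by
  have hu := dat_tr h
  have hdom := sl_dom hu
  obtain ⟨w1, hw1, h1⟩ := h.jac
  obtain ⟨w2, hw2, h2⟩ := h.jD
  have hv : exS u D v = 0 := (h.kerS v).2 (Algebra.subset_adjoin rfl)
  have hr : ∀ r : RR u, exS u D (r : SL u) = 0 := fun r =>
    (h.kerS _).2 (Subalgebra.algebraMap_mem _ r)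
  have h3 : exS u D x = (w2 : SL u) * w1 * (io u u ^ e * v) := by
    rw [h2, h1]
    ring
  have h4 : ∀ g : (RR u)[X], ∃ z : SL u, exS u D (aeval x g) = z * (io u u ^ e * v) := by
    intro g
    induction g using Polynomial.induction_on' with
    | add p q hp hq =>
      obtain ⟨z, hz⟩ := hp
      obtain ⟨z', hz'⟩ := hq
      exact ⟨z + z', by rw [map_add, map_add, hz, hz', add_mul]⟩
    | monomial n a =>
      refine ⟨a * (n * x ^ (n - 1) * (w2 * w1)), ?_⟩
      rw [aeval_monomial, Derivation.leibniz, Derivation.leibniz_pow]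
      have h5 : exS u D (algebraMap (RR u) (SL u) a) = 0 := hr a
      rw [h5, smul_zero, add_zero, h3]
      simp only [smul_eq_mul, nsmul_eq_mul]
      change (a : SL u) * _ = _
      ring
  obtain ⟨z, hz⟩ := h4 f
  have h5 := congrArg (exS u D) h.pres.rel
  rw [hz, Derivation.leibniz, hv, smul_zero, add_zero, smul_eq_mul] at h5
  have hv0 : v ≠ 0 := by
    intro h0
    have := h.pres.ind.transcendental 0
    exact (transcendental_iff.1 this X (by simpa using h0)) |> X_ne_zero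
  have h6 : exS u D y = z * io u u ^ e := by
    apply mul_left_cancel₀ hv0
    rw [h5]
    ring
  rw [h6]
  exact Dvd.dvd.mul_left (dvd_pow_self _ (by omega)) _

/-- constants of `D` are polynomials in `v` modulo `u` -/
theorem int_const (h : Dat u v0 D f v x y e) {b : B3 k} (hb : D b = 0) :
    ∃ q : k[X], aeval (iπ u v) q = iψ u b := by
  let φ : k[X] →ₐ[k] IT u := aeval (iπ u v)
  suffices H : Algebra.adjoin k {u, v0} ≤ φ.range.comap (iψ u) from H ((h.ker b).1 hb)
  rw [Algebra.adjoin_le_iff]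
  rintro z (rfl | hz)
  · refine ⟨0, ?_⟩
    show φ 0 = iψ z z
    rw [map_zero, iψ_apply, eq_comm, iπ_eq_zero]
  · rw [Set.mem_singleton_iff] at hz
    subst hz
    obtain ⟨a, b, ha, hv⟩ := dat_lin h
    obtain ⟨a', ha'⟩ := ha.exists_left_inv
    obtain ⟨c1, hc1⟩ := iπ_RR a'
    obtain ⟨c2, hc2⟩ := iπ_RR b
    refine ⟨C c1 * (X - C c2), ?_⟩
    show φ (C c1 * (X - C c2)) = iψ u z
    have h1 : io u z = (a' : SL u) * (v - b) := by
      have h2 : (a' : SL u) * a = 1 := by rw [← Subalgebra.coe_mul, ha', Subalgebra.coe_one]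
      rw [hv]
      linear_combination (-io u z) * h2
    rw [iψ_apply, h1, map_mul, map_sub, map_mul, map_sub, hc1, hc2]
    simp only [φ, aeval_C, aeval_X]

/-- **dat_int**: `y` is integral over `k[v]` modulo `u` -/
theorem dat_int [IsAlgClosed k] (h : Dat u v0 D f v x y e) (he : 1 ≤ e) :
    ∃ χ : (k[X])[X], χ.Monic ∧ io u u ∣ eval₂ (aeval v : k[X] →ₐ[k] SL u).toRingHom y χ := by
  have hu := dat_tr h
  have hdom := sl_dom hu
  obtain ⟨b, q, hq, hb⟩ := sl_surj y
  have hDb : u ∣ D b := by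
    apply int_dvd_of_io h
    rw [← dat_ex h hb]
    exact Dvd.dvd.mul_right (int_dvd_Dy h he) _
  obtain ⟨N, G, hP⟩ := pkg_all D h.ne h.ln u v0 h.ind h.ker
  have hDu : D u = 0 := (h.ker u).2 (Algebra.subset_adjoin (by simp))
  obtain ⟨χ, hχ, hχc, hχd⟩ := int_monic h.ln hP (dat_prime_u h) hDu
    (h.irr u (dat_prime_u h) hDu) hDb
  let φ : k[X] →+* IT u := (aeval (iπ u v) : k[X] →ₐ[k] IT u).toRingHom
  have h1 : φ.IsIntegralElem (iψ u b) := by
    have hl : χ.map (iψ u).toRingHom ∈ lifts φ := by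
      rw [lifts_iff_coeff_lifts]
      intro i
      rw [coeff_map]
      obtain ⟨p, hp⟩ := int_const h (hχc i)
      exact ⟨p, hp⟩
    obtain ⟨χ', h2, -, h3⟩ := lifts_and_natDegree_eq_and_monic hl (hχ.map _)
    refine ⟨χ', h3, ?_⟩
    rw [← eval_map, h2, eval_map]
    have h4 : eval₂ (iψ u).toRingHom (iψ u b) χ = iψ u (χ.eval b) := by
      have := hom_eval₂ χ (RingHom.id (B3 k)) (iψ u).toRingHom b
      rw [RingHom.comp_id] at this
      exact this.symm
    rw [h4]
    obtain ⟨w, hw⟩ := hχd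
    rw [hw, map_mul, iψ_apply u u, (iπ_eq_zero u _).2 dvd_rfl, zero_mul]
  have h2 : iπ u y = φ (C (q.eval 0)⁻¹) * iψ u b := by
    have h3 : φ (C (q.eval 0)⁻¹) = algebraMap k (IT u) (q.eval 0)⁻¹ := aeval_C _ _
    rw [h3, iψ_apply, ← hb, map_mul, ← iψ_apply, iψ_aeval]
    have h4 : algebraMap k (IT u) (q.eval 0)⁻¹ * algebraMap k (IT u) (q.eval 0) = 1 := by
      rw [← map_mul, inv_mul_cancel₀ hq, map_one]
    linear_combination (-iπ u y) * h4
  have h3 : φ.IsIntegralElem (iπ u y) := by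
    rw [h2]
    exact RingHom.IsIntegralElem.mul _ (φ.isIntegralElem_map) h1
  obtain ⟨χ', h4, h5⟩ := h3
  refine ⟨χ', h4, ?_⟩
  rw [← iπ_eq_zero]
  have h6 := hom_eval₂ χ' (aeval v : k[X] →ₐ[k] SL u).toRingHom (iπ u).toRingHom y
  have h7 : (iπ u).toRingHom.comp (aeval v : k[X] →ₐ[k] SL u).toRingHom = φ := by
    refine RingHom.ext fun p => ?_
    show iπ u (aeval v p) = aeval (iπ u v) p
    rw [aeval_algHom_apply]
  rw [h7] at h6
  exact h6.trans h5

end Pool.Agent.LNDQ
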