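import Mathlib
import Pool.Agent.LNDQ.FiRes

/-!
# LNDQ/FinInd: generators of the kernel are algebraically independent
-/

set_option autoImplicit false

open Polynomial

namespace Pool.Agent.LNDQ

open Pool.Agent.LNDHom Pool.Agent.LNDF Pool.Agent.LNDT

/-- two generators of the kernel of a nonzero locally nilpotent derivation of `k[x, y, z]` are algebraically
independent -/
theorem ind_of_ker {k : Type} [Field k] [CharZero k] (D : Derivation k (B3 k) (B3 k))
    (hD : ∃ x, D x ≠ 0) (hln : ∀ x, ∃ n, (⇑D)^[n] x = 0) (f g : B3 k)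
    (hker : ∀ b, D b = 0 ↔ b ∈ Algebra.adjoin k {f, g}) : AlgebraicIndependent k ![f, g] := by
  classical
  obtain ⟨r, hr1, hr2⟩ := exists_deg D hD hln 1
  have hr2' : D (D r) = 0 := hr2
  have hr1' : D r ≠ 0 := hr1
  obtain ⟨S, hS⟩ : ∃ S, S = Algebra.adjoin k (Set.range ![f, g, r]) := ⟨_, rfl⟩
  have hA : ∀ a : B3 k, D a = 0 → a ∈ S := by
    intro a ha
    rw [hS]
    refine Algebra.adjoin_mono ?_ ((hker a).1 ha)
    rintro y (rfl | rfl)
    · exact ⟨0, rfl⟩
    · exact ⟨1, rfl⟩
  have hrS : r ∈ S := by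
    rw [hS]
    exact Algebra.subset_adjoin ⟨2, rfl⟩
  have halg : Algebra.IsAlgebraic S (B3 k) := by
    constructor
    intro x
    obtain ⟨n, hn⟩ := hln x
    obtain ⟨a, ha, R, -, hR⟩ := E1_repr (D := D) rfl hr2' hr1' n x hn
    have hy : aeval r R ∈ S := by
      rw [aeval_eq_sum_range]
      refine S.sum_mem fun i _ => ?_
      exact S.mul_mem (hA _ (R.coeff i).2) (S.pow_mem hrS i)
    refine ⟨C ⟨a, hA a a.2⟩ * X - C ⟨aeval r R, hy⟩, ?_, ?_⟩
    · intro h
      have h1 := congrArg (fun P => P.coeff 1) h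
      simp only [coeff_sub, coeff_C_mul, coeff_X_one, mul_one, coeff_C, one_ne_zero, if_false, sub_zero,
        coeff_zero] at h1
      exact ha (congrArg Subtype.val h1)
    · rw [map_sub, map_mul, aeval_C, aeval_C, aeval_X]
      show (a : B3 k) * x - aeval r R = 0
      rw [hR, sub_self]
  subst hS
  have h1 : IsTranscendenceBasis k ![f, g, r] :=
    Algebra.IsAlgebraic.isTranscendenceBasis_of_le_trdeg_of_finite k _ (by simp)
  have h2 := h1.1.comp ![0, 1] (by decide)
  have h3 : ![f, g] = ![f, g, r] ∘ ![0, 1] := by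
    funext i
    fin_cases i
    · rfl
    · rfl
  rw [h3]
  exact h2

end Pool.Agent.LNDQ
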