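import Mathlib
import Pool.Agent.LNDQ.NfIntg
import Pool.Agent.LNDQ.LocDeg

set_option autoImplicit false

set_option linter.unusedSectionVars false

open Polynomial

namespace Pool.Agent.LNDQ

variable {k S : Type} [Field k] [CommRing S] [IsDomain S] [Algebra k S] {R : Subalgebra k S} {u : R}
  {f : R[X]} {v x y : S}

/-- a derivation of `S` on `R`, modulo powers of `u` -/
theorem er_approx (hF : Fr R u) (E : Derivation k S S) (M : ℕ) :
    ∀ r : R, ∃ (σ : R) (z : S), E (r : S) = σ * E u + (u : S) ^ M * z := by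
  induction M with
  | zero => exact fun r => ⟨0, E (r : S), by simp⟩
  | succ M ih =>
    intro r
    obtain ⟨c, r', hr⟩ := hF.res r
    obtain ⟨σ, z, h⟩ := ih r'
    have h1 : (r : S) = algebraMap k S c + (u : S) * (r' : S) := by
      conv_lhs => rw [hr]
      rfl
    refine ⟨r' + u * σ, z, ?_⟩
    rw [h1, map_add, Derivation.map_algebraMap, Derivation.leibniz, h, smul_eq_mul, smul_eq_mul]
    push_cast
    ring

/-- the divisibility by `u` of an element of `R` -/
theorem er_dvd (hF : Fr R u) {M : ℕ} {r : R} {z : S} (h : (r : S) = (u : S) ^ M * z) : u ^ M ∣ r := by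
  induction M generalizing r z with
  | zero => simp
  | succ M ih =>
    have h1 : (r : S) = (u : S) ^ M * ((u : S) * z) := by rw [h]; ring
    obtain ⟨r', hr'⟩ := ih h1
    have h2 : (r' : S) = (u : S) * z := by
      have h3 : (u : S) ^ M * (r' : S) = (u : S) ^ M * ((u : S) * z) := by
        rw [← h1, hr']; push_cast; rfl
      exact mul_left_cancel₀ (pow_ne_zero _ hF.prime.ne_zero) h3
    have h4 : z ∈ R := hF.sat z (by rw [← h2]; exact r'.2)
    refine ⟨⟨z, h4⟩, ?_⟩
    rw [hr', pow_succ, mul_assoc]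
    congr 1
    exact Subtype.ext h2

/-- `E R ⊆ R E u` -/
theorem er_main (hE : Env R u f v x y)
    (hCx : ∀ z ∈ Cx R v x y, ∃ n, z ∈ Low R f.natDegree v x y n)
    (he : ∀ c : ℕ →₀ R[X], cmb f.natDegree v x y c = 0 → c = 0)
    (E : Derivation k S S) (hu : E (u : S) ≠ 0) (r : R) : ∃ r' : R, E (r : S) = r' * E u := by
  classical
  have hF := hE.fr
  have hu0 : (u : S) ≠ 0 := hF.prime.ne_zero
  -- a common bound for the degrees
  obtain ⟨m1, h1⟩ := hE.kap (E (r : S))
  obtain ⟨m2, h2⟩ := hE.kap (E (u : S))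
  obtain ⟨n1, h1⟩ := hCx _ h1
  obtain ⟨n2, h2⟩ := hCx _ h2
  have hmono : ∀ {n m : ℕ}, n ≤ m → Low R f.natDegree v x y n ≤ Low R f.natDegree v x y m := by
    intro n m hnm
    apply Submodule.span_mono
    rintro z ⟨i, j, hj, rfl⟩
    exact ⟨i, j, by omega, rfl⟩
  have hum : ∀ (m : ℕ) {n : ℕ} {z : S}, z ∈ Low R f.natDegree v x y n →
      (u : S) ^ m * z ∈ Low R f.natDegree v x y n := by
    intro m n z hz
    have := Submodule.smul_mem _ (u ^ m) hz
    rwa [Algebra.smul_def, map_pow] at this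
  have hrm : ∀ (s : R) {n : ℕ} {z : S}, z ∈ Low R f.natDegree v x y n →
      (s : S) * z ∈ Low R f.natDegree v x y n := by
    intro s n z hz
    have := Submodule.smul_mem _ s hz
    rwa [Algebra.smul_def] at this
  obtain ⟨M0, hM0⟩ := hE.eps (n1 + n2)
  have hint := fun z (hz : Fl R u f.natDegree v x y (n1 + n2 + 1) z) => intg_of_ind hE he hM0 hz
  -- the expansion of `E u`
  have hb : Fl R u f.natDegree v x y (n1 + n2 + 1) (E (u : S)) := ⟨m2, hmono (by omega) h2⟩
  obtain ⟨b, hb1, -⟩ := (mem_low_iff _ _ _ _ _ _).1 (hint _ hb)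
  have ha : Fl R u f.natDegree v x y (n1 + n2 + 1) (E (r : S)) := ⟨m1, hmono (by omega) h1⟩
  obtain ⟨a, ha1, -⟩ := (mem_low_iff _ _ _ _ _ _).1 (hint _ ha)
  have hb0 : b ≠ 0 := by
    rintro rfl
    rw [Finsupp.sum_zero_index] at hb1
    rcases mul_eq_zero.1 hb1 with h | h
    · exact pow_ne_zero _ hu0 h
    · exact hu h
  obtain ⟨i, hi⟩ := Finsupp.ne_iff.1 hb0
  obtain ⟨j, hj⟩ : ∃ j, (b i).coeff j ≠ 0 := by
    by_contra hc
    push Not at hc
    exact hi (Polynomial.ext (by simpa using hc))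
  -- the relations modulo powers of `u`
  have key : ∀ M : ℕ, ∃ (σ g : R) (z : S), E (r : S) = σ * E u + (u : S) ^ M * z ∧
      (a i).coeff j = σ * (b i).coeff j + u ^ M * g := by
    intro M
    obtain ⟨σ, z, hσ⟩ := er_approx hF E M r
    have hz : Fl R u f.natDegree v x y (n1 + n2 + 1) z := by
      refine ⟨m1 + m2 + M, ?_⟩
      have h3 : (u : S) ^ (m1 + m2 + M) * z =
          (u : S) ^ m2 * ((u : S) ^ m1 * E (r : S)) -
            (σ : S) * ((u : S) ^ m1 * ((u : S) ^ m2 * E (u : S))) := by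
        rw [hσ]; ring
      rw [h3]
      exact Submodule.sub_mem _ (hum _ (hmono (by omega) h1))
        (hrm _ (hum _ (hmono (by omega) h2)))
    obtain ⟨c, hc1, -⟩ := (mem_low_iff _ _ _ _ _ _).1 (hint _ hz)
    have h4 : a = C σ • b + (C (u ^ M) : R[X]) • c := by
      have h5 : cmb f.natDegree v x y (a - (C σ • b + (C (u ^ M) : R[X]) • c)) = 0 := by
        have h6 : a - (C σ • b + (C (u ^ M) : R[X]) • c) =
            a + (-1 : R[X]) • (C σ • b + (C (u ^ M) : R[X]) • c) := by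
          rw [neg_one_smul, sub_eq_add_neg]
        rw [h6, cmb_add, cmb_smul, cmb_add, cmb_smul, cmb_smul]
        unfold cmb
        rw [← ha1, ← hb1, ← hc1, hσ, aeval_C, aeval_C, map_neg, map_one]
        have h7 : algebraMap R S (u ^ M) = (u : S) ^ M := by rw [map_pow]; rfl
        have h8 : algebraMap R S σ = (σ : S) := rfl
        rw [h7, h8]
        ring
      have h9 := he _ h5
      refine Finsupp.ext fun i' => ?_
      have h10 := DFunLike.congr_fun h9 i'
      rw [Finsupp.sub_apply, Finsupp.zero_apply] at h10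
      exact sub_eq_zero.1 h10
    refine ⟨σ, (c i).coeff j, z, hσ, ?_⟩
    rw [h4, Finsupp.add_apply, Finsupp.smul_apply, Finsupp.smul_apply, smul_eq_mul, smul_eq_mul,
      coeff_add, coeff_C_mul, coeff_C_mul]
  -- the order of the coefficient of `E u`
  set q := (b i).coeff j with hq
  have hq0 : (q : S) ≠ 0 := fun h => hj (Subtype.ext h)
  obtain ⟨t, q', hq', hqu⟩ : ∃ (t : ℕ) (q' : R), q = u ^ t * q' ∧ IsUnit q' := by
    have hex := hF.sep _ hq0
    classical
    have hf := Nat.find_spec hex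
    have hmin := fun m (hm : m < Nat.find hex) => Nat.find_min hex hm
    generalize Nat.find hex = T at hf hmin
    have hT : T ≠ 0 := by
      rintro rfl
      exact hf (by simp)
    obtain ⟨t, rfl⟩ : ∃ t, T = t + 1 := ⟨T - 1, by omega⟩
    have h5 := hmin t (Nat.lt_succ_self t)
    rw [not_not] at h5
    obtain ⟨z, hz⟩ := h5
    obtain ⟨q', hq'⟩ := er_dvd hF hz
    refine ⟨t, q', hq', hF.inv q' ?_⟩
    rintro ⟨z', hz'⟩
    apply hf
    refine ⟨z', ?_⟩
    rw [hq']
    push_cast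
    rw [hz']
    ring
  obtain ⟨σt, gt, zt, -, hpt⟩ := key t
  obtain ⟨p', hp'⟩ : ∃ p', (a i).coeff j = u ^ t * p' := ⟨σt * q' + gt, by rw [hpt, hq']; ring⟩
  obtain ⟨qi, hqi⟩ := hqu.exists_right_inv
  refine ⟨p' * qi, ?_⟩
  have huR : (u : R) ≠ 0 := fun h => hu0 (by rw [h]; rfl)
  rw [← sub_eq_zero]
  by_contra hne
  obtain ⟨M, hM⟩ := hF.sep _ hne
  apply hM
  obtain ⟨σ, g, z, h5, h6⟩ := key (M + t)
  have h7 : σ - p' * qi = - (u ^ M * g * qi) := by
    have h8 : u ^ t * (σ * q' + u ^ M * g) = u ^ t * p' := by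
      rw [← hp', h6, hq', pow_add]; ring
    have h9 := mul_left_cancel₀ (pow_ne_zero t huR) h8
    rw [← h9]
    linear_combination (-σ) * hqi
  have h8 : (σ : S) - (p' : S) * (qi : S) = - ((u : S) ^ M * g * qi) := by
    have := congrArg (fun s : R => (s : S)) h7
    simpa using this
  refine ⟨- (g * qi) * E (u : S) + (u : S) ^ t * z, ?_⟩
  rw [h5]
  push_cast
  have h9 : (σ : S) = (p' : S) * (qi : S) - ((u : S) ^ M * g * qi) := by
    linear_combination h8
  rw [h9]
  ring

/-- `E R ⊆ R E u` -/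
theorem E_R (hE : Env R u f v x y) (E : Derivation k S S) (hu : E (u : S) ≠ 0) (r : R) :
    ∃ r' : R, E (r : S) = r' * E u :=
  er_main hE (fun _ hz => FiD.low_of_cx hE.pres hz) (fun c hc => cmb_eq_zero hE.pres c hc) E hu r

/-- the derivation has a bounded denominator on `R[v,x,y]` -/
theorem bdd_of_env (hE : Env R u f v x y) (E : Derivation k S S) (hu : ¬ (u : S) ∣ E (u : S)) :
    ∃ N : ℕ, ∀ c ∈ Cx R v x y, (u : S) ^ N * E c ∈ Cx R v x y := by
  have hu1 : E (u : S) ≠ 0 := fun h => hu (by rw [h]; exact dvd_zero _)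
  have huC : ∀ r : R, (r : S) ∈ Cx R v x y := fun r =>
    (Algebra.adjoin R {v, x, y}).algebraMap_mem r
  have hup : ∀ m : ℕ, (u : S) ^ m ∈ Cx R v x y := fun m =>
    (Cx R v x y).pow_mem (huC u) m
  obtain ⟨m0, h0⟩ := hE.kap (E (u : S))
  obtain ⟨m1, h1⟩ := hE.kap (E v)
  obtain ⟨m2, h2⟩ := hE.kap (E x)
  obtain ⟨m3, h3⟩ := hE.kap (E y)
  refine ⟨m0 + m1 + m2 + m3, fun c hc => ?_⟩
  have hc' : c ∈ Algebra.adjoin R {v, x, y} := hc
  clear hc
  have up : ∀ (m m' : ℕ) (z : S), (u : S) ^ m * z ∈ Cx R v x y →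
      (u : S) ^ (m' + m) * z ∈ Cx R v x y := by
    intro m m' z hz
    rw [pow_add, mul_assoc]
    exact (Cx R v x y).mul_mem (hup m') hz
  induction hc' using Algebra.adjoin_induction with
  | mem z hz1 =>
    rcases hz1 with rfl | rfl | rfl
    · have := up m1 (m0 + m2 + m3) _ h1
      rwa [show m0 + m2 + m3 + m1 = m0 + m1 + m2 + m3 by ring] at this
    · have := up m2 (m0 + m1 + m3) _ h2
      rwa [show m0 + m1 + m3 + m2 = m0 + m1 + m2 + m3 by ring] at this
    · exact up m3 (m0 + m1 + m2) _ h3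
  | algebraMap r =>
    obtain ⟨r', hr'⟩ := E_R hE E hu1 r
    have h4 : E (algebraMap R S r) = r' * E u := hr'
    rw [h4]
    have := up m0 (m1 + m2 + m3) _ h0
    rw [show m1 + m2 + m3 + m0 = m0 + m1 + m2 + m3 by ring] at this
    have h5 := (Cx R v x y).mul_mem (huC r') this
    rwa [show (r' : S) * ((u : S) ^ (m0 + m1 + m2 + m3) * E (u : S)) =
      (u : S) ^ (m0 + m1 + m2 + m3) * ((r' : S) * E (u : S)) by ring] at h5
  | add a b _ _ ha hb =>
    rw [map_add, mul_add]
    exact (Cx R v x y).add_mem ha hb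
  | mul a b ha' hb' ha hb =>
    rw [Derivation.leibniz, smul_eq_mul, smul_eq_mul, mul_add]
    have h6 := (Cx R v x y).mul_mem (show a ∈ Cx R v x y from ha') hb
    have h7 := (Cx R v x y).mul_mem (show b ∈ Cx R v x y from hb') ha
    have h8 := (Cx R v x y).add_mem h6 h7
    have h9 : (u : S) ^ (m0 + m1 + m2 + m3) * (a * E b) + (u : S) ^ (m0 + m1 + m2 + m3) * (b * E a) =
      a * ((u : S) ^ (m0 + m1 + m2 + m3) * E b) + b * ((u : S) ^ (m0 + m1 + m2 + m3) * E a) := by
      ring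
    rw [h9]
    exact h8

end Pool.Agent.LNDQ
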