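import Pool.Agent.LNDT.Slice

/-!
The slice theorem for a graded ring with a unit in degree `-1` which does not generate.
-/

set_option autoImplicit false
set_option linter.unusedSectionVars false
set_option linter.unusedVariables false

open Polynomial

namespace Pool.Agent.LNDQ

open Pool.Agent.LNDT

/-- the graded ring over the field of constants, as a family of subgroups of a field, with its locally
nilpotent operator of degree `d`, a constant `h` of degree `N > 0` which is invertible, and `1` in degree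
minus one -/
structure GrN {K : Type} [Field K] (δ : Derivation ℤ K K) (θ : K) (d : ℕ)
    (I : ℤ → AddSubgroup K) (N : ℕ) (h : K) : Prop where
  one_mem : (1 : K) ∈ I 0
  mul_mem : ∀ n m x y, x ∈ I n → y ∈ I m → x * y ∈ I (n + m)
  dl_mem : ∀ n x, x ∈ I n → Dl δ θ n x ∈ I (n + d)
  nil : ∀ n x, x ∈ I n → ∃ j, It δ θ d j n x = 0
  inv0 : ∀ x, x ∈ I 0 → x ≠ 0 → δ x = 0 → x⁻¹ ∈ I 0
  N_pos : 0 < N
  h_mem : h ∈ I N
  h_ne : h ≠ 0
  h_const : Dl δ θ N h = 0
  h_inv : h⁻¹ ∈ I (-N)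
  act : ∃ x ∈ I 0, δ x ≠ 0
  one_neg : (1 : K) ∈ I (-1)

variable {K : Type} [Field K] [CharZero K] {δ : Derivation ℤ K K} {θ : K} {d : ℕ}
  {I : ℤ → AddSubgroup K} {N : ℕ} {h : K}

theorem sn_It_mem (H : GrN δ θ d I N h) (j : ℕ) {n : ℤ} {x : K} (hx : x ∈ I n) :
    It δ θ d j n x ∈ I (n + j * d) := by
  induction j generalizing n x with
  | zero => simpa [It] using hx
  | succ j ih =>
    have := ih (H.dl_mem n x hx)
    simp only [It]
    convert this using 2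
    push_cast; ring

/-! ### homogeneous constants -/

/-- homogeneous constants of degree `n` -/
def Zn (δ : Derivation ℤ K K) (θ : K) (I : ℤ → AddSubgroup K) (n : ℤ) (x : K) : Prop :=
  x ∈ I n ∧ Dl δ θ n x = 0

theorem Zn.add {n : ℤ} {x y : K} (hx : Zn δ θ I n x) (hy : Zn δ θ I n y) : Zn δ θ I n (x + y) :=
  ⟨(I n).add_mem hx.1 hy.1, by rw [sl_Dl_add, hx.2, hy.2, add_zero]⟩

theorem Zn.zero (n : ℤ) : Zn δ θ I n (0 : K) := ⟨(I n).zero_mem, sl_Dl_zero n⟩

theorem Zn.mul (H : GrN δ θ d I N h) {n m : ℤ} {x y : K} (hx : Zn δ θ I n x)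
    (hy : Zn δ θ I m y) : Zn δ θ I (n + m) (x * y) :=
  ⟨H.mul_mem _ _ _ _ hx.1 hy.1, by rw [Dl_mul, hx.2, hy.2]; ring⟩

theorem Zn.one (H : GrN δ θ d I N h) : Zn δ θ I 0 (1 : K) :=
  ⟨H.one_mem, by simp [Dl]⟩

theorem Zn.pow (H : GrN δ θ d I N h) {n : ℤ} {x : K} (hx : Zn δ θ I n x) (i : ℕ) :
    Zn δ θ I (i * n) (x ^ i) := by
  induction i with
  | zero => simpa using Zn.one H
  | succ i ih =>
    have := ih.mul H hx
    rw [pow_succ]
    convert this using 1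
    push_cast; ring

theorem Zn.nat (H : GrN δ θ d I N h) (i : ℕ) : Zn δ θ I 0 (i : K) := by
  induction i with
  | zero => simpa using Zn.zero (δ := δ) (θ := θ) (I := I) 0
  | succ i ih => simpa using ih.add (Zn.one H)

theorem zn_of_eq {n m : ℤ} {x : K} (hx : Zn δ θ I n x) (e : n = m) : Zn δ θ I m x := e ▸ hx

/-- homogeneous constants are units: `x ^ N * h ^ (-n)` is a constant of degree zero -/
theorem Zn.inv (H : GrN δ θ d I N h) {n : ℤ} {x : K} (hx : Zn δ θ I n x) (hx0 : x ≠ 0) :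
    Zn δ θ I (-n) x⁻¹ := by
  -- `h⁻¹` is a constant
  have key : ∀ (n : ℤ) (x : K), x ≠ 0 → x⁻¹ ∈ I (-n) → Dl δ θ n x = 0 → Zn δ θ I (-n) x⁻¹ := by
    intro n x hx0 hm hd
    refine ⟨hm, ?_⟩
    have h1 := Dl_mul δ θ n (-n) x x⁻¹
    rw [mul_inv_cancel₀ hx0, hd, add_neg_cancel] at h1
    have h2 : Dl δ θ 0 (1 : K) = 0 := by simp [Dl]
    rw [h2, mul_zero, add_zero] at h1
    rcases mul_eq_zero.mp h1.symm with h3 | h3
    · exact absurd h3 hx0
    · exact h3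
  have hh : Zn δ θ I N h := ⟨H.h_mem, H.h_const⟩
  have hhi : Zn δ θ I (-N) h⁻¹ := key N h H.h_ne H.h_inv H.h_const
  -- the integral powers of `h`
  have hz : ∀ n : ℤ, Zn δ θ I (n * N) (h ^ n) := by
    intro n
    rcases Int.eq_nat_or_neg n with ⟨i, rfl | rfl⟩
    · rw [zpow_natCast]; exact hh.pow H i
    · rw [zpow_neg, zpow_natCast, ← inv_pow]
      exact zn_of_eq (hhi.pow H i) (by ring)
  obtain ⟨M, hM⟩ : ∃ M, N = M + 1 := ⟨N - 1, by have := H.N_pos; omega⟩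
  have hy : Zn δ θ I 0 (x ^ N * h ^ (-n)) :=
    zn_of_eq ((hx.pow H N).mul H (hz (-n))) (by ring)
  have hy0 : x ^ N * h ^ (-n) ≠ 0 := mul_ne_zero (pow_ne_zero _ hx0) (zpow_ne_zero _ H.h_ne)
  have hyi : Zn δ θ I 0 (x ^ N * h ^ (-n))⁻¹ := by
    have h1 : δ (x ^ N * h ^ (-n)) = 0 := by
      have := hy.2
      simpa [Dl] using this
    have h2 := H.inv0 _ hy.1 hy0 h1
    have := key 0 _ hy0 (by simpa using h2) hy.2
    simpa using this
  have e : x⁻¹ = x ^ M * h ^ (-n) * (x ^ N * h ^ (-n))⁻¹ := by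
    rw [hM, pow_succ]
    have : h ^ (-n) ≠ 0 := zpow_ne_zero _ H.h_ne
    field_simp
  rw [e]
  refine zn_of_eq (((hx.pow H M).mul H (hz (-n))).mul H hyi) ?_
  rw [hM]; push_cast; ring

theorem Zn.zpow (H : GrN δ θ d I N h) {n : ℤ} {x : K} (hx : Zn δ θ I n x) (hx0 : x ≠ 0)
    (i : ℤ) : Zn δ θ I (i * n) (x ^ i) := by
  rcases Int.eq_nat_or_neg i with ⟨j, rfl | rfl⟩
  · rw [zpow_natCast]; exact hx.pow H j
  · rw [zpow_neg, zpow_natCast, ← inv_pow]
    exact zn_of_eq ((hx.inv H hx0).pow H j) (by ring)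

/-- homogeneous constants are units: `x ^ N * h ^ (-n)` is a constant of degree zero -/
theorem GrN.inv_mem (H : GrN δ θ d I N h) {n : ℤ} {x : K} (hx : x ∈ I n) (hx0 : x ≠ 0)
    (hc : Dl δ θ n x = 0) : x⁻¹ ∈ I (-n) ∧ Dl δ θ (-n) x⁻¹ = 0 :=
  Zn.inv H ⟨hx, hc⟩ hx0

/-- a slice: an element `s` of some degree `σ` whose image is a nonzero constant -/
theorem GrN.exists_slice (H : GrN δ θ d I N h) :
    ∃ (σ : ℤ) (s : K), s ∈ I σ ∧ Dl δ θ σ s ≠ 0 ∧ Dl δ θ (σ + d) (Dl δ θ σ s) = 0 := by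
  classical
  obtain ⟨x, hx, hx1⟩ := H.act
  have hex := H.nil 0 x hx
  set j := Nat.find hex with hj
  have hj0 : It δ θ d j 0 x = 0 := Nat.find_spec hex
  have hmin : ∀ i, i < j → It δ θ d i 0 x ≠ 0 := fun i hi => Nat.find_min hex hi
  have hD : Dl δ θ 0 x ≠ 0 := by simpa [Dl] using hx1
  have hx0 : x ≠ 0 := by
    rintro rfl
    exact hD (sl_Dl_zero 0)
  have h2 : 2 ≤ j := by
    by_contra hlt
    have : j = 0 ∨ j = 1 := by omega
    rcases this with e | e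
    · rw [e] at hj0; exact hx0 hj0
    · rw [e, sl_It_one] at hj0; exact hD hj0
  obtain ⟨m, hm⟩ : ∃ m, j = m + 2 := ⟨j - 2, by omega⟩
  refine ⟨0 + m * d, It δ θ d m 0 x, sn_It_mem H m hx, ?_, ?_⟩
  · have := hmin (m + 1) (by omega)
    rwa [It_succ'] at this
  · have := hj0
    rw [hm, show m + 2 = (m + 1) + 1 from rfl, It_succ', It_succ'] at this
    convert this using 2
    push_cast; ring

/-- expansion in powers of the slice with constant coefficients -/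
theorem GrN.expand (H : GrN δ θ d I N h) {σ : ℤ} {s : K} (hs : s ∈ I σ)
    (hs1 : Dl δ θ σ s ≠ 0) (hs2 : Dl δ θ (σ + d) (Dl δ θ σ s) = 0) {n : ℤ} {x : K} (hx : x ∈ I n) :
    ∃ P : K[X], (∀ i : ℕ, P.coeff i ∈ I (n - i * σ) ∧ Dl δ θ (n - i * σ) (P.coeff i) = 0) ∧
      P.eval s = x := by
  have hη : Zn δ θ I (σ + d) (Dl δ θ σ s) := ⟨H.dl_mem _ _ hs, hs2⟩
  obtain ⟨j, hj⟩ := H.nil n x hx
  induction j generalizing x with
  | zero =>
    have : x = 0 := hj
    subst this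
    exact ⟨0, fun i => by rw [coeff_zero]; exact Zn.zero _, by simp⟩
  | succ m ih =>
    -- the top coefficient
    have ha : Zn δ θ I (n + m * d) (It δ θ d m n x) :=
      ⟨sn_It_mem H m hx, by rw [← It_succ']; exact hj⟩
    set k : K := It δ θ d m n x * (Dl δ θ σ s)⁻¹ ^ m * (m.factorial : K)⁻¹ with hk
    have hfac : (m.factorial : K) ≠ 0 := Nat.cast_ne_zero.mpr (Nat.factorial_ne_zero m)
    have hkZ : Zn δ θ I (n - m * σ) k := by
      have h1 := (hη.inv H hs1).pow H m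
      have h2 := (Zn.nat H (m.factorial)).inv H hfac
      exact zn_of_eq ((ha.mul H h1).mul H h2) (by ring)
    have hspow : ∀ i : ℕ, s ^ i ∈ I (i * σ) := by
      intro i
      induction i with
      | zero => simpa using H.one_mem
      | succ i ih2 =>
        rw [pow_succ]
        have := H.mul_mem _ _ _ _ ih2 hs
        convert this using 2
        push_cast; ring
    have hks : k * s ^ m ∈ I n := by
      have := H.mul_mem _ _ _ _ hkZ.1 (hspow m)
      convert this using 2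
      ring
    have hIt : It δ θ d m n (k * s ^ m) = It δ θ d m n x := by
      have h1 := sl_It_const_mul (δ := δ) (θ := θ) (d := d) hkZ.2 m (m * σ) (s ^ m)
      rw [sub_add_cancel, (sl_It_pow hs2 m).1] at h1
      have e2 : (Dl δ θ σ s)⁻¹ ^ m * Dl δ θ σ s ^ m = 1 := by
        rw [← mul_pow, inv_mul_cancel₀ hs1, one_pow]
      rw [h1, hk]
      calc It δ θ d m n x * (Dl δ θ σ s)⁻¹ ^ m * (m.factorial : K)⁻¹ *
            ((m.factorial : K) * Dl δ θ σ s ^ m)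
          = It δ θ d m n x * ((Dl δ θ σ s)⁻¹ ^ m * Dl δ θ σ s ^ m) *
              ((m.factorial : K)⁻¹ * (m.factorial : K)) := by ring
        _ = It δ θ d m n x := by rw [e2, inv_mul_cancel₀ hfac]; ring
    obtain ⟨P, hP, hPe⟩ := ih (x := x - k * s ^ m) ((I n).sub_mem hx hks) (by
      rw [sl_It_sub, hIt, sub_self])
    refine ⟨P + C k * X ^ m, fun i => ?_, ?_⟩
    · rw [coeff_add, coeff_C_mul, coeff_X_pow]
      refine Zn.add (hP i) ?_
      by_cases him : i = m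
      · subst him; simpa using hkZ
      · rw [if_neg him, mul_zero]; exact Zn.zero _
    · rw [eval_add, hPe, eval_mul, eval_C, eval_pow, eval_X]; ring

/-- uniqueness of the expansion -/
theorem GrN.expand_unique (H : GrN δ θ d I N h) {σ : ℤ} {s : K} (hs : s ∈ I σ)
    (hs1 : Dl δ θ σ s ≠ 0) (hs2 : Dl δ θ (σ + d) (Dl δ θ σ s) = 0) {n : ℤ} (P : K[X])
    (hP : ∀ i : ℕ, P.coeff i ∈ I (n - i * σ) ∧ Dl δ θ (n - i * σ) (P.coeff i) = 0)
    (h0 : P.eval s = 0) : P = 0 := by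
  by_contra hne
  set m := P.natDegree with hm
  have hlead : P.coeff m ≠ 0 := by
    rw [hm]; exact (leadingCoeff_ne_zero.mpr hne)
  have h1 : It δ θ d m n (P.eval s) = P.coeff m * ((m.factorial : K) * Dl δ θ σ s ^ m) := by
    rw [eval_eq_sum_range, sl_It_sum, Finset.sum_range_succ, ← hm]
    have hterm : ∀ i : ℕ, ∀ j : ℕ, It δ θ d j n (P.coeff i * s ^ i) =
        P.coeff i * It δ θ d j (i * σ) (s ^ i) := by
      intro i j
      have := sl_It_const_mul (δ := δ) (θ := θ) (d := d) (hP i).2 j (i * σ) (s ^ i)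
      rwa [sub_add_cancel] at this
    rw [Finset.sum_eq_zero, zero_add, hterm, (sl_It_pow hs2 m).1]
    intro i hi
    rw [hterm, It_zero_of_le δ θ d (i := i + 1) (Finset.mem_range.mp hi) (sl_It_pow hs2 i).2,
      mul_zero]
  rw [h0, sl_It_zero] at h1
  have hfac : (m.factorial : K) ≠ 0 := Nat.cast_ne_zero.mpr (Nat.factorial_ne_zero m)
  exact (mul_ne_zero hlead (mul_ne_zero hfac (pow_ne_zero _ hs1))) h1.symm

theorem sn_pow_mem (H : GrN δ θ d I N h) {σ : ℤ} {s : K} (hs : s ∈ I σ) (i : ℕ) :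
    s ^ i ∈ I (i * σ) := by
  induction i with
  | zero => simpa using H.one_mem
  | succ i ih2 =>
    rw [pow_succ]
    have := H.mul_mem _ _ _ _ ih2 hs
    convert this using 2
    push_cast; ring

/-- THE SLICE THEOREM, see doc H/821812_Q1, 2.5. -/
theorem GrN.main (H : GrN δ θ d I N h) : ∃ Y ∈ I 0,
    (∀ a ∈ I 0, ∃ P : K[X], (∀ i, P.coeff i ∈ Kap δ I) ∧ P.eval Y = a) ∧
    (∀ P : K[X], (∀ i, P.coeff i ∈ Kap δ I) → P.eval Y = 0 → P = 0) ∧
    ∃ μ ∈ I 0, μ ≠ 0 ∧ ∃ κ ∈ Kap δ I, κ ≠ 0 ∧ ∃ t : ℕ, h = κ * μ ^ N * Y ^ t := by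
  classical
  obtain ⟨σ, s, hs, hs1, hs2⟩ := H.exists_slice
  have hs0 : s ≠ 0 := by
    rintro rfl
    exact hs1 (sl_Dl_zero _)
  -- the group of degrees of homogeneous constants
  let Dg : AddSubgroup ℤ :=
    { carrier := {n | ∃ x, x ≠ 0 ∧ Zn δ θ I n x}
      zero_mem' := ⟨1, one_ne_zero, Zn.one H⟩
      add_mem' := by
        rintro a b ⟨x, hx0, hx⟩ ⟨y, hy0, hy⟩
        exact ⟨x * y, mul_ne_zero hx0 hy0, hx.mul H hy⟩
      neg_mem' := by
        rintro a ⟨x, hx0, hx⟩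
        exact ⟨x⁻¹, inv_ne_zero hx0, hx.inv H hx0⟩ }
  have hDg : ∀ n, n ∈ Dg ↔ ∃ x, x ≠ 0 ∧ Zn δ θ I n x := fun n => Iff.rfl
  obtain ⟨b0, hb0⟩ := Int.subgroup_cyclic Dg
  have hdvd0 : ∀ n, n ∈ Dg ↔ b0 ∣ n := by
    intro n
    rw [hb0, AddSubgroup.mem_closure_singleton]
    constructor
    · rintro ⟨k, rfl⟩
      exact ⟨k, by rw [smul_eq_mul, mul_comm]⟩
    · rintro ⟨k, rfl⟩
      exact ⟨k, by rw [smul_eq_mul, mul_comm]⟩
  have hNmem : (N : ℤ) ∈ Dg := (hDg _).mpr ⟨h, H.h_ne, H.h_mem, H.h_const⟩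
  have hb00 : b0 ≠ 0 := by
    rintro rfl
    have := (hdvd0 _).mp hNmem
    rw [zero_dvd_iff] at this
    have := H.N_pos
    omega
  obtain ⟨b, hb, hbd⟩ : ∃ b : ℕ, 0 < b ∧ ∀ n, n ∈ Dg ↔ (b : ℤ) ∣ n :=
    ⟨b0.natAbs, Int.natAbs_pos.mpr hb00, fun n => by rw [hdvd0, Int.natAbs_dvd]⟩
  have hbz : (b : ℤ) ≠ 0 := by exact_mod_cast hb.ne'
  obtain ⟨w, hw0, hw⟩ := (hDg _).mp ((hbd b).mpr dvd_rfl)
  -- `b` and `σ` are coprime
  have hcop : IsCoprime (b : ℤ) σ := by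
    obtain ⟨P, hP, hPe⟩ := H.expand hs hs1 hs2 H.one_neg
    have hPne : P ≠ 0 := by
      rintro rfl
      rw [eval_zero] at hPe
      exact one_ne_zero hPe.symm
    have h1 : (-1 - (P.natDegree : ℤ) * σ) ∈ Dg :=
      (hDg _).mpr ⟨P.coeff P.natDegree, leadingCoeff_ne_zero.mpr hPne, hP _⟩
    obtain ⟨q, hq⟩ := (hbd _).mp h1
    exact ⟨-q, -(P.natDegree : ℤ), by linarith⟩
  -- the basis elements `w ^ i * s ^ j`
  have claimC : ∀ (n i : ℤ) (j : ℕ), j < b → n - j * σ = b * i → ∀ x ∈ I n,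
      x / (w ^ i * s ^ j) ∈ I 0 := by
    intro n i j hj hi x hx
    obtain ⟨P, hP, rfl⟩ := H.expand hs hs1 hs2 hx
    rw [eval_eq_sum_range, Finset.sum_div]
    refine (I 0).sum_mem fun l _ => ?_
    by_cases hl : P.coeff l = 0
    · rw [hl, zero_mul, zero_div]; exact (I 0).zero_mem
    · have h1 : (b : ℤ) ∣ n - l * σ := (hbd _).mp ((hDg _).mpr ⟨_, hl, hP l⟩)
      have h2 : (b : ℤ) ∣ ((l : ℤ) - j) * σ := by
        have : ((l : ℤ) - j) * σ = b * i - (n - l * σ) := by rw [← hi]; ring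
        rw [this]
        exact dvd_sub (dvd_mul_right _ _) h1
      have h3 : (b : ℤ) ∣ (l : ℤ) - j := hcop.dvd_of_dvd_mul_right h2
      obtain ⟨t, ht⟩ := h3
      have ht0 : 0 ≤ t := by
        by_contra hlt
        have : t ≤ -1 := by omega
        nlinarith
      obtain ⟨t', rfl⟩ := Int.eq_ofNat_of_zero_le ht0
      have hl2 : l = j + b * t' := by
        have : (l : ℤ) = j + b * t' := by linarith
        exact_mod_cast this
      have e : P.coeff l * s ^ l / (w ^ i * s ^ j) = P.coeff l * s ^ (b * t') * w ^ (-i) := by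
        rw [zpow_neg, hl2, pow_add]
        have := zpow_ne_zero i hw0
        field_simp
      rw [e]
      refine sl_mem_of_eq (H.mul_mem _ _ _ _ (H.mul_mem _ _ _ _ (hP l).1 (sn_pow_mem H hs _))
        (Zn.zpow H hw hw0 (-i)).1) ?_
      rw [hl2] at *
      push_cast
      linarith
  -- the coordinate
  set Y : K := w ^ (-σ) * s ^ b with hY
  have hsb : s ^ b = w ^ σ * Y := by
    rw [hY, ← mul_assoc, ← zpow_add₀ hw0, add_neg_cancel, zpow_zero, one_mul]
  have hYmem : Y ∈ I 0 :=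
    sl_mem_of_eq (H.mul_mem _ _ _ _ (Zn.zpow H hw hw0 (-σ)).1 (sn_pow_mem H hs b)) (by ring)
  refine ⟨Y, hYmem, ?_, ?_, ?_⟩
  · -- generation
    intro a ha
    obtain ⟨P, hP, hPe⟩ := H.expand hs hs1 hs2 ha
    have hexp : Polynomial.expand K b (contract b P) = P := by
      ext l
      rw [coeff_expand hb]
      split_ifs with hdv
      · rw [coeff_contract hb.ne', Nat.div_mul_cancel hdv]
      · by_contra hne
        have h1 : (b : ℤ) ∣ 0 - l * σ := (hbd _).mp ((hDg _).mpr ⟨_, Ne.symm hne, hP l⟩)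
        rw [zero_sub, dvd_neg] at h1
        exact hdv (Int.natCast_dvd_natCast.mp (hcop.dvd_of_dvd_mul_right h1))
    refine ⟨(contract b P).comp (C (w ^ σ) * X), fun i => ?_, ?_⟩
    · rw [comp_C_mul_X_coeff, coeff_contract hb.ne']
      have := (show Zn δ θ I _ _ from hP (i * b)).mul H ((Zn.zpow H hw hw0 σ).pow H i)
      have h2 := zn_of_eq this (m := 0) (by push_cast; ring)
      exact ⟨h2.1, by simpa [Dl] using h2.2⟩
    · rw [eval_comp, eval_mul, eval_C, eval_X, ← hsb, ← expand_eval, hexp, hPe]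
  · -- uniqueness
    intro P hP hPe
    have h1 : Polynomial.expand K b (P.comp (C (w ^ (-σ)) * X)) = 0 := by
      refine H.expand_unique hs hs1 hs2 (n := 0) _ (fun l => ?_) ?_
      · rw [coeff_expand hb]
        split_ifs with hdv
        · obtain ⟨i, rfl⟩ := hdv
          rw [Nat.mul_div_cancel_left _ hb, comp_C_mul_X_coeff]
          have h0 : Zn δ θ I 0 (P.coeff i) := ⟨(hP i).1, by simpa [Dl] using (hP i).2⟩
          exact zn_of_eq (h0.mul H ((Zn.zpow H hw hw0 (-σ)).pow H i)) (by push_cast; ring)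
        · exact Zn.zero _
      · rw [expand_eval, eval_comp, eval_mul, eval_C, eval_X]
        exact hPe
    ext i
    have h2 : (Polynomial.expand K b (P.comp (C (w ^ (-σ)) * X))).coeff (i * b) = 0 := by
      rw [h1, coeff_zero]
    rw [coeff_expand_mul hb, comp_C_mul_X_coeff] at h2
    rcases mul_eq_zero.mp h2 with h3 | h3
    · rw [h3, coeff_zero]
    · exact absurd h3 (pow_ne_zero _ (zpow_ne_zero _ hw0))
  · -- the form of `h`
    obtain ⟨j1, i1, hj1, hi1⟩ : ∃ (j : ℕ) (i : ℤ), j < b ∧ -1 - j * σ = b * i := by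
      obtain ⟨u, v, huv⟩ := hcop
      have h1 : 0 ≤ (v * (-1)) % b := Int.emod_nonneg _ hbz
      have h2 : (v * (-1)) % b < b := Int.emod_lt_of_pos _ (by exact_mod_cast hb)
      obtain ⟨j, hj⟩ := Int.eq_ofNat_of_zero_le h1
      refine ⟨j, u * (-1) + σ * ((v * (-1)) / b), ?_, ?_⟩
      · rw [hj] at h2; exact_mod_cast h2
      · have h3 := Int.emod_add_mul_ediv (v * (-1)) b
        rw [hj] at h3
        have h4 : (j : ℤ) = v * (-1) - b * ((v * (-1)) / b) := by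
          have : ((j : ℕ) : ℤ) = (Int.ofNat j) := rfl
          linarith
        rw [h4]
        linear_combination (-1 : ℤ) * huv.symm
    have hg0 : w ^ i1 * s ^ j1 ≠ 0 := mul_ne_zero (zpow_ne_zero _ hw0) (pow_ne_zero _ hs0)
    have hμm : 1 / (w ^ i1 * s ^ j1) ∈ I 0 := claimC (-1) i1 j1 hj1 hi1 1 H.one_neg
    have hh : Zn δ θ I N h := ⟨H.h_mem, H.h_const⟩
    have hκ0 : Zn δ θ I (-(N * j1 * σ)) (h * w ^ (i1 * N)) := by
      refine zn_of_eq (hh.mul H (Zn.zpow H hw hw0 (i1 * N))) ?_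
      linear_combination (-(N : ℤ)) * hi1
    have hκ00 : h * w ^ (i1 * N) ≠ 0 := mul_ne_zero H.h_ne (zpow_ne_zero _ hw0)
    obtain ⟨t, ht⟩ : ∃ t : ℕ, N * j1 = b * t := by
      have h1 : (b : ℤ) ∣ -(N * j1 * σ) := (hbd _).mp ((hDg _).mpr ⟨_, hκ00, hκ0⟩)
      rw [dvd_neg] at h1
      obtain ⟨t, ht⟩ := Int.natCast_dvd_natCast.mp
        (show (b : ℤ) ∣ ((N * j1 : ℕ) : ℤ) by
          push_cast
          exact hcop.dvd_of_dvd_mul_right h1)
      exact ⟨t, ht⟩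
    have htz : (N : ℤ) * j1 = b * t := by exact_mod_cast ht
    have hκm : Zn δ θ I 0 (h * w ^ (i1 * N) * w ^ (σ * t)) := by
      refine zn_of_eq (hκ0.mul H (Zn.zpow H hw hw0 (σ * t))) ?_
      linear_combination (-σ) * htz
    refine ⟨1 / (w ^ i1 * s ^ j1), hμm, one_div_ne_zero hg0, h * w ^ (i1 * N) * w ^ (σ * t),
      ⟨hκm.1, by simpa [Dl] using hκm.2⟩, mul_ne_zero hκ00 (zpow_ne_zero _ hw0), t, ?_⟩
    have h2 : (w ^ i1 * s ^ j1) ^ N = w ^ (i1 * N) * w ^ (σ * t) * Y ^ t := by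
      rw [mul_pow, ← zpow_natCast, ← zpow_mul, ← pow_mul, mul_comm j1 N, ht, pow_mul, hsb, mul_pow,
        ← zpow_natCast (w ^ σ), ← zpow_mul, mul_assoc]
    rw [one_div, inv_pow, h2]
    have h3 : w ^ (i1 * (N : ℤ)) ≠ 0 := zpow_ne_zero _ hw0
    have h4 : w ^ (σ * (t : ℤ)) ≠ 0 := zpow_ne_zero _ hw0
    have h5 : Y ^ t ≠ 0 := pow_ne_zero _ (mul_ne_zero (zpow_ne_zero _ hw0) (pow_ne_zero _ hs0))
    field_simp

end Pool.Agent.LNDQ
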