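import Mathlib
import Pool.Agent.LNDQ.SliceN
import Pool.Agent.LNDT.IclA

set_option autoImplicit false
set_option linter.unusedSectionVars false
set_option linter.unusedVariables false

open Polynomial

namespace Pool.Agent.LNDQ

open Pool.Agent.LNDT

/-- the iterates of `z ↦ d0 z - l h0 z` (degree `n`) on `R0` -/
def LIt {k R0 : Type} [Field k] [CommRing R0] [Algebra k R0] (d0 : Derivation k R0 R0) (h0 : R0)
    (n : ℕ) : ℕ → ℕ → R0 → R0
  | 0, _, x => x
  | m + 1, l, x => LIt d0 h0 n m (l + n) (d0 x - (l : R0) * h0 * x)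

/-- the filtration `J` of `R0` with the invertible constant `gam` of degree `W` and the operator of degree `n`,
see doc H/821812_Q1, section 2 -/
structure NNDat {k R0 : Type} [Field k] [CommRing R0] [Algebra k R0]
    (J : ℕ → Ideal R0) (gam : R0) (W n : ℕ) (d0 : Derivation k R0 R0) (h0 : R0) : Prop where
  J_zero : J 0 = ⊤
  J_anti : Antitone J
  J_mul : ∀ a b x y, x ∈ J a → y ∈ J b → x * y ∈ J (a + b)
  W_pos : 0 < W
  gam_mem : gam ∈ J W
  gam_ne : gam ≠ 0
  cic : ∀ j x, x ∈ J (j * W) → gam ^ j ∣ x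
  satg : ∀ l y, gam * y ∈ J (l + W) → y ∈ J l
  nz : d0 = 0 → h0 ≠ 0
  L_mem : ∀ l x, x ∈ J l → d0 x - (l : R0) * h0 * x ∈ J (l + n)
  nil : ∀ l x, x ∈ J l → ∃ m, LIt d0 h0 n m l x = 0

section

variable {k R0 K : Type} [Field k] [CharZero k] [CommRing R0] [IsDomain R0] [Algebra k R0]
  [Field K] [Algebra R0 K] [IsFractionRing R0 K]
  {J : ℕ → Ideal R0} {gam : R0} {W n : ℕ} {d0 : Derivation k R0 R0} {h0 : R0}

theorem NNDat.gam_pow (H : NNDat J gam W n d0 h0) (j : ℕ) : gam ^ j ∈ J (j * W) := by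
  induction j with
  | zero => rw [zero_mul, H.J_zero]; trivial
  | succ j ih =>
    rw [pow_succ, add_mul, one_mul]
    exact H.J_mul _ _ _ _ ih H.gam_mem

/-- the homogeneous parts over the field of constants -/
def Jq (K : Type) [Field K] [Algebra R0 K] [IsFractionRing R0 K] (H : NNDat J gam W n d0 h0) (l : ℤ) :
    AddSubgroup K where
  carrier := {z | ∃ (b : R0) (j m : ℕ) (x : R0), b ≠ 0 ∧ d0 b = 0 ∧ (m : ℤ) = l + j * W ∧ x ∈ J m ∧
    algebraMap R0 K b * algebraMap R0 K gam ^ j * z = algebraMap R0 K x}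
  zero_mem' := by
    have hW := H.W_pos
    have h1 : (0 : ℤ) ≤ l + l.natAbs * W := by
      have h2 : (l.natAbs : ℤ) * 1 ≤ l.natAbs * W :=
        mul_le_mul_of_nonneg_left (by exact_mod_cast hW) (by positivity)
      omega
    obtain ⟨m, hm⟩ := Int.eq_ofNat_of_zero_le h1
    exact ⟨1, l.natAbs, m, 0, one_ne_zero, by simp, hm.symm, (J m).zero_mem, by simp⟩
  add_mem' := by
    rintro z z' ⟨b, j, m, x, hb, hdb, hm, hx, e⟩ ⟨b', j', m', x', hb', hdb', hm', hx', e'⟩
    refine ⟨b * b', j + j', m + j' * W, b' * gam ^ j' * x + b * gam ^ j * x', mul_ne_zero hb hb', ?_,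
      ?_, ?_, ?_⟩
    · rw [Derivation.leibniz, hdb, hdb', smul_zero, smul_zero, add_zero]
    · push_cast
      rw [hm]
      ring
    · refine (J _).add_mem ?_ ?_
      · have h1 := H.J_mul _ _ _ _ hx (H.gam_pow j')
        have h2 := (J (m + j' * W)).mul_mem_left b' h1
        have e3 : b' * gam ^ j' * x = b' * (x * gam ^ j') := by ring
        rw [e3]
        exact h2
      · have h1 := H.J_mul _ _ _ _ hx' (H.gam_pow j)
        have h2 := (J (m' + j * W)).mul_mem_left b h1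
        have e3 : b * gam ^ j * x' = b * (x' * gam ^ j) := by ring
        have e4 : m + j' * W = m' + j * W := by
          have : ((m + j' * W : ℕ) : ℤ) = ((m' + j * W : ℕ) : ℤ) := by
            push_cast
            rw [hm, hm']
            ring
          exact_mod_cast this
        rw [e3, e4]
        exact h2
    · simp only [map_add, map_mul, map_pow]
      rw [← e, ← e']
      ring
  neg_mem' := by
    rintro z ⟨b, j, m, x, hb, hdb, hm, hx, e⟩
    refine ⟨b, j, m, -x, hb, hdb, hm, (J m).neg_mem hx, ?_⟩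
    rw [map_neg, ← e]
    ring

theorem mem_Jq (H : NNDat J gam W n d0 h0) (l : ℤ) (z : K) : z ∈ Jq K H l ↔
    ∃ (b : R0) (j m : ℕ) (x : R0), b ≠ 0 ∧ d0 b = 0 ∧ (m : ℤ) = l + j * W ∧ x ∈ J m ∧
      algebraMap R0 K b * algebraMap R0 K gam ^ j * z = algebraMap R0 K x := Iff.rfl

theorem nn_inj : Function.Injective (algebraMap R0 K) := IsFractionRing.injective _ _

theorem nn_ne {x : R0} (hx : x ≠ 0) : algebraMap R0 K x ≠ 0 := by
  rw [Ne, map_eq_zero_iff _ (nn_inj (R0 := R0) (K := K))]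
  exact hx

/-- elements of degree zero have a denominator which is a constant -/
theorem Jq_zero (H : NNDat J gam W n d0 h0) {z : K} (hz : z ∈ Jq K H 0) :
    ∃ (b x : R0), b ≠ 0 ∧ d0 b = 0 ∧ algebraMap R0 K b * z = algebraMap R0 K x := by
  obtain ⟨b, j, m, x, hb, hdb, hm, hx, e⟩ := (mem_Jq H 0 z).mp hz
  have hm' : m = j * W := by
    have : (m : ℤ) = ((j * W : ℕ) : ℤ) := by rw [hm]; push_cast; ring
    exact_mod_cast this
  subst hm'
  obtain ⟨x1, rfl⟩ := H.cic j x hx
  refine ⟨b, x1, hb, hdb, ?_⟩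
  have hg : algebraMap R0 K gam ^ j ≠ 0 := pow_ne_zero _ (nn_ne H.gam_ne)
  apply mul_left_cancel₀ hg
  rw [map_mul, map_pow] at e
  rw [← e]
  ring

theorem Jq_of (H : NNDat J gam W n d0 h0) (x : R0) : algebraMap R0 K x ∈ Jq K H 0 := by
  refine (mem_Jq H 0 _).mpr ⟨1, 0, 0, x, one_ne_zero, by simp, by simp, ?_, by simp⟩
  rw [H.J_zero]
  trivial

end

section

variable {k R0 K : Type} [Field k] [CharZero k] [CommRing R0] [IsDomain R0] [Algebra k R0]
  [Field K] [CharZero K] [Algebra R0 K] [IsFractionRing R0 K]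
  {J : ℕ → Ideal R0} {gam : R0} {W n : ℕ} {d0 : Derivation k R0 R0} {h0 : R0}
  {δ : Derivation ℤ K K}

theorem nn_Dl (hδ : ∀ a : R0, δ (algebraMap R0 K a) = algebraMap R0 K (d0 a)) (l : ℕ) (x : R0) :
    Dl δ (-algebraMap R0 K h0) (l : ℤ) (algebraMap R0 K x) =
      algebraMap R0 K (d0 x - (l : R0) * h0 * x) := by
  rw [Dl, hδ, map_sub, map_mul, map_mul, map_natCast, Int.cast_natCast]
  ring

theorem nn_It (hδ : ∀ a : R0, δ (algebraMap R0 K a) = algebraMap R0 K (d0 a)) (m l : ℕ) (x : R0) :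
    It δ (-algebraMap R0 K h0) n m (l : ℤ) (algebraMap R0 K x) =
      algebraMap R0 K (LIt d0 h0 n m l x) := by
  induction m generalizing l x with
  | zero => rfl
  | succ m ih =>
    rw [It, LIt, nn_Dl hδ]
    have := ih (l + n) (d0 x - (l : R0) * h0 * x)
    rw [← this]
    push_cast
    rfl

/-- 2.4: `gam` is a constant -/
theorem nn_gam (H : NNDat J gam W n d0 h0)
    (hδ : ∀ a : R0, δ (algebraMap R0 K a) = algebraMap R0 K (d0 a)) :
    Dl δ (-algebraMap R0 K h0) (W : ℤ) (algebraMap R0 K gam) = 0 := by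
  have h1 := H.L_mem W gam H.gam_mem
  have h2 : d0 gam - (W : R0) * h0 * gam ∈ J (1 * W) :=
    H.J_anti (by omega) h1
  obtain ⟨y0, hy0⟩ := H.cic 1 _ h2
  rw [pow_one] at hy0
  rw [hy0, add_comm] at h1
  have h3 := H.satg _ _ h1
  have h4 : algebraMap R0 K y0 = 0 := by
    refine no_eigen δ (-algebraMap R0 K h0) n (n := (W : ℤ)) (x := algebraMap R0 K gam)
      (nn_ne H.gam_ne) ?_ ?_ ?_
    · obtain ⟨m, hm⟩ := H.nil _ _ H.gam_mem
      exact ⟨m, by rw [nn_It hδ, hm, map_zero]⟩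
    · obtain ⟨m, hm⟩ := H.nil _ _ h3
      exact ⟨m, by rw [nn_It hδ, hm, map_zero]⟩
    · rw [nn_Dl hδ, hy0, map_mul]
  rw [nn_Dl hδ, hy0, map_mul, h4, mul_zero]

theorem nn_const (H : NNDat J gam W n d0 h0)
    (hδ : ∀ a : R0, δ (algebraMap R0 K a) = algebraMap R0 K (d0 a)) {b : R0} (hb : d0 b = 0) (j : ℕ) :
    Dl δ (-algebraMap R0 K h0) ((j * W : ℕ) : ℤ) (algebraMap R0 K b * algebraMap R0 K gam ^ j) = 0 := by
  induction j with
  | zero =>
    rw [pow_zero, mul_one, zero_mul, nn_Dl hδ, hb]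
    simp
  | succ j ih =>
    have h1 := Dl_mul δ (-algebraMap R0 K h0) ((j * W : ℕ) : ℤ) (W : ℤ)
      (algebraMap R0 K b * algebraMap R0 K gam ^ j) (algebraMap R0 K gam)
    rw [ih, nn_gam H hδ, mul_zero, mul_zero, add_zero] at h1
    have e : (((j + 1) * W : ℕ) : ℤ) = ((j * W : ℕ) : ℤ) + (W : ℤ) := by push_cast; ring
    rw [e, pow_succ, ← mul_assoc]
    exact h1

/-- the graded datum -/
theorem nn_grN (H : NNDat J gam W n d0 h0)
    (hδ : ∀ a : R0, δ (algebraMap R0 K a) = algebraMap R0 K (d0 a)) :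
    GrN δ (-algebraMap R0 K h0) n (Jq K H) W (algebraMap R0 K gam) := by
  have hcR : CharZero R0 := charZero_of_injective_algebraMap (algebraMap k R0).injective
  have hW := H.W_pos
  refine
    { one_mem := ?_, mul_mem := ?_, dl_mem := ?_, nil := ?_, inv0 := ?_, N_pos := H.W_pos,
      h_mem := ?_, h_ne := nn_ne H.gam_ne, h_const := nn_gam H hδ, h_inv := ?_, act := ?_,
      one_neg := ?_ }
  · have := Jq_of (K := K) H 1
    rwa [map_one] at this
  · rintro l l' z z' ⟨b, j, m, x, hb, hdb, hm, hx, e⟩ ⟨b', j', m', x', hb', hdb', hm', hx', e'⟩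
    refine ⟨b * b', j + j', m + m', x * x', mul_ne_zero hb hb', ?_, ?_, H.J_mul _ _ _ _ hx hx', ?_⟩
    · rw [Derivation.leibniz, hdb, hdb', smul_zero, smul_zero, add_zero]
    · push_cast
      rw [hm, hm']
      ring
    · rw [map_mul, map_mul, ← e, ← e', pow_add]
      ring
  · rintro l z ⟨b, j, m, x, hb, hdb, hm, hx, e⟩
    refine ⟨b, j, m + n, d0 x - (m : R0) * h0 * x, hb, hdb, ?_, H.L_mem m x hx, ?_⟩
    · push_cast
      rw [hm]
      ring
    · rw [← nn_Dl hδ, ← e]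
      have h1 := Dl_mul δ (-algebraMap R0 K h0) ((j * W : ℕ) : ℤ) l
        (algebraMap R0 K b * algebraMap R0 K gam ^ j) z
      rw [nn_const H hδ hdb, mul_zero, add_zero] at h1
      rw [← h1]
      congr 1
      rw [hm]
      push_cast
      ring
  · rintro l z ⟨b, j, m, x, hb, hdb, hm, hx, e⟩
    obtain ⟨i, hi⟩ := H.nil m x hx
    refine ⟨i, ?_⟩
    have h1 := sl_It_const_mul (d := n) (nn_const H hδ hdb j) i l z
    have h2 : ((j * W : ℕ) : ℤ) + l = (m : ℤ) := by
      rw [hm]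
      push_cast
      ring
    rw [h2, e, nn_It hδ, hi, map_zero] at h1
    have h3 : algebraMap R0 K b * algebraMap R0 K gam ^ j ≠ 0 :=
      mul_ne_zero (nn_ne hb) (pow_ne_zero _ (nn_ne H.gam_ne))
    exact (mul_eq_zero.mp h1.symm).resolve_left h3
  · intro z hz hz0 hdz
    obtain ⟨b, x, hb, hdb, e⟩ := Jq_zero H hz
    have hx0 : x ≠ 0 := by
      rintro rfl
      rw [map_zero] at e
      exact (mul_ne_zero (nn_ne hb) hz0) e
    have hdx : d0 x = 0 := by
      apply nn_inj (R0 := R0) (K := K)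
      rw [← hδ, ← e, Derivation.leibniz, hdz, hδ, hdb, map_zero, smul_zero, smul_zero, add_zero]
    refine ⟨x, 0, 0, b, hx0, hdx, by simp, ?_, ?_⟩
    · rw [H.J_zero]; trivial
    · rw [pow_zero, mul_one, ← e]
      field_simp
  · exact ⟨1, 0, W, gam, one_ne_zero, by simp, by simp, H.gam_mem, by simp⟩
  · refine ⟨1, 1, 0, 1, one_ne_zero, by simp, by simp, ?_, ?_⟩
    · rw [H.J_zero]; trivial
    · rw [map_one, one_mul, pow_one, mul_inv_cancel₀ (nn_ne H.gam_ne)]
  · by_contra hcon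
    push Not at hcon
    have hd0 : d0 = 0 := by
      ext x
      apply nn_inj (R0 := R0) (K := K)
      rw [← hδ, hcon _ (Jq_of H x)]
      simp
    have h1 := H.nz hd0
    have h2 := nn_gam (δ := δ) H hδ
    rw [nn_Dl hδ, hd0] at h2
    have h3 : (W : R0) * h0 * gam = 0 := by
      apply nn_inj (R0 := R0) (K := K)
      rw [map_zero]
      rw [Derivation.zero_apply, zero_sub, map_neg, neg_eq_zero] at h2
      exact h2
    have h4 : (W : R0) ≠ 0 := Nat.cast_ne_zero.mpr (by omega)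
    exact mul_ne_zero (mul_ne_zero h4 h1) H.gam_ne h3
  · refine ⟨1, 1, W - 1, gam, one_ne_zero, by simp, ?_, H.J_anti (by omega) H.gam_mem, ?_⟩
    · have : ((W - 1 : ℕ) : ℤ) = (W : ℤ) - 1 := by
        rw [Nat.cast_sub (by omega)]
        simp
      rw [this]
      push_cast
      ring
    · simp

end

end Pool.Agent.LNDQ
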