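import Mathlib
import Pool.Agent.LNDQ.NNCore

set_option autoImplicit false
set_option linter.unusedSectionVars false
set_option linter.unusedVariables false

open Polynomial

namespace Pool.Agent.LNDQ

open Pool.Agent.LNDT

/-- a derivation on the value of a polynomial with constant coefficients -/
theorem del_eval {K : Type} [Field K] (δ : Derivation ℤ K K) (Y : K) (P : K[X])
    (hP : ∀ i, δ (P.coeff i) = 0) : δ (P.eval Y) = P.derivative.eval Y * δ Y := by
  rw [derivative_eval, eval_eq_sum, Polynomial.sum, Polynomial.sum, map_sum, Finset.sum_mul]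
  refine Finset.sum_congr rfl fun i _ => ?_
  rw [Derivation.leibniz, hP, smul_zero, add_zero, Derivation.leibniz_pow, smul_eq_mul, nsmul_eq_mul,
    smul_eq_mul]
  ring

section

variable {k R0 K : Type} [Field k] [CharZero k] [CommRing R0] [IsDomain R0] [Algebra k R0]
  [Field K] [CharZero K] [Algebra R0 K] [IsFractionRing R0 K]
  {J : ℕ → Ideal R0} {gam : R0} {W n : ℕ} {d0 : Derivation k R0 R0} {h0 : R0}
  {δ : Derivation ℤ K K}

theorem nn_kap (H : NNDat J gam W n d0 h0)
    (hδ : ∀ a : R0, δ (algebraMap R0 K a) = algebraMap R0 K (d0 a)) {z : K}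
    (hz : z ∈ Kap δ (Jq K H)) : ∃ (b a : R0), b ≠ 0 ∧ d0 b = 0 ∧ d0 a = 0 ∧
      algebraMap R0 K b * z = algebraMap R0 K a := by
  obtain ⟨b, x, hb, hdb, e⟩ := Jq_zero H hz.1
  refine ⟨b, x, hb, hdb, ?_, e⟩
  apply nn_inj (R0 := R0) (K := K)
  rw [← hδ, ← e, Derivation.leibniz, hz.2, hδ, hdb, map_zero, smul_zero, smul_zero, add_zero]

theorem nn_kap_of (H : NNDat J gam W n d0 h0)
    (hδ : ∀ a : R0, δ (algebraMap R0 K a) = algebraMap R0 K (d0 a)) {b : R0} (hb : d0 b = 0) :
    algebraMap R0 K b ∈ Kap δ (Jq K H) := ⟨Jq_of H b, by rw [hδ, hb, map_zero]⟩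

theorem kap_mul (H : NNDat J gam W n d0 h0)
    (hδ : ∀ a : R0, δ (algebraMap R0 K a) = algebraMap R0 K (d0 a)) {x y : K}
    (hx : x ∈ Kap δ (Jq K H)) (hy : y ∈ Kap δ (Jq K H)) : x * y ∈ Kap δ (Jq K H) := by
  refine ⟨?_, ?_⟩
  · have := (nn_grN H hδ).mul_mem 0 0 x y hx.1 hy.1
    rwa [add_zero] at this
  · rw [Derivation.leibniz, hx.2, hy.2, smul_zero, smul_zero, add_zero]

theorem kap_nat (H : NNDat J gam W n d0 h0)
    (hδ : ∀ a : R0, δ (algebraMap R0 K a) = algebraMap R0 K (d0 a)) (i : ℕ) :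
    (i : K) ∈ Kap δ (Jq K H) := by
  have : (i : K) = algebraMap R0 K (i : R0) := by rw [map_natCast]
  rw [this]
  exact nn_kap_of H hδ (by simp)

theorem kap_deriv (H : NNDat J gam W n d0 h0)
    (hδ : ∀ a : R0, δ (algebraMap R0 K a) = algebraMap R0 K (d0 a)) {P : K[X]}
    (hP : ∀ i, P.coeff i ∈ Kap δ (Jq K H)) (i : ℕ) : P.derivative.coeff i ∈ Kap δ (Jq K H) := by
  rw [coeff_derivative]
  have h1 := kap_nat H hδ (i + 1)
  push_cast at h1
  exact kap_mul H hδ (hP _) h1

/-- values of polynomials with coefficients in `Kap` lie in `I_0` -/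
theorem kap_eval (H : NNDat J gam W n d0 h0)
    (hδ : ∀ a : R0, δ (algebraMap R0 K a) = algebraMap R0 K (d0 a)) {Y : K} (hY : Y ∈ Jq K H 0)
    {P : K[X]} (hP : ∀ i, P.coeff i ∈ Kap δ (Jq K H)) : P.eval Y ∈ Jq K H 0 := by
  have G := nn_grN H hδ
  have hpow : ∀ i : ℕ, Y ^ i ∈ Jq K H 0 := by
    intro i
    induction i with
    | zero => rw [pow_zero]; exact G.one_mem
    | succ i ih =>
      have := G.mul_mem 0 0 _ _ ih hY
      rwa [add_zero, ← pow_succ] at this
  rw [eval_eq_sum, Polynomial.sum]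
  refine (Jq K H 0).sum_mem fun i _ => ?_
  have := G.mul_mem 0 0 _ _ (hP i).1 (hpow i)
  rwa [add_zero] at this

end

/-- NN, 2.4 - 2.6 and 2.8 -/
theorem nn_out_aux {k R0 : Type} [Field k] [CharZero k] [CommRing R0] [IsDomain R0] [Algebra k R0]
    (K : Type) [Field K] [Algebra R0 K] [IsFractionRing R0 K] (hfg : (⊤ : Subalgebra k R0).FG)
    {J : ℕ → Ideal R0} {gam : R0} {W n : ℕ} {d0 : Derivation k R0 R0} {h0 : R0}
    (H : NNDat J gam W n d0 h0) (hP : (J 1).IsPrime)
    (mult : ∀ q, q ∉ J 1 → q * gam ∉ J 1 ^ W) :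
    ∃ Del : Derivation k R0 R0, (∀ x, ∃ m, (⇑Del)^[m] x = 0) ∧ Del ≠ 0 ∧
      ((∃ z, z ≠ 0 ∧ Del z = 0 ∧ z ∈ J 1) ∨
        ∀ z, ∃ a b, Del a = 0 ∧ Del b = 0 ∧ b ∉ J 1 ∧ b * z - a ∈ J 1) := by
  classical
  have hcR : CharZero R0 := charZero_of_injective_algebraMap (algebraMap k R0).injective
  have hcK : CharZero K := charZero_of_injective_algebraMap (nn_inj (R0 := R0) (K := K))
  obtain ⟨δ, hδ⟩ := exists_ext (F := K) (d0.restrictScalars ℤ)
  have hδ : ∀ a : R0, δ (algebraMap R0 K a) = algebraMap R0 K (d0 a) := hδ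
  have G := nn_grN H hδ
  obtain ⟨Y, hY, hgen, huni, μ, hμ, hμ0, κ, hκ, hκ0, t, hrel⟩ := G.main
  have hinj : Function.Injective (algebraMap R0 K) := nn_inj
  -- `δ Y ≠ 0`
  have hdY : δ Y ≠ 0 := by
    intro h
    obtain ⟨z, hz, hz1⟩ := G.act
    obtain ⟨P, hPc, rfl⟩ := hgen z hz
    exact hz1 (by rw [del_eval δ Y P fun i => (hPc i).2, h, mul_zero])
  -- `d/dY` maps `I_0` to `I_0`
  have hder : ∀ z ∈ Jq K H 0, (δ Y)⁻¹ * δ z ∈ Jq K H 0 := by
    intro z hz
    obtain ⟨P, hPc, rfl⟩ := hgen z hz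
    rw [del_eval δ Y P fun i => (hPc i).2]
    have e : (δ Y)⁻¹ * (P.derivative.eval Y * δ Y) = P.derivative.eval Y := by
      rw [mul_left_comm, inv_mul_cancel₀ hdY, mul_one]
    rw [e]
    exact kap_eval H hδ hY fun i => kap_deriv H hδ hPc i
  -- a common denominator on finitely many elements
  have hden : ∀ s : Finset R0, ∃ b : R0, b ≠ 0 ∧ d0 b = 0 ∧ ∀ x ∈ s, ∃ y : R0,
      algebraMap R0 K b * ((δ Y)⁻¹ * δ (algebraMap R0 K x)) = algebraMap R0 K y := by
    intro s
    induction s using Finset.induction_on with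
    | empty => exact ⟨1, one_ne_zero, by simp, by simp⟩
    | insert a s ha ih =>
      obtain ⟨b, hb, hdb, hs⟩ := ih
      obtain ⟨c, w, hc, hdc, hw⟩ := Jq_zero H (hder _ (Jq_of H a))
      refine ⟨b * c, mul_ne_zero hb hc, ?_, ?_⟩
      · rw [Derivation.leibniz, hdb, hdc, smul_zero, smul_zero, add_zero]
      · intro x hx
        rcases Finset.mem_insert.mp hx with rfl | hx
        · exact ⟨b * w, by rw [map_mul, map_mul, mul_assoc, hw]⟩
        · obtain ⟨y, hy⟩ := hs x hx
          exact ⟨c * y, by rw [map_mul, map_mul, ← hy]; ring⟩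
  obtain ⟨s, hs⟩ := hfg
  obtain ⟨b, hb, hdb, hbs⟩ := hden s
  have hbK : algebraMap R0 K b ≠ 0 := nn_ne hb
  -- the derivation on the field
  obtain ⟨Δ, hΔ⟩ : ∃ Δ : Derivation ℤ K K, ∀ z, Δ z = algebraMap R0 K b * (δ Y)⁻¹ * δ z :=
    ⟨(algebraMap R0 K b * (δ Y)⁻¹) • δ, fun z => by rw [Derivation.smul_apply, smul_eq_mul]⟩
  have hΔ0 : ∀ z, δ z = 0 → Δ z = 0 := fun z hz => by rw [hΔ, hz, mul_zero]
  have hΔ1 : ∀ z, Δ z = 0 → δ z = 0 := fun z hz => by
    rw [hΔ] at hz
    exact (mul_eq_zero.mp hz).resolve_left (mul_ne_zero hbK (inv_ne_zero hdY))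
  have hΔR : ∀ x : R0, ∃ y : R0, Δ (algebraMap R0 K x) = algebraMap R0 K y := by
    let T : Subalgebra k R0 :=
      { carrier := {x | ∃ y : R0, Δ (algebraMap R0 K x) = algebraMap R0 K y}
        mul_mem' := by
          rintro x x' ⟨y, hy⟩ ⟨y', hy'⟩
          refine ⟨x * y' + x' * y, ?_⟩
          rw [map_mul, Derivation.leibniz, hy, hy', smul_eq_mul, smul_eq_mul, map_add, map_mul, map_mul]
        add_mem' := by
          rintro x x' ⟨y, hy⟩ ⟨y', hy'⟩
          exact ⟨y + y', by rw [map_add, map_add, hy, hy', map_add]⟩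
        algebraMap_mem' := by
          intro c
          refine ⟨0, ?_⟩
          rw [map_zero]
          exact hΔ0 _ (by rw [hδ, Derivation.map_algebraMap, map_zero]) }
    have hT : T = ⊤ := by
      rw [eq_top_iff, ← hs]
      refine Algebra.adjoin_le ?_
      intro x hx
      obtain ⟨y, hy⟩ := hbs x hx
      exact ⟨y, by rw [hΔ, mul_assoc, hy]⟩
    intro x
    have : x ∈ T := by rw [hT]; trivial
    exact this
  choose Dx hDx using hΔR
  obtain ⟨Del, hDel⟩ : ∃ Del : Derivation k R0 R0, ∀ x, Del x = Dx x := by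
    refine ⟨Derivation.mk'
      { toFun := Dx
        map_add' := fun x y => hinj (by rw [map_add, ← hDx, ← hDx, ← hDx, map_add, map_add])
        map_smul' := fun c x => hinj (by
          rw [RingHom.id_apply, Algebra.smul_def, Algebra.smul_def, map_mul, ← hDx, ← hDx, map_mul,
            Derivation.leibniz, hΔ0 (algebraMap R0 K (algebraMap k R0 c))
              (by rw [hδ, Derivation.map_algebraMap, map_zero]), smul_zero, add_zero,
            smul_eq_mul]) }
      (fun x y => hinj ?_), fun x => rfl⟩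
    simp only [LinearMap.coe_mk, AddHom.coe_mk, smul_eq_mul]
    rw [map_add, map_mul, map_mul, ← hDx, ← hDx, ← hDx, map_mul, Derivation.leibniz, smul_eq_mul,
      smul_eq_mul]
  have hιD : ∀ x, algebraMap R0 K (Del x) = Δ (algebraMap R0 K x) := fun x => by
    rw [hDel, hDx]
  have hD0 : ∀ x, d0 x = 0 → Del x = 0 := fun x hx => hinj (by
    rw [hιD, hΔ0 _ (by rw [hδ, hx, map_zero]), map_zero])
  refine ⟨Del, ?_, ?_, ?_⟩
  · -- locally nilpotent
    have key : ∀ (m : ℕ) (P : K[X]), (∀ i, P.coeff i ∈ Kap δ (Jq K H)) → P.natDegree < m →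
        (⇑Δ)^[m] (P.eval Y) = 0 := by
      intro m
      induction m with
      | zero => intro P _ h; exact absurd h (Nat.not_lt_zero _)
      | succ m ih =>
        intro P hPc hd
        rw [Function.iterate_succ_apply]
        have e : Δ (P.eval Y) = (C (algebraMap R0 K b) * P.derivative).eval Y := by
          rw [hΔ, del_eval δ Y P fun i => (hPc i).2, eval_mul, eval_C, mul_assoc,
            mul_left_comm (δ Y)⁻¹, inv_mul_cancel₀ hdY, mul_one]
        rw [e]
        by_cases hm : m = 0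
        · subst hm
          have h1 : P.natDegree = 0 := by omega
          have h2 : P.derivative = 0 := by
            rw [eq_C_of_natDegree_eq_zero h1, derivative_C]
          rw [h2, mul_zero, eval_zero]
          rfl
        · refine ih _ (fun i => ?_) ?_
          · rw [coeff_C_mul]
            exact kap_mul H hδ (nn_kap_of H hδ hdb) (kap_deriv H hδ hPc i)
          · have h1 : (C (algebraMap R0 K b) * P.derivative).natDegree ≤ P.derivative.natDegree :=
              natDegree_C_mul_le _ _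
            have h2 := natDegree_derivative_le P
            omega
    intro x
    obtain ⟨P, hPc, hPe⟩ := hgen _ (Jq_of H x)
    refine ⟨P.natDegree + 1, hinj ?_⟩
    have hit : ∀ (m : ℕ) (x : R0), algebraMap R0 K ((⇑Del)^[m] x) = (⇑Δ)^[m] (algebraMap R0 K x) := by
      intro m
      induction m with
      | zero => intro x; rfl
      | succ m ih =>
        intro x
        rw [Function.iterate_succ_apply, Function.iterate_succ_apply, ih, hιD]
    rw [hit, ← hPe, key _ P hPc (Nat.lt_succ_self _), map_zero]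
  · -- nonzero
    intro h0'
    obtain ⟨z, hz, hz1⟩ := G.act
    obtain ⟨c, x, hc, hdc, e⟩ := Jq_zero H hz
    have h1 : δ (algebraMap R0 K x) = 0 := by
      apply hΔ1
      rw [← hιD, h0', Derivation.zero_apply, map_zero]
    rw [← e, Derivation.leibniz, hδ, hdc, map_zero, smul_zero, add_zero, smul_eq_mul] at h1
    exact (mul_ne_zero (nn_ne hc) hz1) h1
  · -- OUT
    by_cases hA : ∃ z, z ≠ 0 ∧ Del z = 0 ∧ z ∈ J 1
    · exact Or.inl hA
    · right
      have hB : ∀ z, z ≠ 0 → d0 z = 0 → z ∉ J 1 := fun z hz hdz hz1 => hA ⟨z, hz, hD0 z hdz, hz1⟩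
      obtain ⟨b1, a1, hb1, hdb1, hda1, e1⟩ := nn_kap H hδ hκ
      obtain ⟨b2, m2, hb2, hdb2, e2⟩ := Jq_zero H hμ
      obtain ⟨b3, y3, hb3, hdb3, e3⟩ := Jq_zero H hY
      have ha1 : a1 ≠ 0 := by
        rintro rfl
        rw [map_zero] at e1
        exact (mul_ne_zero (nn_ne hb1) hκ0) e1
      have hrel' : b1 * b2 ^ W * b3 ^ t * gam = a1 * m2 ^ W * y3 ^ t := by
        apply hinj
        simp only [map_mul, map_pow]
        rw [hrel, ← e1, ← e2, ← e3]
        ring
      have hq : b1 * b2 ^ W * b3 ^ t ∉ J 1 := by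
        intro h
        rcases hP.mem_or_mem h with h | h
        · rcases hP.mem_or_mem h with h | h
          · exact hB _ hb1 hdb1 h
          · exact hB _ hb2 hdb2 (hP.mem_of_pow_mem _ h)
        · exact hB _ hb3 hdb3 (hP.mem_of_pow_mem _ h)
      have hm2 : m2 ∉ J 1 := by
        intro h
        refine mult _ hq ?_
        rw [hrel']
        exact Ideal.mul_mem_right _ _ (Ideal.mul_mem_left _ _ (Ideal.pow_mem_pow h W))
      have hgam1 : gam ∈ J 1 := H.J_anti H.W_pos H.gam_mem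
      have hy3 : y3 ∈ J 1 := by
        have h1 : a1 * m2 ^ W * y3 ^ t ∈ J 1 := by
          rw [← hrel']
          exact Ideal.mul_mem_left _ _ hgam1
        rcases hP.mem_or_mem h1 with h | h
        · rcases hP.mem_or_mem h with h | h
          · exact absurd h (hB _ ha1 hda1)
          · exact absurd (hP.mem_of_pow_mem _ h) hm2
        · exact hP.mem_of_pow_mem _ h
      -- the good elements of `I_0`
      let Gd : AddSubmonoid K :=
        { carrier := {z | ∃ (b a x : R0), b ≠ 0 ∧ d0 b = 0 ∧ d0 a = 0 ∧ x ∈ J 1 ∧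
            algebraMap R0 K b * z = algebraMap R0 K a + algebraMap R0 K x}
          zero_mem' := ⟨1, 0, 0, one_ne_zero, by simp, by simp, (J 1).zero_mem, by simp⟩
          add_mem' := by
            rintro z z' ⟨b, a, x, hb, hdb, hda, hx, e⟩ ⟨b', a', x', hb', hdb', hda', hx', e'⟩
            refine ⟨b * b', b' * a + b * a', b' * x + b * x', mul_ne_zero hb hb', ?_, ?_, ?_, ?_⟩
            · rw [Derivation.leibniz, hdb, hdb', smul_zero, smul_zero, add_zero]
            · rw [map_add, Derivation.leibniz, Derivation.leibniz, hdb, hdb', hda, hda']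
              simp
            · exact (J 1).add_mem (Ideal.mul_mem_left _ _ hx) (Ideal.mul_mem_left _ _ hx')
            · simp only [map_add, map_mul]
              linear_combination algebraMap R0 K b' * e + algebraMap R0 K b * e' }
      have hGd : ∀ z ∈ Jq K H 0, z ∈ Gd := by
        intro z hz
        obtain ⟨P, hPc, rfl⟩ := hgen z hz
        rw [eval_eq_sum, Polynomial.sum]
        refine Gd.sum_mem fun i _ => ?_
        obtain ⟨c, a, hc, hdc, hda, e⟩ := nn_kap H hδ (hPc i)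
        rcases Nat.eq_zero_or_pos i with rfl | hi
        · exact ⟨c, a, 0, hc, hdc, hda, (J 1).zero_mem, by rw [pow_zero, mul_one, e, map_zero, add_zero]⟩
        · refine ⟨c * b3 ^ i, 0, a * y3 ^ i, mul_ne_zero hc (pow_ne_zero _ hb3), ?_, by simp,
            Ideal.mul_mem_left _ _ (Ideal.pow_mem_of_mem _ hy3 _ hi), ?_⟩
          · rw [Derivation.leibniz, Derivation.leibniz_pow, hdc, hdb3]
            simp
          · simp only [map_zero, zero_add, map_mul, map_pow]
            rw [← e, ← e3]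
            ring
      intro z
      obtain ⟨c, a, x, hc, hdc, hda, hx, e⟩ := hGd _ (Jq_of H z)
      refine ⟨a, c, hD0 _ hda, hD0 _ hdc, hB _ hc hdc, ?_⟩
      have h1 : c * z - a = x := by
        apply hinj
        rw [map_sub, map_mul, e]
        ring
      rw [h1]
      exact hx

/-- NN, 2.4 - 2.6 and 2.8 -/
theorem nn_out {k R0 : Type} [Field k] [CharZero k] [CommRing R0] [IsDomain R0] [Algebra k R0]
    (hfg : (⊤ : Subalgebra k R0).FG)
    {J : ℕ → Ideal R0} {gam : R0} {W n : ℕ} {d0 : Derivation k R0 R0} {h0 : R0}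
    (H : NNDat J gam W n d0 h0) (hP : (J 1).IsPrime)
    (mult : ∀ q, q ∉ J 1 → q * gam ∉ J 1 ^ W) :
    ∃ Del : Derivation k R0 R0, (∀ x, ∃ m, (⇑Del)^[m] x = 0) ∧ Del ≠ 0 ∧
      ((∃ z, z ≠ 0 ∧ Del z = 0 ∧ z ∈ J 1) ∨
        ∀ z, ∃ a b, Del a = 0 ∧ Del b = 0 ∧ b ∉ J 1 ∧ b * z - a ∈ J 1) :=
  nn_out_aux (FractionRing R0) hfg H hP mult

end Pool.Agent.LNDQ
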