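import Mathlib

/-!
# The ideals `J l` of the residues of elements divisible by `u ^ l` in a larger ring (H/821812_Q1, 2.2, 2.3)
-/

namespace Pool.Agent.LNDQ

variable {S C R0 : Type} [CommRing S] [CommRing C] [CommRing R0]

/-- residues of the elements of `C` divisible by `u ^ l` in `S` -/
noncomputable def JJ (ι : C →+* S) (π : C →+* R0) (u : C) (l : ℕ) : Ideal R0 :=
  ((Ideal.span {ι u ^ l}).comap ι).map π

theorem mem_JJ {ι : C →+* S} {π : C →+* R0} (hπ : Function.Surjective π) {u : C} {l : ℕ} {x : R0} :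
    x ∈ JJ ι π u l ↔ ∃ z, ι u ^ l ∣ ι z ∧ π z = x := by
  rw [JJ, Ideal.mem_map_iff_of_surjective π hπ]
  simp only [Ideal.mem_comap, Ideal.mem_span_singleton]

theorem JJ_zero {ι : C →+* S} {π : C →+* R0} (hπ : Function.Surjective π) {u : C} :
    JJ ι π u 0 = ⊤ := by
  rw [Ideal.eq_top_iff_one, mem_JJ hπ]
  exact ⟨1, by rw [pow_zero]; exact one_dvd _, map_one _⟩

theorem JJ_anti {ι : C →+* S} {π : C →+* R0} (hπ : Function.Surjective π) {u : C} {l m : ℕ}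
    (h : l ≤ m) : JJ ι π u m ≤ JJ ι π u l := by
  intro x hx
  rw [mem_JJ hπ] at hx ⊢
  obtain ⟨z, hz, rfl⟩ := hx
  exact ⟨z, (pow_dvd_pow _ h).trans hz, rfl⟩

theorem JJ_succ {ι : C →+* S} {π : C →+* R0} (hπ : Function.Surjective π) {u : C} (l : ℕ) :
    JJ ι π u (l + 1) ≤ JJ ι π u l :=
  JJ_anti hπ (Nat.le_succ l)

theorem JJ_mul {ι : C →+* S} {π : C →+* R0} (hπ : Function.Surjective π) {u : C} {l m : ℕ}
    {x y : R0} (hx : x ∈ JJ ι π u l) (hy : y ∈ JJ ι π u m) : x * y ∈ JJ ι π u (l + m) := by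
  rw [mem_JJ hπ] at hx hy ⊢
  obtain ⟨z, hz, rfl⟩ := hx
  obtain ⟨w, hw, rfl⟩ := hy
  exact ⟨z * w, by rw [map_mul, pow_add]; exact mul_dvd_mul hz hw, map_mul _ _ _⟩

/-- division by `Γ` with remainders in `T` in `C` and in `S`, and modulo `u` -/
structure FactDat (ι : C →+* S) (π : C →+* R0) (u Γ : C) (T : Set C) (W C0 : ℕ) : Prop where
  surj : Function.Surjective π
  ker : ∀ z, u ∣ z → π z = 0
  W_pos : 0 < W
  div : ∀ z, ∃ s t, t ∈ T ∧ z = s * Γ + t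
  divS : ∀ s t m, t ∈ T → ι u ^ m ∣ ι (s * Γ + t) → ι u ^ m ∣ ι t ∧ ι u ^ (m - W) ∣ ι s
  bd : ∀ t m, t ∈ T → ι u ^ m ∣ ι t → u ^ (m - C0) ∣ t
  uniq : ∀ s t y, t ∈ T → π s * π Γ + π t = y * π Γ → π s = y

theorem FactDat.fact0 {ι : C →+* S} {π : C →+* R0} {u Γ : C} {T : Set C} {W C0 : ℕ}
    (H : FactDat ι π u Γ T W C0) (j : ℕ) : ∀ (m : ℕ) (z : C), ι u ^ m ∣ ι z →
      j * W + C0 + 1 ≤ m + W → π Γ ^ j ∣ π z := by
  induction j with
  | zero =>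
    intro m z _ _
    rw [pow_zero]
    exact one_dvd _
  | succ j ih =>
    intro m z hz hm
    obtain ⟨s, t, ht, rfl⟩ := H.div z
    obtain ⟨h1, h2⟩ := H.divS s t m ht hz
    have hm' : j * W + C0 + 1 ≤ m := by
      rw [Nat.succ_mul] at hm
      omega
    have h3 : π t = 0 := by
      refine H.ker t ((dvd_pow_self u ?_).trans (H.bd t m ht h1))
      omega
    rw [map_add, map_mul, h3, add_zero, pow_succ]
    refine mul_dvd_mul ?_ dvd_rfl
    rcases Nat.eq_zero_or_pos j with hj | hj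
    · subst hj
      rw [pow_zero]
      exact one_dvd _
    · refine ih (m - W) s h2 ?_
      have : W ≤ j * W := Nat.le_mul_of_pos_left W hj
      omega

/-- FACT: `z ∈ J l` implies `γ ^ j ∣ z ^ M` if `(j - 1) W + C0 < l M` -/
theorem FactDat.fact {ι : C →+* S} {π : C →+* R0} {u Γ : C} {T : Set C} {W C0 : ℕ}
    (H : FactDat ι π u Γ T W C0) {l : ℕ} {z : R0} (hz : z ∈ JJ ι π u l) (j M : ℕ)
    (h : j * W + C0 + 1 ≤ l * M + W) : π Γ ^ j ∣ z ^ M := by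
  rw [mem_JJ H.surj] at hz
  obtain ⟨w, hw, rfl⟩ := hz
  rw [← map_pow π w M]
  refine H.fact0 j (l * M) (w ^ M) ?_ h
  rw [map_pow, pow_mul]
  exact pow_dvd_pow_of_dvd hw M

/-- with complete integral closedness: `J (i W) ⊆ γ ^ i R0` -/
theorem FactDat.gam_dvd {ι : C →+* S} {π : C →+* R0} {u Γ : C} {T : Set C} {W C0 : ℕ}
    (H : FactDat ι π u Γ T W C0) (hΓ : ∀ j, π Γ ^ j ≠ 0)
    (hcic : ∀ a b g : R0, g ≠ 0 → (∀ M : ℕ, b ^ M ∣ g * a ^ M) → b ∣ a)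
    (i : ℕ) (z : R0) (hz : z ∈ JJ ι π u (i * W)) : π Γ ^ i ∣ z := by
  refine hcic z (π Γ ^ i) (π Γ ^ C0) (hΓ C0) fun M => ?_
  rcases Nat.lt_or_ge (i * M) C0 with h | h
  · rw [← pow_mul]
    exact Dvd.dvd.mul_right (pow_dvd_pow _ h.le) _
  · have h1 : π Γ ^ (i * M - C0) ∣ z ^ M := by
      refine H.fact hz _ _ ?_
      obtain ⟨c, hc⟩ := Nat.exists_eq_add_of_le h
      rw [hc, Nat.add_sub_cancel_left]
      have h2 : i * W * M = (C0 + c) * W := by rw [← hc]; ring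
      rw [h2, Nat.add_mul]
      have h3 : C0 ≤ C0 * W := Nat.le_mul_of_pos_right C0 H.W_pos
      have h4 := H.W_pos
      omega
    rw [← pow_mul]
    have h2 : π Γ ^ (i * M) = π Γ ^ C0 * π Γ ^ (i * M - C0) := by
      rw [← pow_add]
      congr 1
      omega
    rw [h2]
    exact mul_dvd_mul dvd_rfl h1

/-- SAT: `γ y ∈ J (l + W)` implies `y ∈ J l` -/
theorem FactDat.sat {ι : C →+* S} {π : C →+* R0} {u Γ : C} {T : Set C} {W C0 : ℕ}
    (H : FactDat ι π u Γ T W C0) (l : ℕ) (y : R0) (h : π Γ * y ∈ JJ ι π u (l + W)) :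
    y ∈ JJ ι π u l := by
  rw [mem_JJ H.surj] at h ⊢
  obtain ⟨z, hz, hzy⟩ := h
  obtain ⟨s, t, ht, rfl⟩ := H.div z
  obtain ⟨-, h2⟩ := H.divS s t (l + W) ht hz
  rw [Nat.add_sub_cancel] at h2
  refine ⟨s, h2, H.uniq s t y ht ?_⟩
  rw [← map_mul, ← map_add, hzy, mul_comm]

end Pool.Agent.LNDQ
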