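import Pool.Agent.LNDQ.NNCore
import Pool.Agent.LNDQ.NNfact

/-!
# The initial derivation (page H/821812_Q1, 2.1)

`S` a domain over `k`, `C` a subalgebra, `u ∈ C`, `ρ : C → R0` the reduction modulo `u C`, `E` a derivation of `S`
with `u ∤ E u`, with `u ^ N E C ⊆ C` for some `N`, locally nilpotent up to factors `q ∈ C` whose residues are nonzero
constants.  Then the residues of `u ^ n E`, `u ^ (n - 1) E u` (`n` minimal) are the fields `nz`, `L_mem`, `nil` of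
`NNDat` for the ideals `JJ`.
-/

set_option autoImplicit false

namespace Pool.Agent.LNDQ

namespace NNderAux

variable {k S R0 : Type} [Field k] [CommRing S] [Algebra k S] [CommRing R0] [Algebra k R0]
  {C : Subalgebra k S} {u : S} {ρ : C →ₐ[k] R0}

/-- the derivation `u ^ n E` of `C` -/
theorem der_C {E : Derivation k S S} (n : ℕ) (h : ∀ c ∈ C, u ^ n * E c ∈ C) :
    ∃ δ : Derivation k C C, ∀ c : C, (δ c : S) = u ^ n * E c := by
  refine ⟨Derivation.mk' (LinearMap.mk (AddHom.mk (fun c : C => (⟨u ^ n * E c, h c c.2⟩ : C)) ?_)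
    ?_) ?_, fun c => rfl⟩
  · intro x y
    apply Subtype.ext
    change u ^ n * E ((x : S) + (y : S)) = u ^ n * E x + u ^ n * E y
    rw [map_add, mul_add]
  · intro a x
    apply Subtype.ext
    change u ^ n * E (a • (x : S)) = a • (u ^ n * E x)
    rw [Derivation.map_smul, mul_smul_comm]
  · intro x y
    apply Subtype.ext
    change u ^ n * E ((x : S) * (y : S)) = (x : S) * (u ^ n * E y) + (y : S) * (u ^ n * E x)
    rw [Derivation.leibniz, smul_eq_mul, smul_eq_mul]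
    ring

/-- a derivation `δ` of `C` such that `δ u` is divisible by `u` descends -/
theorem desc (hρ : Function.Surjective ρ) (hker : ∀ z : C, ρ z = 0 ↔ ∃ w : C, (z : S) = u * w)
    (hu : u ∈ C) (δ : Derivation k C C) (hδ : ∃ c' : C, ((δ ⟨u, hu⟩ : C) : S) = u * c') :
    ∃ d0 : Derivation k R0 R0, ∀ c : C, d0 (ρ c) = ρ (δ c) := by
  have h0 : ∀ c : C, ρ c = 0 → ρ (δ c) = 0 := by
    intro c hc
    obtain ⟨a, ha⟩ := (hker c).1 hc
    obtain ⟨c', hc'⟩ := hδ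
    have h1 : c = ⟨u, hu⟩ * a := Subtype.ext ha
    rw [hker, h1, Derivation.leibniz, smul_eq_mul, smul_eq_mul]
    refine ⟨δ a + a * c', ?_⟩
    push_cast
    rw [hc']
    ring
  have h1 : ∀ c c' : C, ρ c = ρ c' → ρ (δ c) = ρ (δ c') := by
    intro c c' hcc
    have h2 := h0 (c - c') (by rw [map_sub, hcc, sub_self])
    rwa [map_sub, map_sub, sub_eq_zero] at h2
  choose g hg using hρ
  have h3 : ∀ c : C, ρ (δ (g (ρ c))) = ρ (δ c) := fun c => h1 _ _ (hg _)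
  refine ⟨Derivation.mk' (LinearMap.mk (AddHom.mk (fun z => ρ (δ (g z))) ?_) ?_) ?_, h3⟩
  · intro x y
    change ρ (δ (g (x + y))) = ρ (δ (g x)) + ρ (δ (g y))
    rw [← map_add, ← map_add]
    exact h1 _ _ (by rw [hg, map_add, hg, hg])
  · intro a x
    change ρ (δ (g (a • x))) = a • ρ (δ (g x))
    rw [← map_smul, ← Derivation.map_smul]
    exact h1 _ _ (by rw [hg, map_smul, hg])
  · intro x y
    change ρ (δ (g (x * y))) = x • ρ (δ (g y)) + y • ρ (δ (g x))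
    have h4 : ρ (δ (g (x * y))) = ρ (δ (g x * g y)) := h1 _ _ (by rw [hg, map_mul, hg, hg])
    rw [h4, Derivation.leibniz, map_add, smul_eq_mul, smul_eq_mul, smul_eq_mul, smul_eq_mul,
      map_mul, map_mul, hg, hg]

theorem LIt_smul (d0 : Derivation k R0 R0) (h0 : R0) (n : ℕ) (m l : ℕ) (a : k) (z : R0) :
    LIt d0 h0 n m l (algebraMap k R0 a * z) = algebraMap k R0 a * LIt d0 h0 n m l z := by
  induction m generalizing l z with
  | zero => rfl
  | succ m ih =>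
    have h3 : d0 (algebraMap k R0 a * z) - (l : R0) * h0 * (algebraMap k R0 a * z) =
        algebraMap k R0 a * (d0 z - (l : R0) * h0 * z) := by
      rw [Derivation.leibniz, Derivation.map_algebraMap, smul_zero, add_zero, smul_eq_mul]
      ring
    rw [LIt, LIt, h3, ih]

end NNderAux

open NNderAux in
/-- page 2.1, with elements of `C` and `S` only -/
theorem nn_der0 {k S R0 : Type} [Field k] [CommRing S] [IsDomain S] [Algebra k S] [CommRing R0]
    [Algebra k R0] {C : Subalgebra k S} {u : S} {ρ : C →ₐ[k] R0} (hρ : Function.Surjective ρ)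
    (hker : ∀ z : C, ρ z = 0 ↔ ∃ w : C, (z : S) = u * w) (hu : u ∈ C) (huS : u ≠ 0)
    {E : Derivation k S S} (hE : ¬ u ∣ E u) (hb : ∃ N : ℕ, ∀ c ∈ C, u ^ N * E c ∈ C)
    (hnil : ∀ s : S, ∃ (q : C) (a : k) (m : ℕ), a ≠ 0 ∧ ρ q = algebraMap k R0 a ∧
      (⇑E)^[m] ((q : S) * s) = 0) :
    ∃ (n : ℕ) (d0 : Derivation k R0 R0) (h0 : R0), 1 ≤ n ∧ (d0 = 0 → h0 ≠ 0) ∧
      (∀ (l : ℕ) (c : C), u ^ l ∣ (c : S) →
        ∃ c' : C, u ^ (l + n) ∣ (c' : S) ∧ ρ c' = d0 (ρ c) - (l : R0) * h0 * ρ c) ∧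
      ∀ (l : ℕ) (c : C), u ^ l ∣ (c : S) → ∃ m, LIt d0 h0 n m l (ρ c) = 0 := by
  classical
  -- the least exponent
  have hex : ∃ n : ℕ, (∀ c ∈ C, u ^ (n + 1) * E c ∈ C) ∧ u ^ n * E u ∈ C := by
    obtain ⟨N, hN⟩ := hb
    refine ⟨N, fun c hc => ?_, hN u hu⟩
    rw [pow_succ', mul_assoc]
    exact C.mul_mem hu (hN c hc)
  obtain ⟨h1, h2⟩ := Nat.find_spec hex
  have hmin := fun m (hm : m < Nat.find hex) => Nat.find_min hex hm
  generalize Nat.find hex = n at h1 h2 hmin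
  obtain ⟨δ, hδ⟩ := der_C (n + 1) h1
  obtain ⟨η, hη⟩ : ∃ η : C, (η : S) = u ^ n * E u := ⟨⟨_, h2⟩, rfl⟩
  obtain ⟨d0, hd0⟩ := desc hρ hker hu δ ⟨η, by rw [hδ, hη, pow_succ']; ring⟩
  -- the basic computation
  have key : ∀ (l : ℕ) (c : C) (s : S), (c : S) = u ^ l * s →
      ∃ c' : C, ρ c' = d0 (ρ c) - (l : R0) * ρ η * ρ c ∧
        (c' : S) = u ^ (l + (n + 1)) * E s := by
    intro l c s hc
    refine ⟨δ c - l * η * c, ?_, ?_⟩
    · rw [hd0, map_sub, map_mul, map_mul, map_natCast]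
    · rw [AddSubgroupClass.coe_sub, MulMemClass.coe_mul, MulMemClass.coe_mul, hδ, hη]
      have h3 : (((l : ℕ) : C) : S) = (l : S) := by push_cast; rfl
      rw [h3, hc, Derivation.leibniz, Derivation.leibniz_pow]
      simp only [smul_eq_mul, nsmul_eq_mul]
      rcases l with _ | l
      · simp
      · rw [Nat.add_sub_cancel]
        push_cast
        ring
  have hiter : ∀ (m l : ℕ) (c : C) (s : S), (c : S) = u ^ l * s →
      ∃ c' : C, ρ c' = LIt d0 (ρ η) (n + 1) m l (ρ c) ∧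
        ∃ j : ℕ, (c' : S) = u ^ j * (⇑E)^[m] s := by
    intro m
    induction m with
    | zero => exact fun l c s hc => ⟨c, rfl, l, hc⟩
    | succ m ih =>
      intro l c s hc
      obtain ⟨c', h3, h4⟩ := key l c s hc
      obtain ⟨c'', h5, h6⟩ := ih (l + (n + 1)) c' (E s) h4
      refine ⟨c'', ?_, h6⟩
      rw [h5, h3]
      rfl
  refine ⟨n + 1, d0, ρ η, by omega, ?_, ?_, ?_⟩
  · intro hd hh
    -- `u` divides `δ c` for all `c` and `η`
    have h3 : ∀ c : C, ∃ c' : C, ((δ c : C) : S) = u * c' := by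
      intro c
      rw [← hker, ← hd0, hd]
      rfl
    obtain ⟨η', hη'⟩ := (hker η).1 hh
    have h4 : u * (η' : S) = u ^ n * E u := by rw [← hη, hη']
    rcases n with _ | n
    · rw [pow_zero, one_mul] at h4
      exact hE ⟨η', h4.symm⟩
    · refine hmin n (Nat.lt_succ_self n) ⟨fun c hc => ?_, ?_⟩
      · obtain ⟨c', hc'⟩ := h3 ⟨c, hc⟩
        have h5 : u * (u ^ (n + 1) * E c) = u * c' := by
          rw [← mul_assoc, ← pow_succ', ← hc', hδ]
        rw [mul_left_cancel₀ huS h5]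
        exact c'.2
      · have h5 : u * (u ^ n * E u) = u * η' := by
          rw [← mul_assoc, ← pow_succ', h4]
        rw [mul_left_cancel₀ huS h5]
        exact η'.2
  · rintro l c ⟨s, hc⟩
    obtain ⟨c', h3, h4⟩ := key l c s hc
    exact ⟨c', ⟨_, h4⟩, h3⟩
  · rintro l c ⟨s, hc⟩
    obtain ⟨q, a, m, ha, hq, hm⟩ := hnil s
    obtain ⟨c', h3, j, h4⟩ := hiter m l (q * c) (q * s) (by
      rw [MulMemClass.coe_mul, hc]
      ring)
    refine ⟨m, ?_⟩
    rw [hm, mul_zero] at h4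
    have h5 : c' = 0 := Subtype.ext h4
    rw [h5, map_zero, map_mul, hq, LIt_smul] at h3
    have h6 : algebraMap k R0 a⁻¹ * (algebraMap k R0 a * LIt d0 (ρ η) (n + 1) m l (ρ c)) = 0 := by
      rw [← h3, mul_zero]
    rwa [← mul_assoc, ← map_mul, inv_mul_cancel₀ ha, map_one, one_mul] at h6

/-- page 2.1: the fields `nz`, `L_mem`, `nil` of `NNDat` -/
theorem nn_der {k S R0 : Type} [Field k] [CommRing S] [IsDomain S] [Algebra k S] [CommRing R0]
    [Algebra k R0] {C : Subalgebra k S} {u : C} {ρ : C →ₐ[k] R0} (hρ : Function.Surjective ρ)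
    (hker : ∀ z : C, ρ z = 0 ↔ ∃ w : C, (z : S) = u * w) (huS : (u : S) ≠ 0)
    {E : Derivation k S S} (hE : ¬ (u : S) ∣ E u) (hb : ∃ N : ℕ, ∀ c ∈ C, (u : S) ^ N * E c ∈ C)
    (hnil : ∀ s : S, ∃ (q : C) (a : k) (m : ℕ), a ≠ 0 ∧ ρ q = algebraMap k R0 a ∧
      (⇑E)^[m] ((q : S) * s) = 0) :
    ∃ (n : ℕ) (d0 : Derivation k R0 R0) (h0 : R0), 1 ≤ n ∧ (d0 = 0 → h0 ≠ 0) ∧
      (∀ (l : ℕ) (z : R0), z ∈ JJ (C.val : C →+* S) (ρ : C →+* R0) u l →
        d0 z - (l : R0) * h0 * z ∈ JJ (C.val : C →+* S) (ρ : C →+* R0) u (l + n)) ∧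
      ∀ (l : ℕ) (z : R0), z ∈ JJ (C.val : C →+* S) (ρ : C →+* R0) u l →
        ∃ m, LIt d0 h0 n m l z = 0 := by
  have hρ' : Function.Surjective (ρ : C →+* R0) := hρ
  obtain ⟨n, d0, h0, h1, h2, h3, h4⟩ := nn_der0 hρ hker u.2 huS hE hb hnil
  refine ⟨n, d0, h0, h1, h2, fun l z hz => ?_, fun l z hz => ?_⟩
  · obtain ⟨c, hc, rfl⟩ := (mem_JJ hρ').1 hz
    obtain ⟨c', hc', h5⟩ := h3 l c hc
    exact (mem_JJ hρ').2 ⟨c', hc', h5⟩
  · obtain ⟨c, hc, rfl⟩ := (mem_JJ hρ').1 hz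
    exact h4 l c hc

end Pool.Agent.LNDQ
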