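import Mathlib
import Pool.Agent.LNDQ.Defs
import Pool.Agent.LNDQ.NNfact

/-!
# Division by `Gam = u ^ W G` in `C = R[v,x,y]` and in `S` (H/821812_Q1, 2.2): `FactDat`
-/

set_option autoImplicit false

open Polynomial

namespace Pool.Agent.LNDQ

section low

variable {k S : Type} [Field k] [CommRing S] [Algebra k S] {R : Subalgebra k S} {u : R} {β : ℕ}
  {v x y : S}

theorem nnLow_mono {n m : ℕ} (h : n ≤ m) : Low R β v x y n ≤ Low R β v x y m := by
  refine Submodule.span_mono ?_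
  rintro z ⟨i, j, hj, rfl⟩
  exact ⟨i, j, hj.trans_le h, rfl⟩

theorem nnLow_v {n : ℕ} {z : S} (h : z ∈ Low R β v x y n) : v * z ∈ Low R β v x y n := by
  induction h using Submodule.span_induction with
  | mem z hz =>
    obtain ⟨i, j, hj, rfl⟩ := hz
    refine Submodule.subset_span ⟨i + 1, j, hj, ?_⟩
    rw [pow_succ']
    ring
  | zero => rw [mul_zero]; exact Submodule.zero_mem _
  | add a b _ _ ha hb => rw [mul_add]; exact Submodule.add_mem _ ha hb
  | smul r a _ ha => rw [mul_smul_comm]; exact Submodule.smul_mem _ _ ha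

theorem nnLow_aeval {n : ℕ} {z : S} (h : z ∈ Low R β v x y n) (a : R[X]) :
    aeval v a * z ∈ Low R β v x y n := by
  induction a using Polynomial.induction_on' with
  | add p q hp hq => rw [map_add, add_mul]; exact Submodule.add_mem _ hp hq
  | monomial i r =>
    rw [aeval_monomial, mul_assoc, ← Algebra.smul_def]
    refine Submodule.smul_mem _ _ ?_
    clear r
    induction i with
    | zero => simpa using h
    | succ i ih => rw [pow_succ', mul_assoc]; exact nnLow_v ih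

theorem nnLow_u {n : ℕ} {z : S} (h : z ∈ Low R β v x y n) (m : ℕ) :
    (u : S) ^ m * z ∈ Low R β v x y n := by
  have h1 : (u : S) ^ m * z = (u ^ m : R) • z := by
    rw [Algebra.smul_def]
    rfl
  rw [h1]
  exact Submodule.smul_mem _ _ h

theorem nnLow_bs {n j : ℕ} (h : j < n) : bs β x y j ∈ Low R β v x y n :=
  Submodule.subset_span ⟨0, j, h, by rw [pow_zero, one_mul]⟩

theorem nnFl_of {n : ℕ} {z : S} (h : z ∈ Low R β v x y n) : Fl R u β v x y n z :=
  ⟨0, by simpa using h⟩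

theorem nnFl_add {n : ℕ} {z w : S} (hz : Fl R u β v x y n z) (hw : Fl R u β v x y n w) :
    Fl R u β v x y n (z + w) := by
  obtain ⟨a, ha⟩ := hz
  obtain ⟨b, hb⟩ := hw
  refine ⟨a + b, ?_⟩
  have h1 : (u : S) ^ (a + b) * (z + w) = (u : S) ^ b * ((u : S) ^ a * z) +
      (u : S) ^ a * ((u : S) ^ b * w) := by
    rw [pow_add]
    ring
  rw [h1]
  exact Submodule.add_mem _ (nnLow_u ha b) (nnLow_u hb a)

theorem nnFl_neg {n : ℕ} {z : S} (hz : Fl R u β v x y n z) : Fl R u β v x y n (-z) := by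
  obtain ⟨a, ha⟩ := hz
  refine ⟨a, ?_⟩
  rw [mul_neg]
  exact Submodule.neg_mem _ ha

theorem nnFl_sub {n : ℕ} {z w : S} (hz : Fl R u β v x y n z) (hw : Fl R u β v x y n w) :
    Fl R u β v x y n (z - w) := by
  rw [sub_eq_add_neg]
  exact nnFl_add hz (nnFl_neg hw)

theorem nnFl_u {n : ℕ} {z : S} (hz : Fl R u β v x y n z) (m : ℕ) :
    Fl R u β v x y n ((u : S) ^ m * z) := by
  obtain ⟨a, ha⟩ := hz
  refine ⟨a, ?_⟩
  rw [← mul_assoc, mul_comm ((u : S) ^ a), mul_assoc]
  exact nnLow_u ha m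

theorem nnFl_cancel {n : ℕ} {z : S} (m : ℕ) (hz : Fl R u β v x y n ((u : S) ^ m * z)) :
    Fl R u β v x y n z := by
  obtain ⟨a, ha⟩ := hz
  refine ⟨a + m, ?_⟩
  rw [pow_add, mul_assoc]
  exact ha

end low

section div

variable {k S : Type} [Field k] [CommRing S] [Algebra k S] {R : Subalgebra k S} {u : R} {β : ℕ}
  {v x y : S}

/-- what the division uses of the filtration by degree -/
structure DivHyp (R : Subalgebra k S) (u : R) (β : ℕ) (v x y : S) (N W W0 : ℕ) (G : S) : Prop where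
  low_succ : ∀ (n : ℕ) (z : S), z ∈ Low R β v x y (n + 1) →
    ∃ a : R[X], z - aeval v a * bs β x y n ∈ Low R β v x y n
  bs_low : ∀ (n : ℕ) (z : S), z ∈ Low R β v x y N → bs β x y n * z ∈ Low R β v x y (N + n)
  bs_N : ∀ n : ℕ, bs β x y n * bs β x y N = bs β x y (N + n)
  mem_Cx : ∀ z : S, z ∈ Cx R v x y ↔ ∃ n, z ∈ Low R β v x y n
  fl_mul : ∀ a : S, Fl R u β v x y N (a * G) → a = 0
  gam : (u : S) ^ W * G - bs β x y N ∈ Low R β v x y N
  intg : ∀ z : S, Fl R u β v x y N z → (u : S) ^ W0 * z ∈ Low R β v x y N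
  div : ∀ z : S, ∃ s t : S, z = s * G + t ∧ Fl R u β v x y N t

variable {N W W0 : ℕ} {G : S}

theorem DivHyp.low_Cx (H : DivHyp R u β v x y N W W0 G) {n : ℕ} {z : S}
    (h : z ∈ Low R β v x y n) : z ∈ Cx R v x y :=
  (H.mem_Cx z).2 ⟨n, h⟩

theorem DivHyp.gam_mem (H : DivHyp R u β v x y N W W0 G) : (u : S) ^ W * G ∈ Cx R v x y := by
  have h1 := H.low_Cx H.gam
  have h2 := H.low_Cx (nnLow_bs (R := R) (β := β) (v := v) (x := x) (y := y) (Nat.lt_succ_self N))
  have h3 := add_mem h1 h2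
  rwa [sub_add_cancel] at h3

theorem u_mem_Cx (R : Subalgebra k S) (u : R) (v x y : S) : (u : S) ∈ Cx R v x y := by
  change (u : S) ∈ Algebra.adjoin R {v, x, y}
  exact (Algebra.adjoin R {v, x, y}).algebraMap_mem u

theorem DivHyp.divC (H : DivHyp R u β v x y N W W0 G) (n : ℕ) : ∀ z : S,
    z ∈ Low R β v x y (N + n) → ∃ s ∈ Cx R v x y, ∃ t ∈ Low R β v x y N,
      z = s * ((u : S) ^ W * G) + t := by
  induction n with
  | zero => exact fun z hz => ⟨0, zero_mem _, z, hz, by rw [zero_mul, zero_add]⟩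
  | succ n ih =>
    intro z hz
    obtain ⟨a, ha⟩ := H.low_succ (N + n) z hz
    have h1 : aeval v a * bs β x y n ∈ Cx R v x y :=
      H.low_Cx (nnLow_aeval (nnLow_bs (Nat.lt_succ_self n)) a)
    have h2 : z - aeval v a * bs β x y n * ((u : S) ^ W * G) ∈ Low R β v x y (N + n) := by
      have h3 := nnLow_aeval (H.bs_low n _ H.gam) a
      have h4 := Submodule.sub_mem _ ha h3
      have h5 : z - aeval v a * bs β x y (N + n) - aeval v a * (bs β x y n *
          ((u : S) ^ W * G - bs β x y N)) = z - aeval v a * bs β x y n * ((u : S) ^ W * G) := by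
        rw [← H.bs_N n]
        ring
      rwa [h5] at h4
    obtain ⟨s, hs, t, ht, hst⟩ := ih _ h2
    refine ⟨aeval v a * bs β x y n + s, add_mem h1 hs, t, ht, ?_⟩
    rw [add_mul, add_assoc, ← hst]
    ring

theorem DivHyp.uniqS [IsDomain S] (H : DivHyp R u β v x y N W W0 G) {s t : S}
    (ht : Fl R u β v x y N t) (h : s * G + t = 0) : s = 0 ∧ t = 0 := by
  have h1 : s = 0 := by
    refine H.fl_mul s ?_
    rw [eq_neg_of_add_eq_zero_left h]
    exact nnFl_neg ht
  refine ⟨h1, ?_⟩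
  rwa [h1, zero_mul, zero_add] at h

variable {R0 : Type} [CommRing R0] [Algebra k R0]

/-- **the division data** -/
theorem factDat_of [IsDomain S] (H : DivHyp R u β v x y N W W0 G) (hu : (u : S) ≠ 0) (hW : 0 < W)
    (ρ : Cx R v x y →ₐ[k] R0) (hs : Function.Surjective ρ)
    (hk : ∀ z : Cx R v x y, ρ z = 0 ↔ ∃ w : Cx R v x y, (z : S) = u * w)
    (ι : Cx R v x y →+* S) (hι : ∀ z, ι z = (z : S)) (π : Cx R v x y →+* R0) (hπ : ∀ z, π z = ρ z) :
    FactDat ι π ⟨(u : S), u_mem_Cx R u v x y⟩ ⟨(u : S) ^ W * G, H.gam_mem⟩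
      {t | Fl R u β v x y N (t : S)} W W0 := by
  have hdiv : ∀ z : Cx R v x y, ∃ s t : Cx R v x y, t ∈ {t : Cx R v x y | Fl R u β v x y N (t : S)} ∧
      z = s * ⟨(u : S) ^ W * G, H.gam_mem⟩ + t := by
    intro z
    obtain ⟨n, hn⟩ := (H.mem_Cx z).1 z.2
    obtain ⟨s, hs, t, ht, hst⟩ := H.divC n z (nnLow_mono (by omega) hn)
    exact ⟨⟨s, hs⟩, ⟨t, H.low_Cx ht⟩, nnFl_of ht, Subtype.ext hst⟩
  refine ⟨?_, ?_, hW, hdiv, ?_, ?_, ?_⟩
  · intro z
    obtain ⟨w, hw⟩ := hs z
    exact ⟨w, by rw [hπ, hw]⟩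
  · rintro z ⟨w, rfl⟩
    rw [hπ, hk]
    exact ⟨w, rfl⟩
  · rintro s t m ht ⟨z, hz⟩
    simp only [hι] at hz ⊢
    obtain ⟨s', t', hst, ht'⟩ := H.div z
    have h1 : ((s : S) * (u : S) ^ W - (u : S) ^ m * s') * G + ((t : S) - (u : S) ^ m * t') = 0 := by
      have h2 : ((s * ⟨(u : S) ^ W * G, H.gam_mem⟩ + t : Cx R v x y) : S) =
          (s : S) * ((u : S) ^ W * G) + t := rfl
      rw [h2] at hz
      rw [hst] at hz
      linear_combination hz
    obtain ⟨h2, h3⟩ := H.uniqS (nnFl_sub ht (nnFl_u ht' m)) h1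
    refine ⟨⟨t', sub_eq_zero.1 h3⟩, ?_⟩
    rcases le_total m W with h4 | h4
    · rw [Nat.sub_eq_zero_of_le h4, pow_zero]
      exact one_dvd _
    · refine ⟨s', ?_⟩
      have h5 : (u : S) ^ W ≠ 0 := pow_ne_zero _ hu
      refine mul_left_cancel₀ h5 ?_
      have h6 : (u : S) ^ m = (u : S) ^ W * (u : S) ^ (m - W) := by
        rw [← pow_add]
        congr 1
        omega
      rw [h6] at h2
      change (u : S) ^ W * (s : S) = (u : S) ^ W * ((u : S) ^ (m - W) * s')
      linear_combination h2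
  · rintro t m ht ⟨z, hz⟩
    simp only [hι] at hz
    change (t : S) = (u : S) ^ m * z at hz
    rcases le_total m W0 with h4 | h4
    · rw [Nat.sub_eq_zero_of_le h4, pow_zero]
      exact one_dvd _
    · have h1 : Fl R u β v x y N z := by
        have ht' : Fl R u β v x y N (t : S) := ht
        rw [hz] at ht'
        exact nnFl_cancel m ht'
      refine ⟨⟨(u : S) ^ W0 * z, H.low_Cx (H.intg z h1)⟩, Subtype.ext ?_⟩
      change (t : S) = (u : S) ^ (m - W0) * ((u : S) ^ W0 * z)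
      rw [hz, ← mul_assoc, ← pow_add]
      congr 2
      omega
  · intro s t y0 ht h
    obtain ⟨y1, rfl⟩ := hs y0
    simp only [hπ] at h ⊢
    have h1 : ρ ((s - y1) * ⟨(u : S) ^ W * G, H.gam_mem⟩ + t) = 0 := by
      rw [map_add, map_mul, map_sub, sub_mul, ← h]
      ring
    obtain ⟨w, hw⟩ := (hk _).1 h1
    obtain ⟨s', t', ht', hst⟩ := hdiv w
    have h2 : (((s : S) - y1 - u * s') * (u : S) ^ W) * G + ((t : S) - (u : S) ^ 1 * t') = 0 := by
      have h3 : ((s : S) - y1) * ((u : S) ^ W * G) + t = u * (s' * ((u : S) ^ W * G) + t') := by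
        rw [hst] at hw
        exact hw
      rw [pow_one]
      linear_combination h3
    obtain ⟨h3, -⟩ := H.uniqS (nnFl_sub ht (nnFl_u ht' 1)) h2
    have h4 : (s : S) - y1 - u * s' = 0 :=
      (mul_eq_zero.1 h3).resolve_right (pow_ne_zero _ hu)
    have h5 : ρ (s - y1) = 0 := by
      rw [hk]
      exact ⟨s', by change (s : S) - y1 = u * s'; linear_combination h4⟩
    rwa [map_sub, sub_eq_zero] at h5

end div

end Pool.Agent.LNDQ
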