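import Mathlib
import Pool.Agent.LNDQ.NNOut
import Pool.Agent.LNDQ.NNder
import Pool.Agent.LNDQ.NNfd

set_option autoImplicit false
set_option linter.unusedSectionVars false
set_option linter.unusedVariables false

open Polynomial

namespace Pool.Agent.LNDQ

/-- two surjections with the same kernel -/
theorem red_equiv {k C R0 R1 : Type} [Field k] [CommRing C] [Algebra k C] [CommRing R0] [Algebra k R0]
    [CommRing R1] [Algebra k R1] (ρ : C →ₐ[k] R0) (ρ1 : C →ₐ[k] R1) (h : Function.Surjective ρ)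
    (h1 : Function.Surjective ρ1) (hk : ∀ z, ρ z = 0 ↔ ρ1 z = 0) :
    ∃ φ : R1 ≃ₐ[k] R0, ∀ z, φ (ρ1 z) = ρ z := by
  have hker : RingHom.ker ρ1 = RingHom.ker ρ := by
    ext z
    rw [RingHom.mem_ker, RingHom.mem_ker]
    exact (hk z).symm
  let e0 := Ideal.quotientKerAlgEquivOfSurjective h
  let e1 := Ideal.quotientKerAlgEquivOfSurjective h1
  refine ⟨e1.symm.trans ((Ideal.quotientEquivAlgOfEq k hker).trans e0), fun z => ?_⟩
  have h2 : e1 (Ideal.Quotient.mk _ z) = ρ1 z := rfl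
  have h3 : e0 (Ideal.Quotient.mk _ z) = ρ z := rfl
  have h4 : e1.symm (ρ1 z) = Ideal.Quotient.mk _ z := by
    rw [← h2, AlgEquiv.symm_apply_apply]
  rw [AlgEquiv.trans_apply, AlgEquiv.trans_apply, h4]
  exact h3

/-- complete integral closedness and finite generation pass to isomorphic rings -/
theorem cic_equiv {k R0 R1 : Type} [Field k] [CommRing R0] [Algebra k R0] [CommRing R1] [Algebra k R1]
    (φ : R1 ≃ₐ[k] R0)
    (hc : ∀ a b g : R1, b ≠ 0 → g ≠ 0 → (∀ M : ℕ, b ^ M ∣ g * a ^ M) → b ∣ a) (a b g : R0)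
    (hb : b ≠ 0) (hg : g ≠ 0) (h : ∀ M : ℕ, b ^ M ∣ g * a ^ M) : b ∣ a := by
  have h1 : φ.symm b ∣ φ.symm a := by
    refine hc _ _ (φ.symm g) ?_ ?_ fun M => ?_
    · rw [Ne, map_eq_zero_iff φ.symm φ.symm.injective]
      exact hb
    · rw [Ne, map_eq_zero_iff φ.symm φ.symm.injective]
      exact hg
    · rw [← map_pow, ← map_pow, ← map_mul]
      exact map_dvd φ.symm (h M)
  have h2 := map_dvd φ h1
  rwa [AlgEquiv.apply_symm_apply, AlgEquiv.apply_symm_apply] at h2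

theorem fg_equiv {k R0 R1 : Type} [Field k] [CommRing R0] [Algebra k R0] [CommRing R1] [Algebra k R1]
    (φ : R1 ≃ₐ[k] R0) {v x y : R1} (hg : Algebra.adjoin k {v, x, y} = ⊤) :
    (⊤ : Subalgebra k R0).FG := by
  classical
  have h1 : Algebra.FiniteType k R1 := ⟨⟨{v, x, y}, by simpa using hg⟩⟩
  have h2 : Algebra.FiniteType k R0 := h1.equiv φ
  exact h2.out

section

variable {k S : Type} [Field k] [CommRing S] [IsDomain S] [Algebra k S]
  {R0 T : Type} [CommRing R0] [IsDomain R0] [Algebra k R0] [CommRing T] [IsDomain T] [Algebra k T]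
  {R : Subalgebra k S} {u : R} {C : Subalgebra k S} {ρ : C →ₐ[k] R0} {σ : S →ₐ[k] T} {π : R0 →ₐ[k] T}

/-- `J 1` is the kernel of `π` -/
theorem mem_JJ_one (hR : Red u C ρ σ π) (uC : C) (huC : (uC : S) = u) (x : R0) :
    x ∈ JJ (C.val : C →+* S) (ρ : C →+* R0) uC 1 ↔ π x = 0 := by
  rw [mem_JJ (π := (ρ : C →+* R0)) hR.rs]
  constructor
  · rintro ⟨z, hz, rfl⟩
    have h1 : (u : S) ∣ (z : S) := by
      rw [pow_one] at hz
      rw [← huC]
      exact hz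
    have h2 := hR.comp z
    rw [(hR.sk z).mpr h1] at h2
    exact h2
  · intro hx
    obtain ⟨z, rfl⟩ := hR.rs x
    refine ⟨z, ?_, rfl⟩
    have h2 := hR.comp z
    rw [hx] at h2
    have h3 := (hR.sk z).mp h2.symm
    rw [pow_one]
    rw [← huC] at h3
    exact h3

theorem JJ_one_prime (hR : Red u C ρ σ π) (uC : C) (huC : (uC : S) = u) :
    (JJ (C.val : C →+* S) (ρ : C →+* R0) uC 1).IsPrime := by
  have h : JJ (C.val : C →+* S) (ρ : C →+* R0) uC 1 = RingHom.ker (π : R0 →+* T) := by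
    ext x
    rw [mem_JJ_one hR uC huC, RingHom.mem_ker]
    rfl
  rw [h]
  exact RingHom.ker_isPrime _

/-- the nilpotency hypothesis in the form of `nn_der` -/
theorem nil_of (fr : Fr R u) (hRC : ∀ r : R, (r : S) ∈ C) (hR : Red u C ρ σ π)
    {E : Derivation k S S} (hnil : ∀ z : S, ∃ r : R, IsUnit r ∧ ∃ m, (⇑E)^[m] (r * z) = 0) (s : S) :
    ∃ (q : C) (a : k) (m : ℕ), a ≠ 0 ∧ ρ q = algebraMap k R0 a ∧ (⇑E)^[m] ((q : S) * s) = 0 := by
  obtain ⟨r, hr, m, hm⟩ := hnil s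
  obtain ⟨c, r', hc⟩ := fr.res r
  refine ⟨⟨r, hRC r⟩, c, m, ?_, ?_, hm⟩
  · rintro rfl
    rw [map_zero, zero_add] at hc
    rw [hc] at hr
    have h1 : IsUnit u := isUnit_of_mul_isUnit_left hr
    have h2 : IsUnit (u : S) := h1.map R.val
    exact fr.prime.not_isUnit h2
  · have h1 : ρ (⟨r, hRC r⟩ - algebraMap k C c) = 0 := by
      rw [hR.rk]
      refine ⟨⟨r', hRC r'⟩, ?_⟩
      have h2 : (r : S) = algebraMap k S c + (u : S) * (r' : S) := by
        rw [hc]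
        rfl
      change (r : S) - algebraMap k S c = (u : S) * (r' : S)
      rw [h2]
      ring
    rw [map_sub, sub_eq_zero, AlgHom.commutes] at h1
    exact h1

end

/-- group NN, assembled from its parts -/
theorem nn_build {k S : Type} [Field k] [CharZero k] [CommRing S] [IsDomain S] [Algebra k S]
    {R : Subalgebra k S} {u : R} {β : ℕ} {v x y : S} (fr : Fr R u) {N W W0 : ℕ} {G : S}
    (hW : 0 < W) (H : DivHyp R u β v x y N W W0 G) (E : Derivation k S S)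
    (hu : ¬ (u : S) ∣ E u) (hb : ∃ n : ℕ, ∀ c ∈ Cx R v x y, (u : S) ^ n * E c ∈ Cx R v x y)
    (hnil : ∀ z : S, ∃ r : R, IsUnit r ∧ ∃ m, (⇑E)^[m] (r * z) = 0)
    {R0 T : Type} [CommRing R0] [IsDomain R0] [Algebra k R0] [CommRing T] [IsDomain T] [Algebra k T]
    {ρ : Cx R v x y →ₐ[k] R0} {σ : S →ₐ[k] T} {π : R0 →ₐ[k] T} (hR : Red u (Cx R v x y) ρ σ π)
    (hfg : (⊤ : Subalgebra k R0).FG)
    (hcic : ∀ a b g : R0, b ≠ 0 → g ≠ 0 → (∀ M : ℕ, b ^ M ∣ g * a ^ M) → b ∣ a)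
    (mult : ∀ q, q ∉ JJ ((Cx R v x y).val : Cx R v x y →+* S) (ρ : Cx R v x y →+* R0)
        ⟨(u : S), u_mem_Cx R u v x y⟩ 1 →
      q * ρ ⟨(u : S) ^ W * G, H.gam_mem⟩ ∉
        JJ ((Cx R v x y).val : Cx R v x y →+* S) (ρ : Cx R v x y →+* R0)
          ⟨(u : S), u_mem_Cx R u v x y⟩ 1 ^ W) :
    ∃ Δ : Derivation k R0 R0, (∃ z, Δ z ≠ 0) ∧ (∀ z, ∃ n, (⇑Δ)^[n] z = 0) ∧
      ((∃ z, z ≠ 0 ∧ Δ z = 0 ∧ π z = 0) ∨
        ∀ z, ∃ a b, Δ a = 0 ∧ Δ b = 0 ∧ π b ≠ 0 ∧ π (b * z) = π a) := by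
  have huS : (u : S) ≠ 0 := fr.prime.ne_zero
  have hRC : ∀ r : R, (r : S) ∈ Cx R v x y := fun r => by
    change (r : S) ∈ Algebra.adjoin R {v, x, y}
    exact (Algebra.adjoin R {v, x, y}).algebraMap_mem r
  have hP := JJ_one_prime hR (⟨(u : S), u_mem_Cx R u v x y⟩ : Cx R v x y) rfl
  have hJ1 := mem_JJ_one hR (⟨(u : S), u_mem_Cx R u v x y⟩ : Cx R v x y) rfl
  have F := factDat_of H huS hW ρ hR.rs hR.rk ((Cx R v x y).val : Cx R v x y →+* S) (fun z => rfl)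
    (ρ : Cx R v x y →+* R0) (fun z => rfl)
  obtain ⟨n, d0, h0, hn, hnz, hL, hnl⟩ := nn_der (C := Cx R v x y)
    (u := ⟨(u : S), u_mem_Cx R u v x y⟩) (ρ := ρ) hR.rs hR.rk huS hu hb (nil_of fr hRC hR hnil)
  have hg0 : ρ ⟨(u : S) ^ W * G, H.gam_mem⟩ ≠ 0 := by
    intro h
    have h1 := F.uniq 1 0 0 ⟨0, by simp⟩ (by
      change _ * ρ ⟨(u : S) ^ W * G, H.gam_mem⟩ + _ = _
      rw [h, mul_zero, map_zero, zero_add, zero_mul])
    rw [map_one] at h1
    exact one_ne_zero h1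
  have D : NNDat (JJ ((Cx R v x y).val : Cx R v x y →+* S) (ρ : Cx R v x y →+* R0)
      ⟨(u : S), u_mem_Cx R u v x y⟩) (ρ ⟨(u : S) ^ W * G, H.gam_mem⟩) W n d0 h0 :=
    { J_zero := JJ_zero F.surj
      J_anti := fun a b hab => JJ_anti F.surj hab
      J_mul := fun a b x y hx hy => JJ_mul F.surj hx hy
      W_pos := hW
      gam_mem := by
        rw [mem_JJ F.surj]
        exact ⟨⟨(u : S) ^ W * G, H.gam_mem⟩, ⟨G, rfl⟩, rfl⟩
      gam_ne := hg0
      cic := fun j x hx => F.gam_dvd (fun i => pow_ne_zero i hg0) (fun a b g hg h => by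
        by_cases hb0 : b = 0
        · subst hb0
          have h1 := h 1
          rw [pow_one, pow_one, zero_dvd_iff] at h1
          rw [(mul_eq_zero.mp h1).resolve_left hg]
        · exact hcic a b g hb0 hg h) j x hx
      satg := fun l y hy => F.sat l y hy
      nz := hnz
      L_mem := hL
      nil := hnl }
  obtain ⟨Del, h1, h2, h3⟩ := nn_out hfg D hP mult
  refine ⟨Del, ?_, h1, ?_⟩
  · by_contra hcon
    push Not at hcon
    exact h2 (by ext z; rw [hcon z]; rfl)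
  · rcases h3 with ⟨z, hz, hz1, hz2⟩ | h3
    · exact Or.inl ⟨z, hz, hz1, (hJ1 z).mp hz2⟩
    · right
      intro z
      obtain ⟨a, b, ha, hb', hb1, hab⟩ := h3 z
      refine ⟨a, b, ha, hb', fun h => hb1 ((hJ1 b).mpr h), ?_⟩
      have h4 := (hJ1 _).mp hab
      rwa [map_sub, sub_eq_zero] at h4

end Pool.Agent.LNDQ
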