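import Mathlib
import Pool.Agent.LNDQ.NNfd
import Pool.Agent.LNDQ.Quo
import Pool.Agent.LNDQ.Intg

/-!
# The hypotheses of the division from `Env` and `GD` (H/821812_Q1, 2.2)
-/

set_option autoImplicit false

open Polynomial

namespace Pool.Agent.LNDQ

section

variable {k S : Type} [Field k] [CommRing S] [Algebra k S] {R : Subalgebra k S} {u : R}
  {f : R[X]} {v x y : S}

theorem nd_rl (h : Pres f v x y) : Bas.Rl f f.natDegree v x y :=
  ⟨by have := h.deg; omega, h.monic, rfl, h.rel⟩

theorem nd_ind (h : Pres f v x y) : Bas.Ind R v x := by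
  intro P hP
  have h1 : ∀ Q : R[X][X], MvPolynomial.aeval ![v, x] (Polynomial.Bivariate.equivMvPolynomial R Q) =
      Q.eval₂ (aeval v : R[X] →ₐ[R] S).toRingHom x := by
    intro Q
    induction Q using Polynomial.induction_on' with
    | add p q hp hq => rw [map_add, map_add, hp, hq, eval₂_add]
    | monomial n a =>
      rw [← C_mul_X_pow_eq_monomial, map_mul, map_mul, map_pow, map_pow,
        Polynomial.Bivariate.equivMvPolynomial_X, MvPolynomial.aeval_X, eval₂_mul, eval₂_C,
        eval₂_pow, eval₂_X]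
      congr 1
      induction a using Polynomial.induction_on' with
      | add p q hp hq => rw [C_add, map_add, map_add, hp, hq, map_add]
      | monomial m r =>
        rw [← C_mul_X_pow_eq_monomial, C_mul, C_pow, map_mul, map_mul, map_pow, map_pow,
          Polynomial.Bivariate.equivMvPolynomial_C_X, MvPolynomial.aeval_X,
          Polynomial.Bivariate.equivMvPolynomial_C_C, MvPolynomial.aeval_C]
        change _ = aeval v (C r * X ^ m)
        rw [map_mul, map_pow, aeval_X, aeval_C]
        rfl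
  have h2 : Polynomial.Bivariate.equivMvPolynomial R P = 0 := by
    refine h.ind ?_
    rw [map_zero]
    rw [h1, hP]
  exact (map_eq_zero_iff _ (Polynomial.Bivariate.equivMvPolynomial R).injective).1 h2

theorem nd_free (h : Pres f v x y) : Bas.Free R f.natDegree v x y :=
  Bas.free_of_ind (nd_rl h) (nd_ind h)

theorem nd_low {β n : ℕ} {z : S} : z ∈ Low R β v x y n ↔ Bas.Low R β v x y n z := by
  constructor
  · intro h
    induction h using Submodule.span_induction with
    | mem z hz =>
      obtain ⟨i, j, hj, rfl⟩ := hz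
      exact (Bas.low_e hj).v_pow i
    | zero => exact Bas.low_zero n
    | add a b _ _ ha hb => exact ha.add hb
    | smul r a _ ha =>
      rw [Algebra.smul_def]
      exact ha.C_smul r
  · rintro ⟨p, rfl⟩
    refine Submodule.sum_mem _ fun i hi => nnLow_aeval (nnLow_bs ?_) _
    exact Finset.mem_range.1 hi

theorem nd_succ {β n : ℕ} {z : S} (h : z ∈ Low R β v x y (n + 1)) :
    ∃ a : R[X], z - aeval v a * bs β x y n ∈ Low R β v x y n := by
  obtain ⟨p, rfl⟩ := nd_low.1 h
  refine ⟨p n, ?_⟩
  rw [Finset.sum_range_succ]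
  change _ + aeval v (p n) * bs β x y n - _ ∈ _
  rw [add_sub_cancel_right, nd_low]
  exact ⟨p, rfl⟩

theorem nd_mul (h : Pres f v x y) {m n : ℕ} {c d : S} (hc : c ∈ Low R f.natDegree v x y (m + 1))
    (hd : d ∈ Low R f.natDegree v x y n) : c * d ∈ Low R f.natDegree v x y (m + n) :=
  nd_low.2 (Bas.Low.mul (nd_rl h) (nd_low.1 hc) (nd_low.1 hd))

theorem nd_bs {β N : ℕ} (hβ : 0 < β) (hN : β ∣ N) (n : ℕ) :
    bs β x y n * bs β x y N = bs β x y (N + n) := by
  obtain ⟨q, rfl⟩ := hN
  rw [bs, bs, bs, Nat.mul_mod_right, Nat.mul_div_cancel_left _ hβ, Nat.mul_add_mod,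
    Nat.mul_add_div hβ, pow_zero, pow_add]
  ring

theorem nd_Cx (h : Pres f v x y) (z : S) :
    z ∈ Cx R v x y ↔ ∃ n, z ∈ Low R f.natDegree v x y n := by
  constructor
  · intro hz
    obtain ⟨n, hn⟩ := Bas.exists_low (nd_rl h) (c := z) hz
    exact ⟨n, nd_low.2 hn⟩
  · rintro ⟨n, hn⟩
    change z ∈ Algebra.adjoin R {v, x, y}
    induction hn using Submodule.span_induction with
    | mem z hz =>
      obtain ⟨i, j, hj, rfl⟩ := hz
      have hv : v ∈ Algebra.adjoin R {v, x, y} := Algebra.subset_adjoin (by simp)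
      have hx : x ∈ Algebra.adjoin R {v, x, y} := Algebra.subset_adjoin (by simp)
      have hy : y ∈ Algebra.adjoin R {v, x, y} := Algebra.subset_adjoin (by simp)
      exact mul_mem (pow_mem hv _) (mul_mem (pow_mem hx _) (pow_mem hy _))
    | zero => exact zero_mem _
    | add a b _ _ ha hb => exact add_mem ha hb
    | smul r a _ ha => exact Subalgebra.smul_mem _ ha r

theorem nd_lead (h : Pres f v x y) {n : ℕ} {a : R[X]}
    (ha : aeval v a * bs f.natDegree x y n ∈ Low R f.natDegree v x y n) : a = 0 := by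
  classical
  obtain ⟨p, hp⟩ := nd_low.1 ha
  have h1 := nd_free h (n + 1) (fun i => if i = n then -a else p i) (by
    rw [Finset.sum_range_succ, if_pos rfl, map_neg]
    have h2 : ∑ i ∈ Finset.range n, aeval v (if i = n then -a else p i) *
        Bas.e f.natDegree x y i = ∑ i ∈ Finset.range n, aeval v (p i) * Bas.e f.natDegree x y i := by
      refine Finset.sum_congr rfl fun i hi => ?_
      rw [if_neg (Finset.mem_range.1 hi).ne]
    rw [h2, ← hp]
    change aeval v a * bs f.natDegree x y n + -aeval v a * bs f.natDegree x y n = 0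
    ring) n (Nat.lt_succ_self n)
  simpa using h1

/-- `Low n` is saturated with respect to `u` in `C` -/
theorem nd_sat [IsDomain S] (h : Pres f v x y) (hu : (u : S) ≠ 0) {n t : ℕ} (m : ℕ) : ∀ {z : S},
    z ∈ Low R f.natDegree v x y (n + m) → (u : S) ^ t * z ∈ Low R f.natDegree v x y n →
      z ∈ Low R f.natDegree v x y n := by
  induction m with
  | zero => exact fun hz _ => hz
  | succ m ih =>
    intro z hz ht
    obtain ⟨a, ha⟩ := nd_succ (n := n + m) hz
    have h1 : aeval v (C u ^ t * a) * bs f.natDegree x y (n + m) ∈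
        Low R f.natDegree v x y (n + m) := by
      have h2 := Submodule.sub_mem _ (nnLow_mono (Nat.le_add_right n m) ht) (nnLow_u (u := u) ha t)
      have h3 : (u : S) ^ t * z - (u : S) ^ t * (z - aeval v a * bs f.natDegree x y (n + m)) =
          aeval v (C u ^ t * a) * bs f.natDegree x y (n + m) := by
        rw [map_mul, map_pow, aeval_C]
        change _ = (u : S) ^ t * aeval v a * _
        ring
      rwa [h3] at h2
    have h4 : a = 0 := by
      have h5 := nd_lead h h1
      have hu0 : (u : R) ≠ 0 := fun h0 => hu (by rw [h0]; rfl)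
      have : IsDomain R := inferInstance
      exact (mul_eq_zero.1 h5).resolve_left (pow_ne_zero _ (by simpa using hu0))
    rw [h4, map_zero, zero_mul, sub_zero] at ha
    exact ih ha ht

theorem nd_intg [IsDomain S] (hE : Env R u f v x y) {n M : ℕ}
    (hM : IsEps R u f.natDegree v x y n M) {z : S} (hz : Fl R u f.natDegree v x y (n + 1) z) :
    (u : S) ^ M * z ∈ Low R f.natDegree v x y (n + 1) := by
  refine intg_of_ind hE ?_ hM hz
  intro c hc
  ext1 i
  rw [Finsupp.zero_apply]
  by_contra hi
  have hi' : i ∈ c.support := Finsupp.mem_support_iff.2 hi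
  obtain ⟨n, hn⟩ : ∃ n, ∀ j ∈ c.support, j < n :=
    ⟨c.support.sup id + 1, fun j hj => Nat.lt_succ_of_le (Finset.le_sup (f := id) hj)⟩
  refine hi (nd_free hE.pres n c ?_ i (hn i hi'))
  have h1 : cmb f.natDegree v x y c = ∑ i ∈ c.support, aeval v (c i) * bs f.natDegree x y i := rfl
  rw [← hc, h1]
  symm
  refine Finset.sum_subset (fun j hj => Finset.mem_range.2 (hn j hj)) fun j _ hj => ?_
  rw [Finsupp.notMem_support_iff.1 hj, map_zero, zero_mul]

/-- `s Γ` of degree `< N` only for `s = 0` -/
theorem nd_flmul [IsDomain S] (h : Pres f v x y) (hu : (u : S) ≠ 0) {N : ℕ} (hN : f.natDegree ∣ N)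
    {Γ : S} (hΓ : Γ - bs f.natDegree x y N ∈ Low R f.natDegree v x y N) (n : ℕ) : ∀ {s : S},
    s ∈ Low R f.natDegree v x y n → Fl R u f.natDegree v x y N (s * Γ) → s = 0 := by
  have hβ : 0 < f.natDegree := by have := h.deg; omega
  induction n with
  | zero =>
    intro s hs _
    obtain ⟨p, hp⟩ := nd_low.1 hs
    rw [hp]
    simp
  | succ n ih =>
    intro s hs hfl
    obtain ⟨a, ha⟩ := nd_succ hs
    obtain ⟨m, hm⟩ := hfl
    have e1 : aeval v a * bs f.natDegree x y n * (Γ - bs f.natDegree x y N) ∈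
        Low R f.natDegree v x y (N + n) := by
      have := nd_mul h (nnLow_aeval (nnLow_bs (Nat.lt_succ_self n)) a) hΓ
      rwa [add_comm n N] at this
    have hΓ1 : Γ ∈ Low R f.natDegree v x y (N + 1) := by
      have := add_mem (nnLow_mono (Nat.le_succ N) hΓ)
        (nnLow_bs (R := R) (β := f.natDegree) (v := v) (x := x) (y := y) (Nat.lt_succ_self N))
      rwa [sub_add_cancel] at this
    have e2 : (s - aeval v a * bs f.natDegree x y n) * Γ ∈ Low R f.natDegree v x y (N + n) := by
      have := nd_mul h hΓ1 ha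
      rwa [mul_comm Γ] at this
    have e3 : (u : S) ^ m * (s * Γ) ∈ Low R f.natDegree v x y (N + n) :=
      nnLow_mono (Nat.le_add_right N n) hm
    have e4 : aeval v (C u ^ m * a) * bs f.natDegree x y (N + n) ∈
        Low R f.natDegree v x y (N + n) := by
      have h3 := Submodule.sub_mem _ e3 (nnLow_u (u := u) (add_mem e1 e2) m)
      have h4 : (u : S) ^ m * (s * Γ) - (u : S) ^ m * (aeval v a * bs f.natDegree x y n *
          (Γ - bs f.natDegree x y N) + (s - aeval v a * bs f.natDegree x y n) * Γ) =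
          aeval v (C u ^ m * a) * bs f.natDegree x y (N + n) := by
        rw [map_mul, map_pow, aeval_C, ← nd_bs hβ hN n]
        change _ = (u : S) ^ m * aeval v a * _
        ring
      rwa [h4] at h3
    have h4 : a = 0 := by
      have h5 := nd_lead h e4
      have hu0 : (u : R) ≠ 0 := fun h0 => hu (by rw [h0]; rfl)
      have : IsDomain R := inferInstance
      exact (mul_eq_zero.1 h5).resolve_left (pow_ne_zero _ (by simpa using hu0))
    rw [h4, map_zero, zero_mul, sub_zero] at ha
    exact ih ha ⟨m, hm⟩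

/-- **the hypotheses of the division** -/
theorem divHyp_of [IsDomain S] (hE : Env R u f v x y) {N W W0 e : ℕ} {G : S}
    (hG : GD R u f.natDegree v x y N W W0 e G) : DivHyp R u f.natDegree v x y N W W0 G := by
  have hu : (u : S) ≠ 0 := hE.fr.prime.ne_zero
  have hβ : 0 < f.natDegree := by have := hE.pres.deg; omega
  have hgam : (u : S) ^ W * G - bs f.natDegree x y N ∈ Low R f.natDegree v x y N := by
    obtain ⟨t, ht⟩ := hG.lead
    rw [map_one, one_mul] at ht
    have h1 : Fl R u f.natDegree v x y (N + 1) G := by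
      refine ⟨W + t, ?_⟩
      have := add_mem (nnLow_mono (Nat.le_succ N) ht)
        (nnLow_u (u := u) (nnLow_bs (R := R) (β := f.natDegree) (v := v) (x := x) (y := y)
          (Nat.lt_succ_self N)) t)
      rwa [sub_add_cancel] at this
    have h2 := nd_intg hE hG.eps h1
    have h3 : (u : S) ^ W * G - bs f.natDegree x y N ∈ Low R f.natDegree v x y (N + 1) :=
      Submodule.sub_mem _ h2 (nnLow_bs (Nat.lt_succ_self N))
    refine nd_sat (u := u) (t := t) hE.pres hu 1 h3 ?_
    rw [mul_sub, ← mul_assoc, ← pow_add, add_comm t W]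
    exact ht
  refine ⟨fun n z hz => nd_succ hz, fun n z hz => ?_, nd_bs hβ hG.dvd, nd_Cx hE.pres,
    fun a ha => ?_, hgam, fun z hz => ?_, hG.div⟩
  · have := nd_mul hE.pres (nnLow_bs (Nat.lt_succ_self n)) hz
    rwa [add_comm n N] at this
  · obtain ⟨m, hm⟩ := hE.kap a
    obtain ⟨n, hn⟩ := (nd_Cx hE.pres _).1 hm
    have h1 : (u : S) ^ m * a = 0 := by
      refine nd_flmul hE.pres hu hG.dvd hgam n hn ?_
      have h2 : (u : S) ^ m * a * ((u : S) ^ W * G) = (u : S) ^ (m + W) * (a * G) := by
        rw [pow_add]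
        ring
      rw [h2]
      exact nnFl_u ha _
    exact (mul_eq_zero.1 h1).resolve_left (pow_ne_zero _ hu)
  · have hN : N - 1 + 1 = N := Nat.sub_add_cancel hG.pos
    have := nd_intg hE hG.eps0 (z := z) (by rwa [hN])
    rwa [hN] at this

/-- **`FactDat` from `Env`, `GD` and `Red`** -/
theorem factDat_env [IsDomain S] (hE : Env R u f v x y) {N W W0 e : ℕ} {G : S}
    (hG : GD R u f.natDegree v x y N W W0 e G) (hW : 0 < W)
    {R0 T : Type} [CommRing R0] [Algebra k R0] [CommRing T] [Algebra k T]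
    {ρ : Cx R v x y →ₐ[k] R0} {σ : S →ₐ[k] T} {π : R0 →ₐ[k] T} (hR : Red u (Cx R v x y) ρ σ π)
    (ι : Cx R v x y →+* S) (hι : ∀ z, ι z = (z : S)) (π' : Cx R v x y →+* R0)
    (hπ : ∀ z, π' z = ρ z) :
    FactDat ι π' ⟨(u : S), u_mem_Cx R u v x y⟩ ⟨(u : S) ^ W * G, (divHyp_of hE hG).gam_mem⟩
      {t | Fl R u f.natDegree v x y N (t : S)} W W0 :=
  factDat_of (divHyp_of hE hG) hE.fr.prime.ne_zero hW ρ hR.rs hR.rk ι hι π' hπ

end

end Pool.Agent.LNDQ
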