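import Pool.Agent.LNDQ.Defs

/-!
Multiplicity (doc H/821812_Q1, 2.7): `q * gam ∉ P ^ W` for `q ∉ P`, `P` the kernel of `π`.
-/

set_option autoImplicit false

open Polynomial

namespace Pool.Agent.LNDQ.NNm

/-- evaluation of polynomials in two variables -/
noncomputable def ev (R : Type) {A : Type} [CommRing R] [CommRing A] [Algebra R A] (a b : A) :
    R[X][X] →+* A :=
  eval₂RingHom (aeval a : R[X] →ₐ[R] A).toRingHom b

section ev

variable {R A : Type} [CommRing R] [CommRing A] [Algebra R A] (a b : A)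

@[simp] lemma ev_C (p : R[X]) : ev R a b (C p) = aeval a p := by
  simp [ev]

@[simp] lemma ev_X : ev R a b X = b := by
  simp [ev]

lemma ev_CC (r : R) : ev R a b (C (C r)) = algebraMap R A r := by simp

/-- algebraic independence -/
lemma ev_inj (h : AlgebraicIndependent R ![a, b]) (p : R[X][X]) (hp : ev R a b p = 0) : p = 0 := by
  let g : R[X][X] →+* MvPolynomial (Fin 2) R :=
    eval₂RingHom (aeval (MvPolynomial.X 0) : R[X] →ₐ[R] MvPolynomial (Fin 2) R).toRingHom
      (MvPolynomial.X 1)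
  let g' : MvPolynomial (Fin 2) R →ₐ[R] R[X][X] := MvPolynomial.aeval ![C X, X]
  have h1 : ∀ p : R[X][X], g' (g p) = p := by
    intro p
    have : (g'.toRingHom.comp g) = RingHom.id _ := by
      apply Polynomial.ringHom_ext
      · intro q
        have h2 : ((g'.toRingHom.comp g).comp (C : R[X] →+* R[X][X])) = (C : R[X] →+* R[X][X]) := by
          apply Polynomial.ringHom_ext
          · intro r
            simp [g, g']
          · simp [g, g']
        exact congrArg (fun f : R[X] →+* R[X][X] => f q) h2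
      · simp [g, g']
    exact congrArg (fun f : R[X][X] →+* R[X][X] => f p) this
  have h2 : ∀ p : R[X][X], MvPolynomial.aeval ![a, b] (g p) = ev R a b p := by
    intro p
    have : ((MvPolynomial.aeval ![a, b] : MvPolynomial (Fin 2) R →ₐ[R] A).toRingHom.comp g) =
        ev R a b := by
      apply Polynomial.ringHom_ext
      · intro q
        have h2 : (((MvPolynomial.aeval ![a, b] : MvPolynomial (Fin 2) R →ₐ[R] A).toRingHom.comp
            g).comp (C : R[X] →+* R[X][X])) = ((ev R a b).comp (C : R[X] →+* R[X][X])) := by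
          apply Polynomial.ringHom_ext
          · intro r
            simp [g]
          · simp [g]
        exact congrArg (fun f : R[X] →+* A => f q) h2
      · simp [g]
    exact congrArg (fun f : R[X][X] →+* A => f p) this
  have h3 : g p = 0 := by
    apply (injective_iff_map_eq_zero _).1 h
    rw [h2, hp]
  rw [← h1 p, h3, map_zero]

end ev

/-! ### division -/

section core

variable {k : Type} [Field k]

/-- pseudo-division by `φ` -/
lemma pdiv {A : Type} [CommRing A] [IsDomain A] {φ : A[X]} (hφ : φ ≠ 0) (z : A[X]) :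
    ∃ (c : A) (s r : A[X]), c ≠ 0 ∧ C c * z = s * φ + r ∧ r.degree < φ.degree := by
  induction hn : z.natDegree using Nat.strong_induction_on generalizing z with
  | _ n ih =>
    by_cases hlt : z.degree < φ.degree
    · exact ⟨1, 0, z, one_ne_zero, by simp, hlt⟩
    · rw [not_lt] at hlt
      have hz0 : z ≠ 0 := by
        rintro rfl
        rw [degree_zero, le_bot_iff, degree_eq_bot] at hlt
        exact hφ hlt
      have hle : φ.natDegree ≤ z.natDegree := natDegree_le_natDegree hlt
      set z' : A[X] := C φ.leadingCoeff * z -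
        C z.leadingCoeff * X ^ (z.natDegree - φ.natDegree) * φ with hz'
      have hlc : φ.leadingCoeff ≠ 0 := leadingCoeff_ne_zero.2 hφ
      have hlz : z.leadingCoeff ≠ 0 := leadingCoeff_ne_zero.2 hz0
      have hdeg : z'.degree < z.degree := by
        have h1 : (C φ.leadingCoeff * z).degree = z.degree := by
          rw [degree_mul, degree_C hlc, zero_add]
        rw [hz', ← h1]
        refine degree_sub_lt_left ?_ ?_ ?_
        · rw [h1, degree_mul, degree_mul, degree_C hlz, zero_add, degree_X_pow,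
            degree_eq_natDegree hφ, degree_eq_natDegree hz0]
          norm_cast
          omega
        · exact mul_ne_zero (C_ne_zero.2 hlc) hz0
        · rw [leadingCoeff_mul, leadingCoeff_C, leadingCoeff_mul, leadingCoeff_mul, leadingCoeff_C,
            leadingCoeff_X_pow, mul_one, mul_comm]
      by_cases hz'0 : z' = 0
      · refine ⟨φ.leadingCoeff, C z.leadingCoeff * X ^ (z.natDegree - φ.natDegree), 0, hlc, ?_, ?_⟩
        · rw [add_zero]
          exact sub_eq_zero.1 hz'0
        · rw [degree_zero]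
          exact bot_lt_iff_ne_bot.2 (fun h => hφ (degree_eq_bot.1 h))
      · have h2 : z'.natDegree < n := by
          rw [← hn]
          exact natDegree_lt_natDegree hz'0 hdeg
        obtain ⟨c, s, r, hc, h3, h4⟩ := ih _ h2 z' rfl
        refine ⟨c * φ.leadingCoeff, s + C c * (C z.leadingCoeff * X ^ (z.natDegree - φ.natDegree)),
          r, mul_ne_zero hc hlc, ?_, h4⟩
        rw [C_mul]
        linear_combination h3 + C c * hz'

/-- the core: `g` is divisible by the `W`-th power of an element `φ` of least degree of the prime ideal,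
up to constants -/
lemma core {A : Type} [CommRing A] [IsDomain A] (P : Ideal A[X]) (hP : P.IsPrime)
    (hC : ∀ c : A, C c ∈ P → c = 0) {W : ℕ} (hW : 0 < W) {q g : A[X]} (hq : q ∉ P) (hg : g ≠ 0)
    (h : q * g ∈ P ^ W) : ∃ φ ∈ P, φ ≠ 0 ∧ 0 < φ.natDegree ∧ W * φ.natDegree ≤ g.natDegree := by
  classical
  have hq0 : q ≠ 0 := by
    rintro rfl
    exact hq P.zero_mem
  have hne : ∃ n, ∃ φ ∈ P, φ ≠ 0 ∧ φ.natDegree = n :=
    ⟨_, q * g, Ideal.pow_le_self hW.ne' h, mul_ne_zero hq0 hg, rfl⟩
  obtain ⟨φ, hφP, hφ0, hφn⟩ := Nat.find_spec hne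
  have hmin : ∀ r ∈ P, r.degree < φ.degree → r = 0 := by
    intro r hr hlt
    by_contra hr0
    have h1 : r.natDegree < φ.natDegree := natDegree_lt_natDegree hr0 hlt
    rw [hφn] at h1
    exact Nat.find_min hne h1 ⟨r, hr, hr0, rfl⟩
  have hdvd : ∀ r ∈ P, ∃ (c : A) (s : A[X]), c ≠ 0 ∧ C c * r = s * φ := by
    intro r hr
    obtain ⟨c, s, t, hc, h1, h2⟩ := pdiv hφ0 r
    have h3 : t = 0 := by
      refine hmin t ?_ h2
      have : t = C c * r - s * φ := by rw [h1]; ring
      rw [this]
      exact P.sub_mem (P.mul_mem_left _ hr) (P.mul_mem_left _ hφP)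
    exact ⟨c, s, hc, by rw [h1, h3, add_zero]⟩
  -- powers
  have hpow : ∀ (n : ℕ) (r : A[X]), r ∈ P ^ n → ∃ (c : A) (s : A[X]), c ≠ 0 ∧
      C c * r = s * φ ^ n := by
    intro n
    induction n with
    | zero => exact fun r _ => ⟨1, r, one_ne_zero, by simp⟩
    | succ n ih =>
      intro r hr
      rw [pow_succ] at hr
      refine Submodule.mul_induction_on hr ?_ ?_
      · intro a ha b hb
        obtain ⟨c1, s1, hc1, h1⟩ := ih a ha
        obtain ⟨c2, s2, hc2, h2⟩ := hdvd b hb
        refine ⟨c1 * c2, s1 * s2, mul_ne_zero hc1 hc2, ?_⟩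
        rw [C_mul, pow_succ]
        calc C c1 * C c2 * (a * b) = (C c1 * a) * (C c2 * b) := by ring
          _ = (s1 * φ ^ n) * (s2 * φ) := by rw [h1, h2]
          _ = s1 * s2 * (φ ^ n * φ) := by ring
      · rintro a b ⟨c1, s1, hc1, h1⟩ ⟨c2, s2, hc2, h2⟩
        refine ⟨c1 * c2, C c2 * s1 + C c1 * s2, mul_ne_zero hc1 hc2, ?_⟩
        rw [C_mul]
        linear_combination C c2 * h1 + C c1 * h2
  have hstep : ∀ i, i ≤ W → ∃ (c : A) (s : A[X]), c ≠ 0 ∧ C c * g = s * φ ^ i := by
    obtain ⟨c, s, hc, h1⟩ := hpow W _ h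
    intro i
    induction i with
    | zero => exact fun _ => ⟨1, g, one_ne_zero, by simp⟩
    | succ i ih =>
      intro hi
      obtain ⟨c1, s1, hc1, h2⟩ := ih (by omega)
      have h3 : C c * s1 * q = C c1 * s * φ ^ (W - i) := by
        have h4 : φ ^ i ≠ 0 := pow_ne_zero _ hφ0
        apply mul_right_cancel₀ h4
        have h5 : φ ^ (W - i) * φ ^ i = φ ^ W := by rw [← pow_add]; congr 1; omega
        calc C c * s1 * q * φ ^ i = C c * q * (s1 * φ ^ i) := by ring
          _ = C c1 * (C c * (q * g)) := by rw [← h2]; ring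
          _ = C c1 * s * (φ ^ (W - i) * φ ^ i) := by rw [h1, h5]; ring
          _ = C c1 * s * φ ^ (W - i) * φ ^ i := by ring
      have h4 : C c * s1 * q ∈ P := by
        rw [h3]
        exact P.mul_mem_left _ (P.pow_mem_of_mem hφP _ (by omega))
      have h5 : s1 ∈ P := by
        rcases hP.mem_or_mem h4 with h6 | h6
        · rcases hP.mem_or_mem h6 with h7 | h7
          · exact absurd (hC c h7) hc
          · exact h7
        · exact absurd h6 hq
      obtain ⟨c2, s2, hc2, h6⟩ := hdvd s1 h5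
      refine ⟨c2 * c1, s2, mul_ne_zero hc2 hc1, ?_⟩
      rw [C_mul, mul_assoc, h2, ← mul_assoc, h6, pow_succ]
      ring
  obtain ⟨c, s, hc, h1⟩ := hstep W le_rfl
  have hs0 : s ≠ 0 := by
    rintro rfl
    rw [zero_mul] at h1
    exact mul_ne_zero (C_ne_zero.2 hc) hg h1
  refine ⟨φ, hφP, hφ0, ?_, ?_⟩
  · rw [Nat.pos_iff_ne_zero]
    intro h2
    rw [natDegree_eq_zero] at h2
    obtain ⟨a, rfl⟩ := h2
    exact hφ0 (by rw [hC a hφP, C_0])
  · have h2 := congrArg natDegree h1
    rw [natDegree_C_mul hc, natDegree_mul hs0 (pow_ne_zero _ hφ0), natDegree_pow] at h2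
    omega

end core

/-! ### elements of `R[v,x,y]` as polynomials in `v`, `x` with a power of `v` in the denominator -/

section reps

variable {R S : Type} [CommRing R] [CommRing S] [Algebra R S] {f : R[X]} {v x y : S}

lemma ev_map_C (g : R[X]) : ev R v x (g.map C) = aeval x g := by
  induction g using Polynomial.induction_on' with
  | add p q hp hq => rw [Polynomial.map_add, map_add, hp, hq, map_add]
  | monomial n r =>
    rw [map_monomial, ← C_mul_X_pow_eq_monomial, map_mul, map_pow, ev_CC, ev_X, aeval_monomial]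

lemma rep_adjoin (hrel : v * y = aeval x f) {z : S} (hz : z ∈ Algebra.adjoin R {v, x, y}) :
    ∃ (m : ℕ) (p : R[X][X]), v ^ m * z = ev R v x p := by
  induction hz using Algebra.adjoin_induction with
  | mem z hz =>
    simp only [Set.mem_insert_iff, Set.mem_singleton_iff] at hz
    rcases hz with rfl | rfl | rfl
    · exact ⟨0, C X, by simp⟩
    · exact ⟨0, X, by simp⟩
    · exact ⟨1, f.map C, by rw [ev_map_C, pow_one, hrel]⟩
  | algebraMap r => exact ⟨0, C (C r), by simp⟩
  | add a b _ _ ha hb =>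
    obtain ⟨m, p, h1⟩ := ha
    obtain ⟨n, q, h2⟩ := hb
    refine ⟨m + n, C (X ^ n) * p + C (X ^ m) * q, ?_⟩
    rw [map_add, map_mul, map_mul, ← h1, ← h2, ev_C, ev_C, map_pow, map_pow, aeval_X, pow_add]
    ring
  | mul a b _ _ ha hb =>
    obtain ⟨m, p, h1⟩ := ha
    obtain ⟨n, q, h2⟩ := hb
    refine ⟨m + n, p * q, ?_⟩
    rw [map_mul, ← h1, ← h2, pow_add]
    ring

/-- the polynomial of `v ^ (n / β) * bs n` -/
noncomputable def gpol (f : R[X]) (n : ℕ) : R[X][X] :=
  X ^ (n % f.natDegree) * (f.map C) ^ (n / f.natDegree)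

lemma gpol_monic (hf : f.Monic) (n : ℕ) : (gpol f n).Monic :=
  (monic_X_pow _).mul ((hf.map C).pow _)

lemma gpol_natDegree [Nontrivial R] (hf : f.Monic) (n : ℕ) : (gpol f n).natDegree = n := by
  rw [gpol, (monic_X_pow _).natDegree_mul ((hf.map C).pow _), natDegree_X_pow,
    (hf.map C).natDegree_pow, hf.natDegree_map]
  rw [mul_comm]
  exact Nat.mod_add_div _ _

lemma ev_gpol (hrel : v * y = aeval x f) (n : ℕ) :
    ev R v x (gpol f n) = v ^ (n / f.natDegree) * bs f.natDegree x y n := by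
  rw [gpol, map_mul, map_pow, map_pow, ev_X, ev_map_C, ← hrel, bs]
  ring

lemma low_rep [Nontrivial R] (hf : f.Monic) (hrel : v * y = aeval x f) {n : ℕ} {z : S}
    (hz : z ∈ Low R f.natDegree v x y n) :
    ∃ (m : ℕ) (p : R[X][X]), v ^ m * z = ev R v x p ∧ p.degree < n := by
  induction hz using Submodule.span_induction with
  | mem z hz =>
    obtain ⟨i, j, hj, rfl⟩ := hz
    refine ⟨j / f.natDegree, C (X ^ i) * gpol f j, ?_, ?_⟩
    · rw [map_mul, ev_gpol hrel, ev_C, map_pow, aeval_X]
      ring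
    · refine lt_of_le_of_lt (degree_mul_le _ _) ?_
      refine lt_of_le_of_lt (add_le_add degree_C_le (degree_le_natDegree)) ?_
      rw [gpol_natDegree hf, zero_add]
      exact_mod_cast hj
  | zero => exact ⟨0, 0, by simp, by rw [degree_zero]; exact WithBot.bot_lt_coe _⟩
  | add a b _ _ ha hb =>
    obtain ⟨m, p, h1, h1'⟩ := ha
    obtain ⟨m', q, h2, h2'⟩ := hb
    refine ⟨m + m', C (X ^ m') * p + C (X ^ m) * q, ?_, ?_⟩
    · rw [map_add, map_mul, map_mul, ← h1, ← h2, ev_C, ev_C, map_pow, map_pow, aeval_X, pow_add]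
      ring
    · refine lt_of_le_of_lt (degree_add_le _ _) (max_lt ?_ ?_)
      · refine lt_of_le_of_lt (degree_mul_le _ _) ?_
        refine lt_of_le_of_lt (add_le_add_left degree_C_le _) ?_
        rwa [zero_add]
      · refine lt_of_le_of_lt (degree_mul_le _ _) ?_
        refine lt_of_le_of_lt (add_le_add_left degree_C_le _) ?_
        rwa [zero_add]
  | smul r a _ ha =>
    obtain ⟨m, p, h1, h1'⟩ := ha
    refine ⟨m, C (C r) * p, ?_, ?_⟩
    · rw [map_mul, ← h1, ev_CC, Algebra.smul_def]
      ring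
    · refine lt_of_le_of_lt (degree_mul_le _ _) ?_
      refine lt_of_le_of_lt (add_le_add_left degree_C_le _) ?_
      rwa [zero_add]

lemma aeval_bs_mem {β : ℕ} (a : R[X]) {j n : ℕ} (hj : j < n) :
    aeval v a * bs β x y j ∈ Low R β v x y n := by
  rw [aeval_eq_sum_range, Finset.sum_mul]
  refine Submodule.sum_mem _ fun i _ => ?_
  rw [smul_mul_assoc]
  exact Submodule.smul_mem _ _ (Submodule.subset_span ⟨i, j, hj, rfl⟩)

lemma low_mono {β : ℕ} {m n : ℕ} (h : m ≤ n) : Low R β v x y m ≤ Low R β v x y n := by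
  refine Submodule.span_mono ?_
  rintro z ⟨i, j, hj, rfl⟩
  exact ⟨i, j, by omega, rfl⟩

lemma ev_low [Nontrivial R] (hf : f.Monic) (hrel : v * y = aeval x f) (n : ℕ) :
    (∀ p : R[X][X], p.degree < n → ev R v x p ∈ Low R f.natDegree v x y n) ∧
    ∀ p : R[X][X], p.degree ≤ n → ev R v x p -
      aeval v (p.coeff n * X ^ (n / f.natDegree)) * bs f.natDegree x y n ∈
        Low R f.natDegree v x y n := by
  have step : ∀ n : ℕ, (∀ p : R[X][X], p.degree < n → ev R v x p ∈ Low R f.natDegree v x y n) →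
      ∀ p : R[X][X], p.degree ≤ n → ev R v x p -
      aeval v (p.coeff n * X ^ (n / f.natDegree)) * bs f.natDegree x y n ∈
        Low R f.natDegree v x y n := by
    intro n ih p hp
    have h1 : (p - C (p.coeff n) * gpol f n).degree < n := by
      rw [degree_lt_iff_coeff_zero]
      intro m hm
      rw [coeff_sub, coeff_C_mul]
      rcases hm.lt_or_eq with hm | rfl
      · have h3 : (gpol f n).coeff m = 0 :=
          coeff_eq_zero_of_natDegree_lt (by rw [gpol_natDegree hf]; exact hm)
        have h4 : p.coeff m = 0 :=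
          coeff_eq_zero_of_degree_lt (lt_of_le_of_lt hp (by exact_mod_cast hm))
        rw [h3, h4, mul_zero, sub_zero]
      · have h2 : (gpol f n).coeff n = 1 := by
          have := (gpol_monic hf n).coeff_natDegree
          rwa [gpol_natDegree hf] at this
        rw [h2, mul_one, sub_self]
    have h2 := ih _ h1
    rw [map_sub, map_mul, ev_C, ev_gpol hrel] at h2
    rw [map_mul, map_pow, aeval_X, mul_assoc]
    exact h2
  have h : ∀ p : R[X][X], p.degree < n → ev R v x p ∈ Low R f.natDegree v x y n := by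
    induction n with
    | zero =>
      intro p hp
      have : p = 0 := by
        rw [← degree_eq_bot]
        rcases eq_or_ne p.degree ⊥ with h | h
        · exact h
        · exact absurd hp (by
            rw [not_lt]
            exact_mod_cast zero_le_degree_iff.2 (fun h' => h (degree_eq_bot.2 h')))
      rw [this, map_zero]
      exact Submodule.zero_mem _
    | succ n ih =>
      intro p hp
      have hp' : p.degree ≤ n := by
        rw [degree_le_iff_coeff_zero]
        intro m hm
        have hm' : n < m := by exact_mod_cast hm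
        exact coeff_eq_zero_of_degree_lt (lt_of_lt_of_le hp (by exact_mod_cast hm'))
      have h1 := step n ih p hp'
      have h2 := low_mono (R := R) (β := f.natDegree) (v := v) (x := x) (y := y)
        (Nat.le_succ n) h1
      have h3 := Submodule.add_mem _ h2 (aeval_bs_mem (R := R) (β := f.natDegree) (v := v)
        (x := x) (y := y) (p.coeff n * X ^ (n / f.natDegree)) (Nat.lt_succ_self n))
      rwa [sub_add_cancel] at h3
  exact ⟨h, step n h⟩

end reps

/-! ### the main lemma -/

section main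

variable {k S R0 T : Type} [Field k] [CommRing S] [IsDomain S] [Algebra k S] [CommRing R0]
  [IsDomain R0] [Algebra k R0] [CommRing T] [Algebra k T] {R : Subalgebra k S} {u : R}
  {f : R[X]} {v x y : S}

lemma cx_R (r : R) : (r : S) ∈ Cx R v x y :=
  (Algebra.adjoin R {v, x, y}).algebraMap_mem r

lemma cx_v : v ∈ Cx R v x y := Algebra.subset_adjoin (by simp)

lemma cx_x : x ∈ Cx R v x y := Algebra.subset_adjoin (by simp)

lemma cx_aeval (a : R[X]) : aeval v a ∈ Cx R v x y := by
  have h1 : aeval v a ∈ Algebra.adjoin R {v} := aeval_mem_adjoin_singleton R v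
  exact Algebra.adjoin_mono (by simp) h1

lemma cx_ev (p : R[X][X]) : ev R v x p ∈ Cx R v x y := by
  induction p using Polynomial.induction_on' with
  | add p q hp hq => rw [map_add]; exact (Cx R v x y).add_mem hp hq
  | monomial n a =>
    rw [← C_mul_X_pow_eq_monomial, map_mul, map_pow, ev_C, ev_X]
    exact (Cx R v x y).mul_mem (cx_aeval a) ((Cx R v x y).pow_mem cx_x n)

/-- the residue map `R → k` and the reduction of polynomials -/
lemma exists_tau (hfr : Fr R u) {C' : Subalgebra k S} (hRC : ∀ r : R, (r : S) ∈ C')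
    {ρ : C' →ₐ[k] R0} (hu : ρ ⟨u, hRC u⟩ = 0) :
    ∃ τ : R →+* k, (∀ r : R, ρ ⟨r, hRC r⟩ = algebraMap k R0 (τ r)) ∧
      ∀ c : k, τ (algebraMap k R c) = c := by
  let ι : R →+* C' := (R.val : R →+* S).codRestrict C' hRC
  let g : R →+* R0 := (ρ : C' →+* R0).comp ι
  have hg : ∀ r, g r = ρ ⟨r, hRC r⟩ := fun r => rfl
  have hinj : Function.Injective (algebraMap k R0) := (algebraMap k R0).injective
  have hgc : ∀ c : k, g (algebraMap k R c) = algebraMap k R0 c := by
    intro c
    exact ρ.commutes c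
  have hr : ∀ r : R, ∃ c : k, algebraMap k R0 c = g r := by
    intro r
    obtain ⟨c, r', h⟩ := hfr.res r
    refine ⟨c, ?_⟩
    rw [h, map_add, map_mul, hgc, hg u, hu, zero_mul, add_zero]
  choose t ht using hr
  refine ⟨{ toFun := t
            map_one' := hinj (by rw [ht, map_one, map_one])
            map_mul' := fun a b => hinj (by rw [ht, map_mul, map_mul, ht, ht])
            map_zero' := hinj (by rw [ht, map_zero, map_zero])
            map_add' := fun a b => hinj (by rw [ht, map_add, map_add, ht, ht]) },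
    fun r => (ht r).symm, fun c => hinj (by
      change algebraMap k R0 (t _) = _
      rw [ht, hgc])⟩

lemma rho_ev {ρ : Cx R v x y →ₐ[k] R0} {τ : R →+* k}
    (hτ : ∀ r : R, ρ ⟨r, cx_R r⟩ = algebraMap k R0 (τ r)) (p : R[X][X]) :
    ρ ⟨ev R v x p, cx_ev p⟩ =
      ev k (ρ ⟨v, cx_v⟩) (ρ ⟨x, cx_x⟩) (p.map (mapRingHom τ)) := by
  let e : R[X][X] →+* Cx R v x y := (ev R v x).codRestrict (Cx R v x y) cx_ev
  have h1 : (ρ : Cx R v x y →+* R0).comp e =
      (ev k (ρ ⟨v, cx_v⟩) (ρ ⟨x, cx_x⟩)).comp (mapRingHom (mapRingHom τ)) := by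
    apply Polynomial.ringHom_ext
    · intro q
      have h2 : ((ρ : Cx R v x y →+* R0).comp e).comp (C : R[X] →+* R[X][X]) =
          ((ev k (ρ ⟨v, cx_v⟩) (ρ ⟨x, cx_x⟩)).comp (mapRingHom (mapRingHom τ))).comp
            (C : R[X] →+* R[X][X]) := by
        apply Polynomial.ringHom_ext
        · intro r
          have h3 : e (C (C r)) = ⟨r, cx_R r⟩ := Subtype.ext (by
            change ev R v x (C (C r)) = _
            rw [ev_CC]; rfl)
          simp only [RingHom.coe_comp, Function.comp_apply, coe_mapRingHom, map_C]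
          rw [ev_CC, h3]
          exact hτ r
        · have h3 : e (C X) = ⟨v, cx_v⟩ := Subtype.ext (by
            change ev R v x (C X) = _
            rw [ev_C, aeval_X])
          simp only [RingHom.coe_comp, Function.comp_apply, coe_mapRingHom, map_C, map_X]
          rw [ev_C, aeval_X, h3]
          rfl
      exact congrArg (fun F : R[X] →+* R0 => F q) h2
    · have h3 : e X = ⟨x, cx_x⟩ := Subtype.ext (by
        change ev R v x X = _
        rw [ev_X])
      simp only [RingHom.coe_comp, Function.comp_apply, coe_mapRingHom, map_X]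
      rw [ev_X, h3]
      rfl
  exact congrArg (fun F : R[X][X] →+* R0 => F p) h1

theorem nn_mult (hE : Env R u f v x y) {ρ : Cx R v x y →ₐ[k] R0} {σ : S →ₐ[k] T}
    {π : R0 →ₐ[k] T} (hr : Red u (Cx R v x y) ρ σ π) {N W W0 e : ℕ} {G : S}
    (hG : GD R u f.natDegree v x y N W W0 e G) (he : 2 ≤ e) (Gam : Cx R v x y)
    (hGam : (Gam : S) = (u : S) ^ W * G) (hgam0 : ρ Gam ≠ 0)
    (hind : AlgebraicIndependent k ![ρ ⟨v, cx_v⟩, ρ ⟨x, cx_x⟩]) (q : R0) (hq : π q ≠ 0) :
    q * ρ Gam ∉ (RingHom.ker (π : R0 →+* T)) ^ W := by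
  classical
  intro hmem
  have hf : f.Monic := hE.pres.monic
  have hrel : v * y = aeval x f := hE.pres.rel
  have hindS : ∀ p : R[X][X], ev R v x p = 0 → p = 0 := ev_inj v x hE.pres.ind
  have hind0 : ∀ p : k[X][X], ev k (ρ ⟨v, cx_v⟩) (ρ ⟨x, cx_x⟩) p = 0 → p = 0 := ev_inj _ _ hind
  have hup : Prime (u : S) := hE.fr.prime
  have huR : (u : R) ≠ 0 := fun h => hup.ne_zero (by rw [h]; rfl)
  have huu : ¬ IsUnit u := fun h => hup.not_isUnit (h.map R.val)
  have hu0 : ρ ⟨u, cx_R u⟩ = 0 := (hr.rk _).2 ⟨1, by simp⟩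
  obtain ⟨τ, hτ, hτc⟩ := exists_tau hE.fr (C' := Cx R v x y) (fun r => cx_R r) hu0
  have hρ := rho_ev (R := R) (v := v) (x := x) (y := y) (ρ := ρ) (τ := τ) hτ
  set v0 : R0 := ρ ⟨v, cx_v⟩ with hv0
  set x0 : R0 := ρ ⟨x, cx_x⟩ with hx0
  set K : Ideal R0 := RingHom.ker (π : R0 →+* T) with hK
  have hKm : ∀ z, z ∈ K ↔ π z = 0 := fun z => RingHom.mem_ker
  -- the kernel is prime
  have hlift : ∀ z : Cx R v x y, ρ z ∈ K ↔ (u : S) ∣ (z : S) := by
    intro z
    rw [hKm, hr.comp, hr.sk]
  have hKp : K.IsPrime := by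
    refine ⟨fun h => ?_, fun {a b} hab => ?_⟩
    · have h1 : ρ 1 ∈ K := by rw [h]; trivial
      rw [hlift] at h1
      exact hup.not_isUnit (isUnit_of_dvd_one h1)
    · obtain ⟨a, rfl⟩ := hr.rs a
      obtain ⟨b, rfl⟩ := hr.rs b
      rw [← map_mul, hlift] at hab
      rw [hlift, hlift]
      exact hup.dvd_or_dvd hab
  -- polynomials in `v` only
  have hmapmap : ∀ p : k[X][X],
      (p.map (mapRingHom (algebraMap k R))).map (mapRingHom τ) = p := by
    intro p
    rw [Polynomial.map_map]
    have h1 : (mapRingHom τ).comp (mapRingHom (algebraMap k R)) = RingHom.id k[X] := by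
      have h2 : τ.comp (algebraMap k R) = RingHom.id k := RingHom.ext hτc
      rw [mapRingHom_comp, h2, mapRingHom_id]
    rw [h1, Polynomial.map_id]
  have hevk : ∀ p : k[X][X], ρ ⟨ev R v x (p.map (mapRingHom (algebraMap k R))), cx_ev _⟩ =
      ev k v0 x0 p := by
    intro p
    rw [hρ, hmapmap]
  have hunitdvd : ∀ (c : k), c ≠ 0 → ∀ m n : ℕ, u ^ m ∣ algebraMap k R c * u ^ n → m ≤ n := by
    intro c hc m n h
    have h1 : IsUnit (algebraMap k R c) := (isUnit_iff_ne_zero.2 hc).map _
    rw [h1.dvd_mul_left] at h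
    by_contra hlt
    rw [not_le] at hlt
    have h2 := (pow_dvd_pow_iff huR huu).1 h
    omega
  have hC : ∀ c : k[X], C c ∈ Ideal.comap (ev k v0 x0) K → c = 0 := by
    intro c hc
    rw [Ideal.mem_comap, ← hevk, hlift] at hc
    change (u : S) ∣ ev R v x ((C c).map (mapRingHom (algebraMap k R))) at hc
    rw [map_C, ev_C] at hc
    have h1 := hE.vtr _ hc
    by_contra hc0
    rw [C_dvd_iff_dvd_coeff] at h1
    have h2 := h1 c.natDegree
    rw [coe_mapRingHom, coeff_map] at h2
    have h3 := hunitdvd c.leadingCoeff (leadingCoeff_ne_zero.2 hc0) 1 0 (by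
      simpa using h2)
    omega
  have hPp : (Ideal.comap (ev k v0 x0) K).IsPrime := Ideal.comap_isPrime _ _
  have hv0K : v0 ∉ K := by
    intro h
    have h1 : (X : k[X]) = 0 := hC X (by rw [Ideal.mem_comap, ev_C, aeval_X]; exact h)
    exact X_ne_zero h1
  have hv00 : v0 ≠ 0 := fun h => hv0K (by rw [h]; exact K.zero_mem)
  -- representatives
  have hrep : ∀ z : R0, ∃ (m : ℕ) (p : k[X][X]), v0 ^ m * z = ev k v0 x0 p := by
    intro z
    obtain ⟨z, rfl⟩ := hr.rs z
    obtain ⟨m, p, h1⟩ := rep_adjoin (R := R) hrel (show (z : S) ∈ Algebra.adjoin R {v, x, y} from z.2)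
    refine ⟨m, p.map (mapRingHom τ), ?_⟩
    rw [← hρ, hv0, ← map_pow, ← map_mul]
    congr 1
    exact Subtype.ext h1
  have hpow : ∀ (n : ℕ) (w : R0), w ∈ K ^ n → ∃ (m : ℕ) (p : k[X][X]),
      p ∈ (Ideal.comap (ev k v0 x0) K) ^ n ∧ v0 ^ m * w = ev k v0 x0 p := by
    intro n
    induction n with
    | zero =>
      intro w _
      obtain ⟨m, p, h⟩ := hrep w
      exact ⟨m, p, by simp, h⟩
    | succ n ih =>
      intro w hw
      rw [pow_succ] at hw
      refine Submodule.mul_induction_on hw ?_ ?_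
      · intro a ha b hb
        obtain ⟨m1, p1, hp1, h1⟩ := ih a ha
        obtain ⟨m2, p2, h2⟩ := hrep b
        refine ⟨m1 + m2, p1 * p2, ?_, ?_⟩
        · have h3 : p2 ∈ Ideal.comap (ev k v0 x0) K := by
            rw [Ideal.mem_comap, ← h2]
            exact K.mul_mem_left _ hb
          exact (pow_succ (Ideal.comap (ev k v0 x0) K) n).symm ▸ Ideal.mul_mem_mul hp1 h3
        · rw [map_mul, ← h1, ← h2, pow_add]
          ring
      · rintro a b ⟨m1, p1, hp1, h1⟩ ⟨m2, p2, hp2, h2⟩
        refine ⟨m1 + m2, C (X ^ m2) * p1 + C (X ^ m1) * p2,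
          Ideal.add_mem _ (Ideal.mul_mem_left _ _ hp1) (Ideal.mul_mem_left _ _ hp2), ?_⟩
        rw [map_add, map_mul, map_mul, ← h1, ← h2, ev_C, ev_C, map_pow, map_pow, aeval_X, pow_add]
        ring
  -- the polynomial of `q`
  obtain ⟨mq, Q, hQ⟩ := hrep q
  have hqK : q ∉ K := fun h => hq ((hKm q).1 h)
  -- the polynomial of `gam`
  obtain ⟨mg, g, hgd, hg⟩ : ∃ (m : ℕ) (g : k[X][X]), g.natDegree ≤ N ∧
      v0 ^ m * ρ Gam = ev k v0 x0 g := by
    obtain ⟨t, ht⟩ := hG.lead
    obtain ⟨m, p, h1, h2⟩ := low_rep hf hrel ht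
    obtain ⟨m', p4, h3⟩ := rep_adjoin (R := R) hrel
      (show (Gam : S) ∈ Algebra.adjoin R {v, x, y} from Gam.2)
    set p3 : R[X][X] := C (X ^ (N / f.natDegree)) * p + C (C u ^ t) * (C (X ^ m) * gpol f N)
      with hp3
    have h4 : (u : S) ^ t * v ^ (m + N / f.natDegree) * (Gam : S) = ev R v x p3 := by
      rw [hp3, map_add, map_mul, ← h1, map_mul, map_mul, ev_gpol hrel, ev_C, ev_C, ev_C, map_pow,
        map_pow, map_pow, aeval_X, aeval_C, hGam, map_one, one_mul, pow_add, pow_add]
      change _ = _ + (u : S) ^ t * _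
      ring
    have h5 : C (C u ^ t) * (C (X ^ (m + N / f.natDegree)) * p4) = C (X ^ m') * p3 := by
      rw [← sub_eq_zero]
      apply hindS
      rw [map_sub, sub_eq_zero, map_mul, map_mul, map_mul, ev_C, ev_C, ev_C, map_pow, map_pow,
        map_pow, aeval_X, aeval_C, ← h3, ← h4]
      change (u : S) ^ t * _ = _
      ring
    have hp3d : p3.natDegree ≤ N := by
      rw [hp3]
      refine (natDegree_add_le _ _).trans (max_le ?_ ?_)
      · refine (natDegree_C_mul_le _ _).trans ?_
        exact natDegree_le_of_degree_le (le_of_lt h2)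
      · refine (natDegree_C_mul_le _ _).trans ((natDegree_C_mul_le _ _).trans ?_)
        rw [gpol_natDegree hf]
    have hp4d : p4.natDegree ≤ N := by
      have h6 := congrArg natDegree h5
      rw [natDegree_C_mul (pow_ne_zero _ (C_ne_zero.2 huR)), natDegree_C_mul (pow_ne_zero _ X_ne_zero),
        natDegree_C_mul (pow_ne_zero _ X_ne_zero)] at h6
      omega
    refine ⟨m', p4.map (mapRingHom τ), natDegree_map_le.trans hp4d, ?_⟩
    rw [← hρ, hv0, ← map_pow, ← map_mul]
    congr 1
    exact Subtype.ext h3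
  have hg0 : g ≠ 0 := by
    rintro rfl
    rw [map_zero] at hg
    exact mul_ne_zero (pow_ne_zero _ hv00) hgam0 hg
  -- the product in the power of the ideal of polynomials
  obtain ⟨M, w', hw', hM⟩ := hpow W _ hmem
  have hprod : C (X ^ M) * Q * g = C (X ^ (mq + mg)) * w' := by
    rw [← sub_eq_zero]
    apply hind0
    rw [map_sub, sub_eq_zero, map_mul, map_mul, map_mul, ev_C, ev_C, map_pow, map_pow, aeval_X,
      ← hQ, ← hg, ← hM, pow_add]
    ring
  have hQ' : C (X ^ M) * Q ∉ Ideal.comap (ev k v0 x0) K := by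
    rw [Ideal.mem_comap, map_mul, ev_C, map_pow, aeval_X, ← hQ]
    intro h
    rcases hKp.mem_or_mem h with h | h
    · exact hv0K (hKp.mem_of_pow_mem _ h)
    · rcases hKp.mem_or_mem h with h | h
      · exact hv0K (hKp.mem_of_pow_mem _ h)
      · exact hqK h
  have hWe := hG.We
  obtain ⟨φ, hφP, hφ0, hφd, hφW⟩ := core (Ideal.comap (ev k v0 x0) K) hPp hC (by omega : 0 < W)
    hQ' hg0 (by rw [hprod]; exact Ideal.mul_mem_left _ _ hw')
  -- the lift of `φ` is divisible by `u`
  have hφu : (u : S) ∣ ev R v x (φ.map (mapRingHom (algebraMap k R))) := by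
    have h1 : ρ ⟨ev R v x (φ.map (mapRingHom (algebraMap k R))), cx_ev _⟩ ∈ K := by
      rw [hevk]; exact hφP
    exact (hlift _).1 h1
  obtain ⟨W', rfl⟩ : ∃ W', W = W' + 1 := ⟨W - 1, by omega⟩
  set b : ℕ := φ.natDegree with hb
  have hbN : W' * b + b ≤ N := by
    have : (W' + 1) * b = W' * b + b := by ring
    omega
  set ψ : k[X][X] := φ ^ W' * X ^ (N - 1 - W' * b) with hψ
  have hψ0 : ψ ≠ 0 := mul_ne_zero (pow_ne_zero _ hφ0) (pow_ne_zero _ X_ne_zero)
  have hψd : ψ.natDegree = N - 1 := by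
    rw [hψ, natDegree_mul (pow_ne_zero _ hφ0) (pow_ne_zero _ X_ne_zero), natDegree_pow,
      natDegree_X_pow, ← hb]
    omega
  obtain ⟨z0, hz0⟩ : ∃ z0 : S, ev R v x (ψ.map (mapRingHom (algebraMap k R))) =
      (u : S) ^ W' * z0 := by
    obtain ⟨s, hs⟩ := hφu
    refine ⟨s ^ W' * x ^ (N - 1 - W' * b), ?_⟩
    rw [hψ, Polynomial.map_mul, Polynomial.map_pow, Polynomial.map_pow, map_X, map_mul, map_pow,
      map_pow, ev_X, hs]
    ring
  have hdeg : (ψ.map (mapRingHom (algebraMap k R))).degree ≤ ((N - 1 : ℕ) : WithBot ℕ) := by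
    refine degree_le_of_natDegree_le (natDegree_map_le.trans ?_)
    rw [hψd]
  have h1 := (ev_low hf hrel (N - 1)).2 _ hdeg
  have h2 : LT R u f.natDegree v x y (N - 1) W'
      ((ψ.map (mapRingHom (algebraMap k R))).coeff (N - 1) * X ^ ((N - 1) / f.natDegree)) z0 := by
    refine ⟨0, ?_⟩
    rw [add_zero, pow_zero, one_mul, ← hz0]
    exact h1
  have h3 := hG.eps0.max _ _ _ h2
  -- compare the exponents
  set a : k[X] := ψ.coeff (N - 1) * X ^ ((N - 1) / f.natDegree) with ha
  have ha0 : a ≠ 0 := by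
    refine mul_ne_zero ?_ (pow_ne_zero _ X_ne_zero)
    rw [← hψd]
    exact leadingCoeff_ne_zero.2 hψ0
  have h4 : (ψ.map (mapRingHom (algebraMap k R))).coeff (N - 1) * X ^ ((N - 1) / f.natDegree) =
      a.map (algebraMap k R) := by
    rw [ha, coeff_map, coe_mapRingHom, Polynomial.map_mul, Polynomial.map_pow, map_X]
  rw [h4, ← C_pow, ← C_pow, C_dvd_iff_dvd_coeff] at h3
  have h5 := h3 a.natDegree
  rw [coeff_mul_C, coeff_map] at h5
  have h6 := hunitdvd a.leadingCoeff (leadingCoeff_ne_zero.2 ha0) _ _ h5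
  omega

end main

end Pool.Agent.LNDQ.NNm
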