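import Mathlib

/-!
# LNDQ/Cic: the ring `k[v, x, y]`, `v y = f(x)`, is completely integrally closed (58)
-/

set_option autoImplicit false

namespace Pool.Agent.LNDQ

open Polynomial

/-- in a factorial domain: `b ^ M ∣ g a ^ M` for all `M` implies `b ∣ a` -/
theorem ufd_cic {P : Type} [CommRing P] [IsDomain P] [UniqueFactorizationMonoid P] {a b g : P} (hg : g ≠ 0) (hb : b ≠ 0)
    (h : ∀ M : ℕ, b ^ M ∣ g * a ^ M) : b ∣ a := by
  obtain ⟨b', a', c', hrel, hb', ha'⟩ := UniqueFactorizationMonoid.exists_reduced_factors b hb a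
  have hc : c' ≠ 0 := by
    rintro rfl
    rw [zero_mul] at hb'
    exact hb hb'.symm
  have h1 : ∀ M : ℕ, b' ^ M ∣ g := by
    intro M
    have h2 := h M
    rw [← hb', ← ha', mul_pow, mul_pow, mul_left_comm] at h2
    have h3 := (mul_dvd_mul_iff_left (pow_ne_zero M hc)).1 h2
    exact (IsRelPrime.pow hrel).dvd_of_dvd_mul_right h3
  have hu : IsUnit b' := by
    by_contra hu
    obtain ⟨n, hn⟩ := FiniteMultiplicity.of_not_isUnit hu hg
    exact hn (h1 (n + 1))
  rw [← hb', ← ha']
  exact mul_dvd_mul_left c' hu.dvd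

/-- a prime which does not divide `b` can be cancelled -/
theorem prime_cancel {P : Type} [CommRing P] [IsDomain P] {p b : P} (hp : Prime p) (hb : ¬ p ∣ b) :
    ∀ (n : ℕ) (z : P), b ∣ z * p ^ n → b ∣ z := by
  intro n
  induction n with
  | zero =>
    intro z h
    rwa [pow_zero, mul_one] at h
  | succ n ih =>
    intro z h
    refine ih z ?_
    obtain ⟨c, hc⟩ := h
    rw [pow_succ, ← mul_assoc] at hc
    have h1 : p ∣ b * c := ⟨z * p ^ n, by rw [← hc]; ring⟩
    obtain ⟨d, rfl⟩ := (hp.dvd_or_dvd h1).resolve_left hb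
    refine ⟨d, mul_right_cancel₀ hp.ne_zero ?_⟩
    rw [hc]
    ring

/-- the data: `R0 = k[v, x, y]`, `v y = f(x)`, `f` monic, `v`, `x` algebraically independent -/
structure Pr0 {k R0 : Type} [Field k] [CommRing R0] [Algebra k R0] (v x y : R0) (f : k[X]) : Prop where
  monic : f.Monic
  rel : v * y = aeval x f
  gen : Algebra.adjoin k ({v, x, y} : Set R0) = ⊤
  ind : AlgebraicIndependent k ![v, x]

section

variable {k R0 : Type} [Field k] [CommRing R0] [Algebra k R0]

/-- the substitution `p(X)(V) ↦ p(x)(v)` -/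
noncomputable def ev (x v : R0) : k[X][X] →+* R0 := eval₂RingHom ((aeval x : k[X] →ₐ[k] R0) : k[X] →+* R0) v

theorem ev_X (x v : R0) : ev (k := k) x v X = v := by
  simp [ev]

theorem ev_C (x v : R0) (p : k[X]) : ev x v (C p) = aeval x p := by
  simp [ev]

theorem ev_inj {x v : R0} (h : AlgebraicIndependent k ![v, x]) : Function.Injective (ev (k := k) x v) := by
  have h1 : ∀ p : k[X][X], ev x v p = MvPolynomial.aeval ![v, x] (eval₂ ((aeval (MvPolynomial.X 1) : k[X] →ₐ[k] MvPolynomial (Fin 2) k) :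
      k[X] →+* MvPolynomial (Fin 2) k) (MvPolynomial.X 0) p) := by
    intro p
    induction p using Polynomial.induction_on' with
    | add p q hp hq => rw [map_add, hp, hq, eval₂_add, map_add]
    | monomial n q =>
      rw [← C_mul_X_pow_eq_monomial, map_mul, map_pow, ev_X, ev_C, eval₂_mul, eval₂_pow, eval₂_C, eval₂_X, map_mul, map_pow, MvPolynomial.aeval_X]
      congr 1
      show aeval x q = MvPolynomial.aeval ![v, x] (aeval (MvPolynomial.X 1 : MvPolynomial (Fin 2) k) q)
      rw [← aeval_algHom_apply, MvPolynomial.aeval_X]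
      rfl
  have h2 : Function.Injective (eval₂ ((aeval (MvPolynomial.X 1) : k[X] →ₐ[k] MvPolynomial (Fin 2) k) :
      k[X] →+* MvPolynomial (Fin 2) k) (MvPolynomial.X 0)) := by
    -- a left inverse
    refine Function.LeftInverse.injective (g := fun P => MvPolynomial.aeval (![X, C X] : Fin 2 → k[X][X]) P) fun p => ?_
    show MvPolynomial.aeval (![X, C X] : Fin 2 → k[X][X]) _ = p
    induction p using Polynomial.induction_on' with
    | add p q hp hq => rw [eval₂_add, map_add, hp, hq]
    | monomial n q =>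
      rw [eval₂_monomial, map_mul, map_pow, MvPolynomial.aeval_X]
      show MvPolynomial.aeval (![X, C X] : Fin 2 → k[X][X]) (aeval (MvPolynomial.X 1 : MvPolynomial (Fin 2) k) q) * X ^ n = _
      rw [← aeval_algHom_apply, MvPolynomial.aeval_X, ← C_mul_X_pow_eq_monomial]
      congr 1
      show aeval (C X : k[X][X]) q = C q
      induction q using Polynomial.induction_on' with
      | add p q hp hq => rw [map_add, hp, hq, C_add]
      | monomial n a =>
        rw [aeval_monomial, ← C_mul_X_pow_eq_monomial, C_mul, C_pow]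
        rfl
  intro p q hpq
  rw [h1, h1] at hpq
  exact h2 (h hpq)

variable {v x y : R0} {f : k[X]}

/-- `v ^ i z` is a polynomial in `x`, `v` -/
theorem Pr0.exists_v (H : Pr0 v x y f) (z : R0) : ∃ (i : ℕ) (p : k[X][X]), v ^ i * z = ev x v p := by
  have hz : z ∈ Algebra.adjoin k ({v, x, y} : Set R0) := by
    rw [H.gen]
    trivial
  induction hz using Algebra.adjoin_induction with
  | mem z hz =>
    rcases hz with rfl | rfl | hz
    · exact ⟨0, X, by rw [pow_zero, one_mul, ev_X]⟩
    · exact ⟨0, C X, by rw [pow_zero, one_mul, ev_C, aeval_X]⟩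
    · rw [Set.mem_singleton_iff] at hz
      rw [hz]
      exact ⟨1, C f, by rw [pow_one, H.rel, ev_C]⟩
  | algebraMap r => exact ⟨0, C (C r), by rw [pow_zero, one_mul, ev_C, aeval_C]⟩
  | add z w _ _ hz hw =>
    obtain ⟨i, p, hp⟩ := hz
    obtain ⟨j, q, hq⟩ := hw
    refine ⟨i + j, X ^ j * p + X ^ i * q, ?_⟩
    rw [map_add, map_mul, map_mul, map_pow, map_pow, ev_X, ← hp, ← hq]
    ring
  | mul z w _ _ hz hw =>
    obtain ⟨i, p, hp⟩ := hz
    obtain ⟨j, q, hq⟩ := hw
    refine ⟨i + j, p * q, ?_⟩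
    rw [map_mul, ← hp, ← hq]
    ring

theorem Pr0.v_ne (H : Pr0 v x y f) : v ≠ 0 := by
  intro h
  have h1 : ev (k := k) x v X = ev (k := k) x v 0 := by
    rw [ev_X, map_zero]
    exact h
  exact X_ne_zero (ev_inj H.ind h1)

/-- the swap -/
theorem Pr0.swap (H : Pr0 v x y f) : Pr0 y x v f where
  monic := H.monic
  rel := by rw [mul_comm]; exact H.rel
  gen := by
    rw [← H.gen]
    congr 1
    ext z
    simp only [Set.mem_insert_iff, Set.mem_singleton_iff]
    tauto
  ind := by
    have key : ∀ p : k[X][X], ev x y p = 0 → p = 0 := by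
      intro p hp
      obtain ⟨N, hN⟩ : ∃ N, N = p.natDegree := ⟨_, rfl⟩
      -- multiply by `v ^ N`
      obtain ⟨q, hq⟩ : ∃ q : k[X][X], q = ∑ i ∈ Finset.range (N + 1), C (p.coeff i * f ^ i) * X ^ (N - i) := ⟨_, rfl⟩
      have h1 : ev x v q = v ^ N * ev x y p := by
        have h2 : ev x y p = ∑ i ∈ Finset.range (N + 1), aeval x (p.coeff i) * y ^ i := by
          conv_lhs => rw [p.as_sum_range' (N + 1) (by omega), map_sum]
          refine Finset.sum_congr rfl fun i _ => ?_
          rw [← C_mul_X_pow_eq_monomial, map_mul, map_pow, ev_X, ev_C]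
        rw [h2, hq, map_sum, Finset.mul_sum]
        refine Finset.sum_congr rfl fun i hi => ?_
        have h3 : i ≤ N := by
          rw [Finset.mem_range] at hi
          omega
        rw [map_mul, map_pow, ev_X, ev_C, map_mul, map_pow, ← H.rel, mul_pow]
        conv_rhs => rw [← Nat.sub_add_cancel h3, pow_add]
        ring
      rw [hp, mul_zero] at h1
      have h4 : q = 0 := ev_inj H.ind (by rw [h1, map_zero])
      ext i : 1
      rw [coeff_zero]
      by_cases hi : i ≤ N
      · have h5 := congrArg (fun r : k[X][X] => r.coeff (N - i)) h4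
        simp only [hq, finset_sum_coeff, coeff_C_mul, coeff_X_pow, coeff_zero] at h5
        rw [Finset.sum_eq_single i, if_pos rfl, mul_one] at h5
        · exact (mul_eq_zero.1 h5).resolve_right (pow_ne_zero i H.monic.ne_zero)
        · intro j hj hne
          rw [Finset.mem_range] at hj
          rw [if_neg (by omega), mul_zero]
        · intro h6
          rw [Finset.mem_range] at h6
          omega
      · exact coeff_eq_zero_of_natDegree_lt (by omega)
    have key2 : ∀ P : MvPolynomial (Fin 2) k, MvPolynomial.aeval ![y, x] P = ev x y (MvPolynomial.aeval (![X, C X] : Fin 2 → k[X][X]) P) := by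
      intro P
      induction P using MvPolynomial.induction_on with
      | C a =>
        rw [MvPolynomial.aeval_C, MvPolynomial.aeval_C]
        show _ = ev x y (C (C a))
        rw [ev_C, aeval_C]
      | add p q hp hq => rw [map_add, map_add, map_add, hp, hq]
      | mul_X p i hp =>
        rw [map_mul, map_mul, map_mul, hp, MvPolynomial.aeval_X, MvPolynomial.aeval_X]
        fin_cases i
        · show _ * y = _ * ev x y X
          rw [ev_X]
        · show _ * x = _ * ev x y (C X)
          rw [ev_C, aeval_X]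
    have key3 : Function.Injective (MvPolynomial.aeval (![X, C X] : Fin 2 → k[X][X]) : MvPolynomial (Fin 2) k → k[X][X]) := by
      refine Function.LeftInverse.injective (g := fun p => eval₂ ((aeval (MvPolynomial.X 1) : k[X] →ₐ[k] MvPolynomial (Fin 2) k) :
        k[X] →+* MvPolynomial (Fin 2) k) (MvPolynomial.X 0) p) fun P => ?_
      show eval₂ _ _ _ = P
      induction P using MvPolynomial.induction_on with
      | C a =>
        rw [MvPolynomial.aeval_C]
        show eval₂ _ _ (C (C a)) = _
        rw [eval₂_C]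
        show aeval (MvPolynomial.X 1 : MvPolynomial (Fin 2) k) (C a) = _
        rw [aeval_C]
        rfl
      | add p q hp hq => rw [map_add, eval₂_add, hp, hq]
      | mul_X p i hp =>
        rw [map_mul, eval₂_mul, hp, MvPolynomial.aeval_X]
        congr 1
        fin_cases i
        · show eval₂ _ _ X = _
          rw [eval₂_X]
          rfl
        · show eval₂ _ _ (C X) = _
          rw [eval₂_C]
          show aeval (MvPolynomial.X 1 : MvPolynomial (Fin 2) k) X = _
          rw [aeval_X]
          rfl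
    intro P Q hPQ
    have h1 : MvPolynomial.aeval ![y, x] (P - Q) = 0 := by rw [map_sub, sub_eq_zero]; exact hPQ
    rw [key2] at h1
    have h2 := key _ h1
    have h3 := key3 (a₁ := P - Q) (a₂ := 0) (by rw [h2, map_zero])
    exact sub_eq_zero.1 h3

/-- the decomposition `z = p(x, v) + y q(x, y)` -/
theorem Pr0.exists_dec (H : Pr0 v x y f) (z : R0) : ∃ p q : k[X][X], z = ev x v p + y * ev x y q := by
  have hsp : ∀ q : k[X][X], q = C (q.coeff 0) + X * q.divX := fun q => by
    conv_lhs => rw [← divX_mul_X_add q]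
    ring
  have hz : z ∈ Algebra.adjoin k ({v, x, y} : Set R0) := by
    rw [H.gen]
    trivial
  have key : ∀ m : R0, (∃ p q : k[X][X], m = ev x v p + y * ev x y q) → ∃ p q : k[X][X], z * m = ev x v p + y * ev x y q := by
    induction hz using Algebra.adjoin_induction with
    | mem z hz =>
      rintro m ⟨p, q, rfl⟩
      rcases hz with rfl | rfl | hz
      · refine ⟨X * p + C f * C (q.coeff 0), C f * q.divX, ?_⟩
        have e1 : ev x y q = aeval x (q.coeff 0) + y * ev x y q.divX := by
          conv_lhs => rw [hsp q]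
          rw [map_add, map_mul, ev_X, ev_C]
        rw [map_add, map_mul, map_mul, map_mul, ev_X, ev_C, ev_C, ev_C, e1, ← H.rel]
        ring
      · refine ⟨C X * p, C X * q, ?_⟩
        rw [map_mul, map_mul, ev_C, ev_C, aeval_X]
        ring
      · rw [Set.mem_singleton_iff] at hz
        rw [hz]
        refine ⟨C f * p.divX, C (p.coeff 0) + X * q, ?_⟩
        have e1 : ev x v p = aeval x (p.coeff 0) + v * ev x v p.divX := by
          conv_lhs => rw [hsp p]
          rw [map_add, map_mul, ev_X, ev_C]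
        rw [map_add, map_mul, map_mul, ev_X, ev_C, ev_C, e1, ← H.rel]
        ring
    | algebraMap r =>
      rintro m ⟨p, q, rfl⟩
      refine ⟨C (C r) * p, C (C r) * q, ?_⟩
      rw [map_mul, map_mul, ev_C, ev_C, aeval_C]
      ring
    | add z w _ _ hz hw =>
      intro m hm
      obtain ⟨p, q, h1⟩ := hz m hm
      obtain ⟨p', q', h2⟩ := hw m hm
      refine ⟨p + p', q + q', ?_⟩
      rw [add_mul, h1, h2, map_add, map_add]
      ring
    | mul z w _ _ hz hw =>
      intro m hm
      rw [mul_assoc]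
      exact hz _ (hw m hm)
  have h1 := key 1 ⟨1, 0, by rw [map_one, map_zero, mul_zero, add_zero]⟩
  rwa [mul_one] at h1

/-- the decomposition is unique -/
theorem Pr0.dec_zero (H : Pr0 v x y f) {p q : k[X][X]} (h : ev x v p + y * ev x y q = 0) : p = 0 ∧ q = 0 := by
  obtain ⟨N, hN⟩ : ∃ N, N = q.natDegree + 1 := ⟨_, rfl⟩
  obtain ⟨r, hr⟩ : ∃ r : k[X][X], r = ∑ i ∈ Finset.range N, C (q.coeff i * f ^ (i + 1)) * X ^ (N - 1 - i) := ⟨_, rfl⟩
  have h1 : ev x v r = v ^ N * (y * ev x y q) := by
    have h2 : ev x y q = ∑ i ∈ Finset.range N, aeval x (q.coeff i) * y ^ i := by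
      conv_lhs => rw [q.as_sum_range' N (by omega), map_sum]
      refine Finset.sum_congr rfl fun i _ => ?_
      rw [← C_mul_X_pow_eq_monomial, map_mul, map_pow, ev_X, ev_C]
    rw [h2, hr, map_sum, Finset.mul_sum, Finset.mul_sum]
    refine Finset.sum_congr rfl fun i hi => ?_
    have h3 : i + 1 ≤ N := by
      rw [Finset.mem_range] at hi
      omega
    rw [map_mul, map_pow, ev_X, ev_C, map_mul, map_pow, ← H.rel, mul_pow]
    have h4 : v ^ N = v ^ (N - 1 - i) * v ^ (i + 1) := by
      rw [← pow_add]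
      congr 1
      omega
    rw [h4]
    ring
  have h5 : X ^ N * p + r = 0 := by
    apply ev_inj H.ind
    rw [map_add, map_mul, map_pow, ev_X, h1, map_zero]
    linear_combination (v ^ N) * h
  have hq : q = 0 := by
    ext i : 1
    rw [coeff_zero]
    by_cases hi : i < N
    · have h6 := congrArg (fun r : k[X][X] => r.coeff (N - 1 - i)) h5
      simp only [hr, coeff_add, finset_sum_coeff, coeff_C_mul, coeff_X_pow, coeff_zero] at h6
      rw [coeff_X_pow_mul', if_neg (by omega), zero_add, Finset.sum_eq_single i, if_pos rfl, mul_one] at h6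
      · exact (mul_eq_zero.1 h6).resolve_right (pow_ne_zero _ H.monic.ne_zero)
      · intro j hj hne
        rw [Finset.mem_range] at hj
        rw [if_neg (by omega), mul_zero]
      · intro h7
        rw [Finset.mem_range] at h7
        exact absurd hi h7
    · exact coeff_eq_zero_of_natDegree_lt (by omega)
  refine ⟨?_, hq⟩
  have hr0 : r = 0 := by
    rw [hr, hq]
    simp
  rw [hr0, add_zero] at h5
  exact (mul_eq_zero.1 h5).resolve_left (pow_ne_zero N X_ne_zero)

theorem Pr0.dec_inj (H : Pr0 v x y f) {p q p' q' : k[X][X]} (h : ev x v p + y * ev x y q = ev x v p' + y * ev x y q') : p = p' ∧ q = q' := by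
  obtain ⟨h1, h2⟩ := H.dec_zero (p := p - p') (q := q - q') (by rw [map_sub, map_sub]; linear_combination h)
  exact ⟨sub_eq_zero.1 h1, sub_eq_zero.1 h2⟩

/-- **`y` is regular modulo `v`** -/
theorem Pr0.reg (H : Pr0 v x y f) {z : R0} (h : v ∣ y * z) : v ∣ z := by
  have hsp : ∀ q : k[X][X], q = C (q.coeff 0) + X * q.divX := fun q => by
    conv_lhs => rw [← divX_mul_X_add q]
    ring
  obtain ⟨w, hw⟩ := h
  obtain ⟨p, q, hz⟩ := H.exists_dec z
  obtain ⟨p', q', hw'⟩ := H.exists_dec w
  have e1 : ev x v p = aeval x (p.coeff 0) + v * ev x v p.divX := by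
    conv_lhs => rw [hsp p]
    rw [map_add, map_mul, ev_X, ev_C]
  have e2 : ev x y q' = aeval x (q'.coeff 0) + y * ev x y q'.divX := by
    conv_lhs => rw [hsp q']
    rw [map_add, map_mul, ev_X, ev_C]
  obtain ⟨-, h2⟩ := H.dec_inj (p := C f * p.divX) (q := C (p.coeff 0) + X * q) (p' := X * p' + C f * C (q'.coeff 0)) (q' := C f * q'.divX) (by
    simp only [map_add, map_mul, ev_X, ev_C, ← H.rel]
    rw [hz, hw'] at hw
    linear_combination hw - y * e1 + v * y * e2)
  obtain ⟨g, hg⟩ : ∃ g, g = q'.divX := ⟨_, rfl⟩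
  rw [← hg] at h2
  have h3 : p.coeff 0 = f * g.coeff 0 := by
    have := congrArg (fun r : k[X][X] => r.coeff 0) h2
    simpa using this
  have h4 : q = C f * g.divX := by
    ext i : 1
    have := congrArg (fun r : k[X][X] => r.coeff (i + 1)) h2
    simp only [coeff_add, coeff_C_succ, coeff_X_mul, zero_add, coeff_C_mul] at this
    rw [this, coeff_C_mul, coeff_divX]
  refine ⟨ev x v p.divX + y * aeval x (g.coeff 0) + y * (y * ev x y g.divX), ?_⟩
  rw [hz, e1, h3, h4, map_mul, map_mul, ev_C, ← H.rel]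
  ring

theorem Pr0.reg_pow [IsDomain R0] (H : Pr0 v x y f) (s t : ℕ) {z : R0} (h : v ^ s ∣ y ^ t * z) : v ^ s ∣ z := by
  have h1 : ∀ (t : ℕ) (z : R0), v ∣ y ^ t * z → v ∣ z := by
    intro t
    induction t with
    | zero => intro z h; rwa [pow_zero, one_mul] at h
    | succ t ih =>
      intro z h
      refine H.reg (ih (y * z) ?_)
      rwa [pow_succ, mul_assoc] at h
  induction s generalizing z with
  | zero => rw [pow_zero]; exact one_dvd z
  | succ s ih =>
    obtain ⟨w, rfl⟩ := h1 t z ((dvd_pow_self v (Nat.succ_ne_zero s)).trans h)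
    rw [pow_succ'] at h ⊢
    have h2 : v * v ^ s ∣ v * (y ^ t * w) := by
      have e : y ^ t * (v * w) = v * (y ^ t * w) := by ring
      rwa [e] at h
    exact mul_dvd_mul_left v (ih ((mul_dvd_mul_iff_left H.v_ne).1 h2))

/-- completely integrally closed after inverting `v` -/
theorem Pr0.cic_v [IsDomain R0] (H : Pr0 v x y f) {a b g : R0} (hg : g ≠ 0) (hb : b ≠ 0) (h : ∀ M : ℕ, b ^ M ∣ g * a ^ M) :
    ∃ (s : ℕ) (c : R0), v ^ s * a = b * c := by
  obtain ⟨i, a1, ha1⟩ := H.exists_v a
  obtain ⟨j, b1, hb1⟩ := H.exists_v b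
  obtain ⟨l, g1, hg1⟩ := H.exists_v g
  have hv := H.v_ne
  have hb10 : b1 ≠ 0 := by
    rintro rfl
    rw [map_zero] at hb1
    exact mul_ne_zero (pow_ne_zero j hv) hb hb1
  have hg10 : g1 ≠ 0 := by
    rintro rfl
    rw [map_zero] at hg1
    exact mul_ne_zero (pow_ne_zero l hv) hg hg1
  have hX : Prime (X : k[X][X]) := prime_X
  obtain ⟨s, b2, hb2, hb12⟩ := WfDvdMonoid.max_power_factor hb10 hX.irreducible
  have hb20 : b2 ≠ 0 := by
    rintro rfl
    exact hb2 (dvd_zero X)
  have key : ∀ M : ℕ, b2 ^ M ∣ g1 * a1 ^ M := by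
    intro M
    obtain ⟨c, hc⟩ := h M
    obtain ⟨n, c1, hc1⟩ := H.exists_v c
    have h1 : g1 * a1 ^ M * X ^ (j * M + n) = b1 ^ M * X ^ (i * M + l) * c1 := by
      apply ev_inj H.ind
      rw [map_mul, map_mul, map_mul, map_mul, map_pow, map_pow, map_pow, map_pow, ev_X, ← ha1, ← hb1, ← hg1, ← hc1]
      linear_combination (v ^ (l + i * M + j * M + n)) * hc
    refine prime_cancel hX (fun h => hb2 (hX.dvd_of_dvd_pow h)) (j * M + n) _ ?_
    rw [h1, hb12, mul_pow]
    exact ⟨(X ^ s) ^ M * X ^ (i * M + l) * c1, by ring⟩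
  obtain ⟨c, hc⟩ := ufd_cic hg10 hb20 key
  refine ⟨s + i, v ^ j * ev x v c, ?_⟩
  have h1 : v ^ j * b = v ^ s * ev x v b2 := by rw [hb1, hb12, map_mul, map_pow, ev_X]
  have h2 : v ^ i * a = ev x v b2 * ev x v c := by rw [ha1, hc, map_mul]
  rw [pow_add, mul_assoc, h2]
  linear_combination -(ev x v c) * h1

/-- **completely integrally closed** -/
theorem Pr0.cic [IsDomain R0] (H : Pr0 v x y f) {a b g : R0} (hg : g ≠ 0) (hb : b ≠ 0) (h : ∀ M : ℕ, b ^ M ∣ g * a ^ M) : b ∣ a := by
  obtain ⟨s, c, hc⟩ := H.cic_v hg hb h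
  obtain ⟨t, c', hc'⟩ := H.swap.cic_v hg hb h
  have h1 : y ^ t * c = v ^ s * c' := by
    refine mul_left_cancel₀ hb ?_
    calc b * (y ^ t * c) = y ^ t * (b * c) := by ring
      _ = y ^ t * (v ^ s * a) := by rw [hc]
      _ = v ^ s * (y ^ t * a) := by ring
      _ = v ^ s * (b * c') := by rw [hc']
      _ = b * (v ^ s * c') := by ring
  obtain ⟨d, rfl⟩ := H.reg_pow s t (z := c) ⟨c', h1⟩
  refine ⟨d, mul_left_cancel₀ (pow_ne_zero s H.v_ne) ?_⟩
  rw [hc]
  ring

end

end Pool.Agent.LNDQ
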