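import Mathlib
import Pool.Agent.LNDQ.Defs
import Pool.Agent.LNDQ.Cic

/-!
# LNDQ/NfCic: complete integral closedness of `k[v, x, y]`, `v y = f(x)`
-/

set_option autoImplicit false

open Polynomial

namespace Pool.Agent.LNDQ

variable {k R0 : Type} [Field k] [CommRing R0] [IsDomain R0] [Algebra k R0] {f : k[X]} {v x y : R0}

/-- complete integral closedness -/
theorem cic (hP : Pres f v x y) (hg : Algebra.adjoin k {v, x, y} = ⊤) (a b g : R0) (hb : b ≠ 0)
    (hgn : g ≠ 0) (h : ∀ M : ℕ, b ^ M ∣ g * a ^ M) : b ∣ a :=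
  Pr0.cic (H := (⟨hP.monic, hP.rel, hg, hP.ind⟩ : Pr0 v x y f)) hgn hb h

end Pool.Agent.LNDQ
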