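import Mathlib
import Pool.Agent.LNDQ.Defs
import Pool.Agent.LNDQ.Quo
import Pool.Agent.LNDQ.Cic

/-!
# LNDQ/NfRed: the residue rings `C / u C` and `S / u S`
-/

set_option autoImplicit false

open Polynomial

namespace Pool.Agent.LNDQ

section ind

variable {R C : Type} [CommRing R] [CommRing C] [Algebra R C]

/-- `X 0 ↦ C X`, `X 1 ↦ X` -/
noncomputable def nfTh (R : Type) [CommRing R] : MvPolynomial (Fin 2) R →ₐ[R] R[X][X] :=
  MvPolynomial.aeval ![Polynomial.C X, X]

/-- the inverse of `nfTh` -/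
noncomputable def nfPs (R : Type) [CommRing R] : R[X][X] →+* MvPolynomial (Fin 2) R :=
  eval₂RingHom (aeval (MvPolynomial.X 0) : R[X] →ₐ[R] MvPolynomial (Fin 2) R).toRingHom
    (MvPolynomial.X 1)

theorem nfPs_th (Q : MvPolynomial (Fin 2) R) : nfPs R (nfTh R Q) = Q := by
  have h : (nfPs R).comp (nfTh R).toRingHom = RingHom.id _ := by
    refine MvPolynomial.ringHom_ext (fun r => ?_) (fun i => ?_)
    · change nfPs R (nfTh R (MvPolynomial.C r)) = MvPolynomial.C r
      rw [← MvPolynomial.algebraMap_eq, AlgHom.commutes]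
      change eval₂ _ _ (Polynomial.C (Polynomial.C r)) = _
      rw [eval₂_C]
      change aeval (MvPolynomial.X 0) (Polynomial.C r) = _
      rw [aeval_C]
    · change nfPs R (nfTh R (MvPolynomial.X i)) = MvPolynomial.X i
      rw [nfTh, MvPolynomial.aeval_X]
      fin_cases i
      · change eval₂ _ _ (Polynomial.C X) = _
        rw [eval₂_C]
        change aeval (MvPolynomial.X 0) X = _
        rw [aeval_X]
        rfl
      · change eval₂ _ _ X = _
        rw [eval₂_X]
        rfl
  exact RingHom.congr_fun h Q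

theorem nfTh_ps (P : R[X][X]) : nfTh R (nfPs R P) = P := by
  have h : (nfTh R).toRingHom.comp (nfPs R) = RingHom.id _ := by
    refine Polynomial.ringHom_ext' ?_ ?_
    · refine Polynomial.ringHom_ext' ?_ ?_
      · ext r
        change coeff (coeff (nfTh R (nfPs R (Polynomial.C (Polynomial.C r)))) _) _ = _
        have : nfPs R (Polynomial.C (Polynomial.C r)) = algebraMap R _ r := by
          change eval₂ _ _ (Polynomial.C (Polynomial.C r)) = _
          rw [eval₂_C]
          change aeval (MvPolynomial.X 0) (Polynomial.C r) = _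
          rw [aeval_C]
        rw [this, AlgHom.commutes]
        rfl
      · change nfTh R (nfPs R (Polynomial.C X)) = Polynomial.C X
        have : nfPs R (Polynomial.C X) = MvPolynomial.X 0 := by
          change eval₂ _ _ (Polynomial.C X) = _
          rw [eval₂_C]
          change aeval (MvPolynomial.X 0) X = _
          rw [aeval_X]
        rw [this, nfTh, MvPolynomial.aeval_X]
        rfl
    · change nfTh R (nfPs R X) = X
      have : nfPs R X = MvPolynomial.X 1 := by
        change eval₂ _ _ X = _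
        rw [eval₂_X]
      rw [this, nfTh, MvPolynomial.aeval_X]
      rfl
  exact RingHom.congr_fun h P

theorem nfEv_th (v x : C) (Q : MvPolynomial (Fin 2) R) :
    (nfTh R Q).eval₂ (aeval v : R[X] →ₐ[R] C).toRingHom x = MvPolynomial.aeval ![v, x] Q := by
  have h : (eval₂RingHom (aeval v : R[X] →ₐ[R] C).toRingHom x).comp (nfTh R).toRingHom =
      (MvPolynomial.aeval ![v, x] : MvPolynomial (Fin 2) R →ₐ[R] C).toRingHom := by
    refine MvPolynomial.ringHom_ext (fun r => ?_) (fun i => ?_)
    · change eval₂ _ _ (nfTh R (MvPolynomial.C r)) = MvPolynomial.aeval ![v, x] (MvPolynomial.C r)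
      rw [← MvPolynomial.algebraMap_eq, AlgHom.commutes, AlgHom.commutes]
      change eval₂ _ _ (Polynomial.C (Polynomial.C r)) = _
      rw [eval₂_C]
      change aeval v (Polynomial.C r) = _
      rw [aeval_C]
    · change eval₂ _ _ (nfTh R (MvPolynomial.X i)) = MvPolynomial.aeval ![v, x] (MvPolynomial.X i)
      rw [nfTh, MvPolynomial.aeval_X, MvPolynomial.aeval_X]
      fin_cases i
      · change eval₂ _ _ (Polynomial.C X) = _
        rw [eval₂_C]
        change aeval v X = _
        rw [aeval_X]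
        rfl
      · change eval₂ _ _ X = _
        rw [eval₂_X]
        rfl
  exact RingHom.congr_fun h Q

theorem nf_ind_of_alg {v x : C} (h : AlgebraicIndependent R ![v, x]) : Bas.Ind R v x := by
  intro P hP
  rw [← nfTh_ps P, nfEv_th] at hP
  have h1 : nfPs R P = 0 := (algebraicIndependent_iff.1 h) _ hP
  rw [← nfTh_ps P, h1, map_zero]

theorem nf_alg_of_ind {v x : C} (h : Bas.Ind R v x) : AlgebraicIndependent R ![v, x] := by
  rw [algebraicIndependent_iff]
  intro Q hQ
  rw [← nfEv_th] at hQ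
  have h1 := h _ hQ
  rw [← nfPs_th Q, h1, map_zero]

end ind

variable {k S : Type} [Field k] [CommRing S] [IsDomain S] [Algebra k S] {R : Subalgebra k S} {u : R}
  {f : R[X]} {v x y : S}

/-- the residue map of `R` -/
theorem nf_res (h : Fr R u) : ∃ ρR : R →+* k, (∀ c : k, ρR (algebraMap k R c) = c) ∧ ρR u = 0 ∧
    ∀ r : R, ρR r = 0 → ∃ r' : R, r = u * r' := by
  set I : Ideal R := Ideal.span {u} with hI
  have hI1 : I ≠ ⊤ := by
    intro h1
    rw [hI, Ideal.span_singleton_eq_top] at h1
    exact h.prime.not_isUnit (h1.map (R.val : R →+* S))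
  haveI : Nontrivial (R ⧸ I) := Ideal.Quotient.nontrivial_iff.2 hI1
  have hb : Function.Bijective (algebraMap k (R ⧸ I)) := by
    refine ⟨(algebraMap k (R ⧸ I)).injective, fun z => ?_⟩
    obtain ⟨r, rfl⟩ := Ideal.Quotient.mk_surjective z
    obtain ⟨c, r', hr⟩ := h.res r
    refine ⟨c, ?_⟩
    have h2 : Ideal.Quotient.mk I u = 0 :=
      Ideal.Quotient.eq_zero_iff_mem.2 (Ideal.mem_span_singleton_self u)
    rw [hr, map_add, map_mul, h2, zero_mul, add_zero]
    rfl
  set E := RingEquiv.ofBijective (algebraMap k (R ⧸ I)) hb with hE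
  refine ⟨(E.symm : (R ⧸ I) →+* k).comp (Ideal.Quotient.mk I), fun c => ?_, ?_, fun r hr => ?_⟩
  · change E.symm (Ideal.Quotient.mk I (algebraMap k R c)) = c
    rw [RingEquiv.symm_apply_eq]
    rfl
  · change E.symm (Ideal.Quotient.mk I u) = 0
    rw [Ideal.Quotient.eq_zero_iff_mem.2 (Ideal.mem_span_singleton_self u), map_zero]
  · have h2 : Ideal.Quotient.mk I r = 0 := by
      have h3 : E.symm (Ideal.Quotient.mk I r) = 0 := hr
      rwa [RingEquiv.symm_apply_eq, map_zero] at h3
    obtain ⟨r', hr'⟩ := Ideal.mem_span_singleton.1 (Ideal.Quotient.eq_zero_iff_mem.1 h2)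
    exact ⟨r', hr'⟩

theorem nf_R_le : R ≤ Cx R v x y := by
  intro r hr
  change r ∈ Algebra.adjoin R {v, x, y}
  exact Subalgebra.algebraMap_mem (Algebra.adjoin R {v, x, y}) (⟨r, hr⟩ : R)

/-- the two residue rings, with the presentation of `C / u C` over `k` -/
theorem red_exists (hE : Env R u f v x y) :
    ∃ (R0 : Type) (_ : CommRing R0) (_ : IsDomain R0) (_ : Algebra k R0) (T : Type) (_ : CommRing T)
      (_ : IsDomain T) (_ : Algebra k T) (ρ : Cx R v x y →ₐ[k] R0) (σ : S →ₐ[k] T)
      (π : R0 →ₐ[k] T) (f0 : k[X]), Red u (Cx R v x y) ρ σ π ∧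
      (∀ i, (u : S) ∣ ((f.coeff i : R) : S) - algebraMap k S (f0.coeff i)) ∧
      f0.natDegree = f.natDegree ∧
      (∀ v' x' y' : Cx R v x y, (v' : S) = v → (x' : S) = x → (y' : S) = y →
        Pres f0 (ρ v') (ρ x') (ρ y') ∧ Algebra.adjoin k {ρ v', ρ x', ρ y'} = ⊤) := by
  classical
  obtain ⟨ρR, hρc, hρu, hρk⟩ := nf_res hE.fr
  have hu := hE.fr.prime
  letI : Algebra R (Cx R v x y) := (Subalgebra.inclusion (nf_R_le (v := v) (x := x) (y := y))).toRingHom.toAlgebra
  let ι : Cx R v x y →ₐ[R] S :=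
    { (Cx R v x y).val.toRingHom with commutes' := fun r => rfl }
  have hι : ∀ c : Cx R v x y, ι c = (c : S) := fun c => rfl
  have hιi : Function.Injective ι := fun a b h => Subtype.ext h
  have hmem : ∀ z ∈ ({v, x, y} : Set S), z ∈ Cx R v x y := fun z hz =>
    (Algebra.subset_adjoin hz : z ∈ Algebra.adjoin R {v, x, y})
  let vC : Cx R v x y := ⟨v, hmem v (by simp)⟩
  let xC : Cx R v x y := ⟨x, hmem x (by simp)⟩
  let yC : Cx R v x y := ⟨y, hmem y (by simp)⟩
  have hg : Algebra.adjoin R ({vC, xC, yC} : Set (Cx R v x y)) = ⊤ := by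
    rw [eq_top_iff]
    intro c _
    have h1 : (Algebra.adjoin R ({vC, xC, yC} : Set (Cx R v x y))).map ι =
        Algebra.adjoin R {v, x, y} := by
      rw [AlgHom.map_adjoin]
      congr 1
      rw [Set.image_insert_eq, Set.image_insert_eq, Set.image_singleton]
      rfl
    have h2 : ι c ∈ (Algebra.adjoin R ({vC, xC, yC} : Set (Cx R v x y))).map ι := by
      rw [h1]
      exact c.2
    obtain ⟨c', hc', h3⟩ := h2
    rw [← hιi h3]
    exact hc'
  have hβ : 2 ≤ f.natDegree := hE.pres.deg
  have hR : Bas.Rl f f.natDegree vC xC yC :=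
    { pos := by omega
      monic := hE.pres.monic
      deg := rfl
      rel := by
        apply hιi
        rw [map_mul, ← aeval_algHom_apply]
        exact hE.pres.rel }
  have hi : Bas.Ind R vC xC := by
    intro P hP
    apply nf_ind_of_alg hE.pres.ind
    have h1 := congrArg (ι : Cx R v x y →+* S) hP
    rw [hom_eval₂, map_zero] at h1
    have h2 : (ι : Cx R v x y →+* S).comp (aeval vC : R[X] →ₐ[R] Cx R v x y).toRingHom =
        (aeval v : R[X] →ₐ[R] S).toRingHom := by
      refine RingHom.ext fun p => ?_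
      change ι (aeval vC p) = aeval v p
      rw [← aeval_algHom_apply]
      rfl
    rw [h2] at h1
    exact h1
  have hF : Bas.Free R f.natDegree vC xC yC := Bas.free_of_ind hR hi
  let uC : Cx R v x y := algebraMap R (Cx R v x y) u
  let π1 : Cx R v x y →ₐ[k] (Cx R v x y ⧸ Ideal.span {uC}) := Ideal.Quotient.mkₐ k _
  have hπs : Function.Surjective π1 := Ideal.Quotient.mkₐ_surjective k _
  have hπk : ∀ c, π1 c = 0 → ∃ d, c = uC * d := by
    intro c hc
    obtain ⟨d, hd⟩ := Ideal.mem_span_singleton.1 (Ideal.Quotient.eq_zero_iff_mem.1 hc)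
    exact ⟨d, hd⟩
  have hπu : π1 uC = 0 :=
    Ideal.Quotient.eq_zero_iff_mem.2 (Ideal.mem_span_singleton_self uC)
  let πr : Cx R v x y →+* (Cx R v x y ⧸ Ideal.span {uC}) := Ideal.Quotient.mk _
  have hc : ∀ r : R, πr (algebraMap R (Cx R v x y) r) =
      algebraMap k (Cx R v x y ⧸ Ideal.span {uC}) (ρR r) := by
    intro r
    obtain ⟨r', hr'⟩ := hρk (r - algebraMap k R (ρR r)) (by rw [map_sub, hρc, sub_self])
    have h1 : r = algebraMap k R (ρR r) + u * r' := by rw [← hr']; ring
    have h2 : algebraMap R (Cx R v x y) r = algebraMap k (Cx R v x y) (ρR r) +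
        uC * algebraMap R (Cx R v x y) r' := by
      conv_lhs => rw [h1]
      rw [map_add, map_mul]
      rfl
    change π1 (algebraMap R (Cx R v x y) r) = _
    rw [h2, map_add, map_mul, hπu, zero_mul, add_zero, AlgHom.commutes]
  have hρs : Function.Surjective ρR := fun c => ⟨algebraMap k R c, hρc c⟩
  have hR0 := Bas.rl_quo hR ρR πr hc
  have hF0 := Bas.free_quo hR hF hg ρR πr hc hρs hρu hπk
  have hg0 := Bas.adjoin_quo hg ρR πr hc hπs
  haveI : Nontrivial (Cx R v x y ⧸ Ideal.span {uC}) := Bas.nontrivial_of_free hF0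
  have hdom : IsDomain (Cx R v x y ⧸ Ideal.span {uC}) := Bas.isDomain hR0 hF0 hg0
  have hdT : IsDomain (S ⧸ Ideal.span {(u : S)}) :=
    (Ideal.Quotient.isDomain_iff_prime _).2 ((Ideal.span_singleton_prime hu.ne_zero).2 hu)
  let π : (Cx R v x y ⧸ Ideal.span {uC}) →ₐ[k] (S ⧸ Ideal.span {(u : S)}) :=
    Ideal.Quotient.liftₐ (Ideal.span {uC})
      ((Ideal.Quotient.mkₐ k (Ideal.span {(u : S)})).comp (Cx R v x y).val) (by
        intro a ha
        obtain ⟨d, hd⟩ := Ideal.mem_span_singleton.1 ha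
        refine Ideal.Quotient.eq_zero_iff_mem.2 (Ideal.mem_span_singleton.2 ⟨(d : S), ?_⟩)
        rw [hd]
        rfl)
  have hn : (f.map ρR).natDegree = f.natDegree := hE.pres.monic.natDegree_map ρR
  refine ⟨_, inferInstance, hdom, inferInstance, _, inferInstance, hdT, inferInstance, π1,
    Ideal.Quotient.mkₐ k (Ideal.span {(u : S)}), π, f.map ρR, ?_, ?_, hn, ?_⟩
  · refine ⟨hπs, ?_, Ideal.Quotient.mkₐ_surjective k _, ?_, ?_⟩
    · intro z
      constructor
      · intro hz
        obtain ⟨d, hd⟩ := hπk z hz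
        exact ⟨d, by rw [hd]; rfl⟩
      · rintro ⟨w, hw⟩
        have h1 : z = uC * w := Subtype.ext hw
        rw [h1, map_mul, hπu, zero_mul]
    · intro z
      constructor
      · intro hz
        exact Ideal.mem_span_singleton.1 (Ideal.Quotient.eq_zero_iff_mem.1 hz)
      · intro hz
        exact Ideal.Quotient.eq_zero_iff_mem.2 (Ideal.mem_span_singleton.2 hz)
    · intro z
      rfl
  · intro i
    obtain ⟨r', hr'⟩ := hρk (f.coeff i - algebraMap k R (ρR (f.coeff i)))
      (by rw [map_sub, hρc, sub_self])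
    refine ⟨(r' : S), ?_⟩
    rw [coeff_map]
    exact congrArg (fun r : R => (r : S)) hr'
  · intro v' x' y' hv hx hy
    have hv' : v' = vC := Subtype.ext hv
    have hx' : x' = xC := Subtype.ext hx
    have hy' : y' = yC := Subtype.ext hy
    subst hv' hx' hy'
    refine ⟨⟨hR0.monic, by rw [hn]; exact hβ, hR0.rel, ?_⟩, hg0⟩
    exact nf_alg_of_ind (Bas.ind_of_free hR0 hF0)

end Pool.Agent.LNDQ
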