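import Mathlib
import Pool.Agent.LNDQ.NNBuild
import Pool.Agent.LNDQ.NNdh
import Pool.Agent.LNDQ.ERbd
import Pool.Agent.LNDQ.NfRed
import Pool.Agent.LNDQ.NfCic
import Pool.Agent.LNDQ.NNmult

/-!
# Group NN: the final theorem (H/821812_Q1, section 2)
-/

set_option autoImplicit false

open Polynomial


namespace Pool.Agent.LNDQ

section

variable {k S : Type} [Field k] [CommRing S] [IsDomain S] [Algebra k S]
  {R : Subalgebra k S} {u : R} {f : R[X]} {v x y : S}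

/-- every residue ring is finitely generated and completely integrally closed -/
theorem Red.fg_cic (hE : Env R u f v x y) {R0 T : Type} [CommRing R0] [Algebra k R0]
    [CommRing T] [Algebra k T]
    {ρ : Cx R v x y →ₐ[k] R0} {σ : S →ₐ[k] T} {π : R0 →ₐ[k] T} (hR : Red u (Cx R v x y) ρ σ π) :
    (⊤ : Subalgebra k R0).FG ∧
      ∀ a b g : R0, b ≠ 0 → g ≠ 0 → (∀ M : ℕ, b ^ M ∣ g * a ^ M) → b ∣ a := by
  obtain ⟨R1, _, _, _, T1, _, _, _, ρ1, σ1, π1, f0, hR1, -, -, h1⟩ := red_exists hE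
  obtain ⟨φ, hφ⟩ := red_equiv ρ ρ1 hR.rs hR1.rs fun z => by rw [hR.rk, hR1.rk]
  have hv : v ∈ Cx R v x y := by
    change v ∈ Algebra.adjoin R {v, x, y}
    exact Algebra.subset_adjoin (by simp)
  have hx : x ∈ Cx R v x y := by
    change x ∈ Algebra.adjoin R {v, x, y}
    exact Algebra.subset_adjoin (by simp)
  have hy : y ∈ Cx R v x y := by
    change y ∈ Algebra.adjoin R {v, x, y}
    exact Algebra.subset_adjoin (by simp)
  obtain ⟨hP, hgen⟩ := h1 ⟨v, hv⟩ ⟨x, hx⟩ ⟨y, hy⟩ rfl rfl rfl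
  exact ⟨fg_equiv φ hgen, cic_equiv φ (cic hP hgen)⟩

/-- MULT over `JJ` -/
theorem mult_JJ (hE : Env R u f v x y) {N W W0 e : ℕ} {G : S}
    (hG : GD R u f.natDegree v x y N W W0 e G) (he : 2 ≤ e)
    {R0 T : Type} [CommRing R0] [IsDomain R0] [Algebra k R0] [CommRing T] [IsDomain T] [Algebra k T]
    {ρ : Cx R v x y →ₐ[k] R0} {σ : S →ₐ[k] T} {π : R0 →ₐ[k] T} (hR : Red u (Cx R v x y) ρ σ π)
    (q : R0) (hq : q ∉ JJ ((Cx R v x y).val : Cx R v x y →+* S) (ρ : Cx R v x y →+* R0)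
      ⟨(u : S), u_mem_Cx R u v x y⟩ 1) :
    q * ρ ⟨(u : S) ^ W * G, (divHyp_of hE hG).gam_mem⟩ ∉
      JJ ((Cx R v x y).val : Cx R v x y →+* S) (ρ : Cx R v x y →+* R0)
        ⟨(u : S), u_mem_Cx R u v x y⟩ 1 ^ W := by
  have hW : 0 < W := by have := hG.We; omega
  have hJ1 := mem_JJ_one hR (⟨(u : S), u_mem_Cx R u v x y⟩ : Cx R v x y) rfl
  have hker : JJ ((Cx R v x y).val : Cx R v x y →+* S) (ρ : Cx R v x y →+* R0)
      ⟨(u : S), u_mem_Cx R u v x y⟩ 1 = RingHom.ker (π : R0 →+* T) := by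
    ext z
    rw [hJ1, RingHom.mem_ker]
    rfl
  have F := factDat_env hE hG hW hR ((Cx R v x y).val : Cx R v x y →+* S) (fun z => rfl)
    (ρ : Cx R v x y →+* R0) (fun z => rfl)
  have hg0 : ρ ⟨(u : S) ^ W * G, (divHyp_of hE hG).gam_mem⟩ ≠ 0 := by
    intro h
    have h1 := F.uniq 1 0 0 ⟨0, by simp⟩ (by
      change _ * ρ ⟨(u : S) ^ W * G, (divHyp_of hE hG).gam_mem⟩ + _ = _
      rw [h, mul_zero, map_zero, zero_add, zero_mul])
    rw [map_one] at h1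
    exact one_ne_zero h1
  obtain ⟨R1, _, _, _, T1, _, _, _, ρ1, σ1, π1, f0, hR1, -, -, h1⟩ := red_exists hE
  obtain ⟨φ, hφ⟩ := red_equiv ρ ρ1 hR.rs hR1.rs fun z => by rw [hR.rk, hR1.rk]
  have hy : y ∈ Cx R v x y := by
    change y ∈ Algebra.adjoin R {v, x, y}
    exact Algebra.subset_adjoin (by simp)
  obtain ⟨hP, -⟩ := h1 ⟨v, NNm.cx_v⟩ ⟨x, NNm.cx_x⟩ ⟨y, hy⟩ rfl rfl rfl
  have hind : AlgebraicIndependent k
      ![ρ (⟨v, NNm.cx_v⟩ : Cx R v x y), ρ (⟨x, NNm.cx_x⟩ : Cx R v x y)] := by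
    have h2 := hP.ind.map' (f := (φ : R1 →ₐ[k] R0)) φ.injective
    have h3 : (⇑(φ : R1 →ₐ[k] R0) ∘ ![ρ1 (⟨v, NNm.cx_v⟩ : Cx R v x y), ρ1 (⟨x, NNm.cx_x⟩ : Cx R v x y)]) =
        ![ρ (⟨v, NNm.cx_v⟩ : Cx R v x y), ρ (⟨x, NNm.cx_x⟩ : Cx R v x y)] := by
      ext i
      fin_cases i
      · exact hφ _
      · exact hφ _
    rwa [h3] at h2
  rw [hker]
  exact NNm.nn_mult hE hR hG he _ rfl hg0 hind q fun h => hq ((hJ1 q).2 h)

theorem nn_main [CharZero k] (hE : Env R u f v x y) {N W W0 e : ℕ} {G : S}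
    (hG : GD R u f.natDegree v x y N W W0 e G) (he : 2 ≤ e) (E : Derivation k S S)
    (hu : ¬ (u : S) ∣ E u) (hnil : ∀ z : S, ∃ r : R, IsUnit r ∧ ∃ m, (⇑E)^[m] (r * z) = 0)
    {R0 T : Type} [CommRing R0] [IsDomain R0] [Algebra k R0] [CommRing T] [IsDomain T] [Algebra k T]
    {ρ : Cx R v x y →ₐ[k] R0} {σ : S →ₐ[k] T} {π : R0 →ₐ[k] T} (hR : Red u (Cx R v x y) ρ σ π) :
    ∃ Δ : Derivation k R0 R0, (∃ z, Δ z ≠ 0) ∧ (∀ z, ∃ n, (⇑Δ)^[n] z = 0) ∧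
      ((∃ z, z ≠ 0 ∧ Δ z = 0 ∧ π z = 0) ∨
        ∀ z, ∃ a b, Δ a = 0 ∧ Δ b = 0 ∧ π b ≠ 0 ∧ π (b * z) = π a) := by
  have hW : 0 < W := by have := hG.We; omega
  obtain ⟨hfg, hcic⟩ := hR.fg_cic hE
  exact nn_build hE.fr hW (divHyp_of hE hG) E hu (bdd_of_env hE E hu) hnil hR hfg hcic
    (fun q hq => mult_JJ hE hG he hR q hq)

end

end Pool.Agent.LNDQ
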