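import Mathlib
import Pool.Agent.R2F.Shape

/-!
# local nilpotency on the toric cover
-/

set_option autoImplicit false

open MvPolynomial

namespace Pool.Agent.LNDQ.RD

open Pool.Agent.R2F Pool.Agent.R2F.ShapeAux

variable {F : Type*} [Field F]

/-- all monomials `s^a t^c` of `z` have `a - c = i` modulo `b` -/
def Hw (b : ℕ) (i : ℤ) (z : P2 F) : Prop := ∀ m ∈ z.support, (b : ℤ) ∣ (m 0 : ℤ) - (m 1 : ℤ) - i

theorem Hw_mul {b : ℕ} {i j : ℤ} {z w : P2 F} (hz : Hw b i z) (hw : Hw b j w) :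
    Hw b (i + j) (z * w) := by
  classical
  intro m hm
  obtain ⟨m1, h1, m2, h2, rfl⟩ := Finset.mem_add.1 (MvPolynomial.support_mul z w hm)
  have e := dvd_add (hz m1 h1) (hw m2 h2)
  have e2 : (((m1 + m2) 0 : ℕ) : ℤ) - (((m1 + m2) 1 : ℕ) : ℤ) - (i + j) =
      ((m1 0 : ℤ) - (m1 1 : ℤ) - i) + ((m2 0 : ℤ) - (m2 1 : ℤ) - j) := by
    simp only [Finsupp.add_apply]; push_cast; ring
  rw [e2]; exact e

theorem Hw_one {b : ℕ} : Hw b 0 (1 : P2 F) := by
  classical
  intro m hm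
  have : m = 0 := by
    by_contra h
    rw [mem_support_iff, coeff_one, if_neg (Ne.symm h)] at hm
    exact hm rfl
  subst this
  simp

theorem Hw_pow {b : ℕ} {i : ℤ} {z : P2 F} (hz : Hw b i z) (n : ℕ) : Hw b (n * i) (z ^ n) := by
  induction n with
  | zero => simpa using Hw_one (F := F)
  | succ n ih =>
    have h := Hw_mul ih hz
    rw [← pow_succ] at h
    have e : (n : ℤ) * i + i = ((n + 1 : ℕ) : ℤ) * i := by push_cast; ring
    rwa [e] at h

theorem Hw_congr {b : ℕ} {i j : ℤ} (h : (b : ℤ) ∣ i - j) {z : P2 F} (hz : Hw b i z) : Hw b j z := by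
  intro m hm
  have e := dvd_add (hz m hm) h
  have e2 : (m 0 : ℤ) - (m 1 : ℤ) - j = ((m 0 : ℤ) - (m 1 : ℤ) - i) + (i - j) := by ring
  rw [e2]; exact e

theorem Hw_zero {b : ℕ} {i : ℤ} : Hw b i (0 : P2 F) := by
  intro m hm; simp at hm

theorem Hw_add {b : ℕ} {i : ℤ} {z w : P2 F} (hz : Hw b i z) (hw : Hw b i w) : Hw b i (z + w) := by
  classical
  intro m hm
  rcases Finset.mem_union.1 (MvPolynomial.support_add hm) with h | h
  · exact hz m h
  · exact hw m h

theorem Hw_X0 {b : ℕ} : Hw b 1 (X 0 : P2 F) := by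
  classical
  intro m hm
  rw [support_X, Finset.mem_singleton] at hm
  subst hm
  simp

theorem Hw_X1 {b : ℕ} : Hw b (-1) (X 1 : P2 F) := by
  classical
  intro m hm
  rw [support_X, Finset.mem_singleton] at hm
  subst hm
  simp

/-- exact degree -/
theorem deg_unique {D : Derivation F (P2 F) (P2 F)} [CharZero F] {x s t : P2 F} {a c : ℕ}
    (hx : T D a x s) (hs : s ≠ 0) (hy : T D c x t) (ht : t ≠ 0) : a = c := by
  have fac : ∀ m : ℕ, ((m.factorial : ℕ) : P2 F) ≠ 0 := fun m => by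
    exact_mod_cast (Nat.factorial_pos m).ne'
  have key : ∀ {a c : ℕ} {s t : P2 F}, T D a x s → T D c x t → t ≠ 0 → ¬ a < c := by
    intro a c s t hx hy ht h
    have h1 : (⇑D)^[c] x = 0 := LNDHom.iter_zero_of_le D hx.1 (by omega)
    rw [hy.2] at h1
    exact mul_ne_zero (fac c) ht h1
  exact le_antisymm (not_lt.1 (key hy hx hs)) (not_lt.1 (key hx hy ht))

theorem T_exists_loc [CharZero F] (D : Derivation F (P2 F) (P2 F)) {x : P2 F} (hx : x ≠ 0)
    (h : ∃ n, (⇑D)^[n] x = 0) : ∃ a t, T D a x t ∧ t ≠ 0 ∧ (⇑D)^[a] x ≠ 0 := by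
  obtain ⟨a, ha1, ha2⟩ := LNDHom.exists_top D hx h
  have hf : ((a.factorial : ℕ) : F) ≠ 0 := by exact_mod_cast (Nat.factorial_pos _).ne'
  have h1 : ((a.factorial : ℕ) : P2 F) * (C ((a.factorial : F)⁻¹) * (⇑D)^[a] x) = (⇑D)^[a] x := by
    rw [← mul_assoc, ← map_natCast (C : F →+* P2 F), ← C_mul, mul_inv_cancel₀ hf, C_1, one_mul]
  refine ⟨a, C ((a.factorial : F)⁻¹) * (⇑D)^[a] x, ⟨ha2, h1.symm⟩, ?_, ha1⟩
  intro h0
  rw [h0, mul_zero] at h1
  exact ha1 h1.symm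

/-- local nilpotency passes from the monomials of weight `0` to everything -/
theorem nil_step [CharZero F] {b : ℕ} (hb : 0 < b) (D : Derivation F (P2 F) (P2 F))
    (hT : ∀ z : P2 F, Hw b 0 z → ∃ n, (⇑D)^[n] z = 0)
    (hH : ∀ (i : ℤ) (z : P2 F), Hw b i z → Hw b i (D z)) (n : ℕ) :
    ∀ (i : ℤ) (z : P2 F), Hw b i z → (⇑D)^[n + 1] (z ^ b) = 0 → ∃ m, (⇑D)^[m] z = 0 := by
  induction n using Nat.strong_induction_on with
  | _ n ih =>
    intro i z hz hn
    by_cases h0 : D z = 0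
    · exact ⟨1, by simpa using h0⟩
    have hz0 : z ≠ 0 := by
      rintro rfl; exact h0 (map_zero D)
    have hzb : z ^ b ≠ 0 := pow_ne_zero _ hz0
    have hgb : (D z) ^ b ≠ 0 := pow_ne_zero _ h0
    have hwg : Hw b 0 ((D z) ^ b) := Hw_congr (i := b * i) (by simp) (Hw_pow (hH i z hz) b)
    have hD : D (z ^ b) = (b : P2 F) * (z ^ (b - 1) * D z) := by
      rw [Derivation.leibniz_pow]; simp [nsmul_eq_mul, smul_eq_mul]
    have hDne : D (z ^ b) ≠ 0 := by
      rw [hD]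
      refine mul_ne_zero (by exact_mod_cast hb.ne') (mul_ne_zero (pow_ne_zero _ hz0) h0)
    obtain ⟨a, tw, hTw, htw, haw⟩ := T_exists_loc D hzb ⟨n + 1, hn⟩
    obtain ⟨c, tg, hTg, htg, _⟩ := T_exists_loc D hgb (hT _ hwg)
    obtain ⟨a', td, hTd, htd, _⟩ := T_exists_loc D hDne ⟨n, by
      rw [← Function.iterate_succ_apply]; exact hn⟩
    have ha0 : a ≠ 0 := by
      rintro rfl
      exact hDne (by simpa using hTw.1)
    have han : a ≤ n := by
      by_contra hlt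
      exact haw (LNDHom.iter_zero_of_le D hn (by omega))
    have haa : a' + 1 = a := by
      have h1 : (⇑D)^[a' + 1] (z ^ b) ≠ 0 := by
        rw [Function.iterate_succ_apply, hTd.2]
        exact mul_ne_zero (by exact_mod_cast (Nat.factorial_pos _).ne') htd
      have h2 : (⇑D)^[a' + 1 + 1] (z ^ b) = 0 := by
        rw [Function.iterate_succ_apply]; exact hTd.1
      by_contra hne
      rcases lt_or_gt_of_ne hne with h | h
      · exact haw (LNDHom.iter_zero_of_le D h2 (by omega))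
      · exact h1 (LNDHom.iter_zero_of_le D hTw.1 (by omega))
    have e1 : (D (z ^ b)) ^ b = (C ((b : F) ^ b) * (z ^ b) ^ (b - 1)) * (D z) ^ b := by
      rw [hD, mul_pow, mul_pow, ← pow_mul, ← pow_mul, mul_comm (b - 1) b, mul_assoc, C_pow,
        map_natCast]
    have h1 : T D (b * a') ((D (z ^ b)) ^ b) (td ^ b) := T_pow hTd b
    have h2 : T D (0 + (b - 1) * a + c) ((C ((b : F) ^ b) * (z ^ b) ^ (b - 1)) * (D z) ^ b)
        ((C ((b : F) ^ b) * tw ^ (b - 1)) * tg) := T_mul (T_mul (T_C _) (T_pow hTw _)) hTg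
    rw [e1] at h1
    have h3 := deg_unique h1 (pow_ne_zero _ htd) h2 (mul_ne_zero (mul_ne_zero (by
      rw [Ne, C_eq_zero]; exact pow_ne_zero _ (by exact_mod_cast hb.ne')) (pow_ne_zero _ htw)) htg)
    have hca : c < a := by
      obtain ⟨b', rfl⟩ : ∃ b', b = b' + 1 := ⟨b - 1, by omega⟩
      simp only [Nat.add_sub_cancel] at h3
      subst haa
      have : (b' + 1) * a' = b' * (a' + 1) + c := by rw [h3]; ring
      nlinarith
    obtain ⟨m, hm⟩ := ih c (by omega) i (D z) (hH i z hz) hTg.1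
    exact ⟨m + 1, by rw [Function.iterate_succ_apply]; exact hm⟩

/-- products of nilpotent elements -/
theorem nil_mul (D : Derivation F (P2 F) (P2 F)) {x y : P2 F} (hx : ∃ n, (⇑D)^[n] x = 0)
    (hy : ∃ n, (⇑D)^[n] y = 0) : ∃ n, (⇑D)^[n] (x * y) = 0 := by
  obtain ⟨a, ha⟩ := hx
  obtain ⟨c, hc⟩ := hy
  exact ⟨a + c + 1, (LNDHom.iter_mul_top D (a + c) a c x y rfl
    (LNDHom.iter_zero_of_le D ha (by omega)) (LNDHom.iter_zero_of_le D hc (by omega))).2⟩

theorem iter_add' (D : Derivation F (P2 F) (P2 F)) (n : ℕ) (x y : P2 F) :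
    (⇑D)^[n] (x + y) = (⇑D)^[n] x + (⇑D)^[n] y := by
  induction n generalizing x y with
  | zero => rfl
  | succ n ih => rw [Function.iterate_succ_apply, map_add, ih]; rfl

theorem nil_add (D : Derivation F (P2 F) (P2 F)) {x y : P2 F} (hx : ∃ n, (⇑D)^[n] x = 0)
    (hy : ∃ n, (⇑D)^[n] y = 0) : ∃ n, (⇑D)^[n] (x + y) = 0 := by
  obtain ⟨a, ha⟩ := hx
  obtain ⟨c, hc⟩ := hy
  refine ⟨a + c, ?_⟩
  rw [iter_add', LNDHom.iter_zero_of_le D ha (by omega), LNDHom.iter_zero_of_le D hc (by omega),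
    add_zero]

theorem nil_all [CharZero F] {b : ℕ} (hb : 0 < b) (D : Derivation F (P2 F) (P2 F))
    (hT : ∀ z : P2 F, Hw b 0 z → ∃ n, (⇑D)^[n] z = 0)
    (hH : ∀ (i : ℤ) (z : P2 F), Hw b i z → Hw b i (D z)) (z : P2 F) : ∃ n, (⇑D)^[n] z = 0 := by
  have hg : ∀ (i : ℤ) (z : P2 F), Hw b i z → ∃ m, (⇑D)^[m] z = 0 := by
    intro i z hz
    have h1 : Hw b 0 (z ^ b) := Hw_congr (i := b * i) (by simp) (Hw_pow hz b)
    obtain ⟨n, hn⟩ := hT _ h1
    exact nil_step hb D hT hH n i z hz (LNDHom.iter_zero_of_le D hn (by omega))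
  induction z using MvPolynomial.induction_on with
  | C a => exact ⟨1, by
      have h : D (algebraMap F (P2 F) a) = 0 := D.map_algebraMap a
      rw [MvPolynomial.algebraMap_eq] at h
      simpa using h⟩
  | add p q hp hq => exact nil_add D hp hq
  | mul_X p i hp =>
    refine nil_mul D hp ?_
    rcases i with ⟨i, hi⟩
    interval_cases i
    · exact hg 1 _ Hw_X0
    · exact hg (-1) _ Hw_X1

end Pool.Agent.LNDQ.RD
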