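import Mathlib
import Pool.Agent.LNDQ.RDNil

/-!
# symbols of a surface `v y = f(x)` in the toric cover
-/

set_option autoImplicit false

open MvPolynomial

namespace Pool.Agent.LNDQ.RD

open Pool.Agent.R2F

/-- `σ : A → F[s,t]` sends `x^j v^n` to `(st)^j s^(bn)` and `x^j y^n` to `(st)^j t^(bn)`; its top components are multiplicative -/
structure Sg {F A : Type} [Field F] [CommRing A] [Algebra F A] (b : ℕ) (v x y : A)
    (σ : A →ₗ[F] P2 F) : Prop where
  inj : Function.Injective σ
  wt : ∀ z, Hw b 0 (σ z)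
  mv : ∀ n j, σ (v ^ n * x ^ j) = X 0 ^ (b * n + j) * X 1 ^ j
  my : ∀ n j, σ (y ^ n * x ^ j) = X 0 ^ j * X 1 ^ (b * n + j)
  mul : ∀ (w : Fin 2 → ℤ), (∀ i, 0 < w i) → ∀ (z z' : A) (N M : ℤ),
    (∀ d, N < d → weightedHomogeneousComponent w d (σ z) = 0) →
    (∀ d, M < d → weightedHomogeneousComponent w d (σ z') = 0) →
    (∀ d, N + M < d → weightedHomogeneousComponent w d (σ (z * z')) = 0) ∧
      weightedHomogeneousComponent w (N + M) (σ (z * z')) =
        weightedHomogeneousComponent w N (σ z) * weightedHomogeneousComponent w M (σ z')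

end Pool.Agent.LNDQ.RD
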