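import Mathlib
import Pool.Agent.LNDQ.Defs
import Pool.Agent.LNDQ.Cic
import Pool.Agent.LNDQ.RDSg
import Pool.Agent.LNDHom.Mv
import Pool.Agent.R2F.Shape

set_option autoImplicit false

open MvPolynomial

namespace Pool.Agent.LNDQ.RD

open Pool.Agent.R2F

variable {k : Type} [Field k]

/-- the weights `(w0, w1)` -/
def wt (w0 w1 : ℕ) : Fin 2 → ℤ := ![(w0 : ℤ), (w1 : ℤ)]

/-- all components of `P` of weight `> N` vanish -/
def Le (w : Fin 2 → ℤ) (N : ℤ) (P : P2 k) : Prop := ∀ d, N < d → weightedHomogeneousComponent w d P = 0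

/-- the size of `P` -/
noncomputable def sz (P : P2 k) : ℕ := degreeOf 0 P + degreeOf 1 P

/-- the leading part of `P` for the weights `(w0, 1)` is `c (s - l t^w0)^m` -/
structure Tp (b : ℕ) (w0 m : ℕ) (c l : k) (P : P2 k) : Prop where
  pw : 0 < w0
  pm : 0 < m
  c0 : c ≠ 0
  l0 : l ≠ 0
  dvd : b ∣ w0 + 1
  le : Le (wt w0 1) ((m * w0 : ℕ) : ℤ) P
  top : weightedHomogeneousComponent (wt w0 1) ((m * w0 : ℕ) : ℤ) P = C c * (X 0 - C l * X 1 ^ w0) ^ m

theorem wt_pos {w0 w1 : ℕ} (h0 : 0 < w0) (h1 : 0 < w1) (i : Fin 2) : 0 < wt w0 w1 i := by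
  fin_cases i
  · simp [wt]; exact h0
  · simp [wt]; exact h1

/-- exchange of the two variables -/
noncomputable def sw : P2 k →ₐ[k] P2 k := rename (Equiv.swap (0 : Fin 2) 1)

/-- every leading form of `F` is killed by some nonzero locally nilpotent derivation -/
def Lk (F : P2 k) : Prop := ∀ (w : Fin 2 → ℤ), (∀ i, 0 < w i) → ∀ N : ℤ, Le w N F →
  ∃ D' : Derivation k (P2 k) (P2 k), (∀ P, ∃ n, (⇑D')^[n] P = 0) ∧ (∃ P, D' P ≠ 0) ∧
    D' (weightedHomogeneousComponent w N F) = 0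

end Pool.Agent.LNDQ.RD
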