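import Mathlib
import Pool.Agent.LNDQ.RDDefs

/-!
# group RD: a kernel element whose symbol does not contain `t` is a polynomial in `v`
-/

set_option autoImplicit false

open MvPolynomial

namespace Pool.Agent.LNDQ.RD

open Pool.Agent.R2F Pool.Agent.LNDHom

variable {k A : Type} [Field k] [CommRing A] [Algebra k A]

/-- an element whose symbol does not contain `t` is a polynomial in `v` -/
theorem poly_of_deg {b : ℕ} {v x y : A} {σ : A →ₗ[k] P2 k} (S : Sg b v x y σ) {P : A}
    (hd : degreeOf 1 (σ P) = 0) : ∃ q : Polynomial k, P = Polynomial.aeval v q := by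
  classical
  have h1 : ∀ m ∈ (σ P).support, ∃ n : ℕ, m = Finsupp.single 0 (b * n) := by
    intro m hm
    have e1 : m 1 = 0 := by
      have := monomial_le_degreeOf 1 hm
      omega
    have e2 := S.wt P m hm
    rw [e1, Nat.cast_zero, sub_zero, sub_zero] at e2
    obtain ⟨n, hn⟩ : b ∣ m 0 := by exact_mod_cast e2
    refine ⟨n, ?_⟩
    ext i
    fin_cases i
    · simpa using hn
    · simpa using e1
  choose! n hn using h1
  refine ⟨∑ m ∈ (σ P).support, Polynomial.C (coeff m (σ P)) * Polynomial.X ^ (n m), ?_⟩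
  apply S.inj
  rw [map_sum, map_sum]
  conv_lhs => rw [(σ P).as_sum]
  refine Finset.sum_congr rfl fun m hm => ?_
  have e := S.mv (n m) 0
  rw [pow_zero, mul_one, pow_zero, mul_one, add_zero] at e
  rw [map_mul, map_pow, Polynomial.aeval_C, Polynomial.aeval_X, ← Algebra.smul_def, map_smul, e, X_pow_eq_monomial,
    ← hn m hm, smul_monomial, smul_eq_mul, mul_one]

/-- RDEnd.lean -/
theorem kills_of_deg [CharZero k] [IsDomain A] {v x y : A} {f : Polynomial k} (H : Pr0 v x y f)
    (hb : 2 ≤ f.natDegree) {σ : A →ₗ[k] P2 k} (S : Sg f.natDegree v x y σ) (Δ : Derivation k A A) {P : A}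
    (hP : Δ P = 0) (hc : ∀ c : k, P ≠ algebraMap k A c) (hd : degreeOf 1 (σ P) = 0) : Δ v = 0 := by
  obtain ⟨q, hq⟩ := poly_of_deg S hd
  have h3 : Polynomial.aeval v (Polynomial.derivative q) * Δ v = 0 := by
    rw [← hP, hq, Derivation.map_aeval, smul_eq_mul]
  refine (mul_eq_zero.1 h3).resolve_left fun h => ?_
  have ht : Transcendental k v := H.ind.transcendental 0
  have h4 := transcendental_iff.1 ht _ h
  have h5 := Polynomial.natDegree_eq_zero_of_derivative_eq_zero h4
  apply hc (q.coeff 0)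
  rw [hq, Polynomial.eq_C_of_natDegree_eq_zero h5, Polynomial.aeval_C, Polynomial.coeff_C_zero]

end Pool.Agent.LNDQ.RD
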