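import Mathlib
import Pool.Agent.LNDQ.RDDefs
import Pool.Agent.R2F.Lead

/-!
# lift of the leading part of a locally nilpotent derivation to the toric cover
-/

set_option autoImplicit false
set_option linter.unusedSectionVars false

open MvPolynomial

namespace Pool.Agent.LNDQ.RD

open Pool.Agent.R2F Pool.Agent.LNDHom

namespace LiftAux

variable {F A : Type} [Field F] [CommRing A] [IsDomain A] [Algebra F A] {b : ℕ} {v x y : A}
  {σ : A →ₗ[F] P2 F} {w : Fin 2 → ℤ}

theorem Le_mono {N M : ℤ} (h : N ≤ M) {p : P2 F} (hp : Le w N p) : Le w M p :=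
  fun d hd => hp d (lt_of_le_of_lt h hd)

theorem Le_add {N : ℤ} {p q : P2 F} (hp : Le w N p) (hq : Le w N q) : Le w N (p + q) := by
  intro d hd
  rw [map_add, hp d hd, hq d hd, add_zero]

theorem Le_smul {N : ℤ} {p : P2 F} (c : F) (hp : Le w N p) : Le w N (c • p) := by
  intro d hd
  rw [map_smul, hp d hd, smul_zero]

theorem comp_mono (i j : ℕ) (d : ℤ) (h : d ≠ i * w 0 + j * w 1) :
    weightedHomogeneousComponent w d ((X 0 : P2 F) ^ i * X 1 ^ j) = 0 := by
  have h1 : IsWeightedHomogeneous w ((X 0 : P2 F) ^ i * X 1 ^ j) (i • w 0 + j • w 1) :=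
    ((isWeightedHomogeneous_X F w 0).pow i).mul ((isWeightedHomogeneous_X F w 1).pow j)
  apply h1.weightedHomogeneousComponent_ne
  simpa using h

theorem comp_mono_same (i j : ℕ) :
    weightedHomogeneousComponent w (i * w 0 + j * w 1) ((X 0 : P2 F) ^ i * X 1 ^ j) =
      X 0 ^ i * X 1 ^ j := by
  have h1 : IsWeightedHomogeneous w ((X 0 : P2 F) ^ i * X 1 ^ j) (i • w 0 + j • w 1) :=
    ((isWeightedHomogeneous_X F w 0).pow i).mul ((isWeightedHomogeneous_X F w 1).pow j)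
  have := h1.weightedHomogeneousComponent_same
  simpa using this

/-- the key property of `z` and `N` -/
structure Good (σ : A →ₗ[F] P2 F) (w : Fin 2 → ℤ) (Del : Derivation F A A)
    (D' : Derivation F (P2 F) (P2 F)) (δ : ℤ) (z : A) (N : ℤ) : Prop where
  le : Le w N (σ z)
  led : Le w (N + δ) (σ (Del z))
  eq : weightedHomogeneousComponent w (N + δ) (σ (Del z)) =
    D' (weightedHomogeneousComponent w N (σ z))

variable {Del : Derivation F A A} {D' : Derivation F (P2 F) (P2 F)} {δ : ℤ}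

theorem Good.mono {z : A} {N M : ℤ} (h : Good σ w Del D' δ z N) (hNM : N ≤ M) :
    Good σ w Del D' δ z M := by
  refine ⟨Le_mono hNM h.le, Le_mono (by omega) h.led, ?_⟩
  rcases eq_or_lt_of_le hNM with rfl | hlt
  · exact h.eq
  · rw [h.led _ (by omega), h.le _ hlt, map_zero]

theorem Good.add {z z' : A} {N : ℤ} (h : Good σ w Del D' δ z N) (h' : Good σ w Del D' δ z' N) :
    Good σ w Del D' δ (z + z') N := by
  refine ⟨?_, ?_, ?_⟩
  · rw [map_add]; exact Le_add h.le h'.le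
  · rw [map_add, map_add]; exact Le_add h.led h'.led
  · rw [map_add, map_add, map_add, map_add, map_add, map_add, h.eq, h'.eq]

theorem Good.smul {z : A} {N : ℤ} (c : F) (h : Good σ w Del D' δ z N) :
    Good σ w Del D' δ (c • z) N := by
  refine ⟨?_, ?_, ?_⟩
  · rw [map_smul]; exact Le_smul c h.le
  · rw [Del.map_smul, map_smul]; exact Le_smul c h.led
  · rw [Del.map_smul, map_smul, map_smul, map_smul, map_smul, D'.map_smul, h.eq]

theorem Good.zero {N : ℤ} : Good σ w Del D' δ (0 : A) N := by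
  refine ⟨?_, ?_, ?_⟩
  · intro d _; rw [map_zero, map_zero]
  · intro d _; rw [map_zero, map_zero, map_zero]
  · simp only [map_zero]

theorem Good.sum {ι : Type*} (s : Finset ι) (g : ι → A) {N : ℤ}
    (h : ∀ i ∈ s, Good σ w Del D' δ (g i) N) : Good σ w Del D' δ (∑ i ∈ s, g i) N := by
  classical
  induction s using Finset.induction_on with
  | empty => simpa using Good.zero
  | insert a s ha ih =>
    rw [Finset.sum_insert ha]
    exact (h a (Finset.mem_insert_self a s)).add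
      (ih (fun i hi => h i (Finset.mem_insert_of_mem hi)))

theorem Good.mul (hs : Sg b v x y σ) (hw : ∀ i, 0 < w i) {z z' : A} {N M : ℤ}
    (h : Good σ w Del D' δ z N) (h' : Good σ w Del D' δ z' M) :
    Good σ w Del D' δ (z * z') (N + M) := by
  have h1 := hs.mul w hw z z' N M h.le h'.le
  have h2 := hs.mul w hw z (Del z') N (M + δ) h.le h'.led
  have h3 := hs.mul w hw z' (Del z) M (N + δ) h'.le h.led
  have e1 : N + (M + δ) = N + M + δ := by ring
  have e2 : M + (N + δ) = N + M + δ := by ring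
  rw [e1] at h2
  rw [e2] at h3
  refine ⟨h1.1, ?_, ?_⟩
  · rw [Derivation.leibniz, smul_eq_mul, smul_eq_mul, map_add]
    exact Le_add h2.1 h3.1
  · rw [Derivation.leibniz, smul_eq_mul, smul_eq_mul, map_add, map_add, h2.2, h3.2, h1.2,
      Derivation.leibniz, smul_eq_mul, smul_eq_mul, h.eq, h'.eq]

theorem Good.one (hs : Sg b v x y σ) : Good σ w Del D' δ (1 : A) 0 := by
  have h1 : σ 1 = 1 := by simpa using hs.mv 0 0
  have h0 : Del (1 : A) = 0 := Del.map_one_eq_zero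
  refine ⟨?_, ?_, ?_⟩
  · intro d hd
    rw [h1]
    have := comp_mono (F := F) (w := w) 0 0 d (by simp; omega)
    simpa using this
  · intro d _; rw [h0, map_zero, map_zero]
  · rw [h0, map_zero, map_zero, h1]
    have h2 := comp_mono_same (F := F) (w := w) 0 0
    have h3 : weightedHomogeneousComponent w 0 (1 : P2 F) = 1 := by simpa using h2
    rw [h3, D'.map_one_eq_zero]

theorem Good.pow (hs : Sg b v x y σ) (hw : ∀ i, 0 < w i) {z : A} {N : ℤ}
    (h : Good σ w Del D' δ z N) (n : ℕ) : Good σ w Del D' δ (z ^ n) (n * N) := by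
  induction n with
  | zero => simpa using Good.one hs
  | succ n ih =>
    have h1 := ih.mul hs hw h
    rw [← pow_succ] at h1
    have e : (n : ℤ) * N + N = ((n + 1 : ℕ) : ℤ) * N := by push_cast; ring
    rwa [e] at h1

/-- `z` is the sum of its basis elements -/
theorem exists_rep (hs : Sg b v x y σ) (z : A) : ∃ e : (Fin 2 →₀ ℕ) → A,
    (∀ m, e m = v ^ ((m 0 - m 1) / b) * x ^ (m 1) ∧ m 1 ≤ m 0 ∨
      e m = y ^ ((m 1 - m 0) / b) * x ^ (m 0) ∧ m 0 ≤ m 1) ∧
    (∀ m ∈ (σ z).support, σ (e m) = monomial m 1) ∧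
    z = ∑ m ∈ (σ z).support, coeff m (σ z) • e m := by
  classical
  refine ⟨fun m => if m 1 ≤ m 0 then v ^ ((m 0 - m 1) / b) * x ^ (m 1)
    else y ^ ((m 1 - m 0) / b) * x ^ (m 0), ?_, ?_, ?_⟩
  · intro m
    by_cases h : m 1 ≤ m 0
    · left; exact ⟨if_pos h, h⟩
    · right; exact ⟨if_neg h, by omega⟩
  · intro m hm
    have hd := hs.wt z m hm
    rw [sub_zero] at hd
    have hmon : (monomial m (1 : F)) = X 0 ^ (m 0) * X 1 ^ (m 1) := by
      rw [monomial_eq, C_1, one_mul, Finsupp.prod_fintype _ _ (fun i => pow_zero _)]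
      simp
    by_cases h : m 1 ≤ m 0
    · simp only [if_pos h]
      have hd' : b ∣ m 0 - m 1 := by
        have : ((m 0 - m 1 : ℕ) : ℤ) = (m 0 : ℤ) - (m 1 : ℤ) := by omega
        rw [← this] at hd
        exact_mod_cast hd
      rw [hs.mv, Nat.mul_div_cancel' hd', Nat.sub_add_cancel h, hmon]
    · simp only [if_neg h]
      have hd' : b ∣ m 1 - m 0 := by
        have : ((m 1 - m 0 : ℕ) : ℤ) = -((m 0 : ℤ) - (m 1 : ℤ)) := by omega
        have h2 := (dvd_neg (α := ℤ)).2 hd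
        rw [← this] at h2
        exact_mod_cast h2
      rw [hs.my, Nat.mul_div_cancel' hd', Nat.sub_add_cancel (by omega), hmon]
  · apply hs.inj
    rw [map_sum]
    conv_lhs => rw [(σ z).as_sum]
    refine Finset.sum_congr rfl (fun m hm => ?_)
    rw [map_smul]
    have hd := hs.wt z m hm
    rw [sub_zero] at hd
    have hmon : (monomial m (1 : F)) = X 0 ^ (m 0) * X 1 ^ (m 1) := by
      rw [monomial_eq, C_1, one_mul, Finsupp.prod_fintype _ _ (fun i => pow_zero _)]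
      simp
    have key : σ (if m 1 ≤ m 0 then v ^ ((m 0 - m 1) / b) * x ^ (m 1)
        else y ^ ((m 1 - m 0) / b) * x ^ (m 0)) = monomial m 1 := by
      by_cases h : m 1 ≤ m 0
      · simp only [if_pos h]
        have hd' : b ∣ m 0 - m 1 := by
          have : ((m 0 - m 1 : ℕ) : ℤ) = (m 0 : ℤ) - (m 1 : ℤ) := by omega
          rw [← this] at hd
          exact_mod_cast hd
        rw [hs.mv, Nat.mul_div_cancel' hd', Nat.sub_add_cancel h, hmon]
      · simp only [if_neg h]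
        have hd' : b ∣ m 1 - m 0 := by
          have : ((m 1 - m 0 : ℕ) : ℤ) = -((m 0 : ℤ) - (m 1 : ℤ)) := by omega
          have h2 := (dvd_neg (α := ℤ)).2 hd
          rw [← this] at h2
          exact_mod_cast h2
        rw [hs.my, Nat.mul_div_cancel' hd', Nat.sub_add_cancel (by omega), hmon]
    rw [key, smul_monomial, smul_eq_mul, mul_one]

theorem weight_le {N : ℤ} {p : P2 F} (hp : Le w N p) {m : Fin 2 →₀ ℕ} (hm : m ∈ p.support) :
    (m 0 : ℤ) * w 0 + (m 1 : ℤ) * w 1 ≤ N := by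
  classical
  by_contra h
  have h1 := hp _ (not_le.1 h)
  have h2 := congrArg (coeff m) h1
  rw [coeff_weightedHomogeneousComponent, coeff_zero, if_pos] at h2
  · exact (mem_support_iff.1 hm) h2
  · rw [Finsupp.weight_apply, Finsupp.sum_fintype _ _ (fun i => zero_smul ℕ (w i))]
    simp

/-- the claim for all elements -/
theorem good_all (hs : Sg b v x y σ) (hw : ∀ i, 0 < w i)
    (hv : Good σ w Del D' δ v (b * w 0)) (hx : Good σ w Del D' δ x (w 0 + w 1))
    (hy : Good σ w Del D' δ y (b * w 1)) {z : A} {N : ℤ} (hz : Le w N (σ z)) :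
    Good σ w Del D' δ z N := by
  obtain ⟨e, he, hse, hsum⟩ := exists_rep hs z
  rw [hsum]
  refine Good.sum _ _ (fun m hm => (Good.smul _ ?_))
  have hmN := weight_le hz hm
  have hd := hs.wt z m hm
  rw [sub_zero] at hd
  rcases he m with ⟨h1, h2⟩ | ⟨h1, h2⟩
  · have hd' : b ∣ m 0 - m 1 := by
      have : ((m 0 - m 1 : ℕ) : ℤ) = (m 0 : ℤ) - (m 1 : ℤ) := by omega
      rw [← this] at hd
      exact_mod_cast hd
    rw [h1]
    refine ((hv.pow hs hw _).mul hs hw (hx.pow hs hw _)).mono ?_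
    obtain ⟨q, hq⟩ := hd'
    rcases Nat.eq_zero_or_pos b with hb0 | hb0
    · subst hb0
      have : m 0 - m 1 = 0 := by simpa using hq
      have h3 : m 0 = m 1 := by omega
      rw [h3] at hmN ⊢
      simp
      nlinarith
    · have e2 : (m 0 - m 1) / b = q := by rw [hq]; exact Nat.mul_div_cancel_left _ hb0
      rw [e2]
      have e3 : (m 0 : ℤ) = m 1 + b * q := by
        have : m 0 = m 1 + b * q := by omega
        exact_mod_cast this
      rw [e3] at hmN
      nlinarith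
  · have hd' : b ∣ m 1 - m 0 := by
      have : ((m 1 - m 0 : ℕ) : ℤ) = -((m 0 : ℤ) - (m 1 : ℤ)) := by omega
      have h3 := (dvd_neg (α := ℤ)).2 hd
      rw [← this] at h3
      exact_mod_cast h3
    rw [h1]
    refine ((hy.pow hs hw _).mul hs hw (hx.pow hs hw _)).mono ?_
    obtain ⟨q, hq⟩ := hd'
    rcases Nat.eq_zero_or_pos b with hb0 | hb0
    · subst hb0
      have : m 1 - m 0 = 0 := by simpa using hq
      have h3 : m 1 = m 0 := by omega
      rw [h3] at hmN
      simp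
      nlinarith
    · have e2 : (m 1 - m 0) / b = q := by rw [hq]; exact Nat.mul_div_cancel_left _ hb0
      rw [e2]
      have e3 : (m 1 : ℤ) = m 0 + b * q := by
        have : m 1 = m 0 + b * q := by omega
        exact_mod_cast this
      rw [e3] at hmN
      nlinarith

theorem sig_v (hs : Sg b v x y σ) : σ v = X 0 ^ b := by simpa using hs.mv 1 0

theorem sig_x (hs : Sg b v x y σ) : σ x = X 0 * X 1 := by simpa using hs.mv 0 1

theorem sig_y (hs : Sg b v x y σ) : σ y = X 1 ^ b := by simpa using hs.my 1 0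

theorem comp_ext (i j : ℕ) (d : ℤ) (h : d = i * w 0 + j * w 1) :
    weightedHomogeneousComponent w d ((X 0 : P2 F) ^ i * X 1 ^ j) = X 0 ^ i * X 1 ^ j := by
  rw [h]; exact comp_mono_same i j

theorem le_mono (i j : ℕ) (d : ℤ) (h : i * w 0 + j * w 1 ≤ d) :
    Le w d ((X 0 : P2 F) ^ i * X 1 ^ j) :=
  fun e he => comp_mono i j e (by omega)

theorem sig_poly (hs : Sg b v x y σ) (hw : ∀ i, 0 < w i) (g : Polynomial F) (m : ℕ)
    (hm : g.natDegree ≤ m) : Le w (m * (w 0 + w 1)) (σ (Polynomial.aeval x g)) ∧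
      weightedHomogeneousComponent w (m * (w 0 + w 1)) (σ (Polynomial.aeval x g)) =
        C (g.coeff m) * (X 0 ^ m * X 1 ^ m) := by
  have h0 := hw 0
  have h1 := hw 1
  have e1 : σ (Polynomial.aeval x g) =
      ∑ j ∈ Finset.range (m + 1), g.coeff j • ((X 0 : P2 F) ^ j * X 1 ^ j) := by
    rw [Polynomial.aeval_eq_sum_range' (Nat.lt_succ_of_le hm), map_sum]
    refine Finset.sum_congr rfl (fun j _ => ?_)
    have h := hs.mv 0 j
    simp only [pow_zero, one_mul, mul_zero, zero_add] at h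
    rw [map_smul, h]
  constructor
  · intro d hd
    rw [e1, map_sum]
    refine Finset.sum_eq_zero (fun j hj => ?_)
    have hj' : (j : ℤ) ≤ m := by
      have := Finset.mem_range.1 hj
      omega
    rw [map_smul, comp_mono j j d (by nlinarith), smul_zero]
  · rw [e1, map_sum, Finset.sum_range_succ, Finset.sum_eq_zero, zero_add, map_smul,
      comp_ext m m _ (by ring), MvPolynomial.smul_eq_C_mul]
    intro j hj
    have hj' : (j : ℤ) < m := by
      have := Finset.mem_range.1 hj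
      omega
    rw [map_smul, comp_mono j j _ (by nlinarith), smul_zero]

theorem exists_shift' (w : Fin 2 → ℤ) (hw : ∀ i, 0 < w i) {ι : Type} [Finite ι] (p : ι → P2 F)
    (n : ι → ℤ) (h : ∃ i, p i ≠ 0) :
    ∃ δ : ℤ, (∀ i, Le w (n i + δ) (p i)) ∧ ∃ i, weightedHomogeneousComponent w (n i + δ) (p i) ≠ 0 := by
  have hb : ∀ i, ∃ t : ℤ, ∀ d, t < d → (mvGr F w hw).comp d (p i) = 0 := by
    intro i
    by_cases h : p i = 0
    · exact ⟨0, fun d _ => by rw [h, map_zero]⟩
    · obtain ⟨t, -, ht⟩ := (mvGr F w hw).exists_top h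
      exact ⟨t, ht⟩
  choose t ht using hb
  obtain ⟨B, hB⟩ := Finite.exists_le (fun i => t i - n i)
  obtain ⟨i₀, hi₀⟩ := h
  obtain ⟨e₀, he₀, -⟩ := (mvGr F w hw).exists_top hi₀
  obtain ⟨δ, ⟨i, hi⟩, hδ⟩ := Int.exists_greatest_of_bdd
    (P := fun e => ∃ i, (mvGr F w hw).comp (n i + e) (p i) ≠ 0)
    ⟨B, by
      rintro z ⟨i, hi⟩
      by_contra hz
      apply hi
      apply ht
      have := hB i
      omega⟩
    ⟨e₀ - n i₀, i₀, by rw [show n i₀ + (e₀ - n i₀) = e₀ by ring]; exact he₀⟩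
  refine ⟨δ, fun j d hd => ?_, i, hi⟩
  by_contra h
  have h1 := hδ (d - n j) ⟨j, by rw [show n j + (d - n j) = d by ring]; exact h⟩
  omega

theorem Hw_comp {i : ℤ} {p : P2 F} (hp : Hw b i p) (d : ℤ) :
    Hw b i (weightedHomogeneousComponent w d p) := by
  classical
  intro m hm
  rw [mem_support_iff, coeff_weightedHomogeneousComponent] at hm
  split_ifs at hm
  · exact hp m (mem_support_iff.2 hm)
  · exact absurd rfl hm

theorem Hw_of_mul {i : ℤ} (a c : ℕ) {p : P2 F} (hp : Hw b i ((X 0 : P2 F) ^ a * X 1 ^ c * p)) :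
    Hw b (i - a + c) p := by
  classical
  intro m hm
  have hmon : (X 0 : P2 F) ^ a * X 1 ^ c = monomial (Finsupp.single 0 a + Finsupp.single 1 c) 1 := by
    rw [X_pow_eq_monomial, X_pow_eq_monomial, monomial_mul, one_mul]
  rw [hmon] at hp
  have h1 := hp ((Finsupp.single 0 a + Finsupp.single 1 c) + m) (by
    rw [mem_support_iff, coeff_monomial_mul, one_mul]
    exact mem_support_iff.1 hm)
  have e : (m 0 : ℤ) - (m 1 : ℤ) - (i - a + c) =
      (((Finsupp.single 0 a + Finsupp.single 1 c + m : Fin 2 →₀ ℕ) 0 : ℕ) : ℤ) -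
        (((Finsupp.single 0 a + Finsupp.single 1 c + m : Fin 2 →₀ ℕ) 1 : ℕ) : ℤ) - i := by
    simp
    ring
  rw [e]; exact h1

theorem Hw_pderiv0 {i : ℤ} {p : P2 F} (hp : Hw b i p) : Hw b (i - 1) (pderiv 0 p) := by
  classical
  intro m hm
  rw [mem_support_iff, coeff_pderiv] at hm
  have h1 := hp _ (mem_support_iff.2 (left_ne_zero_of_mul hm))
  have e : (m 0 : ℤ) - (m 1 : ℤ) - (i - 1) =
      (((m + Finsupp.single 0 1 : Fin 2 →₀ ℕ) 0 : ℕ) : ℤ) -
        (((m + Finsupp.single 0 1 : Fin 2 →₀ ℕ) 1 : ℕ) : ℤ) - i := by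
    simp
    ring
  rw [e]; exact h1

theorem Hw_pderiv1 {i : ℤ} {p : P2 F} (hp : Hw b i p) : Hw b (i + 1) (pderiv 1 p) := by
  classical
  intro m hm
  rw [mem_support_iff, coeff_pderiv] at hm
  have h1 := hp _ (mem_support_iff.2 (left_ne_zero_of_mul hm))
  have e : (m 0 : ℤ) - (m 1 : ℤ) - (i + 1) =
      (((m + Finsupp.single 1 1 : Fin 2 →₀ ℕ) 0 : ℕ) : ℤ) -
        (((m + Finsupp.single 1 1 : Fin 2 →₀ ℕ) 1 : ℕ) : ℤ) - i := by
    simp
    ring
  rw [e]; exact h1

theorem Hw_der (D' : Derivation F (P2 F) (P2 F)) (h0 : Hw b 1 (D' (X 0))) (h1 : Hw b (-1) (D' (X 1)))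
    {i : ℤ} {p : P2 F} (hp : Hw b i p) : Hw b i (D' p) := by
  rw [LeadAux.der_eq]
  have e0 := Hw_mul h0 (Hw_pderiv0 hp)
  have e1 := Hw_mul h1 (Hw_pderiv1 hp)
  rw [show (1 : ℤ) + (i - 1) = i by ring] at e0
  rw [show (-1 : ℤ) + (i + 1) = i by ring] at e1
  exact Hw_add e0 e1

/-- the basis element with symbol `p` -/
theorem exists_pre (hs : Sg b v x y σ) {p : P2 F} (hp : Hw b 0 p) : ∃ z, σ z = p := by
  classical
  have h : ∀ m ∈ p.support, ∃ z, σ z = monomial m 1 := by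
    intro m hm
    have hd := hp m hm
    rw [sub_zero] at hd
    have hmon : (monomial m (1 : F)) = X 0 ^ (m 0) * X 1 ^ (m 1) := by
      rw [monomial_eq, C_1, one_mul, Finsupp.prod_fintype _ _ (fun i => pow_zero _)]
      simp
    by_cases h : m 1 ≤ m 0
    · have hd' : b ∣ m 0 - m 1 := by
        have : ((m 0 - m 1 : ℕ) : ℤ) = (m 0 : ℤ) - (m 1 : ℤ) := by omega
        rw [← this] at hd
        exact_mod_cast hd
      exact ⟨v ^ ((m 0 - m 1) / b) * x ^ (m 1), by
        rw [hs.mv, Nat.mul_div_cancel' hd', Nat.sub_add_cancel h, hmon]⟩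
    · have hd' : b ∣ m 1 - m 0 := by
        have : ((m 1 - m 0 : ℕ) : ℤ) = -((m 0 : ℤ) - (m 1 : ℤ)) := by omega
        have h2 := (dvd_neg (α := ℤ)).2 hd
        rw [← this] at h2
        exact_mod_cast h2
      exact ⟨y ^ ((m 1 - m 0) / b) * x ^ (m 0), by
        rw [hs.my, Nat.mul_div_cancel' hd', Nat.sub_add_cancel (by omega), hmon]⟩
  choose! z hz using h
  refine ⟨∑ m ∈ p.support, coeff m p • z m, ?_⟩
  rw [map_sum]
  conv_rhs => rw [p.as_sum]
  refine Finset.sum_congr rfl (fun m hm => ?_)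
  rw [map_smul, hz m hm, smul_monomial, smul_eq_mul, mul_one]

end LiftAux

open LiftAux in
theorem exists_liftF {F A : Type} [Field F] [CharZero F] [CommRing A] [IsDomain A] [Algebra F A]
    {b : ℕ} {v x y : A} {σ : A →ₗ[F] P2 F} (hs : Sg b v x y σ) (f : Polynomial F) (hf : f.Monic)
    (hfb : f.natDegree = b) (hb : 0 < b) (hrel : v * y = Polynomial.aeval x f)
    (hgen : Algebra.adjoin F {v, x, y} = ⊤)
    (w : Fin 2 → ℤ) (hw : ∀ i, 0 < w i) (Del : Derivation F A A) (hln : ∀ z, ∃ n, (⇑Del)^[n] z = 0)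
    (hD0 : ∃ z, Del z ≠ 0) :
    ∃ D' : Derivation F (P2 F) (P2 F), (∀ z, ∃ n, (⇑D')^[n] z = 0) ∧ (∃ z, D' z ≠ 0) ∧
      ∀ (P : A) (N : ℤ), Del P = 0 → (∀ d, N < d → weightedHomogeneousComponent w d (σ P) = 0) →
        D' (weightedHomogeneousComponent w N (σ P)) = 0 := by
  classical
  have hw0 := hw 0
  have hw1 := hw 1
  have hbF : (b : F) ≠ 0 := by exact_mod_cast hb.ne'
  -- a generator with nonzero derivative
  have hne : ∃ i : Fin 3, (![σ (Del v), σ (Del x), σ (Del y)] : Fin 3 → P2 F) i ≠ 0 := by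
    by_contra hcon
    push Not at hcon
    have h0 : Del v = 0 := hs.inj (by rw [map_zero]; exact hcon 0)
    have h1 : Del x = 0 := hs.inj (by rw [map_zero]; exact hcon 1)
    have h2 : Del y = 0 := hs.inj (by rw [map_zero]; exact hcon 2)
    obtain ⟨z, hz⟩ := hD0
    apply hz
    have hz' : z ∈ Algebra.adjoin F {v, x, y} := by rw [hgen]; trivial
    have key : ∀ a ∈ Algebra.adjoin F {v, x, y}, Del a = 0 := by
      intro a ha
      induction ha using Algebra.adjoin_induction with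
      | mem a ha =>
        rcases ha with rfl | rfl | rfl
        · exact h0
        · exact h1
        · exact h2
      | algebraMap r => exact Del.map_algebraMap r
      | add a c _ _ ha hc => rw [map_add, ha, hc, add_zero]
      | mul a c _ _ ha hc => rw [Derivation.leibniz, ha, hc, smul_zero, smul_zero, add_zero]
    exact key z hz'
  obtain ⟨δ, hδ, i₀, hi₀⟩ := exists_shift' w hw
    (![σ (Del v), σ (Del x), σ (Del y)] : Fin 3 → P2 F)
    (![b * w 0, w 0 + w 1, b * w 1] : Fin 3 → ℤ) hne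
  have hlv : Le w (b * w 0 + δ) (σ (Del v)) := hδ 0
  have hlx : Le w (w 0 + w 1 + δ) (σ (Del x)) := hδ 1
  have hly : Le w (b * w 1 + δ) (σ (Del y)) := hδ 2
  set a := weightedHomogeneousComponent w (b * w 0 + δ) (σ (Del v)) with ha
  set e := weightedHomogeneousComponent w (w 0 + w 1 + δ) (σ (Del x)) with he
  set c := weightedHomogeneousComponent w (b * w 1 + δ) (σ (Del y)) with hc
  have sv : σ v = X 0 ^ b * X 1 ^ 0 := by rw [sig_v hs]; simp
  have sx : σ x = X 0 ^ 1 * X 1 ^ 1 := by rw [sig_x hs]; simp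
  have sy : σ y = X 0 ^ 0 * X 1 ^ b := by rw [sig_y hs]; simp
  have lv : Le w (b * w 0) (σ v) := by rw [sv]; exact le_mono _ _ _ (by simp)
  have lx : Le w (w 0 + w 1) (σ x) := by rw [sx]; exact le_mono _ _ _ (by simp)
  have ly : Le w (b * w 1) (σ y) := by rw [sy]; exact le_mono _ _ _ (by simp)
  have cv : weightedHomogeneousComponent w (b * w 0) (σ v) = X 0 ^ b := by
    rw [sv, comp_ext _ _ _ (by simp)]; simp
  have cx : weightedHomogeneousComponent w (w 0 + w 1) (σ x) = X 0 * X 1 := by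
    rw [sx, comp_ext _ _ _ (by simp)]; simp
  have cy : weightedHomogeneousComponent w (b * w 1) (σ y) = X 1 ^ b := by
    rw [sy, comp_ext _ _ _ (by simp)]; simp
  -- the relation
  obtain ⟨b', rfl⟩ : ∃ b', b = b' + 1 := ⟨b - 1, by omega⟩
  have hfd : (Polynomial.derivative f).natDegree ≤ b' := by
    have := Polynomial.natDegree_derivative_le f
    omega
  have hfc : (Polynomial.derivative f).coeff b' = ((b' + 1 : ℕ) : F) := by
    rw [Polynomial.coeff_derivative]
    have : f.coeff (b' + 1) = 1 := by rw [← hfb]; exact hf.coeff_natDegree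
    rw [this]; push_cast; ring
  obtain ⟨hp1, hp2⟩ := sig_poly hs hw (Polynomial.derivative f) b' hfd
  have hrel2 : v * Del y + y * Del v = Polynomial.aeval x (Polynomial.derivative f) * Del x := by
    have h := congrArg Del hrel
    rw [Derivation.leibniz, smul_eq_mul, smul_eq_mul, Derivation.map_aeval, smul_eq_mul] at h
    exact h
  have m1 := (hs.mul w hw v (Del y) _ _ lv hly).2
  have m2 := (hs.mul w hw y (Del v) _ _ ly hlv).2
  have m3 := (hs.mul w hw _ (Del x) _ _ hp1 hlx).2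
  have e1 : ((b' + 1 : ℕ) : ℤ) * w 0 + (((b' + 1 : ℕ) : ℤ) * w 1 + δ) =
      (b' : ℤ) * (w 0 + w 1) + (w 0 + w 1 + δ) := by push_cast; ring
  have e2 : ((b' + 1 : ℕ) : ℤ) * w 1 + (((b' + 1 : ℕ) : ℤ) * w 0 + δ) =
      (b' : ℤ) * (w 0 + w 1) + (w 0 + w 1 + δ) := by push_cast; ring
  rw [e1] at m1
  rw [e2] at m2
  rw [cv] at m1
  rw [cy] at m2
  rw [hp2, hfc] at m3
  have hkey : (X 0 : P2 F) ^ (b' + 1) * c + X 1 ^ (b' + 1) * a =
      C ((b' + 1 : ℕ) : F) * (X 0 ^ b' * X 1 ^ b') * e := by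
    rw [← m1, ← m2, ← m3, ← map_add, ← map_add, hrel2]
  -- divisibility
  have hda : (X 0 : P2 F) ^ b' ∣ a := by
    have h1 : (X 0 : P2 F) ^ b' ∣ X 1 ^ (b' + 1) * a := by
      have h2 : (X 1 : P2 F) ^ (b' + 1) * a =
          C ((b' + 1 : ℕ) : F) * (X 0 ^ b' * X 1 ^ b') * e - X 0 ^ (b' + 1) * c := by
        rw [← hkey]; ring
      rw [h2]
      refine dvd_sub ⟨C ((b' + 1 : ℕ) : F) * X 1 ^ b' * e, by ring⟩ ⟨X 0 * c, by ring⟩
    exact (X_prime (R := F) (i := (0 : Fin 2))).pow_dvd_of_dvd_mul_left _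
      (ShapeAux.X_not_dvd (by decide) _) h1
  have hdc : (X 1 : P2 F) ^ b' ∣ c := by
    have h1 : (X 1 : P2 F) ^ b' ∣ X 0 ^ (b' + 1) * c := by
      have h2 : (X 0 : P2 F) ^ (b' + 1) * c =
          C ((b' + 1 : ℕ) : F) * (X 0 ^ b' * X 1 ^ b') * e - X 1 ^ (b' + 1) * a := by
        rw [← hkey]; ring
      rw [h2]
      refine dvd_sub ⟨C ((b' + 1 : ℕ) : F) * X 0 ^ b' * e, by ring⟩ ⟨X 1 * a, by ring⟩
    exact (X_prime (R := F) (i := (1 : Fin 2))).pow_dvd_of_dvd_mul_left _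
      (ShapeAux.X_not_dvd (by decide) _) h1
  obtain ⟨a1, ha1⟩ := hda
  obtain ⟨c1, hc1⟩ := hdc
  have hCb : (C ((b' + 1 : ℕ) : F) : P2 F) * C (((b' + 1 : ℕ) : F)⁻¹) = 1 := by
    rw [← C_mul, mul_inv_cancel₀ hbF, C_1]
  let D' : Derivation F (P2 F) (P2 F) :=
    mkDerivation F ![C (((b' + 1 : ℕ) : F)⁻¹) * a1, C (((b' + 1 : ℕ) : F)⁻¹) * c1]
  have hD'0 : D' (X 0) = C (((b' + 1 : ℕ) : F)⁻¹) * a1 := by
    simp [D', mkDerivation_X]
  have hD'1 : D' (X 1) = C (((b' + 1 : ℕ) : F)⁻¹) * c1 := by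
    simp [D', mkDerivation_X]
  have hcast : (((b' + 1 : ℕ) : P2 F)) = C ((b' + 1 : ℕ) : F) := by
    rw [map_natCast]
  have hD'v : D' (X 0 ^ (b' + 1)) = a := by
    rw [Derivation.leibniz_pow, hD'0, Nat.add_sub_cancel, nsmul_eq_mul, smul_eq_mul, hcast, ha1]
    calc C ((b' + 1 : ℕ) : F) * (X 0 ^ b' * (C (((b' + 1 : ℕ) : F)⁻¹) * a1))
        = (C ((b' + 1 : ℕ) : F) * C (((b' + 1 : ℕ) : F)⁻¹)) * (X 0 ^ b' * a1) := by ring
      _ = X 0 ^ b' * a1 := by rw [hCb, one_mul]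
  have hD'y : D' (X 1 ^ (b' + 1)) = c := by
    rw [Derivation.leibniz_pow, hD'1, Nat.add_sub_cancel, nsmul_eq_mul, smul_eq_mul, hcast, hc1]
    calc C ((b' + 1 : ℕ) : F) * (X 1 ^ b' * (C (((b' + 1 : ℕ) : F)⁻¹) * c1))
        = (C ((b' + 1 : ℕ) : F) * C (((b' + 1 : ℕ) : F)⁻¹)) * (X 1 ^ b' * c1) := by ring
      _ = X 1 ^ b' * c1 := by rw [hCb, one_mul]
  have hD'x : D' (X 0 * X 1) = e := by
    have hX0 : (X 0 : P2 F) ≠ 0 := X_ne_zero _
    have hX1 : (X 1 : P2 F) ≠ 0 := X_ne_zero _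
    have hCne : (C ((b' + 1 : ℕ) : F) : P2 F) ≠ 0 := by rw [Ne, C_eq_zero]; exact hbF
    have h2 : (C ((b' + 1 : ℕ) : F) * (X 0 ^ b' * X 1 ^ b') : P2 F) ≠ 0 :=
      mul_ne_zero hCne (mul_ne_zero (pow_ne_zero _ hX0) (pow_ne_zero _ hX1))
    apply mul_left_cancel₀ h2
    rw [← hkey, Derivation.leibniz, smul_eq_mul, smul_eq_mul, hD'0, hD'1, ha1, hc1]
    calc C ((b' + 1 : ℕ) : F) * (X 0 ^ b' * X 1 ^ b') *
          (X 0 * (C (((b' + 1 : ℕ) : F)⁻¹) * c1) + X 1 * (C (((b' + 1 : ℕ) : F)⁻¹) * a1))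
        = (C ((b' + 1 : ℕ) : F) * C (((b' + 1 : ℕ) : F)⁻¹)) *
          (X 0 ^ (b' + 1) * (X 1 ^ b' * c1) + X 1 ^ (b' + 1) * (X 0 ^ b' * a1)) := by ring
      _ = _ := by rw [hCb, one_mul]
  -- good
  have gv : Good σ w Del D' δ v (((b' + 1 : ℕ) : ℤ) * w 0) := ⟨lv, hlv, by rw [cv, hD'v]⟩
  have gx : Good σ w Del D' δ x (w 0 + w 1) := ⟨lx, hlx, by rw [cx, hD'x]⟩
  have gy : Good σ w Del D' δ y (((b' + 1 : ℕ) : ℤ) * w 1) := ⟨ly, hly, by rw [cy, hD'y]⟩
  have hgood : ∀ (z : A) (N : ℤ), Le w N (σ z) → Good σ w Del D' δ z N :=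
    fun z N hz => good_all hs hw gv gx gy hz
  have hiter : ∀ (N : ℤ) (z : A), Le w N (σ z) → ∀ n : ℕ,
      Le w (N + n * δ) (σ ((⇑Del)^[n] z)) ∧
        weightedHomogeneousComponent w (N + n * δ) (σ ((⇑Del)^[n] z)) =
          (⇑D')^[n] (weightedHomogeneousComponent w N (σ z)) := by
    intro N z hz n
    induction n with
    | zero => simpa using hz
    | succ n ih =>
      have h1 := hgood _ _ ih.1
      have e : N + ((n + 1 : ℕ) : ℤ) * δ = N + n * δ + δ := by push_cast; ring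
      rw [Function.iterate_succ_apply', Function.iterate_succ_apply', e]
      exact ⟨h1.led, by rw [h1.eq, ih.2]⟩
  have hwa : Hw (b' + 1) 0 a := Hw_comp (hs.wt _) _
  have hwc : Hw (b' + 1) 0 c := Hw_comp (hs.wt _) _
  have hHa : Hw (b' + 1) 1 a1 := by
    rw [ha1] at hwa
    have h := Hw_of_mul (i := 0) b' 0 (p := a1) (by simpa using hwa)
    exact Hw_congr ⟨-1, by push_cast; ring⟩ h
  have hHc : Hw (b' + 1) (-1) c1 := by
    rw [hc1] at hwc
    have h := Hw_of_mul (i := 0) 0 b' (p := c1) (by simpa using hwc)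
    exact Hw_congr ⟨1, by push_cast; ring⟩ h
  have hHC : ∀ (i : ℤ) (r : F) (p : P2 F), Hw (b' + 1) i p → Hw (b' + 1) i (C r * p) := by
    intro i r p hp m hm
    rw [mem_support_iff, coeff_C_mul] at hm
    exact hp m (mem_support_iff.2 (right_ne_zero_of_mul hm))
  have hH : ∀ (i : ℤ) (z : P2 F), Hw (b' + 1) i z → Hw (b' + 1) i (D' z) := fun i z hz =>
    Hw_der D' (by rw [hD'0]; exact hHC _ _ _ hHa) (by rw [hD'1]; exact hHC _ _ _ hHc) hz
  have hT : ∀ z : P2 F, Hw (b' + 1) 0 z → ∃ n, (⇑D')^[n] z = 0 := by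
    intro z hz
    obtain ⟨s, -, hsum⟩ := (mvGr F w hw).fin z
    have hn : ∀ d, ∃ n, (⇑D')^[n] ((mvGr F w hw).comp d z) = 0 := by
      intro d
      obtain ⟨z', hz'⟩ := exists_pre hs (Hw_comp hz d)
      obtain ⟨n, hn⟩ := hln z'
      have hself : weightedHomogeneousComponent w d (σ z') = σ z' := by
        rw [hz']; exact (mvGr F w hw).comp_self d z
      have hle : Le w d (σ z') := by
        intro d' hd'
        rw [hz']
        exact (mvGr F w hw).comp_ne d d' z (by omega)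
      refine ⟨n, ?_⟩
      have h1 := (hiter d z' hle n).2
      rw [hn, map_zero, map_zero, hself, hz'] at h1
      exact h1.symm
    choose n hn using hn
    refine ⟨s.sup n, ?_⟩
    rw [hsum, LeadAux.iter_sumZ]
    exact Finset.sum_eq_zero (fun d hd => LeadAux.iter_zeroZ D' (Finset.le_sup (f := n) hd) (hn d))
  refine ⟨D', nil_all (by omega) D' hT hH, ?_, ?_⟩
  · have h : ∀ i : Fin 3, weightedHomogeneousComponent w
        ((![((b' + 1 : ℕ) : ℤ) * w 0, w 0 + w 1, ((b' + 1 : ℕ) : ℤ) * w 1] : Fin 3 → ℤ) i + δ)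
        ((![σ (Del v), σ (Del x), σ (Del y)] : Fin 3 → P2 F) i) ≠ 0 → ∃ z, D' z ≠ 0 := by
      intro i hi
      rcases i with ⟨i, hi'⟩
      interval_cases i
      · exact ⟨X 0 ^ (b' + 1), by rw [hD'v]; exact hi⟩
      · exact ⟨X 0 * X 1, by rw [hD'x]; exact hi⟩
      · exact ⟨X 1 ^ (b' + 1), by rw [hD'y]; exact hi⟩
    exact h i₀ hi₀
  · intro P N hP hN
    have h1 := (hgood P N hN).eq
    rw [hP, map_zero, map_zero] at h1
    exact h1.symm

theorem exists_lift {k A : Type} [Field k] [CommRing A] [Algebra k A] [CharZero k] [IsDomain A]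
    {v x y : A} {f : Polynomial k} (H : Pr0 v x y f)
    (hb : 2 ≤ f.natDegree) {σ : A →ₗ[k] P2 k} (S : Sg f.natDegree v x y σ)
    (Δ : Derivation k A A) (hln : ∀ z, ∃ n, (⇑Δ)^[n] z = 0) (h0 : ∃ z, Δ z ≠ 0) (P : A) (hP : Δ P = 0) :
    Lk (σ P) := by
  intro w hw N hN
  obtain ⟨D', h1, h2, h3⟩ := exists_liftF S f H.monic rfl (by omega) H.rel H.gen w hw Δ hln h0
  exact ⟨D', h1, h2, h3 P N hP hN⟩

end Pool.Agent.LNDQ.RD
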