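import Mathlib
import Pool.Agent.LNDQ.RDDefs

/-! elementary moves of a presentation `v y = f(x)` (19) -/

set_option autoImplicit false

open MvPolynomial

namespace Pool.Agent.LNDQ.RD

open Pool.Agent.R2F Pool.Agent.LNDHom

variable {k A : Type} [Field k] [CommRing A] [Algebra k A]

theorem mvp_dvd (S : Subalgebra k A) {a b : A} (ha : a ∈ S) (hb : b ∈ S) (f : Polynomial k) :
    ∃ g ∈ S, Polynomial.aeval a f - Polynomial.aeval b f = (a - b) * g := by
  obtain ⟨g, hg⟩ := Polynomial.sub_dvd_eval_sub (⟨a, ha⟩ : S) ⟨b, hb⟩ (f.map (algebraMap k S))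
  refine ⟨g, g.2, ?_⟩
  have h := congrArg S.val hg
  rw [Polynomial.eval_map_algebraMap, Polynomial.eval_map_algebraMap, map_sub, map_mul, map_sub,
    ← Polynomial.aeval_algHom_apply, ← Polynomial.aeval_algHom_apply] at h
  exact h

theorem mvp_ind {y x : A} (h : AlgebraicIndependent k ![y, x]) (q : Polynomial k) :
    AlgebraicIndependent k ![y, x + y * Polynomial.aeval y q] := by
  have hc : (aeval ![y, x + y * Polynomial.aeval y q] : MvPolynomial (Fin 2) k →ₐ[k] A) =
      (aeval ![y, x]).comp (aeval ![X 0, X 1 + X 0 * Polynomial.aeval (X 0 : MvPolynomial (Fin 2) k) q]) := by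
    apply MvPolynomial.algHom_ext
    intro i
    fin_cases i
    · simp
    · simp [← Polynomial.aeval_algHom_apply]
  have hi : Function.Injective
      (aeval ![X 0, X 1 + X 0 * Polynomial.aeval (X 0 : MvPolynomial (Fin 2) k) q] :
        MvPolynomial (Fin 2) k →ₐ[k] MvPolynomial (Fin 2) k) := by
    apply Function.LeftInverse.injective
      (g := (aeval ![X 0, X 1 - X 0 * Polynomial.aeval (X 0 : MvPolynomial (Fin 2) k) q] :
        MvPolynomial (Fin 2) k →ₐ[k] MvPolynomial (Fin 2) k))
    intro p
    rw [← AlgHom.comp_apply]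
    have : ((aeval ![X 0, X 1 - X 0 * Polynomial.aeval (X 0 : MvPolynomial (Fin 2) k) q] :
        MvPolynomial (Fin 2) k →ₐ[k] MvPolynomial (Fin 2) k).comp
        (aeval ![X 0, X 1 + X 0 * Polynomial.aeval (X 0 : MvPolynomial (Fin 2) k) q])) =
        AlgHom.id k (MvPolynomial (Fin 2) k) := by
      apply MvPolynomial.algHom_ext
      intro i
      fin_cases i
      · simp
      · simp [← Polynomial.aeval_algHom_apply]
    rw [this]
    rfl
  show Function.Injective (aeval ![y, x + y * Polynomial.aeval y q] : MvPolynomial (Fin 2) k →ₐ[k] A)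
  rw [hc, AlgHom.coe_comp]
  exact Function.Injective.comp h hi

/-- RDMoveA.lean -/
theorem move_pr [IsDomain A] {v x y : A} {f : Polynomial k} (H : Pr0 v x y f) (q : Polynomial k) :
    ∃ v' : A, v' * y = Polynomial.aeval (x + y * Polynomial.aeval y q) f ∧
      Pr0 v' (x + y * Polynomial.aeval y q) y f := by
  obtain ⟨x', hx'⟩ : ∃ x', x' = x + y * Polynomial.aeval y q := ⟨_, rfl⟩
  rw [← hx']
  -- the subalgebra `k[x', y]`
  have hy : y ∈ Algebra.adjoin k ({x', y} : Set A) := Algebra.subset_adjoin (by simp)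
  have hx1 : x' ∈ Algebra.adjoin k ({x', y} : Set A) := Algebra.subset_adjoin (by simp)
  have hqy : Polynomial.aeval y q ∈ Algebra.adjoin k ({x', y} : Set A) :=
    Algebra.adjoin_mono (by simp : ({y} : Set A) ⊆ {x', y}) (Polynomial.aeval_mem_adjoin_singleton k y)
  have hx : x ∈ Algebra.adjoin k ({x', y} : Set A) := by
    have : x = x' - y * Polynomial.aeval y q := by rw [hx']; ring
    rw [this]
    exact sub_mem hx1 (mul_mem hy hqy)
  obtain ⟨g, hgS, hg⟩ := mvp_dvd (Algebra.adjoin k ({x', y} : Set A)) hx1 hx f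
  have hrel : (v + Polynomial.aeval y q * g) * y = Polynomial.aeval x' f := by
    have h1 : x' - x = y * Polynomial.aeval y q := by rw [hx']; ring
    rw [h1] at hg
    have h2 := H.rel
    linear_combination h2 - hg
  refine ⟨v + Polynomial.aeval y q * g, hrel, ?_⟩
  have hsub : Algebra.adjoin k ({x', y} : Set A) ≤
      Algebra.adjoin k ({y, x', v + Polynomial.aeval y q * g} : Set A) := by
    apply Algebra.adjoin_mono
    intro z hz
    simp only [Set.mem_insert_iff, Set.mem_singleton_iff] at hz ⊢
    tauto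
  have H2 : Pr0 y x' (v + Polynomial.aeval y q * g) f := by
    refine ⟨H.monic, by rw [mul_comm]; exact hrel, ?_, ?_⟩
    · rw [eq_top_iff, ← H.gen, Algebra.adjoin_le_iff]
      intro z hz
      simp only [Set.mem_insert_iff, Set.mem_singleton_iff] at hz
      rcases hz with rfl | rfl | rfl
      · have h1 : z = (z + Polynomial.aeval y q * g) - Polynomial.aeval y q * g := by ring
        have h2 : z + Polynomial.aeval y q * g ∈
            Algebra.adjoin k ({y, x', z + Polynomial.aeval y q * g} : Set A) :=
          Algebra.subset_adjoin (by simp)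
        have h3 := sub_mem h2 (hsub (mul_mem hqy hgS))
        rw [add_sub_cancel_right] at h3
        exact h3
      · exact hsub hx
      · exact hsub hy
    · rw [hx']
      exact mvp_ind H.swap.ind q
  exact H2.swap

end Pool.Agent.LNDQ.RD
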