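import Mathlib
import Pool.Agent.LNDQ.RDLift

/-!
# a move makes the Newton polygon smaller
-/

set_option autoImplicit false
set_option linter.unusedSectionVars false

open MvPolynomial

namespace Pool.Agent.LNDQ.RD

open Pool.Agent.R2F Pool.Agent.LNDHom LiftAux

namespace MoveAux

variable {F A : Type} [Field F] [CommRing A] [IsDomain A] [Algebra F A] {b : ℕ} {v x y v' x' : A}
  {σ σ' : A →ₗ[F] P2 F} {w : Fin 2 → ℤ} {φ : P2 F →ₐ[F] P2 F}

/-- the leading part of `σ' z` is the image of the leading part of `σ z` -/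
structure Gm (σ σ' : A →ₗ[F] P2 F) (w : Fin 2 → ℤ) (φ : P2 F →ₐ[F] P2 F) (z : A) (N : ℤ) :
    Prop where
  le : Le w N (σ z)
  led : Le w N (σ' z)
  eq : weightedHomogeneousComponent w N (σ' z) = φ (weightedHomogeneousComponent w N (σ z))

theorem Gm.mono {z : A} {N M : ℤ} (h : Gm σ σ' w φ z N) (hNM : N ≤ M) : Gm σ σ' w φ z M := by
  refine ⟨Le_mono hNM h.le, Le_mono hNM h.led, ?_⟩
  rcases eq_or_lt_of_le hNM with rfl | hlt
  · exact h.eq
  · rw [h.led _ hlt, h.le _ hlt, map_zero]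

theorem Gm.add {z z' : A} {N : ℤ} (h : Gm σ σ' w φ z N) (h' : Gm σ σ' w φ z' N) :
    Gm σ σ' w φ (z + z') N := by
  refine ⟨?_, ?_, ?_⟩
  · rw [map_add]; exact Le_add h.le h'.le
  · rw [map_add]; exact Le_add h.led h'.led
  · rw [map_add, map_add, map_add, map_add, map_add, h.eq, h'.eq]

theorem Gm.smul {z : A} {N : ℤ} (c : F) (h : Gm σ σ' w φ z N) : Gm σ σ' w φ (c • z) N := by
  refine ⟨?_, ?_, ?_⟩
  · rw [map_smul]; exact Le_smul c h.le
  · rw [map_smul]; exact Le_smul c h.led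
  · rw [map_smul, map_smul, map_smul, map_smul, map_smul, h.eq]

theorem Gm.zero {N : ℤ} : Gm σ σ' w φ (0 : A) N := by
  refine ⟨?_, ?_, ?_⟩
  · intro d _; rw [map_zero, map_zero]
  · intro d _; rw [map_zero, map_zero]
  · simp only [map_zero]

theorem Gm.sum {ι : Type*} (s : Finset ι) (g : ι → A) {N : ℤ}
    (h : ∀ i ∈ s, Gm σ σ' w φ (g i) N) : Gm σ σ' w φ (∑ i ∈ s, g i) N := by
  classical
  induction s using Finset.induction_on with
  | empty => simpa using Gm.zero
  | insert a s ha ih =>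
    rw [Finset.sum_insert ha]
    exact (h a (Finset.mem_insert_self a s)).add
      (ih (fun i hi => h i (Finset.mem_insert_of_mem hi)))

theorem Gm.mul (hs : Sg b v x y σ) (hs' : Sg b v' x' y σ') (hw : ∀ i, 0 < w i) {z z' : A}
    {N M : ℤ} (h : Gm σ σ' w φ z N) (h' : Gm σ σ' w φ z' M) : Gm σ σ' w φ (z * z') (N + M) := by
  have h1 := hs.mul w hw z z' N M h.le h'.le
  have h2 := hs'.mul w hw z z' N M h.led h'.led
  exact ⟨h1.1, h2.1, by rw [h2.2, h1.2, map_mul, h.eq, h'.eq]⟩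

theorem Gm.one (hs : Sg b v x y σ) (hs' : Sg b v' x' y σ') : Gm σ σ' w φ (1 : A) 0 := by
  have h1 : σ 1 = 1 := by simpa using hs.mv 0 0
  have h1' : σ' 1 = 1 := by simpa using hs'.mv 0 0
  have h0 : Le w 0 (1 : P2 F) := by
    intro d hd
    have := comp_mono (F := F) (w := w) 0 0 d (by simp; omega)
    simpa using this
  have h2 : weightedHomogeneousComponent w 0 (1 : P2 F) = 1 := by
    have := comp_mono_same (F := F) (w := w) 0 0
    simpa using this
  exact ⟨by rw [h1]; exact h0, by rw [h1']; exact h0, by rw [h1, h1', h2, map_one]⟩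

theorem Gm.pow (hs : Sg b v x y σ) (hs' : Sg b v' x' y σ') (hw : ∀ i, 0 < w i) {z : A} {N : ℤ}
    (h : Gm σ σ' w φ z N) (n : ℕ) : Gm σ σ' w φ (z ^ n) (n * N) := by
  induction n with
  | zero => simpa using Gm.one hs hs'
  | succ n ih =>
    have h1 := ih.mul hs hs' hw h
    rw [← pow_succ] at h1
    have e : (n : ℤ) * N + N = ((n + 1 : ℕ) : ℤ) * N := by push_cast; ring
    rwa [e] at h1

/-- the claim for all elements -/
theorem gm_all (hs : Sg b v x y σ) (hs' : Sg b v' x' y σ') (hw : ∀ i, 0 < w i)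
    (hv : Gm σ σ' w φ v (b * w 0)) (hx : Gm σ σ' w φ x (w 0 + w 1))
    (hy : Gm σ σ' w φ y (b * w 1)) {z : A} {N : ℤ} (hz : Le w N (σ z)) : Gm σ σ' w φ z N := by
  obtain ⟨e, he, hse, hsum⟩ := exists_rep hs z
  rw [hsum]
  refine Gm.sum _ _ (fun m hm => (Gm.smul _ ?_))
  have hmN := weight_le hz hm
  have hd := hs.wt z m hm
  rw [sub_zero] at hd
  rcases he m with ⟨h1, h2⟩ | ⟨h1, h2⟩
  · have hd' : b ∣ m 0 - m 1 := by
      have : ((m 0 - m 1 : ℕ) : ℤ) = (m 0 : ℤ) - (m 1 : ℤ) := by omega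
      rw [← this] at hd
      exact_mod_cast hd
    rw [h1]
    refine ((hv.pow hs hs' hw _).mul hs hs' hw (hx.pow hs hs' hw _)).mono ?_
    obtain ⟨q, hq⟩ := hd'
    rcases Nat.eq_zero_or_pos b with hb0 | hb0
    · subst hb0
      have : m 0 - m 1 = 0 := by simpa using hq
      have h3 : m 0 = m 1 := by omega
      rw [h3] at hmN ⊢
      simp
      nlinarith
    · have e2 : (m 0 - m 1) / b = q := by rw [hq]; exact Nat.mul_div_cancel_left _ hb0
      rw [e2]
      have e3 : (m 0 : ℤ) = m 1 + b * q := by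
        have : m 0 = m 1 + b * q := by omega
        exact_mod_cast this
      rw [e3] at hmN
      nlinarith
  · have hd' : b ∣ m 1 - m 0 := by
      have : ((m 1 - m 0 : ℕ) : ℤ) = -((m 0 : ℤ) - (m 1 : ℤ)) := by omega
      have h3 := (dvd_neg (α := ℤ)).2 hd
      rw [← this] at h3
      exact_mod_cast h3
    rw [h1]
    refine ((hy.pow hs hs' hw _).mul hs hs' hw (hx.pow hs hs' hw _)).mono ?_
    obtain ⟨q, hq⟩ := hd'
    rcases Nat.eq_zero_or_pos b with hb0 | hb0
    · subst hb0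
      have : m 1 - m 0 = 0 := by simpa using hq
      have h3 : m 1 = m 0 := by omega
      rw [h3] at hmN
      simp
      nlinarith
    · have e2 : (m 1 - m 0) / b = q := by rw [hq]; exact Nat.mul_div_cancel_left _ hb0
      rw [e2]
      have e3 : (m 1 : ℤ) = m 0 + b * q := by
        have : m 1 = m 0 + b * q := by omega
        exact_mod_cast this
      rw [e3] at hmN
      nlinarith

/-- the leading part of a polynomial in an element -/
theorem top_poly (hs' : Sg b v' x' y σ') (hw : ∀ i, 0 < w i) {z : A} {M : ℤ} {τ : P2 F}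
    (hM : 0 ≤ M) (h1 : Le w M (σ' z)) (h2 : weightedHomogeneousComponent w M (σ' z) = τ)
    (g : Polynomial F) (m : ℕ) (hm : g.natDegree ≤ m) :
    Le w (m * M) (σ' (Polynomial.aeval z g)) ∧
      (0 < M → weightedHomogeneousComponent w (m * M) (σ' (Polynomial.aeval z g)) =
        C (g.coeff m) * τ ^ m) := by
  have hp : ∀ j : ℕ, Le w (j * M) (σ' (z ^ j)) ∧
      weightedHomogeneousComponent w (j * M) (σ' (z ^ j)) = τ ^ j := by
    intro j
    induction j with
    | zero =>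
      have h3 : σ' 1 = 1 := by simpa using hs'.mv 0 0
      refine ⟨?_, ?_⟩
      · intro d hd
        have := comp_mono (F := F) (w := w) 0 0 d (by simp at hd ⊢; omega)
        simpa [h3] using this
      · have := comp_mono_same (F := F) (w := w) 0 0
        simpa [h3] using this
    | succ j ih =>
      have h3 := hs'.mul w hw (z ^ j) z (j * M) M ih.1 h1
      rw [← pow_succ] at h3
      have e : (j : ℤ) * M + M = ((j + 1 : ℕ) : ℤ) * M := by push_cast; ring
      rw [e] at h3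
      exact ⟨h3.1, by rw [h3.2, ih.2, h2, pow_succ]⟩
  have e1 : σ' (Polynomial.aeval z g) =
      ∑ j ∈ Finset.range (m + 1), g.coeff j • σ' (z ^ j) := by
    rw [Polynomial.aeval_eq_sum_range' (Nat.lt_succ_of_le hm), map_sum]
    exact Finset.sum_congr rfl (fun j _ => map_smul _ _ _)
  constructor
  · intro d hd
    rw [e1, map_sum]
    refine Finset.sum_eq_zero (fun j hj => ?_)
    have hj' : (j : ℤ) ≤ m := by
      have := Finset.mem_range.1 hj
      omega
    rw [map_smul, (hp j).1 d (by nlinarith), smul_zero]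
  · intro hM0
    rw [e1, map_sum, Finset.sum_range_succ, Finset.sum_eq_zero, zero_add, map_smul, (hp m).2,
      MvPolynomial.smul_eq_C_mul]
    intro j hj
    have hj' : (j : ℤ) < m := by
      have := Finset.mem_range.1 hj
      omega
    rw [map_smul, (hp j).1 _ (by nlinarith), smul_zero]

/-- the substitution -/
noncomputable def phi (F : Type) [Field F] (w0 : ℕ) (l : F) : P2 F →ₐ[F] P2 F :=
  aeval ![X 0 + C l * X 1 ^ w0, X 1]

theorem phi_X0 (w0 : ℕ) (l : F) : phi F w0 l (X 0) = X 0 + C l * X 1 ^ w0 := by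
  simp [phi]

theorem phi_X1 (w0 : ℕ) (l : F) : phi F w0 l (X 1) = X 1 := by
  simp [phi]

theorem phi_C (w0 : ℕ) (l c : F) : phi F w0 l (C c) = C c := by
  rw [phi, ← algebraMap_eq, AlgHom.commutes]

/-- the leading part of `v` -/
theorem gm_v {f : Polynomial F} (hf : f.Monic) (hrel : v * y = Polynomial.aeval x f)
    (hs : Sg f.natDegree v x y σ) (hs' : Sg f.natDegree v' x' y σ') {w0 : ℕ} (hw0 : 0 < w0) {l : F}
    (hx : Gm σ σ' (wt w0 1) (phi F w0 l) x (wt w0 1 0 + wt w0 1 1)) (hv0 : v ≠ 0) :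
    Gm σ σ' (wt w0 1) (phi F w0 l) v (f.natDegree * wt w0 1 0) := by
  set b := f.natDegree with hb
  have hw : ∀ i, 0 < wt w0 1 i := fun i => wt_pos hw0 one_pos i
  have e0 : wt w0 1 0 = (w0 : ℤ) := rfl
  have e1 : wt w0 1 1 = (1 : ℤ) := rfl
  have hle : Le (wt w0 1) (b * wt w0 1 0) (σ v) := by
    rw [sig_v hs]
    have := le_mono (F := F) (w := wt w0 1) b 0 (b * wt w0 1 0) (by simp)
    simpa using this
  have hcv : weightedHomogeneousComponent (wt w0 1) (b * wt w0 1 0) (σ v) = X 0 ^ b := by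
    rw [sig_v hs]
    have := comp_ext (F := F) (w := wt w0 1) b 0 (b * wt w0 1 0) (by simp)
    simpa using this
  have hcx : weightedHomogeneousComponent (wt w0 1) (wt w0 1 0 + wt w0 1 1) (σ x) = X 0 * X 1 := by
    rw [sig_x hs]
    have := comp_ext (F := F) (w := wt w0 1) 1 1 (wt w0 1 0 + wt w0 1 1) (by simp)
    simpa using this
  have h3 := top_poly hs' hw (by rw [e0, e1]; positivity) hx.led rfl f b le_rfl
  rw [← hrel] at h3
  obtain ⟨h3a, h3b⟩ := h3
  have h3b := h3b (by rw [e0, e1]; positivity)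
  rw [hx.eq, hcx, map_mul (phi F w0 l), phi_X0, phi_X1, hf.coeff_natDegree, C_1, one_mul] at h3b
  -- `y`
  have hy1 : Le (wt w0 1) (b : ℤ) (σ' y) := by
    rw [sig_y hs']
    have := le_mono (F := F) (w := wt w0 1) 0 b (b : ℤ) (by simp [e1])
    simpa using this
  have hy2 : weightedHomogeneousComponent (wt w0 1) (b : ℤ) (σ' y) = X 1 ^ b := by
    rw [sig_y hs']
    have := comp_ext (F := F) (w := wt w0 1) 0 b (b : ℤ) (by simp [e1])
    simpa using this
  have hσv : σ' v ≠ 0 := fun h => hv0 (hs'.inj (by rw [h, map_zero]))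
  obtain ⟨t, ht1, ht2⟩ := (mvGr F (wt w0 1) hw).exists_top hσv
  have ht1 : weightedHomogeneousComponent (wt w0 1) t (σ' v) ≠ 0 := ht1
  have ht2 : Le (wt w0 1) t (σ' v) := ht2
  have hX1 : (X 1 : P2 F) ^ b ≠ 0 := pow_ne_zero _ (X_ne_zero 1)
  have h4 := hs'.mul (wt w0 1) hw v y t b ht2 hy1
  have ht3 : t ≤ b * wt w0 1 0 := by
    by_contra hcon
    have h5 := h3a (t + b) (by rw [e1]; nlinarith)
    rw [h4.2, hy2] at h5
    exact mul_ne_zero ht1 hX1 h5
  have hled : Le (wt w0 1) (b * wt w0 1 0) (σ' v) := Le_mono ht3 ht2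
  refine ⟨hle, hled, ?_⟩
  have h6 := hs'.mul (wt w0 1) hw v y (b * wt w0 1 0) b hled hy1
  have e2 : (b : ℤ) * wt w0 1 0 + b = b * (wt w0 1 0 + wt w0 1 1) := by rw [e1]; ring
  rw [e2] at h6
  rw [hcv, map_pow, phi_X0]
  refine mul_right_cancel₀ hX1 ?_
  rw [← hy2, ← h6.2, h3b, hy2, mul_pow]

end MoveAux

open MoveAux

theorem move_sz {k A : Type} [Field k] [CommRing A] [Algebra k A] [CharZero k] [IsDomain A]
    {v x y : A} {f : Polynomial k} (H : Pr0 v x y f)
    (hb : 2 ≤ f.natDegree) {σ : A →ₗ[k] P2 k} (S : Sg f.natDegree v x y σ) {P : A} {w0 m : ℕ}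
    {c l : k} (T : Tp f.natDegree w0 m c l (σ P)) {v' x' : A} {σ' : A →ₗ[k] P2 k}
    (hx' : x' = x - l • y ^ ((w0 + 1) / f.natDegree)) (H' : Pr0 v' x' y f)
    (S' : Sg f.natDegree v' x' y σ') : sz (σ' P) < sz (σ P) := by
  classical
  set b := f.natDegree with hbd
  have hw : ∀ i, 0 < wt w0 1 i := fun i => wt_pos T.pw one_pos i
  have e0 : wt w0 1 0 = (w0 : ℤ) := rfl
  have e1 : wt w0 1 1 = (1 : ℤ) := rfl
  have hbn : b * ((w0 + 1) / b) = w0 + 1 := Nat.mul_div_cancel' T.dvd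
  have hv0 : v ≠ 0 := by
    intro h
    have h1 := S.mv 1 0
    rw [pow_one, pow_zero, mul_one, h, map_zero, pow_zero, mul_one, mul_one] at h1
    exact pow_ne_zero _ (X_ne_zero 0) h1.symm
  have hx : Gm σ σ' (wt w0 1) (phi k w0 l) x (wt w0 1 0 + wt w0 1 1) := by
    have hxx : x = x' + l • y ^ ((w0 + 1) / b) := by rw [hx']; ring
    have hsx : σ' x = X 0 ^ 1 * X 1 ^ 1 + C l * (X 0 ^ 0 * X 1 ^ (w0 + 1)) := by
      have h2 := S'.my ((w0 + 1) / b) 0
      rw [pow_zero, mul_one, pow_zero, one_mul, add_zero, hbn] at h2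
      rw [hxx, map_add, map_smul, sig_x S', h2, smul_eq_C_mul]
      ring
    have hc1 := comp_ext (F := k) (w := wt w0 1) 1 1 (wt w0 1 0 + wt w0 1 1) (by simp)
    have hc2 := comp_ext (F := k) (w := wt w0 1) 0 (w0 + 1) (wt w0 1 0 + wt w0 1 1)
      (by rw [e0, e1]; push_cast; ring)
    have hl1 := le_mono (F := k) (w := wt w0 1) 1 1 (wt w0 1 0 + wt w0 1 1) (by simp)
    have hl2 := le_mono (F := k) (w := wt w0 1) 0 (w0 + 1) (wt w0 1 0 + wt w0 1 1)
      (by rw [e0, e1]; push_cast; linarith)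
    refine ⟨?_, ?_, ?_⟩
    · rw [sig_x S]
      simpa using hl1
    · rw [hsx, ← smul_eq_C_mul]
      exact Le_add hl1 (Le_smul _ hl2)
    · rw [hsx, ← smul_eq_C_mul, map_add, map_smul, hc1, hc2, sig_x S]
      have hc3 : weightedHomogeneousComponent (wt w0 1) (wt w0 1 0 + wt w0 1 1)
          (X 0 * X 1 : P2 k) = X 0 * X 1 := by simpa using hc1
      rw [hc3, map_mul, phi_X0, phi_X1, smul_eq_C_mul]
      ring
  have hy : Gm σ σ' (wt w0 1) (phi k w0 l) y (b * wt w0 1 1) := by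
    have hc := comp_ext (F := k) (w := wt w0 1) 0 b (b * wt w0 1 1) (by simp)
    have hl := le_mono (F := k) (w := wt w0 1) 0 b (b * wt w0 1 1) (by simp)
    rw [pow_zero, one_mul] at hc hl
    refine ⟨?_, ?_, ?_⟩
    · rw [sig_y S]; exact hl
    · rw [sig_y S']; exact hl
    · rw [sig_y S, sig_y S', hc, map_pow, phi_X1]
  have hv := gm_v H.monic H.rel S S' T.pw hx hv0
  have hP := gm_all S S' hw hv hx hy T.le
  have htop : weightedHomogeneousComponent (wt w0 1) ((m * w0 : ℕ) : ℤ) (σ' P) = C c * X 0 ^ m := by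
    rw [hP.eq, T.top, map_mul, map_pow, map_sub, map_mul, map_pow, phi_X0, phi_X1, phi_C, phi_C,
      add_sub_cancel_right]
  -- lower bounds
  have hQ : ∀ i : Fin 2, degreeOf i (C c * (X 0 - C l * X 1 ^ w0) ^ m : P2 k) ≤
      degreeOf i (σ P) := by
    intro i
    rw [← T.top, degreeOf_le_iff]
    intro d hd
    refine monomial_le_degreeOf i ?_
    rw [mem_support_iff, coeff_weightedHomogeneousComponent] at hd
    rw [mem_support_iff]
    intro h0
    rw [h0] at hd
    simp at hd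
  have q0 : coeff (Finsupp.single 0 1) (X 0 - C l * X 1 ^ w0 : P2 k) = 1 := by
    rw [coeff_sub, coeff_C_mul, coeff_X_pow, coeff_X, if_pos rfl, if_neg, mul_zero, sub_zero]
    intro h
    have := DFunLike.congr_fun h 0
    simp at this
  have q1 : coeff (Finsupp.single 1 w0) (X 0 - C l * X 1 ^ w0 : P2 k) = -l := by
    rw [coeff_sub, coeff_C_mul, coeff_X_pow, if_pos rfl, mul_one, coeff_X, if_neg, zero_sub]
    intro h
    have := DFunLike.congr_fun h 0
    simp at this
  have hq0 : (X 0 - C l * X 1 ^ w0 : P2 k) ≠ 0 := by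
    intro h
    rw [h, coeff_zero] at q0
    exact one_ne_zero q0.symm
  have hCc : (C c : P2 k) ≠ 0 := by
    rw [Ne, C_eq_zero]
    exact T.c0
  have d0 : 1 ≤ degreeOf 0 (X 0 - C l * X 1 ^ w0 : P2 k) := by
    have := monomial_le_degreeOf (0 : Fin 2) (mem_support_iff.2 (by rw [q0]; exact one_ne_zero))
    simpa using this
  have d1 : w0 ≤ degreeOf 1 (X 0 - C l * X 1 ^ w0 : P2 k) := by
    have := monomial_le_degreeOf (1 : Fin 2)
      (mem_support_iff.2 (by rw [q1]; exact neg_ne_zero.2 T.l0))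
    simpa using this
  have hL0 : m ≤ degreeOf 0 (σ P) := by
    refine le_trans ?_ (hQ 0)
    rw [degreeOf_mul_eq hCc (pow_ne_zero _ hq0), degreeOf_pow_eq _ _ _ hq0, degreeOf_C, zero_add]
    nlinarith
  have hL1 : m * w0 ≤ degreeOf 1 (σ P) := by
    refine le_trans ?_ (hQ 1)
    rw [degreeOf_mul_eq hCc (pow_ne_zero _ hq0), degreeOf_pow_eq _ _ _ hq0, degreeOf_C, zero_add]
    exact Nat.mul_le_mul_left _ d1
  -- upper bounds
  have hU0 : degreeOf 0 (σ' P) ≤ m := by
    rw [degreeOf_le_iff]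
    intro d hd
    have h1 := weight_le hP.led hd
    rw [e0, e1] at h1
    have h2 : d 0 * w0 + d 1 ≤ m * w0 := by
      have h2' : ((d 0 * w0 + d 1 : ℕ) : ℤ) ≤ ((m * w0 : ℕ) : ℤ) := by
        push_cast at h1 ⊢
        linarith
      exact_mod_cast h2'
    have := T.pw
    by_contra hcon
    push Not at hcon
    nlinarith
  have hU1 : degreeOf 1 (σ' P) ≤ m * w0 - 1 := by
    rw [degreeOf_le_iff]
    intro d hd
    have h1 := weight_le hP.led hd
    rw [e0, e1] at h1
    have h2 : d 0 * w0 + d 1 ≤ m * w0 := by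
      have h2' : ((d 0 * w0 + d 1 : ℕ) : ℤ) ≤ ((m * w0 : ℕ) : ℤ) := by
        push_cast at h1 ⊢
        linarith
      exact_mod_cast h2'
    have hmw : 0 < m * w0 := Nat.mul_pos T.pm T.pw
    by_contra hcon
    push Not at hcon
    have h3 : d 1 = m * w0 := by omega
    have h4 : d 0 * w0 = 0 := by omega
    have h5 : d 0 = 0 := by
      rcases Nat.mul_eq_zero.1 h4 with h | h
      · exact h
      · exact absurd h T.pw.ne'
    have h6 := congrArg (coeff d) htop
    rw [coeff_weightedHomogeneousComponent, if_pos, coeff_C_mul, coeff_X_pow, if_neg, mul_zero] at h6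
    · exact (mem_support_iff.1 hd) h6
    · intro h
      have h7 := DFunLike.congr_fun h 0
      rw [h5] at h7
      simp at h7
      exact T.pm.ne' h7
    · rw [Finsupp.weight_apply, Finsupp.sum_fintype _ _ (fun i => zero_smul ℕ (wt w0 1 i))]
      simp only [Fin.sum_univ_two, e0, e1, h5, h3]
      simp
  have hmw : 0 < m * w0 := Nat.mul_pos T.pm T.pw
  unfold sz
  omega

end Pool.Agent.LNDQ.RD
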