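import Mathlib
import Pool.Agent.LNDHom.Induct
import Pool.Agent.LNDQ.Cic

/-!
# Kernels of locally nilpotent derivations of `v y = f(x)`

* `exists_nonconst`: a locally nilpotent derivation `D ≠ 0` of a domain of transcendence degree
  at least two has a constant outside the base field;
* `ker_eq`: if `D v = 0` then the kernel is `k[v]`.
-/

set_option autoImplicit false

open Polynomial

namespace Pool.Agent.LNDQ.RDFinA

variable {k A : Type*} [Field k] [CommRing A] [Algebra k A]

theorem iter_smul (D : Derivation k A A) (n : ℕ) (c : k) (y : A) :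
    (⇑D)^[n] (c • y) = c • (⇑D)^[n] y := by
  induction n with
  | zero => rfl
  | succ n ih => rw [Function.iterate_succ_apply', Function.iterate_succ_apply', ih, D.map_smul]

theorem iter_pow (D : Derivation k A A) {r : A} (hr : D r = 1) (n : ℕ) :
    (⇑D)^[n] (r ^ n) = (n.factorial : A) := by
  induction n with
  | zero => simp
  | succ n ih =>
    have h1 : D (r ^ (n + 1)) = ((n + 1 : ℕ) : k) • r ^ n := by
      rw [Derivation.leibniz_pow, hr, Nat.add_sub_cancel, smul_eq_mul, mul_one, nsmul_eq_mul,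
        Algebra.smul_def, map_natCast]
    rw [Function.iterate_succ_apply, h1, iter_smul, ih, Algebra.smul_def, map_natCast, Nat.factorial_succ,
      Nat.cast_mul]

theorem iter_sub (D : Derivation k A A) (n : ℕ) (x y : A) :
    (⇑D)^[n] (x - y) = (⇑D)^[n] x - (⇑D)^[n] y := by
  induction n with
  | zero => rfl
  | succ n ih => rw [Function.iterate_succ_apply', Function.iterate_succ_apply', ih, map_sub,
      Function.iterate_succ_apply']

/-- a locally nilpotent derivation with a slice and with constants in `k`: the ring is `k[r]` -/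
theorem mem_adjoin [CharZero k] (D : Derivation k A A) (hln : ∀ z, ∃ n, (⇑D)^[n] z = 0) {r : A}
    (hr : D r = 1) (hker : ∀ z, D z = 0 → ∃ a : k, algebraMap k A a = z) (z : A) :
    ∃ p : k[X], aeval r p = z := by
  have key : ∀ (n : ℕ) (z : A), (⇑D)^[n] z = 0 → ∃ p : k[X], aeval r p = z := by
    intro n
    induction n with
    | zero => exact fun z hz => ⟨0, by rw [map_zero]; exact hz.symm⟩
    | succ n ih =>
      intro z hz
      rw [Function.iterate_succ_apply'] at hz
      obtain ⟨a, ha⟩ := hker _ hz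
      have hf : ((n.factorial : ℕ) : k) ≠ 0 := by exact_mod_cast (Nat.factorial_pos n).ne'
      obtain ⟨p, hp⟩ := ih (z - (a / (n.factorial : k)) • r ^ n) (by
        rw [iter_sub, iter_smul, iter_pow D hr, ← ha, Algebra.smul_def, ← map_natCast (algebraMap k A),
          ← map_mul, div_mul_cancel₀ _ hf, sub_self])
      refine ⟨p + Polynomial.C (a / (n.factorial : k)) * Polynomial.X ^ n, ?_⟩
      rw [map_add, hp, map_mul, aeval_C, map_pow, aeval_X, Algebra.smul_def]
      ring
  obtain ⟨n, hn⟩ := hln z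
  exact key n z hn

/-- a nonconstant constant -/
theorem exists_nonconst [CharZero k] [IsDomain A] (D : Derivation k A A)
    (hln : ∀ z, ∃ n, (⇑D)^[n] z = 0) (hD : ∃ z, D z ≠ 0) {v x : A}
    (hvx : AlgebraicIndependent k ![v, x]) :
    ∃ P : A, D P = 0 ∧ ∀ a : k, algebraMap k A a ≠ P := by
  by_contra hcon
  have hker : ∀ z, D z = 0 → ∃ a : k, algebraMap k A a = z := by
    intro z hz
    by_contra h
    push Not at h
    exact hcon ⟨z, hz, h⟩
  obtain ⟨r, hr1, hr2⟩ := LNDHom.exists_deg D hln hD 1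
  have hr0 : D r ≠ 0 := by simpa using hr1
  have hrr : D (D r) = 0 := by simpa [Function.iterate_succ_apply] using hr2
  obtain ⟨c, hc⟩ := hker _ hrr
  have hc0 : c ≠ 0 := by
    rintro rfl
    exact hr0 (by rw [← hc, map_zero])
  have hs : D (c⁻¹ • r) = 1 := by
    rw [D.map_smul, ← hc, Algebra.smul_def, ← map_mul, inv_mul_cancel₀ hc0, map_one]
  have hsurj : Function.Surjective (aeval (R := k) (c⁻¹ • r)) := fun z => by
    obtain ⟨p, hp⟩ := mem_adjoin D hln hs hker z
    exact ⟨p, hp⟩
  have h1 := hvx.lift_cardinalMk_le_trdeg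
  have h2 := lift_trdeg_le_of_surjective (aeval (R := k) (c⁻¹ • r)) hsurj
  rw [Polynomial.trdeg_of_isDomain, Cardinal.lift_one, Cardinal.lift_le_one_iff] at h2
  have h3 := h1.trans (Cardinal.lift_le.2 h2)
  simp at h3

/-! ## The kernel of a derivation which kills `v` -/

/-- every element times a power of `v` is a polynomial in `v, x`, which is divisible by the same power
of `v` at the roots of `f` -/
theorem exists_rep {f : k[X]} {v x y : A} (hrel : v * y = aeval x f) {K : Type*} [Field K]
    [Algebra k K] {θ : K} (hθ : aeval θ f = 0) {z : A} (hz : z ∈ Algebra.adjoin k {v, x, y}) :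
    ∃ (L : ℕ) (g : MvPolynomial (Fin 2) k), v ^ L * z = MvPolynomial.aeval ![v, x] g ∧
      (X : K[X]) ^ L ∣ MvPolynomial.aeval ![(X : K[X]), Polynomial.C θ] g := by
  induction hz using Algebra.adjoin_induction with
  | mem z hz =>
    rcases hz with rfl | rfl | rfl
    · exact ⟨0, MvPolynomial.X 0, by simp, by simp⟩
    · exact ⟨0, MvPolynomial.X 1, by simp, by simp⟩
    · refine ⟨1, aeval (MvPolynomial.X 1 : MvPolynomial (Fin 2) k) f, ?_, ?_⟩
      · rw [pow_one, hrel, ← Polynomial.aeval_algHom_apply]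
        simp
      · rw [← Polynomial.aeval_algHom_apply]
        have h1 : MvPolynomial.aeval ![(X : K[X]), Polynomial.C θ]
            (MvPolynomial.X 1 : MvPolynomial (Fin 2) k) = algebraMap K K[X] θ := by simp
        rw [h1, Polynomial.aeval_algebraMap_apply, hθ, map_zero]
        exact dvd_zero _
  | algebraMap c => exact ⟨0, MvPolynomial.C c, by simp, by simp⟩
  | add a b _ _ ha hb =>
    obtain ⟨L, g, h1, h2⟩ := ha
    obtain ⟨L', g', h1', h2'⟩ := hb
    refine ⟨L + L', MvPolynomial.X 0 ^ L' * g + MvPolynomial.X 0 ^ L * g', ?_, ?_⟩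
    · simp only [map_add, map_mul, map_pow, MvPolynomial.aeval_X, Matrix.cons_val_zero, ← h1, ← h1']
      ring
    · simp only [map_add, map_mul, map_pow, MvPolynomial.aeval_X, Matrix.cons_val_zero]
      refine dvd_add ?_ ?_
      · rw [pow_add, mul_comm]
        exact mul_dvd_mul_left _ h2
      · rw [pow_add]
        exact mul_dvd_mul_left _ h2'
  | mul a b _ _ ha hb =>
    obtain ⟨L, g, h1, h2⟩ := ha
    obtain ⟨L', g', h1', h2'⟩ := hb
    refine ⟨L + L', g * g', ?_, ?_⟩
    · rw [map_mul, ← h1, ← h1']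
      ring
    · rw [map_mul, pow_add]
      exact mul_dvd_mul h2 h2'

/-- `v` is no unit modulo constants -/
theorem coeff_zero_of_dvd {k A : Type} [Field k] [CommRing A] [Algebra k A] {f : k[X]} {v x y : A} (hP : Pr0 v x y f) (hb : 2 ≤ f.natDegree)
    {z : A} (hz : z ∈ Algebra.adjoin k {v, x, y}) {h : k[X]} (hh : v * z = aeval v h) :
    h.coeff 0 = 0 := by
  have hdeg : f.degree ≠ 0 := by
    have h1 := hb
    intro h2
    rw [natDegree_eq_zero_iff_degree_le_zero.2 h2.le] at h1
    omega
  obtain ⟨θ, hθ⟩ := IsAlgClosed.exists_aeval_eq_zero (AlgebraicClosure k) f hdeg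
  obtain ⟨L, g, h1, h2⟩ := exists_rep hP.rel hθ hz
  have h3 : MvPolynomial.aeval ![v, x] (MvPolynomial.X 0 ^ L *
      aeval (MvPolynomial.X 0 : MvPolynomial (Fin 2) k) h) =
      MvPolynomial.aeval ![v, x] (MvPolynomial.X 0 * g) := by
    rw [map_mul, map_mul, map_pow, ← h1, ← Polynomial.aeval_algHom_apply]
    simp only [MvPolynomial.aeval_X, Matrix.cons_val_zero]
    rw [← hh]
    ring
  have h4 := hP.ind h3
  have h5 := congrArg (MvPolynomial.aeval ![(X : (AlgebraicClosure k)[X]), Polynomial.C θ]) h4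
  rw [map_mul, map_mul, map_pow, ← Polynomial.aeval_algHom_apply] at h5
  simp only [MvPolynomial.aeval_X, Matrix.cons_val_zero] at h5
  obtain ⟨m, hm⟩ := h2
  rw [hm] at h5
  have h6 : (X : (AlgebraicClosure k)[X]) ^ L * (aeval (X : (AlgebraicClosure k)[X]) h - X * m) = 0 := by
    rw [mul_sub, h5]
    ring
  rcases mul_eq_zero.1 h6 with h7 | h7
  · exact absurd h7 (pow_ne_zero _ X_ne_zero)
  · have h8 := congrArg (fun p => Polynomial.coeff p 0) (sub_eq_zero.1 h7)
    simp only [mul_coeff_zero, coeff_X_zero, zero_mul] at h8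
    rw [aeval_X_left_eq_map, coeff_map] at h8
    exact (map_eq_zero _).1 h8

/-- the derivative of a polynomial in `v, x`, if `v` is a constant -/
theorem der_aeval (D : Derivation k A A) {v x : A} (hv : D v = 0) (g : MvPolynomial (Fin 2) k) :
    D (MvPolynomial.aeval ![v, x] g) = MvPolynomial.aeval ![v, x] (MvPolynomial.pderiv 1 g) * D x := by
  induction g using MvPolynomial.induction_on with
  | C a => simp
  | add p q hp hq => simp only [map_add, hp, hq, add_mul]
  | mul_X p i hp =>
    rw [map_mul, Derivation.leibniz, Derivation.leibniz, hp, MvPolynomial.aeval_X]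
    fin_cases i
    · simp [hv, mul_assoc]
    · simp
      ring

/-- a polynomial with zero derivative in the second variable -/
theorem aeval_of_pderiv [CharZero k] {v x : A} {g : MvPolynomial (Fin 2) k}
    (hg : MvPolynomial.pderiv 1 g = 0) : ∃ q : k[X], MvPolynomial.aeval ![v, x] g = aeval v q := by
  have hvars : (1 : Fin 2) ∉ g.vars := by
    intro h
    obtain ⟨d, hd, hd1⟩ := (MvPolynomial.mem_vars_iff_mem_support 1).1 h
    have hd0 : d 1 ≠ 0 := Finsupp.mem_support_iff.1 hd1
    obtain ⟨m, rfl⟩ : ∃ m : Fin 2 →₀ ℕ, d = m + Finsupp.single 1 1 := by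
      refine ⟨d - Finsupp.single 1 1, (tsub_add_cancel_of_le ?_).symm⟩
      rw [Finsupp.single_le_iff]
      omega
    have h1 := MvPolynomial.coeff_pderiv (i := (1 : Fin 2)) g m
    rw [hg, MvPolynomial.coeff_zero] at h1
    have h2 : ((m 1 : k) + 1) ≠ 0 := Nat.cast_add_one_ne_zero (m 1)
    exact (MvPolynomial.mem_support_iff.1 hd) ((mul_eq_zero.1 h1.symm).resolve_right h2)
  refine ⟨MvPolynomial.aeval ![(X : k[X]), 0] g, ?_⟩
  have h1 : aeval v (MvPolynomial.aeval ![(X : k[X]), 0] g) =
      MvPolynomial.aeval ![v, (0 : A)] g := by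
    have h2 : (aeval v : k[X] →ₐ[k] A).comp (MvPolynomial.aeval ![(X : k[X]), 0]) =
        MvPolynomial.aeval ![v, (0 : A)] := by
      refine MvPolynomial.algHom_ext fun i => ?_
      fin_cases i <;> simp
    exact DFunLike.congr_fun h2 g
  rw [h1]
  refine MvPolynomial.eval₂Hom_congr' rfl (fun i hi _ => ?_) rfl
  fin_cases i
  · rfl
  · exact absurd hi hvars

/-- the kernel of a derivation which kills `v` is `k[v]` -/
theorem ker_sub {k R0 : Type} [Field k] [CommRing R0] [IsDomain R0] [Algebra k R0] {f : k[X]}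
    {v x y : R0} (hP : Pr0 v x y f) (hb : 2 ≤ f.natDegree) [CharZero k]
    (Δ : Derivation k R0 R0) (hne : ∃ z, Δ z ≠ 0) (hv : Δ v = 0)
    (z : R0) (hz : Δ z = 0) : ∃ q : k[X], z = aeval v q := by
  have hg := hP.gen
  have hv0 : v ≠ 0 := by
    intro h
    have h1 := hP.ind.ne_zero 0
    exact h1 (by simpa using h)
  -- `Δ x ≠ 0`
  have hx : Δ x ≠ 0 := by
    intro hx
    obtain ⟨z, hz⟩ := hne
    refine hz ?_
    have hy : Δ y = 0 := by
      have h1 : Δ (v * y) = Δ (aeval x f) := by rw [hP.rel]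
      rw [Derivation.leibniz, hv, smul_zero, add_zero, smul_eq_mul] at h1
      have h2 : Δ (aeval x f) = 0 := by
        rw [Polynomial.aeval_eq_sum_range, map_sum]
        refine Finset.sum_eq_zero fun i _ => ?_
        rw [Δ.map_smul, Derivation.leibniz_pow, hx, smul_zero, smul_zero, smul_zero]
      rw [h2] at h1
      exact (mul_eq_zero.1 h1).resolve_left hv0
    have hall : ∀ w ∈ Algebra.adjoin k {v, x, y}, Δ w = 0 := by
      intro w hw
      induction hw using Algebra.adjoin_induction with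
      | mem w hw => rcases hw with rfl | rfl | rfl <;> assumption
      | algebraMap c => exact Δ.map_algebraMap c
      | add a b _ _ ha hb => rw [map_add, ha, hb, add_zero]
      | mul a b _ _ ha hb => rw [Derivation.leibniz, ha, hb, smul_zero, smul_zero, add_zero]
    exact hall z (hg ▸ Algebra.mem_top)
  have hdeg : f.degree ≠ 0 := by
    have h1 := hb
    intro h2
    rw [natDegree_eq_zero_iff_degree_le_zero.2 h2.le] at h1
    omega
  obtain ⟨θ, hθ⟩ := IsAlgClosed.exists_aeval_eq_zero (AlgebraicClosure k) f hdeg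
  obtain ⟨L, g, h1, -⟩ := exists_rep hP.rel hθ (hg ▸ Algebra.mem_top : z ∈ Algebra.adjoin k {v, x, y})
  have hvL : Δ (v ^ L) = 0 := by rw [Derivation.leibniz_pow, hv, smul_zero, smul_zero]
  have h2 : Δ (MvPolynomial.aeval ![v, x] g) = 0 := by
    rw [← h1, Derivation.leibniz, hz, hvL, smul_zero, smul_zero, add_zero]
  rw [der_aeval Δ hv] at h2
  have h3 := (mul_eq_zero.1 h2).resolve_right hx
  have h4 : MvPolynomial.pderiv 1 g = 0 := hP.ind (by rw [h3, map_zero])
  obtain ⟨q, hq⟩ := aeval_of_pderiv (v := v) (x := x) h4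
  rw [← h1] at hq
  clear h1 h2 h3 h4 hvL
  induction L generalizing q with
  | zero => exact ⟨q, by simpa using hq⟩
  | succ L ih =>
    have h5 : v * (v ^ L * z) = aeval v q := by rw [← hq]; ring
    have h6 := coeff_zero_of_dvd hP hb (hg ▸ Algebra.mem_top) h5
    obtain ⟨q', hq'⟩ := X_dvd_iff.2 h6
    refine ih q' ?_
    rw [hq', map_mul, aeval_X] at h5
    exact mul_left_cancel₀ hv0 h5

end Pool.Agent.LNDQ.RDFinA

namespace Pool.Agent.LNDQ.RD

variable {k A : Type} [Field k] [CommRing A] [Algebra k A]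

theorem exists_nonconst [CharZero k] [IsDomain A] {v x y : A} {f : Polynomial k} (H : Pr0 v x y f)
    (Δ : Derivation k A A) (hln : ∀ z, ∃ n, (⇑Δ)^[n] z = 0) :
    ∃ P, Δ P = 0 ∧ ∀ c : k, P ≠ algebraMap k A c := by
  by_cases h0 : ∃ z, Δ z ≠ 0
  · obtain ⟨P, h1, h2⟩ := RDFinA.exists_nonconst Δ hln h0 H.ind
    exact ⟨P, h1, fun c h => h2 c h.symm⟩
  · push Not at h0
    refine ⟨v, h0 v, fun c hc => ?_⟩
    have h1 : Polynomial.C c = (Polynomial.X : Polynomial k) := by
      have h2 : Transcendental k v := by simpa using H.ind.transcendental 0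
      refine transcendental_iff_injective.1 h2 ?_
      rw [Polynomial.aeval_C, Polynomial.aeval_X, hc]
    exact Polynomial.X_ne_C c h1.symm

theorem ker_eq [CharZero k] [IsDomain A] {v x y : A} {f : Polynomial k} (H : Pr0 v x y f)
    (hb : 2 ≤ f.natDegree) (Δ : Derivation k A A) (h0 : ∃ z, Δ z ≠ 0) (hv : Δ v = 0) (z : A) :
    Δ z = 0 ↔ ∃ q : Polynomial k, z = Polynomial.aeval v q := by
  refine ⟨RDFinA.ker_sub H hb Δ h0 hv z, ?_⟩
  rintro ⟨q, rfl⟩
  rw [Polynomial.aeval_eq_sum_range, map_sum]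
  refine Finset.sum_eq_zero fun i _ => ?_
  rw [Δ.map_smul, Derivation.leibniz_pow, hv, smul_zero, smul_zero, smul_zero]

end Pool.Agent.LNDQ.RD

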