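import Mathlib
import Pool.Agent.LNDQ.Defs
import Pool.Agent.LNDQ.RDFinA

/-! RDNc: `RD.exists_nonconst` (in RDFinA), `RD.ker_eq0` and the `ker_eq` of the interface (62) -/

set_option autoImplicit false

namespace Pool.Agent.LNDQ

namespace RD

variable {k A : Type} [Field k] [CommRing A] [Algebra k A]

theorem ker_eq0 [CharZero k] [IsDomain A] {v x y : A} {f : Polynomial k} (H : Pr0 v x y f)
    (hb : 2 ≤ f.natDegree) (Δ : Derivation k A A) (h0 : ∃ z, Δ z ≠ 0) (hv : Δ v = 0) (z : A) (hz : Δ z = 0) :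
    ∃ q : Polynomial k, z = Polynomial.aeval v q :=
  RDFinA.ker_sub H hb Δ h0 hv z hz

end RD

open Polynomial

variable {k R0 : Type} [Field k] [CommRing R0] [IsDomain R0] [Algebra k R0] {f : k[X]} {v x y : R0}

/-- the kernel -/
theorem ker_eq (hP : Pres f v x y) (hg : Algebra.adjoin k {v, x, y} = ⊤) [CharZero k]
    (Δ : Derivation k R0 R0) (hne : ∃ z, Δ z ≠ 0) (hln : ∀ z, ∃ n, (⇑Δ)^[n] z = 0) (hv : Δ v = 0)
    (z : R0) (hz : Δ z = 0) : ∃ q : k[X], z = aeval v q :=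
  RD.ker_eq0 ⟨hP.monic, hP.rel, hg, hP.ind⟩ hP.deg Δ hne hv z hz

end Pool.Agent.LNDQ
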