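import Mathlib
import Pool.Agent.R2F.Defs
import Pool.Agent.LNDHom.Red
import Pool.Agent.LNDHom.Gr

set_option autoImplicit false
set_option linter.unusedSectionVars false

/-!
# Local nilpotency from powers, and kernel elements divisible by a variable
-/

open MvPolynomial

namespace Pool.Agent.LNDQ

open Pool.Agent.LNDHom (iter_mul_top iter_zero_of_le exists_top)
open Pool.Agent.R2F (P2)

namespace NilA

section Top

variable {k B : Type*} [CommRing k] [CommRing B] [IsDomain B] [CharZero B] [Algebra k B]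
  (D : Derivation k B B)

/-- the last nonzero iterate has index `n` -/
def Top (n : ℕ) (x : B) : Prop := (⇑D)^[n] x ≠ 0 ∧ (⇑D)^[n + 1] x = 0

variable {D}

theorem Top.inj {a b : ℕ} {x : B} (ha : Top D a x) (hb : Top D b x) : a = b := by
  rcases lt_trichotomy a b with h | h | h
  · exact absurd (iter_zero_of_le D ha.2 (by omega)) hb.1
  · exact h
  · exact absurd (iter_zero_of_le D hb.2 (by omega)) ha.1

theorem Top.mul {a b : ℕ} {x y : B} (ha : Top D a x) (hb : Top D b y) :
    Top D (a + b) (x * y) := by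
  have h := iter_mul_top D (a + b) a b x y rfl ha.2 hb.2
  refine ⟨?_, h.2⟩
  rw [h.1]
  refine mul_ne_zero ?_ (mul_ne_zero ha.1 hb.1)
  exact_mod_cast (Nat.choose_pos (Nat.le_add_right a b)).ne'

theorem top_nat (m : ℕ) (hm : m ≠ 0) : Top D 0 (m : B) := by
  refine ⟨?_, ?_⟩
  · rw [Function.iterate_zero, id]
    exact_mod_cast hm
  · rw [zero_add, Function.iterate_one]
    exact D.map_natCast m

theorem Top.pow {a : ℕ} {x : B} (ha : Top D a x) (n : ℕ) : Top D (n * a) (x ^ n) := by
  induction n with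
  | zero =>
    rw [zero_mul, pow_zero, ← Nat.cast_one]
    exact top_nat 1 one_ne_zero
  | succ n ih =>
    rw [pow_succ, Nat.add_mul, one_mul]
    exact ih.mul ha

theorem Top.der {a : ℕ} {x : B} (ha : Top D (a + 1) x) : Top D a (D x) := by
  refine ⟨?_, ?_⟩
  · rw [← Function.iterate_succ_apply]
    exact ha.1
  · rw [← Function.iterate_succ_apply]
    exact ha.2

/-- If the `b`-th powers of all elements of a set stable under `D` are annihilated by powers of `D`,
then so are the elements themselves. -/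
theorem nil_of_pow (b : ℕ) (hb : 0 < b) (P : Set B) (hP : ∀ f ∈ P, D f ∈ P)
    (h : ∀ f ∈ P, ∃ n, (⇑D)^[n] (f ^ b) = 0) (f : B) (hf : f ∈ P) : ∃ n, (⇑D)^[n] f = 0 := by
  have key : ∀ n : ℕ, ∀ f ∈ P, f ≠ 0 → Top D n (f ^ b) → ∃ m, (⇑D)^[m] f = 0 := by
    intro n
    induction n using Nat.strong_induction_on with
    | _ n ih =>
      intro f hf hf0 hn
      by_cases hg : D f = 0
      · exact ⟨1, by rw [Function.iterate_one]; exact hg⟩
      have hder : D (f ^ b) = (b : B) * (f ^ (b - 1) * D f) := by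
        rw [D.leibniz_pow, nsmul_eq_mul, smul_eq_mul]
      have hder0 : D (f ^ b) ≠ 0 := by
        rw [hder]
        refine mul_ne_zero (by exact_mod_cast hb.ne') (mul_ne_zero (pow_ne_zero _ hf0) hg)
      obtain ⟨n', rfl⟩ : ∃ n', n = n' + 1 := by
        rcases n with - | n'
        · refine absurd ?_ hder0
          have := hn.2
          rwa [zero_add, Function.iterate_one] at this
        · exact ⟨n', rfl⟩
      obtain ⟨m, hm⟩ : ∃ m, Top D m (D f ^ b) :=
        exists_top D (pow_ne_zero b hg) (h _ (hP f hf))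
      have h1 : Top D (b * n') (D (f ^ b) ^ b) := hn.der.pow b
      have h2 : D (f ^ b) ^ b = ((b ^ b : ℕ) : B) * (D f ^ b * (f ^ b) ^ (b - 1)) := by
        rw [hder]
        push_cast
        rw [mul_pow, mul_pow, ← pow_mul, ← pow_mul, mul_comm (b - 1) b]
        ring
      have h3 : Top D (0 + (m + (b - 1) * (n' + 1))) (D (f ^ b) ^ b) := by
        rw [h2]
        exact (top_nat _ (pow_pos hb b).ne').mul (hm.mul (hn.pow (b - 1)))
      have h4 : b * n' = 0 + (m + (b - 1) * (n' + 1)) := h1.inj h3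
      have hlt : m < n' + 1 := by
        obtain ⟨c, rfl⟩ : ∃ c, b = c + 1 := ⟨b - 1, by omega⟩
        rw [Nat.add_sub_cancel] at h4
        nlinarith
      obtain ⟨j, hj⟩ := ih m hlt (D f) (hP f hf) hg hm
      exact ⟨j + 1, by rw [Function.iterate_succ_apply]; exact hj⟩
  by_cases hf0 : f = 0
  · exact ⟨0, by rw [Function.iterate_zero, id]; exact hf0⟩
  · obtain ⟨n, hn⟩ := exists_top D (pow_ne_zero b hf0) (h f hf)
    exact key n f hf hf0 hn

end Top

end NilA

section Wt

variable {F : Type*} [Field F]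

/-- the polynomials all of whose monomials `s^a t^c` satisfy `a - c = i` modulo `b` -/
def wt (F : Type*) [Field F] (b : ℕ) (i : ZMod b) : Submodule F (P2 F) where
  carrier := {P | ∀ d ∈ P.support, ((d 0 : ZMod b) - (d 1 : ZMod b)) = i}
  zero_mem' := by
    intro d hd
    simp at hd
  add_mem' := by
    classical
    intro P Q hP hQ d hd
    rcases Finset.mem_union.1 (support_add hd) with h | h
    · exact hP d h
    · exact hQ d h
  smul_mem' := by
    intro c P hP d hd
    exact hP d (support_smul hd)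

theorem mem_wt {b : ℕ} {i : ZMod b} {P : P2 F} :
    P ∈ wt F b i ↔ ∀ d ∈ P.support, ((d 0 : ZMod b) - (d 1 : ZMod b)) = i := Iff.rfl

theorem wt_mul {b : ℕ} {i j : ZMod b} {P Q : P2 F} (hP : P ∈ wt F b i) (hQ : Q ∈ wt F b j) :
    P * Q ∈ wt F b (i + j) := by
  classical
  intro d hd
  obtain ⟨e, he, f, hf, rfl⟩ := Finset.mem_add.1 (support_mul P Q hd)
  have h1 := hP e he
  have h2 := hQ f hf
  rw [Finsupp.add_apply, Finsupp.add_apply]
  push_cast
  rw [← h1, ← h2]
  ring

theorem wt_one {b : ℕ} : (1 : P2 F) ∈ wt F b 0 := by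
  classical
  intro d hd
  rw [mem_support_iff, coeff_one] at hd
  split_ifs at hd with h
  · subst h
    simp
  · exact absurd rfl hd

theorem wt_pow {b : ℕ} {i : ZMod b} {P : P2 F} (hP : P ∈ wt F b i) (n : ℕ) :
    P ^ n ∈ wt F b (n * i) := by
  induction n with
  | zero =>
    rw [pow_zero, Nat.cast_zero, zero_mul]
    exact wt_one
  | succ n ih =>
    rw [pow_succ, Nat.cast_succ, add_mul, one_mul]
    exact wt_mul ih hP

theorem wt_monomial {b : ℕ} (d : Fin 2 →₀ ℕ) (c : F) :
    monomial d c ∈ wt F b ((d 0 : ZMod b) - (d 1 : ZMod b)) := by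
  classical
  intro e he
  rw [mem_support_iff, coeff_monomial] at he
  split_ifs at he with h
  · subst h
    rfl
  · exact absurd rfl he

theorem wt_X0 {b : ℕ} : (X 0 : P2 F) ∈ wt F b 1 := by
  have h := wt_monomial (F := F) (b := b) (Finsupp.single 0 1) 1
  have h1 : ((Finsupp.single (0 : Fin 2) 1 0 : ℕ) : ZMod b) -
      ((Finsupp.single (0 : Fin 2) 1 1 : ℕ) : ZMod b) = 1 := by
    simp
  rw [h1] at h
  exact h

theorem wt_X1 {b : ℕ} : (X 1 : P2 F) ∈ wt F b (-1) := by
  have h := wt_monomial (F := F) (b := b) (Finsupp.single 1 1) 1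
  have h1 : ((Finsupp.single (1 : Fin 2) 1 0 : ℕ) : ZMod b) -
      ((Finsupp.single (1 : Fin 2) 1 1 : ℕ) : ZMod b) = -1 := by
    simp
  rw [h1] at h
  exact h

/-- a derivation preserves the weights if it does so on the variables -/
theorem wt_der {b : ℕ} (D : Derivation F (P2 F) (P2 F)) (h0 : D (X 0) ∈ wt F b 1)
    (h1 : D (X 1) ∈ wt F b (-1)) {i : ZMod b} {P : P2 F} (hP : P ∈ wt F b i) :
    D P ∈ wt F b i := by
  classical
  have hm : ∀ (d : Fin 2 →₀ ℕ) (c : F),
      D (monomial d c) ∈ wt F b ((d 0 : ZMod b) - (d 1 : ZMod b)) := by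
    intro d c
    have e0 : monomial d c = C c * (X 0 ^ d 0 * X 1 ^ d 1) := by
      rw [monomial_eq, Finsupp.prod_fintype _ _ (fun _ => pow_zero _), Fin.prod_univ_two]
    have hC : D (C c) = 0 := by
      have := D.map_algebraMap c
      rwa [MvPolynomial.algebraMap_eq] at this
    have e1 : D (monomial d c) = c • ((X 0 ^ d 0 * ((d 1 : ℕ) • (X 1 ^ (d 1 - 1) * D (X 1)))) +
        (X 1 ^ d 1 * ((d 0 : ℕ) • (X 0 ^ (d 0 - 1) * D (X 0))))) := by
      rw [e0, D.leibniz, hC, smul_zero, add_zero, D.leibniz, D.leibniz_pow, D.leibniz_pow,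
        smul_eq_mul, smul_eq_mul, smul_eq_mul, smul_eq_mul, smul_eq_mul, MvPolynomial.smul_eq_C_mul]
    rw [e1]
    refine Submodule.smul_mem _ _ (Submodule.add_mem _ ?_ ?_)
    · rw [mul_smul_comm]
      rcases Nat.eq_zero_or_pos (d 1) with hd | hd
      · rw [hd, zero_smul]
        exact Submodule.zero_mem _
      · refine Submodule.smul_of_tower_mem _ _ ?_
        have h := wt_mul (wt_pow (wt_X0 (F := F) (b := b)) (d 0))
          (wt_mul (wt_pow (wt_X1 (F := F) (b := b)) (d 1 - 1)) h1)
        have h2 : ((d 0 : ℕ) : ZMod b) * 1 + (((d 1 - 1 : ℕ) : ZMod b) * -1 + -1) =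
            (d 0 : ZMod b) - (d 1 : ZMod b) := by
          obtain ⟨c', hc'⟩ : ∃ c', d 1 = c' + 1 := ⟨d 1 - 1, by omega⟩
          rw [hc', Nat.add_sub_cancel]
          push_cast
          ring
        rwa [h2] at h
    · rw [mul_smul_comm]
      rcases Nat.eq_zero_or_pos (d 0) with hd | hd
      · rw [hd, zero_smul]
        exact Submodule.zero_mem _
      · refine Submodule.smul_of_tower_mem _ _ ?_
        have h := wt_mul (wt_pow (wt_X1 (F := F) (b := b)) (d 1))
          (wt_mul (wt_pow (wt_X0 (F := F) (b := b)) (d 0 - 1)) h0)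
        have h2 : ((d 1 : ℕ) : ZMod b) * -1 + (((d 0 - 1 : ℕ) : ZMod b) * 1 + 1) =
            (d 0 : ZMod b) - (d 1 : ZMod b) := by
          obtain ⟨c', hc'⟩ : ∃ c', d 0 = c' + 1 := ⟨d 0 - 1, by omega⟩
          rw [hc', Nat.add_sub_cancel]
          push_cast
          ring
        rwa [h2] at h
  rw [P.as_sum, map_sum]
  refine Submodule.sum_mem _ fun d hd => ?_
  have h := hm d (coeff d P)
  rwa [hP d hd] at h

/-- A derivation of `F[s,t]` preserving the weights modulo `b` which is locally nilpotent on the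
polynomials of weight zero is locally nilpotent. -/
theorem lnd_of_wt [CharZero F] {b : ℕ} (hb : 0 < b) (D : Derivation F (P2 F) (P2 F))
    (h0 : D (X 0) ∈ wt F b 1) (h1 : D (X 1) ∈ wt F b (-1))
    (hT : ∀ z ∈ wt F b 0, ∃ n, (⇑D)^[n] z = 0) (z : P2 F) : ∃ n, (⇑D)^[n] z = 0 := by
  classical
  have hchar : CharZero (P2 F) :=
    charZero_of_injective_algebraMap (algebraMap F (P2 F)).injective
  have key : ∀ i : ZMod b, ∀ f ∈ wt F b i, ∃ n, (⇑D)^[n] f = 0 := by
    intro i f hf
    refine NilA.nil_of_pow (D := D) b hb (wt F b i : Set (P2 F)) (fun f hf => wt_der D h0 h1 hf)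
      (fun f hf => hT _ ?_) f hf
    have h := wt_pow hf b
    rwa [ZMod.natCast_self, zero_mul] at h
  induction z using MvPolynomial.induction_on' with
  | monomial d c => exact key _ _ (wt_monomial d c)
  | add p q hp hq =>
    obtain ⟨n, hn⟩ := hp
    obtain ⟨m, hm⟩ := hq
    refine ⟨n + m, ?_⟩
    rw [iterate_map_add, iter_zero_of_le _ hn (by omega), iter_zero_of_le _ hm (by omega),
      add_zero]

/-- A nonzero element of the kernel divisible by one variable is a polynomial in it. -/
theorem ker_of_dvd [CharZero F] (D : Derivation F (P2 F) (P2 F))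
    (hln : ∀ x, ∃ n, (⇑D)^[n] x = 0) (hD0 : ∃ x, D x ≠ 0) {i j : Fin 2} (hij : i ≠ j) (Q : P2 F)
    (hQ0 : Q ≠ 0) (hQ : D Q = 0) (hdvd : X i ∣ Q) :
    D (X i) = 0 ∧ D (X j) ≠ 0 ∧ ∀ d ∈ Q.support, d j = 0 := by
  classical
  obtain ⟨P, rfl⟩ := hdvd
  have hi : D (X i) = 0 := Pool.Agent.LNDHom.fact_closed D hln (X i) P hQ hQ0
  have hall : ∀ l : Fin 2, l = i ∨ l = j := by
    intro l
    fin_cases i <;> fin_cases j <;> fin_cases l <;> simp at hij ⊢
  have hDj : D (X j) ≠ 0 := by
    intro hj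
    obtain ⟨x, hx⟩ := hD0
    apply hx
    have : D = 0 := by
      refine MvPolynomial.derivation_ext fun l => ?_
      rcases hall l with rfl | rfl
      · exact hi
      · exact hj
    rw [this]
    rfl
  have hchain : ∀ R : P2 F, D R = pderiv j R * D (X j) := by
    intro R
    have : D = D (X j) • (pderiv j : Derivation F (P2 F) (P2 F)) := by
      refine MvPolynomial.derivation_ext fun l => ?_
      rcases hall l with rfl | rfl
      · rw [Derivation.smul_apply, pderiv_X_of_ne hij, smul_zero]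
        exact hi
      · rw [Derivation.smul_apply, pderiv_X_self, smul_eq_mul, mul_one]
    calc D R = (D (X j) • (pderiv j : Derivation F (P2 F) (P2 F))) R := by rw [← this]
      _ = pderiv j R * D (X j) := by rw [Derivation.smul_apply, smul_eq_mul, mul_comm]
  refine ⟨hi, hDj, fun d hd => ?_⟩
  have h0 : pderiv j (X i * P) = 0 := by
    have h := hchain (X i * P)
    rw [hQ] at h
    exact (mul_eq_zero.1 h.symm).resolve_right hDj
  by_contra hdj
  obtain ⟨e, rfl⟩ : ∃ e : Fin 2 →₀ ℕ, d = e + Finsupp.single j 1 := by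
    refine ⟨d - Finsupp.single j 1, ?_⟩
    rw [tsub_add_cancel_of_le]
    rw [Finsupp.single_le_iff]
    omega
  have h2 : coeff e (pderiv j (X i * P)) = 0 := by rw [h0, coeff_zero]
  rw [coeff_pderiv] at h2
  rcases mul_eq_zero.1 h2 with h3 | h3
  · exact (mem_support_iff.1 hd) h3
  · have h4 : ((e j : F) + 1) ≠ 0 := by exact_mod_cast Nat.succ_ne_zero (e j)
    exact h4 h3

end Wt

end Pool.Agent.LNDQ
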