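import Mathlib
import Pool.Agent.LNDQ.RDDefs
import Pool.Agent.LNDQ.RDNilW

set_option autoImplicit false

/-!
# The polygon of a polynomial all of whose leading forms are killed by derivations
-/

open MvPolynomial

namespace Pool.Agent.LNDQ.RD

open Pool.Agent.R2F

variable {k : Type} [Field k]

namespace NumA

theorem weight_eq (w0 w1 : ℕ) (d : Fin 2 →₀ ℕ) :
    Finsupp.weight (wt w0 w1) d = ((w0 * d 0 + w1 * d 1 : ℕ) : ℤ) := by
  rw [Finsupp.weight_apply, Finsupp.sum_fintype _ _ (fun i => by simp), Fin.sum_univ_two]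
  simp only [wt, Matrix.cons_val_zero, Matrix.cons_val_one, nsmul_eq_mul]
  push_cast
  ring

theorem coeff_comp (w0 w1 : ℕ) (N : ℕ) (F : P2 k) (d : Fin 2 →₀ ℕ) :
    coeff d (weightedHomogeneousComponent (wt w0 w1) (N : ℤ) F) =
      if w0 * d 0 + w1 * d 1 = N then coeff d F else 0 := by
  rw [coeff_weightedHomogeneousComponent, weight_eq]
  by_cases h : w0 * d 0 + w1 * d 1 = N
  · rw [if_pos h, if_pos (by rw [h])]
  · rw [if_neg h, if_neg (fun h' => h (by exact_mod_cast h'))]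

theorem le_of (w0 w1 : ℕ) (N : ℕ) (F : P2 k) (h : ∀ d ∈ F.support, w0 * d 0 + w1 * d 1 ≤ N) :
    Le (wt w0 w1) (N : ℤ) F := by
  intro e he
  refine weightedHomogeneousComponent_eq_zero' _ _ fun d hd => ?_
  rw [weight_eq]
  have h1 : ((w0 * d 0 + w1 * d 1 : ℕ) : ℤ) ≤ (N : ℤ) := by exact_mod_cast h d hd
  omega

theorem mem_comp {w0 w1 N : ℕ} {F : P2 k} {d : Fin 2 →₀ ℕ} :
    d ∈ (weightedHomogeneousComponent (wt w0 w1) (N : ℤ) F).support ↔
      d ∈ F.support ∧ w0 * d 0 + w1 * d 1 = N := by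
  rw [mem_support_iff, coeff_comp, mem_support_iff]
  by_cases h : w0 * d 0 + w1 * d 1 = N
  · rw [if_pos h]
    exact ⟨fun h' => ⟨h', h⟩, fun h' => h'.1⟩
  · rw [if_neg h]
    exact ⟨fun h' => absurd rfl h', fun h' => absurd h'.2 h⟩

theorem d_le (F : P2 k) (i : Fin 2) {d : Fin 2 →₀ ℕ} (hd : d ∈ F.support) : d i ≤ degreeOf i F := by
  rw [degreeOf_eq_sup]
  exact Finset.le_sup (f := fun m : Fin 2 →₀ ℕ => m i) hd

theorem exists_deg (F : P2 k) (i : Fin 2) (h : F ≠ 0) : ∃ d ∈ F.support, d i = degreeOf i F := by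
  rw [degreeOf_eq_sup]
  obtain ⟨d, hd, h'⟩ := Finset.exists_mem_eq_sup F.support (support_nonempty.2 h)
    (fun m : Fin 2 →₀ ℕ => m i)
  exact ⟨d, hd, h'.symm⟩

theorem dvd_of (F : P2 k) (i : Fin 2) (h : ∀ d ∈ F.support, d i ≠ 0) : X i ∣ F := by
  rw [X_dvd_iff_modMonomial_eq_zero]
  ext m
  rw [coeff_zero]
  by_cases hm : Finsupp.single i 1 ≤ m
  · exact coeff_modMonomial_of_le _ hm
  · rw [coeff_modMonomial_of_not_le _ hm]
    by_contra hne
    apply hm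
    rw [Finsupp.single_le_iff]
    have := h m (mem_support_iff.2 hne)
    omega

/-- the corner of the polygon on the first axis -/
theorem corner0 [CharZero k] (F : P2 k) (hF : F ≠ 0) (hL : Lk F) (hp : 0 < degreeOf 0 F) :
    Finsupp.single 0 (degreeOf 0 F) ∈ F.support := by
  classical
  obtain ⟨p, hpd⟩ : ∃ p, p = degreeOf 0 F := ⟨_, rfl⟩
  obtain ⟨q, hqd⟩ : ∃ q, q = degreeOf 1 F := ⟨_, rfl⟩
  rw [← hpd] at hp ⊢
  set S := F.support.filter (fun d => d 0 = p) with hS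
  have hSne : S.Nonempty := by
    obtain ⟨d, hd, h⟩ := exists_deg F 0 hF
    exact ⟨d, Finset.mem_filter.2 ⟨hd, h.trans hpd.symm⟩⟩
  obtain ⟨d₀, hd₀, hmax⟩ := Finset.exists_max_image S (fun d => d 1) hSne
  obtain ⟨hd₀F, hd₀p⟩ := Finset.mem_filter.1 hd₀
  have hbd0 : ∀ d ∈ F.support, d 0 ≤ p := fun d hd => (d_le F 0 hd).trans hpd.ge
  have hbd1 : ∀ d ∈ F.support, d 1 ≤ q := fun d hd => (d_le F 1 hd).trans hqd.ge
  have hle : ∀ d ∈ F.support, (q + 1) * d 0 + 1 * d 1 ≤ (q + 1) * d₀ 0 + 1 * d₀ 1 := by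
    intro d hd
    rcases Nat.lt_or_ge (d 0) p with h | h
    · have h1 : (q + 1) * d 0 + (q + 1) ≤ (q + 1) * d₀ 0 := by
        rw [hd₀p, ← Nat.mul_succ]
        exact Nat.mul_le_mul_left _ h
      have h2 := hbd1 d hd
      omega
    · have h0 : d 0 = p := le_antisymm (hbd0 d hd) h
      have h1 : d 1 ≤ d₀ 1 := hmax d (Finset.mem_filter.2 ⟨hd, h0⟩)
      rw [h0, hd₀p]
      omega
  obtain ⟨D', hln, hD0, hD⟩ := hL (wt (q + 1) 1) (wt_pos (Nat.succ_pos q) one_pos) _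
    (le_of (q + 1) 1 _ F hle)
  have hmem : d₀ ∈ (weightedHomogeneousComponent (wt (q + 1) 1)
      (((q + 1) * d₀ 0 + 1 * d₀ 1 : ℕ) : ℤ) F).support := mem_comp.2 ⟨hd₀F, rfl⟩
  have hQ0 : weightedHomogeneousComponent (wt (q + 1) 1)
      (((q + 1) * d₀ 0 + 1 * d₀ 1 : ℕ) : ℤ) F ≠ 0 := by
    intro h
    rw [h] at hmem
    simp at hmem
  have hdvd : X 0 ∣ weightedHomogeneousComponent (wt (q + 1) 1)
      (((q + 1) * d₀ 0 + 1 * d₀ 1 : ℕ) : ℤ) F := by
    refine dvd_of _ 0 fun d hd h0 => ?_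
    obtain ⟨hdF, hdw⟩ := mem_comp.1 hd
    have h2 := hbd1 d hdF
    rw [h0, hd₀p] at hdw
    have h3 : (q + 1) * 1 ≤ (q + 1) * p := Nat.mul_le_mul_left _ hp
    omega
  have h1 := (ker_of_dvd D' hln hD0 (show (0 : Fin 2) ≠ 1 by decide) _ hQ0 hD hdvd).2.2 d₀ hmem
  have h2 : d₀ = Finsupp.single 0 p := by
    ext l
    fin_cases l
    · simpa using hd₀p
    · simpa using h1
  rw [← h2]
  exact hd₀F

/-- the corner of the polygon on the second axis -/
theorem corner1 [CharZero k] (F : P2 k) (hF : F ≠ 0) (hL : Lk F) (hp : 0 < degreeOf 1 F) :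
    Finsupp.single 1 (degreeOf 1 F) ∈ F.support := by
  classical
  obtain ⟨p, hpd⟩ : ∃ p, p = degreeOf 1 F := ⟨_, rfl⟩
  obtain ⟨q, hqd⟩ : ∃ q, q = degreeOf 0 F := ⟨_, rfl⟩
  rw [← hpd] at hp ⊢
  set S := F.support.filter (fun d => d 1 = p) with hS
  have hSne : S.Nonempty := by
    obtain ⟨d, hd, h⟩ := exists_deg F 1 hF
    exact ⟨d, Finset.mem_filter.2 ⟨hd, h.trans hpd.symm⟩⟩
  obtain ⟨d₀, hd₀, hmax⟩ := Finset.exists_max_image S (fun d => d 0) hSne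
  obtain ⟨hd₀F, hd₀p⟩ := Finset.mem_filter.1 hd₀
  have hbd0 : ∀ d ∈ F.support, d 1 ≤ p := fun d hd => (d_le F 1 hd).trans hpd.ge
  have hbd1 : ∀ d ∈ F.support, d 0 ≤ q := fun d hd => (d_le F 0 hd).trans hqd.ge
  have hle : ∀ d ∈ F.support, 1 * d 0 + (q + 1) * d 1 ≤ 1 * d₀ 0 + (q + 1) * d₀ 1 := by
    intro d hd
    rcases Nat.lt_or_ge (d 1) p with h | h
    · have h1 : (q + 1) * d 1 + (q + 1) ≤ (q + 1) * d₀ 1 := by
        rw [hd₀p, ← Nat.mul_succ]
        exact Nat.mul_le_mul_left _ h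
      have h2 := hbd1 d hd
      omega
    · have h0 : d 1 = p := le_antisymm (hbd0 d hd) h
      have h1 : d 0 ≤ d₀ 0 := hmax d (Finset.mem_filter.2 ⟨hd, h0⟩)
      rw [h0, hd₀p]
      omega
  obtain ⟨D', hln, hD0, hD⟩ := hL (wt 1 (q + 1)) (wt_pos one_pos (Nat.succ_pos q)) _
    (le_of 1 (q + 1) _ F hle)
  have hmem : d₀ ∈ (weightedHomogeneousComponent (wt 1 (q + 1))
      ((1 * d₀ 0 + (q + 1) * d₀ 1 : ℕ) : ℤ) F).support := mem_comp.2 ⟨hd₀F, rfl⟩
  have hQ0 : weightedHomogeneousComponent (wt 1 (q + 1))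
      ((1 * d₀ 0 + (q + 1) * d₀ 1 : ℕ) : ℤ) F ≠ 0 := by
    intro h
    rw [h] at hmem
    simp at hmem
  have hdvd : X 1 ∣ weightedHomogeneousComponent (wt 1 (q + 1))
      ((1 * d₀ 0 + (q + 1) * d₀ 1 : ℕ) : ℤ) F := by
    refine dvd_of _ 1 fun d hd h0 => ?_
    obtain ⟨hdF, hdw⟩ := mem_comp.1 hd
    have h2 := hbd1 d hdF
    rw [h0, hd₀p] at hdw
    have h3 : (q + 1) * 1 ≤ (q + 1) * p := Nat.mul_le_mul_left _ hp
    omega
  have h1 := (ker_of_dvd D' hln hD0 (show (1 : Fin 2) ≠ 0 by decide) _ hQ0 hD hdvd).2.2 d₀ hmem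
  have h2 : d₀ = Finsupp.single 1 p := by
    ext l
    fin_cases l
    · simpa using h1
    · simpa using hd₀p
  rw [← h2]
  exact hd₀F

theorem coeff_top [CharZero k] (m r : ℕ) (hm : 0 < m) (c l : k) (hc : c ≠ 0)
    (hl : l ≠ 0) : coeff (Finsupp.single 0 (m - 1) + Finsupp.single 1 r)
      (C c * (X 0 - C l * X 1 ^ r) ^ m : P2 k) ≠ 0 := by
  classical
  have h1 : ((X 0 - C l * X 1 ^ r) ^ m : P2 k) = ∑ i ∈ Finset.range (m + 1),
      monomial (Finsupp.single 0 i + Finsupp.single 1 (r * (m - i)))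
        ((-l) ^ (m - i) * (m.choose i : k)) := by
    rw [sub_eq_add_neg, add_pow]
    refine Finset.sum_congr rfl fun i _ => ?_
    have h2 : (-(C l * X 1 ^ r) : P2 k) = C (-l) * X 1 ^ r := by
      rw [C_neg]
      ring
    rw [h2, mul_pow, ← C_pow, ← pow_mul]
    have h3 : (monomial (Finsupp.single 0 i + Finsupp.single 1 (r * (m - i)))
        ((-l) ^ (m - i) * (m.choose i : k)) : P2 k) =
        C ((-l) ^ (m - i) * (m.choose i : k)) * (X 0 ^ i * X 1 ^ (r * (m - i))) := by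
      rw [X_pow_eq_monomial, X_pow_eq_monomial, monomial_mul, C_mul_monomial, mul_one, mul_one]
    rw [h3, C_mul, map_natCast]
    ring
  rw [coeff_C_mul, h1, coeff_sum, Finset.sum_eq_single (m - 1)]
  · have h4 : m - (m - 1) = 1 := by omega
    rw [h4, mul_one, coeff_monomial, if_pos rfl, pow_one]
    refine mul_ne_zero hc (mul_ne_zero (neg_ne_zero.2 hl) ?_)
    exact_mod_cast (Nat.choose_pos (by omega)).ne'
  · intro i _ hi
    rw [coeff_monomial, if_neg]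
    intro h
    apply hi
    have h5 := congrArg (fun d : Fin 2 →₀ ℕ => d 0) h
    simpa using h5
  · intro h
    exact absurd (Finset.mem_range.2 (by omega)) h

end NumA

open NumA

/-- the polygon, if the degree in the first variable is at most the degree in the second -/
theorem polygon_le [CharZero k] (b : ℕ) (F : P2 k) (hF : Hw b 0 F)
    (hc : ∀ c, F ≠ C c) (hL : Lk F) (hpq : degreeOf 0 F ≤ degreeOf 1 F) :
    degreeOf 0 F = 0 ∨ ∃ (w0 m : ℕ) (c l : k), Tp b w0 m c l F := by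
  classical
  have hF0 : F ≠ 0 := by
    intro h
    exact hc 0 (by rw [h, C_0])
  rcases Nat.eq_zero_or_pos (degreeOf 0 F) with hp0 | hp0
  · exact Or.inl hp0
  right
  have hc0 := corner0 F hF0 hL hp0
  have hc1 := corner1 F hF0 hL (hp0.trans_le hpq)
  obtain ⟨p, hpd⟩ : ∃ p, p = degreeOf 0 F := ⟨_, rfl⟩
  obtain ⟨q, hqd⟩ : ∃ q, q = degreeOf 1 F := ⟨_, rfl⟩
  have hbd0 : ∀ d ∈ F.support, d 0 ≤ p := fun d hd => (d_le F 0 hd).trans hpd.ge
  have hbd1 : ∀ d ∈ F.support, d 1 ≤ q := fun d hd => (d_le F 1 hd).trans hqd.ge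
  rw [← hpd] at hp0 hc0 hpq
  rw [← hqd] at hc1 hpq
  have hq0 : 0 < q := hp0.trans_le hpq
  obtain ⟨g, a, e, hg0, hcop, ha, he⟩ : ∃ g a e : ℕ, 0 < g ∧ a.Coprime e ∧ q = a * g ∧
      p = e * g := by
    obtain ⟨a, e, h1, h2, h3⟩ := Nat.exists_coprime q p
    exact ⟨q.gcd p, a, e, Nat.gcd_pos_of_pos_left _ hq0, h1, h2, h3⟩
  have ha0 : 0 < a := Nat.pos_of_ne_zero fun h => by rw [h, zero_mul] at ha; omega
  have he0 : 0 < e := Nat.pos_of_ne_zero fun h => by rw [h, zero_mul] at he; omega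
  have hea : e ≤ a := by
    have h : e * g ≤ a * g := by rw [← ha, ← he]; exact hpq
    exact Nat.le_of_mul_le_mul_right h hg0
  have hapeq : a * p = e * q := by
    rw [ha, he]
    ring
  obtain ⟨d₀, hd₀, hmax⟩ := Finset.exists_max_image F.support (fun d => a * d 0 + e * d 1)
    (support_nonempty.2 hF0)
  obtain ⟨N, hN⟩ : ∃ N, N = a * d₀ 0 + e * d₀ 1 := ⟨_, rfl⟩
  have hle : ∀ d ∈ F.support, a * d 0 + e * d 1 ≤ N := fun d hd => (hmax d hd).trans hN.ge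
  obtain ⟨D', hln, hD0, hD⟩ := hL (wt a e) (wt_pos ha0 he0) _ (le_of a e N F hle)
  obtain ⟨Q, hQd⟩ : ∃ Q, Q = weightedHomogeneousComponent (wt a e) (N : ℤ) F := ⟨_, rfl⟩
  rw [← hQd] at hD
  have hmemQ : ∀ d, d ∈ Q.support ↔ d ∈ F.support ∧ a * d 0 + e * d 1 = N := by
    intro d
    rw [hQd]
    exact mem_comp
  have hd₀Q : d₀ ∈ Q.support := (hmemQ d₀).2 ⟨hd₀, hN.symm⟩
  have hQ0 : Q ≠ 0 := by
    intro h
    rw [h] at hd₀Q
    simp at hd₀Q
  have hN1 : a * p ≤ N := by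
    have h := hle _ hc0
    simpa using h
  have hN2 : N ≤ a * p := by
    by_cases hdvd : X 0 ∣ Q
    · have h1 := (ker_of_dvd D' hln hD0 (show (0 : Fin 2) ≠ 1 by decide) Q hQ0 hD hdvd).2.2 d₀ hd₀Q
      rw [hN, h1, mul_zero, add_zero]
      exact Nat.mul_le_mul_left _ (hbd0 d₀ hd₀)
    · obtain ⟨d, hd, hd0⟩ : ∃ d ∈ Q.support, d 0 = 0 := by
        by_contra hcon
        push Not at hcon
        exact hdvd (dvd_of Q 0 hcon)
      obtain ⟨h1, h2⟩ := (hmemQ d).1 hd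
      rw [hd0, mul_zero, zero_add] at h2
      rw [← h2, hapeq]
      exact Nat.mul_le_mul_left _ (hbd1 d h1)
  have hNp : N = a * p := le_antisymm hN2 hN1
  have hQp : Finsupp.single 0 p ∈ Q.support := (hmemQ _).2 ⟨hc0, by simp [hNp]⟩
  have hQq : Finsupp.single 1 q ∈ Q.support := (hmemQ _).2 ⟨hc1, by simp [hNp, hapeq]⟩
  obtain ⟨he1, m, c, l, ham, hcne, hlne, hQ⟩ := shape a e he0 hea hcop D' hln hD0 Q q hq0
    (fun d hd => by rw [((hmemQ d).1 hd).2, hNp, hapeq]) hD (mem_support_iff.1 hQq) (by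
      intro h
      have h1 := mem_support_iff.1 hQp
      rw [h, coeff_C_mul, coeff_X_pow, if_neg, mul_zero] at h1
      · exact h1 rfl
      · intro h2
        have h3 := congrArg (fun d : Fin 2 →₀ ℕ => d 1) h2
        simp at h3
        omega)
  subst he1
  have hmp : m = p := by
    rw [one_mul] at hapeq
    exact Nat.eq_of_mul_eq_mul_left ha0 (ham.trans hapeq.symm)
  subst hmp
  have hNN : ((m * a : ℕ) : ℤ) = (N : ℤ) := by rw [hNp, mul_comm]
  refine ⟨a, m, c, l, ha0, hp0, hcne, hlne, ?_, ?_, ?_⟩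
  · have h1 : Finsupp.single 0 (m - 1) + Finsupp.single 1 a ∈ F.support := by
      have h2 := coeff_top m a hp0 c l hcne hlne
      rw [← hQ] at h2
      exact ((hmemQ _).1 (mem_support_iff.2 h2)).1
    have h3 := hF _ h1
    have h4 := hF _ hc0
    simp only [Finsupp.add_apply, Finsupp.single_apply] at h3 h4
    norm_num at h3 h4
    have h5 : ((a + 1 : ℕ) : ℤ) = (m : ℤ) - (((m - 1 : ℕ) : ℤ) - (a : ℤ)) := by
      push_cast [Nat.cast_sub hp0]
      ring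
    have h6 : (b : ℤ) ∣ ((a + 1 : ℕ) : ℤ) := by
      rw [h5]
      exact dvd_sub h4 h3
    exact_mod_cast h6
  · rw [hNN]
    exact le_of a 1 N F hle
  · rw [hNN, ← hQd]
    exact hQ

end Pool.Agent.LNDQ.RD
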