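import Mathlib
import Pool.Agent.LNDQ.RDDefs
import Pool.Agent.LNDQ.RDNum
import Pool.Agent.R2F.Rent

set_option autoImplicit false
set_option linter.unusedVariables false

/-!
# The polygon of a polynomial all of whose leading forms are killed by derivations
-/

open MvPolynomial

namespace Pool.Agent.LNDQ.RD

open Pool.Agent.R2F

variable {k : Type} [Field k]

namespace PolyA

/-- exchange of the two exponents -/
noncomputable def sd (d : Fin 2 →₀ ℕ) : Fin 2 →₀ ℕ := d.mapDomain (Equiv.swap (0 : Fin 2) 1)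

theorem sd_zero (d : Fin 2 →₀ ℕ) : sd d 0 = d 1 := by
  have h := Finsupp.mapDomain_apply (Equiv.swap (0 : Fin 2) 1).injective d 1
  rwa [Equiv.swap_apply_right] at h

theorem sd_one (d : Fin 2 →₀ ℕ) : sd d 1 = d 0 := by
  have h := Finsupp.mapDomain_apply (Equiv.swap (0 : Fin 2) 1).injective d 0
  rwa [Equiv.swap_apply_left] at h

theorem sd_sd (d : Fin 2 →₀ ℕ) : sd (sd d) = d := by
  ext l
  fin_cases l
  · exact (sd_zero _).trans (sd_one _)
  · exact (sd_one _).trans (sd_zero _)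

theorem coeff_sw (F : P2 k) (d : Fin 2 →₀ ℕ) : coeff d (sw F) = coeff (sd d) F := by
  have h := coeff_rename_mapDomain (Equiv.swap (0 : Fin 2) 1) (Equiv.injective _) F (sd d)
  have h2 : (sd d).mapDomain (Equiv.swap (0 : Fin 2) 1) = d := sd_sd d
  rw [h2] at h
  exact h

theorem mem_sw (F : P2 k) (d : Fin 2 →₀ ℕ) : d ∈ (sw F).support ↔ sd d ∈ F.support := by
  rw [mem_support_iff, mem_support_iff, coeff_sw]

theorem sw_sw (F : P2 k) : sw (sw F) = F := by
  ext d
  rw [coeff_sw, coeff_sw, sd_sd]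

theorem sw_eq (F : P2 k) : sw F = swapE k F := rfl

theorem weight_gen (w : Fin 2 → ℤ) (d : Fin 2 →₀ ℕ) :
    Finsupp.weight w d = (d 0 : ℤ) * w 0 + (d 1 : ℤ) * w 1 := by
  rw [Finsupp.weight_apply, Finsupp.sum_fintype _ _ (fun i => by simp), Fin.sum_univ_two]
  simp only [nsmul_eq_mul]

theorem comp_sw (w : Fin 2 → ℤ) (N : ℤ) (F : P2 k) :
    weightedHomogeneousComponent w N (sw F) =
      sw (weightedHomogeneousComponent ![w 1, w 0] N F) := by
  ext d
  rw [coeff_sw, coeff_weightedHomogeneousComponent, coeff_weightedHomogeneousComponent, coeff_sw]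
  have h1 : Finsupp.weight ![w 1, w 0] (sd d) = Finsupp.weight w d := by
    rw [weight_gen, weight_gen, sd_zero, sd_one]
    change (d 1 : ℤ) * w 1 + (d 0 : ℤ) * w 0 = _
    rw [add_comm]
  by_cases h : Finsupp.weight w d = N
  · rw [if_pos h, if_pos (h1.trans h)]
  · rw [if_neg h, if_neg (fun h' => h (h1.symm.trans h'))]

theorem deg_sw (F : P2 k) : degreeOf 0 (sw F) = degreeOf 1 F ∧ degreeOf 1 (sw F) = degreeOf 0 F := by
  constructor
  · have h := degreeOf_rename_of_injective (p := F) (f := Equiv.swap (0 : Fin 2) 1)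
      (Equiv.injective _) 1
    rwa [Equiv.swap_apply_right] at h
  · have h := degreeOf_rename_of_injective (p := F) (f := Equiv.swap (0 : Fin 2) 1)
      (Equiv.injective _) 0
    rwa [Equiv.swap_apply_left] at h

theorem Hw_sw {b : ℕ} {F : P2 k} (h : Hw b 0 F) : Hw b 0 (sw F) := by
  intro d hd
  have h1 := h (sd d) ((mem_sw F d).1 hd)
  rw [sd_zero, sd_one] at h1
  have h2 : (d 0 : ℤ) - (d 1 : ℤ) - 0 = -((d 1 : ℤ) - (d 0 : ℤ) - 0) := by ring
  rw [h2]
  exact (dvd_neg).2 h1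

theorem Lk_sw {F : P2 k} (h : Lk F) : Lk (sw F) := by
  intro w hw N hN
  have hle : Le ![w 1, w 0] N F := by
    intro d hd
    have h1 := hN d hd
    rw [comp_sw] at h1
    have h2 := congrArg sw h1
    rwa [sw_sw, map_zero] at h2
  obtain ⟨D', hln, hP, hD⟩ := h ![w 1, w 0] (fun i => by
    fin_cases i
    · exact hw 1
    · exact hw 0) N hle
  refine ⟨conj (swapE k) D', RentAux.conj_ln _ _ hln, RentAux.conj_ne _ _ hP, ?_⟩
  rw [RentAux.conj_apply, comp_sw, sw_eq, AlgEquiv.symm_apply_apply, hD, map_zero]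

end PolyA

open PolyA

theorem polygon [CharZero k] (b : ℕ) (hb : 2 ≤ b) (F : P2 k) (hF : Hw b 0 F) (hc : ∀ c, F ≠ C c) (hL : Lk F) :
    degreeOf 0 F = 0 ∨ degreeOf 1 F = 0 ∨ (∃ (w0 m : ℕ) (c l : k), Tp b w0 m c l F) ∨
      ∃ (w0 m : ℕ) (c l : k), Tp b w0 m c l (sw F) := by
  rcases le_total (degreeOf 0 F) (degreeOf 1 F) with h | h
  · rcases polygon_le b F hF hc hL h with h1 | h1
    · exact Or.inl h1
    · exact Or.inr (Or.inr (Or.inl h1))
  · have h0 := deg_sw F
    rcases polygon_le b (sw F) (Hw_sw hF) (fun c hc' => hc c (by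
        have h1 := congrArg sw hc'
        rw [sw_sw] at h1
        rw [h1]
        exact rename_C _ _)) (Lk_sw hL) (by rw [h0.1, h0.2]; exact h) with h1 | h1
    · rw [h0.1] at h1
      exact Or.inr (Or.inl h1)
    · exact Or.inr (Or.inr (Or.inr h1))

end Pool.Agent.LNDQ.RD
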