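import Mathlib
import Pool.Agent.LNDQ.Defs

set_option autoImplicit false

/-!
# The basis of `k[v,x,y]`, `v y = f(x)`, and its symbol map
-/

open Polynomial

namespace Pool.Agent.LNDQ.RD

section basis

variable {k A : Type} [Field k] [CommRing A] [Algebra k A]

/-- the basis element `x^j v^n` or `x^j y^(-n)` -/
def el (v x y : A) (m : ℤ × ℕ) : A := x ^ m.2 * (v ^ m.1.toNat * y ^ (-m.1).toNat)

theorem pow_mul_pow (v y : A) (p q : ℕ) :
    v ^ p * y ^ q = (v * y) ^ min p q * (v ^ (p - q) * y ^ (q - p)) := by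
  rcases le_total p q with h | h
  · rw [min_eq_left h, Nat.sub_eq_zero_of_le h, pow_zero, one_mul, mul_pow, mul_assoc, ← pow_add,
      Nat.add_sub_cancel' h]
  · rw [min_eq_right h, Nat.sub_eq_zero_of_le h, pow_zero, mul_one, mul_pow, mul_right_comm,
      ← pow_add, Nat.add_sub_cancel' h]

theorem aeval_mul_eq_sum {v x y : A} (g : k[X]) (n : ℤ) :
    aeval x g * (v ^ n.toNat * y ^ (-n).toNat) = g.sum fun i c => c • el v x y (n, i) := by
  rw [aeval_eq_sum_range, Polynomial.sum_over_range' _ _ _ (Nat.lt_succ_self _), Finset.sum_mul]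
  · exact Finset.sum_congr rfl fun i _ => by rw [el, smul_mul_assoc]
  · intro i
    rw [zero_smul]

variable {f : k[X]} {v x y : A}

theorem prod_eq (h : v * y = aeval x f) (g : k[X]) (p q : ℕ) :
    aeval x g * (v ^ p * y ^ q) =
      (g * f ^ min p q).sum fun i c => c • el v x y ((p : ℤ) - q, i) := by
  rw [← aeval_mul_eq_sum, pow_mul_pow, h, ← map_pow, ← mul_assoc, ← map_mul]
  congr 2
  · congr 1
    omega
  · congr 1
    omega

/-- products of basis elements are combinations of basis elements -/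
theorem el_mul (m m' : ℤ × ℕ) : el v x y m * el v x y m' =
    aeval x (X ^ (m.2 + m'.2) : k[X]) * (v ^ (m.1.toNat + m'.1.toNat) *
      y ^ ((-m.1).toNat + (-m'.1).toNat)) := by
  unfold el
  rw [map_pow, aeval_X]
  ring

theorem prod_mem (h : v * y = aeval x f) (g : k[X]) (p q : ℕ) :
    aeval x g * (v ^ p * y ^ q) ∈ Submodule.span k (Set.range (el v x y)) := by
  rw [prod_eq h, Polynomial.sum_def]
  exact Submodule.sum_mem _ fun i _ => Submodule.smul_mem _ _ (Submodule.subset_span ⟨_, rfl⟩)

theorem span_mul (h : v * y = aeval x f) {z z' : A}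
    (hz : z ∈ Submodule.span k (Set.range (el v x y)))
    (hz' : z' ∈ Submodule.span k (Set.range (el v x y))) :
    z * z' ∈ Submodule.span k (Set.range (el v x y)) := by
  induction hz using Submodule.span_induction with
  | mem z hz =>
    obtain ⟨m, rfl⟩ := hz
    induction hz' using Submodule.span_induction with
    | mem z' hz' =>
      obtain ⟨m', rfl⟩ := hz'
      rw [el_mul (k := k)]
      exact prod_mem h _ _ _
    | zero => rw [mul_zero]; exact Submodule.zero_mem _
    | add a b _ _ h1 h2 => rw [mul_add]; exact Submodule.add_mem _ h1 h2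
    | smul c a _ h1 => rw [mul_smul_comm]; exact Submodule.smul_mem _ _ h1
  | zero => rw [zero_mul]; exact Submodule.zero_mem _
  | add a b _ _ h1 h2 => rw [add_mul]; exact Submodule.add_mem _ h1 h2
  | smul c a _ h1 => rw [smul_mul_assoc]; exact Submodule.smul_mem _ _ h1

theorem span_eq_top (h : v * y = aeval x f) (ha : Algebra.adjoin k {v, x, y} = ⊤) :
    Submodule.span k (Set.range (el v x y)) = ⊤ := by
  have h1 : (1 : A) ∈ Submodule.span k (Set.range (el v x y)) :=
    Submodule.subset_span ⟨(0, 0), by simp [el]⟩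
  rw [eq_top_iff]
  rintro z -
  have hz : z ∈ Algebra.adjoin k {v, x, y} := ha ▸ Algebra.mem_top
  induction hz using Algebra.adjoin_induction with
  | mem z hz =>
    rcases hz with rfl | rfl | rfl
    · exact Submodule.subset_span ⟨(1, 0), by simp [el]⟩
    · exact Submodule.subset_span ⟨(0, 1), by simp [el]⟩
    · exact Submodule.subset_span ⟨(-1, 0), by simp [el]⟩
  | algebraMap c =>
    rw [Algebra.algebraMap_eq_smul_one]
    exact Submodule.smul_mem _ _ h1
  | add a b _ _ h1 h2 => exact Submodule.add_mem _ h1 h2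
  | mul a b _ _ h1 h2 => exact span_mul h h1 h2

theorem coeff_X_mul_aeval (a a' i : ℕ) (g : k[X]) :
    MvPolynomial.coeff (Finsupp.single 0 a + Finsupp.single 1 i)
      ((MvPolynomial.X 0 ^ a' * aeval (MvPolynomial.X 1) g : MvPolynomial (Fin 2) k)) =
      if a = a' then g.coeff i else 0 := by
  classical
  induction g using Polynomial.induction_on' with
  | add p q hp hq =>
    rw [map_add, mul_add, MvPolynomial.coeff_add, hp, hq, coeff_add]
    split_ifs
    · rfl
    · rw [add_zero]
  | monomial n c =>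
    rw [← C_mul_X_pow_eq_monomial, map_mul, aeval_C, map_pow, aeval_X,
      MvPolynomial.algebraMap_eq, mul_left_comm, MvPolynomial.coeff_C_mul]
    have h1 : (MvPolynomial.X 0 ^ a' * MvPolynomial.X 1 ^ n : MvPolynomial (Fin 2) k) =
        MvPolynomial.monomial (Finsupp.single 0 a' + Finsupp.single 1 n) 1 := by
      rw [MvPolynomial.X_pow_eq_monomial, MvPolynomial.X_pow_eq_monomial,
        MvPolynomial.monomial_mul, one_mul]
    rw [h1, MvPolynomial.coeff_monomial, C_mul_X_pow_eq_monomial, coeff_monomial]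
    have h2 : (Finsupp.single 0 a' + Finsupp.single 1 n : Fin 2 →₀ ℕ) =
        Finsupp.single 0 a + Finsupp.single 1 i ↔ a = a' ∧ n = i := by
      constructor
      · intro h
        have h0 := DFunLike.congr_fun h 0
        have h1 := DFunLike.congr_fun h 1
        simp at h0 h1
        exact ⟨h0.symm, h1⟩
      · rintro ⟨rfl, rfl⟩
        rfl
    by_cases ha : a = a'
    · by_cases hn : n = i
      · rw [if_pos (h2.2 ⟨ha, hn⟩), if_pos ha, if_pos hn, mul_one]
      · rw [if_neg (fun h => hn (h2.1 h).2), if_pos ha, if_neg hn, mul_zero]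
    · rw [if_neg (fun h => ha (h2.1 h).1), if_neg ha, mul_zero]

theorem linearIndependent_el [IsDomain A] (hf : f ≠ 0) (h : v * y = aeval x f)
    (hi : AlgebraicIndependent k ![v, x]) : LinearIndependent k (el v x y) := by
  classical
  rw [linearIndependent_iff']
  intro s c hs m₀ hm₀
  set M : ℕ := s.sup fun m => (-m.1).toNat with hM
  have hMle : ∀ m ∈ s, (-m.1).toNat ≤ M := fun m hm =>
    Finset.le_sup (f := fun m : ℤ × ℕ => (-m.1).toNat) hm
  -- the elements of the polynomial ring
  set P : ℤ × ℕ → MvPolynomial (Fin 2) k := fun m =>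
    MvPolynomial.X 0 ^ ((M : ℤ) + m.1).toNat *
      aeval (MvPolynomial.X 1) (X ^ m.2 * f ^ (-m.1).toNat : k[X]) with hP
  have hPe : ∀ m ∈ s, MvPolynomial.aeval ![v, x] (P m) = v ^ M * el v x y m := by
    intro m hm
    have h1 := hMle m hm
    simp only [hP]
    rw [map_mul, map_pow, MvPolynomial.aeval_X, ← Polynomial.aeval_algHom_apply,
      MvPolynomial.aeval_X]
    simp only [Matrix.cons_val_zero, Matrix.cons_val_one, map_mul, map_pow, aeval_X]
    rw [← h, el]
    have h2 : v ^ M = v ^ (M - (-m.1).toNat) * v ^ (-m.1).toNat := by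
      rw [← pow_add, Nat.sub_add_cancel h1]
    have h3 : ((M : ℤ) + m.1).toNat = (M - (-m.1).toNat) + m.1.toNat := by omega
    rw [h3, h2, pow_add, mul_pow]
    ring
  have h0 : ∑ m ∈ s, c m • P m = 0 := by
    apply hi
    rw [map_zero, map_sum]
    have : ∀ m ∈ s, MvPolynomial.aeval ![v, x] (c m • P m) = v ^ M * (c m • el v x y m) := by
      intro m hm
      rw [map_smul, hPe m hm, mul_smul_comm]
    rw [Finset.sum_congr rfl this, ← Finset.mul_sum, hs, mul_zero]
  -- the polynomial in `x`
  have h4 : (∑ m ∈ s.filter (fun m => m.1 = m₀.1), c m • (X : k[X]) ^ m.2) *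
      f ^ (-m₀.1).toNat = 0 := by
    ext i
    have h5 := congrArg (MvPolynomial.coeff
      (Finsupp.single 0 ((M : ℤ) + m₀.1).toNat + Finsupp.single 1 i)) h0
    rw [MvPolynomial.coeff_sum, MvPolynomial.coeff_zero] at h5
    rw [coeff_zero, ← h5, Finset.sum_mul, finsetSum_coeff, Finset.sum_filter]
    refine Finset.sum_congr rfl fun m hm => ?_
    rw [MvPolynomial.coeff_smul, hP, coeff_X_mul_aeval]
    have h6 := hMle m hm
    have h7 := hMle m₀ hm₀
    by_cases hmm : m.1 = m₀.1
    · rw [if_pos hmm, if_pos (by rw [hmm]), hmm, smul_mul_assoc, coeff_smul]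
    · rw [if_neg hmm, if_neg (by omega), smul_zero]
  have h5 : ∑ m ∈ s.filter (fun m => m.1 = m₀.1), c m • (X : k[X]) ^ m.2 = 0 :=
    (mul_eq_zero.1 h4).resolve_right (pow_ne_zero _ hf)
  have h6 := congrArg (fun p : k[X] => p.coeff m₀.2) h5
  simp only [finsetSum_coeff, coeff_smul, coeff_X_pow, coeff_zero, smul_eq_mul, mul_ite, mul_one,
    mul_zero] at h6
  rw [Finset.sum_eq_single m₀] at h6
  · simpa using h6
  · intro m hm hne
    rw [if_neg]
    intro h7
    exact hne (Prod.ext (Finset.mem_filter.1 hm).2 h7.symm)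
  · intro h7
    exact absurd (Finset.mem_filter.2 ⟨hm₀, rfl⟩ :
      m₀ ∈ s.filter (fun m => m.1 = m₀.1)) h7

end basis

end Pool.Agent.LNDQ.RD
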