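import Mathlib
import Pool.Agent.LNDQ.RDSigA
import Pool.Agent.LNDQ.RDSg

set_option autoImplicit false

/-!
# The symbol map of `k[v,x,y]`, `v y = f(x)`
-/

open MvPolynomial

namespace Pool.Agent.LNDQ.RD

open Pool.Agent.R2F

section sig

variable {k A : Type} [Field k] [CommRing A] [IsDomain A] [Algebra k A]

/-- the monomial of the basis element `el v x y m` -/
noncomputable def mono (k : Type) [Field k] (b : ℕ) (m : ℤ × ℕ) : P2 k :=
  (X 0 * X 1) ^ m.2 * (X 0 ^ (b * m.1.toNat) * X 1 ^ (b * (-m.1).toNat))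

theorem mono_eq (b : ℕ) (m : ℤ × ℕ) : mono k b m =
    monomial (Finsupp.single 0 (m.2 + b * m.1.toNat) + Finsupp.single 1 (m.2 + b * (-m.1).toNat)) 1 := by
  unfold mono
  have h1 : ∀ i j : ℕ, (X 0 ^ i * X 1 ^ j : P2 k) =
      monomial (Finsupp.single 0 i + Finsupp.single 1 j) 1 := by
    intro i j
    rw [X_pow_eq_monomial, X_pow_eq_monomial, monomial_mul, one_mul]
  rw [← h1, mul_pow, pow_add, pow_add]
  ring

theorem mono_inj {b : ℕ} (hb : 0 < b) : Function.Injective fun m : ℤ × ℕ =>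
    (Finsupp.single 0 (m.2 + b * m.1.toNat) + Finsupp.single 1 (m.2 + b * (-m.1).toNat) :
      Fin 2 →₀ ℕ) := by
  rintro ⟨n, j⟩ ⟨n', j'⟩ h
  have h0 := DFunLike.congr_fun h 0
  have h1 := DFunLike.congr_fun h 1
  simp at h0 h1
  have h2 : (b : ℤ) * n = (b : ℤ) * n' := by
    have e0 : (j : ℤ) + b * (n.toNat : ℤ) = j' + b * (n'.toNat : ℤ) := by exact_mod_cast h0
    have e1 : (j : ℤ) + b * ((-n).toNat : ℤ) = j' + b * ((-n').toNat : ℤ) := by exact_mod_cast h1
    have e2 : (n.toNat : ℤ) - ((-n).toNat : ℤ) = n := by omega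
    have e3 : (n'.toNat : ℤ) - ((-n').toNat : ℤ) = n' := by omega
    rw [← e2, ← e3, mul_sub, mul_sub]
    linarith
  have h3 : n = n' := mul_left_cancel₀ (by exact_mod_cast hb.ne') h2
  subst h3
  have h4 : j = j' := by omega
  rw [h4]

theorem mono_li {b : ℕ} (hb : 0 < b) : LinearIndependent k (mono k b) := by
  have h1 : LinearIndependent k fun m : Fin 2 →₀ ℕ => (monomial m (1 : k) : P2 k) := by
    have := (basisMonomials (Fin 2) k).linearIndependent
    rwa [coe_basisMonomials] at this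
  have h2 := h1.comp _ (mono_inj hb)
  have h3 : mono k b = (fun m : Fin 2 →₀ ℕ => (monomial m (1 : k) : P2 k)) ∘ fun m : ℤ × ℕ =>
    (Finsupp.single 0 (m.2 + b * m.1.toNat) + Finsupp.single 1 (m.2 + b * (-m.1).toNat) :
      Fin 2 →₀ ℕ) := funext fun m => mono_eq b m
  rw [h3]
  exact h2

variable {f : Polynomial k} {v x y : A}

/-- the basis -/
noncomputable def bas (hf : f ≠ 0) (h : v * y = Polynomial.aeval x f)
    (hi : AlgebraicIndependent k ![v, x]) (ha : Algebra.adjoin k {v, x, y} = ⊤) :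
    Module.Basis (ℤ × ℕ) k A :=
  Module.Basis.mk (linearIndependent_el hf h hi) (span_eq_top h ha).ge

/-- the symbol map -/
noncomputable def sig (b : ℕ) (hf : f ≠ 0) (h : v * y = Polynomial.aeval x f)
    (hi : AlgebraicIndependent k ![v, x]) (ha : Algebra.adjoin k {v, x, y} = ⊤) : A →ₗ[k] P2 k :=
  (bas hf h hi ha).constr k (mono k b)

variable (b : ℕ) (hf : f ≠ 0) (h : v * y = Polynomial.aeval x f)
  (hi : AlgebraicIndependent k ![v, x]) (ha : Algebra.adjoin k {v, x, y} = ⊤)

theorem sig_el (m : ℤ × ℕ) : sig b hf h hi ha (el v x y m) = mono k b m := by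
  have h1 : el v x y m = bas hf h hi ha m := by
    rw [bas, Module.Basis.mk_apply]
  rw [h1, sig, Module.Basis.constr_basis]

theorem sig_inj (hb : 0 < b) : Function.Injective (sig b hf h hi ha) :=
  Module.Basis.injective_constr_of_linearIndependent (R₂ := k) _ (mono_li hb)

theorem sig_sum (g : Polynomial k) (n : ℤ) :
    sig b hf h hi ha (g.sum fun i c => c • el v x y (n, i)) =
      Polynomial.aeval (X 0 * X 1 : P2 k) g * (X 0 ^ (b * n.toNat) * X 1 ^ (b * (-n).toNat)) := by
  rw [Polynomial.sum_def, map_sum, Polynomial.aeval_def, Polynomial.eval₂_eq_sum,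
    Polynomial.sum_def, Finset.sum_mul]
  refine Finset.sum_congr rfl fun i _ => ?_
  rw [map_smul, sig_el, mono, Algebra.smul_def, mul_assoc]

/-- the symbol of `g(x) v^p y^q` -/
theorem sig_prod (g : Polynomial k) (p q : ℕ) :
    sig b hf h hi ha (Polynomial.aeval x g * (v ^ p * y ^ q)) =
      Polynomial.aeval (X 0 * X 1 : P2 k) (g * f ^ min p q) *
        (X 0 ^ (b * (p - q)) * X 1 ^ (b * (q - p))) := by
  rw [prod_eq h, sig_sum]
  congr 3
  · congr 1
    omega
  · congr 1
    omega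

theorem sig_wt (z : A) : Hw b 0 (sig b hf h hi ha z) := by
  classical
  have hz : z ∈ Submodule.span k (Set.range (el v x y)) := span_eq_top h ha ▸ Submodule.mem_top
  induction hz using Submodule.span_induction with
  | mem z hz =>
    obtain ⟨m, rfl⟩ := hz
    rw [sig_el, mono_eq]
    intro d hd
    have hd' := MvPolynomial.support_monomial_subset hd
    rw [Finset.mem_singleton] at hd'
    subst hd'
    refine ⟨(m.1.toNat : ℤ) - ((-m.1).toNat : ℤ), ?_⟩
    rw [Finsupp.add_apply, Finsupp.add_apply, Finsupp.single_eq_same,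
      Finsupp.single_eq_of_ne (by decide), Finsupp.single_eq_of_ne (by decide),
      Finsupp.single_eq_same]
    push_cast
    ring
  | zero => rw [map_zero]; exact Hw_zero
  | add a c _ _ h1 h2 => rw [map_add]; exact Hw_add h1 h2
  | smul c a _ h1 =>
    rw [map_smul]
    intro d hd
    exact h1 d (MvPolynomial.support_smul hd)

theorem sig_mv (n j : ℕ) : sig b hf h hi ha (v ^ n * x ^ j) = X 0 ^ (b * n + j) * X 1 ^ j := by
  have h1 : v ^ n * x ^ j = el v x y ((n : ℤ), j) := by
    simp [el, mul_comm]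
  rw [h1, sig_el, mono]
  simp only [Int.toNat_natCast]
  have h2 : (-(n : ℤ)).toNat = 0 := by omega
  rw [h2, mul_zero, pow_zero, mul_one, mul_pow, pow_add]
  ring

theorem sig_my (n j : ℕ) : sig b hf h hi ha (y ^ n * x ^ j) = X 0 ^ j * X 1 ^ (b * n + j) := by
  have h1 : y ^ n * x ^ j = el v x y (-(n : ℤ), j) := by
    have h2 : (-(n : ℤ)).toNat = 0 := by omega
    simp [el, mul_comm, h2]
  rw [h1, sig_el, mono]
  simp only [neg_neg, Int.toNat_natCast]
  have h2 : (-(n : ℤ)).toNat = 0 := by omega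
  rw [h2, mul_zero, pow_zero, one_mul, mul_pow, pow_add]
  ring

end sig

end Pool.Agent.LNDQ.RD
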