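import Mathlib
import Pool.Agent.LNDQ.RDSigB
import Pool.Agent.R2F.RedB

set_option autoImplicit false

/-!
# The top components of the symbols are multiplicative
-/

open MvPolynomial

namespace Pool.Agent.LNDQ.RD

open Pool.Agent.R2F Pool.Agent.LNDHom

namespace SigC

/-- all monomials of `P` have weight `< N` -/
def Lo {k : Type} [Field k] (w : Fin 2 → ℤ) (N : ℤ) (P : P2 k) : Prop :=
  ∀ e : Fin 2 →₀ ℕ, N ≤ (e 0 : ℤ) * w 0 + (e 1 : ℤ) * w 1 → coeff e P = 0

section

variable {k : Type} [Field k] {w : Fin 2 → ℤ} {N M : ℤ} {P Q : P2 k}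

theorem Lo.zero : Lo w N (0 : P2 k) := fun e _ => coeff_zero e

theorem Lo.add (hP : Lo w N P) (hQ : Lo w N Q) : Lo w N (P + Q) := fun e he => by
  rw [coeff_add, hP e he, hQ e he, add_zero]

theorem Lo.smul (c : k) (hP : Lo w N P) : Lo w N (c • P) := fun e he => by
  rw [coeff_smul, hP e he, smul_zero]

theorem Lo.mono (hP : Lo w N P) (h : N ≤ M) : Lo w M P := fun e he => hP e (h.trans he)

theorem Lo.sum {ι : Type} {s : Finset ι} {g : ι → P2 k} (h : ∀ i ∈ s, Lo w N (g i)) :
    Lo w N (∑ i ∈ s, g i) := by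
  classical
  induction s using Finset.induction_on with
  | empty => rw [Finset.sum_empty]; exact Lo.zero
  | insert a s ha ih =>
    rw [Finset.sum_insert ha]
    exact (h a (Finset.mem_insert_self a s)).add
      (ih fun i hi => h i (Finset.mem_insert_of_mem hi))

theorem Lo.comp (hP : Lo w N P) {d : ℤ} (hd : N ≤ d) : weightedHomogeneousComponent w d P = 0 := by
  classical
  ext e
  rw [coeff_weightedHomogeneousComponent, coeff_zero]
  split_ifs with h
  · rw [RedBAux.weight_two] at h
    exact hP e (by omega)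
  · rfl

theorem weight_le (h : ∀ d, N < d → weightedHomogeneousComponent w d P = 0) {e : Fin 2 →₀ ℕ}
    (he : coeff e P ≠ 0) : (e 0 : ℤ) * w 0 + (e 1 : ℤ) * w 1 ≤ N := by
  classical
  by_contra hlt
  push Not at hlt
  have h1 := congrArg (coeff e) (h _ hlt)
  rw [coeff_weightedHomogeneousComponent, RedBAux.weight_two, if_pos rfl, coeff_zero] at h1
  exact he h1

theorem coeff_XX (i j : ℕ) (e : Fin 2 →₀ ℕ) :
    coeff e (X 0 ^ i * X 1 ^ j : P2 k) = if e 0 = i ∧ e 1 = j then 1 else 0 := by
  classical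
  have h1 : (X 0 ^ i * X 1 ^ j : P2 k) =
      monomial (Finsupp.single 0 i + Finsupp.single 1 j) 1 := by
    rw [X_pow_eq_monomial, X_pow_eq_monomial, monomial_mul, one_mul]
  rw [h1, coeff_monomial]
  congr 1
  rw [eq_iff_iff]
  constructor
  · rintro rfl
    simp
  · rintro ⟨rfl, rfl⟩
    ext a
    fin_cases a <;> simp

/-- a multiple of a polynomial of degree `< r` in `s t` -/
theorem Lo.low (hw : ∀ i, 0 < w i) (g : Polynomial k) (r p q : ℕ) (hg : g.degree < r)
    (hN : (r : ℤ) * (w 0 + w 1) + p * w 0 + q * w 1 ≤ N) :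
    Lo w N (Polynomial.aeval (X 0 * X 1 : P2 k) g * (X 0 ^ p * X 1 ^ q)) := by
  rw [Polynomial.aeval_def, Polynomial.eval₂_eq_sum, Polynomial.sum_def, Finset.sum_mul]
  refine Lo.sum fun i hi => ?_
  have hi' : i < r := by
    have h1 := Polynomial.le_degree_of_mem_supp i hi
    exact_mod_cast lt_of_le_of_lt h1 hg
  have h2 : algebraMap k (P2 k) (g.coeff i) * (X 0 * X 1) ^ i * (X 0 ^ p * X 1 ^ q) =
      g.coeff i • (X 0 ^ (i + p) * X 1 ^ (i + q) : P2 k) := by
    rw [Algebra.smul_def, mul_pow, pow_add, pow_add]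
    ring
  rw [h2]
  refine Lo.smul _ fun e he => ?_
  rw [coeff_XX, if_neg]
  rintro ⟨h3, h4⟩
  rw [h3, h4] at he
  push_cast at he
  have h5 : (i : ℤ) + 1 ≤ r := by exact_mod_cast hi'
  have h6 : 0 < w 0 + w 1 := add_pos (hw 0) (hw 1)
  nlinarith [mul_le_mul_of_nonneg_right h5 h6.le]

end

/-- the weight of the symbol of `el v x y m` -/
def We (b : ℕ) (w : Fin 2 → ℤ) (m : ℤ × ℕ) : ℤ :=
  ((m.2 + b * m.1.toNat : ℕ) : ℤ) * w 0 + ((m.2 + b * (-m.1).toNat : ℕ) : ℤ) * w 1

variable {k A : Type} [Field k] [CommRing A] [IsDomain A] [Algebra k A]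
  {f : Polynomial k} {v x y : A} (hf : f.Monic) (h : v * y = Polynomial.aeval x f)
  (hi : AlgebraicIndependent k ![v, x]) (ha : Algebra.adjoin k {v, x, y} = ⊤)

include hf in
/-- the product of two basis elements -/
theorem lo_el {w : Fin 2 → ℤ} (hw : ∀ i, 0 < w i) (m m' : ℤ × ℕ) :
    Lo w (We f.natDegree w m + We f.natDegree w m')
      (sig f.natDegree hf.ne_zero h hi ha (el v x y m * el v x y m') -
        mono k f.natDegree m * mono k f.natDegree m') := by
  obtain ⟨b, hb⟩ : ∃ b, b = f.natDegree := ⟨_, rfl⟩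
  rw [el_mul (k := k), sig_prod]
  obtain ⟨p, hp⟩ : ∃ p, p = m.1.toNat + m'.1.toNat := ⟨_, rfl⟩
  obtain ⟨q, hq⟩ : ∃ q, q = (-m.1).toNat + (-m'.1).toNat := ⟨_, rfl⟩
  obtain ⟨j, hj⟩ : ∃ j, j = m.2 + m'.2 := ⟨_, rfl⟩
  rw [← hp, ← hq, ← hj, ← hb]
  obtain ⟨g, hg⟩ : ∃ g : Polynomial k, g = f ^ min p q - Polynomial.X ^ (b * min p q) := ⟨_, rfl⟩
  have hfe : f ^ min p q = g + Polynomial.X ^ (b * min p q) := by rw [hg, sub_add_cancel]
  have hgd : g.degree < (b * min p q : ℕ) := by
    have h1 : (f ^ min p q).Monic := hf.pow _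
    have h2 : (f ^ min p q).natDegree = b * min p q := by rw [hf.natDegree_pow, hb, mul_comm]
    have h3 : (f ^ min p q).degree = (b * min p q : ℕ) := by
      rw [Polynomial.degree_eq_natDegree h1.ne_zero, h2]
    rw [hg, ← h3]
    refine Polynomial.degree_sub_lt_left ?_ h1.ne_zero ?_
    · rw [h3, Polynomial.degree_X_pow]
    · rw [h1.leadingCoeff, (Polynomial.monic_X_pow _).leadingCoeff]
  have e1 : b * min p q + b * (p - q) = b * p := by
    rw [← mul_add]
    congr 1
    omega
  have e2 : b * min p q + b * (q - p) = b * q := by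
    rw [← mul_add]
    congr 1
    omega
  have h4 : Polynomial.aeval (X 0 * X 1 : P2 k) (Polynomial.X ^ j * f ^ min p q) *
      (X 0 ^ (b * (p - q)) * X 1 ^ (b * (q - p))) - mono k b m * mono k b m' =
      Polynomial.aeval (X 0 * X 1 : P2 k) (Polynomial.X ^ j * g) *
        (X 0 ^ (b * (p - q)) * X 1 ^ (b * (q - p))) := by
    have h5 : mono k b m * mono k b m' = (X 0 * X 1) ^ j * (X 0 ^ (b * p) * X 1 ^ (b * q)) := by
      unfold mono
      rw [hj, hp, hq, mul_add, mul_add, pow_add, pow_add, pow_add]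
      ring
    rw [h5, hfe, mul_add, map_add, map_mul, map_mul, map_pow, map_pow, Polynomial.aeval_X, ← e1,
      ← e2, pow_add (X 0), pow_add (X 1)]
    rw [mul_pow _ _ (b * min p q)]
    ring
  rw [h4]
  refine Lo.low hw _ (j + b * min p q) _ _ ?_ ?_
  · by_cases hg0 : g = 0
    · rw [hg0, mul_zero, Polynomial.degree_zero]
      exact WithBot.bot_lt_coe _
    · rw [Polynomial.degree_mul, Polynomial.degree_X_pow]
      push_cast
      exact WithBot.add_lt_add_left (by simp) (by exact_mod_cast hgd)
  · have h7 : (b : ℤ) * ((min p q : ℕ) : ℤ) + b * ((p - q : ℕ) : ℤ) = b * p := by exact_mod_cast e1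
    have h8 : (b : ℤ) * ((min p q : ℕ) : ℤ) + b * ((q - p : ℕ) : ℤ) = b * q := by exact_mod_cast e2
    have h9 : We b w m + We b w m' = ((j : ℤ) + b * p) * w 0 + (j + b * q) * w 1 := by
      unfold We
      rw [hj, hp, hq]
      push_cast
      ring
    rw [h9]
    push_cast at h7 h8 ⊢
    apply le_of_eq
    linear_combination w 0 * h7 + w 1 * h8

/-- the exponent of `mono k b m` -/
noncomputable def exq (b : ℕ) (m : ℤ × ℕ) : Fin 2 →₀ ℕ :=
  Finsupp.single 0 (m.2 + b * m.1.toNat) + Finsupp.single 1 (m.2 + b * (-m.1).toNat)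

/-- the coefficients of the symbol -/
theorem coeff_sig (hb : 0 < f.natDegree) (z : A) (m : ℤ × ℕ) :
    coeff (exq f.natDegree m) (sig f.natDegree hf.ne_zero h hi ha z) =
      (bas hf.ne_zero h hi ha).repr z m := by
  classical
  rw [sig, Module.Basis.constr_apply, Finsupp.sum, coeff_sum]
  have h1 : ∀ m' : ℤ × ℕ, coeff (exq f.natDegree m) (mono k f.natDegree m') =
      if m' = m then 1 else 0 := by
    intro m'
    rw [mono_eq, coeff_monomial]
    congr 1
    rw [eq_iff_iff]
    exact ⟨fun h2 => mono_inj hb h2, fun h2 => by rw [h2]; rfl⟩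
  rw [Finset.sum_congr rfl fun m' _ => by rw [coeff_smul, h1 m']]
  rw [Finset.sum_eq_single m]
  · rw [if_pos rfl, smul_eq_mul, mul_one]
  · intro m' _ hne
    rw [if_neg hne, smul_zero]
  · intro h2
    rw [Finsupp.notMem_support_iff.1 h2, zero_smul]

/-- an element whose symbol has weight `≤ N` is a combination of basis elements of weight `≤ N` -/
theorem mem_span (hb : 0 < f.natDegree) {w : Fin 2 → ℤ} {N : ℤ} {z : A}
    (hz : ∀ d, N < d → weightedHomogeneousComponent w d
      (sig f.natDegree hf.ne_zero h hi ha z) = 0) :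
    z ∈ Submodule.span k {t | ∃ m, We f.natDegree w m ≤ N ∧ t = el v x y m} := by
  classical
  have h1 : z = ∑ m ∈ ((bas hf.ne_zero h hi ha).repr z).support,
      (bas hf.ne_zero h hi ha).repr z m • el v x y m := by
    conv_lhs => rw [← (bas hf.ne_zero h hi ha).linearCombination_repr z]
    rw [Finsupp.linearCombination_apply, Finsupp.sum]
    refine Finset.sum_congr rfl fun m _ => ?_
    rw [bas, Module.Basis.mk_apply]
  rw [h1]
  refine Submodule.sum_mem _ fun m hm => Submodule.smul_mem _ _ (Submodule.subset_span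
    ⟨m, ?_, rfl⟩)
  have h2 := weight_le hz (e := exq f.natDegree m) (by
    rw [coeff_sig hf h hi ha hb]
    exact Finsupp.mem_support_iff.1 hm)
  have h3 : exq f.natDegree m 0 = m.2 + f.natDegree * m.1.toNat := by simp [exq]
  have h4 : exq f.natDegree m 1 = m.2 + f.natDegree * (-m.1).toNat := by simp [exq]
  rw [h3, h4] at h2
  exact h2

include hf in
theorem lo_span {w : Fin 2 → ℤ} (hw : ∀ i, 0 < w i) {N M : ℤ} {z z' : A}
    (hz : z ∈ Submodule.span k {t | ∃ m, We f.natDegree w m ≤ N ∧ t = el v x y m})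
    (hz' : z' ∈ Submodule.span k {t | ∃ m, We f.natDegree w m ≤ M ∧ t = el v x y m}) :
    Lo w (N + M) (sig f.natDegree hf.ne_zero h hi ha (z * z') -
      sig f.natDegree hf.ne_zero h hi ha z * sig f.natDegree hf.ne_zero h hi ha z') := by
  induction hz using Submodule.span_induction with
  | mem z hz =>
    obtain ⟨m, hm, rfl⟩ := hz
    induction hz' using Submodule.span_induction with
    | mem z' hz' =>
      obtain ⟨m', hm', rfl⟩ := hz'
      rw [sig_el, sig_el]
      exact (lo_el hf h hi ha hw m m').mono (add_le_add hm hm')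
    | zero => rw [mul_zero, map_zero, mul_zero, sub_zero]; exact Lo.zero
    | add a c _ _ h1 h2 =>
      have e : sig f.natDegree hf.ne_zero h hi ha (el v x y m * (a + c)) -
          sig f.natDegree hf.ne_zero h hi ha (el v x y m) *
            sig f.natDegree hf.ne_zero h hi ha (a + c) =
          (sig f.natDegree hf.ne_zero h hi ha (el v x y m * a) -
            sig f.natDegree hf.ne_zero h hi ha (el v x y m) *
              sig f.natDegree hf.ne_zero h hi ha a) +
          (sig f.natDegree hf.ne_zero h hi ha (el v x y m * c) -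
            sig f.natDegree hf.ne_zero h hi ha (el v x y m) *
              sig f.natDegree hf.ne_zero h hi ha c) := by
        rw [mul_add, map_add, map_add]
        ring
      rw [e]
      exact h1.add h2
    | smul c a _ h1 =>
      have e : sig f.natDegree hf.ne_zero h hi ha (el v x y m * (c • a)) -
          sig f.natDegree hf.ne_zero h hi ha (el v x y m) *
            sig f.natDegree hf.ne_zero h hi ha (c • a) =
          c • (sig f.natDegree hf.ne_zero h hi ha (el v x y m * a) -
            sig f.natDegree hf.ne_zero h hi ha (el v x y m) *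
              sig f.natDegree hf.ne_zero h hi ha a) := by
        rw [mul_smul_comm, map_smul, map_smul, mul_smul_comm, smul_sub]
      rw [e]
      exact h1.smul c
  | zero => rw [zero_mul, map_zero, zero_mul, sub_zero]; exact Lo.zero
  | add a c _ _ h1 h2 =>
    have e : sig f.natDegree hf.ne_zero h hi ha ((a + c) * z') -
        sig f.natDegree hf.ne_zero h hi ha (a + c) * sig f.natDegree hf.ne_zero h hi ha z' =
        (sig f.natDegree hf.ne_zero h hi ha (a * z') -
          sig f.natDegree hf.ne_zero h hi ha a * sig f.natDegree hf.ne_zero h hi ha z') +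
        (sig f.natDegree hf.ne_zero h hi ha (c * z') -
          sig f.natDegree hf.ne_zero h hi ha c * sig f.natDegree hf.ne_zero h hi ha z') := by
      rw [add_mul, map_add, map_add]
      ring
    rw [e]
    exact h1.add h2
  | smul c a _ h1 =>
    have e : sig f.natDegree hf.ne_zero h hi ha ((c • a) * z') -
        sig f.natDegree hf.ne_zero h hi ha (c • a) * sig f.natDegree hf.ne_zero h hi ha z' =
        c • (sig f.natDegree hf.ne_zero h hi ha (a * z') -
          sig f.natDegree hf.ne_zero h hi ha a * sig f.natDegree hf.ne_zero h hi ha z') := by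
      rw [smul_mul_assoc, map_smul, map_smul, smul_mul_assoc, smul_sub]
    rw [e]
    exact h1.smul c

include hf in
/-- the field `mul` of `Sg` -/
theorem sig_mul (hb : 0 < f.natDegree) (w : Fin 2 → ℤ) (hw : ∀ i, 0 < w i) (z z' : A) (N M : ℤ)
    (hz : ∀ d, N < d → weightedHomogeneousComponent w d
      (sig f.natDegree hf.ne_zero h hi ha z) = 0)
    (hz' : ∀ d, M < d → weightedHomogeneousComponent w d
      (sig f.natDegree hf.ne_zero h hi ha z') = 0) :
    (∀ d, N + M < d → weightedHomogeneousComponent w d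
      (sig f.natDegree hf.ne_zero h hi ha (z * z')) = 0) ∧
      weightedHomogeneousComponent w (N + M) (sig f.natDegree hf.ne_zero h hi ha (z * z')) =
        weightedHomogeneousComponent w N (sig f.natDegree hf.ne_zero h hi ha z) *
          weightedHomogeneousComponent w M (sig f.natDegree hf.ne_zero h hi ha z') := by
  have h1 := lo_span hf h hi ha hw (mem_span hf h hi ha hb hz) (mem_span hf h hi ha hb hz')
  have h2 : ∀ d, N + M ≤ d → weightedHomogeneousComponent w d
      (sig f.natDegree hf.ne_zero h hi ha (z * z')) = weightedHomogeneousComponent w d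
        (sig f.natDegree hf.ne_zero h hi ha z * sig f.natDegree hf.ne_zero h hi ha z') := by
    intro d hd
    have h3 := h1.comp hd
    rwa [map_sub, sub_eq_zero] at h3
  constructor
  · intro d hd
    rw [h2 d hd.le]
    exact LeadAux.mul_top (mvGr k w hw) hz hz' d hd
  · rw [h2 _ le_rfl]
    exact (mvGr k w hw).top_mul hz hz'

end SigC

end Pool.Agent.LNDQ.RD
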