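import Mathlib
import Pool.Agent.LNDQ.RDDefs
import Pool.Agent.LNDQ.RDSigC

/-!
# The symbol map of `k[v, x, y]`, `v y = f(x)`
-/

set_option autoImplicit false

open MvPolynomial

namespace Pool.Agent.LNDQ.RD

open Pool.Agent.R2F Pool.Agent.LNDHom

variable {k A : Type} [Field k] [CommRing A] [Algebra k A]

/-- RDSig.lean -/
theorem exists_sg [IsDomain A] {v x y : A} {f : Polynomial k} (H : Pr0 v x y f) (hb : 2 ≤ f.natDegree) :
    ∃ σ : A →ₗ[k] P2 k, Sg f.natDegree v x y σ :=
  ⟨sig f.natDegree H.monic.ne_zero H.rel H.ind H.gen,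
    { inj := sig_inj f.natDegree H.monic.ne_zero H.rel H.ind H.gen (by omega)
      wt := sig_wt f.natDegree H.monic.ne_zero H.rel H.ind H.gen
      mv := sig_mv f.natDegree H.monic.ne_zero H.rel H.ind H.gen
      my := sig_my f.natDegree H.monic.ne_zero H.rel H.ind H.gen
      mul := SigC.sig_mul H.monic H.rel H.ind H.gen (by omega) }⟩

end Pool.Agent.LNDQ.RD
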