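import Mathlib
import Pool.Agent.LNDQ.RDDefs

set_option autoImplicit false

open MvPolynomial

namespace Pool.Agent.LNDQ.RD

open Pool.Agent.R2F Pool.Agent.LNDHom

variable {k A : Type} [Field k] [CommRing A] [Algebra k A]

namespace SwA

/-- the swap of exponents -/
noncomputable def e : Fin 2 ≃ Fin 2 := Equiv.swap 0 1

theorem sw_eq (P : P2 k) : sw P = rename (e : Fin 2 → Fin 2) P := rfl

theorem e0 : e 0 = 1 := Equiv.swap_apply_left 0 1

theorem e1 : e 1 = 0 := Equiv.swap_apply_right 0 1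

theorem ee (m : Fin 2 →₀ ℕ) : (m.mapDomain e).mapDomain e = m := by
  rw [← Finsupp.mapDomain_comp]
  have : (e : Fin 2 → Fin 2) ∘ e = id := by
    funext i
    change Equiv.swap (0 : Fin 2) 1 (Equiv.swap (0 : Fin 2) 1 i) = i
    simp
  rw [this, Finsupp.mapDomain_id]

theorem coeff_sw (P : P2 k) (m : Fin 2 →₀ ℕ) : coeff m (sw P) = coeff (m.mapDomain e) P := by
  have h := coeff_rename_mapDomain (e : Fin 2 → Fin 2) e.injective P (m.mapDomain e)
  rw [ee] at h
  exact h

theorem md0 (m : Fin 2 →₀ ℕ) : (m.mapDomain e) 0 = m 1 := by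
  have h := Finsupp.mapDomain_apply (e.injective) m 1
  rwa [e1] at h

theorem md1 (m : Fin 2 →₀ ℕ) : (m.mapDomain e) 1 = m 0 := by
  have h := Finsupp.mapDomain_apply (e.injective) m 0
  rwa [e0] at h

theorem wt_eq (w : Fin 2 → ℤ) (m : Fin 2 →₀ ℕ) : Finsupp.weight w m = m 0 * w 0 + m 1 * w 1 := by
  rw [Finsupp.weight_apply, Finsupp.sum_fintype _ _ (fun i => by simp), Fin.sum_univ_two]
  simp

theorem comp_sw (w : Fin 2 → ℤ) (d : ℤ) (P : P2 k) :
    weightedHomogeneousComponent w d (sw P) = sw (weightedHomogeneousComponent (w ∘ e) d P) := by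
  classical
  ext m
  rw [coeff_weightedHomogeneousComponent, coeff_sw, coeff_sw, coeff_weightedHomogeneousComponent]
  have h : Finsupp.weight (w ∘ e) (m.mapDomain e) = Finsupp.weight w m := by
    rw [wt_eq, wt_eq, md0, md1, Function.comp_apply, Function.comp_apply, e0, e1]
    ring
  rw [h]

theorem inj : Function.Injective (sw : P2 k →ₐ[k] P2 k) := rename_injective _ e.injective

theorem sw_X0 : sw (X 0 : P2 k) = X 1 := by
  rw [sw_eq, rename_X, e0]

theorem sw_X1 : sw (X 1 : P2 k) = X 0 := by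
  rw [sw_eq, rename_X, e1]

theorem hw {b : ℕ} {P : P2 k} (h : Hw b 0 P) : Hw b 0 (sw P) := by
  intro m hm
  have h1 : m.mapDomain e ∈ P.support := by
    rw [mem_support_iff] at hm ⊢
    rwa [coeff_sw] at hm
  have h2 := h _ h1
  rw [md0, md1] at h2
  have h3 := (dvd_neg (α := ℤ)).mpr h2
  have h4 : -((m 1 : ℤ) - (m 0 : ℤ) - 0) = (m 0 : ℤ) - (m 1 : ℤ) - 0 := by ring
  rwa [h4] at h3

end SwA

open SwA

theorem Sg.swap {b : ℕ} {v x y : A} {σ : A →ₗ[k] P2 k} (S : Sg b v x y σ) :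
    Sg b y x v ((sw : P2 k →ₐ[k] P2 k).toLinearMap ∘ₗ σ) where
  inj := SwA.inj.comp S.inj
  wt z := hw (S.wt z)
  mv n j := by
    change sw (σ (y ^ n * x ^ j)) = _
    rw [S.my, map_mul, map_pow, map_pow, sw_X0, sw_X1, mul_comm]
  my n j := by
    change sw (σ (v ^ n * x ^ j)) = _
    rw [S.mv, map_mul, map_pow, map_pow, sw_X0, sw_X1, mul_comm]
  mul w hw' z z' N M hN hM := by
    have hz : ∀ (d : ℤ) (t : A), weightedHomogeneousComponent w d
        (((sw : P2 k →ₐ[k] P2 k).toLinearMap ∘ₗ σ) t) =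
        sw (weightedHomogeneousComponent (w ∘ e) d (σ t)) := fun d t => comp_sw w d (σ t)
    have h1 := S.mul (w ∘ e) (fun i => hw' (e i)) z z' N M
      (fun d hd => SwA.inj (by rw [← hz, hN d hd, map_zero]))
      (fun d hd => SwA.inj (by rw [← hz, hM d hd, map_zero]))
    refine ⟨fun d hd => ?_, ?_⟩
    · rw [hz, h1.1 d hd, map_zero]
    · rw [hz, hz, hz, h1.2, map_mul]

theorem sz_sw (P : P2 k) : sz (sw P) = sz P := by
  have h0 := degreeOf_rename_of_injective (p := P) e.injective 0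
  have h1 := degreeOf_rename_of_injective (p := P) e.injective 1
  rw [e0] at h0
  rw [e1] at h1
  unfold sz
  rw [sw_eq, h0, h1, add_comm]

end Pool.Agent.LNDQ.RD
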