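import Mathlib
import Pool.Agent.LNDQ.RDSig
import Pool.Agent.LNDQ.RDSwap
import Pool.Agent.LNDQ.RDPolyA
import Pool.Agent.LNDQ.RDLift
import Pool.Agent.LNDQ.RDEnd
import Pool.Agent.LNDQ.RDMoveA
import Pool.Agent.LNDQ.RDMoveB
import Pool.Agent.LNDQ.RDNc
import Pool.Agent.LNDQ.MvPres

/-! assembly of group RD: Rentschler's theorem for `v y = f(x)` -/

set_option autoImplicit false

namespace Pool.Agent.LNDQ

theorem Mv.trans {k R S : Type} [CommRing k] [CommRing R] [CommRing S] [Algebra k S] [Algebra R S]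
    {f : Polynomial R} {a b c a1 b1 c1 a2 b2 c2 : S} (h1 : Mv k f a b c a1 b1 c1)
    (h2 : Mv k f a1 b1 c1 a2 b2 c2) : Mv k f a b c a2 b2 c2 := by
  induction h2 with
  | refl => exact h1
  | elem q y'' h e ih => exact Mv.elem q y'' ih e
  | swap h ih => exact Mv.swap ih

namespace RD

open MvPolynomial Pool.Agent.R2F Pool.Agent.LNDHom

variable {k A : Type} [Field k] [CommRing A] [Algebra k A]

/-- one move -/
theorem rd_step [CharZero k] [IsDomain A] {v x y : A} {f : Polynomial k} (H : Pr0 v x y f)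
    (hb : 2 ≤ f.natDegree) {σ : A →ₗ[k] P2 k} (S : Sg f.natDegree v x y σ) {P : A} {w0 m : ℕ} {c l : k}
    (T : Tp f.natDegree w0 m c l (σ P)) :
    ∃ (v' x' y' : A) (σ' : A →ₗ[k] P2 k), Mv k f v x y v' x' y' ∧ Pr0 v' x' y' f ∧
      Sg f.natDegree v' x' y' σ' ∧ sz (σ' P) < sz (σ P) := by
  obtain ⟨j, hj⟩ := T.dvd
  have hj1 : 1 ≤ j := by
    rcases Nat.eq_zero_or_pos j with h | h
    · subst h; omega
    · exact h
  have hdiv : (w0 + 1) / f.natDegree = j := by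
    rw [hj]; exact Nat.mul_div_cancel_left j (by omega)
  obtain ⟨v', hv', H'⟩ := move_pr H (-(Polynomial.C l * Polynomial.X ^ (j - 1)))
  have hx' : x + y * Polynomial.aeval y (-(Polynomial.C l * Polynomial.X ^ (j - 1))) =
      x - l • y ^ ((w0 + 1) / f.natDegree) := by
    rw [hdiv, map_neg, map_mul, Polynomial.aeval_C, map_pow, Polynomial.aeval_X, Algebra.smul_def]
    have hp : y ^ j = y ^ (j - 1) * y := by
      rw [← pow_succ, Nat.sub_add_cancel hj1]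
    rw [hp]
    ring
  obtain ⟨σ', S'⟩ := exists_sg H' hb
  refine ⟨v', _, y, σ', ?_, H', S', move_sz H hb S T hx' H' S'⟩
  exact Mv.swap (Mv.elem _ v' (Mv.swap (Mv.refl v x y)) (by rw [mul_comm]; exact hv'))

theorem rd_ind [CharZero k] [IsDomain A] {f : Polynomial k} (hb : 2 ≤ f.natDegree) (Δ : Derivation k A A)
    (hln : ∀ z, ∃ n, (⇑Δ)^[n] z = 0) (h0 : ∃ z, Δ z ≠ 0) {P : A} (hP : Δ P = 0)
    (hc : ∀ c : k, P ≠ algebraMap k A c) (n : ℕ) : ∀ (v x y : A) (σ : A →ₗ[k] P2 k), Pr0 v x y f →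
    Sg f.natDegree v x y σ → sz (σ P) ≤ n → ∃ v1 x1 y1 : A, Mv k f v x y v1 x1 y1 ∧ Δ v1 = 0 := by
  induction n with
  | zero =>
    intro v x y σ H S hn
    refine ⟨v, x, y, Mv.refl v x y, kills_of_deg H hb S Δ hP hc ?_⟩
    unfold sz at hn
    omega
  | succ n ih =>
    intro v x y σ H S hn
    have hL := exists_lift H hb S Δ hln h0 P hP
    have hF : ∀ c, σ P ≠ C c := by
      intro c hcc
      apply hc c
      apply S.inj
      have h1 : σ 1 = 1 := by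
        have := S.mv 0 0
        simpa using this
      rw [Algebra.algebraMap_eq_smul_one, map_smul, h1, hcc, smul_eq_C_mul, mul_one]
    rcases polygon f.natDegree hb (σ P) (S.wt P) hF hL with h | h | ⟨w0, m, c, l, T⟩ | ⟨w0, m, c, l, T⟩
    · refine ⟨y, x, v, Mv.swap (Mv.refl v x y), kills_of_deg H.swap hb S.swap Δ hP hc ?_⟩
      have h2 := sz_sw (σ P)
      have h3 : degreeOf 1 (sw (σ P)) = degreeOf 0 (σ P) := by
        have h4 := degreeOf_rename_of_injective (Equiv.swap (0 : Fin 2) 1).injective (p := σ P) 0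
        rw [Equiv.swap_apply_left] at h4
        exact h4
      change degreeOf 1 (sw (σ P)) = 0
      rw [h3, h]
    · exact ⟨v, x, y, Mv.refl v x y, kills_of_deg H hb S Δ hP hc h⟩
    · obtain ⟨v', x', y', σ', hm, H', S', hs⟩ := rd_step H hb S T
      obtain ⟨v1, x1, y1, hm1, hv1⟩ := ih v' x' y' σ' H' S' (by omega)
      exact ⟨v1, x1, y1, hm.trans hm1, hv1⟩
    · obtain ⟨v', x', y', σ', hm, H', S', hs⟩ := rd_step H.swap hb S.swap (P := P) T
      have h2 : sz (((sw : P2 k →ₐ[k] P2 k).toLinearMap ∘ₗ σ) P) = sz (σ P) := sz_sw (σ P)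
      obtain ⟨v1, x1, y1, hm1, hv1⟩ := ih v' x' y' σ' H' S' (by omega)
      exact ⟨v1, x1, y1, (Mv.swap (Mv.refl v x y)).trans (hm.trans hm1), hv1⟩

theorem rd [CharZero k] [IsDomain A] {v x y : A} {f : Polynomial k} (H : Pr0 v x y f)
    (hb : 2 ≤ f.natDegree) (Δ : Derivation k A A) (hln : ∀ z, ∃ n, (⇑Δ)^[n] z = 0) (h0 : ∃ z, Δ z ≠ 0) :
    ∃ v1 x1 y1 : A, Mv k f v x y v1 x1 y1 ∧ Δ v1 = 0 := by
  obtain ⟨P, hP, hc⟩ := exists_nonconst H Δ hln
  obtain ⟨σ, S⟩ := exists_sg H hb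
  exact rd_ind hb Δ hln h0 hP hc _ v x y σ H S le_rfl

end RD

section

variable {k R0 : Type} [Field k] [CommRing R0] [IsDomain R0] [Algebra k R0] {f : Polynomial k} {v x y : R0}

/-- Rentschler's theorem for `v y = f(x)` -/
theorem rd_main [CharZero k] [IsAlgClosed k] (hP : Pres f v x y)
    (hg : Algebra.adjoin k {v, x, y} = ⊤) (Δ : Derivation k R0 R0) (hne : ∃ z, Δ z ≠ 0)
    (hln : ∀ z, ∃ n, (⇑Δ)^[n] z = 0) :
    ∃ v1 x1 y1 : R0, Mv k f v x y v1 x1 y1 ∧ Δ v1 = 0 :=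
  RD.rd ⟨hP.monic, hP.rel, hg, hP.ind⟩ hP.deg Δ hln hne

end

end Pool.Agent.LNDQ
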