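import Pool.Agent.LNDQ.StepHyp
import Pool.Agent.LNDQ.RD
import Pool.Agent.LNDQ.RDNc
import Pool.Agent.LNDQ.NNMain

/-!
STEP (MP_821812, full Q1).
-/

set_option autoImplicit false

open Polynomial

namespace Pool.Agent.LNDQ

/-- STEP: either `v1 = c ≠ 0` on the exceptional curve, or `v1` is transcendental and `x1` rational in
`v1` there -/
theorem step_cases {k S : Type} [Field k] [CharZero k] [CommRing S] [IsDomain S] [Algebra k S]
    {R : Subalgebra k S} {u : R} {f : R[X]} {v x y : S}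
    [IsAlgClosed k] (hE : Env R u f v x y) {N W W0 e : ℕ} {G : S}
    (hG : GD R u f.natDegree v x y N W W0 e G) (he : 2 ≤ e) (E : Derivation k S S)
    (hu : ¬ (u : S) ∣ E u) (hnil : ∀ z : S, ∃ r : R, IsUnit r ∧ ∃ m, (⇑E)^[m] (r * z) = 0) :
    ∃ v1 x1 y1 : S, Mv k f v x y v1 x1 y1 ∧
      ((∃ c : k, c ≠ 0 ∧ (u : S) ∣ v1 - algebraMap k S c) ∨
        ((∀ q : k[X], (u : S) ∣ aeval v1 q → q = 0) ∧
          ∃ a b : k[X], b ≠ 0 ∧ (u : S) ∣ aeval v1 b * x1 - aeval v1 a)) :=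
  step_hyp hE (fun _ _ _ _ _ _ _ _ _ _ _ hR => nn_main hE hG he E hu hnil hR)
    fun _ _ _ _ _ _ _ _ hP hg Δ hne hln =>
      ⟨rd_main hP hg Δ hne hln, fun hv z hz => ker_eq hP hg Δ hne hln hv z hz⟩

end Pool.Agent.LNDQ
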