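import Pool.Agent.LNDQ.TrShiftB
import Pool.Agent.LNDQ.MvPres

set_option autoImplicit false

/-! Group TR: shift `x ↦ x - θ` of the environment. -/

namespace Pool.Agent.LNDQ.Tr

open Polynomial

section

variable {k S : Type} [Field k] [CommRing S] [IsDomain S] [Algebra k S] {R : Subalgebra k S}
  {u : R} {f : R[X]} {v x y v' x' y' : S}

private theorem alg_kR (θ : k) : algebraMap R S (algebraMap k R θ) = algebraMap k S θ := rfl

/-- shift of the presentation -/
theorem pres_shift (P : Pres f v x y) (θ : k) :
    Pres (f.comp (X + C (algebraMap k R θ))) v (x - algebraMap k S θ) y := by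
  refine ⟨P.monic.comp_X_add_C _, ?_, ?_, ?_⟩
  · rw [natDegree_comp, natDegree_X_add_C, mul_one]
    exact P.deg
  · rw [aeval_comp]
    have : aeval (x - algebraMap k S θ) (X + C (algebraMap k R θ)) = x := by
      simp only [map_add, aeval_X, aeval_C, alg_kR]
      ring
    rw [this]
    exact P.rel
  · have h : -(algebraMap k S θ) ∈ Algebra.adjoin R {v} := by
      rw [← alg_kR (R := R), ← map_neg]
      exact Subalgebra.algebraMap_mem _ _
    have := ai_add h P.ind
    rwa [← sub_eq_add_neg] at this

/-- shift of the ring -/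
theorem cx_shift (v x y : S) (θ : k) : Cx R v (x - algebraMap k S θ) y = Cx R v x y := by
  have key : ∀ (x : S) (θ : k), Algebra.adjoin R {v, x - algebraMap k S θ, y}
      ≤ Algebra.adjoin R {v, x, y} := by
    intro x θ
    rw [Algebra.adjoin_le_iff]
    intro z hz
    simp only [Set.mem_insert_iff, Set.mem_singleton_iff] at hz
    rcases hz with rfl | rfl | rfl
    · exact Algebra.subset_adjoin (by simp)
    · refine sub_mem (Algebra.subset_adjoin (by simp)) ?_
      rw [← alg_kR (R := R)]
      exact Subalgebra.algebraMap_mem _ _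
    · exact Algebra.subset_adjoin (by simp)
  unfold Cx
  congr 1
  refine le_antisymm (key x θ) ?_
  have := key (x - algebraMap k S θ) (-θ)
  rwa [map_neg, sub_neg_eq_add, sub_add_cancel] at this

/-- T8b: shift of the environment. -/
theorem env_shift (E : Env R u f v x y) (θ : k) :
    Env R u (f.comp (X + C (algebraMap k R θ))) v (x - algebraMap k S θ) y := by
  have hd : (f.comp (X + C (algebraMap k R θ))).natDegree = f.natDegree := by
    rw [natDegree_comp, natDegree_X_add_C, mul_one]
  refine ⟨E.fr, pres_shift E.pres θ, ?_, ?_, E.vtr⟩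
  · intro z
    rw [cx_shift]
    exact E.kap z
  · intro n
    obtain ⟨M, hM⟩ := E.eps n
    rw [hd]
    exact ⟨M, (eps_shift v x y f.natDegree θ n M 0 0).2.2 hM⟩

end

end Pool.Agent.LNDQ.Tr
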