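import Mathlib
import Pool.Agent.LNDQ.Defs

set_option autoImplicit false

/-! Group TR: shift `x ↦ x - θ` of adapted elements, of `IsEps` and of moves. -/

namespace Pool.Agent.LNDQ.Tr

open Polynomial

section

variable {k S : Type} [Field k] [CommRing S] [IsDomain S] [Algebra k S] {R : Subalgebra k S}
  {u : R} {f : R[X]} {v x y v' x' y' : S}

private theorem B_add_mem (β : ℕ) (v x y : S) (θ : k) (j n : ℕ) (hj : j ≤ n) (i : ℕ) :
    v ^ i * (bs β (x + algebraMap k S θ) y j - bs β x y j) ∈ Low R β v x y n := by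
  have hexp : bs β (x + algebraMap k S θ) y j - bs β x y j
      = ∑ l ∈ Finset.range (j % β), x ^ l * (algebraMap k S θ) ^ (j % β - l) * ((j % β).choose l : S)
        * y ^ (j / β) := by
    unfold bs
    rw [add_pow, Finset.sum_range_succ, ← Finset.sum_mul]
    simp
    ring
  rw [hexp, Finset.mul_sum]
  refine Submodule.sum_mem _ fun l hl => ?_
  have hl' := Finset.mem_range.1 hl
  have hlt : β * (j / β) + l < n := by
    have := Nat.div_add_mod j β
    omega
  have hb : bs β x y (β * (j / β) + l) = x ^ l * y ^ (j / β) := by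
    rcases Nat.eq_zero_or_pos β with h0 | h0
    · subst h0
      simp [bs]
    · have h1 : l < β := lt_trans hl' (Nat.mod_lt _ h0)
      unfold bs
      rw [Nat.mul_add_mod, Nat.mod_eq_of_lt h1, Nat.mul_add_div h0, Nat.div_eq_of_lt h1, add_zero]
  have heq : v ^ i * (x ^ l * (algebraMap k S θ) ^ (j % β - l) * ((j % β).choose l : S)
        * y ^ (j / β))
      = (algebraMap k R (θ ^ (j % β - l) * ((j % β).choose l : k))) •
        (v ^ i * bs β x y (β * (j / β) + l)) := by
    rw [hb, Algebra.smul_def]
    have : algebraMap R S (algebraMap k R (θ ^ (j % β - l) * ((j % β).choose l : k)))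
        = (algebraMap k S θ) ^ (j % β - l) * ((j % β).choose l : S) := by
      rw [← IsScalarTower.algebraMap_apply]
      simp
    rw [this]
    ring
  rw [heq]
  exact Submodule.smul_mem _ _ (Submodule.subset_span ⟨i, _, hlt, rfl⟩)

private theorem B_low_le (β : ℕ) (v x y : S) (θ : k) (n : ℕ) :
    Low R β v (x + algebraMap k S θ) y n ≤ Low R β v x y n := by
  unfold Low
  rw [Submodule.span_le]
  rintro z ⟨i, j, hj, rfl⟩
  have h1 := B_add_mem (R := R) β v x y θ j n hj.le i
  have h2 : v ^ i * bs β x y j ∈ Low R β v x y n := Submodule.subset_span ⟨i, j, hj, rfl⟩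
  have := Submodule.add_mem _ h1 h2
  rw [← mul_add, sub_add_cancel] at this
  exact this

private theorem B_low (β : ℕ) (v x y : S) (θ : k) (n : ℕ) :
    Low R β v (x - algebraMap k S θ) y n = Low R β v x y n := by
  apply le_antisymm
  · have := B_low_le (R := R) β v x y (-θ) n
    rwa [map_neg, ← sub_eq_add_neg] at this
  · have := B_low_le (R := R) β v (x - algebraMap k S θ) y θ n
    rwa [sub_add_cancel] at this

private theorem B_bs (β : ℕ) (v x y : S) (θ : k) (n i : ℕ) :
    v ^ i * (bs β (x - algebraMap k S θ) y n - bs β x y n) ∈ Low R β v x y n := by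
  have := B_add_mem (R := R) β v x y (-θ) n n le_rfl i
  rwa [map_neg, ← sub_eq_add_neg] at this

private theorem B_poly (β : ℕ) (v x y : S) (θ : k) (n : ℕ) (a : R[X]) :
    aeval v a * (bs β (x - algebraMap k S θ) y n - bs β x y n) ∈ Low R β v x y n := by
  rw [aeval_eq_sum_range, Finset.sum_mul]
  refine Submodule.sum_mem _ fun i _ => ?_
  rw [smul_mul_assoc]
  exact Submodule.smul_mem _ _ (B_bs β v x y θ n i)

/-- T8c (47): shift of adapted elements and of `IsEps`. -/
theorem eps_shift (v x y : S) (β : ℕ) (θ : k) (n M : ℕ) (a : R[X]) (z : S) :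
    (LT R u β v (x - algebraMap k S θ) y n M a z ↔ LT R u β v x y n M a z) ∧
      (IsEps R u β v (x - algebraMap k S θ) y n M ↔ IsEps R u β v x y n M) := by
  have key : ∀ (M : ℕ) (a : R[X]) (z : S),
      (LT R u β v (x - algebraMap k S θ) y n M a z ↔ LT R u β v x y n M a z) := by
    intro M a z
    unfold LT
    rw [B_low]
    refine exists_congr fun t => ?_
    have h1 : (u : S) ^ t * (aeval v a * (bs β (x - algebraMap k S θ) y n - bs β x y n))
        ∈ Low R β v x y n := by
      have := Submodule.smul_mem (Low R β v x y n) (u ^ t) (B_poly β v x y θ n a)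
      rw [Algebra.smul_def] at this
      simpa using this
    have h2 : (u : S) ^ (M + t) * z - (u : S) ^ t * (aeval v a * bs β x y n)
        = ((u : S) ^ (M + t) * z - (u : S) ^ t * (aeval v a * bs β (x - algebraMap k S θ) y n))
          + (u : S) ^ t * (aeval v a * (bs β (x - algebraMap k S θ) y n - bs β x y n)) := by ring
    rw [h2]
    exact (Submodule.add_mem_iff_left _ h1).symm
  refine ⟨key M a z, ?_⟩
  constructor
  · rintro ⟨⟨z, a, ha, h⟩, hm⟩
    exact ⟨⟨z, a, ha, (key M a z).1 h⟩, fun z m a h => hm z m a ((key m a z).2 h)⟩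
  · rintro ⟨⟨z, a, ha, h⟩, hm⟩
    exact ⟨⟨z, a, ha, (key M a z).2 h⟩, fun z m a h => hm z m a ((key m a z).1 h)⟩

/-- T8d (47): shift of moves. -/
theorem mv_shift (θ : k) (h : Mv k f v x y v' x' y') :
    Mv k (f.comp (X + C (algebraMap k R θ))) v (x - algebraMap k S θ) y v'
      (x' - algebraMap k S θ) y' := by
  induction h with
  | refl => exact Mv.refl _ _ _
  | @elem v' x' y' q y'' h e ih =>
    have e1 : x' + v' * aeval v' q - algebraMap k S θ
        = (x' - algebraMap k S θ) + v' * aeval v' q := by ring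
    rw [e1]
    refine Mv.elem q y'' ih ?_
    rw [e, aeval_comp]
    congr 1
    have : algebraMap R S (algebraMap k R θ) = algebraMap k S θ := rfl
    simp only [map_add, aeval_X, aeval_C, this]
    ring_nf
  | swap h ih => exact Mv.swap ih

end

end Pool.Agent.LNDQ.Tr
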