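import Pool.Agent.LNDQ.TrFin
import Pool.Agent.LNDQ.TrShiftA
import Pool.Agent.LNDQ.TrShiftB

/-!
Group TR of the proof of Q1 for MP_821812: the theorem `tr_main` of the interface.
-/

set_option autoImplicit false

namespace Pool.Agent.LNDQ

open Polynomial

variable {k S : Type} [Field k] [CommRing S] [IsDomain S] [Algebra k S] {R : Subalgebra k S}
  {u : R} {f : R[X]} {v x y : S}

/-- The transfer step: adapted elements for the second datum give adapted elements for the first. -/
theorem tr_main (E1 : Env R u f v x y) {f2 : R[X]} {v1 x1 y1 x2 y2 : S} (E2 : Env R u f2 v1 x1 y1)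
    (hmv : Mv k f v x y v1 x2 y2) (θ : k)
    (hf : ∀ i, (u : S) ∣ (((f - (X - C (algebraMap k R θ)) ^ f.natDegree).coeff i : R) : S))
    (hd : f2.natDegree = f.natDegree) (hx : (u : S) * x1 = x2 - algebraMap k S θ)
    (hy : (u : S) ^ f.natDegree * y1 = y2)
    (hint : ∃ χ : (k[X])[X], χ.Monic ∧ (u : S) ∣ eval₂ (aeval v : k[X] →ₐ[k] S).toRingHom y χ)
    (hQ : Q1A R u f2 v1 x1 y1) : Q1A R u f v x y := by
  set f' : R[X] := f.comp (X + C (algebraMap k R θ)) with hf'
  have hdeg : f'.natDegree = f.natDegree := by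
    rw [hf', natDegree_comp, natDegree_X_add_C, mul_one]
  have E1' : Env R u f' v (x - algebraMap k S θ) y := Tr.env_shift E1 θ
  have hmv' : Mv k f' v (x - algebraMap k S θ) y v1 (x2 - algebraMap k S θ) y2 :=
    Tr.mv_shift θ hmv
  have hfu : ∀ i, (u : S) ∣ (((f' - X ^ f'.natDegree).coeff i : R) : S) := by
    have h1 : C u ∣ f - (X - C (algebraMap k R θ)) ^ f.natDegree := by
      rw [C_dvd_iff_dvd_coeff]
      intro i
      exact BT.dvd_R E1.fr (hf i)
    obtain ⟨g, hg⟩ := h1
    have h2 : f' - X ^ f'.natDegree = C u * g.comp (X + C (algebraMap k R θ)) := by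
      have h3 := congrArg (fun p : R[X] => p.comp (X + C (algebraMap k R θ))) hg
      simp only [sub_comp, pow_comp, X_comp, C_comp, mul_comp, add_sub_cancel_right] at h3
      rw [hdeg, hf', h3]
    intro i
    rw [h2, coeff_C_mul]
    exact ⟨(((g.comp (X + C (algebraMap k R θ))).coeff i : R) : S), rfl⟩
  have hcore : Q1A R u f' v (x - algebraMap k S θ) y :=
    Tr.tr_core E1' E2 hmv' hfu (by rw [hd, hdeg]) hx (by rw [hdeg]; exact hy) hint hQ
  intro n M hM
  have h4 := (Tr.eps_shift (R := R) (u := u) v x y f.natDegree θ n M 1 0).2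
  obtain ⟨z, hz⟩ := hcore n M (by rw [hdeg]; exact h4.2 hM)
  rw [hdeg] at hz
  exact ⟨z, (Tr.eps_shift (R := R) (u := u) v x y f.natDegree θ n M 1 z).1.1 hz⟩

end Pool.Agent.LNDQ
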