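import Mathlib
import Pool.Agent.LNDQ.BDefs
import Pool.Agent.LNDQ.FiDefs
import Pool.Agent.LNDQ.FiFinal
import Pool.Agent.LNDQ.FinInd
import Pool.Agent.LNDQ.BlockCase
import Pool.Agent.LNDQ.DGMain
import Pool.Agent.LNDQ.FiBaseQ
import Pool.Agent.LNDQ.FiE
import Pool.Agent.LNDQ.FiEnv
import Pool.Agent.LNDQ.FiFirst
import Pool.Agent.LNDQ.FiGD
import Pool.Agent.LNDQ.FiInt
import Pool.Agent.LNDQ.Step
import Pool.Agent.LNDQ.TrFinal

set_option autoImplicit false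

open Polynomial

namespace Pool.Agent.LNDQ

open Pool.Agent.LNDHom Pool.Agent.LNDF Pool.Agent.LNDT

section

variable {k : Type} [Field k] [CharZero k] [IsAlgClosed k] {u : B3 k}

/-- the induction on `e` -/
theorem q1a_of_dat (n : ℕ) : ∀ (v0 : B3 k) (D : Derivation k (B3 k) (B3 k)) (f : (RR u)[X])
    (v x y : SL u) (e : ℕ), e ≤ n → Dat u v0 D f v x y e → Q1A (RR u) (uu u) f v x y := by
  induction n with
  | zero =>
    intro v0 D f v x y e he h
    exact base h (by omega)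
  | succ n ih =>
    intro v0 D f v x y e he h
    by_cases h1 : e ≤ 1
    · exact base h h1
    have := dat_dom h
    obtain ⟨N, W, W0, G, hG⟩ := dat_GD h
    obtain ⟨E, hEu, hEn⟩ := dat_E h
    obtain ⟨v1, x1, y1, hmv, hc | ⟨htr, hrat⟩⟩ := step_cases (dat_env h) hG (by omega) E hEu hEn
    · obtain ⟨c, hc, hv1⟩ := hc
      exact block_case h hmv hc hv1
    · obtain ⟨θ, x2, y2, w0, D2, f2, x3, y3, hmv2, hf, hd, hx, hy, h2⟩ :=
        dg_main h (by omega) hmv htr hrat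
      exact tr_main (dat_env h) (dat_env h2) hmv2 θ hf hd hx hy (dat_int h (by omega))
        (ih w0 D2 f2 v1 x3 y3 (e - 1) (by omega) h2)

/-- what is used at the crossings -/
theorem cross_hyp_all : CrossHyp k := by
  intro D f g H A G r hG hr m hm p q hp hq hpq hpm hqm hnp hnq hsq
  obtain ⟨u, hum, v0, F, v, x, y, e, hd⟩ := first_dat H A hG hr hm hp hq hpq hpm hqm hnp hnq hsq
  exact ⟨u, hum, (q1r_iff hd).2 (q1a_of_dat e v0 D F v x y e le_rfl hd)⟩

end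

/-- FULL Q1 for every locally nilpotent derivation whose kernel is generated by two elements -/
theorem full_q1 (k : Type) [Field k] [CharZero k] (D : Derivation k (B3 k) (B3 k)) (hD : D ≠ 0)
    (hln : ∀ x, ∃ n, (⇑D)^[n] x = 0) (f g : B3 k)
    (hker : ∀ b, D b = 0 ↔ b ∈ Algebra.adjoin k {f, g}) :
    (∃ Q : ℕ → B3 k, (∀ n, (⇑D)^[n] (Q n) ≠ 0 ∧ (⇑D)^[n + 1] (Q n) = 0) ∧
      ∀ b : B3 k, ∃! c : ℕ →₀ B3 k, (∀ n, D (c n) = 0) ∧ b = c.sum fun n a => a * Q n) ∧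
    ∀ n : ℕ, ∃ a : B3 k, D a = 0 ∧ ∀ v : B3 k,
      (∃ x : B3 k, (⇑D)^[n + 1] x = 0 ∧ (⇑D)^[n] x = v) ↔ (∃ c : B3 k, D c = 0 ∧ v = a * c) := by
  have hD0 : ∃ x, D x ≠ 0 := by
    by_contra h
    push Not at h
    exact hD (Derivation.ext (fun x => by rw [h x]; rfl))
  exact res_q1 (fun k _ _ _ => cross_hyp_all) k D hD hln f g (ind_of_ker D hD0 hln f g hker) hker

end Pool.Agent.LNDQ
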