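import Mathlib

/-!
# LNDQ/Bas: the basis `x ^ (n % b) * y ^ (n / b)` of `R[v, x, y]`, `v y = f(x)`, over `R[v]`
-/

set_option autoImplicit false

namespace Pool.Agent.LNDQ.Bas

open Polynomial

variable {R C : Type*} [CommRing R] [CommRing C] [Algebra R C]

/-- the basis elements -/
def e (b : ℕ) (x y : C) (n : ℕ) : C := x ^ (n % b) * y ^ (n / b)

/-- combinations over `R[v]` of the first `n` basis elements -/
def Low (R : Type*) {C : Type*} [CommRing R] [CommRing C] [Algebra R C] (b : ℕ) (v x y : C)
    (n : ℕ) (c : C) : Prop :=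
  ∃ p : ℕ → R[X], c = ∑ i ∈ Finset.range n, aeval v (p i) * e b x y i

variable {b : ℕ} {v x y : C}

theorem low_zero (n : ℕ) : Low R b v x y n (0 : C) :=
  ⟨fun _ => 0, by simp⟩

theorem Low.add {n : ℕ} {c d : C} (hc : Low R b v x y n c) (hd : Low R b v x y n d) :
    Low R b v x y n (c + d) := by
  obtain ⟨p, rfl⟩ := hc
  obtain ⟨q, rfl⟩ := hd
  refine ⟨fun i => p i + q i, ?_⟩
  rw [← Finset.sum_add_distrib]
  refine Finset.sum_congr rfl fun i _ => ?_
  rw [map_add, add_mul]

theorem Low.smul {n : ℕ} {c : C} (hc : Low R b v x y n c) (q : R[X]) :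
    Low R b v x y n (aeval v q * c) := by
  obtain ⟨p, rfl⟩ := hc
  refine ⟨fun i => q * p i, ?_⟩
  rw [Finset.mul_sum]
  refine Finset.sum_congr rfl fun i _ => ?_
  rw [map_mul, mul_assoc]

theorem Low.neg {n : ℕ} {c : C} (hc : Low R b v x y n c) : Low R b v x y n (-c) := by
  have := hc.smul (-1 : R[X])
  rwa [map_neg, map_one, neg_one_mul] at this

theorem Low.sub {n : ℕ} {c d : C} (hc : Low R b v x y n c) (hd : Low R b v x y n d) :
    Low R b v x y n (c - d) := by
  rw [sub_eq_add_neg]
  exact hc.add hd.neg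

theorem Low.mono {n m : ℕ} (h : n ≤ m) {c : C} (hc : Low R b v x y n c) :
    Low R b v x y m c := by
  classical
  obtain ⟨p, rfl⟩ := hc
  refine ⟨fun i => if i < n then p i else 0, ?_⟩
  rw [← Finset.sum_subset (Finset.range_subset_range.2 h)]
  · refine Finset.sum_congr rfl fun i hi => ?_
    simp only [if_pos (Finset.mem_range.1 hi)]
  · intro i _ hi
    simp only [if_neg (fun h' => hi (Finset.mem_range.2 h')), map_zero, zero_mul]

theorem low_e {n m : ℕ} (h : m < n) : Low R b v x y n (e b x y m) := by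
  classical
  refine ⟨fun i => if i = m then 1 else 0, ?_⟩
  rw [Finset.sum_eq_single m]
  · simp only [if_true, map_one, one_mul]
  · intro i _ hi
    simp only [if_neg hi, map_zero, zero_mul]
  · intro hm
    exact absurd (Finset.mem_range.2 h) hm

theorem Low.sum {ι : Type*} (s : Finset ι) {n : ℕ} (g : ι → C)
    (h : ∀ i ∈ s, Low R b v x y n (g i)) : Low R b v x y n (∑ i ∈ s, g i) := by
  classical
  induction s using Finset.induction_on with
  | empty => exact low_zero n
  | insert a s ha ih =>
    rw [Finset.sum_insert ha]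
    exact (h a (Finset.mem_insert_self _ _)).add
      (ih fun i hi => h i (Finset.mem_insert_of_mem hi))

theorem Low.C_smul {n : ℕ} {c : C} (hc : Low R b v x y n c) (r : R) :
    Low R b v x y n (algebraMap R C r * c) := by
  have := hc.smul (Polynomial.C r)
  rwa [aeval_C] at this

theorem Low.v_pow {n : ℕ} {c : C} (hc : Low R b v x y n c) (i : ℕ) :
    Low R b v x y n (v ^ i * c) := by
  have := hc.smul (X ^ i : R[X])
  rwa [map_pow, aeval_X] at this

/-- the relation `v y = f(x)`, `f` monic of degree `b` -/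
structure Rl (f : R[X]) (b : ℕ) (v x y : C) : Prop where
  pos : 0 < b
  monic : f.Monic
  deg : f.natDegree = b
  rel : v * y = aeval x f

theorem Rl.pow {f : R[X]} (h : Rl f b v x y) :
    x ^ b = v * y - ∑ i ∈ Finset.range b, algebraMap R C (f.coeff i) * x ^ i := by
  rw [h.rel, aeval_eq_sum_range, h.deg, Finset.sum_range_succ]
  have h1 : f.coeff b = 1 := by rw [← h.deg]; exact h.monic
  rw [h1, one_smul, add_comm, add_sub_assoc]
  have h2 : ∀ i, f.coeff i • x ^ i = algebraMap R C (f.coeff i) * x ^ i :=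
    fun i => Algebra.smul_def _ _
  simp only [h2, sub_self, add_zero]

theorem y_e (hb : 0 < b) (n : ℕ) : y * e b x y n = e b x y (n + b) := by
  rw [e, e, Nat.add_mod_right, Nat.add_div_right _ hb, pow_succ]
  ring

theorem y_pow_e (hb : 0 < b) (j n : ℕ) : y ^ j * e b x y n = e b x y (n + b * j) := by
  induction j with
  | zero => simp
  | succ j ih =>
    rw [pow_succ', mul_assoc, ih, y_e hb]
    have h1 : n + b * j + b = n + b * (j + 1) := by ring
    rw [h1]

/-- multiplication by `x` -/
theorem x_e {f : R[X]} (h : Rl f b v x y) (n : ℕ) :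
    Low R b v x y (n + 1) (x * e b x y n - v ^ ((n + 1) / b - n / b) * e b x y (n + 1)) := by
  have hb := h.pos
  by_cases hn : n % b + 1 < b
  · have h1 : (n + 1) % b = n % b + 1 := by
      have h0 := Nat.div_add_mod n b
      conv_lhs => rw [← h0]
      rw [add_assoc, Nat.mul_add_mod, Nat.mod_eq_of_lt hn]
    have h2 : (n + 1) / b = n / b := by
      have h0 := Nat.div_add_mod n b
      conv_lhs => rw [← h0]
      rw [add_assoc, Nat.mul_add_div hb, Nat.div_eq_of_lt hn, add_zero]
    have h3 : x * e b x y n - v ^ ((n + 1) / b - n / b) * e b x y (n + 1) = 0 := by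
      rw [h2, Nat.sub_self, pow_zero, one_mul, e, e, h1, h2, pow_succ]
      ring
    rw [h3]
    exact low_zero _
  · have hlt := Nat.mod_lt n hb
    have hmod : n % b + 1 = b := by omega
    have h0 := Nat.div_add_mod n b
    have h1 : (n + 1) % b = 0 := by
      conv_lhs => rw [← h0]
      rw [add_assoc, hmod, Nat.mul_add_mod, Nat.mod_self]
    have h2 : (n + 1) / b = n / b + 1 := by
      conv_lhs => rw [← h0]
      rw [add_assoc, hmod, Nat.mul_add_div hb, Nat.div_self hb]
    have h3 : x * e b x y n - v ^ ((n + 1) / b - n / b) * e b x y (n + 1) =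
        - ∑ i ∈ Finset.range b, algebraMap R C (f.coeff i) * (x ^ i * y ^ (n / b)) := by
      have h4 : ∑ i ∈ Finset.range b, algebraMap R C (f.coeff i) * (x ^ i * y ^ (n / b)) =
          (∑ i ∈ Finset.range b, algebraMap R C (f.coeff i) * x ^ i) * y ^ (n / b) := by
        rw [Finset.sum_mul]
        exact Finset.sum_congr rfl fun i _ => by ring
      have h5 := h.pow
      rw [h4, e, e, h1, h2, Nat.add_sub_cancel_left, pow_one, pow_zero, one_mul]
      have h7 : x * (x ^ (n % b) * y ^ (n / b)) = x ^ b * y ^ (n / b) := by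
        rw [← mul_assoc, ← pow_succ', hmod]
      rw [h7, h5]
      ring
    rw [h3]
    refine (Low.sum _ _ fun i hi => Low.C_smul ?_ _).neg
    have hi' := Finset.mem_range.1 hi
    have h8 : x ^ i * y ^ (n / b) = e b x y (b * (n / b) + i) := by
      rw [e, Nat.mul_add_mod, Nat.mod_eq_of_lt hi', Nat.mul_add_div hb, Nat.div_eq_of_lt hi',
        add_zero]
    rw [h8]
    exact low_e (by omega)

theorem Low.x_mul {f : R[X]} (h : Rl f b v x y) {n : ℕ} {c : C} (hc : Low R b v x y n c) :
    Low R b v x y (n + 1) (x * c) := by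
  obtain ⟨p, rfl⟩ := hc
  rw [Finset.mul_sum]
  refine Low.sum _ _ fun i hi => ?_
  have hi' := Finset.mem_range.1 hi
  have h1 : x * (aeval v (p i) * e b x y i) = aeval v (p i) * (x * e b x y i) := by ring
  rw [h1]
  refine Low.smul ?_ _
  have h2 := (x_e h i).mono (show i + 1 ≤ n + 1 by omega)
  have h3 := (low_e (R := R) (b := b) (v := v) (x := x) (y := y)
    (show i + 1 < n + 1 by omega)).v_pow ((i + 1) / b - i / b)
  have := h2.add h3
  rwa [sub_add_cancel] at this

theorem Low.y_mul (hb : 0 < b) {n : ℕ} {c : C} (hc : Low R b v x y n c) :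
    Low R b v x y (n + b) (y * c) := by
  obtain ⟨p, rfl⟩ := hc
  rw [Finset.mul_sum]
  refine Low.sum _ _ fun i hi => ?_
  have hi' := Finset.mem_range.1 hi
  have h1 : y * (aeval v (p i) * e b x y i) = aeval v (p i) * (y * e b x y i) := by ring
  rw [h1, y_e hb]
  exact (low_e (by omega)).smul _

theorem Low.y_pow_mul (hb : 0 < b) (j : ℕ) {n : ℕ} {c : C} (hc : Low R b v x y n c) :
    Low R b v x y (n + b * j) (y ^ j * c) := by
  induction j with
  | zero => simpa using hc
  | succ j ih =>
    have := ih.y_mul hb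
    have h1 : n + b * j + b = n + b * (j + 1) := by ring
    rw [h1] at this
    rw [pow_succ', mul_assoc]
    exact this

/-- `x ^ r * e n` -/
theorem x_pow_e {f : R[X]} (h : Rl f b v x y) (r n : ℕ) :
    Low R b v x y (n + r) (x ^ r * e b x y n - v ^ ((n + r) / b - n / b) * e b x y (n + r)) := by
  induction r with
  | zero =>
    have : x ^ 0 * e b x y n - v ^ ((n + 0) / b - n / b) * e b x y (n + 0) = 0 := by simp
    rw [this]
    exact low_zero _
  | succ r ih =>
    have h1 := ih.x_mul h
    have h2 := (x_e h (n + r)).v_pow ((n + r) / b - n / b)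
    have h3 : (n + (r + 1)) / b - n / b =
        ((n + r) / b - n / b) + ((n + r + 1) / b - (n + r) / b) := by
      have a1 : n / b ≤ (n + r) / b := Nat.div_le_div_right (by omega)
      have a2 : (n + r) / b ≤ (n + r + 1) / b := Nat.div_le_div_right (by omega)
      rw [show n + (r + 1) = n + r + 1 from rfl]
      omega
    have h4 := h1.add h2
    rw [show n + (r + 1) = n + r + 1 from rfl] at h3 ⊢
    rw [h3]
    have h5 : x ^ (r + 1) * e b x y n -
        v ^ ((n + r) / b - n / b + ((n + r + 1) / b - (n + r) / b)) * e b x y (n + r + 1) =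
        x * (x ^ r * e b x y n - v ^ ((n + r) / b - n / b) * e b x y (n + r)) +
        v ^ ((n + r) / b - n / b) * (x * e b x y (n + r) -
          v ^ ((n + r + 1) / b - (n + r) / b) * e b x y (n + r + 1)) := by
      rw [pow_succ', pow_add]
      ring
    rw [h5]
    exact h4

/-- **the product of two basis elements** -/
theorem e_mul_e {f : R[X]} (h : Rl f b v x y) (m n : ℕ) :
    Low R b v x y (m + n)
      (e b x y m * e b x y n - v ^ ((m + n) / b - m / b - n / b) * e b x y (m + n)) := by
  have hb := h.pos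
  have h1 := (x_pow_e h (m % b) n).y_pow_mul hb (m / b)
  have h0 := Nat.div_add_mod m b
  have h2 : n + m % b + b * (m / b) = m + n := by omega
  rw [h2, mul_sub] at h1
  have h3 : y ^ (m / b) * (x ^ (m % b) * e b x y n) = e b x y m * e b x y n := by
    rw [e, e]; ring
  have h4 : y ^ (m / b) * (v ^ ((n + m % b) / b - n / b) * e b x y (n + m % b)) =
      v ^ ((n + m % b) / b - n / b) * e b x y (m + n) := by
    rw [← h2, ← y_pow_e hb]; ring
  have h5 : (m + n) / b - m / b - n / b = (n + m % b) / b - n / b := by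
    have : (m + n) / b = (n + m % b) / b + m / b := by
      rw [← h2, Nat.add_mul_div_left _ _ hb]
    rw [this]
    omega
  rw [h3, h4] at h1
  rw [h5]
  exact h1

theorem e_mul_e_low {f : R[X]} (h : Rl f b v x y) (m n : ℕ) :
    Low R b v x y (m + n + 1) (e b x y m * e b x y n) := by
  have h1 := (e_mul_e h m n).mono (Nat.le_succ _)
  have h2 := (low_e (R := R) (b := b) (v := v) (x := x) (y := y)
    (show m + n < m + n + 1 by omega)).v_pow ((m + n) / b - m / b - n / b)
  have := h1.add h2
  rwa [sub_add_cancel] at this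

theorem Low.mul {f : R[X]} (h : Rl f b v x y) {m n : ℕ} {c d : C}
    (hc : Low R b v x y (m + 1) c) (hd : Low R b v x y n d) :
    Low R b v x y (m + n) (c * d) := by
  obtain ⟨p, rfl⟩ := hc
  obtain ⟨q, rfl⟩ := hd
  rw [Finset.sum_mul_sum]
  refine Low.sum _ _ fun i hi => Low.sum _ _ fun j hj => ?_
  have hi' := Finset.mem_range.1 hi
  have hj' := Finset.mem_range.1 hj
  have h1 : aeval v (p i) * e b x y i * (aeval v (q j) * e b x y j) =
      aeval v (p i * q j) * (e b x y i * e b x y j) := by
    rw [map_mul]; ring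
  rw [h1]
  exact ((e_mul_e_low h i j).mono (by omega)).smul _

/-- every element of `R[v, x, y]` is a combination -/
theorem exists_low {f : R[X]} (h : Rl f b v x y) {c : C}
    (hc : c ∈ Algebra.adjoin R ({v, x, y} : Set C)) : ∃ n, Low R b v x y n c := by
  have hb := h.pos
  have hone : Low R b v x y 1 (1 : C) := by
    have := low_e (R := R) (b := b) (v := v) (x := x) (y := y) (show 0 < 1 by omega)
    rwa [e, Nat.zero_mod, Nat.zero_div, pow_zero, pow_zero, one_mul] at this
  induction hc using Algebra.adjoin_induction with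
  | mem z hz =>
    rcases hz with rfl | rfl | rfl
    · refine ⟨1, ?_⟩
      have := hone.v_pow 1
      rwa [pow_one, mul_one] at this
    · refine ⟨2, ?_⟩
      have := hone.x_mul h
      rwa [mul_one] at this
    · refine ⟨1 + b, ?_⟩
      have := hone.y_mul hb
      rwa [mul_one] at this
  | algebraMap r =>
    refine ⟨1, ?_⟩
    have := hone.C_smul r
    rwa [mul_one] at this
  | add c d _ _ h1 h2 =>
    obtain ⟨m, h1⟩ := h1
    obtain ⟨n, h2⟩ := h2
    exact ⟨max m n, (h1.mono (le_max_left _ _)).add (h2.mono (le_max_right _ _))⟩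
  | mul c d _ _ h1 h2 =>
    obtain ⟨m, h1⟩ := h1
    obtain ⟨n, h2⟩ := h2
    exact ⟨m + n, (h1.mono (Nat.le_succ m)).mul h h2⟩

/-! ### independence -/

/-- `v` and `x` are algebraically independent: `R[V][X] → C` is injective -/
def Ind (R : Type*) {C : Type*} [CommRing R] [CommRing C] [Algebra R C] (v x : C) : Prop :=
  ∀ P : R[X][X], P.eval₂ (aeval v : R[X] →ₐ[R] C).toRingHom x = 0 → P = 0

/-- `v ^ J * (p(v) e n)` as polynomial in `v`, `x` -/
noncomputable def tm (f : R[X]) (b J : ℕ) (p : R[X]) (n : ℕ) : R[X][X] :=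
  Polynomial.C (p * X ^ (J - n / b)) * (X ^ (n % b) * (f.map Polynomial.C) ^ (n / b))

theorem tm_eval {f : R[X]} (h : Rl f b v x y) {J n : ℕ} (hJ : n / b ≤ J) (p : R[X]) :
    (tm f b J p n).eval₂ (aeval v : R[X] →ₐ[R] C).toRingHom x =
      v ^ J * (aeval v p * e b x y n) := by
  have h1 : (f.map Polynomial.C).eval₂ (aeval v : R[X] →ₐ[R] C).toRingHom x = v * y := by
    rw [eval₂_map, h.rel, aeval_def]
    congr 1
    ext r
    simp
  rw [tm, eval₂_mul, eval₂_mul, eval₂_C, eval₂_pow, eval₂_pow, eval₂_X, h1]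
  change aeval v (p * X ^ (J - n / b)) * _ = _
  rw [map_mul, map_pow, aeval_X, e]
  have h2 : v ^ J = v ^ (J - n / b) * v ^ (n / b) := by
    rw [← pow_add, Nat.sub_add_cancel hJ]
  rw [h2, mul_pow]
  ring

theorem tm_coeff {f : R[X]} (hm : f.Monic) (hd : f.natDegree = b) (J : ℕ) (p : R[X]) (n : ℕ) :
    (tm f b J p n).coeff n = p * X ^ (J - n / b) ∧ ∀ m, n < m → (tm f b J p n).coeff m = 0 := by
  have hmon : (X ^ (n % b) * (f.map Polynomial.C) ^ (n / b) : R[X][X]).Monic :=
    (monic_X_pow _).mul ((hm.map _).pow _)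
  rcases subsingleton_or_nontrivial R with hR | hR
  · haveI : Subsingleton R[X] := inferInstance
    exact ⟨Subsingleton.elim _ _, fun m _ => Subsingleton.elim _ _⟩
  have hdeg : (X ^ (n % b) * (f.map Polynomial.C) ^ (n / b) : R[X][X]).natDegree = n := by
    rw [(monic_X_pow _).natDegree_mul ((hm.map _).pow _), natDegree_X_pow,
      (hm.map _).natDegree_pow, hm.natDegree_map, hd]
    have := Nat.div_add_mod n b
    rw [mul_comm (n / b) b]
    omega
  refine ⟨?_, fun m hm' => ?_⟩
  · rw [tm, coeff_C_mul]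
    have := hmon.coeff_natDegree
    rw [hdeg] at this
    rw [this, mul_one]
  · rw [tm, coeff_C_mul, coeff_eq_zero_of_natDegree_lt (by rw [hdeg]; exact hm'), mul_zero]

/-- **uniqueness of the coefficients** -/
theorem uniq {f : R[X]} (h : Rl f b v x y) (hi : Ind R v x) {n : ℕ} {p : ℕ → R[X]}
    (h0 : ∑ i ∈ Finset.range n, aeval v (p i) * e b x y i = 0) : ∀ i < n, p i = 0 := by
  induction n with
  | zero => intro i hi'; exact absurd hi' (Nat.not_lt_zero _)
  | succ n ih =>
    have h1 : (∑ i ∈ Finset.range (n + 1), tm f b (n / b) (p i) i) = 0 := by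
      apply hi
      rw [eval₂_finsetSum]
      have h2 : ∀ i ∈ Finset.range (n + 1),
          (tm f b (n / b) (p i) i).eval₂ (aeval v : R[X] →ₐ[R] C).toRingHom x =
            v ^ (n / b) * (aeval v (p i) * e b x y i) := by
        intro i hi'
        exact tm_eval h (Nat.div_le_div_right (by have := Finset.mem_range.1 hi'; omega)) _
      rw [Finset.sum_congr rfl h2, ← Finset.mul_sum, h0, mul_zero]
    have h3 : p n = 0 := by
      have h4 := congrArg (fun P => P.coeff n) h1
      simp only [finsetSum_coeff, coeff_zero] at h4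
      rw [Finset.sum_range_succ, Finset.sum_eq_zero, zero_add,
        (tm_coeff h.monic h.deg _ _ _).1, Nat.sub_self, pow_zero, mul_one] at h4
      · exact h4
      · intro i hi'
        exact (tm_coeff h.monic h.deg _ _ _).2 n (Finset.mem_range.1 hi')
    rw [Finset.sum_range_succ, h3, map_zero, zero_mul, add_zero] at h0
    intro i hi'
    rcases Nat.lt_succ_iff_lt_or_eq.1 hi' with h5 | h5
    · exact ih h0 i h5
    · rw [h5, h3]

end Pool.Agent.LNDQ.Bas
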