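import Mathlib
import Pool.Agent.LNDQ.Dat

/-!
# Iterates of `br v` on the basis elements
-/

set_option autoImplicit false

open Polynomial

namespace Pool.Agent.LNDQ

open Pool.Agent.LNDF

variable {k S : Type} [Field k] [CharZero k] [CommRing S] [IsDomain S] [Algebra k S]
  {R : Subalgebra k S} {u : R} {ι : B3 k →ₐ[k] S} {u0 : B3 k} {br : S → S → S}

omit [CharZero k] [IsDomain S] in
theorem ib_zero (hb : Bra ι u0 R br) (a : S) : br a 0 = 0 := by
  have := hb.const a (0 : R)
  simpa using this

omit [CharZero k] [IsDomain S] in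
theorem ib_iter_zero (hb : Bra ι u0 R br) (a : S) (n : ℕ) : (br a)^[n] 0 = 0 := by
  induction n with
  | zero => rfl
  | succ n ih => rw [Function.iterate_succ_apply, ib_zero hb, ih]

omit [CharZero k] [IsDomain S] in
theorem ib_iter_add (hb : Bra ι u0 R br) (a : S) (n : ℕ) (s t : S) :
    (br a)^[n] (s + t) = (br a)^[n] s + (br a)^[n] t := by
  induction n generalizing s t with
  | zero => rfl
  | succ n ih => rw [Function.iterate_succ_apply, hb.add, ih]; rfl

omit [CharZero k] [IsDomain S] in
theorem ib_iter_mul (hb : Bra ι u0 R br) (a : S) {c : S} (hc : br a c = 0) (n : ℕ) (s : S) :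
    (br a)^[n] (c * s) = c * (br a)^[n] s := by
  induction n generalizing s with
  | zero => rfl
  | succ n ih =>
    rw [Function.iterate_succ_apply, hb.mul, hc, mul_zero, add_zero, ih,
      Function.iterate_succ_apply]

omit [CharZero k] [IsDomain S] in
theorem ib_pow_zero (hb : Bra ι u0 R br) (a : S) {c : S} (hc : br a c = 0) (i : ℕ) :
    br a (c ^ i) = 0 := by
  induction i with
  | zero =>
    rw [pow_zero]
    have := hb.const a (1 : R)
    simpa using this
  | succ i ih => rw [pow_succ, hb.mul, hc, ih, mul_zero, mul_zero, add_zero]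

omit [CharZero k] [IsDomain S] in
theorem ib_aeval (hb : Bra ι u0 R br) (a z : S) (P : R[X]) :
    br a (aeval z P) = aeval z (derivative P) * br a z := by
  induction P using Polynomial.induction_on' with
  | add p q hp hq => rw [map_add, hb.add, hp, hq, derivative_add, map_add, add_mul]
  | monomial n r =>
    have hr : br a (r : S) = 0 := hb.const a r
    have hpow : ∀ n : ℕ, br a (z ^ n) = n * z ^ (n - 1) * br a z := by
      intro n
      induction n with
      | zero =>
        rw [pow_zero]
        have := hb.const a (1 : R)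
        simpa using this
      | succ n ih =>
        rw [pow_succ, hb.mul, ih, Nat.add_sub_cancel]
        rcases Nat.eq_zero_or_pos n with h | h
        · subst h
          simp
        · obtain ⟨m, rfl⟩ : ∃ m, n = m + 1 := ⟨n - 1, by omega⟩
          rw [Nat.add_sub_cancel]
          push_cast
          ring
    have e1 : aeval z (monomial n r) = (r : S) * z ^ n := by
      rw [aeval_monomial]
      rfl
    have e2 : aeval z (derivative (monomial n r)) = (r : S) * (n * z ^ (n - 1)) := by
      rw [derivative_monomial, aeval_monomial]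
      change ((r * (n : R) : R) : S) * z ^ (n - 1) = _
      push_cast
      ring
    rw [e1, e2, hb.mul, hr, mul_zero, add_zero, hpow]
    ring

omit [CharZero k] [IsDomain S] in
theorem ib_iter_aeval (hb : Bra ι u0 R br) {v x : S} {W : R} (hW : br v x = W * v) (n : ℕ)
    (P : R[X]) : (br v)^[n] (aeval x P) = ((W : S) * v) ^ n * aeval x (derivative^[n] P) := by
  have hWv : br v ((W : S) * v) = 0 := by
    rw [hb.mul, hb.self, hb.const, mul_zero, mul_zero, add_zero]
  induction n generalizing P with
  | zero => simp
  | succ n ih =>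
    rw [Function.iterate_succ_apply, ib_aeval hb, hW, mul_comm (aeval x (derivative P)),
      ib_iter_mul hb v hWv, ih, Function.iterate_succ_apply]
    ring

omit [CharZero k] [IsDomain S] in
/-- `v ^ (n / b)` times the basis element is a monic polynomial in `x` -/
theorem ib_bs {f : R[X]} {v x y : S} (hp : Pres f v x y) (n : ℕ) :
    v ^ (n / f.natDegree) * bs f.natDegree x y n =
      aeval x (X ^ (n % f.natDegree) * f ^ (n / f.natDegree)) := by
  rw [map_mul, map_pow, map_pow, aeval_X, ← hp.rel, bs]
  ring

omit [CharZero k] in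
theorem ib_natDegree {f : R[X]} {v x y : S} (hp : Pres f v x y) (n : ℕ) :
    (X ^ (n % f.natDegree) * f ^ (n / f.natDegree) : R[X]).natDegree = n ∧
      (X ^ (n % f.natDegree) * f ^ (n / f.natDegree) : R[X]).Monic := by
  have hm : (X ^ (n % f.natDegree) * f ^ (n / f.natDegree) : R[X]).Monic :=
    (monic_X_pow _).mul (hp.monic.pow _)
  refine ⟨?_, hm⟩
  rw [(monic_X_pow _).natDegree_mul (hp.monic.pow _), natDegree_X_pow, hp.monic.natDegree_pow]
  have := Nat.div_add_mod n f.natDegree
  rw [mul_comm (n / f.natDegree)]
  omega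

omit [CharZero k] in
theorem ib_v_ne {f : R[X]} {v x y : S} (hp : Pres f v x y) : v ≠ 0 := by
  have := hp.ind.ne_zero 0
  simpa using this

/-- `(br v)^n` of the basis element of degree `n` -/
theorem iter_bs (hb : Bra ι u0 R br) {f : R[X]} {v x y : S} (hp : Pres f v x y) {W : R}
    (hW : br v x = W * v) (n : ℕ) :
    (br v)^[n] (bs f.natDegree x y n) = (n.factorial : S) * W ^ n * v ^ (n - n / f.natDegree) := by
  have hv := ib_v_ne hp
  have hvv : br v (v ^ (n / f.natDegree)) = 0 := ib_pow_zero hb v (hb.self v) _
  apply mul_left_cancel₀ (pow_ne_zero (n / f.natDegree) hv)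
  rw [← ib_iter_mul hb v hvv, ib_bs hp, ib_iter_aeval hb hW]
  obtain ⟨hd, hm⟩ := ib_natDegree hp n
  have h1 : derivative^[n] (X ^ (n % f.natDegree) * f ^ (n / f.natDegree) : R[X]) =
      C ((n.factorial : ℕ) : R) := by
    set P : R[X] := X ^ (n % f.natDegree) * f ^ (n / f.natDegree) with hP
    have h2 : (derivative^[n] P).natDegree ≤ 0 := by
      have := natDegree_iterate_derivative P n
      omega
    rw [eq_C_of_natDegree_le_zero h2, coeff_iterate_derivative, zero_add, Nat.descFactorial_self]
    have h3 : P.coeff n = 1 := by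
      rw [← hd]
      exact hm
    rw [h3, nsmul_eq_mul, mul_one]
  rw [h1, aeval_C]
  have h4 : n / f.natDegree ≤ n := Nat.div_le_self _ _
  have h5 : v ^ n = v ^ (n / f.natDegree) * v ^ (n - n / f.natDegree) := by
    rw [← pow_add]
    congr 1
    omega
  rw [mul_pow, h5, map_natCast]
  ring

theorem iter_low (hb : Bra ι u0 R br) {f : R[X]} {v x y : S} (hp : Pres f v x y) {W : R}
    (hW : br v x = W * v) {n : ℕ} {z : S} (hz : z ∈ Low R f.natDegree v x y n) :
    (br v)^[n] z = 0 := by
  have hv := ib_v_ne hp
  unfold Low at hz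
  induction hz using Submodule.span_induction with
  | mem z hz =>
    obtain ⟨i, j, hj, rfl⟩ := hz
    rw [ib_iter_mul hb v (ib_pow_zero hb v (hb.self v) i)]
    have hvv : br v (v ^ (j / f.natDegree)) = 0 := ib_pow_zero hb v (hb.self v) _
    have h1 : (br v)^[n] (bs f.natDegree x y j) = 0 := by
      apply mul_left_cancel₀ (pow_ne_zero (j / f.natDegree) hv)
      rw [← ib_iter_mul hb v hvv, ib_bs hp, ib_iter_aeval hb hW, mul_zero]
      rw [iterate_derivative_eq_zero (by rw [(ib_natDegree hp j).1]; exact hj), map_zero, mul_zero]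
    rw [h1, mul_zero]
  | zero => exact ib_iter_zero hb v n
  | add s t _ _ hs ht => rw [ib_iter_add hb, hs, ht, add_zero]
  | smul r s _ hs =>
    have h1 : (r • s : S) = (r : S) * s := rfl
    rw [h1, ib_iter_mul hb v (hb.const v r), hs, mul_zero]

end Pool.Agent.LNDQ
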