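import Mathlib
import Pool.Agent.LNDQ.DG4a

set_option autoImplicit false

open Polynomial

namespace Pool.Agent.LNDQ

open Pool.Agent.LNDF

variable {k S : Type} [Field k] [CharZero k] [CommRing S] [IsDomain S] [Algebra k S]
  {R : Subalgebra k S} {u : R} {ι : B3 k →ₐ[k] S} {u0 : B3 k} {br : S → S → S}

namespace EB

/-- `br a` as an additive map -/
def lin (hb : Bra ι u0 R br) (a : S) : AddMonoid.End S where
  toFun := br a
  map_zero' := by
    have h := hb.add a 0 0
    rw [add_zero] at h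
    exact left_eq_add.mp h
  map_add' := hb.add a

theorem lin_pow (hb : Bra ι u0 R br) (a : S) (n : ℕ) (z : S) :
    (br a)^[n] z = (lin hb a ^ n) z := by
  induction n generalizing z with
  | zero => rfl
  | succ n ih => rw [Function.iterate_succ_apply, ih, pow_succ]; rfl

theorem iter_sub (hb : Bra ι u0 R br) (a : S) (n : ℕ) (z w : S) :
    (br a)^[n] (z - w) = (br a)^[n] z - (br a)^[n] w := by
  rw [lin_pow hb, lin_pow hb, lin_pow hb, map_sub]

theorem iter_mul (hb : Bra ι u0 R br) {a c : S} (hc : br a c = 0) (n : ℕ) (z : S) :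
    (br a)^[n] (c * z) = c * (br a)^[n] z := by
  induction n generalizing z with
  | zero => rfl
  | succ n ih =>
    rw [Function.iterate_succ_apply, Function.iterate_succ_apply, hb.mul, hc, mul_zero, add_zero,
      ih]

theorem br_pow (hb : Bra ι u0 R br) {a c : S} (hc : br a c = 0) (n : ℕ) : br a (c ^ n) = 0 := by
  induction n with
  | zero =>
    have := hb.const a 1
    simpa using this
  | succ n ih => rw [pow_succ, hb.mul, hc, ih, mul_zero, mul_zero, add_zero]

theorem br_aeval (hb : Bra ι u0 R br) (v : S) (a : R[X]) : br v (aeval v a) = 0 := by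
  induction a using Polynomial.induction_on' with
  | add p q hp hq => rw [map_add, hb.add, hp, hq, add_zero]
  | monomial n r =>
    rw [aeval_monomial, hb.mul, br_pow hb (hb.self v)]
    have h : br v (algebraMap R S r) = 0 := hb.const v r
    rw [h, mul_zero, mul_zero, add_zero]

theorem dvd_X {R' : Type*} [CommRing R'] {u' : R'} {a : R'[X]} {m : ℕ} (h : C u' ∣ X ^ m * a) :
    C u' ∣ a := by
  rw [C_dvd_iff_dvd_coeff] at h ⊢
  intro i
  have := h (i + m)
  rwa [coeff_X_pow_mul] at this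

/-- the bound -/
theorem bound (hb : Bra ι u0 R br) (hF : Fr R u) {f : R[X]} {v x y : S} (hp : Pres f v x y)
    (hvtr : ∀ a : R[X], (u : S) ∣ aeval v a → C u ∣ a) {w : R} (hw : IsUnit w) {e : ℕ}
    (hW : br v x = w * u ^ e * v) {n M : ℕ} {a : R[X]} {z : S} (ha : ¬ C u ∣ a)
    (h : LT R u f.natDegree v x y n M a z) : M ≤ e * n := by
  by_contra hM
  push Not at hM
  apply ha
  obtain ⟨t, ht⟩ := h
  have hu0 : (u : S) ≠ 0 := hF.prime.ne_zero
  have hW' : br v x = ((w * u ^ e : R) : S) * v := by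
    rw [hW]; push_cast; ring
  have h1 := iter_low hb hp hW' ht
  have hcu : ∀ j : ℕ, br v ((u : S) ^ j) = 0 := fun j => br_pow hb (hb.const v u) j
  rw [iter_sub hb, iter_mul hb (hcu _), iter_mul hb (hcu _), iter_mul hb (br_aeval hb v a),
    iter_bs hb hp hW', sub_eq_zero, pow_add] at h1
  have h2 : (u : S) ^ M * (br v)^[n] z = aeval v a *
      ((n.factorial : S) * ((w * u ^ e : R) : S) ^ n * v ^ (n - n / f.natDegree)) := by
    apply mul_left_cancel₀ (pow_ne_zero t hu0)
    rw [← h1]
    ring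
  have h3 : (u : S) ^ (M - e * n) * (br v)^[n] z = ((n.factorial : S) * (w : S) ^ n) *
      aeval v (X ^ (n - n / f.natDegree) * a) := by
    apply mul_left_cancel₀ (pow_ne_zero (e * n) hu0)
    rw [← mul_assoc, ← pow_add, Nat.add_sub_cancel' hM.le, h2, map_mul, map_pow, aeval_X]
    push_cast
    ring
  have h4 : IsUnit ((n.factorial : S) * (w : S) ^ n) := by
    apply IsUnit.mul
    · have : IsUnit (algebraMap k S (n.factorial : k)) :=
        IsUnit.map _ (IsUnit.mk0 _ (by exact_mod_cast n.factorial_ne_zero))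
      rwa [map_natCast] at this
    · exact (hw.map R.val).pow n
  have h5 : (u : S) ∣ aeval v (X ^ (n - n / f.natDegree) * a) := by
    rw [← h4.dvd_mul_left, ← h3]
    exact dvd_mul_of_dvd_left (dvd_pow_self _ (by omega)) _
  exact dvd_X (hvtr _ h5)

end EB

/-- the exponents are bounded: `M ≤ n e` -/
theorem eps_of_br (hb : Bra ι u0 R br) (hF : Fr R u) {f : R[X]} {v x y : S} (hp : Pres f v x y)
    (hvtr : ∀ a : R[X], (u : S) ∣ aeval v a → C u ∣ a) {w : R} (hw : IsUnit w) {e : ℕ}
    (hW : br v x = w * u ^ e * v) (n : ℕ) : ∃ M : ℕ, IsEps R u f.natDegree v x y n M := by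
  classical
  have hbd := fun {M : ℕ} {a : R[X]} {z : S} (ha : ¬ C u ∣ a)
    (h : LT R u f.natDegree v x y n M a z) => EB.bound hb hF hp hvtr hw hW ha h
  set Q : ℕ → Prop := fun M => ∃ (z : S) (a : R[X]), ¬ C u ∣ a ∧ LT R u f.natDegree v x y n M a z
    with hQ
  have h0 : Q 0 := by
    refine ⟨bs f.natDegree x y n, 1, ?_, 0, ?_⟩
    · intro h
      rw [C_dvd_iff_dvd_coeff] at h
      have h1 := h 0
      rw [coeff_one_zero] at h1
      have h2 : IsUnit (u : S) := (isUnit_of_dvd_one h1).map R.val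
      exact hF.prime.not_isUnit h2
    · have : (u : S) ^ (0 + 0) * bs f.natDegree x y n -
          (u : S) ^ 0 * (aeval v (1 : R[X]) * bs f.natDegree x y n) = 0 := by
        rw [map_one]; ring
      rw [this]
      exact Submodule.zero_mem _
  have hb' : ∀ M, Q M → M ≤ e * n := by
    rintro M ⟨z, a, ha, h⟩
    exact hbd ha h
  refine ⟨Nat.findGreatest Q (e * n), Nat.findGreatest_spec (Nat.zero_le _) h0, ?_⟩
  intro z m a h
  by_cases ha : a = 0
  · rw [ha, zero_mul]; exact dvd_zero _
  have hex : ∃ j, ¬ C u ^ j ∣ a := by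
    obtain ⟨i, hi⟩ : ∃ i, a.coeff i ≠ 0 := by
      by_contra h'
      push Not at h'
      exact ha (Polynomial.ext (by simpa using h'))
    have hi' : ((a.coeff i : R) : S) ≠ 0 := fun h' => hi (Subtype.ext h')
    obtain ⟨j, hj⟩ := hF.sep _ hi'
    refine ⟨j, fun h' => hj ?_⟩
    rw [← C_pow, C_dvd_iff_dvd_coeff] at h'
    obtain ⟨c, hc⟩ := h' i
    refine ⟨(c : S), ?_⟩
    rw [hc]
    push_cast
    ring
  obtain ⟨j, hj1, hj2⟩ : ∃ j, C u ^ j ∣ a ∧ ¬ C u ^ (j + 1) ∣ a := by
    have h1 := Nat.find_spec hex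
    have h2 : Nat.find hex ≠ 0 := by
      intro h'
      rw [h', pow_zero] at h1
      exact h1 (one_dvd _)
    obtain ⟨j, hj⟩ := Nat.exists_eq_succ_of_ne_zero h2
    refine ⟨j, ?_, ?_⟩
    · by_contra h3
      have := Nat.find_min' hex h3
      omega
    · rw [← Nat.succ_eq_add_one, ← hj]; exact h1
  obtain ⟨a', ha'⟩ := hj1
  have ha'' : ¬ C u ∣ a' := by
    rintro ⟨c, hc⟩
    apply hj2
    refine ⟨c, ?_⟩
    rw [ha', hc, pow_succ]
    ring
  rcases le_or_gt m j with hmj | hmj
  · refine dvd_mul_of_dvd_left ?_ _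
    rw [ha']
    exact dvd_mul_of_dvd_left (pow_dvd_pow _ hmj) _
  · have h5 : Q (m - j) := by
      refine ⟨z, a', ha'', ?_⟩
      obtain ⟨t, ht⟩ := h
      refine ⟨t + j, ?_⟩
      have h6 : m - j + (t + j) = m + t := by omega
      have h7 : (u : S) ^ (t + j) * (aeval v a' * bs f.natDegree x y n) =
          (u : S) ^ t * (aeval v a * bs f.natDegree x y n) := by
        rw [ha', map_mul, map_pow, aeval_C, pow_add]
        change _ = (u : S) ^ t * ((u : S) ^ j * aeval v a' * bs f.natDegree x y n)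
        ring
      rw [h6, h7]
      exact ht
    have h8 := Nat.le_findGreatest (hb' _ h5) h5
    have h9 : C u ^ m ∣ C u ^ (j + Nat.findGreatest Q (e * n)) := pow_dvd_pow _ (by omega)
    refine h9.trans ?_
    rw [pow_add, ha']
    exact mul_dvd_mul (dvd_mul_right _ _) dvd_rfl

end Pool.Agent.LNDQ
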