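import Mathlib
import Pool.Agent.LNDQ.DG5
import Pool.Agent.LNDQ.DGRat

set_option autoImplicit false

open Polynomial

namespace Pool.Agent.LNDQ.DG

open Pool.Agent.LNDF

variable {k S : Type} [Field k] [CharZero k] [CommRing S] [IsDomain S] [Algebra k S]
  {R : Subalgebra k S} {u : R}

omit [CharZero k] [IsDomain S] in
/-- modulo `u` a polynomial in `v` over `R` is a polynomial in `v` over `k` -/
theorem coeff_mod_u (hF : Fr R u) (v : S) (a : R[X]) :
    ∃ c : k[X], (u : S) ∣ aeval v a - aeval v c := by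
  choose c hc using hF.res
  refine ⟨∑ i ∈ Finset.range (a.natDegree + 1), C (c (a.coeff i)) * X ^ i, ?_⟩
  rw [aeval_eq_sum_range, map_sum, ← Finset.sum_sub_distrib]
  refine Finset.dvd_sum fun i _ => ?_
  obtain ⟨r, hr⟩ := hc (a.coeff i)
  rw [map_mul, aeval_C, map_pow, aeval_X]
  refine ⟨(r : S) * v ^ i, ?_⟩
  have h1 : a.coeff i • v ^ i = ((a.coeff i : R) : S) * v ^ i := rfl
  have h2 : ((a.coeff i : R) : S) = algebraMap k S (c (a.coeff i)) + u * r := by
    have h3 := congrArg (fun r : R => (r : S)) hr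
    exact h3
  rw [h1, h2]
  ring

omit [CharZero k] [IsDomain S] in
/-- rational and integral modulo `u` over `k[v]`: a polynomial in `v` modulo `u` -/
theorem poly_mod_u (hF : Fr R u) {v x : S} (htr : ∀ q : k[X], (u : S) ∣ aeval v q → q = 0)
    {χ : S[X]} (hχ : χ.Monic) (hc : ∀ i, ∃ a : R[X], χ.coeff i = aeval v a)
    (he : (u : S) ∣ χ.eval x) {a b : k[X]} (hb0 : b ≠ 0)
    (hab : (u : S) ∣ aeval v b * x - aeval v a) : ∃ c : k[X], (u : S) ∣ x - aeval v c := by
  have : (Ideal.span {(u : S)}).IsPrime := (Ideal.span_singleton_prime hF.prime.ne_zero).2 hF.prime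
  have key : ∀ z : S, Ideal.Quotient.mk (Ideal.span {(u : S)}) z = 0 ↔ (u : S) ∣ z := by
    intro z
    rw [Ideal.Quotient.eq_zero_iff_mem, Ideal.mem_span_singleton]
  let φ : S →ₐ[k] S ⧸ Ideal.span {(u : S)} := Ideal.Quotient.mkₐ k _
  have hφ : ∀ z : S, φ z = 0 ↔ (u : S) ∣ z := key
  have hφe : ∀ (q : k[X]) (z : S), φ (aeval z q) = aeval (φ z) q := fun q z =>
    (aeval_algHom_apply φ z q).symm
  have hV : Transcendental k (φ v) := by
    rw [transcendental_iff]
    intro q hq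
    exact htr q ((hφ _).1 (by rw [hφe, hq]))
  have h1 : aeval (φ v) b * φ x = aeval (φ v) a := by
    rw [← hφe, ← hφe, ← map_mul, ← sub_eq_zero, ← map_sub]
    exact (hφ _).2 hab
  obtain ⟨c, hc'⟩ := poly_of_rat hV hb0 h1 (χ := χ.map (φ : S →+* _)) (hχ.map _) (fun i => by
      obtain ⟨r, hr⟩ := hc i
      obtain ⟨c, hc⟩ := coeff_mod_u hF v r
      refine ⟨c, ?_⟩
      rw [coeff_map, hr, ← hφe]
      have h2 := (hφ _).2 hc
      rw [map_sub, sub_eq_zero] at h2
      exact h2) (by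
      rw [eval_map]
      exact (eval₂_hom (p := χ) (φ : S →+* S ⧸ Ideal.span {(u : S)}) x).trans ((hφ _).2 he))
  refine ⟨c, (hφ _).1 ?_⟩
  rw [map_sub, hφe, ← hc', sub_self]

end Pool.Agent.LNDQ.DG
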