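import Mathlib
import Pool.Agent.LNDQ.Defs

set_option autoImplicit false

open Polynomial

namespace Pool.Agent.LNDQ.DG

/-- a polynomial without common factor `u`, up to a power of `u` -/
private theorem gauss_split {R : Type} [CommRing R] [IsDomain R] {u : R}
    (hsep : ∀ r : R, r ≠ 0 → ∃ n : ℕ, ¬ u ^ n ∣ r) {P : R[X]} (hP : P ≠ 0) :
    ∃ (a : ℕ) (P0 : R[X]), P = C u ^ a * P0 ∧ ¬ C u ∣ P0 := by
  classical
  obtain ⟨n, hn⟩ := hsep P.leadingCoeff (leadingCoeff_ne_zero.2 hP)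
  have hn' : ¬ C u ^ n ∣ P := by
    rintro ⟨Q, hQ⟩
    apply hn
    rw [hQ, ← C_pow, leadingCoeff_mul, leadingCoeff_C]
    exact dvd_mul_right _ _
  have hex : ∃ n, ¬ C u ^ n ∣ P := ⟨n, hn'⟩
  have h0 : Nat.find hex ≠ 0 := by
    intro h0
    have h1 := Nat.find_spec hex
    rw [h0, pow_zero] at h1
    exact h1 (one_dvd _)
  obtain ⟨a, ha⟩ : ∃ a, Nat.find hex = a + 1 := ⟨Nat.find hex - 1, by omega⟩
  have h1 : C u ^ a ∣ P := by
    by_contra h2
    exact Nat.find_min hex (m := a) (by omega) h2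
  obtain ⟨P0, hP0⟩ := h1
  refine ⟨a, P0, hP0, ?_⟩
  rintro ⟨Q, hQ⟩
  have h2 := Nat.find_spec hex
  rw [ha] at h2
  exact h2 ⟨Q, by rw [hP0, hQ]; ring⟩

/-- GAUSS: a factor `F` of `u ^ m χ`, `χ` monic, with leading coefficient `u ^ β` is `u ^ β` times a monic
polynomial -/
theorem gauss_monic {R : Type} [CommRing R] [IsDomain R] {u : R} (hu : Prime u)
    (hsep : ∀ r : R, r ≠ 0 → ∃ n : ℕ, ¬ u ^ n ∣ r) {F χ : R[X]} {m β : ℕ}
    (hlead : F.leadingCoeff = u ^ β) (hχ : χ.Monic) (h : F ∣ C u ^ m * χ) :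
    ∃ F0 : R[X], F0.Monic ∧ F = C (u ^ β) * F0 := by
  obtain ⟨H, hH⟩ := h
  have hCu : Prime (C u : R[X]) := (prime_C_iff).2 hu
  have hu0 : u ≠ 0 := hu.ne_zero
  have hF0 : F ≠ 0 := by
    rw [← leadingCoeff_ne_zero, hlead]
    exact pow_ne_zero _ hu0
  have hH0 : H ≠ 0 := by
    rintro rfl
    rw [mul_zero] at hH
    rcases mul_eq_zero.1 hH with h1 | h1
    · exact pow_ne_zero _ hCu.ne_zero h1
    · exact hχ.ne_zero h1
  obtain ⟨a, F1, hF1, hF1'⟩ := gauss_split hsep hF0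
  obtain ⟨b, H1, hH1, hH1'⟩ := gauss_split hsep hH0
  have hχ' : ¬ C u ∣ χ := by
    rintro ⟨Q, hQ⟩
    have h1 : u ∣ 1 := by
      have h2 := hχ.leadingCoeff
      rw [hQ, leadingCoeff_mul, leadingCoeff_C] at h2
      exact ⟨_, h2.symm⟩
    exact hu.not_isUnit (isUnit_of_dvd_one h1)
  have hFH : ¬ C u ∣ F1 * H1 := by
    intro h1
    rcases hCu.dvd_or_dvd h1 with h2 | h2
    · exact hF1' h2
    · exact hH1' h2
  have h1 : C u ^ m * χ = C u ^ (a + b) * (F1 * H1) := by
    rw [hH, hF1, hH1]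
    ring
  have hm : m = a + b := by
    rcases lt_trichotomy m (a + b) with h2 | h2 | h2
    · exfalso
      obtain ⟨d, hd⟩ : ∃ d, a + b = m + (d + 1) := ⟨a + b - m - 1, by omega⟩
      rw [hd, pow_add, mul_assoc] at h1
      have h3 := mul_left_cancel₀ (pow_ne_zero m hCu.ne_zero) h1
      apply hχ'
      rw [h3, pow_succ]
      exact Dvd.intro_left (C u ^ d * (F1 * H1)) (by ring)
    · exact h2
    · exfalso
      obtain ⟨d, hd⟩ : ∃ d, m = a + b + (d + 1) := ⟨m - (a + b) - 1, by omega⟩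
      rw [hd, pow_add, mul_assoc] at h1
      have h3 := mul_left_cancel₀ (pow_ne_zero (a + b) hCu.ne_zero) h1
      apply hFH
      rw [← h3, pow_succ]
      exact Dvd.intro_left (C u ^ d * χ) (by ring)
  rw [hm] at h1
  have h2 : χ = F1 * H1 := mul_left_cancel₀ (pow_ne_zero (a + b) hCu.ne_zero) h1
  have h3 : F1.leadingCoeff * H1.leadingCoeff = 1 := by
    rw [← leadingCoeff_mul, ← h2]
    exact hχ.leadingCoeff
  have h4 : IsUnit F1.leadingCoeff := IsUnit.of_mul_eq_one _ h3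
  have h5 : u ^ a * F1.leadingCoeff = u ^ β := by
    rw [← hlead, hF1, ← C_pow, leadingCoeff_mul, leadingCoeff_C]
  have h6 : a = β := by
    rcases lt_trichotomy a β with h7 | h7 | h7
    · exfalso
      obtain ⟨d, rfl⟩ : ∃ d, β = a + (d + 1) := ⟨β - a - 1, by omega⟩
      rw [pow_add] at h5
      have h8 := mul_left_cancel₀ (pow_ne_zero a hu0) h5
      rw [h8] at h4
      exact hu.not_isUnit (isUnit_of_dvd_unit (dvd_pow_self u (Nat.succ_ne_zero d)) h4)
    · exact h7
    · exfalso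
      obtain ⟨d, rfl⟩ : ∃ d, a = β + (d + 1) := ⟨a - β - 1, by omega⟩
      rw [pow_add, mul_assoc] at h5
      have h8 : u ^ (d + 1) * F1.leadingCoeff = 1 := by
        apply mul_left_cancel₀ (pow_ne_zero β hu0)
        rw [h5, mul_one]
      exact hu.not_isUnit (isUnit_of_dvd_one ⟨u ^ d * F1.leadingCoeff, by rw [← h8]; ring⟩)
  subst h6
  refine ⟨F1, ?_, by rw [C_pow]; exact hF1⟩
  have h7 : u ^ a * F1.leadingCoeff = u ^ a * 1 := by rw [h5, mul_one]
  exact mul_left_cancel₀ (pow_ne_zero a hu0) h7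

theorem fr_prime {k S : Type} [Field k] [CommRing S] [Algebra k S] {R : Subalgebra k S} {u : R}
    (hF : Fr R u) : Prime u := by
  refine ⟨fun h0 => hF.prime.ne_zero (by rw [h0]; rfl), fun h0 => ?_, fun a b hab => ?_⟩
  · exact hF.prime.not_isUnit (h0.map R.val)
  · have h1 : (u : S) ∣ (a : S) * b := by
      obtain ⟨c, hc⟩ := hab
      exact ⟨c, by exact_mod_cast congrArg (fun r : R => (r : S)) hc⟩
    have key : ∀ c : R, (u : S) ∣ c → u ∣ c := by
      rintro c ⟨z, hz⟩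
      have hz2 : (u : S) * z ∈ R := by
        rw [← hz]
        exact c.2
      exact ⟨⟨z, hF.sat z hz2⟩, Subtype.ext hz⟩
    rcases hF.prime.dvd_or_dvd h1 with h2 | h2
    · exact Or.inl (key a h2)
    · exact Or.inr (key b h2)

theorem fr_sep {k S : Type} [Field k] [CommRing S] [Algebra k S] {R : Subalgebra k S} {u : R}
    (hF : Fr R u) (r : R) (hr : r ≠ 0) : ∃ n : ℕ, ¬ u ^ n ∣ r := by
  obtain ⟨n, hn⟩ := hF.sep r (fun h0 => hr (Subtype.ext h0))
  refine ⟨n, ?_⟩
  rintro ⟨c, hc⟩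
  exact hn ⟨c, by exact_mod_cast congrArg (fun r : R => (r : S)) hc⟩

private theorem comp_scale {R : Type} [CommRing R] (χ : R[X]) (u : R) :
    (scaleRoots χ u).comp (C u * X) = C u ^ χ.natDegree * χ := by
  have h := scaleRoots_eval₂_mul (p := χ) (C : R →+* R[X]) X u
  rw [eval₂_C_X] at h
  exact h

/-- coefficientwise: `f.comp (θ + u X) = u ^ β f2` makes `f` congruent to `(X - θ) ^ β` modulo `u` -/
theorem coeff_of_comp {R : Type} [CommRing R] [IsDomain R] {u : R} (hu : u ≠ 0) {f f2 : R[X]}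
    (hf : f.Monic) (θ : R) (h : f.comp (C θ + C u * X) = C (u ^ f.natDegree) * f2) :
    C u ∣ f - (X - C θ) ^ f.natDegree := by
  set g := f.comp (X + C θ) with hg
  have hgm : g.Monic := hf.comp_X_add_C θ
  have hgd : g.natDegree = f.natDegree := by
    rw [hg, natDegree_comp, natDegree_X_add_C, mul_one]
  have h1 : g.comp (C u * X) = C (u ^ f.natDegree) * f2 := by
    rw [← h, hg, comp_assoc]
    congr 1
    rw [add_comp, X_comp, C_comp, add_comm]
  have h2 : ∀ i, g.coeff i * u ^ i = u ^ f.natDegree * f2.coeff i := by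
    intro i
    have h3 := congrArg (fun p : R[X] => p.coeff i) h1
    simp only [coeff_C_mul] at h3
    rwa [comp_C_mul_X_coeff] at h3
  have h3 : C u ∣ g - X ^ f.natDegree := by
    rw [C_dvd_iff_dvd_coeff]
    intro i
    rw [coeff_sub, coeff_X_pow]
    rcases lt_trichotomy i f.natDegree with h4 | h4 | h4
    · rw [if_neg (by omega), sub_zero]
      obtain ⟨d, hd⟩ : ∃ d, f.natDegree = i + (d + 1) := ⟨f.natDegree - i - 1, by omega⟩
      have h5 := h2 i
      rw [hd, pow_add, mul_comm (g.coeff i), mul_assoc] at h5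
      have h6 := mul_left_cancel₀ (pow_ne_zero i hu) h5
      rw [h6, pow_succ]
      exact ⟨u ^ d * f2.coeff i, by ring⟩
    · rw [if_pos h4, h4, ← hgd]
      have h5 : g.coeff g.natDegree = 1 := hgm
      rw [h5, sub_self]
      exact dvd_zero _
    · rw [if_neg (by omega), sub_zero, coeff_eq_zero_of_natDegree_lt (by omega)]
      exact dvd_zero _
  have h4 : f - (X - C θ) ^ f.natDegree = (g - X ^ f.natDegree).comp (X - C θ) := by
    rw [sub_comp, X_pow_comp, hg, comp_assoc]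
    congr 1
    rw [add_comp, X_comp, C_comp, sub_add_cancel, comp_X]
  rw [h4]
  obtain ⟨q, hq⟩ := h3
  exact ⟨q.comp (X - C θ), by rw [hq, mul_comp, C_comp]⟩

section ring

variable {R : Type} [CommRing R] [IsDomain R] {u θ : R} {f χ f2 : R[X]}

/-- Gauss -/
theorem gauss_comp (hu : Prime u) (hsep : ∀ r : R, r ≠ 0 → ∃ n : ℕ, ¬ u ^ n ∣ r) (hf : f.Monic)
    (hχ : χ.Monic) {M : ℕ} (h : f.comp (C θ + C u * X) ∣ C (u ^ M) * χ) :
    ∃ f2 : R[X], f2.Monic ∧ f2.natDegree = f.natDegree ∧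
      f.comp (C θ + C u * X) = C (u ^ f.natDegree) * f2 := by
  have hnd : (C θ + C u * X : R[X]).natDegree = 1 := by
    rw [add_comm]
    exact natDegree_linear hu.ne_zero
  have hlc : (C θ + C u * X : R[X]).leadingCoeff = u := by
    rw [add_comm]
    exact leadingCoeff_linear hu.ne_zero
  have hlead : (f.comp (C θ + C u * X)).leadingCoeff = u ^ f.natDegree := by
    rw [leadingCoeff_comp (by rw [hnd]; exact one_ne_zero), hlc, hf.leadingCoeff, one_mul]
  rw [C_pow] at h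
  obtain ⟨f2, hf2, hf2'⟩ := gauss_monic hu hsep hlead hχ h
  refine ⟨f2, hf2, ?_, hf2'⟩
  have h1 : (f.comp (C θ + C u * X)).natDegree = f.natDegree := by
    rw [natDegree_comp, hnd, mul_one]
  rw [hf2', natDegree_C_mul (pow_ne_zero _ hu.ne_zero)] at h1
  exact h1

/-- `f = (X - θ) ^ β` modulo `u` -/
theorem dvd_of_comp (hu : u ≠ 0) (hf : f.Monic) (_h2 : f2.Monic) (_hd : f2.natDegree = f.natDegree)
    (h : f.comp (C θ + C u * X) = C (u ^ f.natDegree) * f2) :
    C u ∣ f - (X - C θ) ^ f.natDegree :=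
  coeff_of_comp hu hf θ h

omit [IsDomain R] in
/-- clearing the denominators of `χ((T - θ) / u)` -/
theorem exists_P (u θ : R) (χ : R[X]) :
    ∃ (P : R[X]) (M : ℕ), P.comp (C θ + C u * X) = C (u ^ M) * χ := by
  refine ⟨(scaleRoots χ u).comp (X - C θ), χ.natDegree, ?_⟩
  rw [comp_assoc, sub_comp, X_comp, C_comp, add_sub_cancel_left, comp_scale, C_pow]

end ring

variable {k S : Type} [Field k] [CommRing S] [IsDomain S] [Algebra k S] {R : Subalgebra k S} {u : R}

/-- the new polynomial `f2` and the new `y` -/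
theorem exists_f2 (hF : Fr R u) {f : R[X]} {v x y x' : S} (hp : Pres f v x y)
    (hk : ∀ z : S, ∃ m : ℕ, (u : S) ^ m * z ∈ Cx R v x y)
    (hdiv : ∀ (P : R[X]) (z : S), z ∈ Cx R v x y → aeval x P = v * z → f ∣ P)
    (hvu : ∀ z : S, v ∣ u * z → v ∣ z) {θ : k} (hx' : (u : S) * x' = x - algebraMap k S θ)
    {χ : R[X]} (hχ : χ.Monic) (hv : v ∣ aeval x' χ) :
    ∃ (f2 : R[X]) (y' : S), f2.Monic ∧ f2.natDegree = f.natDegree ∧
      C u ∣ f - (X - C (algebraMap k R θ)) ^ f.natDegree ∧ v * y' = aeval x' f2 ∧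
      (u : S) ^ f.natDegree * y' = y := by
  have huR := fr_prime hF
  have huS : (u : S) ≠ 0 := hF.prime.ne_zero
  set t : R := algebraMap k R θ with ht
  have htS : algebraMap R S t = algebraMap k S θ := rfl
  have huM : algebraMap R S u = (u : S) := rfl
  obtain ⟨z, hz⟩ := hv
  have hxe : aeval x' (C t + C u * X : R[X]) = x := by
    rw [map_add, map_mul, aeval_C, aeval_C, aeval_X, htS, huM, hx', add_sub_cancel]
  -- the polynomial in `x`
  obtain ⟨P, M, hP⟩ := exists_P u t χ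
  have hPx : aeval x P = v * ((u : S) ^ M * z) := by
    have h1 : aeval x' (P.comp (C t + C u * X)) = aeval x P := by
      rw [aeval_comp, hxe]
    rw [← h1, hP, map_mul, aeval_C, map_pow, huM, hz]
    ring
  obtain ⟨m, hm⟩ := hk ((u : S) ^ M * z)
  have hdv : f ∣ C u ^ m * P := by
    apply hdiv _ _ hm
    rw [map_mul, map_pow, aeval_C, huM, hPx]
    ring
  have hcomp : f.comp (C t + C u * X) ∣ C (u ^ (m + M)) * χ := by
    obtain ⟨Q, hQ⟩ := hdv
    refine ⟨Q.comp (C t + C u * X), ?_⟩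
    rw [← mul_comp, ← hQ, mul_comp, pow_comp, C_comp, hP]
    simp only [C_pow]
    ring
  obtain ⟨f2, hf2, hdeg, hf2'⟩ := gauss_comp huR (fr_sep hF) hp.monic hχ hcomp
  -- the new `y`
  have hvy : v * y = (u : S) ^ f.natDegree * aeval x' f2 := by
    have h1 : aeval x' (f.comp (C t + C u * X)) = v * y := by
      rw [aeval_comp, hxe, ← hp.rel]
    rw [← h1, hf2', map_mul, aeval_C, map_pow, huM]
  have hvf : v ∣ aeval x' f2 := by
    have h1 : ∀ n : ℕ, v ∣ (u : S) ^ n * aeval x' f2 → v ∣ aeval x' f2 := by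
      intro n
      induction n with
      | zero =>
        intro h
        rwa [pow_zero, one_mul] at h
      | succ n ih =>
        intro h
        rw [pow_succ', mul_assoc] at h
        exact ih (hvu _ h)
    exact h1 f.natDegree ⟨y, hvy.symm⟩
  have hv0 : v ≠ 0 := by
    rintro rfl
    have h1 := hp.rel
    rw [zero_mul] at h1
    have h2 := hp.ind
    rw [AlgebraicIndependent, injective_iff_map_eq_zero] at h2
    have h3 := h2 (MvPolynomial.X 0) (by rw [MvPolynomial.aeval_X]; rfl)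
    have : Nontrivial R := ⟨⟨u, 0, huR.ne_zero⟩⟩
    exact MvPolynomial.X_ne_zero (R := R) (0 : Fin 2) h3
  obtain ⟨y', hy'⟩ := hvf
  refine ⟨f2, y', hf2, hdeg, coeff_of_comp huR.ne_zero hp.monic t hf2', hy'.symm, ?_⟩
  apply mul_left_cancel₀ hv0
  rw [hvy, hy']
  ring

end Pool.Agent.LNDQ.DG
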