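import Mathlib
import Pool.Agent.LNDQ.Defs
import Pool.Agent.LNDQ.Bas

/-!
# The new presentation: `f(u T + θ) = u ^ β f''(T)`
-/

set_option autoImplicit false

open Polynomial

namespace Pool.Agent.LNDQ

theorem ind_of_alg {R C : Type*} [CommRing R] [CommRing C] [Algebra R C] {v x : C}
    (h : AlgebraicIndependent R ![v, x]) : Bas.Ind R v x := by
  intro P hP
  set Q : MvPolynomial (Fin 2) R :=
    P.eval₂ (aeval (MvPolynomial.X 0) : R[X] →ₐ[R] MvPolynomial (Fin 2) R).toRingHom
      (MvPolynomial.X 1) with hQ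
  have h1 : MvPolynomial.aeval ![v, x] Q = 0 := by
    change (MvPolynomial.aeval ![v, x] : MvPolynomial (Fin 2) R →ₐ[R] C).toRingHom Q = 0
    rw [hQ, hom_eval₂]
    have e : (MvPolynomial.aeval ![v, x] : MvPolynomial (Fin 2) R →ₐ[R] C).toRingHom.comp
        (aeval (MvPolynomial.X 0) : R[X] →ₐ[R] MvPolynomial (Fin 2) R).toRingHom =
        (aeval v : R[X] →ₐ[R] C).toRingHom := by
      apply Polynomial.ringHom_ext
      · intro a
        simp
      · simp
    rw [e]
    have e2 : (MvPolynomial.aeval ![v, x] : MvPolynomial (Fin 2) R →ₐ[R] C).toRingHom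
        (MvPolynomial.X 1) = x := by simp
    rw [e2]
    exact hP
  have h2 : Q = 0 := by
    apply h
    rw [h1, map_zero]
  have h3 : (MvPolynomial.aeval ![Polynomial.C Polynomial.X, Polynomial.X] :
      MvPolynomial (Fin 2) R →ₐ[R] R[X][X]) Q = P := by
    change (MvPolynomial.aeval ![Polynomial.C Polynomial.X, Polynomial.X] :
      MvPolynomial (Fin 2) R →ₐ[R] R[X][X]).toRingHom Q = P
    rw [hQ, hom_eval₂]
    have e : (MvPolynomial.aeval ![Polynomial.C Polynomial.X, Polynomial.X] :
        MvPolynomial (Fin 2) R →ₐ[R] R[X][X]).toRingHom.comp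
        (aeval (MvPolynomial.X 0) : R[X] →ₐ[R] MvPolynomial (Fin 2) R).toRingHom =
        (Polynomial.C : R[X] →+* R[X][X]) := by
      apply Polynomial.ringHom_ext
      · intro a
        simp [Polynomial.algebraMap_apply]
      · simp
    rw [e]
    have e2 : (MvPolynomial.aeval ![Polynomial.C Polynomial.X, Polynomial.X] :
        MvPolynomial (Fin 2) R →ₐ[R] R[X][X]).toRingHom (MvPolynomial.X 1) = X := by simp
    rw [e2]
    exact eval₂_C_X
  rw [← h3, h2, map_zero]

section

variable {k S : Type} [Field k] [CommRing S] [Algebra k S] {R : Subalgebra k S} {u : R}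
  {f : R[X]} {v x y : S}

theorem Pres.rlG (h : Pres f v x y) : Bas.Rl f f.natDegree v x y :=
  ⟨by have := h.deg; omega, h.monic, rfl, h.rel⟩

theorem Fr.primeRG (h : Fr R u) : Prime u := by
  refine ⟨?_, ?_, ?_⟩
  · intro h0
    apply h.prime.ne_zero
    rw [h0]
    rfl
  · intro hu
    exact h.prime.not_isUnit (hu.map R.subtype)
  · rintro a b ⟨c, hc⟩
    have h1 : (u : S) ∣ (a : S) * b := ⟨c, congrArg (fun z : R => (z : S)) hc⟩
    rcases h.prime.dvd_or_dvd h1 with ⟨z, hz⟩ | ⟨z, hz⟩
    · left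
      have hz' : z ∈ R := h.sat z (by rw [← hz]; exact a.2)
      exact ⟨⟨z, hz'⟩, Subtype.ext hz⟩
    · right
      have hz' : z ∈ R := h.sat z (by rw [← hz]; exact b.2)
      exact ⟨⟨z, hz'⟩, Subtype.ext hz⟩

theorem Env.not_dvd_v (h : Env R u f v x y) (hu : ¬ IsUnit u) : ¬ (u : S) ∣ v := by
  intro h0
  have h1 := h.vtr X (by rwa [aeval_X])
  rw [C_dvd_iff_dvd_coeff] at h1
  have h2 := h1 1
  rw [coeff_X_one] at h2
  exact hu (isUnit_of_dvd_one h2)

variable [IsDomain S]

/-- the powers `x ^ i`, `i < β`, are independent modulo `v` -/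
theorem dg_modv (hE : Env R u f v x y) {r : R[X]} (hr : r.natDegree < f.natDegree)
    (h : v ∣ aeval x r) : r = 0 := by
  classical
  obtain ⟨s, hs⟩ := h
  obtain ⟨m, hm⟩ := hE.kap s
  have hRl := hE.pres.rlG
  obtain ⟨n, p, hp⟩ := Bas.exists_low hRl (c := (u : S) ^ m * s) hm
  set β := f.natDegree with hβ
  have hβ0 : 0 < β := by have := hE.pres.deg; omega
  have hu0 : u ≠ 0 := hE.fr.primeRG.ne_zero
  have hA : ∑ i ∈ Finset.range (max n β), aeval v (if i < n then X * p i else 0) *
      Bas.e β x y i = v * ((u : S) ^ m * s) := by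
    rw [← Finset.sum_subset (Finset.range_subset_range.2 (le_max_left n β)) (fun i _ hi => by
      rw [if_neg (fun h' => hi (Finset.mem_range.2 h')), map_zero, zero_mul]), hp, Finset.mul_sum]
    refine Finset.sum_congr rfl fun i hi => ?_
    rw [if_pos (Finset.mem_range.1 hi), map_mul, aeval_X, mul_assoc]
  have hB : ∑ i ∈ Finset.range (max n β),
      aeval v (if i < β then Polynomial.C (u ^ m * r.coeff i) else 0) * Bas.e β x y i =
      (u : S) ^ m * aeval x r := by
    rw [← Finset.sum_subset (Finset.range_subset_range.2 (le_max_right n β)) (fun i _ hi => by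
      rw [if_neg (fun h' => hi (Finset.mem_range.2 h')), map_zero, zero_mul]),
      aeval_eq_sum_range' hr, Finset.mul_sum]
    refine Finset.sum_congr rfl fun i hi => ?_
    have hi' := Finset.mem_range.1 hi
    rw [if_pos hi', aeval_C, Bas.e, Nat.mod_eq_of_lt hi', Nat.div_eq_of_lt hi', pow_zero, mul_one,
      Algebra.smul_def, map_mul, map_pow]
    change (u : S) ^ m * (r.coeff i : S) * x ^ i = _
    rw [mul_assoc]
    rfl
  have h1 : ∑ i ∈ Finset.range (max n β), aeval v ((if i < n then X * p i else 0) -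
      (if i < β then Polynomial.C (u ^ m * r.coeff i) else 0)) * Bas.e β x y i = 0 := by
    simp_rw [map_sub, sub_mul]
    rw [Finset.sum_sub_distrib, hA, hB, hs]
    ring
  have h2 := Bas.uniq hRl (ind_of_alg hE.pres.ind) h1
  ext1 i
  rw [coeff_zero]
  by_cases hi : i < β
  · have h3 := h2 i (lt_of_lt_of_le hi (le_max_right n β))
    rw [if_pos hi] at h3
    have h4 := congrArg (fun P : R[X] => P.coeff 0) h3
    simp only [coeff_sub, coeff_C_zero, coeff_zero] at h4
    have h5 : (if i < n then X * p i else 0 : R[X]).coeff 0 = 0 := by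
      split_ifs
      · rw [mul_coeff_zero, coeff_X_zero, zero_mul]
      · rfl
    rw [h5, zero_sub, neg_eq_zero] at h4
    rcases mul_eq_zero.1 h4 with h6 | h6
    · exact absurd h6 (pow_ne_zero m hu0)
    · exact h6
  · exact coeff_eq_zero_of_natDegree_lt (by omega)

/-- a polynomial with leading coefficient `u ^ b` which divides `u ^ m` times a monic polynomial is `u ^ b` times a
monic polynomial -/
theorem dg_gauss {R : Type*} [CommRing R] [IsDomain R] {u : R} (hu : Prime u) {g q χ : R[X]} {b m : ℕ}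
    (hg : g.leadingCoeff = u ^ b) (hχ : χ.Monic) (h : g * q = Polynomial.C (u ^ m) * χ) :
    ∃ g0 : R[X], g0.Monic ∧ g = Polynomial.C (u ^ b) * g0 ∧ g0.natDegree = g.natDegree := by
  classical
  have hCu : Prime (Polynomial.C u) := prime_C_iff.2 hu
  have hfin : FiniteMultiplicity (Polynomial.C u) g := by
    refine ⟨b, fun h0 => ?_⟩
    obtain ⟨w, hw⟩ := h0
    have h1 := congrArg leadingCoeff hw
    rw [leadingCoeff_mul, hg, leadingCoeff_pow, leadingCoeff_C, pow_succ, mul_assoc] at h1
    have h3 := mul_left_cancel₀ (pow_ne_zero b hu.ne_zero) ((mul_one (u ^ b)).trans h1)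
    exact hu.not_isUnit (IsUnit.of_mul_eq_one _ h3.symm)
  obtain ⟨g0, hg1, hg2⟩ := hfin.exists_eq_pow_mul_and_not_dvd
  set s := multiplicity (Polynomial.C u) g with hs
  have hCm : Polynomial.C u ^ m = Polynomial.C (u ^ m) := C_pow.symm
  have h1 : Polynomial.C u ^ m ∣ g0 * (Polynomial.C u ^ s * q) := by
    refine ⟨χ, ?_⟩
    rw [hCm, ← h]
    conv_rhs => rw [hg1]
    ring
  obtain ⟨c, hc⟩ := hCu.pow_dvd_of_dvd_mul_left m hg2 h1
  have h2 : g0 * c = χ := by
    apply mul_left_cancel₀ (pow_ne_zero m hCu.ne_zero)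
    have h3 : Polynomial.C u ^ m * (g0 * c) = g0 * (Polynomial.C u ^ s * q) := by
      rw [hc]
      ring
    rw [h3, hCm, ← h]
    conv_rhs => rw [hg1]
    ring
  have h4 : g0.leadingCoeff * c.leadingCoeff = 1 := by
    rw [← leadingCoeff_mul, h2]
    exact hχ
  have h5 : u ^ b = u ^ s * g0.leadingCoeff := by
    rw [← hg]
    conv_lhs => rw [hg1]
    rw [leadingCoeff_mul, leadingCoeff_pow, leadingCoeff_C]
  have hsb : s = b := by
    apply le_antisymm
    · exact (pow_dvd_pow_iff hu.ne_zero hu.not_isUnit).1 ⟨_, h5⟩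
    · apply (pow_dvd_pow_iff hu.ne_zero hu.not_isUnit).1
      refine ⟨c.leadingCoeff, ?_⟩
      rw [h5, mul_assoc, h4, mul_one]
  have hmon : g0.Monic := by
    rw [hsb] at h5
    have h6 : u ^ b * 1 = u ^ b * g0.leadingCoeff := by rw [mul_one]; exact h5
    exact (mul_left_cancel₀ (pow_ne_zero b hu.ne_zero) h6).symm
  refine ⟨g0, hmon, ?_, ?_⟩
  · conv_lhs => rw [hg1]
    rw [hsb, C_pow]
  · conv_rhs => rw [hg1]
    rw [← C_pow, natDegree_C_mul (pow_ne_zero s hu.ne_zero)]

/-- **The new presentation** (DG8, DG9). -/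
theorem dg_f2 (hE : Env R u f v x y) {θ : R} {x'' : S} (hx : (u : S) * x'' = x - θ) {χ : S[X]}
    (hχ : χ.Monic) (hc : ∀ i, ∃ p : R[X], χ.coeff i = aeval v p) (he : v ∣ χ.eval x'') :
    ∃ (f2 : R[X]) (y'' : S), f2.Monic ∧ f2.natDegree = f.natDegree ∧
      C (u ^ f.natDegree) * f2 = f.comp (C u * X + C θ) ∧ v * y'' = aeval x'' f2 ∧
      y = (u : S) ^ f.natDegree * y'' := by
  classical
  have hu := hE.fr.primeRG
  have hdeg := hE.pres.deg
  choose p hp using hc
  set m := χ.natDegree with hm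
  -- the polynomial modulo `v`
  obtain ⟨χ0, hχ0, hχ0m, hdv⟩ : ∃ χ0 : R[X], χ0.Monic ∧ χ0.natDegree = m ∧ v ∣ aeval x'' χ0 := by
    set low : R[X] := ∑ i ∈ Finset.range m, C ((p i).coeff 0) * X ^ i with hlow
    have hlowd : low.degree < m := by
      rw [degree_lt_iff_coeff_zero]
      intro j hj
      rw [hlow, finsetSum_coeff]
      refine Finset.sum_eq_zero fun i hi => ?_
      have hi' := Finset.mem_range.1 hi
      rw [coeff_C_mul_X_pow, if_neg (by omega)]
    have hmon : (X ^ m + low).Monic := monic_X_pow_add hlowd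
    refine ⟨X ^ m + low, hmon, ?_, ?_⟩
    · rw [natDegree_add_eq_left_of_degree_lt, natDegree_X_pow]
      rwa [degree_X_pow]
    · have h1 : aeval x'' (X ^ m + low) = χ.eval x'' -
          v * ∑ i ∈ Finset.range m, aeval v (p i).divX * x'' ^ i := by
        rw [eval_eq_sum_range, ← hm, Finset.sum_range_succ, hm, hχ.coeff_natDegree, ← hm, one_mul,
          map_add, map_pow, aeval_X, hlow, map_sum, Finset.mul_sum, add_comm, add_sub_right_comm,
          ← Finset.sum_sub_distrib]
        congr 1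
        refine Finset.sum_congr rfl fun i _ => ?_
        have e1 : aeval v (p i) = aeval v (p i).divX * v + algebraMap R S ((p i).coeff 0) := by
          conv_lhs => rw [← divX_mul_X_add (p i)]
          rw [map_add, map_mul, aeval_X, aeval_C]
        rw [hp i, map_mul, map_pow, aeval_X, aeval_C, e1]
        ring
      rw [h1]
      exact dvd_sub he (Dvd.intro _ rfl)
  -- homogenization
  set h : R[X] := (χ0.scaleRoots u).comp (X - C θ) with hh
  have hLmon : (X - C θ : R[X]).Monic := monic_X_sub_C θ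
  have hsm : (χ0.scaleRoots u).Monic := (monic_scaleRoots_iff u).2 hχ0
  have hLdeg : (X - C θ : R[X]).natDegree = 1 := natDegree_X_sub_C θ
  have hhm : h.Monic := hsm.comp hLmon (by rw [hLdeg]; exact one_ne_zero)
  have hxh : aeval x h = (u : S) ^ m * aeval x'' χ0 := by
    rw [hh, aeval_comp, map_sub, aeval_X, aeval_C]
    have e1 : x - algebraMap R S θ = algebraMap R S u * x'' := hx.symm
    rw [e1, aeval_def, scaleRoots_eval₂_mul, hχ0m]
    rfl
  have hr : h %ₘ f = 0 := by
    by_contra hne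
    have hf1 : f ≠ 1 := by
      intro h1
      rw [h1, natDegree_one] at hdeg
      omega
    have h1 : (h %ₘ f).natDegree < f.natDegree := natDegree_modByMonic_lt h hE.pres.monic hf1
    apply hne
    apply dg_modv hE h1
    have h2 := congrArg (aeval x) (modByMonic_add_div h f)
    rw [map_add, map_mul, ← hE.pres.rel, hxh] at h2
    have h3 : aeval x (h %ₘ f) = (u : S) ^ m * aeval x'' χ0 - v * y * aeval x (h /ₘ f) := by
      rw [← h2]; ring
    rw [h3]
    exact dvd_sub (Dvd.dvd.mul_left hdv _) ⟨y * aeval x (h /ₘ f), by ring⟩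
  have hq := modByMonic_add_div h f
  rw [hr, zero_add] at hq
  -- back
  set L : R[X] := C u * X + C θ with hL
  have hcomp : h.comp L = C (u ^ m) * χ0 := by
    rw [hh, comp_assoc, sub_comp, X_comp, C_comp, hL, add_sub_cancel_right]
    rw [comp, scaleRoots_eval₂_mul, hχ0m, eval₂_C_X, C_pow]
  have hgq : f.comp L * (h /ₘ f).comp L = C (u ^ m) * χ0 := by
    rw [← hcomp, ← mul_comp, hq]
  have hLd : L.natDegree = 1 := by
    rw [hL]
    exact natDegree_linear hu.ne_zero
  have hlc : (f.comp L).leadingCoeff = u ^ f.natDegree := by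
    rw [leadingCoeff_comp (by rw [hLd]; exact one_ne_zero), hE.pres.monic.leadingCoeff, one_mul, hL,
      leadingCoeff_linear hu.ne_zero]
  obtain ⟨f2, hf2, hf3, hf4⟩ := dg_gauss hu hlc hχ0 hgq
  have hf5 : f2.natDegree = f.natDegree := by rw [hf4, natDegree_comp, hLd, mul_one]
  have hev : (u : S) ^ f.natDegree * aeval x'' f2 = v * y := by
    have h1 := congrArg (aeval x'') hf3
    rw [aeval_comp, map_mul, aeval_C, hL, map_add, map_mul, aeval_C, aeval_C, aeval_X] at h1
    have e1 : algebraMap R S u * x'' + algebraMap R S θ = x := by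
      change (u : S) * x'' + (θ : S) = x
      rw [hx]; ring
    rw [e1, ← hE.pres.rel, map_pow] at h1
    exact h1.symm
  have huv : ¬ (u : S) ∣ v := hE.not_dvd_v hu.not_isUnit
  have hyd : (u : S) ^ f.natDegree ∣ y :=
    hE.fr.prime.pow_dvd_of_dvd_mul_left _ huv ⟨_, hev.symm⟩
  obtain ⟨y'', hy''⟩ := hyd
  refine ⟨f2, y'', hf2, hf5, hf3.symm, ?_, hy''⟩
  apply mul_left_cancel₀ (pow_ne_zero f.natDegree hE.fr.prime.ne_zero)
  rw [hev, hy'']
  ring

end

end Pool.Agent.LNDQ
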