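import Mathlib
import Pool.Agent.LNDQ.Asm
import Pool.Agent.LNDF.Fin4A

set_option autoImplicit false

open Polynomial

namespace Pool.Agent.LNDQ

open Pool.Agent.LNDHom Pool.Agent.LNDF

/-- Miyanishi's theorem over the field `k` (existence of two generators of the kernel) -/
def Miy (k : Type) [Field k] : Prop :=
  ∀ D : Derivation k (B3 k) (B3 k), D ≠ 0 → (∀ x, ∃ n, (⇑D)^[n] x = 0) →
    ∃ f g : B3 k, ∀ b, D b = 0 ↔ b ∈ Algebra.adjoin k {f, g}

/-- `S00279` from the two main theorems: full Q1 for kernels with two generators and Miyanishi's theorem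
over algebraically closed fields -/
theorem frozen_of (hM : ∀ (K : Type) [Field K] [CharZero K] [IsAlgClosed K], Miy K) :
    ∀ (k : Type) [Field k] [CharZero k]
      (D : Derivation k (MvPolynomial (Fin 3) k) (MvPolynomial (Fin 3) k)),
      D ≠ 0 →
      (∀ f : MvPolynomial (Fin 3) k, ∃ m : ℕ, (⇑D)^[m] f = 0) →
      ∀ n : ℕ, ∃ a : MvPolynomial (Fin 3) k, D a = 0 ∧
        ∀ g : MvPolynomial (Fin 3) k,
          (∃ f : MvPolynomial (Fin 3) k, (⇑D)^[n + 1] f = 0 ∧ (⇑D)^[n] f = g) ↔
          (∃ c : MvPolynomial (Fin 3) k, D c = 0 ∧ g = a * c) := by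
  intro k _ _ D hD hln n
  have hinj := MvPolynomial.map_injective (σ := Fin 3) _
    (algebraMap k (AlgebraicClosure k)).injective
  have : CharZero (AlgebraicClosure k) :=
    charZero_of_injective_algebraMap (algebraMap k (AlgebraicClosure k)).injective
  have hK : LNDHom.ext (AlgebraicClosure k) D ≠ 0 := by
    intro h
    apply hD
    refine Derivation.ext fun x => hinj ?_
    rw [← LNDHom.ext_map, h]
    simp
  have hlnK := LNDHom.ext_ln (K := AlgebraicClosure k) D hln
  obtain ⟨f, g, hker⟩ := hM (AlgebraicClosure k) _ hK hlnK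
  exact princ_descent (AlgebraicClosure k) D
    ((full_q1 (AlgebraicClosure k) _ hK hlnK f g hker).2 n)

end Pool.Agent.LNDQ
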