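import Mathlib
import Pool.Agent.LNDQ.Fro
import Pool.Agent.LNDHom.Basis
import Pool.Agent.LNDF.Ar1

set_option autoImplicit false

open Polynomial

namespace Pool.Agent.LNDQ

open Pool.Agent.LNDHom Pool.Agent.LNDF

/-- FULL Q1 for every nonzero locally nilpotent derivation over every field of characteristic zero, from
Miyanishi's theorem over algebraically closed fields: basis form -/
theorem every_q1 (hM : ∀ (K : Type) [Field K] [CharZero K] [IsAlgClosed K], Miy K)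
    (k : Type) [Field k] [CharZero k] (D : Derivation k (B3 k) (B3 k)) (hD : D ≠ 0)
    (hln : ∀ b : B3 k, ∃ m : ℕ, (⇑D)^[m] b = 0) :
    ∃ Q : ℕ → B3 k, (∀ n, (⇑D)^[n] (Q n) ≠ 0 ∧ (⇑D)^[n + 1] (Q n) = 0) ∧
      ∀ b : B3 k, ∃! c : ℕ →₀ B3 k, (∀ n, D (c n) = 0) ∧ b = c.sum fun n a => a * Q n := by
  have hD0 : ∃ x, D x ≠ 0 := by
    by_contra h
    push Not at h
    exact hD (Derivation.ext (fun x => by rw [h x]; rfl))
  have key : ∀ n : ℕ, ∃ c Q : B3 k, (⇑D)^[n] Q = c ∧ c ≠ 0 ∧ D c = 0 ∧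
      ∀ x, (⇑D)^[n + 1] x = 0 → c ∣ (⇑D)^[n] x := by
    intro n
    obtain ⟨a, ha, hI⟩ := frozen_of hM k D hD hln n
    obtain ⟨Q, -, hQ⟩ := (hI a).2 ⟨1, Derivation.map_one_eq_zero D, (mul_one a).symm⟩
    refine ⟨a, Q, hQ, ?_, ha, fun x hx => ?_⟩
    · rintro rfl
      obtain ⟨y, hy, hy'⟩ := exists_deg D hD0 hln n
      obtain ⟨c, -, hc⟩ := (hI _).1 ⟨y, hy', rfl⟩
      rw [zero_mul] at hc
      exact hy hc
    · obtain ⟨c, -, hc⟩ := (hI _).1 ⟨x, hx, rfl⟩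
      exact ⟨c, hc⟩
  choose c Q h2 h3 h4 h5 using key
  refine ⟨Q, fun n => ?_, LNDHom.freeness D hln h2 h3 h4 h5⟩
  exact ⟨by rw [h2]; exact h3 n, by rw [Function.iterate_succ_apply', h2, h4]⟩

end Pool.Agent.LNDQ
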