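import Mathlib
import Pool.Agent.LNDQ.Fd1

set_option autoImplicit false

open Polynomial

/-!
# The constants at a crossing of a vertical and a horizontal prime
-/

namespace Pool.Agent.LNDQ

open Pool.Agent.LNDHom Pool.Agent.LNDT Pool.Agent.LNDF

section prep

variable {k : Type} [Field k]

/-- a prime minus a constant is not constant -/
theorem sub_C_ne {u : B3 k} (hu : Prime u) (l : k) : 0 < (u - MvPolynomial.C l).totalDegree := by
  by_contra h0
  have h1 : (u - MvPolynomial.C l).totalDegree = 0 := by omega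
  rw [MvPolynomial.totalDegree_eq_zero_iff_eq_C] at h1
  have h2 := totalDegree_pos hu
  have h3 : u = MvPolynomial.C ((u - MvPolynomial.C l).coeff 0 + l) := by
    rw [map_add, ← h1]
    ring
  rw [h3, MvPolynomial.totalDegree_C] at h2
  exact lt_irrefl _ h2

theorem sub_C_ne_zero' {u : B3 k} (hu : Prime u) (l : k) : u - MvPolynomial.C l ≠ 0 := by
  intro h
  have := sub_C_ne hu l
  rw [h, MvPolynomial.totalDegree_zero] at this
  exact lt_irrefl _ this

/-- the degree of `q(u)` -/
theorem natDegree_le_aeval [IsAlgClosed k] {u : B3 k} (hu : Prime u) (n : ℕ) :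
    ∀ q : k[X], q ≠ 0 → q.natDegree = n → aeval u q ≠ 0 ∧ n ≤ (aeval u q).totalDegree := by
  induction n with
  | zero =>
    intro q hq hn
    refine ⟨?_, Nat.zero_le _⟩
    rw [eq_C_of_natDegree_eq_zero hn, aeval_C]
    have h2 : q.coeff 0 ≠ 0 := by
      intro h3
      apply hq
      rw [eq_C_of_natDegree_eq_zero hn, h3, C_0]
    exact fun h => h2 ((algebraMap k (B3 k)).injective (h.trans (map_zero _).symm))
  | succ n ih =>
    intro q hq hn
    obtain ⟨l, hl⟩ := IsAlgClosed.exists_root q (fun h2 => by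
      have := natDegree_eq_zero_iff_degree_le_zero.2 h2.le
      omega)
    obtain ⟨q', hq'⟩ := dvd_iff_isRoot.2 hl
    have hq'0 : q' ≠ 0 := by
      rintro rfl
      rw [mul_zero] at hq'
      exact hq hq'
    have hdeg : q.natDegree = 1 + q'.natDegree := by
      rw [hq', natDegree_mul (X_sub_C_ne_zero l) hq'0, natDegree_X_sub_C]
    obtain ⟨h1, h2⟩ := ih q' hq'0 (by omega)
    have h3 : aeval u q = (u - MvPolynomial.C l) * aeval u q' := by
      rw [hq', map_mul, map_sub, aeval_X, aeval_C]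
      rfl
    have h4 := sub_C_ne_zero' hu l
    refine ⟨by rw [h3]; exact mul_ne_zero h4 h1, ?_⟩
    rw [h3, MvPolynomial.totalDegree_mul_of_isDomain h4 h1]
    have := sub_C_ne hu l
    omega

theorem aeval_inj' [IsAlgClosed k] {u : B3 k} (hu : Prime u) {p q : k[X]}
    (h : aeval u p = aeval u q) : p = q := by
  by_contra hne
  have h1 := (natDegree_le_aeval hu _ (p - q) (sub_ne_zero.2 hne) rfl).1
  apply h1
  rw [map_sub, h, sub_self]

end prep

section main

variable {k F : Type} [Field k] [CharZero k] [IsAlgClosed k] {D : Derivation k (B3 k) (B3 k)}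
  [Field F] [CharZero F] [Algebra (kerAlg D) F] [IsFractionRing (kerAlg D) F]
  {δ : Derivation ℤ F F} {θ : F} {d : ℕ} {I : ℤ → AddSubgroup F} {N : ℕ} {h : F} {c : kerAlg D}

omit [CharZero k] [IsAlgClosed k] in
theorem coe_aeval' (u : kerAlg D) (q : k[X]) :
    ((aeval u q : kerAlg D) : B3 k) = aeval (u : B3 k) q :=
  (Polynomial.aeval_algHom_apply (kerAlg D).val u q).symm

/-- `u - l` is prime for a vertical prime `u` -/
theorem prime_sub_C (H : IData D c N δ θ d I h) {f g : B3 k}
    (hker : ∀ b, D b = 0 ↔ b ∈ Algebra.adjoin k {f, g})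
    {u : kerAlg D} (hu : Prime (u : B3 k)) (hδu : δ (algebraMap (kerAlg D) F u) = 0) (l : k) :
    Prime ((u : B3 k) - MvPolynomial.C l) := by
  rw [← irreducible_iff_prime]
  have h0 := sub_C_ne_zero' hu l
  have hDu : D ((u : B3 k) - MvPolynomial.C l) = 0 := by
    rw [map_sub, (mem_kerAlg D _).1 u.2]
    have : D (MvPolynomial.C l) = 0 := D.map_algebraMap l
    rw [this, sub_zero]
  refine ⟨?_, ?_⟩
  · intro hun
    have h1 := sub_C_ne hu l
    rw [MvPolynomial.isUnit_iff_totalDegree_of_isReduced] at hun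
    omega
  · intro a b hab
    have ha0 : a ≠ 0 := by
      rintro rfl
      rw [zero_mul] at hab
      exact h0 hab
    have hb0 : b ≠ 0 := by
      rintro rfl
      rw [mul_zero] at hab
      exact h0 hab
    have hDa : D a = 0 := const_of_dvd D H.lnd hDu h0 ⟨b, hab⟩
    have hDb : D b = 0 := const_of_dvd D H.lnd hDu h0 ⟨a, by rw [hab, mul_comm]⟩
    set a' : kerAlg D := ⟨a, (mem_kerAlg D a).2 hDa⟩ with ha'
    set b' : kerAlg D := ⟨b, (mem_kerAlg D b).2 hDb⟩ with hb'
    have hab' : a' * b' = u - algebraMap k (kerAlg D) l := Subtype.ext hab.symm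
    have h1 := fc_ker H (x := a') (y := b') (fun h => ha0 (congrArg Subtype.val h))
      (fun h => hb0 (congrArg Subtype.val h)) (by
        rw [hab', map_sub, map_sub, hδu, H.base, sub_zero])
    obtain ⟨P, hP⟩ := vert_poly H hker hu hδu _ a' le_rfl h1.1
    obtain ⟨Q, hQ⟩ := vert_poly H hker hu hδu _ b' le_rfl h1.2
    have h2 : P * Q = X - C l := by
      apply aeval_inj' hu
      have h3 := congrArg Subtype.val hab'
      have h4 : (a : B3 k) = aeval (u : B3 k) P := by
        rw [← coe_aeval', hP]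
      have h5 : (b : B3 k) = aeval (u : B3 k) Q := by
        rw [← coe_aeval', hQ]
      rw [map_mul, ← h4, ← h5, map_sub, aeval_X, aeval_C, ← hab]
      rfl
    have h6 : P ≠ 0 := by
      rintro rfl
      rw [zero_mul] at h2
      exact X_sub_C_ne_zero l h2.symm
    have h7 : Q ≠ 0 := by
      rintro rfl
      rw [mul_zero] at h2
      exact X_sub_C_ne_zero l h2.symm
    have h8 : P.natDegree + Q.natDegree = 1 := by
      rw [← natDegree_mul h6 h7, h2, natDegree_X_sub_C]
    rcases Nat.eq_zero_or_pos P.natDegree with h9 | h9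
    · left
      have h10 : a = algebraMap k (B3 k) (P.coeff 0) := by
        have h4 : (a : B3 k) = aeval (u : B3 k) P := by
          rw [← coe_aeval', hP]
        rw [h4]
        conv_lhs => rw [eq_C_of_natDegree_eq_zero h9]
        rw [aeval_C]
      rw [h10]
      refine (isUnit_iff_ne_zero.2 ?_).map (algebraMap k (B3 k))
      intro h11
      rw [h11, map_zero] at h10
      exact ha0 h10
    · right
      have h9' : Q.natDegree = 0 := by omega
      have h10 : b = algebraMap k (B3 k) (Q.coeff 0) := by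
        have h4 : (b : B3 k) = aeval (u : B3 k) Q := by
          rw [← coe_aeval', hQ]
        rw [h4]
        conv_lhs => rw [eq_C_of_natDegree_eq_zero h9']
        rw [aeval_C]
      rw [h10]
      refine (isUnit_iff_ne_zero.2 ?_).map (algebraMap k (B3 k))
      intro h11
      rw [h11, map_zero] at h10
      exact hb0 h10

omit [CharZero k] [IsAlgClosed k] [CharZero F] [IsFractionRing (kerAlg D) F] in
theorem delta_aeval (H : IData D c N δ θ d I h) {u : kerAlg D}
    (hδu : δ (algebraMap (kerAlg D) F u) = 0) (q : k[X]) :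
    δ (algebraMap (kerAlg D) F (aeval u q)) = 0 := by
  induction q using Polynomial.induction_on' with
  | add p q hp hq => rw [map_add, map_add, map_add, hp, hq, add_zero]
  | monomial n a =>
    rw [aeval_monomial, map_mul, Derivation.leibniz, H.base, map_pow, Derivation.leibniz_pow,
      hδu, smul_zero, smul_zero, smul_zero, smul_zero, add_zero]

/-- the first three parts of `fd_simple` -/
theorem fd_core (H : IData D c N δ θ d I h) {f g : B3 k}
    (hker : ∀ b, D b = 0 ↔ b ∈ Algebra.adjoin k {f, g}) {m : Ideal (kerAlg D)} (hm : m ≠ ⊤)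
    {u v : kerAlg D} (hu : Prime (u : B3 k)) (hδu : δ (algebraMap (kerAlg D) F u) = 0)
    (hv : Prime (v : B3 k)) (hs : Special D (c : B3 k) (v : B3 k))
    (hδv : δ (algebraMap (kerAlg D) F v) ≠ 0) (hum : u ∈ m) (hvm : v ∈ m)
    (huv : ¬ Associated (u : B3 k) (v : B3 k)) :
    (∀ l : k, Prime ((u : B3 k) - MvPolynomial.C l)) ∧
    (∀ l : k, ¬ (u : B3 k) ∣ (v : B3 k) - MvPolynomial.C l) ∧
    (∀ a, D a = 0 → ∃ s : k[X], s ≠ 0 ∧
      aeval (u : B3 k) s * a ∈ Algebra.adjoin k {(u : B3 k), (v : B3 k)}) := by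
  refine ⟨prime_sub_C H hker hu hδu, ?_, ?_⟩
  · intro l hd
    have h1 : u ∣ v - algebraMap k (kerAlg D) l := (dvd_ker H.lnd).1 hd
    have h2 : algebraMap k (kerAlg D) l ∈ m := by
      obtain ⟨z, hz⟩ := h1
      have h3 : algebraMap k (kerAlg D) l = v - u * z := by
        rw [← hz]
        ring
      rw [h3]
      exact m.sub_mem hvm (m.mul_mem_right z hum)
    by_cases hl : l = 0
    · rw [hl, map_zero, sub_zero] at hd
      exact huv ((hu.dvd_prime_iff_associated hv).1 hd)
    · apply hm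
      exact Ideal.eq_top_of_isUnit_mem m h2 ((isUnit_iff_ne_zero.2 hl).map _)
  · intro a ha
    set a' : kerAlg D := ⟨a, (mem_kerAlg D a).2 ha⟩ with ha'
    obtain ⟨c1, P, hc1, hδc1, hP, e⟩ := horizontal_gen H hv hs hδv a'
    obtain ⟨s, hs⟩ := vert_poly H hker hu hδu _ c1 le_rfl hδc1
    have hPi : ∀ i, ∃ p : k[X], aeval u p = P.coeff i := fun i =>
      vert_poly H hker hu hδu _ _ le_rfl (hP i)
    choose p hp using hPi
    refine ⟨s, ?_, ?_⟩
    · rintro rfl
      rw [map_zero] at hs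
      exact hc1 hs.symm
    · have h1 : aeval (u : B3 k) s * a =
          ∑ i ∈ Finset.range (P.natDegree + 1), aeval (u : B3 k) (p i) * (v : B3 k) ^ i := by
        have h2 : aeval u s * a' =
            ∑ i ∈ Finset.range (P.natDegree + 1), aeval u (p i) * v ^ i := by
          rw [hs, e, eval_eq_sum_range]
          exact Finset.sum_congr rfl fun i _ => by rw [hp]
        have h3 := congrArg (kerAlg D).val h2
        rw [map_mul, map_sum] at h3
        simp only [map_mul, map_pow, Subalgebra.coe_val, coe_aeval'] at h3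
        exact h3
      rw [h1]
      have hu' : (u : B3 k) ∈ Algebra.adjoin k {(u : B3 k), (v : B3 k)} :=
        Algebra.subset_adjoin (by simp)
      have hv' : (v : B3 k) ∈ Algebra.adjoin k {(u : B3 k), (v : B3 k)} :=
        Algebra.subset_adjoin (by simp)
      refine Subalgebra.sum_mem _ fun i _ => Subalgebra.mul_mem _ ?_ (Subalgebra.pow_mem _ hv' i)
      have h4 : aeval (⟨(u : B3 k), hu'⟩ : Algebra.adjoin k {(u : B3 k), (v : B3 k)}) (p i) =
          (aeval (u : B3 k) (p i) : B3 k) :=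
        (Polynomial.aeval_algHom_apply (Algebra.adjoin k {(u : B3 k), (v : B3 k)}).val
          (⟨(u : B3 k), hu'⟩ : Algebra.adjoin k {(u : B3 k), (v : B3 k)}) (p i)).symm
      rw [← h4]
      exact Subtype.property _

omit [IsAlgClosed k] in
/-- `v` is simple -/
theorem fd_sq (H : IData D c N δ θ d I h) {v : kerAlg D}
    (hδv : δ (algebraMap (kerAlg D) F v) ≠ 0) (hc0 : c ≠ 0) {c' : kerAlg D} (hc : c = v * c')
    (hδc : δ (algebraMap (kerAlg D) F c') = 0) : ¬ (v : B3 k) ^ 2 ∣ (c : B3 k) := by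
  have hv0 : v ≠ 0 := by
    rintro rfl
    rw [zero_mul] at hc
    exact hc0 hc
  have hc'0 : c' ≠ 0 := by
    rintro rfl
    rw [mul_zero] at hc
    exact hc0 hc
  rintro ⟨z, hz⟩
  have h1 : (v : B3 k) ∣ (c' : B3 k) := by
    refine ⟨z, ?_⟩
    have h2 : (c : B3 k) = (v : B3 k) * (c' : B3 k) := congrArg Subtype.val hc
    have h3 : (v : B3 k) ≠ 0 := fun h => hv0 (Subtype.ext h)
    apply mul_left_cancel₀ h3
    rw [← h2, hz]
    ring
  obtain ⟨z', hz'⟩ := (dvd_ker H.lnd).1 h1
  have hz'0 : z' ≠ 0 := by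
    rintro rfl
    rw [mul_zero] at hz'
    exact hc'0 hz'
  exact hδv (fc_ker H hv0 hz'0 (by rw [← hz', hδc])).1

/-- `c = Q(u) u^e v`, if `c = v c'` with `δ c' = 0` -/
theorem fd_form (H : IData D c N δ θ d I h) {f g : B3 k}
    (hker : ∀ b, D b = 0 ↔ b ∈ Algebra.adjoin k {f, g})
    {u v : kerAlg D} (hu : Prime (u : B3 k)) (hδu : δ (algebraMap (kerAlg D) F u) = 0)
    (hc0 : c ≠ 0) {c' : kerAlg D} (hc : c = v * c')
    (hδc : δ (algebraMap (kerAlg D) F c') = 0) :
    ∃ (Q : k[X]) (e : ℕ), Q.eval 0 ≠ 0 ∧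
      (c : B3 k) = aeval (u : B3 k) Q * (u : B3 k) ^ e * (v : B3 k) := by
  have hc'0 : c' ≠ 0 := by
    rintro rfl
    rw [mul_zero] at hc
    exact hc0 hc
  obtain ⟨P, hP⟩ := vert_poly H hker hu hδu _ c' le_rfl hδc
  have hP0 : P ≠ 0 := by
    rintro rfl
    rw [map_zero] at hP
    exact hc'0 hP.symm
  obtain ⟨e, Q, hQ, hPQ⟩ := WfDvdMonoid.max_power_factor' hP0
    (Polynomial.prime_X (R := k)).not_isUnit
  refine ⟨Q, e, ?_, ?_⟩
  · intro h0
    apply hQ
    rw [X_dvd_iff, coeff_zero_eq_eval_zero, h0]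
  · have h2 : (c : B3 k) = (v : B3 k) * (c' : B3 k) := congrArg Subtype.val hc
    rw [h2, ← hP, coe_aeval', hPQ, map_mul, map_pow, aeval_X]
    ring

/-- what is used of the structure theorem: graded data in which the horizontal special primes are
simple and the rest of `c` is vertical -/
def SimpleH (D : Derivation k (B3 k) (B3 k)) (c : kerAlg D) (F : Type) [Field F]
    [Algebra (kerAlg D) F] [IsFractionRing (kerAlg D) F] : Prop :=
  ∃ (N : ℕ) (δ : Derivation ℤ F F) (θ : F) (d : ℕ) (I : ℤ → AddSubgroup F) (h : F),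
    IData D c N δ θ d I h ∧ ∀ v : kerAlg D, Prime (v : B3 k) →
      Special D (c : B3 k) (v : B3 k) → δ (algebraMap (kerAlg D) F v) ≠ 0 →
      ∃ c' : kerAlg D, c = v * c' ∧ δ (algebraMap (kerAlg D) F c') = 0

/-- `fd_simple` from the simplicity of the horizontal special primes -/
theorem fd_simple_of {f g : B3 k} (hker : ∀ b, D b = 0 ↔ b ∈ Algebra.adjoin k {f, g})
    (hc0 : c ≠ 0) (HS : SimpleH D c F) {m : Ideal (kerAlg D)} (hm : m.IsMaximal)
    {p q : kerAlg D} (hp : Prime (p : B3 k))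
    (hq : Prime (q : B3 k)) (hpq : ¬ Associated (p : B3 k) (q : B3 k)) (hpm : p ∈ m) (hqm : q ∈ m)
    (sp : Special D (c : B3 k) (p : B3 k)) (sq : Special D (c : B3 k) (q : B3 k))
    (hsq : (p : B3 k) ^ 2 ∣ (c : B3 k)) :
    (∀ l : k, Prime ((p : B3 k) - MvPolynomial.C l)) ∧
    (∀ c : k, ¬ (p : B3 k) ∣ (q : B3 k) - MvPolynomial.C c) ∧
    (∀ a, D a = 0 → ∃ s : k[X], s ≠ 0 ∧
      aeval (p : B3 k) s * a ∈ Algebra.adjoin k {(p : B3 k), (q : B3 k)}) ∧
    ¬ (q : B3 k) ^ 2 ∣ (c : B3 k) ∧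
    ∃ (Q : k[X]) (e : ℕ), Q.eval 0 ≠ 0 ∧
      (c : B3 k) = aeval (p : B3 k) Q * (p : B3 k) ^ e * q := by
  obtain ⟨N, δ, θ, d, I, h, H, hS⟩ := HS
  have hδp : δ (algebraMap (kerAlg D) F p) = 0 := by
    by_contra hne
    obtain ⟨c', h1, h2⟩ := hS p hp sp hne
    exact fd_sq H hne hc0 h1 h2 hsq
  have hδq : δ (algebraMap (kerAlg D) F q) ≠ 0 := by
    intro hδq
    obtain ⟨a, b, hab⟩ := vertical_coprime H hker hp hδp hδq
      (fun hd => hpq ((hp.dvd_prime_iff_associated hq).1 hd))
    exact hm.ne_top ((Ideal.eq_top_iff_one m).2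
      (hab ▸ m.add_mem (m.mul_mem_left a hpm) (m.mul_mem_left b hqm)))
  obtain ⟨c', h1, h2⟩ := hS q hq sq hδq
  obtain ⟨h3, h4, h5⟩ := fd_core H hker hm.ne_top hp hδp hq sq hδq hpm hqm hpq
  exact ⟨h3, h4, h5, fd_sq H hδq hc0 h1 h2, fd_form H hker hp hδp hc0 h1 h2⟩

end main

end Pool.Agent.LNDQ
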