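import Mathlib
import Pool.Agent.LNDQ.LocDeg

set_option autoImplicit false

/-!
# The element `G` (group FI of MP_821812): the abstract part
-/

open Polynomial

namespace Pool.Agent.LNDQ

namespace FiG

open Pool.Agent.LNDHom FiD

variable {k S : Type} [Field k] [CommRing S] [IsDomain S] [Algebra k S] {R : Subalgebra k S}
  {u : R} {f : R[X]} {v x y : S}

/-- an adapted element of degree `n`, times a unit of `R`, has leading coefficient `1 / u ^ M` -/
theorem unit_of_adp [CharZero k] (hfr : Fr R u) (hp : Pres f v x y)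
    (hkap : ∀ z : S, ∃ m : ℕ, (u : S) ^ m * z ∈ Cx R v x y) {E : Derivation k S S}
    (h : DD R v x E) (hker : ∀ z, E z = 0 → ∃ a : R[X], z = aeval v a)
    {n M : ℕ} (hM : IsEps R u f.natDegree v x y n M) {x₀ : S} (hx1 : (⇑E)^[n + 1] x₀ = 0)
    (hx2 : (⇑E)^[n] x₀ ≠ 0)
    (hx3 : ∀ z', (⇑E)^[n + 1] z' = 0 → (⇑E)^[n] x₀ ∣ (⇑E)^[n] z') :
    ∃ r r' : R, r * r' = 1 ∧ LT R u f.natDegree v x y n M 1 ((r' : S) * x₀) := by
  have hu0 : (u : S) ≠ 0 := hfr.prime.ne_zero
  have hur : algebraMap R S u = (u : S) := rfl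
  have huP : Prime (C u : R[X]) := Polynomial.prime_C_iff.2 (prime_R hfr)
  have hCu0 : (C u : R[X]) ≠ 0 := huP.ne_zero
  obtain ⟨m, b, hmb⟩ := exists_lt h hp hkap hx1
  obtain ⟨-, hb⟩ := lt_iter h hp hu0 hmb
  have hbs := iter_bs_ne h hp n
  -- all leading coefficients are multiples of the one of `x₀`
  have key : ∀ (z : S) (l : ℕ) (a : R[X]), LT R u f.natDegree v x y n l a z →
      ∃ c : R[X], C u ^ m * a = C u ^ l * c * b := by
    intro z l a hz
    obtain ⟨h1, h2⟩ := lt_iter h hp hu0 hz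
    obtain ⟨t, ht⟩ := hx3 z h1
    have h3 : E t = 0 := by
      have h4 : E ((⇑E)^[n] z) = 0 := by
        rw [← Function.iterate_succ_apply' (⇑E) n z]
        exact h1
      have h5 : E ((⇑E)^[n] x₀) = 0 := by
        rw [← Function.iterate_succ_apply' (⇑E) n x₀]
        exact hx1
      rw [ht, Derivation.leibniz, h5, smul_zero, add_zero, smul_eq_mul] at h4
      exact (mul_eq_zero.1 h4).resolve_left hx2
    obtain ⟨c, rfl⟩ := hker t h3
    refine ⟨c, ?_⟩
    have h4 : aeval v (C u ^ m * a - C u ^ l * c * b) = 0 := by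
      apply (mul_eq_zero.1 (?_ : aeval v (C u ^ m * a - C u ^ l * c * b) *
        (⇑E)^[n] (bs f.natDegree x y n) = 0)).resolve_right hbs
      rw [map_sub, map_mul, map_mul, map_mul, map_pow, map_pow, aeval_C, hur]
      linear_combination -(u : S) ^ m * h2 + (u : S) ^ l * aeval v c * hb +
        (u : S) ^ m * (u : S) ^ l * ht
    exact sub_eq_zero.1 (aeval_inj hp h4)
  obtain ⟨z₁, a₁, ha₁, hz₁⟩ := hM.ex
  -- the coefficient of `x₀`
  obtain ⟨b', hb'⟩ := hM.max x₀ m b hmb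
  obtain ⟨c₁, hc₁⟩ := key z₁ M a₁ hz₁
  have e1 : a₁ = c₁ * b' := by
    apply mul_left_cancel₀ (pow_ne_zero m hCu0)
    linear_combination hc₁ + c₁ * hb'
  have hb'u : ¬ C u ∣ b' := fun h1 => ha₁ (by rw [e1]; exact Dvd.dvd.mul_left h1 _)
  -- the basis element itself
  have hbsLT : LT R u f.natDegree v x y n 0 1 (bs f.natDegree x y n) := by
    refine ⟨0, ?_⟩
    have h1 : (u : S) ^ (0 + 0) * bs f.natDegree x y n -
        (u : S) ^ 0 * ((aeval v) (1 : R[X]) * bs f.natDegree x y n) = 0 := by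
      rw [map_one]
      ring
    rw [h1]
    exact Submodule.zero_mem _
  obtain ⟨c₂, hc₂⟩ := key _ 0 1 hbsLT
  have e2 : C u ^ M = b' * c₂ := by
    apply mul_left_cancel₀ (pow_ne_zero m hCu0)
    linear_combination C u ^ M * hc₂ + c₂ * hb'
  have hunit : IsUnit b' := by
    have h1 : C u ^ M ∣ c₂ := huP.pow_dvd_of_dvd_mul_left M hb'u (by rw [← e2])
    obtain ⟨d, hd⟩ := h1
    have h2 : b' * d = 1 := by
      apply mul_left_cancel₀ (pow_ne_zero M hCu0)
      rw [mul_one]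
      conv_rhs => rw [e2, hd]
      ring
    exact IsUnit.of_mul_eq_one _ h2
  obtain ⟨r, hr, hrb⟩ := Polynomial.isUnit_iff.1 hunit
  obtain ⟨r', hr'⟩ := hr.exists_right_inv
  refine ⟨r, r', hr', ?_⟩
  rw [lt_iff h hp hu0 hkap]
  constructor
  · rw [iter_r h, hx1, mul_zero]
  · rw [iter_r h, map_one, one_mul]
    apply mul_left_cancel₀ (pow_ne_zero m hu0)
    have h5 := congrArg (aeval v) hb'
    rw [← hrb, map_mul, map_mul, map_pow, map_pow, aeval_C, aeval_C, hur] at h5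
    have h6 : algebraMap R S r = (r : S) := rfl
    have h7 : (r : S) * (r' : S) = 1 := by rw [← Subalgebra.coe_mul, hr']; rfl
    rw [h6] at h5
    linear_combination (u : S) ^ M * (r' : S) * hb +
      (r' : S) * (⇑E)^[n] (bs f.natDegree x y n) * h5 +
      (u : S) ^ m * (⇑E)^[n] (bs f.natDegree x y n) * h7

/-- `E` is locally nilpotent -/
theorem E_nil [CharZero k] (hu0 : (u : S) ≠ 0) (hp : Pres f v x y)
    (hkap : ∀ z : S, ∃ m : ℕ, (u : S) ^ m * z ∈ Cx R v x y) {E : Derivation k S S}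
    (h : DD R v x E) (z : S) : ∃ n, (⇑E)^[n] z = 0 := by
  obtain ⟨m, hm⟩ := hkap z
  obtain ⟨n, hn⟩ := low_of_cx hp hm
  have h1 := iter_low h hp hn
  have h2 : (u : S) ^ m = ((u ^ m : R) : S) := by simp
  rw [h2, iter_r h, ← h2] at h1
  exact ⟨n, (mul_eq_zero.1 h1).resolve_left (pow_ne_zero _ hu0)⟩

/-- the degree of the element by which one can divide is a multiple of `β` -/
theorem dvd_of_div [CharZero k] (hu0 : (u : S) ≠ 0) (hp : Pres f v x y)
    (hkap : ∀ z : S, ∃ m : ℕ, (u : S) ^ m * z ∈ Cx R v x y) {E : Derivation k S S}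
    (h : DD R v x E) {N W : ℕ} {G : S} (hG1 : (⇑E)^[N + 1] G = 0)
    (hG2 : (u : S) ^ W * (⇑E)^[N] G = (⇑E)^[N] (bs f.natDegree x y N))
    (hdiv : ∀ z, ∃ s t, z = s * G + t ∧ (⇑E)^[N] t = 0) : f.natDegree ∣ N := by
  classical
  have hchar : CharZero S := charZero_of_injective_algebraMap (algebraMap k S).injective
  set β := f.natDegree with hβ
  have hβ2 : 2 ≤ β := hp.deg
  by_contra hnd
  have hr0 : 0 < N % β := Nat.pos_of_ne_zero fun h0 => hnd (Nat.dvd_of_mod_eq_zero h0)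
  have hrβ : N % β < β := Nat.mod_lt _ (by omega)
  have hNq : β * (N / β) + N % β = N := Nat.div_add_mod N β
  set q := N / β with hq
  set r := N % β with hr
  -- the element `y ^ (q + 1)` of degree `n = β (q + 1)`
  have hn1 : β * (q + 1) = N + (β - r) := by rw [mul_add, mul_one]; omega
  have hnmod : β * (q + 1) % β = 0 := Nat.mul_mod_right _ _
  have hndiv : β * (q + 1) / β = q + 1 := Nat.mul_div_cancel_left _ (by omega)
  have hz1 := (iter_bs h hp (β * (q + 1))).1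
  have hz2 := (iter_bs h hp (β * (q + 1))).2
  rw [← hβ, hndiv] at hz1
  have hzne : (⇑E)^[β * (q + 1)] (bs β x y (β * (q + 1))) ≠ 0 := iter_bs_ne h hp _
  obtain ⟨s, t, hst, ht⟩ := hdiv (bs β x y (β * (q + 1)))
  -- the degree of `s`
  have hs0 : s ≠ 0 := by
    rintro rfl
    rw [zero_mul, zero_add] at hst
    apply hzne
    rw [hst]
    exact iter_zero_of_le E ht (by omega)
  obtain ⟨d, hd1, hd2⟩ : ∃ d, (⇑E)^[d] s ≠ 0 ∧ (⇑E)^[d + 1] s = 0 := by
    obtain ⟨n, hn⟩ := E_nil hu0 hp hkap h s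
    have hex : ∃ n, (⇑E)^[n] s = 0 := ⟨n, hn⟩
    have h1 := Nat.find_spec hex
    have h2 : Nat.find hex ≠ 0 := by
      intro h0
      rw [h0] at h1
      exact hs0 h1
    obtain ⟨d, hd⟩ := Nat.exists_eq_succ_of_ne_zero h2
    refine ⟨d, fun h3 => ?_, by rw [hd] at h1; exact h1⟩
    exact Nat.find_min hex (by omega) h3
  have hGne : (⇑E)^[N] G ≠ 0 := by
    intro h0
    rw [h0, mul_zero] at hG2
    exact iter_bs_ne h hp N hG2.symm
  obtain ⟨htop, htop'⟩ := iter_mul_top E (d + N) d N s G rfl hd2 hG1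
  have hzE : ∀ m, N ≤ m → (⇑E)^[m] (bs β x y (β * (q + 1))) = (⇑E)^[m] (s * G) := by
    intro m hm
    rw [hst, iter_add, iter_zero_of_le E ht hm, add_zero]
  have hch0 : (((d + N).choose d : ℕ) : S) ≠ 0 := by
    exact_mod_cast (Nat.choose_pos (by omega)).ne'
  have hdN : d + N = β * (q + 1) := by
    apply le_antisymm
    · by_contra hlt
      rw [not_le] at hlt
      have h1 := iter_zero_of_le E hz2 hlt
      rw [← hβ] at h1
      rw [hzE _ (by omega), htop] at h1
      exact mul_ne_zero hch0 (mul_ne_zero hd1 hGne) h1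
    · by_contra hlt
      rw [not_le] at hlt
      apply hzne
      rw [hzE _ (by omega)]
      exact iter_zero_of_le E htop' hlt
  have hdβ : d = β - r := by omega
  -- the leading coefficient of `s`
  obtain ⟨m, a, hma⟩ := exists_lt h hp hkap (n := d) (z := s) hd2
  obtain ⟨-, hs3⟩ := lt_iter h hp hu0 hma
  have hd3 := (iter_bs h hp d).1
  have hN3 := (iter_bs h hp N).1
  have hdiv0 : d / β = 0 := Nat.div_eq_of_lt (by omega)
  rw [← hβ] at hs3 hd3 hN3
  rw [hdiv0, pow_zero, one_mul] at hd3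
  rw [hd3] at hs3
  rw [← hq, ← hG2] at hN3
  rw [hzE _ (by omega), ← hdN, htop] at hz1
  have hfac : (((d + N).choose d : ℕ) : S) * ((d.factorial : S) * (N.factorial : S)) =
      ((d + N).factorial : S) := by
    have h1 : (d + N).choose d * d.factorial * N.factorial = (d + N).factorial := by
      have h0 := Nat.choose_mul_factorial_mul_factorial (n := d + N) (k := d) (by omega)
      rwa [Nat.add_sub_cancel_left] at h0
    rw [← h1]
    push_cast
    ring
  have hfin : ((d + N).factorial : S) * (E x) ^ (d + N) * ((u : S) ^ (m + W) - v * aeval v a) = 0 := by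
    have e1 : ((d + N).factorial : S) * (E x) ^ (d + N) * (v * aeval v a) =
        v * (((d + N).choose d : ℕ) : S) * (aeval v a * ((d.factorial : S) * (E x) ^ d)) *
          ((N.factorial : S) * (E x) ^ N) := by
      rw [← hfac, pow_add]
      ring
    rw [mul_sub, e1, ← hz1, pow_add (u : S), pow_succ]
    linear_combination (v ^ q * v * (((d + N).choose d : ℕ) : S) * ((u : S) ^ W * (⇑E)^[N] G)) * hs3 +
      (v * (((d + N).choose d : ℕ) : S) * (aeval v a * ((d.factorial : S) * (E x) ^ d))) * hN3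
  have h1 : ((d + N).factorial : S) ≠ 0 := by exact_mod_cast Nat.factorial_ne_zero _
  have h2 := (mul_eq_zero.1 hfin).resolve_left (mul_ne_zero h1 (pow_ne_zero _ h.hx0))
  have h3 : aeval v (C u ^ (m + W) - X * a : R[X]) = 0 := by
    rw [map_sub, map_mul, map_pow, aeval_C, aeval_X]
    exact h2
  have h4 := aeval_inj hp h3
  have h5 := congrArg (fun p : R[X] => p.coeff 0) h4
  simp only [coeff_sub, ← map_pow, coeff_C_zero, coeff_X_mul_zero, sub_zero, coeff_zero] at h5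
  apply pow_ne_zero (m + W) hu0
  have h6 := congrArg (fun r : R => (r : S)) h5
  simpa using h6

/-- the element `G` -/
theorem gd_of [CharZero k] (hfr : Fr R u) (hp : Pres f v x y)
    (hkap : ∀ z : S, ∃ m : ℕ, (u : S) ^ m * z ∈ Cx R v x y) {E : Derivation k S S}
    (h : DD R v x E) (hker : ∀ z, E z = 0 → ∃ a : R[X], z = aeval v a) {e N W W0 : ℕ} (hN : 0 < N)
    (hW : IsEps R u f.natDegree v x y N W) (hW0 : IsEps R u f.natDegree v x y (N - 1) W0)
    (hWe : W = W0 + e) {x₀ : S} (hx1 : (⇑E)^[N + 1] x₀ = 0) (hx2 : (⇑E)^[N] x₀ ≠ 0)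
    (hx3 : ∀ z', (⇑E)^[N + 1] z' = 0 → (⇑E)^[N] x₀ ∣ (⇑E)^[N] z')
    (hdiv : ∀ z, ∃ s t, z = s * x₀ + t ∧ (⇑E)^[N] t = 0) :
    ∃ G, GD R u f.natDegree v x y N W W0 e G := by
  have hu0 : (u : S) ≠ 0 := hfr.prime.ne_zero
  obtain ⟨r, r', hr, hLT⟩ := unit_of_adp hfr hp hkap h hker hW hx1 hx2 hx3
  have hr' : (r : S) * (r' : S) = 1 := by rw [← Subalgebra.coe_mul, hr]; rfl
  have hdiv' : ∀ z, ∃ s t, z = s * ((r' : S) * x₀) + t ∧ (⇑E)^[N] t = 0 := by
    intro z
    obtain ⟨s, t, h1, h2⟩ := hdiv z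
    refine ⟨s * (r : S), t, ?_, h2⟩
    rw [h1]
    linear_combination (-(s * x₀)) * hr'
  obtain ⟨h1, h2⟩ := lt_iter h hp hu0 hLT
  rw [map_one, one_mul] at h2
  refine ⟨(r' : S) * x₀, hN, dvd_of_div hu0 hp hkap h h1 h2 hdiv', hLT, hW, hW0, hWe, ?_⟩
  intro z
  obtain ⟨s, t, h3, h4⟩ := hdiv' z
  exact ⟨s, t, h3, low_of_iter h hp hu0 hkap h4⟩

end FiG

end Pool.Agent.LNDQ
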