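import Mathlib
import Pool.Agent.LNDHom.Red
import Pool.Agent.LNDHom.Induct
import Pool.Agent.LNDF.ArDefs
import Pool.Agent.LNDF.Ar1

/-!
# Division by `G`, `D ^ N G = cc N`, in degree `A.N`
-/

set_option autoImplicit false

namespace Pool.Agent.LNDQ

open Pool.Agent.LNDHom Pool.Agent.LNDF

variable {k B : Type} [Field k] [CharZero k] [CommRing B] [IsDomain B] [Algebra k B]

theorem gd_pseudo (D : Derivation k B B) (hD : ∃ x, D x ≠ 0) (hln : ∀ x, ∃ n, (⇑D)^[n] x = 0)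
    {N : ℕ} {G : B} (hG : (⇑D)^[N] G ≠ 0) (hG1 : (⇑D)^[N + 1] G = 0) : ∀ (n : ℕ) (b : B),
    (⇑D)^[n] b = 0 → ∃ a, a ≠ 0 ∧ D a = 0 ∧ ∃ s t, a * b = s * G + t ∧ (⇑D)^[N] t = 0 := by
  have hcz : CharZero B := charZero_of_injective_algebraMap (algebraMap k B).injective
  intro n
  induction n with
  | zero =>
    intro b hb
    have hb0 : b = 0 := hb
    exact ⟨1, one_ne_zero, by simp, 0, 0, by rw [hb0]; ring, iterate_map_zero D N⟩
  | succ n ih =>
    intro b hb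
    by_cases hn : n + 1 ≤ N
    · exact ⟨1, one_ne_zero, by simp, 0, b, by ring, iter_zero_of_le D hb hn⟩
    · obtain ⟨y, hy0, hy1⟩ := exists_deg D hD hln (n - N)
      obtain ⟨h1, h2⟩ := iter_mul_top D n (n - N) N y G (by omega) hy1 hG1
      have hch : ((n.choose (n - N) : ℕ) : B) ≠ 0 := Nat.cast_ne_zero.mpr (Nat.choose_pos (by omega)).ne'
      have hK : (⇑D)^[n] (y * G) ≠ 0 := by
        rw [h1]
        exact mul_ne_zero hch (mul_ne_zero hy0 hG)
      have hDK : D ((⇑D)^[n] (y * G)) = 0 := by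
        rw [← Function.iterate_succ_apply' (⇑D) n]
        exact h2
      have hDl : D ((⇑D)^[n] b) = 0 := by
        rw [← Function.iterate_succ_apply' (⇑D) n]
        exact hb
      have hb' : (⇑D)^[n] ((⇑D)^[n] (y * G) * b - (⇑D)^[n] b * (y * G)) = 0 := by
        rw [iterate_map_sub D n, LNDHom.iter_const D hDK, LNDHom.iter_const D hDl]
        ring
      obtain ⟨a, ha0, hDa, s, t, hst, ht⟩ := ih _ hb'
      refine ⟨a * (⇑D)^[n] (y * G), mul_ne_zero ha0 hK, ?_, s + a * (⇑D)^[n] b * y, t, ?_, ht⟩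
      · rw [Derivation.leibniz, hDa, hDK, smul_zero, smul_zero, add_zero]
      · linear_combination hst

theorem gd_cancel [UniqueFactorizationMonoid B] {D : Derivation k B B}
    (hln : ∀ x, ∃ n, (⇑D)^[n] x = 0) (A : Arith D) {G : B} (hG : (⇑D)^[A.N] G = A.cc A.N) (a : B) :
    a ≠ 0 → D a = 0 → ∀ b s t : B, a * b = s * G + t → (⇑D)^[A.N] t = 0 →
      ∃ s' t', b = s' * G + t' ∧ (⇑D)^[A.N] t' = 0 := by
  classical
  induction a using UniqueFactorizationMonoid.induction_on_prime with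
  | h₁ => exact fun h => absurd rfl h
  | h₂ x hx =>
    intro _ hDx b s t hst ht
    obtain ⟨w, hw⟩ := hx.exists_left_inv
    have hDw : D w = 0 := const_of_dvd D hln (a := 1) (by simp) one_ne_zero ⟨x, hw.symm⟩
    refine ⟨w * s, w * t, ?_, by rw [LNDHom.iter_const D hDw, ht, mul_zero]⟩
    linear_combination (-b) * hw + w * hst
  | h₃ a p ha0 hp ih =>
    intro _ hDpa b s t hst ht
    have hpa : p * a ≠ 0 := mul_ne_zero hp.ne_zero ha0
    have hDp : D p = 0 := const_of_dvd D hln hDpa hpa ⟨a, rfl⟩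
    have hDa : D a = 0 := const_of_dvd D hln hDpa hpa ⟨p, mul_comm _ _⟩
    obtain ⟨⟨s1, rfl⟩, ⟨t1, rfl⟩⟩ := A.sat G 1 (by simp) (by rw [hG, mul_one]) p hp hDp
      (fun h => hp.not_isUnit (isUnit_of_dvd_one h)) s t ht ⟨a * b, by rw [← hst]; ring⟩
    have ht1 : (⇑D)^[A.N] t1 = 0 := by
      rw [LNDHom.iter_const D hDp] at ht
      exact (mul_eq_zero.mp ht).resolve_left hp.ne_zero
    refine ih ha0 hDa b s1 t1 ?_ ht1
    apply mul_left_cancel₀ hp.ne_zero
    linear_combination hst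

/-- division by `G` -/
theorem gd_div [UniqueFactorizationMonoid B] {D : Derivation k B B} (hD : ∃ x, D x ≠ 0)
    (hln : ∀ x, ∃ n, (⇑D)^[n] x = 0) (A : Arith D) {G : B} (hG : (⇑D)^[A.N] G = A.cc A.N) (b : B) :
    ∃ s t, b = s * G + t ∧ (⇑D)^[A.N] t = 0 := by
  have hcc := A.isCC A.N
  have hG0 : (⇑D)^[A.N] G ≠ 0 := by rw [hG]; exact hcc.ne
  have hG1 : (⇑D)^[A.N + 1] G = 0 := by
    rw [Function.iterate_succ_apply', hG]
    exact hcc.const
  obtain ⟨n, hn⟩ := hln b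
  obtain ⟨a, ha0, hDa, s, t, hst, ht⟩ := gd_pseudo D hD hln hG0 hG1 n b hn
  exact gd_cancel hln A hG a ha0 hDa b s t hst ht

end Pool.Agent.LNDQ
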