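import Mathlib
import Pool.Agent.LNDQ.FiRes
import Pool.Agent.LNDQ.FinInd

/-!
# LNDQ/FinLoc: Q1 from the local statement at the crossings (the literal `cross_case` of Iface)
-/

set_option autoImplicit false

open Polynomial

namespace Pool.Agent.LNDQ

open Pool.Agent.LNDHom Pool.Agent.LNDF Pool.Agent.LNDT

/-- `cross_case` of Iface: the local statement at a crossing of special primes `p`, `q` in `m` with `p ^ 2 ∣ cc 1` -/
def CrossLoc (k : Type) [Field k] : Prop :=
  ∀ (D : Derivation k (B3 k) (B3 k)), (∃ x, D x ≠ 0) → (∀ x, ∃ n, (⇑D)^[n] x = 0) →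
  ∀ f g : B3 k, AlgebraicIndependent k ![f, g] → (∀ b, D b = 0 ↔ b ∈ Algebra.adjoin k {f, g}) →
  (∀ p : B3 k, Prime p → D p = 0 → ∃ x, ¬ p ∣ D x) → ∀ (A : Arith D) (r : B3 k), D r = A.cc 1 →
  ∀ (n : ℕ) (m : Ideal (kerAlg D)), m.IsMaximal → ∀ p q : kerAlg D, Prime (p : B3 k) → Prime (q : B3 k) →
    p ∈ m → q ∈ m → ¬ Associated (p : B3 k) (q : B3 k) → 1 < npB D (p : B3 k) →
    1 < npB D (q : B3 k) → (p : B3 k) ^ 2 ∣ A.cc 1 →
    ∃ (a : kerAlg D) (x : B3 k), a ∉ m ∧ (⇑D)^[n + 1] x = 0 ∧ (⇑D)^[n] x = a * A.cc n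

/-- the main step from the local statement at the crossings (copy of `main_step2`) -/
theorem main_step3 {k : Type} [Field k] [CharZero k] (hX : CrossLoc k)
    {D : Derivation k (B3 k) (B3 k)} {f g : B3 k} (H : KD D f g)
    {N0 : ℕ} {G0 : B3 k} (hP : Pkg D N0 G0) (A : Arith D)
    {G : B3 k} (hG : (⇑D)^[A.N] G = A.cc A.N) {r : B3 k}
    (hr : D r = A.cc 1) (n : ℕ) :
    ∃ x, (⇑D)^[n] x = A.cc n := by
  have hD := H.nz
  have hln := H.ln
  have hind := H.ind
  have hker := H.ker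
  have hirr := H.irr
  -- the local statement
  have hloc : ∀ m : Ideal (kerAlg D), m.IsMaximal →
      ∃ (a : kerAlg D) (x : MvPolynomial (Fin 3) k), a ∉ m ∧ (⇑D)^[n + 1] x = 0 ∧
        (⇑D)^[n] x = a * A.cc n := by
    intro m hm
    by_cases hc : ∀ p q : kerAlg D, Prime (p : MvPolynomial (Fin 3) k) →
        Prime (q : MvPolynomial (Fin 3) k) → p ∈ m → q ∈ m →
        ¬ Associated (p : MvPolynomial (Fin 3) k) (q : MvPolynomial (Fin 3) k) →
        ∀ a b : ℕ, a ∣ npB D (p : MvPolynomial (Fin 3) k) →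
          b ∣ npB D (q : MvPolynomial (Fin 3) k) → a ≤ n → b ≤ n → a ∣ b ∨ b ∣ a
    · exact chain_at hln hirr A hG hr n m hm hc
    push Not at hc
    obtain ⟨p, q, hp, hq, hpm, hqm, hna, a, b, ha, hb, han, hbn, hab, hba⟩ := hc
    have hDp : D (p : MvPolynomial (Fin 3) k) = 0 := p.2
    have hDq : D (q : MvPolynomial (Fin 3) k) = 0 := q.2
    have hp0 : 0 < npB D (p : MvPolynomial (Fin 3) k) :=
      Nat.pos_of_dvd_of_pos (A.npN _ hp hDp) A.N_pos
    have hq0 : 0 < npB D (q : MvPolynomial (Fin 3) k) :=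
      Nat.pos_of_dvd_of_pos (A.npN _ hq hDq) A.N_pos
    have hp1 : 1 < npB D (p : MvPolynomial (Fin 3) k) := by
      rcases Nat.lt_or_ge 1 (npB D (p : MvPolynomial (Fin 3) k)) with h | h
      · exact h
      · exfalso
        have h1 : npB D (p : MvPolynomial (Fin 3) k) = 1 := by omega
        rw [h1] at ha
        exact hab ((Nat.dvd_one.1 ha) ▸ one_dvd _)
    have hq1 : 1 < npB D (q : MvPolynomial (Fin 3) k) := by
      rcases Nat.lt_or_ge 1 (npB D (q : MvPolynomial (Fin 3) k)) with h | h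
      · exact h
      · exfalso
        have h1 : npB D (q : MvPolynomial (Fin 3) k) = 1 := by omega
        rw [h1] at hb
        exact hba ((Nat.dvd_one.1 hb) ▸ one_dvd _)
    have hcc := A.isCC 1
    by_cases hsp : (p : MvPolynomial (Fin 3) k) ^ 2 ∣ A.cc 1
    · exact hX D hD hln f g hind hker hirr A r hr n m hm p q hp hq hpm hqm hna hp1 hq1 hsp
    by_cases hsq' : (q : MvPolynomial (Fin 3) k) ^ 2 ∣ A.cc 1
    · exact hX D hD hln f g hind hker hirr A r hr n m hm q p hq hp hqm hpm (fun h => hna h.symm)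
        hq1 hp1 hsq'
    have hpc := dvd_of_np hln hp hDp (hirr _ hp hDp) hcc hp1
    have hqc := dvd_of_np hln hq hDq (hirr _ hq hDq) hcc hq1
    obtain ⟨hgen, hoth⟩ := st_main D hln hind hker hP (c := ⟨A.cc 1, hcc.const⟩) hr hcc m hm hp hq
      (special_of_np hln hp hDp (hirr _ hp hDp) hcc hp1)
      (special_of_np hln hq hDq (hirr _ hq hDq) hcc hq1) hna hpm hqm
    have hX' : Cross D A.cc m p q (npB D (p : MvPolynomial (Fin 3) k))
        (npB D (q : MvPolynomial (Fin 3) k)) :=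
      { hcc := A.isCC
        lnd := hln
        pp := hp
        pq := hq
        npq := hna
        pm := hpm
        qm := hqm
        pα := hp1
        pβ := hq1
        ep := fun l s => simple_e hln hp hDp (hirr _ hp hDp) hcc hpc hsp (A.isCC l) s
        eq := fun l s => simple_e hln hq hDq (hirr _ hq hDq) hcc hqc hsq' (A.isCC l) s
        other := fun p' hp' hpm' hpc' => by
          have hDp' : D (p' : MvPolynomial (Fin 3) k) = 0 := p'.2
          exact hoth p' hp' (special_of_np hln hp' hDp' (hirr _ hp' hDp') hcc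
            (np_of_dvd hln hp' hDp' (hirr _ hp' hDp') hcc hpc')) hpm'
        gen := hgen }
    exact cross_main hirr hm hX' hpc hsp hqc hsq' hr A.N_pos A.npN hG n
  have hconst : ∀ a x : MvPolynomial (Fin 3) k, D a = 0 → (⇑D)^[n] (a * x) = a * (⇑D)^[n] x :=
    fun a x ha => chG_iter_mul D ha x n
  have hadd : ∀ x y : MvPolynomial (Fin 3) k, (⇑D)^[n] (x + y) = (⇑D)^[n] x + (⇑D)^[n] y :=
    chG_iter_add D n
  -- the ideal
  let I : Ideal (kerAlg D) :=
    { carrier := {a | ∃ x, (⇑D)^[n] x = (a : MvPolynomial (Fin 3) k) * A.cc n}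
      add_mem' := by
        rintro a b ⟨x, hx⟩ ⟨y, hy⟩
        refine ⟨x + y, ?_⟩
        rw [hadd, hx, hy, Subalgebra.coe_add, add_mul]
      zero_mem' := ⟨0, by
        rw [Subalgebra.coe_zero, zero_mul]
        have := hconst 0 0 (map_zero _)
        rw [zero_mul, zero_mul] at this
        exact this⟩
      smul_mem' := by
        rintro c a ⟨x, hx⟩
        refine ⟨(c : MvPolynomial (Fin 3) k) * x, ?_⟩
        rw [hconst _ _ c.2, hx, smul_eq_mul, Subalgebra.coe_mul, mul_assoc] }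
  have hI : I = ⊤ := by
    by_contra hne
    obtain ⟨m, hm, hIm⟩ := Ideal.exists_le_maximal I hne
    obtain ⟨a, x, ham, -, hx⟩ := hloc m hm
    exact ham (hIm ⟨x, hx⟩)
  have h1 : (1 : kerAlg D) ∈ I := by rw [hI]; exact Submodule.mem_top
  obtain ⟨x, hx⟩ := h1
  exact ⟨x, by rw [hx, Subalgebra.coe_one, one_mul]⟩

theorem mainHyp_of_loc {k : Type} [Field k] [CharZero k] (hX : CrossLoc k) : MainHyp k :=
  fun _ _ _ H _ _ hP A _ _ hG hr n => main_step3 hX H hP A hG hr n

/-- `final` of Iface from `cross_case`: every image ideal is principal -/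
theorem final_of (hX : ∀ (k : Type) [Field k] [CharZero k] [IsAlgClosed k], CrossLoc k) (k : Type) [Field k]
    [CharZero k] (D : Derivation k (B3 k) (B3 k)) (hD : D ≠ 0) (hln : ∀ x, ∃ n, (⇑D)^[n] x = 0)
    (f g : B3 k) (hker : ∀ b, D b = 0 ↔ b ∈ Algebra.adjoin k {f, g}) (n : ℕ) : Princ D n := by
  have hD0 : ∃ x, D x ≠ 0 := by
    by_contra h
    push Not at h
    exact hD (Derivation.ext (fun x => by rw [h x]; rfl))
  exact princ_every (fun k _ _ _ => mainHyp_of_loc (hX k)) k D hD0 hln f g (ind_of_ker D hD0 hln f g hker) hker n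

/-- **Q1 from `cross_case`**: every image ideal is principal and there is a basis adapted to `D` -/
theorem final_basis_of (hX : ∀ (k : Type) [Field k] [CharZero k] [IsAlgClosed k], CrossLoc k) (k : Type) [Field k]
    [CharZero k] (D : Derivation k (B3 k) (B3 k)) (hD : D ≠ 0) (hln : ∀ x, ∃ n, (⇑D)^[n] x = 0)
    (f g : B3 k) (hker : ∀ b, D b = 0 ↔ b ∈ Algebra.adjoin k {f, g}) :
    (∃ Q : ℕ → B3 k, (∀ n, (⇑D)^[n] (Q n) ≠ 0 ∧ (⇑D)^[n + 1] (Q n) = 0) ∧
      ∀ b : B3 k, ∃! c : ℕ →₀ B3 k, (∀ n, D (c n) = 0) ∧ b = c.sum fun n a => a * Q n) ∧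
    ∀ n : ℕ, ∃ a : B3 k, D a = 0 ∧ ∀ v : B3 k,
      (∃ x : B3 k, (⇑D)^[n + 1] x = 0 ∧ (⇑D)^[n] x = v) ↔ (∃ c : B3 k, D c = 0 ∧ v = a * c) := by
  have hD0 : ∃ x, D x ≠ 0 := by
    by_contra h
    push Not at h
    exact hD (Derivation.ext (fun x => by rw [h x]; rfl))
  exact res_all2 (fun k _ _ _ => mainHyp_of_loc (hX k)) k D hD hln f g (ind_of_ker D hD0 hln f g hker) hker

end Pool.Agent.LNDQ
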