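import Mathlib
import Pool.Agent.LNDQ.BDefs

set_option autoImplicit false

open Polynomial

namespace Pool.Agent.LNDQ.Iface

open Pool.Agent.LNDF Pool.Agent.LNDHom

/-! GROUP NF (76): abstract ring theory of the environment. -/

section NF

variable {k S : Type} [Field k] [CommRing S] [IsDomain S] [Algebra k S] {R : Subalgebra k S} {u : R}
  {f : R[X]} {v x y : S}

/-- normal form: span -/
theorem mem_Cx (hP : Pres f v x y) (z : S) :
    z ∈ Cx R v x y ↔ ∃ n, z ∈ Low R f.natDegree v x y n := by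
  sorry

/-- normal form: independence -/
theorem low_lead (hP : Pres f v x y) (n : ℕ) (a : R[X])
    (h : aeval v a * bs f.natDegree x y n ∈ Low R f.natDegree v x y n) : a = 0 := by
  sorry

/-- the two residue rings, with the presentation of `C / u C` over `k` -/
theorem red_exists (hE : Env R u f v x y) :
    ∃ (R0 : Type) (_ : CommRing R0) (_ : IsDomain R0) (_ : Algebra k R0) (T : Type) (_ : CommRing T)
      (_ : IsDomain T) (_ : Algebra k T) (ρ : Cx R v x y →ₐ[k] R0) (σ : S →ₐ[k] T)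
      (π : R0 →ₐ[k] T) (f0 : k[X]), Red u (Cx R v x y) ρ σ π ∧
      (∀ i, (u : S) ∣ ((f.coeff i : R) : S) - algebraMap k S (f0.coeff i)) ∧
      f0.natDegree = f.natDegree ∧
      (∀ v' x' y' : Cx R v x y, (v' : S) = v → (x' : S) = x → (y' : S) = y →
        Pres f0 (ρ v') (ρ x') (ρ y') ∧ Algebra.adjoin k {ρ v', ρ x', ρ y'} = ⊤) := by
  sorry

/-- integrality -/
theorem intg (hE : Env R u f v x y) (n M : ℕ) (hM : IsEps R u f.natDegree v x y n M) (z : S)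
    (hz : Fl R u f.natDegree v x y (n + 1) z) :
    (u : S) ^ M * z ∈ Cx R v x y := by
  sorry

end NF

section CIC

variable {k R0 : Type} [Field k] [CommRing R0] [IsDomain R0] [Algebra k R0] {f : k[X]} {v x y : R0}

/-- complete integral closedness -/
theorem cic (hP : Pres f v x y) (hg : Algebra.adjoin k {v, x, y} = ⊤) (a b g : R0) (hb : b ≠ 0)
    (hgn : g ≠ 0) (h : ∀ M : ℕ, b ^ M ∣ g * a ^ M) : b ∣ a := by
  sorry

/-! GROUP RD (57) -/

/-- Rentschler's theorem for `v y = f(x)` -/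
theorem rd_main [CharZero k] [IsAlgClosed k] (hP : Pres f v x y)
    (hg : Algebra.adjoin k {v, x, y} = ⊤) (Δ : Derivation k R0 R0) (hne : ∃ z, Δ z ≠ 0)
    (hln : ∀ z, ∃ n, (⇑Δ)^[n] z = 0) :
    ∃ v1 x1 y1 : R0, Mv k f v x y v1 x1 y1 ∧ Δ v1 = 0 := by
  sorry

/-- moves keep everything -/
theorem mv_pres (hP : Pres f v x y) {v1 x1 y1 : R0} (hmv : Mv k f v x y v1 x1 y1) :
    Pres f v1 x1 y1 ∧ Algebra.adjoin k {v1, x1, y1} = Algebra.adjoin k {v, x, y} := by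
  sorry

/-- the kernel -/
theorem ker_eq (hP : Pres f v x y) (hg : Algebra.adjoin k {v, x, y} = ⊤) [CharZero k]
    (Δ : Derivation k R0 R0) (hne : ∃ z, Δ z ≠ 0) (hln : ∀ z, ∃ n, (⇑Δ)^[n] z = 0) (hv : Δ v = 0)
    (z : R0) (hz : Δ z = 0) : ∃ q : k[X], z = aeval v q := by
  sorry

end CIC

section NN

variable {k S : Type} [Field k] [CharZero k] [CommRing S] [IsDomain S] [Algebra k S]
  {R : Subalgebra k S} {u : R} {f : R[X]} {v x y : S}

/-! GROUP NN (79) -/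

theorem nn_main (hE : Env R u f v x y) {N W W0 e : ℕ} {G : S}
    (hG : GD R u f.natDegree v x y N W W0 e G) (he : 2 ≤ e) (E : Derivation k S S)
    (hu : ¬ (u : S) ∣ E u) (hnil : ∀ z : S, ∃ r : R, IsUnit r ∧ ∃ m, (⇑E)^[m] (r * z) = 0)
    {R0 T : Type} [CommRing R0] [IsDomain R0] [Algebra k R0] [CommRing T] [IsDomain T] [Algebra k T]
    {ρ : Cx R v x y →ₐ[k] R0} {σ : S →ₐ[k] T} {π : R0 →ₐ[k] T} (hR : Red u (Cx R v x y) ρ σ π) :
    ∃ Δ : Derivation k R0 R0, (∃ z, Δ z ≠ 0) ∧ (∀ z, ∃ n, (⇑Δ)^[n] z = 0) ∧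
      ((∃ z, z ≠ 0 ∧ Δ z = 0 ∧ π z = 0) ∨
        ∀ z, ∃ a b, Δ a = 0 ∧ Δ b = 0 ∧ π b ≠ 0 ∧ π (b * z) = π a) := by
  sorry

/-- moves lift from `C / u C` to `C` -/
theorem mv_lift (hE : Env R u f v x y) {R0 T : Type} [CommRing R0] [IsDomain R0] [Algebra k R0]
    [CommRing T] [IsDomain T] [Algebra k T]
    {ρ : Cx R v x y →ₐ[k] R0} {σ : S →ₐ[k] T} {π : R0 →ₐ[k] T} (hR : Red u (Cx R v x y) ρ σ π)
    {f0 : k[X]} (hf : ∀ i, (u : S) ∣ ((f.coeff i : R) : S) - algebraMap k S (f0.coeff i))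
    (hn : f0.natDegree = f.natDegree) (v' x' y' : Cx R v x y) (hv : (v' : S) = v) (hx : (x' : S) = x)
    (hy : (y' : S) = y) (hP0 : Pres f0 (ρ v') (ρ x') (ρ y')) {a b c : R0}
    (hmv : Mv k f0 (ρ v') (ρ x') (ρ y') a b c) :
    ∃ v1 x1 y1 : Cx R v x y, Mv k f v x y (v1 : S) x1 y1 ∧ ρ v1 = a ∧ ρ x1 = b ∧ ρ y1 = c := by
  sorry

/-- moves over `R` keep the presentation and the ring -/
theorem mv_pres_R (hP : Pres f v x y) {v1 x1 y1 : S} (hmv : Mv k f v x y v1 x1 y1) :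
    Pres f v1 x1 y1 ∧ Cx R v1 x1 y1 = Cx R v x y := by
  sorry

/-- STEP: either `v1 = c ≠ 0` on the exceptional curve, or `v1` is transcendental and `x1` rational in
`v1` there -/
theorem step_cases [IsAlgClosed k] (hE : Env R u f v x y) {N W W0 e : ℕ} {G : S}
    (hG : GD R u f.natDegree v x y N W W0 e G) (he : 2 ≤ e) (E : Derivation k S S)
    (hu : ¬ (u : S) ∣ E u) (hnil : ∀ z : S, ∃ r : R, IsUnit r ∧ ∃ m, (⇑E)^[m] (r * z) = 0) :
    ∃ v1 x1 y1 : S, Mv k f v x y v1 x1 y1 ∧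
      ((∃ c : k, c ≠ 0 ∧ (u : S) ∣ v1 - algebraMap k S c) ∨
        ((∀ q : k[X], (u : S) ∣ aeval v1 q → q = 0) ∧
          ∃ a b : k[X], b ≠ 0 ∧ (u : S) ∣ aeval v1 b * x1 - aeval v1 a)) := by
  sorry

/-! GROUP TR (5) -/

theorem tr_main (E1 : Env R u f v x y) {f2 : R[X]} {v1 x1 y1 x2 y2 : S} (E2 : Env R u f2 v1 x1 y1)
    (hmv : Mv k f v x y v1 x2 y2) (θ : k)
    (hf : ∀ i, (u : S) ∣ (((f - (X - C (algebraMap k R θ)) ^ f.natDegree).coeff i : R) : S))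
    (hd : f2.natDegree = f.natDegree) (hx : (u : S) * x1 = x2 - algebraMap k S θ)
    (hy : (u : S) ^ f.natDegree * y1 = y2)
    (hint : ∃ χ : (k[X])[X], χ.Monic ∧ (u : S) ∣ eval₂ (aeval v : k[X] →ₐ[k] S).toRingHom y χ)
    (hQ : Q1A R u f2 v1 x1 y1) : Q1A R u f v x y := by
  sorry

end NN

section B

variable {k : Type} [Field k] [CharZero k] [IsAlgClosed k]

/-! GROUP FI (8) -/

/-- the frame of a polynomial all of whose translates are prime -/
theorem fr_of (u : B3 k) (hu : ∀ c : k, Prime (u - MvPolynomial.C c)) : Fr (RR u) (uu u) := by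
  sorry

variable {u v0 : B3 k} {D : Derivation k (B3 k) (B3 k)} {f : (RR u)[X]} {v x y : SL u} {e : ℕ}

theorem dat_dom (h : Dat u v0 D f v x y e) : IsDomain (SL u) := by
  sorry

theorem dat_env (h : Dat u v0 D f v x y e) : Env (RR u) (uu u) f v x y := by
  sorry

/-- the integrality of `y` modulo `u` (FREE) -/
theorem dat_int (h : Dat u v0 D f v x y e) (he : 1 ≤ e) :
    ∃ χ : (k[X])[X], χ.Monic ∧ io u u ∣ eval₂ (aeval v : k[X] →ₐ[k] SL u).toRingHom y χ := by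
  sorry

/-- FREE -/
theorem dat_GD (h : Dat u v0 D f v x y e) :
    ∃ N W W0 G, GD (RR u) (uu u) f.natDegree v x y N W W0 e G := by
  sorry

/-- a partial derivative -/
theorem dat_E (h : Dat u v0 D f v x y e) :
    ∃ E : Derivation k (SL u) (SL u), ¬ io u u ∣ E (io u u) ∧
      ∀ z : SL u, ∃ r : RR u, IsUnit r ∧ ∃ m, (⇑E)^[m] ((r : SL u) * z) = 0 := by
  sorry

/-- base of the induction (`T**`) -/
theorem base (h : Dat u v0 D f v x y e) (he : e ≤ 1) : Q1A (RR u) (uu u) f v x y := by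
  sorry

/-- the case `v1 = c ≠ 0` on the exceptional curve (chain of blocks) -/
theorem block_case (h : Dat u v0 D f v x y e) {v1 x1 y1 : SL u} (hmv : Mv k f v x y v1 x1 y1) {c : k}
    (hc : c ≠ 0) (hv1 : io u u ∣ v1 - algebraMap k (SL u) c) : Q1A (RR u) (uu u) f v x y := by
  sorry

/-! GROUP DG (72) -/

theorem dg_main (h : Dat u v0 D f v x y e) (he : 1 ≤ e) {v1 x1 y1 : SL u}
    (hmv : Mv k f v x y v1 x1 y1) (htr : ∀ q : k[X], io u u ∣ aeval v1 q → q = 0)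
    (hrat : ∃ a b : k[X], b ≠ 0 ∧ io u u ∣ aeval v1 b * x1 - aeval v1 a) :
    ∃ (θ : k) (x2 y2 : SL u) (w0 : B3 k) (D2 : Derivation k (B3 k) (B3 k)) (f2 : (RR u)[X])
      (x3 y3 : SL u), Mv k f v x y v1 x2 y2 ∧
      (∀ i, io u u ∣ (((f - (X - C (algebraMap k (RR u) θ)) ^ f.natDegree).coeff i : RR u) : SL u)) ∧
      f2.natDegree = f.natDegree ∧ io u u * x3 = x2 - algebraMap k (SL u) θ ∧
      io u u ^ f.natDegree * y3 = y2 ∧ Dat u w0 D2 f2 v1 x3 y3 (e - 1) := by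
  sorry

/-! ASSEMBLY (8) -/

theorem q1a_of_dat (n : ℕ) : ∀ (v0 : B3 k) (D : Derivation k (B3 k) (B3 k)) (f : (RR u)[X])
    (v x y : SL u) (e : ℕ), e ≤ n → Dat u v0 D f v x y e → Q1A (RR u) (uu u) f v x y := by
  induction n with
  | zero =>
    intro v0 D f v x y e he h
    exact base h (by omega)
  | succ n ih =>
    intro v0 D f v x y e he h
    by_cases h1 : e ≤ 1
    · exact base h h1
    have := dat_dom h
    obtain ⟨N, W, W0, G, hG⟩ := dat_GD h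
    obtain ⟨E, hEu, hEn⟩ := dat_E h
    obtain ⟨v1, x1, y1, hmv, hc | ⟨htr, hrat⟩⟩ := step_cases (dat_env h) hG (by omega) E hEu hEn
    · obtain ⟨c, hc, hv1⟩ := hc
      exact block_case h hmv hc hv1
    · obtain ⟨θ, x2, y2, w0, D2, f2, x3, y3, hmv2, hf, hd, hx, hy, h2⟩ :=
        dg_main h (by omega) hmv htr hrat
      exact tr_main (dat_env h) (dat_env h2) hmv2 θ hf hd hx hy (dat_int h (by omega))
        (ih w0 D2 f2 v1 x3 y3 (e - 1) (by omega) h2)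

end B

section FIN

variable {k : Type} [Field k] [CharZero k]

/-- the first datum, at a crossing of special primes `p`, `q` in `m` with `p ^ 2 ∣ cc 1`; `q1`: adapted elements
over the datum give a local element -/
theorem cross_case [IsAlgClosed k] {D : Derivation k (B3 k) (B3 k)} (hD : ∃ x, D x ≠ 0)
    (hln : ∀ x, ∃ n, (⇑D)^[n] x = 0) {f g : B3 k} (hind : AlgebraicIndependent k ![f, g])
    (hker : ∀ b, D b = 0 ↔ b ∈ Algebra.adjoin k {f, g})
    (hirr : ∀ p : B3 k, Prime p → D p = 0 → ∃ x, ¬ p ∣ D x) (A : Arith D) {r : B3 k}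
    (hr : D r = A.cc 1) (n : ℕ) (m : Ideal (kerAlg D)) (hm : m.IsMaximal) (p q : kerAlg D)
    (hp : Prime (p : B3 k)) (hq : Prime (q : B3 k)) (hpm : p ∈ m) (hqm : q ∈ m)
    (hna : ¬ Associated (p : B3 k) (q : B3 k)) (hp1 : 1 < npB D (p : B3 k))
    (hq1 : 1 < npB D (q : B3 k)) (hp2 : (p : B3 k) ^ 2 ∣ A.cc 1) :
    ∃ (a : kerAlg D) (x : B3 k), a ∉ m ∧ (⇑D)^[n + 1] x = 0 ∧ (⇑D)^[n] x = a * A.cc n := by
  sorry

/-- FULL Q1 -/
theorem final (D : Derivation k (B3 k) (B3 k)) (hD : D ≠ 0) (hln : ∀ x, ∃ n, (⇑D)^[n] x = 0)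
    (f g : B3 k) (hker : ∀ b, D b = 0 ↔ b ∈ Algebra.adjoin k {f, g}) (n : ℕ) : Princ D n := by
  sorry

end FIN

end Pool.Agent.LNDQ.Iface
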