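import Mathlib
import Pool.Agent.LNDQ.Defs
import Pool.Agent.LNDQ.LocDer

/-!
Group FI1 of the proof of Q1 for MP_821812: the localization `SL k u hu` of a domain `B` over `k` at the
elements `q(u)`, `q(0) ≠ 0`, of a prime `u`, its subring `RL` of the `a(u) / q(u)`, and `Fr RL u`.
-/

set_option autoImplicit false
set_option linter.unusedSectionVars false

open Polynomial

namespace Pool.Agent.LNDQ

section

variable {k B : Type} [Field k] [CommRing B] [IsDomain B] [Algebra k B]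

/-- the elements `q(u)`, `q(0) ≠ 0` -/
def mon (k : Type) {B : Type} [Field k] [CommRing B] [Algebra k B] (u : B) : Submonoid B where
  carrier := {b | ∃ q : k[X], q.eval 0 ≠ 0 ∧ aeval u q = b}
  mul_mem' := by
    rintro a b ⟨p, hp, rfl⟩ ⟨q, hq, rfl⟩
    exact ⟨p * q, by rw [eval_mul]; exact mul_ne_zero hp hq, map_mul _ _ _⟩
  one_mem' := ⟨1, by simp, by simp⟩

theorem mem_mon {u b : B} : b ∈ mon k u ↔ ∃ q : k[X], q.eval 0 ≠ 0 ∧ aeval u q = b := Iff.rfl

theorem aeval_mem_mon {u : B} {q : k[X]} (h : q.eval 0 ≠ 0) : aeval u q ∈ mon k u := ⟨q, h, rfl⟩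

theorem aeval_split (u : B) (q : k[X]) :
    aeval u q = algebraMap k B (q.eval 0) + u * aeval u q.divX := by
  have h := congrArg (aeval u) (Polynomial.divX_mul_X_add q)
  rw [map_add, map_mul, aeval_X, aeval_C, coeff_zero_eq_eval_zero] at h
  rw [← h]
  ring

theorem dvd_aeval_iff {u : B} (hu : Prime u) (q : k[X]) : u ∣ aeval u q ↔ q.eval 0 = 0 := by
  rw [aeval_split u q]
  constructor
  · intro h
    by_contra h0
    have h1 : u ∣ algebraMap k B (q.eval 0) := (dvd_add_left (dvd_mul_right u _)).1 h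
    exact hu.not_isUnit (isUnit_of_dvd_unit h1 ((IsUnit.mk0 _ h0).map (algebraMap k B)))
  · intro h
    rw [h, map_zero, zero_add]
    exact dvd_mul_right u _

theorem not_dvd_mon {u : B} (hu : Prime u) {m : B} (hm : m ∈ mon k u) : ¬ u ∣ m := by
  obtain ⟨q, hq, rfl⟩ := hm
  rw [dvd_aeval_iff hu]
  exact hq

theorem mon_le {u : B} (hu : Prime u) : mon k u ≤ nonZeroDivisors B := by
  intro m hm
  rw [mem_nonZeroDivisors_iff_ne_zero]
  rintro rfl
  exact not_dvd_mon hu hm (dvd_zero u)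

/-- `u` is transcendental over `k` -/
theorem aeval_inj {u : B} (hu : Prime u) : Function.Injective (aeval u : k[X] →ₐ[k] B) := by
  rw [injective_iff_map_eq_zero]
  intro q hq
  by_contra h0
  obtain ⟨n, q', h1, h2⟩ : ∃ (n : ℕ) (q' : k[X]), q = X ^ n * q' ∧ q'.eval 0 ≠ 0 := by
    obtain ⟨q', h1, h2⟩ := exists_eq_pow_rootMultiplicity_mul_and_not_dvd q h0 0
    rw [map_zero, sub_zero] at h1 h2
    refine ⟨_, q', h1, fun h3 => h2 ?_⟩
    rw [X_dvd_iff, coeff_zero_eq_eval_zero]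
    exact h3
  rw [h1, map_mul, map_pow, aeval_X] at hq
  rcases mul_eq_zero.1 hq with h3 | h3
  · exact pow_ne_zero n hu.ne_zero h3
  · exact h2 ((dvd_aeval_iff hu q').1 (by rw [h3]; exact dvd_zero u))

variable (k) in
/-- the localization `S` of `B` at the elements `q(u)`, `q(0) ≠ 0` -/
abbrev SL (u : B) (_hu : Prime u) : Type := Localization (mon k u)

variable {u : B} (hu : Prime u)

instance : IsDomain (SL k u hu) := IsLocalization.isDomain_localization (mon_le (k := k) hu)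

variable (k) in
/-- the map `B → S` -/
noncomputable abbrev iS : B →+* SL k u hu := algebraMap B (SL k u hu)

theorem iS_inj : Function.Injective (iS k hu) := IsLocalization.injective _ (mon_le (k := k) hu)

theorem iS_unit {q : k[X]} (h : q.eval 0 ≠ 0) : IsUnit (iS k hu (aeval u q)) :=
  IsLocalization.map_units (SL k u hu) (⟨aeval u q, aeval_mem_mon h⟩ : mon k u)

theorem iS_ne {q : k[X]} (h : q.eval 0 ≠ 0) : iS k hu (aeval u q) ≠ 0 := (iS_unit hu h).ne_zero

/-- every element of `S` is `b / q(u)`, `q(0) = 1` -/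
theorem exists_mul (z : SL k u hu) : ∃ (q : k[X]) (b : B), q.eval 0 = 1 ∧
    z * iS k hu (aeval u q) = iS k hu b := by
  obtain ⟨⟨b, m⟩, h1⟩ := IsLocalization.surj (mon k u) z
  obtain ⟨q, hq, hm⟩ := m.2
  simp only at h1
  refine ⟨C (q.eval 0)⁻¹ * q, algebraMap k B (q.eval 0)⁻¹ * b, ?_, ?_⟩
  · rw [eval_mul, eval_C, inv_mul_cancel₀ hq]
  · rw [map_mul, aeval_C, map_mul, map_mul, ← h1, ← hm]
    ring

theorem dvd_alg_iff (n : ℕ) (b : B) : iS k hu u ^ n ∣ iS k hu b ↔ u ^ n ∣ b := by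
  constructor
  · rintro ⟨z, hz⟩
    obtain ⟨q, c, hq, h⟩ := exists_mul hu z
    have h1 : b * aeval u q = u ^ n * c := iS_inj hu (by
      rw [map_mul, map_mul, map_pow, hz, ← h]
      ring)
    have h2 : ¬ u ∣ aeval u q := not_dvd_mon (k := k) hu (aeval_mem_mon (by rw [hq]; exact one_ne_zero))
    refine hu.pow_dvd_of_dvd_mul_left n h2 ?_
    rw [mul_comm, h1]
    exact dvd_mul_right _ _
  · rintro ⟨c, rfl⟩
    rw [map_mul, map_pow]
    exact dvd_mul_right _ _

theorem dvd_alg_iff_one (b : B) : iS k hu u ∣ iS k hu b ↔ u ∣ b := by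
  have h := dvd_alg_iff (k := k) hu 1 b
  rwa [pow_one, pow_one] at h

/-- `u ^ n` divides `b / q(u)` if and only if it divides `b` -/
theorem dvd_iff_of_mul {z : SL k u hu} {q : k[X]} {b : B} (hq : q.eval 0 ≠ 0)
    (h : z * iS k hu (aeval u q) = iS k hu b) (n : ℕ) : iS k hu u ^ n ∣ z ↔ u ^ n ∣ b := by
  rw [← dvd_alg_iff (k := k) hu, ← h, (iS_unit hu hq).dvd_mul_right]

theorem dvd_iff_of_mul_one {z : SL k u hu} {q : k[X]} {b : B} (hq : q.eval 0 ≠ 0)
    (h : z * iS k hu (aeval u q) = iS k hu b) : iS k hu u ∣ z ↔ u ∣ b := by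
  have h1 := dvd_iff_of_mul hu hq h 1
  rwa [pow_one, pow_one] at h1

theorem primeS : Prime (iS k hu u) := by
  refine ⟨fun h => hu.ne_zero (iS_inj (k := k) hu (by rw [h, map_zero])), fun h => ?_,
    fun y z h => ?_⟩
  · obtain ⟨w, hw⟩ := h.exists_right_inv
    have h1 : iS k hu u ∣ iS k hu 1 := ⟨w, by rw [hw, map_one]⟩
    exact hu.not_isUnit (isUnit_of_dvd_one ((dvd_alg_iff_one hu 1).1 h1))
  · obtain ⟨p, b, hp, h1⟩ := exists_mul hu y
    obtain ⟨q, c, hq, h2⟩ := exists_mul hu z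
    have hp' : p.eval 0 ≠ 0 := by rw [hp]; exact one_ne_zero
    have hq' : q.eval 0 ≠ 0 := by rw [hq]; exact one_ne_zero
    rw [dvd_iff_of_mul_one hu hp' h1, dvd_iff_of_mul_one hu hq' h2]
    have h3 : (y * z) * iS k hu (aeval u (p * q)) = iS k hu (b * c) := by
      rw [map_mul, map_mul, map_mul, ← h1, ← h2]
      ring
    rw [dvd_iff_of_mul_one hu (by rw [eval_mul]; exact mul_ne_zero hp' hq') h3] at h
    exact hu.dvd_or_dvd h

/-- every element of `S` is an element of `B` modulo `u` -/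
theorem res_S (z : SL k u hu) : ∃ b : B, iS k hu u ∣ z - iS k hu b := by
  obtain ⟨q, b, hq, h⟩ := exists_mul hu z
  refine ⟨b, ⟨-(z * iS k hu (aeval u q.divX)), ?_⟩⟩
  have h1 := congrArg (iS k hu) (aeval_split u q)
  rw [hq, map_one, map_add, map_one, map_mul] at h1
  rw [← h, h1]
  ring

variable (k) in
/-- the subring `R` of the `a(u) / q(u)`, `q(0) ≠ 0` -/
noncomputable def RL : Subalgebra k (SL k u hu) where
  carrier := {z | ∃ a q : k[X], q.eval 0 ≠ 0 ∧ z * iS k hu (aeval u q) = iS k hu (aeval u a)}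
  mul_mem' := by
    rintro y z ⟨a, p, hp, h1⟩ ⟨b, q, hq, h2⟩
    refine ⟨a * b, p * q, by rw [eval_mul]; exact mul_ne_zero hp hq, ?_⟩
    rw [map_mul, map_mul, map_mul, map_mul, ← h1, ← h2]
    ring
  add_mem' := by
    rintro y z ⟨a, p, hp, h1⟩ ⟨b, q, hq, h2⟩
    refine ⟨a * q + b * p, p * q, by rw [eval_mul]; exact mul_ne_zero hp hq, ?_⟩
    rw [map_mul, map_mul, map_add, map_mul, map_mul, map_add, map_mul, map_mul, ← h1, ← h2]
    ring
  algebraMap_mem' := by
    intro c
    refine ⟨C c, 1, by simp, ?_⟩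
    rw [map_one, map_one, mul_one, aeval_C, IsScalarTower.algebraMap_apply k B (SL k u hu)]

theorem mem_RL {z : SL k u hu} : z ∈ RL k hu ↔
    ∃ a q : k[X], q.eval 0 ≠ 0 ∧ z * iS k hu (aeval u q) = iS k hu (aeval u a) := Iff.rfl

theorem aeval_mem_RL (a : k[X]) : iS k hu (aeval u a) ∈ RL k hu :=
  ⟨a, 1, by simp, by rw [map_one, map_one, mul_one]⟩

variable (k) in
/-- the uniformiser -/
noncomputable def uL : RL k hu := ⟨iS k hu u, X, 1, by simp, by
  rw [map_one, map_one, mul_one, aeval_X]⟩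

theorem coe_uL : ((uL k hu : RL k hu) : SL k u hu) = iS k hu u := rfl

/-- **FI1.** -/
theorem fr_loc [WfDvdMonoid B] : Fr (RL k hu) (uL k hu) where
  prime := primeS hu
  res := by
    rintro ⟨z, a, q, hq, h⟩
    refine ⟨a.eval 0 / q.eval 0, ⟨(iS k hu (aeval u (a - C (a.eval 0 / q.eval 0) * q).divX)) *
      ((iS_unit hu hq).unit⁻¹ : (SL k u hu)ˣ), ?_⟩, ?_⟩
    · refine ⟨(a - C (a.eval 0 / q.eval 0) * q).divX, q, hq, ?_⟩
      rw [mul_assoc, IsUnit.val_inv_mul, mul_one]
    · apply Subtype.ext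
      show z = algebraMap k (SL k u hu) _ + iS k hu u * (iS k hu (aeval u _) * _)
      apply mul_right_cancel₀ (iS_ne hu hq)
      have h1 := aeval_split u (a - C (a.eval 0 / q.eval 0) * q)
      rw [eval_sub, eval_mul, eval_C, div_mul_cancel₀ _ hq, sub_self, map_zero, zero_add, map_sub,
        map_mul, aeval_C] at h1
      have h2 := congrArg (iS k hu) h1
      rw [map_sub, map_mul, map_mul] at h2
      rw [h, add_mul, mul_assoc, mul_assoc, IsUnit.val_inv_mul, mul_one,
        IsScalarTower.algebraMap_apply k B (SL k u hu), ← h2]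
      ring
  inv := by
    rintro ⟨z, a, q, hq, h⟩ hz
    have ha : a.eval 0 ≠ 0 := by
      intro h0
      apply hz
      show iS k hu u ∣ z
      rw [dvd_iff_of_mul_one hu hq h, dvd_aeval_iff hu]
      exact h0
    refine IsUnit.of_mul_eq_one ⟨iS k hu (aeval u q) * ((iS_unit hu ha).unit⁻¹ : (SL k u hu)ˣ),
      q, a, ha, by rw [mul_assoc, IsUnit.val_inv_mul, mul_one]⟩ ?_
    apply Subtype.ext
    show z * (iS k hu (aeval u q) * _) = 1
    rw [← mul_assoc, h]
    exact IsUnit.mul_val_inv _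
  sep := by
    intro z hz
    obtain ⟨q, b, hq, h⟩ := exists_mul hu z
    have hq' : q.eval 0 ≠ 0 := by rw [hq]; exact one_ne_zero
    have hb : b ≠ 0 := by
      rintro rfl
      rw [map_zero] at h
      rcases mul_eq_zero.1 h with h | h
      · exact hz h
      · exact iS_ne hu hq' h
    obtain ⟨n, hn⟩ := FiniteMultiplicity.of_not_isUnit hu.not_isUnit hb
    refine ⟨n + 1, fun h1 => hn ?_⟩
    exact (dvd_iff_of_mul hu hq' h (n + 1)).1 h1
  sat := by
    rintro z ⟨a, q, hq, h⟩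
    have h0 : iS k hu u * z * iS k hu (aeval u q) = iS k hu (aeval u a) := h
    have h1 : u ∣ aeval u a := by
      rw [← dvd_alg_iff_one (k := k) hu, ← h0]
      exact ⟨z * iS k hu (aeval u q), by ring⟩
    rw [dvd_aeval_iff hu] at h1
    refine ⟨a.divX, q, hq, ?_⟩
    apply mul_left_cancel₀ (primeS (k := k) hu).ne_zero
    rw [← mul_assoc, h0, aeval_split u a, h1, map_zero, zero_add, map_mul]

/-- every element of `S` is an element of `B` times a unit of `R` which is `1` modulo `u` -/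
theorem exists_unit_mul (z : SL k u hu) : ∃ (w : RL k hu) (q : k[X]) (b : B), IsUnit w ∧
    q.eval 0 = 1 ∧ (w : SL k u hu) = iS k hu (aeval u q) ∧ (w : SL k u hu) * z = iS k hu b := by
  obtain ⟨q, b, hq, h⟩ := exists_mul hu z
  have hq' : q.eval 0 ≠ 0 := by rw [hq]; exact one_ne_zero
  refine ⟨⟨iS k hu (aeval u q), aeval_mem_RL hu q⟩, q, b, ?_, hq, rfl, ?_⟩
  · refine IsUnit.of_mul_eq_one ⟨((iS_unit hu hq').unit⁻¹ : (SL k u hu)ˣ), 1, q, hq', ?_⟩ ?_
    · rw [IsUnit.val_inv_mul, map_one, map_one]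
    · exact Subtype.ext (IsUnit.mul_val_inv _)
  · show iS k hu (aeval u q) * z = _
    rw [mul_comm, h]

/-! ### extended derivations -/

variable (k) in
/-- the extension of a derivation of `B` to `S` -/
noncomputable def dS (E : Derivation k B B) : Derivation k (SL k u hu) (SL k u hu) :=
  exD (mon k u) (iS_inj hu) E

theorem dS_alg (E : Derivation k B B) (b : B) : dS k hu E (iS k hu b) = iS k hu (E b) :=
  exD_alg _ _ E b

theorem dS_iter_alg (E : Derivation k B B) (n : ℕ) (b : B) :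
    (⇑(dS k hu E))^[n] (iS k hu b) = iS k hu ((⇑E)^[n] b) := exD_iter_alg _ _ E n b

theorem der_aeval (E : Derivation k B B) (hE : E u = 0) (q : k[X]) : E (aeval u q) = 0 := by
  induction q using Polynomial.induction_on' with
  | add p q hp hq => rw [map_add, map_add, hp, hq, add_zero]
  | monomial n a =>
    rw [aeval_monomial, Derivation.leibniz, Derivation.leibniz_pow, hE, Derivation.map_algebraMap]
    simp

/-- local nilpotence up to units of `R` -/
theorem dS_nil (E : Derivation k B B) (hln : ∀ x, ∃ n, (⇑E)^[n] x = 0) (z : SL k u hu) :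
    ∃ (w : RL k hu) (n : ℕ), IsUnit w ∧ (⇑(dS k hu E))^[n] ((w : SL k u hu) * z) = 0 := by
  obtain ⟨w, q, b, hw, -, -, h⟩ := exists_unit_mul hu z
  obtain ⟨n, hn⟩ := hln b
  exact ⟨w, n, hw, by rw [h, dS_iter_alg, hn, map_zero]⟩

/-- a derivation which kills `u` kills `R` -/
theorem dS_R (E : Derivation k B B) (hE : E u = 0) (r : RL k hu) :
    dS k hu E (r : SL k u hu) = 0 := by
  obtain ⟨z, a, q, hq, h⟩ := r
  have h1 := exD_spec (mon k u) (iS_inj (k := k) hu) E (aeval_mem_mon hq) h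
  rw [der_aeval E hE, der_aeval E hE, map_zero, mul_zero, sub_zero] at h1
  rcases mul_eq_zero.1 h1 with h2 | h2
  · exact h2
  · exact absurd h2 (iS_ne hu hq)

theorem dS_smul (E : Derivation k B B) (hE : E u = 0) (r : RL k hu) (z : SL k u hu) :
    dS k hu E ((r : SL k u hu) * z) = r * dS k hu E z := by
  rw [Derivation.leibniz, dS_R hu E hE, smul_zero, add_zero, smul_eq_mul]

theorem dS_iter_smul (E : Derivation k B B) (hE : E u = 0) (r : RL k hu) (z : SL k u hu)
    (n : ℕ) : (⇑(dS k hu E))^[n] ((r : SL k u hu) * z) = r * (⇑(dS k hu E))^[n] z := by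
  induction n generalizing z with
  | zero => rfl
  | succ n ih => rw [Function.iterate_succ_apply, dS_smul hu E hE, ih, Function.iterate_succ_apply]

/-- the value of the iterates at `b / q(u)` -/
theorem dS_iter_mul (E : Derivation k B B) (hE : E u = 0) {z : SL k u hu} {q : k[X]} {b : B}
    (h : z * iS k hu (aeval u q) = iS k hu b) (n : ℕ) :
    (⇑(dS k hu E))^[n] z * iS k hu (aeval u q) = iS k hu ((⇑E)^[n] b) := by
  rw [← dS_iter_alg, ← h, mul_comm z, mul_comm _ (iS k hu (aeval u q))]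
  exact (dS_iter_smul hu E hE ⟨_, aeval_mem_RL hu q⟩ z n).symm

theorem dS_lnd (E : Derivation k B B) (hE : E u = 0) (hln : ∀ x, ∃ n, (⇑E)^[n] x = 0)
    (z : SL k u hu) : ∃ n, (⇑(dS k hu E))^[n] z = 0 := by
  obtain ⟨w, n, hw, h⟩ := dS_nil hu E hln z
  rw [dS_iter_smul hu E hE] at h
  refine ⟨n, ?_⟩
  rcases mul_eq_zero.1 h with h1 | h1
  · exact absurd h1 (fun h2 => hw.ne_zero (Subtype.ext h2))
  · exact h1

/-- `D ^ n z = 0` if and only if `D ^ n b = 0`, for `z = b / q(u)` -/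
theorem dS_iter_eq_zero (E : Derivation k B B) (hE : E u = 0) {z : SL k u hu} {q : k[X]} {b : B}
    (hq : q.eval 0 ≠ 0) (h : z * iS k hu (aeval u q) = iS k hu b) (n : ℕ) :
    (⇑(dS k hu E))^[n] z = 0 ↔ (⇑E)^[n] b = 0 := by
  have h1 := dS_iter_mul hu E hE h n
  constructor
  · intro h2
    rw [h2, zero_mul] at h1
    exact iS_inj (k := k) hu (by rw [← h1, map_zero])
  · intro h2
    rw [h2, map_zero] at h1
    rcases mul_eq_zero.1 h1 with h3 | h3
    · exact h3
    · exact absurd h3 (iS_ne hu hq)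

/-- the kernel of the extension -/
theorem dS_ker (E : Derivation k B B) (hE : E u = 0) {z : SL k u hu} (hz : dS k hu E z = 0) :
    ∃ (q : k[X]) (b : B), q.eval 0 = 1 ∧ E b = 0 ∧ z * iS k hu (aeval u q) = iS k hu b := by
  obtain ⟨q, b, hq, h⟩ := exists_mul hu z
  refine ⟨q, b, hq, ?_, h⟩
  have h1 := (dS_iter_eq_zero hu E hE (by rw [hq]; exact one_ne_zero) h 1).1
  exact h1 hz

/-- the extension over `R` -/
noncomputable def dR (E : Derivation k B B) (hE : E u = 0) :
    Derivation (RL k hu) (SL k u hu) (SL k u hu) where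
  toFun := dS k hu E
  map_add' := map_add _
  map_smul' := by
    intro r z
    exact dS_smul hu E hE r z
  map_one_eq_zero' := (dS k hu E).map_one_eq_zero
  leibniz' := (dS k hu E).leibniz

/-- `u` does not divide `E` if it does not divide it on `B` -/
theorem dS_ndvd (E : Derivation k B B) (h : ∃ x, ¬ u ∣ E x) :
    ∃ z : SL k u hu, ¬ iS k hu u ∣ dS k hu E z := by
  obtain ⟨x, hx⟩ := h
  refine ⟨iS k hu x, ?_⟩
  rw [dS_alg, dvd_alg_iff_one]
  exact hx

theorem dS_dvd (E : Derivation k B B) (h : ∀ x, u ∣ E x) (z : SL k u hu) :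
    iS k hu u ∣ dS k hu E z := by
  obtain ⟨q, b, hq, h1⟩ := exists_mul hu z
  have hq' : q.eval 0 ≠ 0 := by rw [hq]; exact one_ne_zero
  have h2 := exD_spec (mon k u) (iS_inj (k := k) hu) E (aeval_mem_mon hq') h1
  rw [← (iS_unit hu hq').dvd_mul_right (a := iS k hu u)]
  change iS k hu u ∣ exD (mon k u) (iS_inj hu) E z * algebraMap B (SL k u hu) (aeval u q)
  rw [h2]
  obtain ⟨c, hc⟩ := h b
  obtain ⟨d, hd⟩ := h (aeval u q)
  refine ⟨iS k hu c - z * iS k hu d, ?_⟩
  rw [hc, hd, map_mul, map_mul]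
  ring

end

end Pool.Agent.LNDQ
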