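import Mathlib
import Pool.Agent.LNDQ.DG3

/-!
# LNDQ/MvGen: moves keep the presentation and the generated ring, over any base domain
-/

set_option autoImplicit false

open Polynomial

namespace Pool.Agent.LNDQ.MvGen

open DG3

variable {k Q S : Type} [Field k] [CommRing Q] [IsDomain Q] [CommRing S] [IsDomain S] [Algebra k Q]
  [Algebra k S] [Algebra Q S] [IsScalarTower k Q S] {f : Q[X]} {v x y : S}

omit [IsDomain Q] [IsDomain S] in
theorem aev_mem (v : S) (q : k[X]) : aeval v q ∈ Algebra.adjoin Q {v} := by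
  have h : aeval v (q.map (algebraMap k Q)) ∈ Algebra.adjoin Q {v} :=
    aeval_mem_adjoin_singleton _ _
  rwa [aeval_map_algebraMap] at h

omit [IsDomain S] in
theorem v_ne (hp : Pres f v x y) : v ≠ 0 :=
  hp.ind.ne_zero 0

omit [IsDomain S] in
theorem f_ne (hp : Pres f v x y) : aeval x f ≠ 0 := by
  have h := (ind_iff0 v x).1 hp.ind
  intro h0
  exact hp.monic.ne_zero ((transcendental_iff.1 h.1) f h0)

theorem pres_swap (hp : Pres f v x y) : Pres f y x v where
  monic := hp.monic
  deg := hp.deg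
  rel := by rw [mul_comm]; exact hp.rel
  ind := ind_quot (aeval_mem_adjoin_singleton _ _) (f_ne hp) hp.rel hp.ind

theorem pres_elem {y2 c : S} (hp : Pres f v x y) (hc : c ∈ Algebra.adjoin Q {v})
    (e : v * y2 = aeval (x + c) f) : Pres f v (x + c) y2 where
  monic := hp.monic
  deg := hp.deg
  rel := e
  ind := ind_add hc hp.ind

omit [IsDomain Q] [IsDomain S] in
theorem sub_mem {a b : S} (f : Q[X]) (A : Subalgebra Q S) (ha : a ∈ A) (hb : b ∈ A) :
    ∃ g ∈ A, aeval a f - aeval b f = (a - b) * g := by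
  have h := sub_dvd_eval_sub (⟨a, ha⟩ : A) ⟨b, hb⟩ (f.map (algebraMap Q A))
  obtain ⟨g, hg⟩ := h
  refine ⟨g, g.2, ?_⟩
  have h1 : ∀ z : A, (((f.map (algebraMap Q A)).eval z : A) : S) = aeval (z : S) f := by
    intro z
    rw [eval_map_algebraMap]
    exact (Polynomial.aeval_algHom_apply A.val z f).symm
  have h2 := congrArg (Subtype.val) hg
  simp only [AddSubgroupClass.coe_sub, MulMemClass.coe_mul] at h2
  rw [h1, h1] at h2
  exact h2

theorem adj_elem {y2 d : S} (hp : Pres f v x y) (hd : d ∈ Algebra.adjoin Q {v})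
    (e : v * y2 = aeval (x + v * d) f) :
    Algebra.adjoin Q {v, x + v * d, y2} = Algebra.adjoin Q {v, x, y} := by
  have key : ∃ g ∈ Algebra.adjoin Q {v, x}, y2 = y + d * g := by
    have hv : v ∈ Algebra.adjoin Q {v, x} := Algebra.subset_adjoin (Set.mem_insert _ _)
    have hx : x ∈ Algebra.adjoin Q {v, x} :=
      Algebra.subset_adjoin (Set.mem_insert_of_mem _ rfl)
    have hd' : d ∈ Algebra.adjoin Q {v, x} :=
      Algebra.adjoin_mono (Set.singleton_subset_iff.2 (Set.mem_insert _ _)) hd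
    obtain ⟨g, hg, hg2⟩ := sub_mem f (Algebra.adjoin Q {v, x})
      (Subalgebra.add_mem _ hx (Subalgebra.mul_mem _ hv hd')) hx
    refine ⟨g, hg, ?_⟩
    apply mul_left_cancel₀ (v_ne hp)
    rw [← e, ← hp.rel] at hg2
    linear_combination hg2
  obtain ⟨g, hg, rfl⟩ := key
  apply le_antisymm
  · apply Algebra.adjoin_le
    have hle : Algebra.adjoin Q {v} ≤ Algebra.adjoin Q {v, x, y} :=
      Algebra.adjoin_mono (Set.singleton_subset_iff.2 (Set.mem_insert _ _))
    have hle2 : Algebra.adjoin Q {v, x} ≤ Algebra.adjoin Q {v, x, y} :=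
      Algebra.adjoin_mono (by
        rintro z (rfl | rfl)
        · exact Set.mem_insert _ _
        · exact Set.mem_insert_of_mem _ (Set.mem_insert _ _))
    have hv : v ∈ Algebra.adjoin Q {v, x, y} := Algebra.subset_adjoin (Set.mem_insert _ _)
    have hx : x ∈ Algebra.adjoin Q {v, x, y} :=
      Algebra.subset_adjoin (Set.mem_insert_of_mem _ (Set.mem_insert _ _))
    have hy : y ∈ Algebra.adjoin Q {v, x, y} :=
      Algebra.subset_adjoin (Set.mem_insert_of_mem _ (Set.mem_insert_of_mem _ rfl))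
    rintro z (rfl | rfl | rfl)
    · exact hv
    · exact Subalgebra.add_mem _ hx (Subalgebra.mul_mem _ hv (hle hd))
    · exact Subalgebra.add_mem _ hy (Subalgebra.mul_mem _ (hle hd) (hle2 hg))
  · apply Algebra.adjoin_le
    set T := Algebra.adjoin Q {v, x + v * d, y + d * g} with hT
    have hv : v ∈ T := Algebra.subset_adjoin (Set.mem_insert _ _)
    have hle : Algebra.adjoin Q {v} ≤ T :=
      Algebra.adjoin_le (Set.singleton_subset_iff.2 hv)
    have hx2 : x + v * d ∈ T :=
      Algebra.subset_adjoin (Set.mem_insert_of_mem _ (Set.mem_insert _ _))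
    have hy2 : y + d * g ∈ T :=
      Algebra.subset_adjoin (Set.mem_insert_of_mem _ (Set.mem_insert_of_mem _ rfl))
    have hx : x ∈ T := by
      have := Subalgebra.sub_mem _ hx2 (Subalgebra.mul_mem _ hv (hle hd))
      rwa [add_sub_cancel_right] at this
    have hle2 : Algebra.adjoin Q {v, x} ≤ T := by
      apply Algebra.adjoin_le
      rintro z (rfl | rfl)
      · exact hv
      · exact hx
    have hy : y ∈ T := by
      have := Subalgebra.sub_mem _ hy2 (Subalgebra.mul_mem _ (hle hd) (hle2 hg))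
      rwa [add_sub_cancel_right] at this
    rintro z (rfl | rfl | rfl)
    · exact hv
    · exact hx
    · exact hy

/-- moves keep the presentation and the ring which it generates -/
theorem mv_gen {v1 x1 y1 : S} (hP : Pres f v x y) (hmv : Mv k f v x y v1 x1 y1) :
    Pres f v1 x1 y1 ∧ Algebra.adjoin Q {v1, x1, y1} = Algebra.adjoin Q {v, x, y} := by
  induction hmv with
  | refl => exact ⟨hP, rfl⟩
  | @elem v' x' y' q y'' h e ih =>
    have hv : v' ∈ Algebra.adjoin Q {v'} := Algebra.subset_adjoin rfl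
    refine ⟨pres_elem ih.1 (Subalgebra.mul_mem _ hv (aev_mem v' q)) e, ?_⟩
    rw [← ih.2]
    exact adj_elem ih.1 (aev_mem v' q) e
  | @swap v' x' y' h ih =>
    refine ⟨pres_swap ih.1, ?_⟩
    rw [← ih.2]
    have hs : ({y', x', v'} : Set S) = {v', x', y'} := by
      ext z
      simp only [Set.mem_insert_iff, Set.mem_singleton_iff]
      tauto
    rw [hs]

end Pool.Agent.LNDQ.MvGen

namespace Pool.Agent.LNDQ.MvGen

section CIC

variable {k R0 : Type} [Field k] [CommRing R0] [IsDomain R0] [Algebra k R0] {f : k[X]} {v x y : R0}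

/-- the statement `mv_pres` of `Iface` -/
theorem mv_pres_k (hP : Pres f v x y) {v1 x1 y1 : R0} (hmv : Mv k f v x y v1 x1 y1) :
    Pres f v1 x1 y1 ∧ Algebra.adjoin k {v1, x1, y1} = Algebra.adjoin k {v, x, y} :=
  mv_gen hP hmv

end CIC

section NN

variable {k S : Type} [Field k] [CommRing S] [IsDomain S] [Algebra k S]
  {R : Subalgebra k S} {f : R[X]} {v x y : S}

/-- the statement `mv_pres_R` of `Iface` -/
theorem mv_pres_R' (hP : Pres f v x y) {v1 x1 y1 : S} (hmv : Mv k f v x y v1 x1 y1) :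
    Pres f v1 x1 y1 ∧ Cx R v1 x1 y1 = Cx R v x y :=
  ⟨DG.mv_pres hmv hP, DG.mv_cx hmv hP⟩

end NN

end Pool.Agent.LNDQ.MvGen
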