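import Pool.Agent.LNDQ.Defs
import Pool.Agent.LNDQ.MvPres

/-!
Lifting of moves from `C / u C` to `C` (STEP, MP_821812, full Q1).
-/

set_option autoImplicit false

open Polynomial

namespace Pool.Agent.LNDQ

section lift

variable {k S : Type} [Field k] [CommRing S] [Algebra k S] {R : Subalgebra k S} {u : R}
  {f : R[X]} {v x y : S}

/-- the inclusion of `R` in `C` -/
def inR (R : Subalgebra k S) (v x y : S) : R →+* Cx R v x y where
  toFun r := ⟨(r : S), (Algebra.adjoin R {v, x, y}).algebraMap_mem r⟩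
  map_one' := rfl
  map_mul' _ _ := rfl
  map_zero' := rfl
  map_add' _ _ := rfl

theorem coe_inR (r : R) : ((inR R v x y r : Cx R v x y) : S) = r := rfl

/-- the value of `f` at an element of `C` -/
theorem coe_eval_inR (z : Cx R v x y) :
    ((eval₂ (inR R v x y) z f : Cx R v x y) : S) = aeval (z : S) f := by
  have h := hom_eval₂ f (inR R v x y) ((Cx R v x y).val : Cx R v x y →+* S) z
  rw [aeval_def]
  exact h

/-- the residue of `f` -/
theorem map_res {R0 T : Type} [CommRing R0] [Algebra k R0] [CommRing T] [Algebra k T]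
    (hF : Fr R u) {ρ : Cx R v x y →ₐ[k] R0} {σ : S →ₐ[k] T} {π : R0 →ₐ[k] T}
    (hR : Red u (Cx R v x y) ρ σ π) {f0 : k[X]}
    (hf : ∀ i, (u : S) ∣ ((f.coeff i : R) : S) - algebraMap k S (f0.coeff i)) :
    f.map ((ρ : Cx R v x y →+* R0).comp (inR R v x y)) = f0.map (algebraMap k R0) := by
  ext i
  rw [coeff_map, coeff_map]
  obtain ⟨z, hz⟩ := hf i
  have hzR : z ∈ R := by
    refine hF.sat z ?_
    rw [← hz]
    exact R.sub_mem (f.coeff i).2 (R.algebraMap_mem _)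
  have h0 : ρ (inR R v x y (f.coeff i) - algebraMap k (Cx R v x y) (f0.coeff i)) = 0 := by
    rw [hR.rk]
    refine ⟨inR R v x y ⟨z, hzR⟩, ?_⟩
    exact hz
  rw [map_sub, sub_eq_zero, AlgHom.commutes] at h0
  exact h0

/-- the residue of the value of `f` at an element of `C` -/
theorem res_eval {R0 T : Type} [CommRing R0] [Algebra k R0] [CommRing T] [Algebra k T]
    (hF : Fr R u) {ρ : Cx R v x y →ₐ[k] R0} {σ : S →ₐ[k] T} {π : R0 →ₐ[k] T}
    (hR : Red u (Cx R v x y) ρ σ π) {f0 : k[X]}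
    (hf : ∀ i, (u : S) ∣ ((f.coeff i : R) : S) - algebraMap k S (f0.coeff i))
    (z : Cx R v x y) : ρ (eval₂ (inR R v x y) z f) = aeval (ρ z) f0 := by
  have h := hom_eval₂ f (inR R v x y) (ρ : Cx R v x y →+* R0) z
  have h2 := map_res hF hR hf
  have h3 : aeval (ρ z) f0 = eval₂ ((ρ : Cx R v x y →+* R0).comp (inR R v x y)) (ρ z) f := by
    rw [aeval_def, eval₂_eq_eval_map, ← h2, ← eval₂_eq_eval_map]
  rw [h3]
  exact h

theorem mv_lift_aux {R0 T : Type} [CommRing R0] [IsDomain R0] [Algebra k R0] [CommRing T]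
    [Algebra k T] (hF : Fr R u) (hrel : v * y = aeval x f)
    {ρ : Cx R v x y →ₐ[k] R0} {σ : S →ₐ[k] T} {π : R0 →ₐ[k] T} (hR : Red u (Cx R v x y) ρ σ π)
    {f0 : k[X]} (hf : ∀ i, (u : S) ∣ ((f.coeff i : R) : S) - algebraMap k S (f0.coeff i))
    (v' x' y' : Cx R v x y) (hv : (v' : S) = v) (hx : (x' : S) = x) (hy : (y' : S) = y)
    {a0 b0 c0 : R0} (ha : ρ v' = a0) (hb : ρ x' = b0) (hc : ρ y' = c0)
    (hP0 : Pres f0 a0 b0 c0) {a b c : R0} (hmv : Mv k f0 a0 b0 c0 a b c) :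
    ∃ v1 x1 y1 : Cx R v x y, Mv k f v x y (v1 : S) x1 y1 ∧ ρ v1 = a ∧ ρ x1 = b ∧ ρ y1 = c ∧
      (v1 : S) * y1 = aeval (x1 : S) f := by
  induction hmv with
  | refl =>
    refine ⟨v', x', y', ?_, ha, hb, hc, ?_⟩
    · rw [hv, hx, hy]
      exact Mv.refl _ _ _
    · rw [hv, hx, hy, hrel]
  | swap h ih =>
    obtain ⟨v1, x1, y1, h1, h2, h3, h4, h5⟩ := ih
    exact ⟨y1, x1, v1, Mv.swap h1, h4, h3, h2, by rw [mul_comm, h5]⟩
  | @elem a b c q c' h e ih =>
    obtain ⟨v1, x1, y1, h1, h2, h3, h4, h5⟩ := ih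
    have hP1 := (mv_pres_gen hP0 h).1
    have ha0 : a ≠ 0 := hP1.v_ne_zero
    set w : Cx R v x y := aeval v1 q with hw
    have hwS : (w : S) = aeval (v1 : S) q := by
      rw [hw]
      exact (Subalgebra.aeval_coe _ _ _).symm
    have hwρ : ρ w = aeval a q := by
      rw [hw, ← h2, Polynomial.aeval_algHom_apply]
    -- the quotient
    obtain ⟨K, hK⟩ := sub_dvd_eval_sub (x1 + v1 * w) x1 (f.map (inR R v x y))
    rw [← eval₂_eq_eval_map, ← eval₂_eq_eval_map] at hK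
    have h6 : v1 * y1 = eval₂ (inR R v x y) x1 f := by
      apply Subtype.ext
      rw [coe_eval_inR]
      exact h5
    have h7 : v1 * (y1 + w * K) = eval₂ (inR R v x y) (x1 + v1 * w) f := by
      rw [sub_eq_iff_eq_add] at hK
      rw [hK, ← h6]
      ring
    have h8 : (v1 : S) * ((y1 + w * K : Cx R v x y) : S) =
        aeval ((x1 : S) + v1 * aeval (v1 : S) q) f := by
      have h9 := congrArg (fun z : Cx R v x y => (z : S)) h7
      simp only [coe_eval_inR] at h9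
      rw [← hwS]
      exact h9
    refine ⟨v1, x1 + v1 * w, y1 + w * K, ?_, h2, ?_, ?_, ?_⟩
    · have h10 := Mv.elem q ((y1 + w * K : Cx R v x y) : S) h1 h8
      have h11 : ((x1 + v1 * w : Cx R v x y) : S) = (x1 : S) + v1 * aeval (v1 : S) q := by
        rw [← hwS]
        rfl
      rw [h11]
      exact h10
    · rw [map_add, map_mul, h2, h3, hwρ]
    · have h12 := congrArg ρ h7
      rw [res_eval hF hR hf, map_mul, h2, map_add ρ x1, map_mul ρ v1, h2, h3, hwρ, ← e] at h12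
      exact mul_left_cancel₀ ha0 h12
    · have h11 : ((x1 + v1 * w : Cx R v x y) : S) = (x1 : S) + v1 * aeval (v1 : S) q := by
        rw [← hwS]
        rfl
      rw [h11]
      exact h8

end lift

/-- moves lift from `C / u C` to `C` -/
theorem mv_lift {k S : Type} [Field k] [CharZero k] [CommRing S] [IsDomain S] [Algebra k S]
    {R : Subalgebra k S} {u : R} {f : R[X]} {v x y : S}
    (hE : Env R u f v x y) {R0 T : Type} [CommRing R0] [IsDomain R0] [Algebra k R0]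
    [CommRing T] [IsDomain T] [Algebra k T]
    {ρ : Cx R v x y →ₐ[k] R0} {σ : S →ₐ[k] T} {π : R0 →ₐ[k] T} (hR : Red u (Cx R v x y) ρ σ π)
    {f0 : k[X]} (hf : ∀ i, (u : S) ∣ ((f.coeff i : R) : S) - algebraMap k S (f0.coeff i))
    (hn : f0.natDegree = f.natDegree) (v' x' y' : Cx R v x y) (hv : (v' : S) = v)
    (hx : (x' : S) = x) (hy : (y' : S) = y) (hP0 : Pres f0 (ρ v') (ρ x') (ρ y')) {a b c : R0}
    (hmv : Mv k f0 (ρ v') (ρ x') (ρ y') a b c) :
    ∃ v1 x1 y1 : Cx R v x y, Mv k f v x y (v1 : S) x1 y1 ∧ ρ v1 = a ∧ ρ x1 = b ∧ ρ y1 = c := by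
  obtain ⟨v1, x1, y1, h1, h2, h3, h4, -⟩ := mv_lift_aux hE.fr hE.pres.rel hR hf v' x' y' hv hx hy
    rfl rfl rfl hP0 hmv
  exact ⟨v1, x1, y1, h1, h2, h3, h4⟩

end Pool.Agent.LNDQ
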