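import Mathlib

/-!
# A multiplicity bound

`R` a domain whose localisation at `M` is `K[X]`, `P` a prime ideal disjoint from `M`; if
`q * g ∈ P ^ W` with `q ∉ P`, then `P` contains an element `p` with `W * deg p ≤ deg g`.
-/

set_option autoImplicit false

open Polynomial

namespace Pool.Agent.LNDQ

theorem mult_core {R K : Type*} [CommRing R] [IsDomain R] [Field K] [Algebra R K[X]]
    (M : Submonoid R) [IsLocalization M K[X]] (hM : ∀ a ∈ M, natDegree (algebraMap R K[X] a) = 0)
    (hM0 : ∀ a ∈ M, a ≠ 0) {P : Ideal R} (hP : P.IsPrime) (hd : ∀ a ∈ M, a ∉ P)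
    {q g : R} (hq : q ∉ P) (hg : g ≠ 0) {W : ℕ} (hW : 0 < W) (hqg : q * g ∈ P ^ W) :
    ∃ p ∈ P, p ≠ 0 ∧ 0 < natDegree (algebraMap R K[X] p) ∧
      W * natDegree (algebraMap R K[X] p) ≤ natDegree (algebraMap R K[X] g) := by
  classical
  have hMle : M ≤ nonZeroDivisors R := fun a ha => mem_nonZeroDivisors_of_ne_zero (hM0 a ha)
  have hinj : Function.Injective (algebraMap R K[X]) := IsLocalization.injective K[X] hMle
  have hdisj : Disjoint (M : Set R) (P : Set R) := Set.disjoint_left.2 hd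
  have hIp : (P.map (algebraMap R K[X])).IsPrime :=
    IsLocalization.isPrime_of_isPrime_disjoint M K[X] P hP hdisj
  set I : Ideal K[X] := P.map (algebraMap R K[X]) with hI
  obtain ⟨φ, hφ⟩ := (IsPrincipalIdealRing.principal I).principal
  have hφI : φ ∈ I := by
    rw [hφ]
    exact Submodule.mem_span_singleton_self φ
  have hmem : ∀ f, f ∈ I ↔ φ ∣ f := by
    intro f
    rw [hφ]
    exact Ideal.mem_span_singleton
  have hcontr : ∀ a : R, algebraMap R K[X] a ∈ I → a ∈ P := by
    intro a ha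
    have h1 := IsLocalization.under_map_of_isPrime_disjoint M K[X] hP hdisj
    rw [← h1]
    exact ha
  have hφ0 : φ ≠ 0 := by
    intro h0
    have h1 : P = ⊥ := by
      rw [eq_bot_iff]
      intro a ha
      have h2 : algebraMap R K[X] a ∈ I := Ideal.mem_map_of_mem _ ha
      rw [hmem, h0, zero_dvd_iff] at h2
      rw [Ideal.mem_bot]
      exact hinj (by rw [h2, map_zero])
    rw [h1] at hqg
    have h2 : (⊥ : Ideal R) ^ W = ⊥ := by
      rw [← Ideal.zero_eq_bot, zero_pow hW.ne']
    rw [h2, Ideal.mem_bot] at hqg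
    rcases mul_eq_zero.1 hqg with h3 | h3
    · exact hq (by rw [h3]; exact P.zero_mem)
    · exact hg h3
  have hφp : Prime φ := by
    rw [← Ideal.span_singleton_prime hφ0]
    have h1 : Ideal.span {φ} = I := hφ.symm
    rw [h1]
    exact hIp
  have hφq : ¬ φ ∣ algebraMap R K[X] q := fun h => hq (hcontr q ((hmem _).2 h))
  have hpow : φ ^ W ∣ algebraMap R K[X] (q * g) := by
    have h1 : algebraMap R K[X] (q * g) ∈ I ^ W := by
      rw [hI, ← Ideal.map_pow]
      exact Ideal.mem_map_of_mem _ hqg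
    have h2 : I ^ W = Ideal.span {φ ^ W} := by
      rw [← Ideal.span_singleton_pow]
      congr 1
    rw [h2, Ideal.mem_span_singleton] at h1
    exact h1
  rw [map_mul] at hpow
  have hpow2 : φ ^ W ∣ algebraMap R K[X] g := hφp.pow_dvd_of_dvd_mul_left W hφq hpow
  have hg0 : algebraMap R K[X] g ≠ 0 := fun h => hg (hinj (by rw [h, map_zero]))
  -- an element of `P` which is a multiple of `φ`
  obtain ⟨⟨a, b⟩, hab⟩ := (IsLocalization.mem_map_algebraMap_iff M K[X]).1 hφI
  simp only at hab
  have hb0 : algebraMap R K[X] (b : R) ≠ 0 := fun h =>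
    hM0 _ b.2 (hinj (by rw [h, map_zero]))
  have hdeg : natDegree (algebraMap R K[X] (a : R)) = natDegree φ := by
    rw [← hab, natDegree_mul hφ0 hb0, hM _ b.2, add_zero]
  have ha0 : (a : R) ≠ 0 := by
    intro h
    rw [h, map_zero] at hab
    exact mul_ne_zero hφ0 hb0 hab
  refine ⟨a, a.2, ha0, ?_, ?_⟩
  · rw [hdeg]
    exact Nat.pos_of_ne_zero fun h => by
      obtain ⟨c, hc⟩ := natDegree_eq_zero.1 h
      have hc0 : c ≠ 0 := by
        rintro rfl
        rw [map_zero] at hc
        exact hφ0 hc.symm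
      refine hφp.not_isUnit ?_
      rw [← hc]
      exact isUnit_C.2 (isUnit_iff_ne_zero.2 hc0)
  · rw [hdeg, ← natDegree_pow]
    exact natDegree_le_of_dvd hpow2 hg0

end Pool.Agent.LNDQ
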