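import Pool.Agent.LNDQ.Defs
import Pool.Agent.LNDQ.Intg
import Pool.Agent.LNDQ.Quo

/-!
# NN 2.7 (MULT), part `eps`: the exponents are superadditive
-/

set_option autoImplicit false

open Polynomial

namespace Pool.Agent.LNDQ

section bridge

variable {R S : Type} [CommRing R] [CommRing S] [Algebra R S]

/-- the two ways to say `degree < n` -/
theorem low_iff_bas (β : ℕ) (v x y : S) (n : ℕ) (z : S) :
    z ∈ Low R β v x y n ↔ Bas.Low R β v x y n z := by
  classical
  constructor
  · intro hz
    obtain ⟨c, rfl, hc⟩ := (mem_low_iff β v x y n z).1 hz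
    refine ⟨c, ?_⟩
    refine Finsupp.sum_of_support_subset c (s := Finset.range n) ?_ _ (fun i _ => by simp)
    intro i hi
    rw [Finset.mem_range]
    by_contra h
    exact (Finsupp.mem_support_iff.1 hi) (hc i (not_lt.1 h))
  · rintro ⟨p, rfl⟩
    refine Submodule.sum_mem _ fun i hi => ?_
    rw [mem_low_iff]
    refine ⟨Finsupp.single i (p i), ?_, fun j hj => ?_⟩
    · rw [Finsupp.sum_single_index (by simp)]
      rfl
    · have := Finset.mem_range.1 hi
      rw [Finsupp.single_apply, if_neg (by omega)]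

private theorem Pres.rl {f : R[X]} {v x y : S} (h : Pres f v x y) : Bas.Rl f f.natDegree v x y :=
  ⟨by have := h.deg; omega, h.monic, rfl, h.rel⟩

end bridge

section main

variable {k S : Type} [Field k] [CommRing S] [IsDomain S] [Algebra k S] {R : Subalgebra k S} {u : R}
  {f : R[X]} {v x y : S}

/-- products of leading terms -/
theorem nnLT_mul (hP : Pres f v x y) {i j a b : ℕ} {p q : R[X]} {z w : S}
    (hz : LT R u f.natDegree v x y i a p z) (hw : LT R u f.natDegree v x y j b q w) :
    LT R u f.natDegree v x y (i + j) (a + b)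
      (p * q * X ^ ((i + j) / f.natDegree - i / f.natDegree - j / f.natDegree)) (z * w) := by
  obtain ⟨t, ht⟩ := hz
  obtain ⟨t', ht'⟩ := hw
  rw [low_iff_bas] at ht ht'
  have h1 : Bas.LT R f.natDegree v x y i (C u ^ t * p) ((u : S) ^ (a + t) * z) := by
    have e : (u : S) ^ t * (aeval v p * bs f.natDegree x y i) =
        aeval v (C u ^ t * p) * Bas.e f.natDegree x y i := by
      rw [map_mul, map_pow, aeval_C, mul_assoc]
      rfl
    rw [Bas.LT, ← e]
    exact ht
  have h2 : Bas.LT R f.natDegree v x y j (C u ^ t' * q) ((u : S) ^ (b + t') * w) := by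
    have e : (u : S) ^ t' * (aeval v q * bs f.natDegree x y j) =
        aeval v (C u ^ t' * q) * Bas.e f.natDegree x y j := by
      rw [map_mul, map_pow, aeval_C, mul_assoc]
      rfl
    rw [Bas.LT, ← e]
    exact ht'
  have h3 := Bas.lt_mul hP.rl h1 h2
  refine ⟨t + t', ?_⟩
  rw [low_iff_bas]
  rw [Bas.LT] at h3
  have e1 : (u : S) ^ (a + b + (t + t')) * (z * w) =
      (u : S) ^ (a + t) * z * ((u : S) ^ (b + t') * w) := by
    ring
  have e2 : (u : S) ^ (t + t') * (aeval v (p * q *
        X ^ ((i + j) / f.natDegree - i / f.natDegree - j / f.natDegree)) *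
        bs f.natDegree x y (i + j)) =
      aeval v (C u ^ t * p * (C u ^ t' * q) *
        X ^ ((i + j) / f.natDegree - i / f.natDegree - j / f.natDegree)) *
        Bas.e f.natDegree x y (i + j) := by
    simp only [map_mul, map_pow, aeval_C, aeval_X]
    change (u : S) ^ (t + t') * _ = (u : S) ^ t * _ * ((u : S) ^ t' * _) * _ * _
    rw [pow_add]
    change _ * (_ * Bas.e f.natDegree x y (i + j)) = _
    ring
  rw [e1, e2]
  exact h3

theorem not_CX (hE : Env R u f v x y) : ¬ (C u : R[X]) ∣ X := by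
  intro hd
  have h1 := (C_dvd_iff_dvd_coeff u X).1 hd 1
  rw [coeff_X_one] at h1
  exact hE.fr.primeR.not_dvd_one h1

/-- the exponents are superadditive -/
theorem eps_add (hE : Env R u f v x y) {i j a b c : ℕ} (hi : IsEps R u f.natDegree v x y i a)
    (hj : IsEps R u f.natDegree v x y j b) (hij : IsEps R u f.natDegree v x y (i + j) c) :
    a + b ≤ c := by
  obtain ⟨z, p, hp, hz⟩ := hi.ex
  obtain ⟨w, q, hq, hw⟩ := hj.ex
  have hu := hE.fr.primeC
  have h1 := hij.max _ _ _ (nnLT_mul hE.pres hz hw)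
  set δ := (i + j) / f.natDegree - i / f.natDegree - j / f.natDegree
  have h2 : ¬ (C u : R[X]) ∣ p * q * X ^ δ := by
    intro h
    rcases hu.dvd_or_dvd h with h | h
    · rcases hu.dvd_or_dvd h with h | h
      · exact hp h
      · exact hq h
    · exact not_CX hE (hu.dvd_of_dvd_pow h)
  have h3 : (C u : R[X]) ^ (a + b) ∣ C u ^ c := hu.pow_dvd_of_dvd_mul_left _ h2 h1
  exact (pow_dvd_pow_iff hu.ne_zero hu.not_isUnit).1 h3

/-- the exponents are monotone -/
private theorem eps_mono (hE : Env R u f v x y) {i j a c : ℕ} (hij : i ≤ j)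
    (hi : IsEps R u f.natDegree v x y i a) (hj : IsEps R u f.natDegree v x y j c) : a ≤ c := by
  obtain ⟨b, hb⟩ := hE.eps (j - i)
  have hj' : IsEps R u f.natDegree v x y (i + (j - i)) c := by
    rwa [Nat.add_sub_cancel' hij]
  have := eps_add hE hi hb hj'
  omega

/-- an element with residue on the exceptional curve zero has a positive exponent -/
theorem eps_pos (_hE : Env R u f v x y) {b1 M : ℕ} (hM : IsEps R u f.natDegree v x y b1 M) {z : S}
    {a : R[X]} (ha : ¬ C u ∣ a) (hz : LT R u f.natDegree v x y b1 0 a z) (hu : (u : S) ∣ z) :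
    1 ≤ M := by
  obtain ⟨z', rfl⟩ := hu
  obtain ⟨t, ht⟩ := hz
  have h1 : LT R u f.natDegree v x y b1 1 a z' := by
    refine ⟨t, ?_⟩
    have e : (u : S) ^ (1 + t) * z' = (u : S) ^ (0 + t) * ((u : S) * z') := by ring
    rw [e]
    exact ht
  have h2 := hM.max _ _ _ h1
  by_contra h
  have h0 : M = 0 := by omega
  rw [h0, pow_zero, mul_one, pow_one] at h2
  exact ha h2

theorem eps_mul (hE : Env R u f v x y) {b1 M1 : ℕ} (hM1 : IsEps R u f.natDegree v x y b1 M1)
    (h : 1 ≤ M1) (j : ℕ) : ∀ M, IsEps R u f.natDegree v x y (j * b1) M → j ≤ M := by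
  induction j with
  | zero => intro M _; exact Nat.zero_le _
  | succ j ih =>
    intro M hM
    obtain ⟨M', hM'⟩ := hE.eps (j * b1)
    have h1 := ih M' hM'
    rw [Nat.succ_mul] at hM
    have h2 := eps_add hE hM' hM1 hM
    omega

/-- the exponents of the division element exclude it -/
theorem eps_contra (hE : Env R u f v x y) {N W W0 e b1 : ℕ} {G : S}
    (hG : GD R u f.natDegree v x y N W W0 e G) (he : 2 ≤ e) (h1 : 0 < b1) (h2 : W * b1 ≤ N)
    {M1 : ℕ} (hM1 : IsEps R u f.natDegree v x y b1 M1) (h : 1 ≤ M1) : False := by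
  have hW := hG.We
  obtain ⟨M, hM⟩ := hE.eps ((W - 1) * b1)
  have h3 := eps_mul hE hM1 h (W - 1) M hM
  have h4 : (W - 1) * b1 ≤ N - 1 := by
    have e1 : W * b1 = (W - 1) * b1 + b1 := by
      conv_lhs => rw [show W = (W - 1) + 1 by omega]
      rw [Nat.succ_mul]
    omega
  have h5 := eps_mono hE h4 hM hG.eps0
  omega

end main

end Pool.Agent.LNDQ
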