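import Pool.Agent.LNDQ.Defs
import Pool.Agent.LNDQ.Bas
import Pool.Agent.LNDQ.Intg

set_option autoImplicit false

/-!
Group NF + INTG of the first question of MP_821812: the exponents eps do not decrease, saturation.
A a domain, u prime in A, S an A-algebra which is a domain, e 0, e 1, .. a basis
over A of the subalgebra C of S; L n is the span of e i, i < n; G n the
elements s of S with u ^ N • s in L n for some N.
-/

namespace Pool.Agent.LNDQ
namespace Ig

variable {A S : Type*} [CommRing A] [CommRing S] [Algebra A S]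

/-- the span of the `e i` with `i < n` -/
def L (e : ℕ → S) (n : ℕ) : Submodule A S := Submodule.span A (e '' {i | i < n})

theorem L_mono (e : ℕ → S) {m n : ℕ} (h : m ≤ n) : (L e m : Submodule A S) ≤ L e n := by
  apply Submodule.span_mono
  rintro _ ⟨i, hi, rfl⟩
  exact ⟨i, lt_of_lt_of_le hi h, rfl⟩

theorem L_zero (e : ℕ → S) : (L e 0 : Submodule A S) = ⊥ := by
  unfold L
  have : (e '' {i | i < 0}) = ∅ := by ext z; simp
  rw [this, Submodule.span_empty]

theorem e_mem (e : ℕ → S) {i n : ℕ} (h : i < n) : e i ∈ (L e n : Submodule A S) :=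
  Submodule.subset_span ⟨i, h, rfl⟩

theorem L_succ (e : ℕ → S) (n : ℕ) {z : S} (hz : z ∈ (L e (n + 1) : Submodule A S)) :
    ∃ a : A, z - a • e n ∈ (L e n : Submodule A S) := by
  unfold L at hz
  induction hz using Submodule.span_induction with
  | mem z hz =>
    obtain ⟨i, hi, rfl⟩ := hz
    rcases Nat.lt_succ_iff_lt_or_eq.mp hi with h | h
    · exact ⟨0, by simpa using e_mem e h⟩
    · subst h
      exact ⟨1, by simp⟩
  | zero => exact ⟨0, by simp⟩
  | add z w _ _ hz hw =>
    obtain ⟨a, ha⟩ := hz
    obtain ⟨b, hb⟩ := hw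
    refine ⟨a + b, ?_⟩
    have := Submodule.add_mem _ ha hb
    convert this using 1
    rw [add_smul]; abel
  | smul c z _ hz =>
    obtain ⟨a, ha⟩ := hz
    refine ⟨c * a, ?_⟩
    have := Submodule.smul_mem _ c ha
    convert this using 1
    rw [smul_sub, mul_smul]

/-- `x * L n` lies in `L (n + 1)` -/
theorem x_mul (e : ℕ → S) (x : S) (ξ : ℕ → A)
    (hxe : ∀ n, x * e n - ξ n • e (n + 1) ∈ (L e (n + 1) : Submodule A S)) {n : ℕ} {z : S}
    (hz : z ∈ (L e n : Submodule A S)) : x * z ∈ (L e (n + 1) : Submodule A S) := by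
  unfold L at hz
  induction hz using Submodule.span_induction with
  | mem z hz =>
    obtain ⟨i, hi, rfl⟩ := hz
    have h1 := hxe i
    have h2 : x * e i = (x * e i - ξ i • e (i + 1)) + ξ i • e (i + 1) := by abel
    rw [h2]
    refine Submodule.add_mem _ (L_mono e (by simp at hi; omega) h1) ?_
    exact Submodule.smul_mem _ _ (e_mem e (by simp at hi; omega))
  | zero => simp
  | add z w _ _ hz hw => rw [mul_add]; exact Submodule.add_mem _ hz hw
  | smul c z _ hz => rw [mul_smul_comm]; exact Submodule.smul_mem _ _ hz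

/-- `s` of degree `< n` after a power of `u` -/
def G (u : A) (e : ℕ → S) (n : ℕ) (s : S) : Prop :=
  ∃ N : ℕ, u ^ N • s ∈ (L e n : Submodule A S)

theorem pow_dvd_of {u : A} [IsDomain A] (hu : Prime u) {N : ℕ} {a d : A} (hd : ¬ u ∣ d)
    (h : u ^ N ∣ d * a) : u ^ N ∣ a := by
  exact (hu.pow_dvd_of_dvd_mul_left N hd h)

/-- saturation: `C` is the span of all `e i` -/
theorem sat [IsDomain A] [IsDomain S] [Module.IsTorsionFree A S] {u : A} (hu : Prime u)
    {e : ℕ → S} (he : LinearIndependent A e) {t : S} {N : ℕ} {d : A}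
    (h1 : u ^ N • t ∈ Submodule.span A (Set.range e)) (hd : ¬ u ∣ d)
    (h2 : d • t ∈ Submodule.span A (Set.range e)) : t ∈ Submodule.span A (Set.range e) := by
  rw [Finsupp.mem_span_range_iff_exists_finsupp] at h1 h2
  obtain ⟨a, ha⟩ := h1
  obtain ⟨b, hb⟩ := h2
  have hab : d • a = u ^ N • b := by
    apply he
    rw [map_smul, map_smul]
    rw [Finsupp.linearCombination_apply, Finsupp.linearCombination_apply, ha, hb,
      smul_smul, smul_smul, mul_comm]
  have hdiv : ∀ i, u ^ N ∣ a i := by
    intro i
    apply pow_dvd_of hu hd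
    have := DFunLike.congr_fun hab i
    simp only [Finsupp.smul_apply, smul_eq_mul] at this
    exact ⟨b i, this⟩
  choose c hc using hdiv
  have hkey : u ^ N • t = u ^ N • (∑ i ∈ a.support, c i • e i) := by
    rw [← ha, Finsupp.sum, Finset.smul_sum]
    refine Finset.sum_congr rfl fun i _ => ?_
    rw [smul_smul, ← hc i]
  have hne : u ^ N ≠ 0 := pow_ne_zero _ hu.ne_zero
  have := smul_right_injective S hne hkey
  rw [this]
  exact Submodule.sum_mem _ fun i _ =>
    Submodule.smul_mem _ _ (Submodule.subset_span ⟨i, rfl⟩)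

/-- `eps (n - 1)` -/
def pe (eps : ℕ → ℕ) : ℕ → ℕ
  | 0 => 0
  | (n + 1) => eps n

section
variable [IsDomain A] [IsDomain S] [Module.IsTorsionFree A S]
variable {u : A} (hu : Prime u) (e : ℕ → S) (x : S) (ξ : ℕ → A) (hξ : ∀ n, ¬ u ∣ ξ n)
    (hxe : ∀ n, x * e n - ξ n • e (n + 1) ∈ (L e (n + 1) : Submodule A S))
    (eps : ℕ → ℕ)
    (hE1 : ∀ n s N (a : A), u ^ N • s - a • e n ∈ (L e n : Submodule A S) →
      u ^ N ∣ u ^ eps n * a)
    (hE2 : ∀ n, ∃ q : S, ∃ M : ℕ, ∃ m : A, ¬ u ∣ m ∧
      u ^ (M + eps n) • q - (u ^ M * m) • e n ∈ (L e n : Submodule A S))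

include hu hξ hxe hE1 hE2

omit [IsDomain S] [Module.IsTorsionFree A S] in
theorem eps_mono (m : ℕ) : eps m ≤ eps (m + 1) := by
  obtain ⟨q, M, μ, hμ, hq⟩ := hE2 m
  have h1 := x_mul e x ξ hxe hq
  have h2 : u ^ (M + eps m) • (x * q) - (u ^ M * μ * ξ m) • e (m + 1) ∈
      (L e (m + 1) : Submodule A S) := by
    have h3 := Submodule.smul_mem _ (u ^ M * μ) (hxe m)
    have := Submodule.add_mem _ h1 h3
    convert this using 1
    rw [mul_sub, mul_smul_comm, mul_smul_comm, smul_sub, smul_smul]
    abel
  have h4 := hE1 (m + 1) _ _ _ h2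
  have h5 : u ^ M * u ^ eps m ∣ u ^ M * (μ * ξ m * u ^ eps (m + 1)) := by
    rw [← pow_add]
    convert h4 using 1
    ring
  have h6 := (mul_dvd_mul_iff_left (pow_ne_zero M hu.ne_zero)).mp h5
  have h7 : u ^ eps m ∣ u ^ eps (m + 1) := by
    apply pow_dvd_of hu _ h6
    intro h
    rcases hu.dvd_or_dvd h with h | h
    · exact hμ h
    · exact hξ m h
  exact (pow_dvd_pow_iff hu.ne_zero hu.not_isUnit).mp h7

omit [IsDomain S] in
theorem main {C : Submodule A S} (hx : ∀ z ∈ C, x * z ∈ C) (heC : ∀ n, e n ∈ C) (n : ℕ) :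
    ∀ s, G u e n s → ∃ d : A, ¬ u ∣ d ∧ (d * u ^ pe eps n) • s ∈ C := by
  have hmono := eps_mono hu e x ξ hξ hxe eps hE1 hE2
  have hne : ∀ k : ℕ, u ^ k ≠ 0 := fun k => pow_ne_zero _ hu.ne_zero
  have hmul : ∀ a b : A, ¬ u ∣ a → ¬ u ∣ b → ¬ u ∣ a * b := by
    intro a b ha hb h
    rcases hu.dvd_or_dvd h with h | h
    · exact ha h
    · exact hb h
  induction n with
  | zero =>
    rintro s ⟨N, hN⟩
    rw [L_zero, Submodule.mem_bot] at hN
    refine ⟨1, fun h => hu.not_isUnit (isUnit_of_dvd_one h), ?_⟩
    have : s = 0 := by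
      rcases smul_eq_zero.mp hN with h | h
      · exact absurd h (hne N)
      · exact h
    rw [this, smul_zero]
    exact C.zero_mem
  | succ n ih =>
    -- the element `q n`
    obtain ⟨q, M, μ, hμ, hq⟩ := hE2 n
    have hqC : ∃ d : A, ¬ u ∣ d ∧ (d * u ^ eps n) • q ∈ C := by
      rcases n with _ | m
      · refine ⟨1, fun h => hu.not_isUnit (isUnit_of_dvd_one h), ?_⟩
        rw [L_zero, Submodule.mem_bot, pow_add, mul_smul, mul_smul, ← smul_sub] at hq
        rcases smul_eq_zero.mp hq with h | h
        · exact absurd h (hne M)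
        · rw [one_mul, sub_eq_zero.mp h]
          exact C.smul_mem _ (heC 0)
      · obtain ⟨r, M', ν, hν, hr⟩ := hE2 m
        have hrG : G u e (m + 1) r := by
          refine ⟨M' + eps m, ?_⟩
          have h1 := L_mono e (Nat.le_succ m) hr
          have h2 : (u ^ M' * ν) • e m ∈ (L e (m + 1) : Submodule A S) :=
            Submodule.smul_mem _ _ (e_mem e (Nat.lt_succ_self m))
          have := Submodule.add_mem _ h1 h2
          rwa [sub_add_cancel] at this
        obtain ⟨d₂, hd₂, hd₂C⟩ := ih r hrG
        -- lc of x * r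
        have h1 := x_mul e x ξ hxe hr
        have h2 : u ^ (M' + eps m) • (x * r) - (u ^ M' * ν * ξ m) • e (m + 1) ∈
            (L e (m + 1) : Submodule A S) := by
          have h3 := Submodule.smul_mem _ (u ^ M' * ν) (hxe m)
          have := Submodule.add_mem _ h1 h3
          convert this using 1
          rw [mul_sub, mul_smul_comm, mul_smul_comm, smul_sub, smul_smul]
          abel
        obtain ⟨k, hk⟩ := Nat.exists_eq_add_of_le (hmono m)
        have htG : G u e (m + 1) ((ν * ξ m * u ^ k) • q - μ • (x * r)) := by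
          refine ⟨M + M' + eps (m + 1) + eps m, ?_⟩
          have h3 := Submodule.smul_mem _ (ν * ξ m * u ^ k * u ^ (M' + eps m)) hq
          have h4 := Submodule.smul_mem _ (μ * u ^ (M + eps (m + 1))) h2
          have := Submodule.sub_mem _ h3 h4
          convert this using 1
          rw [hk]
          module
        obtain ⟨d₁, hd₁, hd₁C⟩ := ih _ htG
        refine ⟨d₁ * d₂ * (ν * ξ m), hmul _ _ (hmul _ _ hd₁ hd₂) (hmul _ _ hν (hξ m)), ?_⟩
        have h5 := C.smul_mem d₂ hd₁C
        have h6 := C.smul_mem (d₁ * μ) (hx _ hd₂C)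
        have := C.add_mem h5 h6
        convert this using 1
        rw [hk, mul_smul_comm]
        change _ = d₂ • (d₁ * u ^ eps m) • ((ν * ξ m * u ^ k) • q - μ • (x * r)) +
          (d₁ * μ) • (d₂ * u ^ eps m) • (x * r)
        module
    rintro s ⟨N, hN⟩
    obtain ⟨a, ha⟩ := L_succ e n hN
    obtain ⟨b, hb⟩ := hE1 n s N a ha
    obtain ⟨d₂, hd₂, hd₂C⟩ := hqC
    have htG : G u e n (μ • s - b • q) := by
      refine ⟨N + M + eps n, ?_⟩
      have h3 := Submodule.smul_mem _ (μ * u ^ (M + eps n)) ha
      have h4 := Submodule.smul_mem _ (b * u ^ N) hq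
      have := Submodule.sub_mem _ h3 h4
      convert this using 1
      have h7 : (μ * u ^ (M + eps n)) • a • e n = (b * u ^ N) • (u ^ M * μ) • e n := by
        rw [smul_smul, smul_smul]
        congr 1
        linear_combination (μ * u ^ M) * hb
      rw [smul_sub, smul_sub, h7]
      module
    obtain ⟨d₁, hd₁, hd₁C⟩ := ih _ htG
    have hd₁C' : (d₁ * u ^ eps n) • (μ • s - b • q) ∈ C := by
      rcases n with _ | m
      · have := C.smul_mem (u ^ eps 0) hd₁C
        convert this using 1
        change _ = u ^ eps 0 • (d₁ * u ^ 0) • _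
        module
      · obtain ⟨k, hk⟩ := Nat.exists_eq_add_of_le (hmono m)
        have := C.smul_mem (u ^ k) hd₁C
        convert this using 1
        change _ = u ^ k • (d₁ * u ^ eps m) • _
        rw [hk]
        module
    refine ⟨d₁ * d₂ * μ, hmul _ _ (hmul _ _ hd₁ hd₂) hμ, ?_⟩
    have h5 := C.smul_mem d₂ hd₁C'
    have h6 := C.smul_mem (d₁ * b) hd₂C
    have := C.add_mem h5 h6
    convert this using 1
    change (d₁ * d₂ * μ * u ^ eps n) • s = _
    module

/-- INTG, abstract form -/
theorem intg (he : LinearIndependent A e)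
    (hx : ∀ z ∈ Submodule.span A (Set.range e), x * z ∈ Submodule.span A (Set.range e))
    {n : ℕ} {s : S} {N : ℕ} (hs : u ^ N • s ∈ (L e (n + 1) : Submodule A S)) :
    u ^ eps n • s ∈ Submodule.span A (Set.range e) := by
  obtain ⟨d, hd, hdC⟩ := main hu e x ξ hξ hxe eps hE1 hE2 (C := Submodule.span A (Set.range e))
    hx (fun n => Submodule.subset_span ⟨n, rfl⟩) (n + 1) s ⟨N, hs⟩
  refine sat hu he (N := N) (d := d) ?_ hd ?_
  · rw [smul_smul, mul_comm, mul_smul]
    refine Submodule.smul_mem _ _ ?_
    refine Submodule.span_mono ?_ hs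
    rintro _ ⟨i, _, rfl⟩
    exact ⟨i, rfl⟩
  · rw [smul_smul]
    exact hdC

end

end Ig

open Polynomial

namespace IB

section bas

variable {R S : Type} [CommRing R] [CommRing S] [Algebra R S] {β : ℕ} {v x y : S}

/-- `v` maps `Low n` to itself -/
theorem low_v {n : ℕ} {z : S} (hz : z ∈ Low R β v x y n) : v * z ∈ Low R β v x y n := by
  unfold Low at hz
  induction hz using Submodule.span_induction with
  | mem z hz =>
    obtain ⟨i, j, hj, rfl⟩ := hz
    refine Submodule.subset_span ⟨i + 1, j, hj, ?_⟩
    ring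
  | zero => simp
  | add z w _ _ hz hw => rw [mul_add]; exact Submodule.add_mem _ hz hw
  | smul c z _ hz => rw [mul_smul_comm]; exact Submodule.smul_mem _ _ hz

/-- `R[v]` maps `Low n` to itself -/
theorem low_smul {n : ℕ} {z : S} (a : R[X]) (hz : z ∈ Low R β v x y n) :
    aeval v a * z ∈ Low R β v x y n := by
  induction a using Polynomial.induction_on' with
  | add p q hp hq => rw [map_add, add_mul]; exact Submodule.add_mem _ hp hq
  | monomial i r =>
    rw [aeval_monomial, mul_assoc, ← Algebra.smul_def]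
    refine Submodule.smul_mem _ r ?_
    induction i with
    | zero => simpa using hz
    | succ i ih =>
      rw [pow_succ', mul_assoc]
      exact low_v ih

theorem low_mono {m n : ℕ} (h : m ≤ n) : Low R β v x y m ≤ Low R β v x y n := by
  apply Submodule.span_mono
  rintro _ ⟨i, j, hj, rfl⟩
  exact ⟨i, j, lt_of_lt_of_le hj h, rfl⟩

theorem bs_mem {i n : ℕ} (h : i < n) : bs β x y i ∈ Low R β v x y n :=
  Submodule.subset_span ⟨0, i, h, by simp⟩

/-- `S` as an algebra over `R[v]` -/
@[reducible] noncomputable def avAlg (v : S) : Algebra R[X] S := (aeval v : R[X] →ₐ[R] S).toRingHom.toAlgebra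

theorem av_smul (v : S) (a : R[X]) (z : S) :
    (letI := avAlg (R := R) v; a • z) = aeval v a * z := rfl

theorem low_iff {n : ℕ} {z : S} : z ∈ Low R β v x y n ↔
    (letI := avAlg (R := R) v; z ∈ (Ig.L (A := R[X]) (bs β x y) n)) := by
  let _ := avAlg (R := R) v
  constructor
  · intro hz
    unfold Low at hz
    induction hz using Submodule.span_induction with
    | mem z hz =>
      obtain ⟨i, j, hj, rfl⟩ := hz
      have h := Submodule.smul_mem _ (X ^ i : R[X]) (Ig.e_mem (A := R[X]) (bs β x y) hj)
      rw [av_smul, map_pow, aeval_X] at h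
      exact h
    | zero => exact Submodule.zero_mem _
    | add z w _ _ hz hw => exact Submodule.add_mem _ hz hw
    | smul c z _ hz =>
      have h := Submodule.smul_mem _ (C c : R[X]) hz
      rw [av_smul, aeval_C, ← Algebra.smul_def] at h
      exact h
  · intro hz
    unfold Ig.L at hz
    induction hz using Submodule.span_induction with
    | mem z hz =>
      obtain ⟨j, hj, rfl⟩ := hz
      exact bs_mem hj
    | zero => exact Submodule.zero_mem _
    | add z w _ _ hz hw => exact Submodule.add_mem _ hz hw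
    | smul c z _ hz =>
      rw [av_smul]
      exact low_smul c hz

/-- the leading coefficient -/
theorem low_succ {m : ℕ} {z : S} (hz : z ∈ Low R β v x y (m + 1)) :
    ∃ a : R[X], z - aeval v a * bs β x y m ∈ Low R β v x y m := by
  let _ := avAlg (R := R) v
  obtain ⟨a, ha⟩ := Ig.L_succ (A := R[X]) (bs β x y) m (low_iff.mp hz)
  exact ⟨a, low_iff.mpr ha⟩

/-- the factor of the leading coefficient under multiplication with `x` -/
noncomputable def xi (R : Type) [CommRing R] (β n : ℕ) : R[X] := if β ∣ n + 1 then X else 1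

/-- multiplication with `x` on the basis -/
theorem x_bs {f : R[X]} (hf : f.Monic) (hβ : f.natDegree = β) (h0 : 0 < β) (hr : v * y = aeval x f) (n : ℕ) :
    x * bs β x y n - aeval v (xi R β n) * bs β x y (n + 1) ∈ Low R β v x y (n + 1) := by
  have hmod := Nat.mod_lt n h0
  by_cases h : β ∣ n + 1
  · have hxi : xi R β n = X := by unfold xi; rw [if_pos h]
    obtain ⟨c, hc⟩ := h
    have h1 : n % β + 1 = β := by
      have h2 := Nat.mod_add_div n β
      have h3 : β ∣ n % β + 1 := by
        have h4 : n % β + 1 + β * (n / β) = β * c := by omega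
        exact (Nat.dvd_add_left (Dvd.intro _ rfl)).mp (h4 ▸ Dvd.intro _ rfl)
      exact le_antisymm hmod (Nat.le_of_dvd (Nat.succ_pos _) h3)
    have h2 : n / β + 1 = c := by
      have h3 := Nat.mod_add_div n β
      have h4 : β * (n / β + 1) = β * c := by rw [mul_add, mul_one]; omega
      exact Nat.eq_of_mul_eq_mul_left h0 h4
    have h5 : (n + 1) % β = 0 := by rw [hc]; exact Nat.mul_mod_right β c
    have h6 : (n + 1) / β = n / β + 1 := by rw [hc, h2]; exact Nat.mul_div_cancel_left c h0
    rw [hxi, aeval_X]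
    have h7 : x * bs β x y n - v * bs β x y (n + 1) = (x ^ β - aeval x f) * y ^ (n / β) := by
      unfold bs
      rw [h5, h6, ← hr]
      have : x * (x ^ (n % β) * y ^ (n / β)) = x ^ (n % β + 1) * y ^ (n / β) := by ring
      rw [this, h1]
      ring
    rw [h7]
    have h8 : x ^ β - aeval x f = - ∑ i ∈ Finset.range β, (f.coeff i) • x ^ i := by
      rw [aeval_eq_sum_range, hβ, Finset.sum_range_succ, ← hβ, hf.coeff_natDegree, hβ, one_smul]
      ring
    rw [h8, neg_mul, Finset.sum_mul]
    refine Submodule.neg_mem _ (Submodule.sum_mem _ fun i hi => ?_)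
    rw [smul_mul_assoc]
    refine Submodule.smul_mem _ _ ?_
    have hi' := Finset.mem_range.mp hi
    have h9 : x ^ i * y ^ (n / β) = bs β x y (i + β * (n / β)) := by
      unfold bs
      rw [Nat.add_mul_mod_self_left, Nat.mod_eq_of_lt hi', Nat.add_mul_div_left _ _ h0,
        Nat.div_eq_of_lt hi', zero_add]
    rw [h9]
    apply bs_mem
    have := Nat.mod_add_div n β
    omega
  · have hxi : xi R β n = 1 := by unfold xi; rw [if_neg h]
    have h1 : n % β + 1 < β := by
      rcases Nat.lt_or_ge (n % β + 1) β with h2 | h2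
      · exact h2
      · exfalso
        apply h
        have h3 := Nat.mod_add_div n β
        refine ⟨n / β + 1, ?_⟩
        rw [mul_add, mul_one]
        omega
    have h2 : (n + 1) % β = n % β + 1 := by
      rw [Nat.add_mod, Nat.mod_eq_of_lt (show 1 < β by omega), Nat.mod_eq_of_lt h1]
    have h3 : (n + 1) / β = n / β := by
      have h4 := Nat.mod_add_div n β
      have h5 := Nat.mod_add_div (n + 1) β
      rw [h2] at h5
      have h6 : β * ((n + 1) / β) = β * (n / β) := by omega
      exact Nat.eq_of_mul_eq_mul_left h0 h6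
    rw [hxi, map_one, one_mul]
    have h4 : x * bs β x y n - bs β x y (n + 1) = 0 := by
      unfold bs
      rw [h2, h3]
      ring
    rw [h4]
    exact Submodule.zero_mem _

/-- the element in Defs and the element in Bas -/
theorem bs_eq (n : ℕ) : bs β x y n = Bas.e β x y n := rfl

/-- `Low` of Defs is `Low` of Bas -/
theorem low_bas {n : ℕ} {z : S} : z ∈ Low R β v x y n ↔ Bas.Low R β v x y n z := by
  constructor
  · intro hz
    unfold Low at hz
    induction hz using Submodule.span_induction with
    | mem z hz =>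
      obtain ⟨i, j, hj, rfl⟩ := hz
      exact (Bas.low_e hj).v_pow i
    | zero => exact Bas.low_zero n
    | add z w _ _ hz hw => exact hz.add hw
    | smul c z _ hz =>
      have := hz.C_smul c
      rwa [← Algebra.smul_def] at this
  · rintro ⟨p, rfl⟩
    exact Submodule.sum_mem _ fun i hi =>
      low_smul (p i) (bs_mem (Finset.mem_range.1 hi))

theorem ind_of (h : AlgebraicIndependent R ![v, x]) : Bas.Ind R v x := by
  intro P hP
  have h1 : ∀ p : R[X][X], p.eval₂ (aeval v : R[X] →ₐ[R] S).toRingHom x = MvPolynomial.aeval ![v, x]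
      (eval₂ ((aeval (MvPolynomial.X 0) : R[X] →ₐ[R] MvPolynomial (Fin 2) R) :
      R[X] →+* MvPolynomial (Fin 2) R) (MvPolynomial.X 1) p) := by
    intro p
    induction p using Polynomial.induction_on' with
    | add p q hp hq => rw [eval₂_add, hp, hq, eval₂_add, map_add]
    | monomial n q =>
      rw [eval₂_monomial, eval₂_monomial, map_mul, map_pow, MvPolynomial.aeval_X]
      congr 1
      show aeval v q = MvPolynomial.aeval ![v, x] (aeval (MvPolynomial.X 0 : MvPolynomial (Fin 2) R) q)
      rw [← aeval_algHom_apply, MvPolynomial.aeval_X]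
      rfl
  have h2 : Function.Injective (eval₂ ((aeval (MvPolynomial.X 0) : R[X] →ₐ[R] MvPolynomial (Fin 2) R) :
      R[X] →+* MvPolynomial (Fin 2) R) (MvPolynomial.X 1)) := by
    refine Function.LeftInverse.injective (g := fun P => MvPolynomial.aeval (![C X, X] : Fin 2 → R[X][X]) P) fun p => ?_
    show MvPolynomial.aeval (![C X, X] : Fin 2 → R[X][X]) _ = p
    induction p using Polynomial.induction_on' with
    | add p q hp hq => rw [eval₂_add, map_add, hp, hq]
    | monomial n q =>
      rw [eval₂_monomial, map_mul, map_pow, MvPolynomial.aeval_X]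
      show MvPolynomial.aeval (![C X, X] : Fin 2 → R[X][X]) (aeval (MvPolynomial.X 0 : MvPolynomial (Fin 2) R) q) * X ^ n = _
      rw [← aeval_algHom_apply, MvPolynomial.aeval_X, ← C_mul_X_pow_eq_monomial]
      congr 1
      show aeval (C X : R[X][X]) q = C q
      induction q using Polynomial.induction_on' with
      | add p q hp hq => rw [map_add, hp, hq, C_add]
      | monomial n a =>
        rw [aeval_monomial, ← C_mul_X_pow_eq_monomial, C_mul, C_pow]
        rfl
  rw [h1] at hP
  have h3 := h (hP.trans (map_zero _).symm)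
  apply h2
  rw [h3, eval₂_zero]

theorem rl {f : R[X]} (h : Pres f v x y) : Bas.Rl f f.natDegree v x y :=
  ⟨lt_of_lt_of_le two_pos h.deg, h.monic, rfl, h.rel⟩

theorem bInd {f : R[X]} (h : Pres f v x y) : Bas.Ind R v x := ind_of h.ind

/-- linear independence of the basis over `R[v]` -/
theorem li {f : R[X]} (h : Pres f v x y) :
    (let _ := avAlg (R := R) v; LinearIndependent R[X] (bs f.natDegree x y)) := by
  let _ := avAlg (R := R) v
  show LinearIndependent R[X] (bs f.natDegree x y)
  rw [linearIndependent_iff']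
  intro s g hg i hi
  classical
  obtain ⟨n, hn⟩ : ∃ n, s ⊆ Finset.range n := s.exists_nat_subset_range
  have h1 : ∑ i ∈ Finset.range n, aeval v (if i ∈ s then g i else 0) * Bas.e f.natDegree x y i = 0 := by
    rw [← hg, ← Finset.sum_subset hn]
    · refine Finset.sum_congr rfl fun j hj => ?_
      rw [if_pos hj, av_smul, bs_eq]
    · intro j _ hj
      rw [if_neg hj, map_zero, zero_mul]
  have := Bas.uniq (rl h) (bInd h) h1 i (Finset.mem_range.1 (hn hi))
  rwa [if_pos hi] at this

end bas

section env

variable {k S : Type} [Field k] [CommRing S] [IsDomain S] [Algebra k S] {R : Subalgebra k S} {u : R} {f : R[X]}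
  {v x y : S}

theorem eps_le {β n M M' : ℕ} (h : Fr R u) (h1 : IsEps R u β v x y n M) (h2 : IsEps R u β v x y n M') :
    M ≤ M' := by
  obtain ⟨z, a, ha, hz⟩ := h1.ex
  have h3 := h2.max z M a hz
  have h4 : (C u : R[X]) ^ M ∣ C u ^ M' := by
    have := h.primeC.pow_dvd_of_dvd_mul_left M ha h3
    exact this
  exact (pow_dvd_pow_iff h.primeC.ne_zero h.primeC.not_isUnit).mp h4

theorem eps_unique {β n M M' : ℕ} (h : Fr R u) (h1 : IsEps R u β v x y n M)
    (h2 : IsEps R u β v x y n M') : M = M' :=
  le_antisymm (eps_le h h1 h2) (eps_le h h2 h1)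

omit [IsDomain S] in
/-- an element of degree `≤ n` has a leading coefficient -/
theorem fl_exists_lt {β n : ℕ} {z : S} (hz : Fl R u β v x y (n + 1) z) : ∃ m a, LT R u β v x y n m a z := by
  obtain ⟨m, hm⟩ := hz
  obtain ⟨a, ha⟩ := low_succ hm
  exact ⟨m, a, 0, by simpa using ha⟩

theorem env_tf (h : Env R u f v x y) :
    (let _ := avAlg (R := R) v; Module.IsTorsionFree R[X] S) := by
  let _ := avAlg (R := R) v
  show Module.IsTorsionFree R[X] S
  refine ⟨fun a ha z w hzw => ?_⟩
  have h1 : aeval v a * z = aeval v a * w := hzw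
  refine mul_left_cancel₀ ?_ h1
  intro h0
  have h2 := (bInd h.pres) (C a) (by rw [eval₂_C]; exact h0)
  have h3 : a = 0 := by simpa using h2
  have _ : Nontrivial R := ⟨⟨u, 0, h.fr.primeR.ne_zero⟩⟩
  exact ha.ne_zero h3

theorem xi_not_dvd (h : Fr R u) (β n : ℕ) : ¬ (C u : R[X]) ∣ xi R β n := by
  unfold xi
  split_ifs
  · intro hd
    have := (Polynomial.C_dvd_iff_dvd_coeff u X).mp hd 1
    rw [coeff_X_one] at this
    exact h.primeR.not_isUnit (isUnit_of_dvd_one this)
  · intro hd
    exact h.primeC.not_isUnit (isUnit_of_dvd_one hd)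

omit [IsDomain S] in
/-- the choice of the exponents satisfies the hypotheses of Ig -/
theorem intg_e1 {n M : ℕ} (hM : IsEps R u f.natDegree v x y n M) :
    (let _ := avAlg (R := R) v; ∀ (s : S) (N : ℕ) (a : R[X]),
      (C u : R[X]) ^ N • s - a • bs f.natDegree x y n ∈ Ig.L (A := R[X]) (bs f.natDegree x y) n →
      (C u : R[X]) ^ N ∣ C u ^ M * a) := by
  intro _ s N a hs
  rw [mul_comm]
  refine hM.max s N a ⟨0, ?_⟩
  rw [low_iff]
  convert hs using 1
  rw [av_smul, av_smul, map_pow, aeval_C, add_zero, pow_zero, one_mul]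
  rfl

omit [IsDomain S] in
theorem intg_e2 {n M : ℕ} (hM : IsEps R u f.natDegree v x y n M) :
    (let _ := avAlg (R := R) v; ∃ (q : S) (t : ℕ) (m : R[X]), ¬ (C u : R[X]) ∣ m ∧
      (C u : R[X]) ^ (t + M) • q - (C u ^ t * m) • bs f.natDegree x y n ∈
        Ig.L (A := R[X]) (bs f.natDegree x y) n) := by
  intro _
  obtain ⟨z, a, ha, t, ht⟩ := hM.ex
  refine ⟨z, t, a, ha, ?_⟩
  rw [← low_iff]
  convert ht using 1
  rw [av_smul, av_smul, map_pow, aeval_C, map_mul, map_pow, aeval_C, add_comm M t, mul_assoc]
  rfl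

omit [IsDomain S] in
/-- the elements of `C` are the combinations over `R[v]` of the basis -/
theorem span_range_cx (hP : Pres f v x y) {z : S} :
    (let _ := avAlg (R := R) v; z ∈ Submodule.span R[X] (Set.range (bs f.natDegree x y)) ↔
      z ∈ Cx R v x y) := by
  intro _
  constructor
  · intro hz
    have hv : v ∈ Algebra.adjoin R ({v, x, y} : Set S) := Algebra.subset_adjoin (by simp)
    have hx : x ∈ Algebra.adjoin R ({v, x, y} : Set S) := Algebra.subset_adjoin (by simp)
    have hy : y ∈ Algebra.adjoin R ({v, x, y} : Set S) := Algebra.subset_adjoin (by simp)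
    show z ∈ Algebra.adjoin R ({v, x, y} : Set S)
    induction hz using Submodule.span_induction with
    | mem z hz =>
      obtain ⟨n, rfl⟩ := hz
      exact mul_mem (pow_mem hx _) (pow_mem hy _)
    | zero => exact zero_mem _
    | add z w _ _ hz hw => exact add_mem hz hw
    | smul c z _ hz =>
      rw [av_smul]
      refine mul_mem ?_ hz
      have h1 : aeval v c = aeval (⟨v, hv⟩ : Algebra.adjoin R ({v, x, y} : Set S)) c := by
        rw [← Subalgebra.coe_val, ← aeval_algHom_apply]
        rfl
      rw [h1]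
      exact SetLike.coe_mem _
  · intro hz
    obtain ⟨n, hn⟩ := Bas.exists_low (rl hP) (show z ∈ Algebra.adjoin R ({v, x, y} : Set S) from hz)
    have h1 := low_iff.mp (low_bas.mpr hn)
    exact Submodule.span_mono (Set.image_subset_range _ _) h1

end env

end IB

open IB

section env

variable {k S : Type} [Field k] [CommRing S] [IsDomain S] [Algebra k S] {R : Subalgebra k S} {u : R} {f : R[X]}
  {v x y : S}

/-- an element of `C` of degree `< n` after a power of `u` is in `Low n` -/
theorem low_sat (hE : Env R u f v x y) {n m : ℕ} {z : S}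
    (h : (u : S) ^ m * z ∈ Low R f.natDegree v x y n) (hz : z ∈ Cx R v x y) :
    z ∈ Low R f.natDegree v x y n := by
  obtain ⟨N, hN⟩ := Bas.exists_low (rl hE.pres)
    (show z ∈ Algebra.adjoin R ({v, x, y} : Set S) from hz)
  induction N with
  | zero => exact low_mono (Nat.zero_le _) (low_bas.mpr hN)
  | succ N ih =>
    rcases Nat.lt_or_ge N n with h1 | h1
    · exact low_mono h1 (low_bas.mpr hN)
    · obtain ⟨a, ha⟩ := low_succ (low_bas.mpr hN)
      have h2 : (u : S) ^ m * z ∈ Low R f.natDegree v x y N := low_mono h1 h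
      have h3 : (u : S) ^ m * (z - aeval v a * bs f.natDegree x y N) ∈
          Low R f.natDegree v x y N := by
        have := low_smul (C u ^ m : R[X]) ha
        rw [map_pow, aeval_C] at this
        exact this
      have h4 : aeval v (C u ^ m * a) * bs f.natDegree x y N ∈ Low R f.natDegree v x y N := by
        have := Submodule.sub_mem _ h2 h3
        convert this using 1
        rw [map_mul, map_pow, aeval_C]
        change (u : S) ^ m * _ * _ = _
        ring
      have h5 : (C u ^ m * a : R[X]) = 0 := by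
        obtain ⟨p, hp⟩ := low_bas.mp h4
        have h6 : ∑ i ∈ Finset.range (N + 1), aeval v (if i < N then - p i else C u ^ m * a) *
            Bas.e f.natDegree x y i = 0 := by
          rw [Finset.sum_range_succ, if_neg (lt_irrefl N), ← bs_eq, hp, ← Finset.sum_add_distrib]
          refine Finset.sum_eq_zero fun i hi => ?_
          rw [if_pos (Finset.mem_range.1 hi), map_neg]
          ring
        have := Bas.uniq (rl hE.pres) (bInd hE.pres) h6 N (Nat.lt_succ_self N)
        rwa [if_neg (lt_irrefl N)] at this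
      have h7 : a = 0 := by
        rcases mul_eq_zero.mp h5 with h8 | h8
        · exact absurd h8 (pow_ne_zero _ hE.fr.primeC.ne_zero)
        · exact h8
      rw [h7, map_zero, zero_mul, sub_zero] at ha
      exact ih (low_bas.mp ha)

/-- the exponents do not decrease -/
theorem eps_mono (hE : Env R u f v x y) {n M M' : ℕ} (h : IsEps R u f.natDegree v x y n M)
    (h' : IsEps R u f.natDegree v x y (n + 1) M') : M ≤ M' := by
  choose eps heps using hE.eps
  have hMe : M = eps n := eps_unique hE.fr h (heps n)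
  have hMe' : M' = eps (n + 1) := eps_unique hE.fr h' (heps (n + 1))
  subst hMe
  subst hMe'
  let _ := avAlg (R := R) v
  have h0 : 0 < f.natDegree := lt_of_lt_of_le two_pos hE.pres.deg
  exact Ig.eps_mono hE.fr.primeC (bs f.natDegree x y) x (xi R f.natDegree)
    (xi_not_dvd hE.fr f.natDegree)
    (fun m => by
      rw [← low_iff]
      exact IB.x_bs hE.pres.monic rfl h0 hE.pres.rel m)
    eps (fun m s N a hs => intg_e1 (heps m) s N a hs) (fun m => intg_e2 (heps m)) n

/-- the exponents do not decrease -/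
theorem eps_mono_le (hE : Env R u f v x y) {n n' M M' : ℕ} (hn : n ≤ n')
    (h : IsEps R u f.natDegree v x y n M) (h' : IsEps R u f.natDegree v x y n' M') : M ≤ M' := by
  induction n', hn using Nat.le_induction generalizing M' with
  | base => exact eps_le hE.fr h h'
  | succ n' _ ih =>
    obtain ⟨M'', h''⟩ := hE.eps n'
    exact (ih h'').trans (eps_mono hE h'' h')

end env

end Pool.Agent.LNDQ
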