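import Pool.Agent.LNDQ.BasT

/-!
# LNDQ/NfLow: the two normal form theorems of the interface
-/

set_option autoImplicit false

open Polynomial

namespace Pool.Agent.LNDQ

section NF

variable {k S : Type} [Field k] [CommRing S] [IsDomain S] [Algebra k S] {R : Subalgebra k S} {u : R}
  {f : R[X]} {v x y : S}

omit [IsDomain S] in
/-- normal form: span -/
theorem mem_Cx (hP : Pres f v x y) (z : S) :
    z ∈ Cx R v x y ↔ ∃ n, z ∈ Low R f.natDegree v x y n :=
  BT.mem_Cx hP

omit [IsDomain S] in
/-- normal form: independence -/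
theorem low_lead (hP : Pres f v x y) (n : ℕ) (a : R[X])
    (h : aeval v a * bs f.natDegree x y n ∈ Low R f.natDegree v x y n) : a = 0 :=
  BT.lead_zero hP h

end NF

end Pool.Agent.LNDQ
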