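import Mathlib
import Pool.Agent.LNDQ.RDDefs

set_option autoImplicit false

/-!
# Elements of the kernel of a locally nilpotent derivation of `k[s, t]` divisible by a variable
-/

open MvPolynomial

namespace Pool.Agent.LNDQ.RD

open Pool.Agent.R2F Pool.Agent.LNDHom

variable {k A : Type} [Field k] [CommRing A] [Algebra k A]

namespace RDMonoA

theorem der_zero (D' : Derivation k (P2 k) (P2 k)) {i j : Fin 2} (hij : ∀ l : Fin 2, l = i ∨ l = j)
    (hi : D' (X i) = 0) (P : P2 k) : D' P = D' (X j) * pderiv j P := by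
  by_cases hji : j = i
  · have h : D' = 0 := by
      apply derivation_ext
      intro l
      rcases hij l with rfl | rfl
      · rw [hi]; rfl
      · rw [hji, hi]; rfl
    rw [h]
    simp
  have h : D' = D' (X j) • pderiv j := by
    apply derivation_ext
    intro l
    rcases hij l with rfl | rfl
    · change D' (X l) = D' (X j) * pderiv j (X l)
      rw [hi, pderiv_X_of_ne (Ne.symm hji), mul_zero]
    · change D' (X l) = D' (X l) * pderiv l (X l)
      rw [pderiv_X_self, mul_one]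
  conv_lhs => rw [h]
  rfl

theorem supp_zero [CharZero k] {j : Fin 2} {Q : P2 k} (h : pderiv j Q = 0) (d : Fin 2 →₀ ℕ)
    (hd : d ∈ Q.support) : d j = 0 := by
  by_contra hne
  obtain ⟨e, he⟩ : ∃ e, d = e + Finsupp.single j 1 := by
    refine ⟨d - Finsupp.single j 1, ?_⟩
    rw [tsub_add_cancel_of_le]
    rw [Finsupp.single_le_iff]
    omega
  have h1 : coeff e (pderiv j Q) = 0 := by rw [h, coeff_zero]
  rw [coeff_pderiv, ← he] at h1
  rcases mul_eq_zero.1 h1 with h2 | h2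
  · exact mem_support_iff.1 hd h2
  · have h3 : ((e j + 1 : ℕ) : k) = 0 := by exact_mod_cast h2
    exact absurd h3 (Nat.cast_ne_zero.2 (Nat.succ_ne_zero _))

theorem mono [CharZero k] (D' : Derivation k (P2 k) (P2 k)) (h0 : ∃ P, D' P ≠ 0)
    (hln : ∀ P, ∃ n, (⇑D')^[n] P = 0) (Q : P2 k) (hQ : D' Q = 0) (hQ0 : Q ≠ 0) {i j : Fin 2}
    (hij : ∀ l : Fin 2, l = i ∨ l = j) (h : X i ∣ Q) :
    ∃ q : Polynomial k, Q = Polynomial.aeval (X i : P2 k) q := by
  obtain ⟨Q', hQ'⟩ := h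
  have hi : D' (X i) = 0 := fact_closed D' hln (X i) Q' (hQ' ▸ hQ) (hQ' ▸ hQ0)
  have h1 := der_zero D' hij hi Q
  have hj : D' (X j) ≠ 0 := by
    intro hj
    obtain ⟨P, hP⟩ := h0
    apply hP
    rw [der_zero D' hij hi P, hj, zero_mul]
  rw [hQ] at h1
  have h2 : pderiv j Q = 0 := by
    rcases mul_eq_zero.1 h1.symm with h3 | h3
    · exact absurd h3 hj
    · exact h3
  refine ⟨∑ d ∈ Q.support, Polynomial.monomial (d i) (coeff d Q), ?_⟩
  conv_lhs => rw [Q.as_sum]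
  rw [map_sum]
  refine Finset.sum_congr rfl fun d hd => ?_
  have h3 := supp_zero h2 d hd
  have h4 : d = Finsupp.single i (d i) := by
    ext l
    rcases hij l with rfl | rfl
    · rw [Finsupp.single_eq_same]
    · by_cases hl : l = i
      · subst hl
        rw [Finsupp.single_eq_same]
      · rw [h3, Finsupp.single_eq_of_ne hl]
  rw [Polynomial.aeval_monomial, algebraMap_eq]
  conv_lhs => rw [h4]
  rw [← C_mul_X_pow_eq_monomial, ← h4]

end RDMonoA

/-- RDMono.lean: (m) of the plan -/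
theorem s_dvd [CharZero k] (D' : Derivation k (P2 k) (P2 k)) (h0 : ∃ P, D' P ≠ 0)
    (hln : ∀ P, ∃ n, (⇑D')^[n] P = 0) (Q : P2 k) (hQ : D' Q = 0) (hQ0 : Q ≠ 0) (h : X 0 ∣ Q) :
    ∃ q : Polynomial k, Q = Polynomial.aeval (X 0 : P2 k) q :=
  RDMonoA.mono D' h0 hln Q hQ hQ0 (j := 1) (by decide) h

/-- RDMono.lean -/
theorem t_dvd [CharZero k] (D' : Derivation k (P2 k) (P2 k)) (h0 : ∃ P, D' P ≠ 0)
    (hln : ∀ P, ∃ n, (⇑D')^[n] P = 0) (Q : P2 k) (hQ : D' Q = 0) (hQ0 : Q ≠ 0) (h : X 1 ∣ Q) :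
    ∃ q : Polynomial k, Q = Polynomial.aeval (X 1 : P2 k) q :=
  RDMonoA.mono D' h0 hln Q hQ hQ0 (j := 0) (by decide) h

end Pool.Agent.LNDQ.RD
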