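import Pool.Agent.LNDQ.MvLift

/-!
The case distinction of STEP (MP_821812, full Q1), with the results of the groups NN, RD as hypotheses.
-/

set_option autoImplicit false

open Polynomial

namespace Pool.Agent.LNDQ

/-- an algebraic element of a domain over an algebraically closed field is a constant -/
theorem const_of_alg {k T : Type} [Field k] [IsAlgClosed k] [CommRing T] [IsDomain T] [Algebra k T]
    (t : T) (q : k[X]) (hq : q ≠ 0) (h : aeval t q = 0) : ∃ c : k, t = algebraMap k T c := by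
  have halg : IsAlgebraic k t := ⟨q, hq, h⟩
  have hint : IsIntegral k t := halg.isIntegral
  have h1 : (minpoly k t).degree = 1 :=
    IsAlgClosed.degree_eq_one_of_irreducible k (minpoly.irreducible hint)
  obtain ⟨c, hc⟩ := minpoly.mem_range_of_degree_eq_one k t h1
  exact ⟨c, hc.symm⟩

/-- `v` is transcendental modulo `u`, in the form needed -/
theorem v_not_const {k S : Type} [Field k] [CommRing S] [Algebra k S]
    {R : Subalgebra k S} {u : R} {f : R[X]} {v x y : S} (hE : Env R u f v x y) (c : k) :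
    ¬ (u : S) ∣ v - algebraMap k S c := by
  intro h
  have h1 : (u : S) ∣ aeval v (X - C (algebraMap k R c) : R[X]) := by
    rw [map_sub, aeval_X, aeval_C]
    exact h
  obtain ⟨q, hq⟩ := hE.vtr _ h1
  have h2 := congrArg (fun p : R[X] => p.coeff 1) hq
  simp only [coeff_sub, coeff_X_one, coeff_C_mul] at h2
  rw [coeff_C, if_neg one_ne_zero, sub_zero] at h2
  refine hE.fr.prime.not_isUnit ?_
  have h3 : IsUnit u := IsUnit.of_mul_eq_one _ h2.symm
  exact h3.map (algebraMap R S)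

theorem step_core {k S : Type} [Field k] [CharZero k] [IsAlgClosed k] [CommRing S] [IsDomain S]
    [Algebra k S] {R : Subalgebra k S} {u : R} {f : R[X]} {v x y : S} (hE : Env R u f v x y)
    {R0 T : Type} [CommRing R0] [IsDomain R0] [Algebra k R0] [CommRing T] [IsDomain T] [Algebra k T]
    {ρ : Cx R v x y →ₐ[k] R0} {σ : S →ₐ[k] T} {π : R0 →ₐ[k] T} (hR : Red u (Cx R v x y) ρ σ π)
    {f0 : k[X]} (hf : ∀ i, (u : S) ∣ ((f.coeff i : R) : S) - algebraMap k S (f0.coeff i))
    (hn : f0.natDegree = f.natDegree) (v' x' y' : Cx R v x y) (hv : (v' : S) = v)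
    (hx : (x' : S) = x) (hy : (y' : S) = y) (hP0 : Pres f0 (ρ v') (ρ x') (ρ y'))
    (hg : Algebra.adjoin k {ρ v', ρ x', ρ y'} = ⊤) (Δ : Derivation k R0 R0)
    (hcase : (∃ z, z ≠ 0 ∧ Δ z = 0 ∧ π z = 0) ∨
        ∀ z, ∃ a b, Δ a = 0 ∧ Δ b = 0 ∧ π b ≠ 0 ∧ π (b * z) = π a)
    {a b c : R0} (hmv : Mv k f0 (ρ v') (ρ x') (ρ y') a b c)
    (hker : ∀ z, Δ z = 0 → ∃ q : k[X], z = aeval a q) :
    ∃ v1 x1 y1 : S, Mv k f v x y v1 x1 y1 ∧
      ((∃ c : k, c ≠ 0 ∧ (u : S) ∣ v1 - algebraMap k S c) ∨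
        ((∀ q : k[X], (u : S) ∣ aeval v1 q → q = 0) ∧
          ∃ a b : k[X], b ≠ 0 ∧ (u : S) ∣ aeval v1 b * x1 - aeval v1 a)) := by
  obtain ⟨v1, x1, y1, hmv1, h1, h2, h3⟩ := mv_lift hE hR hf hn v' x' y' hv hx hy hP0 hmv
  have hσ : ∀ z : Cx R v x y, σ (z : S) = π (ρ z) := fun z => (hR.comp z).symm
  obtain ⟨hP1, hg1⟩ := mv_pres_gen hP0 hmv
  rw [hg] at hg1
  by_cases hal : ∃ q : k[X], q ≠ 0 ∧ aeval (π a) q = 0
  · obtain ⟨q, hq, hqa⟩ := hal
    obtain ⟨γ, hγ⟩ := const_of_alg (π a) q hq hqa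
    by_cases hγ0 : γ = 0
    · -- swap
      rw [hγ0, map_zero] at hγ
      have hfb : aeval (π b) f0 = 0 := by
        rw [Polynomial.aeval_algHom_apply, ← hP1.rel, map_mul, hγ, zero_mul]
      obtain ⟨θ, hθ⟩ := const_of_alg (π b) f0 hP1.monic.ne_zero hfb
      refine ⟨y1, x1, v1, Mv.swap hmv1, Or.inr ⟨fun q hq' => ?_, C θ, 1, one_ne_zero, ?_⟩⟩
      · by_contra hq0
        have h4 : aeval (π c) q = 0 := by
          have h5 : σ (aeval (y1 : S) q) = 0 := (hR.sk _).2 hq'
          rw [← Polynomial.aeval_algHom_apply, hσ, h3] at h5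
          exact h5
        obtain ⟨δ, hδ⟩ := const_of_alg (π c) q hq0 h4
        have h6 : (⊤ : Subalgebra k R0).map π ≤ ⊥ := by
          rw [← hg1, AlgHom.map_adjoin, Algebra.adjoin_le_iff]
          rintro _ ⟨z, hz, rfl⟩
          rcases hz with rfl | rfl | rfl
          · rw [hγ]
            exact Subalgebra.zero_mem _
          · rw [hθ]
            exact Subalgebra.algebraMap_mem _ _
          · rw [hδ]
            exact Subalgebra.algebraMap_mem _ _
        have h7 : π (ρ v') ∈ (⊥ : Subalgebra k T) := h6 ⟨_, Algebra.mem_top, rfl⟩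
        obtain ⟨ε, hε⟩ := Algebra.mem_bot.1 h7
        refine v_not_const hE ε ((hR.sk _).1 ?_)
        rw [map_sub, AlgHom.commutes, ← hv, hσ, ← hε, sub_self]
      · rw [← hR.sk, map_sub, map_mul, ← Polynomial.aeval_algHom_apply,
          ← Polynomial.aeval_algHom_apply, map_one, one_mul, aeval_C, hσ, h2, hθ, sub_self]
    · refine ⟨v1, x1, y1, hmv1, Or.inl ⟨γ, hγ0, ?_⟩⟩
      rw [← hR.sk, map_sub, AlgHom.commutes, hσ, h1, hγ, sub_self]
  · have htr : ∀ q : k[X], aeval (π a) q = 0 → q = 0 := fun q hq => by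
      by_contra h
      exact hal ⟨q, h, hq⟩
    refine ⟨v1, x1, y1, hmv1, Or.inr ⟨fun q hq => ?_, ?_⟩⟩
    · refine htr q ?_
      have h5 : σ (aeval (v1 : S) q) = 0 := (hR.sk _).2 hq
      rw [← Polynomial.aeval_algHom_apply, hσ, h1] at h5
      exact h5
    · rcases hcase with ⟨z, hz0, hΔz, hπz⟩ | hB
      · exfalso
        obtain ⟨q, rfl⟩ := hker z hΔz
        rw [← Polynomial.aeval_algHom_apply] at hπz
        refine hz0 ?_
        rw [htr q hπz, map_zero]
      · obtain ⟨p, q, hp, hq, hq0, hpq⟩ := hB b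
        obtain ⟨P, rfl⟩ := hker p hp
        obtain ⟨Q, rfl⟩ := hker q hq
        refine ⟨P, Q, ?_, ?_⟩
        · rintro rfl
          exact hq0 (by rw [map_zero, map_zero])
        · rw [← hR.sk, map_sub, map_mul, ← Polynomial.aeval_algHom_apply,
            ← Polynomial.aeval_algHom_apply, hσ, hσ, h1, h2]
          rw [map_mul, ← Polynomial.aeval_algHom_apply, ← Polynomial.aeval_algHom_apply] at hpq
          rw [hpq, sub_self]

end Pool.Agent.LNDQ
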