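import Pool.Agent.LNDQ.StepCore
import Pool.Agent.LNDQ.NfRed

/-!
`step_cases` with `nn_main` and `rd_main`, `ker_eq` as hypotheses (MP_821812, full Q1).
-/

set_option autoImplicit false

open Polynomial

namespace Pool.Agent.LNDQ

/-- the statement of `nn_main` for one environment -/
def NNHyp {k S : Type} [Field k] [CommRing S] [Algebra k S] (R : Subalgebra k S) (u : R)
    (v x y : S) : Prop :=
  ∀ (R0 T : Type) [CommRing R0] [IsDomain R0] [Algebra k R0] [CommRing T] [IsDomain T]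
    [Algebra k T] (ρ : Cx R v x y →ₐ[k] R0) (σ : S →ₐ[k] T) (π : R0 →ₐ[k] T),
    Red u (Cx R v x y) ρ σ π →
    ∃ Δ : Derivation k R0 R0, (∃ z, Δ z ≠ 0) ∧ (∀ z, ∃ n, (⇑Δ)^[n] z = 0) ∧
      ((∃ z, z ≠ 0 ∧ Δ z = 0 ∧ π z = 0) ∨
        ∀ z, ∃ a b, Δ a = 0 ∧ Δ b = 0 ∧ π b ≠ 0 ∧ π (b * z) = π a)

/-- the statements of `rd_main`, `ker_eq` over `k` -/
def RDHyp (k : Type) [Field k] : Prop :=
  ∀ (R0 : Type) [CommRing R0] [IsDomain R0] [Algebra k R0] (f : k[X]) (v x y : R0), Pres f v x y →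
    Algebra.adjoin k {v, x, y} = ⊤ → ∀ Δ : Derivation k R0 R0, (∃ z, Δ z ≠ 0) →
    (∀ z, ∃ n, (⇑Δ)^[n] z = 0) →
    (∃ v1 x1 y1 : R0, Mv k f v x y v1 x1 y1 ∧ Δ v1 = 0) ∧
      (Δ v = 0 → ∀ z, Δ z = 0 → ∃ q : k[X], z = aeval v q)

theorem step_hyp {k S : Type} [Field k] [CharZero k] [IsAlgClosed k] [CommRing S] [IsDomain S]
    [Algebra k S] {R : Subalgebra k S} {u : R} {f : R[X]} {v x y : S} (hE : Env R u f v x y)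
    (hNN : NNHyp R u v x y) (hRD : RDHyp k) :
    ∃ v1 x1 y1 : S, Mv k f v x y v1 x1 y1 ∧
      ((∃ c : k, c ≠ 0 ∧ (u : S) ∣ v1 - algebraMap k S c) ∨
        ((∀ q : k[X], (u : S) ∣ aeval v1 q → q = 0) ∧
          ∃ a b : k[X], b ≠ 0 ∧ (u : S) ∣ aeval v1 b * x1 - aeval v1 a)) := by
  obtain ⟨R0, _, _, _, T, _, _, _, ρ, σ, π, f0, hR, hf, hn, hpres⟩ := red_exists hE
  have hA : v ∈ Cx R v x y ∧ x ∈ Cx R v x y ∧ y ∈ Cx R v x y :=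
    ⟨Algebra.subset_adjoin (by simp), Algebra.subset_adjoin (by simp),
      Algebra.subset_adjoin (by simp)⟩
  obtain ⟨hP0, hg⟩ := hpres ⟨v, hA.1⟩ ⟨x, hA.2.1⟩ ⟨y, hA.2.2⟩ rfl rfl rfl
  obtain ⟨Δ, hne, hln, hcase⟩ := hNN R0 T ρ σ π hR
  obtain ⟨⟨a, b, c, hmv, ha⟩, -⟩ := hRD R0 f0 _ _ _ hP0 hg Δ hne hln
  obtain ⟨hP1, hg1⟩ := mv_pres_gen hP0 hmv
  refine step_core hE hR hf hn ⟨v, hA.1⟩ ⟨x, hA.2.1⟩ ⟨y, hA.2.2⟩ rfl rfl rfl hP0 hg Δ hcase hmv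
    fun z hz => ?_
  exact (hRD R0 f0 a b c hP1 (hg1.trans hg) Δ hne hln).2 ha z hz

end Pool.Agent.LNDQ
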