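import Mathlib
import Pool.Agent.LNDQ.Defs
import Pool.Agent.LNDQ.MvPres

set_option autoImplicit false

/-!
# The case `v1 = 0` on the exceptional curve: exchange of `v1` and `y1`
-/

open Polynomial

namespace Pool.Agent.LNDQ

namespace StepSwapA

/-- algebraic elements of a domain over an algebraically closed field are constants -/
theorem mem_k {k T : Type} [Field k] [IsAlgClosed k] [CommRing T] [IsDomain T] [Algebra k T] {t : T}
    {q : k[X]} (hq : q ≠ 0) (h : aeval t q = 0) : ∃ c : k, t = algebraMap k T c := by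
  have hs := (IsAlgClosed.splits q).eq_prod_roots
  rw [hs, map_mul, aeval_C, map_multiset_prod, Multiset.map_map] at h
  rcases mul_eq_zero.1 h with h1 | h1
  · rw [map_eq_zero_iff _ (algebraMap k T).injective] at h1
    exact absurd h1 (leadingCoeff_ne_zero.2 hq)
  · rw [Multiset.prod_eq_zero_iff, Multiset.mem_map] at h1
    obtain ⟨a, _, ha⟩ := h1
    refine ⟨a, ?_⟩
    simp only [Function.comp_apply, map_sub, aeval_X, aeval_C] at ha
    exact sub_eq_zero.1 ha

end StepSwapA

open StepSwapA in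
theorem swap_case {k S : Type} [Field k] [IsAlgClosed k] [CommRing S] [IsDomain S] [Algebra k S]
    {R : Subalgebra k S} {u : R} {f : R[X]} {v x y : S} (hE : Env R u f v x y) {R0 T : Type}
    [CommRing R0] [IsDomain R0] [Algebra k R0] [CommRing T] [IsDomain T] [Algebra k T]
    {ρ : Cx R v x y →ₐ[k] R0} {σ : S →ₐ[k] T} {π : R0 →ₐ[k] T} (hR : Red u (Cx R v x y) ρ σ π)
    {V X1 Y : Cx R v x y} (hmv : Mv k f v x y (V : S) X1 Y) (h0 : π (ρ V) = 0) :
    ∃ v1 x1 y1 : S, Mv k f v x y v1 x1 y1 ∧ (∀ q : k[X], (u : S) ∣ aeval v1 q → q = 0) ∧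
      ∃ a b : k[X], b ≠ 0 ∧ (u : S) ∣ aeval v1 b * x1 - aeval v1 a := by
  obtain ⟨hP1, hC1⟩ := mv_pres_sub hE.pres hmv
  have hV : σ (V : S) = 0 := by rw [← hR.comp, h0]
  have hu : ∀ z : S, (u : S) ∣ z ↔ σ z = 0 := fun z => (hR.sk z).symm
  have hres : ∀ r : R, ∃ c : k, σ (r : S) = algebraMap k T c := by
    intro r
    obtain ⟨c, r', hr⟩ := hE.fr.res r
    refine ⟨c, ?_⟩
    have h1 : (r : S) = algebraMap k S c + u * (r' : S) := by
      rw [hr]
      rfl
    have h2 : σ ((u : S) * (r' : S)) = 0 := (hR.sk _).2 (dvd_mul_right _ _)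
    rw [h1, map_add, h2, add_zero, AlgHom.commutes]
  -- the value of `x1`
  obtain ⟨θ, hθ⟩ : ∃ θ : k, σ (X1 : S) = algebraMap k T θ := by
    let φ : R →+* T := (σ : S →+* T).comp (algebraMap R S)
    have h1 : (f.map φ) ∈ lifts (algebraMap k T) := by
      rw [lifts_iff_coeff_lifts]
      intro i
      rw [coeff_map]
      obtain ⟨c, hc⟩ := hres (f.coeff i)
      exact ⟨c, hc.symm⟩
    obtain ⟨q, hq1, _, hq3⟩ := lifts_and_degree_eq_and_monic h1 (hP1.monic.map φ)
    refine mem_k hq3.ne_zero ?_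
    have h2 : aeval (σ (X1 : S)) q = σ (aeval (X1 : S) f) := by
      rw [aeval_def, eval₂_eq_eval_map, hq1, ← eval₂_eq_eval_map, aeval_def]
      exact (hom_eval₂ f (algebraMap R S) (σ : S →+* T) (X1 : S)).symm
    rw [h2, ← hP1.rel, map_mul, hV, zero_mul]
  refine ⟨(Y : S), X1, V, hmv.swap, fun q hq => ?_, C θ, 1, one_ne_zero, ?_⟩
  · by_contra hq0
    rw [hu, ← aeval_algHom_apply] at hq
    obtain ⟨c, hc⟩ := mem_k hq0 hq
    have h1 : ∀ z ∈ Algebra.adjoin R ({(V : S), (X1 : S), (Y : S)} : Set S),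
        ∃ c : k, σ z = algebraMap k T c := by
      intro z hz
      induction hz using Algebra.adjoin_induction with
      | mem z hz =>
        rcases hz with rfl | rfl | rfl
        · exact ⟨0, by rw [hV, map_zero]⟩
        · exact ⟨θ, hθ⟩
        · exact ⟨c, hc⟩
      | algebraMap r => exact hres r
      | add a b _ _ h1 h2 =>
        obtain ⟨c1, h1⟩ := h1
        obtain ⟨c2, h2⟩ := h2
        exact ⟨c1 + c2, by rw [map_add, h1, h2, map_add]⟩
      | mul a b _ _ h1 h2 =>
        obtain ⟨c1, h1⟩ := h1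
        obtain ⟨c2, h2⟩ := h2
        exact ⟨c1 * c2, by rw [map_mul, h1, h2, map_mul]⟩
    have h2 : v ∈ Cx R (V : S) (X1 : S) (Y : S) := by
      rw [hC1]
      exact Algebra.subset_adjoin (by simp)
    obtain ⟨c', hc'⟩ := h1 v h2
    have h3 : (u : S) ∣ aeval v (X - C (algebraMap k R c') : R[X]) := by
      rw [hu, map_sub, aeval_X, aeval_C, map_sub, hc', sub_eq_zero]
      exact (AlgHom.commutes σ c').symm
    obtain ⟨g, hg⟩ := hE.vtr _ h3
    have h4 := congrArg (fun p : R[X] => p.coeff 1) hg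
    simp only [coeff_sub, coeff_X_one, coeff_C_succ, sub_zero, coeff_C_mul] at h4
    have h5 : IsUnit (u : S) := by
      have h6 : (1 : S) = (u : S) * ((g.coeff 1 : R) : S) := congrArg (fun r : R => (r : S)) h4
      exact IsUnit.of_mul_eq_one _ h6.symm
    exact hE.fr.prime.not_isUnit h5
  · rw [hu, map_sub, map_mul, map_one, map_one, one_mul, hθ, aeval_C, AlgHom.commutes, sub_self]

end Pool.Agent.LNDQ
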