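import Pool.Agent.LNDQ.TrSpan

/-!
Group TR, T7c: `R[v,x,y]` is spanned over `R[v]` by any family with leading terms the `bs n`.
-/

set_option autoImplicit false

namespace Pool.Agent.LNDQ.Tr

open Polynomial

/-- T7c: `R[v,x,y]` is spanned over `R[v]` by any family `z n = bs n + lower`. -/
theorem span_Cx {k S : Type} [Field k] [CommRing S] [IsDomain S] [Algebra k S]
    {R : Subalgebra k S} {f : R[X]} {v x y : S} (P : Pres f v x y) (z : ℕ → S)
    (hz : ∀ n, z n - bs f.natDegree x y n ∈ Low R f.natDegree v x y n) (w : S)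
    (hw : w ∈ Cx R v x y) :
    w ∈ Submodule.span ((Algebra.adjoin R {v}).restrictScalars k : Subalgebra k S)
      (Set.range z) := by
  obtain ⟨n, hn⟩ := TrSpan.mem_Cx_low P hw
  clear hw
  induction n generalizing w with
  | zero =>
    rw [TrSpan.low_zero' hn]
    exact Submodule.zero_mem _
  | succ n ih =>
    obtain ⟨a, ha⟩ := TrSpan.low_succ hn
    have h1 : w - aeval v a * z n ∈ Low R f.natDegree v x y n := by
      have h2 := Submodule.sub_mem _ ha (TrSpan.poly_mul_mem (hz n) a)
      convert h2 using 1
      ring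
    have h3 := ih _ h1
    have h7 : w = (w - aeval v a * z n) + aeval v a * z n := by ring
    rw [h7]
    refine Submodule.add_mem _ h3 ?_
    have h8 : aeval v a ∈ ((Algebra.adjoin R {v}).restrictScalars k : Subalgebra k S) := by
      change aeval v a ∈ Algebra.adjoin R {v}
      rw [Algebra.adjoin_singleton_eq_range_aeval]
      exact ⟨a, rfl⟩
    exact Submodule.smul_mem _
      (⟨aeval v a, h8⟩ : ((Algebra.adjoin R {v}).restrictScalars k : Subalgebra k S))
      (Submodule.subset_span ⟨n, rfl⟩)

end Pool.Agent.LNDQ.Tr
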