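import Mathlib

/-!
Group TR of the proof of Q1 for MP_821812: definitions on the toric cover `k[s, t]`, written as
`Polynomial (Polynomial k)` (`t` is the outer variable `X`, `s` is `C X`), graded by `ZMod β`
(`s ^ i * t ^ j` has weight `i - j`).
-/

set_option autoImplicit false

namespace Pool.Agent.LNDQ.Tr

open Polynomial

variable {k : Type*} [Field k]

/-- All monomials `s ^ i * t ^ j` of `p` have `i - j = w` modulo `β`. -/
def IsWt (β : ℕ) (w : ZMod β) (p : k[X][X]) : Prop :=
  ∀ i j : ℕ, (p.coeff j).coeff i ≠ 0 → ((i : ZMod β) - (j : ZMod β) = w)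

/-- The monomial basis element `s ^ (n % β) * t ^ n` of the weight zero part over `k[s ^ β]`. -/
noncomputable def mono (β n : ℕ) : k[X][X] := C (X ^ (n % β)) * X ^ n

end Pool.Agent.LNDQ.Tr
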