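import Pool.Agent.LNDQ.TrDefs

/-!
Group TR of the proof of Q1 for MP_821812: degree bounds (T3a, T3b).
-/

set_option autoImplicit false

namespace Pool.Agent.LNDQ.Tr

open Polynomial

variable {k : Type*} [Field k]

/-- T3a: degree bound for combinations of the `s₁ ^ (j % β) * ψ ^ j`, `j ≥ b₀`. -/
theorem degree_bound {β : ℕ} {s₁ ψ : k[X][X]} (hm : ψ.Monic) (b₀ : ℕ) (c : ℕ →₀ k[X][X])
    (hc : ∀ j ∈ c.support, b₀ ≤ j) (g : k[X][X]) (hg0 : g ≠ 0)
    (hg : g = c.sum fun j p => p * (s₁ ^ (j % β) * ψ ^ j)) :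
    b₀ * ψ.natDegree ≤ g.natDegree := by
  have hdvd : ψ ^ b₀ ∣ g := by
    rw [hg]
    exact Finset.dvd_sum fun j hj =>
      Dvd.dvd.mul_left (Dvd.dvd.mul_left (pow_dvd_pow ψ (hc j hj)) _) _
  have h := natDegree_le_of_dvd hdvd hg0
  rwa [hm.natDegree_pow] at h

/-- T3b: `ψ` is monic in `t` up to a constant, if `s₁` vanishes .. : if some monic polynomial in
`t ^ β` over `k[s]` is a multiple of `ψ`, then the leading coefficient of `ψ` is a constant. -/
theorem leadingCoeff_isUnit {ψ P : k[X][X]} (hP : P.Monic) (h : ψ ∣ P) :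
    IsUnit ψ.leadingCoeff := by
  obtain ⟨q, rfl⟩ := h
  have h1 : ψ.leadingCoeff * q.leadingCoeff = 1 := by
    rw [← leadingCoeff_mul]; exact hP
  exact IsUnit.of_mul_eq_one _ h1

end Pool.Agent.LNDQ.Tr
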