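import Pool.Agent.LNDQ.TrRes2
import Pool.Agent.LNDQ.NfRed

/-!
Group TR of the proof of Q1 for MP_821812: the residue map of `C = R[v, x, y]` to `k[s, t]`.
-/

set_option autoImplicit false

namespace Pool.Agent.LNDQ.Tr

open Polynomial

section mem

variable {k S : Type} [Field k] [CommRing S] [Algebra k S] (R : Subalgebra k S) (v x y : S)

theorem sub_mem_Cx {z : S} (hz : z ∈ ({v, x, y} : Set S)) : z ∈ Cx R v x y := by
  have h : z ∈ Algebra.adjoin R ({v, x, y} : Set S) := Algebra.subset_adjoin hz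
  exact h

theorem v_mem_Cx : v ∈ Cx R v x y := sub_mem_Cx R v x y (Set.mem_insert _ _)

theorem x_mem_Cx : x ∈ Cx R v x y :=
  sub_mem_Cx R v x y (Set.mem_insert_of_mem _ (Set.mem_insert _ _))

theorem y_mem_Cx : y ∈ Cx R v x y :=
  sub_mem_Cx R v x y (Set.mem_insert_of_mem _ (Set.mem_insert_of_mem _ rfl))

theorem R_mem_Cx (r : R) : (r : S) ∈ Cx R v x y :=
  (Algebra.adjoin R {v, x, y}).algebraMap_mem r

theorem bs_mem_Cx (β n : ℕ) : bs β x y n ∈ Cx R v x y :=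
  mul_mem (pow_mem (x_mem_Cx R v x y) _) (pow_mem (y_mem_Cx R v x y) _)

end mem

variable {k S : Type} [Field k] [CommRing S] [Algebra k S] {R : Subalgebra k S}
  {u : R} {f : R[X]} {v x y : S}

/-- The residue map, from the residue rings. -/
theorem exists_res_of_red (E : Env R u f v x y)
    (hf : ∀ i, (u : S) ∣ (((f - X ^ f.natDegree).coeff i : R) : S))
    {R0 T : Type} [CommRing R0] [IsDomain R0] [Algebra k R0] [CommRing T] [Algebra k T]
    {ρ : Cx R v x y →ₐ[k] R0} {σ : S →ₐ[k] T} {π : R0 →ₐ[k] T}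
    (hR : Red u (Cx R v x y) ρ σ π) {f0 : k[X]}
    (hf0 : ∀ i, (u : S) ∣ ((f.coeff i : R) : S) - algebraMap k S (f0.coeff i))
    (hP : ∀ v' x' y' : Cx R v x y, (v' : S) = v → (x' : S) = x → (y' : S) = y →
      Pres f0 (ρ v') (ρ x') (ρ y') ∧ Algebra.adjoin k {ρ v', ρ x', ρ y'} = ⊤) :
    ∃ res : Cx R v x y →ₐ[k] k[X][X],
      (∀ z, res z = 0 ↔ ∃ w : Cx R v x y, (z : S) = u * w) ∧
      res ⟨v, v_mem_Cx R v x y⟩ = C (X ^ f.natDegree) ∧
      res ⟨x, x_mem_Cx R v x y⟩ = C X * X ∧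
      res ⟨y, y_mem_Cx R v x y⟩ = X ^ f.natDegree ∧
      ∀ n, res ⟨bs f.natDegree x y n, bs_mem_Cx R v x y _ n⟩ = mono f.natDegree n := by
  have hβ : 0 < f.natDegree := lt_of_lt_of_le two_pos E.pres.deg
  have hnu : ¬ IsUnit (u : S) := E.fr.prime.not_isUnit
  have hf0X : f0 = X ^ f.natDegree := by
    ext i
    by_contra hne
    have h1 : (u : S) ∣ algebraMap k S (f0.coeff i - (X ^ f.natDegree : k[X]).coeff i) := by
      have h2 := hf i
      rw [coeff_sub] at h2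
      have h3 : (((f.coeff i - (X ^ f.natDegree : R[X]).coeff i : R)) : S) -
          (((f.coeff i : R) : S) - algebraMap k S (f0.coeff i)) =
          algebraMap k S (f0.coeff i - (X ^ f.natDegree : k[X]).coeff i) := by
        rw [map_sub, coeff_X_pow, coeff_X_pow]
        push_cast
        split_ifs
        · simp
        · simp
      rw [← h3]
      exact dvd_sub h2 (hf0 i)
    have h4 : IsUnit (algebraMap k S (f0.coeff i - (X ^ f.natDegree : k[X]).coeff i)) :=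
      (IsUnit.mk0 _ (sub_ne_zero.2 hne)).map _
    exact hnu (isUnit_of_dvd_unit h1 h4)
  set v' : Cx R v x y := ⟨v, v_mem_Cx R v x y⟩ with hv'
  set x' : Cx R v x y := ⟨x, x_mem_Cx R v x y⟩ with hx'
  set y' : Cx R v x y := ⟨y, y_mem_Cx R v x y⟩ with hy'
  obtain ⟨hP1, hP2⟩ := hP v' x' y' rfl rfl rfl
  rw [hf0X] at hP1
  have H : Pr0 (k := k) (ρ v') (ρ x') (ρ y') (X ^ f.natDegree) :=
    ⟨hP1.monic, hP1.rel, hP2, hP1.ind⟩
  obtain ⟨ι, hinj, hιv, hιx, hιy⟩ := exists_toric hβ H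
  refine ⟨ι.comp ρ, ?_, hιv, hιx, hιy, ?_⟩
  · intro z
    rw [AlgHom.comp_apply, map_eq_zero_iff ι hinj]
    exact hR.rk z
  · intro n
    have h1 : (⟨bs f.natDegree x y n, bs_mem_Cx R v x y _ n⟩ : Cx R v x y) =
        x' ^ (n % f.natDegree) * y' ^ (n / f.natDegree) := rfl
    rw [AlgHom.comp_apply, h1, map_mul, map_pow ρ, map_pow ρ, map_mul, map_pow ι, map_pow ι,
      hιx, hιy]
    have h2 := bs_cover (k := k) f.natDegree 0 n
    rw [pow_zero, one_mul, mul_zero, zero_add] at h2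
    exact h2

/-- The residue map. -/
theorem exists_res [IsDomain S] (E : Env R u f v x y)
    (hf : ∀ i, (u : S) ∣ (((f - X ^ f.natDegree).coeff i : R) : S)) :
    ∃ res : Cx R v x y →ₐ[k] k[X][X],
      (∀ z, res z = 0 ↔ ∃ w : Cx R v x y, (z : S) = u * w) ∧
      res ⟨v, v_mem_Cx R v x y⟩ = C (X ^ f.natDegree) ∧
      res ⟨x, x_mem_Cx R v x y⟩ = C X * X ∧
      res ⟨y, y_mem_Cx R v x y⟩ = X ^ f.natDegree ∧
      ∀ n, res ⟨bs f.natDegree x y n, bs_mem_Cx R v x y _ n⟩ = mono f.natDegree n := by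
  obtain ⟨R0, _, _, _, T, _, _, _, ρ, σ, π, f0, hR, hf0, -, hP⟩ := red_exists E
  exact exists_res_of_red E hf hR hf0 hP

end Pool.Agent.LNDQ.Tr
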