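import Pool.Agent.LNDQ.TrDefs
import Pool.Agent.LNDQ.MvPres

set_option autoImplicit false

namespace Pool.Agent.LNDQ.Tr

open Polynomial

section

variable {k S : Type} [Field k] [CommRing S] [IsDomain S] [Algebra k S] {R : Subalgebra k S}
  {u : R} {f : R[X]} {v x y v' x' y' : S}

/-- T6a (63): moves keep the ring. -/
theorem mv_ring (P : Pres f v x y) (h : Mv k f v x y v' x' y') :
    Cx R v' x' y' = Cx R v x y ∧ v' ≠ 0 ∧ y' ≠ 0 ∧ v' * y' = aeval x' f := by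
  obtain ⟨Q, hC⟩ := mv_pres_sub P h
  have Q' := (mv_pres_sub P (Mv.swap h)).1
  exact ⟨hC, Q.v_ne_zero, Q'.v_ne_zero, Q.rel⟩

end

end Pool.Agent.LNDQ.Tr
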