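import Pool.Agent.LNDQ.TrPsi
import Pool.Agent.LNDQ.TrMv

set_option autoImplicit false

namespace Pool.Agent.LNDQ.Tr

open Polynomial

/-- toric triple: `a = s ^ β`, `b = s t`, `c = t ^ β` with semi-invariant coordinates `s, t` -/
def Tor {k : Type} [Field k] (β : ℕ) (a b c : k[X][X]) : Prop :=
  ∃ (s t : k[X][X]) (ε : ZMod β), (ε = 1 ∨ ε = -1) ∧ IsWt β ε s ∧ IsWt β (-ε) t ∧
    Algebra.adjoin k {s, t} = ⊤ ∧ a = s ^ β ∧ b = s * t ∧ c = t ^ β

/-- one element does not generate `k[s, t]` -/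
theorem adjoin_ne_top {k : Type} [Field k] (s : k[X][X]) : Algebra.adjoin k {s} ≠ ⊤ := by
  intro h
  let Dt : Derivation k k[X][X] k[X][X] :=
    (Polynomial.derivative' : Derivation k[X] k[X][X] k[X][X]).restrictScalars k
  have hDt : ∀ z, Dt z = derivative z := fun z => rfl
  have h1 : ∀ z : k[X][X], ∃ p : k[X], z = aeval s p := by
    intro z
    have hz : z ∈ Algebra.adjoin k {s} := by
      rw [h]
      exact Algebra.mem_top
    rw [Algebra.adjoin_singleton_eq_range_aeval] at hz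
    obtain ⟨p, hp⟩ := hz
    exact ⟨p, hp.symm⟩
  obtain ⟨p, hp⟩ := h1 (C X)
  obtain ⟨q, hq⟩ := h1 X
  -- the derivative with respect to `t`
  have h4 : aeval s (derivative p) * Dt s = 0 := by
    have h3 : Dt (C X) = 0 := by rw [hDt, derivative_C]
    rw [hp, Derivation.map_aeval] at h3
    exact h3
  have h5 : aeval s (derivative q) * Dt s = 1 := by
    have h3 : Dt X = 1 := by rw [hDt, derivative_X]
    rw [hq, Derivation.map_aeval] at h3
    exact h3
  -- the derivative with respect to `s`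
  have h6 : Bivariate.swap (C X : k[X][X]) = aeval (Bivariate.swap s) p := by
    rw [hp, ← AlgEquiv.coe_toAlgHom, ← aeval_algHom_apply]
  have h7 : aeval (Bivariate.swap s) (derivative p) * Dt (Bivariate.swap s) = 1 := by
    have h3 : Dt X = 1 := by rw [hDt, derivative_X]
    rw [← Bivariate.swap_X, h6, Derivation.map_aeval] at h3
    exact h3
  rcases mul_eq_zero.1 h4 with h8 | h8
  · have h9 : aeval (Bivariate.swap s) (derivative p) = 0 := by
      have h10 : Bivariate.swap (aeval s (derivative p)) = aeval (Bivariate.swap s) (derivative p) := by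
        rw [← AlgEquiv.coe_toAlgHom, ← aeval_algHom_apply]
      rw [← h10, h8, map_zero]
    rw [h9, zero_mul] at h7
    exact zero_ne_one h7
  · rw [h8, mul_zero] at h5
    exact zero_ne_one h5

theorem ne_zero_of_adjoin {k : Type} [Field k] {s t : k[X][X]}
    (h : Algebra.adjoin k {s, t} = ⊤) : s ≠ 0 ∧ t ≠ 0 := by
  constructor
  · rintro rfl
    apply adjoin_ne_top t
    rw [eq_top_iff, ← h]
    refine Algebra.adjoin_le ?_
    rintro _ (rfl | rfl)
    · exact zero_mem _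
    · exact Algebra.subset_adjoin rfl
  · rintro rfl
    apply adjoin_ne_top s
    rw [eq_top_iff, ← h]
    refine Algebra.adjoin_le ?_
    rintro _ (rfl | rfl)
    · exact Algebra.subset_adjoin rfl
    · exact zero_mem _

theorem isWt_aeval {k : Type} [Field k] {β : ℕ} {s : k[X][X]} (hs : IsWt β 0 s) (q : k[X]) :
    IsWt β 0 (aeval s q) := by
  rw [aeval_eq_sum_range]
  refine IsWt.sum fun i _ => IsWt.smul ?_ _
  have := hs.pow i
  rwa [mul_zero] at this

theorem IsWt.add {k : Type} [Field k] {β : ℕ} {w : ZMod β} {p q : k[X][X]} (hp : IsWt β w p)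
    (hq : IsWt β w q) : IsWt β w (p + q) := by
  intro a b h
  rw [coeff_add, coeff_add] at h
  by_cases h1 : (p.coeff b).coeff a = 0
  · rw [h1, zero_add] at h
    exact hq a b h
  · exact hp a b h1

/-- the elementary move on the cover -/
theorem Tor.elem {k : Type} [Field k] {β : ℕ} (hβ : 0 < β) {a b c c' : k[X][X]} (h : Tor β a b c)
    (q : k[X]) (hc' : a * c' = (b + a * aeval a q) ^ β) : Tor β a (b + a * aeval a q) c' := by
  obtain ⟨s, t, ε, hε, hs, ht, hst, rfl, rfl, rfl⟩ := h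
  obtain ⟨hs0, -⟩ := ne_zero_of_adjoin hst
  have hsβ : s ^ β = s * s ^ (β - 1) := by
    rw [← pow_succ', Nat.sub_add_cancel hβ]
  have hb : s * t + s ^ β * aeval (s ^ β) q = s * (t + s ^ (β - 1) * aeval (s ^ β) q) := by
    generalize aeval (s ^ β) q = Q
    rw [hsβ]
    ring
  refine ⟨s, t + s ^ (β - 1) * aeval (s ^ β) q, ε, hε, hs, ht.add ?_, ?_, rfl, hb, ?_⟩
  · have h1 : IsWt β 0 (s ^ β) := by
      have := hs.pow β
      rwa [ZMod.natCast_self, zero_mul] at this
    have h2 := (hs.pow (β - 1)).mul (isWt_aeval h1 q)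
    have h3 : ((β - 1 : ℕ) : ZMod β) * ε + 0 = -ε := by
      rw [Nat.cast_sub hβ, ZMod.natCast_self]
      ring
    rwa [h3] at h2
  · rw [eq_top_iff, ← hst]
    refine Algebra.adjoin_le ?_
    have h1 : s ∈ Algebra.adjoin k {s, t + s ^ (β - 1) * aeval (s ^ β) q} :=
      Algebra.subset_adjoin (Or.inl rfl)
    rintro z (hz | hz)
    · rw [hz]
      exact h1
    · rw [Set.mem_singleton_iff] at hz
      rw [hz]
      have h2 : t + s ^ (β - 1) * aeval (s ^ β) q ∈
          Algebra.adjoin k {s, t + s ^ (β - 1) * aeval (s ^ β) q} :=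
        Algebra.subset_adjoin (Or.inr rfl)
      have h3 : s ^ (β - 1) * aeval (s ^ β) q ∈
          Algebra.adjoin k {s, t + s ^ (β - 1) * aeval (s ^ β) q} := by
        refine mul_mem (pow_mem h1 _) ?_
        have h4 := Polynomial.aeval_mem_adjoin_singleton k (s ^ β) (p := q)
        refine Algebra.adjoin_le ?_ h4
        rintro _ rfl
        exact pow_mem h1 _
      have h5 := sub_mem h2 h3
      rwa [add_sub_cancel_right] at h5
  · refine mul_left_cancel₀ (pow_ne_zero β hs0) ?_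
    rw [hc', hb, mul_pow]

theorem Tor.swap {k : Type} [Field k] {β : ℕ} {a b c : k[X][X]} (h : Tor β a b c) : Tor β c b a := by
  obtain ⟨s, t, ε, hε, hs, ht, hst, ha, hb, hc⟩ := h
  refine ⟨t, s, -ε, ?_, ht, by rwa [neg_neg], by rwa [Set.pair_comm], hc, by rw [hb, mul_comm], ha⟩
  rcases hε with rfl | rfl
  · exact Or.inr rfl
  · exact Or.inl (neg_neg _)

/-- one elementary move, in an abstract ring -/
theorem tor_step {k Cc : Type} [Field k] [CommRing Cc] [Algebra k Cc] {β : ℕ} (hβ : 0 < β)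
    (res : Cc →ₐ[k] k[X][X]) {V X₁ Y₁ X₂ Y₂ U G : Cc} (q : k[X])
    (hx : X₂ = X₁ + V * aeval V q) (hy : V * Y₂ = X₂ ^ β + U * G) (hres : res U = 0)
    (ht : Tor β (res V) (res X₁) (res Y₁)) : Tor β (res V) (res X₂) (res Y₂) := by
  have h3 : res X₂ = res X₁ + res V * aeval (res V) q := by
    rw [hx, map_add, map_mul, aeval_algHom_apply]
  have h5 := congrArg res hy
  rw [map_mul, map_add, map_pow, map_mul, hres, zero_mul, add_zero, h3] at h5
  rw [h3]
  exact ht.elem hβ q h5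

theorem sub_aeval {k S : Type} [Field k] [CommRing S] [Algebra k S] (T : Subalgebra k S) (V : T)
    (q : k[X]) : ((aeval V q : T) : S) = aeval (V : S) q :=
  (Polynomial.aeval_algHom_apply T.val V q).symm

theorem sub_eq1 {k S : Type} [Field k] [CommRing S] [Algebra k S] (T : Subalgebra k S) {v' x' : S}
    (hv1 : v' ∈ T) (hx1 : x' ∈ T) (q : k[X]) (h : x' + v' * aeval v' q ∈ T) :
    (⟨x' + v' * aeval v' q, h⟩ : T) = ⟨x', hx1⟩ + ⟨v', hv1⟩ * aeval (⟨v', hv1⟩ : T) q :=
  Subtype.ext (by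
    show x' + v' * aeval v' q = x' + v' * ((aeval (⟨v', hv1⟩ : T) q : T) : S)
    rw [sub_aeval])

theorem sub_eq2 {k S : Type} [Field k] [CommRing S] [Algebra k S] (T : Subalgebra k S)
    {a b c d e : S} (ha : a ∈ T) (hb : b ∈ T) (hc : c ∈ T) (hd : d ∈ T) (he : e ∈ T) (n : ℕ)
    (h : a * b = c ^ n + d * e) :
    (⟨a, ha⟩ * ⟨b, hb⟩ : T) = ⟨c, hc⟩ ^ n + ⟨d, hd⟩ * ⟨e, he⟩ :=
  Subtype.ext h

variable {k S : Type} [Field k] [CommRing S] [IsDomain S] [Algebra k S] {R : Subalgebra k S}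
  {u : R} {f : R[X]} {v x y v' x' y' : S}

omit [IsDomain S] in
theorem mem_Cx_iff (R : Subalgebra k S) (v x y z : S) :
    z ∈ Cx R v x y ↔ z ∈ Algebra.adjoin R ({v, x, y} : Set S) := Iff.rfl

omit [IsDomain S] in
theorem mem_Cx_v (R : Subalgebra k S) (v x y : S) : v ∈ Cx R v x y :=
  (mem_Cx_iff R v x y v).2 (Algebra.subset_adjoin (by simp))

omit [IsDomain S] in
theorem mem_Cx_x (R : Subalgebra k S) (v x y : S) : x ∈ Cx R v x y :=
  (mem_Cx_iff R v x y x).2 (Algebra.subset_adjoin (by simp))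

omit [IsDomain S] in
theorem mem_Cx_y (R : Subalgebra k S) (v x y : S) : y ∈ Cx R v x y :=
  (mem_Cx_iff R v x y y).2 (Algebra.subset_adjoin (by simp))

omit [IsDomain S] in
theorem coe_mem_Cx (R : Subalgebra k S) (v x y : S) (r : R) : algebraMap R S r ∈ Cx R v x y :=
  (mem_Cx_iff R v x y _).2 ((Algebra.adjoin R ({v, x, y} : Set S)).algebraMap_mem r)

omit [IsDomain S] in
theorem aeval_mem_Cx (R : Subalgebra k S) (v x y : S) {z : S} (hz : z ∈ Cx R v x y) (g : R[X]) :
    aeval z g ∈ Cx R v x y := by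
  rw [aeval_eq_sum_range]
  refine sum_mem fun i _ => ?_
  rw [Algebra.smul_def]
  exact mul_mem (coe_mem_Cx R v x y _) (pow_mem hz _)

omit [IsDomain S] in
theorem rel_mod (f g : R[X]) (hf : f = X ^ f.natDegree + C u * g) (z : S) :
    aeval z f = z ^ f.natDegree + (u : S) * aeval z g := by
  have h1 : aeval z (X ^ f.natDegree + C u * g) = z ^ f.natDegree + algebraMap R S u * aeval z g := by
    rw [map_add, map_mul, map_pow, aeval_X, aeval_C]
  rw [← hf] at h1
  exact h1

theorem mv_mem (P : Pres f v x y) (h : Mv k f v x y v' x' y') :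
    v' ∈ Cx R v x y ∧ x' ∈ Cx R v x y ∧ y' ∈ Cx R v x y := by
  have hC := (mv_ring P h).1
  rw [← hC]
  exact ⟨mem_Cx_v R v' x' y', mem_Cx_x R v' x' y', mem_Cx_y R v' x' y'⟩

/-- T6b: moves keep toric triples, `f ≡ X ^ β` modulo `u`. -/
theorem mv_toric (P : Pres f v x y) (h : Mv k f v x y v' x' y') (g : R[X])
    (hf : f = X ^ f.natDegree + C u * g)
    (res : Cx R v x y →ₐ[k] k[X][X]) (hv : v ∈ Cx R v x y) (hx : x ∈ Cx R v x y)
    (hy : y ∈ Cx R v x y) (hu : (u : S) ∈ Cx R v x y) (hres : res ⟨u, hu⟩ = 0)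
    (hv' : v' ∈ Cx R v x y) (hx' : x' ∈ Cx R v x y) (hy' : y' ∈ Cx R v x y)
    (ht : Tor f.natDegree (res ⟨v, hv⟩) (res ⟨x, hx⟩) (res ⟨y, hy⟩)) :
    Tor f.natDegree (res ⟨v', hv'⟩) (res ⟨x', hx'⟩) (res ⟨y', hy'⟩) := by
  have hβ : 0 < f.natDegree := lt_of_lt_of_le two_pos P.deg
  induction h with
  | refl => exact ht
  | @elem v' x' y' q y'' h e ih =>
    obtain ⟨hv1, hx1, hy1⟩ := mv_mem P h
    have h1 := ih hv1 hx1 hy1
    -- the element `g(x'')`
    refine tor_step hβ res q (U := ⟨u, hu⟩) (G := ⟨_, aeval_mem_Cx R v x y hx' g⟩)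
      (sub_eq1 (Cx R v x y) hv1 hx1 q hx')
      (sub_eq2 (Cx R v x y) hv1 hy' hx' hu (aeval_mem_Cx R v x y hx' g) f.natDegree
        (e.trans (rel_mod f g hf _))) hres h1
  | swap h ih =>
    exact (ih hy' hx' hv').swap

end Pool.Agent.LNDQ.Tr
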