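import Pool.Agent.LNDQ.TrFin1
import Pool.Agent.LNDQ.TrHom
import Pool.Agent.LNDQ.TrTor

/-!
Group TR of the proof of Q1 for MP_821812: `tr_main`.
-/

set_option autoImplicit false

namespace Pool.Agent.LNDQ.Tr

open Polynomial Submodule

variable {k S : Type} [Field k] [CommRing S] [IsDomain S] [Algebra k S] {R : Subalgebra k S}
  {u : R} {f : R[X]} {v x y : S}

omit [IsDomain S] in
theorem low_le_Cx {β n : ℕ} {z : S} (hz : z ∈ Low R β v x y n) : z ∈ Cx R v x y := by
  induction hz using Submodule.span_induction with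
  | mem z hz =>
    obtain ⟨i, j, hj, rfl⟩ := hz
    exact mul_mem (pow_mem (v_mem R v x y) _) (bs_mem R β v x y j)
  | zero => exact zero_mem _
  | add a b _ _ ha hb => exact add_mem ha hb
  | smul r a _ ha =>
    rw [Algebra.smul_def]
    exact mul_mem (R_mem v x y r) ha

theorem adjoin_st {k : Type} [Field k] : Algebra.adjoin k ({C X, X} : Set k[X][X]) = ⊤ := by
  rw [eq_top_iff]
  intro p _
  have hs : (C X : k[X][X]) ∈ Algebra.adjoin k ({C X, X} : Set k[X][X]) :=
    Algebra.subset_adjoin (Set.mem_insert _ _)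
  have ht : (X : k[X][X]) ∈ Algebra.adjoin k ({C X, X} : Set k[X][X]) :=
    Algebra.subset_adjoin (Set.mem_insert_of_mem _ (Set.mem_singleton _))
  have hC : ∀ q : k[X], (C q : k[X][X]) ∈ Algebra.adjoin k ({C X, X} : Set k[X][X]) := by
    intro q
    induction q using Polynomial.induction_on' with
    | add q r hq hr => rw [C_add]; exact add_mem hq hr
    | monomial n a =>
      rw [← C_mul_X_pow_eq_monomial, C_mul, C_pow]
      refine mul_mem ?_ (pow_mem hs _)
      exact Subalgebra.algebraMap_mem _ a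
  induction p using Polynomial.induction_on' with
  | add q r hq hr => exact add_mem (hq trivial) (hr trivial)
  | monomial n a =>
    rw [← C_mul_X_pow_eq_monomial]
    exact mul_mem (hC a) (pow_mem ht _)

/-- the residue of an element of `R` -/
theorem res_R (E : Env R u f v x y) (res : Cx R v x y →ₐ[k] k[X][X])
    (hker : ∀ z, res z = 0 ↔ ∃ w : Cx R v x y, (z : S) = u * w) (r : R) :
    ∃ c : k, res ⟨(r : S), R_mem v x y r⟩ = C (C c) := by
  obtain ⟨c, r', h⟩ := E.fr.res r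
  refine ⟨c, ?_⟩
  have h1 : (⟨(r : S), R_mem v x y r⟩ : Cx R v x y) = algebraMap k (Cx R v x y) c +
      ⟨(u : S) * (r' : S), mul_mem (R_mem v x y u) (R_mem v x y r')⟩ := by
    apply Subtype.ext
    show (r : S) = algebraMap k S c + (u : S) * (r' : S)
    rw [h]; rfl
  have h2 : res ⟨(u : S) * (r' : S), mul_mem (R_mem v x y u) (R_mem v x y r')⟩ = 0 :=
    (hker _).2 ⟨⟨(r' : S), R_mem v x y r'⟩, rfl⟩
  rw [h1, map_add, h2, add_zero, AlgHom.commutes]
  rfl

/-- the residue of an element of `R[v]` -/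
theorem res_aeval (E : Env R u f v x y) (res : Cx R v x y →ₐ[k] k[X][X])
    (hker : ∀ z, res z = 0 ↔ ∃ w : Cx R v x y, (z : S) = u * w) {q : k[X]}
    (hv : res ⟨v, v_mem R v x y⟩ = C q) (a : R[X]) :
    ∃ p : k[X], res ⟨aeval v a, Av_le_Cx R v x y (aeval_mem_Av R v a)⟩ = C p ∧
      (¬ C u ∣ a → p ≠ 0) := by
  have h1 : ∃ p : k[X], res ⟨aeval v a, Av_le_Cx R v x y (aeval_mem_Av R v a)⟩ = C p := by
    induction a using Polynomial.induction_on' with
    | add a b ha hb =>
      obtain ⟨p, hp⟩ := ha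
      obtain ⟨p', hp'⟩ := hb
      refine ⟨p + p', ?_⟩
      have : (⟨aeval v (a + b), Av_le_Cx R v x y (aeval_mem_Av R v (a + b))⟩ : Cx R v x y) =
          ⟨aeval v a, Av_le_Cx R v x y (aeval_mem_Av R v a)⟩ +
            ⟨aeval v b, Av_le_Cx R v x y (aeval_mem_Av R v b)⟩ := by
        apply Subtype.ext
        show aeval v (a + b) = aeval v a + aeval v b
        rw [map_add]
      rw [this, map_add, hp, hp', C_add]
    | monomial n r =>
      obtain ⟨c, hc⟩ := res_R E res hker r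
      refine ⟨C c * q ^ n, ?_⟩
      have : (⟨aeval v (monomial n r), Av_le_Cx R v x y (aeval_mem_Av R v (monomial n r))⟩ :
          Cx R v x y) = ⟨(r : S), R_mem v x y r⟩ * ⟨v, v_mem R v x y⟩ ^ n := by
        apply Subtype.ext
        show aeval v (monomial n r) = (r : S) * v ^ n
        rw [aeval_monomial]; rfl
      rw [this, map_mul, map_pow, hc, hv, C_mul, C_pow]
  obtain ⟨p, hp⟩ := h1
  refine ⟨p, hp, fun ha hp0 => ha ?_⟩
  rw [hp0, C_0] at hp
  obtain ⟨w, hw⟩ := (hker _).1 hp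
  exact E.vtr a ⟨w, hw⟩

/-- the residue of an element of degree `< n` has `t`-degree `< n` -/
theorem res_low (E : Env R u f v x y) (res : Cx R v x y →ₐ[k] k[X][X])
    (hker : ∀ z, res z = 0 ↔ ∃ w : Cx R v x y, (z : S) = u * w) {q : k[X]}
    (hv : res ⟨v, v_mem R v x y⟩ = C q)
    (hbs : ∀ n, res ⟨bs f.natDegree x y n, bs_mem R _ v x y n⟩ = mono f.natDegree n) (n : ℕ)
    {z : S} (hz : z ∈ Low R f.natDegree v x y n) :
    (res ⟨z, low_le_Cx hz⟩).degree < n := by
  have h : z ∈ Low R f.natDegree v x y n := hz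
  have key : ∃ hC : z ∈ Cx R v x y, (res ⟨z, hC⟩) ∈ degreeLT k[X] n := by
    clear hz
    induction h using Submodule.span_induction with
    | mem z hz =>
      obtain ⟨i, j, hj, rfl⟩ := hz
      refine ⟨mul_mem (pow_mem (v_mem R v x y) _) (bs_mem R _ v x y j), ?_⟩
      have : (⟨v ^ i * bs f.natDegree x y j,
          mul_mem (pow_mem (v_mem R v x y) _) (bs_mem R _ v x y j)⟩ : Cx R v x y) =
          ⟨v, v_mem R v x y⟩ ^ i * ⟨bs f.natDegree x y j, bs_mem R _ v x y j⟩ := rfl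
      rw [this, map_mul, map_pow, hv, hbs, ← C_pow, mono, ← mul_assoc, ← C_mul, mem_degreeLT]
      exact (degree_C_mul_X_pow_le _ _).trans_lt (by exact_mod_cast hj)
    | zero =>
      refine ⟨zero_mem _, ?_⟩
      have : (⟨0, zero_mem _⟩ : Cx R v x y) = 0 := rfl
      rw [this, map_zero]
      exact Submodule.zero_mem _
    | add a b _ _ ha hb =>
      obtain ⟨ha, ha'⟩ := ha
      obtain ⟨hb, hb'⟩ := hb
      refine ⟨add_mem ha hb, ?_⟩
      have : (⟨a + b, add_mem ha hb⟩ : Cx R v x y) = ⟨a, ha⟩ + ⟨b, hb⟩ := rfl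
      rw [this, map_add]
      exact Submodule.add_mem _ ha' hb'
    | smul r a _ ha =>
      obtain ⟨ha, ha'⟩ := ha
      obtain ⟨c, hc⟩ := res_R E res hker r
      have hra : r • a ∈ Cx R v x y := by
        rw [Algebra.smul_def]
        exact mul_mem (R_mem v x y r) ha
      refine ⟨hra, ?_⟩
      have : (⟨r • a, hra⟩ : Cx R v x y) = ⟨(r : S), R_mem v x y r⟩ * ⟨a, ha⟩ := by
        apply Subtype.ext
        show r • a = (r : S) * a
        rw [Algebra.smul_def]; rfl
      rw [this, map_mul, hc, ← smul_eq_C_mul]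
      exact Submodule.smul_mem _ _ ha'
  obtain ⟨hC, hm⟩ := key
  exact mem_degreeLT.1 hm

/-- the residue of an element of degree exactly `n` -/
theorem res_lead (E : Env R u f v x y) (res : Cx R v x y →ₐ[k] k[X][X])
    (hker : ∀ z, res z = 0 ↔ ∃ w : Cx R v x y, (z : S) = u * w) {q : k[X]}
    (hv : res ⟨v, v_mem R v x y⟩ = C q)
    (hbs : ∀ n, res ⟨bs f.natDegree x y n, bs_mem R _ v x y n⟩ = mono f.natDegree n) (n : ℕ)
    {g : S} (hg : g ∈ Cx R v x y) {a : R[X]} (ha : ¬ C u ∣ a)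
    (h : g - aeval v a * bs f.natDegree x y n ∈ Low R f.natDegree v x y n) :
    res ⟨g, hg⟩ ≠ 0 ∧ (res ⟨g, hg⟩).natDegree = n := by
  obtain ⟨p, hp, hp0⟩ := res_aeval E res hker hv a
  have hlow := res_low E res hker hv hbs n h
  have h1 : (⟨g, hg⟩ : Cx R v x y) = ⟨aeval v a, Av_le_Cx R v x y (aeval_mem_Av R v a)⟩ *
      ⟨bs f.natDegree x y n, bs_mem R _ v x y n⟩ +
        ⟨g - aeval v a * bs f.natDegree x y n, low_le_Cx h⟩ := by
    apply Subtype.ext
    show g = aeval v a * bs f.natDegree x y n + (g - aeval v a * bs f.natDegree x y n)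
    ring
  have h2 : res ⟨g, hg⟩ = C (p * X ^ (n % f.natDegree)) * X ^ n +
      res ⟨g - aeval v a * bs f.natDegree x y n, low_le_Cx h⟩ := by
    rw [h1, map_add, map_mul, hp, hbs, mono, C_mul, mul_assoc]
  have h3 : (p * X ^ (n % f.natDegree) : k[X]) ≠ 0 :=
    mul_ne_zero (hp0 ha) (pow_ne_zero _ X_ne_zero)
  have h4 : (C (p * X ^ (n % f.natDegree)) * X ^ n : k[X][X]).degree = n :=
    degree_C_mul_X_pow n h3
  have h5 : (res ⟨g, hg⟩).degree = n := by
    rw [h2, degree_add_eq_left_of_degree_lt (by rw [h4]; exact hlow), h4]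
  exact ⟨fun h0 => by rw [h0, degree_zero] at h5; exact absurd h5 (by simp),
    natDegree_eq_of_degree_eq_some h5⟩

/-- The transfer step for `θ = 0`. -/
theorem tr_core (E1 : Env R u f v x y) {f2 : R[X]} {v1 x1 y1 x2 y2 : S} (E2 : Env R u f2 v1 x1 y1)
    (hmv : Mv k f v x y v1 x2 y2)
    (hf : ∀ i, (u : S) ∣ (((f - X ^ f.natDegree).coeff i : R) : S))
    (hd : f2.natDegree = f.natDegree) (hx : (u : S) * x1 = x2)
    (hy : (u : S) ^ f.natDegree * y1 = y2)
    (hint : ∃ χ : (k[X])[X], χ.Monic ∧ (u : S) ∣ eval₂ (aeval v : k[X] →ₐ[k] S).toRingHom y χ)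
    (hQ : Q1A R u f2 v1 x1 y1) : Q1A R u f v x y := by
  have hu : (u : S) ≠ 0 := TrSpan.u_ne E1
  have hβ : 0 < f.natDegree := lt_of_lt_of_le two_pos E1.pres.deg
  obtain ⟨res, hker, hrv, hrx, hry, hrbs⟩ := exists_res E1 hf
  obtain ⟨P2, hC2⟩ := mv_pres_sub E1.pres hmv
  -- memberships
  have hv1C : v1 ∈ Cx R v x y := hC2 ▸ v_mem R v1 x2 y2
  have hx2C : x2 ∈ Cx R v x y := hC2 ▸ x_mem R v1 x2 y2
  have hy2C : y2 ∈ Cx R v x y := hC2 ▸ y_mem R v1 x2 y2
  have huC : (u : S) ∈ Cx R v x y := R_mem v x y u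
  have hresu : res ⟨u, huC⟩ = 0 := (hker _).2 ⟨1, by show (u : S) = u * ((1 : Cx R v x y) : S); rw [OneMemClass.coe_one, mul_one]⟩
  -- toric coordinates
  obtain ⟨g, hg⟩ : ∃ g : R[X], f = X ^ f.natDegree + C u * g := by
    have h1 : C u ∣ f - X ^ f.natDegree := by
      rw [C_dvd_iff_dvd_coeff]
      intro i
      exact BT.dvd_R E1.fr (hf i)
    obtain ⟨g, hg⟩ := h1
    exact ⟨g, by rw [← hg]; ring⟩
  have hT0 : Tor f.natDegree (res ⟨v, v_mem R v x y⟩) (res ⟨x, x_mem R v x y⟩)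
      (res ⟨y, y_mem R v x y⟩) := by
    refine ⟨C X, X, 1, Or.inl rfl, isWt_s _, isWt_t _, adjoin_st, ?_, hrx, hry⟩
    rw [← C_pow]; exact hrv
  obtain ⟨s, ψ, ε, hε, hs, hψ, hgen, hsv, hsx, hsy⟩ := mv_toric E1.pres hmv g hg res _ _ _ huC hresu
    hv1C hx2C hy2C hT0
  -- the family
  obtain ⟨z, M, hMmono, hM0, hM, hz⟩ := exists_family E2 hQ
  rw [hd] at hM hz
  have hscale : ∀ b, bs f.natDegree x2 y2 b = (u : S) ^ b * bs f.natDegree x1 y1 b := by
    intro b
    rw [← hx, ← hy, bs_scale]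
  have hZ : ∀ b, ∃ w ∈ Low R f.natDegree v1 x2 y2 b,
      (u : S) ^ (M b + b) * z b = bs f.natDegree x2 y2 b + (u : S) * w := by
    intro b
    obtain ⟨w, hw, h1⟩ := low_scale (R := R) (u := u) (hz b)
    rw [hx, hy] at hw
    refine ⟨w, hw, ?_⟩
    rw [hscale b, ← h1, pow_add]
    ring
  choose w hw hZw using hZ
  have hbsC : ∀ b, bs f.natDegree x2 y2 b ∈ Cx R v x y := fun b => hC2 ▸ bs_mem R _ v1 x2 y2 b
  have hwC : ∀ b, w b ∈ Cx R v x y := fun b => hC2 ▸ low_le_Cx (hw b)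
  have hZC : ∀ b, (u : S) ^ (M b + b) * z b ∈ Cx R v x y := fun b => by
    rw [hZw b]
    exact add_mem (hbsC b) (mul_mem huC (hwC b))
  have hresZ : ∀ b, res ⟨(u : S) ^ (M b + b) * z b, hZC b⟩ = s ^ (b % f.natDegree) * ψ ^ b := by
    intro b
    have h1 : (⟨(u : S) ^ (M b + b) * z b, hZC b⟩ : Cx R v x y) =
        ⟨x2, hx2C⟩ ^ (b % f.natDegree) * ⟨y2, hy2C⟩ ^ (b / f.natDegree) +
          ⟨u, huC⟩ * ⟨w b, hwC b⟩ := Subtype.ext (hZw b)
    rw [h1, map_add, map_mul, map_mul, map_pow, map_pow, hresu, zero_mul, add_zero, hsx, hsy,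
      mul_pow, ← pow_mul, mul_assoc, ← pow_add, Nat.mod_add_div]
  have hAv : Av R v1 ≤ Cx R v x y := by
    intro a ha
    rw [← hC2]
    exact Av_le_Cx R v1 x2 y2 ha
  let T0 : Data0 k S :=
    { β := f.natDegree
      hβ := hβ
      u := u
      hu := hu
      A := Av R v
      A₁ := Av R v1
      Cc := Cx R v x y
      hAC := Av_le_Cx R v x y
      hA₁C := hAv
      huA := R_mem_Av v u
      huA₁ := R_mem_Av v1 u
      res := res
      hker := fun z hz => (hker z).1 hz
      hresu := hresu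
      v := v
      hv := v_mem_Av R v
      hresv := hrv
      e := bs f.natDegree x y
      heC := bs_mem R _ v x y
      hrese := hrbs
      hespan := fun z hz => by
        obtain ⟨n, hn⟩ := (mem_Cx E1.pres z).1 hz
        exact mem_span_of_low' hn
      s₁ := s
      ψ := ψ
      ε := ε
      hε := hε
      hs := hs
      hψ := hψ
      hgen := fun p => by rw [hgen]; exact Algebra.mem_top
      v₁ := v1
      hv₁ := v_mem_Av R v1
      hresv₁ := hsv
      Xb := z
      l := fun b => M b + b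
      hl := fun a b hab => add_lt_add_of_le_of_lt (hMmono hab.le) hab
      hZC := hZC
      hresZ := hresZ
      hXspan := fun x => by
        have := span_of_adapted E2 z M (by rw [hd]; exact hM) (by rw [hd]; exact hz) x
        exact this
      hXind := linInd_of_lead E2.pres hu z M (by rw [hd]; exact hz)
      hZspan := fun c hc => by
        rw [← hC2] at hc
        refine span_Cx P2 (fun b => (u : S) ^ (M b + b) * z b) (fun n => ?_) c hc
        show (u : S) ^ (M n + n) * z n - bs f.natDegree x2 y2 n ∈ _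
        rw [hZw n, add_sub_cancel_left]
        have : (u : S) * w n = u • w n := rfl
        rw [this]
        exact Submodule.smul_mem _ _ (hw n) }
  obtain ⟨χ, hχ, hχd⟩ := hint
  have hunit : IsUnit T0.ψ.leadingCoeff :=
    T0.isUnit_lc (by show M 0 + 0 = 0; rw [hM0]) (y_mem R v x y) hry χ hχ hχd
  obtain ⟨c, hc, hm, hdeg, -⟩ := T0.exists_data hunit
  let T : Data k S := T0.toMonic c hc hm hdeg
  intro n m hm'
  -- upper bound for the exponent
  obtain ⟨x0, a, ha, hx0⟩ := hm'.ex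
  obtain ⟨b, hb, hxb⟩ := exact_of_LT E1 hm' hx0
  have hba : b = a := by
    have := mul_left_cancel₀ (pow_ne_zero _ (Cu_ne hu)) hb
    exact this
  subst hba
  have hgC : (u : S) ^ m * x0 ∈ Cx R v x y := by
    have h1 : (u : S) ^ m * x0 = aeval v b * bs f.natDegree x y n +
        ((u : S) ^ m * x0 - aeval v b * bs f.natDegree x y n) := by ring
    rw [h1]
    exact add_mem (mul_mem (Av_le_Cx R v x y (aeval_mem_Av R v b)) (bs_mem R _ v x y n))
      (low_le_Cx hxb)
  obtain ⟨hne, hdg⟩ := res_lead E1 res hker hrv hrbs n hgC ha hxb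
  have hle : m ≤ T.l (n / T.ψ.natDegree) := by
    have := T.le_l ((u : S) ^ m * x0) hgC hne m x0 rfl
    rw [show (T.res ⟨(u : S) ^ m * x0, hgC⟩).natDegree = n from hdg] at this
    exact this
  obtain ⟨y', hy'⟩ := T.exists_lift n
  have hlow : (u : S) ^ T.l (n / T.ψ.natDegree) * y' - bs f.natDegree x y n ∈
      Low R f.natDegree v x y n := low_of_mem_span hy'
  refine ⟨(u : S) ^ (T.l (n / T.ψ.natDegree) - m) * y', 0, ?_⟩
  rw [pow_zero, one_mul, map_one, one_mul, add_zero, ← mul_assoc, ← pow_add,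
    Nat.add_sub_cancel' hle]
  exact hlow

end Pool.Agent.LNDQ.Tr
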