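import Pool.Agent.LNDQ.Bas
import Pool.Agent.LNDQ.Defs

/-!
Group TR of the proof of Q1 for MP_821812, T7b: elements with the leading terms of the basis are
linearly independent over `R[v]`.
-/

set_option autoImplicit false

namespace Pool.Agent.LNDQ.Tr

open Polynomial

namespace IndAux

section

variable {R S : Type} [CommRing R] [CommRing S] [Algebra R S] {β : ℕ} {v x y : S}

/-- algebraic independence in the form of `Bas` -/
theorem ind_of_alg (h : AlgebraicIndependent R ![v, x]) : Bas.Ind R v x := by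
  intro P hP
  obtain ⟨Φ, hΦ⟩ : ∃ Φ : R[X][X] →+* MvPolynomial (Fin 2) R, Φ =
      eval₂RingHom (aeval (MvPolynomial.X 0) : R[X] →ₐ[R] MvPolynomial (Fin 2) R).toRingHom
        (MvPolynomial.X 1) := ⟨_, rfl⟩
  obtain ⟨Ψ, hΨ⟩ : ∃ Ψ : MvPolynomial (Fin 2) R →ₐ[R] R[X][X],
      Ψ = MvPolynomial.aeval (![C X, X] : Fin 2 → R[X][X]) := ⟨_, rfl⟩
  have h1 : ((MvPolynomial.aeval ![v, x] : MvPolynomial (Fin 2) R →ₐ[R] S).toRingHom).comp Φ =
      eval₂RingHom (aeval v : R[X] →ₐ[R] S).toRingHom x := by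
    rw [hΦ]
    refine Polynomial.ringHom_ext' (Polynomial.ringHom_ext (fun r => ?_) ?_) ?_
    · simp
    · simp
    · simp
  have h2 : (Ψ.toRingHom).comp Φ = RingHom.id R[X][X] := by
    rw [hΦ, hΨ]
    refine Polynomial.ringHom_ext' (Polynomial.ringHom_ext (fun r => ?_) ?_) ?_
    · simp [Polynomial.algebraMap_apply]
    · simp
    · simp
  have h3 : MvPolynomial.aeval ![v, x] (Φ P) = 0 := by
    have h4 := congrArg (fun φ => φ P) h1
    exact h4.trans hP
  have h5 : Φ P = 0 := by
    apply h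
    rw [h3, map_zero]
  have h6 := congrArg (fun φ => φ P) h2
  have h7 : Ψ (Φ P) = P := h6
  rw [← h7, h5, map_zero]

theorem bas_low {n : ℕ} {z : S} (hz : z ∈ Low R β v x y n) : Bas.Low R β v x y n z := by
  unfold Low at hz
  induction hz using Submodule.span_induction with
  | mem z hz =>
    obtain ⟨i, j, hj, rfl⟩ := hz
    exact (Bas.low_e hj).v_pow i
  | zero => exact Bas.low_zero n
  | add z w _ _ hz hw => exact hz.add hw
  | smul r z _ hz =>
    rw [Algebra.smul_def]
    exact hz.C_smul r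

/-- the leading coefficient is unique -/
theorem lead_zero {f : R[X]} (P : Pres f v x y) {n : ℕ} {a : R[X]}
    (h : Bas.Low R f.natDegree v x y n (aeval v a * Bas.e f.natDegree x y n)) : a = 0 := by
  classical
  obtain ⟨p, hp⟩ := h
  have hr : Bas.Rl f f.natDegree v x y := ⟨by have := P.deg; omega, P.monic, rfl, P.rel⟩
  obtain ⟨q, hq⟩ : ∃ q : ℕ → R[X], q = fun i => if i = n then a else - p i := ⟨_, rfl⟩
  have hqn : q n = a := by rw [hq]; exact if_pos rfl
  have h0 : ∑ i ∈ Finset.range (n + 1), aeval v (q i) * Bas.e f.natDegree x y i = 0 := by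
    rw [Finset.sum_range_succ, hqn, hp, ← Finset.sum_add_distrib]
    refine Finset.sum_eq_zero fun i hi => ?_
    have h1 : q i = - p i := by
      rw [hq]
      exact if_neg (ne_of_lt (Finset.mem_range.1 hi))
    rw [h1, map_neg, neg_mul, neg_add_cancel]
  rw [← hqn]
  exact Bas.uniq hr (ind_of_alg P.ind) h0 n (Nat.lt_succ_self n)

end

end IndAux

open IndAux

variable {k S : Type} [Field k] [CommRing S] [IsDomain S] [Algebra k S] {R : Subalgebra k S}
  {u : R} {f : R[X]} {v x y : S}

/-- T7b: independence over `R[v]` of a family with leading terms the `bs n`, times powers of `u`. -/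
theorem linInd_of_lead (P : Pres f v x y) (hu : (u : S) ≠ 0) (z : ℕ → S) (M : ℕ → ℕ)
    (hz : ∀ n, (u : S) ^ M n * z n - bs f.natDegree x y n ∈ Low R f.natDegree v x y n) :
    LinearIndependent ((Algebra.adjoin R {v}).restrictScalars k : Subalgebra k S) z := by
  classical
  rw [linearIndependent_iff']
  intro s g hs
  by_contra hne
  push Not at hne
  obtain ⟨i₀, hi₀, hgi₀⟩ := hne
  obtain ⟨t, ht⟩ : ∃ t : Finset ℕ, t = s.filter (fun i => g i ≠ 0) := ⟨_, rfl⟩
  have htne : t.Nonempty := ⟨i₀, by rw [ht]; exact Finset.mem_filter.2 ⟨hi₀, hgi₀⟩⟩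
  obtain ⟨N, hN⟩ : ∃ N, N = t.max' htne := ⟨_, rfl⟩
  have hNt : N ∈ t := by rw [hN]; exact t.max'_mem htne
  have hmax : ∀ i ∈ t, i ≤ N := fun i hi => by rw [hN]; exact t.le_max' i hi
  have hgN : g N ≠ 0 := by
    rw [ht] at hNt
    exact (Finset.mem_filter.1 hNt).2
  have ha : ∀ i, ∃ a : R[X], aeval v a = ((g i : _) : S) := by
    intro i
    have h1 : ∀ w : S, w ∈ Algebra.adjoin R ({v} : Set S) → ∃ a : R[X], aeval v a = w := by
      intro w hw
      rw [Algebra.adjoin_singleton_eq_range_aeval] at hw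
      exact hw
    exact h1 _ (g i).2
  choose a ha using ha
  obtain ⟨K, hK⟩ : ∃ K, ∀ i ∈ t, M i ≤ K := ⟨t.sup M, fun i hi => Finset.le_sup hi⟩
  have hsum : ∑ i ∈ t, aeval v (a i) * z i = 0 := by
    have h2 : ∑ i ∈ t, g i • z i = ∑ i ∈ s, g i • z i := by
      rw [ht]
      apply Finset.sum_filter_of_ne
      intro i _ h h'
      apply h
      rw [h', zero_smul]
    rw [hs] at h2
    rw [← h2]
    refine Finset.sum_congr rfl fun i _ => ?_
    rw [ha i]
    rfl
  have key : ∀ i ∈ t, Bas.Low R f.natDegree v x y i ((u : S) ^ K * (aeval v (a i) * z i) -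
      aeval v (C (u ^ (K - M i)) * a i) * Bas.e f.natDegree x y i) := by
    intro i hi
    have h1 := (bas_low (hz i)).smul (C (u ^ (K - M i)) * a i)
    have h2 : aeval v (C (u ^ (K - M i)) * a i) * ((u : S) ^ M i * z i - bs f.natDegree x y i) =
        (u : S) ^ K * (aeval v (a i) * z i) -
          aeval v (C (u ^ (K - M i)) * a i) * Bas.e f.natDegree x y i := by
      have h3 : aeval v (C (u ^ (K - M i)) * a i) = (u : S) ^ (K - M i) * aeval v (a i) := by
        rw [map_mul, aeval_C, map_pow]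
        rfl
      have h4 : (u : S) ^ K = (u : S) ^ (K - M i) * (u : S) ^ M i := by
        rw [← pow_add, Nat.sub_add_cancel (hK i hi)]
      have h5 : bs f.natDegree x y i = Bas.e f.natDegree x y i := rfl
      rw [h3, h4, h5]
      ring
    rw [h2] at h1
    exact h1
  have h1 : Bas.Low R f.natDegree v x y N
      (∑ i ∈ t.erase N, (u : S) ^ K * (aeval v (a i) * z i)) := by
    refine Bas.Low.sum _ _ fun i hi => ?_
    have hit : i ∈ t := Finset.mem_of_mem_erase hi
    have hiN : i < N := lt_of_le_of_ne (hmax i hit) (Finset.ne_of_mem_erase hi)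
    have h2 := ((key i hit).mono (le_of_lt hiN)).add
      ((Bas.low_e (R := R) (b := f.natDegree) (v := v) (x := x) (y := y) hiN).smul
        (C (u ^ (K - M i)) * a i))
    rwa [sub_add_cancel] at h2
  have h2 : (∑ i ∈ t.erase N, (u : S) ^ K * (aeval v (a i) * z i)) +
      (u : S) ^ K * (aeval v (a N) * z N) = 0 := by
    rw [Finset.sum_erase_add _ _ hNt, ← Finset.mul_sum, hsum, mul_zero]
  have h3 : Bas.Low R f.natDegree v x y N
      (aeval v (C (u ^ (K - M N)) * a N) * Bas.e f.natDegree x y N) := by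
    have h4 := (h1.add (key N hNt)).neg
    have h5 : -((∑ i ∈ t.erase N, (u : S) ^ K * (aeval v (a i) * z i)) +
        ((u : S) ^ K * (aeval v (a N) * z N) -
          aeval v (C (u ^ (K - M N)) * a N) * Bas.e f.natDegree x y N)) =
        aeval v (C (u ^ (K - M N)) * a N) * Bas.e f.natDegree x y N := by
      rw [← add_sub_assoc, h2]
      ring
    rw [h5] at h4
    exact h4
  have h4 := lead_zero P h3
  have h5 : (u : S) ^ (K - M N) * aeval v (a N) = 0 := by
    have h6 := congrArg (aeval v) h4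
    rw [map_mul, aeval_C, map_pow, map_zero] at h6
    exact h6
  have h6 : aeval v (a N) = 0 := (mul_eq_zero.1 h5).resolve_left (pow_ne_zero _ hu)
  rw [ha N] at h6
  exact hgN (Subtype.ext h6)

end Pool.Agent.LNDQ.Tr
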