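import Pool.Agent.LNDQ.Defs
import Pool.Agent.LNDQ.Bas

/-!
Group TR, T7a: adapted elements of all degrees span `S` over `R[v]`.
-/

set_option autoImplicit false

namespace Pool.Agent.LNDQ.Tr

open Polynomial

namespace TrSpan

section basic

variable {R S : Type} [CommRing R] [CommRing S] [Algebra R S] {β : ℕ} {v x y : S}

theorem poly_bs_mem (p : R[X]) {j n : ℕ} (h : j < n) :
    aeval v p * bs β x y j ∈ Low R β v x y n := by
  induction p using Polynomial.induction_on' with
  | add p q hp hq =>
    rw [map_add, add_mul]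
    exact Submodule.add_mem _ hp hq
  | monomial i r =>
    rw [aeval_monomial, mul_assoc, ← Algebra.smul_def]
    exact Submodule.smul_mem _ _ (Submodule.subset_span ⟨i, j, h, rfl⟩)

theorem low_mono {n m : ℕ} (h : n ≤ m) : Low R β v x y n ≤ Low R β v x y m :=
  Submodule.span_mono fun _ ⟨i, j, hj, hz⟩ => ⟨i, j, hj.trans_le h, hz⟩

theorem v_pow_mul_mem {n : ℕ} {z : S} (hz : z ∈ Low R β v x y n) (l : ℕ) :
    v ^ l * z ∈ Low R β v x y n := by
  induction hz using Submodule.span_induction with
  | mem z hz =>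
    obtain ⟨i, j, hj, rfl⟩ := hz
    rw [← mul_assoc, ← pow_add]
    exact Submodule.subset_span ⟨l + i, j, hj, rfl⟩
  | zero => rw [mul_zero]; exact Submodule.zero_mem _
  | add a b _ _ ha hb => rw [mul_add]; exact Submodule.add_mem _ ha hb
  | smul r a _ ha => rw [mul_smul_comm]; exact Submodule.smul_mem _ _ ha

theorem poly_mul_mem {n : ℕ} {z : S} (hz : z ∈ Low R β v x y n) (p : R[X]) :
    aeval v p * z ∈ Low R β v x y n := by
  induction p using Polynomial.induction_on' with
  | add p q hp hq =>
    rw [map_add, add_mul]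
    exact Submodule.add_mem _ hp hq
  | monomial i r =>
    rw [aeval_monomial, mul_assoc, ← Algebra.smul_def]
    exact Submodule.smul_mem _ _ (v_pow_mul_mem hz i)

theorem low_succ {n : ℕ} {z : S} (hz : z ∈ Low R β v x y (n + 1)) :
    ∃ a : R[X], z - aeval v a * bs β x y n ∈ Low R β v x y n := by
  induction hz using Submodule.span_induction with
  | mem z hz =>
    obtain ⟨i, j, hj, rfl⟩ := hz
    rcases Nat.lt_succ_iff_lt_or_eq.1 hj with h | rfl
    · refine ⟨0, ?_⟩
      rw [map_zero, zero_mul, sub_zero]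
      exact Submodule.subset_span ⟨i, j, h, rfl⟩
    · refine ⟨X ^ i, ?_⟩
      rw [map_pow, aeval_X, sub_self]
      exact Submodule.zero_mem _
  | zero =>
    refine ⟨0, ?_⟩
    rw [map_zero, zero_mul, sub_zero]
    exact Submodule.zero_mem _
  | add z w _ _ hz hw =>
    obtain ⟨a, ha⟩ := hz
    obtain ⟨b, hb⟩ := hw
    refine ⟨a + b, ?_⟩
    have h := Submodule.add_mem _ ha hb
    rw [map_add, add_mul]
    convert h using 1
    ring
  | smul r z _ hz =>
    obtain ⟨a, ha⟩ := hz
    refine ⟨C r * a, ?_⟩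
    have h := Submodule.smul_mem _ r ha
    rw [map_mul, aeval_C, mul_assoc, ← Algebra.smul_def, ← smul_sub]
    exact h

theorem low_zero' {z : S} (hz : z ∈ Low R β v x y 0) : z = 0 := by
  have h : ({z | ∃ i j : ℕ, j < 0 ∧ z = v ^ i * bs β x y j} : Set S) = ∅ := by
    ext z
    exact ⟨fun ⟨_, _, hj, _⟩ => absurd hj (Nat.not_lt_zero _), fun h => h.elim⟩
  unfold Low at hz
  rw [h, Submodule.span_empty] at hz
  exact (Submodule.mem_bot R).1 hz

end basic

variable {k S : Type} [Field k] [CommRing S] [IsDomain S] [Algebra k S] {R : Subalgebra k S}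
  {u : R} {f : R[X]} {v x y : S}

theorem mem_Cx_low (P : Pres f v x y) {w : S} (hw : w ∈ Cx R v x y) :
    ∃ n, w ∈ Low R f.natDegree v x y n := by
  have h0 : 0 < f.natDegree := lt_of_lt_of_le Nat.zero_lt_two P.deg
  have hw' : w ∈ Algebra.adjoin R ({v, x, y} : Set S) := hw
  obtain ⟨n, p, hp⟩ := Bas.exists_low (f := f) (b := f.natDegree) ⟨h0, P.monic, rfl, P.rel⟩ hw'
  refine ⟨n, ?_⟩
  rw [hp]
  exact Submodule.sum_mem _ fun i hi => poly_bs_mem (p i) (Finset.mem_range.1 hi)

theorem u_ne (E : Env R u f v x y) : (u : S) ≠ 0 := E.fr.prime.ne_zero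

/-- the induction -/
theorem span_aux (E : Env R u f v x y) (z : ℕ → S) (M : ℕ → ℕ)
    (hM : ∀ n, IsEps R u f.natDegree v x y n (M n))
    (hz : ∀ n, (u : S) ^ M n * z n - bs f.natDegree x y n ∈ Low R f.natDegree v x y n) (n : ℕ) :
    ∀ (w : S) (m : ℕ), (u : S) ^ m * w ∈ Low R f.natDegree v x y n →
      w ∈ Submodule.span ((Algebra.adjoin R {v}).restrictScalars k : Subalgebra k S)
        (Set.range z) := by
  have hu := u_ne E
  induction n with
  | zero =>
    intro w m hw
    rw [(mul_eq_zero.1 (low_zero' hw)).resolve_left (pow_ne_zero _ hu)]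
    exact Submodule.zero_mem _
  | succ n ih =>
    intro w m hw
    obtain ⟨a, ha⟩ := low_succ hw
    have h1 : LT R u f.natDegree v x y n m a w := by
      refine ⟨0, ?_⟩
      rw [add_zero, pow_zero, one_mul]
      exact ha
    obtain ⟨b, hb⟩ := (hM n).max w m a h1
    -- `a * u ^ M = u ^ m * b`
    have h2 : aeval v a * (u : S) ^ M n = (u : S) ^ m * aeval v b := by
      have h3 := congrArg (aeval v) hb
      rw [map_mul, map_mul, map_pow, map_pow, aeval_C] at h3
      exact h3
    have h4 : w - aeval v b * z n ∈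
        Submodule.span ((Algebra.adjoin R {v}).restrictScalars k : Subalgebra k S)
          (Set.range z) := by
      refine ih _ (m + M n) ?_
      have h5 : (u : S) ^ (m + M n) * (w - aeval v b * z n) =
          algebraMap R S (u ^ M n) * ((u : S) ^ m * w - aeval v a * bs f.natDegree x y n) -
            algebraMap R S (u ^ m) * (aeval v b *
              ((u : S) ^ M n * z n - bs f.natDegree x y n)) := by
        have h6 : ∀ l : ℕ, algebraMap R S (u ^ l) = (u : S) ^ l := fun l => map_pow _ _ _
        rw [h6, h6, pow_add]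
        linear_combination bs f.natDegree x y n * h2
      rw [h5, ← Algebra.smul_def, ← Algebra.smul_def]
      exact Submodule.sub_mem _ (Submodule.smul_mem _ _ ha)
        (Submodule.smul_mem _ _ (poly_mul_mem (hz n) b))
    have h7 : w = (w - aeval v b * z n) + aeval v b * z n := by ring
    rw [h7]
    refine Submodule.add_mem _ h4 ?_
    have h8 : aeval v b ∈ ((Algebra.adjoin R {v}).restrictScalars k : Subalgebra k S) := by
      change aeval v b ∈ Algebra.adjoin R {v}
      rw [Algebra.adjoin_singleton_eq_range_aeval]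
      exact ⟨b, rfl⟩
    exact Submodule.smul_mem _
      (⟨aeval v b, h8⟩ : ((Algebra.adjoin R {v}).restrictScalars k : Subalgebra k S))
      (Submodule.subset_span ⟨n, rfl⟩)

end TrSpan

/-- T7a: spanning. `z n` has degree `n` and leading coefficient `1 / u ^ M n`; then the `z n` span `S`
over `R[v]`. -/
theorem span_of_adapted {k S : Type} [Field k] [CommRing S] [IsDomain S] [Algebra k S]
    {R : Subalgebra k S} {u : R} {f : R[X]} {v x y : S} (E : Env R u f v x y) (z : ℕ → S)
    (M : ℕ → ℕ) (hM : ∀ n, IsEps R u f.natDegree v x y n (M n))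
    (hz : ∀ n, (u : S) ^ M n * z n - bs f.natDegree x y n ∈ Low R f.natDegree v x y n) (w : S) :
    w ∈ Submodule.span ((Algebra.adjoin R {v}).restrictScalars k : Subalgebra k S)
      (Set.range z) := by
  obtain ⟨m, hm⟩ := E.kap w
  obtain ⟨n, hn⟩ := TrSpan.mem_Cx_low E.pres hm
  exact TrSpan.span_aux E z M hM hz n w m hn

end Pool.Agent.LNDQ.Tr
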