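import Pool.Agent.LNDQ.TrMonic

/-!
Group TR of the proof of Q1 for MP_821812: the leading coefficient of `ψ` is a unit, by integrality
of `y` over `k[v]` modulo `u`.
-/

set_option autoImplicit false

namespace Pool.Agent.LNDQ.Tr

open Polynomial Submodule

variable {k S : Type*} [Field k] [CommRing S] [IsDomain S] [Algebra k S]

/-- The leading coefficient of `ψ` is a unit. -/
theorem Data0.isUnit_lc (T : Data0 k S) (h0 : T.l 0 = 0) {y : S} (hy : y ∈ T.Cc)
    (hresy : T.res ⟨y, hy⟩ = X ^ T.β) (χ : k[X][X]) (hχ : χ.Monic)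
    (hdvd : T.u ∣ eval₂ (aeval T.v : k[X] →ₐ[k] S).toRingHom y χ) :
    IsUnit T.ψ.leadingCoeff := by
  set v' : T.Cc := ⟨T.v, T.hAC T.hv⟩ with hv'
  set y' : T.Cc := ⟨y, hy⟩ with hy'
  set g : T.Cc := eval₂ (aeval v' : k[X] →ₐ[k] T.Cc).toRingHom y' χ with hg
  have hgS : (g : S) = eval₂ (aeval T.v : k[X] →ₐ[k] S).toRingHom y χ := by
    have h1 := Polynomial.hom_eval₂ χ (aeval v' : k[X] →ₐ[k] T.Cc).toRingHom
      (T.Cc.val : T.Cc →ₐ[k] S).toRingHom y'
    have h2 : (T.Cc.val : T.Cc →ₐ[k] S).toRingHom.comp (aeval v' : k[X] →ₐ[k] T.Cc).toRingHom =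
        (aeval T.v : k[X] →ₐ[k] S).toRingHom := by
      apply RingHom.ext
      intro q
      exact (Polynomial.aeval_algHom_apply T.Cc.val v' q).symm
    rw [h2] at h1
    exact h1
  obtain ⟨x, hx⟩ := hdvd
  have hdiv := T.psi_dvd (g : S) g.2 1 x (by rw [hgS, hx, pow_one]) 1 (fun b hb => by
    rcases Nat.eq_zero_or_pos b with rfl | h
    · omega
    · exact h)
  rw [pow_one] at hdiv
  refine leadingCoeff_isUnit (P := T.res g) ?_ hdiv
  -- the residue of `g`
  have h3 : T.res g = expand k[X] T.β (χ.map (expand k T.β).toRingHom) := by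
    have h1 := Polynomial.hom_eval₂ χ (aeval v' : k[X] →ₐ[k] T.Cc).toRingHom
      (T.res : T.Cc →ₐ[k] k[X][X]).toRingHom y'
    have h2 : (T.res : T.Cc →ₐ[k] k[X][X]).toRingHom.comp
        (aeval v' : k[X] →ₐ[k] T.Cc).toRingHom = C.comp (expand k T.β).toRingHom := by
      apply RingHom.ext
      intro q
      have h4 : T.res (aeval v' q) = aeval (T.res v') q :=
        (Polynomial.aeval_algHom_apply T.res v' q).symm
      show T.res (aeval v' q) = C (expand k T.β q)
      rw [h4, show T.res v' = Polynomial.C (X ^ T.β) from T.hresv, expand_eq_comp_X_pow,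
        Polynomial.comp, Polynomial.eval₂_eq_sum, Polynomial.aeval_eq_sum_range,
        Polynomial.sum_over_range]
      · rw [map_sum]
        refine Finset.sum_congr rfl fun i _ => ?_
        simp only [map_mul, Algebra.smul_def, map_pow, Polynomial.algebraMap_apply,
          Polynomial.algebraMap_eq]
      · intro i; simp
    rw [h2] at h1
    have h5 : (T.res : T.Cc →ₐ[k] k[X][X]).toRingHom y' = X ^ T.β := hresy
    rw [h5] at h1
    have h6 : T.res g = (T.res : T.Cc →ₐ[k] k[X][X]).toRingHom g := rfl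
    rw [h6, hg, h1, expand_eq_comp_X_pow, comp, eval₂_map]
  rw [h3]
  exact (hχ.map _).expand T.hβ

end Pool.Agent.LNDQ.Tr
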