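import Pool.Agent.LNDQ.TrMonic
import Pool.Agent.LNDQ.TrUnit
import Pool.Agent.LNDQ.TrMv
import Pool.Agent.LNDQ.TrSpan
import Pool.Agent.LNDQ.TrCx
import Pool.Agent.LNDQ.TrInd
import Pool.Agent.LNDQ.NfIntg
import Pool.Agent.LNDQ.NfLow

/-!
Group TR of the proof of Q1 for MP_821812: small facts for the final assembly.
-/

set_option autoImplicit false

namespace Pool.Agent.LNDQ.Tr

open Polynomial Submodule

variable {k S : Type} [Field k] [CommRing S] [IsDomain S] [Algebra k S] {R : Subalgebra k S}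
  {u : R} {f : R[X]} {v x y : S}

/-- the ring `R[v]` -/
abbrev Av {k S : Type} [Field k] [CommRing S] [Algebra k S] (R : Subalgebra k S) (v : S) :
    Subalgebra k S := (Algebra.adjoin R {v}).restrictScalars k

omit [IsDomain S] in
theorem aeval_mem_Av (R : Subalgebra k S) (v : S) (p : R[X]) : aeval v p ∈ Av R v := by
  show aeval v p ∈ Algebra.adjoin R {v}
  exact aeval_mem_adjoin_singleton R v

omit [IsDomain S] in
theorem exists_of_mem_Av {a : S} (ha : a ∈ Av R v) : ∃ p : R[X], a = aeval v p := by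
  have h : a ∈ Algebra.adjoin R ({v} : Set S) := ha
  rw [Algebra.adjoin_singleton_eq_range_aeval] at h
  obtain ⟨p, hp⟩ := h
  exact ⟨p, hp.symm⟩

omit [IsDomain S] in
theorem v_mem_Av (R : Subalgebra k S) (v : S) : v ∈ Av R v :=
  Algebra.subset_adjoin (Set.mem_singleton v)

omit [IsDomain S] in
theorem R_mem_Av (v : S) (r : R) : (r : S) ∈ Av R v := by
  show algebraMap R S r ∈ Algebra.adjoin R {v}
  exact Subalgebra.algebraMap_mem _ r

omit [IsDomain S] in
theorem Av_le_Cx (R : Subalgebra k S) (v x y : S) : Av R v ≤ Cx R v x y := by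
  intro z hz
  have h : z ∈ Algebra.adjoin R ({v} : Set S) := hz
  show z ∈ Algebra.adjoin R {v, x, y}
  exact Algebra.adjoin_mono (Set.singleton_subset_iff.2 (Set.mem_insert _ _)) h

omit [IsDomain S] in
theorem v_mem (R : Subalgebra k S) (v x y : S) : v ∈ Cx R v x y :=
  Algebra.subset_adjoin (Set.mem_insert _ _)

omit [IsDomain S] in
theorem x_mem (R : Subalgebra k S) (v x y : S) : x ∈ Cx R v x y :=
  Algebra.subset_adjoin (Set.mem_insert_of_mem _ (Set.mem_insert _ _))

omit [IsDomain S] in
theorem y_mem (R : Subalgebra k S) (v x y : S) : y ∈ Cx R v x y :=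
  Algebra.subset_adjoin (Set.mem_insert_of_mem _ (Set.mem_insert_of_mem _ (Set.mem_singleton _)))

omit [IsDomain S] in
theorem R_mem (v x y : S) (r : R) : (r : S) ∈ Cx R v x y := Av_le_Cx R v x y (R_mem_Av v r)

omit [IsDomain S] in
theorem bs_mem (R : Subalgebra k S) (β : ℕ) (v x y : S) (n : ℕ) : bs β x y n ∈ Cx R v x y :=
  mul_mem (pow_mem (x_mem R v x y) _) (pow_mem (y_mem R v x y) _)

omit [IsDomain S] in
/-- `Low` as a span over `R[v]` -/
theorem mem_span_of_low {β n : ℕ} {z : S} (hz : z ∈ Low R β v x y n) :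
    z ∈ span (Av R v) (bs β x y '' Set.Iio n) := by
  induction hz using Submodule.span_induction with
  | mem z hz =>
    obtain ⟨i, j, hj, rfl⟩ := hz
    have : v ^ i * bs β x y j = (⟨v ^ i, pow_mem (v_mem_Av R v) i⟩ : Av R v) • bs β x y j := rfl
    rw [this]
    exact Submodule.smul_mem _ _ (subset_span ⟨j, hj, rfl⟩)
  | zero => exact Submodule.zero_mem _
  | add a b _ _ ha hb => exact Submodule.add_mem _ ha hb
  | smul r a _ ha =>
    have : r • a = (⟨(r : S), R_mem_Av v r⟩ : Av R v) • a := rfl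
    rw [this]
    exact Submodule.smul_mem _ _ ha

omit [IsDomain S] in
theorem low_of_mem_span {β n : ℕ} {z : S} (hz : z ∈ span (Av R v) (bs β x y '' Set.Iio n)) :
    z ∈ Low R β v x y n := by
  induction hz using Submodule.span_induction with
  | mem z hz =>
    obtain ⟨j, hj, rfl⟩ := hz
    exact subset_span ⟨0, j, hj, by rw [pow_zero, one_mul]⟩
  | zero => exact Submodule.zero_mem _
  | add a b _ _ ha hb => exact Submodule.add_mem _ ha hb
  | smul r a _ ha =>
    obtain ⟨p, hp⟩ := exists_of_mem_Av r.2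
    have : r • a = aeval v p * a := by
      rw [← hp]; rfl
    rw [this]
    exact TrSpan.poly_mul_mem ha p

omit [IsDomain S] in
theorem mem_span_of_low' {β n : ℕ} {z : S} (hz : z ∈ Low R β v x y n) :
    z ∈ span (Av R v) (Set.range (bs β x y)) :=
  span_mono (Set.image_subset_range _ _) (mem_span_of_low hz)

/-- an element with leading coefficient `1 / u ^ M`: exact form -/
theorem exact_of_LT (E : Env R u f v x y) {n M m : ℕ} {a : R[X]} {z : S}
    (hM : IsEps R u f.natDegree v x y n M) (hz : LT R u f.natDegree v x y n m a z) :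
    ∃ b : R[X], C u ^ m * b = C u ^ M * a ∧
      (u : S) ^ M * z - aeval v b * bs f.natDegree x y n ∈ Low R f.natDegree v x y n := by
  have hu : (u : S) ≠ 0 := TrSpan.u_ne E
  obtain ⟨t, ht⟩ := hz
  have hfl : Fl R u f.natDegree v x y (n + 1) z := by
    refine ⟨m + t, ?_⟩
    have h1 : (u : S) ^ (m + t) * z = ((u : S) ^ (m + t) * z -
        (u : S) ^ t * (aeval v a * bs f.natDegree x y n)) +
        aeval v (C u ^ t * a) * bs f.natDegree x y n := by
      rw [map_mul, map_pow, aeval_C]
      show _ = _ + (u : S) ^ t * aeval v a * _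
      ring
    rw [h1]
    exact Submodule.add_mem _ (TrSpan.low_mono (Nat.le_succ n) ht)
      (TrSpan.poly_bs_mem _ (Nat.lt_succ_self n))
  have h2 := intg_low E hM hfl
  obtain ⟨b, hb⟩ := TrSpan.low_succ h2
  refine ⟨b, ?_, hb⟩
  -- compare leading coefficients of `u ^ (M + m + t) z`
  have h3 : aeval v (C u ^ t * (C u ^ m * b - C u ^ M * a)) * bs f.natDegree x y n ∈
      Low R f.natDegree v x y n := by
    have h4 := Submodule.sub_mem _ (TrSpan.poly_mul_mem ht (C u ^ M))
      (TrSpan.poly_mul_mem hb (C u ^ (m + t)))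
    have h5 : aeval v (C u ^ M : R[X]) * ((u : S) ^ (m + t) * z -
        (u : S) ^ t * (aeval v a * bs f.natDegree x y n)) -
        aeval v (C u ^ (m + t) : R[X]) * ((u : S) ^ M * z - aeval v b * bs f.natDegree x y n) =
        aeval v (C u ^ t * (C u ^ m * b - C u ^ M * a)) * bs f.natDegree x y n := by
      simp only [map_mul, map_sub, map_pow, aeval_C]
      show (u : S) ^ M * _ - (u : S) ^ (m + t) * _ = (u : S) ^ t * ((u : S) ^ m * aeval v b -
        (u : S) ^ M * aeval v a) * _
      rw [pow_add]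
      ring
    rwa [h5] at h4
  have h6 := low_lead E.pres n _ h3
  have hCu : (C u : R[X]) ≠ 0 := by
    rw [Ne, C_eq_zero]
    intro h
    exact hu (congrArg Subtype.val h)
  rcases mul_eq_zero.1 h6 with h7 | h7
  · exact absurd h7 (pow_ne_zero _ hCu)
  · exact sub_eq_zero.1 h7

end Pool.Agent.LNDQ.Tr
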