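import Pool.Agent.LNDQ.TrFin0
import Pool.Agent.LNDQ.NNmultE
import Pool.Agent.LNDQ.NfEps

/-!
Group TR of the proof of Q1 for MP_821812: the final assembly for `θ = 0`.
-/

set_option autoImplicit false

namespace Pool.Agent.LNDQ.Tr

open Polynomial Submodule

variable {k S : Type} [Field k] [CommRing S] [IsDomain S] [Algebra k S] {R : Subalgebra k S}
  {u : R} {f : R[X]} {v x y : S}

theorem Cu_ne (hu : (u : S) ≠ 0) : (C u : R[X]) ≠ 0 := by
  rw [Ne, C_eq_zero]
  intro h
  exact hu (congrArg Subtype.val h)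

/-- the exponent in degree `0` is `0` -/
theorem eps_zero (E : Env R u f v x y) {M : ℕ} (hM : IsEps R u f.natDegree v x y 0 M) : M = 0 := by
  obtain ⟨z, a, ha, hz⟩ := hM.ex
  by_contra hM0
  have hu : (u : S) ≠ 0 := TrSpan.u_ne E
  obtain ⟨t, ht⟩ := hz
  have h1 := TrSpan.low_zero' ht
  have h2 : bs f.natDegree x y 0 = 1 := by simp [bs]
  rw [h2, mul_one] at h1
  have h3 : (u : S) ^ t * ((u : S) ^ M * z - aeval v a) = 0 := by
    rw [← h1, pow_add]; ring
  rcases mul_eq_zero.1 h3 with h4 | h4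
  · exact absurd h4 (pow_ne_zero _ hu)
  · apply ha
    apply E.vtr
    rw [← sub_eq_zero.1 h4]
    exact Dvd.dvd.mul_right (dvd_pow_self _ hM0) _

omit [IsDomain S] in
/-- the basis elements of the two presentations -/
theorem bs_scale {β : ℕ} {x1 y1 : S} (c : S) (n : ℕ) :
    bs β (c * x1) (c ^ β * y1) n = c ^ n * bs β x1 y1 n := by
  unfold bs
  rw [mul_pow, mul_pow, ← pow_mul]
  have : c ^ n = c ^ (n % β) * c ^ (β * (n / β)) := by
    rw [← pow_add, Nat.mod_add_div]
  rw [this]; ring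

omit [IsDomain S] in
/-- `u ^ b` times an element of degree `< b` is `u` times an element of the ring `R[v, ux, u^β y]` -/
theorem low_scale {β : ℕ} {x1 y1 : S} {b : ℕ} {z : S} (hz : z ∈ Low R β v x1 y1 b) :
    ∃ w ∈ Low R β v ((u : S) * x1) ((u : S) ^ β * y1) b, (u : S) ^ b * z = (u : S) * w := by
  induction hz using Submodule.span_induction with
  | mem z hz =>
    obtain ⟨i, j, hj, rfl⟩ := hz
    refine ⟨(u ^ (b - j - 1) : R) • (v ^ i * bs β ((u : S) * x1) ((u : S) ^ β * y1) j),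
      Submodule.smul_mem _ _ (subset_span ⟨i, j, hj, rfl⟩), ?_⟩
    rw [bs_scale, Algebra.smul_def]
    show _ = (u : S) * (((u ^ (b - j - 1) : R) : S) * _)
    push_cast
    have : (u : S) ^ b = (u : S) ^ (b - j - 1) * (u : S) * (u : S) ^ j := by
      rw [← pow_succ, ← pow_add]
      congr 1
      omega
    rw [this]; ring
  | zero => exact ⟨0, Submodule.zero_mem _, by simp⟩
  | add a c _ _ ha hc =>
    obtain ⟨w, hw, h1⟩ := ha
    obtain ⟨w', hw', h2⟩ := hc
    exact ⟨w + w', Submodule.add_mem _ hw hw', by rw [mul_add, mul_add, h1, h2]⟩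
  | smul r a _ ha =>
    obtain ⟨w, hw, h1⟩ := ha
    refine ⟨r • w, Submodule.smul_mem _ _ hw, ?_⟩
    rw [mul_smul_comm, h1, mul_smul_comm]

/-- The families of the transfer step: adapted elements of the second datum. -/
theorem exists_family {f2 : R[X]} {v1 x1 y1 : S} (E2 : Env R u f2 v1 x1 y1)
    (hQ : Q1A R u f2 v1 x1 y1) :
    ∃ (z : ℕ → S) (M : ℕ → ℕ), Monotone M ∧ M 0 = 0 ∧
      (∀ n, IsEps R u f2.natDegree v1 x1 y1 n (M n)) ∧
      ∀ n, (u : S) ^ M n * z n - bs f2.natDegree x1 y1 n ∈ Low R f2.natDegree v1 x1 y1 n := by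
  choose M hM using E2.eps
  choose z hz using fun n => hQ n (M n) (hM n)
  refine ⟨z, M, fun a b hab => eps_mono_le E2 hab (hM a) (hM b), eps_zero E2 (hM 0), hM, ?_⟩
  intro n
  obtain ⟨b, hb, h⟩ := exact_of_LT E2 (hM n) (hz n)
  have hb1 : b = 1 := mul_left_cancel₀ (pow_ne_zero _ (Cu_ne (TrSpan.u_ne E2))) hb
  rw [hb1, map_one, one_mul] at h
  exact h

end Pool.Agent.LNDQ.Tr
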