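import Mathlib

/-!
Transfer lemma (T2 of group TR for MP_821812, full Q1): lifting of leading forms.
-/

set_option autoImplicit false

namespace Pool.Agent.LNDQ.Tr

open Submodule

variable {A S : Type*} [CommRing A] [CommRing S] [Algebra A S]

/-- `W u l`: the elements divisible by `u ^ l` in `S`. -/
def W (u : A) (l : ℕ) : Submodule A S where
  carrier := {z | ∃ y : S, z = u ^ l • y}
  add_mem' := by
    rintro a b ⟨y, rfl⟩ ⟨z, rfl⟩
    exact ⟨y + z, by rw [smul_add]⟩
  zero_mem' := ⟨0, by rw [smul_zero]⟩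
  smul_mem' := by
    rintro c x ⟨y, rfl⟩
    exact ⟨c • y, by rw [smul_comm]⟩

theorem mem_W {u : A} {l : ℕ} {z : S} : z ∈ (W u l : Submodule A S) ↔ ∃ y : S, z = u ^ l • y :=
  Iff.rfl

theorem W_antitone (u : A) {l m : ℕ} (h : l ≤ m) :
    (W u m : Submodule A S) ≤ W u l := by
  rintro z ⟨y, rfl⟩
  obtain ⟨c, rfl⟩ := Nat.exists_eq_add_of_le h
  exact ⟨u ^ c • y, by rw [smul_smul, pow_add]⟩

theorem smul_mem_W (u : A) {l : ℕ} {z : S} (hz : z ∈ (W u l : Submodule A S)) :
    u • z ∈ (W u (l + 1) : Submodule A S) := by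
  obtain ⟨y, rfl⟩ := hz
  exact ⟨y, by rw [smul_smul, pow_succ']⟩

/-- First step: modulo `u`, everything is a sum of an element of degree `≤ n` and of an element of
`W u m`, if the elements `ζ j`, `j > n`, are in `W u m`. -/
theorem step_one (u : A) (e ζ : ℕ → S) (l : ℕ → ℕ) (hl : Monotone l)
    (hζ : ∀ n, ∃ w ∈ span A (Set.range e), ζ n - e n - u • w ∈ span A (e '' Set.Iio n))
    (hW : ∀ n, ζ n ∈ (W u (l n) : Submodule A S)) (n m : ℕ) (hm : m ≤ l n) (j : ℕ) :
    ∃ a ∈ span A (e '' Set.Iic n), ∃ b ∈ (W u m : Submodule A S),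
      ∃ c ∈ span A (Set.range e), e j = a + b + u • c := by
  induction j using Nat.strong_induction_on with
  | _ j ih =>
    by_cases hj : j ≤ n
    · exact ⟨e j, subset_span ⟨j, hj, rfl⟩, 0, Submodule.zero_mem _, 0, Submodule.zero_mem _, by simp⟩
    · push Not at hj
      obtain ⟨w, hw, hd⟩ := hζ j
      -- every element of the span of the `e i`, `i < j`, has the property
      have key : ∀ x ∈ span A (e '' Set.Iio j), ∃ a ∈ span A (e '' Set.Iic n),
          ∃ b ∈ (W u m : Submodule A S), ∃ c ∈ span A (Set.range e), x = a + b + u • c := by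
        intro x hx
        induction hx using Submodule.span_induction with
        | mem x hx =>
          obtain ⟨i, hi, rfl⟩ := hx
          exact ih i hi
        | zero => exact ⟨0, Submodule.zero_mem _, 0, Submodule.zero_mem _, 0, Submodule.zero_mem _, by simp⟩
        | add x y _ _ hx hy =>
          obtain ⟨a, ha, b, hb, c, hc, rfl⟩ := hx
          obtain ⟨a', ha', b', hb', c', hc', rfl⟩ := hy
          refine ⟨a + a', add_mem ha ha', b + b', add_mem hb hb', c + c', add_mem hc hc', ?_⟩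
          rw [smul_add]; ring
        | smul r x _ hx =>
          obtain ⟨a, ha, b, hb, c, hc, rfl⟩ := hx
          refine ⟨r • a, Submodule.smul_mem _ _ ha, r • b, Submodule.smul_mem _ _ hb, r • c,
            Submodule.smul_mem _ _ hc, ?_⟩
          rw [smul_add, smul_add, smul_comm r u c]
      obtain ⟨a, ha, b, hb, c, hc, hx⟩ := key _ hd
      refine ⟨-a, neg_mem ha, ζ j - b, sub_mem (W_antitone u (hm.trans (hl hj.le)) (hW j)) hb,
        -(w + c), neg_mem (add_mem hw hc), ?_⟩
      rw [smul_neg, smul_add]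
      linear_combination -hx

theorem step_two (u : A) (e ζ : ℕ → S) (l : ℕ → ℕ) (hl : Monotone l)
    (hζ : ∀ n, ∃ w ∈ span A (Set.range e), ζ n - e n - u • w ∈ span A (e '' Set.Iio n))
    (hW : ∀ n, ζ n ∈ (W u (l n) : Submodule A S)) (n m : ℕ) (hm : m ≤ l n) :
    ∀ x ∈ span A (Set.range e), ∃ a ∈ span A (e '' Set.Iic n), ∃ b ∈ (W u m : Submodule A S),
      x = a + b := by
  have h1 : ∀ x ∈ span A (Set.range e), ∃ a ∈ span A (e '' Set.Iic n),
      ∃ b ∈ (W u m : Submodule A S), ∃ c ∈ span A (Set.range e), x = a + b + u • c := by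
    intro x hx
    induction hx using Submodule.span_induction with
    | mem x hx =>
      obtain ⟨i, rfl⟩ := hx
      exact step_one u e ζ l hl hζ hW n m hm i
    | zero => exact ⟨0, Submodule.zero_mem _, 0, Submodule.zero_mem _, 0, Submodule.zero_mem _, by simp⟩
    | add x y _ _ hx hy =>
      obtain ⟨a, ha, b, hb, c, hc, rfl⟩ := hx
      obtain ⟨a', ha', b', hb', c', hc', rfl⟩ := hy
      refine ⟨a + a', add_mem ha ha', b + b', add_mem hb hb', c + c', add_mem hc hc', ?_⟩
      rw [smul_add]; ring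
    | smul r x _ hx =>
      obtain ⟨a, ha, b, hb, c, hc, rfl⟩ := hx
      refine ⟨r • a, Submodule.smul_mem _ _ ha, r • b, Submodule.smul_mem _ _ hb, r • c,
        Submodule.smul_mem _ _ hc, ?_⟩
      rw [smul_add, smul_add, smul_comm r u c]
  have h2 : ∀ i : ℕ, ∀ x ∈ span A (Set.range e), ∃ a ∈ span A (e '' Set.Iic n),
      ∃ b ∈ (W u m : Submodule A S), ∃ c ∈ span A (Set.range e), x = a + b + u ^ i • c := by
    intro i
    induction i with
    | zero =>
      intro x hx
      exact ⟨0, Submodule.zero_mem _, 0, Submodule.zero_mem _, x, hx, by simp⟩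
    | succ i ih =>
      intro x hx
      obtain ⟨a, ha, b, hb, c, hc, rfl⟩ := ih x hx
      obtain ⟨a', ha', b', hb', c', hc', rfl⟩ := h1 c hc
      refine ⟨a + u ^ i • a', add_mem ha (Submodule.smul_mem _ _ ha'), b + u ^ i • b',
        add_mem hb (Submodule.smul_mem _ _ hb'), c', hc', ?_⟩
      rw [smul_add, smul_add, smul_smul, pow_succ]; ring
  intro x hx
  obtain ⟨a, ha, b, hb, c, hc, rfl⟩ := h2 m x hx
  exact ⟨a, ha, b + u ^ m • c, add_mem hb ⟨c, rfl⟩, by ring⟩

/-- The transfer lemma: leading forms lift with exact leading coefficient. -/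
theorem lift (u : A) (e ζ : ℕ → S) (l : ℕ → ℕ) (hl : Monotone l)
    (hζ : ∀ n, ∃ w ∈ span A (Set.range e), ζ n - e n - u • w ∈ span A (e '' Set.Iio n))
    (hW : ∀ n, ζ n ∈ (W u (l n) : Submodule A S)) (n : ℕ) :
    ∃ z ∈ (W u (l n) : Submodule A S), z - e n ∈ span A (e '' Set.Iio n) := by
  obtain ⟨w, hw, hd⟩ := hζ n
  obtain ⟨a, ha, b, hb, rfl⟩ :=
    step_two u e ζ l hl hζ hW n (l n - 1) (Nat.sub_le _ _) w hw
  -- `z₁ = ζ n - u b`
  have hz1 : ζ n - u • b ∈ (W u (l n) : Submodule A S) := by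
    refine sub_mem (hW n) ?_
    rcases Nat.eq_zero_or_pos (l n) with h0 | h0
    · rw [h0]; exact ⟨u • b, by simp⟩
    · have := smul_mem_W u hb
      rwa [Nat.sub_add_cancel h0] at this
  -- `a = r e n + lower`
  have hIic : (e '' Set.Iic n) = insert (e n) (e '' Set.Iio n) := by
    rw [← Set.Iio_insert, Set.image_insert_eq]
  rw [hIic, Submodule.mem_span_insert] at ha
  obtain ⟨r, a', ha', rfl⟩ := ha
  have hz2 : (ζ n - u • b) - (1 + u * r) • e n ∈ span A (e '' Set.Iio n) := by
    have : (ζ n - u • b) - (1 + u * r) • e n =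
        (ζ n - e n - u • (r • e n + a' + b)) + u • a' := by
      rw [add_smul, one_smul, smul_add, smul_add, smul_smul]; ring
    rw [this]
    exact add_mem hd (Submodule.smul_mem _ _ ha')
  -- exact leading coefficient
  obtain ⟨c, hc⟩ : ∃ c : A, (1 + u * r) * c = 1 - (-(u * r)) ^ l n := by
    refine ⟨∑ i ∈ Finset.range (l n), (-(u * r)) ^ i, ?_⟩
    have := mul_neg_geom_sum (-(u * r)) (l n)
    rw [← this]; ring
  refine ⟨c • (ζ n - u • b) + (-(u * r)) ^ l n • e n, ?_, ?_⟩
  · refine add_mem (Submodule.smul_mem _ _ hz1) ⟨(-r) ^ l n • e n, ?_⟩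
    rw [smul_smul, ← mul_pow]; ring_nf
  · have : c • (ζ n - u • b) + (-(u * r)) ^ l n • e n - e n =
        c • ((ζ n - u • b) - (1 + u * r) • e n) := by
      have h3 : c • ((1 + u * r) • e n) = e n - (-(u * r)) ^ l n • e n := by
        rw [smul_smul, mul_comm c, hc, sub_smul, one_smul]
      rw [smul_sub c (ζ n - u • b), h3]; ring
    rw [this]
    exact Submodule.smul_mem _ _ hz2

end Pool.Agent.LNDQ.Tr
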