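import Pool.Agent.LNDQ.TrDefs

set_option autoImplicit false

namespace Pool.Agent.LNDQ.Tr

open Polynomial

variable {k : Type*} [Field k]

/-- the part of the exponents `r + β * m` of a polynomial -/
theorem exists_comp_pow {β : ℕ} (hβ : 0 < β) (q : k[X]) (r : ℕ)
    (h : ∀ i, q.coeff i ≠ 0 → i % β = r) : ∃ a : k[X], q = a.comp (X ^ β) * X ^ r := by
  classical
  let a : k[X] := ∑ m ∈ Finset.range (q.natDegree + 1), monomial m (q.coeff (r + β * m))
  have ha : ∀ m, a.coeff m = q.coeff (r + β * m) := by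
    intro m
    simp only [a, finsetSum_coeff, coeff_monomial]
    rw [Finset.sum_ite_eq']
    split_ifs with hm
    · rfl
    · rw [Finset.mem_range, not_lt] at hm
      symm
      apply coeff_eq_zero_of_natDegree_lt
      have : 1 * m ≤ β * m := Nat.mul_le_mul_right m hβ
      omega
  refine ⟨a, ?_⟩
  rw [← expand_eq_comp_X_pow]
  ext i
  rw [coeff_mul_X_pow', coeff_expand hβ]
  by_cases hi : q.coeff i = 0
  · rw [hi]
    split_ifs with h1 h2
    · rw [ha, Nat.mul_div_cancel' h2, Nat.add_sub_cancel' h1, hi]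
    · rfl
    · rfl
  · have hri := h i hi
    have h1 : r ≤ i := hri ▸ Nat.mod_le i β
    have h2 : β ∣ i - r := by
      rw [← hri]
      exact Nat.dvd_sub_mod i
    rw [if_pos h1, if_pos h2, ha, Nat.mul_div_cancel' h2, Nat.add_sub_cancel' h1]

/-- T1a: a polynomial of weight zero and `t`-degree at most `n` is a combination of the `mono β j`,
`j ≤ n`, over `k[s ^ β]`. -/
theorem exists_mono_expansion {β : ℕ} (hβ : 0 < β) {p : k[X][X]} (hp : IsWt β 0 p) :
    ∃ a : ℕ → k[X], p = ∑ j ∈ Finset.range (p.natDegree + 1),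
      C ((a j).comp (X ^ β)) * mono β j ∧
      p.leadingCoeff = (a p.natDegree).comp (X ^ β) * X ^ (p.natDegree % β) := by
  have h : ∀ j, ∃ a : k[X], p.coeff j = a.comp (X ^ β) * X ^ (j % β) := by
    intro j
    refine exists_comp_pow hβ _ _ fun i hi => ?_
    have := hp i j hi
    rw [sub_eq_zero, ZMod.natCast_eq_natCast_iff'] at this
    exact this
  choose a ha using h
  refine ⟨a, ?_, ha _⟩
  conv_lhs => rw [p.as_sum_range_C_mul_X_pow]
  refine Finset.sum_congr rfl fun j _ => ?_
  rw [ha j, mono, C_mul, mul_assoc]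

end Pool.Agent.LNDQ.Tr
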