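import Pool.Agent.LNDQ.TrDefs

/-!
Group TR: products and powers of semi-invariants; a semi-invariant multiple of `ψ ^ b` is a
combination of the elements `s₁ ^ (j % β) * ψ ^ j`, `b ≤ j`, over `k[s₁ ^ β]`.
-/

set_option autoImplicit false

namespace Pool.Agent.LNDQ.Tr

open Polynomial

variable {k : Type*} [Field k]

/-- T0a: products. -/
theorem IsWt.mul {β : ℕ} {w w' : ZMod β} {p q : k[X][X]} (hp : IsWt β w p) (hq : IsWt β w' q) :
    IsWt β (w + w') (p * q) := by
  intro a b h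
  rw [coeff_mul, finsetSum_coeff] at h
  obtain ⟨⟨b1, b2⟩, hb, h1⟩ := Finset.exists_ne_zero_of_sum_ne_zero h
  rw [coeff_mul] at h1
  obtain ⟨⟨a1, a2⟩, ha, h2⟩ := Finset.exists_ne_zero_of_sum_ne_zero h1
  have ha' := Finset.HasAntidiagonal.mem_antidiagonal.1 ha
  have hb' := Finset.HasAntidiagonal.mem_antidiagonal.1 hb
  have h3 := hp a1 b1 (left_ne_zero_of_mul h2)
  have h4 := hq a2 b2 (right_ne_zero_of_mul h2)
  simp only at ha' hb'
  rw [← ha', ← hb', ← h3, ← h4]
  push_cast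
  ring

theorem isWt_one (β : ℕ) : IsWt β 0 (1 : k[X][X]) := by
  intro a b h
  rw [coeff_one] at h
  split_ifs at h with h1
  · rw [coeff_one] at h
    split_ifs at h with h2
    · rw [h1, h2]
      simp
    · exact absurd rfl h
  · rw [coeff_zero] at h
    exact absurd rfl h

/-- T0b: powers. -/
theorem IsWt.pow {β : ℕ} {w : ZMod β} {p : k[X][X]} (hp : IsWt β w p) (n : ℕ) :
    IsWt β (n * w) (p ^ n) := by
  induction n with
  | zero =>
    rw [pow_zero, Nat.cast_zero, zero_mul]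
    exact isWt_one β
  | succ n ih =>
    rw [pow_succ, Nat.cast_succ, add_mul, one_mul]
    exact ih.mul hp

theorem isWt_s (β : ℕ) : IsWt β 1 (C X : k[X][X]) := by
  intro a b h
  rw [coeff_C] at h
  split_ifs at h with h1
  · rw [coeff_X] at h
    split_ifs at h with h2
    · rw [h1, ← h2]
      simp
    · exact absurd rfl h
  · rw [coeff_zero] at h
    exact absurd rfl h

theorem isWt_t (β : ℕ) : IsWt β (-1) (X : k[X][X]) := by
  intro a b h
  rw [coeff_X] at h
  split_ifs at h with h1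
  · rw [coeff_one] at h
    split_ifs at h with h2
    · rw [← h1, h2]
      simp
    · exact absurd rfl h
  · rw [coeff_zero] at h
    exact absurd rfl h

theorem IsWt.smul {β : ℕ} {w : ZMod β} {p : k[X][X]} (hp : IsWt β w p) (c : k) :
    IsWt β w (c • p) := by
  intro a b h
  rw [coeff_smul, coeff_smul, smul_eq_mul] at h
  exact hp a b (right_ne_zero_of_mul h)

theorem IsWt.sum {β : ℕ} {w : ZMod β} {ι : Type*} {S : Finset ι} {f : ι → k[X][X]}
    (hf : ∀ i ∈ S, IsWt β w (f i)) : IsWt β w (∑ i ∈ S, f i) := by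
  intro a b h
  rw [finsetSum_coeff, finsetSum_coeff] at h
  obtain ⟨i, hi, h1⟩ := Finset.exists_ne_zero_of_sum_ne_zero h
  exact hf i hi a b h1

/-- the component of weight `w` of a sum of semi-invariants -/
theorem IsWt.eq_filter {β : ℕ} {w : ZMod β} {ι : Type*} (S : Finset ι) (f : ι → k[X][X])
    (g : ι → ZMod β) (hf : ∀ i ∈ S, IsWt β (g i) (f i)) {z : k[X][X]} (hz : IsWt β w z)
    (h : z = ∑ i ∈ S, f i) : z = ∑ i ∈ S with g i = w, f i := by
  classical
  ext b a
  by_cases hw : (a : ZMod β) - b = w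
  · rw [h, Finset.sum_filter, finsetSum_coeff, finsetSum_coeff, finsetSum_coeff,
      finsetSum_coeff]
    refine Finset.sum_congr rfl fun i hi => ?_
    split_ifs with h1
    · rfl
    · rw [coeff_zero, coeff_zero]
      by_contra h2
      exact h1 ((hf i hi a b h2).symm.trans hw)
  · have h1 : (z.coeff b).coeff a = 0 := by
      by_contra h2
      exact hw (hz a b h2)
    have h3 : ((∑ i ∈ S with g i = w, f i).coeff b).coeff a = 0 := by
      by_contra h2
      refine hw ((IsWt.sum (w := w) fun i hi => ?_) a b h2)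
      rw [Finset.mem_filter] at hi
      rw [← hi.2]
      exact hf i hi.1
    rw [h1, h3]

/-- monomials in generators -/
theorem exists_monomials {s₁ ψ : k[X][X]} {z : k[X][X]} (hz : z ∈ Algebra.adjoin k {s₁, ψ}) :
    ∃ (S : Finset (ℕ × ℕ)) (c : ℕ × ℕ → k), z = ∑ i ∈ S, c i • (s₁ ^ i.1 * ψ ^ i.2) := by
  rw [← Subalgebra.mem_toSubmodule, Algebra.adjoin_eq_span] at hz
  have h1 : (Submonoid.closure ({s₁, ψ} : Set k[X][X]) : Set k[X][X]) ⊆
      Set.range fun i : ℕ × ℕ => s₁ ^ i.1 * ψ ^ i.2 := by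
    intro y hy
    rw [SetLike.mem_coe, Submonoid.mem_closure_pair] at hy
    obtain ⟨m, n, h⟩ := hy
    exact ⟨(m, n), h⟩
  have h2 := Submodule.span_mono h1 hz
  rw [Finsupp.mem_span_range_iff_exists_finsupp] at h2
  obtain ⟨c, hc⟩ := h2
  exact ⟨c.support, c, hc.symm⟩

/-- T1b: a weight zero multiple of `ψ ^ b` is a combination, over `k[s₁ ^ β]`, of the elements
`s₁ ^ (j % β) * ψ ^ j` with `j ≥ b`. -/
theorem exists_psi_expansion {β : ℕ} (_hβ : 0 < β) {s₁ ψ : k[X][X]} {ε : ZMod β}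
    (hε : ε = 1 ∨ ε = -1) (hs : IsWt β ε s₁) (hψ : IsWt β (-ε) ψ)
    (hgen : ∀ p : k[X][X], p ∈ Algebra.adjoin k {s₁, ψ}) (b : ℕ) (h : k[X][X])
    (hw : IsWt β 0 (ψ ^ b * h)) :
    ∃ c : ℕ →₀ k[X], (∀ j ∈ c.support, b ≤ j) ∧
      ψ ^ b * h = c.sum fun j p => aeval (s₁ ^ β) p * (s₁ ^ (j % β) * ψ ^ j) := by
  classical
  have hε' : IsUnit ε := by
    rcases hε with rfl | rfl
    · exact isUnit_one
    · exact isUnit_one.neg
  obtain ⟨S, c, hS⟩ := exists_monomials (hgen h)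
  have h0 : ψ ^ b * h = ∑ i ∈ S, c i • (s₁ ^ i.1 * ψ ^ (i.2 + b)) := by
    rw [hS, Finset.mul_sum]
    refine Finset.sum_congr rfl fun i _ => ?_
    have h2 : ψ ^ b * (s₁ ^ i.1 * ψ ^ i.2) = s₁ ^ i.1 * ψ ^ (i.2 + b) := by
      rw [pow_add]
      ring
    rw [mul_smul_comm, h2]
  have h1 := IsWt.eq_filter S (fun i => c i • (s₁ ^ i.1 * ψ ^ (i.2 + b)))
    (fun i => (i.1 : ZMod β) * ε + ((i.2 + b : ℕ) : ZMod β) * -ε)
    (fun i _ => ((hs.pow _).mul (hψ.pow _)).smul _) hw h0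
  -- the exponents
  have hexp : ∀ i ∈ S.filter
      (fun i : ℕ × ℕ => (i.1 : ZMod β) * ε + ((i.2 + b : ℕ) : ZMod β) * -ε = 0),
      i.1 % β = (i.2 + b) % β := by
    intro i hi
    have h2 := (Finset.mem_filter.1 hi).2
    have h3 : (i.1 : ZMod β) * ε = ((i.2 + b : ℕ) : ZMod β) * ε := by
      linear_combination h2
    have h4 := hε'.mul_right_cancel h3
    exact (ZMod.natCast_eq_natCast_iff _ _ _).1 h4
  refine ⟨∑ i ∈ S with (i.1 : ZMod β) * ε + ((i.2 + b : ℕ) : ZMod β) * -ε = 0,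
    Finsupp.single (i.2 + b) (C (c i) * X ^ (i.1 / β)), ?_, ?_⟩
  · intro j hj
    obtain ⟨i, -, hi⟩ := Finset.mem_biUnion.1 (Finsupp.support_finsetSum hj)
    have := Finsupp.support_single_subset hi
    rw [Finset.mem_singleton] at this
    omega
  · rw [← Finsupp.sum_finsetSum_index]
    · rw [h1]
      refine Finset.sum_congr rfl fun i hi => ?_
      rw [Finsupp.sum_single_index (by rw [map_zero, zero_mul]), map_mul, map_pow, aeval_X,
        aeval_C, Algebra.smul_def, ← hexp i hi]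
      have h5 : s₁ ^ i.1 = (s₁ ^ β) ^ (i.1 / β) * s₁ ^ (i.1 % β) := by
        rw [← pow_mul, ← pow_add, Nat.div_add_mod]
      rw [h5]
      ring
    · intro j
      rw [map_zero, zero_mul]
    · intro j p q
      rw [map_add, add_mul]

end Pool.Agent.LNDQ.Tr
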