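import Pool.Agent.LNDQ.TrDefs

set_option autoImplicit false

namespace Pool.Agent.LNDQ.Tr

open Polynomial

variable {k : Type*} [Field k]

theorem IsWt.mul' {β : ℕ} {w w' : ZMod β} {p q : k[X][X]} (hp : IsWt β w p) (hq : IsWt β w' q) :
    IsWt β (w + w') (p * q) := by
  intro i j h
  rw [coeff_mul, finsetSum_coeff] at h
  obtain ⟨⟨a, b⟩, hab, h1⟩ := Finset.exists_ne_zero_of_sum_ne_zero h
  rw [coeff_mul] at h1
  obtain ⟨⟨c, d⟩, hcd, h2⟩ := Finset.exists_ne_zero_of_sum_ne_zero h1
  replace hab := Finset.HasAntidiagonal.mem_antidiagonal.1 hab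
  replace hcd := Finset.HasAntidiagonal.mem_antidiagonal.1 hcd
  dsimp only at hab hcd h2
  have h3 := hp c a (left_ne_zero_of_mul h2)
  have h4 := hq d b (right_ne_zero_of_mul h2)
  rw [← hab, ← hcd, ← h3, ← h4]
  push_cast
  ring

theorem IsWt.pow' {β : ℕ} {w : ZMod β} {p : k[X][X]} (hp : IsWt β w p) (n : ℕ) :
    IsWt β (n * w) (p ^ n) := by
  induction n with
  | zero =>
    intro i j h
    rw [pow_zero, coeff_one] at h
    split_ifs at h with h1
    · rw [coeff_one] at h
      split_ifs at h with h2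
      · rw [h1, h2]
        simp
      · exact absurd rfl h
    · exact absurd (coeff_zero i) h
  | succ n ih =>
    rw [pow_succ]
    have := ih.mul' hp
    convert this using 1
    push_cast
    ring

/-- T1c: the explicit element of degree `n`: weight zero, leading term `mono β n`. -/
theorem zbar {β : ℕ} (hβ : 0 < β) {ψ : k[X][X]} {ε : ZMod β}
    (hψ : IsWt β (-ε) ψ) (hm : ψ.Monic) (hd : 0 < ψ.natDegree) (n : ℕ) :
    IsWt β 0 (ψ ^ (n / ψ.natDegree) * (C (X ^ (n % β)) * X ^ (n % ψ.natDegree))) ∧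
    (ψ ^ (n / ψ.natDegree) * (C (X ^ (n % β)) * X ^ (n % ψ.natDegree)) : k[X][X]).natDegree = n ∧
    (ψ ^ (n / ψ.natDegree) * (C (X ^ (n % β)) * X ^ (n % ψ.natDegree)) : k[X][X]).leadingCoeff =
      X ^ (n % β) := by
  have hX : (X ^ (n % β) : k[X]) ≠ 0 := pow_ne_zero _ X_ne_zero
  have hq : (C (X ^ (n % β)) * X ^ (n % ψ.natDegree) : k[X][X]) ≠ 0 :=
    mul_ne_zero (C_ne_zero.2 hX) (pow_ne_zero _ X_ne_zero)
  refine ⟨?_, ?_, ?_⟩
  · have hε : -ε = -(ψ.natDegree : ZMod β) := by
      have h := hψ 0 ψ.natDegree (by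
        rw [hm.coeff_natDegree, coeff_one_zero]
        exact one_ne_zero)
      rw [← h]
      simp
    have h2 : IsWt β ((n % β : ℕ) - (n % ψ.natDegree : ℕ) : ZMod β)
        (C (X ^ (n % β)) * X ^ (n % ψ.natDegree) : k[X][X]) := by
      intro i j h
      rw [coeff_C_mul, coeff_X_pow] at h
      split_ifs at h with h1
      · rw [mul_one, coeff_X_pow] at h
        split_ifs at h with h3
        · rw [h1, h3]
        · exact absurd rfl h
      · rw [mul_zero, coeff_zero] at h
        exact absurd rfl h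
    have h3 := (hψ.pow' (n / ψ.natDegree)).mul' h2
    convert h3 using 1
    rw [hε, ZMod.natCast_mod]
    have h4 : ((n / ψ.natDegree : ℕ) : ZMod β) * -(ψ.natDegree : ZMod β) +
        ((n : ZMod β) - ((n % ψ.natDegree : ℕ) : ZMod β)) =
        (n : ZMod β) - ((ψ.natDegree * (n / ψ.natDegree) + n % ψ.natDegree : ℕ) : ZMod β) := by
      push_cast
      ring
    rw [h4, Nat.div_add_mod, sub_self]
  · rw [(hm.pow _).natDegree_mul' hq, hm.natDegree_pow, natDegree_C_mul hX, natDegree_X_pow,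
      mul_comm (n / ψ.natDegree), Nat.div_add_mod]
  · rw [leadingCoeff_mul, (hm.pow _).leadingCoeff, one_mul, leadingCoeff_mul, leadingCoeff_C,
      leadingCoeff_X_pow, mul_one]

end Pool.Agent.LNDQ.Tr
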