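import Pool.Agent.LNDQ.TrLift
import Pool.Agent.LNDQ.TrPsi
import Pool.Agent.LNDQ.TrMono
import Pool.Agent.LNDQ.TrZbar
import Pool.Agent.LNDQ.TrDeg

/-!
Group TR of the proof of Q1 for MP_821812: abstract form of the transfer step.
-/

set_option autoImplicit false

namespace Pool.Agent.LNDQ.Tr

open Polynomial Submodule

variable {k S : Type*} [Field k] [CommRing S] [IsDomain S] [Algebra k S]

/-- Input of the transfer step. `A = R[v]`, `A₁ = R[v₁]`, `Cc = R[v, x, y]`, `res` = reduction of `Cc`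
modulo `u`, embedded in `k[s, t]`; `e n = x ^ (n % β) * y ^ (n / β)`; `Xb b` = basis of `S` over `A₁`. -/
structure Data0 (k S : Type*) [Field k] [CommRing S] [IsDomain S] [Algebra k S] where
  β : ℕ
  hβ : 0 < β
  u : S
  hu : u ≠ 0
  A : Subalgebra k S
  A₁ : Subalgebra k S
  Cc : Subalgebra k S
  hAC : A ≤ Cc
  hA₁C : A₁ ≤ Cc
  huA : u ∈ A
  huA₁ : u ∈ A₁
  res : Cc →ₐ[k] k[X][X]
  hker : ∀ z : Cc, res z = 0 → ∃ w : Cc, (z : S) = u * w
  hresu : res ⟨u, hAC huA⟩ = 0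
  v : S
  hv : v ∈ A
  hresv : res ⟨v, hAC hv⟩ = Polynomial.C (X ^ β)
  e : ℕ → S
  heC : ∀ n, e n ∈ Cc
  hrese : ∀ n, res ⟨e n, heC n⟩ = mono β n
  hespan : ∀ z ∈ Cc, z ∈ span A (Set.range e)
  s₁ : k[X][X]
  ψ : k[X][X]
  ε : ZMod β
  hε : ε = 1 ∨ ε = -1
  hs : IsWt β ε s₁
  hψ : IsWt β (-ε) ψ
  hgen : ∀ p : k[X][X], p ∈ Algebra.adjoin k {s₁, ψ}
  v₁ : S
  hv₁ : v₁ ∈ A₁
  hresv₁ : res ⟨v₁, hA₁C hv₁⟩ = s₁ ^ β
  Xb : ℕ → S
  l : ℕ → ℕ
  hl : StrictMono l
  hZC : ∀ b, u ^ l b * Xb b ∈ Cc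
  hresZ : ∀ b, res ⟨u ^ l b * Xb b, hZC b⟩ = s₁ ^ (b % β) * ψ ^ b
  hXspan : ∀ x : S, x ∈ span A₁ (Set.range Xb)
  hXind : LinearIndependent A₁ Xb
  hZspan : ∀ z ∈ Cc, z ∈ span A₁ (Set.range fun b => u ^ l b * Xb b)

/-- The same, with `ψ` monic of positive degree in `t`. -/
structure Data (k S : Type*) [Field k] [CommRing S] [IsDomain S] [Algebra k S] extends Data0 k S where
  hm : ψ.Monic
  hd : 0 < ψ.natDegree

namespace Data0

variable (T : Data0 k S)

/-- If `u ^ m` divides (in `S`) the element `g` of `Cc`, and `b₀ ≤ b` for all `b` with `m ≤ l b`, then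
`ψ ^ b₀` divides the residue of `g`. -/
theorem psi_dvd (g : S) (hg : g ∈ T.Cc) (m : ℕ) (x : S) (hx : g = T.u ^ m * x) (b₀ : ℕ)
    (hb₀ : ∀ b, m ≤ T.l b → b₀ ≤ b) : T.ψ ^ b₀ ∣ T.res ⟨g, hg⟩ := by
  classical
  obtain ⟨r, hr⟩ := (Finsupp.mem_span_range_iff_exists_finsupp).1 (T.hXspan x)
  obtain ⟨c, hc⟩ := (Finsupp.mem_span_range_iff_exists_finsupp).1 (T.hZspan g hg)
  let u₁ : T.A₁ := ⟨T.u, T.huA₁⟩
  have h1 : Finsupp.linearCombination T.A₁ T.Xb
      (Finsupp.onFinset c.support (fun b => c b * u₁ ^ T.l b) (fun b hb => by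
        rw [Finsupp.mem_support_iff]; intro h; exact hb (by rw [h, zero_mul]))) = g := by
    rw [← hc, Finsupp.linearCombination_onFinset, Finsupp.sum]
    refine Finset.sum_congr rfl fun b _ => ?_
    rw [mul_smul]
    rfl
  have h2 : Finsupp.linearCombination T.A₁ T.Xb (u₁ ^ m • r) = g := by
    rw [map_smul, Finsupp.linearCombination_apply, hr, hx]
    rfl
  have h3 := T.hXind (h1.trans h2.symm)
  have hlin : ∀ b, c b * u₁ ^ T.l b = u₁ ^ m * r b := by
    intro b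
    have := DFunLike.congr_fun h3 b
    rw [Finsupp.onFinset_apply, Finsupp.smul_apply, smul_eq_mul] at this
    exact this
  have hu₁ : u₁ ≠ 0 := fun h => T.hu (congrArg Subtype.val h)
  have hres0 : ∀ b, T.l b < m → T.res ⟨c b, T.hA₁C (c b).2⟩ = 0 := by
    intro b hb
    have h4 : c b = u₁ * (u₁ ^ (m - T.l b - 1) * r b) := by
      have h5 : u₁ ^ T.l b ≠ 0 := pow_ne_zero _ hu₁
      apply mul_right_cancel₀ h5
      rw [hlin b]
      have h6 : m = 1 + (m - T.l b - 1) + T.l b := by omega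
      conv_lhs => rw [h6, pow_add, pow_add, pow_one]
      ring
    have h7 : (⟨(c b : S), T.hA₁C (c b).2⟩ : T.Cc) =
        ⟨T.u, T.hAC T.huA⟩ * ⟨((u₁ ^ (m - T.l b - 1) * r b : T.A₁) : S), T.hA₁C (SetLike.coe_mem _)⟩ := by
      apply Subtype.ext
      show ((c b : T.A₁) : S) = T.u * ((u₁ ^ (m - T.l b - 1) * r b : T.A₁) : S)
      rw [h4]; rfl
    rw [h7, map_mul, T.hresu, zero_mul]
  have h9 : (⟨g, hg⟩ : T.Cc) = ∑ b ∈ c.support,
      (⟨(c b : S), T.hA₁C (c b).2⟩ : T.Cc) * ⟨T.u ^ T.l b * T.Xb b, T.hZC b⟩ := by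
    apply Subtype.ext
    rw [AddSubmonoidClass.coe_finsetSum]
    show g = ∑ b ∈ c.support, ((c b : T.A₁) : S) * (T.u ^ T.l b * T.Xb b)
    rw [← hc, Finsupp.sum]
    rfl
  rw [h9, map_sum]
  refine Finset.dvd_sum fun b _ => ?_
  rw [map_mul, T.hresZ]
  rcases lt_or_ge (T.l b) m with h | h
  · rw [hres0 b h, zero_mul]
    exact dvd_zero _
  · exact Dvd.dvd.mul_left (Dvd.dvd.mul_left (pow_dvd_pow _ (hb₀ b h)) _) _

end Data0

namespace Data

variable (T : Data k S)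

theorem exists_zeta (n : ℕ) : ∃ ζ : S, (∃ y : S, ζ = T.u ^ T.l (n / T.ψ.natDegree) * y) ∧
    ∃ w ∈ T.Cc, ζ - T.e n - T.u * w ∈ span T.A (T.e '' Set.Iio n) := by
  obtain ⟨hw0, hdeg, hlc⟩ := zbar T.hβ T.hψ T.hm T.hd n
  obtain ⟨c, hc, hsum⟩ := exists_psi_expansion T.hβ T.hε T.hs T.hψ T.hgen
    (n / T.ψ.natDegree) (C (X ^ (n % T.β)) * X ^ (n % T.ψ.natDegree)) hw0
  set zb : k[X][X] := T.ψ ^ (n / T.ψ.natDegree) * (C (X ^ (n % T.β)) * X ^ (n % T.ψ.natDegree))
    with hzb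
  obtain ⟨a, ha, halc⟩ := exists_mono_expansion T.hβ hw0
  rw [hdeg] at ha halc
  rw [hlc] at halc
  -- the lift
  let Z : ℕ → T.Cc := fun b => ⟨T.u ^ T.l b * T.Xb b, T.hZC b⟩
  let v₁' : T.Cc := ⟨T.v₁, T.hA₁C T.hv₁⟩
  let v' : T.Cc := ⟨T.v, T.hAC T.hv⟩
  let e' : ℕ → T.Cc := fun n => ⟨T.e n, T.heC n⟩
  let ζ : T.Cc := c.sum fun j p => aeval v₁' p * Z j
  have hresζ : T.res ζ = zb := by
    rw [hsum]
    simp only [ζ, Finsupp.sum, map_sum, map_mul]
    refine Finset.sum_congr rfl fun j _ => ?_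
    rw [← Polynomial.aeval_algHom_apply]
    congr 1
    · rw [show T.res v₁' = T.s₁ ^ T.β from T.hresv₁]
    · exact T.hresZ j
  let η : T.Cc := ∑ j ∈ Finset.range n, aeval v' (a j) * e' j
  have han : (a n).comp (X ^ T.β) = 1 := by
    have h1 : (X : k[X]) ^ (n % T.β) ≠ 0 := pow_ne_zero _ X_ne_zero
    exact mul_right_cancel₀ h1 (by rw [one_mul]; exact halc.symm)
  have hresη : T.res (e' n + η) = zb := by
    rw [ha, Finset.sum_range_succ, han, map_add, add_comm]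
    congr 1
    · simp only [η, map_sum, map_mul]
      refine Finset.sum_congr rfl fun j _ => ?_
      rw [← Polynomial.aeval_algHom_apply]
      congr 1
      · rw [show T.res v' = Polynomial.C (X ^ T.β) from T.hresv]
        rw [Polynomial.comp, Polynomial.eval₂_eq_sum, Polynomial.aeval_eq_sum_range,
          Polynomial.sum_over_range]
        · rw [map_sum]
          refine Finset.sum_congr rfl fun i _ => ?_
          simp only [map_mul, Algebra.smul_def, map_pow, Polynomial.algebraMap_apply,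
            Polynomial.algebraMap_eq]
        · intro i; simp
      · exact T.hrese j
    · rw [Polynomial.C_1, one_mul]
      exact T.hrese n
  obtain ⟨w, hw⟩ := T.hker (ζ - (e' n + η)) (by rw [map_sub, hresζ, hresη, sub_self])
  refine ⟨(ζ : S), ?_, (w : S), w.2, ?_⟩
  · -- divisibility
    have : ∀ j ∈ c.support, ∃ y : S, ((aeval v₁' (c j) * Z j : T.Cc) : S) =
        T.u ^ T.l (n / T.ψ.natDegree) * y := by
      intro j hj
      obtain ⟨m, hm⟩ := Nat.exists_eq_add_of_le (T.hl.monotone (hc j hj))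
      refine ⟨(aeval v₁' (c j) : T.Cc) * T.u ^ m * T.Xb j, ?_⟩
      show ((aeval v₁' (c j) : T.Cc) : S) * (T.u ^ T.l j * T.Xb j) = _
      rw [hm, pow_add]; ring
    choose! y hy using this
    refine ⟨∑ j ∈ c.support, y j, ?_⟩
    rw [Finset.mul_sum]
    simp only [ζ, Finsupp.sum]
    rw [AddSubmonoidClass.coe_finsetSum]
    exact Finset.sum_congr rfl hy
  · have h1 : (ζ : S) - T.e n - T.u * w = (η : S) := by
      rw [← hw]
      push_cast
      show (ζ : S) - T.e n - ((ζ : S) - (T.e n + (η : S))) = (η : S)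
      ring
    rw [h1]
    simp only [η]
    rw [AddSubmonoidClass.coe_finsetSum]
    refine Submodule.sum_mem _ fun j hj => ?_
    have h2 : ((aeval v' (a j) : T.Cc) : S) ∈ T.A := by
      have h3 : ((aeval v' (a j) : T.Cc) : S) = aeval T.v (a j) := by
        have := Polynomial.aeval_algHom_apply T.Cc.val v' (a j)
        exact this.symm
      rw [h3]
      have h4 : aeval T.v (a j) = ((aeval (⟨T.v, T.hv⟩ : T.A) (a j) : T.A) : S) := by
        have := Polynomial.aeval_algHom_apply T.A.val (⟨T.v, T.hv⟩ : T.A) (a j)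
        exact this
      rw [h4]
      exact SetLike.coe_mem _
    have h5 : ((aeval v' (a j) * e' j : T.Cc) : S) =
        (⟨((aeval v' (a j) : T.Cc) : S), h2⟩ : T.A) • T.e j := rfl
    rw [h5]
    exact Submodule.smul_mem _ _ (subset_span ⟨j, Finset.mem_range.1 hj, rfl⟩)

/-- Existence: elements of degree `n`, leading coefficient exactly `1`, divisible by `u ^ l (n / d)`. -/
theorem exists_lift (n : ℕ) : ∃ y : S,
    T.u ^ T.l (n / T.ψ.natDegree) * y - T.e n ∈ span T.A (T.e '' Set.Iio n) := by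
  choose ζ hζ' w hw h using T.exists_zeta
  choose y hζ using hζ'
  obtain ⟨z, ⟨y', hy'⟩, hz⟩ := lift (A := T.A) (S := S) (⟨T.u, T.huA⟩ : T.A) T.e ζ
    (fun n => T.l (n / T.ψ.natDegree))
    (fun a b hab => T.hl.monotone (Nat.div_le_div_right hab))
    (fun n => ⟨w n, T.hespan _ (hw n), h n⟩)
    (fun n => ⟨y n, hζ n⟩) n
  refine ⟨y', ?_⟩
  have : T.u ^ T.l (n / T.ψ.natDegree) * y' = z := by
    rw [hy']; rfl
  rw [this]
  exact hz

/-- The exponent bound: if `u ^ m` divides (in `S`) an element of `Cc` whose residue has `t`-degree `n`, then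
`m ≤ l (n / d)`. -/
theorem le_l (g : S) (hg : g ∈ T.Cc) (hg0 : T.res ⟨g, hg⟩ ≠ 0) (m : ℕ) (x : S)
    (hx : g = T.u ^ m * x) : m ≤ T.l ((T.res ⟨g, hg⟩).natDegree / T.ψ.natDegree) := by
  by_contra hcon
  push Not at hcon
  set n := (T.res ⟨g, hg⟩).natDegree with hn
  have h := T.psi_dvd g hg m x hx (n / T.ψ.natDegree + 1) (fun b hb => by
    by_contra h8
    push Not at h8
    exact absurd (hb.trans (T.hl.monotone (Nat.le_of_lt_succ h8))) (not_le.2 hcon))
  have h1 := natDegree_le_of_dvd h hg0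
  rw [T.hm.natDegree_pow, ← hn] at h1
  have h10 : n < (n / T.ψ.natDegree + 1) * T.ψ.natDegree := by
    rw [mul_comm]; exact Nat.lt_mul_div_succ n T.hd
  exact absurd h1 (not_le.2 h10)

end Data

end Pool.Agent.LNDQ.Tr
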