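import Pool.Agent.LNDQ.TrDefs

/-!
Group TR of the proof of Q1 for MP_821812: if `s₁, ψ` generate `k[s, t]` and the leading coefficient
of `ψ` in `t` is a unit, then `ψ` has positive degree in `t`.
-/

set_option autoImplicit false

namespace Pool.Agent.LNDQ.Tr

open Polynomial

variable {k : Type*} [Field k]

theorem natDegree_pos_of_adjoin {s ψ : k[X][X]} (hgen : Algebra.adjoin k {s, ψ} = ⊤)
    (hu : IsUnit ψ.leadingCoeff) : 0 < ψ.natDegree := by
  by_contra h0
  have h0' : ψ.natDegree = 0 := by omega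
  -- `ψ` is a constant
  obtain ⟨c, hc⟩ : ∃ c : k, ψ = C (C c) := by
    rw [eq_C_of_natDegree_eq_zero h0'] at hu ⊢
    rw [leadingCoeff_C] at hu
    obtain ⟨c, -, hc⟩ := Polynomial.isUnit_iff.1 hu
    exact ⟨c, by rw [hc]⟩
  have hmem : ∀ p : k[X][X], ∃ q : k[X], p = aeval s q := by
    intro p
    have hp : p ∈ Algebra.adjoin k {s, ψ} := by rw [hgen]; trivial
    induction hp using Algebra.adjoin_induction with
    | mem z hz =>
      rcases hz with rfl | hz
      · exact ⟨X, by rw [aeval_X]⟩
      · rw [Set.mem_singleton_iff] at hz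
        refine ⟨C c, ?_⟩
        rw [aeval_C, hz, hc]
        rfl
    | algebraMap r => exact ⟨C r, by rw [aeval_C]⟩
    | add a b _ _ ha hb =>
      obtain ⟨q, rfl⟩ := ha
      obtain ⟨q', rfl⟩ := hb
      exact ⟨q + q', by rw [map_add]⟩
    | mul a b _ _ ha hb =>
      obtain ⟨q, rfl⟩ := ha
      obtain ⟨q', rfl⟩ := hb
      exact ⟨q * q', by rw [map_mul]⟩
  have hdeg : ∀ q : k[X], (aeval s q).natDegree = q.natDegree * s.natDegree := by
    intro q
    have h1 : aeval s q = (q.map (algebraMap k k[X])).comp s := by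
      rw [comp, eval₂_map, aeval_def]
      rfl
    have h2 : Function.Injective (algebraMap k k[X]) := C_injective
    rw [h1, natDegree_comp, natDegree_map_eq_of_injective h2]
  obtain ⟨q, hq⟩ := hmem X
  have h1 : 1 = q.natDegree * s.natDegree := by
    rw [← hdeg, ← hq, natDegree_X]
  have hs : s.natDegree = 1 := (mul_eq_one.1 h1.symm).2
  obtain ⟨p, hp⟩ := hmem (C X)
  have h2 : 0 = p.natDegree * s.natDegree := by
    rw [← hdeg, ← hp, natDegree_C]
  rw [hs, mul_one] at h2
  rw [eq_C_of_natDegree_eq_zero h2.symm, aeval_C] at hp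
  have h3 : (C X : k[X][X]) = C (C (p.coeff 0)) := hp
  have h4 : (X : k[X]) = C (p.coeff 0) := C_injective h3
  have h5 := congrArg natDegree h4
  rw [natDegree_X, natDegree_C] at h5
  exact one_ne_zero h5

end Pool.Agent.LNDQ.Tr
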