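import Pool.Agent.LNDQ.TrMain
import Pool.Agent.LNDQ.TrPos

/-!
Group TR of the proof of Q1 for MP_821812: `ψ` may be made monic.
-/

set_option autoImplicit false

namespace Pool.Agent.LNDQ.Tr

open Polynomial Submodule

variable {k S : Type*} [Field k] [CommRing S] [IsDomain S] [Algebra k S]

theorem IsWt.constMul {β : ℕ} {w : ZMod β} {p : k[X][X]} (hp : IsWt β w p) (c : k) :
    IsWt β w (C (C c) * p) := by
  intro i j h
  rw [coeff_C_mul, coeff_C_mul] at h
  exact hp i j (right_ne_zero_of_mul h)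

theorem adjoin_constMul {s ψ : k[X][X]} {c : k} (hc : c ≠ 0)
    (hgen : ∀ p : k[X][X], p ∈ Algebra.adjoin k {s, ψ}) (p : k[X][X]) :
    p ∈ Algebra.adjoin k {s, C (C c) * ψ} := by
  have h1 : Algebra.adjoin k {s, ψ} ≤ Algebra.adjoin k {s, C (C c) * ψ} := by
    rw [Algebra.adjoin_le_iff]
    rintro z (rfl | hz)
    · exact Algebra.subset_adjoin (Set.mem_insert _ _)
    · rw [Set.mem_singleton_iff] at hz
      have h2 : C (C c) * ψ ∈ Algebra.adjoin k {s, C (C c) * ψ} :=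
        Algebra.subset_adjoin (Set.mem_insert_of_mem _ rfl)
      have h3 : z = c⁻¹ • (C (C c) * ψ) := by
        rw [hz, Algebra.smul_def]
        show ψ = C (C c⁻¹) * (C (C c) * ψ)
        rw [← mul_assoc, ← C_mul, ← C_mul, inv_mul_cancel₀ hc, C_1, C_1, one_mul]
      rw [h3]
      exact Subalgebra.smul_mem _ h2 _
  exact h1 (hgen p)

/-- The transfer data with `ψ` replaced by its monic multiple. -/
noncomputable def Data0.toMonic (T : Data0 k S) (c : k) (hc : c ≠ 0)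
    (hm : (C (C c) * T.ψ).Monic) (hd : 0 < (C (C c) * T.ψ).natDegree) : Data k S where
  β := T.β
  hβ := T.hβ
  u := T.u
  hu := T.hu
  A := T.A
  A₁ := T.A₁
  Cc := T.Cc
  hAC := T.hAC
  hA₁C := T.hA₁C
  huA := T.huA
  huA₁ := T.huA₁
  res := T.res
  hker := T.hker
  hresu := T.hresu
  v := T.v
  hv := T.hv
  hresv := T.hresv
  e := T.e
  heC := T.heC
  hrese := T.hrese
  hespan := T.hespan
  s₁ := T.s₁
  ψ := C (C c) * T.ψ
  ε := T.ε
  hε := T.hε
  hs := T.hs
  hψ := T.hψ.constMul c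
  hgen := adjoin_constMul hc T.hgen
  v₁ := T.v₁
  hv₁ := T.hv₁
  hresv₁ := T.hresv₁
  Xb := fun b => (c ^ b) • T.Xb b
  l := T.l
  hl := T.hl
  hZC := fun b => by
    rw [mul_smul_comm]
    exact Subalgebra.smul_mem _ (T.hZC b) _
  hresZ := fun b => by
    have h1 : (⟨T.u ^ T.l b * (c ^ b) • T.Xb b, by
        rw [mul_smul_comm]; exact Subalgebra.smul_mem _ (T.hZC b) _⟩ : T.Cc) =
        (c ^ b) • (⟨T.u ^ T.l b * T.Xb b, T.hZC b⟩ : T.Cc) := by
      apply Subtype.ext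
      show T.u ^ T.l b * (c ^ b) • T.Xb b = (c ^ b) • (T.u ^ T.l b * T.Xb b)
      rw [mul_smul_comm]
    rw [h1, map_smul, T.hresZ, mul_pow, Algebra.smul_def]
    have h2 : (algebraMap k k[X][X]) (c ^ b) = C (C c) ^ b := by
      rw [map_pow]; rfl
    rw [h2]; ring
  hXspan := fun x => by
    have h1 := T.hXspan x
    refine Submodule.span_induction (p := fun x _ => x ∈ span T.A₁
      (Set.range fun b => (c ^ b) • T.Xb b)) ?_ (Submodule.zero_mem _)
      (fun a b _ _ ha hb => Submodule.add_mem _ ha hb)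
      (fun r a _ ha => Submodule.smul_mem _ r ha) h1
    rintro z ⟨b, rfl⟩
    have h2 : (c ^ b) • T.Xb b ∈ span T.A₁ (Set.range fun b => (c ^ b) • T.Xb b) :=
      subset_span ⟨b, rfl⟩
    have h3 : T.Xb b = (algebraMap k T.A₁ (c ^ b)⁻¹) • ((c ^ b) • T.Xb b) := by
      show T.Xb b = (algebraMap k S (c ^ b)⁻¹) * ((c ^ b) • T.Xb b)
      rw [← Algebra.smul_def, smul_smul, inv_mul_cancel₀ (pow_ne_zero _ hc), one_smul]
    rw [h3]
    exact Submodule.smul_mem _ _ h2
  hXind := by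
    have h1 := T.hXind
    rw [linearIndependent_iff'] at h1 ⊢
    intro s g hg b hb
    have h2 := h1 s (fun b => g b * algebraMap k T.A₁ (c ^ b)) (by
      rw [← hg]
      refine Finset.sum_congr rfl fun i _ => ?_
      rw [mul_smul]
      congr 1
      show (algebraMap k S (c ^ i)) * T.Xb i = (c ^ i) • T.Xb i
      rw [Algebra.smul_def]) b hb
    have h3 : (algebraMap k T.A₁ (c ^ b)) ≠ 0 := by
      intro h
      exact pow_ne_zero b hc ((FaithfulSMul.algebraMap_injective k T.A₁) (by rw [h, map_zero]))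
    exact (mul_eq_zero.1 h2).resolve_right h3
  hZspan := fun z hz => by
    have h1 := T.hZspan z hz
    refine Submodule.span_induction (p := fun x _ => x ∈ span T.A₁
      (Set.range fun b => T.u ^ T.l b * (c ^ b) • T.Xb b)) ?_ (Submodule.zero_mem _)
      (fun a b _ _ ha hb => Submodule.add_mem _ ha hb)
      (fun r a _ ha => Submodule.smul_mem _ r ha) h1
    rintro z ⟨b, rfl⟩
    have h2 : T.u ^ T.l b * (c ^ b) • T.Xb b ∈ span T.A₁
        (Set.range fun b => T.u ^ T.l b * (c ^ b) • T.Xb b) := subset_span ⟨b, rfl⟩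
    have h3 : T.u ^ T.l b * T.Xb b =
        (algebraMap k T.A₁ (c ^ b)⁻¹) • (T.u ^ T.l b * (c ^ b) • T.Xb b) := by
      show T.u ^ T.l b * T.Xb b = (algebraMap k S (c ^ b)⁻¹) * (T.u ^ T.l b * (c ^ b) • T.Xb b)
      rw [← Algebra.smul_def, mul_smul_comm, smul_smul, inv_mul_cancel₀ (pow_ne_zero _ hc),
        one_smul]
    show T.u ^ T.l b * T.Xb b ∈ _
    rw [h3]
    exact Submodule.smul_mem _ _ h2
  hm := hm
  hd := hd

/-- the constant -/
theorem exists_const {ψ : k[X][X]} (h : IsUnit ψ.leadingCoeff) :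
    ∃ c : k, c ≠ 0 ∧ (C (C c) * ψ).Monic ∧ (C (C c) * ψ).natDegree = ψ.natDegree := by
  obtain ⟨a, ha, hc⟩ := Polynomial.isUnit_iff.1 h
  have ha0 : a ≠ 0 := ha.ne_zero
  have hne' : (C a⁻¹ : k[X]) ≠ 0 := by
    rw [Ne, C_eq_zero]
    exact inv_ne_zero ha0
  refine ⟨a⁻¹, inv_ne_zero ha0, ?_, ?_⟩
  · rw [Monic, leadingCoeff_mul, leadingCoeff_C, ← hc, ← C_mul, inv_mul_cancel₀ ha0, C_1]
  · rw [natDegree_C_mul hne']

/-- The transfer data with `ψ` monic exist if the leading coefficient of `ψ` is a unit. -/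
theorem Data0.exists_data (T : Data0 k S) (h : IsUnit T.ψ.leadingCoeff) :
    ∃ (c : k) (hc : c ≠ 0) (hm : (C (C c) * T.ψ).Monic) (hd : 0 < (C (C c) * T.ψ).natDegree),
      (T.toMonic c hc hm hd).ψ.natDegree = T.ψ.natDegree := by
  obtain ⟨c, hc, hm, hd⟩ := exists_const h
  have hgen : Algebra.adjoin k {T.s₁, T.ψ} = ⊤ := by
    rw [eq_top_iff]
    intro p _
    exact T.hgen p
  have hpos := natDegree_pos_of_adjoin hgen h
  exact ⟨c, hc, hm, by rw [hd]; exact hpos, hd⟩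

end Pool.Agent.LNDQ.Tr
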