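import Pool.Agent.LNDQ.Defs
import Pool.Agent.LNDQ.TrDefs
import Pool.Agent.LNDQ.Cic

/-!
Group TR of the proof of Q1 for MP_821812: the toric cover. A ring `k[v, x, y]` with
`v * y = x ^ β`, `v, x` algebraically independent over `k`, is embedded in `k[s, t]` as the part of
weight zero: `v = s ^ β`, `x = s * t`, `y = t ^ β`.
-/

set_option autoImplicit false

namespace Pool.Agent.LNDQ.Tr

open Polynomial

section linear

variable {k A : Type} [Field k] [CommRing A] [Algebra k A] {β : ℕ} {v x y : A}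

/-- multiplying `bs` by a power of `v` gives a power of `x` -/
theorem v_pow_mul_bs (hrel : v * y = x ^ β) (j : ℕ) : v ^ (j / β) * bs β x y j = x ^ j := by
  unfold bs
  calc v ^ (j / β) * (x ^ (j % β) * y ^ (j / β)) = x ^ (j % β) * (v * y) ^ (j / β) := by
        rw [mul_pow]; ring
    _ = x ^ j := by
        rw [hrel, ← pow_mul, ← pow_add, Nat.mod_add_div]

/-- the products `v ^ i * e_j` are linearly independent -/
theorem linInd (hrel : v * y = x ^ β) (hind : AlgebraicIndependent k ![v, x]) :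
    LinearIndependent k (fun p : ℕ × ℕ => v ^ p.1 * bs β x y p.2) := by
  have h0 : LinearIndependent k
      (fun m : Fin 2 →₀ ℕ => MvPolynomial.aeval (![v, x] : Fin 2 → A)
        (MvPolynomial.monomial m (1 : k))) := by
    have := (MvPolynomial.basisMonomials (Fin 2) k).linearIndependent.map'
      (MvPolynomial.aeval (![v, x] : Fin 2 → A)).toLinearMap
      (LinearMap.ker_eq_bot.2 hind)
    rw [MvPolynomial.coe_basisMonomials] at this
    exact this
  rw [linearIndependent_iff']
  intro s g hg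
  set m : ℕ := s.sup fun p => p.2 / β with hm
  set e : ℕ × ℕ → (Fin 2 →₀ ℕ) := fun p =>
    Finsupp.equivFunOnFinite.symm ![p.1 + (m - p.2 / β), p.2] with he
  have hinj : Function.Injective e := by
    intro p q hpq
    have h1 := Finsupp.equivFunOnFinite.symm.injective hpq
    have h2 : p.2 = q.2 := congrFun h1 1
    have h3 : p.1 + (m - p.2 / β) = q.1 + (m - q.2 / β) := congrFun h1 0
    rw [h2] at h3
    exact Prod.ext (by omega) h2
  have h1 := h0.comp e hinj
  rw [linearIndependent_iff'] at h1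
  refine h1 s g ?_
  have h2 : v ^ m * ∑ i ∈ s, g i • (v ^ i.1 * bs β x y i.2) = 0 := by rw [hg, mul_zero]
  rw [Finset.mul_sum] at h2
  rw [← h2]
  refine Finset.sum_congr rfl fun p hp => ?_
  have hle : p.2 / β ≤ m := Finset.le_sup (f := fun p : ℕ × ℕ => p.2 / β) hp
  rw [mul_smul_comm]
  congr 1
  simp only [Function.comp, he, MvPolynomial.aeval_monomial, map_one, one_mul]
  rw [Finsupp.prod_fintype _ _ (by simp)]
  simp only [Fin.prod_univ_two, Finsupp.equivFunOnFinite_symm_apply_apply]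
  simp only [Matrix.cons_val_zero, Matrix.cons_val_one]
  rw [← v_pow_mul_bs hrel p.2]
  have : v ^ m = v ^ (m - p.2 / β) * v ^ (p.2 / β) := by
    rw [← pow_add, Nat.sub_add_cancel hle]
  rw [this, pow_add]
  ring

/-- normal form of a monomial -/
theorem monomial_nf (hβ : 0 < β) (hrel : v * y = x ^ β) (i j l : ℕ) :
    v ^ i * x ^ j * y ^ l = v ^ (i + j / β) * bs β x y (j % β + β * (l + j / β)) := by
  unfold bs
  rw [Nat.add_mul_mod_self_left, Nat.add_mul_div_left _ _ hβ,
    Nat.mod_mod, Nat.div_eq_of_lt (Nat.mod_lt _ hβ), zero_add]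
  calc v ^ i * x ^ j * y ^ l = v ^ i * (x ^ (j % β) * (x ^ β) ^ (j / β)) * y ^ l := by
        rw [← pow_mul, ← pow_add, Nat.mod_add_div]
    _ = v ^ (i + j / β) * (x ^ (j % β) * y ^ (l + j / β)) := by
        rw [← hrel, mul_pow, pow_add, pow_add]; ring

/-- normal form, the same in all algebras -/
theorem exists_nf (hβ : 0 < β) (p : MvPolynomial (Fin 3) k) : ∃ c : ℕ × ℕ →₀ k,
    ∀ (A : Type) [CommRing A] [Algebra k A] (v x y : A), v * y = x ^ β →
      MvPolynomial.aeval (![v, x, y] : Fin 3 → A) p =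
        c.sum fun q a => a • (v ^ q.1 * bs β x y q.2) := by
  induction p using MvPolynomial.induction_on' with
  | monomial u a =>
    refine ⟨Finsupp.single (u 0 + u 1 / β, u 1 % β + β * (u 2 + u 1 / β)) a, ?_⟩
    intro A _ _ v x y hrel
    rw [Finsupp.sum_single_index (by simp), MvPolynomial.aeval_monomial,
      Finsupp.prod_fintype _ _ (by simp), Fin.prod_univ_three, ← monomial_nf hβ hrel,
      Algebra.smul_def]
    simp
  | add p q hp hq =>
    obtain ⟨c, hc⟩ := hp
    obtain ⟨d, hd⟩ := hq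
    refine ⟨c + d, ?_⟩
    intro A _ _ v x y hrel
    rw [map_add, hc A v x y hrel, hd A v x y hrel,
      Finsupp.sum_add_index' (by simp) (by intros; rw [add_smul])]

end linear

section cover

variable {k : Type} [Field k]

/-- the basis in the toric cover -/
theorem bs_cover (β : ℕ) (i j : ℕ) :
    (C (X ^ β) : k[X][X]) ^ i * bs β (C X * X : k[X][X]) (X ^ β) j =
      C (X ^ (β * i + j % β)) * X ^ j := by
  unfold bs
  rw [mul_pow, ← C_pow, ← C_pow, ← pow_mul, ← pow_mul]
  calc (C (X ^ (β * i)) : k[X][X]) * (C (X ^ (j % β)) * X ^ (j % β) * X ^ (β * (j / β)))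
      = C (X ^ (β * i)) * C (X ^ (j % β)) * (X ^ (j % β) * X ^ (β * (j / β))) := by ring
    _ = C (X ^ (β * i + j % β)) * X ^ j := by
        rw [← C_mul, ← pow_add, ← pow_add, Nat.mod_add_div]

theorem coeff_cover (m j a b : ℕ) :
    ((C (X ^ m) * X ^ j : k[X][X]).coeff b).coeff a = if b = j ∧ a = m then 1 else 0 := by
  rw [coeff_C_mul, coeff_X_pow]
  by_cases hb : b = j
  · simp [hb, coeff_X_pow]
  · simp [hb]

/-- the monomials `s ^ (β i + j % β) * t ^ j` are linearly independent -/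
theorem linInd_cover (β : ℕ) (hβ : 0 < β) : LinearIndependent k
    (fun p : ℕ × ℕ => (C (X ^ (β * p.1 + p.2 % β)) * X ^ p.2 : k[X][X])) := by
  rw [linearIndependent_iff']
  intro s g hg q hq
  have h1 : ((∑ p ∈ s, g p • (C (X ^ (β * p.1 + p.2 % β)) * X ^ p.2 : k[X][X])).coeff q.2).coeff
      (β * q.1 + q.2 % β) = 0 := by rw [hg]; simp
  rw [finsetSum_coeff, finsetSum_coeff, Finset.sum_eq_single q] at h1
  · rw [coeff_smul, coeff_smul, coeff_cover] at h1
    simpa using h1
  · intro p _ hpq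
    rw [coeff_smul, coeff_smul, coeff_cover, if_neg, smul_zero]
    rintro ⟨h2, h3⟩
    apply hpq
    rw [h2] at h3
    have : β * q.1 = β * p.1 := by omega
    exact Prod.ext (Nat.eq_of_mul_eq_mul_left hβ this).symm h2.symm
  · intro h; exact absurd hq h

end cover

section tor

variable {k R0 : Type} [Field k] [CommRing R0] [Algebra k R0] {β : ℕ} {v x y : R0}

theorem nf_zero (hrel : v * y = x ^ β) (hind : AlgebraicIndependent k ![v, x])
    (c : ℕ × ℕ →₀ k) (h : (c.sum fun q a => a • (v ^ q.1 * bs β x y q.2)) = 0) : c = 0 := by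
  have h1 := linInd hrel hind
  rw [linearIndependent_iff] at h1
  apply h1
  rw [Finsupp.linearCombination_apply]
  exact h

theorem nf_zero_cover (hβ : 0 < β) (c : ℕ × ℕ →₀ k)
    (h : (c.sum fun q a => a • ((C (X ^ β) : k[X][X]) ^ q.1 * bs β (C X * X : k[X][X]) (X ^ β) q.2))
      = 0) : c = 0 := by
  have h1 := linInd_cover (k := k) β hβ
  rw [linearIndependent_iff] at h1
  apply h1
  rw [Finsupp.linearCombination_apply, ← h]
  refine Finsupp.sum_congr fun q _ => ?_
  rw [bs_cover]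

theorem rel_cover (β : ℕ) : (C (X ^ β) : k[X][X]) * X ^ β = (C X * X) ^ β := by
  rw [mul_pow, C_pow]

theorem ker_iff (hβ : 0 < β) (hrel : v * y = x ^ β) (hind : AlgebraicIndependent k ![v, x])
    (p : MvPolynomial (Fin 3) k) :
    MvPolynomial.aeval (![v, x, y] : Fin 3 → R0) p = 0 ↔
      MvPolynomial.aeval (![C (X ^ β), C X * X, X ^ β] : Fin 3 → k[X][X]) p = 0 := by
  obtain ⟨c, hc⟩ := exists_nf hβ p
  rw [hc R0 v x y hrel, hc k[X][X] _ _ _ (rel_cover β)]
  constructor
  · intro h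
    rw [nf_zero hrel hind c h, Finsupp.sum_zero_index]
  · intro h
    rw [nf_zero_cover hβ c h, Finsupp.sum_zero_index]

/-- The toric cover. -/
theorem exists_tor (hβ : 0 < β) (hrel : v * y = x ^ β) (hind : AlgebraicIndependent k ![v, x])
    (htop : Algebra.adjoin k {v, x, y} = ⊤) :
    ∃ τ : R0 →ₐ[k] k[X][X], Function.Injective τ ∧ τ v = C (X ^ β) ∧ τ x = C X * X ∧
      τ y = X ^ β := by
  have hsurj : Function.Surjective (MvPolynomial.aeval (![v, x, y] : Fin 3 → R0) :
      MvPolynomial (Fin 3) k →ₐ[k] R0) := by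
    have hr : Set.range (![v, x, y] : Fin 3 → R0) = {v, x, y} := by
      ext z
      constructor
      · rintro ⟨i, rfl⟩
        fin_cases i <;> simp
      · rintro (rfl | rfl | rfl)
        exacts [⟨0, rfl⟩, ⟨1, rfl⟩, ⟨2, rfl⟩]
    rw [← AlgHom.range_eq_top, ← Algebra.adjoin_range_eq_range_aeval, hr, htop]
  set φ : MvPolynomial (Fin 3) k →ₐ[k] k[X][X] :=
    MvPolynomial.aeval (![C (X ^ β), C X * X, X ^ β] : Fin 3 → k[X][X]) with hφ
  set π₁ : MvPolynomial (Fin 3) k →ₐ[k] R0 := MvPolynomial.aeval (![v, x, y] : Fin 3 → R0) with hπ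
  have hker : ∀ a ∈ RingHom.ker π₁, φ a = 0 := fun a ha => (ker_iff hβ hrel hind a).1 ha
  set τ : R0 →ₐ[k] k[X][X] := (Ideal.Quotient.liftₐ (RingHom.ker π₁) φ hker).comp
    (Ideal.quotientKerAlgEquivOfSurjective hsurj).symm.toAlgHom with hτ
  have hcomp : ∀ p, τ (π₁ p) = φ p := by
    intro p
    rw [hτ]
    simp only [AlgHom.comp_apply]
    have : (Ideal.quotientKerAlgEquivOfSurjective hsurj).symm.toAlgHom (π₁ p) =
        Ideal.Quotient.mk _ p := Ideal.quotientKerAlgEquivOfSurjective_symm_apply hsurj p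
    rw [this]
    rfl
  refine ⟨τ, ?_, ?_, ?_, ?_⟩
  · rw [injective_iff_map_eq_zero]
    intro z hz
    obtain ⟨p, rfl⟩ := hsurj z
    rw [hcomp] at hz
    exact (ker_iff hβ hrel hind p).2 hz
  · have := hcomp (MvPolynomial.X 0)
    simpa [hπ, hφ] using this
  · have := hcomp (MvPolynomial.X 1)
    simpa [hπ, hφ] using this
  · have := hcomp (MvPolynomial.X 2)
    simpa [hπ, hφ] using this

/-- T5: the embedding of `k[v,x,y]/(v y = x^β)` in `k[s,t]`. -/
theorem exists_toric {k R0 : Type} [Field k] [CommRing R0] [IsDomain R0] [Algebra k R0]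
    {v x y : R0} {β : ℕ} (hβ : 0 < β) (H : Pr0 (k := k) v x y (X ^ β)) :
    ∃ ι : R0 →ₐ[k] k[X][X], Function.Injective ι ∧ ι v = C (X ^ β) ∧ ι x = C X * X ∧
      ι y = X ^ β := by
  refine exists_tor hβ ?_ H.ind H.gen
  have := H.rel
  rwa [map_pow, aeval_X] at this

end tor

end Pool.Agent.LNDQ.Tr
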