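import Pool.Agent.LNDQ.TrRes

/-!
Group TR of the proof of Q1 for MP_821812: the toric cover and the degree; its image is the part of
weight zero.
-/

set_option autoImplicit false

namespace Pool.Agent.LNDQ.Tr

open Polynomial

variable {k R0 : Type} [Field k] [CommRing R0] [Algebra k R0] {β : ℕ} {v x y : R0}

/-- coordinates in the basis `v ^ i * e_j` -/
theorem exists_coord (hβ : 0 < β) (H : Pr0 (k := k) v x y (X ^ β)) (z : R0) :
    ∃ c : ℕ × ℕ →₀ k, z = c.sum fun q a => a • (v ^ q.1 * bs β x y q.2) := by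
  have hr : Set.range (![v, x, y] : Fin 3 → R0) = {v, x, y} := by
    ext z
    constructor
    · rintro ⟨i, rfl⟩
      fin_cases i <;> simp
    · rintro (rfl | rfl | rfl)
      exacts [⟨0, rfl⟩, ⟨1, rfl⟩, ⟨2, rfl⟩]
  have hsurj : Function.Surjective (MvPolynomial.aeval (![v, x, y] : Fin 3 → R0) :
      MvPolynomial (Fin 3) k →ₐ[k] R0) := by
    rw [← AlgHom.range_eq_top, ← Algebra.adjoin_range_eq_range_aeval, hr, H.gen]
  obtain ⟨p, rfl⟩ := hsurj z
  obtain ⟨c, hc⟩ := exists_nf hβ p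
  refine ⟨c, hc R0 v x y ?_⟩
  have := H.rel
  rwa [map_pow, aeval_X] at this

/-- the image of an element in coordinates -/
theorem tor_sum (ι : R0 →ₐ[k] k[X][X]) (hv : ι v = C (X ^ β)) (hx : ι x = C X * X)
    (hy : ι y = X ^ β) (c : ℕ × ℕ →₀ k) :
    ι (c.sum fun q a => a • (v ^ q.1 * bs β x y q.2)) =
      c.sum fun q a => a • (C (X ^ (β * q.1 + q.2 % β)) * X ^ q.2 : k[X][X]) := by
  rw [Finsupp.sum, map_sum, Finsupp.sum]
  refine Finset.sum_congr rfl fun q _ => ?_
  rw [map_smul, map_mul, map_pow, hv, ← bs_cover]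
  congr 2
  unfold bs
  rw [map_mul, map_pow, map_pow, hx, hy]

theorem coeff_sum_cover (c : ℕ × ℕ →₀ k) (j i : ℕ) :
    ((c.sum fun q a => a • (C (X ^ (β * q.1 + q.2 % β)) * X ^ q.2 : k[X][X])).coeff j).coeff i =
      c.sum fun q a => if j = q.2 ∧ i = β * q.1 + q.2 % β then a else 0 := by
  rw [Finsupp.sum, finsetSum_coeff, finsetSum_coeff, Finsupp.sum]
  refine Finset.sum_congr rfl fun q _ => ?_
  rw [coeff_smul, coeff_smul, coeff_cover]
  split_ifs <;> simp

theorem coeff_sum_cover_eq (hβ : 0 < β) (c : ℕ × ℕ →₀ k) (q : ℕ × ℕ) :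
    ((c.sum fun q a => a • (C (X ^ (β * q.1 + q.2 % β)) * X ^ q.2 : k[X][X])).coeff q.2).coeff
      (β * q.1 + q.2 % β) = c q := by
  rw [coeff_sum_cover, Finsupp.sum, Finset.sum_eq_single q]
  · simp
  · intro p _ hpq
    rw [if_neg]
    rintro ⟨h2, h3⟩
    apply hpq
    rw [h2] at h3
    have : β * q.1 = β * p.1 := by omega
    exact Prod.ext (Nat.eq_of_mul_eq_mul_left hβ this).symm h2.symm
  · intro h
    simpa using h

/-- The image is of weight zero. -/
theorem isWt_tor (hβ : 0 < β) (H : Pr0 (k := k) v x y (X ^ β)) (ι : R0 →ₐ[k] k[X][X])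
    (hv : ι v = C (X ^ β)) (hx : ι x = C X * X) (hy : ι y = X ^ β) (z : R0) :
    IsWt β 0 (ι z) := by
  obtain ⟨c, rfl⟩ := exists_coord hβ H z
  rw [tor_sum ι hv hx hy]
  intro i j h
  rw [coeff_sum_cover] at h
  obtain ⟨q, hq, hne⟩ := Finset.exists_ne_zero_of_sum_ne_zero h
  rw [ite_ne_right_iff] at hne
  obtain ⟨⟨rfl, rfl⟩, -⟩ := hne
  rw [Nat.cast_add, Nat.cast_mul, ZMod.natCast_self, zero_mul, zero_add, ZMod.natCast_mod, sub_self]

/-- Every element of weight zero is in the image. -/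
theorem exists_of_isWt (ι : R0 →ₐ[k] k[X][X])
    (hv : ι v = C (X ^ β)) (hx : ι x = C X * X) (hy : ι y = X ^ β) (p : k[X][X])
    (hp : IsWt β 0 p) : ∃ z : R0, ι z = p := by
  have hp1 : p = ∑ j ∈ p.support, ∑ i ∈ (p.coeff j).support,
      (p.coeff j).coeff i • (C (X ^ i) * X ^ j : k[X][X]) := by
    conv_lhs => rw [p.as_sum_support_C_mul_X_pow]
    refine Finset.sum_congr rfl fun j _ => ?_
    conv_lhs => rw [(p.coeff j).as_sum_support_C_mul_X_pow]
    rw [map_sum, Finset.sum_mul]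
    refine Finset.sum_congr rfl fun i _ => ?_
    rw [C_mul, mul_assoc, Algebra.smul_def]
    rfl
  have key : ∀ i j : ℕ, ((p.coeff j).coeff i ≠ 0) →
      ι (v ^ (i / β) * bs β x y j) = C (X ^ i) * X ^ j := by
    intro i j h
    have h1 := hp i j h
    have h2 : i % β = j % β := by
      have : ((i : ℕ) : ZMod β) = (j : ZMod β) := sub_eq_zero.1 h1
      exact (ZMod.natCast_eq_natCast_iff' _ _ _).1 this
    rw [map_mul, map_pow, hv]
    have h3 : ι (bs β x y j) = bs β (C X * X : k[X][X]) (X ^ β) j := by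
      unfold bs
      rw [map_mul, map_pow, map_pow, hx, hy]
    rw [h3, bs_cover, ← h2, Nat.div_add_mod]
  refine ⟨∑ j ∈ p.support, ∑ i ∈ (p.coeff j).support,
      (p.coeff j).coeff i • (v ^ (i / β) * bs β x y j), ?_⟩
  conv_rhs => rw [hp1]
  rw [map_sum]
  refine Finset.sum_congr rfl fun j _ => ?_
  rw [map_sum]
  refine Finset.sum_congr rfl fun i hi => ?_
  rw [map_smul, key i j (mem_support_iff.1 hi)]

/-- Degree and `Low`. -/
theorem mem_low_iff_degree (hβ : 0 < β) (H : Pr0 (k := k) v x y (X ^ β)) (ι : R0 →ₐ[k] k[X][X])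
    (hv : ι v = C (X ^ β)) (hx : ι x = C X * X) (hy : ι y = X ^ β) (n : ℕ) (z : R0) :
    z ∈ Low k β v x y n ↔ (ι z).degree < n := by
  constructor
  · intro h
    unfold Low at h
    rw [← mem_degreeLT]
    induction h using Submodule.span_induction with
    | mem z hz =>
      obtain ⟨i, j, hj, rfl⟩ := hz
      have h3 : ι (v ^ i * bs β x y j) = C (X ^ (β * i + j % β)) * X ^ j := by
        rw [← bs_cover, map_mul, map_pow ι v, hv]
        unfold bs
        rw [map_mul, map_pow ι x, map_pow ι y, hx, hy]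
      rw [h3, mem_degreeLT]
      refine lt_of_le_of_lt (degree_C_mul_X_pow_le _ _) ?_
      exact_mod_cast hj
    | zero => rw [map_zero]; exact Submodule.zero_mem _
    | add a b _ _ ha hb => rw [map_add]; exact Submodule.add_mem _ ha hb
    | smul r a _ ha =>
      rw [map_smul]
      have : r • ι a = (C r : k[X]) • ι a := by
        rw [smul_eq_C_mul, Algebra.smul_def]; rfl
      rw [this]
      exact Submodule.smul_mem _ _ ha
  · intro h
    obtain ⟨c, rfl⟩ := exists_coord hβ H z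
    rw [tor_sum ι hv hx hy] at h
    unfold Low
    rw [Finsupp.sum]
    refine Submodule.sum_mem _ fun q hq => Submodule.smul_mem _ _ (Submodule.subset_span ?_)
    refine ⟨q.1, q.2, ?_, rfl⟩
    by_contra hcon
    push Not at hcon
    have h1 := coeff_eq_zero_of_degree_lt (lt_of_lt_of_le h (by exact_mod_cast hcon) :
      _ < ((q.2 : ℕ) : WithBot ℕ))
    have h2 := coeff_sum_cover_eq hβ c q
    rw [h1, coeff_zero] at h2
    exact (Finsupp.mem_support_iff.1 hq) h2.symm

end Pool.Agent.LNDQ.Tr
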