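import Pool.Agent.LNDQ.TrMain

/-!
Group TR of the proof of Q1 for MP_821812: rescaling `ψ` so that it becomes monic in `t`.
-/

set_option autoImplicit false

namespace Pool.Agent.LNDQ.Tr

open Polynomial Submodule

variable {k S : Type*} [Field k] [CommRing S] [IsDomain S] [Algebra k S]

namespace Data0

variable (T : Data0 k S)

/-- scalars of `k` as units of `A₁` -/
noncomputable def ku (c : k) (hc : c ≠ 0) : (T.A₁)ˣ where
  val := algebraMap k T.A₁ c
  inv := algebraMap k T.A₁ c⁻¹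
  val_inv := by rw [← map_mul, mul_inv_cancel₀ hc, map_one]
  inv_val := by rw [← map_mul, inv_mul_cancel₀ hc, map_one]

theorem ku_pow_smul (c : k) (hc : c ≠ 0) (b : ℕ) (z : S) :
    (T.ku c hc ^ b) • z = algebraMap k S (c ^ b) * z := by
  rw [Units.smul_def, Units.val_pow_eq_pow_val, map_pow]
  rfl

/-- Rescaled data. -/
noncomputable def rescale (c : k) (hc : c ≠ 0) : Data0 k S where
  β := T.β
  hβ := T.hβ
  u := T.u
  hu := T.hu
  A := T.A
  A₁ := T.A₁
  Cc := T.Cc
  hAC := T.hAC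
  hA₁C := T.hA₁C
  huA := T.huA
  huA₁ := T.huA₁
  res := T.res
  hker := T.hker
  hresu := T.hresu
  v := T.v
  hv := T.hv
  hresv := T.hresv
  e := T.e
  heC := T.heC
  hrese := T.hrese
  hespan := T.hespan
  s₁ := T.s₁
  ψ := c • T.ψ
  ε := T.ε
  hε := T.hε
  hs := T.hs
  hψ := by
    intro i j h
    rw [coeff_smul, coeff_smul, smul_eq_mul] at h
    exact T.hψ i j (right_ne_zero_of_mul h)
  hgen := by
    intro p
    have h1 : Algebra.adjoin k ({T.s₁, T.ψ} : Set k[X][X]) ≤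
        Algebra.adjoin k ({T.s₁, c • T.ψ} : Set k[X][X]) := by
      have m1 : T.s₁ ∈ Algebra.adjoin k ({T.s₁, c • T.ψ} : Set k[X][X]) :=
        Algebra.subset_adjoin (Set.mem_insert _ _)
      have m2 : c • T.ψ ∈ Algebra.adjoin k ({T.s₁, c • T.ψ} : Set k[X][X]) :=
        Algebra.subset_adjoin (Set.mem_insert_of_mem _ (Set.mem_singleton _))
      have m3 := Subalgebra.smul_mem _ m2 c⁻¹
      rw [smul_smul, inv_mul_cancel₀ hc, one_smul] at m3
      rw [Algebra.adjoin_le_iff, Set.insert_subset_iff, Set.singleton_subset_iff]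
      exact ⟨m1, m3⟩
    exact h1 (T.hgen p)
  v₁ := T.v₁
  hv₁ := T.hv₁
  hresv₁ := T.hresv₁
  Xb := fun b => algebraMap k S (c ^ b) * T.Xb b
  l := T.l
  hl := T.hl
  hZC := by
    intro b
    have : T.u ^ T.l b * (algebraMap k S (c ^ b) * T.Xb b) =
        (c ^ b) • (T.u ^ T.l b * T.Xb b) := by
      rw [Algebra.smul_def]; ring
    rw [this]
    exact T.Cc.smul_mem (T.hZC b) _
  hresZ := by
    intro b
    have : (⟨T.u ^ T.l b * (algebraMap k S (c ^ b) * T.Xb b), by
        have : T.u ^ T.l b * (algebraMap k S (c ^ b) * T.Xb b) =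
            (c ^ b) • (T.u ^ T.l b * T.Xb b) := by
          rw [Algebra.smul_def]; ring
        rw [this]
        exact T.Cc.smul_mem (T.hZC b) _⟩ : T.Cc) =
        (c ^ b) • (⟨T.u ^ T.l b * T.Xb b, T.hZC b⟩ : T.Cc) := by
      apply Subtype.ext
      show T.u ^ T.l b * (algebraMap k S (c ^ b) * T.Xb b) = (c ^ b) • (T.u ^ T.l b * T.Xb b)
      rw [Algebra.smul_def]; ring
    rw [this, map_smul, T.hresZ, _root_.smul_pow, mul_smul_comm]
  hXspan := by
    intro x
    refine span_le.2 ?_ (T.hXspan x)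
    rintro z ⟨b, rfl⟩
    have : T.Xb b = algebraMap k T.A₁ (c⁻¹ ^ b) • (algebraMap k S (c ^ b) * T.Xb b) := by
      rw [Algebra.smul_def, ← mul_assoc]
      have h2 : algebraMap T.A₁ S (algebraMap k T.A₁ (c⁻¹ ^ b)) = algebraMap k S (c⁻¹ ^ b) := rfl
      rw [h2, ← map_mul, ← mul_pow, inv_mul_cancel₀ hc, one_pow, map_one, one_mul]
    rw [SetLike.mem_coe, this]
    exact Submodule.smul_mem _ _ (subset_span ⟨b, rfl⟩)
  hXind := by
    have h1 := T.hXind.units_smul (fun b => T.ku c hc ^ b)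
    have h2 : ((fun b => T.ku c hc ^ b) • T.Xb) = fun b => algebraMap k S (c ^ b) * T.Xb b := by
      funext b
      exact T.ku_pow_smul c hc b (T.Xb b)
    rwa [h2] at h1
  hZspan := by
    intro z hz
    refine span_le.2 ?_ (T.hZspan z hz)
    rintro z ⟨b, rfl⟩
    have : T.u ^ T.l b * T.Xb b = algebraMap k T.A₁ (c⁻¹ ^ b) •
        (T.u ^ T.l b * (algebraMap k S (c ^ b) * T.Xb b)) := by
      rw [Algebra.smul_def]
      have h2 : algebraMap T.A₁ S (algebraMap k T.A₁ (c⁻¹ ^ b)) = algebraMap k S (c⁻¹ ^ b) := rfl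
      rw [h2]
      have h3 : algebraMap k S (c⁻¹ ^ b) * algebraMap k S (c ^ b) = 1 := by
        rw [← map_mul, ← mul_pow, inv_mul_cancel₀ hc, one_pow, map_one]
      linear_combination (-(T.u ^ T.l b * T.Xb b)) * h3
    rw [SetLike.mem_coe]
    simp only
    rw [this]
    exact Submodule.smul_mem _ _ (subset_span ⟨b, rfl⟩)

end Data0

end Pool.Agent.LNDQ.Tr
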