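import Mathlib
import Pool.Agent.LNDQ.Defs

set_option autoImplicit false

namespace Pool.Agent.LNDQ.Tr

open Polynomial

section low

variable {R S : Type} [CommRing R] [CommRing S] [Algebra R S] {β : ℕ} {v x y : S}

/-- splitting off the top coefficient -/
theorem low_succ_h {n : ℕ} {z : S} (hz : z ∈ Low R β v x y (n + 1)) :
    ∃ a : R[X], z - aeval v a * bs β x y n ∈ Low R β v x y n := by
  unfold Low at hz
  induction hz using Submodule.span_induction with
  | mem z hz =>
    obtain ⟨i, j, hj, rfl⟩ := hz
    rcases Nat.lt_succ_iff_lt_or_eq.1 hj with hj | rfl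
    · exact ⟨0, by
        simp only [map_zero, zero_mul, sub_zero]
        exact Submodule.subset_span ⟨i, j, hj, rfl⟩⟩
    · exact ⟨X ^ i, by simp⟩
  | zero => exact ⟨0, by simp⟩
  | add z w _ _ hz hw =>
    obtain ⟨a, ha⟩ := hz
    obtain ⟨b, hb⟩ := hw
    refine ⟨a + b, ?_⟩
    have h := Submodule.add_mem _ ha hb
    have e : z + w - aeval v (a + b) * bs β x y n
      = (z - aeval v a * bs β x y n) + (w - aeval v b * bs β x y n) := by
      rw [map_add]; ring
    rw [e]; exact h
  | smul r z _ hz =>
    obtain ⟨a, ha⟩ := hz
    refine ⟨r • a, ?_⟩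
    have h := Submodule.smul_mem _ r ha
    have e : r • z - aeval v (r • a) * bs β x y n = r • (z - aeval v a * bs β x y n) := by
      rw [map_smul, smul_sub, smul_mul_assoc]
    rw [e]; exact h

/-- the elements of degree `< n` are a module over the polynomials in `v` -/
theorem low_aeval_mul_h {n : ℕ} {z : S} (hz : z ∈ Low R β v x y n) (a : R[X]) :
    aeval v a * z ∈ Low R β v x y n := by
  have hv : ∀ w ∈ Low R β v x y n, ∀ m : ℕ, v ^ m * w ∈ Low R β v x y n := by
    intro w hw m
    unfold Low at hw
    induction hw using Submodule.span_induction with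
    | mem z hz =>
      obtain ⟨i, j, hj, rfl⟩ := hz
      exact Submodule.subset_span ⟨m + i, j, hj, by ring⟩
    | zero => simp
    | add z w _ _ hz hw => rw [mul_add]; exact Submodule.add_mem _ hz hw
    | smul r z _ hz => rw [mul_smul_comm]; exact Submodule.smul_mem _ r hz
  induction a using Polynomial.induction_on' with
  | add p q hp hq => rw [map_add, add_mul]; exact Submodule.add_mem _ hp hq
  | monomial m r =>
    rw [aeval_monomial, ← Algebra.smul_def, smul_mul_assoc]
    exact Submodule.smul_mem _ r (hv z hz m)

end low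

variable {k S : Type} [Field k] [CommRing S] [IsDomain S] [Algebra k S] {R : Subalgebra k S}
  {u : R} {f : R[X]} {v x y : S}

/-- T7a, core -/
theorem span_of_adapted_core (hu0 : (u : S) ≠ 0) (z : ℕ → S) (M : ℕ → ℕ)
    (hM : ∀ n, IsEps R u f.natDegree v x y n (M n))
    (hz : ∀ n, (u : S) ^ M n * z n - bs f.natDegree x y n ∈ Low R f.natDegree v x y n) (n : ℕ) :
    ∀ (w : S) (m : ℕ), (u : S) ^ m * w ∈ Low R f.natDegree v x y n →
    w ∈ Submodule.span ((Algebra.adjoin R {v}).restrictScalars k : Subalgebra k S) (Set.range z) := by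
  induction n with
  | zero =>
    intro w m hw
    have h0 : Low R f.natDegree v x y 0 = ⊥ := by
      unfold Low
      rw [Submodule.span_eq_bot]
      rintro z ⟨i, j, hj, -⟩
      exact absurd hj (Nat.not_lt_zero j)
    rw [h0, Submodule.mem_bot] at hw
    rcases mul_eq_zero.1 hw with h | h
    · exact absurd h (pow_ne_zero _ hu0)
    · rw [h]; exact Submodule.zero_mem _
  | succ n ih =>
    intro w m hw
    obtain ⟨a, ha⟩ := low_succ_h hw
    have hLT : LT R u f.natDegree v x y n m a w := by
      refine ⟨0, ?_⟩
      rw [add_zero, pow_zero, one_mul]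
      exact ha
    obtain ⟨b, hb⟩ := (hM n).max w m a hLT
    have hb' : aeval v a * (u : S) ^ M n = (u : S) ^ m * aeval v b := by
      have := congrArg (aeval v) hb
      rw [map_mul, map_mul, map_pow, map_pow, aeval_C] at this
      exact this
    have key : (u : S) ^ (m + M n) * (w - aeval v b * z n) ∈ Low R f.natDegree v x y n := by
      have e : (u : S) ^ (m + M n) * (w - aeval v b * z n)
          = (u ^ M n : R) • ((u : S) ^ m * w - aeval v a * bs f.natDegree x y n)
            - (u ^ m : R) • (aeval v b * ((u : S) ^ M n * z n - bs f.natDegree x y n)) := by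
        rw [Algebra.smul_def, Algebra.smul_def]
        have e1 : algebraMap R S (u ^ M n) = (u : S) ^ M n := by rw [map_pow]; rfl
        have e2 : algebraMap R S (u ^ m) = (u : S) ^ m := by rw [map_pow]; rfl
        rw [e1, e2]
        linear_combination (bs f.natDegree x y n) * hb'
      rw [e]
      exact Submodule.sub_mem _ (Submodule.smul_mem _ _ ha)
        (Submodule.smul_mem _ _ (low_aeval_mul_h (hz n) b))
    have h1 := ih _ _ key
    have h2 : aeval v b * z n
        ∈ Submodule.span ((Algebra.adjoin R {v}).restrictScalars k : Subalgebra k S) (Set.range z) := by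
      have hm : aeval v b ∈ (Algebra.adjoin R {v}).restrictScalars k := by
        rw [Subalgebra.mem_restrictScalars, Algebra.adjoin_singleton_eq_range_aeval]
        exact ⟨b, rfl⟩
      have := Submodule.smul_mem
        (Submodule.span ((Algebra.adjoin R {v}).restrictScalars k : Subalgebra k S) (Set.range z))
        (⟨aeval v b, hm⟩ : ((Algebra.adjoin R {v}).restrictScalars k : Subalgebra k S))
        (Submodule.subset_span (Set.mem_range_self n))
      exact this
    have := Submodule.add_mem _ h1 h2
    rwa [sub_add_cancel] at this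

end Pool.Agent.LNDQ.Tr
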